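import Pool.Agent.Lib.MP_c13fce_lc.NRE0

/-! Block BC, first half: primitive recursive ring operations, cyclic modules, listed states. -/

namespace Pool.Agent.Lib.MP_c13fce_lc.NRE

open Pool.Agent.Lib.MP_a1ec0a_al

variable {R : Type} [Ring R] {n : ℕ}

namespace BC

/-- All lists of length `m` with entries in `F`. -/
def tup {β : Type} (F : List β) (m : ℕ) : List (List β) :=
  (List.range m).foldl (fun T _ => F.flatMap fun a => T.map fun x => a :: x) [[]]

theorem mem_tup {β : Type} {F : List β} {m : ℕ} {x : List β} :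
    x ∈ tup F m ↔ x.length = m ∧ ∀ a ∈ x, a ∈ F := by
  induction m generalizing x with
  | zero =>
    simp only [tup, List.range_zero, List.foldl_nil, List.mem_singleton, List.length_eq_zero_iff]
    exact ⟨fun h => by simp [h], fun h => h.1⟩
  | succ m ih =>
    have e : tup F (m + 1) = F.flatMap fun a => (tup F m).map fun x => a :: x := by
      simp [tup, List.range_succ]
    rw [e]
    simp only [List.mem_flatMap, List.mem_map]
    constructor
    · rintro ⟨a, ha, y, hy, rfl⟩
      obtain ⟨h1, h2⟩ := ih.1 hy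
      exact ⟨by simp [h1], fun b hb => by
        rcases List.mem_cons.1 hb with rfl | hb
        exacts [ha, h2 b hb]⟩
    · rintro ⟨h1, h2⟩
      cases x with
      | nil => simp at h1
      | cons a y =>
        exact ⟨a, h2 a List.mem_cons_self, y,
          ih.2 ⟨by simpa using h1, fun b hb => h2 b (List.mem_cons_of_mem _ hb)⟩, rfl⟩

theorem ofFn_mem_tup {β : Type} {F : List β} {m : ℕ} {f : Fin m → β} (h : ∀ i, f i ∈ F) :
    List.ofFn f ∈ tup F m :=
  mem_tup.2 ⟨by simp, fun a ha => by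
    obtain ⟨i, rfl⟩ := List.mem_ofFn.1 ha
    exact h i⟩

theorem getD_ofFn {β : Type} {m : ℕ} (f : Fin m → β) (i : Fin m) (d : β) :
    (List.ofFn f).getD i d = f i := by
  simp [List.getD_eq_getElem?_getD]

theorem getD_range {β : Type} {m i : ℕ} (f : ℕ → β) (h : i < m) (d : β) :
    ((List.range m).map f).getD i d = f i := by
  simp [List.getD_eq_getElem?_getD, h]

@[fun_prop] theorem pr_tup {α β : Type} [Primcodable α] [Primcodable β] {F : α → List β}
    {m : α → ℕ} (hF : PR F) (hm : PR m) : PR fun a => tup (F a) (m a) := by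
  unfold tup; fun_prop

theorem all_range {m : ℕ} {p : ℕ → Prop} : AllL (List.range m) p ↔ ∀ i : Fin m, p i := by
  simp only [AllL, List.mem_range]
  exact ⟨fun h i => h i i.2, fun h i hi => h ⟨i, hi⟩⟩

theorem allB_range {m : ℕ} {p : ℕ → Bool} :
    (List.range m).all p = true ↔ ∀ i : Fin m, p i = true := by
  simp only [List.all_eq_true, List.mem_range]
  exact ⟨fun h i => h i i.2, fun h i hi => h ⟨i, hi⟩⟩

theorem mem_span_list {M : Type} [AddCommGroup M] [Module R M] {β : Type} (l : List β) (d : β)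
    (f : β → M) {v : M} : v ∈ Submodule.span R {x | ∃ ρ ∈ l, f ρ = x} ↔
      ∃ a : Fin l.length → R, ∑ j, a j • f (l.getD j d) = v := by
  have : {x | ∃ ρ ∈ l, f ρ = x} = Set.range fun j : Fin l.length => f (l.getD j d) := by
    ext x
    simp only [Set.mem_ofPred_eq, Set.mem_range]
    constructor
    · rintro ⟨ρ, h, rfl⟩
      obtain ⟨j, rfl⟩ := List.mem_iff_get.1 h
      exact ⟨j, by simp [List.getD_eq_getElem?_getD]⟩
    · rintro ⟨j, rfl⟩
      exact ⟨_, by simp [List.getD_eq_getElem?_getD], rfl⟩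
  rw [this, Submodule.mem_span_range_iff_exists_fun]

theorem mem_cU {g : List R} {Q : ℕ} {X : R} : X ∈ cU g Q ↔
    ∃ (a : Fin g.length → R) (s : R), X - ∑ j, a j * g.getD j 0 = (Q : R) * s := by
  have h : ∀ v, v ∈ spanL g ↔ ∃ a : Fin g.length → R, ∑ j, a j * g.getD j 0 = v := fun v => by
    have := mem_span_list (R := R) g 0 id (v := v)
    simpa [spanL] using this
  simp only [cU, Submodule.mem_sup, h, Submodule.mem_span_singleton, smul_eq_mul]
  constructor
  · rintro ⟨_, ⟨a, rfl⟩, _, ⟨s, rfl⟩, rfl⟩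
    exact ⟨a, s, by rw [add_sub_cancel_left, Nat.cast_comm]⟩
  · rintro ⟨a, s, e⟩
    exact ⟨_, ⟨a, rfl⟩, _, ⟨s, rfl⟩, by rw [← Nat.cast_comm, ← e, add_sub_cancel]⟩

theorem mul_cast_mul (Q : ℕ) (a b : R) : a * ((Q : R) * b) = (Q : R) * (a * b) := by
  rw [← mul_assoc, ← Nat.cast_comm, mul_assoc]

theorem cast_mul_mem (g : List R) (Q : ℕ) (s : R) : (Q : R) * s ∈ cU g Q :=
  mem_cU.2 ⟨0, s, by simp⟩

end BC

open BC

theorem exists_vec (v : Fin n → R) : ∃ v₀ : List R, vec n v₀ = v :=
  ⟨List.ofFn v, funext fun i => getD_ofFn v i 0⟩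

theorem BC.exists_mat {m g : ℕ} (f : Fin m → Fin g → R) :
    ∃ w : Mat R, ∀ (i : Fin m) (j : Fin g), ent w i j = f i j :=
  ⟨List.ofFn fun i => List.ofFn (f i), fun i j => by rw [ent, getD_ofFn, getD_ofFn]⟩

theorem exists_toC (L : PPc R) (c : L.toPP.ι → Fin n → R) : ∃ c₀ : Mat R, toC L n c₀ = c := by
  obtain ⟨w, hw⟩ := exists_mat (m := L.length) c
  exact ⟨w, funext fun i => funext fun j => hw i j⟩

theorem im_nil (q : ℕ) (L : PPc R) : im L q n [[]] = {0} := by
  ext v
  have : toC L n [] = 0 := funext fun i => funext fun j => by simp [toC, ent]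
  simp [im, this, mkV_zero, eq_comm]

theorem BC.sol_iff {L : PPc R} {U : Submodule R R} {y : List R} {X : R} {c : Mat R} :
    Sol L.toPP U (vec n y) X (toC L n c) ↔ ∃ w : Fin (L.map List.length).sum → R,
      ∀ i : Fin L.length, ent L i 0 * X +
        ∑ k : Fin (L.map List.length).sum, ent L i (k + 1) * w k +
          ∑ j ∈ Finset.range n, ent c i j * y.getD j 0 ∈ U := by
  simp only [Finset.sum_range]
  rfl

variable {α : Type} [Primcodable α] [Primcodable R] [CR R]

@[fun_prop] theorem pr_add {f g : α → R} (hf : PR f) (hg : PR g) : PR fun a => f a + g a :=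
  (CR.c (R := R)).add.comp hf hg
@[fun_prop] theorem pr_mul {f g : α → R} (hf : PR f) (hg : PR g) : PR fun a => f a * g a :=
  (CR.c (R := R)).mul.comp hf hg
@[fun_prop] theorem pr_neg {f : α → R} (hf : PR f) : PR fun a => -f a :=
  (CR.c (R := R)).neg.comp hf
@[fun_prop] theorem pr_sub {f g : α → R} (hf : PR f) (hg : PR g) : PR fun a => f a - g a :=
  (pr_add hf (pr_neg hg)).congr fun _ => (sub_eq_add_neg _ _).symm
@[fun_prop] theorem pr_sum {f : α → ℕ → R} {k : α → ℕ} (hf : PR fun p : α × ℕ => f p.1 p.2)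
    (hk : PR k) : PR fun a => ∑ i ∈ Finset.range (k a), f a i := by
  refine (PR.foldl (f := fun a (s : R) (i : ℕ) => s + f a i) (l := fun a => List.range (k a))
    (i := fun _ => (0 : R)) (pr_add (by fun_prop)
      (hf.comp (g := fun p : α × R × ℕ => (p.1, p.2.2)) (by fun_prop))) (by fun_prop)
      (PR.const _)).congr fun a => ?_
  induction k a with
  | zero => rfl
  | succ k ih => rw [List.range_succ, List.foldl_append, ih, Finset.sum_range_succ]; rfl
@[fun_prop] theorem pr_cast {f : α → ℕ} (hf : PR f) : PR fun a => ((f a : ℕ) : R) :=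
  (pr_sum (f := fun _ _ => (1 : R)) (PR.const _) hf).congr fun a => by simp
@[fun_prop] theorem pr_pow {f : α → R} {k : α → ℕ} (hf : PR f) (hk : PR k) :
    PR fun a => f a ^ k a := by
  refine (PR.foldl (f := fun a (s : R) (_ : ℕ) => s * f a) (l := fun a => List.range (k a))
    (i := fun _ => (1 : R)) (by fun_prop) (by fun_prop) (PR.const _)).congr fun a => ?_
  induction k a with
  | zero => simp
  | succ k ih => rw [List.range_succ, List.foldl_append, ih, pow_succ]; rfl
omit [Ring R] [CR R] in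
@[fun_prop] theorem pr_width {L : α → PPc R} (hL : PR L) :
    PR fun a => ((L a).map List.length).sum := by
  refine (PR.foldr (f := fun _ (x : List R) (s : ℕ) => x.length + s) (l := L)
    (i := fun _ => 0) (by fun_prop) hL (PR.const _)).congr fun a => ?_
  induction L a with
  | nil => rfl
  | cons x t ih => simp [ih]
omit [CR R] in
@[fun_prop] theorem pr_ent {c : α → Mat R} {i j : α → ℕ} (hc : PR c) (hi : PR i) (hj : PR j) :
    PR fun a => ent (c a) (i a) (j a) := by
  unfold ent; fun_prop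
@[fun_prop] theorem pr_reps {f : α → ℕ} (hf : PR f) :
    PR fun a => (CR.c (R := R)).reps (f a) := (CR.c (R := R)).reps_prim.comp hf
@[fun_prop] theorem pr_dv {f : α → ℕ} {g : α → R} (hf : PR f) (hg : PR g) :
    PR fun a => (CR.c (R := R)).dv (f a) (g a) := (CR.c (R := R)).dv_prim.comp hf hg
@[fun_prop] theorem s1_le {f g : α → ℕ} (hf : PR f) (hg : PR g) : S1 fun a => f a ≤ g a :=
  (S1.eq (PR.ble hf hg) (PR.const true)).congr fun a => by simp
@[fun_prop] theorem s1_lt {f g : α → ℕ} (hf : PR f) (hg : PR g) : S1 fun a => f a < g a :=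
  s1_le (f := fun a => f a + 1) (by fun_prop) hg

namespace BC

theorem s1_cond {H p : α → Prop} {B : α → Bool} (hH : S1 H) (hB : PR B)
    (h : ∀ a, H a → (p a ↔ B a = true)) : S1 fun a => H a ∧ p a :=
  (hH.and (S1.eq hB (PR.const true))).congr fun a => and_congr_right fun ha => (h a ha).symm

theorem exists_rep {Q g : ℕ} (hQ : 0 < Q) (u : Fin g → R) :
    ∃ x ∈ tup ((CR.c (R := R)).reps Q) g, ∀ p : Fin g, ∃ s, u p = x.getD p 0 + (Q : R) * s := by
  choose r hr s hs using fun p => (CR.c (R := R)).reps_spec Q hQ (u p)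
  exact ⟨List.ofFn r, ofFn_mem_tup hr, fun p => ⟨s p, by rw [getD_ofFn]; exact hs p⟩⟩

theorem exists_repM {Q m g : ℕ} (hQ : 0 < Q) (u : Fin m → Fin g → R) :
    ∃ x ∈ tup (tup ((CR.c (R := R)).reps Q) g) m, ∀ (i : Fin m) (p : Fin g),
      ∃ s, u i p = ent x i p + (Q : R) * s := by
  choose r hr hs using fun i => exists_rep hQ (u i)
  exact ⟨List.ofFn r, ofFn_mem_tup hr, fun i p => by rw [ent, getD_ofFn]; exact hs i p⟩

/-- Membership in the listed set of states. -/
def imB (q n : ℕ) (L : PPc R) (S : List (Mat R)) (c : Mat R) : Bool :=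
  S.any fun d => (List.range L.length).all fun i => (List.range n).all fun j =>
    (CR.c (R := R)).dv q (ent d i j - ent c i j)

theorem imB_iff {q : ℕ} {L : PPc R} {S : List (Mat R)} {c : Mat R} :
    mkV q (toC L n c) ∈ im L q n S ↔ imB q n L S c = true := by
  simp only [imB, List.any_eq_true, allB_range, CompRing.dv_spec, im, Set.mem_ofPred_eq, mkV_eq,
    Nat.cast_comm]
  rfl

/-- Representatives of all states. -/
def sts (q n : ℕ) (L : PPc R) : List (Mat R) := tup (tup ((CR.c (R := R)).reps q) n) L.length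

theorem exists_sts {q : ℕ} (hq : 0 < q) (L : PPc R) (v : V L.toPP q n) :
    ∃ c ∈ sts q n L, mkV q (toC L n c) = v := by
  obtain ⟨d, rfl⟩ := mkV_surj q v
  obtain ⟨x, hx, h⟩ := exists_repM (m := L.length) hq d
  refine ⟨x, hx, (mkV_eq.2 fun i j => ?_).symm⟩
  obtain ⟨s, hs⟩ := h i j
  exact ⟨s, by rw [hs, ← Nat.cast_comm]; exact add_sub_cancel_left _ _⟩

theorem im_eq_iff {q : ℕ} (hq : 0 < q) {L : PPc R} {S : List (Mat R)} {X : Set (V L.toPP q n)}
    {f : Mat R → Bool} (h : ∀ c, mkV q (toC L n c) ∈ X ↔ f c = true) :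
    im L q n S = X ↔ ((sts q n L).all fun c => imB q n L S c == f c) = true := by
  have h' : ∀ c, (imB q n L S c == f c) = true ↔
      (mkV q (toC L n c) ∈ im L q n S ↔ mkV q (toC L n c) ∈ X) := fun c => by
    rw [beq_iff_eq, Bool.eq_iff_iff, ← imB_iff, ← h]
  simp only [List.all_eq_true, h']
  refine ⟨fun e c _ => by rw [e], fun e => Set.ext fun v => ?_⟩
  obtain ⟨c, hc, rfl⟩ := exists_sts hq L v
  exact e c hc

/-- Membership in a left ideal of finite index. -/
def inB (g : List R) (Q : ℕ) (X : R) : Bool :=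
  (tup ((CR.c (R := R)).reps Q) g.length).any fun a =>
    (CR.c (R := R)).dv Q (X - ∑ j ∈ Finset.range g.length, a.getD j 0 * g.getD j 0)

theorem inB_iff {g : List R} {Q : ℕ} (hQ : 0 < Q) {X : R} : X ∈ cU g Q ↔ inB g Q X = true := by
  simp only [inB, List.any_eq_true, CompRing.dv_spec, mem_cU, Finset.sum_range]
  refine ⟨?_, fun ⟨a, _, s, h⟩ => ⟨_, s, h⟩⟩
  rintro ⟨a, s, h⟩
  obtain ⟨x, hx, hs⟩ := exists_rep hQ a
  choose t ht using hs
  refine ⟨x, hx, s + ∑ j, t j * g.getD j 0, ?_⟩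
  simp only [ht, add_mul, Finset.sum_add_distrib, mul_assoc, ← Finset.mul_sum] at h
  rw [mul_add, ← h]
  abel

/-- Solvability in a finite cyclic module. -/
def solB (n : ℕ) (L : PPc R) (g : List R) (Q : ℕ) (y : List R) (X : R) (c : Mat R) : Bool :=
  (tup ((CR.c (R := R)).reps Q) (L.map List.length).sum).any fun w =>
    (List.range L.length).all fun i => inB g Q (ent L i 0 * X +
      ∑ k ∈ Finset.range (L.map List.length).sum, ent L i (k + 1) * w.getD k 0 +
        ∑ j ∈ Finset.range n, ent c i j * y.getD j 0)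

theorem solB_iff {L : PPc R} {g : List R} {Q : ℕ} (hQ : 0 < Q) {y : List R} {X : R} {c : Mat R} :
    Sol L.toPP (cU g Q) (vec n y) X (toC L n c) ↔ solB n L g Q y X c = true := by
  simp only [solB, List.any_eq_true, allB_range, ← inB_iff hQ, sol_iff,
    Finset.sum_range (n := (L.map List.length).sum)]
  refine ⟨?_, fun ⟨w, _, h⟩ => ⟨_, h⟩⟩
  rintro ⟨w, h⟩
  obtain ⟨x, hx, hs⟩ := exists_rep hQ w
  choose t ht using hs
  refine ⟨x, hx, fun i => ?_⟩
  have := sub_mem (h i) (cast_mul_mem g Q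
    (∑ k : Fin (L.map List.length).sum, ent L i (k + 1) * t k))
  convert this using 1
  simp only [ht, mul_add, Finset.sum_add_distrib, mul_cast_mul, ← Finset.mul_sum]
  abel

end BC

variable {q m Q v : α → ℕ} {W : α → FC R} {L L' : α → PPc R} {k : α → Bool}
  {S S' A A' : α → List (Mat R)} {c : α → Mat R} {g y : α → List R} {X : α → R}

@[fun_prop] theorem BC.pr_imB (hq : PR q) (hm : PR m) (hL : PR L) (hS : PR S) (hc : PR c) :
    PR fun a => imB (q a) (m a) (L a) (S a) (c a) := by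
  unfold imB; fun_prop
@[fun_prop] theorem BC.pr_sts (hq : PR q) (hm : PR m) (hL : PR L) :
    PR fun a => sts (q a) (m a) (L a) := by
  unfold sts; fun_prop
@[fun_prop] theorem BC.pr_inB (hg : PR g) (hQ : PR Q) (hX : PR X) :
    PR fun a => inB (g a) (Q a) (X a) := by
  unfold inB; fun_prop
@[fun_prop] theorem BC.pr_solB (hm : PR m) (hL : PR L) (hg : PR g) (hQ : PR Q) (hy : PR y)
    (hX : PR X) (hc : PR c) : PR fun a => solB (m a) (L a) (g a) (Q a) (y a) (X a) (c a) := by
  unfold solB; fun_prop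

@[fun_prop] theorem s1_UnivC (hq : PR q) (hm : PR m) (hL : PR L) (hS : PR S) :
    S1 fun a => UnivC (q a) (m a) (L a) (S a) :=
  s1_cond (B := fun a => (sts (q a) (m a) (L a)).all fun c => imB (q a) (m a) (L a) (S a) c == true)
    (by fun_prop) (by fun_prop) fun a ha => im_eq_iff ha (f := fun _ => true) fun c => by simp
@[fun_prop] theorem s1_ImC (hq : PR q) (hm : PR m) (hL : PR L) (hS : PR S) (hc : PR c) :
    S1 fun a => ImC (q a) (m a) (L a) (S a) (c a) :=
  (S1.eq (pr_imB hq hm hL hS hc) (PR.const true)).congr fun _ => imB_iff.symm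
@[fun_prop] theorem s1_InC (hg : PR g) (hQ : PR Q) (hX : PR X) :
    S1 fun a => InC (g a) (Q a) (X a) := by
  have : S1 fun a => ∃ x : List R, (CR.c (R := R)).dv (Q a)
      (X a - ∑ j ∈ Finset.range (g a).length, x.getD j 0 * (g a).getD j 0) = true := by fun_prop
  refine this.congr fun a => ?_
  simp only [CompRing.dv_spec, InC, mem_cU, Finset.sum_range]
  refine ⟨fun ⟨x, s, h⟩ => ⟨_, s, h⟩, ?_⟩
  rintro ⟨x, s, h⟩
  obtain ⟨x, rfl⟩ := exists_vec x
  exact ⟨x, s, h⟩
@[fun_prop] theorem s1_SolC (hq : PR q) (hm : PR m) (hL : PR L) (hg : PR g) (hQ : PR Q)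
    (hy : PR y) (hS : PR S) (hX : PR X) :
    S1 fun a => SolC (q a) (m a) (L a) (g a) (Q a) (y a) (S a) (X a) := by
  have : S1 fun a => ∃ c : Mat R, ImC (q a) (m a) (L a) (S a) c ∧ ∃ w : List R,
      AllL (List.range (L a).length) fun i => InC (g a) (Q a) (ent (L a) i 0 * X a +
        ∑ k ∈ Finset.range ((L a).map List.length).sum, ent (L a) i (k + 1) * w.getD k 0 +
          ∑ j ∈ Finset.range (m a), ent c i j * (y a).getD j 0) := by fun_prop
  refine this.congr fun a => ?_
  simp only [all_range, Finset.sum_range (n := ((L a).map List.length).sum)]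
  constructor
  · rintro ⟨c, hc, w, h⟩
    exact ⟨_, hc, sol_iff.2 ⟨_, h⟩⟩
  · rintro ⟨c, hc, h⟩
    obtain ⟨c, rfl⟩ := exists_toC _ c
    obtain ⟨w, h⟩ := sol_iff.1 h
    obtain ⟨w, rfl⟩ := exists_vec w
    exact ⟨c, hc, w, h⟩
@[fun_prop] theorem s1_NSolC (hq : PR q) (hm : PR m) (hL : PR L) (hg : PR g) (hQ : PR Q)
    (hy : PR y) (hS : PR S) (hX : PR X) :
    S1 fun a => NSolC (q a) (m a) (L a) (g a) (Q a) (y a) (S a) (X a) := by
  have h1 : S1 fun a => 0 < Q a ∧ AllL (List.range (m a)) fun j =>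
      InC (g a) (Q a) ((y a).getD j 0 * (q a : R)) := by fun_prop
  have := s1_cond (p := fun a => ¬ SolC (q a) (m a) (L a) (g a) (Q a) (y a) (S a) (X a))
    (B := fun a => !(S a).any fun c => solB (m a) (L a) (g a) (Q a) (y a) (X a) c) h1
    (by fun_prop) fun a ha => by
      rw [Bool.not_eq_true', ← Bool.not_eq_true]
      refine not_congr ?_
      simp only [List.any_eq_true, ← solB_iff ha.1]
      refine ⟨?_, fun ⟨c, hc, h⟩ => ⟨_, ⟨c, hc, rfl⟩, h⟩⟩
      rintro ⟨c, ⟨d, hd, e⟩, w, h⟩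
      refine ⟨d, hd, w, fun i => ?_⟩
      choose s hs using mkV_eq.1 e i
      have h2 : ∑ j, s j * (vec (m a) (y a) j * (q a : R)) ∈ cU (g a) (Q a) :=
        Submodule.sum_mem _ fun j _ => Submodule.smul_mem _ (s j) (all_range.1 ha.2 j)
      convert add_mem (h i) h2 using 1
      rw [add_assoc _ (∑ j, c i j * _), ← Finset.sum_add_distrib]
      congr 1
      refine Finset.sum_congr rfl fun j _ => ?_
      rw [← Nat.cast_comm, ← mul_assoc, ← hs, ← add_mul, add_sub_cancel]
  refine this.congr fun a => ?_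
  rw [all_range, and_assoc]
  rfl

theorem finite_Rq {q : ℕ} (hq : 0 < q) : Finite (Rq R q) := by
  have := ((CR.c (R := R)).reps q).finite_toSet.to_subtype
  refine Finite.of_surjective (fun x : {x | x ∈ (CR.c (R := R)).reps q} =>
    (Submodule.Quotient.mk x.1 : Rq R q)) fun z => ?_
  obtain ⟨r, rfl⟩ := Submodule.Quotient.mk_surjective _ z
  obtain ⟨r', hr, s, rfl⟩ := (CR.c (R := R)).reps_spec q hq r
  refine ⟨⟨r', hr⟩, ((Submodule.Quotient.eq _).2 (Submodule.mem_span_singleton.2 ⟨s, ?_⟩)).symm⟩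
  rw [smul_eq_mul, ← Nat.cast_comm, add_sub_cancel_left]

theorem exists_im {q : ℕ} (hq : 0 < q) (L : PPc R) (X : Set (V L.toPP q n)) :
    ∃ Sl, im L q n Sl = X := by
  classical
  refine ⟨(sts q n L).filter fun c => decide (mkV q (toC L n c) ∈ X), Set.ext fun v => ?_⟩
  simp only [im, Set.mem_ofPred_eq, List.mem_filter, decide_eq_true_eq]
  refine ⟨fun ⟨c, h, e⟩ => e ▸ h.2, fun h => ?_⟩
  obtain ⟨c, hc, rfl⟩ := exists_sts hq L v
  exact ⟨c, ⟨hc, h⟩, rfl⟩

end Pool.Agent.Lib.MP_c13fce_lc.NRE
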