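import Pool.Agent.Lib.MP_c13fce_lc.LogA1

/-! Block A1, part 2: validity of formulas in all modules is recursively enumerable. -/

namespace Pool.Agent.Lib.MP_c13fce_lc.LogA

open Pool.Agent.Lib.MP_a1ec0a_al Encodable

/-- Propositional atoms: `(true, u, v)` says that the names `u`, `v` are equal, `(false, a, ρ)`
says that the formula `a` holds in the environment `ρ`. -/
abbrev At := Bool × ℕ × ℕ

/-- Clauses: hypotheses and alternatives. -/
abbrev Cls := List At × List At

def satC (b : At → Bool) (c : Cls) : Bool := !(c.1.all b) || c.2.any b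

theorem satC_iff {b : At → Bool} {c : Cls} :
    satC b c = true ↔ ((∀ a ∈ c.1, b a = true) → ∃ a ∈ c.2, b a = true) := by
  simp only [satC, Bool.or_eq_true, Bool.not_eq_true', List.any_eq_true, ← List.all_eq_true]
  cases c.1.all b <;> simp

theorem satC_congr {b b' : At → Bool} {c : Cls} (h : ∀ a ∈ c.1 ++ c.2, b a = b' a) :
    satC b c = satC b' c := by
  rw [Bool.eq_iff_iff, satC_iff, satC_iff]
  have h1 : ∀ a ∈ c.1, b a = b' a := fun a ha => h a (List.mem_append_left _ ha)
  have h2 : ∀ a ∈ c.2, b a = b' a := fun a ha => h a (List.mem_append_right _ ha)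
  constructor
  · intro H H'
    obtain ⟨a, ha, e⟩ := H fun a ha => (h1 a ha).trans (H' a ha)
    exact ⟨a, ha, (h2 a ha).symm.trans e⟩
  · intro H H'
    obtain ⟨a, ha, e⟩ := H fun a ha => (h1 a ha).symm.trans (H' a ha)
    exact ⟨a, ha, (h2 a ha).trans e⟩

theorem isClosed_satC (c : Cls) : IsClosed {b : At → Bool | satC b c = true} := by
  have h : {b : At → Bool | satC b c = true} =
      (⋃ a ∈ {a | a ∈ c.1}, {b : At → Bool | b a = false}) ∪
        ⋃ a ∈ {a | a ∈ c.2}, {b : At → Bool | b a = true} := by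
    ext b
    simp only [Set.mem_ofPred_eq, satC_iff, Set.mem_union, Set.mem_iUnion, exists_prop]
    by_cases H : ∀ a ∈ c.1, b a = true
    · constructor
      · exact fun h => Or.inr (h H)
      · rintro (⟨a, ha, e⟩ | h) _
        · rw [H a ha] at e; exact absurd e (by simp)
        · exact h
    · refine ⟨fun _ => Or.inl ?_, fun _ h => absurd h H⟩
      push Not at H
      obtain ⟨a, ha, e⟩ := H
      exact ⟨a, ha, by simpa using e⟩
  rw [h]
  refine IsClosed.union ?_ ?_ <;>
    exact (List.finite_toSet _).isClosed_biUnion fun a _ =>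
      isClosed_eq (continuous_apply a) continuous_const

def subl (l : List At) : List (List At) := l.foldr (fun a s => s ++ s.map (a :: ·)) [[]]

theorem filter_mem_subl (b : At → Bool) (l : List At) : l.filter b ∈ subl l := by
  induction l with
  | nil => simp [subl]
  | cons a l ih =>
    change _ ∈ subl l ++ (subl l).map (a :: ·)
    cases h : b a
    · exact List.mem_append_left _ (by simpa [List.filter_cons, h] using ih)
    · exact List.mem_append_right _ (List.mem_map.2 ⟨_, ih, by simp [h]⟩)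

def unsatB (L : List Cls) : Bool :=
  (subl (L.flatMap fun c => c.1 ++ c.2)).all fun s =>
    L.any fun c => !satC (fun a => s.any fun a' => decide (a' = a)) c

theorem pr_unsatB : PR unsatB := by
  have h0 : PR fun x : List At × At => x.1.any fun a' => decide (a' = x.2) :=
    PR.any (f := fun (x : List At × At) a' => decide (a' = x.2))
      (Primrec.eq.comp Primrec.snd (Primrec.snd.comp Primrec.fst)).decide (by fun_prop)
  have h1 : PR fun x : List At × List At => x.2.all fun a => x.1.any fun a' => decide (a' = a) :=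
    PR.all (f := fun (x : List At × List At) a => x.1.any fun a' => decide (a' = a))
      (h0.comp (g := fun y : (List At × List At) × At => (y.1.1, y.2)) (by fun_prop)) (by fun_prop)
  have h2 : PR fun x : List At × List At => x.2.any fun a => x.1.any fun a' => decide (a' = a) :=
    PR.any (f := fun (x : List At × List At) a => x.1.any fun a' => decide (a' = a))
      (h0.comp (g := fun y : (List At × List At) × At => (y.1.1, y.2)) (by fun_prop)) (by fun_prop)
  have h3 : PR fun x : List At × Cls => !satC (fun a => x.1.any fun a' => decide (a' = a)) x.2 :=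
    PR.not (PR.or (PR.not (h1.comp (g := fun y : List At × Cls => (y.1, y.2.1)) (by fun_prop)))
      (h2.comp (g := fun y : List At × Cls => (y.1, y.2.2)) (by fun_prop)))
  have h4 : PR fun x : List Cls × List At =>
      x.1.any fun c => !satC (fun a => x.2.any fun a' => decide (a' = a)) c :=
    PR.any (f := fun (x : List Cls × List At) c => !satC (fun a => x.2.any fun a' => decide (a' = a)) c)
      (h3.comp (g := fun y : (List Cls × List At) × Cls => (y.1.2, y.2)) (by fun_prop))
      (by fun_prop)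
  refine PR.all (f := fun (L : List Cls) (s : List At) =>
    L.any fun c => !satC (fun a => s.any fun a' => decide (a' = a)) c) h4 ?_
  unfold subl
  fun_prop

theorem unsatB_iff {L : List Cls} : unsatB L = true ↔ ∀ b, ∃ c ∈ L, satC b c = false := by
  simp only [unsatB, List.all_eq_true, List.any_eq_true, Bool.not_eq_true']
  refine ⟨fun h b => ?_, fun h s _ => h _⟩
  obtain ⟨c, hc, e⟩ := h _ (filter_mem_subl b _)
  refine ⟨c, hc, (satC_congr fun a ha => ?_).trans e⟩
  rw [Bool.eq_iff_iff]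
  simp only [List.any_eq_true, List.mem_filter, decide_eq_true_eq, List.mem_flatMap]
  exact ⟨fun h => ⟨a, ⟨⟨c, hc, ha⟩, h⟩, rfl⟩, fun ⟨_, h, e⟩ => e ▸ h.2⟩

/-- Compactness for an indexed family of finite lists of clauses. -/
theorem compactness {P : Type} (gen : P → List Cls) (c₀ : Cls)
    (h : ∀ b, satC b c₀ = true → ¬ ∀ p, ∀ c ∈ gen p, satC b c = true) :
    ∃ l : List P, unsatB (c₀ :: l.flatMap gen) = true := by
  classical
  have hs : IsCompact {b : At → Bool | satC b c₀ = true} := (isClosed_satC c₀).isCompact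
  obtain ⟨u, hu⟩ := hs.elim_finite_subfamily_closed
    (fun p : P => ⋂ c ∈ {c | c ∈ gen p}, {b : At → Bool | satC b c = true})
    (fun p => isClosed_biInter fun c _ => isClosed_satC c) (by
      ext b
      simp only [Set.mem_inter_iff, Set.mem_ofPred_eq, Set.mem_iInter, Set.mem_empty_iff_false,
        iff_false, not_and]
      exact h b)
  refine ⟨u.toList, unsatB_iff.2 fun b => ?_⟩
  by_contra H
  push Not at H
  have : b ∈ ({b : At → Bool | satC b c₀ = true} ∩
      ⋂ p ∈ u, ⋂ c ∈ {c | c ∈ gen p}, {b : At → Bool | satC b c = true}) := by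
    simp only [Set.mem_inter_iff, Set.mem_ofPred_eq, Set.mem_iInter]
    refine ⟨by simpa using H c₀ List.mem_cons_self, fun p hp c hc => ?_⟩
    simpa using H c (List.mem_cons_of_mem _ (List.mem_flatMap.2 ⟨p, Finset.mem_toList.2 hp, hc⟩))
  rw [hu] at this
  exact this

variable {R : Type} [Ring R] [Primcodable R]

def nZ : ℕ := Nat.pair 0 0
def nA (u v : ℕ) : ℕ := Nat.pair 1 (Nat.pair u v)
def nN (u : ℕ) : ℕ := Nat.pair 2 u
def nS (r : R) (u : ℕ) : ℕ := Nat.pair 3 (Nat.pair (encode r) u)
def nT (s ρ : ℕ) : ℕ := Nat.pair 4 (Nat.pair s ρ)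
def nW (a i ρ : ℕ) : ℕ := Nat.pair 5 (Nat.pair a (Nat.pair i ρ))
def eC (i u ρ : ℕ) : ℕ := Nat.pair i (Nat.pair u ρ) + 1
def aE (u v : ℕ) : At := (true, u, v)
def aT (a ρ : ℕ) : At := (false, a, ρ)
def addR (p : R × R) : R := p.1 + p.2
def mulR (p : R × R) : R := p.1 * p.2

/-- Instances of the clause schemes: congruence and module laws. -/
def gen1 (u v w x : ℕ) (r s : R) : List Cls :=
  [([], [aE u u]), ([aE u v, aE u w], [aE v w]), ([aE u v, aE w x], [aE (nA u w) (nA v x)]),
    ([aE u v], [aE (nN u) (nN v)]), ([aE u v], [aE (nS r u) (nS r v)]),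
    ([], [aE (nA (nA u v) w) (nA u (nA v w))]), ([], [aE (nA u v) (nA v u)]),
    ([], [aE (nA nZ u) u]), ([], [aE (nA (nN u) u) nZ]),
    ([], [aE (nS r (nA u v)) (nA (nS r u) (nS r v))]),
    ([], [aE (nS (addR (r, s)) u) (nA (nS r u) (nS s u))]),
    ([], [aE (nS (mulR (r, s)) u) (nS r (nS s u))]), ([], [aE (nS (1 : R) u) u])]

/-- Instances of the clause schemes: values of terms and truth of formulas. -/
def gen2 (u v w x : ℕ) (r : R) : List Cls :=
  [([], [aE (nT (tVar u) (eC v w x)) (bif u == v then w else nT (tVar u) x)]),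
    ([], [aE (nT tZero x) nZ]), ([], [aE (nT (tAdd u v) x) (nA (nT u x) (nT v x))]),
    ([], [aE (nT (tNeg u) x) (nN (nT u x))]), ([], [aE (nT (tSmul r u) x) (nS r (nT u x))]),
    ([aT (fEq u v) x], [aE (nT u x) (nT v x)]), ([aE (nT u x) (nT v x)], [aT (fEq u v) x]),
    ([aT (fNot u) x, aT u x], []), ([], [aT (fNot u) x, aT u x]),
    ([aT (fImp u v) x, aT u x], [aT v x]), ([], [aT (fImp u v) x, aT u x]),
    ([aT v x], [aT (fImp u v) x]), ([aT (fAll u v) x], [aT v (eC u w x)]),
    ([aT v (eC u (nW v u x) x)], [aT (fAll u v) x])]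

def gen (p : (ℕ × ℕ × ℕ × ℕ) × R × R) : List Cls :=
  gen1 p.1.1 p.1.2.1 p.1.2.2.1 p.1.2.2.2 p.2.1 p.2.2 ++ gen2 p.1.1 p.1.2.1 p.1.2.2.1 p.1.2.2.2 p.2.1

theorem pr_gen (hR : CompRing R) : PR (gen (R := R)) := by
  have ha : PR (addR (R := R)) := hR.add
  have hm : PR (mulR (R := R)) := hR.mul
  have h1 : PR fun p : (ℕ × ℕ × ℕ × ℕ) × R × R =>
      gen1 p.1.1 p.1.2.1 p.1.2.2.1 p.1.2.2.2 p.2.1 p.2.2 := by
    unfold gen1 aE nA nN nS
    fun_prop
  have h2 : PR fun p : (ℕ × ℕ × ℕ × ℕ) × R × R =>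
      gen2 p.1.1 p.1.2.1 p.1.2.2.1 p.1.2.2.2 p.2.1 := by
    unfold gen2 aE aT nA nN nS nT nW eC tVar tAdd tNeg tSmul fEq fNot fImp fAll
    fun_prop
  exact PR.append h1 h2

/-- The clauses, as properties of two relations. -/
structure Good (R : Type) [Ring R] [Primcodable R] (E T : ℕ → ℕ → Prop) : Prop where
  refl : ∀ u, E u u
  eucl : ∀ u v w, E u v → E u w → E v w
  cA : ∀ u v w x, E u v → E w x → E (nA u w) (nA v x)
  cN : ∀ u v, E u v → E (nN u) (nN v)
  cS : ∀ (r : R) u v, E u v → E (nS r u) (nS r v)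
  assoc : ∀ u v w, E (nA (nA u v) w) (nA u (nA v w))
  comm : ∀ u v, E (nA u v) (nA v u)
  zero : ∀ u, E (nA nZ u) u
  neg : ∀ u, E (nA (nN u) u) nZ
  sadd : ∀ (r : R) u v, E (nS r (nA u v)) (nA (nS r u) (nS r v))
  adds : ∀ (r s : R) u, E (nS (r + s) u) (nA (nS r u) (nS s u))
  muls : ∀ (r s : R) u, E (nS (r * s) u) (nS r (nS s u))
  ones : ∀ u, E (nS (1 : R) u) u
  var : ∀ u v w x, E (nT (tVar u) (eC v w x)) (bif u == v then w else nT (tVar u) x)
  tz : ∀ x, E (nT tZero x) nZ
  ta : ∀ u v x, E (nT (tAdd u v) x) (nA (nT u x) (nT v x))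
  tn : ∀ u x, E (nT (tNeg u) x) (nN (nT u x))
  ts : ∀ (r : R) u x, E (nT (tSmul r u) x) (nS r (nT u x))
  fe : ∀ u v x, T (fEq u v) x ↔ E (nT u x) (nT v x)
  fn : ∀ u x, T (fNot u) x ↔ ¬ T u x
  fi : ∀ u v x, T (fImp u v) x ↔ (T u x → T v x)
  fa : ∀ u v w x, T (fAll u v) x → T v (eC u w x)
  fw : ∀ u v x, T v (eC u (nW v u x) x) → T (fAll u v) x

theorem good_iff (b : At → Bool) : (∀ p : (ℕ × ℕ × ℕ × ℕ) × R × R, ∀ c ∈ gen p, satC b c = true) ↔
    Good R (fun u v => b (aE u v) = true) fun a ρ => b (aT a ρ) = true := by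
  simp only [gen, gen1, gen2, List.cons_append, List.nil_append, List.forall_mem_cons]
  simp only [satC_iff, List.forall_mem_cons]
  simp only [List.not_mem_nil, false_imp_iff, implies_true, and_true, List.mem_cons, or_false,
    exists_eq_left, true_imp_iff, and_imp, addR, mulR, false_and,
    exists_false, exists_eq_or_imp]
  simp only [Prod.forall, forall_and]
  constructor
  · rintro ⟨h1, h2, h3, h4, h5, h6, h7, h8, h9, h10, h11, h12, h13, k1, k2, k3, k4, k5, k6, k7,
      k8, k9, k10, k11, k12, k13, k14⟩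
    exact
      { refl := fun u => h1 u 0 0 0 0 0
        eucl := fun u v w => h2 u v w 0 0 0
        cA := fun u v w x => h3 u v w x 0 0
        cN := fun u v => h4 u v 0 0 0 0
        cS := fun r u v => h5 u v 0 0 r 0
        assoc := fun u v w => h6 u v w 0 0 0
        comm := fun u v => h7 u v 0 0 0 0
        zero := fun u => h8 u 0 0 0 0 0
        neg := fun u => h9 u 0 0 0 0 0
        sadd := fun r u v => h10 u v 0 0 r 0
        adds := fun r s u => h11 u 0 0 0 r s
        muls := fun r s u => h12 u 0 0 0 r s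
        ones := fun u => h13 u 0 0 0 0 0
        var := fun u v w x => k1 u v w x 0 0
        tz := fun x => k2 0 0 0 x 0 0
        ta := fun u v x => k3 u v 0 x 0 0
        tn := fun u x => k4 u 0 0 x 0 0
        ts := fun r u x => k5 u 0 0 x r 0
        fe := fun u v x => ⟨k6 u v 0 x 0 0, k7 u v 0 x 0 0⟩
        fn := fun u x => ⟨k8 u 0 0 x 0 0, (k9 u 0 0 x 0 0).resolve_right⟩
        fi := fun u v x => ⟨k10 u v 0 x 0 0, fun h =>
          (k11 u v 0 x 0 0).elim id fun h' => k12 u v 0 x 0 0 (h h')⟩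
        fa := fun u v w x => k13 u v w x 0 0
        fw := fun u v x => k14 u v 0 x 0 0 }
  · intro h
    refine ⟨fun u _ _ _ _ _ => h.refl u, fun u v w _ _ _ => h.eucl u v w,
      fun u v w x _ _ => h.cA u v w x, fun u v _ _ _ _ => h.cN u v, fun u v _ _ r _ => h.cS r u v,
      fun u v w _ _ _ => h.assoc u v w, fun u v _ _ _ _ => h.comm u v, fun u _ _ _ _ _ => h.zero u,
      fun u _ _ _ _ _ => h.neg u, fun u v _ _ r _ => h.sadd r u v, fun u _ _ _ r s => h.adds r s u,
      fun u _ _ _ r s => h.muls r s u, fun u _ _ _ _ _ => h.ones u,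
      fun u v w x _ _ => h.var u v w x, fun _ _ _ x _ _ => h.tz x, fun u v _ x _ _ => h.ta u v x,
      fun u _ _ x _ _ => h.tn u x, fun u _ _ x r _ => h.ts r u x,
      fun u v _ x _ _ => (h.fe u v x).1, fun u v _ x _ _ => (h.fe u v x).2,
      fun u _ _ x _ _ => (h.fn u x).1, fun u _ _ x _ _ => ?_, fun u v _ x _ _ => (h.fi u v x).1,
      fun u v _ x _ _ => ?_, fun u v _ x _ _ h' => (h.fi u v x).2 fun _ => h',
      fun u v w x _ _ => h.fa u v w x, fun u v _ x _ _ => h.fw u v x⟩
    · have := h.fn u x; tauto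
    · have := h.fi u v x; tauto

section Complete
variable {E T : ℕ → ℕ → Prop} (h : Good R E T)

def Good.st : Setoid ℕ where
  r := E
  iseqv := ⟨h.refl, fun {u v} e => h.eucl u v u e (h.refl u),
    fun {u v w} e e' => h.eucl v u w (h.eucl u v u e (h.refl u)) e'⟩

/-- The module of names. -/
def Good.M : Type := Quotient h.st

def Good.cl (u : ℕ) : h.M := Quotient.mk h.st u

theorem Good.mk_eq {u v : ℕ} : h.cl u = h.cl v ↔ E u v := Quotient.eq

theorem Good.ind {P : h.M → Prop} (H : ∀ u, P (h.cl u)) (x : h.M) : P x := Quotient.ind H x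

instance : Add h.M := ⟨Quotient.map₂ nA fun u v e w x e' => h.cA u v w x e e'⟩
instance : Neg h.M := ⟨Quotient.map nN fun u v e => h.cN u v e⟩
instance : Zero h.M := ⟨h.cl nZ⟩
instance : SMul R h.M := ⟨fun r => Quotient.map (nS r) fun u v e => h.cS r u v e⟩

theorem Good.mk_add (u v : ℕ) : h.cl u + h.cl v = h.cl (nA u v) := rfl
theorem Good.mk_neg (u : ℕ) : -h.cl u = h.cl (nN u) := rfl
theorem Good.mk_zero : (0 : h.M) = h.cl nZ := rfl
theorem Good.mk_smul (r : R) (u : ℕ) : r • h.cl u = h.cl (nS r u) := rfl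

instance : AddCommGroup h.M :=
  { AddGroup.ofLeftAxioms
      (h.ind fun u => h.ind fun v => h.ind fun w => h.mk_eq.2 (h.assoc u v w))
      (h.ind fun u => h.mk_eq.2 (h.zero u)) (h.ind fun u => h.mk_eq.2 (h.neg u)) with
    add_comm := h.ind fun u => h.ind fun v => h.mk_eq.2 (h.comm u v) }

instance : Module R h.M :=
  Module.ofMinimalAxioms (fun r => h.ind fun u => h.ind fun v => h.mk_eq.2 (h.sadd r u v))
    (fun r s => h.ind fun u => h.mk_eq.2 (h.adds r s u))
    (fun r s => h.ind fun u => h.mk_eq.2 (h.muls r s u)) (h.ind fun u => h.mk_eq.2 (h.ones u))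

def Good.env (ρ : ℕ) (i : ℕ) : h.M := h.cl (nT (tVar i) ρ)

theorem Good.env_eC (i u ρ : ℕ) : h.env (eC i u ρ) = Function.update (h.env ρ) i (h.cl u) := by
  funext j
  have := h.mk_eq.2 (h.var j i u ρ)
  by_cases e : j = i
  · subst e; simpa [Good.env] using this
  · rw [Function.update_of_ne e]
    rwa [show (j == i) = false by simpa using e] at this

theorem Good.val (ρ : ℕ) (t : Tm R) : t.val (h.env ρ) = h.cl (nT (t.code encode) ρ) := by
  induction t with
  | var i => rfl
  | zero => exact (h.mk_eq.2 (h.tz ρ)).symm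
  | add s t ihs iht => rw [Tm.val, ihs, iht]; exact (h.mk_eq.2 (h.ta _ _ ρ)).symm
  | neg t ih => rw [Tm.val, ih]; exact (h.mk_eq.2 (h.tn _ ρ)).symm
  | smul r t ih => rw [Tm.val, ih]; exact (h.mk_eq.2 (h.ts r _ ρ)).symm

theorem Good.truth (φ : Fm R) : ∀ ρ, φ.Sat (h.env ρ) ↔ T (φ.code encode) ρ := by
  induction φ with
  | eq s t => intro ρ; rw [Fm.Sat, h.val, h.val, h.mk_eq, code_eq, h.fe]
  | not a ih => intro ρ; rw [Fm.Sat, ih, code_not, h.fn]
  | imp a b iha ihb => intro ρ; rw [Fm.Sat, iha, ihb, code_imp, h.fi]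
  | all i a ih =>
    intro ρ
    rw [Fm.Sat, code_all]
    constructor
    · intro H
      refine h.fw _ _ _ ((ih _).1 ?_)
      rw [h.env_eC]; exact H _
    · intro H
      refine h.ind fun u => ?_
      rw [← h.env_eC]
      exact (ih _).2 (h.fa _ _ u _ H)

end Complete

section Sound
variable (R) {M : Type} [AddCommGroup M] [Module R M] (v : ℕ → M)

open Classical in
/-- Values of names and of environments in a module. -/
noncomputable def W (n : ℕ) : M × (ℕ → M) :=
  (if _h : n.unpair.1 = 0 then 0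
    else if n.unpair.1 = 1 then (W n.unpair.2.unpair.1).1 + (W n.unpair.2.unpair.2).1
    else if n.unpair.1 = 2 then -(W n.unpair.2).1
    else if n.unpair.1 = 3 then
      (decode (α := R) n.unpair.2.unpair.1).getD 0 • (W n.unpair.2.unpair.2).1
    else if n.unpair.1 = 4 then (decT R n.unpair.2.unpair.1).val (W n.unpair.2.unpair.2).2
    else Classical.epsilon fun x => ¬ (decF R n.unpair.2.unpair.1).Sat
      (Function.update (W n.unpair.2.unpair.2.unpair.2).2 n.unpair.2.unpair.2.unpair.1 x),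
  if _h : n = 0 then v
    else Function.update (W (n - 1).unpair.2.unpair.2).2 (n - 1).unpair.1
      (W (n - 1).unpair.2.unpair.1).1)
termination_by n
decreasing_by
  · exact unp_lt1 _h
  · exact unp_lt2 _h
  · exact unp_lt _h
  · exact unp_lt2 _h
  · exact unp_lt2 _h
  · exact (Nat.unpair_right_le _).trans_lt (unp_lt2 _h)
  · exact ((Nat.unpair_right_le _).trans (Nat.unpair_right_le _)).trans_lt (by omega)
  · exact ((Nat.unpair_left_le _).trans (Nat.unpair_right_le _)).trans_lt (by omega)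

variable {R}

theorem W_Z : (W R v nZ).1 = 0 := by rw [W]; simp [nZ]
theorem W_A (a b : ℕ) : (W R v (nA a b)).1 = (W R v a).1 + (W R v b).1 := by rw [W]; simp [nA]
theorem W_N (a : ℕ) : (W R v (nN a)).1 = -(W R v a).1 := by rw [W]; simp [nN]
theorem W_S (r : R) (a : ℕ) : (W R v (nS r a)).1 = r • (W R v a).1 := by rw [W]; simp [nS]
theorem W_T (s ρ : ℕ) : (W R v (nT s ρ)).1 = (decT R s).val (W R v ρ).2 := by rw [W]; simp [nT]
theorem W_W (a i ρ : ℕ) : (W R v (nW a i ρ)).1 = Classical.epsilon fun x =>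
    ¬ (decF R a).Sat (Function.update (W R v ρ).2 i x) := by rw [W]; simp [nW]
theorem W_0 : (W R v 0).2 = v := by rw [W]; simp
theorem W_C (i u ρ : ℕ) :
    (W R v (eC i u ρ)).2 = Function.update (W R v ρ).2 i (W R v u).1 := by rw [W]; simp [eC]

theorem good_W : Good R (fun a b => (W R v a).1 = (W R v b).1)
    fun a ρ => (decF R a).Sat (W R v ρ).2 where
  refl _ := rfl
  eucl _ _ _ e e' := e.symm.trans e'
  cA _ _ _ _ e e' := by rw [W_A, W_A, e, e']
  cN _ _ e := by rw [W_N, W_N, e]
  cS _ _ _ e := by rw [W_S, W_S, e]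
  assoc _ _ _ := by simp only [W_A, add_assoc]
  comm _ _ := by simp only [W_A, add_comm]
  zero _ := by simp only [W_A, W_Z, zero_add]
  neg _ := by simp only [W_A, W_Z, W_N, neg_add_cancel]
  sadd _ _ _ := by simp only [W_A, W_S, smul_add]
  adds _ _ _ := by simp only [W_A, W_S, add_smul]
  muls _ _ _ := by simp only [W_S, mul_smul]
  ones _ := by simp only [W_S, one_smul]
  var u i w x := by
    by_cases e : u = i
    · subst e; simp [W_T, W_C, Tm.val]
    · rw [show (u == i) = false by simpa using e]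
      simp [W_T, W_C, Tm.val, Function.update_of_ne e]
  tz _ := by simp [W_T, W_Z, Tm.val]
  ta _ _ _ := by simp [W_T, W_A, Tm.val]
  tn _ _ := by simp [W_T, W_N, Tm.val]
  ts _ _ _ := by simp [W_T, W_S, Tm.val]
  fe _ _ _ := by simp [W_T, Fm.Sat]
  fn _ _ := by simp [Fm.Sat]
  fi _ _ _ := by simp [Fm.Sat]
  fa _ _ _ _ H := by
    rw [decF_all, Fm.Sat] at H
    rw [W_C]; exact H _
  fw i a ρ H := by
    rw [decF_all, Fm.Sat]
    rw [W_C, W_W] at H
    by_contra H'
    exact Classical.epsilon_spec (not_forall.1 H') H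

end Sound

variable (R) in
/-- The formula with number `k` is true in every module under every assignment. -/
def Valid (k : ℕ) : Prop :=
  ∀ (M : Type) [AddCommGroup M] [Module R M] (v : ℕ → M), (decF R k).Sat v

theorem valid_of_unsat {k : ℕ} {l : List ((ℕ × ℕ × ℕ × ℕ) × R × R)}
    (h : unsatB (([aT k 0], []) :: l.flatMap gen) = true) : Valid R k := by
  classical
  intro M _ _ v
  let b : At → Bool := fun a => if a.1 = true then decide ((W R v a.2.1).1 = (W R v a.2.2).1)
    else decide ((decF R a.2.1).Sat (W R v a.2.2).2)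
  have hb : ∀ p : (ℕ × ℕ × ℕ × ℕ) × R × R, ∀ c ∈ gen p, satC b c = true := by
    rw [good_iff]
    simpa [b, aE, aT] using good_W (R := R) v
  obtain ⟨c, hc, e⟩ := unsatB_iff.1 h b
  rcases List.mem_cons.1 hc with rfl | hc
  · simpa [satC, b, aT, W_0] using e
  · obtain ⟨p, -, hp⟩ := List.mem_flatMap.1 hc
    rw [hb p c hp] at e
    exact absurd e (by simp)

theorem unsat_of_valid {φ : Fm R} (h : Valid R (φ.code encode)) :
    ∃ l : List ((ℕ × ℕ × ℕ × ℕ) × R × R),
      unsatB (([aT (φ.code encode) 0], []) :: l.flatMap gen) = true := by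
  refine compactness gen _ fun b hb H => ?_
  have hg := (good_iff b).1 H
  have := h hg.M (hg.env 0)
  rw [decF_code, hg.truth] at this
  simp [satC, this] at hb

variable (R) in
/-- Refutability of the negation in the clause system. -/
def Prv (k : ℕ) : Prop :=
  ∃ l : List ((ℕ × ℕ × ℕ × ℕ) × R × R), unsatB (([aT k 0], []) :: l.flatMap gen) = true

theorem s1_prv (hR : CompRing R) : S1 (Prv R) := by
  have h1 := pr_gen hR
  have h2 := pr_unsatB
  unfold Prv aT
  fun_prop

theorem prv_iff (φ : Fm R) : Prv R (φ.code encode) ↔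
    ∀ (M : Type) [AddCommGroup M] [Module R M] (v : ℕ → M), φ.Sat v := by
  rw [show (∀ (M : Type) [AddCommGroup M] [Module R M] (v : ℕ → M), φ.Sat v) ↔
    Valid R (φ.code encode) by rw [Valid, decF_code]]
  exact ⟨fun ⟨_, h⟩ => valid_of_unsat h, unsat_of_valid⟩

end Pool.Agent.Lib.MP_c13fce_lc.LogA
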