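import Pool.Agent.Lib.MP_c13fce_lc.Kit

/-! Baur-Monk elimination relative to finitely many invariant claims. -/

namespace Pool.Agent.Lib.MP_c13fce_lc

open scoped BigOperators

namespace BMk

section count
variable {α β ι : Type} [DecidableEq ι]

/-- Points lying in all sets of `T` and in no set of `U`. -/
def pat (Y : ι → Set α) (T U : Finset ι) : Set α :=
  {q | (∀ i ∈ T, q ∈ Y i) ∧ ∀ i ∈ U, q ∉ Y i}

theorem pat_split (Y : ι → Set α) (T U : Finset ι) (u : ι) :
    (pat Y T U).encard = (pat Y (insert u T) U).encard + (pat Y T (insert u U)).encard := by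
  rw [← Set.encard_union_eq]
  · congr 1
    ext q
    simp only [pat, Set.mem_ofPred_eq, Set.mem_union, Finset.forall_mem_insert]
    tauto
  · rw [Set.disjoint_left]
    intro q h1 h2
    exact h2.2 u (Finset.mem_insert_self _ _) (h1.1 u (Finset.mem_insert_self _ _))

theorem pat_congr (Y : ι → Set α) (Z : ι → Set β) (S I : Finset ι)
    (h : ∀ T, S ⊆ T → T ⊆ I → (pat Y T ∅).encard = (pat Z T ∅).encard ∧ (pat Y T ∅).encard ≠ ⊤)
    (U : Finset ι) (hU : U ⊆ I) :
    ∀ T, S ⊆ T → T ⊆ I → (pat Y T U).encard = (pat Z T U).encard := by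
  induction U using Finset.induction_on with
  | empty => exact fun T h1 h2 => (h T h1 h2).1
  | insert u U hu ih =>
    intro T h1 h2
    have hU' : U ⊆ I := (Finset.subset_insert _ _).trans hU
    have huI : u ∈ I := hU (Finset.mem_insert_self _ _)
    have e1 := ih hU' T h1 h2
    have e2 := ih hU' (insert u T) (h1.trans (Finset.subset_insert _ _))
      (Finset.insert_subset huI h2)
    rw [pat_split Y T U u, pat_split Z T U u, ← e2] at e1
    refine WithTop.add_left_cancel ?_ e1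
    refine ne_top_of_le_ne_top (h T h1 h2).2 (Set.encard_le_encard ?_)
    intro q hq
    exact ⟨fun i hi => hq.1 i (Finset.mem_insert_of_mem hi), by simp⟩

end count

section cos
variable {G : Type} [AddCommGroup G]

/-- The set is empty or a coset of the subgroup. -/
def IsCos (B : AddSubgroup G) (X : Set G) : Prop := ∀ x ∈ X, ∀ y, y ∈ X ↔ y - x ∈ B

theorem encard_image {B : AddSubgroup G} {X : Set G} (h : IsCos B X) {x : G} (hx : x ∈ X)
    (D : AddSubgroup G) :
    ((QuotientAddGroup.mk : G → G ⧸ D) '' X).encard = eidx D B := by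
  let g : B ⧸ D.addSubgroupOf B →+ G ⧸ D :=
    QuotientAddGroup.map (D.addSubgroupOf B) D B.subtype fun _ hy => hy
  have hg : Function.Injective g := by
    rw [injective_iff_map_eq_zero]
    intro q hq
    induction q using QuotientAddGroup.induction_on with
    | H q =>
      rw [QuotientAddGroup.map_mk, QuotientAddGroup.eq_zero_iff] at hq
      exact (QuotientAddGroup.eq_zero_iff _).2 hq
  have hF : Function.Injective fun q => (x : G ⧸ D) + g q := fun a b hab => hg (add_left_cancel hab)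
  have e : (QuotientAddGroup.mk : G → G ⧸ D) '' X = (fun q => (x : G ⧸ D) + g q) '' Set.univ := by
    ext q
    constructor
    · rintro ⟨y, hy, rfl⟩
      refine ⟨((⟨y - x, (h x hx y).1 hy⟩ : B) : B ⧸ D.addSubgroupOf B), trivial, ?_⟩
      simp [g]
    · rintro ⟨q, -, rfl⟩
      induction q using QuotientAddGroup.induction_on with
      | H b => exact ⟨x + b, (h x hx _).2 (by simp), by simp [g]⟩
  rw [e, hF.encard_image, Set.encard_univ]
  rfl

theorem IsCos.inf {ι : Type} {B : ι → AddSubgroup G} {X : ι → Set G} (h : ∀ i, IsCos (B i) (X i))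
    (T : Finset ι) : IsCos (T.inf B) {x | ∀ i ∈ T, x ∈ X i} := by
  intro x hx y
  simp only [Set.mem_ofPred_eq, Finset.inf_eq_iInf, AddSubgroup.mem_iInf]
  exact forall₂_congr fun i hi => h i x (hx i hi) y

theorem IsCos.mk_mem {B D : AddSubgroup G} {X : Set G} (h : IsCos B X) (hD : D ≤ B) {x : G} :
    (x : G ⧸ D) ∈ (QuotientAddGroup.mk : G → G ⧸ D) '' X ↔ x ∈ X := by
  refine ⟨?_, fun hx => ⟨x, hx, rfl⟩⟩
  rintro ⟨y, hy, e⟩
  exact (h y hy x).2 (hD (QuotientAddGroup.eq_iff_sub_mem.1 e.symm))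

theorem pat_encard {ι : Type} [DecidableEq ι] {B : ι → AddSubgroup G} {X : ι → Set G}
    (h : ∀ i, IsCos (B i) (X i)) {T I : Finset ι} (hT : T ⊆ I) :
    pat (fun i => (QuotientAddGroup.mk : G → G ⧸ I.inf B) '' X i) T ∅ =
      (QuotientAddGroup.mk : G → G ⧸ I.inf B) '' {x | ∀ i ∈ T, x ∈ X i} := by
  ext q
  induction q using QuotientAddGroup.induction_on with
  | H x =>
    rw [(IsCos.inf h T).mk_mem (Finset.inf_mono hT)]
    simp only [pat, Set.mem_ofPred_eq, Finset.notMem_empty, false_imp_iff, implies_true, and_true]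
    exact forall₂_congr fun i hi => (h i).mk_mem (Finset.inf_le (hT hi))

end cos

/-- The back-and-forth step for families of cosets. -/
theorem key {G₀ G₁ G₂ ι : Type} [AddCommGroup G₀] [AddCommGroup G₁] [AddCommGroup G₂] [Fintype ι]
    (B₀ : ι → AddSubgroup G₀) (B₁ : ι → AddSubgroup G₁) (B₂ : ι → AddSubgroup G₂)
    (X₁ : ι → Set G₁) (X₂ : ι → Set G₂) (hX₁ : ∀ i, IsCos (B₁ i) (X₁ i))
    (hX₂ : ∀ i, IsCos (B₂ i) (X₂ i))
    (hne : ∀ T : Finset ι, (∃ x, ∀ i ∈ T, x ∈ X₁ i) ↔ ∃ x, ∀ i ∈ T, x ∈ X₂ i)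
    (h₁ : ∀ T T' : Finset ι, eidx (T'.inf B₀) (T.inf B₀) ≠ ⊤ →
      eidx (T'.inf B₁) (T.inf B₁) = eidx (T'.inf B₀) (T.inf B₀))
    (h₂ : ∀ T T' : Finset ι, eidx (T'.inf B₀) (T.inf B₀) ≠ ⊤ →
      eidx (T'.inf B₂) (T.inf B₂) = eidx (T'.inf B₀) (T.inf B₀))
    (h₃ : ∀ T T' : Finset ι, eidx (T'.inf B₀) (T.inf B₀) = ⊤ →
      ((Fintype.card ι + 1 : ℕ) : ℕ∞) ≤ eidx (T'.inf B₂) (T.inf B₂))
    (x₁ : G₁) : ∃ x₂, ∀ i, x₁ ∈ X₁ i ↔ x₂ ∈ X₂ i := by
  classical
  set S : Finset ι := Finset.univ.filter fun i => x₁ ∈ X₁ i with hS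
  have hSm : ∀ i, i ∈ S ↔ x₁ ∈ X₁ i := fun i => by simp [hS]
  obtain ⟨I, hI, hmax⟩ := Finset.exists_max_image
    (Finset.univ.filter fun I : Finset ι => S ⊆ I ∧ eidx (I.inf B₀) (S.inf B₀) ≠ ⊤) Finset.card
    ⟨S, by simp [eidx_eq_one.2 (le_refl (S.inf B₀))]⟩
  obtain ⟨hSI, hfin⟩ := (Finset.mem_filter.1 hI).2
  have htop : ∀ i, i ∉ I → eidx ((insert i I).inf B₀) (I.inf B₀) = ⊤ := fun i hi => by
    by_contra hne
    have := hmax (insert i I) (Finset.mem_filter.2 ⟨Finset.mem_univ _,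
      hSI.trans (Finset.subset_insert _ _), by
        rw [eidx_mul (Finset.inf_mono (Finset.subset_insert i I)) (Finset.inf_mono hSI)]
        exact WithTop.mul_ne_top hne hfin⟩)
    rw [Finset.card_insert_of_notMem hi] at this
    omega
  have hc := pat_congr (fun i => (QuotientAddGroup.mk : G₁ → G₁ ⧸ I.inf B₁) '' X₁ i)
    (fun i => (QuotientAddGroup.mk : G₂ → G₂ ⧸ I.inf B₂) '' X₂ i) S I (fun T hT hT' => by
      have hf : eidx (I.inf B₀) (T.inf B₀) ≠ ⊤ :=
        ne_top_of_le_ne_top hfin (eidx_mono _ (Finset.inf_mono hT))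
      rw [pat_encard hX₁ hT', pat_encard hX₂ hT']
      by_cases hx : ∃ x, ∀ i ∈ T, x ∈ X₁ i
      · obtain ⟨y, hy⟩ := (hne T).1 hx
        obtain ⟨x, hx⟩ := hx
        rw [encard_image (IsCos.inf hX₁ T) hx, encard_image (IsCos.inf hX₂ T) hy, h₁ _ _ hf,
          h₂ _ _ hf]
        exact ⟨rfl, hf⟩
      · have hy := fun h => hx ((hne T).2 h)
        rw [Set.eq_empty_of_forall_notMem (s := {x | ∀ i ∈ T, x ∈ X₁ i}) fun x h => hx ⟨x, h⟩,
          Set.eq_empty_of_forall_notMem (s := {x | ∀ i ∈ T, x ∈ X₂ i}) fun x h => hy ⟨x, h⟩]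
        simp) (I \ S) Finset.sdiff_subset S le_rfl hSI
  have hn : (pat (fun i => (QuotientAddGroup.mk : G₂ → G₂ ⧸ I.inf B₂) '' X₂ i) S
      (I \ S)).Nonempty := by
    rw [← Set.encard_ne_zero, ← hc, Set.encard_ne_zero]
    refine ⟨x₁, fun i hi => ⟨x₁, (hSm i).1 hi, rfl⟩, fun i hi h => ?_⟩
    rw [Finset.mem_sdiff] at hi
    exact hi.2 ((hSm i).2 (((hX₁ i).mk_mem (Finset.inf_le hi.1)).1 h))
  obtain ⟨q, hq⟩ := hn
  induction q using QuotientAddGroup.induction_on with
  | H y =>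
  have hy : ∀ d : (I.inf B₂ : AddSubgroup G₂), ∀ i ∈ I, (y + d ∈ X₂ i ↔ i ∈ S) := fun d i hi => by
    rw [← (hX₂ i).mk_mem (Finset.inf_le hi : I.inf B₂ ≤ B₂ i), QuotientAddGroup.mk_add_of_mem _ d.2]
    refine ⟨fun h => ?_, fun h => hq.1 i h⟩
    by_contra h'
    exact hq.2 i (Finset.mem_sdiff.2 ⟨hi, h'⟩) h
  by_contra hno
  push Not at hno
  have hcov : ∀ d : (I.inf B₂ : AddSubgroup G₂), ∃ i, i ∉ I ∧ y + d ∈ X₂ i := fun d => by
    obtain ⟨i, hi⟩ := hno (y + d)
    by_cases hiI : i ∈ I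
    · have := hy d i hiI
      rw [hSm] at this
      tauto
    · refine ⟨i, hiI, ?_⟩
      have : x₁ ∉ X₁ i := fun h => hiI (hSI ((hSm i).2 h))
      tauto
  let s : Finset ι := Finset.univ.filter fun i =>
    i ∉ I ∧ ∃ d : (I.inf B₂ : AddSubgroup G₂), y + d ∈ X₂ i
  have hg : ∀ i, ∃ d : (I.inf B₂ : AddSubgroup G₂), i ∈ s → y + d ∈ X₂ i := fun i => by
    by_cases hi : i ∈ s
    · obtain ⟨d, hd⟩ := (Finset.mem_filter.1 hi).2.2
      exact ⟨d, fun _ => hd⟩
    · exact ⟨0, fun h => absurd h hi⟩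
  choose g hg using hg
  obtain ⟨i, hi, hfi, hle⟩ := AddSubgroup.exists_index_le_card_of_leftCoset_cover
    (H := fun i => (B₂ i).addSubgroupOf (I.inf B₂)) (g := g) (s := s) (by
      refine Set.eq_univ_of_forall fun d => ?_
      obtain ⟨i, hi, hd⟩ := hcov d
      have his : i ∈ s := Finset.mem_filter.2 ⟨Finset.mem_univ _, hi, d, hd⟩
      refine Set.mem_biUnion his ?_
      rw [mem_leftAddCoset_iff]
      have := (hX₂ i _ (hg i his) _).1 hd
      show ((-g i + d : (I.inf B₂ : AddSubgroup G₂)) : G₂) ∈ B₂ i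
      rw [AddSubgroup.coe_add, AddSubgroup.coe_neg]
      rwa [show y + d - (y + g i) = -(g i : G₂) + d by abel] at this)
  have h3 := h₃ _ _ (htop i (Finset.mem_filter.1 hi).2.1)
  rw [Finset.inf_insert, eidx_inf] at h3
  have hne' : eidx (B₂ i) (I.inf B₂) ≠ ⊤ :=
    eidx_ne_top_iff.2 AddSubgroup.finite_quotient_of_finiteIndex
  rw [eidx_eq_relIndex hne', Nat.cast_le] at h3
  have : s.card ≤ Fintype.card ι := Finset.card_le_univ _
  have e : (B₂ i).relIndex (I.inf B₂) = ((B₂ i).addSubgroupOf (I.inf B₂)).index := rfl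
  omega

section formulas
variable {R : Type} [Ring R]

/-- The coefficient of a variable in a term. -/
def coef (j : ℕ) : Tm R → R
  | .var i => if i = j then 1 else 0
  | .zero => 0
  | .add s t => coef j s + coef j t
  | .neg t => -coef j t
  | .smul r t => r * coef j t

/-- The term with one variable replaced by zero. -/
def kill (j : ℕ) : Tm R → Tm R
  | .var i => if i = j then .zero else .var i
  | .zero => .zero
  | .add s t => .add (kill j s) (kill j t)
  | .neg t => .neg (kill j t)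
  | .smul r t => .smul r (kill j t)

section
variable {M : Type} [AddCommGroup M] [Module R M]

theorem val_update (v : ℕ → M) (j : ℕ) (x : M) (t : Tm R) :
    t.val (Function.update v j x) = coef j t • x + (kill j t).val v := by
  induction t with
  | var i =>
    by_cases h : i = j
    · subst h; simp [Tm.val, coef, kill]
    · simp [Tm.val, coef, kill, h]
  | zero => simp [Tm.val, coef, kill]
  | add s t hs ht => simp only [Tm.val, coef, kill, hs, ht, add_smul]; abel
  | neg t ht => simp only [Tm.val, coef, kill, ht, neg_smul]; abel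
  | smul r t ht => simp only [Tm.val, coef, kill, ht, mul_smul, smul_add]

theorem val_zero (t : Tm R) : t.val (0 : ℕ → M) = 0 := by
  induction t with
  | var i => rfl
  | zero => rfl
  | add s t hs ht => simp [Tm.val, hs, ht]
  | neg t ht => simp [Tm.val, ht]
  | smul r t ht => simp [Tm.val, ht]

theorem val_congr (t : Tm R) {v w : ℕ → M} (h : ∀ i ∈ t.vars, v i = w i) : t.val v = t.val w := by
  induction t with
  | var i => exact h i (by simp [Tm.vars])
  | zero => rfl
  | add s t hs ht =>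
    simp only [Tm.val]
    rw [hs fun i hi => h i (by simp [Tm.vars, hi]), ht fun i hi => h i (by simp [Tm.vars, hi])]
  | neg t ht => simp only [Tm.val]; rw [ht h]
  | smul r t ht => simp only [Tm.val]; rw [ht h]

theorem sat_congr (θ : Fm R) : ∀ {v w : ℕ → M}, (∀ i ∈ θ.free, v i = w i) →
    (θ.Sat v ↔ θ.Sat w) := by
  induction θ with
  | eq s t =>
    intro v w h
    simp only [Fm.Sat]
    rw [val_congr s fun i hi => h i (by simp [Fm.free, hi]),
      val_congr t fun i hi => h i (by simp [Fm.free, hi])]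
  | not φ ih => intro v w h; exact not_congr (ih h)
  | imp φ ψ ih ih' =>
    intro v w h
    exact imp_congr (ih fun i hi => h i (by simp [Fm.free, hi]))
      (ih' fun i hi => h i (by simp [Fm.free, hi]))
  | all j φ ih =>
    intro v w h
    refine forall_congr' fun x => ih fun i hi => ?_
    by_cases e : i = j
    · subst e; simp
    · rw [Function.update_of_ne e, Function.update_of_ne e]
      exact h i (by simp [Fm.free, hi, e])

end

/-- A pp formula with arbitrary free variables. -/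
structure MP (R : Type) : Type 1 where
  ι : Type
  κ : Type
  [fι : Fintype ι]
  [fκ : Fintype κ]
  t : ι → Tm R
  H : ι → κ → R

attribute [instance] MP.fι MP.fκ

/-- Satisfaction of a pp formula. -/
def MP.Sat (φ : MP R) {M : Type} [AddCommGroup M] [Module R M] (v : ℕ → M) : Prop :=
  ∃ y : φ.κ → M, ∀ i, (φ.t i).val v + ∑ k, φ.H i k • y k = 0

/-- The one-variable formula obtained by putting the other variables to zero. -/
def MP.one (φ : MP R) (j : ℕ) : PP R where
  ι := φ.ι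
  κ := φ.κ
  h i := coef j (φ.t i)
  H := φ.H

theorem MP.sat_zero (φ : MP R) (M : Type) [AddCommGroup M] [Module R M] :
    φ.Sat (0 : ℕ → M) := ⟨0, fun i => by simp [val_zero]⟩

theorem MP.isCos (φ : MP R) (j : ℕ) {M : Type} [AddCommGroup M] [Module R M] (v : ℕ → M) :
    IsCos ((φ.one j).set M) {x | φ.Sat (Function.update v j x)} := by
  rintro x ⟨y, hy⟩ x'
  simp only [val_update] at hy
  constructor
  · rintro ⟨y', hy'⟩
    simp only [val_update] at hy'
    refine ⟨y' - y, fun i => ?_⟩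
    have := congrArg₂ (· - ·) (hy' i) (hy i)
    simp only [sub_zero] at this
    rw [← this]
    simp only [MP.one, Pi.sub_apply, smul_sub, Finset.sum_sub_distrib]
    abel
  · intro hx'
    obtain ⟨y', hy'⟩ : ∃ y' : φ.κ → M, ∀ i, coef j (φ.t i) • (x' - x) +
      ∑ k, φ.H i k • y' k = 0 := hx'
    refine ⟨y' + y, fun i => ?_⟩
    have := congrArg₂ (· + ·) (hy' i) (hy i)
    simp only [add_zero] at this
    rw [← this, val_update]
    simp only [Pi.add_apply, smul_sub, smul_add, Finset.sum_add_distrib]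
    abel

theorem exists_eq (s t : Tm R) : ∃ φ : MP R, ∀ (M : Type) [AddCommGroup M] [Module R M]
    (v : ℕ → M), φ.Sat v ↔ s.val v = t.val v :=
  ⟨{ ι := Unit, κ := Empty, t := fun _ => .add s (.neg t), H := fun _ _ => 0 },
    fun M _ _ v => by simp [MP.Sat, Tm.val, add_neg_eq_zero]⟩

theorem exists_and (φ ψ : MP R) : ∃ χ : MP R, ∀ (M : Type) [AddCommGroup M] [Module R M]
    (v : ℕ → M), χ.Sat v ↔ φ.Sat v ∧ ψ.Sat v := by
  refine ⟨{ ι := φ.ι ⊕ ψ.ι, κ := φ.κ ⊕ ψ.κ, t := Sum.elim φ.t ψ.t,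
            H := Sum.elim (fun i => Sum.elim (φ.H i) 0) fun i => Sum.elim 0 (ψ.H i) },
    fun M _ _ v => ?_⟩
  simp only [MP.Sat, Sum.forall, Fintype.sum_sum_type, Sum.elim_inl, Sum.elim_inr, Pi.zero_apply,
    zero_smul, Finset.sum_const_zero, add_zero, zero_add]
  constructor
  · rintro ⟨y, h1, h2⟩
    exact ⟨⟨fun k => y (.inl k), h1⟩, ⟨fun k => y (.inr k), h2⟩⟩
  · rintro ⟨⟨y, h1⟩, ⟨y', h2⟩⟩
    exact ⟨Sum.elim y y', h1, h2⟩

theorem exists_ex (φ : MP R) (j : ℕ) : ∃ χ : MP R, ∀ (M : Type) [AddCommGroup M] [Module R M]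
    (v : ℕ → M), χ.Sat v ↔ ∃ x, φ.Sat (Function.update v j x) := by
  refine ⟨{ ι := φ.ι, κ := Option φ.κ, t := fun i => kill j (φ.t i),
            H := fun i k => k.elim (coef j (φ.t i)) (φ.H i) }, fun M _ _ v => ?_⟩
  simp only [MP.Sat, Fintype.sum_option, Option.elim, val_update]
  constructor
  · rintro ⟨y, h⟩
    exact ⟨y none, fun k => y (some k), fun i => by rw [← h i]; abel⟩
  · rintro ⟨x, y, h⟩
    exact ⟨fun k => k.elim x y, fun i => by rw [← h i]; simp only [Option.elim]; abel⟩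

theorem exists_conj {ι : Type} (Ψ : ι → MP R) (T : Finset ι) : ∃ χ : MP R,
    ∀ (M : Type) [AddCommGroup M] [Module R M] (v : ℕ → M), χ.Sat v ↔ ∀ i ∈ T, (Ψ i).Sat v := by
  classical
  induction T using Finset.induction_on with
  | empty =>
    obtain ⟨φ, h⟩ := exists_eq (R := R) .zero .zero
    exact ⟨φ, fun M _ _ v => by simp [h]⟩
  | insert a T _ ih =>
    obtain ⟨φ, h⟩ := ih
    obtain ⟨χ, h'⟩ := exists_and (Ψ a) φ
    exact ⟨χ, fun M _ _ v => by rw [h', h, Finset.forall_mem_insert]⟩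

theorem sum_getD {M : Type} [AddCommGroup M] [Module R M] (l : List R) (Y : ℕ → M) {N : ℕ}
    (hN : l.length ≤ N) :
    ∑ k : Fin N, l.getD k 0 • Y k = ∑ k : Fin l.length, l.getD k 0 • Y k := by
  rw [Fin.sum_univ_eq_sum_range (fun k => l.getD k 0 • Y k),
    Fin.sum_univ_eq_sum_range (fun k => l.getD k 0 • Y k)]
  refine (Finset.sum_subset (Finset.range_mono hN) fun k _ hk => ?_).symm
  rw [List.getD_eq_default _ _ (by simpa using hk), zero_smul]

/-- Every pp formula has a code. -/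
theorem exists_code (φ : PP R) : ∃ c : PPc R, ∀ (M : Type) [AddCommGroup M] [Module R M],
    c.toPP.set M = φ.set M := by
  classical
  let e := (Fintype.equivFin φ.ι).symm
  let e' := (Fintype.equivFin φ.κ).symm
  let row : φ.ι → List R := fun i => List.ofFn fun k => φ.H i (e' k)
  let L : PPc R := List.ofFn fun i => φ.h (e i) :: row (e i)
  have hL : L.length = Fintype.card φ.ι := List.length_ofFn
  have hget : ∀ i : Fin L.length, L.getD i [] = φ.h (e (i.cast hL)) :: row (e (i.cast hL)) :=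
    fun i => by
      rw [List.getD_eq_getElem _ _ i.2]
      simp only [L, List.getElem_ofFn]
      rfl
  have hle : ∀ i : Fin L.length, (row (e (i.cast hL))).length ≤ (L.map List.length).sum :=
    fun i => by
      have h1 : (L.getD i []).length ≤ (L.map List.length).sum :=
        List.single_le_sum (fun _ _ => Nat.zero_le _) _ (List.mem_map.2 ⟨_, by
          rw [List.getD_eq_getElem _ _ i.2]; exact List.getElem_mem _, rfl⟩)
      rw [hget, List.length_cons] at h1
      omega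
  refine ⟨L, fun M _ _ => ?_⟩
  have hsum : ∀ (i : φ.ι) (Y : ℕ → M), ∑ k : Fin (row i).length, (row i).getD k 0 • Y k =
      ∑ k, φ.H i k • Y (e'.symm k) := fun i Y => by
    have hr : (row i).length = Fintype.card φ.κ := List.length_ofFn
    refine Fintype.sum_equiv ((finCongr hr).trans e') _ _ fun k => ?_
    rw [List.getD_eq_getElem _ _ k.2]
    simp [row]
    rfl
  have key : ∀ (x : M) (Y : ℕ → M), (∀ i : Fin L.length, (L.getD i []).getD 0 0 • x +
      ∑ k : Fin (L.map List.length).sum, (L.getD i []).getD (k + 1) 0 • Y k = 0) ↔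
      ∀ i, φ.h i • x + ∑ k, φ.H i k • Y (e'.symm k) = 0 := fun x Y => by
    rw [← ((finCongr hL).trans e).forall_congr_right]
    refine forall_congr' fun i => ?_
    rw [hget]
    simp only [List.getD_cons_zero, List.getD_cons_succ]
    rw [sum_getD _ _ (hle i), hsum]
    rfl
  ext x
  constructor
  · rintro ⟨y, hy⟩
    let Y : ℕ → M := fun n => if h : n < (L.map List.length).sum then y ⟨n, h⟩ else 0
    refine ⟨fun k => Y (e'.symm k), (key x Y).1 fun i => ?_⟩
    have hY : ∀ k : Fin (L.map List.length).sum, Y k = y k := fun k => dif_pos k.2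
    simp only [hY]
    exact hy i
  · rintro ⟨y, hy⟩
    let Y : ℕ → M := fun n => if h : n < Fintype.card φ.κ then y (e' ⟨n, h⟩) else 0
    have hY : ∀ k, Y (e'.symm k) = y k := fun k => by
      simp only [Y, dif_pos (e'.symm k).2, Fin.eta, Equiv.apply_symm_apply]
    exact ⟨fun k : Fin (L.map List.length).sum => Y k,
      (key x Y).2 fun i => by simp only [hY]; exact hy i⟩

theorem exists_code_inf {ι : Type} (A : ι → PP R) (T : Finset ι) : ∃ c : PPc R,
    ∀ (M : Type) [AddCommGroup M] [Module R M], c.toPP.set M = T.inf fun i => (A i).set M := by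
  classical
  suffices h : ∃ φ : PP R, ∀ (M : Type) [AddCommGroup M] [Module R M],
      φ.set M = T.inf fun i => (A i).set M by
    obtain ⟨φ, h⟩ := h
    obtain ⟨c, hc⟩ := exists_code φ
    exact ⟨c, fun M _ _ => (hc M).trans (h M)⟩
  induction T using Finset.induction_on with
  | empty =>
    refine ⟨{ ι := Empty, κ := Empty, h := fun _ => 0, H := fun _ _ => 0 }, fun M _ _ => ?_⟩
    rw [Finset.inf_empty, eq_top_iff]
    exact fun x _ => ⟨0, fun i => i.elim⟩
  | insert a T _ ih =>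
    obtain ⟨φ, h⟩ := ih
    exact ⟨(A a).and φ, fun M _ _ => by rw [PP.set_and, h, Finset.inf_insert]⟩

/-- The module satisfies all claims of the list. -/
def Ok (χ : List (Claim R)) (M : Type) [AddCommGroup M] [Module R M] : Prop :=
  ∀ c ∈ χ, c.ok (ind c.1.toPP c.2.1.toPP M)

/-- Finitely many claims pin down finitely many invariants up to a bound. -/
theorem exists_claims {ι : Type} [Fintype ι] (a b : ι → PPc R) (B : ℕ) (M : Type) [AddCommGroup M]
    [Module R M] : ∃ χ : List (Claim R), Ok χ M ∧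
      ∀ (M' : Type) [AddCommGroup M'] [Module R M'], Ok χ M' → ∀ i,
        (ind (a i).toPP (b i).toPP M ≠ ⊤ →
          ind (a i).toPP (b i).toPP M' = ind (a i).toPP (b i).toPP M) ∧
        (ind (a i).toPP (b i).toPP M = ⊤ → (B : ℕ∞) ≤ ind (a i).toPP (b i).toPP M') := by
  classical
  have h : ∀ i, ∃ χ : List (Claim R), Ok χ M ∧
      ∀ (M' : Type) [AddCommGroup M'] [Module R M'], Ok χ M' →
        (ind (a i).toPP (b i).toPP M ≠ ⊤ →
          ind (a i).toPP (b i).toPP M' = ind (a i).toPP (b i).toPP M) ∧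
        (ind (a i).toPP (b i).toPP M = ⊤ → (B : ℕ∞) ≤ ind (a i).toPP (b i).toPP M') := fun i => by
    by_cases ht : ind (a i).toPP (b i).toPP M = ⊤
    · refine ⟨[(a i, b i, B, true)], ?_, fun M' _ _ h => ⟨fun h' => absurd ht h', fun _ => ?_⟩⟩
      · intro c hc
        rw [List.mem_singleton.1 hc]
        simp [Claim.ok, ht]
      · simpa [Claim.ok] using h _ (List.mem_singleton_self _)
    · obtain ⟨n, hn⟩ := ENat.ne_top_iff_exists.1 ht
      refine ⟨[(a i, b i, n, true), (a i, b i, n + 1, false)], ?_,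
        fun M' _ _ h => ⟨fun _ => ?_, fun h' => absurd h' ht⟩⟩
      · intro c hc
        rcases List.mem_pair.1 hc with rfl | rfl
        · simp [Claim.ok, hn]
        · simp only [Claim.ok, ← hn]
          exact_mod_cast Nat.lt_succ_self n
      · have h1 := h (a i, b i, n, true) (by simp)
        have h2 := h (a i, b i, n + 1, false) (by simp)
        simp only [Claim.ok, if_true, Bool.false_eq_true, if_false, Nat.cast_succ] at h1 h2
        rw [← hn]
        exact le_antisymm (Order.le_of_lt_add_one h2) h1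
  choose χ h1 h2 using h
  refine ⟨Finset.univ.toList.flatMap χ, fun c hc => ?_, fun M' _ _ h i => h2 i M' fun c hc => ?_⟩
  · obtain ⟨i, -, hi⟩ := List.mem_flatMap.1 hc
    exact h1 i c hi
  · exact h c (List.mem_flatMap.2 ⟨i, by simp, hc⟩)

/-- The back-and-forth step for pp formulas. -/
theorem step {ι : Type} [Fintype ι] (Ψ : ι → MP R) (j : ℕ) (M : Type) [AddCommGroup M]
    [Module R M] : ∃ (χ : List (Claim R)) (Ψ' : Finset ι → MP R), Ok χ M ∧
      ∀ (M₁ : Type) [AddCommGroup M₁] [Module R M₁] (M₂ : Type) [AddCommGroup M₂] [Module R M₂],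
        Ok χ M₁ → Ok χ M₂ → ∀ (v₁ : ℕ → M₁) (v₂ : ℕ → M₂), (∀ T, (Ψ' T).Sat v₁ ↔ (Ψ' T).Sat v₂) →
        ∀ x₁, ∃ x₂, ∀ i, (Ψ i).Sat (Function.update v₁ j x₁) ↔
          (Ψ i).Sat (Function.update v₂ j x₂) := by
  classical
  choose c hc using exists_code_inf fun i => (Ψ i).one j
  choose φ hφ using exists_conj Ψ
  choose Ψ' hΨ' using fun T => exists_ex (φ T) j
  obtain ⟨χ, h1, h2⟩ := exists_claims (ι := Finset ι × Finset ι) (fun p => c p.1) (fun p => c p.2)
    (Fintype.card ι + 1) M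
  refine ⟨χ, Ψ', h1, fun M₁ _ _ M₂ _ _ k1 k2 v₁ v₂ hv x₁ => ?_⟩
  refine key (fun i => ((Ψ i).one j).set M) (fun i => ((Ψ i).one j).set M₁)
    (fun i => ((Ψ i).one j).set M₂) (fun i => {x | (Ψ i).Sat (Function.update v₁ j x)})
    (fun i => {x | (Ψ i).Sat (Function.update v₂ j x)}) (fun i => (Ψ i).isCos j v₁)
    (fun i => (Ψ i).isCos j v₂) (fun T => ?_) (fun T T' => ?_) (fun T T' => ?_) (fun T T' => ?_) x₁
  · simpa only [hΨ', hφ, Set.mem_ofPred_eq] using hv T
  · simpa only [ind, hc] using (h2 M₁ k1 (T, T')).1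
  · simpa only [ind, hc] using (h2 M₂ k2 (T, T')).1
  · simpa only [ind, hc] using (h2 M₂ k2 (T, T')).2

/-- Elimination: among the models of finitely many claims true in `M`, the truth value of a
formula is determined by finitely many pp formulas. -/
theorem elim (M : Type) [AddCommGroup M] [Module R M] (θ : Fm R) :
    ∃ (χ : List (Claim R)) (ι : Type) (_ : Fintype ι) (Ψ : ι → MP R), Ok χ M ∧
      ∀ (M₁ : Type) [AddCommGroup M₁] [Module R M₁] (M₂ : Type) [AddCommGroup M₂] [Module R M₂],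
        Ok χ M₁ → Ok χ M₂ → ∀ (v₁ : ℕ → M₁) (v₂ : ℕ → M₂), (∀ i, (Ψ i).Sat v₁ ↔ (Ψ i).Sat v₂) →
        (θ.Sat v₁ ↔ θ.Sat v₂) := by
  induction θ with
  | eq s t =>
    obtain ⟨φ, h⟩ := exists_eq s t
    refine ⟨[], Unit, inferInstance, fun _ => φ, fun c hc => by simp at hc,
      fun M₁ _ _ M₂ _ _ _ _ v₁ v₂ hv => ?_⟩
    simpa only [h, Fm.Sat] using hv ()
  | not φ ih =>
    obtain ⟨χ, ι, _, Ψ, h1, h2⟩ := ih
    exact ⟨χ, ι, inferInstance, Ψ, h1, fun M₁ _ _ M₂ _ _ k1 k2 v₁ v₂ hv =>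
      not_congr (h2 M₁ M₂ k1 k2 v₁ v₂ hv)⟩
  | imp φ ψ ih ih' =>
    obtain ⟨χ, ι, _, Ψ, h1, h2⟩ := ih
    obtain ⟨χ', ι', _, Ψ', h1', h2'⟩ := ih'
    refine ⟨χ ++ χ', ι ⊕ ι', inferInstance, Sum.elim Ψ Ψ',
      fun c hc => (List.mem_append.1 hc).elim (h1 c) (h1' c),
      fun M₁ _ _ M₂ _ _ k1 k2 v₁ v₂ hv => imp_congr
        (h2 M₁ M₂ (fun c hc => k1 c (List.mem_append_left _ hc))
          (fun c hc => k2 c (List.mem_append_left _ hc)) v₁ v₂ fun i => hv (.inl i))
        (h2' M₁ M₂ (fun c hc => k1 c (List.mem_append_right _ hc))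
          (fun c hc => k2 c (List.mem_append_right _ hc)) v₁ v₂ fun i => hv (.inr i))⟩
  | all j φ ih =>
    obtain ⟨χ, ι, _, Ψ, h1, h2⟩ := ih
    obtain ⟨χ', Ψ', h1', h2'⟩ := step Ψ j M
    refine ⟨χ ++ χ', Finset ι, inferInstance, Ψ',
      fun c hc => (List.mem_append.1 hc).elim (h1 c) (h1' c),
      fun M₁ _ _ M₂ _ _ k1 k2 v₁ v₂ hv => ?_⟩
    have a1 : Ok χ M₁ := fun c hc => k1 c (List.mem_append_left _ hc)
    have a2 : Ok χ M₂ := fun c hc => k2 c (List.mem_append_left _ hc)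
    have b1 : Ok χ' M₁ := fun c hc => k1 c (List.mem_append_right _ hc)
    have b2 : Ok χ' M₂ := fun c hc => k2 c (List.mem_append_right _ hc)
    constructor
    · intro h x₂
      obtain ⟨x₁, hx⟩ := h2' M₂ M₁ b2 b1 v₂ v₁ (fun T => (hv T).symm) x₂
      exact (h2 M₂ M₁ a2 a1 _ _ hx).2 (h x₁)
    · intro h x₁
      obtain ⟨x₂, hx⟩ := h2' M₁ M₂ b1 b2 v₁ v₂ hv x₁
      exact (h2 M₁ M₂ a1 a2 _ _ hx).2 (h x₂)

end formulas

end BMk

theorem sat_claims {R : Type} [Ring R] (θ : Fm R) (hθ : θ.free = ∅) (M : Type) [AddCommGroup M]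
    [Module R M] (v : ℕ → M) (h : θ.Sat v) :
    ∃ χ : List (Claim R), (∀ c ∈ χ, c.ok (ind c.1.toPP c.2.1.toPP M)) ∧
      ∀ (M' : Type) [AddCommGroup M'] [Module R M'] (v' : ℕ → M'),
        (∀ c ∈ χ, c.ok (ind c.1.toPP c.2.1.toPP M')) → θ.Sat v' := by
  obtain ⟨χ, ι, _, Ψ, h1, h2⟩ := BMk.elim M θ
  refine ⟨χ, h1, fun M' _ _ v' k => ?_⟩
  have e : θ.Sat (0 : ℕ → M) := (BMk.sat_congr θ (by simp [hθ])).1 h
  exact (BMk.sat_congr θ (by simp [hθ])).1 ((h2 M M' h1 k 0 0 fun i =>
    iff_of_true ((Ψ i).sat_zero M) ((Ψ i).sat_zero M')).1 e)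

end Pool.Agent.Lib.MP_c13fce_lc
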