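import Pool.Agent.Lib.MP_c13fce_lc.Sys

/-! The splitting lemma for linear relations over a semisimple ring. -/

namespace Pool.Agent.Lib.MP_c13fce_lc
namespace Band
open scoped BigOperators
set_option linter.unusedSectionVars false
set_option linter.unusedVariables false

section Pure
variable {S : Type} [Ring S] [IsSemisimpleRing S]

theorem exists_ginv {V W : Type} [AddCommGroup V] [Module S V] [AddCommGroup W] [Module S W]
    (f : V →ₗ[S] W) : ∃ g : W →ₗ[S] V, ∀ v, f (g (f v)) = f v := by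
  obtain ⟨h, hh⟩ := IsSemisimpleModule.lifting_property f.rangeRestrict
    f.surjective_rangeRestrict LinearMap.id
  obtain ⟨pr, hpr⟩ := IsSemisimpleModule.extension_property (LinearMap.range f).subtype
    (Submodule.subtype_injective _) LinearMap.id
  refine ⟨h ∘ₗ pr, fun v => ?_⟩
  have h1 : pr (f v) = ⟨f v, v, rfl⟩ := LinearMap.congr_fun hpr ⟨f v, v, rfl⟩
  have h2 := congrArg Subtype.val (LinearMap.congr_fun hh ⟨f v, v, rfl⟩)
  rw [LinearMap.comp_apply, h1]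
  exact h2

variable {V Q P L : Type} [AddCommGroup V] [Module S V] [AddCommGroup Q] [Module S Q]
  [AddCommGroup P] [Module S P] [Fintype L]

theorem core (σ₁ σ₂ : S ≃+* S) (π : (L → S) →ₗ[S] V) (ι τ : P →+ V) (g₁ g₂ : P →+ Q)
    (hι : ∀ (s : S) p, ι (s • p) = σ₁ s • ι p) (hτ : ∀ (s : S) p, τ (s • p) = σ₂ s • τ p)
    (hg₁ : ∀ (s : S) p, g₁ (s • p) = σ₁ s • g₁ p) (hg₂ : ∀ (s : S) p, g₂ (s • p) = σ₂ s • g₂ p)
    (inj : Function.Injective ι) (hr : ∀ p, ∃ u, π u = ι p) (Γ : AddSubgroup (Q × Q))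
    (hΓ : ∀ (s : S) x y, (x, y) ∈ Γ → (σ₁ s • x, σ₂ s • y) ∈ Γ) (Y : Submodule S Q)
    (hY₁ : ∀ p, g₁ p ∈ Y) (hY₂ : ∀ p, g₂ p ∈ Y)
    (solv : ∀ (c : L → L → S) (g : L → Q), (∀ l, g l ∈ Y) → ∃ h : L → Q, (∀ l, h l ∈ Y) ∧
      ∀ l, (h l, ∑ k, c l k • h k - g l) ∈ Γ) :
    ∃ μ : V →ₗ[S] Q, (∀ v, μ v ∈ Y) ∧ ∀ p, (μ (ι p) - g₁ p, μ (τ p) - g₂ p) ∈ Γ := by
  classical
  let R : Submodule S V :=
    { carrier := Set.range ι
      add_mem' := by rintro _ _ ⟨p, rfl⟩ ⟨p', rfl⟩; exact ⟨p + p', map_add _ _ _⟩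
      zero_mem' := ⟨0, map_zero _⟩
      smul_mem' := by rintro s _ ⟨p, rfl⟩; exact ⟨σ₁.symm s • p, by rw [hι]; simp⟩ }
  obtain ⟨pr, hpr⟩ := IsSemisimpleModule.extension_property R.subtype
    (Submodule.subtype_injective _) LinearMap.id
  have hj : ∀ v, ∃ p, ι p = pr v := fun v => (pr v).2
  choose j hj using hj
  have jadd : ∀ v v', j (v + v') = j v + j v' := fun v v' => inj (by simp [hj])
  have jsm : ∀ (s : S) v, j (σ₁ s • v) = s • j v := fun s v => inj (by simp [hj, hι])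
  have jι : ∀ p, j (ι p) = p := fun p => inj (by
    rw [hj]; exact congrArg Subtype.val (LinearMap.congr_fun hpr ⟨ι p, p, rfl⟩))
  let jm : V →+ P := AddMonoidHom.mk' j jadd
  let G₁ : V →ₗ[S] Q :=
    { toFun := fun v => g₁ (j v)
      map_add' := fun v v' => by rw [jadd, map_add]
      map_smul' := fun s v => by
        obtain ⟨t, rfl⟩ := σ₁.surjective s
        rw [jsm, hg₁]; rfl }
  obtain ⟨c, hc⟩ := exists_ginv π
  let e : L → V := fun l => π (Pi.single l 1)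
  obtain ⟨h, hY, hh⟩ := solv (fun l k => c (τ (j (e l))) k)
    (fun l => g₂ (j (e l)) - G₁ (τ (j (e l)))) fun l => sub_mem (hY₂ _) (hY₁ _)
  let H : V →ₗ[S] Q := Fintype.linearCombination S h ∘ₗ c
  have hH : ∀ v, H v = ∑ k, c v k • h k := fun v => Fintype.linearCombination_apply _ _ _
  refine ⟨H + G₁, fun v => add_mem ?_ (hY₁ _), fun p => ?_⟩
  · rw [hH]; exact Submodule.sum_mem _ fun k _ => Y.smul_mem _ (hY k)
  obtain ⟨u, hu⟩ := hr p
  have hu2 : ι p = ∑ l, c (ι p) l • e l := by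
    have : π (c (ι p)) = ι p := by rw [← hu, hc]
    conv_lhs => rw [← this, ← Finset.univ_sum_single (c (ι p)), map_sum]
    refine Finset.sum_congr rfl fun l _ => ?_
    rw [← map_smul, ← Pi.single_smul', smul_eq_mul, mul_one]
  have hp : p = ∑ l, σ₁.symm (c (ι p) l) • j (e l) := by
    conv_lhs => rw [← jι p, hu2]
    change jm _ = _
    rw [map_sum]
    refine Finset.sum_congr rfl fun l _ => ?_
    rw [← jsm]; simp [jm]
  have := Γ.sum_mem (t := Finset.univ) fun l _ => hΓ (σ₁.symm (c (ι p) l)) _ _ (hh l)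
  convert this using 1
  rw [Prod.ext_iff, Prod.fst_sum, Prod.snd_sum]
  constructor
  · simp only [LinearMap.add_apply, RingEquiv.apply_symm_apply]
    rw [hH, show G₁ (ι p) = g₁ p from congrArg g₁ (jι p), add_sub_cancel_right]
  · simp only [← hH]
    conv_lhs => rw [hp]
    simp only [map_sum, hτ, hg₂, map_smul, LinearMap.add_apply, ← Finset.sum_sub_distrib]
    refine Finset.sum_congr rfl fun l _ => ?_
    simp only [smul_sub, smul_add]
    abel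

theorem split_pure (s' : S ≃+* S) (Γ : AddSubgroup (Q × Q))
    (hΓ : ∀ (s : S) x y, (x, y) ∈ Γ → (s • x, s' s • y) ∈ Γ) (Qp Qm : Submodule S Q)
    (hiff : ∀ x y, (x, y) ∈ Γ → (x ∈ Qp ⊔ Qm ↔ y ∈ Qp ⊔ Qm)) {K : Type} [Fintype K]
    (solm : ∀ (c : K ⊕ K → K ⊕ K → S) (g : K ⊕ K → Q), (∀ l, g l ∈ Qm) →
      ∃ h : K ⊕ K → Q, (∀ l, h l ∈ Qm) ∧ ∀ l, (h l, ∑ k, c l k • h k - g l) ∈ Γ)
    (solp : ∀ (c : K ⊕ K → K ⊕ K → S) (g : K ⊕ K → Q), (∀ l, g l ∈ Qp) →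
      ∃ h : K ⊕ K → Q, (∀ l, h l ∈ Qp) ∧ ∀ l, (∑ k, c l k • h k - g l, h l) ∈ Γ)
    (al be : K → Q) (hab : ∀ k, (al k, be k) ∈ Γ) :
    ∃ ν : (Q ⧸ (Qp ⊔ Qm)) →ₗ[S] Q, ∀ k,
      (ν ((Qp ⊔ Qm).mkQ (al k)), ν ((Qp ⊔ Qm).mkQ (be k))) ∈ Γ ∧
      ν ((Qp ⊔ Qm).mkQ (al k)) - al k ∈ Qp ⊔ Qm ∧ ν ((Qp ⊔ Qm).mkQ (be k)) - be k ∈ Qp ⊔ Qm := by
  classical
  set Qb := Qp ⊔ Qm with hQb
  have hmk : ∀ x, Qb.mkQ x = 0 ↔ x ∈ Qb := fun x => Submodule.Quotient.mk_eq_zero _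
  let ev : (K ⊕ K → S) →ₗ[S] Q := Fintype.linearCombination S (Sum.elim al be)
  let π := Qb.mkQ ∘ₗ ev
  obtain ⟨c, hc⟩ := exists_ginv π
  let lam := ev ∘ₗ c
  have hlam : ∀ u, lam (π u) - ev u ∈ Qb := fun u => by
    rw [← hmk, map_sub, sub_eq_zero]; exact hc u
  let A : (K → S) →ₗ[S] Q := Fintype.linearCombination S al
  let B : (K → S) →+ Q := AddMonoidHom.mk' (fun u => ∑ k, s' (u k) • be k) fun u u' => by
    simp [add_smul, Finset.sum_add_distrib]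
  have hB : ∀ u, B u = ∑ k, s' (u k) • be k := fun _ => rfl
  have hA : ∀ u, A u = ∑ k, u k • al k := fun _ => Fintype.linearCombination_apply _ _ _
  have hBs : ∀ (s : S) u, B (s • u) = s' s • B u := fun s u => by
    simp [hB, Finset.smul_sum, mul_smul]
  have hAB : ∀ u, (A u, B u) ∈ Γ := fun u => by
    have := Γ.sum_mem (t := Finset.univ) fun k _ => hΓ (u k) _ _ (hab k)
    convert this using 1
    rw [Prod.ext_iff, Prod.fst_sum, Prod.snd_sum]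
    exact ⟨hA u, hB u⟩
  have hevA : ∀ u, ev (Sum.elim u 0) = A u := fun u => by
    simp [ev, hA, Fintype.linearCombination_apply, Fintype.sum_sum_type]
  have hevB : ∀ u, ev (Sum.elim 0 fun k => s' (u k)) = B u := fun u => by
    simp [ev, hB, Fintype.linearCombination_apply, Fintype.sum_sum_type]
  let π₀ := Qb.mkQ ∘ₗ A
  obtain ⟨c₀, hc₀⟩ := exists_ginv π₀
  let P := LinearMap.range π₀
  have hP : ∀ p : P, Qb.mkQ (A (c₀ p)) = p := by rintro ⟨_, u, rfl⟩; exact hc₀ u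
  let ι : P →+ Q ⧸ Qb := P.subtype.toAddMonoidHom
  let bb : P →+ Q := B.comp (c₀ ∘ₗ P.subtype).toAddMonoidHom
  let τ : P →+ Q ⧸ Qb := Qb.mkQ.toAddMonoidHom.comp bb
  have hbb : ∀ p, bb p = B (c₀ p) := fun _ => rfl
  have hτ : ∀ p, τ p = Qb.mkQ (B (c₀ p)) := fun _ => rfl
  have hι : ∀ p, ι p = p := fun _ => rfl
  have τinj : Function.Injective τ := (injective_iff_map_eq_zero _).2 fun p hp => by
    rw [hτ, hmk, ← hiff _ _ (hAB _), ← hmk, hP] at hp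
    exact Subtype.ext hp
  have ιr : ∀ p : P, π (Sum.elim (c₀ p) 0) = ι p := fun p => by
    rw [LinearMap.comp_apply, hevA, hP, hι]
  have τr : ∀ p : P, π (Sum.elim 0 fun k => s' (c₀ p k)) = τ p := fun p => by
    rw [LinearMap.comp_apply, hevB, hτ]
  let g₁ : P →+ Q := (A ∘ₗ c₀ ∘ₗ P.subtype).toAddMonoidHom - lam.toAddMonoidHom.comp ι
  let g₂ : P →+ Q := bb - lam.toAddMonoidHom.comp τ
  have hg₁ : ∀ p : P, g₁ p = A (c₀ p) - lam (ι p) := fun _ => rfl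
  have hg₂ : ∀ p : P, g₂ p = B (c₀ p) - lam (τ p) := fun _ => rfl
  have g₁b : ∀ p, g₁ p ∈ Qb := fun p => by
    rw [hg₁, ← ιr, ← hevA, ← neg_sub]; exact neg_mem (hlam _)
  have g₂b : ∀ p, g₂ p ∈ Qb := fun p => by
    rw [hg₂, ← τr, ← hevB, ← neg_sub]; exact neg_mem (hlam _)
  obtain ⟨sp, hsp⟩ := exists_ginv (Qp.subtype.coprod Qm.subtype)
  let Pp : Q →ₗ[S] Q := Qp.subtype ∘ₗ LinearMap.fst S Qp Qm ∘ₗ sp
  let Pm : Q →ₗ[S] Q := Qm.subtype ∘ₗ LinearMap.snd S Qp Qm ∘ₗ sp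
  have hPP : ∀ x ∈ Qb, Pp x + Pm x = x := fun x hx => by
    obtain ⟨y, hy, z, hz, rfl⟩ := Submodule.mem_sup.1 hx
    exact hsp (⟨y, hy⟩, ⟨z, hz⟩)
  have sι : ∀ (s : S) p, ι (s • p) = s • ι p := fun _ _ => rfl
  have sτ : ∀ (s : S) p, τ (s • p) = s' s • τ p := fun s p => by
    rw [hτ, hτ, Submodule.coe_smul, map_smul, hBs, map_smul]
  have s₁ : ∀ (s : S) p, g₁ (s • p) = s • g₁ p := fun s p => by
    rw [hg₁, hg₁, sι, Submodule.coe_smul, map_smul, map_smul, map_smul, smul_sub]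
  have s₂ : ∀ (s : S) p, g₂ (s • p) = s' s • g₂ p := fun s p => by
    rw [hg₂, hg₂, sτ, Submodule.coe_smul, map_smul, hBs, map_smul, smul_sub]
  obtain ⟨μm, hμm, hm⟩ := core (RingEquiv.refl S) s' π ι τ (Pm.toAddMonoidHom.comp g₁)
    (Pm.toAddMonoidHom.comp g₂) sι sτ (fun s p => by simp [s₁]) (fun s p => by simp [s₂])
    Subtype.val_injective (fun p => ⟨_, ιr p⟩) Γ hΓ Qm (fun p => (sp _).2.2) (fun p => (sp _).2.2)
    solm
  obtain ⟨μp, hμp, hp⟩ := core s' (RingEquiv.refl S) π τ ι (Pp.toAddMonoidHom.comp g₂)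
    (Pp.toAddMonoidHom.comp g₁) sτ sι (fun s p => by simp [s₂]) (fun s p => by simp [s₁])
    τinj (fun p => ⟨_, τr p⟩) (Γ.comap (AddEquiv.prodComm (M := Q) (N := Q)).toAddMonoidHom)
    (fun s x y h => hΓ s y x h) Qp (fun p => (sp _).1.2) (fun p => (sp _).1.2) solp
  have hμ : ∀ v, (μp + μm) v ∈ Qb := fun v => Submodule.add_mem_sup (hμp v) (hμm v)
  refine ⟨lam + (μp + μm), fun k => ?_⟩
  have eA : A (Pi.single k 1) = al k := by simp [A]
  have eB : B (Pi.single k 1) = be k := by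
    rw [hB, Finset.sum_eq_single k] <;> simp +contextual
  let p : P := ⟨Qb.mkQ (al k), Pi.single k 1, congrArg Qb.mkQ eA⟩
  have e1 : Qb.mkQ (al k) = ι p := rfl
  have e2 : Qb.mkQ (be k) = τ p := by
    rw [hτ, ← eB, ← sub_eq_zero, ← map_sub, ← map_sub, hmk, ← hiff _ _ (hAB _), ← hmk, map_sub,
      map_sub, hP, eA]
    exact sub_self _
  refine ⟨?_, ?_, ?_⟩
  · have h1 : (μp (ι p) - Pp (g₁ p), μp (τ p) - Pp (g₂ p)) ∈ Γ := hp p
    have h2 : (μm (ι p) - Pm (g₁ p), μm (τ p) - Pm (g₂ p)) ∈ Γ := hm p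
    convert add_mem (hAB (c₀ p)) (add_mem h1 h2) using 1
    rw [e1, e2, Prod.ext_iff]
    have a1 := hPP _ (g₁b p)
    have a2 := hPP _ (g₂b p)
    simp only [LinearMap.add_apply, Prod.fst_add, Prod.snd_add]
    constructor
    · rw [sub_add_sub_comm, a1, hg₁]; abel
    · rw [sub_add_sub_comm, a2, hg₂]; abel
  · have := hlam (Sum.elim (Pi.single k 1) 0)
    rw [LinearMap.comp_apply Qb.mkQ, hevA, eA] at this
    rw [LinearMap.add_apply, add_sub_right_comm]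
    exact add_mem this (hμ _)
  · have := hlam (Sum.elim 0 fun i => s' ((Pi.single k 1 : K → S) i))
    rw [LinearMap.comp_apply Qb.mkQ, hevB, eB] at this
    rw [LinearMap.add_apply, add_sub_right_comm]
    exact add_mem this (hμ _)

end Pure

section Act
variable {D : Type} [CommRing D] {A : Type} [AddCommGroup A] [Module D A]

/-- Solvability of a twisted linear system for a relation. -/
def Solv (Γ : Submodule D (A × A)) (Y : Submodule D A) {L : Type} [Fintype L]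
    (c : L → L → A →ₗ[D] A) : Prop :=
  ∀ g : L → A, (∀ l, g l ∈ Y) → ∃ h : L → A, (∀ l, h l ∈ Y) ∧
    ∀ l, (h l, ∑ k, c l k (h k) - g l) ∈ Γ

theorem solv_level (Γ : Submodule D (A × A)) (Y : ℕ → Submodule D A) (hm : Monotone Y)
    (h0 : ∀ y ∈ Y 0, y = 0) (hs : ∀ n, ∀ y ∈ Y (n + 1), ∃ y' ∈ Y n, (y', y) ∈ Γ) {L : Type}
    [Fintype L] (c : L → L → A →ₗ[D] A) (hc : ∀ l k n, ∀ y ∈ Y n, c l k y ∈ Y n) (n : ℕ) :
    Solv Γ (Y n) c := by
  induction n with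
  | zero => exact fun g hg => ⟨0, fun _ => zero_mem _, fun l => by
      simp only [h0 _ (hg l), Pi.zero_apply, map_zero, Finset.sum_const_zero, sub_zero]
      exact zero_mem _⟩
  | succ n ih =>
    intro g hg
    choose g' hg' hΓ using fun l => hs n (g l) (hg l)
    obtain ⟨h, hh, hΓ'⟩ := ih (fun l => ∑ k, c l k (g' k))
      fun l => Submodule.sum_mem _ fun k _ => hc l k n _ (hg' k)
    refine ⟨fun l => h l - g' l, fun l => hm n.le_succ (sub_mem (hh l) (hg' l)), fun l => ?_⟩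
    convert sub_mem (hΓ' l) (hΓ l) using 1
    simp only [map_sub, Finset.sum_sub_distrib, Prod.mk_sub_mk]

theorem solv_union (Γ : Submodule D (A × A)) (Y : ℕ → Submodule D A) (hm : Monotone Y)
    (Z : Submodule D A) (hZ : ∀ y, y ∈ Z ↔ ∃ n, y ∈ Y n) {L : Type} [Fintype L]
    (c : L → L → A →ₗ[D] A) (h : ∀ n, Solv Γ (Y n) c) : Solv Γ Z c := by
  intro g hg
  choose n hn using fun l => (hZ _).1 (hg l)
  obtain ⟨x, hx, hx'⟩ := h (Finset.univ.sup n) g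
    fun l => hm (Finset.le_sup (Finset.mem_univ l)) (hn l)
  exact ⟨x, fun l => (hZ _).2 ⟨_, hx l⟩, hx'⟩

variable {Λ S : Type} [Ring S]

/-- A family of endomorphisms acting on `Q` through the ring `S`. -/
structure ActQ (e : Λ → A →ₗ[D] A) (q : Λ → S) (Q : Submodule D A) : Prop where
  surj : Function.Surjective q
  stab : ∀ ρ, ∀ x ∈ Q, e ρ x ∈ Q
  one : ∀ ρ, q ρ = 1 → ∀ x ∈ Q, e ρ x = x
  mul : ∀ ρ₁ ρ₂ ρ, q ρ = q ρ₁ * q ρ₂ → ∀ x ∈ Q, e ρ x = e ρ₁ (e ρ₂ x)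
  add : ∀ ρ₁ ρ₂ ρ, q ρ = q ρ₁ + q ρ₂ → ∀ x ∈ Q, e ρ x = e ρ₁ x + e ρ₂ x

variable {e : Λ → A →ₗ[D] A} {q : Λ → S} {Q : Submodule D A}

theorem ActQ.congr (h : ActQ e q Q) {ρ ρ' : Λ} (hρ : q ρ = q ρ') {x : A} (hx : x ∈ Q) :
    e ρ x = e ρ' x := by
  obtain ⟨o, ho⟩ := h.surj 1
  rw [h.mul o ρ' ρ (by rw [ho, one_mul, hρ]) x hx, h.one o ho _ (h.stab _ _ hx)]

/-- The module structure on `Q`. -/
@[reducible] noncomputable def ActQ.module (h : ActQ e q Q) : Module S Q where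
  smul s x := ⟨e (Function.surjInv h.surj s) x, h.stab _ _ x.2⟩
  one_smul x := Subtype.ext (h.one _ (Function.surjInv_eq _ _) _ x.2)
  mul_smul s t x := Subtype.ext (h.mul _ _ _ (by simp only [Function.surjInv_eq]) _ x.2)
  smul_zero s := Subtype.ext (map_zero _)
  smul_add s x y := Subtype.ext (map_add _ _ _)
  add_smul s t x := Subtype.ext (h.add _ _ _ (by simp only [Function.surjInv_eq]) _ x.2)
  zero_smul x := Subtype.ext (by
    have := h.add (Function.surjInv h.surj 0) (Function.surjInv h.surj 0)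
      (Function.surjInv h.surj 0) (by simp only [Function.surjInv_eq, add_zero]) _ x.2
    exact left_eq_add.1 this)

theorem split_act [IsSemisimpleRing S] (h : ActQ e q Q) (s' : S ≃+* S)
    (Γ Γ' : Submodule D (A × A)) (hsw : ∀ x y, (x, y) ∈ Γ' → (y, x) ∈ Γ)
    (hΓ : ∀ s, ∃ ρ ρ', q ρ = s ∧ q ρ' = s' s ∧ ∀ x y, (x, y) ∈ Γ → (e ρ x, e ρ' y) ∈ Γ)
    (Qp Qm G : Submodule D A) (hp : Qp ≤ Q) (hm : Qm ≤ Q) (hG : ∀ x ∈ Q, x ∈ G ↔ x ∈ Qp ⊔ Qm)
    (sp : ∀ ρ, ∀ x ∈ Qp, e ρ x ∈ Qp) (sm : ∀ ρ, ∀ x ∈ Qm, e ρ x ∈ Qm)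
    (hiff : ∀ x y, (x, y) ∈ Γ → x ∈ Q → y ∈ Q → (x ∈ G ↔ y ∈ G))
    (solm : ∀ (L : Type) [Fintype L] (c : L → L → Λ), Solv Γ Qm fun l k => e (c l k))
    (solp : ∀ (L : Type) [Fintype L] (c : L → L → Λ), Solv Γ' Qp fun l k => e (c l k))
    {K : Type} [Fintype K] (al be : K → A) (hal : ∀ k, al k ∈ Q) (hbe : ∀ k, be k ∈ Q)
    (hab : ∀ k, (al k, be k) ∈ Γ) :
    ∃ al' be' : K → A, (∀ k, (al' k, be' k) ∈ Γ ∧ al' k ∈ Q ∧ be' k ∈ Q ∧ al' k - al k ∈ G) ∧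
      ∀ γ γ' : K → Λ, ∑ k, (e (γ k) (al' k) + e (γ' k) (be' k)) ∈ G →
        ∑ k, (e (γ k) (al' k) + e (γ' k) (be' k)) = 0 := by
  let _ := h.module
  have hs : ∀ (s : S) (x : Q), ((s • x : Q) : A) = e (Function.surjInv h.surj s) x :=
    fun _ _ => rfl
  have hq : ∀ ρ (x : Q), ((q ρ • x : Q) : A) = e ρ x := fun ρ x =>
    h.congr (Function.surjInv_eq _ _) x.2
  let sub : (Y : Submodule D A) → (∀ ρ, ∀ x ∈ Y, e ρ x ∈ Y) → Submodule S Q := fun Y hY =>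
    { carrier := {x | (x : A) ∈ Y}
      add_mem' := fun h h' => Y.add_mem h h'
      zero_mem' := zero_mem Y
      smul_mem' := fun s x hx => hY _ _ hx }
  let Γ₀ : AddSubgroup (Q × Q) := Γ.toAddSubgroup.comap (Q.subtype.prodMap Q.subtype).toAddMonoidHom
  have hΓ₀ : ∀ x y : Q, (x, y) ∈ Γ₀ ↔ ((x : A), (y : A)) ∈ Γ := fun _ _ => Iff.rfl
  have hb : ∀ x : Q, x ∈ sub Qp sp ⊔ sub Qm sm ↔ (x : A) ∈ G := fun x => by
    rw [hG _ x.2, Submodule.mem_sup, Submodule.mem_sup]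
    exact ⟨fun ⟨y, hy, z, hz, e⟩ => ⟨y, hy, z, hz, congrArg Subtype.val e⟩,
      fun ⟨y, hy, z, hz, e⟩ => ⟨⟨y, hp hy⟩, hy, ⟨z, hm hz⟩, hz, Subtype.ext e⟩⟩
  obtain ⟨ν, hν⟩ := split_pure s' Γ₀ (fun s x y hxy => by
      obtain ⟨ρ, ρ', h1, h2, h3⟩ := hΓ s
      rw [hΓ₀, ← h2, ← h1, hq, hq]
      exact h3 _ _ hxy) (sub Qp sp) (sub Qm sm)
    (fun x y hxy => by rw [hb, hb]; exact hiff _ _ hxy x.2 y.2)
    (fun c g hg => by
      obtain ⟨x, hx, hx'⟩ := solm _ (fun l k => Function.surjInv h.surj (c l k))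
        (fun l => g l) hg
      refine ⟨fun l => ⟨x l, hm (hx l)⟩, hx, fun l => ?_⟩
      rw [hΓ₀]
      simpa [hs] using hx' l)
    (fun c g hg => by
      obtain ⟨x, hx, hx'⟩ := solp _ (fun l k => Function.surjInv h.surj (c l k))
        (fun l => g l) hg
      refine ⟨fun l => ⟨x l, hp (hx l)⟩, hx, fun l => ?_⟩
      rw [hΓ₀]
      simpa [hs] using hsw _ _ (hx' l))
    (fun k => ⟨al k, hal k⟩) (fun k => ⟨be k, hbe k⟩) hab
  refine ⟨fun k => ν (Submodule.mkQ _ ⟨al k, hal k⟩), fun k => ν (Submodule.mkQ _ ⟨be k, hbe k⟩),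
    fun k => ⟨(hν k).1, Subtype.property _, Subtype.property _, (hb _).1 (hν k).2.1⟩,
    fun γ γ' hγ => ?_⟩
  simp only [← hq, ← Submodule.coe_add, ← Submodule.coe_sum, ← map_smul, ← map_add,
    ← map_sum] at hγ ⊢
  have : ∑ k, (q (γ k) • (⟨al k, hal k⟩ : Q) + q (γ' k) • (⟨be k, hbe k⟩ : Q)) ∈
      sub Qp sp ⊔ sub Qm sm := by
    have h1 := Submodule.sum_mem _ (t := Finset.univ) fun k _ => add_mem
      (Submodule.smul_mem _ (q (γ k)) (hν k).2.1) (Submodule.smul_mem _ (q (γ' k)) (hν k).2.2)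
    convert sub_mem ((hb _).2 hγ) h1 using 1
    simp only [map_sum, map_add, map_smul, smul_sub, ← Finset.sum_sub_distrib]
    exact Finset.sum_congr rfl fun k _ => by abel
  rw [Submodule.mkQ_apply, (Submodule.Quotient.mk_eq_zero _).2 this, map_zero]
  rfl

end Act

end Band
end Pool.Agent.Lib.MP_c13fce_lc
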