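import Pool.Agent.Lib.MP_c13fce_lc.BandA

/-! Walks along one period, solvability, and the splitting of trajectories. -/

namespace Pool.Agent.Lib.MP_c13fce_lc
namespace Band
open scoped BigOperators
open Set
set_option linter.unusedSectionVars false
set_option linter.unusedVariables false

theorem rwd_per {w : ℤ → Bool} {r : ℕ} (per : ∀ j, w (j + r) = w j) (j : ℤ) :
    rwd univ w (j + r) = rwd univ w j := by
  funext k
  simp only [rwd, mem_univ, if_true]
  rw [show j + r + k = j + k + r by ring, per]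

theorem lwd_per {w : ℤ → Bool} {r : ℕ} (per : ∀ j, w (j + r) = w j) (j : ℤ) :
    lwd univ w (j + r) = lwd univ w j := by
  funext k
  simp only [lwd, mem_univ, if_true]
  rw [show j + r - k - 1 = j - k - 1 + r by ring, per]

section Walk
variable {D : Type} [CommRing D] {A : Type} [AddCommGroup A] [Module D A] {α β : A →ₗ[D] A}
  {w : ℤ → Bool} {p : ℤ} {r : ℕ}

theorem Qa_per (Y : Sys α β) (per : ∀ j, w (j + r) = w j) (j : ℤ) :
    Y.Qa univ w (j + r) = Y.Qa univ w j := by rw [Sys.Qa, rwd_per per, lwd_per per, Sys.Qa]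

theorem Ga_per (Y : Sys α β) (per : ∀ j, w (j + r) = w j) (j : ℤ) :
    Y.Ga univ w (j + r) = Y.Ga univ w j := by rw [Sys.Ga, rwd_per per, lwd_per per, Sys.Ga]

/-- Walks of length `r` starting at `p`. -/
def Wk (α β : A →ₗ[D] A) (w : ℤ → Bool) (p : ℤ) (r : ℕ) : Submodule D (ℤ → A) where
  carrier := {z | ∀ j, p ≤ j → j < p + r → Edge α β w j (z j) (z (j + 1))}
  zero_mem' := fun j _ _ => by simp [Edge]
  add_mem' := fun {x y} hx hy j h h' => ⟨fun hw => by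
      simp [(hx j h h').1 hw, (hy j h h').1 hw], fun hw => by
      simp [(hx j h h').2 hw, (hy j h h').2 hw]⟩
  smul_mem' := fun c x hx j h h' => ⟨fun hw => by simp [(hx j h h').1 hw],
    fun hw => by simp [(hx j h h').2 hw]⟩

/-- The relation between two positions. -/
def Rel (W : Submodule D (ℤ → A)) (p₁ p₂ : ℤ) : Submodule D (A × A) :=
  W.map ((LinearMap.proj p₁).prod (LinearMap.proj p₂))

theorem mem_Rel {W : Submodule D (ℤ → A)} {p₁ p₂ : ℤ} {x y : A} :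
    (x, y) ∈ Rel W p₁ p₂ ↔ ∃ z ∈ W, z p₁ = x ∧ z p₂ = y := by
  simp [Rel, Submodule.mem_map]

theorem walk_left (P : ℤ → A → Prop)
    (step : ∀ j y, p ≤ j → j < p + r → P (j + 1) y → ∃ x, P j x ∧ Edge α β w j x y) {y : A}
    (hy : P (p + r) y) : ∃ z ∈ Wk α β w p r, z (p + r) = y ∧ P p (z p) := by
  induction r generalizing y with
  | zero => exact ⟨fun _ => y, fun j h h' => by omega, rfl, by simpa using hy⟩
  | succ n ih =>
    push_cast at step hy ⊢
    obtain ⟨x, hx, hE⟩ := step (p + n) y (by omega) (by omega) (by rwa [add_assoc])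
    obtain ⟨z, hz, rfl, hp⟩ := ih (fun j y h h' => step j y h (by omega)) hx
    refine ⟨Function.update z (p + (n + 1)) y, fun j h h' => ?_, by simp, ?_⟩
    · push_cast at h'
      rw [Function.update_of_ne (by omega)]
      by_cases hj : j = p + n
      · subst hj; rw [add_assoc, Function.update_self]; exact hE
      · rw [Function.update_of_ne (by omega)]; exact hz j h (by omega)
    · rwa [Function.update_of_ne (by omega)]

theorem walk_right (P : ℤ → A → Prop)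
    (step : ∀ j x, p ≤ j → j < p + r → P j x → ∃ y, P (j + 1) y ∧ Edge α β w j x y) {x : A}
    (hx : P p x) : ∃ z ∈ Wk α β w p r, z p = x ∧ P (p + r) (z (p + r)) := by
  induction r with
  | zero => exact ⟨fun _ => x, fun j h h' => by omega, rfl, by simpa using hx⟩
  | succ n ih =>
    push_cast at step ⊢
    obtain ⟨z, hz, rfl, hp⟩ := ih fun j y h h' => step j y h (by omega)
    obtain ⟨y, hy, hE⟩ := step (p + n) _ (by omega) (by omega) hp
    refine ⟨Function.update z (p + (n + 1)) y, fun j h h' => ?_,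
      Function.update_of_ne (by omega) _ _, by rwa [Function.update_self, ← add_assoc]⟩
    push_cast at h'
    rw [Function.update_of_ne (by omega)]
    by_cases hj : j = p + n
    · subst hj; rw [add_assoc, Function.update_self]; exact hE
    · rw [Function.update_of_ne (by omega)]; exact hz j h (by omega)

theorem prop_fwd (P : ℤ → Prop) (h0 : P p) (step : ∀ j, p ≤ j → j < p + r → P j → P (j + 1))
    {j : ℤ} (hj : j ∈ Icc p (p + r)) : P j := by
  obtain ⟨h1, h2⟩ := hj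
  induction j, h1 using Int.leInduction with
  | base => exact h0
  | succ n hn ih => exact step n hn (by omega) (ih (by omega))

theorem prop_bwd (P : ℤ → Prop) (h0 : P (p + r))
    (step : ∀ j, p ≤ j → j < p + r → P (j + 1) → P j) {j : ℤ} (hj : j ∈ Icc p (p + r)) : P j := by
  obtain ⟨h1, h2⟩ := hj
  induction j, h2 using Int.leInductionDown with
  | base => exact h0
  | pred n hn ih => exact step _ h1 (by omega) (by rw [sub_add_cancel]; exact ih (by omega))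

section Edges
variable {E : Submodule D A} {F : Wd → Submodule D A} {j : ℤ} {x y : A} {n : ℕ}

theorem edge_R (h : Side α β E F) (hE : Edge α β w j x y) (hy : y ∈ F (rwd univ w (j + 1))) :
    x ∈ F (rwd univ w j) := by
  cases hw : w j
  · rw [h.rB (mem_univ _) hw, Submodule.mem_comap, hE.2 hw]; exact hy
  · rw [h.rA (mem_univ _) hw]; exact ⟨y, hy, hE.1 hw⟩

theorem edge_L (h : Side β α E F) (hE : Edge α β w j x y) (hx : x ∈ F (lwd univ w j)) :
    y ∈ F (lwd univ w (j + 1)) := by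
  cases hw : w j
  · rw [h.lB (mem_univ _) hw]; exact ⟨x, hx, hE.2 hw⟩
  · rw [h.lA (mem_univ _) hw, Submodule.mem_comap, hE.1 hw]; exact hx

theorem edge_up (hE : Edge α β w j x y) (hx : x ∈ up β α n (lwd univ w j)) :
    y ∈ up β α (n + 1) (lwd univ w (j + 1)) := by
  cases hw : w j
  · rw [up_zero (lwd0_eq_zero.2 (by simpa using hw)), lwd_tl, add_sub_cancel_right]
    exact ⟨x, hx, hE.2 hw⟩
  · rw [up_two (lwd0_eq_two.2 (by simpa using hw)), lwd_tl, add_sub_cancel_right,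
      Submodule.mem_comap, hE.1 hw]
    exact hx

theorem lo_left (h : Side α β E F) (hy : y ∈ lo β α (n + 1) (lwd univ w (j + 1)))
    (hF : y ∈ F (rwd univ w (j + 1))) :
    ∃ x, (x ∈ lo β α n (lwd univ w j) ∧ x ∈ F (rwd univ w j)) ∧ Edge α β w j x y := by
  have : ∃ x, x ∈ lo β α n (lwd univ w j) ∧ Edge α β w j x y := by
    cases hw : w j
    · rw [lo_zero (lwd0_eq_zero.2 (by simpa using hw)), lwd_tl, add_sub_cancel_right] at hy
      obtain ⟨x, hx, rfl⟩ := hy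
      exact ⟨x, hx, by simp [Edge, hw]⟩
    · rw [lo_two (lwd0_eq_two.2 (by simpa using hw)), lwd_tl, add_sub_cancel_right] at hy
      exact ⟨α y, hy, by simp [Edge, hw]⟩
  obtain ⟨x, hx, hE⟩ := this
  exact ⟨x, ⟨hx, edge_R h hE hF⟩, hE⟩

theorem lo_right (hx : x ∈ lo α β (n + 1) (rwd univ w j)) :
    ∃ y, y ∈ lo α β n (rwd univ w (j + 1)) ∧ Edge α β w j x y := by
  cases hw : w j
  · rw [lo_two (rwd0_eq_two.2 (by simpa using hw)), rwd_tl] at hx
    exact ⟨β x, hx, by simp [Edge, hw]⟩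
  · rw [lo_zero (rwd0_eq_zero.2 (by simpa using hw)), rwd_tl] at hx
    obtain ⟨y, hy, rfl⟩ := hx
    exact ⟨y, hy, by simp [Edge, hw]⟩

end Edges

variable {Λ : Type} {e : Λ → A →ₗ[D] A}

/-- A family of endomorphisms normalising `α`. -/
def Cmp (e : Λ → A →ₗ[D] A) (α : A →ₗ[D] A) : Prop :=
  (∀ ρ, ∃ ρ', ∀ x, e ρ (α x) = α (e ρ' x)) ∧ ∀ ρ, ∃ ρ', ∀ x, α (e ρ x) = e ρ' (α x)

theorem up_stable (ha : Cmp e α) (hb : Cmp e β) (n : ℕ) (u : Wd) (ρ : Λ) {x : A}
    (hx : x ∈ up α β n u) : e ρ x ∈ up α β n u := by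
  induction n generalizing u ρ x with
  | zero => trivial
  | succ n ih =>
    obtain ⟨r1, h1⟩ := ha.1 ρ
    obtain ⟨r2, h2⟩ := hb.2 ρ
    rcases fin3_cases (u 0) with hu | hu | hu
    · rw [up_zero hu] at hx ⊢
      obtain ⟨y, hy, rfl⟩ := hx
      exact ⟨_, ih _ r1 hy, (h1 y).symm⟩
    · rw [up_one hu, LinearMap.mem_ker] at hx ⊢
      rw [h2, hx, map_zero]
    · rw [up_two hu] at hx ⊢
      rw [Submodule.mem_comap, h2]
      exact ih _ r2 hx

variable {L : Type} [Fintype L]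

theorem solv_minus (hr : 0 < r) (per : ∀ j, w (j + r) = w j) (ha : Cmp e α) (hb : Cmp e β)
    {E : Submodule D A} {F : Wd → Submodule D A} (h : Side α β E F)
    (hF : ∀ ρ, ∀ x ∈ F (rwd univ w p), e ρ x ∈ F (rwd univ w p)) (c : L → L → Λ) :
    Solv (Rel (Wk α β w p r) p (p + r)) (F (rwd univ w p) ⊓ mn β α (lwd univ w p))
      fun l k => e (c l k) := by
  refine solv_union _ (fun n => F (rwd univ w p) ⊓ lo β α n (lwd univ w p))
    (fun n m hnm => inf_le_inf_left _ (lo_mono' _ hnm)) _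
    (fun y => by simp only [Submodule.mem_inf, mem_mn, exists_and_left]) _ fun n => ?_
  refine solv_level _ _ (fun n m hnm => inf_le_inf_left _ (lo_mono' _ hnm))
    (fun y hy => (Submodule.mem_bot D).1 hy.2) (fun n y hy => ?_) _
    (fun l k n y hy => ⟨hF _ _ hy.1, lo_stable e hb.1 ha.2 n _ _ hy.2⟩) n
  obtain ⟨z, hz, h1, h2⟩ := walk_left (α := α) (β := β) (w := w) (p := p) (r := r)
    (fun j x => x ∈ F (rwd univ w j) ∧ x ∈ lo β α (n + 1) (lwd univ w j) ∧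
      (j < p + r → x ∈ lo β α n (lwd univ w j))) (fun j y _ _ hy => by
        obtain ⟨x, hx, hE⟩ := lo_left h hy.2.1 hy.1
        exact ⟨x, ⟨hx.2, lo_le_succ _ _ hx.1, fun _ => hx.1⟩, hE⟩) (y := y)
    (by rw [rwd_per per, lwd_per per]; exact ⟨hy.1, hy.2, fun h => absurd h (lt_irrefl _)⟩)
  exact ⟨z p, ⟨h2.1, h2.2.2 (by omega)⟩, mem_Rel.2 ⟨z, hz, rfl, h1⟩⟩

theorem solv_mn (hr : 0 < r) (per : ∀ j, w (j + r) = w j) (ha : Cmp e α) (hb : Cmp e β)
    (c : L → L → Λ) :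
    Solv (Rel (Wk α β w p r) (p + r) p) (mn α β (rwd univ w p)) fun l k => e (c l k) := by
  refine solv_union _ (fun n => lo α β n (rwd univ w p)) (lo_mono' _) _ (fun y => mem_mn) _
    fun n => ?_
  refine solv_level _ _ (lo_mono' _) (fun y hy => (Submodule.mem_bot D).1 hy) (fun n x hx => ?_) _
    (fun l k n y hy => lo_stable e ha.1 hb.2 n _ _ hy) n
  obtain ⟨z, hz, h1, h2⟩ := walk_right (α := α) (β := β) (w := w) (p := p) (r := r)
    (fun j x => x ∈ lo α β (n + 1) (rwd univ w j) ∧ (p < j → x ∈ lo α β n (rwd univ w j)))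
    (fun j y _ _ hy => by
      obtain ⟨x, hx, hE⟩ := lo_right hy.1
      exact ⟨x, ⟨lo_le_succ _ _ hx, fun _ => hx⟩, hE⟩) (x := x)
    ⟨hx, fun h => absurd h (lt_irrefl _)⟩
  refine ⟨z (p + r), ?_, mem_Rel.2 ⟨z, hz, rfl, h1⟩⟩
  rw [← rwd_per per]
  exact h2.2 (by omega)

theorem solv_boot (hr : 0 < r) (per : ∀ j, w (j + r) = w j) (ha : Cmp e α) (hb : Cmp e β)
    (c : L → L → Λ) {Y : Submodule D A}
    (h : Solv (Rel (Wk α β w p r) (p + r) p) Y fun l k => e (c l k)) :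
    Solv (Rel (Wk α β w p r) (p + r) p) (Y ⊓ ⨅ n, up β α n (lwd univ w p))
      fun l k => e (c l k) := by
  intro g hg
  obtain ⟨x, hx, hx'⟩ := h g fun l => (hg l).1
  have key : ∀ n l, x l ∈ up β α n (lwd univ w p) := by
    intro n
    induction n with
    | zero => exact fun _ => trivial
    | succ n ih =>
      intro l
      obtain ⟨z, hz, h1, h2⟩ := mem_Rel.1 (hx' l)
      have h3 : z p ∈ up β α n (lwd univ w p) := by
        rw [h2]
        exact sub_mem (Submodule.sum_mem _ fun k _ => up_stable hb ha n _ _ (ih k))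
          ((Submodule.mem_iInf _).1 (hg l).2 n)
      have := prop_fwd (p := p) (r := r) (fun j => z j ∈ up β α n (lwd univ w j) ∧
        (p < j → z j ∈ up β α (n + 1) (lwd univ w j))) ⟨h3, fun h => absurd h (lt_irrefl _)⟩
        (fun j h h' hj => ⟨up_succ_le _ _ (edge_up (hz j h h') hj.1),
          fun _ => edge_up (hz j h h') hj.1⟩) (j := p + r) ⟨by omega, le_rfl⟩
      rw [← h1, ← lwd_per per]
      exact this.2 (by omega)
  exact ⟨x, fun l => ⟨hx l, (Submodule.mem_iInf _).2 fun n => key n l⟩, hx'⟩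

theorem walk_Q (Y : Sys α β) (per : ∀ j, w (j + r) = w j) {z : ℤ → A} (hz : z ∈ Wk α β w p r)
    (h1 : z p ∈ Y.Qa univ w p) (h2 : z (p + r) ∈ Y.Qa univ w p) {j : ℤ}
    (hj : j ∈ Icc p (p + r)) : z j ∈ Y.Qa univ w j := by
  rw [← Qa_per Y per] at h2
  exact ⟨prop_bwd (fun j => z j ∈ Y.Rp (rwd univ w j)) h2.1
    (fun j h h' => edge_R Y.hRp (hz j h h')) hj,
    prop_fwd (fun j => z j ∈ Y.Lp (lwd univ w j)) h1.2
    (fun j h h' => edge_L Y.hLp (hz j h h')) hj⟩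

theorem walk_G (Y : Sys α β) (per : ∀ j, w (j + r) = w j) {z : ℤ → A} (hz : z ∈ Wk α β w p r)
    (h1 : z p ∈ Y.Qa univ w p) (h2 : z (p + r) ∈ Y.Qa univ w p) {j : ℤ}
    (hj : j ∈ Icc p (p + r)) : z p ∈ Y.Ga univ w p ↔ z j ∈ Y.Ga univ w j :=
  iff_of_edges ordConnected_Icc (fun j => z j ∈ Y.Ga univ w j) (fun i hi hi' =>
    Y.edge_low (mem_univ _) (mem_univ _) (walk_Q Y per hz h1 h2 hi) (walk_Q Y per hz h1 h2 hi')
      (hz i hi.1 (by have := hi'.2; omega))) ⟨le_rfl, by omega⟩ hj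

theorem traj_wk {Y : Sys α β} {x : ℤ → A} (hx : x ∈ Y.trajG univ w) : x ∈ Wk α β w p r :=
  fun j _ _ => hx.1.edge (mem_univ _) (mem_univ _)

theorem Q_kill_a (Y : Sys α β) (hβα : ∀ x, α (β x) = 0) {j : ℤ} (hw : w (j - 1) = false) {x : A}
    (hx : x ∈ Y.Qa univ w j) : α x = 0 := by
  have := hx.2
  rw [Y.hLp.zero (lwd0_eq_zero.2 ⟨mem_univ _, hw⟩)] at this
  obtain ⟨y, -, rfl⟩ := this
  exact hβα y

theorem Q_kill_b (Y : Sys α β) (hαβ : ∀ x, β (α x) = 0) {j : ℤ} (hw : w j = true) {x : A}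
    (hx : x ∈ Y.Qa univ w j) : β x = 0 := by
  have := hx.1
  rw [Y.hRp.zero (rwd0_eq_zero.2 ⟨mem_univ _, hw⟩)] at this
  obtain ⟨y, -, rfl⟩ := this
  exact hαβ y

theorem mem_G_iff (Y : Sys α β) {u v : Wd} {x : A} (hx : x ∈ Y.Q u v) :
    x ∈ Y.Gm u v ↔ x ∈ (Y.Rm u ⊓ Y.Lp v) ⊔ (Y.Rp u ⊓ Y.Lm v) := by
  refine ⟨fun h => ?_, fun h => (sup_le_sup_right (inf_le_left (a := Y.Rm u)) _ :) h⟩
  obtain ⟨y, hy, z, hz, rfl⟩ := Submodule.mem_sup.1 h
  refine Submodule.add_mem_sup ⟨hy, ?_⟩ hz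
  simpa using sub_mem hx.2 (Y.Lle _ hz.2)

theorem split_traj {S : Type} [Ring S] [IsSemisimpleRing S] (Y : Sys α β)
    (hαβ : ∀ x, β (α x) = 0) (hβα : ∀ x, α (β x) = 0) (per : ∀ j, w (j + r) = w j)
    (hl : w (p - 1) = false) (hw : w p = true) (q : Λ → S) (hQ : ActQ e q (Y.Qa univ w p))
    (s' : S ≃+* S)
    (hst : ∀ u ρ x, (x ∈ Y.Rm u → e ρ x ∈ Y.Rm u) ∧ (x ∈ Y.Rp u → e ρ x ∈ Y.Rp u) ∧
      (x ∈ Y.Lm u → e ρ x ∈ Y.Lm u) ∧ (x ∈ Y.Lp u → e ρ x ∈ Y.Lp u))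
    (fam : ∀ s, ∃ ρ : ℤ → Λ, q (ρ p) = s ∧ q (ρ (p + r)) = s' s ∧
      (∀ j x, w j = true → α (e (ρ (j + 1)) x) = e (ρ j) (α x)) ∧
      ∀ j x, w j = false → β (e (ρ j) x) = e (ρ (j + 1)) (β x))
    (solm : ∀ (L : Type) [Fintype L] (c : L → L → Λ), Solv (Rel (Wk α β w p r) p (p + r))
      (Y.Rp (rwd univ w p) ⊓ Y.Lm (lwd univ w p)) fun l k => e (c l k))
    (solp : ∀ (L : Type) [Fintype L] (c : L → L → Λ), Solv (Rel (Wk α β w p r) (p + r) p)
      (Y.Rm (rwd univ w p) ⊓ Y.Lp (lwd univ w p)) fun l k => e (c l k))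
    {K : Type} [Fintype K] (x : K → ℤ → A) (hx : ∀ k, x k ∈ Y.trajG univ w) :
    ∃ z : K → ℤ → A, (∀ k, ATraj α β (Icc p (p + r)) w (z k) ∧ ∀ j ∈ Icc p (p + r),
        z k j ∈ Y.Qa univ w j ∧ z k j - x k j ∈ Y.Ga univ w j) ∧
      ∀ γ γ' : K → Λ, ∑ k, (e (γ k) (z k p) + e (γ' k) (z k (p + r))) ∈ Y.Ga univ w p →
        ∑ k, (e (γ k) (z k p) + e (γ' k) (z k (p + r))) = 0 := by
  classical
  have hx1 : ∀ k, x k p ∈ Y.Qa univ w p := fun k => (hx k).2 _ (mem_univ _)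
  have hx2 : ∀ k, x k (p + r) ∈ Y.Qa univ w p := fun k =>
    Qa_per Y per p ▸ (hx k).2 _ (mem_univ _)
  obtain ⟨al, be, h1, h2⟩ := split_act hQ s' (Rel (Wk α β w p r) p (p + r))
    (Rel (Wk α β w p r) (p + r) p)
    (fun x y h => by
      obtain ⟨z, hz, h, h'⟩ := mem_Rel.1 h
      exact mem_Rel.2 ⟨z, hz, h', h⟩)
    (fun s => by
      obtain ⟨ρ, h1, h2, h3, h4⟩ := fam s
      refine ⟨_, _, h1, h2, fun x y h => ?_⟩
      obtain ⟨z, hz, rfl, rfl⟩ := mem_Rel.1 h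
      refine mem_Rel.2 ⟨fun j => e (ρ j) (z j), fun j h h' => ⟨fun hw => ?_, fun hw => ?_⟩, rfl, rfl⟩
      · rw [h3 _ _ hw, (hz j h h').1 hw]
      · rw [h4 _ _ hw, (hz j h h').2 hw])
    _ _ (Y.Ga univ w p) (inf_le_inf_right _ (Y.Rle _)) (inf_le_inf_left _ (Y.Lle _))
    (fun x hx => mem_G_iff Y hx) (fun ρ x hx => ⟨(hst _ ρ x).1 hx.1, (hst _ ρ x).2.2.2 hx.2⟩)
    (fun ρ x hx => ⟨(hst _ ρ x).2.1 hx.1, (hst _ ρ x).2.2.1 hx.2⟩)
    (fun x y h hx hy => by
      obtain ⟨z, hz, rfl, rfl⟩ := mem_Rel.1 h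
      rw [walk_G Y per hz hx hy (j := p + r) ⟨by omega, le_rfl⟩, Ga_per Y per])
    solm solp (fun k => x k p) (fun k => x k (p + r)) hx1 hx2
    fun k => mem_Rel.2 ⟨x k, traj_wk (hx k), rfl, rfl⟩
  choose z hz hz1 hz2 using fun k => mem_Rel.1 (h1 k).1
  have hQz : ∀ k, ∀ j ∈ Icc p (p + r), z k j ∈ Y.Qa univ w j := fun k j hj =>
    walk_Q Y per (hz k) (hz1 k ▸ (h1 k).2.1) (hz2 k ▸ (h1 k).2.2.1) hj
  have hp : p ∈ Icc p (p + r) := ⟨le_rfl, by omega⟩
  have hp' : p + r ∈ Icc p (p + r) := ⟨by omega, le_rfl⟩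
  refine ⟨fun k j => if j ∈ Icc p (p + r) then z k j else 0, fun k =>
    ⟨⟨fun j hj => if_neg hj, fun j hj => ?_, fun j hj => ?_⟩, fun j hj => ?_⟩, ?_⟩
  · simp only [if_pos hj]
    cases h : w (j - 1)
    · simpa using Q_kill_a Y hβα h (hQz k j hj)
    · have hne : j ≠ p := by rintro rfl; simp [hl] at h
      obtain ⟨h3, h4⟩ := hj
      have := (hz k (j - 1) (by omega) (by omega)).1 h
      rw [sub_add_cancel] at this
      rw [if_pos rfl, if_pos ⟨by omega, by omega⟩, this]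
  · simp only [if_pos hj]
    cases h : w j
    · have hne : j ≠ p + r := by rintro rfl; simp [per, hw] at h
      obtain ⟨h3, h4⟩ := hj
      rw [if_neg (by simp), if_pos ⟨by omega, by omega⟩, (hz k j h3 (by omega)).2 h]
    · simpa using Q_kill_b Y hαβ h (hQz k j hj)
  · simp only [if_pos hj]
    refine ⟨hQz k j hj, (walk_G Y per (sub_mem (hz k) (traj_wk (hx k)))
      (sub_mem (hQz k p hp) (hx1 k)) (sub_mem (Qa_per Y per p ▸ hQz k _ hp') (hx2 k)) hj).1 ?_⟩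
    rw [Pi.sub_apply, hz1]
    exact (h1 k).2.2.2
  · simp only [if_pos hp, if_pos hp', hz1, hz2]
    exact h2

end Walk

section DD
variable {D : Type} [CommRing D] [IsDomain D] [IsPrincipalIdealRing D] {A B : Type}
  [AddCommGroup A] [Module D A] [AddCommGroup B] [Module D B] {α β : A →ₗ[D] A}
  {w : ℤ → Bool} {p : ℤ} {r : ℕ} {L : Type} [Fintype L]

theorem Cmp.du {Λ : Type} {e : Λ → A →ₗ[D] A} (h : Cmp e α) :
    Cmp (fun ρ => du (e ρ)) (du α) :=
  ⟨fun ρ => (h.2 ρ).imp fun _ h χ => LinearMap.ext fun x => congrArg χ (h x),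
    fun ρ => (h.1 ρ).imp fun _ h χ => LinearMap.ext fun x => congrArg χ (h x)⟩

theorem dd_eq {U : Submodule D B} {f g : B →ₗ[D] A} (h : ∀ b ∈ U, f b = g b) {ξ : DD D B}
    (hξ : ξ ∈ ann (ann U)) : du (du f) ξ = du (du g) ξ := by
  refine LinearMap.ext fun χ => ?_
  have := hξ (du f χ - du g χ) fun b hb => by simp [h b hb]
  rwa [map_sub, sub_eq_zero] at this

theorem dd_lift (U : Submodule D B) (Y : Submodule D A) (f : L → B →ₗ[D] A)
    (h : ∀ g : L → A, (∀ l, g l ∈ Y) → ∃ b ∈ U, ∀ l, f l b = g l) (g : L → DD D A)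
    (hg : ∀ l, g l ∈ ann (ann Y)) : ∃ ξ ∈ ann (ann U), ∀ l, du (du (f l)) ξ = g l := by
  classical
  have hle : Submodule.pi univ (fun _ : L => Y) ≤ U.map (LinearMap.pi f) := fun x hx => by
    obtain ⟨b, hb, e⟩ := h x fun l => hx l trivial
    exact ⟨b, hb, funext e⟩
  have h2 := ann_anti (ann_anti hle)
  rw [ann_ann_map] at h2
  obtain ⟨ξ, hξ, e⟩ := h2 (x := ∑ l, du (du (LinearMap.single D (fun _ => A) l)) (g l))
    (Submodule.sum_mem _ fun l _ χ hχ => hg l _ fun y hy => hχ _ fun k _ => by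
      by_cases hk : k = l
      · subst hk; simpa using hy
      · simp [Pi.single_eq_of_ne hk])
  refine ⟨ξ, hξ, fun l => LinearMap.ext fun χ => ?_⟩
  have := LinearMap.congr_fun e (du (LinearMap.proj l) χ)
  rw [LinearMap.sum_apply, Finset.sum_eq_single l] at this
  · refine this.trans (congrArg (g l) (LinearMap.ext fun y => ?_))
    simp
  · intro k _ hk
    refine (congrArg (g k) (LinearMap.ext fun y => ?_)).trans (map_zero _)
    simp [Pi.single_eq_of_ne hk.symm]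
  · simp

theorem solv_dd {Y : Submodule D A} {p₁ p₂ : ℤ} {c : L → L → A →ₗ[D] A}
    (h : Solv (Rel (Wk α β w p r) p₁ p₂) Y c) :
    Solv (Rel (Wk (du (du α)) (du (du β)) w p r) p₁ p₂) (ann (ann Y))
      fun l k => du (du (c l k)) := by
  intro g hg
  let E : L → ℤ → (L → ℤ → A) →ₗ[D] A := fun l j => LinearMap.proj j ∘ₗ LinearMap.proj l
  let U : Submodule D (L → ℤ → A) :=
    ⨅ l, Y.comap (E l p₁) ⊓ (Wk α β w p r).comap (LinearMap.proj l)
  have hU : ∀ b, b ∈ U ↔ ∀ l, b l p₁ ∈ Y ∧ b l ∈ Wk α β w p r := fun b => by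
    simp [U, E, Submodule.mem_iInf]
  obtain ⟨ξ, hξ, e⟩ := dd_lift U Y (fun l => ∑ k, c l k ∘ₗ E k p₁ - E l p₂) (fun g hg => by
    obtain ⟨x, hx, hx'⟩ := h g hg
    choose z hz h1 h2 using fun l => mem_Rel.1 (hx' l)
    refine ⟨z, (hU z).2 fun l => ⟨h1 l ▸ hx l, hz l⟩, fun l => ?_⟩
    simp [E, h1, h2]) g hg
  refine ⟨fun l => du (du (E l p₁)) ξ, fun l χ hχ => hξ _ fun b hb => hχ _ ((hU b).1 hb l).1,
    fun l => mem_Rel.2 ⟨fun j => du (du (E l j)) ξ, fun j h h' => ⟨fun hw => ?_, fun hw => ?_⟩,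
      rfl, ?_⟩⟩
  · exact dd_eq (f := α ∘ₗ E l (j + 1)) (g := E l j) (fun b hb => (((hU b).1 hb l).2 j h h').1 hw) hξ
  · exact dd_eq (f := β ∘ₗ E l j) (g := E l (j + 1)) (fun b hb => (((hU b).1 hb l).2 j h h').2 hw) hξ
  · rw [← e l]
    refine LinearMap.ext fun χ => ?_
    simp only [LinearMap.sub_apply, LinearMap.sum_apply, du_apply, ← map_sum, ← map_sub]
    refine congrArg ξ (LinearMap.ext fun b => ?_)
    simp

theorem solv_plus {Λ : Type} {e : Λ → A →ₗ[D] A} (hr : 0 < r) (per : ∀ j, w (j + r) = w j)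
    (ha : Cmp e α) (hb : Cmp e β) (c : L → L → Λ) :
    Solv (Rel (Wk (du (du α)) (du (du β)) w p r) (p + r) p)
      (ann (ann (mn α β (rwd univ w p))) ⊓ ann (mn (du α) (du β) (lwd univ w p).flip))
      fun l k => du (du (e (c l k))) := by
  rw [ann_mn (α := du α), Wd.flip_flip]
  exact solv_boot hr per ha.du.du hb.du.du c (solv_dd (solv_mn hr per ha hb c))

end DD

end Band
end Pool.Agent.Lib.MP_c13fce_lc
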