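import Pool.Agent.Lib.MP_c13fce_lc.Str

/-! Families, finiteness and dual bases of string modules. -/

namespace Pool.Agent.Lib.MP_c13fce_lc
open scoped BigOperators
set_option linter.unusedSectionVars false
set_option linter.unusedVariables false

variable {D Λ S : Type} [CommRing D] [IsDomain D] [Ring Λ] [Algebra D Λ] [Ring S] [Algebra D S]
  {J J' : Set ℤ} {w w' : ℤ → Bool} (Δ : SD D Λ S)

theorem SD.tw_A {j : ℤ} (h : w j = true) (s : S) : Δ.tw w j s = Δ.σ (Δ.tw w (j + 1) s) := by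
  rw [SD.tw, SD.tw, ht_succ, if_pos h, ← AlgEquiv.mul_apply, ← zpow_one_add]
  congr 2; ring

theorem SD.tw_B {j : ℤ} (h : w j = false) : Δ.tw w (j + 1) = Δ.tw w j := by
  rw [SD.tw, SD.tw, ht_succ, if_neg (by simp [h]), add_zero]

theorem SD.q_a : Δ.q Δ.a = 0 := (Δ.q_ker _).2 ⟨1, 0, by simp⟩
theorem SD.q_b : Δ.q Δ.b = 0 := (Δ.q_ker _).2 ⟨0, 1, by simp⟩
theorem SD.q_pi : Δ.q (algebraMap D Λ Δ.π) = 0 := by rw [AlgHom.commutes, Δ.qπ]

theorem SD.exists_fam_at (w : ℤ → Bool) (s : S) {j : ℤ} {r : Λ} (hr : Δ.q r = Δ.tw w j s) :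
    ∃ ρ, Δ.Fam w s ρ ∧ ρ j = r := by
  obtain ⟨ρ, h0, h1, h2⟩ := exists_path Set.ordConnected_univ (fun i r => Δ.q r = Δ.tw w i s)
    (fun i r r' => (w i = true → Δ.a * r' = r * Δ.a) ∧ (w i = false → r' = r))
    (fun i r _ _ h => by
      cases c : w i
      · exact ⟨r, by rw [Δ.tw_B c, h], by simp⟩
      · obtain ⟨r', e, e'⟩ := Δ.na' r
        exact ⟨r', Δ.σ.injective (by rw [← e', h, Δ.tw_A c]), by simp [e]⟩)
    (fun i r' _ _ h => by
      cases c : w i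
      · exact ⟨r', by rw [h, Δ.tw_B c], by simp⟩
      · obtain ⟨r, e, e'⟩ := Δ.na r'
        exact ⟨r, by rw [e', h, Δ.tw_A c], by simp [e]⟩) (Set.mem_univ j) hr
  exact ⟨ρ, ⟨fun j => h1 j trivial, fun j => (h2 j trivial trivial).1,
    fun j => (h2 j trivial trivial).2⟩, h0⟩

theorem SD.exists_fam (w : ℤ → Bool) (s : S) : ∃ ρ, Δ.Fam w s ρ := by
  obtain ⟨r, hr⟩ := Δ.q_surj (Δ.tw w 0 s)
  obtain ⟨ρ, h, -⟩ := Δ.exists_fam_at w s hr
  exact ⟨ρ, h⟩

theorem SD.Fam.traj {Δ : SD D Λ S} {s : S} {ρ : ℤ → Λ} (h : Δ.Fam w s ρ) {N : Type}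
    [AddCommGroup N] [Module Λ N] {x : ℤ → N} (hx : Traj Δ.a Δ.b J w x) :
    Traj Δ.a Δ.b J w fun j => ρ j • x j := by
  refine ⟨fun j hj => by simp [hx.1 j hj], fun j hj => ?_, fun j hj => ?_⟩
  · beta_reduce
    split_ifs with c
    · have := h.2.1 _ c
      rw [sub_add_cancel] at this
      rw [smul_smul, this, mul_smul, hx.2.1 j hj, if_pos c]
    · obtain ⟨r', e, -⟩ := Δ.na (ρ j)
      rw [smul_smul, e, mul_smul, hx.2.1 j hj, if_neg c, smul_zero]
  · beta_reduce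
    rw [smul_smul, Δ.cb, mul_smul, hx.2.2 j hj]
    split_ifs with c
    · rw [smul_zero]
    · rw [h.2.2 j (by simpa using c)]

/-- The radical moves a generator to its lower neighbours. -/
theorem SD.rad_smul_mem {r : Λ} (hr : Δ.q r = 0) (j : ℤ) :
    r • stE Δ.a Δ.b J w j ∈ stL Δ.a Δ.b J w
      {i | i ∈ J ∧ ((i = j - 1 ∧ w (j - 1) = true) ∨ (i = j + 1 ∧ w j = false))} := by
  by_cases hj : j ∈ J
  swap
  · rw [stE_not_mem hj, smul_zero]; exact zero_mem _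
  obtain ⟨x, y, rfl⟩ := (Δ.q_ker r).1 hr
  rw [add_smul, mul_smul, mul_smul, traj_stE.2.1 j hj, traj_stE.2.2 j hj]
  refine add_mem (Submodule.smul_mem _ _ ?_) (Submodule.smul_mem _ _ ?_)
  · split_ifs with c
    · by_cases h : j - 1 ∈ J
      · exact stE_mem_stL ⟨h, Or.inl ⟨rfl, c⟩⟩
      · rw [stE_not_mem h]; exact zero_mem _
    · exact zero_mem _
  · split_ifs with c
    · exact zero_mem _
    · by_cases h : j + 1 ∈ J
      · exact stE_mem_stL ⟨h, Or.inr ⟨rfl, by simpa using c⟩⟩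
      · rw [stE_not_mem h]; exact zero_mem _

theorem SD.rad_smul_dn {Γ : Set ℤ} (hΓ : Dn J w Γ) {r : Λ} (hr : Δ.q r = 0) {j : ℤ} (hj : j ∈ Γ) :
    r • stE Δ.a Δ.b J w j ∈ stL Δ.a Δ.b J w (Γ \ {j}) := by
  by_cases hJ : j ∈ J
  swap
  · rw [stE_not_mem hJ, smul_zero]; exact zero_mem _
  refine stL_mono ?_ (Δ.rad_smul_mem hr j)
  rintro i ⟨⟨hi, ⟨rfl, c⟩ | ⟨rfl, c⟩⟩, -⟩
  · exact ⟨(hΓ j hj hJ).1 c hi, by simp⟩
  · exact ⟨(hΓ j hj hJ).2 c hi, by simp⟩

theorem SD.rad_smul_low (hJ : Δ.IsStr J w) {r : Λ} (hr : Δ.q r = 0) {j : ℤ} (hj : j ∈ J) :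
    r • stE Δ.a Δ.b J w j ∈ stL Δ.a Δ.b J w (low J w j) := by
  refine stL_mono ?_ (Δ.rad_smul_dn (Γ := {i | i ∈ J ∧ pnt J w i ≤ pnt J w j})
    (dn_of_lower hJ.oc fun i hi _ h _ h' => ⟨hi, h'.trans h.2⟩) hr ⟨hj, le_rfl⟩)
  rintro i ⟨⟨⟨hi, h⟩, h'⟩, -⟩
  exact ⟨hi, lt_of_le_of_ne h fun e => h' (pnt_injOn hJ.oc hJ.np hi hj e)⟩

theorem SD.rad_smul_deep {n : ℤ} (hn : Deep J w n) {r : Λ} (hr : Δ.q r = 0) :
    r • stE Δ.a Δ.b J w n = 0 := by
  obtain ⟨x, y, rfl⟩ := (Δ.q_ker r).1 hr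
  rw [add_smul, mul_smul, mul_smul, hn.a_smul, hn.b_smul, smul_zero, smul_zero, add_zero]

theorem SD.pi_pow (n : ℕ) :
    ∃ x y, algebraMap D Λ (Δ.π ^ (n + 1)) = x * Δ.a ^ (n + 1) + y * Δ.b ^ (n + 1) := by
  obtain ⟨x₁, y₁, h⟩ := (Δ.q_ker _).1 Δ.q_pi
  induction n with
  | zero => exact ⟨x₁, y₁, by simpa using h⟩
  | succ n ih =>
    obtain ⟨x, y, e⟩ := ih
    refine ⟨x * x₁, y * y₁, ?_⟩
    have e1 : algebraMap D Λ Δ.π * Δ.a ^ (n + 1) = x₁ * Δ.a ^ (n + 1 + 1) := by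
      rw [h, add_mul, mul_assoc, mul_assoc, pow_succ' Δ.a n, ← mul_assoc Δ.b, Δ.ba, zero_mul,
        mul_zero, add_zero, ← pow_succ', ← pow_succ']
    have e2 : algebraMap D Λ Δ.π * Δ.b ^ (n + 1) = y₁ * Δ.b ^ (n + 1 + 1) := by
      rw [h, add_mul, mul_assoc, mul_assoc, pow_succ' Δ.b n, ← mul_assoc Δ.a, Δ.ab, zero_mul,
        mul_zero, zero_add, ← pow_succ', ← pow_succ']
    rw [pow_succ', map_mul, e, mul_add, ← mul_assoc, ← mul_assoc, Algebra.commutes,
      Algebra.commutes Δ.π y, mul_assoc, mul_assoc, e1, e2, mul_assoc, mul_assoc]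

theorem Traj.a_pow {a b : Λ} {N : Type} [AddCommGroup N] [Module Λ N] {x : ℤ → N}
    (hx : Traj a b J w x) (n : ℕ) (j : ℤ) :
    a ^ n • x j = 0 ∨ (j - n ∈ J ∧ a ^ n • x j = x (j - n)) := by
  induction n with
  | zero =>
    by_cases h : j ∈ J
    · exact Or.inr ⟨by simpa using h, by simp⟩
    · exact Or.inl (by simp [hx.1 j h])
  | succ n ih =>
    rw [pow_succ', mul_smul, Nat.cast_succ, ← sub_sub]
    rcases ih with h | ⟨h, e⟩
    · exact Or.inl (by rw [h, smul_zero])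
    · rw [e, hx.2.1 _ h]
      split_ifs
      · by_cases c : j - n - 1 ∈ J
        · exact Or.inr ⟨c, rfl⟩
        · exact Or.inl (hx.1 _ c)
      · exact Or.inl rfl

theorem Traj.b_pow {a b : Λ} {N : Type} [AddCommGroup N] [Module Λ N] {x : ℤ → N}
    (hx : Traj a b J w x) (n : ℕ) (j : ℤ) :
    b ^ n • x j = 0 ∨ (j + n ∈ J ∧ b ^ n • x j = x (j + n)) := by
  induction n with
  | zero =>
    by_cases h : j ∈ J
    · exact Or.inr ⟨by simpa using h, by simp⟩
    · exact Or.inl (by simp [hx.1 j h])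
  | succ n ih =>
    rw [pow_succ', mul_smul, Nat.cast_succ, ← add_assoc]
    rcases ih with h | ⟨h, e⟩
    · exact Or.inl (by rw [h, smul_zero])
    · rw [e, hx.2.2 _ h]
      split_ifs
      · exact Or.inl rfl
      · by_cases c : j + n + 1 ∈ J
        · exact Or.inr ⟨c, rfl⟩
        · exact Or.inl (hx.1 _ c)

theorem finite_of_killed [FinQ D] (M : Type) [AddCommGroup M] [Module D M] [Module.Finite D M]
    {d : D} (hd : d ≠ 0) (h : ∀ x : M, d • x = 0) : Finite M := by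
  obtain ⟨n, f, hf⟩ := Module.Finite.exists_fin' D M
  have := FinQ.fin d hd
  refine Finite.of_surjective (fun v : Fin n → D ⧸ Ideal.span {d} => f fun i => (v i).out)
    fun x => ?_
  obtain ⟨v, rfl⟩ := hf x
  refine ⟨fun i => Ideal.Quotient.mk _ (v i), ?_⟩
  have : ∀ i, ∃ c, (Ideal.Quotient.mk (Ideal.span {d}) (v i)).out = v i + d * c := fun i => by
    obtain ⟨c, hc⟩ := Ideal.mem_span_singleton.1
      (Ideal.Quotient.eq.1 (Ideal.Quotient.mk_out (Ideal.Quotient.mk (Ideal.span {d}) (v i))))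
    exact ⟨c, by rw [← hc]; ring⟩
  choose c hc using this
  have e : (fun i => (Ideal.Quotient.mk (Ideal.span {d}) (v i)).out) = v + d • c := funext hc
  beta_reduce
  rw [e, map_add, map_smul, h, add_zero]

theorem stFinite {a b : Λ} (hJ : J.Finite) : Module.Finite Λ (St a b J w) :=
  ⟨by rw [← stL_top]; exact Submodule.fg_span (hJ.image _)⟩

theorem SD.st_killed (hJ : J.Finite) :
    ∃ n : ℕ, ∀ z : St Δ.a Δ.b J w, Δ.π ^ n • z = 0 := by
  obtain ⟨m, hm⟩ := hJ.bddBelow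
  obtain ⟨M, hM⟩ := hJ.bddAbove
  obtain ⟨x, y, e⟩ := Δ.pi_pow (M - m).toNat
  refine ⟨(M - m).toNat + 1, fun z => ?_⟩
  have : z ∈ stL Δ.a Δ.b J w J := by rw [stL_top]; trivial
  refine Submodule.span_induction (p := fun z _ => Δ.π ^ ((M - m).toNat + 1) • z = 0) ?_
    (smul_zero _) (fun x y _ _ h h' => by rw [smul_add, h, h', add_zero])
    (fun r x _ h => by rw [smul_comm, h, smul_zero]) this
  rintro _ ⟨j, hj, rfl⟩
  have h1 := hm hj
  have h2 := hM hj
  rw [← algebraMap_smul Λ, e, add_smul, mul_smul, mul_smul,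
    (traj_stE.a_pow _ j).resolve_right fun c => by have := hm c.1; push_cast at this; omega,
    (traj_stE.b_pow _ j).resolve_right fun c => by have := hM c.1; push_cast at this; omega,
    smul_zero, smul_zero, add_zero]

theorem SD.finite_St [FinQ D] [Module.Finite D Λ] (hJ : J.Finite) : Finite (St Δ.a Δ.b J w) := by
  have := stFinite (a := Δ.a) (b := Δ.b) (w := w) hJ
  have : Module.Finite D (St Δ.a Δ.b J w) := Module.Finite.trans Λ _
  obtain ⟨n, hn⟩ := Δ.st_killed (w := w) hJ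
  exact finite_of_killed _ (pow_ne_zero n Δ.hπ.ne_zero) hn

/-! ### Regularity of `a` and `b` -/

theorem SD.reg_a {r : Λ} (h : ∃ y, r * Δ.a = y * Δ.b) : ∃ y, r = y * Δ.b := by
  obtain ⟨y, hy⟩ := h
  obtain ⟨x₁, y₁, e⟩ := (Δ.q_ker _).1 Δ.q_pi
  obtain ⟨x₂, e₂, -⟩ := Δ.na' x₁
  refine Δ.regA r ⟨y * x₂ + r * y₁, ?_⟩
  rw [Algebra.smul_def, Algebra.commutes, e, e₂, mul_add, ← mul_assoc, hy, mul_assoc, Δ.cb,
    add_mul, mul_assoc, mul_assoc]

theorem SD.reg_b (hb : Δ.b ≠ 0) {r : Λ} (h : ∃ y, r * Δ.b = y * Δ.a) : ∃ y, r = y * Δ.a := by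
  obtain ⟨y, hy⟩ := h
  obtain ⟨x₁, y₁, e⟩ := (Δ.q_ker _).1 Δ.q_pi
  obtain ⟨y₂, e₂, -⟩ := Δ.na y₁
  refine Δ.regB.resolve_left hb r ⟨r * x₁ + y * y₂, ?_⟩
  rw [Algebra.smul_def, Algebra.commutes, e, ← Δ.cb, mul_add, ← mul_assoc r Δ.b, hy, mul_assoc y,
    e₂, add_mul, mul_assoc, mul_assoc]

theorem SD.reg_a_pow (n : ℕ) {r : Λ} (h : ∃ y, r * Δ.a ^ n = y * Δ.b) : ∃ y, r = y * Δ.b := by
  induction n with
  | zero => simpa using h
  | succ n ih => exact ih (Δ.reg_a (by rwa [mul_assoc, ← pow_succ]))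

theorem SD.reg_b_pow (hb : Δ.b ≠ 0) (n : ℕ) {r : Λ} (h : ∃ y, r * Δ.b ^ n = y * Δ.a) :
    ∃ y, r = y * Δ.a := by
  induction n with
  | zero => simpa using h
  | succ n ih => exact ih (Δ.reg_b hb (by rwa [mul_assoc, ← pow_succ]))

theorem SD.pow_conj (n : ℕ) (r : Λ) :
    ∃ r', Δ.a ^ n * r = r' * Δ.a ^ n ∧ Δ.q r' = (Δ.σ ^ n) (Δ.q r) := by
  induction n with
  | zero => exact ⟨r, by simp, by simp⟩
  | succ n ih =>
    obtain ⟨r', e, e'⟩ := ih
    obtain ⟨r'', f, f'⟩ := Δ.na r'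
    refine ⟨r'', ?_, by rw [f', e', pow_succ', AlgEquiv.mul_apply]⟩
    rw [pow_succ', mul_assoc, e, ← mul_assoc, f, mul_assoc]

theorem SD.κ_pow (n : ℕ) (s : S) : Δ.κ ((Δ.σ ^ n) s) = Δ.κ s := by
  induction n with
  | zero => simp
  | succ n ih => rw [pow_succ', AlgEquiv.mul_apply, Δ.κ_σ, ih]

theorem SD.κ_zpow (n : ℤ) (s : S) : Δ.κ ((Δ.σ ^ n) s) = Δ.κ s := by
  obtain ⟨m, rfl | rfl⟩ := n.eq_nat_or_neg
  · rw [zpow_natCast, Δ.κ_pow]
  · rw [← Δ.κ_pow m, ← AlgEquiv.mul_apply, zpow_neg, zpow_natCast, mul_inv_cancel]; rfl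

theorem SD.κ_nd' {s : S} (h : ∀ r : Λ, Δ.κ (Δ.q r * s) = 0) : s = 0 :=
  Δ.κ_nd s fun t => (Δ.q_surj t).elim fun r e => e ▸ h r

variable [IsPrincipalIdealRing D]

theorem SD.exists_nu {c d : Λ} (K : ℕ) (hd : Δ.q d = 0)
    (h : ∀ r : Λ, (∃ y, r * c ^ K = y * d) → ∃ y, r = y * d) :
    ∃ ν : Du D Λ, (∀ y, ν (y * d) = 0) ∧ ∀ r, ν (r * c ^ K) = Δ.κ (Δ.q r) := by
  let I := LinearMap.range (LinearMap.mulRight D d)
  obtain ⟨k, hk⟩ := exists_ext (I.mkQ ∘ₗ LinearMap.mulRight D (c ^ K))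
    (Δ.κ ∘ₗ Δ.q.toLinearMap) fun r hr => by
      obtain ⟨y, hy⟩ := (Submodule.Quotient.mk_eq_zero _).1 hr
      obtain ⟨y', rfl⟩ := h r ⟨y, hy.symm⟩
      simp [hd]
  refine ⟨k ∘ₗ I.mkQ, fun y => ?_, hk⟩
  rw [LinearMap.comp_apply, Submodule.mkQ_apply, 
    (Submodule.Quotient.mk_eq_zero I (x := y * d)).2 ⟨y, rfl⟩, map_zero]

/-- Paths of letters A from `j` up to `i`. -/
def PA (J : Set ℤ) (w : ℤ → Bool) (j i : ℤ) : Prop :=
  j ∈ J ∧ i ∈ J ∧ j ≤ i ∧ ∀ m, j ≤ m → m < i → w m = true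

/-- Paths of letters B from `j` up to `i`. -/
def PB (J : Set ℤ) (w : ℤ → Bool) (j i : ℤ) : Prop :=
  j ∈ J ∧ i ∈ J ∧ i ≤ j ∧ ∀ m, i ≤ m → m < j → w m = false

theorem SD.exists_coef (hJ : J.Finite) (hoc : J.OrdConnected) (hadm : Δ.Adm J w) :
    ∃ μ : ℤ → ℤ → Du D Λ, (∀ j i, ¬ PA J w j i → ¬ PB J w j i → μ j i = 0) ∧
      (∀ j ∈ J, ∀ r, μ j j r = Δ.κ (Δ.q r)) ∧
      (∀ j i r, PA J w j i → μ j i (r * Δ.b) = 0) ∧
      (∀ j i r, PB J w j i → μ j i (r * Δ.a) = 0) ∧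
      (∀ j i r, PA J w j i → j < i → μ j i (r * Δ.a) = μ j (i - 1) r ∧
        μ j i (Δ.a * r) = μ (j + 1) i r) ∧
      (∀ j i r, PB J w j i → i < j → μ j i (r * Δ.b) = μ j (i + 1) r ∧
        μ j i (r * Δ.b) = μ (j - 1) i r) := by
  classical
  obtain ⟨m, hm⟩ := hJ.bddBelow
  obtain ⟨M, hM⟩ := hJ.bddAbove
  let K := (M - m).toNat
  obtain ⟨ν, hν, hν'⟩ := Δ.exists_nu (c := Δ.a) K Δ.q_b fun r => Δ.reg_a_pow K
  obtain ⟨ν', hν1, hν1'⟩ : ∃ ν' : Du D Λ, (∀ y, ν' (y * Δ.a) = 0) ∧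
      (Δ.b ≠ 0 → ∀ r, ν' (r * Δ.b ^ K) = Δ.κ (Δ.q r)) := by
    by_cases hb : Δ.b = 0
    · exact ⟨0, fun _ => rfl, fun h => absurd hb h⟩
    · obtain ⟨ν', h1, h2⟩ := Δ.exists_nu (c := Δ.b) K Δ.q_a fun r => Δ.reg_b_pow hb K
      exact ⟨ν', h1, fun _ => h2⟩
  let α : ℤ → ℤ → Du D Λ := fun j i => ν ∘ₗ LinearMap.mulRight D (Δ.a ^ (M - i).toNat) ∘ₗ
    LinearMap.mulLeft D (Δ.a ^ (j - m).toNat)
  let β : ℤ → ℤ → Du D Λ := fun j i => ν' ∘ₗ LinearMap.mulRight D (Δ.b ^ (M - m - (j - i)).toNat)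
  have hα : ∀ j i r, α j i r = ν (Δ.a ^ (j - m).toNat * r * Δ.a ^ (M - i).toNat) :=
    fun _ _ _ => rfl
  have hβ : ∀ j i r, β j i r = ν' (r * Δ.b ^ (M - m - (j - i)).toNat) := fun _ _ _ => rfl
  have hαd : ∀ j ∈ J, ∀ r, α j j r = Δ.κ (Δ.q r) := fun j hj r => by
    obtain ⟨r', e, e'⟩ := Δ.pow_conj (j - m).toNat r
    have h1 := hm hj
    have h2 := hM hj
    rw [hα, e, mul_assoc, ← pow_add, show (j - m).toNat + (M - j).toNat = K by omega, hν', e',
      Δ.κ_pow]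
  let μ : ℤ → ℤ → Du D Λ := fun j i =>
    if PA J w j i then α j i else if PB J w j i then β j i else 0
  have hA : ∀ j i, PA J w j i → μ j i = α j i := fun j i h => if_pos h
  have hd : ∀ j ∈ J, ∀ r, μ j j r = Δ.κ (Δ.q r) := fun j hj r => by
    rw [hA j j ⟨hj, hj, le_rfl, fun m h h' => absurd h' (by omega)⟩, hαd j hj]
  have hB : ∀ j i, PB J w j i → i < j → μ j i = β j i := fun j i h h' => by
    have : ¬ PA J w j i := fun c => absurd c.2.2.1 (by omega)
    simp only [μ, if_neg this, if_pos h]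
  have hB' : Δ.b ≠ 0 → ∀ j i, PB J w j i → μ j i = β j i := fun hb j i h => by
    rcases h.2.2.1.lt_or_eq with c | rfl
    · exact hB j i h c
    · refine LinearMap.ext fun r => ?_
      rw [hd i h.1, hβ, sub_self, sub_zero, hν1' hb]
  refine ⟨μ, fun j i h h' => by simp only [μ, if_neg h, if_neg h'], hd, fun j i r h => ?_,
    fun j i r h => ?_, fun j i r h h' => ?_, fun j i r h h' => ?_⟩
  · rw [hA j i h, hα, mul_assoc, mul_assoc, Δ.cb, ← mul_assoc, ← mul_assoc, hν]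
  · rcases h.2.2.1.lt_or_eq with c | rfl
    · have hc : Commute Δ.a Δ.b := (Δ.cb Δ.a).symm
      rw [hB j i h c, hβ, mul_assoc, (hc.pow_right _).eq, ← mul_assoc, hν1]
    · rw [hd i h.1, map_mul, Δ.q_a, mul_zero, map_zero]
  · have h1 := hm h.1
    have h2 := hM h.2.1
    have p1 : PA J w j (i - 1) := ⟨h.1, hoc.out h.1 h.2.1 ⟨by omega, by omega⟩, by omega,
      fun m c c' => h.2.2.2 m c (by omega)⟩
    have p2 : PA J w (j + 1) i := ⟨hoc.out h.1 h.2.1 ⟨by omega, by omega⟩, h.2.1, by omega,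
      fun m c c' => h.2.2.2 m (by omega) c'⟩
    rw [hA _ _ h, hA _ _ p1, hA _ _ p2, hα, hα, hα, hα,
      show (M - (i - 1)).toNat = (M - i).toNat + 1 by omega,
      show (j + 1 - m).toNat = (j - m).toNat + 1 by omega, pow_succ' _ (M - i).toNat,
      pow_succ _ (j - m).toNat]
    simp only [mul_assoc, and_self]
  · have h1 := hm h.2.1
    have h2 := hM h.1
    have hi1 : i + 1 ∈ J := hoc.out h.2.1 h.1 ⟨by omega, by omega⟩
    have hb : Δ.b ≠ 0 := hadm.resolve_right fun c => by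
      have := c i h.2.1 hi1
      rw [h.2.2.2 i le_rfl h'] at this
      cases this
    have p1 : PB J w j (i + 1) := ⟨h.1, hi1, by omega, fun m c c' => h.2.2.2 m (by omega) c'⟩
    have p2 : PB J w (j - 1) i := ⟨hoc.out h.2.1 h.1 ⟨by omega, by omega⟩, h.2.1, by omega,
      fun m c c' => h.2.2.2 m c (by omega)⟩
    rw [hB' hb _ _ h, hB' hb _ _ p1, hB' hb _ _ p2, hβ, hβ, hβ,
      show (M - m - (j - (i + 1))).toNat = (M - m - (j - i)).toNat + 1 by omega,
      show (M - m - (j - 1 - i)).toNat = (M - m - (j - i)).toNat + 1 by omega, pow_succ',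
      mul_assoc]
    exact ⟨rfl, rfl⟩

theorem PA.mem_of_dn {Γ : Set ℤ} (hoc : J.OrdConnected) (hΓ : Dn J w Γ) {j i : ℤ}
    (h : PA J w j i) (hi : i ∈ Γ) : j ∈ Γ := by
  obtain ⟨hj, hiJ, hle, hw⟩ := h
  induction i, hle using Int.leInduction with
  | base => exact hi
  | succ n hn ih =>
    have h1 : n ∈ J := hoc.out hj hiJ ⟨hn, by omega⟩
    refine ih ?_ h1 fun m c c' => hw m c (by omega)
    have := (hΓ _ hi hiJ).1
    rw [add_sub_cancel_right] at this
    exact this (hw n hn (by omega)) h1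

theorem PB.mem_of_dn {Γ : Set ℤ} (hoc : J.OrdConnected) (hΓ : Dn J w Γ) {j i : ℤ}
    (h : PB J w j i) (hi : i ∈ Γ) : j ∈ Γ := by
  obtain ⟨hj, hiJ, hle, hw⟩ := h
  induction j, hle using Int.leInduction with
  | base => exact hi
  | succ n hn ih =>
    have h1 : n ∈ J := hoc.out hiJ hj ⟨hn, by omega⟩
    exact (hΓ _ (ih h1 fun m c c' => hw m c (by omega)) h1).2 (hw n hn (by omega)) hj

theorem SD.exists_dualBasis (hJ : J.Finite) (hoc : J.OrdConnected) (hadm : Δ.Adm J w) :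
    Nonempty (Δ.DualBasis J w) := by
  obtain ⟨μ, h0, hd, hAb, hBa, hA, hB⟩ := Δ.exists_coef hJ hoc hadm
  have refA : ∀ j ∈ J, PA J w j j := fun j hj =>
    ⟨hj, hj, le_rfl, fun m h h' => absurd h' (by omega)⟩
  have refB : ∀ j ∈ J, PB J w j j := fun j hj =>
    ⟨hj, hj, le_rfl, fun m h h' => absurd h' (by omega)⟩
  have za : ∀ j i r, ¬ (PA J w j i ∧ j < i) → μ j i (r * Δ.a) = 0 := fun j i r h => by
    by_cases c : PB J w j i
    · exact hBa j i r c
    · rw [h0 j i (fun c' => ?_) c]; · rfl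
      rcases c'.2.2.1.lt_or_eq with e | rfl
      · exact h ⟨c', e⟩
      · exact c (refB j c'.1)
  have zb : ∀ j i r, ¬ (PB J w j i ∧ i < j) → μ j i (r * Δ.b) = 0 := fun j i r h => by
    by_cases c : PA J w j i
    · exact hAb j i r c
    · rw [h0 j i c fun c' => ?_]; · rfl
      rcases c'.2.2.1.lt_or_eq with e | rfl
      · exact h ⟨c', e⟩
      · exact c (refA i c'.1)
  have e1 : ∀ j, ∀ i ∈ J, ∀ r, μ j i (r * Δ.a) = if w (i - 1) = true then μ j (i - 1) r else 0 := by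
    intro j i hi r
    by_cases c : PA J w j i ∧ j < i
    · rw [(hA j i r c.1 c.2).1, if_pos (c.1.2.2.2 _ (by omega) (by omega))]
    · rw [za j i r c]
      split_ifs with e
      · have n1 : ¬ PA J w j (i - 1) := fun p => c ⟨⟨p.1, hi, by have := p.2.2.1; omega,
          fun m h h' => if k : m = i - 1 then k ▸ e else p.2.2.2 m h (by omega)⟩,
          by have := p.2.2.1; omega⟩
        rw [h0 j _ n1 fun p => ?_]; · rfl
        rcases p.2.2.1.lt_or_eq with k | rfl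
        · rw [p.2.2.2 _ le_rfl k] at e; cases e
        · exact n1 (refA _ p.1)
      · rfl
  have e2 : ∀ j, ∀ i ∈ J, ∀ r, μ j i (r * Δ.b) = if w i = true then 0 else μ j (i + 1) r := by
    intro j i hi r
    by_cases c : PB J w j i ∧ i < j
    · rw [(hB j i r c.1 c.2).1, if_neg (by simp [c.1.2.2.2 _ le_rfl c.2])]
    · rw [zb j i r c]
      split_ifs with e
      · rfl
      · have e' : w i = false := by simpa using e
        have n1 : ¬ PB J w j (i + 1) := fun p => c ⟨⟨p.1, hi, by have := p.2.2.1; omega,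
          fun m h h' => if k : m = i then k ▸ e' else p.2.2.2 m (by omega) h'⟩,
          by have := p.2.2.1; omega⟩
        rw [h0 j _ (fun p => ?_) n1]; · rfl
        rcases p.2.2.1.lt_or_eq with k | rfl
        · exact e (p.2.2.2 _ (by omega) (by omega))
        · exact n1 (refB _ p.1)
  have e3 : ∀ j ∈ J, ∀ i r, μ j i (Δ.a * r) = if w j = true then μ (j + 1) i r else 0 := by
    intro j hj i r
    by_cases c : PA J w j i ∧ j < i
    · rw [(hA j i r c.1 c.2).2, if_pos (c.1.2.2.2 _ le_rfl c.2)]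
    · obtain ⟨r', er, -⟩ := Δ.na r
      rw [er, za j i r' c]
      split_ifs with e
      · have n1 : ¬ PA J w (j + 1) i := fun p => c ⟨⟨hj, p.2.1, by have := p.2.2.1; omega,
          fun m h h' => if k : m = j then k ▸ e else p.2.2.2 m (by omega) h'⟩,
          by have := p.2.2.1; omega⟩
        rw [h0 _ _ n1 fun p => ?_]; · rfl
        rcases p.2.2.1.lt_or_eq with k | rfl
        · rw [p.2.2.2 j (by omega) (by omega)] at e; cases e
        · exact n1 (refA _ p.1)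
      · rfl
  have e4 : ∀ j ∈ J, ∀ i r, μ j i (Δ.b * r) = if w (j - 1) = true then 0 else μ (j - 1) i r := by
    intro j hj i r
    rw [Δ.cb]
    by_cases c : PB J w j i ∧ i < j
    · rw [(hB j i r c.1 c.2).2, if_neg (by simp [c.1.2.2.2 (j - 1) (by omega) (by omega)])]
    · rw [zb j i r c]
      split_ifs with e
      · rfl
      · have e' : w (j - 1) = false := by simpa using e
        have n1 : ¬ PB J w (j - 1) i := fun p => c ⟨⟨hj, p.2.1, by have := p.2.2.1; omega,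
          fun m h h' => if k : m = j - 1 then k ▸ e' else p.2.2.2 m h (by omega)⟩,
          by have := p.2.2.1; omega⟩
        rw [h0 _ _ (fun p => ?_) n1]; · rfl
        rcases p.2.2.1.lt_or_eq with k | rfl
        · exact e (p.2.2.2 _ le_rfl k)
        · exact n1 (refB _ p.1)
  let φ : ℤ → (ℤ →₀ Λ) →ₗ[D] Inj D := fun j => Finsupp.lsum D (μ j)
  have hφ : ∀ j i r, φ j (Finsupp.single i r) = μ j i r := fun j i r => by simp [φ]
  have hker : ∀ j, ∀ f ∈ stRel Δ.a Δ.b J w, ∀ r : Λ, φ j (r • f) = 0 := by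
    intro j f hf
    refine Submodule.span_induction (p := fun f _ => ∀ r : Λ, φ j (r • f) = 0) ?_
      (fun r => by rw [smul_zero, map_zero])
      (fun x y _ _ h h' r => by rw [smul_add, map_add, h, h', add_zero])
      (fun s x _ h r => by rw [smul_smul, h]) hf
    rintro _ ((⟨i, hi, rfl⟩ | ⟨i, hi, rfl⟩) | ⟨i, hi, rfl⟩) r
    · rw [Finsupp.smul_single, hφ, h0 j i (fun p => hi p.2.1) fun p => hi p.2.1]; rfl
    · rw [smul_sub, map_sub, Finsupp.smul_single, hφ, smul_eq_mul, e1 j i hi]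
      split_ifs
      · rw [Finsupp.smul_single, hφ, smul_eq_mul, mul_one, sub_self]
      · simp
    · rw [smul_sub, map_sub, Finsupp.smul_single, hφ, smul_eq_mul, e2 j i hi]
      split_ifs
      · simp
      · rw [Finsupp.smul_single, hφ, smul_eq_mul, mul_one, sub_self]
  let χ : ℤ → Du D (St Δ.a Δ.b J w) := fun j =>
    (((stRel Δ.a Δ.b J w).restrictScalars D).liftQ (φ j) fun f hf => by
      simpa using hker j f hf 1) ∘ₗ
      (Submodule.Quotient.restrictScalarsEquiv D (stRel Δ.a Δ.b J w)).symm.toLinearMap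
  have hχ : ∀ j i r, χ j (r • stE Δ.a Δ.b J w i) = μ j i r := fun j i r => by
    rw [smul_stE, ← hφ]; rfl
  have ext : ∀ (p : St Δ.a Δ.b J w → Prop), p 0 → (∀ x y, p x → p y → p (x + y)) →
      (∀ i (r : Λ), p (r • stE Δ.a Δ.b J w i)) → ∀ x, p x := by
    intro p p0 pa ps x
    obtain ⟨f, rfl⟩ := Submodule.Quotient.mk_surjective _ x
    induction f using Finsupp.induction_linear with
    | zero => exact p0
    | add f g hf hg => exact pa _ _ hf hg
    | single i r => rw [← smul_stE]; exact ps i r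
  refine ⟨⟨χ, ⟨fun j hj => LinearMap.ext (ext _ rfl (fun x y h h' => by
    rw [map_add, map_add, h, h']) fun i r => ?_), fun j hj => ext _ ?_ ?_ ?_,
    fun j hj => ext _ ?_ ?_ ?_⟩, fun j hj r => by rw [hχ, hd j hj],
    fun Γ hΓ i hi j hj r => ?_⟩⟩
  · rw [hχ, h0 j i (fun p => hj p.1) fun p => hj p.1]; rfl
  · simp
  · intro x y h h'
    rw [smul_add, map_add, h, h']; split_ifs <;> simp
  · intro i r
    rw [smul_smul, hχ, hχ, e3 j hj]
  · simp
  · intro x y h h'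
    rw [smul_add, map_add, h, h']; split_ifs <;> simp
  · intro i r
    rw [smul_smul, hχ, hχ, e4 j hj]
  · rw [hχ, h0 j i (fun p => hj (p.mem_of_dn hoc hΓ hi)) fun p => hj (p.mem_of_dn hoc hΓ hi)]
    rfl

theorem SD.DualBasis.tri' {Δ : SD D Λ S} (X : Δ.DualBasis J w) {Γ : Set ℤ} (hΓ : Dn J w Γ)
    {z : St Δ.a Δ.b J w} (hz : z ∈ stL Δ.a Δ.b J w Γ) {j : ℤ} (hj : j ∉ Γ) (r : Λ) :
    X.χ j (r • z) = 0 := by
  revert r
  refine Submodule.span_induction (p := fun z _ => ∀ r : Λ, X.χ j (r • z) = 0) ?_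
    (fun r => by rw [smul_zero, map_zero])
    (fun x y _ _ h h' r => by rw [smul_add, map_add, h, h', add_zero])
    (fun s x _ h r => by rw [smul_smul, h]) hz
  rintro _ ⟨i, hi, rfl⟩ r
  exact X.tri Γ hΓ i hi j hj r

theorem SD.DualBasis.mem_stL {Δ : SD D Λ S} (X : Δ.DualBasis J w) (hJ : J.Finite) {Γ : Set ℤ}
    (hΓ : Dn J w Γ) {z : St Δ.a Δ.b J w} :
    z ∈ stL Δ.a Δ.b J w Γ ↔ ∀ j, j ∉ Γ → ∀ r : Λ, X.χ j (r • z) = 0 := by
  classical
  refine ⟨fun hz j hj => X.tri' hΓ hz hj, fun h => ?_⟩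
  have key : ∀ F : Finset ℤ, (∀ i ∈ F, i ∈ J ∧ i ∉ Γ) → Dn J w (Γ ∪ F) →
      z ∈ stL Δ.a Δ.b J w (Γ ∪ F) → z ∈ stL Δ.a Δ.b J w Γ := by
    intro F
    induction F using Finset.induction_on_max_value (rk w) with
    | empty => intro _ _ hz; simpa using hz
    | insert i F hi hmax ih =>
      intro hF hD hz
      have hiJ := hF i (Finset.mem_insert_self i F)
      have hD' : Dn J w (Γ ∪ F) := by
        intro j hj hjJ
        rcases hj with hj | hj
        · exact ⟨fun c c' => Or.inl ((hΓ j hj hjJ).1 c c'),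
            fun c c' => Or.inl ((hΓ j hj hjJ).2 c c')⟩
        · have h1 := hD j (Or.inr (by simp [Finset.mem_coe.1 hj])) hjJ
          have h2 := hmax j hj
          refine ⟨fun c c' => (h1.1 c c').imp_right fun e => ?_,
            fun c c' => (h1.2 c c').imp_right fun e => ?_⟩
          · refine (Finset.mem_insert.1 e).resolve_left fun e' => ?_
            have := rk_A c
            rw [sub_add_cancel, e'] at this
            omega
          · refine (Finset.mem_insert.1 e).resolve_left fun e' => ?_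
            have := rk_B c
            rw [e'] at this
            omega
      have hi' : i ∉ Γ ∪ F := fun c => c.elim hiJ.2 hi
      refine ih (fun k hk => hF k (Finset.mem_insert_of_mem hk)) hD' ?_
      rw [Finset.coe_insert, Set.union_insert] at hz hD
      obtain ⟨r, z', hz', rfl⟩ := mem_stL_insert.1 hz
      have hr : Δ.q r = 0 := Δ.κ_nd' fun s => by
        have := h i hiJ.2 s
        rwa [smul_add, map_add, X.tri' hD' hz' hi', add_zero, smul_smul, X.diag i hiJ.1,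
          map_mul] at this
      refine add_mem (stL_mono ?_ (Δ.rad_smul_dn hD hr (Set.mem_insert i _))) hz'
      rintro k ⟨⟨hk, hk'⟩, -⟩
      exact hk.resolve_left hk'
  refine key (hJ.toFinset.filter (· ∉ Γ)) (fun i hi => by simpa using hi) ?_
    (stL_mono ?_ (by rw [stL_top (J := J)]; trivial))
  · have : ∀ k ∈ J, k ∈ Γ ∪ (hJ.toFinset.filter (· ∉ Γ) : Finset ℤ) := fun k hk => by
      by_cases c : k ∈ Γ <;> simp [c, hk]
    exact fun j _ _ => ⟨fun _ c => this _ c, fun _ c => this _ c⟩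
  · intro k hk
    by_cases c : k ∈ Γ <;> simp [c, hk.1]

theorem SD.DualBasis.eq_zero {Δ : SD D Λ S} (X : Δ.DualBasis J w) (hJ : J.Finite)
    {z : St Δ.a Δ.b J w} (h : ∀ j (r : Λ), X.χ j (r • z) = 0) : z = 0 := by
  have := (X.mem_stL hJ (Γ := ∅) (fun _ h => h.elim)).2 fun j _ => h j
  rwa [stL_empty] at this

/-- Independence of the generators. -/
theorem SD.indep (hJ : J.Finite) (hoc : J.OrdConnected) (hadm : Δ.Adm J w) {Γ : Set ℤ}
    (hΓ : Dn J w Γ) {j : ℤ} (hj : j ∈ J) (hjΓ : j ∉ Γ) {r : Λ}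
    (h : r • stE Δ.a Δ.b J w j ∈ stL Δ.a Δ.b J w Γ) : Δ.q r = 0 := by
  obtain ⟨X⟩ := Δ.exists_dualBasis hJ hoc hadm
  refine Δ.κ_nd' fun s => ?_
  rw [← map_mul, ← X.diag j hj, mul_smul, X.tri' hΓ h hjΓ]

theorem SD.stL_inf (hJ : J.Finite) (hoc : J.OrdConnected) (hadm : Δ.Adm J w) {Γ Γ' : Set ℤ}
    (hΓ : Dn J w Γ) (hΓ' : Dn J w Γ') :
    stL Δ.a Δ.b J w Γ ⊓ stL Δ.a Δ.b J w Γ' = stL Δ.a Δ.b J w (Γ ∩ Γ') := by
  obtain ⟨X⟩ := Δ.exists_dualBasis hJ hoc hadm
  refine le_antisymm (fun z hz => (X.mem_stL hJ (hΓ.inter hΓ')).2 fun j hj r => ?_)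
    (le_inf (stL_mono fun i hi => hi.1.1) (stL_mono fun i hi => hi.1.2))
  by_cases c : j ∈ Γ
  · exact X.tri' hΓ' hz.2 (fun c' => hj ⟨c, c'⟩) r
  · exact X.tri' hΓ hz.1 c r

theorem SD.DTraj.reduce {Δ : SD D Λ S} {N : Type} [AddCommGroup N] [Module Λ N] [Module D N]
    {χ : ℤ → Du D N} (hχ : Δ.DTraj J w χ) {F : Finset ℤ} {j : ℤ} (hj : j ∈ J) (hjF : j ∉ F)
    (h1 : w j = true → j + 1 ∈ J → j + 1 ∈ F) (h2 : w (j - 1) = false → j - 1 ∈ J → j - 1 ∈ F)
    (f : ℤ → Λ) {x y : Λ} (hf : f j = Δ.a * x + Δ.b * y) (z : N) :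
    ∑ i ∈ insert j F, χ i (f i • z) = ∑ i ∈ F, χ i ((f i +
      (if i = j + 1 ∧ w j = true then x else 0) +
        if i = j - 1 ∧ w (j - 1) = false then y else 0) • z) := by
  simp only [add_smul, map_add, Finset.sum_add_distrib]
  rw [Finset.sum_insert hjF, hf, add_smul, map_add, mul_smul, mul_smul, hχ.2.1 j hj, hχ.2.2 j hj,
    add_comm, add_assoc]
  congr 2
  · rw [Finset.sum_eq_single (j + 1) (fun i _ c => by simp [c])]
    · split_ifs <;> simp_all
    · intro c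
      by_cases e : w j = true
      · rw [hχ.1 _ fun c' => c (h1 e c')]; rfl
      · simp [e]
  · rw [Finset.sum_eq_single (j - 1) (fun i _ c => by simp [c])]
    · split_ifs <;> simp_all
    · intro c
      by_cases e : w (j - 1) = false
      · rw [hχ.1 _ fun c' => c (h2 e c')]; rfl
      · simp [e]

theorem SD.DualBasis.rel {Δ : SD D Λ S} (X : Δ.DualBasis J w) {N : Type}
    [AddCommGroup N] [Module Λ N] [Module D N] {χ : ℤ → Du D N} (hχ : Δ.DTraj J w χ)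
    (F : Finset ℤ) (hF : (F : Set ℤ) ⊆ J)
    (hU : ∀ j ∈ F, (w j = true → j + 1 ∈ J → j + 1 ∈ F) ∧
      (w (j - 1) = false → j - 1 ∈ J → j - 1 ∈ F)) (f : ℤ → Λ)
    (h : ∀ z, ∑ i ∈ F, X.χ i (f i • z) = 0) (x : N) : ∑ i ∈ F, χ i (f i • x) = 0 := by
  classical
  induction F using Finset.induction_on_min_value (rk w) generalizing f with
  | empty => simp
  | insert j F hj hmin ih =>
    have hjJ : j ∈ J := hF (by simp)
    have hD : Dn J w (insert j {i | rk w i < rk w j}) := by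
      intro k hk _
      have hk' : rk w k ≤ rk w j := hk.elim (fun e => e ▸ le_rfl) fun e => le_of_lt e
      refine ⟨fun c _ => Or.inr ?_, fun c _ => Or.inr ?_⟩
      · have := rk_A c
        rw [sub_add_cancel] at this
        change rk w (k - 1) < rk w j
        omega
      · have := rk_B c
        change rk w (k + 1) < rk w j
        omega
    have hq : Δ.q (f j) = 0 := Δ.κ_nd' fun s => by
      have := h (s • stE Δ.a Δ.b J w j)
      rw [Finset.sum_insert hj, Finset.sum_eq_zero, add_zero, smul_smul, X.diag j hjJ, map_mul,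
        Δ.κ_comm] at this
      · exact this
      · intro i hi
        rw [smul_smul]
        refine X.tri _ hD j (Set.mem_insert _ _) i (fun c => c.elim (fun e => hj (e ▸ hi))
          fun e => absurd (hmin i hi) (not_le.2 e)) _
    obtain ⟨x₁, y, e⟩ := (Δ.q_ker _).1 hq
    obtain ⟨x₂, e₂, -⟩ := Δ.na' x₁
    rw [e₂, ← Δ.cb] at e
    have u := hU j (Finset.mem_insert_self _ _)
    have u1 : w j = true → j + 1 ∈ J → j + 1 ∈ F := fun c c' =>
      (Finset.mem_insert.1 (u.1 c c')).resolve_left (by omega)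
    have u2 : w (j - 1) = false → j - 1 ∈ J → j - 1 ∈ F := fun c c' =>
      (Finset.mem_insert.1 (u.2 c c')).resolve_left (by omega)
    rw [hχ.reduce hjJ hj u1 u2 f e]
    refine ih (fun i hi => hF (by simp [Finset.mem_coe.1 hi])) (fun k hk => ?_) _ fun z => ?_
    · have v := hU k (Finset.mem_insert_of_mem hk)
      have v' := hmin k hk
      refine ⟨fun c c' => (Finset.mem_insert.1 (v.1 c c')).resolve_left fun e' => ?_,
        fun c c' => (Finset.mem_insert.1 (v.2 c c')).resolve_left fun e' => ?_⟩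
      · have := rk_A c
        rw [e'] at this
        omega
      · have := rk_B c
        rw [sub_add_cancel, e'] at this
        omega
    · rw [← X.traj.reduce hjJ hj u1 u2 f e]
      exact h z

theorem SD.DualBasis.exists_hom [FinQ D] [Module.Finite D Λ] {Δ : SD D Λ S}
    (X : Δ.DualBasis J w) (hJ : J.Finite) {N : Type}
    [AddCommGroup N] [Module Λ N] [Module D N] [IsScalarTower D Λ N] {χ : ℤ → Du D N}
    (hχ : Δ.DTraj J w χ) : ∃ f : N →ₗ[Λ] St Δ.a Δ.b J w, ∀ j x, X.χ j (f x) = χ j x := by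
  classical
  have := Δ.finite_St (w := w) hJ
  have pair : ∀ {M : Type} [AddCommGroup M] [Module Λ M] [Module D M] [IsScalarTower D Λ M]
      (ψ : ℤ → Du D M), ∃ P : (ℤ → Λ) →ₗ[D] Du D M,
        ∀ f x, P f x = ∑ i ∈ hJ.toFinset, ψ i (f i • x) := by
    intro M _ _ _ _ ψ
    refine ⟨⟨⟨fun f => ∑ i ∈ hJ.toFinset, du (act D M (f i)) (ψ i), fun f g => ?_⟩,
      fun d f => ?_⟩, fun f x => by simp [LinearMap.sum_apply]⟩
    · ext x; simp [LinearMap.sum_apply, add_smul, Finset.sum_add_distrib]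
    · ext x; simp [LinearMap.sum_apply, Finset.smul_sum]
  obtain ⟨P, hP⟩ := pair X.χ
  obtain ⟨P', hP'⟩ := pair χ
  have key : ∀ x : N, ∃ z : St Δ.a Δ.b J w, ∀ j (r : Λ), X.χ j (r • z) = χ j (r • x) := by
    intro x
    obtain ⟨ξ, hξ⟩ := exists_ext P (ev x ∘ₗ P') fun f hf => by
      rw [LinearMap.comp_apply, ev_apply, hP']
      refine X.rel hχ _ (by simp) (fun j _ => ⟨fun _ c => by simpa using c,
        fun _ c => by simpa using c⟩) f (fun z => ?_) x
      rw [← hP, hf]; rfl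
    obtain ⟨z, rfl⟩ := ev_surjective _ ξ
    refine ⟨z, fun j r => ?_⟩
    by_cases hj : j ∈ J
    · have := hξ (Pi.single j r)
      rw [LinearMap.comp_apply, ev_apply, ev_apply, hP, hP',
        Finset.sum_eq_single j (fun i _ c => by simp [Pi.single_eq_of_ne c]) (by simp [hj]),
        Finset.sum_eq_single j (fun i _ c => by simp [Pi.single_eq_of_ne c]) (by simp [hj])]
        at this
      simpa using this
    · rw [X.traj.1 j hj, hχ.1 j hj]; rfl
  choose g hg using key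
  refine ⟨⟨⟨g, fun x y => ?_⟩, fun r x => ?_⟩, fun j x => by simpa using hg x j 1⟩
  · rw [← sub_eq_zero]
    refine X.eq_zero hJ fun j r => ?_
    simp [smul_sub, smul_add, hg]
  · rw [← sub_eq_zero]
    refine X.eq_zero hJ fun j s => ?_
    simp only [RingHom.id_apply, smul_sub, map_sub, smul_smul, hg, sub_self]

end Pool.Agent.Lib.MP_c13fce_lc
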