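import Pool.Agent.Lib.MP_c13fce_lc.BandB
import Pool.Agent.Lib.MP_c13fce_lc.DualB

/-! Splitting in the double dual and in its dual; the easy half of the local lemma for bands. -/

namespace Pool.Agent.Lib.MP_c13fce_lc
namespace Band
open scoped BigOperators
open Set
set_option linter.unusedSectionVars false
set_option linter.unusedVariables false

theorem ht_per {w : ℤ → Bool} {r : ℕ} (per : ∀ j, w (j + r) = w j) (d j : ℤ) :
    ht w (j + r) - ht w j = ht w (d + r) - ht w d :=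
  (iff_of_edges ordConnected_univ (fun j => ht w (j + r) - ht w j = ht w (d + r) - ht w d)
    (fun i _ _ => by rw [add_right_comm, ht_succ, ht_succ, per, add_sub_add_right_eq_sub])
    (mem_univ d) (mem_univ j)).1 rfl

variable {D Λ S : Type} [CommRing D] [IsDomain D] [Ring Λ] [Algebra D Λ] [Ring S] [Algebra D S]
  (Δ : SD D Λ S) {w : ℤ → Bool} {r : ℕ} {d : ℤ}

/-- The twist along one period as an automorphism. -/
noncomputable def tp (w : ℤ → Bool) (r : ℕ) (d : ℤ) : S ≃ₐ[D] S :=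
  Δ.σ ^ (-(ht w (d + r) - ht w d))

theorem tw_per (per : ∀ j, w (j + r) = w j) (d j : ℤ) (s : S) :
    Δ.tw w (j + r) s = Δ.tw w j (tp Δ w r d s) := by
  rw [SD.tw, SD.tw, tp, ← AlgEquiv.mul_apply, ← zpow_add, ← ht_per per d j]
  congr 2; ring

theorem tw_per' (per : ∀ j, w (j + r) = w j) (d j : ℤ) (s : S) :
    Δ.tw w (j + r) s = tp Δ w r d (Δ.tw w j s) := by
  rw [SD.tw, SD.tw, tp, ← AlgEquiv.mul_apply, ← zpow_add, ← ht_per per d j]
  congr 2; ring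

section Gen
variable {N : Type} [AddCommGroup N] [Module Λ N] [Module D N] [IsScalarTower D Λ N]

theorem cmp_a : Cmp (act D (Λ := Λ) N) (act D N Δ.a) :=
  ⟨fun r => (Δ.na' r).imp fun r' h x => by simp [smul_smul, h.1],
    fun r => (Δ.na r).imp fun r' h x => by simp [smul_smul, h.1]⟩

theorem cmp_b : Cmp (act D (Λ := Λ) N) (act D N Δ.b) :=
  ⟨fun r => ⟨r, fun x => by simp [smul_smul, Δ.cb]⟩,
    fun r => ⟨r, fun x => by simp [smul_smul, Δ.cb]⟩⟩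

theorem actQ_primal (Q : Submodule D N) (hs : ∀ ρ : Λ, ∀ x ∈ Q, ρ • x ∈ Q)
    (ha : ∀ x ∈ Q, Δ.a • x = 0) (hb : ∀ x ∈ Q, Δ.b • x = 0) : ActQ (act D N) Δ.q Q := by
  have key : ∀ ρ ρ' : Λ, Δ.q ρ = Δ.q ρ' → ∀ x ∈ Q, ρ • x = ρ' • x := fun ρ ρ' h x hx => by
    obtain ⟨u, v, e⟩ := (Δ.q_ker (ρ - ρ')).1 (by rw [map_sub, h, sub_self])
    rw [← sub_eq_zero, ← sub_smul, e, add_smul, mul_smul, mul_smul, ha x hx, hb x hx]
    simp
  refine ⟨Δ.q_surj, hs, fun ρ h x hx => ?_, fun ρ₁ ρ₂ ρ h x hx => ?_, fun ρ₁ ρ₂ ρ h x hx => ?_⟩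
  · simpa using key ρ 1 (by simpa using h) x hx
  · simpa [mul_smul] using key ρ (ρ₁ * ρ₂) (by simpa using h) x hx
  · simpa [add_smul] using key ρ (ρ₁ + ρ₂) (by simpa using h) x hx

theorem dual_congr {χ : Du D N} (ha : ∀ x, χ (Δ.a • x) = 0) (hb : ∀ x, χ (Δ.b • x) = 0)
    {ρ ρ' : Λ} (h : Δ.q ρ = Δ.q ρ') (x : N) : χ (ρ • x) = χ (ρ' • x) := by
  obtain ⟨u, v, e⟩ := (Δ.q_ker (ρ - ρ')).1 (by rw [map_sub, h, sub_self])
  obtain ⟨u', hu, -⟩ := Δ.na' u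
  rw [← sub_eq_zero, ← map_sub, ← sub_smul, e, hu, ← Δ.cb, add_smul, mul_smul, mul_smul, map_add,
    ha, hb, add_zero]

theorem actQ_dual (Q : Submodule D (Du D N)) (hs : ∀ ρ : Λ, ∀ χ ∈ Q, du (act D N ρ) χ ∈ Q)
    (ha : ∀ χ ∈ Q, du (act D N Δ.a) χ = 0) (hb : ∀ χ ∈ Q, du (act D N Δ.b) χ = 0) :
    ActQ (fun ρ => du (act D N ρ)) (fun ρ => MulOpposite.op (Δ.q ρ)) Q := by
  have key : ∀ χ ∈ Q, ∀ ρ ρ' : Λ, Δ.q ρ = Δ.q ρ' → ∀ x, χ (ρ • x) = χ (ρ' • x) :=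
    fun χ hχ ρ ρ' h => dual_congr Δ (LinearMap.congr_fun (ha χ hχ))
      (LinearMap.congr_fun (hb χ hχ)) h
  refine ⟨MulOpposite.op_surjective.comp Δ.q_surj, hs, fun ρ h χ hχ => LinearMap.ext fun x => ?_,
    fun ρ₁ ρ₂ ρ h χ hχ => LinearMap.ext fun x => ?_,
    fun ρ₁ ρ₂ ρ h χ hχ => LinearMap.ext fun x => ?_⟩
  · simpa using key χ hχ ρ 1 (by simpa using h) x
  · simpa [mul_smul] using key χ hχ ρ (ρ₂ * ρ₁)
      (by rw [map_mul]; exact MulOpposite.op_injective h) x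
  · simpa [add_smul] using key χ hχ ρ (ρ₁ + ρ₂)
      (by rw [map_add]; exact MulOpposite.op_injective h) x

variable {Y : Sys (act D N Δ.a) (act D N Δ.b)}

theorem Qa_smul (hY : Y.Stable Λ) {j : ℤ} (ρ : Λ) {x : N} (hx : x ∈ Y.Qa univ w j) :
    ρ • x ∈ Y.Qa univ w j := ⟨(hY _ ρ x).2.1 hx.1, (hY _ ρ x).2.2.2 hx.2⟩

theorem Ga_smul (hY : Y.Stable Λ) {j : ℤ} (ρ : Λ) {x : N} (hx : x ∈ Y.Ga univ w j) :
    ρ • x ∈ Y.Ga univ w j := by
  obtain ⟨y, hy, z, hz, rfl⟩ := Submodule.mem_sup.1 hx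
  rw [smul_add]
  exact Submodule.add_mem_sup ((hY _ ρ y).1 hy) ⟨(hY _ ρ z).2.1 hz.1, (hY _ ρ z).2.2.1 hz.2⟩

theorem traj_shift (per : ∀ j, w (j + r) = w j) {x : ℤ → N} (hx : x ∈ Y.trajG univ w) :
    (fun j => x (j + r)) ∈ Y.trajG univ w :=
  Y.mem_trajG (Δ.act_ba N) (Δ.act_ab N) (fun j hj => absurd (mem_univ j) hj)
    (fun j _ => Qa_per Y per j ▸ hx.2 _ (mem_univ _)) fun i _ _ => by
      have := hx.1.edge (mem_univ (i + r)) (mem_univ _)
      unfold Edge at this ⊢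
      rwa [per, add_right_comm] at this

variable {V : Type} [AddCommGroup V] [Module S V]

/-- The properties of the class map on trajectories. -/
structure Cls (w : ℤ → Bool) (r : ℕ) (Y : Sys (act D N Δ.a) (act D N Δ.b))
    (cls : Y.trajG univ w →+ V) (T : V ≃+ V) : Prop where
  per : ∀ j, w (j + r) = w j
  stable : Y.Stable Λ
  surj : Function.Surjective cls
  ker : ∀ (x : Y.trajG univ w) (j : ℤ), cls x = 0 ↔ x.1 j ∈ Y.Ga univ w j
  smul : ∀ (x x' : Y.trajG univ w) (s : S) (j : ℤ) (ρ : Λ), Δ.q ρ = Δ.tw w j s →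
    x'.1 j - ρ • x.1 j ∈ Y.Ga univ w j → cls x' = s • cls x
  shift : ∀ x x' : Y.trajG univ w, (∀ j, x'.1 j = x.1 (j + r)) → cls x' = T (cls x)

/-- `n` represents the class `v` at position `j`. -/
def Rep (cls : Y.trajG univ w →+ V) (j : ℤ) (n : N) (v : V) : Prop :=
  ∃ x, x.1 j = n ∧ cls x = v

variable {Δ} {cls : Y.trajG univ w →+ V} {T : V ≃+ V} {j : ℤ} {n n' : N} {v v' : V}

theorem Rep.add (h : Rep Δ cls j n v) (h' : Rep Δ cls j n' v') :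
    Rep Δ cls j (n + n') (v + v') := by
  obtain ⟨x, rfl, rfl⟩ := h
  obtain ⟨x', rfl, rfl⟩ := h'
  exact ⟨x + x', rfl, map_add _ _ _⟩

theorem Rep.sub (h : Rep Δ cls j n v) (h' : Rep Δ cls j n' v') :
    Rep Δ cls j (n - n') (v - v') := by
  obtain ⟨x, rfl, rfl⟩ := h
  obtain ⟨x', rfl, rfl⟩ := h'
  exact ⟨x - x', rfl, map_sub _ _ _⟩

theorem Rep.sum {K : Type} [Fintype K] {n : K → N} {v : K → V}
    (h : ∀ k, Rep Δ cls j (n k) (v k)) : Rep Δ cls j (∑ k, n k) (∑ k, v k) := by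
  choose x h1 h2 using h
  exact ⟨∑ k, x k, by simp [h1], by simp [h2]⟩

theorem Rep.smul (H : Cls Δ w r Y cls T) (h : Rep Δ cls j n v) {ρ : Λ} {s : S}
    (hρ : Δ.q ρ = Δ.tw w j s) : Rep Δ cls j (ρ • n) (s • v) := by
  obtain ⟨x, rfl, rfl⟩ := h
  obtain ⟨x', hx', e⟩ := Y.exists_traj (Δ.act_ba N) (Δ.act_ab N) ordConnected_univ w (mem_univ j)
    (Qa_smul Δ H.stable ρ (x.2.2 j (mem_univ _)))
  exact ⟨⟨x', hx'⟩, e, H.smul x _ s j ρ hρ (by simp [e])⟩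

theorem Rep.shift (H : Cls Δ w r Y cls T) (h : Rep Δ cls (j + r) n v) : Rep Δ cls j n (T v) := by
  obtain ⟨x, rfl, rfl⟩ := h
  exact ⟨⟨_, traj_shift Δ H.per x.2⟩, rfl, H.shift _ _ fun _ => rfl⟩

theorem Rep.mem (H : Cls Δ w r Y cls T) (h : Rep Δ cls j n 0) : n ∈ Y.Ga univ w j := by
  obtain ⟨x, rfl, e⟩ := h
  exact (H.ker x j).1 e

end Gen

variable [IsPrincipalIdealRing D] [IsSemisimpleRing S] {M : Type} [AddCommGroup M] [Module Λ M]
  [Module D M] [IsScalarTower D Λ M] {Y : Sys (act D (DD D M) Δ.a) (act D (DD D M) Δ.b)}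

theorem split_primal (hr : 0 < r) (per : ∀ j, w (j + r) = w j) (hl : w (d - 1) = false)
    (hw : w d = true) (hY : IsDDSys Δ M Y) {K : Type} [Fintype K] (x : K → ℤ → DD D M)
    (hx : ∀ k, x k ∈ Y.trajG univ w) :
    ∃ z : K → ℤ → DD D M, (∀ k, Traj Δ.a Δ.b (Icc d (d + r)) w (z k) ∧ ∀ j ∈ Icc d (d + r),
        z k j ∈ Y.Qa univ w j ∧ z k j - x k j ∈ Y.Ga univ w j) ∧
      ∀ γ γ' : K → Λ, ∑ k, (γ k • z k d + γ' k • z k (d + r)) ∈ Y.Ga univ w d →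
        ∑ k, (γ k • z k d + γ' k • z k (d + r)) = 0 := by
  refine split_traj (e := act D (DD D M)) Y (Δ.act_ba _) (Δ.act_ab _) per hl hw Δ.q
    (actQ_primal Δ _ (fun ρ x => Qa_smul Δ hY.stable ρ) (fun x => Q_kill_a Y (Δ.act_ab _) hl)
      fun x => Q_kill_b Y (Δ.act_ba _) hw) (tp Δ w r d).toRingEquiv hY.stable (fun s => ?_)
    (fun L _ c => ?_) (fun L _ c => ?_) x hx
  · obtain ⟨ρ, h1, h2, h3⟩ := Δ.exists_fam w ((Δ.tw w d).symm s)
    refine ⟨ρ, by simp [h1], by simp [h1, tw_per' Δ per d], fun j x h => ?_, fun j x h => ?_⟩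
    · simp only [act_apply, smul_smul, h2 j h]
    · simp only [act_apply, smul_smul, h3 j h, Δ.cb]
  · rw [hY.Lm]
    exact solv_minus hr per (cmp_a Δ) (cmp_b Δ) Y.hRp (fun ρ x => (hY.stable _ ρ x).2.1) c
  · rw [hY.Rm, hY.Lp]
    exact solv_plus hr per (cmp_a Δ) (cmp_b Δ) c

theorem split_dual (d : ℤ) {p : ℤ} (hr : 0 < r) (per : ∀ j, w (j + r) = w j) (hl : w (p - 1) = true)
    (hw : w p = false) (hY : IsDDSys Δ M Y) {K : Type} [Fintype K] (x : K → ℤ → Du D (DD D M))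
    (hx : ∀ k, x k ∈ Y.dual.trajG univ fun i => !w i) :
    ∃ z : K → ℤ → Du D (DD D M), (∀ k, Δ.DTraj (Icc p (p + r)) w (z k) ∧ ∀ j ∈ Icc p (p + r),
        z k j ∈ Y.dual.Qa univ (fun i => !w i) j ∧
          z k j - x k j ∈ Y.dual.Ga univ (fun i => !w i) j) ∧
      ∀ γ γ' : K → Λ, ∑ k, (du (act D _ (γ k)) (z k p) + du (act D _ (γ' k)) (z k (p + r))) ∈
          Y.dual.Ga univ (fun i => !w i) p →
        ∑ k, (du (act D _ (γ k)) (z k p) + du (act D _ (γ' k)) (z k (p + r))) = 0 := by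
  have h1 : ∀ χ : Du D (DD D M), du (act D _ Δ.a) (du (act D _ Δ.b) χ) = 0 := fun χ =>
    LinearMap.ext fun x => (congrArg χ (Δ.act_ba _ x)).trans (map_zero χ)
  have h2 : ∀ χ : Du D (DD D M), du (act D _ Δ.b) (du (act D _ Δ.a) χ) = 0 := fun χ =>
    LinearMap.ext fun x => (congrArg χ (Δ.act_ab _ x)).trans (map_zero χ)
  have per' : ∀ j, (!w (j + r)) = !w j := fun j => by rw [per]
  have hl' : (!w (p - 1)) = false := by simp [hl]
  have hw' : (!w p) = true := by simp [hw]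
  have hst : ∀ u (ρ : Λ) χ, (χ ∈ Y.dual.Rm u → du (act D _ ρ) χ ∈ Y.dual.Rm u) ∧
      (χ ∈ Y.dual.Rp u → du (act D _ ρ) χ ∈ Y.dual.Rp u) ∧
      (χ ∈ Y.dual.Lm u → du (act D _ ρ) χ ∈ Y.dual.Lm u) ∧
      (χ ∈ Y.dual.Lp u → du (act D _ ρ) χ ∈ Y.dual.Lp u) := fun u ρ χ =>
    ⟨fun h y hy => h _ ((hY.stable _ ρ y).2.1 hy), fun h y hy => h _ ((hY.stable _ ρ y).1 hy),
      fun h y hy => h _ ((hY.stable _ ρ y).2.2.2 hy),
      fun h y hy => h _ ((hY.stable _ ρ y).2.2.1 hy)⟩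
  refine (split_traj (e := fun ρ => du (act D (DD D M) ρ)) Y.dual h1 h2 per' hl' hw'
    (fun ρ => MulOpposite.op (Δ.q ρ))
    (actQ_dual Δ _ (fun ρ χ h => ⟨(hst _ ρ χ).2.1 h.1, (hst _ ρ χ).2.2.2 h.2⟩)
      (fun x => Q_kill_b Y.dual h1 hw') fun x => Q_kill_a Y.dual h2 hl')
    (RingEquiv.op (tp Δ w r d).toRingEquiv) hst (fun s => ?_) (fun L _ c => ?_) (fun L _ c => ?_)
    x hx).imp fun z ⟨hz, hz'⟩ =>
      ⟨fun k => ⟨⟨(hz k).1.1, fun j hj y => ?_, fun j hj y => ?_⟩, (hz k).2⟩, hz'⟩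
  · obtain ⟨ρ, h1, h2, h3⟩ := Δ.exists_fam w ((Δ.tw w p).symm s.unop)
    refine ⟨ρ, by simp [h1], by simp [h1, tw_per' Δ per d], fun j χ h => LinearMap.ext fun x => ?_,
      fun j χ h => LinearMap.ext fun x => ?_⟩
    · simp only [du_apply, act_apply, smul_smul, h3 j (by simpa using h), Δ.cb]
    · simp only [du_apply, act_apply, smul_smul, h2 j (by simpa using h)]
  · change Solv _ (ann (Y.Rm _) ⊓ ann (Y.Lp _)) _
    rw [hY.Rm, hY.Lp, Wd.flip_flip, ← ann_ann_inf]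
    exact solv_dd (solv_minus hr per' (cmp_b Δ).du (cmp_a Δ).du side_mn'.ann
      (fun ρ χ h y hy => h _ (Δ.mnR_stable M _ ρ hy)) c)
  · change Solv _ (ann (Y.Rp _) ⊓ ann (Y.Lm _)) _
    rw [hY.Rp, hY.Lm, Wd.flip_flip]
    exact solv_plus hr per' (cmp_b Δ).du (cmp_a Δ).du c
  · have := LinearMap.congr_fun ((hz k).1.2.2 j hj) y
    cases h : w j <;> simpa [h] using this
  · have := LinearMap.congr_fun ((hz k).1.2.1 j hj) y
    cases h : w (j - 1) <;> simpa [h] using this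

theorem band_right (hw : IsBand w r d) (hY : IsDDSys Δ M Y) {V : Type} [AddCommGroup V]
    [Module S V] {cls : Y.trajG univ w →+ V} {T : V ≃+ V} (H : Cls Δ w r Y cls T) (φ : PP Λ)
    {i : ℤ} (hi : i ∈ Finset.Ico d (d + r)) (x : Y.trajG univ w)
    {K : Type} [Fintype K] (θ : K → S × (φ.ι → S) × (φ.ι → S))
    (hθ : ∀ k, θ k ∈ Δ.Theta φ w r d i) (v : K → V) (hv : cls x = ∑ k, (θ k).1 • v k)
    (hc : ∀ t, ∑ k, ((θ k).2.1 t • v k + T ((θ k).2.2 t • v k)) = 0) :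
    ∃ z ∈ Y.Ga univ w i, x.1 i + z ∈ φ.set (DD D M) := by
  choose x' hx' using fun k => H.surj (v k)
  obtain ⟨z, hz, hex⟩ := split_primal Δ hw.pos hw.per hw.left hw.right hY (fun k => (x' k).1)
    fun k => (x' k).2
  choose f hf using fun k => exists_stLift (hz k).1
  choose ρ cL cR hρ hL hR ζ hζ y hy using hθ
  have hrep : ∀ k j, Rep Δ cls j ((x' k).1 j) (v k) := fun k j => ⟨x' k, rfl, hx' k⟩
  rw [Finset.mem_Ico] at hi
  have hi' : i ∈ Icc d (d + r) := ⟨hi.1, hi.2.le⟩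
  refine ⟨∑ k, f k (ρ k • stE _ _ _ _ i + ζ k) - x.1 i, ?_, fun t => ∑ k, f k (y k t), fun t => ?_⟩
  · have h1 : ∑ k, ρ k • (x' k).1 i - x.1 i ∈ Y.Ga univ w i := by
      have := (Rep.sum fun k => (hrep k i).smul H (hρ k)).sub ⟨x, rfl, hv⟩
      exact Rep.mem H (by rwa [sub_self] at this)
    have h2 : ∀ k, f k (ζ k) ∈ Y.Ga univ w i := fun k => by
      let P : Submodule Λ (DD D M) :=
        { carrier := Y.Rm (rwd univ w i)
          add_mem' := (Y.Rm _).add_mem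
          zero_mem' := zero_mem _
          smul_mem' := fun ρ x hx => (H.stable _ ρ x).1 hx }
      refine Submodule.mem_sup_left (map_stL_le (f k) (P := P) (fun j hj hj' => ?_) (hζ k))
      rw [hf]
      exact Y.Rp_le_Rm (Δ.act_ba _) (rwd_nrm ordConnected_univ w (mem_univ _))
        (rwd_nrm ordConnected_univ w (mem_univ _)) hj.2 ((hz k).2 j hj').1.1
    convert add_mem h1 (Submodule.sum_mem _ (t := Finset.univ) fun k _ =>
      add_mem (Ga_smul Δ H.stable (ρ k) ((hz k).2 i hi').2) (h2 k)) using 1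
    simp only [map_add, map_smul, hf, smul_sub, Finset.sum_add_distrib, Finset.sum_sub_distrib]
    abel
  · have h1 : ∑ k, (cL k t • (x' k).1 d + cR k t • (x' k).1 (d + r)) ∈ Y.Ga univ w d := by
      have := Rep.sum fun k => ((hrep k d).smul H (hL k t)).add
        (((hrep k (d + r)).smul H (hR k t)).shift H)
      exact Rep.mem H (hc t ▸ this)
    have h2 := hex (fun k => cL k t) (fun k => cR k t) (by
      convert add_mem h1 (Submodule.sum_mem _ (t := Finset.univ) fun k _ =>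
        add_mem (Ga_smul Δ H.stable (cL k t) ((hz k).2 d ⟨le_rfl, by omega⟩).2)
        (Ga_smul Δ H.stable (cR k t)
          (Ga_per Y hw.per d ▸ ((hz k).2 (d + r) ⟨by omega, le_rfl⟩).2))) using 1
      simp only [smul_sub, Finset.sum_add_distrib, Finset.sum_sub_distrib]
      abel)
    rw [add_sub_cancel, ← h2]
    simp only [Finset.smul_sum]
    rw [Finset.sum_comm, ← Finset.sum_add_distrib]
    refine Finset.sum_congr rfl fun k _ => ?_
    simp only [← hf, ← map_smul, ← map_sum, ← map_add, hy]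

end Band
end Pool.Agent.Lib.MP_c13fce_lc
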