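import Pool.Agent.Lib.MP_c13fce_lc.BandC

/-! Gluing in string modules and dual walks. -/

namespace Pool.Agent.Lib.MP_c13fce_lc
namespace Band
open scoped BigOperators
open Set
set_option linter.unusedSectionVars false
set_option linter.unusedVariables false

section Words
variable {w : ℤ → Bool} {r : ℕ} {d : ℤ}

theorem exists_peak (hw : IsBand w r d) :
    ∃ p, p < d ∧ d < p + r ∧ w (p - 1) = true ∧ w p = false := by
  by_contra h
  push Not at h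
  have hr := hw.pos
  have := prop_fwd (p := d - r) (r := r) (fun j => j < d → w j = true)
    (fun _ => by rw [← hw.per, sub_add_cancel]; exact hw.right)
    (fun j h1 h2 h3 h4 => by
      have := h (j + 1) h4 (by omega) (by rw [add_sub_cancel_right]; exact h3 (by omega))
      simpa using this) (j := d - 1) ⟨by omega, by omega⟩ (by omega)
  rw [hw.left] at this
  exact absurd this (by simp)

/-- The positions whose right word is smaller. -/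
def lw (w : ℤ → Bool) (i : ℤ) : Set ℤ := {j | toLex (rwd univ w j) < toLex (rwd univ w i)}

theorem dn_rwd (J : Set ℤ) {Γ : Set ℤ}
    (h : ∀ j ∈ Γ, ∀ k, toLex (rwd univ w k) ≤ toLex (rwd univ w j) → k ∈ Γ) : Dn J w Γ := by
  refine fun j hj _ => ⟨fun hw _ => h j hj _ ?_, fun hw _ => h j hj _ ?_⟩
  · have := ((rwd_down ordConnected_univ (mem_univ (j - 1)) (mem_univ _)).1 hw).1
    rwa [sub_add_cancel] at this
  · exact ((rwd_down ordConnected_univ (mem_univ j) (mem_univ _)).2 hw).1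

theorem dn_lw (J : Set ℤ) (i : ℤ) : Dn J w (lw w i) :=
  dn_rwd J fun _ hj _ hk => lt_of_le_of_lt hk hj

theorem nb_lw (hw : IsBand w r d) {i : ℤ} (hi : i ∈ Finset.Ico d (d + r)) {j : ℤ}
    (h : (j = i - 1 ∧ w (i - 1) = true) ∨ (j = i + 1 ∧ w i = false)) : j ∈ lw w i := by
  have hi' := Finset.mem_Ico.1 hi
  rcases h with ⟨rfl, h⟩ | ⟨rfl, h⟩
  · have := ((rwd_down ordConnected_univ (mem_univ (i - 1)) (mem_univ _)).1 h).1
    rw [sub_add_cancel] at this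
    refine lt_of_le_of_ne this fun e => ?_
    have hne : i ≠ d := by rintro rfl; simp [hw.left] at h
    have := hw.prim (i - 1) (Finset.mem_Ico.2 (by omega)) i hi (toLex.injective e)
    omega
  · refine lt_of_le_of_ne ((rwd_down ordConnected_univ (mem_univ i) (mem_univ _)).2 h).1
      fun e => ?_
    have e' := toLex.injective e
    by_cases h2 : i + 1 = d + r
    · rw [h2, rwd_per hw.per] at e'
      have := hw.prim d (Finset.mem_Ico.2 (by omega)) i hi e'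
      subst this
      simp [hw.right] at h
    · have := hw.prim (i + 1) (Finset.mem_Ico.2 (by omega)) i hi e'
      omega

theorem dn_peak (J : Set ℤ) {j : ℤ} (hl : w (j - 1) = true) (hw : w j = false) :
    Dn J w {j}ᶜ := by
  refine fun k _ _ => ⟨fun h _ e => ?_, fun h _ e => ?_⟩
  · rw [mem_singleton_iff.1 e, hw] at h; exact absurd h (by simp)
  · rw [← mem_singleton_iff.1 e, add_sub_cancel_right, h] at hl; exact absurd hl (by simp)

theorem dn_union {J Γ Γ' : Set ℤ} (h : Dn J w Γ) (h' : Dn J w Γ') : Dn J w (Γ ∪ Γ') := by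
  rintro j (hj | hj) hJ
  · exact ⟨fun a b => Or.inl ((h j hj hJ).1 a b), fun a b => Or.inl ((h j hj hJ).2 a b)⟩
  · exact ⟨fun a b => Or.inr ((h' j hj hJ).1 a b), fun a b => Or.inr ((h' j hj hJ).2 a b)⟩

end Words

section St
variable {Λ : Type} [Ring Λ] {a b : Λ} {J J' Γ Γ' : Set ℤ} {w : ℤ → Bool}

theorem lift_stL (P : St a b J w →ₗ[Λ] St a b J' w) (hP : ∀ j, P (stE a b J w j) = stE a b J' w j)
    {z : St a b J' w} (hz : z ∈ stL a b J' w Γ) : ∃ v ∈ stL a b J w (Γ ∩ J'), P v = z :=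
  stL_le (P := (stL a b J w (Γ ∩ J')).map P) (fun j h h' => ⟨_, stE_mem_stL ⟨h, h'⟩, hP j⟩) hz

theorem mem_of_proj (hJ : J' ⊆ J) (P : St a b J w →ₗ[Λ] St a b J' w)
    (hP : ∀ j, P (stE a b J w j) = stE a b J' w j) {v : St a b J w}
    (h : P v ∈ stL a b J' w Γ) : v ∈ stL a b J w (Γ ∪ J \ J') := by
  obtain ⟨v', hv', e⟩ := lift_stL P hP h
  have : v - v' ∈ LinearMap.ker P := by rw [LinearMap.mem_ker, map_sub, e, sub_self]
  rw [ker_proj hJ P hP] at this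
  rw [stL_union, ← add_sub_cancel v' v]
  exact Submodule.add_mem_sup (stL_mono (fun j hj => hj.1.1) hv') this

theorem exists_top (j : ℤ) (z : St a b J w) :
    ∃ c : Λ, z - c • stE a b J w j ∈ stL a b J w {j}ᶜ := by
  have : z ∈ stL a b J w (insert j {j}ᶜ) :=
    stL_mono (Γ := J) (fun k _ => by by_cases h : k = j <;> simp [h])
      (by rw [stL_top]; trivial)
  obtain ⟨c, z', hz, rfl⟩ := mem_stL_insert.1 this
  exact ⟨c, by simpa using hz⟩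

theorem lead_sum {L : Type} [Fintype L] (g : L → St a b J w →ₗ[Λ] St a b J' w) (ρ : L → ℤ → Λ)
    (δ : ℤ) (hg : ∀ l j, g l (stE a b J w j) = ρ l j • stE a b J' w (j + δ))
    (hΓ : ∀ j ∈ Γ, j + δ ∈ Γ') {i : ℤ} {z : L → St a b J w} {c : L → Λ}
    (h : ∀ l, z l - c l • stE a b J w i ∈ stL a b J w Γ) :
    ∑ l, g l (z l) - (∑ l, c l * ρ l i) • stE a b J' w (i + δ) ∈ stL a b J' w Γ' := by
  rw [Finset.sum_smul, ← Finset.sum_sub_distrib]
  refine Submodule.sum_mem _ fun l _ => ?_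
  rw [mul_smul, ← hg, ← map_smul, ← map_sub]
  exact map_stL_le _ (fun j hj _ => hg l j ▸ Submodule.smul_mem _ _ (stE_mem_stL (hΓ j hj))) (h l)

theorem split_mem {n : ℤ} (i₁ : St a b (J ∩ Iic n) w →ₗ[Λ] St a b J w)
    (i₂ : St a b (J ∩ Ici n) w →ₗ[Λ] St a b J w) (h₁ : ∀ j ≤ n, i₁ (stE a b _ w j) = stE a b J w j)
    (h₂ : ∀ j ≥ n, i₂ (stE a b _ w j) = stE a b J w j) {z : St a b J w} (hz : z ∈ stL a b J w Γ) :
    ∃ z₁ ∈ stL a b _ w Γ, ∃ z₂ ∈ stL a b _ w Γ, i₁ z₁ + i₂ z₂ = z := by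
  have := stL_le (P := (stL a b _ w Γ).map i₁ ⊔ (stL a b _ w Γ).map i₂) (fun j h _ => by
    rcases le_total j n with hj | hj
    · exact Submodule.mem_sup_left ⟨_, stE_mem_stL h, h₁ j hj⟩
    · exact Submodule.mem_sup_right ⟨_, stE_mem_stL h, h₂ j hj⟩) hz
  obtain ⟨_, ⟨z₁, h1, rfl⟩, _, ⟨z₂, h2, rfl⟩, rfl⟩ := Submodule.mem_sup.1 this
  exact ⟨z₁, h1, z₂, h2, rfl⟩

theorem traj_stE_shift {r : ℕ} (per : ∀ j, w (j + r) = w j) (h : ∀ j, j ∈ J ↔ j + r ∈ J') :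
    Traj a b J w fun j => stE a b J' w (j + r) := by
  refine ⟨fun j hj => stE_not_mem (by rwa [← h]), fun j hj => ?_, fun j hj => ?_⟩
  · rw [traj_stE.2.1 _ ((h j).1 hj), add_sub_right_comm, per]
  · rw [traj_stE.2.2 _ ((h j).1 hj), add_right_comm, per]

end St

variable {D Λ S : Type} [CommRing D] [IsDomain D] [Ring Λ] [Algebra D Λ] [Ring S] [Algebra D S]
  [IsPrincipalIdealRing D] (Δ : SD D Λ S) {w : ℤ → Bool} {r : ℕ} {d p : ℤ}

/-- Gluing two solutions at a peak. -/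
theorem theta_of (hw : IsBand w r d) (hb : Δ.b ≠ 0) (h1 : p < d) (h2 : d < p + r)
    (hl : w (p - 1) = true) (hp : w p = false) {J₂ J₃ : Set ℤ}
    (hJ₂ : ∀ j, j ∈ J₂ ↔ d ≤ j ∧ j ≤ p + r) (hJ₃ : ∀ j, j ∈ J₃ ↔ p + r ≤ j ∧ j ≤ d + r)
    (φ : PP Λ) {i : ℤ} (hi : i ∈ Finset.Ico d (d + r)) (u₂ : Option φ.κ → St Δ.a Δ.b J₂ w)
    (u₃ : Option φ.κ → St Δ.a Δ.b J₃ w) (c₂ c₃ : Option φ.κ → Λ)
    (hc : ∀ k, Δ.q (c₂ k) = Δ.q (c₃ k))
    (hc₂ : ∀ k, u₂ k - c₂ k • stE _ _ _ _ (p + r) ∈ stL _ _ _ _ {p + r}ᶜ)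
    (hc₃ : ∀ k, u₃ k - c₃ k • stE _ _ _ _ (p + r) ∈ stL _ _ _ _ {p + r}ᶜ) {ρ₂ ρ₃ : Λ}
    (hρ : Δ.q ρ₂ = Δ.q ρ₃) (hρ₂ : u₂ none - ρ₂ • stE _ _ _ _ i ∈ stL _ _ _ _ (lw w i))
    (hρ₃ : u₃ none - ρ₃ • stE _ _ _ _ i ∈ stL _ _ _ _ (lw w i)) (cL cR : φ.ι → Λ)
    (e₂ : ∀ t, φ.h t • u₂ none + ∑ k, φ.H t k • u₂ (some k) = cL t • stE _ _ _ _ d)
    (e₃ : ∀ t, φ.h t • u₃ none + ∑ k, φ.H t k • u₃ (some k) = cR t • stE _ _ _ _ (d + r))
    {θ : S × (φ.ι → S) × (φ.ι → S)} (t₁ : Δ.q ρ₂ = Δ.tw w i θ.1)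
    (t₂ : ∀ t, Δ.q (cL t) = Δ.tw w d (θ.2.1 t)) (t₃ : ∀ t, Δ.q (cR t) = Δ.tw w (d + r) (θ.2.2 t)) :
    θ ∈ Δ.Theta φ w r d i := by
  have hl' : w (p + r - 1) = true := by rw [add_sub_right_comm, hw.per, hl]
  have hp' : w (p + r) = false := by rw [hw.per, hp]
  have s₂ : J₂ ⊆ Icc d (d + r) := fun j hj => by rw [hJ₂] at hj; exact ⟨hj.1, by omega⟩
  have s₃ : J₃ ⊆ Icc d (d + r) := fun j hj => by rw [hJ₃] at hj; exact ⟨by omega, hj.2⟩
  have d₂ : Dn (Icc d (d + r)) w (Icc d (d + r) \ J₂) := fun j hj _ =>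
    ⟨fun h h' => ⟨h', fun h3 => by
      have h4 := hj.2
      rw [hJ₂] at h3 h4
      rw [show j - 1 = p + r by omega, hp'] at h
      exact absurd h (by simp)⟩, fun h h' => ⟨h', by
        have h4 := hj.2
        have h5 := hj.1.1
        rw [hJ₂] at h4 ⊢
        omega⟩⟩
  have d₃ : Dn (Icc d (d + r)) w (Icc d (d + r) \ J₃) := fun j hj _ =>
    ⟨fun h h' => ⟨h', by
        have h4 := hj.2
        have h5 := hj.1.2
        rw [hJ₃] at h4 ⊢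
        omega⟩, fun h h' => ⟨h', fun h3 => by
      have h4 := hj.2
      rw [hJ₃] at h3 h4
      rw [show j = p + r - 1 by omega, hl'] at h
      exact absurd h (by simp)⟩⟩
  obtain ⟨P₂, hP₂⟩ := exists_proj (a := Δ.a) (b := Δ.b) s₂ d₂
  obtain ⟨P₃, hP₃⟩ := exists_proj (a := Δ.a) (b := Δ.b) s₃ d₃
  have gm : ∀ Γ, Dn (Icc d (d + r)) w Γ → ∀ v, P₂ v ∈ stL _ _ _ _ Γ → P₃ v ∈ stL _ _ _ _ Γ →
      v ∈ stL _ _ _ _ Γ := fun Γ hΓ v a₂ a₃ => by
    have := Submodule.mem_inf.2 ⟨mem_of_proj s₂ P₂ hP₂ a₂, mem_of_proj s₃ P₃ hP₃ a₃⟩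
    rw [Δ.stL_inf (finite_Icc _ _) ordConnected_Icc (Or.inl hb) (dn_union hΓ d₂)
      (dn_union hΓ d₃)] at this
    refine stL_mono (fun j hj => ?_) this
    obtain ⟨⟨h | h, h' | h'⟩, -⟩ := hj <;> try assumption
    have a1 := h.1
    have a2 := h.2
    have a3 := h'.2
    rw [hJ₂] at a2
    rw [hJ₃] at a3
    exact absurd a1 (by rw [mem_Icc]; omega)
  have ge : ∀ k, ∃ u, P₂ u = u₂ k ∧ P₃ u = u₃ k := fun k => by
    obtain ⟨v₂, hv₂, e₂⟩ := lift_stL P₂ hP₂ (hc₂ k)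
    obtain ⟨v₃, hv₃, e₃⟩ := lift_stL P₃ hP₃ (hc₃ k)
    have z₂ : P₃ v₂ = 0 := map_stL_le P₃ (P := ⊥) (fun j hj _ => by
      rw [hP₃, stE_not_mem]; · rfl
      have a1 := hj.1
      have a2 := hj.2
      rw [hJ₂] at a2
      rw [hJ₃, mem_compl_singleton_iff] at *
      omega) hv₂
    have z₃ : P₂ v₃ = 0 := map_stL_le P₂ (P := ⊥) (fun j hj _ => by
      rw [hP₂, stE_not_mem]; · rfl
      have a1 := hj.1
      have a2 := hj.2
      rw [hJ₃] at a2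
      rw [hJ₂, mem_compl_singleton_iff] at *
      omega) hv₃
    obtain ⟨x, y, e⟩ := (Δ.q_ker (c₂ k - c₃ k)).1 (by rw [map_sub, hc, sub_self])
    have b₂ : Δ.b • stE Δ.a Δ.b J₂ w (p + r) = 0 := by
      rw [traj_stE.2.2 _ ((hJ₂ _).2 (by omega)), stE_not_mem (by rw [hJ₂]; omega), ite_self]
    have a₃ : Δ.a • stE Δ.a Δ.b J₃ w (p + r) = 0 := by
      rw [traj_stE.2.1 _ ((hJ₃ _).2 (by omega)), stE_not_mem (by rw [hJ₃]; omega), ite_self]
    refine ⟨(c₃ k + x * Δ.a) • stE _ _ _ _ (p + r) + v₂ + v₃, ?_, ?_⟩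
    · rw [map_add, map_add, map_smul, hP₂, e₂, z₃, show c₃ k + x * Δ.a = c₂ k - y * Δ.b by
        rw [eq_sub_iff_add_eq, add_assoc, ← e, add_sub_cancel], sub_smul, mul_smul, b₂]
      simp
    · rw [map_add, map_add, map_smul, hP₃, e₃, z₂, add_smul, mul_smul, a₃]
      simp
  choose u hu₂ hu₃ using ge
  refine ⟨ρ₂, cL, cR, t₁, t₂, t₃, u none - ρ₂ • stE _ _ _ _ i, ?_, fun k => u (some k),
    fun t => ?_⟩
  · refine stL_mono (Γ := lw w i) (fun j hj => And.intro hj.2 hj.1) (gm _ (dn_lw _ i) _ ?_ ?_)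
    · rwa [map_sub, map_smul, hP₂, hu₂]
    · have := stL_mono (Γ' := lw w i) (fun j hj => nb_lw hw hi hj.1.2)
        (Δ.rad_smul_mem (J := J₃) (w := w) (r := ρ₃ - ρ₂) (by rw [map_sub, hρ, sub_self]) i)
      convert add_mem hρ₃ this using 1
      rw [map_sub, map_smul, hP₃, hu₃, sub_smul, sub_add_sub_cancel]
  · rw [add_sub_cancel, ← sub_eq_zero, ← Submodule.mem_bot Λ, ← stL_empty]
    refine gm _ (fun _ h => h.elim) _ ?_ ?_
    · simp only [map_sub, map_add, map_smul, map_sum, hu₂, hP₂, e₂]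
      rw [stE_not_mem (j := d + r) (by rw [hJ₂]; omega)]
      simp
    · simp only [map_sub, map_add, map_smul, map_sum, hu₃, hP₃, e₃]
      rw [stE_not_mem (j := d) (by rw [hJ₃]; omega)]
      simp

section Walks
variable {N : Type} [AddCommGroup N] [Module Λ N] [Module D N] [IsScalarTower D Λ N]
  {Y : Sys (act D N Δ.a) (act D N Δ.b)} {V : Type} [AddCommGroup V] [Module S V]
  {cls : Y.trajG univ w →+ V} {T : V ≃+ V}

theorem dual_Qa (j : ℤ) : Y.dual.Qa univ (fun i => !w i) j =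
    ann (Y.Rm (rwd univ w j)) ⊓ ann (Y.Lm (lwd univ w j)) := by
  rw [Sys.Qa, rwd_not, lwd_not]
  change ann (Y.Rm _) ⊓ ann (Y.Lm _) = _
  simp only [Wd.flip_flip]

theorem exists_dual_traj (H : Cls Δ w r Y cls T) (ω : V →ₗ[S] S) :
    ∃ χ ∈ Y.dual.trajG univ fun i => !w i, ∀ j n v, Rep Δ cls j n v → χ j n = Δ.κ (ω v) := by
  have hrep : ∀ n : Y.Qa univ w 0, ∃ v, Rep Δ cls 0 n v := fun n => by
    obtain ⟨x, hx, e⟩ := Y.exists_traj (Δ.act_ba N) (Δ.act_ab N) ordConnected_univ w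
      (mem_univ 0) n.2
    exact ⟨_, ⟨x, hx⟩, e, rfl⟩
  have huniq : ∀ n v v', Rep Δ cls 0 n v → Rep Δ cls 0 n v' → v = v' := fun n v v' h h' => by
    obtain ⟨x, e, e'⟩ := h.sub h'
    rw [← sub_eq_zero, ← e', H.ker x 0, e, sub_self]
    exact zero_mem _
  choose cl hcl using hrep
  let g : Du D (Y.Qa univ w 0) :=
    { toFun := fun n => Δ.κ (ω (cl n))
      map_add' := fun n n' => by
        rw [huniq _ _ _ (hcl (n + n')) ((hcl n).add (hcl n')), map_add, map_add]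
      map_smul' := fun δ n => by
        have := (hcl n).smul H (ρ := algebraMap D Λ δ) (s := algebraMap D S δ) (by simp)
        rw [algebraMap_smul] at this
        rw [huniq _ _ _ (hcl (δ • n)) this, map_smul, smul_eq_mul, ← Algebra.smul_def, map_smul]
        rfl }
  let W := Y.Rm (rwd univ w 0) ⊔ Y.Lm (lwd univ w 0)
  obtain ⟨χ₀, hχ₀⟩ := exists_ext (W.subtype.coprod (Y.Qa univ w 0).subtype)
    (g ∘ₗ LinearMap.snd D _ _) fun x hx => by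
      have hx' : (x.1 : N) + x.2 = 0 := hx
      obtain ⟨y, hy, z, hz, e⟩ := Submodule.mem_sup.1 (neg_mem x.1.2)
      have e' : y + z = x.2 := e.trans (neg_eq_of_add_eq_zero_right hx')
      obtain ⟨x', h1, h2⟩ := hcl x.2
      have : cls x' = 0 := by
        rw [H.ker x' 0, h1, ← e']
        refine Submodule.add_mem_sup hy ⟨?_, hz⟩
        rw [eq_sub_of_add_eq' e']
        exact sub_mem x.2.2.1 (Y.Rle _ hy)
      change Δ.κ (ω (cl x.2)) = 0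
      rw [← h2, this, map_zero, map_zero]
  have hW : ∀ y ∈ W, χ₀ y = 0 := fun y hy => by simpa using hχ₀ (⟨y, hy⟩, 0)
  obtain ⟨χ, hχ, e⟩ := Y.dual.exists_traj
    (fun χ => LinearMap.ext fun x => (congrArg χ (Δ.act_ba _ x)).trans (map_zero χ))
    (fun χ => LinearMap.ext fun x => (congrArg χ (Δ.act_ab _ x)).trans (map_zero χ))
    ordConnected_univ (fun i => !w i) (mem_univ 0) (x0 := χ₀) (by
      rw [dual_Qa]
      exact ⟨fun y hy => hW y (Submodule.mem_sup_left hy),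
        fun y hy => hW y (Submodule.mem_sup_right hy)⟩)
  refine ⟨χ, hχ, ?_⟩
  rintro j _ _ ⟨x, rfl, rfl⟩
  refine (iff_of_edges ordConnected_univ (fun j => χ j (x.1 j) = Δ.κ (ω (cls x)))
    (fun i _ _ => ?_) (mem_univ 0) (mem_univ j)).1 ?_
  · have a1 := hχ.1.edge (mem_univ i) (mem_univ _)
    have a2 := x.2.1.edge (mem_univ i) (mem_univ _)
    cases h : w i
    · rw [← a1.1 (by simp [h]), ← a2.2 h, du_apply]
    · rw [← a1.2 (by simp [h]), ← a2.1 h, du_apply]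
  · have := hχ₀ (0, ⟨x.1 0, x.2.2 0 (mem_univ _)⟩)
    simp only [LinearMap.coprod_apply, map_zero, zero_add, Submodule.subtype_apply] at this
    rw [e, this]
    exact congrArg (fun v => Δ.κ (ω v)) (huniq _ _ _ (hcl _) ⟨x, rfl, rfl⟩)

theorem dual_Q {j : ℤ} {χ : Du D N} (h : χ ∈ Y.dual.Qa univ (fun i => !w i) j) :
    (∀ n ∈ Y.Rm (rwd univ w j), χ n = 0) ∧ ∀ n ∈ Y.Ga univ w j, χ n = 0 := by
  rw [dual_Qa] at h
  refine ⟨h.1, fun n hn => ?_⟩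
  obtain ⟨y, hy, z, hz, rfl⟩ := Submodule.mem_sup.1 hn
  rw [map_add, h.1 y hy, h.2 z hz.2, add_zero]

theorem dual_G {j : ℤ} {χ : Du D N} (h : χ ∈ Y.dual.Qa univ (fun i => !w i) j) :
    χ ∈ Y.dual.Ga univ (fun i => !w i) j ↔ ∀ n ∈ Y.Qa univ w j, χ n = 0 := by
  have h1 := (dual_Q Δ h).1
  rw [Sys.Ga, rwd_not, lwd_not]
  change χ ∈ ann (Y.Rp _) ⊔ ann (Y.Rm _) ⊓ ann (Y.Lp _) ↔ _
  simp only [Wd.flip_flip]
  rw [← ann_sup, ← ann_inf]
  refine ⟨fun h n hn => h n ⟨hn.1, Submodule.mem_sup_right hn.2⟩, fun h n hn => ?_⟩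
  obtain ⟨y, hy, z, hz, e⟩ := Submodule.mem_sup.1 hn.2
  rw [← e, map_add, h1 y hy, h z ⟨?_, hz⟩, add_zero]
  rw [eq_sub_of_add_eq' e]
  exact sub_mem hn.1 (Y.Rle _ hy)

end Walks

theorem dual_walks [IsSemisimpleRing S] {M : Type} [AddCommGroup M] [Module Λ M] [Module D M]
    [IsScalarTower D Λ M] {Y : Sys (act D (DD D M) Δ.a) (act D (DD D M) Δ.b)}
    (hY : IsDDSys Δ M Y) {V : Type} [AddCommGroup V] [Module S V] {cls : Y.trajG univ w →+ V}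
    {T : V ≃+ V} (H : Cls Δ w r Y cls T) (hr : 0 < r) (d : ℤ) (hl : w (p - 1) = true)
    (hp : w p = false) {L : Type} [Fintype L] (ω : L → V →ₗ[S] S) :
    ∃ χ : L → ℤ → Du D (DD D M), (∀ l, Δ.DTraj (Icc p (p + r)) w (χ l) ∧ ∀ j ∈ Icc p (p + r),
        (∀ n ∈ Y.Rm (rwd univ w j), χ l j n = 0) ∧ (∀ n ∈ Y.Ga univ w j, χ l j n = 0) ∧
          ∀ n v, Rep Δ cls j n v → χ l j n = Δ.κ (ω l v)) ∧
      ∀ (u u' : L → S) (γ γ' : L → Λ),
        (∀ v, tp Δ w r d (∑ l, ω l v * u l) = ∑ l, ω l (T v) * u' l) →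
        (∀ l, Δ.q (γ l) = Δ.tw w (p + r) (u l)) → (∀ l, Δ.q (γ' l) = Δ.tw w p (u' l)) →
        ∀ n, ∑ l, χ l (p + r) (γ l • n) = ∑ l, χ l p (γ' l • n) := by
  choose χ₀ h0 h0' using fun l => exists_dual_traj Δ H (ω l)
  obtain ⟨χ, h1, h2⟩ := split_dual Δ d hr H.per hl hp hY χ₀ h0
  have key : ∀ l, ∀ j ∈ Icc p (p + r), ∀ n v, Rep Δ cls j n v → χ l j n = Δ.κ (ω l v) := by
    intro l j hj n v h
    rw [← h0' l j n v h, ← sub_eq_zero]
    obtain ⟨x, rfl, -⟩ := h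
    exact (dual_G Δ (sub_mem ((h1 l).2 j hj).1 ((h0 l).2 j (mem_univ _)))).1 ((h1 l).2 j hj).2 _
      (x.2.2 j (mem_univ _))
  refine ⟨χ, fun l => ⟨(h1 l).1, fun j hj => ⟨(dual_Q Δ ((h1 l).2 j hj).1).1,
    (dual_Q Δ ((h1 l).2 j hj).1).2, key l j hj⟩⟩, fun u u' γ γ' hu hγ hγ' n => ?_⟩
  have hp1 : p ∈ Icc p (p + r) := ⟨le_rfl, by omega⟩
  have hp2 : p + r ∈ Icc p (p + r) := ⟨by omega, le_rfl⟩
  have per' : ∀ j, (!w (j + r)) = !w j := fun j => by rw [H.per]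
  have st : ∀ (ρ : Λ), ∀ ψ ∈ Y.dual.Qa univ (fun i => !w i) p,
      du (act D _ ρ) ψ ∈ Y.dual.Qa univ (fun i => !w i) p := fun ρ ψ h =>
    ⟨fun y hy => h.1 _ ((hY.stable _ ρ y).1 hy), fun y hy => h.2 _ ((hY.stable _ ρ y).2.2.1 hy)⟩
  have e : ∀ n, (∑ l, (du (act D _ (-γ' l)) (χ l p) + du (act D _ (γ l)) (χ l (p + r)))) n =
      ∑ l, χ l (p + r) (γ l • n) - ∑ l, χ l p (γ' l • n) := fun n => by
    simp only [LinearMap.sum_apply, LinearMap.add_apply, du_apply, act_apply, neg_smul, map_neg,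
      ← Finset.sum_sub_distrib, neg_add_eq_sub]
  rw [← sub_eq_zero, ← e, h2 (fun l => -γ' l) γ ((dual_G Δ (Submodule.sum_mem _ fun l _ =>
    add_mem (st _ _ ((h1 l).2 _ hp1).1)
      (st _ _ (Qa_per (w := fun i => !w i) Y.dual per' p ▸ ((h1 l).2 _ hp2).1)))).2 fun n hn => ?_)]
  · rfl
  obtain ⟨x, hx, rfl⟩ := Y.exists_traj (Δ.act_ba _) (Δ.act_ab _) ordConnected_univ w
    (mem_univ (p + r)) (Qa_per Y H.per p ▸ hn :)
  have a : Rep Δ cls (p + r) (x (p + r)) (cls ⟨x, hx⟩) := ⟨_, rfl, rfl⟩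
  rw [e, Finset.sum_congr rfl fun l _ => key l _ hp2 _ _ (a.smul H (hγ l)),
    Finset.sum_congr rfl fun l _ => key l _ hp1 _ _ ((a.shift H).smul H (hγ' l))]
  simp only [map_smul, smul_eq_mul]
  simp only [Δ.κ_comm (u _), Δ.κ_comm (u' _), ← map_sum, ← hu]
  rw [tp, Δ.κ_zpow, sub_self]

end Band
end Pool.Agent.Lib.MP_c13fce_lc
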