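import Pool.Agent.Lib.MP_c13fce_lc.BandD

/-! The local lemma for bands. -/

namespace Pool.Agent.Lib.MP_c13fce_lc
namespace Band
open scoped BigOperators
open Set MulOpposite
set_option linter.unusedSectionVars false
set_option linter.unusedVariables false

variable {D Λ S : Type} [CommRing D] [IsDomain D] [Ring Λ] [Algebra D Λ] [Ring S] [Algebra D S]
  [IsPrincipalIdealRing D] (Δ : SD D Λ S) {w : ℤ → Bool} {r : ℕ} {d p : ℤ}

theorem chi_top {J : Set ℤ} (X : Δ.DualBasis J w) {j : ℤ} (hj : j ∈ J) (hl : w (j - 1) = true)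
    (hw : w j = false) {z : St Δ.a Δ.b J w} {c : Λ}
    (h : z - c • stE _ _ _ _ j ∈ stL _ _ _ _ {j}ᶜ) (ρ : Λ) : X.χ j (ρ • z) = Δ.κ (Δ.q (ρ * c)) := by
  have := X.tri' (dn_peak J hl hw) h (j := j) (by simp) ρ
  rwa [smul_sub, map_sub, smul_smul, X.diag j hj, sub_eq_zero] at this

theorem κ_tw (j : ℤ) {l ρ : Λ} {s : S} (h : Δ.q ρ = Δ.tw w j s) :
    Δ.κ ((Δ.tw w j).symm (Δ.q l) * s) = Δ.κ (Δ.q (l * ρ)) := by
  rw [map_mul Δ.q, h, ← Δ.κ_zpow (-ht w j)]
  change Δ.κ (Δ.tw w j _) = _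
  rw [map_mul (Δ.tw w j), AlgEquiv.apply_symm_apply]

section Lead
variable {N : Type} [AddCommGroup N] [Module Λ N] [Module D N] [IsScalarTower D Λ N]
  {Y : Sys (act D N Δ.a) (act D N Δ.b)} {V : Type} [AddCommGroup V] [Module S V]
  {cls : Y.trajG univ w →+ V} {T : V ≃+ V}

theorem lead (hw : IsBand w r d) (H : Cls Δ w r Y cls T) (h1 : p < d) (h2 : d < p + r)
    (hl : w (p - 1) = true) (hp : w p = false) (X : Δ.DualBasis (Icc p (p + r)) w)
    (f : N →ₗ[Λ] St Δ.a Δ.b (Icc p (p + r)) w) (ω : V →ₗ[S] S)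
    (hf : ∀ j ∈ Icc p (p + r), (∀ n ∈ Y.Rm (rwd univ w j), X.χ j (f n) = 0) ∧
      (∀ n ∈ Y.Ga univ w j, X.χ j (f n) = 0) ∧ ∀ n v, Rep Δ cls j n v → X.χ j (f n) = Δ.κ (ω v))
    {i : ℤ} (hi : i ∈ Finset.Ico d (d + r)) {n z : N} {v : V} (hn : Rep Δ cls i n v)
    (hz : z ∈ Y.Ga univ w i) {ρ ρ' : Λ} (hρ : Δ.q ρ = Δ.tw w i (ω v))
    (hρ' : Δ.q ρ' = Δ.tw w (i - r) (ω (T v))) :
    f (n + z) - ρ • stE _ _ _ _ i - ρ' • stE _ _ _ _ (i - r) ∈ stL _ _ _ _ (lw w i) := by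
  have hr := hw.pos
  have hi' := Finset.mem_Ico.1 hi
  have hl' : w (p + r - 1) = true := by rw [add_sub_right_comm, hw.per, hl]
  have hp' : w (p + r) = false := by rw [hw.per, hp]
  have hir : rwd univ w (i - r) = rwd univ w i := by rw [← rwd_per hw.per, sub_add_cancel]
  refine (X.mem_stL (finite_Icc _ _) (dn_lw _ i)).2 fun j hj l => ?_
  by_cases hjJ : j ∈ Icc p (p + r)
  swap
  · rw [X.traj.1 j hjJ]; rfl
  obtain ⟨a1, a2, a3⟩ := hf j hjJ
  simp only [smul_sub, map_sub, smul_smul, ← map_smul]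
  rcases (not_lt.1 (show ¬ toLex (rwd univ w j) < toLex (rwd univ w i) from hj)).lt_or_eq with h | h
  · have dn : Dn (Icc p (p + r)) w {k | toLex (rwd univ w k) ≤ toLex (rwd univ w i)} :=
      dn_rwd _ fun _ hj _ hk => hk.trans hj
    rw [X.tri _ dn i (le_refl (toLex (rwd univ w i))) j (not_le.2 h), X.tri _ dn (i - r) (congrArg toLex hir).le j
      (not_le.2 h), sub_zero, sub_zero]
    refine a1 _ (Y.Rp_le_Rm (Δ.act_ba _) (rwd_nrm ordConnected_univ w (mem_univ _))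
      (rwd_nrm ordConnected_univ w (mem_univ _)) h ((H.stable _ l _).2.1 (add_mem ?_ ?_)))
    · obtain ⟨x, rfl, -⟩ := hn
      exact (x.2.2 i (mem_univ _)).1
    · exact sup_le (Y.Rle _) inf_le_left hz
  have key : ∀ {v' : V} {σ : Λ}, Rep Δ cls j n v' → z ∈ Y.Ga univ w j →
      Δ.q σ = Δ.tw w j (ω v') → X.χ j (f (l • (n + z))) = X.χ j ((l * σ) • stE _ _ _ _ j) := by
    intro v' σ b1 b2 b3
    rw [smul_add, map_add, map_add, a2 _ (Ga_smul Δ H.stable l b2), add_zero,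
      a3 _ _ (b1.smul H (s := (Δ.tw w j).symm (Δ.q l)) (by simp)), map_smul, smul_eq_mul,
      κ_tw Δ j b3, X.diag j hjJ]
  have h' := toLex.injective h
  obtain ⟨b1, b2⟩ := hjJ
  by_cases hd : d ≤ j
  · obtain rfl := hw.prim i hi j (Finset.mem_Ico.2 (by omega)) h'
    rw [key hn hz hρ, sub_self, zero_sub, neg_eq_zero]
    by_cases h3 : i = p + r
    · subst h3
      exact X.tri _ (dn_peak _ hl' hp') _ (by simp; omega) _ (by simp) _
    · rw [stE_not_mem (by rw [mem_Icc]; omega), smul_zero, map_zero]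
  · obtain rfl := hw.prim i hi (j + r) (Finset.mem_Ico.2 (by omega)) (by rw [h', rwd_per hw.per])
    rw [add_sub_cancel_right] at hρ' ⊢
    rw [key (hn.shift H) (Ga_per Y hw.per j ▸ hz) hρ', sub_sub_cancel_left, neg_eq_zero]
    by_cases h3 : j = p
    · subst h3
      exact X.tri _ (dn_peak _ hl hp) _ (by simp; omega) _ (by simp) _
    · rw [stE_not_mem (by rw [mem_Icc]; omega), smul_zero, map_zero]

end Lead

variable [FinQ D] [Module.Finite D Λ] [IsSemisimpleRing S]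

theorem exists_theta (hw : IsBand w r d) (hb : Δ.b ≠ 0) {M : Type} [AddCommGroup M] [Module Λ M]
    [Module D M] [IsScalarTower D Λ M] {Y : Sys (act D (DD D M) Δ.a) (act D (DD D M) Δ.b)}
    (hY : IsDDSys Δ M Y) {V : Type} [AddCommGroup V] [Module S V] {cls : Y.trajG univ w →+ V}
    {T : V ≃+ V} (H : Cls Δ w r Y cls T) (φ : PP Λ) {i : ℤ} (hi : i ∈ Finset.Ico d (d + r))
    {n z : DD D M} {v : V} (hn : Rep Δ cls i n v) (hz : z ∈ Y.Ga univ w i)
    (hφ : n + z ∈ φ.set (DD D M)) {L : Type} [Fintype L] (ω : L → V →ₗ[S] S) :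
    ∃ k : φ.ι → L → S, ∀ u u' : L → S,
      (∀ v, tp Δ w r d (∑ l, ω l v * u l) = ∑ l, ω l (T v) * u' l) →
      (∑ l, ω l v * u l, fun t => -∑ l, k t l * u l,
        fun t => (tp Δ w r d).symm (∑ l, k t l * u' l)) ∈ Δ.Theta φ w r d i := by
  obtain ⟨p, h1, h2, hl, hp⟩ := exists_peak hw
  have hr := hw.pos
  have hi' := Finset.mem_Ico.1 hi
  have hl' : w (p + r - 1) = true := by rw [add_sub_right_comm, hw.per, hl]
  have hp' : w (p + r) = false := by rw [hw.per, hp]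
  obtain ⟨χ, hχ, hex⟩ := dual_walks Δ hY H hr d hl hp ω
  obtain ⟨X⟩ := Δ.exists_dualBasis (w := w) (finite_Icc p (p + r)) ordConnected_Icc (Or.inl hb)
  choose f hf using fun l => X.exists_hom (finite_Icc _ _) (hχ l).1
  obtain ⟨i₁, i₂, hi₁, hi₂, hsp⟩ := split_deep (a := Δ.a) (b := Δ.b) (J := Icc p (p + r)) (w := w)
    (n := d) ⟨⟨by omega, by omega⟩, Or.inl hw.left, Or.inl hw.right⟩
  obtain ⟨y, hy⟩ := hφ
  choose ρ hρ using fun l => Δ.q_surj (Δ.tw w i (ω l v))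
  choose ρ' hρ' using fun l => Δ.q_surj (Δ.tw w (i - r) (ω l (T v)))
  have hdec : ∀ l (k : Option φ.κ), ∃ z₁ z₂, i₁ z₁ + i₂ z₂ = f l (k.elim (n + z) y) ∧ (k = none →
      z₁ - ρ' l • stE _ _ _ _ (i - r) ∈ stL _ _ _ _ (lw w i) ∧
        z₂ - ρ l • stE _ _ _ _ i ∈ stL _ _ _ _ (lw w i)) := by
    rintro l (_ | k)
    · obtain ⟨z₁, a1, z₂, a2, e⟩ := split_mem i₁ i₂ hi₁ hi₂ (lead Δ hw H h1 h2 hl hp X (f l) (ω l)
        (fun j hj => by simpa only [hf] using (hχ l).2 j hj) hi hn hz (hρ l) (hρ' l))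
      refine ⟨z₁ + ρ' l • stE _ _ _ _ (i - r), z₂ + ρ l • stE _ _ _ _ i, ?_,
        fun _ => ⟨by simpa using a1, by simpa using a2⟩⟩
      rw [map_add, map_add, map_smul, map_smul, hi₁ _ (by omega), hi₂ _ hi'.1, add_add_add_comm, e,
        Option.elim_none]
      abel
    · obtain ⟨z₁, -, z₂, -, e⟩ := split_mem i₁ i₂ hi₁ hi₂ (Γ := Icc p (p + r)) (z := f l (y k))
        (by rw [stL_top]; trivial)
      exact ⟨z₁, z₂, e, fun h => by simp at h⟩
  choose z₁ z₂ hz12 hlead using hdec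
  have hflux : ∀ l t, ∃ c : Λ,
      φ.h t • z₁ l none + ∑ k, φ.H t k • z₁ l (some k) = c • stE _ _ _ _ d ∧
      φ.h t • z₂ l none + ∑ k, φ.H t k • z₂ l (some k) = -(c • stE _ _ _ _ d) := fun l t => by
    refine hsp _ _ ?_
    have := congrArg (f l) (hy t)
    simp only [map_add, map_sum, map_smul, map_zero] at this ⊢
    rw [add_add_add_comm, ← smul_add, ← Finset.sum_add_distrib, hz12]
    simp only [← smul_add, hz12, Option.elim, map_add]
    exact this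
  choose c hc₁ hc₂ using hflux
  choose τ₁ hτ₁ using fun l k => exists_top p (z₁ l k)
  choose τ₂ hτ₂ using fun l k => exists_top (p + r) (z₂ l k)
  have t₁ : ∀ l k (σ : Λ), χ l p (σ • k.elim (n + z) y) = Δ.κ (Δ.q (σ * τ₁ l k)) := by
    intro l k σ
    rw [← hf, map_smul, ← hz12]
    refine chi_top Δ X ⟨le_rfl, by omega⟩ hl hp ?_ σ
    rw [add_sub_right_comm, ← hi₁ p h1.le, ← map_smul, ← map_sub]
    refine add_mem (map_stL_le i₁ (fun j hj hj' => ?_) (hτ₁ l k))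
      (map_stL_le i₂ (Γ := _) (fun j _ hj' => ?_) (by rw [stL_top]; trivial))
    · rw [hi₁ j hj'.2]; exact stE_mem_stL hj
    · have := hj'.2
      rw [mem_Ici] at this
      rw [hi₂ j hj'.2]; exact stE_mem_stL (by rw [mem_compl_singleton_iff]; omega)
  have t₂ : ∀ l k (σ : Λ), χ l (p + r) (σ • k.elim (n + z) y) = Δ.κ (Δ.q (σ * τ₂ l k)) := by
    intro l k σ
    rw [← hf, map_smul, ← hz12]
    refine chi_top Δ X ⟨by omega, le_rfl⟩ hl' hp' ?_ σ
    rw [add_sub_assoc, ← hi₂ (p + r) h2.le, ← map_smul, ← map_sub]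
    refine add_mem (map_stL_le i₁ (Γ := _) (fun j _ hj' => ?_) (by rw [stL_top]; trivial))
      (map_stL_le i₂ (fun j hj hj' => ?_) (hτ₂ l k))
    · have := hj'.2
      rw [mem_Iic] at this
      rw [hi₁ j hj'.2]; exact stE_mem_stL (by rw [mem_compl_singleton_iff]; omega)
    · rw [hi₂ j hj'.2]; exact stE_mem_stL hj
  refine ⟨fun t l => (Δ.tw w d).symm (Δ.q (c l t)), fun u u' hu => ?_⟩
  choose γ hγ using fun l => Δ.exists_fam w (u l)
  choose γ' hγ' using fun l => Δ.exists_fam w (u' l)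
  choose E hE using fun l => exists_stLift
    ((hγ l).traj (traj_stE (a := Δ.a) (b := Δ.b) (J := Icc p (p + r) ∩ Ici d)))
  choose G hG using fun l => exists_stLift
    ((hγ' l).traj (traj_stE_shift (a := Δ.a) (b := Δ.b) (J := Icc p (p + r) ∩ Iic d)
      (J' := Icc (p + r) (d + r)) hw.per fun j => by
        simp only [mem_inter_iff, mem_Icc, mem_Iic]; omega))
  have hE0 : ∀ l j, E l (stE _ _ _ _ j) = γ l j • stE _ _ _ _ (j + 0) := fun l j => by
    rw [add_zero, hE]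
  refine theta_of Δ hw hb h1 h2 hl hp (J₂ := Icc p (p + r) ∩ Ici d) (J₃ := Icc (p + r) (d + r))
    (fun j => by simp only [mem_inter_iff, mem_Icc, mem_Ici]; omega) (fun j => mem_Icc) φ hi
    (fun k => ∑ l, E l (z₂ l k)) (fun k => ∑ l, G l (z₁ l k))
    (fun k => ∑ l, τ₂ l k * γ l (p + r)) (fun k => ∑ l, τ₁ l k * γ' l p) (fun k => ?_)
    (fun k => ?_) (fun k => ?_) (ρ₂ := ∑ l, ρ l * γ l i) (ρ₃ := ∑ l, ρ' l * γ' l (i - r)) ?_ ?_ ?_
    (fun t => -∑ l, c l t * γ l d) (fun t => ∑ l, c l t * γ' l d) (fun t => ?_) (fun t => ?_) ?_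
    (fun t => ?_) fun t => ?_
  · rw [← sub_eq_zero]
    refine Δ.κ_nd' fun σ => ?_
    have := hex u u' _ _ hu (fun l => (hγ l).1 _) (fun l => (hγ' l).1 _) (σ • k.elim (n + z) y)
    simp only [smul_smul, t₁, t₂, map_mul, mul_assoc, Δ.κ_comm (Δ.q (γ _ _)),
      Δ.κ_comm (Δ.q (γ' _ _))] at this
    simp only [map_sum, mul_sub, map_sub, Finset.mul_sum, map_mul, this, sub_self]
  · simpa only [add_zero] using lead_sum E γ 0 hE0 (Γ' := {p + r}ᶜ) (by simp) fun l => hτ₂ l k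
  · exact lead_sum G γ' r hG (by simp) fun l => hτ₁ l k
  · simp only [map_sum, map_mul, hρ, hρ', (hγ _).1, (hγ' _).1]
    simp only [← map_mul, ← map_sum]
    rw [← hu, ← tw_per Δ hw.per, sub_add_cancel]
  · simpa only [add_zero] using lead_sum E γ 0 hE0 (Γ' := lw w i) (by simp)
      fun l => (hlead l none rfl).2
  · simpa only [sub_add_cancel] using lead_sum G γ' r hG (Γ' := lw w i)
      (fun j hj => by simpa only [lw, mem_ofPred_eq, rwd_per hw.per] using hj)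
      fun l => (hlead l none rfl).1
  · simp only [Finset.smul_sum, neg_smul, Finset.sum_smul, mul_smul]
    rw [Finset.sum_comm, ← Finset.sum_add_distrib, ← Finset.sum_neg_distrib]
    refine Finset.sum_congr rfl fun l _ => ?_
    simp only [← hE, ← map_smul, ← map_sum, ← map_add, ← map_neg, hc₂]
  · simp only [Finset.smul_sum, Finset.sum_smul, mul_smul]
    rw [Finset.sum_comm, ← Finset.sum_add_distrib]
    refine Finset.sum_congr rfl fun l _ => ?_
    simp only [← hG, ← map_smul, ← map_sum, ← map_add, hc₁]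
  · simp [hρ, (hγ _).1]
  · simp [(hγ _).1]
  · simp [(hγ' _).1, tw_per Δ hw.per d]

section Fun
variable {V : Type} [AddCommGroup V] [Module S V]

theorem exists_section {L : Type} [Fintype L] (y : L → V →ₗ[S] S) :
    ∃ c : (V →ₗ[S] S) →ₗ[Sᵐᵒᵖ] (L → S), ∀ m v, ∑ l, y l v * c (y m) l = y m v := by
  classical
  let π : (L → S) →ₗ[Sᵐᵒᵖ] V →ₗ[S] S :=
    { toFun := fun u => ∑ l, op (u l) • y l
      map_add' := fun u u' => by simp [add_smul, Finset.sum_add_distrib]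
      map_smul' := fun s u => by
        ext v
        simp [Finset.sum_mul, mul_assoc] }
  obtain ⟨c, hc⟩ := exists_ginv π
  refine ⟨c, fun m v => ?_⟩
  have h1 : π (Pi.single m 1) = y m := by
    change ∑ l, _ = _
    rw [Finset.sum_eq_single m] <;> simp +contextual
  have := LinearMap.congr_fun (hc (Pi.single m 1)) v
  rw [h1] at this
  simpa [π] using this

theorem trace_eq {L : Type} [Fintype L] (y : L → V →ₗ[S] S) (c : (V →ₗ[S] S) →ₗ[Sᵐᵒᵖ] (L → S))
    (hc : ∀ m v, ∑ l, y l v * c (y m) l = y m v) (k : (V →ₗ[S] S) →ₗ[Sᵐᵒᵖ] S) (m : L) :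
    ∑ l, Δ.κ (c (op (k (y l)) • y m) l) = Δ.κ (k (y m)) := by
  have : y m = ∑ l, op (c (y m) l) • y l := by
    ext v
    simp [hc]
  conv_rhs => rw [this]
  simp only [map_sum, map_smul, Pi.smul_apply, op_smul_eq_mul]
  exact Finset.sum_congr rfl fun l _ => Δ.κ_comm _ _

theorem exists_fun [Finite S] [Module D V] [IsScalarTower D S V] (χ : Du D V) :
    ∃ ξ : V →ₗ[S] S, ∀ v, Δ.κ (ξ v) = χ v := by
  choose f hf using fun v : V =>
    Δ.frob (χ ∘ₗ (LinearMap.toSpanSingleton S V v).restrictScalars D)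
  have hf' : ∀ v s, χ (s • v) = Δ.κ (s * f v) := hf
  refine ⟨{ toFun := f, map_add' := fun v v' => ?_, map_smul' := fun s v => ?_ }, fun v => ?_⟩
  · rw [← sub_eq_zero]
    refine Δ.κ_nd _ fun r => ?_
    simp only [mul_sub, mul_add, map_sub, map_add, ← hf', smul_add, sub_self]
  · rw [← sub_eq_zero]
    refine Δ.κ_nd _ fun r => ?_
    simp only [mul_sub, map_sub, smul_eq_mul, RingHom.id_apply, ← mul_assoc, ← hf', smul_smul,
      sub_self]
  · simpa using (hf' v 1).symm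

theorem exists_sep [Finite S] (τ : S ≃ₐ[D] S) (T : V ≃+ V)
    (hT : ∀ (s : S) v, T (s • v) = τ s • T v) {K ι : Type} [Fintype K] [Fintype ι]
    (θ : K → S × (ι → S) × (ι → S)) {v₀ : V}
    (h : ¬ ∃ v : K → V, v₀ = ∑ k, (θ k).1 • v k ∧
      ∀ t, ∑ k, ((θ k).2.1 t • v k + T ((θ k).2.2 t • v k)) = 0) :
    ∃ (ξ₀ : V →ₗ[S] S) (ξ : ι → V →ₗ[S] S), Δ.κ (ξ₀ v₀) ≠ 0 ∧ ∀ k v, Δ.κ (ξ₀ ((θ k).1 • v)) +
      ∑ t, Δ.κ (ξ t ((θ k).2.1 t • v + T ((θ k).2.2 t • v))) = 0 := by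
  classical
  let _ : Module D V := Module.compHom V (algebraMap D S)
  have hD : ∀ (δ : D) (v : V), δ • v = algebraMap D S δ • v := fun _ _ => rfl
  have : IsScalarTower D S V := ⟨fun δ s v => by rw [hD, Algebra.smul_def, mul_smul]⟩
  have hc : ∀ (δ : D) (s : S) (v : V), s • δ • v = δ • s • v := fun δ s v => by
    rw [hD, hD, smul_smul, smul_smul, Algebra.commutes]
  have hTD : ∀ (δ : D) v, T (δ • v) = δ • T v := fun δ v => by
    rw [hD, hD, hT, AlgEquiv.commutes]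
  let F : (K → V) →ₗ[D] V × (ι → V) :=
    { toFun := fun v => (∑ k, (θ k).1 • v k,
        fun t => ∑ k, ((θ k).2.1 t • v k + T ((θ k).2.2 t • v k)))
      map_add' := fun v v' => by
        ext t
        · simp [Finset.sum_add_distrib]
        · simp only [Pi.add_apply, smul_add, map_add, Prod.snd_add, Finset.sum_add_distrib]
          abel
      map_smul' := fun δ v => by
        ext t <;> simp [Finset.smul_sum, hc, hTD] }
  obtain ⟨Ξ, hΞ, hne⟩ := exists_char (LinearMap.range F) (x := (v₀, 0)) (by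
    rintro ⟨v, hv⟩
    exact h ⟨v, (congrArg Prod.fst hv).symm, congrFun (congrArg Prod.snd hv)⟩)
  obtain ⟨ξ₀, h0⟩ := exists_fun Δ (Ξ ∘ₗ LinearMap.inl D _ _)
  choose ξ hξ using fun t =>
    exists_fun Δ (Ξ ∘ₗ LinearMap.inr D _ _ ∘ₗ LinearMap.single D (fun _ : ι => V) t)
  refine ⟨ξ₀, ξ, by rwa [h0], fun k v => ?_⟩
  rw [← hΞ _ ⟨Pi.single k v, rfl⟩]
  simp only [h0, hξ, LinearMap.comp_apply, ← map_sum, ← map_add]
  congr 1
  have e : ∀ {W : Type} [AddCommMonoid W] (g : K → V → W), (∀ k, g k 0 = 0) →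
      ∑ k', g k' ((Pi.single k v : K → V) k') = g k v := fun g hg => by
    rw [Finset.sum_eq_single k] <;> simp +contextual [hg]
  ext t
  · simpa [F, Prod.fst_sum] using (e (fun k v => (θ k).1 • v) (by simp)).symm
  · have := e (fun k v => (θ k).2.1 t • v + T ((θ k).2.2 t • v)) (by simp)
    simp only [F, LinearMap.coe_mk, AddHom.coe_mk, this]
    simp [Prod.snd_sum, Finset.sum_apply, Pi.single_apply]

end Fun

end Band

open Set MulOpposite Band
variable {D Λ S : Type} [CommRing D] [IsDomain D] [IsPrincipalIdealRing D] [FinQ D] [Ring Λ]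
  [Algebra D Λ] [Module.Finite D Λ] [Ring S] [Algebra D S] [Finite S] [IsSemisimpleRing S]

theorem SD.band_local (Δ : SD D Λ S) {w : ℤ → Bool} {r : ℕ} {d : ℤ} (hw : IsBand w r d)
    (hb : Δ.b ≠ 0) (M : Type) [AddCommGroup M] [Module Λ M] [Module D M] [IsScalarTower D Λ M]
    (Y : Sys (act D (DD D M) Δ.a) (act D (DD D M) Δ.b)) (hY : IsDDSys Δ M Y)
    (V : Type) [AddCommGroup V] [Module S V] (cls : Y.trajG Set.univ w →+ V)
    (hsurj : Function.Surjective cls)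
    (hker : ∀ (x : Y.trajG Set.univ w) (j : ℤ), cls x = 0 ↔ x.1 j ∈ Y.Ga Set.univ w j)
    (hsmul : ∀ (x x' : Y.trajG Set.univ w) (s : S) (j : ℤ) (ρ : Λ), Δ.q ρ = Δ.tw w j s →
      x'.1 j - ρ • x.1 j ∈ Y.Ga Set.univ w j → cls x' = s • cls x)
    (T : V ≃+ V) (hT : ∀ x x' : Y.trajG Set.univ w, (∀ j, x'.1 j = x.1 (j + r)) →
      cls x' = T (cls x))
    (hsemi : ∀ (s : S) (v : V), T (s • v) = Δ.twp w r d s • T v)
    (φ : PP Λ) {i : ℤ} (hi : i ∈ Finset.Ico d (d + r)) (x : Y.trajG Set.univ w) :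
    (∃ z ∈ Y.Ga Set.univ w i, x.1 i + z ∈ φ.set (DD D M)) ↔
      cls x ∈ (Δ.bandTF φ w r d i).set T.toAddMonoidHom := by
  have H : Cls Δ w r Y cls T := ⟨hw.per, hY.stable, hsurj, hker, hsmul, hT⟩
  refine ⟨fun ⟨z, hz, hφ⟩ => ?_, fun ⟨v, hv, hc⟩ =>
    band_right Δ hw hY H φ hi x (K := (Δ.bandTF φ w r d i).K) (fun k => k.1) (fun k => k.2) v hv hc⟩
  by_contra h
  set τ := tp Δ w r d with hτ
  have hT' : ∀ (s : S) v, T (s • v) = τ s • T v := hsemi
  obtain ⟨ξ₀, ξ, hne, hsep⟩ := exists_sep Δ τ T hT' (K := (Δ.bandTF φ w r d i).K)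
    (fun k => k.1) h
  let ξ' : φ.ι → V →ₗ[S] S := fun t =>
    { toFun := fun v => τ.symm (ξ t (T v))
      map_add' := fun v v' => by simp
      map_smul' := fun s v => by simp [hT'] }
  have hξ' : ∀ t v, ξ' t v = τ.symm (ξ t (T v)) := fun _ _ => rfl
  let sh : (V →ₗ[S] S) → V →ₗ[S] S := fun ζ =>
    { toFun := fun v => τ (ζ (T.symm v))
      map_add' := fun v v' => by simp
      map_smul' := fun s v => by
        obtain ⟨s, rfl⟩ := τ.surjective s
        obtain ⟨v, rfl⟩ := T.surjective v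
        simp [← hT'] }
  have hsh : ∀ ζ v, sh ζ v = τ (ζ (T.symm v)) := fun _ _ => rfl
  have hid : ∀ θ ∈ Δ.Theta φ w r d i,
      op θ.1 • ξ₀ + ∑ t, (op (θ.2.1 t) • ξ t + op (θ.2.2 t) • ξ' t) = 0 := fun θ hθ => by
    ext v
    refine Δ.κ_nd _ fun s => ?_
    rw [← smul_eq_mul, ← map_smul, ← hsep ⟨θ, hθ⟩ (s • v)]
    generalize s • v = v
    simp only [LinearMap.add_apply, LinearMap.sum_apply, LinearMap.smul_apply, op_smul_eq_mul,
      map_add, map_sum, hT', map_smul, smul_eq_mul, hξ']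
    rw [Δ.κ_comm]
    congr 1
    refine Finset.sum_congr rfl fun t _ => ?_
    rw [Δ.κ_comm, Δ.κ_comm (τ.symm _), ← Δ.κ_zpow (-(ht w (d + r) - ht w d)) (θ.2.2 t * _)]
    change _ + Δ.κ (τ _) = _
    rw [map_mul τ, AlgEquiv.apply_symm_apply]
  let y : Option (φ.ι ⊕ φ.ι) → V →ₗ[S] S := fun m => m.elim ξ₀ (Sum.elim ξ ξ')
  obtain ⟨c, hc⟩ := exists_section y
  let ω := Sum.elim y fun m => sh (y m)
  obtain ⟨c', hc'⟩ := exists_section ω
  obtain ⟨k, hk⟩ := exists_theta Δ hw hb hY H φ hi ⟨x, rfl, rfl⟩ hz hφ ω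
  let e₀ : (V →ₗ[S] S) →ₗ[Sᵐᵒᵖ] S :=
    { toFun := fun ζ => ζ (cls x)
      map_add' := fun _ _ => rfl
      map_smul' := fun _ _ => rfl }
  let k₁ : φ.ι → (V →ₗ[S] S) →ₗ[Sᵐᵒᵖ] S := fun t =>
    { toFun := fun ζ => -∑ l, k t l * c' ζ l
      map_add' := fun _ _ => by
        simp only [map_add, Pi.add_apply, mul_add, Finset.sum_add_distrib, neg_add]
      map_smul' := fun s _ => by simp [Finset.sum_mul, mul_assoc] }
  let k₂ : φ.ι → (V →ₗ[S] S) →ₗ[Sᵐᵒᵖ] S := fun t =>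
    { toFun := fun ζ => τ.symm (-k₁ t (sh ζ))
      map_add' := fun ζ ζ' => by
        rw [show sh (ζ + ζ') = sh ζ + sh ζ' by ext; simp [hsh], map_add, neg_add, map_add]
      map_smul' := fun s ζ => by
        rw [show sh (s • ζ) = op (τ s.unop) • sh ζ by ext; simp [hsh], map_smul]
        simp }
  have hm : ∀ m, op (e₀ (y m)) • y none + ∑ t, (op (k₁ t (y m)) • y (some (.inl t)) +
      op (k₂ t (y m)) • y (some (.inr t))) = 0 := fun m => by
    have := hid _ (hk (c' (ω (.inl m))) (c' (ω (.inr m))) fun v => by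
      rw [hc', hc']
      exact congrArg (fun v => τ (y m v)) (T.symm_apply_apply v).symm)
    rw [hc'] at this
    simp only [k₂, k₁, LinearMap.coe_mk, AddHom.coe_mk, neg_neg]
    exact this
  have := Finset.sum_eq_zero (s := Finset.univ) fun m _ =>
    (congrArg (fun ζ => Δ.κ (c ζ m)) (hm m)).trans (by simp)
  simp only [map_add, map_sum, Pi.add_apply, Finset.sum_apply, Finset.sum_add_distrib] at this
  rw [Finset.sum_comm, Finset.sum_comm (f := fun m t => Δ.κ (c (op (k₂ t (y m)) • _) m))] at this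
  simp only [trace_eq Δ y c hc] at this
  rw [← Finset.sum_add_distrib, Finset.sum_eq_zero, add_zero] at this
  · exact hne this
  intro t _
  have e1 : sh (ξ' t) = ξ t := by ext; simp [hsh, hξ']
  change Δ.κ (k₁ t (ξ t)) + Δ.κ (τ.symm (-k₁ t (sh (ξ' t)))) = 0
  rw [e1, ← Δ.κ_zpow (-(ht w (d + r) - ht w d)) (τ.symm _)]
  change _ + Δ.κ (τ _) = _
  rw [AlgEquiv.apply_symm_apply, map_neg, add_neg_cancel]

end Pool.Agent.Lib.MP_c13fce_lc
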