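import Pool.Agent.Lib.MP_c13fce_lc.Defs4

/-! Regularity of matrices up to scalars. -/

namespace Pool.Agent.Lib.MP_c13fce_lc

open scoped BigOperators
open Matrix

namespace GlobR

theorem exists_ginv_field {K V W : Type} [Field K] [AddCommGroup V] [Module K V]
    [AddCommGroup W] [Module K W] (A : V →ₗ[K] W) : ∃ G : W →ₗ[K] V, A ∘ₗ G ∘ₗ A = A := by
  obtain ⟨s, hs⟩ := A.rangeRestrict.exists_rightInverse_of_surjective A.range_rangeRestrict
  obtain ⟨G, hG⟩ := LinearMap.exists_extend s
  refine ⟨G, LinearMap.ext fun v => ?_⟩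
  have h1 : G (A v) = s (A.rangeRestrict v) := LinearMap.congr_fun hG (A.rangeRestrict v)
  have h2 := congrArg Subtype.val (LinearMap.congr_fun hs (A.rangeRestrict v))
  rw [LinearMap.comp_apply, LinearMap.comp_apply, h1]
  exact h2

theorem exists_ginv_mat {D a b : Type} [CommRing D] [IsDomain D] [Fintype a] [Fintype b]
    (A : Matrix a b D) : ∃ (G : Matrix b a D) (n : D), n ≠ 0 ∧ A * G * A = n • A := by
  classical
  let K := FractionRing D
  let φ := algebraMap D K
  have hφ : Function.Injective φ := IsFractionRing.injective D K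
  obtain ⟨G, hG⟩ := exists_ginv_field (Matrix.toLin' (A.map φ))
  have hG' : A.map φ * LinearMap.toMatrix' G * A.map φ = A.map φ := by
    have := congrArg LinearMap.toMatrix' hG
    rwa [LinearMap.toMatrix'_comp, LinearMap.toMatrix'_comp, LinearMap.toMatrix'_toLin',
      ← Matrix.mul_assoc] at this
  obtain ⟨n, hn⟩ := IsLocalization.exist_integer_multiples_of_finite (nonZeroDivisors D)
    (fun p : b × a => LinearMap.toMatrix' G p.1 p.2)
  choose G' hG'' using hn
  refine ⟨Matrix.of fun i j => G' (i, j), n, nonZeroDivisors.coe_ne_zero n, ?_⟩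
  have e : (Matrix.of fun i j => G' (i, j)).map φ = φ n • LinearMap.toMatrix' G := by
    ext i j
    rw [Matrix.map_apply, Matrix.of_apply, Matrix.smul_apply, smul_eq_mul, ← Algebra.smul_def]
    exact hG'' (i, j)
  refine Matrix.map_injective hφ ?_
  change (A * (Matrix.of fun i j => G' (i, j)) * A).map φ = ((n : D) • A).map φ
  rw [Matrix.map_mul, Matrix.map_mul, e, Matrix.mul_smul, Matrix.smul_mul, hG']
  ext i j
  simp

theorem exists_ginv {D V W : Type} [CommRing D] [IsDomain D] [AddCommGroup V] [Module D V]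
    [AddCommGroup W] [Module D W] [Module.Free D V] [Module.Finite D V] [Module.Free D W]
    [Module.Finite D W] (A : V →ₗ[D] W) :
    ∃ (G : W →ₗ[D] V) (n : D), n ≠ 0 ∧ ∀ v, A (G (A v)) = n • A v := by
  classical
  let bV := Module.finBasis D V
  let bW := Module.finBasis D W
  obtain ⟨G, n, hn, h⟩ := exists_ginv_mat (LinearMap.toMatrix bV bW A)
  refine ⟨Matrix.toLin bW bV G, n, hn, fun v => ?_⟩
  have := congrArg (Matrix.toLin bV bW) h
  rw [Matrix.toLin_mul bV bW bW, Matrix.toLin_mul bW bV bW, map_smul,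
    Matrix.toLin_toMatrix] at this
  exact LinearMap.congr_fun this v

end GlobR

open GlobR

/-- Regularity by averaging: `R` is spanned over the central `D` by a finite family of units which
is a group modulo central scalars. -/
theorem reg_of_average (D R : Type) [CommRing D] [IsDomain D] [Ring R] [Algebra D R]
    [Module.Free D R] [Module.Finite D R] (Γ : Type) [Fintype Γ] (g : Γ → Rˣ)
    (hspan : Submodule.span D (Set.range fun γ => (g γ : R)) = ⊤)
    (hmul : ∀ γ, ∃ e : Γ ≃ Γ, ∀ δ, ∃ d : Dˣ, (g δ * g γ : R) = (d : D) • (g (e δ) : R))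
    (hcard : (Fintype.card Γ : D) ≠ 0) : Reg D R := by
  classical
  intro ι κ _ _ H
  let A : (κ → R) →ₗ[D] (ι → R) :=
    { toFun v := H *ᵥ v
      map_add' := Matrix.mulVec_add H
      map_smul' := fun d v => Matrix.mulVec_smul H d v }
  obtain ⟨G, n, hn, hG⟩ := exists_ginv A
  have hA : ∀ (v : κ → R) (r : R), (fun i => A v i * r) = A fun k => v k * r := fun v r => by
    funext i
    change (∑ k, H i k * v k) * r = ∑ k, H i k * (v k * r)
    simp only [Finset.sum_mul, mul_assoc]
  let G' : (ι → R) → κ → R := fun v k =>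
    ∑ δ, G (fun i => v i * ((g δ)⁻¹ : Rˣ)) k * g δ
  have hadd : ∀ v w, G' (v + w) = G' v + G' w := fun v w => by
    funext k
    simp only [G', Pi.add_apply, ← Finset.sum_add_distrib, ← add_mul]
    refine Finset.sum_congr rfl fun δ _ => ?_
    rw [← Pi.add_apply (G _), ← map_add]
    refine congrArg (fun z => G z k * g δ) (funext fun i => ?_)
    simp only [Pi.add_apply, add_mul]
  have hsmul : ∀ (d : D) v, G' (d • v) = d • G' v := fun d v => by
    funext k
    simp only [G', Pi.smul_apply, Finset.smul_sum]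
    refine Finset.sum_congr rfl fun δ _ => ?_
    rw [← smul_mul_assoc, ← Pi.smul_apply d (G _), ← map_smul]
    refine congrArg (fun z => G z k * g δ) (funext fun i => ?_)
    simp only [Pi.smul_apply, smul_mul_assoc]
  let L : (ι → R) →ₗ[D] (κ → R) := { toFun := G', map_add' := hadd, map_smul' := hsmul }
  have hgen : ∀ (v : ι → R) (γ : Γ), L (fun i => v i * g γ) = fun k => L v k * g γ := by
    intro v γ
    obtain ⟨e, he⟩ := hmul γ
    funext k
    change (∑ δ, G (fun i => v i * g γ * ((g δ)⁻¹ : Rˣ)) k * g δ) =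
      (∑ δ, G (fun i => v i * ((g δ)⁻¹ : Rˣ)) k * g δ) * g γ
    rw [← e.sum_comp, Finset.sum_mul]
    refine Finset.sum_congr rfl fun δ _ => ?_
    obtain ⟨d, hd⟩ := he δ
    have h1 : (g γ : R) * ((g (e δ))⁻¹ : Rˣ) = (d : D) • (((g δ)⁻¹ : Rˣ) : R) := by
      have h2 : (g γ : R) = ((g δ)⁻¹ : Rˣ) * ((d : D) • (g (e δ) : R)) := by
        rw [← hd, ← mul_assoc, Units.inv_mul, one_mul]
      rw [h2, mul_smul_comm, smul_mul_assoc, mul_assoc, Units.mul_inv, mul_one]
    have h3 : (fun i => v i * g γ * ((g (e δ))⁻¹ : Rˣ)) =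
        (d : D) • fun i => v i * ((g δ)⁻¹ : Rˣ) := by
      funext i
      rw [mul_assoc, h1, mul_smul_comm, Pi.smul_apply]
    rw [h3, map_smul, Pi.smul_apply, mul_assoc, hd, smul_mul_assoc, mul_smul_comm]
  have hright : ∀ (v : ι → R) (r : R), L (fun i => v i * r) = fun k => L v k * r := by
    intro v r
    have hr : r ∈ Submodule.span D (Set.range fun γ => (g γ : R)) := hspan ▸ Submodule.mem_top
    induction hr using Submodule.span_induction with
    | mem x hx =>
      obtain ⟨γ, rfl⟩ := hx
      exact hgen v γ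
    | zero =>
      simp only [mul_zero]
      exact map_zero L
    | add x y _ _ hx hy =>
      simp only [mul_add]
      exact (map_add L _ _).trans (congrArg₂ (· + ·) hx hy)
    | smul d x _ hx =>
      simp only [mul_smul_comm]
      exact (map_smul L d _).trans (congrArg (d • ·) hx)
  let Y : Matrix κ ι R := Matrix.of fun k i => L (Pi.single i 1) k
  have hY : ∀ v, Y *ᵥ v = L v := fun v => by
    have e : v = ∑ i, fun j => (Pi.single i (1 : R) : ι → R) j * v i := by
      funext j
      rw [Finset.sum_apply, Finset.sum_eq_single j]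
      · simp
      · intro i _ hij
        simp [Pi.single_eq_of_ne hij.symm]
      · simp
    conv_rhs => rw [e, map_sum]
    funext k
    simp only [hright, Finset.sum_apply]
    rfl
  have key : ∀ v, A (L (A v)) = ((Fintype.card Γ : D) * n) • A v := fun v => by
    have e : L (A v) = ∑ δ, fun k => G (A fun k => v k * ((g δ)⁻¹ : Rˣ)) k * g δ := by
      funext k
      rw [Finset.sum_apply]
      refine Finset.sum_congr rfl fun δ _ => ?_
      rw [← hA]
    rw [e, map_sum]
    have e2 : ∀ δ, A (fun k => G (A fun k => v k * ((g δ)⁻¹ : Rˣ)) k * g δ) = n • A v := by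
      intro δ
      rw [← hA, hG, ← hA]
      funext i
      simp only [Pi.smul_apply, smul_mul_assoc, mul_assoc, Units.inv_mul, mul_one]
    simp only [e2, Finset.sum_const, Finset.card_univ]
    rw [mul_smul, Nat.cast_smul_eq_nsmul]
  refine ⟨Y, (Fintype.card Γ : D) * n, mul_ne_zero hcard hn, ?_⟩
  ext i k
  have h1 := congrFun (key (Pi.single k 1)) i
  rw [← hY] at h1
  change (H *ᵥ (Y *ᵥ (H *ᵥ Pi.single k 1))) i =
    ((Fintype.card Γ : D) * n) • (H *ᵥ Pi.single k 1) i at h1
  rw [Matrix.mulVec_mulVec, Matrix.mulVec_mulVec, Matrix.mulVec_single_one,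
    Matrix.mulVec_single_one] at h1
  exact h1

theorem Reg.of_surjective {D R R' : Type} [CommRing D] [Ring R] [Algebra D R] [Ring R']
    [Algebra D R'] (f : R →ₐ[D] R') (hf : Function.Surjective f) (h : Reg D R) : Reg D R' := by
  intro ι κ _ _ H'
  choose H hH using fun i k => hf (H' i k)
  obtain ⟨Y, n, hn, hY⟩ := h ι κ (Matrix.of H)
  have e : (Matrix.of H).map (f : R →+* R') = H' := by
    ext i k
    exact hH i k
  refine ⟨Y.map (f : R →+* R'), n, hn, ?_⟩
  rw [← e, ← Matrix.map_mul, ← Matrix.map_mul, hY]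
  ext i k
  simp

end Pool.Agent.Lib.MP_c13fce_lc
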