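import Pool.Agent.Lib.MP_c13fce_lc.GlobNice
import Pool.Agent.Lib.MP_c13fce_lc.GlobReg

/-! From local to global. -/

namespace Pool.Agent.Lib.MP_c13fce_lc

open scoped BigOperators
open TensorProduct

namespace GlobM

variable {D R : Type} [CommRing D] [Ring R] [Algebra D R]

theorem asmul_comm {M : Type} [AddCommGroup M] [Module R M] (d : D) (r : R) (x : M) :
    r • algebraMap D R d • x = algebraMap D R d • r • x := by
  rw [smul_smul, smul_smul, Algebra.commutes]

theorem asmul_mul {M : Type} [AddCommGroup M] [Module R M] (d e : D) (x : M) :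
    algebraMap D R (d * e) • x = algebraMap D R d • algebraMap D R e • x := by
  rw [map_mul, mul_smul]

theorem asmul_mem {M : Type} [AddCommGroup M] [Module R M] (φ : PP R) (d : D) {x : M}
    (hx : x ∈ φ.set M) : algebraMap D R d • x ∈ φ.set M :=
  φ.smul_mem_of_central (fun r => (Algebra.commutes d r).symm) hx

theorem mem_of_coprime {M : Type} [AddCommGroup M] [Module R M] (φ : PP R) {u v : D}
    (h : IsCoprime u v) {x : M} (hu : algebraMap D R u • x ∈ φ.set M)
    (hv : algebraMap D R v • x ∈ φ.set M) : x ∈ φ.set M := by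
  obtain ⟨a, b, hab⟩ := h
  have := add_mem (asmul_mem φ a hu) (asmul_mem φ b hv)
  rwa [← asmul_mul, ← asmul_mul, ← add_smul, ← map_add, hab, map_one, one_smul] at this

/-- `j` is a localisation map at `S`. -/
structure IsLoc (S : Submonoid D) {M M' : Type} [AddCommGroup M] [Module R M] [AddCommGroup M']
    [Module R M'] (j : M →ₗ[R] M') : Prop where
  bij : ∀ s ∈ S, Function.Bijective fun y : M' => algebraMap D R s • y
  surj : ∀ y, ∃ s ∈ S, ∃ x, algebraMap D R s • y = j x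
  ker : ∀ x, j x = 0 → ∃ s ∈ S, algebraMap D R s • x = 0

theorem exists_loc (S : Submonoid D) (M : Type) [AddCommGroup M] [Module R M] :
    ∃ (M' : Type) (_ : AddCommGroup M') (_ : Module R M') (j : M →ₗ[R] M'), IsLoc S j := by
  let _ : Module D M := Module.compHom M (algebraMap D R)
  have hd : ∀ (d : D) (x : M), d • x = algebraMap D R d • x := fun _ _ => rfl
  have : SMulCommClass D R M := ⟨fun d r x => by rw [hd, hd, asmul_comm]⟩
  let A := Localization S
  let j : M →ₗ[R] M ⊗[D] A :=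
    { toFun x := x ⊗ₜ 1
      map_add' x y := TensorProduct.add_tmul x y 1
      map_smul' r x := (TensorProduct.smul_tmul' r x 1).symm }
  let j' : M →ₗ[D] M ⊗[D] A := (TensorProduct.comm D A M).toLinearMap ∘ₗ TensorProduct.mk D A M 1
  have hl : IsLocalizedModule S j' := IsLocalizedModule.of_linearEquiv S _ _
  have hj : ∀ x, j' x = j x := fun _ => rfl
  have hd' : ∀ (d : D) (y : M ⊗[D] A), algebraMap D R d • y = d • y := fun d y => by
    induction y using TensorProduct.induction_on with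
    | zero => rw [smul_zero, smul_zero]
    | tmul x a => rw [TensorProduct.smul_tmul', TensorProduct.smul_tmul', hd]
    | add y z hy hz => rw [smul_add, smul_add, hy, hz]
  refine ⟨M ⊗[D] A, inferInstance, inferInstance, j, fun s hs => ?_, fun y => ?_, fun x hx => ?_⟩
  · simp only [hd']
    exact (Module.End.isUnit_iff _).1 (hl.map_units ⟨s, hs⟩)
  · obtain ⟨⟨x, s⟩, h⟩ := hl.surj y
    exact ⟨s, s.2, x, by rw [hd', ← hj]; exact h⟩
  · obtain ⟨s, hs⟩ := (IsLocalizedModule.eq_zero_iff S j').1 ((hj x).trans hx)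
    exact ⟨s, s.2, hs⟩

section loc
variable {S : Submonoid D} {M M' : Type} [AddCommGroup M] [Module R M] [AddCommGroup M']
  [Module R M'] {j : M →ₗ[R] M'}

theorem IsLoc.cancel (h : IsLoc S j) (φ : PP R) {s : D} (hs : s ∈ S) {y : M'}
    (hy : algebraMap D R s • y ∈ φ.set M') : y ∈ φ.set M' := by
  obtain ⟨z, hz⟩ := hy
  choose z' hz' using fun k => (h.bij s hs).2 (z k)
  refine ⟨z', fun i => (h.bij s hs).1 ?_⟩
  have := hz i
  simp only [← hz', asmul_comm s] at this
  simpa only [smul_add, Finset.smul_sum, smul_zero] using this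

theorem IsLoc.common (h : IsLoc S j) {κ : Type} [Fintype κ] (y : κ → M') :
    ∃ s ∈ S, ∃ x : κ → M, ∀ k, algebraMap D R s • y k = j (x k) := by
  classical
  choose s hs x hx using fun k => h.surj (y k)
  refine ⟨∏ k, s k, prod_mem fun k _ => hs k,
    fun k => algebraMap D R (∏ l ∈ Finset.univ.erase k, s l) • x k, fun k => ?_⟩
  rw [map_smul, ← hx, ← asmul_mul, Finset.prod_erase_mul _ _ (Finset.mem_univ k)]

theorem IsLoc.common_ker (h : IsLoc S j) {κ : Type} [Fintype κ] (x : κ → M)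
    (hx : ∀ k, j (x k) = 0) : ∃ s ∈ S, ∀ k, algebraMap D R s • x k = 0 := by
  classical
  choose s hs hs' using fun k => h.ker (x k) (hx k)
  refine ⟨∏ k, s k, prod_mem fun k _ => hs k, fun k => ?_⟩
  rw [← Finset.prod_erase_mul _ _ (Finset.mem_univ k), asmul_mul, hs', smul_zero]

theorem IsLoc.mem_iff (h : IsLoc S j) (φ : PP R) (x : M) :
    j x ∈ φ.set M' ↔ ∃ s ∈ S, algebraMap D R s • x ∈ φ.set M := by
  constructor
  · rintro ⟨y, hy⟩
    obtain ⟨s, hs, z, hz⟩ := h.common y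
    obtain ⟨t, ht, ht'⟩ := h.common_ker
      (fun i => φ.h i • algebraMap D R s • x + ∑ k, φ.H i k • z k) fun i => by
        have := congrArg (algebraMap D R s • ·) (hy i)
        simp only [smul_add, Finset.smul_sum, smul_zero, ← asmul_comm s, hz] at this
        simpa only [map_add, map_sum, map_smul] using this
    refine ⟨t * s, mul_mem ht hs, fun k => algebraMap D R t • z k, fun i => ?_⟩
    have := ht' i
    simp only [smul_add, Finset.smul_sum, ← asmul_comm t] at this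
    rw [mul_comm, asmul_mul]
    exact this
  · rintro ⟨s, hs, hx⟩
    refine h.cancel φ hs ?_
    rw [← map_smul]
    exact φ.map_mem j hx

theorem IsLoc.lift (h : IsLoc S j) (φ : PP R) {y : M'} (hy : y ∈ φ.set M') :
    ∃ s ∈ S, ∃ x ∈ φ.set M, algebraMap D R s • y = j x := by
  obtain ⟨s, hs, x, hx⟩ := h.surj y
  obtain ⟨t, ht, hx'⟩ := (h.mem_iff φ x).1 (hx ▸ asmul_mem φ s hy)
  exact ⟨t * s, mul_mem ht hs, _, hx', by rw [asmul_mul, hx, map_smul]⟩

/-- The elements of `φ` which `u` sends into `ψ`. -/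
def mid (φ ψ : PP R) (M : Type) [AddCommGroup M] [Module R M] (u : D) : AddSubgroup M :=
  φ.set M ⊓ (ψ.set M).comap (DistribSMul.toAddMonoidHom M (algebraMap D R u))

theorem mem_mid {φ ψ : PP R} {u : D} {x : M} :
    x ∈ mid φ ψ M u ↔ x ∈ φ.set M ∧ algebraMap D R u • x ∈ ψ.set M := Iff.rfl

variable {φ ψ : PP R} {u v : D}

theorem IsLoc.kill (h : IsLoc S j) (hv : v ∈ S)
    (hk : ∀ x ∈ φ.set M, algebraMap D R (u * v) • x ∈ ψ.set M) {y : M'} (hy : y ∈ φ.set M') :
    algebraMap D R u • y ∈ ψ.set M' := by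
  obtain ⟨s, hs, x, hx, e⟩ := h.lift φ hy
  refine h.cancel ψ (mul_mem hv hs) ?_
  rw [← asmul_mul, show v * s * u = u * v * s by ring, asmul_mul, e, ← map_smul]
  exact ψ.map_mem j (hk x hx)

theorem IsLoc.ind_low (h : IsLoc S j) (hv : v ∈ S) (hS : ∀ s ∈ S, IsCoprime s u)
    (hk : ∀ x ∈ φ.set M, algebraMap D R (u * v) • x ∈ ψ.set M) :
    eidx (ψ.set M) (mid φ ψ M u) = ind φ ψ M' := by
  refine eidx_eq_of_map j.toAddMonoidHom (fun x hx => φ.map_mem j hx.1)
    (fun x hx => ⟨fun hx' => ?_, fun hx' => ψ.map_mem j hx'⟩) fun y hy => ?_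
  · obtain ⟨s, hs, hx''⟩ := (h.mem_iff ψ x).1 hx'
    exact mem_of_coprime ψ (hS s hs) hx'' hx.2
  · obtain ⟨s, hs, x, hx, e⟩ := h.lift φ hy
    obtain ⟨a, b, hab⟩ := hS _ (mul_mem hv hs)
    refine ⟨algebraMap D R (a * v) • x, mem_mid.2 ⟨asmul_mem φ _ hx, ?_⟩, ?_⟩
    · rw [← asmul_mul, show u * (a * v) = a * (u * v) by ring, asmul_mul]
      exact asmul_mem ψ a (hk x hx)
    · have e2 : j (algebraMap D R (a * v) • x) - y = -(algebraMap D R b • algebraMap D R u • y) := by
        rw [map_smul, ← e, ← asmul_mul, ← asmul_mul, eq_neg_iff_add_eq_zero, sub_add_eq_add_sub,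
          ← add_smul, ← map_add, mul_assoc, hab, map_one, one_smul, sub_self]
      change j _ - y ∈ _
      rw [e2]
      exact neg_mem (asmul_mem ψ b (h.kill hv hk hy))

theorem IsLoc.ind_high (h : IsLoc S j) (hv : v ∈ S) (hS : ∀ s ∈ S, IsCoprime s u)
    (hk : ∀ x ∈ φ.set M, algebraMap D R (u * v) • x ∈ ψ.set M) :
    eidx (mid φ ψ M v) (φ.set M) = ind φ ψ M' := by
  refine eidx_eq_of_map j.toAddMonoidHom (fun x hx => φ.map_mem j hx)
    (fun x hx => ⟨fun hx' => ⟨hx, ?_⟩, fun hx' => (h.mem_iff ψ x).2 ⟨v, hv, hx'.2⟩⟩)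
    fun y hy => ?_
  · obtain ⟨s, hs, hx''⟩ := (h.mem_iff ψ x).1 hx'
    refine mem_of_coprime ψ (hS s hs) ?_ ?_
    · change algebraMap D R s • algebraMap D R v • x ∈ _
      rw [asmul_comm]
      exact asmul_mem ψ v hx''
    · change algebraMap D R u • algebraMap D R v • x ∈ _
      rw [← asmul_mul]
      exact hk x hx
  · obtain ⟨s, hs, x, hx, e⟩ := h.lift φ hy
    obtain ⟨a, b, hab⟩ := hS _ hs
    refine ⟨algebraMap D R a • x, asmul_mem φ _ hx, ?_⟩
    have e2 : j (algebraMap D R a • x) - y = -(algebraMap D R b • algebraMap D R u • y) := by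
      rw [map_smul, ← e, ← asmul_mul, ← asmul_mul, eq_neg_iff_add_eq_zero, sub_add_eq_add_sub,
        ← add_smul, ← map_add, hab, map_one, one_smul, sub_self]
    change j _ - y ∈ _
    rw [e2]
    exact neg_mem (asmul_mem ψ b (h.kill hv hk hy))

end loc

/-- The elements coprime to `u`. -/
def cop (u : D) : Submonoid D where
  carrier := {s | IsCoprime s u}
  one_mem' := isCoprime_one_left
  mul_mem' := fun ha hb => IsCoprime.mul_left ha hb

theorem bounded_match [IsDomain D] [IsPrincipalIdealRing D]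
    (𝒩 : ModuleCat.{0} R → Prop) (ι : Type) (φ ψ : ι → PP R) (hle : ∀ i, (ψ i).Le (φ i))
    (B : ℕ)
    (hloc : ∀ π : D, Irreducible π → ∀ (M : Type) [AddCommGroup M] [Module R M],
      (∀ d : D, IsCoprime d π → Function.Bijective fun x : M => algebraMap D R d • x) →
      (∃ k : ℕ, ∀ i, ∀ x ∈ (φ i).set M, algebraMap D R (π ^ k) • x ∈ (ψ i).set M) →
      ∃ Cs, (∀ C ∈ Cs, 𝒩 C) ∧ Match B φ ψ M Cs) (n : D) :
    n ≠ 0 → ∀ (M : Type) [AddCommGroup M] [Module R M],
      (∀ i, ∀ x ∈ (φ i).set M, algebraMap D R n • x ∈ (ψ i).set M) →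
      ∃ Cs, (∀ C ∈ Cs, 𝒩 C) ∧ Match B φ ψ M Cs := by
  induction n using UniqueFactorizationMonoid.induction_on_coprime with
  | h0 => exact fun h => absurd rfl h
  | @h1 u hu =>
    intro _ M _ _ hk
    refine ⟨[], by simp, fun i => ?_⟩
    have : ind (φ i) (ψ i) M = 1 := eidx_eq_one.2 fun x hx => by
      obtain ⟨w, hw⟩ := hu.exists_left_inv
      have := asmul_mem (ψ i) w (hk i x hx)
      rwa [← asmul_mul, hw, map_one, one_smul] at this
    rw [this]
    rfl
  | @hpr p k hp =>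
    intro _ M _ _ hk
    obtain ⟨M', _, _, j, hj⟩ := exists_loc (R := R) (cop p) M
    have hk' : ∀ i, ∀ x ∈ (φ i).set M, algebraMap D R (p ^ k * 1) • x ∈ (ψ i).set M := by
      simpa only [mul_one] using hk
    obtain ⟨Cs, hCs, hm⟩ := hloc p hp.irreducible M' (fun d hd => hj.bij d hd)
      ⟨k, fun i x hx => hj.kill (one_mem _) (hk' i) hx⟩
    refine ⟨Cs, hCs, fun i => ?_⟩
    rw [← hm i, ← hj.ind_low (one_mem _) (fun s hs => IsCoprime.pow_right hs) (hk' i)]
    have : mid (φ i) (ψ i) M (p ^ k) = (φ i).set M := inf_eq_left.2 (hk i)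
    rw [this]
    rfl
  | @hcp u v huv hu hv =>
    intro h0 M _ _ hk
    have hc : IsCoprime u v := isRelPrime_iff_isCoprime.1 huv
    obtain ⟨M₁, _, _, j₁, hj₁⟩ := exists_loc (R := R) (cop u) M
    obtain ⟨M₂, _, _, j₂, hj₂⟩ := exists_loc (R := R) (cop v) M
    have hk' : ∀ i, ∀ x ∈ (φ i).set M, algebraMap D R (v * u) • x ∈ (ψ i).set M := by
      simpa only [mul_comm] using hk
    obtain ⟨C₁, hC₁, hm₁⟩ := hu (left_ne_zero_of_mul h0) M₁
      fun i x hx => hj₁.kill hc.symm (hk i) hx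
    obtain ⟨C₂, hC₂, hm₂⟩ := hv (right_ne_zero_of_mul h0) M₂
      fun i x hx => hj₂.kill hc (hk' i) hx
    refine ⟨C₁ ++ C₂, fun C hC => (List.mem_append.1 hC).elim (hC₁ C) (hC₂ C), fun i => ?_⟩
    rw [List.map_append, List.prod_append]
    have e : ind (φ i) (ψ i) M = ind (φ i) (ψ i) M₁ * ind (φ i) (ψ i) M₂ := by
      rw [← hj₁.ind_low hc.symm (fun s hs => hs) (hk i),
        ← hj₂.ind_high hc (fun s hs => hs) (hk' i)]
      exact eidx_mul (fun x hx => mem_mid.2 ⟨hle i M hx, asmul_mem _ _ hx⟩) inf_le_left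
    rw [e]
    exact min_mul_congr (one_le_ind _ _) (one_le_list_prod _ _ fun _ => one_le_ind _ _)
      (one_le_ind _ _) (one_le_list_prod _ _ fun _ => one_le_ind _ _) (hm₁ i) (hm₂ i)

theorem exists_delta [IsDomain D] (hreg : Reg D R) (φ ψ : PP R) :
    ∃ (δ : R) (n : D), n ≠ 0 ∧ ∀ (N : Type) [AddCommGroup N] [Module R N] (m : D),
      ((∀ x ∈ φ.set N, algebraMap D R m • x ∈ ψ.set N) →
        ∀ x : N, algebraMap D R m • δ • x = 0) ∧
      ((∀ x : N, algebraMap D R m • δ • x = 0) →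
        ∀ x ∈ φ.set N, algebraMap D R (m * n) • x ∈ ψ.set N) := by
  obtain ⟨E, n, hn, hE⟩ := exists_E hreg φ
  obtain ⟨E', n', hn', hE'⟩ := exists_E hreg ψ
  refine ⟨(algebraMap D R n' - E') * E, n * n', mul_ne_zero hn hn', fun N _ _ m =>
    ⟨fun h x => ?_, fun h x hx => ?_⟩⟩
  · have := (hE' N).2 _ (h _ ((hE N).1 x))
    rw [mul_smul, ← asmul_comm, sub_smul, this, sub_self]
  · have := h x
    rw [mul_smul, (hE N).2 x hx, ← asmul_comm, sub_smul, sub_eq_zero] at this
    rw [show m * (n * n') = n' * (m * n) by ring, asmul_mul, asmul_mul, this]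
    exact (hE' N).1 _

theorem infinite_of_finQ (D : Type) [CommRing D] [IsDomain D] [FinQ D] : Infinite D := by
  obtain ⟨q, hq, hu, -⟩ := FinQ.jac (1 : D) one_ne_zero
  by_contra h
  have : Finite D := not_infinite_iff_finite.1 h
  obtain ⟨w, hw⟩ := (Finite.injective_iff_surjective.1 (mul_right_injective₀ hq)) 1
  exact hu (IsUnit.of_mul_eq_one w hw)

theorem ind_eq_top [IsDomain D] [FinQ D] (φ ψ : PP R) (M : Type) [AddCommGroup M] [Module R M]
    (h : ¬ ∃ m : D, m ≠ 0 ∧ ∀ x ∈ φ.set M, algebraMap D R m • x ∈ ψ.set M) :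
    ind φ ψ M = ⊤ := by
  by_contra hne
  have hfin := eidx_ne_top_iff.1 hne
  have := infinite_of_finQ D
  let F : D → (φ.set M ⧸ (ψ.set M).addSubgroupOf (φ.set M)) →
      (φ.set M ⧸ (ψ.set M).addSubgroupOf (φ.set M)) := fun d z =>
    ((⟨algebraMap D R d • (z.out : M), asmul_mem φ d z.out.2⟩ : φ.set M) : _ ⧸ _)
  obtain ⟨d, e, hde, hF⟩ := Finite.exists_ne_map_eq_of_infinite F
  refine h ⟨d - e, sub_ne_zero.2 hde, fun x hx => ?_⟩
  let z : φ.set M ⧸ (ψ.set M).addSubgroupOf (φ.set M) := ((⟨x, hx⟩ : φ.set M) : _ ⧸ _)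
  have h1 : algebraMap D R d • (z.out : M) - algebraMap D R e • (z.out : M) ∈ ψ.set M :=
    (QuotientAddGroup.eq_iff_sub_mem (N := (ψ.set M).addSubgroupOf (φ.set M))).1 (congrFun hF z)
  have h2 : (z.out : M) - x ∈ ψ.set M :=
    (QuotientAddGroup.eq_iff_sub_mem (N := (ψ.set M).addSubgroupOf (φ.set M))).1
      (QuotientAddGroup.out_eq' z)
  have h3 := sub_mem h1 (asmul_mem ψ (d - e) h2)
  rw [← sub_smul, ← map_sub, smul_sub, sub_sub_cancel] at h3
  exact h3

/-- The elements acting as zero after multiplication by a nonzero scalar. -/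
def tors (D : Type) [CommRing D] [IsDomain D] [Algebra D R] (M : Type) [AddCommGroup M]
    [Module R M] : Submodule R R where
  carrier := {r | ∃ m : D, m ≠ 0 ∧ ∀ x : M, algebraMap D R m • r • x = 0}
  zero_mem' := ⟨1, one_ne_zero, fun x => by rw [zero_smul, smul_zero]⟩
  add_mem' := by
    rintro r r' ⟨m, hm, h⟩ ⟨m', hm', h'⟩
    refine ⟨m * m', mul_ne_zero hm hm', fun x => ?_⟩
    rw [add_smul, smul_add, asmul_mul m m' (r' • x), h', mul_comm, asmul_mul, h, smul_zero,
      smul_zero, add_zero]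
  smul_mem' := by
    rintro c r ⟨m, hm, h⟩
    exact ⟨m, hm, fun x => by rw [smul_eq_mul, mul_smul, ← asmul_comm, h, smul_zero]⟩

theorem krull [IsDomain D] [IsPrincipalIdealRing D] [Module.Finite D R] (M : Type)
    [AddCommGroup M] [Module R M] {q : D} (hq : ¬ IsUnit q) {δ : R} (hδ : δ ∉ tors D M) :
    ∀ᶠ k in Filter.atTop, δ ∉ tors D M ⊔ Submodule.span R {algebraMap D R (q ^ k)} := by
  have h0 : ∃ k, δ ∉ tors D M ⊔ Submodule.span R {algebraMap D R (q ^ k)} := by
    by_contra hall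
    push Not at hall
    have hmem : (Submodule.Quotient.mk δ : R ⧸ tors D M) ∈
        (⨅ i : ℕ, (Ideal.span {q}) ^ i • ⊤ : Submodule D (R ⧸ tors D M)) := by
      refine (Submodule.mem_iInf _).2 fun k => ?_
      obtain ⟨u, hu, v, hv, e⟩ := Submodule.mem_sup.1 (hall k)
      obtain ⟨c, rfl⟩ := Submodule.mem_span_singleton.1 hv
      have : (Submodule.Quotient.mk δ : R ⧸ tors D M) = q ^ k • Submodule.Quotient.mk c := by
        rw [← Submodule.Quotient.mk_smul, Submodule.Quotient.eq, ← e, smul_eq_mul,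
          ← Algebra.commutes, ← Algebra.smul_def, add_sub_cancel_right]
        exact hu
      rw [this]
      exact Submodule.smul_mem_smul (Ideal.pow_mem_pow (Ideal.mem_span_singleton_self q) k)
        Submodule.mem_top
    obtain ⟨⟨r, hr⟩, hr'⟩ := (Ideal.mem_iInf_smul_pow_eq_bot_iff _ _).1 hmem
    obtain ⟨c, rfl⟩ := Ideal.mem_span_singleton'.1 hr
    change (c * q) • (Submodule.Quotient.mk δ : R ⧸ tors D M) = _ at hr'
    rw [← Submodule.Quotient.mk_smul, Submodule.Quotient.eq] at hr'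
    obtain ⟨m, hm, h⟩ := hr'
    have h1 : c * q - 1 ≠ 0 := fun h1 =>
      hq (IsUnit.of_mul_eq_one c (by rw [mul_comm]; exact sub_eq_zero.1 h1))
    refine hδ ⟨m * (c * q - 1), mul_ne_zero hm h1, fun x => ?_⟩
    rw [asmul_mul, ← h x, smul_smul (algebraMap D R (c * q - 1)), map_sub, map_one, sub_mul,
      one_mul, Algebra.smul_def]
  obtain ⟨k, hk⟩ := h0
  refine Filter.eventually_atTop.2 ⟨k, fun l hl h => hk (SetLike.le_def.1 (sup_le_sup_left ?_ _) h)⟩
  rw [Submodule.span_singleton_le_iff_mem, ← Nat.sub_add_cancel hl, pow_add, map_mul]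
  exact Submodule.mem_span_singleton.2 ⟨_, rfl⟩

theorem finite_of_killed [FinQ D] (N : Type) [AddCommGroup N] [Module D N] [Module.Finite D N]
    {d : D} (hd : d ≠ 0) (h : ∀ x : N, d • x = 0) : Finite N := by
  have := FinQ.fin d hd
  have h1 : Finite (N ⧸ (Ideal.span {d}) • (⊤ : Submodule D N)) :=
    Submodule.finite_quotient_smul _ Module.Finite.fg_top
  have h2 : (Ideal.span {d}) • (⊤ : Submodule D N) = ⊥ := by
    refine eq_bot_iff.2 (Submodule.smul_le.2 fun r hr x _ => ?_)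
    obtain ⟨c, rfl⟩ := Ideal.mem_span_singleton'.1 hr
    rw [mul_smul, h, smul_zero]
    exact zero_mem _
  exact Finite.of_equiv _ (Submodule.quotEquivOfEqBot _ h2).toEquiv

theorem exists_sep [IsDomain D] [IsPrincipalIdealRing D] [FinQ D] [Module.Finite D R]
    (hreg : Reg D R) (M : Type) [AddCommGroup M] [Module R M] (ι : Type) [Finite ι]
    (φ ψ : ι → PP R) : ∃ Z : ModuleCat.{0} R, Finite Z ∧ ∀ i,
      ind (φ i) (ψ i) Z = 1 ↔
        ∃ m : D, m ≠ 0 ∧ ∀ x ∈ (φ i).set M, algebraMap D R m • x ∈ (ψ i).set M := by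
  classical
  have := Fintype.ofFinite ι
  choose δ n hn hδ using fun i => exists_delta hreg (φ i) (ψ i)
  obtain ⟨q, hq0, hq, hc⟩ := FinQ.jac (∏ i, n i) (Finset.prod_ne_zero_iff.2 fun i _ => hn i)
  have hev : ∀ᶠ k in Filter.atTop, ∀ i, δ i ∉ tors D M →
      δ i ∉ tors D M ⊔ Submodule.span R {algebraMap D R (q ^ k)} := by
    refine Filter.eventually_all.2 fun i => ?_
    by_cases hi : δ i ∈ tors D M
    · exact Filter.Eventually.of_forall fun _ h => absurd hi h
    · exact (krull M hq hi).mono fun _ h _ => h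
  obtain ⟨k, hk⟩ := hev.exists
  let K : Submodule R R := tors D M ⊔ Submodule.span R {algebraMap D R (q ^ k)}
  have hkill : ∀ z : R ⧸ K, algebraMap D R (q ^ k) • z = 0 := fun z => by
    obtain ⟨z, rfl⟩ := Submodule.Quotient.mk_surjective _ z
    rw [← Submodule.Quotient.mk_smul, Submodule.Quotient.mk_eq_zero, smul_eq_mul,
      Algebra.commutes]
    exact Submodule.mem_sup_right (Submodule.mem_span_singleton.2 ⟨z, rfl⟩)
  refine ⟨ModuleCat.of R (R ⧸ K), finite_of_killed (D := D) (R ⧸ K) (pow_ne_zero k hq0)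
    fun z => ?_, fun i => ⟨fun h => ?_, ?_⟩⟩
  · rw [← algebraMap_smul R]
    exact hkill z
  · have h1 := (hδ i (R ⧸ K) 1).1 (fun x hx => asmul_mem _ _ (eidx_eq_one.1 h hx))
      (Submodule.Quotient.mk 1)
    rw [map_one, one_smul, ← Submodule.Quotient.mk_smul, Submodule.Quotient.mk_eq_zero,
      smul_eq_mul, mul_one] at h1
    have h2 : δ i ∈ tors D M := by
      by_contra h2
      exact hk i h2 h1
    obtain ⟨m, hm, h3⟩ := h2
    exact ⟨m * n i, mul_ne_zero hm (hn i), (hδ i M m).2 h3⟩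
  · rintro ⟨m, hm, h⟩
    have h1 := (hδ i M m).1 h
    refine eidx_eq_one.2 fun z hz => ?_
    have h2 := (hδ i (R ⧸ K) 1).2 (fun x => by
      obtain ⟨x, rfl⟩ := Submodule.Quotient.mk_surjective _ x
      rw [map_one, one_smul, ← Submodule.Quotient.mk_smul, Submodule.Quotient.mk_eq_zero]
      exact Submodule.mem_sup_left ⟨m, hm, fun y => by
        rw [smul_eq_mul, mul_smul]; exact h1 _⟩) z hz
    rw [one_mul] at h2
    refine mem_of_coprime (ψ i) (u := q ^ k) (v := n i) (IsCoprime.pow_left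
      (hc.of_isCoprime_of_dvd_right (Finset.dvd_prod_of_mem n (Finset.mem_univ i)))) ?_ h2
    rw [hkill]
    exact zero_mem _

end GlobM

open GlobM

theorem global_match (D R : Type) [CommRing D] [IsDomain D] [IsPrincipalIdealRing D] [FinQ D]
    [Ring R] [Algebra D R] [Module.Finite D R] (hreg : Reg D R)
    (𝒩 : ModuleCat.{0} R → Prop) (hfin : ∀ C : ModuleCat.{0} R, Finite C → 𝒩 C)
    (hloc : ∀ π : D, Irreducible π → ∀ (M : Type) [AddCommGroup M] [Module R M],
      (∀ d : D, IsCoprime d π → Function.Bijective fun x : M => algebraMap D R d • x) →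
      ∀ (ι : Type) [Finite ι] (φ ψ : ι → PP R), (∀ i, (ψ i).Le (φ i)) →
      (∃ k : ℕ, ∀ i, ∀ x ∈ (φ i).set M, algebraMap D R (π ^ k) • x ∈ (ψ i).set M) →
      ∀ B : ℕ, ∃ Cs, (∀ C ∈ Cs, 𝒩 C) ∧ Match B φ ψ M Cs)
    (M : Type) [AddCommGroup M] [Module R M] (ι : Type) [Finite ι] (φ ψ : ι → PP R) (B : ℕ) :
    ∃ Cs, (∀ C ∈ Cs, 𝒩 C) ∧ Match B φ ψ M Cs := by
  classical
  let P : ι → Prop := fun i =>
    ∃ m : D, m ≠ 0 ∧ ∀ x ∈ (φ i).set M, algebraMap D R m • x ∈ (ψ i).set M
  have := Fintype.ofFinite {i // P i}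
  choose m hm hm' using fun i : {i // P i} => i.2
  obtain ⟨C₁, hC₁, h₁⟩ := bounded_match (D := D) 𝒩 {i // P i} (fun i => φ i)
    (fun i => (φ i).and (ψ i)) (fun i => PP.and_le _ _) B
    (fun π hπ M' _ _ hb hk => hloc π hπ M' hb _ _ _ (fun i => PP.and_le _ _) hk B)
    (∏ i, m i) (Finset.prod_ne_zero_iff.2 fun i _ => hm i) M fun i x hx => by
      refine PP.mem_and.2 ⟨asmul_mem _ _ hx, ?_⟩
      rw [← Finset.prod_erase_mul _ _ (Finset.mem_univ i), asmul_mul]
      exact asmul_mem _ _ (hm' i x hx)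
  obtain ⟨Z, hZ, hZ'⟩ := exists_sep hreg M ι φ ψ
  refine ⟨C₁ ++ List.replicate B Z, fun C hC => (List.mem_append.1 hC).elim (hC₁ C) fun h => ?_,
    fun i => ?_⟩
  · rw [List.eq_of_mem_replicate h]
    exact hfin Z hZ
  rw [List.map_append, List.prod_append, List.map_replicate, List.prod_replicate]
  by_cases hi : P i
  · have := h₁ ⟨i, hi⟩
    simp only [ind_and] at this
    rw [(hZ' i).2 hi, one_pow, mul_one]
    exact this
  · have h2 : (2 : ℕ∞) ≤ ind (φ i) (ψ i) Z :=
      Order.add_one_le_of_lt (lt_of_le_of_ne (one_le_ind _ _) fun e => hi ((hZ' i).1 e.symm))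
    rw [ind_eq_top (D := D) _ _ M hi, min_eq_left le_top, min_eq_left]
    refine le_trans ?_ (le_mul_of_one_le_left' (one_le_list_prod _ _ fun _ => one_le_ind _ _))
    refine le_trans ?_ (pow_le_pow_left' h2 B)
    exact_mod_cast (Nat.lt_two_pow_self (n := B)).le

end Pool.Agent.Lib.MP_c13fce_lc
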