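import Pool.Agent.Lib.MP_c13fce_lc.Close2
import Mathlib.RingTheory.Filtration

/-! Closedness of the leading coefficients of string modules. -/

namespace Pool.Agent.Lib.MP_c13fce_lc
open scoped BigOperators
set_option linter.unusedSectionVars false
set_option linter.unusedVariables false

namespace Clo

variable {D Λ S : Type} [CommRing D] [IsDomain D] [Ring Λ] [Algebra D Λ] [Ring S] [Algebra D S]
  {Δ : SD D Λ S} {w : ℤ → Bool} {φ : PP Λ} {j : ℤ} {J Γ : Set ℤ}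

theorem part_iff {s : Λ} : Part Δ w φ Γ j J s 0 0 ↔ ∃ z ∈ stL Δ.a Δ.b J w Γ,
    s • stE Δ.a Δ.b J w j + z ∈ φ.set (St Δ.a Δ.b J w) := by
  constructor
  · rintro ⟨z, hz, y, h⟩
    refine ⟨-z, neg_mem hz, -y, fun t => ?_⟩
    have := h t
    simp only [vec, Pi.zero_apply, zero_smul, sub_zero] at this
    simp only [smul_add, this, Pi.neg_apply, smul_neg, Finset.sum_neg_distrib]
    abel
  · rintro ⟨z, hz, y, h⟩
    refine ⟨-z, neg_mem hz, -y, fun t => ?_⟩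
    have := h t
    simp only [vec, Pi.zero_apply, zero_smul, sub_zero, Pi.neg_apply, smul_neg,
      Finset.sum_neg_distrib]
    rw [← sub_eq_zero, ← this, smul_add]
    abel

theorem b_pow_eq (hJ : J.OrdConnected) {i : ℤ} (hi : i ∈ J)
    (h : ∀ n, i ≤ n → n + 1 ∈ J → w n = false) (k : ℕ) (hk : i + k ∈ J) :
    Δ.b ^ k • stE Δ.a Δ.b J w i = stE Δ.a Δ.b J w (i + k) := by
  induction k with
  | zero => simp
  | succ k ih =>
    have e : i + ((k + 1 : ℕ) : ℤ) = i + k + 1 := by push_cast; ring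
    rw [e] at hk ⊢
    have h1 : i + k ∈ J := hJ.out hi hk ⟨by omega, by omega⟩
    rw [pow_succ', mul_smul, ih h1, traj_stE.2.2 _ h1, if_neg (by simp [h _ (by omega) hk])]

theorem a_pow_eq (hJ : J.OrdConnected) {i : ℤ} (hi : i ∈ J)
    (h : ∀ n, n < i → n ∈ J → w n = true) (k : ℕ) (hk : i - k ∈ J) :
    Δ.a ^ k • stE Δ.a Δ.b J w i = stE Δ.a Δ.b J w (i - k) := by
  induction k with
  | zero => simp
  | succ k ih =>
    have e : i - ((k + 1 : ℕ) : ℤ) = i - k - 1 := by push_cast; ring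
    rw [e] at hk ⊢
    have h1 : i - k ∈ J := hJ.out hk hi ⟨by omega, by omega⟩
    rw [pow_succ', mul_smul, ih h1, traj_stE.2.1 _ h1, if_pos (h _ (by omega) hk)]

theorem krull [IsPrincipalIdealRing D] [Module.Finite D Λ] (hJ : J.OrdConnected) (hj : j ∈ J)
    (hL : EndL J w) (hR : EndR J w) {r : Λ} (h : ∀ F : Set ℤ, F.Finite → F ⊆ J →
      ∃ σ : Set ℤ, σ.OrdConnected ∧ F ⊆ σ ∧ σ ⊆ J ∧ Part Δ w φ Γ j σ r 0 0) :
    ∃ r', Δ.q r' = Δ.q r ∧ Part Δ w φ Γ j J r' 0 0 := by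
  obtain ⟨p, hp, hL⟩ : ∃ p, p ≤ j ∧ ∀ n, n < p → n ∈ J → w n = true := by
    obtain ⟨p, hp⟩ := hL
    exact ⟨min p j, min_le_right _ _, fun n hn => hp n (hn.trans_le (min_le_left _ _))⟩
  obtain ⟨P, hP, hR⟩ : ∃ P, j ≤ P ∧ ∀ n, P ≤ n → n + 1 ∈ J → w n = false := by
    obtain ⟨p, hp⟩ := hR
    exact ⟨max p j, le_max_right _ _, fun n hn => hp n ((le_max_left _ _).trans hn)⟩
  have kR : ∀ (k : ℕ) (i : ℤ), i ∈ J → P + k ≤ i →
      stE Δ.a Δ.b J w i = Δ.b ^ k • stE Δ.a Δ.b J w (i - k) := fun k i hi hk => by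
    rw [b_pow_eq hJ (hJ.out hj hi ⟨by omega, by omega⟩) (fun n hn => hR n (by omega)) k
      (by rwa [sub_add_cancel]), sub_add_cancel]
  have kL : ∀ (k : ℕ) (i : ℤ), i ∈ J → i ≤ p - k →
      stE Δ.a Δ.b J w i = Δ.a ^ k • stE Δ.a Δ.b J w (i + k) := fun k i hi hk => by
    rw [a_pow_eq hJ (hJ.out hi hj ⟨by omega, by omega⟩) (fun n hn => hL n (by omega)) k
      (by rwa [add_sub_cancel_right]), add_sub_cancel_right]
  have fin : Module.Finite Λ (St Δ.a Δ.b J w) := ⟨by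
    have : stL Δ.a Δ.b J w (Set.Icc p P) = ⊤ := by
      rw [eq_top_iff, ← stL_top]
      refine stL_le fun i hi _ => ?_
      by_cases c : i < p
      · rw [kL (p - i).toNat i hi (by omega)]
        exact Submodule.smul_mem _ _ (stE_mem_stL ⟨by omega, by omega⟩)
      by_cases c' : P < i
      · rw [kR (i - P).toNat i hi (by omega)]
        exact Submodule.smul_mem _ _ (stE_mem_stL ⟨by omega, by omega⟩)
      exact stE_mem_stL ⟨by omega, by omega⟩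
    rw [← this]
    exact Submodule.fg_span ((Set.finite_Icc p P).image _)⟩
  have : Module.Finite D (St Δ.a Δ.b J w) := Module.Finite.trans Λ _
  obtain ⟨A, xa, ha⟩ : ∃ (A : ℕ) (x : Λ), Δ.a ^ A = Δ.π • x := by
    obtain ⟨e, x, y, h⟩ := Δ.ea
    exact ⟨e + 1, x * Δ.a, by
      rw [pow_succ, h, add_mul, mul_assoc, Δ.ba, mul_zero, add_zero, smul_mul_assoc]⟩
  obtain ⟨B, xb, hb⟩ : ∃ (B : ℕ) (x : Λ), Δ.b ^ B = Δ.π • x := by
    obtain ⟨e, x, y, h⟩ := Δ.eb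
    exact ⟨e + 1, x * Δ.b, by
      rw [pow_succ, h, add_mul, mul_assoc, Δ.ab, mul_zero, add_zero, smul_mul_assoc]⟩
  have key : ∀ l : ℕ, ∃ v ∈ W Δ w φ Γ J, ∃ u, vec Δ w φ j J r 0 0 = v + Δ.π ^ l • u := by
    intro l
    obtain ⟨σ, s1, s2, s3, z, hz, y, hs⟩ := h (J ∩ Set.Icc (p - (A * l : ℕ)) (P + (B * l : ℕ)))
      ((Set.finite_Icc _ _).inter_of_right _) Set.inter_subset_left
    have hjσ : j ∈ σ := s2 ⟨hj, by omega, by omega⟩
    have out : ∀ i ∈ J \ σ, i < p - (A * l : ℕ) ∨ P + (B * l : ℕ) < i := fun i hi => by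
      by_contra c
      exact hi.2 (s2 ⟨hi.1, by omega, by omega⟩)
    obtain ⟨g, hg⟩ := exists_proj (a := Δ.a) (b := Δ.b) (w := w) s3 fun i hi _ => by
      rcases out i hi with c | c
      · refine ⟨fun _ h' => ⟨h', fun e => hi.2 (s1.out e hjσ ⟨by omega, by omega⟩)⟩, fun e => ?_⟩
        rw [hL i (by omega) hi.1] at e; cases e
      · refine ⟨fun e => ?_, fun _ h' => ⟨h', fun e => hi.2 (s1.out hjσ e ⟨by omega, by omega⟩)⟩⟩
        rw [hR (i - 1) (by omega) (by simpa using hi.1)] at e; cases e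
    have lift : ∀ Γ' : Set ℤ, ∀ z ∈ stL Δ.a Δ.b σ w Γ', ∃ z' ∈ stL Δ.a Δ.b J w Γ', g z' = z :=
      fun Γ' z hz => (stL_le (P := (stL Δ.a Δ.b J w Γ').map g)
        fun i hi _ => ⟨_, stE_mem_stL hi, hg i⟩) hz
    obtain ⟨z', hz', rfl⟩ := lift Γ z hz
    choose y' _ hy using fun k => lift σ (y k) (by rw [stL_top]; trivial)
    have ker : LinearMap.ker g ≤ LinearMap.range
        (Δ.π ^ l • (LinearMap.id : St Δ.a Δ.b J w →ₗ[Λ] St Δ.a Δ.b J w)) := by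
      rw [ker_proj s3 g hg]
      refine stL_le fun i hi _ => ?_
      rcases out i hi with c | c
      · exact ⟨xa ^ l • stE Δ.a Δ.b J w (i + (A * l : ℕ)), by
          rw [kL (A * l) i hi.1 c.le, pow_mul, ha, smul_pow, smul_assoc]; rfl⟩
      · exact ⟨xb ^ l • stE Δ.a Δ.b J w (i - (B * l : ℕ)), by
          rw [kR (B * l) i hi.1 c.le, pow_mul, hb, smul_pow, smul_assoc]; rfl⟩
    choose u hu using fun t => ker (show vec Δ w φ j J r 0 0 t -
        (φ.h t • z' + ∑ k, φ.H t k • y' k) ∈ LinearMap.ker g by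
      have := hs t
      simp only [vec, Pi.zero_apply, zero_smul, sub_zero] at this
      simp only [LinearMap.mem_ker, vec, Pi.zero_apply, zero_smul, sub_zero, map_sub, map_add,
        map_smul, map_sum, hg, hy, this, sub_self])
    refine ⟨fun t => φ.h t • z' + ∑ k, φ.H t k • y' k, ⟨z', hz', y', fun t => rfl⟩, u,
      funext fun t => ?_⟩
    have : Δ.π ^ l • u t = _ := hu t
    rw [Pi.add_apply, Pi.smul_apply, this, add_sub_cancel]
  obtain ⟨⟨d, hd⟩, e⟩ := ((Ideal.span {Δ.π}).mem_iInf_smul_pow_eq_bot_iff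
    ((W Δ w φ Γ J).mkQ (vec Δ w φ j J r 0 0))).1 (Submodule.mem_iInf _ |>.2 fun l => by
      obtain ⟨v, hv, u, e⟩ := key l
      rw [e, map_add, map_smul, show (W Δ w φ Γ J).mkQ v = 0 from
        (Submodule.Quotient.mk_eq_zero _).2 hv, zero_add]
      exact Submodule.smul_mem_smul (Ideal.pow_mem_pow (Ideal.mem_span_singleton_self _) l)
        Submodule.mem_top)
  obtain ⟨d', rfl⟩ := Ideal.mem_span_singleton'.1 hd
  refine ⟨(1 - d' * Δ.π) • r, ?_, ?_⟩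
  · rw [map_smul, sub_smul, one_smul, mul_smul, Algebra.smul_def Δ.π, Δ.qπ, zero_mul, smul_zero,
      sub_zero]
  · have : (1 - d' * Δ.π) • vec Δ w φ j J r 0 0 ∈ W Δ w φ Γ J := by
      rw [← Submodule.Quotient.mk_eq_zero, Submodule.Quotient.mk_smul, sub_smul, one_smul,
        sub_eq_zero]
      exact e.symm
    unfold Part
    convert this using 1
    funext t
    simp only [vec, Pi.zero_apply, zero_smul, sub_zero, Pi.smul_apply, smul_assoc]
    rw [smul_comm]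

end Clo

variable {D Λ S : Type} [CommRing D] [IsDomain D] [IsPrincipalIdealRing D] [FinQ D] [Ring Λ]
  [Algebra D Λ] [Module.Finite D Λ] [Ring S] [Algebra D S] [Finite S] [IsSemisimpleRing S]
  {J : Set ℤ} {w : ℤ → Bool} (Δ : SD D Λ S)

open Clo in
theorem SD.mem_U_of_windows (hJ : Δ.IsStr J w) (φ : PP Λ) {j : ℤ} (hj : j ∈ J) (r : Λ)
    (h : ∀ F : Finset ℤ, (F : Set ℤ) ⊆ J → ∃ σ : Set ℤ, σ.Finite ∧ σ.OrdConnected ∧
      (F : Set ℤ) ⊆ σ ∧ σ ⊆ J ∧ ∃ z ∈ stL Δ.a Δ.b σ w (low J w j),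
        r • stE Δ.a Δ.b σ w j + z ∈ φ.set (St Δ.a Δ.b σ w)) : Δ.q r ∈ Δ.U φ J w j := by
  obtain ⟨τL, FL, l1, l2, l3, l4, l5, l6, l7⟩ := lemL (φ := φ) hJ hj r j
  obtain ⟨M, hM⟩ := (l3.insert j).bddAbove
  obtain ⟨τR, FR, r1, r2, r3, r4, r5, r6, r7⟩ := lemR (φ := φ) hJ hj r M
  have hj' : j ∈ J ∩ τR ∩ τL := ⟨⟨hj, r2 (hM (Set.mem_insert _ _))⟩, l2 (le_refl j)⟩
  obtain ⟨r', e, hr⟩ := krull (Δ := Δ) (φ := φ) (Γ := low J w j) (J := J ∩ τR ∩ τL) (r := r)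
    ((hJ.oc.inter r1).inter l1) hj' (l6.imp fun p hp n hn hn' => hp n hn ⟨hn'.1.1, hn'.2⟩)
    (r6.imp fun p hp n hn hn' => hp n hn hn'.1) fun F f1 f2 => by
      obtain ⟨σ, s1, s2, s3, s4, s5⟩ := h ((f1.union l3).union r3).toFinset (by
        rw [Set.Finite.coe_toFinset]
        exact Set.union_subset (Set.union_subset (fun i hi => (f2 hi).1.1) l4) r4)
      rw [Set.Finite.coe_toFinset] at s3
      refine ⟨σ ∩ τR ∩ τL, (s2.inter r1).inter l1,
        fun i hi => ⟨⟨s3 (Or.inl (Or.inl hi)), (f2 hi).1.2⟩, (f2 hi).2⟩,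
        fun i hi => ⟨⟨s4 hi.1.1, hi.1.2⟩, hi.2⟩, l7 _ (s1.inter_of_left _) (s2.inter r1)
          (fun i hi => ⟨s3 (Or.inl (Or.inr hi)), r2 (hM (Set.mem_insert_of_mem _ hi))⟩)
          (Set.inter_subset_left.trans s4)
          (r7 σ s1 s2 (fun i hi => s3 (Or.inr hi)) s4 (part_iff.2 s5))⟩
  have hD : Dn J w (J ∩ τR ∩ τL) := by
    rw [show J ∩ τR ∩ τL = (J ∩ τR) ∩ (J ∩ τL) by ext; simp; tauto]
    exact r5.inter l5
  exact ⟨r', e, part_iff.1 (hr.incl (fun i hi => hi.1.1) hD (Or.inr rfl) (Or.inl hj'))⟩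

theorem SD.U_mul_mem (hJ : Δ.IsStr J w) (φ : PP Λ) {j : ℤ} (hj : j ∈ J) {s : S}
    (hs : s ∈ Δ.U φ J w j) (t : S) : s * t ∈ Δ.U φ J w j := by
  obtain ⟨r, rfl, z, hz, h⟩ := hs
  obtain ⟨ρ, hρ⟩ := Δ.exists_fam w ((Δ.tw w j).symm t)
  obtain ⟨f, hf⟩ := exists_stLift (hρ.traj (traj_stE (J := J)))
  refine ⟨r * ρ j, by rw [map_mul, hρ.1 j, AlgEquiv.apply_symm_apply], f z,
    map_stL_le f (fun i hi _ => ?_) hz, ?_⟩
  · rw [hf]; exact Submodule.smul_mem _ _ (stE_mem_stL hi)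
  · have := φ.map_mem f h
    rwa [map_add, map_smul, hf, smul_smul] at this

end Pool.Agent.Lib.MP_c13fce_lc
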