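import Pool.Agent.Lib.MP_c13fce_lc.LLCore
import Pool.Agent.Lib.MP_c13fce_lc.Close

/-! The local lemma for strings. -/

namespace Pool.Agent.Lib.MP_c13fce_lc

variable {D Λ S : Type} [CommRing D] [IsDomain D] [IsPrincipalIdealRing D] [FinQ D] [Ring Λ]
  [Algebra D Λ] [Module.Finite D Λ] [Ring S] [Algebra D S] [Finite S] [IsSemisimpleRing S]
  {J : Set ℤ} {w : ℤ → Bool} (Δ : SD D Λ S)

/-- The local lemma for strings, in any module with any stable system. -/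
theorem SD.local_str (hJ : Δ.IsStr J w) (φ : PP Λ) {j : ℤ} (hj : j ∈ J) (N : Type)
    [AddCommGroup N] [Module Λ N] [Module D N] [IsScalarTower D Λ N]
    (Y : Sys (act D N Δ.a) (act D N Δ.b)) (hY : Y.Stable Λ) {x : N} (hx : x ∈ Y.Qa J w j) :
    (∃ z ∈ Y.Ga J w j, x + z ∈ φ.set N) ↔
      x ∈ AddSubgroup.closure {y | ∃ (r : Λ) (x' : N), Δ.q r ∈ Δ.U φ J w j ∧ x' ∈ Y.Qa J w j ∧
        y = r • x'} ⊔ (Y.Ga J w j).toAddSubgroup :=
  LLc.local_core Δ hJ φ hj (fun r h => Δ.mem_U_of_windows hJ φ hj r h)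
    (fun _ hs t => Δ.U_mul_mem hJ φ hj hs t) N Y hY hx

end Pool.Agent.Lib.MP_c13fce_lc
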