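import Pool.Agent.Lib.MP_c13fce_lc.Defs5

/-! The product formula on the double dual. -/

namespace Pool.Agent.Lib.MP_c13fce_lc
open scoped BigOperators
set_option linter.unusedSectionVars false
set_option linter.unusedVariables false

section Word
variable {D : Type} [CommRing D] {A : Type} [AddCommGroup A] [Module D A]

theorem word_step (α β : A →ₗ[D] A) (s : {s : A × Submodule D A // s.1 ∉ s.2}) :
    ∃ (l : Fin 3) (s' : {s : A × Submodule D A // s.1 ∉ s.2}), (l = 1 → s' = s) ∧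
      ∀ (n : ℕ) (u : Wd), u 0 = l →
        (s'.1.1 ∈ s'.1.2 ⊔ up α β n u.tl → s.1.1 ∈ s.1.2 ⊔ up α β (n + 1) u) ∧
        (s.1.1 ∈ s.1.2 ⊔ lo α β (n + 1) u → s'.1.1 ∈ s'.1.2 ⊔ lo α β n u.tl) := by
  obtain ⟨⟨x, C⟩, hx⟩ := s
  by_cases h0 : x ∈ C ⊔ LinearMap.range α
  · obtain ⟨c, hc, _, ⟨x', rfl⟩, rfl⟩ := Submodule.mem_sup.1 h0
    refine ⟨0, ⟨(x', C.comap α), fun h => hx (add_mem hc h)⟩, fun h => absurd h (by decide),
      fun n u hu => ⟨fun h => ?_, fun h => ?_⟩⟩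
    · obtain ⟨c', hc', y, hy, e⟩ := Submodule.mem_sup.1 h
      rw [up_zero hu]
      refine Submodule.mem_sup.2 ⟨c + α c', add_mem hc hc', α y, ⟨y, hy, rfl⟩, ?_⟩
      change c' + y = x' at e
      change c + α c' + α y = c + α x'
      rw [← e, map_add, add_assoc]
    · rw [lo_zero hu] at h
      obtain ⟨c', hc', _, ⟨y, hy, rfl⟩, e⟩ := Submodule.mem_sup.1 h
      change c' + α y = c + α x' at e
      refine Submodule.mem_sup.2 ⟨x' - y, ?_, y, hy, sub_add_cancel _ _⟩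
      change α (x' - y) ∈ C
      rw [map_sub, show α x' - α y = c' - c by
        rw [sub_eq_sub_iff_add_eq_add, e, add_comm]]
      exact sub_mem hc' hc
  by_cases h1 : x ∈ C ⊔ LinearMap.ker β
  · refine ⟨1, ⟨(x, C), hx⟩, fun _ => rfl, fun n u hu => ⟨fun _ => ?_, fun h => ?_⟩⟩
    · rw [up_one hu]; exact h1
    · rw [lo_one hu] at h; exact absurd h h0
  · refine ⟨2, ⟨(β x, C.map β), ?_⟩, fun h => absurd h (by decide),
      fun n u hu => ⟨fun h => ?_, fun h => ?_⟩⟩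
    · rintro ⟨c, hc, e⟩
      change β c = β x at e
      refine h1 (Submodule.mem_sup.2 ⟨c, hc, x - c, ?_, add_sub_cancel _ _⟩)
      rw [LinearMap.mem_ker, map_sub, e, sub_self]
    · obtain ⟨_, ⟨c, hc, rfl⟩, y, hy, e⟩ := Submodule.mem_sup.1 h
      change β c + y = β x at e
      rw [up_two hu]
      refine Submodule.mem_sup.2 ⟨c, hc, x - c, ?_, add_sub_cancel _ _⟩
      rw [Submodule.mem_comap, map_sub, ← e, add_sub_cancel_left]
      exact hy
    · rw [lo_two hu] at h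
      obtain ⟨c, hc, y, hy, e⟩ := Submodule.mem_sup.1 h
      change c + y = x at e
      refine Submodule.mem_sup.2 ⟨β c, ⟨c, hc, rfl⟩, β y, hy, ?_⟩
      change β c + β y = β x
      rw [← e, map_add]

theorem exists_word' (α β : A →ₗ[D] A)
    (C : Submodule D A) {x : A} (hx : x ∉ C) : ∃ u : Wd, u.Nrm ∧
      ∀ n, x ∈ C ⊔ up α β n u ∧ x ∉ C ⊔ lo α β n u := by
  choose l nx h1 h2 using word_step α β
  let W : {s : A × Submodule D A // s.1 ∉ s.2} → Wd := fun s k => l (nx^[k] s)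
  have key : ∀ (n : ℕ) (s : {s : A × Submodule D A // s.1 ∉ s.2}),
      s.1.1 ∈ s.1.2 ⊔ up α β n (W s) ∧ s.1.1 ∉ s.1.2 ⊔ lo α β n (W s) := by
    intro n
    induction n with
    | zero =>
      intro s
      refine ⟨Submodule.mem_sup_right trivial, ?_⟩
      rw [lo, sup_bot_eq]
      exact s.2
    | succ n ih =>
      intro s
      obtain ⟨a, b⟩ := h2 s n (W s) rfl
      exact ⟨a (ih (nx s)).1, fun h => (ih (nx s)).2 (b h)⟩
  refine ⟨W ⟨(x, C), hx⟩, fun k hk => ?_, fun n => key n ⟨(x, C), hx⟩⟩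
  change l (nx^[k + 1] _) = 1
  rw [Function.iterate_succ_apply', h1 _ hk]
  exact hk

theorem not_mem_sup_mn {α β : A →ₗ[D] A} {C : Submodule D A} {x : A} {u : Wd}
    (h : ∀ n, x ∉ C ⊔ lo α β n u) : x ∉ C ⊔ mn α β u := by
  intro hx
  obtain ⟨c, hc, y, hy, e⟩ := Submodule.mem_sup.1 hx
  obtain ⟨n, hn⟩ := mem_mn.1 hy
  exact h n (Submodule.mem_sup.2 ⟨c, hc, y, hn, e⟩)

theorem Sys.Gm_le_Gp {α β : A →ₗ[D] A} (Y : Sys α β) (u v : Wd) : Y.Gm u v ≤ Y.Gp u v :=
  sup_le_sup_left (inf_le_inf_left _ (Y.Lle v)) _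

theorem Sys.Gp_le_Gm {α β : A →ₗ[D] A} (Y : Sys α β) (hαβ : ∀ x, β (α x) = 0)
    (hβα : ∀ x, α (β x) = 0) {p p' : Pnt} (hp : p ∈ NP) (hp' : p' ∈ NP) (h : p < p') :
    Y.Gp (ofLex (ofLex p).1) (ofLex (ofLex p).2) ≤
      Y.Gm (ofLex (ofLex p').1) (ofLex (ofLex p').2) := by
  rcases Prod.Lex.lt_iff.1 h with h | ⟨e, h⟩
  · exact (sup_le (Y.Rle _) inf_le_left).trans
      ((Y.Rp_le_Rm hαβ hp.1 hp'.1 h).trans le_sup_left)
  · unfold Sys.Gp Sys.Gm
    rw [e]
    exact sup_le_sup_left (inf_le_inf_left _ (Y.Lp_le_Lm hβα hp.2 hp'.2 h)) _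

end Word

section Comp
variable {D : Type} [CommRing D] [IsDomain D] [IsPrincipalIdealRing D] {A : Type}
  [AddCommGroup A] [Module D A]

/-- Compactness for annihilators. -/
theorem ann_compact {α β : A →ₗ[D] A} (Z : Submodule D A) (u : Wd) {ξ : Du D A}
    (h : ∀ n, ξ ∈ ann Z ⊔ ann (lo α β n u)) : ξ ∈ ann Z ⊔ ann (mn α β u) := by
  rw [← ann_inf]
  intro y hy
  obtain ⟨n, hn⟩ := mem_mn.1 hy.2
  have := h n
  rw [← ann_inf] at this
  exact this y ⟨hy.1, hn⟩

variable [FinQ D]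

theorem ann_ann_fin {B C : Submodule D A} (hfin : Finite (B ⧸ C.comap B.subtype)) {ξ : DD D A}
    (hξ : ξ ∈ ann (ann B)) : ∃ x ∈ B, ev x - ξ ∈ ann (ann C) := by
  rw [← B.range_subtype, ann_range, ann_ker] at hξ
  obtain ⟨ξ', rfl⟩ := hξ
  obtain ⟨z, hz⟩ := ev_surjective (D := D) (B ⧸ C.comap B.subtype)
    (du (du (C.comap B.subtype).mkQ) ξ')
  obtain ⟨x, rfl⟩ := Submodule.Quotient.mk_surjective _ z
  refine ⟨x, x.2, ?_⟩
  have h1 : ev x - ξ' ∈ LinearMap.ker (du (du (C.comap B.subtype).mkQ)) := by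
    rw [LinearMap.mem_ker, map_sub, ← hz, sub_eq_zero]
    rfl
  rw [← ann_range, ← ann_ker, Submodule.ker_mkQ, ann_ann_comap, Submodule.mem_comap,
    map_sub] at h1
  exact h1

theorem eidx_ann_ann_le (B C : Submodule D A) :
    eidx (ann (ann C)).toAddSubgroup (ann (ann B)).toAddSubgroup ≤
      eidx C.toAddSubgroup B.toAddSubgroup := by
  by_cases h : eidx C.toAddSubgroup B.toAddSubgroup = ⊤
  · rw [h]; exact le_top
  have hfin : Finite (B ⧸ C.comap B.subtype) := eidx_ne_top_iff.1 h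
  refine eidx_le_of_surj (resHom (ev (D := D)).toAddMonoidHom _ _ fun x hx => le_ann_ann B hx)
    (fun x hx => le_ann_ann C hx) fun y => ?_
  obtain ⟨x, hx, h⟩ := ann_ann_fin hfin y.2
  exact ⟨⟨x, hx⟩, h⟩

/-- Every element outside `C` lies in one of the intervals. -/
theorem exists_cover {α β : A →ₗ[D] A} (Y : Sys (du (du α)) (du (du β)))
    (hRm : ∀ u, Y.Rm u = ann (ann (mn α β u)))
    (hRp : ∀ u, Y.Rp u = ann (mn (du β) (du α) u.flip))
    (hLm : ∀ u, Y.Lm u = mn (du (du β)) (du (du α)) u)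
    (hLp : ∀ u, Y.Lp u = ann (mn (du α) (du β) u.flip)) (C : Submodule D A) {a : A}
    (ha : a ∉ C) : ∃ u v : Wd, u.Nrm ∧ v.Nrm ∧ ev a ∈ ann (ann C) ⊔ Y.Gp u v ∧
      ev a ∉ ann (ann C) ⊔ Y.Gm u v := by
  obtain ⟨u, hu, h⟩ := exists_word' α β C ha
  have h1 : ev a ∉ ann (ann C) ⊔ Y.Rm u := by
    rw [hRm, ← ann_ann_sup, ev_mem_ann_ann]
    exact not_mem_sup_mn fun n => (h n).2
  have h2 : ev a ∈ ann (ann C) ⊔ Y.Rp u := by
    rw [hRp]
    refine ann_compact _ _ fun n => ?_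
    rw [← ann_up, ← ann_ann_sup, ev_mem_ann_ann]
    exact (h n).1
  obtain ⟨c, hc, x, hx, e⟩ := Submodule.mem_sup.1 h2
  have hC : (ann (ann C) ⊔ Y.Rm u) ⊓ Y.Rp u =
      ann (ann C ⊓ ann (mn α β u) ⊔ mn (du β) (du α) u.flip) := by
    rw [ann_sup, ann_inf, hRm, hRp]
  have h3 : x ∉ (ann (ann C) ⊔ Y.Rm u) ⊓ Y.Rp u := fun h' =>
    h1 (e ▸ add_mem (Submodule.mem_sup_left hc) h'.1)
  obtain ⟨v, hv, h'⟩ := exists_word' (du (du β)) (du (du α)) _ h3
  have h4 : x ∉ (ann (ann C) ⊔ Y.Rm u) ⊓ Y.Rp u ⊔ Y.Lm v := by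
    rw [hLm]
    exact not_mem_sup_mn fun n => (h' n).2
  have h5 : x ∈ (ann (ann C) ⊔ Y.Rm u) ⊓ Y.Rp u ⊔ Y.Lp v := by
    rw [hLp, hC]
    refine ann_compact _ _ fun n => ?_
    rw [ann_lo, Wd.flip_flip, ← hC]
    exact (h' n).1
  refine ⟨u, v, hu, hv, ?_, fun h6 => h4 ?_⟩
  · obtain ⟨c', hc', l, hl, e'⟩ := Submodule.mem_sup.1 h5
    have hl' : l ∈ Y.Rp u := by
      rw [eq_sub_of_add_eq' e']
      exact sub_mem hx hc'.2
    rw [← e, ← e']
    exact add_mem (Submodule.mem_sup_left hc) (add_mem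
      (sup_le_sup_left (le_sup_left : Y.Rm u ≤ Y.Gp u v) _ hc'.1)
      (Submodule.mem_sup_right (Submodule.mem_sup_right ⟨hl', hl⟩)))
  · obtain ⟨b, hb, g, hg, e1⟩ := Submodule.mem_sup.1 h6
    obtain ⟨r, hr, l, hl, e2⟩ := Submodule.mem_sup.1 hg
    refine Submodule.mem_sup.2 ⟨x - l, ⟨?_, sub_mem hx hl.1⟩, l, hl.2, sub_add_cancel _ _⟩
    have : x - l = (b - c) + r := by
      rw [eq_sub_of_add_eq' e, ← e1, ← e2]; abel
    rw [this]
    exact Submodule.add_mem_sup (sub_mem hb hc) hr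

/-- The product formula for a pair of submodules. -/
theorem eidx_eq_tprodE_dd {α β : A →ₗ[D] A} (hαβ : ∀ x, β (α x) = 0) (hβα : ∀ x, α (β x) = 0)
    (Y : Sys (du (du α)) (du (du β)))
    (hRm : ∀ u, Y.Rm u = ann (ann (mn α β u)))
    (hRp : ∀ u, Y.Rp u = ann (mn (du β) (du α) u.flip))
    (hLm : ∀ u, Y.Lm u = mn (du (du β)) (du (du α)) u)
    (hLp : ∀ u, Y.Lp u = ann (mn (du α) (du β) u.flip)) {C B : Submodule D A} (hCB : C ≤ B) :
    eidx C.toAddSubgroup B.toAddSubgroup =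
      tprodE NP (Y.lidx (ann (ann C)).toAddSubgroup (ann (ann B)).toAddSubgroup) := by
  have hαβ' : ∀ x, du (du β) (du (du α) x) = 0 := fun x => LinearMap.ext fun χ => by
    change x (du α (du β χ)) = 0
    rw [show du α (du β χ) = 0 from LinearMap.ext fun y => by simp [hαβ], map_zero]
  have hβα' : ∀ x, du (du α) (du (du β) x) = 0 := fun x => LinearMap.ext fun χ => by
    change x (du β (du α χ)) = 0
    rw [show du β (du α χ) = 0 from LinearMap.ext fun y => by simp [hβα], map_zero]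
  set C2 := (ann (ann C)).toAddSubgroup with hC2
  set B2 := (ann (ann B)).toAddSubgroup with hB2
  have hCB2 : C2 ≤ B2 := ann_anti (ann_anti hCB)
  let L : Pnt → AddSubgroup (DD D A) := fun p =>
    (Y.Gm (ofLex (ofLex p).1) (ofLex (ofLex p).2)).toAddSubgroup
  let H : Pnt → AddSubgroup (DD D A) := fun p =>
    (Y.Gp (ofLex (ofLex p).1) (ofLex (ofLex p).2)).toAddSubgroup
  have hLH : ∀ p, L p ≤ H p := fun p => Y.Gm_le_Gp _ _
  have hHL : ∀ p ∈ NP, ∀ p' ∈ NP, p < p' → H p ≤ L p' := fun p hp p' hp' h =>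
    Y.Gp_le_Gm hαβ' hβα' hp hp' h
  refine le_antisymm ?_ ((tprodE_le fun F hF => ?_).trans (eidx_ann_ann_le B C))
  · let B' : AddSubgroup (DD D A) := (B.map ev).toAddSubgroup ⊔ C2
    have hB' : B' ≤ B2 := by
      refine sup_le ?_ hCB2
      rintro _ ⟨x, hx, rfl⟩
      exact le_ann_ann B hx
    have h1 : eidx C.toAddSubgroup B.toAddSubgroup ≤ eidx C2 B' :=
      eidx_le_of_inj (resHom (ev (D := D)).toAddMonoidHom _ _ fun x hx =>
        AddSubgroup.mem_sup_left ⟨x, hx, rfl⟩) fun x => ev_mem_ann_ann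
    refine h1.trans ?_
    rw [eidx_eq_tprodE (fun p => B' ⊓ L p ⊔ C2) (fun p => B' ⊓ H p ⊔ C2) NP
      (fun p _ => sup_le_sup_right (inf_le_inf_left _ (hLH p)) _)
      (fun p hp p' hp' h => sup_le_sup_right (inf_le_inf_left _ (hHL p hp p' hp' h)) _) C2 B'
      le_sup_right (fun _ _ => le_sup_right) (fun _ _ => sup_le inf_le_left le_sup_right) ?_]
    · refine tprodE_le fun F hF => le_trans (Finset.prod_le_prod' fun p _ => ?_) (le_tprodE _ hF)
      rw [eidx_zass le_sup_right (hLH p)]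
      exact eidx_mono _ (sup_le_sup_right (inf_le_inf_right _ hB') _)
    · intro x hx hx'
      obtain ⟨_, ⟨a, ha, rfl⟩, c, hc, rfl⟩ := AddSubgroup.mem_sup.1 hx
      have haC : a ∉ C := fun h => hx' (add_mem (le_ann_ann C h) hc)
      obtain ⟨u, v, hu, hv, h2, h3⟩ := exists_cover Y hRm hRp hLm hLp C haC
      refine ⟨toLex (toLex u, toLex v), ⟨hu, hv⟩, ?_, fun h4 => h3 ?_⟩
      · obtain ⟨c', hc', g, hg, e⟩ := Submodule.mem_sup.1 h2
        refine AddSubgroup.mem_sup.2 ⟨g, ⟨?_, hg⟩, c' + c, add_mem hc' hc, ?_⟩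
        · rw [eq_sub_of_add_eq' e]
          exact B'.sub_mem (AddSubgroup.mem_sup_left ⟨a, ha, rfl⟩) (AddSubgroup.mem_sup_right hc')
        · rw [← e]; abel
      · obtain ⟨g, hg, c', hc', e⟩ := AddSubgroup.mem_sup.1 h4
        refine Submodule.mem_sup.2 ⟨c' - c, sub_mem hc' hc, g, hg.2, ?_⟩
        rw [eq_sub_of_add_eq e.symm]; abel
  · have := prod_le_eidx (fun p => B2 ⊓ L p ⊔ C2) (fun p => B2 ⊓ H p ⊔ C2) F
      (fun p _ => sup_le_sup_right (inf_le_inf_left _ (hLH p)) _)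
      (fun p hp p' hp' h => sup_le_sup_right (inf_le_inf_left _
        (hHL p (hF hp) p' (hF hp') h)) _) C2 B2
      (fun _ _ => le_sup_right) (fun _ _ => sup_le inf_le_left hCB2)
    refine le_trans (le_of_eq (Finset.prod_congr rfl fun p _ => ?_)) this
    rw [eidx_zass hCB2 (hLH p)]
    rfl

end Comp

section L1
variable {D Λ S : Type} [CommRing D] [IsDomain D] [IsPrincipalIdealRing D] [FinQ D] [Ring Λ]
  [Algebra D Λ] [Ring S] [Algebra D S]

theorem exists_word {A : Type} [AddCommGroup A] [Module D A] (α β : A →ₗ[D] A)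
    (C : Submodule D A) {x : A} (hx : x ∉ C) : ∃ u : Wd, u.Nrm ∧
      ∀ n, x ∈ C ⊔ up α β n u ∧ x ∉ C ⊔ lo α β n u := exists_word' α β C hx

/-- A pp subgroup as a submodule over the central subring. -/
def PP.sub (D : Type) [CommRing D] [Algebra D Λ] (φ : PP Λ) (M : Type) [AddCommGroup M]
    [Module Λ M] [Module D M] [IsScalarTower D Λ M] : Submodule D M where
  carrier := φ.set M
  zero_mem' := zero_mem _
  add_mem' := add_mem
  smul_mem' d x hx := by
    rw [← algebraMap_smul Λ d x]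
    exact φ.smul_mem_of_central (fun r => (Algebra.commutes d r).symm) hx

theorem pp_dd (φ : PP Λ) (M : Type) [AddCommGroup M] [Module Λ M] [Module D M]
    [IsScalarTower D Λ M] (ξ : DD D M) :
    ξ ∈ φ.set (DD D M) ↔ ∀ χ : Du D M, (∀ x ∈ φ.set M, χ x = 0) → ξ χ = 0 := by
  classical
  constructor
  · rintro ⟨η, hη⟩ χ hχ
    let h : M →ₗ[D] (φ.ι → M) := LinearMap.pi fun t => act D M (φ.h t)
    let H : (φ.κ → M) →ₗ[D] (φ.ι → M) :=
      LinearMap.pi fun t => ∑ k, act D M (φ.H t k) ∘ₗ LinearMap.proj k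
    have hH : ∀ y t, H y t = ∑ k, φ.H t k • y k := fun y t => by
      simp [H, LinearMap.sum_apply]
    have h1 : χ ∈ ann ((LinearMap.range H).comap h) := by
      rintro x ⟨y, hy⟩
      refine hχ x ⟨-y, fun t => ?_⟩
      have := congrFun hy t
      rw [hH] at this
      simp only [Pi.neg_apply, smul_neg, Finset.sum_neg_distrib, this]
      exact add_neg_cancel _
    rw [ann_comap] at h1
    obtain ⟨θ, hθ, rfl⟩ := h1
    let θ' : φ.ι → Du D M := fun t => θ ∘ₗ LinearMap.single D (fun _ => M) t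
    have hs : ∀ z : φ.ι → M, θ z = ∑ t, θ' t (z t) := fun z => by
      conv_lhs => rw [← Finset.univ_sum_single z]
      rw [map_sum]
      rfl
    have e1 : du h θ = ∑ t, du (act D M (φ.h t)) (θ' t) := LinearMap.ext fun x => by
      rw [du_apply, hs, LinearMap.sum_apply]
      rfl
    have e2 : ∀ k, ∑ t, du (act D M (φ.H t k)) (θ' t) = 0 := fun k => LinearMap.ext fun x => by
      have := hθ _ ⟨Pi.single k x, rfl⟩
      rw [hs] at this
      rw [LinearMap.sum_apply, LinearMap.zero_apply, ← this]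
      refine Finset.sum_congr rfl fun t _ => ?_
      rw [hH, Finset.sum_eq_single k (fun k' _ hk => by simp [Pi.single_eq_of_ne hk]) (by simp)]
      simp
    have e3 : ∀ t, ξ (du (act D M (φ.h t)) (θ' t)) =
        -∑ k, η k (du (act D M (φ.H t k)) (θ' t)) := fun t => by
      have := LinearMap.congr_fun (hη t) (θ' t)
      rw [LinearMap.add_apply, LinearMap.sum_apply, LinearMap.zero_apply] at this
      exact eq_neg_of_add_eq_zero_left this
    rw [e1, map_sum]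
    simp only [e3]
    rw [Finset.sum_neg_distrib, Finset.sum_comm, neg_eq_zero]
    refine Finset.sum_eq_zero fun k _ => ?_
    rw [← map_sum, e2, map_zero]
  · intro hξ
    obtain ⟨x, -, hx⟩ := dd_transfer (D := D) (μ := Unit) (fun t k => act D M (φ.H t k))
      (fun t _ => act D M (φ.h t)) (fun _ => ⊤) (fun _ => φ.sub D M) (fun g hg => by
        obtain ⟨y, hy⟩ := neg_mem (s := φ.set M) (hg ())
        refine ⟨y, fun _ => trivial, fun t => ?_⟩
        have := hy t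
        rw [smul_neg, neg_add_eq_zero] at this
        simpa using this.symm) (fun _ => -ξ) (fun _ => neg_mem hξ)
    refine ⟨x, fun t => ?_⟩
    have := hx t
    rw [Fintype.sum_unique (M := DD D M) (ι := Unit), map_neg] at this
    exact add_eq_zero_iff_neg_eq.2 this.symm

theorem PP.set_dd (φ : PP Λ) (M : Type) [AddCommGroup M] [Module Λ M] [Module D M]
    [IsScalarTower D Λ M] : φ.set (DD D M) = (ann (ann (φ.sub D M))).toAddSubgroup :=
  AddSubgroup.ext fun ξ => pp_dd φ M ξ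

theorem ind_eq_tprodE (Δ : SD D Λ S) (M : Type) [AddCommGroup M] [Module Λ M] [Module D M]
    [IsScalarTower D Λ M] (Y : Sys (act D (DD D M) Δ.a) (act D (DD D M) Δ.b))
    (hY : IsDDSys Δ M Y) (φ ψ : PP Λ) (h : ψ.Le φ) :
    ind φ ψ M = tprodE NP (Y.lidx (ψ.set (DD D M)) (φ.set (DD D M))) := by
  rw [PP.set_dd, PP.set_dd]
  exact eidx_eq_tprodE_dd (Δ.act_ba M) (Δ.act_ab M) Y hY.Rm hY.Rp hY.Lm hY.Lp
    (C := ψ.sub D M) (B := φ.sub D M) (h M)

end L1

end Pool.Agent.Lib.MP_c13fce_lc
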