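import Pool.Agent.Lib.MP_c13fce_lc.Defs5

/-! Orbits of positions. -/

namespace Pool.Agent.Lib.MP_c13fce_lc
open scoped BigOperators
set_option linter.unusedVariables false

theorem tprodE_mono_set {ι : Type} {J J' : Set ι} (h : J ⊆ J') (f : ι → ℕ∞) :
    tprodE J f ≤ tprodE J' f := tprodE_le fun _ hF => le_tprodE f (hF.trans h)

theorem tprodE_empty {ι : Type} (f : ι → ℕ∞) : tprodE (∅ : Set ι) f = 1 :=
  le_antisymm (tprodE_le fun F hF => by
    rw [Finset.coe_eq_empty.1 (Set.subset_empty_iff.1 hF), Finset.prod_empty]) (one_le_tprodE _ _)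

theorem tprodE_union {ι : Type} {J J' : Set ι} (h : Disjoint J J') (f : ι → ℕ∞) :
    tprodE (J ∪ J') f = tprodE J f * tprodE J' f := by
  classical
  refine le_antisymm (tprodE_le fun F hF => ?_) ?_
  · rw [← Finset.prod_filter_mul_prod_filter_not F (· ∈ J)]
    refine mul_le_mul' (le_tprodE f fun j hj => ?_) (le_tprodE f fun j hj => ?_)
    · exact (Finset.mem_filter.1 hj).2
    · exact (hF (Finset.mem_filter.1 hj).1).resolve_left (Finset.mem_filter.1 hj).2
  · conv_lhs => unfold tprodE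
    rw [ENat.iSup_mul]
    refine iSup_le fun F => ?_
    rw [ENat.iSup_mul]
    refine iSup_le fun hF => ?_
    rw [ENat.mul_iSup]
    refine iSup_le fun G => ?_
    rw [ENat.mul_iSup]
    refine iSup_le fun hG => ?_
    rw [← Finset.prod_union (Finset.disjoint_coe.1 (h.mono hF hG))]
    exact le_tprodE f (by rw [Finset.coe_union]; exact Set.union_subset_union hF hG)

theorem match_of_orbits {P ι : Type} {α : Type 1} [Finite ι] (N : Set P) (O : P → Set P)
    (hO : ∀ p ∈ N, p ∈ O p ∧ O p ⊆ N ∧ ∀ p' ∈ O p, O p' = O p) (f : ι → P → ℕ∞)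
    (hf : ∀ i p, 1 ≤ f i p) (g : ι → α → ℕ∞) (hg : ∀ i c, 1 ≤ g i c) (𝒩 : α → Prop) (B : ℕ)
    (h : ∀ p ∈ N, ∃ Cs : List α, (∀ C ∈ Cs, 𝒩 C) ∧
      ∀ i, min (B : ℕ∞) (tprodE (O p) (f i)) = min (B : ℕ∞) (Cs.map (g i)).prod) :
    ∃ Cs : List α, (∀ C ∈ Cs, 𝒩 C) ∧
      ∀ i, min (B : ℕ∞) (tprodE N (f i)) = min (B : ℕ∞) (Cs.map (g i)).prod := by
  classical
  have key : ∀ F : Finset P, (F : Set P) ⊆ N → ∃ Cs : List α, (∀ C ∈ Cs, 𝒩 C) ∧
      ∀ i, min (B : ℕ∞) (tprodE (⋃ p ∈ F, O p) (f i)) = min (B : ℕ∞) (Cs.map (g i)).prod := by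
    intro F
    induction F using Finset.induction_on with
    | empty => exact fun _ => ⟨[], by simp, fun i => by simp [tprodE_empty]⟩
    | insert a s _ ih =>
      intro hs
      rw [Finset.coe_insert, Set.insert_subset_iff] at hs
      obtain ⟨Cs, h1, h2⟩ := ih hs.2
      rw [Finset.set_biUnion_insert]
      by_cases c : Disjoint (O a) (⋃ p ∈ s, O p)
      · obtain ⟨Ca, h3, h4⟩ := h a hs.1
        refine ⟨Ca ++ Cs, fun C hC => (List.mem_append.1 hC).elim (h3 C) (h1 C), fun i => ?_⟩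
        rw [tprodE_union c, List.map_append, List.prod_append]
        exact min_mul_congr (one_le_tprodE _ _) (one_le_list_prod _ _ (hg i)) (one_le_tprodE _ _)
          (one_le_list_prod _ _ (hg i)) (h4 i) (h2 i)
      · obtain ⟨q, hq, hq'⟩ := Set.not_disjoint_iff.1 c
        obtain ⟨p, hp, hq'⟩ := Set.mem_iUnion₂.1 hq'
        have e : O a = O p := ((hO a hs.1).2.2 q hq).symm.trans ((hO p (hs.2 hp)).2.2 q hq')
        rw [Set.union_eq_self_of_subset_left (e ▸ Set.subset_biUnion_of_mem (u := O) hp)]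
        exact ⟨Cs, h1, h2⟩
  have := Fintype.ofFinite ι
  choose F hF hF' using fun i => exists_tprodE N (f i) B
  have hN : ((Finset.univ.biUnion F : Finset P) : Set P) ⊆ N := fun p hp => by
    obtain ⟨i, -, hi⟩ := Finset.mem_biUnion.1 hp
    exact hF i hi
  obtain ⟨Cs, h1, h2⟩ := key _ hN
  refine ⟨Cs, h1, fun i => ?_⟩
  rw [← h2 i]
  refine le_antisymm (le_min (min_le_left _ _) ((hF' i).trans (le_tprodE _ fun p hp => ?_)))
    (min_le_min_left _ (tprodE_mono_set (Set.iUnion₂_subset fun p hp => (hO p (hN hp)).2.1) _))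
  exact Set.mem_iUnion₂.2 ⟨p, Finset.mem_biUnion.2 ⟨i, Finset.mem_univ _, hp⟩, (hO p (hF i hp)).1⟩

theorem pnt_mem_NP {J : Set ℤ} (hJ : J.OrdConnected) (w : ℤ → Bool) {j : ℤ} (hj : j ∈ J) :
    pnt J w j ∈ NP := ⟨rwd_nrm hJ w hj, lwd_nrm hJ w hj⟩

section shift
variable {J J' : Set ℤ} {w w' : ℤ → Bool} {j j' : ℤ}

theorem mem_of_pnt_eq (hj' : j' ∈ J') (h : pnt J w j = pnt J' w' j') {i : ℤ} (hi : j + i ∈ J) :
    j' + i ∈ J' := by
  obtain ⟨hr, hl⟩ := pnt_eq_iff.1 h
  rcases lt_trichotomy i 0 with c | rfl | c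
  · obtain ⟨k, rfl⟩ : ∃ k : ℕ, i = -k - 1 := ⟨(-i - 1).toNat, by omega⟩
    have := (lwd_letter (congrFun hl.symm k) (by rwa [show j - k - 1 = j + (-k - 1) by ring])).1
    rwa [show j' + (-k - 1) = j' - k - 1 by ring]
  · rwa [add_zero]
  · obtain ⟨k, rfl⟩ : ∃ k : ℕ, i = k + 1 := ⟨(i - 1).toNat, by omega⟩
    have := (rwd_letter (congrFun hr.symm k) (by rwa [add_assoc])).1
    rwa [← add_assoc]

theorem letter_of_pnt_eq (h : pnt J w j = pnt J' w' j') {i : ℤ} (hi : j + i ∈ J)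
    (hi' : j + i + 1 ∈ J) : w' (j' + i) = w (j + i) := by
  obtain ⟨hr, hl⟩ := pnt_eq_iff.1 h
  rcases lt_or_ge i 0 with c | c
  · obtain ⟨k, rfl⟩ : ∃ k : ℕ, i = -k - 1 := ⟨(-i - 1).toNat, by omega⟩
    have := (lwd_letter (congrFun hl.symm k) (by rwa [show j - k - 1 = j + (-k - 1) by ring])).2
    rwa [show j' + (-k - 1) = j' - k - 1 by ring, show j + (-k - 1) = j - k - 1 by ring]
  · obtain ⟨k, rfl⟩ := Int.eq_ofNat_of_zero_le c
    exact (rwd_letter (congrFun hr.symm k) hi').2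

theorem pnt_shift (hJ : J.OrdConnected) (hj : j ∈ J) (hj' : j' ∈ J')
    (h : pnt J w j = pnt J' w' j') {i : ℤ} (hi : j + i ∈ J) :
    pnt J w (j + i) = pnt J' w' (j' + i) := by
  have hm : ∀ m : ℤ, j + m ∈ J ↔ j' + m ∈ J' := fun m =>
    ⟨mem_of_pnt_eq hj' h, mem_of_pnt_eq hj h.symm⟩
  refine pnt_eq_iff.2 ⟨funext fun k => ?_, funext fun k => ?_⟩
  · unfold rwd
    have e := hm (i + k + 1)
    simp only [← add_assoc] at e
    by_cases c : j + i + k + 1 ∈ J
    · have := letter_of_pnt_eq h (i := i + k)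
        (hJ.out hi c ⟨by omega, by omega⟩) (by rwa [← add_assoc])
      simp only [← add_assoc] at this
      rw [if_pos c, if_pos (e.1 c), this]
    · rw [if_neg c, if_neg (mt e.2 c)]
  · unfold lwd
    have e := hm (i - k - 1)
    simp only [← add_sub_assoc] at e
    by_cases c : j + i - k - 1 ∈ J
    · have := letter_of_pnt_eq h (i := i - k - 1) (by simpa only [← add_sub_assoc] using c)
        (hJ.out c hi ⟨by omega, by omega⟩)
      simp only [← add_sub_assoc] at this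
      rw [if_pos c, if_pos (e.1 c), this]
    · rw [if_neg c, if_neg (mt e.2 c)]

theorem image_pnt_subset (hJ : J.OrdConnected) (hj : j ∈ J) (hj' : j' ∈ J')
    (h : pnt J w j = pnt J' w' j') : pnt J w '' J ⊆ pnt J' w' '' J' := by
  rintro _ ⟨m, hm, rfl⟩
  obtain ⟨i, rfl⟩ : ∃ i, m = j + i := ⟨m - j, by ring⟩
  exact ⟨j' + i, mem_of_pnt_eq hj' h hm, (pnt_shift hJ hj hj' h hm).symm⟩

end shift

theorem exists_pnt_eq {p : Pnt} (hp : p ∈ NP) :
    ∃ (J : Set ℤ) (w : ℤ → Bool), J.OrdConnected ∧ p ∈ pnt J w '' J := by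
  obtain ⟨u, v, rfl⟩ : ∃ u v : Wd, p = toLex (toLex u, toLex v) := ⟨_, _, rfl⟩
  have hu : u.Nrm := hp.1
  have hv : v.Nrm := hp.2
  refine ⟨{j | (0 < j → u (j - 1).toNat ≠ 1) ∧ (j < 0 → v (-j - 1).toNat ≠ 1)},
    fun j => if 0 ≤ j then decide (u j.toNat = 0) else decide (v (-j - 1).toNat = 2),
    ⟨fun x hx y hy z hz => ⟨fun c e => hy.1 (c.trans_le hz.2) (hu.one_of_le e ?_),
      fun c e => hx.2 (hz.1.trans_lt c) (hv.one_of_le e ?_)⟩⟩, 0, by simp, ?_⟩
  · have := hz.2; omega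
  · have := hz.1; omega
  · unfold pnt
    congr 3
    · funext k
      have h1 : ¬ ((k : ℤ) + 1 < 0) := by omega
      have h2 : 0 < (k : ℤ) + 1 := by omega
      simp only [rwd, zero_add, Set.mem_ofPred_eq, h1, h2, add_sub_cancel_right, Int.toNat_natCast,
        Int.natCast_nonneg, if_true, decide_eq_true_eq, false_imp_iff, true_imp_iff, and_true]
      generalize u k = a
      revert a; decide
    · funext k
      have h1 : ¬ (0 < -(k : ℤ) - 1) := by omega
      have h2 : -(k : ℤ) - 1 < 0 := by omega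
      have h3 : ¬ (0 ≤ -(k : ℤ) - 1) := by omega
      have h4 : (-(-(k : ℤ) - 1) - 1).toNat = k := by omega
      simp only [lwd, zero_sub, Set.mem_ofPred_eq, h1, h2, h3, h4, if_false, decide_eq_true_eq,
        false_imp_iff, true_imp_iff, true_and]
      generalize v k = a
      revert a; decide

theorem exists_orbits : ∃ (Jp : Pnt → Set ℤ) (wp : Pnt → ℤ → Bool), ∀ p ∈ NP,
    (Jp p).OrdConnected ∧ p ∈ pnt (Jp p) (wp p) '' Jp p ∧
      ∀ p' ∈ pnt (Jp p) (wp p) '' Jp p,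
        pnt (Jp p') (wp p') '' Jp p' = pnt (Jp p) (wp p) '' Jp p := by
  have key : ∀ p : Pnt, ∃ (J : Set ℤ) (w : ℤ → Bool), p ∈ NP →
      J.OrdConnected ∧ p ∈ pnt J w '' J := fun p => by
    by_cases hp : p ∈ NP
    · obtain ⟨J, w, h⟩ := exists_pnt_eq hp
      exact ⟨J, w, fun _ => h⟩
    · exact ⟨∅, fun _ => true, fun h => absurd h hp⟩
  choose Jp wp h using key
  have h1 := fun {p} hp => (h p hp).1
  have h2 := fun {p} hp => (h p hp).2
  refine ⟨Jp, wp, fun p hp => ⟨h1 hp, h2 hp, fun p' hp' => ?_⟩⟩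
  obtain ⟨j, hj, e⟩ := hp'
  have hp' : p' ∈ NP := e ▸ pnt_mem_NP (h1 hp) _ hj
  obtain ⟨j', hj', e'⟩ := h2 hp'
  exact (image_pnt_subset (h1 hp') hj' hj (e'.trans e.symm)).antisymm
    (image_pnt_subset (h1 hp) hj hj' (e.trans e'.symm))

theorem tprodE_image {α β : Type} {J : Set α} {g : α → β} (hg : Set.InjOn g J) (f : β → ℕ∞) :
    tprodE (g '' J) f = tprodE J fun j => f (g j) := by
  classical
  refine le_antisymm (tprodE_le fun F hF => ?_) (tprodE_le fun F hF => ?_)
  · obtain ⟨G, hG, rfl⟩ := Finset.subset_set_image_iff.1 hF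
    rw [Finset.prod_image (hg.mono hG)]
    exact le_tprodE (fun j => f (g j)) hG
  · rw [← Finset.prod_image (hg.mono hF)]
    exact le_tprodE f (by rw [Finset.coe_image]; exact Set.image_mono hF)

theorem per_int {w : ℤ → Bool} {r : ℤ} (h : ∀ j, w (j + r) = w j) (t j : ℤ) :
    w (j + t * r) = w j := Function.Periodic.int_mul h t j

theorem per_cases {J : Set ℤ} {w : ℤ → Bool} (h : Per J w) :
    (∃ c, ∀ j, w j = c) ∨ ∃ r d, IsBand w r d := by
  classical
  obtain ⟨-, h⟩ := h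
  obtain ⟨hr, hp⟩ := Nat.find_spec h
  set r := Nat.find h with hr'
  have big : ∀ i m : ℤ, i ≤ m + (i - m).natAbs * (r : ℤ) := fun i m => by
    have h1 : ((i - m).natAbs : ℤ) * 1 ≤ (i - m).natAbs * (r : ℤ) :=
      mul_le_mul_of_nonneg_left (by omega) (by omega)
    omega
  by_cases c : ∃ d, w (d - 1) = false ∧ w d = true
  · obtain ⟨d, h1, h2⟩ := c
    have key : ∀ i ∈ Finset.Ico d (d + r), ∀ j ∈ Finset.Ico d (d + r), i < j →
        rwd Set.univ w i ≠ rwd Set.univ w j := by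
      intro i hi j hj hij e
      rw [Finset.mem_Ico] at hi hj
      refine Nat.find_min h (m := (j - i).toNat) (by omega) ⟨by omega, fun m => ?_⟩
      obtain ⟨k, hk⟩ := Int.le.dest (big i m)
      have := (rwd_letter (congrFun e k) trivial).2
      rw [← per_int hp (i - m).natAbs m, ← hk, this, ← per_int hp (i - m).natAbs]
      congr 1
      omega
    refine Or.inr ⟨r, d, hr, hp, fun i hi j hj e => ?_, h1, h2⟩
    rcases lt_trichotomy i j with c | c | c
    · exact absurd e (key i hi j hj c)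
    · exact c
    · exact absurd e.symm (key j hj i hi c)
  · left
    by_cases c' : ∀ j, w j = true
    · exact ⟨true, c'⟩
    push Not at c c'
    obtain ⟨i, hi⟩ := c'
    have up : ∀ k : ℕ, w (i + k) = false := by
      intro k
      induction k with
      | zero => simpa using hi
      | succ k ih =>
        have := c (i + (k + 1 : ℕ)) (by rw [← ih]; congr 1; push_cast; ring)
        simpa using this
    refine ⟨false, fun m => ?_⟩
    obtain ⟨k, hk⟩ := Int.le.dest (big i m)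
    rw [← per_int hp (i - m).natAbs m, ← hk, up]

theorem IsBand.tprodE_orbit {w : ℤ → Bool} {r : ℕ} {d : ℤ} (hw : IsBand w r d) (f : Pnt → ℕ∞)
    (hf : ∀ p, 1 ≤ f p) : tprodE (pnt Set.univ w '' Set.univ) f =
      ∏ j ∈ Finset.Ico d (d + r), f (pnt Set.univ w j) := by
  have h1 : pnt Set.univ w '' Set.univ = pnt Set.univ w '' (Finset.Ico d (d + r) : Finset ℤ) := by
    refine (Set.image_mono (Set.subset_univ _)).antisymm' ?_
    rintro _ ⟨j, -, rfl⟩
    have hr : (0 : ℤ) < r := by have := hw.pos; omega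
    refine ⟨d + (j - d) % r, Finset.mem_coe.2 (Finset.mem_Ico.2 ⟨?_, ?_⟩), ?_⟩
    · have := Int.emod_nonneg (j - d) hr.ne'; omega
    · have := Int.emod_lt_of_pos (j - d) hr; omega
    · have e : j = d + (j - d) % r + (j - d) / r * r := by
        have := Int.emod_add_ediv_mul (j - d) r; omega
      refine pnt_eq_iff.2 ⟨funext fun k => ?_, funext fun k => ?_⟩
      · simp only [rwd, Set.mem_univ, if_true]
        rw [← per_int hw.per ((j - d) / r)]
        congr 3; omega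
      · simp only [lwd, Set.mem_univ, if_true]
        rw [← per_int hw.per ((j - d) / r)]
        congr 3; omega
  rw [h1, tprodE_image fun i hi j hj e => hw.prim i hi j hj (pnt_eq_iff.1 e).1,
    tprodE_finset _ fun j => hf _]

end Pool.Agent.Lib.MP_c13fce_lc
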