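import Pool.Agent.Lib.MP_c13fce_lc.Defs5

/-! Finitely many summands of a semisimple module suffice. -/

namespace Pool.Agent.Lib.MP_c13fce_lc
open scoped BigOperators

namespace LocSel

variable {S : Type} [Ring S] {M N : Type} [AddCommGroup M] [Module S M] [AddCommGroup N]
  [Module S N]

theorem smul_mem {U : AddSubgroup S} {s : S} (hs : s ∈ U) (v : M) : s • v ∈ rsub U M :=
  AddSubgroup.subset_closure ⟨s, hs, v, rfl⟩

theorem map_mem (U : AddSubgroup S) (f : M →ₗ[S] N) {x : M} (hx : x ∈ rsub U M) :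
    f x ∈ rsub U N := by
  have : rsub U M ≤ (rsub U N).comap f.toAddMonoidHom := (AddSubgroup.closure_le _).2 (by
    rintro _ ⟨s, hs, v, rfl⟩
    change f (s • v) ∈ rsub U N
    rw [map_smul]
    exact smul_mem hs _)
  exact this hx

theorem rsub_prod (U : AddSubgroup S) : rsub U (M × N) = (rsub U M).prod (rsub U N) := by
  refine le_antisymm (fun x hx => ⟨map_mem U (LinearMap.fst S M N) hx,
    map_mem U (LinearMap.snd S M N) hx⟩) fun x hx => ?_
  have := add_mem (map_mem U (LinearMap.inl S M N) hx.1) (map_mem U (LinearMap.inr S M N) hx.2)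
  simpa using this

/-- The index of `U' M` in `U M`. -/
noncomputable def ix (U' U : AddSubgroup S) (M : Type) [AddCommGroup M] [Module S M] : ℕ∞ :=
  eidx (rsub U' M) (rsub U M)

theorem one_le_ix (U' U : AddSubgroup S) : 1 ≤ ix U' U M := one_le_eidx _ _

theorem ix_congr (U' U : AddSubgroup S) (e : M ≃ₗ[S] N) : ix U' U M = ix U' U N :=
  eidx_eq_of_map e.toLinearMap.toAddMonoidHom (fun _ hx => map_mem U e.toLinearMap hx)
    (fun x _ => ⟨fun h => by simpa using map_mem U' e.symm.toLinearMap h,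
      fun h => map_mem U' e.toLinearMap h⟩)
    fun y hy => ⟨e.symm y, map_mem U e.symm.toLinearMap hy, by simp⟩

theorem ix_prod (U' U : AddSubgroup S) : ix U' U (M × N) = ix U' U M * ix U' U N := by
  rw [ix, rsub_prod, rsub_prod, eidx_prod]; rfl

theorem ix_compl (U' U : AddSubgroup S) {W C : Submodule S M} (h : IsCompl W C) :
    ix U' U M = ix U' U W * ix U' U C := by
  rw [← ix_prod, ix_congr U' U (Submodule.prodEquivOfIsCompl W C h)]

theorem ix_subsingleton (U' U : AddSubgroup S) [Subsingleton M] : ix U' U M = 1 :=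
  eidx_eq_one.2 fun x _ => by rw [Subsingleton.elim x 0]; exact zero_mem _

theorem map_span {U : AddSubgroup S} (hU : ∀ s ∈ U, ∀ t, s * t ∈ U) (e : S) :
    (rsub U (Ideal.span {e})).map (Ideal.span {e}).subtype.toAddMonoidHom =
      U.map (AddMonoidHom.mulRight e) := by
  refine le_antisymm (AddSubgroup.map_le_iff_le_comap.2 ((AddSubgroup.closure_le _).2 ?_)) ?_
  · rintro _ ⟨s, hs, ⟨v, hv⟩, rfl⟩
    obtain ⟨t, rfl⟩ := Ideal.mem_span_singleton'.1 hv
    exact ⟨s * t, hU s hs t, mul_assoc s t e⟩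
  · rintro _ ⟨s, hs, rfl⟩
    exact ⟨s • ⟨e, Ideal.mem_span_singleton_self e⟩, smul_mem hs _, rfl⟩

theorem ix_span {U' U : AddSubgroup S} (hU' : ∀ s ∈ U', ∀ t, s * t ∈ U')
    (hU : ∀ s ∈ U, ∀ t, s * t ∈ U) (e : S) : ix U' U (Ideal.span {e}) =
      eidx (U'.map (AddMonoidHom.mulRight e)) (U.map (AddMonoidHom.mulRight e)) := by
  rw [← map_span hU', ← map_span hU, eidx_map _ Subtype.val_injective]; rfl

theorem exists_list [IsSemisimpleRing S] (n : ℕ) : ∀ (M : Type) [AddCommGroup M] [Module S M]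
    [Finite M], Nat.card M = n → ∃ es : List S, (∀ e ∈ es, IsIdempotentElem e) ∧
      ∀ U' U : AddSubgroup S, (∀ s ∈ U', ∀ t, s * t ∈ U') → (∀ s ∈ U, ∀ t, s * t ∈ U) →
        ix U' U M = (es.map fun e =>
          eidx (U'.map (AddMonoidHom.mulRight e)) (U.map (AddMonoidHom.mulRight e))).prod := by
  induction n using Nat.strong_induction_on with
  | _ n ih =>
    intro M _ _ _ hn
    rcases subsingleton_or_nontrivial M with h | h
    · exact ⟨[], by simp, fun U' U _ _ => by simpa using ix_subsingleton U' U⟩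
    obtain ⟨W, hW⟩ := IsSemisimpleModule.exists_simple_submodule S M
    obtain ⟨C, hC⟩ := exists_isCompl W
    obtain ⟨I, ⟨f⟩⟩ := IsSemisimpleRing.exists_linearEquiv_ideal_of_isSimpleModule S W
    obtain ⟨e, he, rfl⟩ := IsSemisimpleRing.ideal_eq_span_idempotent I
    have h1 : Nat.card C < n := by
      rw [← hn, ← Nat.card_congr (Submodule.prodEquivOfIsCompl W C hC).toEquiv, Nat.card_prod]
      have := IsSimpleModule.nontrivial S W
      exact lt_mul_of_one_lt_left Nat.card_pos Finite.one_lt_card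
    obtain ⟨es, h2, h3⟩ := ih _ h1 C rfl
    refine ⟨e :: es, by simpa using ⟨he, h2⟩, fun U' U hU' hU => ?_⟩
    rw [ix_compl U' U hC, ix_congr U' U f, ix_span hU' hU, h3 U' U hU' hU, List.map_cons,
      List.prod_cons]

theorem exists_fg (U : AddSubgroup S) {x : M} (hx : x ∈ rsub U M) :
    ∃ W : Submodule S M, W.FG ∧ ∀ W', W ≤ W' → ∃ y ∈ rsub U W', (y : M) = x := by
  induction hx using AddSubgroup.closure_induction with
  | mem x hx =>
    obtain ⟨s, hs, v, rfl⟩ := hx
    exact ⟨S ∙ v, Submodule.fg_span_singleton v, fun W' h =>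
      ⟨s • ⟨v, h (Submodule.mem_span_singleton_self v)⟩, smul_mem hs _, rfl⟩⟩
  | zero => exact ⟨⊥, Submodule.fg_bot, fun W' _ => ⟨0, zero_mem _, rfl⟩⟩
  | add x y _ _ hx hy =>
    obtain ⟨W, h1, h2⟩ := hx
    obtain ⟨Z, h3, h4⟩ := hy
    refine ⟨W ⊔ Z, h1.sup h3, fun W' h => ?_⟩
    obtain ⟨a, ha, rfl⟩ := h2 W' (le_sup_left.trans h)
    obtain ⟨b, hb, rfl⟩ := h4 W' (le_sup_right.trans h)
    exact ⟨a + b, add_mem ha hb, rfl⟩
  | neg x _ hx =>
    obtain ⟨W, h1, h2⟩ := hx
    refine ⟨W, h1, fun W' h => ?_⟩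
    obtain ⟨a, ha, rfl⟩ := h2 W' h
    exact ⟨-a, neg_mem ha, rfl⟩

theorem exists_sel (U' U : AddSubgroup S) (M : Type) [AddCommGroup M] [Module S M] (B : ℕ) :
    ∃ W : Submodule S M, W.FG ∧ ∀ W', W ≤ W' → min (B : ℕ∞) (ix U' U M) ≤ ix U' U W' := by
  obtain ⟨m, hm⟩ := ENat.ne_top_iff_exists.1
    (ne_top_of_le_ne_top (ENat.natCast_ne_top B) (min_le_left (B : ℕ∞) (ix U' U M)))
  obtain ⟨x, h1, h2⟩ := le_eidx_iff.1 (hm.le.trans (min_le_right _ _))
  choose W h3 h4 using fun i => exists_fg U (h1 i)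
  refine ⟨⨆ i, W i, Submodule.fg_iSup W h3, fun W' h => ?_⟩
  choose y h5 h6 using fun i => h4 i W' ((le_iSup W i).trans h)
  rw [← hm]
  refine le_eidx_iff.2 ⟨y, h5, fun i j hij => h2 i j ?_⟩
  rw [← h6, ← h6]
  exact map_mem U' W'.subtype hij

theorem tprodE_list {α ι : Type} (J : Set ι) (l : List α) (f : α → ι → ℕ∞)
    (hf : ∀ a j, 1 ≤ f a j) :
    tprodE J (fun j => (l.map fun a => f a j).prod) = (l.map fun a => tprodE J (f a)).prod := by
  induction l with
  | nil => exact le_antisymm (tprodE_le fun F _ => by simp) (one_le_tprodE _ _)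
  | cons a l ih =>
    simp only [List.map_cons, List.prod_cons]
    rw [tprodE_mul J (hf a) (fun j => one_le_list_prod l _ fun a => hf a j), ih]

end LocSel

open LocSel in
theorem exists_idem_list {S : Type} [Ring S] [Finite S] [IsSemisimpleRing S] (V : Type)
    [AddCommGroup V] [Module S V] {ι : Type} [Finite ι] (J : Set ℤ) (A A' : ι → ℤ → AddSubgroup S)
    (hA : ∀ i, ∀ j ∈ J, ∀ s ∈ A i j, ∀ t, s * t ∈ A i j)
    (hA' : ∀ i, ∀ j ∈ J, ∀ s ∈ A' i j, ∀ t, s * t ∈ A' i j) (B : ℕ) :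
    ∃ es : List S, (∀ e ∈ es, IsIdempotentElem e) ∧ ∀ i,
      min (B : ℕ∞) (tprodE J fun j => eidx (rsub (A' i j) V) (rsub (A i j) V)) =
      min (B : ℕ∞) (es.map fun e => tprodE J fun j =>
        eidx ((A' i j).map (AddMonoidHom.mulRight e)) ((A i j).map (AddMonoidHom.mulRight e))).prod := by
  choose F hF1 hF2 using fun i => exists_tprodE J (fun j => ix (A' i j) (A i j) V) B
  choose Z hZ1 hZ2 using fun i j => exists_sel (A' i j) (A i j) V B
  set W : Submodule S V := ⨆ i, ⨆ j ∈ F i, Z i j with hW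
  have h1 : W.FG := Submodule.fg_iSup _ fun i => Submodule.fg_biSup _ _ fun j _ => hZ1 i j
  have : Module.Finite S W := Module.Finite.iff_fg.2 h1
  have : Finite W := Module.finite_of_finite S
  obtain ⟨es, h2, h3⟩ := exists_list (S := S) _ W rfl
  obtain ⟨C, hC⟩ := exists_isCompl W
  have h4 : ∀ i j, ix (A' i j) (A i j) W ≤ ix (A' i j) (A i j) V := fun i j => by
    rw [ix_compl _ _ hC]
    exact le_mul_of_one_le_right' (one_le_ix _ _)
  refine ⟨es, h2, fun i => ?_⟩
  rw [← tprodE_list J es (fun e j => eidx ((A' i j).map (AddMonoidHom.mulRight e))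
      ((A i j).map (AddMonoidHom.mulRight e))) (fun _ _ => one_le_eidx _ _),
    ← tprodE_congr (f := fun j => ix (A' i j) (A i j) W)
      fun j hj => h3 _ _ (hA' i j hj) (hA i j hj)]
  refine le_antisymm ?_ (min_le_min_left _ (tprodE_le fun G hG =>
    (Finset.prod_le_prod' fun j _ => h4 i j).trans (le_tprodE _ hG)))
  refine (le_min (min_le_left _ _) (hF2 i)).trans ?_
  rw [min_finset_prod_congr (F i) _ (fun j => ix (A' i j) (A i j) W) (fun _ => one_le_ix _ _)
    (fun _ => one_le_ix _ _) fun j hj => le_antisymm (le_min (min_le_left _ _)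
      (hZ2 i j W (le_iSup_of_le i (le_iSup₂_of_le (f := fun j (_ : j ∈ F i) => Z i j) j hj le_rfl))))
      (min_le_min_left _ (h4 i j))]
  exact min_le_min_left _ (le_tprodE _ (hF1 i))

end Pool.Agent.Lib.MP_c13fce_lc
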