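import Pool.Agent.Lib.MP_c13fce_lc.LocV
import Pool.Agent.Lib.MP_c13fce_lc.LocCov
import Pool.Agent.Lib.MP_c13fce_lc.LocOrb
import Pool.Agent.Lib.MP_c13fce_lc.LocSel
import Pool.Agent.Lib.MP_c13fce_lc.LL
import Pool.Agent.Lib.MP_c13fce_lc.BandLoc

/-! The local theorem. -/

namespace Pool.Agent.Lib.MP_c13fce_lc
open scoped BigOperators
set_option linter.unusedSectionVars false
set_option linter.unusedVariables false

theorem tprodE_eq_one {ι : Type} {J : Set ι} {f : ι → ℕ∞} (h : ∀ j ∈ J, f j = 1) :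
    tprodE J f = 1 :=
  le_antisymm (tprodE_le fun F hF => (Finset.prod_eq_one fun j hj => h j (hF hj)).le)
    (one_le_tprodE J f)

variable {D Λ S : Type} [CommRing D] [IsDomain D] [IsPrincipalIdealRing D] [FinQ D] [Ring Λ]
  [Algebra D Λ] [Module.Finite D Λ] [Ring S] [Algebra D S] [Finite S] [IsSemisimpleRing S]

theorem SD.cls_mem_rsub (Δ : SD D Λ S) {N : Type} [AddCommGroup N] [Module Λ N] [Module D N]
    [IsScalarTower D Λ N] {Y : Sys (act D N Δ.a) (act D N Δ.b)} (hY : Y.Stable Λ) {J : Set ℤ}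
    {w : ℤ → Bool} (hJ : Δ.IsStr J w) {V : Type} [AddCommGroup V] [Module S V]
    (cls : Y.trajG J w →+ V) (hsurj : Function.Surjective cls)
    (hker : ∀ (x : Y.trajG J w), ∀ j ∈ J, cls x = 0 ↔ x.1 j ∈ Y.Ga J w j)
    (hsmul : ∀ (x x' : Y.trajG J w) (s : S), ∀ j ∈ J, ∀ ρ : Λ, Δ.q ρ = Δ.tw w j s →
      x'.1 j - ρ • x.1 j ∈ Y.Ga J w j → cls x' = s • cls x) (φ : PP Λ) {j : ℤ} (hj : j ∈ J)
    (x : Y.trajG J w) : (∃ z ∈ Y.Ga J w j, x.1 j + z ∈ φ.set N) ↔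
      cls x ∈ rsub ((Δ.U φ J w j).comap (Δ.tw w j).toRingEquiv.toAddMonoidHom) V := by
  rw [Δ.local_str hJ φ hj N Y hY (x.2.2 j hj)]
  have ex : ∀ y ∈ Y.Qa J w j, ∃ t : Y.trajG J w, t.1 j = y := fun y hy => by
    obtain ⟨t, ht, e⟩ := Y.exists_traj (Δ.act_ba N) (Δ.act_ab N) hJ.oc w hj hy
    exact ⟨⟨t, ht⟩, e⟩
  constructor
  · intro h
    obtain ⟨y, hy, g, hg, e⟩ := AddSubgroup.mem_sup.1 h
    have : ∃ t : Y.trajG J w, t.1 j = y ∧
        cls t ∈ rsub ((Δ.U φ J w j).comap (Δ.tw w j).toRingEquiv.toAddMonoidHom) V := by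
      refine AddSubgroup.closure_induction (p := fun y _ => ∃ t : Y.trajG J w, t.1 j = y ∧
        cls t ∈ rsub ((Δ.U φ J w j).comap (Δ.tw w j).toRingEquiv.toAddMonoidHom) V) ?_
        ⟨0, rfl, by rw [map_zero]; exact zero_mem _⟩ ?_ ?_ hy
      · rintro _ ⟨r, x', hr, hx', rfl⟩
        obtain ⟨t', rfl⟩ := ex x' hx'
        obtain ⟨t, ht⟩ := ex _ (Δ.Qa_smul hY r hx')
        refine ⟨t, ht, AddSubgroup.subset_closure ⟨(Δ.tw w j).symm (Δ.q r), ?_, cls t',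
          hsmul t' t _ j hj r (by simp) (by rw [ht, sub_self]; exact zero_mem _)⟩⟩
        simpa using hr
      · rintro _ _ - - ⟨t, rfl, h⟩ ⟨t', rfl, h'⟩
        exact ⟨t + t', rfl, by rw [map_add]; exact add_mem h h'⟩
      · rintro _ - ⟨t, rfl, h⟩
        exact ⟨-t, rfl, by rw [map_neg]; exact neg_mem h⟩
    obtain ⟨t, rfl, ht⟩ := this
    have h0 : cls (x - t) = 0 := (hker _ j hj).2 (by
      change x.1 j - t.1 j ∈ _
      rw [← e, add_sub_cancel_left]; exact hg)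
    rw [map_sub, sub_eq_zero] at h0
    rwa [h0]
  · intro h
    have : ∃ t : Y.trajG J w, cls t = cls x ∧ t.1 j ∈ AddSubgroup.closure
        {y | ∃ (r : Λ) (x' : N), Δ.q r ∈ Δ.U φ J w j ∧ x' ∈ Y.Qa J w j ∧ y = r • x'} := by
      refine AddSubgroup.closure_induction (p := fun v _ => ∃ t : Y.trajG J w, cls t = v ∧
        t.1 j ∈ AddSubgroup.closure
          {y | ∃ (r : Λ) (x' : N), Δ.q r ∈ Δ.U φ J w j ∧ x' ∈ Y.Qa J w j ∧ y = r • x'}) ?_
        ⟨0, map_zero _, zero_mem _⟩ ?_ ?_ h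
      · rintro _ ⟨s, hs, v, rfl⟩
        obtain ⟨t', rfl⟩ := hsurj v
        obtain ⟨r, hr⟩ := Δ.q_surj (Δ.tw w j s)
        obtain ⟨t, ht⟩ := ex _ (Δ.Qa_smul hY r (t'.2.2 j hj))
        exact ⟨t, hsmul t' t s j hj r hr (by rw [ht, sub_self]; exact zero_mem _),
          AddSubgroup.subset_closure ⟨r, _, hr ▸ hs, t'.2.2 j hj, ht⟩⟩
      · rintro _ _ - - ⟨t, rfl, h⟩ ⟨t', rfl, h'⟩
        exact ⟨t + t', map_add _ _ _, add_mem h h'⟩
      · rintro _ - ⟨t, rfl, h⟩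
        exact ⟨-t, map_neg _ _, neg_mem h⟩
    obtain ⟨t, e, ht⟩ := this
    have h0 : x.1 j - t.1 j ∈ Y.Ga J w j :=
      (hker (x - t) j hj).1 (by rw [map_sub, e, sub_self])
    exact AddSubgroup.mem_sup.2 ⟨_, ht, _, h0, by abel⟩

theorem eidx_tw (τ : S ≃ₐ[D] S) (U U' : AddSubgroup S) (e : S) :
    eidx ((U'.comap τ.toRingEquiv.toAddMonoidHom).map (AddMonoidHom.mulRight e))
      ((U.comap τ.toRingEquiv.toAddMonoidHom).map (AddMonoidHom.mulRight e)) =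
    eidx (U'.map (AddMonoidHom.mulRight (τ e))) (U.map (AddMonoidHom.mulRight (τ e))) := by
  have key : ∀ W : AddSubgroup S, ((W.comap τ.toRingEquiv.toAddMonoidHom).map
      (AddMonoidHom.mulRight e)).map τ.toRingEquiv.toAddMonoidHom =
        W.map (AddMonoidHom.mulRight (τ e)) := fun W => by
    ext y
    constructor
    · rintro ⟨_, ⟨s, hs, rfl⟩, rfl⟩
      exact ⟨τ s, hs, by simp⟩
    · rintro ⟨s, hs, rfl⟩
      exact ⟨_, ⟨τ.symm s, by simpa using hs, rfl⟩, by simp⟩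
  rw [← key U, ← key U', eidx_map τ.toRingEquiv.toAddMonoidHom τ.injective]

theorem SD.local_match (Δ : SD D Λ S) (𝒩 : ModuleCat.{0} Λ → Prop)
    (hS : ∀ J w e, Δ.IsStr J w → IsIdempotentElem e → ∃ C : ModuleCat.{0} Λ, 𝒩 C ∧
      ∀ φ ψ : PP Λ, ψ.Le φ → ind φ ψ C = Δ.wt φ ψ J w e)
    (hB : ∀ w r d, IsBand w r d → Δ.b ≠ 0 → ∀ (V : Type) [AddCommGroup V] [Module S V]
      (T : V ≃+ V), (∀ (s : S) (v : V), T (s • v) = Δ.twp w r d s • T v) →
      ∀ (ι : Type) [Finite ι] (φ ψ : ι → PP Λ), (∀ i, (ψ i).Le (φ i)) → ∀ B : ℕ,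
      ∃ Cs : List (ModuleCat.{0} Λ), (∀ C ∈ Cs, 𝒩 C) ∧ ∀ i,
        min (B : ℕ∞) (∏ j ∈ Finset.Ico d (d + r),
          eidx ((Δ.bandTF (ψ i) w r d j).set T.toAddMonoidHom)
            ((Δ.bandTF (φ i) w r d j).set T.toAddMonoidHom)) =
        min (B : ℕ∞) (Cs.map fun C : ModuleCat.{0} Λ => ind (φ i) (ψ i) C).prod)
    (M : Type) [AddCommGroup M] [Module Λ M] (ι : Type) [Finite ι] (φ ψ : ι → PP Λ)
    (hle : ∀ i, (ψ i).Le (φ i))
    (hk : ∃ k : ℕ, ∀ i, ∀ x ∈ (φ i).set M, algebraMap D Λ (Δ.π ^ k) • x ∈ (ψ i).set M) (B : ℕ) :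
    ∃ Cs, (∀ C ∈ Cs, 𝒩 C) ∧ Match B φ ψ M Cs := by
  let _ : Module D M := Module.compHom M (algebraMap D Λ)
  have : IsScalarTower D Λ M := IsScalarTower.of_algebraMap_smul fun _ _ => rfl
  obtain ⟨Y, hY⟩ := exists_ddSys Δ M
  obtain ⟨Jp, wp, hO⟩ := exists_orbits
  obtain ⟨k, hk⟩ := hk
  have hk' : ∀ i, ∀ x ∈ (φ i).set (DD D M),
      algebraMap D Λ (Δ.π ^ k) • x ∈ (ψ i).set (DD D M) := fun i x hx =>
    (pp_dd _ M _).2 fun χ hχ => (pp_dd _ M _).1 hx _ fun y hy => hχ _ (hk i y hy)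
  have hab := Δ.act_ab (DD D M)
  have hba := Δ.act_ba (DD D M)
  have orbit : ∀ (J : Set ℤ) (w : ℤ → Bool), J.OrdConnected → J.Nonempty →
      ∃ Cs : List (ModuleCat.{0} Λ), (∀ C ∈ Cs, 𝒩 C) ∧ ∀ i, min (B : ℕ∞) (tprodE (pnt J w '' J)
        (Y.lidx ((ψ i).set (DD D M)) ((φ i).set (DD D M)))) =
        min (B : ℕ∞) (Cs.map fun C : ModuleCat.{0} Λ => ind (φ i) (ψ i) C).prod := by
    intro J w hJ hne
    by_cases hadm : Δ.Adm J w
    swap
    · refine ⟨[], by simp, fun i => ?_⟩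
      rw [tprodE_eq_one]; · rfl
      rintro _ ⟨j, hj, rfl⟩
      exact Y.lidx_eq_one fun x hx _ _ _ =>
        ⟨-x, neg_mem (Δ.Qa_le_of_not_adm hJ hadm hj hx), by simp⟩
    by_cases hc : J = Set.univ ∧ ∀ m, w (m + 1) = w m
    · obtain ⟨rfl, hc⟩ := hc
      refine ⟨[], by simp, fun i => ?_⟩
      rw [tprodE_eq_one]; · rfl
      rintro _ ⟨j, hj, rfl⟩
      exact Δ.const_one hY.stable hc j _ _ (hk' i)
    obtain ⟨V, _, _, cls, hsurj, hker, hsmul⟩ := Δ.exists_V hY.stable hJ hne hc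
    by_cases hp : Per J w
    · obtain ⟨r, d, hw⟩ := (per_cases hp).resolve_left fun ⟨c, h⟩ =>
        hc ⟨hp.1, fun m => by rw [h, h]⟩
      obtain rfl := hp.1
      have hb : Δ.b ≠ 0 := hadm.resolve_right fun h => by
        have := h (d - 1) trivial trivial
        rw [hw.left] at this
        cases this
      obtain ⟨T, hT, hsemi⟩ := Δ.exists_T hY.stable (d := d) hw.per cls hsurj
        (fun x j => hker x j trivial) fun x x' s j => hsmul x x' s j trivial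
      obtain ⟨Cs, h1, h2⟩ := hB w r d hw hb V T hsemi ι φ ψ hle B
      refine ⟨Cs, h1, fun i => ?_⟩
      rw [← h2 i, hw.tprodE_orbit _ (Y.one_le_lidx _ _)]
      congr 1
      refine Finset.prod_congr rfl fun j hj => ?_
      have L := fun θ => Δ.band_local hw hb M Y hY V cls hsurj (fun x j => hker x j trivial)
        (fun x x' s j => hsmul x x' s j trivial) T hT hsemi θ hj
      exact Y.lidx_cls hba hab hJ cls hsurj trivial (L _) (L _)
    · have hstr : Δ.IsStr J w := ⟨hJ, hne, hp, hadm⟩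
      have hr : ∀ (θ : PP Λ), ∀ j ∈ J,
          ∀ s ∈ (Δ.U θ J w j).comap (Δ.tw w j).toRingEquiv.toAddMonoidHom, ∀ t,
          s * t ∈ (Δ.U θ J w j).comap (Δ.tw w j).toRingEquiv.toAddMonoidHom :=
        fun θ j hj s hs t => by
          have := Δ.U_mul_mem hstr θ hj hs (Δ.tw w j t)
          simpa using this
      obtain ⟨es, he, h2⟩ := exists_idem_list V J
        (fun i j => (Δ.U (φ i) J w j).comap (Δ.tw w j).toRingEquiv.toAddMonoidHom)
        (fun i j => (Δ.U (ψ i) J w j).comap (Δ.tw w j).toRingEquiv.toAddMonoidHom)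
        (fun i => hr _) (fun i => hr _) B
      have : Nonempty (ModuleCat.{0} Λ) := ⟨ModuleCat.of Λ PUnit⟩
      choose! C hC using fun e => hS J w e hstr
      refine ⟨es.map C, fun X hX => ?_, fun i => ?_⟩
      · obtain ⟨e, h, rfl⟩ := List.mem_map.1 hX
        exact (hC e (he e h)).1
      · rw [tprodE_image (pnt_injOn hJ hp), tprodE_congr fun j hj => Y.lidx_cls hba hab hJ cls
          hsurj hj (Δ.cls_mem_rsub hY.stable hstr cls hsurj hker hsmul _ hj)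
          (Δ.cls_mem_rsub hY.stable hstr cls hsurj hker hsmul _ hj), h2 i, List.map_map]
        congr 2
        refine List.map_congr_left fun e h => ?_
        rw [Function.comp_apply, (hC e (he e h)).2 _ _ (hle i), SD.wt]
        exact tprodE_congr fun j _ => eidx_tw _ _ _ _
  obtain ⟨Cs, h1, h2⟩ := match_of_orbits NP (fun p => pnt (Jp p) (wp p) '' Jp p)
    (fun p hp => ⟨(hO p hp).2.1, by
      rintro _ ⟨j, hj, rfl⟩
      exact pnt_mem_NP (hO p hp).1 _ hj, (hO p hp).2.2⟩)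
    (fun i => Y.lidx ((ψ i).set (DD D M)) ((φ i).set (DD D M))) (fun i => Y.one_le_lidx _ _)
    (fun i (C : ModuleCat.{0} Λ) => ind (φ i) (ψ i) C) (fun i C => one_le_ind _ _) 𝒩 B
    fun p hp => orbit _ _ (hO p hp).1 ((hO p hp).2.1.elim fun j hj => ⟨j, hj.1⟩)
  exact ⟨Cs, h1, fun i => by rw [ind_eq_tprodE Δ M Y hY _ _ (hle i)]; exact h2 i⟩

end Pool.Agent.Lib.MP_c13fce_lc
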