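import Pool.Agent.Lib.MP_c13fce_lc.RS1

/-! Realisation of strings, part 2: retracts, well ordered sets of positions, finite strings. -/

namespace Pool.Agent.Lib.MP_c13fce_lc
open scoped BigOperators
set_option linter.unusedSectionVars false

namespace RS

/-- The positions in `τ` are well ordered. -/
def WO (J : Set ℤ) (w : ℤ → Bool) (τ : Set ℤ) : Prop :=
  τ.WellFoundedOn fun i j => pnt J w i < pnt J w j

/-- The positions in `τ` are conversely well ordered. -/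
def RWO (J : Set ℤ) (w : ℤ → Bool) (τ : Set ℤ) : Prop :=
  τ.WellFoundedOn fun i j => pnt J w j < pnt J w i

instance so_lt (J : Set ℤ) (w : ℤ → Bool) :
    IsStrictOrder ℤ fun i j => pnt J w i < pnt J w j where
  irrefl _ := lt_irrefl _
  trans _ _ _ := lt_trans

instance so_gt (J : Set ℤ) (w : ℤ → Bool) :
    IsStrictOrder ℤ fun i j => pnt J w j < pnt J w i where
  irrefl _ := lt_irrefl _
  trans _ _ _ h h' := lt_trans h' h

theorem wf_min {r : ℤ → ℤ → Prop} {τ T : Set ℤ} (h : τ.WellFoundedOn r) (hT : T ⊆ τ)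
    (hne : T.Nonempty) : ∃ j ∈ T, ∀ i ∈ T, ¬ r i j := by
  obtain ⟨j, hj, hj'⟩ := (Set.wellFoundedOn_iff.1 h).has_min T hne
  exact ⟨j, hj, fun i hi hr => hj' i hi ⟨hr, hT hi, hT hj⟩⟩

theorem wo_of_period {r : ℤ → ℤ → Prop} [IsStrictOrder ℤ r] {τ : Set ℤ} {s d n0 : ℤ} {p : ℕ}
    (hs : s = 1 ∨ s = -1) (hp : 0 < p) (hτ : ∀ j ∈ τ, s * d ≤ s * j)
    (h : ∀ i ∈ τ, ∀ m : ℕ, 0 < m → s * n0 ≤ s * i → i + s * (p * m) ∈ τ →
      r i (i + s * (p * m))) : τ.WellFoundedOn r := by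
  rw [Set.wellFoundedOn_iff_no_descending_seq]
  intro f hf
  have : NeZero p := ⟨hp.ne'⟩
  obtain ⟨c, hc⟩ := Finite.exists_infinite_fiber fun k => ((f k : ℤ) : ZMod p)
  have hc' : ((fun k => ((f k : ℤ) : ZMod p)) ⁻¹' {c}).Infinite := Set.infinite_coe_iff.1 hc
  have hfin : ∀ x : ℤ, {k | s * f k ≤ x}.Finite := fun x => by
    refine ((Set.finite_Icc (-(|x| + |d|)) (|x| + |d|)).preimage f.injective.injOn).subset
      fun k hk => ?_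
    have h1 := hτ _ (hf k)
    have h2 : s * f k ≤ x := hk
    have := le_abs_self x
    have := neg_abs_le x
    have := le_abs_self d
    have := neg_abs_le d
    rcases hs with rfl | rfl <;> constructor <;> omega
  obtain ⟨k, hk, hk'⟩ := (hc'.sdiff (hfin (s * n0))).nonempty
  obtain ⟨k', ⟨hk1, hk2⟩, hk3⟩ := ((hc'.sdiff (hfin (s * f k))).sdiff (Set.finite_Iic k)).nonempty
  simp only [Set.mem_preimage, Set.mem_singleton_iff, Set.mem_ofPred_eq, not_le,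
    Set.mem_Iic] at hk hk' hk1 hk2 hk3
  obtain ⟨m, hm⟩ := (ZMod.intCast_eq_intCast_iff_dvd_sub (f k) (f k') p).1 (hk.trans hk1.symm)
  have hpos : (0 : ℤ) < p := by exact_mod_cast hp
  have h3 : 0 < s * m := by
    have : 0 < (p : ℤ) * (s * m) := by rw [mul_left_comm, ← hm, mul_sub]; omega
    exact (pos_iff_pos_of_mul_pos this).1 hpos
  obtain ⟨m', hm'⟩ := Int.eq_ofNat_of_zero_le h3.le
  have h4 : f k' = f k + s * (p * m') := by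
    rw [← hm']
    rcases hs with rfl | rfl <;> linear_combination hm
  have h5 := h _ (hf k) m' (by omega) hk'.le (h4 ▸ hf k')
  rw [← h4] at h5
  exact asymm h5 (f.map_rel_iff.2 hk3)

theorem ev_sub {J τ : Set ℤ} {w : ℤ → Bool} (h : WO J w τ) (hτ : τ ⊆ J) {ι : Type}
    {𝒰 : Filter ι} {Γ : ι → Set ℤ} {Γ0 : Set ℤ} (h1 : ∀ i, Lw J w (Γ i))
    (h2 : ∀ j, j ∉ Γ0 → ∀ᶠ i in 𝒰, j ∉ Γ i) : ∀ᶠ i in 𝒰, Γ i ∩ τ ⊆ Γ0 := by
  rcases (τ \ Γ0).eq_empty_or_nonempty with h0 | hne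
  · exact Filter.Eventually.of_forall fun i j hj => Set.sdiff_eq_empty.1 h0 hj.2
  obtain ⟨j0, hj0, hmin⟩ := wf_min h Set.sdiff_subset hne
  refine (h2 j0 hj0.2).mono fun i hi j hj => ?_
  by_contra hj'
  exact hi (h1 i j0 (hτ hj0.1) j hj.1 (hτ hj.2) (not_lt.1 (hmin j ⟨hj.2, hj'⟩)))

theorem fin_of_rwo {J τ : Set ℤ} {w : ℤ → Bool} (h : RWO J w τ) (Γ : Set ℤ) :
    ∃ F : Finset ℤ, (F : Set ℤ) ⊆ Γ ∩ τ ∧ Γ ∩ τ ⊆ {i | ∃ j ∈ F, pnt J w i ≤ pnt J w j} := by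
  rcases (Γ ∩ τ).eq_empty_or_nonempty with h0 | hne
  · exact ⟨∅, by simp, by simp [h0]⟩
  obtain ⟨j0, hj0, hmax⟩ := wf_min h Set.inter_subset_right hne
  exact ⟨{j0}, by simpa using hj0, fun i hi => ⟨j0, by simp, not_lt.1 (hmax i hi)⟩⟩

section Main
variable {D Λ S : Type} [CommRing D] [IsDomain D] [IsPrincipalIdealRing D] [FinQ D] [Ring Λ]
  [Algebra D Λ] [Module.Finite D Λ] [Ring S] [Algebra D S] [Finite S] [IsSemisimpleRing S]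
  {Δ : SD D Λ S} {J : Set ℤ} {w : ℤ → Bool} {e : S} {ρ : ℤ → Λ}

theorem Ctx.exists_rh (h : Ctx Δ J w e ρ) (σ : Set ℤ) :
    ∃ f : Module.End Λ (St Δ.a Δ.b σ w), ∀ (M : ℕ) j,
      (f ^ M) (stE Δ.a Δ.b σ w j) = ρ j ^ M • stE Δ.a Δ.b σ w j := by
  obtain ⟨f, hf⟩ := exists_stLift (h.fam.traj (traj_stE (a := Δ.a) (b := Δ.b) (J := σ) (w := w)))
  refine ⟨f, fun M j => ?_⟩
  induction M with
  | zero => simp
  | succ M ih => rw [pow_succ', Module.End.mul_apply, ih, map_smul, hf, pow_succ, mul_smul]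

variable (Δ w ρ) in
/-- A retract of a string module cut out by powers of the family. -/
structure RetP (τ : Set ℤ) (Y : Type) [AddCommGroup Y] [Module Λ Y] where
  θ : St Δ.a Δ.b τ w →ₗ[Λ] Y
  lam : Y →ₗ[Λ] St Δ.a Δ.b τ w
  ret : ∀ y, θ (lam y) = y
  pw : ∀ j, ∃ M, 0 < M ∧ lam (θ (stE Δ.a Δ.b τ w j)) = ρ j ^ M • stE Δ.a Δ.b τ w j

variable {τ : Set ℤ} {Y : Type} [AddCommGroup Y] [Module Λ Y]

/-- The filtration of a retract. -/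
noncomputable def RetP.L (R : RetP Δ w ρ τ Y) (Γ : Set ℤ) : Submodule Λ Y :=
  (stL Δ.a Δ.b τ w Γ).comap R.lam

theorem RetP.mono (R : RetP Δ w ρ τ Y) {Γ Γ' : Set ℤ} (h : Γ ∩ τ ⊆ Γ') : R.L Γ ≤ R.L Γ' :=
  Submodule.comap_mono (stL_mono h)

theorem RetP.map_mem (R : RetP Δ w ρ τ Y) {Γ : Set ℤ} {z : St Δ.a Δ.b τ w}
    (hz : z ∈ stL Δ.a Δ.b τ w Γ) : R.θ z ∈ R.L Γ :=
  map_stL_le R.θ (P := R.L Γ) (fun j hj _ => by
    obtain ⟨M, -, hM⟩ := R.pw j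
    change R.lam _ ∈ stL Δ.a Δ.b τ w Γ
    rw [hM]
    exact Submodule.smul_mem _ _ (stE_mem hj)) hz

theorem RetP.top (R : RetP Δ w ρ τ Y) : R.L τ = ⊤ := by rw [RetP.L, stL_top, Submodule.comap_top]

theorem RetP.bot (R : RetP Δ w ρ τ Y) : R.L ∅ = ⊥ := by
  refine eq_bot_iff.2 fun y hy => ?_
  rw [RetP.L, stL_empty, Submodule.mem_comap, Submodule.mem_bot] at hy
  rw [← R.ret y, hy, map_zero]
  exact zero_mem _

theorem RetP.step (R : RetP Δ w ρ τ Y) {Γ : Set ℤ} {j : ℤ} {x : Y} (hx : x ∈ R.L (insert j Γ)) :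
    ∃ r : Λ, x - r • R.θ (stE Δ.a Δ.b τ w j) ∈ R.L Γ := by
  rw [RetP.L, Submodule.mem_comap, stL_insert] at hx
  obtain ⟨u, hu, z, hz, hx⟩ := Submodule.mem_sup.1 hx
  obtain ⟨r, rfl⟩ := Submodule.mem_span_singleton.1 hu
  refine ⟨r, ?_⟩
  rw [← R.ret x, ← hx, map_add, map_smul, add_sub_cancel_left]
  exact R.map_mem hz

theorem RetP.near (R : RetP Δ w ρ τ Y) (h : Ctx Δ J w e ρ) (hτ : τ ⊆ J) {j : ℤ} (hj : j ∈ J) :
    R.lam (R.θ (stE Δ.a Δ.b τ w j)) - ρ j • stE Δ.a Δ.b τ w j ∈ stL Δ.a Δ.b τ w (low J w j) := by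
  obtain ⟨M, hM, hM'⟩ := R.pw j
  rw [hM', ← sub_smul]
  exact h.rad_low hτ (h.q_pow j hM) hj

theorem RetP.fix (R : RetP Δ w ρ τ Y) (h : Ctx Δ J w e ρ) (hτ : τ ⊆ J) {j : ℤ} (hj : j ∈ J) :
    R.θ (stE Δ.a Δ.b τ w j) - ρ j • R.θ (stE Δ.a Δ.b τ w j) ∈ R.L (low J w j) := by
  have := R.map_mem (R.near h hτ hj)
  rwa [map_sub, R.ret, map_smul] at this

theorem RetP.deep (R : RetP Δ w ρ τ Y) (h : Ctx Δ J w e ρ) (hτ : τ ⊆ J) {n : ℤ}
    (hn : Deep J w n) : R.lam (R.θ (stE Δ.a Δ.b τ w n)) = ρ n • stE Δ.a Δ.b τ w n := by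
  obtain ⟨M, hM, hM'⟩ := R.pw n
  rw [hM', ← sub_eq_zero, ← sub_smul]
  exact deep_rad hτ (h.q_pow n hM) hn

theorem RetP.deep' (R : RetP Δ w ρ τ Y) (h : Ctx Δ J w e ρ) (hτ : τ ⊆ J) {n : ℤ}
    (hn : Deep J w n) : ρ n • R.θ (stE Δ.a Δ.b τ w n) = R.θ (stE Δ.a Δ.b τ w n) := by
  rw [← map_smul, ← R.deep h hτ hn, R.ret]

/-- A retract over a well ordered set of positions is a part. -/
noncomputable def RetP.part (R : RetP Δ w ρ τ Y) (h : Ctx Δ J w e ρ) (hτ : τ ⊆ J)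
    (hoc : τ.OrdConnected) (hwo : WO J w τ) {d : ℤ} {c0 : Λ} (hd : c0 = 0 ∨ Deep J w d) :
    Part Δ J w ρ τ d c0 Y (c0 • R.θ (stE Δ.a Δ.b τ w d)) where
  θ := R.θ
  θd := rfl
  L := R.L
  mono _ _ := R.mono
  θL _ := R.map_mem (stE_mem rfl)
  top := R.top
  bot := R.bot
  step _ _ _ hx := R.step hx
  fix _ hj := R.fix h hτ hj
  fin Γ z hz := by
    obtain ⟨F, hF, hz'⟩ := mem_stL_finite hz
    exact ⟨F, hF, stL_mono (fun i hi => Exists.intro i ⟨hi.1, le_rfl⟩) hz'⟩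
  win F hF := ⟨τ, hoc, hF, subset_rfl, R.lam, fun _ _ hz => hz, fun j hj => R.near h hτ (hτ hj), by
    rcases hd with rfl | hd
    · simp
    · rw [map_smul, R.deep h hτ hd, mul_smul]⟩
  lim φ c x 𝒰 Γ Γ0 h1 _ h2 h3 := by
    obtain ⟨i, hi, z, hz, hz'⟩ := ((ev_sub hwo hτ h1 h2).and h3).exists
    exact ⟨z, R.mono hi hz, hz'⟩

theorem Ctx.exists_retP (h : Ctx Δ J w e ρ) {σ : Set ℤ} (hσ : σ.Finite) :
    ∃ Z : Submodule Λ (St Δ.a Δ.b σ w), Finite Z ∧ Nonempty (RetP Δ w ρ σ Z) := by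
  have := Δ.finite_St (w := w) hσ
  obtain ⟨f, hf⟩ := h.exists_rh σ
  have : Finite (Module.End Λ (St Δ.a Δ.b σ w)) :=
    Finite.of_injective _ (DFunLike.coe_injective (F := Module.End Λ (St Δ.a Δ.b σ w)))
  obtain ⟨M, hM, hM'⟩ := exists_idem (fun n => f ^ n) fun i j hij => by
    simp only [pow_succ, hij]
  refine ⟨LinearMap.range (f ^ M), inferInstance, ⟨(f ^ M).rangeRestrict, Submodule.subtype _,
    ?_, fun j => ⟨M, hM, hf M j⟩⟩⟩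
  rintro ⟨_, y, rfl⟩
  refine Subtype.ext ?_
  change (f ^ M) ((f ^ M) y) = (f ^ M) y
  rw [← Module.End.mul_apply, ← pow_add, ← two_mul, hM']

end Main
end RS

section
variable {D Λ S : Type} [CommRing D] [IsDomain D] [IsPrincipalIdealRing D] [FinQ D] [Ring Λ]
  [Algebra D Λ] [Module.Finite D Λ] [Ring S] [Algebra D S] [Finite S] [IsSemisimpleRing S]

theorem SD.real_str_fin (Δ : SD D Λ S) {J : Set ℤ} {w : ℤ → Bool} (hJ : Δ.IsStr J w)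
    (hfin : J.Finite) {e : S} (he : IsIdempotentElem e) : ∃ C : ModuleCat.{0} Λ, Finite C ∧
      ∀ φ ψ : PP Λ, ψ.Le φ → ind φ ψ C = Δ.wt φ ψ J w e := by
  obtain ⟨ρ, hρ⟩ := Δ.exists_fam w e
  have h : RS.Ctx Δ J w e ρ := ⟨hJ, hρ, he⟩
  obtain ⟨Z, hZ, ⟨R⟩⟩ := h.exists_retP hfin
  exact ⟨ModuleCat.of Λ Z, hZ, fun φ ψ hle => (R.part h subset_rfl hJ.oc hfin.wellFoundedOn
    (d := 0) (Or.inl rfl)).count h φ ψ hle⟩

end
end Pool.Agent.Lib.MP_c13fce_lc
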