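import Pool.Agent.Lib.MP_c13fce_lc.BandPar4
import Pool.Agent.Lib.MP_c13fce_lc.Glob
import Pool.Agent.Lib.MP_c13fce_lc.Loc
import Pool.Agent.Lib.MP_c13fce_lc.RS2

/-! Block E: every module with a twisted automorphism is matched by nice ones. -/

namespace Pool.Agent.Lib.MP_c13fce_lc

namespace BandPar

open MonoidAlgebra

theorem match_tw {p : ℕ} [Fact p.Prime] {G : Type} [Group G] [Cen p G]
    (M : Type) [AddCommGroup M] [Module (Eg p G) M] (ι : Type) [Finite ι]
    (φ ψ : ι → PP (Eg p G)) (B : ℕ) : ∃ Cs, (∀ C ∈ Cs, Tw p G C) ∧ Match B φ ψ M Cs := by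
  refine global_match (Dp p) (Eg p G) reg (Tw p G) tw_finite ?_ M ι φ ψ B
  intro π hπ M _ _ _ ι _ φ ψ hle hk B
  obtain ⟨S, _, _, _, _, Δ, rfl, ha, hb, hσ⟩ := exists_SD (G := G) hπ
  refine Δ.local_match (Tw p G) (fun J w e hJ he => ?_) (fun _ _ _ _ h => absurd hb h) M ι φ ψ
    hle hk B
  by_cases hfin : J.Finite
  · obtain ⟨C, hC, h⟩ := Δ.real_str_fin hJ hfin he
    exact ⟨C, tw_finite C hC, h⟩
  · obtain ⟨n, hn⟩ := inf_cases hJ.oc hfin fun hu => hJ.np ⟨hu, 1, one_pos, fun j => by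
      have := hJ.adm.resolve_left (by simp [hb])
      rw [this j (by simp [hu]) (by simp [hu]), this _ (by simp [hu]) (by simp [hu])]⟩
    exact real_inf Δ ha hb hσ hJ hn e

variable {p : ℕ} {H : Type} [Group H]

/-- The group generated by `H`, the scalars and the shift. -/
@[ext] structure Gh (ω : H →* (ZMod p)ˣ) where
  h : H
  c : (ZMod p)ˣ
  n : ℤ

variable {ω : H →* (ZMod p)ˣ}

instance : Mul (Gh ω) := ⟨fun x y => ⟨x.h * y.h, x.c * y.c * ω y.h ^ x.n, x.n + y.n⟩⟩
instance : One (Gh ω) := ⟨⟨1, 1, 0⟩⟩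
instance : Inv (Gh ω) := ⟨fun x => ⟨x.h⁻¹, x.c⁻¹ * ω x.h ^ x.n, -x.n⟩⟩

@[simp] theorem mul_h (x y : Gh ω) : (x * y).h = x.h * y.h := rfl
@[simp] theorem mul_c (x y : Gh ω) : (x * y).c = x.c * y.c * ω y.h ^ x.n := rfl
@[simp] theorem mul_n (x y : Gh ω) : (x * y).n = x.n + y.n := rfl
@[simp] theorem one_h : (1 : Gh ω).h = 1 := rfl
@[simp] theorem one_c : (1 : Gh ω).c = 1 := rfl
@[simp] theorem one_n : (1 : Gh ω).n = 0 := rfl
@[simp] theorem inv_h (x : Gh ω) : x⁻¹.h = x.h⁻¹ := rfl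
@[simp] theorem inv_c (x : Gh ω) : x⁻¹.c = x.c⁻¹ * ω x.h ^ x.n := rfl
@[simp] theorem inv_n (x : Gh ω) : x⁻¹.n = -x.n := rfl

instance : Group (Gh ω) := Group.ofLeftAxioms
  (fun x y z => Gh.ext (by simp [mul_assoc])
    (by simp only [mul_c, mul_h, mul_n, map_mul, mul_zpow, zpow_add, mul_assoc, mul_comm,
      mul_left_comm]) (by simp [add_assoc]))
  (fun x => Gh.ext (by simp) (by simp) (by simp))
  fun x => Gh.ext (by simp) (by simp [mul_right_comm _ _ x.c]) (by simp)

variable (ω) in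
/-- The elements of degree zero. -/
def j0 : H × (ZMod p)ˣ →* Gh ω where
  toFun x := ⟨x.1, x.2, 0⟩
  map_one' := rfl
  map_mul' x y := Gh.ext rfl (by simp) (by simp)

variable (ω) in
/-- The powers of the shift. -/
def ζ : Multiplicative ℤ →* Gh ω where
  toFun n := ⟨1, 1, n.toAdd⟩
  map_one' := rfl
  map_mul' x y := Gh.ext (by simp) (by simp) (by simp)

variable (ω) in
/-- The degree. -/
def dg : Gh ω →* Multiplicative ℤ where
  toFun x := Multiplicative.ofAdd x.n
  map_one' := rfl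
  map_mul' _ _ := rfl

theorem ζ_zpow (m n : ℤ) : (⟨1, 1, m⟩ : Gh ω) ^ n = ⟨1, 1, m * n⟩ := by
  change ζ ω (Multiplicative.ofAdd m) ^ n = ζ ω (Multiplicative.ofAdd (m * n))
  rw [← map_zpow, ← ofAdd_zsmul, smul_eq_mul, mul_comm]

variable [Fact p.Prime]

theorem cen (x : Gh ω) : x * ⟨1, 1, ((p - 1 : ℕ) : ℤ)⟩ = ⟨1, 1, ((p - 1 : ℕ) : ℤ)⟩ * x :=
  Gh.ext (by simp) (by simp [ZMod.units_pow_card_sub_one_eq_one]) (by simp [add_comm])

variable (ω) in
/-- The central element and the degree. -/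
@[reducible] noncomputable def cenGh [Finite H] (hH : ¬ p ∣ Nat.card H) : Cen p (Gh ω) where
  c := ⟨1, 1, ((p - 1 : ℕ) : ℤ)⟩
  deg := dg ω
  cen := cen
  deg_c := rfl
  fin := by
    have hp : (0 : ℤ) < ((p - 1 : ℕ) : ℤ) := by have := (Fact.out : p.Prime).two_le; omega
    refine Finite.of_surjective (fun x : H × (ZMod p)ˣ × Set.Ico (0 : ℤ) ((p - 1 : ℕ) : ℤ) =>
      ((⟨x.1, x.2.1, x.2.2⟩ : Gh ω) : Gh ω ⧸ _)) fun y => ?_
    obtain ⟨y, rfl⟩ := QuotientGroup.mk_surjective y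
    refine ⟨⟨y.h, y.c, y.n % ((p - 1 : ℕ) : ℤ), Int.emod_nonneg _ hp.ne', Int.emod_lt_of_pos _ hp⟩,
      QuotientGroup.eq.2 ⟨y.n / ((p - 1 : ℕ) : ℤ), ?_⟩⟩
    beta_reduce
    rw [ζ_zpow, eq_inv_mul_iff_mul_eq]
    exact Gh.ext (by simp) (by simp) (Int.emod_add_mul_ediv _ _)
  N := (p - 1) * Nat.card (H × (ZMod p)ˣ)
  hN := by
    have hp : p.Prime := Fact.out
    have h1 : ¬ p ∣ p - 1 := Nat.not_dvd_of_pos_of_lt (by have := hp.two_le; omega)
      (by have := hp.two_le; omega)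
    rw [Nat.card_prod, Nat.card_eq_fintype_card (α := (ZMod p)ˣ), ZMod.card_units, hp.dvd_mul,
      hp.dvd_mul]
    tauto
  pow x := by
    have hn : (x ^ (p - 1)).n = ((p - 1 : ℕ) : ℤ) * x.n := by
      have := congrArg Multiplicative.toAdd (map_pow (dg ω) x (p - 1))
      simpa [dg] using this
    have e : x ^ (p - 1) = j0 ω ((x ^ (p - 1)).h, (x ^ (p - 1)).c) *
        (⟨1, 1, ((p - 1 : ℕ) : ℤ)⟩ : Gh ω) ^ x.n := by
      rw [ζ_zpow]
      exact Gh.ext (by simp [j0]) (by simp [j0]) (by simp [j0, hn])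
    rw [pow_mul, e, Commute.mul_pow (Commute.zpow_right (cen _) _), ← map_pow, pow_card_eq_one',
      map_one, one_mul]
    exact pow_mem (Subgroup.zpow_mem_zpowers _ _) _

variable (ω) in
/-- The inclusion of the group algebra of `H`. -/
noncomputable def jS : MonoidAlgebra (ZMod p) H →+* Eg p (Gh ω) :=
  mapDomainRingHom (ZMod p) ((j0 ω).comp (MonoidHom.inl _ _))

theorem jS_single (h : H) (a : ZMod p) : jS ω (single h a) = single ⟨h, 1, 0⟩ a := by
  simp [jS, j0]

variable (ω) in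
/-- The shift. -/
noncomputable def Tg : Eg p (Gh ω) := single ⟨1, 1, 1⟩ 1

variable (ω) in
/-- A twisted formula as a pp formula. -/
noncomputable def toPP (F : TF (MonoidAlgebra (ZMod p) H)) : PP (Eg p (Gh ω)) where
  ι := Option F.ι
  κ := F.K
  h i := i.elim 1 fun _ => 0
  H i k := i.elim (-jS ω (F.s k)) fun t => jS ω (F.cL k t) + Tg ω * jS ω (F.cR k t)

theorem ind_toPP {M V : Type} [AddCommGroup M] [Module (Eg p (Gh ω)) M] [AddCommGroup V]
    [Module (MonoidAlgebra (ZMod p) H) V] (e : M ≃+ V) (T : V →+ V)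
    (h1 : ∀ s x, e (jS ω s • x) = s • e x) (h2 : ∀ x, e (Tg ω • x) = T (e x))
    (F F' : TF (MonoidAlgebra (ZMod p) H)) :
    ind (toPP ω F) (toPP ω F') M = eidx (F'.set T) (F.set T) := by
  have key : ∀ (F : TF (MonoidAlgebra (ZMod p) H)) (x : M),
      x ∈ (toPP ω F).set M ↔ e x ∈ F.set T := by
    intro F x
    have : ∀ y : F.K → M, (∀ i, (toPP ω F).h i • x + ∑ k : F.K, (toPP ω F).H i k • y k = 0) ↔
        e x = ∑ k, F.s k • e (y k) ∧
          ∀ t, ∑ k, (F.cL k t • e (y k) + T (F.cR k t • e (y k))) = 0 := fun y => by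
      refine Option.forall.trans (and_congr ?_ (forall_congr' fun t => ?_))
      · rw [← e.map_eq_zero_iff]
        simp [toPP, h1, add_neg_eq_zero]
      · rw [← e.map_eq_zero_iff]
        simp [toPP, h1, h2, add_smul, mul_smul]
    constructor
    · rintro ⟨y, hy⟩
      exact ⟨fun k => e (y k), (this y).1 hy⟩
    · rintro ⟨v, hv⟩
      exact ⟨fun k => e.symm (v k), (this _).2 (by simpa using hv)⟩
  exact eidx_eq_of_map e.toAddMonoidHom (fun x hx => (key F x).1 hx) (fun x _ => (key F' x).symm)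
    fun y hy => ⟨e.symm y, (key F _).2 (by simpa using hy), by simp⟩

/-- The formula `r x = 0`. -/
def annPP {R : Type} (r : R) : PP R where
  ι := Unit
  κ := Empty
  h _ := r
  H _ k := k.elim

theorem ind_annPP {R : Type} [Ring R] (r : R) (M : Type) [AddCommGroup M] [Module R M] :
    ind (annPP 0) (annPP r) M = 1 ↔ ∀ x : M, r • x = 0 := by
  have : ∀ (r : R) (x : M), x ∈ (annPP r).set M ↔ r • x = 0 := fun r x => by
    refine ⟨fun ⟨y, hy⟩ => ?_, fun h => ⟨Empty.elim, fun _ => ?_⟩⟩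
    · simpa [annPP] using hy ()
    · simpa [annPP] using h
  rw [ind, eidx_eq_one]
  exact ⟨fun h x => (this r x).1 (h ((this 0 x).2 (zero_smul _ _))), fun h x _ => (this r x).2 (h x)⟩

variable {τ : MonoidAlgebra (ZMod p) H →+* MonoidAlgebra (ZMod p) H}

theorem τ_single (hτ : ∀ h, τ (single h 1) = single h (ω h : ZMod p)) (h : H) (a : ZMod p) :
    τ (single h a) = single h (a * ω h) := by
  have : τ (algebraMap (ZMod p) _ a) = algebraMap (ZMod p) _ a :=
    congrArg (fun g : ZMod p →+* MonoidAlgebra (ZMod p) H => g a)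
      (RingHom.ext_zmod (τ.comp (algebraMap _ _)) (algebraMap _ _))
  rw [single_eq_algebraMap_mul_of, map_mul, this, of_apply, hτ]
  simp

theorem exists_rep (hτ : ∀ h, τ (single h 1) = single h (ω h : ZMod p)) {R : Type} [Ring R]
    (ρS : MonoidAlgebra (ZMod p) H →+* R) (u : Rˣ) (hu : ∀ s, u * ρS s = ρS (τ s) * u) :
    ∃ ρ : Eg p (Gh ω) →+* R, (∀ s, ρ (jS ω s) = ρS s) ∧ ρ (Tg ω) = u ∧
      ∀ c : (ZMod p)ˣ, ρ (single ⟨1, c, 0⟩ 1 - single 1 (c : ZMod p)) = 0 := by
  have hz : ∀ (h : H) (n : ℤ) (a : ZMod p), (u ^ n : Rˣ) * ρS (single h a) =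
      ρS (single h (a * (ω h ^ n : (ZMod p)ˣ))) * (u ^ n : Rˣ) := by
    intro h n
    induction n using Int.induction_on with
    | zero => simp
    | succ n ih =>
      intro a
      rw [zpow_add_one, zpow_add_one, Units.val_mul, mul_assoc, hu, τ_single hτ, ← mul_assoc, ih,
        mul_assoc, mul_assoc, Units.val_mul, mul_comm (ω h : ZMod p)]
    | pred n ih =>
      intro a
      have e : (u⁻¹ : Rˣ) * ρS (single h a) =
          ρS (single h (a * ((ω h)⁻¹ : (ZMod p)ˣ))) * (u⁻¹ : Rˣ) := by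
        rw [Units.inv_mul_eq_iff_eq_mul, ← mul_assoc, hu, τ_single hτ, Units.mul_inv_cancel_right,
          Units.inv_mul_cancel_right]
      rw [zpow_sub_one, zpow_sub_one, Units.val_mul, mul_assoc, e, ← mul_assoc, ih,
        mul_assoc, mul_assoc, Units.val_mul, mul_comm (((ω h)⁻¹ : (ZMod p)ˣ) : ZMod p)]
  let g : Gh ω →* R :=
    { toFun := fun x => ρS (single x.h (x.c : ZMod p)) * (u ^ x.n : Rˣ)
      map_one' := by simp [← one_def]
      map_mul' := fun x y => by
        rw [mul_assoc, ← mul_assoc (u ^ x.n : Rˣ).val, hz, ← mul_assoc, ← mul_assoc, ← map_mul,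
          single_mul_single, mul_n, zpow_add, Units.val_mul, mul_assoc, mul_c, Units.val_mul,
          Units.val_mul, mul_assoc (x.c : ZMod p)]
        rfl }
  let ρ : Eg p (Gh ω) →+* R :=
    liftNCRingHom (ρS.comp (algebraMap (ZMod p) _)) g fun a x =>
      ((Algebra.commute_algebraMap_left a (single x.h (x.c : ZMod p))).map ρS).mul_right
        (by simpa [commute_iff_eq] using (hz 1 x.n a).symm)
  have hρ : ∀ x a, ρ (single x a) = ρS (single x.h (a * x.c)) * (u ^ x.n : Rˣ) := fun x a => by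
    refine (liftNCRingHom_single _ _ _ _ _).trans ?_
    change ρS _ * (ρS _ * _) = _
    rw [← mul_assoc, ← map_mul]
    simp
  refine ⟨ρ, fun s => ?_, by simp [Tg, hρ, ← one_def], fun c => by simp [hρ]⟩
  induction s using MonoidAlgebra.induction_linear with
  | zero => simp
  | add x y hx hy => simp only [map_add, hx, hy]
  | single h a => simp [jS_single, hρ]

theorem exists_BM [Finite H] (hH : ¬ p ∣ Nat.card H)
    (hτ : ∀ h, τ (single h 1) = single h (ω h : ZMod p)) (C : ModuleCat.{0} (Eg p (Gh ω)))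
    (hC : @Tw p _ (Gh ω) _ (cenGh ω hH) C)
    (hs : ∀ (c : (ZMod p)ˣ) (x : C),
      (single ⟨1, c, 0⟩ 1 - single 1 (c : ZMod p) : Eg p (Gh ω)) • x = 0) :
    ∃ X : BM (MonoidAlgebra (ZMod p) H) τ, ∀ F F' : TF (MonoidAlgebra (ZMod p) H),
      ind (toPP ω F) (toPP ω F') C = eidx (F'.set X.T) (F.set X.T) := by
  obtain ⟨X, e, h0, h1, h2⟩ := hC
  have hW : ∀ (c : (ZMod p)ˣ) (x : X.W), (single ⟨1, c, 0⟩ 1 : Eg p (Gh ω)) • x =
      (single 1 (c : ZMod p) : Eg p (Gh ω)) • x := fun c x => by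
    have := hs c (e.symm (c0 X x))
    rw [sub_smul, sub_eq_zero] at this
    have := congrArg e this
    rw [h1 _ _ _ rfl, h1 _ _ _ rfl, e.apply_symm_apply] at this
    simpa [c0_zero] using congrArg (fun v : X.C => v.1 0) this
  have hsemi : ∀ (s : MonoidAlgebra (ZMod p) H) (x : X.W),
      Tg ω • jS ω s • x = jS ω (τ s) • Tg ω • x := fun s x => by
    induction s using MonoidAlgebra.induction_linear with
    | zero => simp
    | add s t hs ht => simp only [map_add, add_smul, smul_add, hs, ht]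
    | single h a =>
      have e1 : Tg ω * jS ω (single h a) =
          single ⟨1, ω h, 0⟩ 1 * (jS ω (single h a) * Tg ω) := by
        simp only [Tg, jS_single, single_mul_single]
        congr 1
        · exact Gh.ext (by simp) (by simp) (by simp)
        · simp
      have e2 : jS ω (τ (single h a)) =
          single 1 (ω h : ZMod p) * jS ω (single h a) := by
        simp [τ_single hτ, jS_single, mul_comm]
      rw [smul_smul, e1, e2, mul_smul, hW, mul_smul, mul_smul]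
  let X' : BM (MonoidAlgebra (ZMod p) H) τ :=
    { W := X.W, mod := Module.compHom _ (jS ω),
      T0 := DistribMulAction.toAddEquiv X.W ((of (ZMod p) (Gh ω)).toHomUnits ⟨1, 1, 1⟩),
      semi := hsemi, kind := X.kind }
  let e0 : X.C ≃+ X'.C :=
    { toFun := fun v => ⟨v.1, v.2⟩, invFun := fun v => ⟨v.1, v.2⟩, left_inv := fun _ => rfl,
      right_inv := fun _ => rfl, map_add' := fun _ _ => rfl }
  refine ⟨X', ind_toPP (e.trans e0) X'.T (fun s x => ?_) fun x => ?_⟩
  · induction s using MonoidAlgebra.induction_linear with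
    | zero => simp
    | add s t hs ht => simp only [map_add, add_smul, hs, ht]
    | single h a =>
      rw [AddEquiv.trans_apply, jS_single, h1 _ _ _ rfl, ← jS_single]
      rfl
  · rw [AddEquiv.trans_apply, Tg, h2 _ _ rfl]
    refine Subtype.ext (funext fun k => ?_)
    exact congrArg (fun y : X.W => Tg ω • y) (h0 _)

theorem le_list_prod {α : Type*} {f : α → ℕ∞} (h : ∀ a, 1 ≤ f a) {l : List α} {a : α}
    (ha : a ∈ l) : f a ≤ (l.map f).prod := by
  induction l with
  | nil => simp at ha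
  | cons b l ih =>
    rw [List.map_cons, List.prod_cons]
    rcases List.mem_cons.1 ha with rfl | ha
    · exact le_mul_of_one_le_right' (one_le_list_prod l f h)
    · exact (ih ha).trans (le_mul_of_one_le_left' (h b))

end BandPar

open BandPar in
theorem bandReal (p : ℕ) [Fact p.Prime] (H : Type) [Group H] [Finite H] (hH : ¬ p ∣ Nat.card H)
    (ω : H →* (ZMod p)ˣ) (τ : MonoidAlgebra (ZMod p) H →+* MonoidAlgebra (ZMod p) H)
    (hτ : ∀ h, τ (MonoidAlgebra.single h 1) = MonoidAlgebra.single h (ω h : ZMod p)) :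
    BandReal (MonoidAlgebra (ZMod p) H) τ := by
  intro V _ _ T hT ι _ F F' B
  let _ := cenGh ω hH
  obtain ⟨ρ, h1, h2, h3⟩ := exists_rep hτ (Module.toModuleEnd ℤ V)
    (LinearMap.GeneralLinearGroup.ofLinearEquiv T.toIntLinearEquiv)
    fun s => LinearMap.ext fun x => hT s x
  obtain ⟨Cs, hCs, hm⟩ := match_tw (p := p) (G := Gh ω) (Syn ρ) (ι ⊕ (ZMod p)ˣ)
    (Sum.elim (fun i => toPP ω (F i)) fun _ => annPP 0)
    (Sum.elim (fun i => toPP ω (F' i)) fun c =>
      annPP (MonoidAlgebra.single ⟨1, c, 0⟩ 1 - MonoidAlgebra.single 1 (c : ZMod p))) (B + 2)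
  have hX : ∀ C ∈ Cs, ∃ X : BM (MonoidAlgebra (ZMod p) H) τ,
      ∀ F F' : TF (MonoidAlgebra (ZMod p) H),
        ind (toPP ω F) (toPP ω F') C = eidx (F'.set X.T) (F.set X.T) := fun C hC => by
    refine exists_BM hH hτ C (hCs C hC) fun c => (ind_annPP _ C).1 ?_
    have h := hm (Sum.inr c)
    simp only [Sum.elim_inr] at h
    rw [(ind_annPP _ (Syn ρ)).2 fun x => congrArg (fun f : Module.End ℤ V => f x) (h3 c)] at h
    refine le_antisymm ?_ (one_le_ind _ _)
    have h' := (min_le_iff.1 (h.symm.le.trans (min_le_right _ _))).resolve_left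
      (by exact_mod_cast (by omega : ¬ B + 2 ≤ 1))
    exact le_trans (le_list_prod (f := fun C : ModuleCat.{0} (Eg p (Gh ω)) =>
      ind (annPP 0) (annPP _) C) (fun C => one_le_ind _ _) hC) h'
  obtain ⟨Xs, hXs⟩ : ∃ Xs : List (BM (MonoidAlgebra (ZMod p) H) τ),
      ∀ F F' : TF (MonoidAlgebra (ZMod p) H),
        (Cs.map fun C : ModuleCat.{0} (Eg p (Gh ω)) => ind (toPP ω F) (toPP ω F') C) =
          Xs.map fun X => eidx (F'.set X.T) (F.set X.T) := by
    clear hm hCs
    induction Cs with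
    | nil => exact ⟨[], fun _ _ => rfl⟩
    | cons C Cs ih =>
      obtain ⟨Xs, hXs⟩ := ih fun C hC => hX C (List.mem_cons_of_mem _ hC)
      obtain ⟨X, hX⟩ := hX C List.mem_cons_self
      exact ⟨X :: Xs, fun F F' => by rw [List.map_cons, List.map_cons, hX, hXs]⟩
  refine ⟨Xs, fun i => ?_⟩
  have h := hm (Sum.inl i)
  simp only [Sum.elim_inl] at h
  rw [hXs, ind_toPP (ω := ω) (M := Syn ρ) (AddEquiv.refl V) T.toAddMonoidHom
    (fun s x => congrArg (fun f : Module.End ℤ V => f x) (h1 s))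
    fun x => congrArg (fun f : Module.End ℤ V => f x) h2] at h
  have hB : (B : ℕ∞) ≤ (B + 2 : ℕ) := by exact_mod_cast Nat.le_add_right B 2
  rw [← min_eq_left hB, min_assoc, min_assoc, h]

end Pool.Agent.Lib.MP_c13fce_lc
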