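import Pool.Agent.Lib.MP_c13fce_lc.Defs4

/-! Block E, part 1: Laurent polynomials over a finite field. -/

namespace Pool.Agent.Lib.MP_c13fce_lc.BandPar

open LaurentPolynomial

instance pid (k : Type) [Field k] : IsPrincipalIdealRing (LaurentPolynomial k) where
  principal I := by
    rw [← IsLocalization.map_under (Submonoid.powers (Polynomial.X : Polynomial k))
      (LaurentPolynomial k) I]
    obtain ⟨f, hf⟩ := (IsPrincipalIdealRing.principal (I.under (Polynomial k))).principal
    refine ⟨algebraMap _ _ f, ?_⟩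
    rw [hf, Ideal.submodule_span_eq, Ideal.map_span, Set.image_singleton]

instance charP (k : Type) [CommRing k] (p : ℕ) [CharP k p] : CharP (LaurentPolynomial k) p :=
  charP_of_injective_ringHom (f := (C : k →+* LaurentPolynomial k))
    (fun a b h => by simpa using congrArg (fun f : LaurentPolynomial k => f.coeff 0) h) p

theorem uT_zpow (k : Type) [CommRing k] (a n : ℤ) :
    ((unitOfInvertible (T a : LaurentPolynomial k) ^ n : _ˣ) : LaurentPolynomial k) =
      T (a * n) := by
  cases n with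
  | ofNat n => simp [mul_comm]
  | negSucc n =>
    rw [zpow_negSucc, ← inv_pow, Units.val_pow_eq_pow_val]
    change T (-a) ^ _ = _
    rw [T_pow]
    congr 1
    rw [Int.negSucc_eq]; push_cast; ring

theorem fin_quot (k : Type) [Field k] [Finite k] (d : LaurentPolynomial k) (hd : d ≠ 0) :
    Finite (LaurentPolynomial k ⧸ Ideal.span {d}) := by
  obtain ⟨n, f, hf⟩ := exists_T_pow d
  have hf0 : f ≠ 0 := by
    rintro rfl
    rw [map_zero] at hf
    exact hd ((isUnit_T n).mul_left_eq_zero.1 hf.symm)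
  let g : Polynomial k →+* LaurentPolynomial k ⧸ Ideal.span {d} :=
    (Ideal.Quotient.mk _).comp Polynomial.toLaurent
  have hg : g f = 0 := by
    simp only [g, RingHom.comp_apply, hf]
    exact Ideal.Quotient.eq_zero_iff_mem.2 (Ideal.mul_mem_right _ _ (Ideal.mem_span_singleton_self d))
  have : Module.Finite k (AdjoinRoot f) := (AdjoinRoot.powerBasis hf0).finite
  have : Finite (AdjoinRoot f) := Module.finite_of_finite k
  let g' : AdjoinRoot f →+* LaurentPolynomial k ⧸ Ideal.span {d} :=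
    Ideal.Quotient.lift _ g fun a ha => by
      obtain ⟨b, rfl⟩ := Ideal.mem_span_singleton'.1 ha
      rw [map_mul, hg, mul_zero]
  have hfin : (Set.range g).Finite := by
    refine (Set.finite_range g').subset ?_
    rintro _ ⟨a, rfl⟩
    exact ⟨AdjoinRoot.mk f a, rfl⟩
  let t : (LaurentPolynomial k ⧸ Ideal.span {d})ˣ :=
    Units.map (Ideal.Quotient.mk _).toMonoidHom (unitOfInvertible (T 1))
  have ht : ∀ n : ℕ, ((t ^ n : _ˣ) : LaurentPolynomial k ⧸ Ideal.span {d}) =
      g (Polynomial.X ^ n) := fun n => by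
    simp [t, g, ← map_pow]
  have hfo : IsOfFinOrder t := by
    rw [← finite_powers]
    refine Set.Finite.of_finite_image (f := Units.val) (hfin.subset ?_) Units.val_injective.injOn
    rintro _ ⟨_, ⟨n, rfl⟩, rfl⟩
    exact ⟨_, (ht n).symm⟩
  obtain ⟨j, hj⟩ : t⁻¹ ∈ Submonoid.powers t :=
    hfo.mem_powers_iff_mem_zpowers.2 (inv_mem (Subgroup.mem_zpowers t))
  have hj' : Ideal.Quotient.mk (Ideal.span {d}) (T (-1)) = g (Polynomial.X ^ j) := by
    rw [← ht, show t ^ j = t⁻¹ from hj]
    simp [t]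
  have : Function.Surjective g := by
    intro x
    obtain ⟨x, rfl⟩ := Ideal.Quotient.mk_surjective x
    induction x using induction_on_mul_T with
    | mul_T a m =>
      refine ⟨a * (Polynomial.X ^ j) ^ m, ?_⟩
      rw [map_mul, map_pow, ← hj', ← map_pow, T_pow, map_mul]
      simp [g]
  rw [← Set.finite_univ_iff, ← this.range_eq]
  exact hfin

instance finQ (k : Type) [Field k] [Finite k] : FinQ (LaurentPolynomial k) where
  fin := fin_quot k
  jac n hn := by
    obtain ⟨m, f, hf⟩ := exists_T_pow n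
    have hf0 : f ≠ 0 := by
      rintro rfl
      rw [map_zero] at hf
      exact hn ((isUnit_T m).mul_left_eq_zero.1 hf.symm)
    have hu : ¬ IsUnit (1 + Polynomial.X * f) := fun h => by
      have h1 := Polynomial.natDegree_eq_zero_of_isUnit h
      rw [← Polynomial.C_1, Polynomial.natDegree_C_add, Polynomial.natDegree_X_mul hf0] at h1
      omega
    refine ⟨Polynomial.toLaurent (1 + Polynomial.X * f), ?_, fun h => hu ?_, ?_⟩
    · rw [Polynomial.toLaurent_ne_zero]
      intro h
      have := congrArg (Polynomial.coeff · 0) h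
      simp at this
    · obtain ⟨i, hi⟩ := (IsLocalization.Away.algebraMap_isUnit_iff
        (S := LaurentPolynomial k) (Polynomial.X : Polynomial k)).1 h
      have hc : IsCoprime (1 + Polynomial.X * f) (Polynomial.X ^ i) :=
        IsCoprime.pow_right ⟨1, -f, by ring⟩
      exact hc.isUnit_of_dvd' dvd_rfl hi
    · refine ⟨1, -(T 1 * T m), ?_⟩
      rw [map_add, map_mul, hf, map_one, Polynomial.toLaurent_X]
      ring

/-- Modulo an irreducible element every element is a `p`-th power. -/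
theorem exists_pow {D : Type} [CommRing D] [IsDomain D] [IsPrincipalIdealRing D] [FinQ D] (p : ℕ)
    [Fact p.Prime] [CharP D p] {π : D} (hπ : Irreducible π) (t : D) :
    ∃ y s, t = y ^ p + π * s := by
  have := FinQ.fin π hπ.ne_zero
  have hinj : Function.Injective fun x : D ⧸ Ideal.span {π} => x ^ p := by
    intro x y h
    obtain ⟨x, rfl⟩ := Ideal.Quotient.mk_surjective x
    obtain ⟨y, rfl⟩ := Ideal.Quotient.mk_surjective y
    simp only [← map_pow] at h
    rw [Ideal.Quotient.eq, Ideal.mem_span_singleton] at h ⊢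
    rw [← sub_pow_char] at h
    exact hπ.prime.dvd_of_dvd_pow h
  obtain ⟨y, hy⟩ := Finite.injective_iff_surjective.1 hinj (Ideal.Quotient.mk _ t)
  obtain ⟨y, rfl⟩ := Ideal.Quotient.mk_surjective y
  simp only [← map_pow] at hy
  obtain ⟨s, hs⟩ := Ideal.mem_span_singleton.1 (Ideal.Quotient.eq.1 hy.symm)
  exact ⟨y, s, by rw [← hs]; ring⟩

theorem one_add_pow_eq {A : Type} [CommRing A] (z : A) (m : ℕ) :
    ∃ c, (1 + z) ^ m = 1 + m * z + z * z * c := by
  induction m with
  | zero => exact ⟨0, by simp⟩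
  | succ m ih =>
    obtain ⟨c, hc⟩ := ih
    exact ⟨c + m + c * z, by rw [pow_succ, hc]; push_cast; ring⟩

theorem key_comm {D A : Type} [CommRing D] [CommRing A] (p : ℕ) [Fact p.Prime] [CharP A p]
    (f0 f1 : D →+* A) (z : A) (h : ∀ d, z ∣ f1 d - f0 d) {t y s π : D} (hy : t = y ^ p + π * s)
    (m : ℕ) (ht : f1 t = f0 t * (1 + z) ^ m) :
    ∃ x β γ, f1 π * x = z * (m * f0 t + z * β) + f0 π * γ := by
  obtain ⟨a, ha⟩ := h y
  obtain ⟨c, hc⟩ := one_add_pow_eq z m
  obtain ⟨j, hj⟩ : ∃ j, p = j + 2 := ⟨p - 2, by have := (Fact.out : p.Prime).two_le; omega⟩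
  have e1 : f1 t = f0 y ^ p + z ^ p * a ^ p + f1 π * f1 s := by
    rw [hy, map_add, map_pow, map_mul, show f1 y = f0 y + z * a by rw [← ha]; ring, add_pow_char,
      mul_pow]
  have e0 : f0 t = f0 y ^ p + f0 π * f0 s := by rw [hy, map_add, map_pow, map_mul]
  refine ⟨f1 s, c * f0 t - z ^ j * a ^ p, f0 s, ?_⟩
  have hz : z ^ p = z * z * z ^ j := by rw [hj]; ring
  rw [hc, e1, hz] at ht
  linear_combination ht + e0

theorem zpow_expand {R : Type} [Ring R] (u : Rˣ) (n : ℤ) :
    ∃ y : R, Commute y ((u : R) - 1) ∧ ((u ^ n : Rˣ) : R) = 1 + ((u : R) - 1) * y := by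
  have hc : ∀ n : ℤ, Commute ((u ^ n : Rˣ) : R) ((u : R) - 1) := fun n =>
    (((Commute.refl u).zpow_left n).units_val).sub_right (Commute.one_right _)
  induction n using Int.induction_on with
  | zero => exact ⟨0, by simp, by simp⟩
  | succ n ih =>
    obtain ⟨y, hy, h⟩ := ih
    refine ⟨y + (u ^ (n : ℤ) : Rˣ), hy.add_left (hc n), ?_⟩
    rw [mul_add, ← add_assoc, ← h, add_comm (n : ℤ), zpow_add, zpow_one, Units.val_mul]
    noncomm_ring
  | pred n ih =>
    obtain ⟨y, hy, h⟩ := ih
    refine ⟨y - (u ^ (-(n : ℤ) - 1) : Rˣ), hy.sub_left (hc _), ?_⟩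
    have e : ((u ^ (-(n : ℤ)) : Rˣ) : R) = u * (u ^ (-(n : ℤ) - 1) : Rˣ) := by
      rw [← Units.val_mul, ← zpow_one_add]; congr 2; ring
    rw [mul_sub, ← add_sub_assoc, ← h, e]
    noncomm_ring

/-- The value of `π` at `t u ^ m` is `u - 1` up to an element which is a unit in the
applications. -/
theorem key {R : Type} [Ring R] (p : ℕ) [Fact p.Prime] (f0 f1 : LaurentPolynomial (ZMod p) →+* R)
    (u : Rˣ) (hu : ∀ d, Commute (f0 d) u) (m : ℕ)
    (hT : ∀ n : ℤ, f1 (T n) = f0 (T n) * (u ^ ((m : ℤ) * n) : Rˣ))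
    {π : LaurentPolynomial (ZMod p)} (hπ : Irreducible π) (h0 : f0 π = 0) :
    ∃ x β : R, Commute x (f1 π) ∧ Commute β ((u : R) - 1) ∧
      f1 π * x = ((u : R) - 1) * (m * f0 (T 1) + ((u : R) - 1) * β) := by
  let Ψ : LaurentPolynomial (LaurentPolynomial (ZMod p)) →+* R :=
    AddMonoidAlgebra.liftNCRingHom f0 ((Units.coeHom R).comp (zpowersHom Rˣ u)) fun d n =>
      (hu d).units_zpow_right _
  have ΨC : ∀ d, Ψ (C d) = f0 d := fun d =>
    (AddMonoidAlgebra.liftNCRingHom_single _ _ _ 0 d).trans (by simp)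
  have ΨT : ∀ n, Ψ (T n) = (u ^ n : Rˣ) := fun n =>
    (AddMonoidAlgebra.liftNCRingHom_single _ _ _ n 1).trans (by simp)
  let v : (LaurentPolynomial (LaurentPolynomial (ZMod p)))ˣ :=
    Units.map (C : LaurentPolynomial (ZMod p) →+* _).toMonoidHom (unitOfInvertible (T 1)) *
      unitOfInvertible (T m)
  have hv : ∀ n : ℤ, ((v ^ n : _ˣ) : LaurentPolynomial (LaurentPolynomial (ZMod p))) =
      C (T n) * T (m * n) := by
    intro n
    simp only [v]
    rw [Commute.mul_zpow (Units.ext (mul_comm _ _)), Units.val_mul, ← map_zpow, Units.coe_map, uT_zpow, uT_zpow, one_mul]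
    rfl
  let Θ : LaurentPolynomial (ZMod p) →+* LaurentPolynomial (LaurentPolynomial (ZMod p)) :=
    eval₂ (C.comp C) v
  have ΘT : ∀ n, Θ (T n) = C (T n) * T (m * n) := fun n => by rw [← hv]; exact eval₂_T _ _ n
  have ΘC : ∀ a, Θ (C a) = C (C a) := fun a => eval₂_C _ _ a
  have hC : ∀ a, f1 (C a) = f0 (C a) := fun a =>
    congrArg (fun g : ZMod p →+* R => g a) (RingHom.ext_zmod (f1.comp C) (f0.comp C))
  have hΘ : ∀ d, Ψ (Θ d) = f1 d := fun d => by
    induction d using LaurentPolynomial.induction_on' with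
    | add a b ha hb => simp only [map_add, ha, hb]
    | C_mul_T n a => simp only [map_mul, ΘT, ΘC, ΨC, ΨT, hC, hT]
  have hdvd : ∀ d, (T 1 - 1 : LaurentPolynomial (LaurentPolynomial (ZMod p))) ∣ Θ d - C d := by
    intro d
    induction d using LaurentPolynomial.induction_on' with
    | add a b ha hb =>
      rw [map_add, map_add, add_sub_add_comm]
      exact dvd_add ha hb
    | C_mul_T n a =>
      obtain ⟨y, -, hy⟩ := zpow_expand
        (unitOfInvertible (T 1 : LaurentPolynomial (LaurentPolynomial (ZMod p)))) (m * n)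
      rw [uT_zpow, one_mul, val_unitOfInvertible] at hy
      rw [map_mul, map_mul, ΘT, ΘC, hy]
      exact ⟨C (C a) * C (T n) * y, by ring⟩
  obtain ⟨y, s, hy⟩ := exists_pow p hπ (T 1)
  obtain ⟨x, β, γ, hx⟩ := key_comm p C Θ (T 1 - 1) hdvd hy m (by rw [ΘT]; simp)
  have hz : Ψ (T 1 - 1) = (u : R) - 1 := by rw [map_sub, ΨT, map_one, zpow_one]
  refine ⟨Ψ x, Ψ β, ?_, ?_, ?_⟩
  · rw [← hΘ]; exact (Commute.all _ _).map Ψ
  · rw [← hz]; exact (Commute.all _ _).map Ψ
  · have := congrArg Ψ hx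
    simpa only [map_mul, map_add, hΘ, hz, ΨC, h0, zero_mul, add_zero, map_natCast] using this

end Pool.Agent.Lib.MP_c13fce_lc.BandPar
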