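import Pool.Agent.Lib.MP_c13fce_lc.BandPar1
import Pool.Agent.Lib.MP_c13fce_lc.GlobReg

/-! Block E, part 2: group algebras over Laurent polynomials. -/

namespace Pool.Agent.Lib.MP_c13fce_lc.BandPar

open LaurentPolynomial MonoidAlgebra

/-- A group with a degree map and a central element of degree `p - 1`, of finite index prime
to `p`. -/
class Cen (p : ℕ) (G : Type) [Group G] where
  c : G
  deg : G →* Multiplicative ℤ
  cen : ∀ x, x * c = c * x
  deg_c : deg c = Multiplicative.ofAdd ((p - 1 : ℕ) : ℤ)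
  fin : Finite (G ⧸ Subgroup.zpowers c)
  N : ℕ
  hN : ¬ p ∣ N
  pow : ∀ x, x ^ N ∈ Subgroup.zpowers c

/-- The central ring. -/
abbrev Dp (p : ℕ) : Type := LaurentPolynomial (ZMod p)

/-- The group algebra. -/
abbrev Eg (p : ℕ) (G : Type) : Type := MonoidAlgebra (ZMod p) G

variable {p : ℕ} [Fact p.Prime] {G : Type} [Group G] [Cen p G]

omit [Fact p.Prime] in
theorem c_comm (n : ℤ) (x : G) : Cen.c p ^ n * x = x * Cen.c p ^ n :=
  (Commute.zpow_left (Cen.cen x).symm n).eq

omit [Fact p.Prime] in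
theorem deg_c_zpow (n : ℤ) :
    (Cen.deg p ((Cen.c p : G) ^ n)).toAdd = ((p - 1 : ℕ) : ℤ) * n := by
  rw [map_zpow, Cen.deg_c, toAdd_zpow, toAdd_ofAdd, smul_eq_mul, mul_comm]

theorem c_inj {m n : ℤ} (h : (Cen.c p : G) ^ m = Cen.c p ^ n) : m = n := by
  have := congrArg (fun x => (Cen.deg p x).toAdd) h
  simp only [deg_c_zpow] at this
  have h2 := (Fact.out : p.Prime).two_le
  exact mul_left_cancel₀ (by omega) this

instance : (Subgroup.zpowers (Cen.c p : G)).Normal where
  conj_mem := by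
    rintro _ ⟨n, rfl⟩ g
    exact ⟨n, by simp only [mul_assoc, c_comm, mul_inv_cancel_left]⟩

instance : Finite (G ⧸ Subgroup.zpowers (Cen.c p : G)) := Cen.fin

variable (p G) in
/-- The structure map. -/
noncomputable def ιD : Dp p →ₐ[ZMod p] Eg p G :=
  AddMonoidAlgebra.lift (ZMod p) (Eg p G) ℤ ((of (ZMod p) G).comp (zpowersHom G (Cen.c p)))

theorem ιD_CT (a : ZMod p) (n : ℤ) : ιD p G (C a * T n) = single (Cen.c p ^ n) a := by
  rw [← single_eq_C_mul_T, ιD, AddMonoidAlgebra.lift_single]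
  simp

noncomputable instance algD : Algebra (Dp p) (Eg p G) :=
  (ιD p G).toRingHom.toAlgebra' fun d r => by
    change ιD p G d * r = r * ιD p G d
    induction d using LaurentPolynomial.induction_on' with
    | add a b ha hb => simp only [map_add, add_mul, mul_add, ha, hb]
    | C_mul_T n a =>
      rw [ιD_CT]
      induction r using MonoidAlgebra.induction_linear with
      | zero => simp
      | add x y hx hy => simp only [add_mul, mul_add, hx, hy]
      | single x b => simp only [single_mul_single, c_comm, mul_comm]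

theorem alg_CT (a : ZMod p) (n : ℤ) :
    algebraMap (Dp p) (Eg p G) (C a * T n) = single (Cen.c p ^ n) a := ιD_CT a n

theorem alg_T (n : ℤ) : algebraMap (Dp p) (Eg p G) (T n) = single (Cen.c p ^ n) 1 := by
  simpa using alg_CT (G := G) (1 : ZMod p) n

theorem CT_smul (a b : ZMod p) (n : ℤ) (y : G) :
    (C a * T n : Dp p) • (single y b : Eg p G) = single (Cen.c p ^ n * y) (a * b) := by
  rw [Algebra.smul_def, alg_CT, single_mul_single]

open Classical in
variable (p) in
/-- The coefficient of the identity, on group elements. -/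
noncomputable def tr (y : G) : Dp p := if h : ∃ n : ℤ, y = Cen.c p ^ n then T h.choose else 0

theorem tr_c (n : ℤ) : tr p ((Cen.c p : G) ^ n) = T n := by
  have h : ∃ m : ℤ, (Cen.c p : G) ^ n = Cen.c p ^ m := ⟨n, rfl⟩
  rw [tr, dif_pos h, ← c_inj h.choose_spec]

omit [Fact p.Prime] in
theorem tr_of_not {y : G} (h : y ∉ Subgroup.zpowers (Cen.c p : G)) : tr p y = 0 :=
  dif_neg fun ⟨n, hn⟩ => h ⟨n, hn.symm⟩

theorem tr_c_mul (n : ℤ) (y : G) : tr p (Cen.c p ^ n * y) = T n * tr p y := by
  by_cases h : y ∈ Subgroup.zpowers (Cen.c p : G)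
  · obtain ⟨m, rfl⟩ := h
    simp only [← zpow_add, tr_c, T_add]
  · rw [tr_of_not h, tr_of_not, mul_zero]
    exact fun h' => h ((Subgroup.mul_mem_cancel_left _ (⟨n, rfl⟩ : _ ∈ Subgroup.zpowers _)).1 h')

omit [Fact p.Prime] in
theorem tr_comm (x y : G) : tr p (x * y) = tr p (y * x) := by
  by_cases h : x * y ∈ Subgroup.zpowers (Cen.c p : G)
  · obtain ⟨m, hm⟩ := h
    have hm' : Cen.c p ^ m = x * y := hm
    congr 1
    rw [show y * x = x⁻¹ * (x * y) * x by group, ← hm', ← c_comm]
    group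
  · rw [tr_of_not h, tr_of_not fun h' => h (Subgroup.Normal.mem_comm inferInstance h')]

variable (p G) in
/-- The coefficient of the identity. -/
noncomputable def κ0 : Eg p G →ₗ[Dp p] Dp p where
  toFun := liftNC ((C : ZMod p →+* Dp p) : ZMod p →+ Dp p) (tr p)
  map_add' := map_add _
  map_smul' d r := by
    induction d using LaurentPolynomial.induction_on' with
    | add a b ha hb => simp only [map_add, add_smul, ha, hb]
    | C_mul_T n a =>
      induction r using MonoidAlgebra.induction_linear with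
      | zero => simp
      | add x y hx hy => simp only [smul_add, map_add, hx, hy]
      | single x b =>
        rw [CT_smul, liftNC_single, liftNC_single, tr_c_mul]
        simp only [AddMonoidHom.coe_coe, map_mul, RingHom.id_apply, smul_eq_mul]
        ring

theorem κ0_single (y : G) (a : ZMod p) : κ0 p G (single y a) = C a * tr p y :=
  liftNC_single _ _ _ _

theorem κ0_one : κ0 p G 1 = 1 := by
  have := tr_c (p := p) (G := G) 0
  rw [zpow_zero] at this
  rw [one_def, κ0_single, this]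
  simp

theorem κ0_comm (r s : Eg p G) : κ0 p G (r * s) = κ0 p G (s * r) := by
  induction r using MonoidAlgebra.induction_linear with
  | zero => simp
  | add x y hx hy => simp only [add_mul, mul_add, map_add, hx, hy]
  | single x a =>
    induction s using MonoidAlgebra.induction_linear with
    | zero => simp
    | add x y hx hy => simp only [add_mul, mul_add, map_add, hx, hy]
    | single y b => simp only [single_mul_single, κ0_single, tr_comm x y, mul_comm a b]

theorem expand [Fintype (G ⧸ Subgroup.zpowers (Cen.c p : G))] (r : Eg p G) :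
    r = ∑ γ : G ⧸ Subgroup.zpowers (Cen.c p : G),
      κ0 p G (single γ.out⁻¹ 1 * r) • (single γ.out 1 : Eg p G) := by
  induction r using MonoidAlgebra.induction_linear with
  | zero => simp
  | add x y hx hy =>
    simp only [mul_add, map_add, add_smul, Finset.sum_add_distrib, ← hx, ← hy]
  | single y a =>
    rw [Finset.sum_eq_single (y : G ⧸ Subgroup.zpowers (Cen.c p : G))]
    · obtain ⟨n, hn⟩ : (y : G ⧸ Subgroup.zpowers (Cen.c p : G)).out⁻¹ * y ∈
          Subgroup.zpowers (Cen.c p : G) := QuotientGroup.eq.1 (Quotient.out_eq _)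
      have hn' : Cen.c p ^ n = (y : G ⧸ Subgroup.zpowers (Cen.c p : G)).out⁻¹ * y := hn
      rw [single_mul_single, κ0_single, ← hn', tr_c, CT_smul, c_comm, hn']
      simp
    · intro γ _ hγ
      rw [single_mul_single, κ0_single, tr_of_not, mul_zero, zero_smul]
      exact fun h => hγ (by rw [← QuotientGroup.eq.2 h]; exact (Quotient.out_eq _).symm)
    · simp

theorem span_top : Submodule.span (Dp p) (Set.range fun γ : G ⧸ Subgroup.zpowers (Cen.c p : G) =>
    (single γ.out 1 : Eg p G)) = ⊤ := by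
  have := Fintype.ofFinite (G ⧸ Subgroup.zpowers (Cen.c p : G))
  refine eq_top_iff.2 fun r _ => ?_
  rw [expand r]
  exact Submodule.sum_mem _ fun γ _ => Submodule.smul_mem _ _ (Submodule.subset_span ⟨γ, rfl⟩)

instance : Module.Finite (Dp p) (Eg p G) :=
  ⟨Submodule.fg_def.2 ⟨_, Set.finite_range _, span_top⟩⟩

theorem exists_of_dvd {d : Dp p} {r : Eg p G} (h : ∀ s, d ∣ κ0 p G (s * r)) :
    ∃ x : Eg p G, r = d • x := by
  have := Fintype.ofFinite (G ⧸ Subgroup.zpowers (Cen.c p : G))
  choose f hf using h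
  refine ⟨∑ γ : G ⧸ Subgroup.zpowers (Cen.c p : G),
    f (single γ.out⁻¹ 1) • (single γ.out 1 : Eg p G), ?_⟩
  conv_lhs => rw [expand r]
  simp only [hf, Finset.smul_sum, mul_smul]

theorem smul_eq_zero' {d : Dp p} (hd : d ≠ 0) {r : Eg p G} (h : d • r = 0) : r = 0 := by
  obtain ⟨x, hx⟩ := exists_of_dvd (d := 0) (r := r) fun s => by
    have := congrArg (fun y => κ0 p G (s * y)) h
    simp only [mul_smul_comm, map_smul, mul_zero, map_zero, smul_eq_mul] at this
    rw [(mul_eq_zero.1 this).resolve_left hd]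
  rw [hx, zero_smul]

instance : Module.IsTorsionFree (Dp p) (Eg p G) :=
  Module.IsTorsionFree.of_smul_eq_zero fun d r h => by
    by_cases hd : d = 0
    · exact Or.inl hd
    · exact Or.inr (smul_eq_zero' hd h)

theorem not_dvd_card : ¬ p ∣ Nat.card (G ⧸ Subgroup.zpowers (Cen.c p : G)) := fun h => by
  obtain ⟨x, hx⟩ := exists_prime_orderOf_dvd_card' p h
  obtain ⟨y, rfl⟩ := QuotientGroup.mk_surjective x
  refine Cen.hN (p := p) (G := G) (hx.symm.dvd.trans ?_)
  rw [orderOf_dvd_iff_pow_eq_one, ← QuotientGroup.mk_pow, QuotientGroup.eq_one_iff]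
  exact Cen.pow y

theorem reg : Reg (Dp p) (Eg p G) := by
  have := Fintype.ofFinite (G ⧸ Subgroup.zpowers (Cen.c p : G))
  refine reg_of_average (Dp p) (Eg p G) (G ⧸ Subgroup.zpowers (Cen.c p : G))
    (fun γ => (of (ZMod p) G).toHomUnits γ.out) span_top (fun γ => ⟨Equiv.mulRight γ, fun δ => ?_⟩)
    ?_
  · obtain ⟨n, hn⟩ : (δ * γ).out⁻¹ * (δ.out * γ.out) ∈ Subgroup.zpowers (Cen.c p : G) :=
      QuotientGroup.eq.1 (by simp)
    have hn' : Cen.c p ^ n = (δ * γ).out⁻¹ * (δ.out * γ.out) := hn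
    refine ⟨unitOfInvertible (T n), ?_⟩
    have := CT_smul (G := G) (1 : ZMod p) 1 n (δ * γ).out
    rw [c_comm, hn'] at this
    simpa using this.symm
  · rw [← Nat.card_eq_fintype_card, Ne, CharP.cast_eq_zero_iff (Dp p) p]
    exact not_dvd_card

theorem dvd_of_alg {π d : Dp p} {x : Eg p G}
    (h : algebraMap (Dp p) (Eg p G) d = x * algebraMap (Dp p) (Eg p G) π) : π ∣ d := by
  have := congrArg (κ0 p G) h
  rw [← Algebra.commutes, ← Algebra.smul_def, Algebra.algebraMap_eq_smul_one, map_smul, map_smul,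
    κ0_one, smul_eq_mul, mul_one] at this
  exact ⟨_, this⟩

theorem semisimple {π : Dp p} (hπ : Irreducible π) (S : Type) [Ring S] [Finite S]
    (q : Eg p G →+* S) (hq : Function.Surjective q)
    (hker : ∀ r, q r = 0 ↔ ∃ x, r = x * algebraMap (Dp p) (Eg p G) π) : IsSemisimpleRing S := by
  let φ : G →* Sˣ := ((q : Eg p G →* S).comp (of (ZMod p) G)).toHomUnits
  have hc : ¬ p ∣ Nat.card φ.range := fun h => by
    obtain ⟨⟨_, y, rfl⟩, hx⟩ := exists_prime_orderOf_dvd_card' p h
    rw [← Subgroup.orderOf_coe] at hx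
    obtain ⟨n, hn⟩ := Cen.pow (p := p) y
    have hn' : Cen.c p ^ n = y ^ Cen.N p G := hn
    have e1 : ((φ y ^ Cen.N p G : Sˣ) : S) = q (algebraMap (Dp p) (Eg p G) (T n)) := by
      rw [← map_pow, ← hn', alg_T]; rfl
    have e2 : q (algebraMap (Dp p) (Eg p G) (T n ^ p - 1)) = 0 := by
      rw [map_sub, map_sub, map_pow, map_pow, ← e1, map_one, map_one, ← Units.val_pow_eq_pow_val,
        ← pow_mul, mul_comm, pow_mul]
      have : φ y ^ p = 1 := by rw [← hx]; exact pow_orderOf_eq_one _
      rw [this, one_pow, Units.val_one, sub_self]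
    obtain ⟨x, hx'⟩ := (hker _).1 e2
    have h3 := dvd_of_alg hx'
    rw [← one_pow p, ← sub_pow_char] at h3
    obtain ⟨s, hs⟩ := hπ.prime.dvd_of_dvd_pow h3
    refine Cen.hN (p := p) (G := G) (hx.symm.dvd.trans ?_)
    rw [orderOf_dvd_iff_pow_eq_one]
    refine Units.ext (e1.trans ?_)
    rw [← sub_eq_zero, Units.val_one, ← q.map_one, ← map_sub, hker,
      ← (algebraMap (Dp p) (Eg p G)).map_one, ← map_sub, hs, mul_comm, map_mul]
    exact ⟨_, rfl⟩
  have : NeZero ((Nat.card φ.range : ℕ) : ZMod p) := ⟨by rwa [Ne, ZMod.natCast_eq_zero_iff]⟩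
  let f : MonoidAlgebra (ZMod p) φ.range →+* S :=
    liftNCRingHom (q.comp (algebraMap (ZMod p) (Eg p G)))
      ((Units.coeHom S).comp φ.range.subtype) (by
        rintro a ⟨_, y, rfl⟩
        exact (Algebra.commute_algebraMap_left a (single y 1 : Eg p G)).map q)
  refine f.isSemisimpleRing_of_surjective fun x => ?_
  obtain ⟨r, rfl⟩ := hq x
  induction r using MonoidAlgebra.induction_linear with
  | zero => exact ⟨0, by simp⟩
  | add x y hx hy =>
    obtain ⟨x', hx⟩ := hx
    obtain ⟨y', hy⟩ := hy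
    exact ⟨x' + y', by simp only [map_add, hx, hy]⟩
  | single y a =>
    refine ⟨single ⟨φ y, y, rfl⟩ a, (liftNCRingHom_single _ _ _ _ _).trans ?_⟩
    rw [single_eq_algebraMap_mul_of, map_mul]
    rfl

/-- String data for the group algebra at an irreducible element. -/
theorem exists_SD {π : Dp p} (hπ : Irreducible π) :
    ∃ (S : Type) (_ : Ring S) (_ : Algebra (Dp p) S) (_ : Finite S) (_ : IsSemisimpleRing S)
      (Δ : SD (Dp p) (Eg p G) S), Δ.π = π ∧ Δ.a = algebraMap (Dp p) (Eg p G) π ∧ Δ.b = 0 ∧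
        Δ.σ = 1 := by
  let I : Ideal (Eg p G) := Ideal.span {algebraMap (Dp p) (Eg p G) π}
  have : I.IsTwoSided := ⟨fun {a} b ha => by
    obtain ⟨x, rfl⟩ := Ideal.mem_span_singleton'.1 ha
    exact Ideal.mem_span_singleton'.2 ⟨x * b, by rw [mul_assoc, mul_assoc, Algebra.commutes]⟩⟩
  let q := Ideal.Quotient.mkₐ (Dp p) I
  have hq : Function.Surjective q := Ideal.Quotient.mkₐ_surjective _ _
  have hker : ∀ r, q r = 0 ↔ ∃ x, r = x * algebraMap (Dp p) (Eg p G) π := fun r =>
    Ideal.Quotient.eq_zero_iff_mem.trans (Ideal.mem_span_singleton'.trans (by simp only [eq_comm]))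
  have hqπ : algebraMap (Dp p) (Eg p G ⧸ I) π = 0 := by
    rw [← q.commutes, hker]; exact ⟨1, (one_mul _).symm⟩
  have hfin : Finite (Eg p G ⧸ I) := by
    have := FinQ.fin π hπ.ne_zero
    have : Module.Finite (Dp p) (Eg p G ⧸ I) := Module.Finite.of_surjective q.toLinearMap hq
    have ht : Module.IsTorsionBySet (Dp p) (Eg p G ⧸ I) (Ideal.span {π} : Ideal (Dp p)) := by
      rw [Module.isTorsionBySet_span_singleton_iff]
      intro x
      rw [Algebra.smul_def, hqπ, zero_mul]
    let _ := ht.module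
    have := ht.isScalarTower (S := Dp p)
    have := Module.Finite.of_restrictScalars_finite (Dp p) (Dp p ⧸ Ideal.span {π}) (Eg p G ⧸ I)
    exact Module.finite_of_finite (Dp p ⧸ Ideal.span {π})
  have hπK : algebraMap (Dp p) (FractionRing (Dp p)) π ≠ 0 := by
    simpa using hπ.ne_zero
  let f : Eg p G →ₗ[Dp p] Inj (Dp p) := (Submodule.mkQ _) ∘ₗ
    (LinearMap.toSpanSingleton (Dp p) (FractionRing (Dp p))
      (algebraMap (Dp p) (FractionRing (Dp p)) π)⁻¹) ∘ₗ κ0 p G
  have hf : ∀ r, f r = 0 ↔ π ∣ κ0 p G r := fun r => by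
    simp only [f, LinearMap.comp_apply, Submodule.mkQ_apply, Submodule.Quotient.mk_eq_zero,
      LinearMap.mem_range, Algebra.linearMap_apply, LinearMap.toSpanSingleton_apply,
      Algebra.smul_def]
    refine exists_congr fun d => ?_
    rw [eq_mul_inv_iff_mul_eq₀ hπK, ← map_mul,
      (IsFractionRing.injective (Dp p) (FractionRing (Dp p))).eq_iff, mul_comm, eq_comm]
  let κ : (Eg p G ⧸ I) →ₗ[Dp p] Inj (Dp p) :=
    (LinearMap.ker q.toLinearMap).liftQ f (fun r hr => by
      obtain ⟨x, rfl⟩ := (hker r).1 hr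
      rw [LinearMap.mem_ker, hf, ← Algebra.commutes, ← Algebra.smul_def, map_smul]
      exact dvd_mul_right _ _) ∘ₗ (q.toLinearMap.quotKerEquivOfSurjective hq).symm.toLinearMap
  have hκ : ∀ r, κ (q r) = f r := fun r => by
    have := q.toLinearMap.quotKerEquivOfSurjective_symm_apply hq r
    simp only [κ, LinearMap.comp_apply, LinearEquiv.coe_coe]
    erw [this]
    rfl
  refine ⟨Eg p G ⧸ I, inferInstance, inferInstance, hfin, semisimple hπ _ q.toRingHom hq hker,
    { π := π, hπ := hπ, a := algebraMap _ _ π, b := 0, q := q, q_surj := hq,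
      q_ker := fun r => by simp [hker r], σ := 1,
      na := fun r => ⟨r, Algebra.commutes _ _, rfl⟩,
      na' := fun r => ⟨r, (Algebra.commutes _ _).symm, rfl⟩,
      cb := by simp, ab := by simp, qπ := hqπ,
      ea := ⟨1, 1, 0, by simp [Algebra.smul_def]⟩, eb := ⟨1, 0, 0, by simp⟩,
      regA := fun r ⟨y, hy⟩ => ⟨0, by rw [smul_eq_zero' hπ.ne_zero (hy.trans (mul_zero _))]; simp⟩,
      regB := Or.inl rfl, κ := κ, κ_comm := fun s t => ?_, κ_σ := fun _ => rfl,
      κ_nd := fun s hs => ?_, reg := reg }, rfl, rfl, rfl, rfl⟩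
  · obtain ⟨s, rfl⟩ := hq s
    obtain ⟨t, rfl⟩ := hq t
    simp only [← map_mul, hκ, f, LinearMap.comp_apply, κ0_comm s t]
  · obtain ⟨s, rfl⟩ := hq s
    obtain ⟨x, rfl⟩ := exists_of_dvd (d := π) (r := s) fun r => by
      rw [← hf, ← hκ, map_mul]; exact hs _
    rw [map_smul, Algebra.smul_def, hqπ, zero_mul]

end Pool.Agent.Lib.MP_c13fce_lc.BandPar
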