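import Pool.Agent.Lib.MP_c13fce_lc.LL

/-! Block E, part 3: invariants of adic and divisible modules when `b = 0`. -/

namespace Pool.Agent.Lib.MP_c13fce_lc.BandPar

theorem mem_mono {N : Type} [AddCommGroup N] {A B B' C : AddSubgroup N} (h : ∀ x ∈ B, x ∈ B')
    {x : N} (hx : x ∈ A ⊓ B ⊔ C) : x ∈ A ⊓ B' ⊔ C :=
  (sup_le_sup_right (inf_le_inf_left A h) C : A ⊓ B ⊔ C ≤ A ⊓ B' ⊔ C) hx

section Sys
variable {D Λ N : Type} [CommRing D] [Ring Λ] [Algebra D Λ] [AddCommGroup N] [Module Λ N]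
  [Module D N] [IsScalarTower D Λ N]

/-- The recursion operator. -/
def Phi (α β : N →ₗ[Λ] N) (E : Submodule Λ N) :
    (Wd → Submodule Λ N) →o (Wd → Submodule Λ N) where
  toFun F u := if u 0 = 0 then (F u.tl).map α else if u 0 = 2 then (F u.tl).comap β else E
  monotone' F F' h u := by
    dsimp only
    split_ifs
    · exact Submodule.map_mono (h _)
    · exact Submodule.comap_mono (h _)
    · exact le_rfl

theorem Phi_mono (α β : N →ₗ[Λ] N) {E E' : Submodule Λ N} (h : E ≤ E') :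
    (Phi α β E).lfp ≤ (Phi α β E').gfp := by
  refine (OrderHom.lfp_le_gfp _).trans (OrderHom.gfp.monotone fun F u => ?_)
  simp only [Phi, OrderHom.coe_mk]
  split_ifs
  exacts [le_rfl, le_rfl, h]

theorem side_of_fix {α β : N →ₗ[Λ] N} {α' β' : N →ₗ[D] N} (hα : ∀ x, α' x = α x)
    (hβ : ∀ x, β' x = β x) {E : Submodule Λ N} {E' : Submodule D N} (hE : ∀ x, x ∈ E' ↔ x ∈ E)
    {F : Wd → Submodule Λ N} (hF : Phi α β E F = F) :
    Side α' β' E' fun u => (F u).restrictScalars D := by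
  intro u
  ext x
  have := congrFun hF u
  simp only [Phi, OrderHom.coe_mk] at this
  rw [Submodule.restrictScalars_mem, ← this]
  split_ifs
  · simp [hα]
  · simp [hβ]
  · exact (hE x).symm

theorem tl_const (c : Fin 3) : Wd.tl (fun _ => c) = fun _ => c := rfl

theorem exists_sys (α β : N →ₗ[Λ] N) (α' β' : N →ₗ[D] N) (hα : ∀ x, α' x = α x)
    (hβ : ∀ x, β' x = β x) (hab : ∀ x, β (α x) = 0) (hba : ∀ x, α (β x) = 0) :
    ∃ Y : Sys α' β', Y.Stable Λ ∧ Y.Rm (fun _ => 0) = ⊥ ∧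
      (Function.Surjective α → Y.Rp (fun _ => 0) = ⊤) ∧
      (Function.Injective α → Y.Lm (fun _ => 2) = ⊥) ∧ Y.Lp (fun _ => 2) = ⊤ := by
  classical
  refine ⟨{ Rm := fun u => ((Phi α β (LinearMap.range α)).lfp u).restrictScalars D
            Rp := fun u => ((Phi α β (LinearMap.ker β)).gfp u).restrictScalars D
            Lm := fun u => ((Phi β α (LinearMap.range β)).lfp u).restrictScalars D
            Lp := fun u => ((Phi β α (LinearMap.ker α)).gfp u).restrictScalars D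
            hRm := side_of_fix hα hβ (by simp [hα]) (OrderHom.map_lfp _)
            hRp := side_of_fix hα hβ (by simp [hβ]) (OrderHom.map_gfp _)
            hLm := side_of_fix hβ hα (by simp [hβ]) (OrderHom.map_lfp _)
            hLp := side_of_fix hβ hα (by simp [hα]) (OrderHom.map_gfp _)
            Rle := fun u => Phi_mono α β (by rintro _ ⟨x, rfl⟩; exact hab x) u
            Lle := fun u => Phi_mono β α (by rintro _ ⟨x, rfl⟩; exact hba x) u },
    fun u r x => ⟨Submodule.smul_mem _ r, Submodule.smul_mem _ r, Submodule.smul_mem _ r,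
      Submodule.smul_mem _ r⟩, ?_, fun h => ?_, fun h => ?_, ?_⟩
  · have := OrderHom.lfp_le (Phi α β (LinearMap.range α))
      (a := fun u => if u = fun _ => 0 then ⊥ else ⊤) (fun u => by
        by_cases hu : u = fun _ => 0
        · subst hu; simp [Phi, tl_const]
        · simp [hu]) fun _ => 0
    simpa using this
  · have := OrderHom.le_gfp (Phi α β (LinearMap.ker β))
      (a := fun u => if u = fun _ => 0 then ⊤ else ⊥) (fun u => by
        by_cases hu : u = fun _ => 0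
        · subst hu; simpa [Phi, tl_const, LinearMap.range_eq_top] using h
        · simp [hu]) fun _ => 0
    simpa using this
  · have := OrderHom.lfp_le (Phi β α (LinearMap.range β))
      (a := fun u => if u = fun _ => 2 then ⊥ else ⊤) (fun u => by
        by_cases hu : u = fun _ => 2
        · subst hu; simpa [Phi, tl_const, LinearMap.ker_eq_bot] using h
        · simp [hu]) fun _ => 2
    simpa using this
  · have := OrderHom.le_gfp (Phi β α (LinearMap.ker α))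
      (a := fun u => if u = fun _ => 2 then ⊤ else ⊥) (fun u => by
        by_cases hu : u = fun _ => 2
        · subst hu; simp [Phi, tl_const]
        · simp [hu]) fun _ => 2
    simpa using this

/-- A letter repeated `k` times. -/
def wd (c : Fin 3) (k : ℕ) : Wd := fun i => if i < k then c else 1

theorem wd_tl (c : Fin 3) (k : ℕ) : (wd c (k + 1)).tl = wd c k := by
  funext i; simp [wd, Wd.tl]

omit [Module Λ N] [IsScalarTower D Λ N] in
theorem side_wd0 {α β : N →ₗ[D] N} {E : Submodule D N} {F : Wd → Submodule D N}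
    (h : Side α β E F) (k : ℕ) : F (wd 0 k) = E.map (α ^ k) := by
  induction k with
  | zero => rw [h]; simp [wd, Module.End.one_eq_id]
  | succ k ih => rw [h, if_pos (by simp [wd]), wd_tl, ih, pow_succ', Module.End.mul_eq_comp,
      Submodule.map_comp]

omit [Module Λ N] [IsScalarTower D Λ N] in
theorem side_wd2 {α β : N →ₗ[D] N} {E : Submodule D N} {F : Wd → Submodule D N}
    (h : Side α β E F) (k : ℕ) : F (wd 2 k) = E.comap (β ^ k) := by
  induction k with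
  | zero => rw [h]; simp [wd, Module.End.one_eq_id]
  | succ k ih => rw [h, if_neg (by simp [wd]), if_pos (by simp [wd]), wd_tl, ih, pow_succ,
      Module.End.mul_eq_comp, Submodule.comap_comp]

theorem act_pow (a : Λ) (k : ℕ) (x : N) : (act D N a ^ k) x = a ^ k • x := by
  induction k with
  | zero => simp
  | succ k ih => rw [pow_succ', pow_succ', Module.End.mul_apply, ih, act_apply, mul_smul]

end Sys

variable {D Λ S : Type} [CommRing D] [IsDomain D] [IsPrincipalIdealRing D] [FinQ D] [Ring Λ]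
  [Algebra D Λ] [Module.Finite D Λ] [Ring S] [Algebra D S] [Finite S] [IsSemisimpleRing S]
  (Δ : SD D Λ S)

section Layer
variable {J : Set ℤ} {w : ℤ → Bool} {N : Type} [AddCommGroup N] [Module Λ N] [Module D N]
  [IsScalarTower D Λ N] (Y : Sys (act D N Δ.a) (act D N Δ.b)) (e : S)

/-- A description of the layer at position `j` by the left ideal generated by `e`. -/
def Lay (J : Set ℤ) (w : ℤ → Bool) (j : ℤ) : Prop :=
  Y.Ga J w j ≤ Y.Qa J w j ∧ ∃ (P : Type) (_ : AddCommGroup P) (μ : P →+ N) (ν : P →+ S),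
    (∀ x, x ∈ Y.Qa J w j ↔ ∃ y, μ y = x) ∧ (∀ y, μ y ∈ Y.Ga J w j ↔ ν y = 0) ∧
    (∀ s, (∃ y, ν y = s) ↔ ∃ t, s = t * e) ∧ ∀ r y, ∃ y', μ y' = r • μ y ∧ ν y' = Δ.q r * ν y

theorem layer (hJ : Δ.IsStr J w) (hY : Y.Stable Λ) {j : ℤ} (hj : j ∈ J) (h : Lay Δ Y e J w j)
    (φ ψ : PP Λ) :
    eidx (ψ.set N ⊓ (Y.Qa J w j).toAddSubgroup ⊔ (Y.Ga J w j).toAddSubgroup)
        (φ.set N ⊓ (Y.Qa J w j).toAddSubgroup ⊔ (Y.Ga J w j).toAddSubgroup) =
      eidx ((Δ.U ψ J w j).map (AddMonoidHom.mulRight e))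
        ((Δ.U φ J w j).map (AddMonoidHom.mulRight e)) := by
  obtain ⟨hGQ, P, _, μ, ν, hμ, hk, hν, hsm⟩ := h
  have key : ∀ (φ : PP Λ) (y : P),
      μ y ∈ φ.set N ⊓ (Y.Qa J w j).toAddSubgroup ⊔ (Y.Ga J w j).toAddSubgroup ↔
        ν y ∈ (Δ.U φ J w j).map (AddMonoidHom.mulRight e) := by
    intro φ y
    have hy : μ y ∈ Y.Qa J w j := (hμ _).2 ⟨y, rfl⟩
    have h1 : μ y ∈ φ.set N ⊓ (Y.Qa J w j).toAddSubgroup ⊔ (Y.Ga J w j).toAddSubgroup ↔
        ∃ z ∈ Y.Ga J w j, μ y + z ∈ φ.set N := by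
      constructor
      · intro h
        obtain ⟨u, hu, v, hv, huv⟩ := AddSubgroup.mem_sup.1 h
        exact ⟨-v, neg_mem hv, by rw [← huv, add_neg_cancel_right]; exact hu.1⟩
      · rintro ⟨z, hz, h⟩
        exact AddSubgroup.mem_sup.2 ⟨μ y + z, ⟨h, add_mem hy (hGQ hz)⟩, -z, neg_mem hz, by simp⟩
    rw [h1, Δ.local_str hJ φ hj N Y hY hy]
    constructor
    · intro h
      obtain ⟨u, hu, v, hv, huv⟩ := AddSubgroup.mem_sup.1 h
      obtain ⟨y', rfl, hy'⟩ : ∃ y', μ y' = u ∧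
          ν y' ∈ (Δ.U φ J w j).map (AddMonoidHom.mulRight e) := by
        clear huv
        induction hu using AddSubgroup.closure_induction with
        | mem x hx =>
          obtain ⟨r, x', hr, hx', rfl⟩ := hx
          obtain ⟨y0, rfl⟩ := (hμ _).1 hx'
          obtain ⟨y1, h1, h2⟩ := hsm r y0
          obtain ⟨t, ht⟩ := (hν _).1 ⟨y0, rfl⟩
          exact ⟨y1, h1, _, Δ.U_mul_mem hJ φ hj hr t, by simp [h2, ht, mul_assoc]⟩
        | zero => exact ⟨0, map_zero _, by simp⟩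
        | add x x' _ _ hx hx' =>
          obtain ⟨y1, rfl, h1⟩ := hx
          obtain ⟨y2, rfl, h2⟩ := hx'
          exact ⟨y1 + y2, map_add _ _ _, by rw [map_add]; exact add_mem h1 h2⟩
        | neg x _ hx =>
          obtain ⟨y1, rfl, h1⟩ := hx
          exact ⟨-y1, map_neg _ _, by rw [map_neg]; exact neg_mem h1⟩
      have : ν (y - y') = 0 := (hk _).1 (by rw [map_sub, ← huv, add_sub_cancel_left]; exact hv)
      rw [map_sub, sub_eq_zero] at this
      rwa [this]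
    · rintro ⟨s, hs, hs'⟩
      obtain ⟨r, rfl⟩ := Δ.q_surj s
      obtain ⟨y0, h0⟩ := (hν e).2 ⟨1, (one_mul e).symm⟩
      obtain ⟨y1, h1, h2⟩ := hsm r y0
      refine AddSubgroup.mem_sup.2 ⟨μ y1, AddSubgroup.subset_closure
        ⟨r, μ y0, hs, (hμ _).2 ⟨y0, rfl⟩, h1⟩, μ (y - y1), (hk _).2 ?_, by simp⟩
      rw [map_sub, h2, h0, ← hs']
      simp
  refine (eidx_eq_of_map μ (A := ((Δ.U φ J w j).map (AddMonoidHom.mulRight e)).comap ν)
    (B := ((Δ.U ψ J w j).map (AddMonoidHom.mulRight e)).comap ν)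
    (fun y hy => (key φ y).2 hy) (fun y _ => key ψ y) fun x hx => ?_).symm.trans
    (eidx_eq_of_map ν (fun _ h => h) (fun _ _ => Iff.rfl) ?_)
  · have hx' : x ∈ Y.Qa J w j :=
      (sup_le inf_le_right hGQ : _ ≤ (Y.Qa J w j).toAddSubgroup) hx
    obtain ⟨y, rfl⟩ := (hμ x).1 hx'
    exact ⟨y, (key φ y).1 hx, by simp⟩
  · rintro _ ⟨s, hs, rfl⟩
    obtain ⟨y, hy⟩ := (hν (s * e)).2 ⟨s, rfl⟩
    exact ⟨y, ⟨s, hs, hy.symm⟩, by simp [hy]⟩

theorem ind_of_chain (hσ : Δ.σ = 1) (hJ : Δ.IsStr J w) (hY : Y.Stable Λ)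
    (h : ∀ j ∈ J, Lay Δ Y e J w j)
    (hch : ∀ i ∈ J, ∀ j ∈ J, i < j → Y.Qa J w i ≤ Y.Ga J w j) (φ ψ : PP Λ) (hle : ψ.Le φ)
    (hcov : ∀ x ∈ φ.set N, x ∉ ψ.set N → ∃ j ∈ J,
      x ∈ φ.set N ⊓ (Y.Qa J w j).toAddSubgroup ⊔ ψ.set N ∧
        x ∉ φ.set N ⊓ (Y.Ga J w j).toAddSubgroup ⊔ ψ.set N) :
    ind φ ψ N = Δ.wt φ ψ J w e := by
  unfold ind SD.wt
  rw [eidx_eq_tprodE (fun j => φ.set N ⊓ (Y.Ga J w j).toAddSubgroup ⊔ ψ.set N)
    (fun j => φ.set N ⊓ (Y.Qa J w j).toAddSubgroup ⊔ ψ.set N) J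
    (fun j hj _ => mem_mono fun _ hx => (h j hj).1 hx)
    (fun i hi j hj hij _ => mem_mono fun _ hx => hch i hi j hj hij hx)
    _ _ (hle N) (fun _ _ => le_sup_right) (fun _ _ => sup_le inf_le_left (hle N)) hcov]
  refine tprodE_congr fun j hj => ?_
  have : Δ.tw w j e = e := by simp [SD.tw, hσ]
  rw [this, eidx_zass (hle N) (h j hj).1, layer Δ Y e hJ hY hj (h j hj)]

end Layer

/-- Multiplication by a central element. -/
def cmul {N : Type} [AddCommGroup N] [Module Λ N] (a : Λ) (hc : ∀ r, r * a = a * r) :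
    N →ₗ[Λ] N where
  toFun x := a • x
  map_add' := smul_add a
  map_smul' r x := by rw [RingHom.id_apply, smul_smul, smul_smul, hc]

theorem ind_adic (hb : Δ.b = 0) (hσ : Δ.σ = 1) (hc : ∀ r, r * Δ.a = Δ.a * r) {n : ℤ}
    {w : ℤ → Bool} (hJ : Δ.IsStr (Set.Iic n) w) (e : S) (N : Type) [AddCommGroup N] [Module Λ N]
    (hinj : ∀ x : N, Δ.a • x = 0 → x = 0) (pr : N →+ S)
    (hpr : ∀ r x, pr (r • x) = Δ.q r * pr x) (hker : ∀ x, pr x = 0 ↔ ∃ y, Δ.a • y = x)
    (hran : ∀ s, (∃ y, pr y = s) ↔ ∃ t, s = t * e) (φ ψ : PP Λ) (hle : ψ.Le φ)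
    (hcl : ∀ x : N, (∀ k : ℕ, ∃ y, x - Δ.a ^ k • y ∈ ψ.set N) → x ∈ ψ.set N) :
    ind φ ψ N = Δ.wt φ ψ (Set.Iic n) w e := by
  classical
  let _ := Module.compHom N (algebraMap D Λ)
  have : IsScalarTower D Λ N := IsScalarTower.of_algebraMap_smul fun _ _ => rfl
  obtain ⟨Y, hY, -, -, h3, h4⟩ := exists_sys (cmul Δ.a hc) 0 (act D N Δ.a) (act D N Δ.b)
    (fun _ => rfl) (by simp [hb]) (by simp) (by simp)
  have h3 := h3 ((injective_iff_map_eq_zero _).2 hinj)
  have hw : ∀ i, i < n → w i = true := fun i hi =>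
    (hJ.adm.resolve_left (by simp [hb])) i hi.le hi
  have hr : ∀ k : ℕ, rwd (Set.Iic n) w (n - k) = wd 0 k := fun k => by
    funext i
    by_cases hi : i < k
    · rw [rwd, wd, if_pos (by simp; omega), if_pos (hw _ (by omega)), if_pos hi]
    · rw [rwd, wd, if_neg (by simp; omega), if_neg hi]
  have hl : ∀ k : ℕ, lwd (Set.Iic n) w (n - k) = fun _ => 2 := fun k => by
    funext i
    rw [lwd, if_pos (by simp; omega), if_pos (hw _ (by omega))]
  have hQ : ∀ (k : ℕ) x, x ∈ Y.Qa (Set.Iic n) w (n - k) ↔ ∃ y, Δ.a ^ k • y = x := fun k x => by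
    simp [Sys.Qa, Sys.Q, hr, hl, h4, side_wd0 Y.hRp, hb, act_pow]
  have hG : ∀ (k : ℕ) x, x ∈ Y.Ga (Set.Iic n) w (n - k) ↔ ∃ y, Δ.a ^ (k + 1) • y = x :=
    fun k x => by
      simp [Sys.Ga, Sys.Gm, hr, hl, h3, side_wd0 Y.hRm, act_pow, pow_succ, mul_smul]
  have hex : ∀ j ∈ Set.Iic n, ∃ k : ℕ, j = n - k := fun j hj =>
    ⟨(n - j).toNat, by have : j ≤ n := hj; omega⟩
  have hmono : ∀ k l : ℕ, k ≤ l → ∀ x : N, (∃ y, Δ.a ^ l • y = x) → ∃ y, Δ.a ^ k • y = x := by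
    rintro k l hkl _ ⟨y, rfl⟩
    exact ⟨Δ.a ^ (l - k) • y, by rw [smul_smul, ← pow_add, Nat.add_sub_cancel' hkl]⟩
  have hinj' : ∀ (k : ℕ) (x : N), Δ.a ^ k • x = 0 → x = 0 := fun k => by
    induction k with
    | zero => simp
    | succ k ih => exact fun x hx => hinj x (ih _ (by rwa [pow_succ, mul_smul] at hx))
  refine ind_of_chain Δ Y e hσ hJ hY (fun j hj => ?_) (fun i hi j hj hij x hx => ?_) φ ψ hle
    fun x hx hx' => ?_
  · obtain ⟨k, rfl⟩ := hex j hj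
    refine ⟨fun x hx => (hQ k x).2 (hmono _ _ (by omega) x ((hG k x).1 hx)), N, inferInstance,
      DistribSMul.toAddMonoidHom N (Δ.a ^ k), pr, hQ k, fun y => ?_, hran, fun r y =>
        ⟨r • y, ?_, hpr r y⟩⟩
    · rw [hG, hker]
      refine exists_congr fun x => ?_
      rw [DistribSMul.toAddMonoidHom_apply, pow_succ, mul_smul, ← sub_eq_zero, ← smul_sub,
        ← sub_eq_zero (a := Δ.a • x)]
      exact ⟨hinj' k _, fun h => by rw [h, smul_zero]⟩
    · simp only [DistribSMul.toAddMonoidHom_apply, smul_smul]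
      rw [(Commute.pow_right (hc r) k).eq]
  · obtain ⟨k, rfl⟩ := hex i hi
    obtain ⟨l, rfl⟩ := hex j hj
    exact (hG l x).2 (hmono _ _ (by omega) x ((hQ k x).1 hx))
  · have hne : ∃ k : ℕ, x ∉ φ.set N ⊓ (Y.Ga (Set.Iic n) w (n - k)).toAddSubgroup ⊔ ψ.set N := by
      by_contra h
      push Not at h
      refine hx' (hcl x fun k => ?_)
      obtain ⟨u, hu, v, hv, rfl⟩ := AddSubgroup.mem_sup.1 (h k)
      obtain ⟨y, rfl⟩ := hmono _ _ (Nat.le_succ k) u ((hG k u).1 hu.2)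
      exact ⟨y, by simpa using hv⟩
    refine ⟨n - Nat.find hne, by simp, ?_, Nat.find_spec hne⟩
    rcases h : Nat.find hne with _ | k
    · exact AddSubgroup.mem_sup_left ⟨hx, (hQ 0 x).2 ⟨x, by simp⟩⟩
    · have := Nat.find_min hne (m := k) (by omega)
      rw [not_not] at this
      exact mem_mono (fun y hy => (hQ _ y).2 ((hG k y).1 hy)) this

theorem ind_div (hb : Δ.b = 0) (hσ : Δ.σ = 1) (hc : ∀ r, r * Δ.a = Δ.a * r) {n : ℤ}
    {w : ℤ → Bool} (hJ : Δ.IsStr (Set.Ici n) w) (e : S) (N : Type) [AddCommGroup N] [Module Λ N]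
    (hsurj : ∀ x : N, ∃ y, Δ.a • y = x) (htor : ∀ x : N, ∃ k : ℕ, Δ.a ^ k • x = 0) (pr : N →+ S)
    (hpr : ∀ r x, Δ.a • x = 0 → pr (r • x) = Δ.q r * pr x)
    (hker : ∀ x, Δ.a • x = 0 → pr x = 0 → x = 0)
    (hran : ∀ s, (∃ y, Δ.a • y = 0 ∧ pr y = s) ↔ ∃ t, s = t * e) (φ ψ : PP Λ) (hle : ψ.Le φ) :
    ind φ ψ N = Δ.wt φ ψ (Set.Ici n) w e := by
  classical
  let _ := Module.compHom N (algebraMap D Λ)
  have : IsScalarTower D Λ N := IsScalarTower.of_algebraMap_smul fun _ _ => rfl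
  obtain ⟨Y, hY, h1, h2, -, -⟩ := exists_sys (cmul Δ.a hc) 0 (act D N Δ.a) (act D N Δ.b)
    (fun _ => rfl) (by simp [hb]) (by simp) (by simp)
  have h2 := h2 hsurj
  have hw : ∀ i, n ≤ i → w i = true := fun i hi =>
    (hJ.adm.resolve_left (by simp [hb])) i hi (hi.trans (by omega : i ≤ i + 1))
  have hr : ∀ k : ℕ, rwd (Set.Ici n) w (n + k) = fun _ => 0 := fun k => by
    funext i
    rw [rwd, if_pos (by simp; omega), if_pos (hw _ (by omega))]
  have hl : ∀ k : ℕ, lwd (Set.Ici n) w (n + k) = wd 2 k := fun k => by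
    funext i
    by_cases hi : i < k
    · rw [lwd, wd, if_pos (by simp; omega), if_pos (hw _ (by omega)), if_pos hi]
    · rw [lwd, wd, if_neg (by simp; omega), if_neg hi]
  have hQ : ∀ (k : ℕ) x, x ∈ Y.Qa (Set.Ici n) w (n + k) ↔ Δ.a ^ (k + 1) • x = 0 := fun k x => by
    simp [Sys.Qa, Sys.Q, hr, hl, h2, side_wd2 Y.hLp, act_pow, pow_succ', mul_smul]
  have hG : ∀ (k : ℕ) x, x ∈ Y.Ga (Set.Ici n) w (n + k) ↔ Δ.a ^ k • x = 0 := fun k x => by
    simp [Sys.Ga, Sys.Gm, hr, hl, h1, h2, side_wd2 Y.hLm, hb, act_pow, eq_comm]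
  have hex : ∀ j ∈ Set.Ici n, ∃ k : ℕ, j = n + k := fun j hj =>
    ⟨(j - n).toNat, by have : n ≤ j := hj; omega⟩
  have hmono : ∀ k l : ℕ, k ≤ l → ∀ x : N, Δ.a ^ k • x = 0 → Δ.a ^ l • x = 0 := by
    intro k l hkl x hx
    rw [← Nat.sub_add_cancel hkl, pow_add, mul_smul, hx, smul_zero]
  have hsurj' : ∀ (k : ℕ) (x : N), ∃ y, Δ.a ^ k • y = x := fun k => by
    induction k with
    | zero => simp
    | succ k ih =>
      intro x
      obtain ⟨y, rfl⟩ := ih x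
      obtain ⟨y, rfl⟩ := hsurj y
      exact ⟨y, by rw [pow_succ, mul_smul]⟩
  refine ind_of_chain Δ Y e hσ hJ hY (fun j hj => ?_) (fun i hi j hj hij x hx => ?_) φ ψ hle
    fun x hx hx' => ?_
  · obtain ⟨k, rfl⟩ := hex j hj
    have hy : ∀ y : Y.Qa (Set.Ici n) w (n + k), Δ.a • Δ.a ^ k • (y : N) = 0 := fun y => by
      rw [smul_smul, ← pow_succ', ← hQ]; exact y.2
    refine ⟨fun x hx => (hQ k x).2 (hmono _ _ (by omega) x ((hG k x).1 hx)),
      Y.Qa (Set.Ici n) w (n + k), inferInstance, (Submodule.subtype _).toAddMonoidHom,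
      pr.comp ((DistribSMul.toAddMonoidHom N (Δ.a ^ k)).comp (Submodule.subtype _).toAddMonoidHom),
      by simp, fun y => ?_, fun s => ?_, fun r y => ⟨⟨r • y, ?_⟩, rfl, ?_⟩⟩
    · rw [hG]
      exact ⟨fun h => by simpa using (congrArg pr h).trans (map_zero pr), hker _ (hy y)⟩
    · rw [← hran]
      constructor
      · rintro ⟨y, rfl⟩
        exact ⟨_, hy y, rfl⟩
      · rintro ⟨y, h, rfl⟩
        obtain ⟨y, rfl⟩ := hsurj' k y
        exact ⟨⟨y, by rwa [hQ, pow_succ', mul_smul]⟩, rfl⟩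
    · rw [hQ, smul_smul, ← (Commute.pow_right (hc r) _).eq, mul_smul, (hQ _ _).1 y.2, smul_zero]
    · change pr (Δ.a ^ k • r • (y : N)) = _ * pr (Δ.a ^ k • (y : N))
      rw [← hpr _ _ (hy y), smul_smul, smul_smul, (Commute.pow_right (hc r) k).eq]
  · obtain ⟨k, rfl⟩ := hex i hi
    obtain ⟨l, rfl⟩ := hex j hj
    exact (hG l x).2 (hmono _ _ (by omega) x ((hQ k x).1 hx))
  · have hne : ∃ k : ℕ, x ∈ φ.set N ⊓ (Y.Qa (Set.Ici n) w (n + k)).toAddSubgroup ⊔ ψ.set N := by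
      obtain ⟨k, hk⟩ := htor x
      exact ⟨k, AddSubgroup.mem_sup_left ⟨hx, (hQ k x).2 (hmono _ _ (by omega) x hk)⟩⟩
    refine ⟨n + Nat.find hne, by simp, Nat.find_spec hne, ?_⟩
    rcases h : Nat.find hne with _ | k
    · intro h'
      obtain ⟨u, hu, v, hv, rfl⟩ := AddSubgroup.mem_sup.1 h'
      have := (hG 0 u).1 hu.2
      rw [pow_zero, one_smul] at this
      exact hx' (by rwa [this, zero_add])
    · exact fun h' => Nat.find_min hne (m := k) (by omega)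
        (mem_mono (fun y hy => (hQ _ y).2 ((hG _ y).1 hy)) h')

end Pool.Agent.Lib.MP_c13fce_lc.BandPar
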