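import Pool.Agent.Lib.MP_c13fce_lc.BandPar2
import Pool.Agent.Lib.MP_c13fce_lc.BandPar3

/-! Block E, part 4: twisted modules of sequences. -/

namespace Pool.Agent.Lib.MP_c13fce_lc.BandPar

open LaurentPolynomial MonoidAlgebra

section Seq
variable {Λ : Type} [Ring Λ] {τ : Λ → Λ} (X : BM Λ τ)

/-- The shift. -/
def zS : Module.End ℤ X.C := AddMonoidHom.toIntLinearMap
  { toFun := fun v => ⟨X.nb v.1, fun h k => by
        have h1 : X.kind ≠ 1 := by rw [h]; decide
        simp [BM.nb, h1, v.2.1 h], fun h => by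
        have h1 : X.kind ≠ 1 := by rw [h]; decide
        refine ((v.2.2 h).preimage (f := fun k => k + 1) (add_left_injective 1).injOn).subset
          fun k hk => ?_
        simpa [BM.nb, h1] using hk⟩
    map_zero' := by ext k; exact X.nb_zero k
    map_add' := fun v v' => by ext k; exact X.nb_add _ _ k }

theorem zS_apply (v : X.C) (k : ℕ) : (zS X v).1 k = X.nb v.1 k := rfl

theorem zS_smul (r : Λ) (v : X.C) : zS X (r • v) = r • zS X v := by
  ext k
  simp only [zS_apply, BM.nb, Submodule.coe_smul, Pi.smul_apply]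
  split_ifs
  · cases k <;> simp
  · rfl

/-- The constant term as a sequence. -/
def c0 : X.W →ₗ[Λ] X.C where
  toFun x := ⟨Pi.single 0 x, fun _ k => by simp, fun _ => (Set.finite_singleton 0).subset
    fun k hk => by
      by_contra h
      exact hk (Pi.single_eq_of_ne (M := fun _ => X.W) h x)⟩
  map_add' x y := by ext k; simp [Pi.single_add]
  map_smul' r x := by ext k; simp [Pi.single_smul]

theorem c0_zero (x : X.W) : (c0 X x).1 0 = x := by simp [c0]

theorem c0_succ (x : X.W) (k : ℕ) : (c0 X x).1 (k + 1) = 0 := by simp [c0]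

variable {X}

theorem mem_C1 (h : X.kind = 1) (v : ℕ → X.W) : v ∈ X.C :=
  ⟨fun h' => absurd (h ▸ h') (by decide), fun h' => absurd (h ▸ h') (by decide)⟩

theorem zS1_zero (h : X.kind = 1) (v : X.C) : (zS X v).1 0 = 0 := by simp [zS_apply, BM.nb, h]

theorem zS1_succ (h : X.kind = 1) (v : X.C) (k : ℕ) : (zS X v).1 (k + 1) = v.1 k := by
  simp [zS_apply, BM.nb, h]

/-- The first `m` entries vanish. -/
def Fm (m : ℕ) (v : X.C) : Prop := ∀ i < m, v.1 i = 0

theorem Fm.zS (h : X.kind = 1) {m : ℕ} {v : X.C} (hv : Fm m v) : Fm (m + 1) (zS X v) := by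
  intro i hi
  cases i with
  | zero => exact zS1_zero h v
  | succ i => rw [zS1_succ h]; exact hv i (by omega)

theorem Fm.mono {m k : ℕ} {v : X.C} (hv : Fm m v) (h : k ≤ m) : Fm k v :=
  fun i hi => hv i (by omega)

theorem Fm.add {m : ℕ} {v v' : X.C} (hv : Fm m v) (hv' : Fm m v') : Fm m (v + v') :=
  fun i hi => by simp [hv i hi, hv' i hi]

theorem Fm.neg {m : ℕ} {v : X.C} (hv : Fm m v) : Fm m (-v) :=
  fun i hi => by simp [hv i hi]

theorem Fm.sum {m : ℕ} {κ : Type} [Fintype κ] {v : κ → X.C} (hv : ∀ k, Fm m (v k)) :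
    Fm m (∑ k, v k) :=
  fun i hi => by simp [fun k => hv k i hi]

theorem eq_zero_of_Fm {v : X.C} (hv : ∀ m, Fm m v) : v = 0 := by
  ext k; exact hv (k + 1) k (by omega)

theorem Fm_iff (h : X.kind = 1) (m : ℕ) (v : X.C) : Fm m v ↔ ∃ v', (zS X ^ m) v' = v := by
  induction m generalizing v with
  | zero => simp [Fm]
  | succ m ih =>
    constructor
    · intro hv
      obtain ⟨v', hv'⟩ := (ih ⟨fun k => v.1 (k + 1), mem_C1 h _⟩).1 fun i hi => hv _ (by omega)
      refine ⟨v', ?_⟩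
      rw [pow_succ', Module.End.mul_apply, hv']
      ext k
      cases k with
      | zero => rw [zS1_zero h, hv 0 (by omega)]
      | succ k => rw [zS1_succ h]
    · rintro ⟨v', rfl⟩
      rw [pow_succ', Module.End.mul_apply]
      exact ((ih _).2 ⟨v', rfl⟩).zS h

theorem Fm.map (h : X.kind = 1) {f : Module.End ℤ X.C} (hf : Commute f (BandPar.zS X)) {m : ℕ}
    {v : X.C} (hv : Fm m v) : Fm m (f v) := by
  obtain ⟨v', rfl⟩ := (Fm_iff h m v).1 hv
  exact (Fm_iff h m _).2 ⟨f v', by rw [← Module.End.mul_apply, ← (hf.pow_right m).eq]; rfl⟩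

theorem konig (h : X.kind = 1) {κ : Type} [Finite κ] (y : ℕ → κ → X.C) :
    ∃ y' : κ → X.C, ∀ m, ∃ k, m ≤ k ∧ ∀ i, Fm m (y' i - y k i) := by
  have h1 : ∀ i j, ∃ a, ∀ᶠ k in (Filter.hyperfilter ℕ : Filter ℕ), (y k i).1 j = a := fun i j =>
    Ultrafilter.eventually_exists_iff.1 (Filter.Eventually.of_forall fun k => ⟨_, rfl⟩)
  choose a ha using h1
  refine ⟨fun i => ⟨a i, mem_C1 h _⟩, fun m => ?_⟩
  have h2 : ∀ᶠ k in (Filter.hyperfilter ℕ : Filter ℕ), ∀ i, ∀ j : Fin m, (y k i).1 j = a i j :=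
    Filter.eventually_all.2 fun i => Filter.eventually_all.2 fun j => ha i j
  obtain ⟨k, hk, hk'⟩ := (((Filter.eventually_ge_atTop m).filter_mono Nat.hyperfilter_le_atTop).and
    h2).exists
  exact ⟨k, hk, fun i j hj => by simp [hk' i ⟨j, hj⟩]⟩

theorem unit1 (h : X.kind = 1) (y : Module.End ℤ X.C) (hy : Commute y (zS X)) :
    IsUnit (1 + zS X * y) := by
  have hc : Commute (1 + zS X * y) (zS X) :=
    (Commute.one_left _).add_left ((Commute.refl _).mul_left hy)
  rw [Module.End.isUnit_iff]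
  refine ⟨(injective_iff_map_eq_zero _).2 fun v hv => eq_zero_of_Fm fun m => ?_, fun v => ?_⟩
  · have e : v = -zS X (y v) := eq_neg_of_add_eq_zero_left hv
    induction m with
    | zero => exact fun i hi => absurd hi (by omega)
    | succ m ih => rw [e]; exact ((ih.map h hy).zS h).neg
  · have h1 : ∀ k, ∃ s, Fm k ((1 + zS X * y) s - v) := fun k => by
      induction k with
      | zero => exact ⟨0, fun i hi => absurd hi (by omega)⟩
      | succ k ih =>
        obtain ⟨s, hs⟩ := ih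
        refine ⟨s - ((1 + zS X * y) s - v), ?_⟩
        convert ((hs.map h hy).zS h).neg using 1
        generalize hd : (1 + zS X * y) s - v = d
        rw [map_sub, sub_right_comm, hd]
        simp
    choose s hs using h1
    obtain ⟨x, hx⟩ := konig h (κ := Unit) fun k _ => s k
    refine ⟨x (), sub_eq_zero.1 (eq_zero_of_Fm fun m => ?_)⟩
    obtain ⟨k, hk, hk'⟩ := hx m
    convert ((hk' ()).map h hc).add ((hs k).mono hk) using 1
    rw [map_sub, sub_add_sub_cancel]

theorem zS2 (h : X.kind = 2) (v : X.C) (k : ℕ) : (zS X v).1 k = v.1 (k + 1) := by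
  have h1 : X.kind ≠ 1 := by rw [h]; decide
  simp [zS_apply, BM.nb, h1]

theorem zS2_pow (h : X.kind = 2) (m : ℕ) (v : X.C) (k : ℕ) :
    ((zS X ^ m) v).1 k = v.1 (k + m) := by
  induction m generalizing k with
  | zero => rfl
  | succ m ih => rw [pow_succ', Module.End.mul_apply, zS2 h, ih, add_assoc, add_comm 1]

theorem nil2 (h : X.kind = 2) (v : X.C) : ∃ m, (zS X ^ m) v = 0 := by
  obtain ⟨m, hm⟩ := (v.2.2 h).bddAbove
  refine ⟨m + 1, ?_⟩
  ext k
  rw [zS2_pow h]
  by_contra h'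
  have := hm h'
  omega

theorem surj2 (h : X.kind = 2) (v : X.C) : ∃ v', zS X v' = v := by
  refine ⟨⟨fun k => Nat.casesOn k 0 v.1, fun h' => absurd (h ▸ h') (by decide), fun _ =>
    ((v.2.2 h).image (· + 1)).subset fun k hk => ?_⟩, ?_⟩
  · cases k with
    | zero => exact absurd rfl hk
    | succ k => exact ⟨k, hk, rfl⟩
  · ext k; rw [zS2 h]

theorem unit2 (h : X.kind = 2) (y : Module.End ℤ X.C) (hy : Commute y (zS X)) :
    IsUnit (1 + zS X * y) := by
  have hn : ∀ v, ∃ m, ((-(zS X * y)) ^ m) v = 0 := fun v => by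
    obtain ⟨m, hm⟩ := nil2 h v
    refine ⟨m, ?_⟩
    rw [← hy.eq, ← neg_mul, hy.neg_left.mul_pow, Module.End.mul_apply, hm, map_zero]
  rw [Module.End.isUnit_iff, ← sub_neg_eq_add]
  refine ⟨(injective_iff_map_eq_zero _).2 fun v hv => ?_, fun v => ?_⟩
  · obtain ⟨m, hm⟩ := hn v
    have := congrArg (fun f : Module.End ℤ X.C => f v) (geom_sum_mul_neg (-(zS X * y)) m)
    rw [Module.End.mul_apply, hv, map_zero, LinearMap.sub_apply, hm, sub_zero] at this
    exact this.symm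
  · obtain ⟨m, hm⟩ := hn v
    have := congrArg (fun f : Module.End ℤ X.C => f v) (mul_neg_geom_sum (-(zS X * y)) m)
    rw [Module.End.mul_apply, LinearMap.sub_apply 1 (_ ^ m), hm, sub_zero] at this
    exact ⟨_, this⟩

end Seq

/-- A module structure given by a ring homomorphism to the endomorphisms. -/
def Syn {Λ N : Type} [Ring Λ] [AddCommGroup N] (_ : Λ →+* Module.End ℤ N) : Type := N

instance {Λ N : Type} [Ring Λ] [AddCommGroup N] (ρ : Λ →+* Module.End ℤ N) :
    AddCommGroup (Syn ρ) := inferInstanceAs (AddCommGroup N)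

instance {Λ N : Type} [Ring Λ] [AddCommGroup N] (ρ : Λ →+* Module.End ℤ N) :
    Module Λ (Syn ρ) := Module.compHom N ρ

variable {p : ℕ} [Fact p.Prime] {G : Type} [Group G] [Cen p G]

theorem twist {R : Type} [Ring R] (ρ₀ : Eg p G →+* R) (z : R) (hz : ∀ r, Commute (ρ₀ r) z)
    (hU : ∀ y, Commute y z → IsUnit (1 + z * y)) {π : Dp p} (hπ : Irreducible π)
    (h0 : ρ₀ (algebraMap (Dp p) (Eg p G) π) = 0) :
    ∃ ρ₁ : Eg p G →+* R,
      (∀ y a, Cen.deg p y = 1 → ρ₁ (single y a) = ρ₀ (single y a)) ∧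
      (∀ y, Cen.deg p y = Multiplicative.ofAdd 1 → ρ₁ (single y 1) = ρ₀ (single y 1) * (1 + z)) ∧
      (∀ r, ∃ y, Commute y z ∧ ρ₁ r = ρ₀ r + z * y) ∧
      ∃ (x : R) (δ : Rˣ), Commute x (ρ₁ (algebraMap (Dp p) (Eg p G) π)) ∧ Commute (δ : R) z ∧
        ρ₁ (algebraMap (Dp p) (Eg p G) π) * x = z * δ := by
  obtain ⟨u, hu⟩ := hU 1 (Commute.one_left _)
  rw [mul_one] at hu
  have hz' : z = u - 1 := by rw [hu, add_sub_cancel_left]
  have hcu : ∀ r, Commute (ρ₀ r) u := fun r => hu ▸ (Commute.one_right _).add_right (hz r)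
  let g : G →* R :=
    { toFun := fun y => ρ₀ (single y 1) * (u ^ (Cen.deg p y).toAdd : Rˣ)
      map_one' := by simp [← one_def]
      map_mul' := fun x y => by
        rw [map_mul, toAdd_mul, zpow_add, Units.val_mul, ← one_mul (1 : ZMod p),
          ← single_mul_single, map_mul, one_mul, mul_assoc, mul_assoc,
          ← mul_assoc (ρ₀ (single y 1)), ((hcu _).units_zpow_right _).eq, mul_assoc] }
  let ρ₁ : Eg p G →+* R := liftNCRingHom (ρ₀.comp (algebraMap (ZMod p) (Eg p G))) g fun a y =>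
    ((Algebra.commute_algebraMap_left a (single y 1 : Eg p G)).map ρ₀).mul_right
      ((hcu _).units_zpow_right _)
  have h1 : ∀ y a, ρ₁ (single y a) = ρ₀ (single y a) * (u ^ (Cen.deg p y).toAdd : Rˣ) :=
    fun y a => by
      rw [single_eq_algebraMap_mul_of y a, ρ₀.map_mul, mul_assoc, ← single_eq_algebraMap_mul_of]
      exact liftNCRingHom_single _ _ _ _ _
  refine ⟨ρ₁, fun y a hy => by simp [h1, hy], fun y hy => by simp [h1, hy, hu], fun r => ?_, ?_⟩
  · induction r using MonoidAlgebra.induction_linear with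
    | zero => exact ⟨0, by simp, by simp⟩
    | add r s hr hs =>
      obtain ⟨y, hy, e⟩ := hr
      obtain ⟨y', hy', e'⟩ := hs
      exact ⟨y + y', hy.add_left hy', by rw [map_add, map_add, e, e', mul_add]; abel⟩
    | single y a =>
      obtain ⟨b, hb, e⟩ := zpow_expand u (Cen.deg p y).toAdd
      rw [← hz'] at hb e
      exact ⟨ρ₀ (single y a) * b, (hz _).mul_left hb, by
        rw [h1, e, mul_add, mul_one, ← mul_assoc, (hz _).eq, mul_assoc]⟩
  · obtain ⟨x, β, hx, hβ, e⟩ := key p (ρ₀.comp (algebraMap (Dp p) (Eg p G)))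
      (ρ₁.comp (algebraMap (Dp p) (Eg p G))) u (fun d => hcu _) (p - 1)
      (fun n => by simp only [RingHom.comp_apply, alg_T, h1, deg_c_zpow]) hπ h0
    rw [← hz'] at hβ e
    let t : Rˣ := Units.map ρ₀.toMonoidHom ((of (ZMod p) G).toHomUnits (Cen.c p))
    have ht : (ρ₀.comp (algebraMap (Dp p) (Eg p G))) (T 1) = t := by
      simp [alg_T, t]
    have htz : Commute (t : R) z := hz _
    have hp : ((p - 1 : ℕ) : R) = -1 := by
      have : (p : R) = 0 := by
        rw [← map_natCast (ρ₀.comp (algebraMap (ZMod p) (Eg p G))), ZMod.natCast_self, map_zero]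
      rw [Nat.cast_sub (Fact.out : p.Prime).one_le, this, Nat.cast_one, zero_sub]
    obtain ⟨v, hv⟩ := hU (-((t⁻¹ : Rˣ) * β)) (htz.units_inv_left.mul_left hβ).neg_left
    have hδ : ((-t * v : Rˣ) : R) = ((p - 1 : ℕ) : R) * t + z * β := by
      rw [Units.val_mul, hv, hp, Units.val_neg, mul_neg, ← mul_assoc z, ← htz.units_inv_left.eq,
        mul_add, neg_mul_neg, ← mul_assoc, ← mul_assoc, Units.mul_inv]
      simp
    refine ⟨x, -t * v, hx, ?_, ?_⟩
    · rw [hδ]
      exact ((Nat.cast_commute _ _).mul_left htz).add_left ((Commute.refl z).mul_left hβ)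
    · rw [hδ, ← ht]; exact e

variable (p G) in
/-- Modules of sequences on which elements of degree one act through the twisted shift. -/
def Tw (C : ModuleCat.{0} (Eg p G)) : Prop :=
  ∃ (X : BM (Eg p G) id) (e : C ≃+ X.C), (∀ x, X.T0 x = x) ∧
    (∀ y a x, Cen.deg p y = 1 →
      e ((single y a : Eg p G) • x) = (single y a : Eg p G) • e x) ∧
    ∀ y x, Cen.deg p y = Multiplicative.ofAdd 1 →
      e ((single y 1 : Eg p G) • x) = (single y 1 : Eg p G) • X.T (e x)

theorem tw_finite (C : ModuleCat.{0} (Eg p G)) (h : Finite C) : Tw p G C := by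
  let X : BM (Eg p G) id :=
    { W := C, T0 := AddEquiv.refl _, semi := fun _ _ => rfl, kind := 0 }
  have hb : Function.Bijective (c0 X) := by
    refine ⟨fun x y h => by rw [← c0_zero X x, h, c0_zero], fun v => ⟨v.1 0, ?_⟩⟩
    ext k
    cases k with
    | zero => exact c0_zero X _
    | succ k => rw [c0_succ, v.2.1 rfl]
  have hT : ∀ v, X.T v = v := fun v => by
    ext k
    change v.1 k + X.nb v.1 k = v.1 k
    rw [BM.nb.eq_def, if_neg (show ¬ (0 : Fin 3) = 1 by decide), v.2.1 rfl, add_zero]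
  exact ⟨X, AddEquiv.ofBijective (c0 X).toAddMonoidHom hb, fun _ => rfl,
    fun y a x _ => map_smul (c0 X) _ x, fun y x _ => by rw [hT]; exact map_smul (c0 X) _ x⟩

theorem real_inf {S : Type} [Ring S] [Algebra (Dp p) S] [Finite S] [IsSemisimpleRing S]
    (Δ : SD (Dp p) (Eg p G) S) (ha : Δ.a = algebraMap (Dp p) (Eg p G) Δ.π) (hb : Δ.b = 0)
    (hσ : Δ.σ = 1) {J : Set ℤ} {w : ℤ → Bool} (hJ : Δ.IsStr J w) {n : ℤ}
    (hn : J = Set.Iic n ∨ J = Set.Ici n) (e : S) : ∃ C : ModuleCat.{0} (Eg p G), Tw p G C ∧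
      ∀ φ ψ : PP (Eg p G), ψ.Le φ → ind φ ψ C = Δ.wt φ ψ J w e := by
  obtain ⟨κ, hκ⟩ : ∃ κ : Fin 3, (κ = 1 ∧ J = Set.Iic n) ∨ (κ = 2 ∧ J = Set.Ici n) :=
    hn.elim (fun h => ⟨1, Or.inl ⟨rfl, h⟩⟩) fun h => ⟨2, Or.inr ⟨rfl, h⟩⟩
  let X : BM (Eg p G) id :=
    { W := Submodule.span S {e}, mod := Module.compHom _ Δ.q.toRingHom, T0 := AddEquiv.refl _,
      semi := fun _ _ => rfl, kind := κ }
  let pr : X.C →+ S :=
    { toFun := fun v => Subtype.val (p := (· ∈ Submodule.span S {e})) (v.1 0)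
      map_zero' := rfl
      map_add' := fun _ _ => rfl }
  have pr_smul : ∀ (r : Eg p G) v, pr (r • v) = Δ.q r * pr v := fun _ _ => rfl
  have pr_eq : ∀ v, pr v = 0 ↔ v.1 0 = 0 := fun v => ⟨fun h => Subtype.ext h, fun h =>
    congrArg (Subtype.val (p := (· ∈ Submodule.span S {e}))) h⟩
  have pr_mem : ∀ v, ∃ t, pr v = t * e := fun v => by
    obtain ⟨t, ht⟩ := Submodule.mem_span_singleton.1
      (Subtype.property (p := (· ∈ Submodule.span S {e})) (v.1 0))
    exact ⟨t, ht.symm⟩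
  have pr_c0 : ∀ t, ∃ x, pr (c0 X x) = t * e := fun t =>
    ⟨(⟨t * e, Submodule.mem_span_singleton.2 ⟨t, rfl⟩⟩ : Submodule.span S {e}),
      congrArg (Subtype.val (p := (· ∈ Submodule.span S {e}))) (c0_zero X _)⟩
  let ρ₀ : Eg p G →+* Module.End ℤ X.C := Module.toModuleEnd ℤ X.C
  have ρ₀_apply : ∀ r v, ρ₀ r v = r • v := fun _ _ => rfl
  have h0 : ρ₀ (algebraMap (Dp p) (Eg p G) Δ.π) = 0 := by
    ext v k
    change Δ.q (algebraMap _ _ Δ.π) * _ = 0
    rw [Δ.q.commutes, Δ.qπ, zero_mul]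
  obtain ⟨ρ, h1, h2, h3, x, δ, hx, hδ, hA⟩ := twist ρ₀ (zS X)
    (fun r => LinearMap.ext fun v => (zS_smul X r v).symm)
    (hκ.elim (fun h => unit1 h.1) fun h => unit2 h.1) Δ.hπ h0
  obtain ⟨y₀, hy₀, hA'⟩ := h3 (algebraMap (Dp p) (Eg p G) Δ.π)
  rw [h0, zero_add] at hA'
  rw [← ha] at hx hA hA'
  have hc : ∀ r, r * Δ.a = Δ.a * r := fun r => by rw [ha, Algebra.commutes]
  have hker : ∀ v, ρ Δ.a v = 0 → zS X v = 0 := fun v hv => by
    have : (δ : Module.End ℤ X.C) (zS X v) = 0 := by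
      rw [← Module.End.mul_apply, hδ.eq, ← hA, ← hx.eq, Module.End.mul_apply, hv, map_zero]
    exact (injective_iff_map_eq_zero _).1 ((Module.End.isUnit_iff _).1 δ.isUnit).1 _ this
  have hran : ∀ v, ∃ v', ρ Δ.a v' = zS X v := fun v => by
    obtain ⟨v, rfl⟩ := ((Module.End.isUnit_iff _).1 δ.isUnit).2 v
    exact ⟨x v, by rw [← Module.End.mul_apply, hA]; rfl⟩
  refine ⟨ModuleCat.of _ (Syn ρ), ⟨X, AddEquiv.refl X.C, fun _ => rfl, fun y a v hy => ?_,
    fun y v hy => ?_⟩, fun φ ψ hle => ?_⟩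
  · exact congrArg (fun f : Module.End ℤ X.C => f v) (h1 y a hy)
  · exact congrArg (fun f : Module.End ℤ X.C => f v) (h2 y hy)
  rcases hκ with ⟨hκ, rfl⟩ | ⟨hκ, rfl⟩
  · have hcz : ∀ r, Commute (ρ r) (zS X) := fun r => by
      obtain ⟨y, hy, e⟩ := h3 r
      rw [e]
      exact Commute.add_left (LinearMap.ext fun v => (zS_smul X r v).symm)
        ((Commute.refl _).mul_left hy)
    refine ind_adic Δ hb hσ hc hJ e (Syn ρ) (fun v hv => ?_) pr (fun r (v : X.C) => ?_)
      (fun v : X.C => ?_) (fun s => ⟨?_, ?_⟩) φ ψ hle fun (v : X.C) hv => ?_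
    · have := hker v hv
      exact Subtype.ext (funext fun k => by rw [← zS1_succ (X := X) hκ v k, this]; rfl)
    · obtain ⟨y, hy, e⟩ := h3 r
      change pr (ρ r v) = Δ.q r * pr v
      rw [e, LinearMap.add_apply, map_add, ρ₀_apply, pr_smul, Module.End.mul_apply,
        (pr_eq _).2 (zS1_zero hκ _), add_zero]
    · refine (pr_eq v).trans ?_
      constructor
      · intro h
        obtain ⟨v', hv'⟩ := (Fm_iff (X := X) hκ 1 v).1 fun i hi => by
          rwa [show i = 0 by omega]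
        obtain ⟨v'', h''⟩ := hran v'
        exact ⟨v'', h''.trans (by simpa using hv')⟩
      · rintro ⟨v', rfl⟩
        change (ρ Δ.a v').1 0 = 0
        rw [hA']
        exact zS1_zero hκ _
    · rintro ⟨v, rfl⟩
      exact pr_mem v
    · rintro ⟨t, rfl⟩
      obtain ⟨x, hx⟩ := pr_c0 t
      exact ⟨_, hx⟩
    · choose y hy using hv
      choose u hu using hy
      obtain ⟨u', hu'⟩ := konig (X := X) hκ u
      refine ⟨u', fun i => eq_zero_of_Fm (X := X) fun m => ?_⟩
      obtain ⟨k, hk, hk'⟩ := hu' m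
      have e1 : Fm (X := X) k (ρ (Δ.a ^ k) (y k)) := by
        rw [map_pow, hA', hy₀.symm.mul_pow]
        exact (Fm_iff hκ _ _).2 ⟨_, rfl⟩
      have e2 := ((e1.mono hk).map hκ (hcz (ψ.h i))).add
        (Fm.sum fun l => (hk' l).map hκ (hcz (ψ.H i l)))
      have e3 : ρ (ψ.h i) (v - ρ (Δ.a ^ k) (y k)) + ∑ l, ρ (ψ.H i l) (u k l) = 0 := hu k i
      change Fm (X := X) m (ρ (ψ.h i) v + ∑ l, ρ (ψ.H i l) (u' l))
      convert e2 using 1
      rw [← sub_eq_zero, ← e3]
      simp only [map_sub, Finset.sum_sub_distrib]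
      abel
  · have hzA : ∀ v, zS X v = 0 → ρ Δ.a v = 0 := fun v hv => by
      rw [hA', ← hy₀.eq, Module.End.mul_apply, hv, map_zero]
    refine ind_div Δ hb hσ hc hJ e (Syn ρ) (fun v => ?_) (fun v => ?_) pr
      (fun r (v : X.C) hv => ?_)
      (fun v hv hv' => ?_) (fun s => ⟨?_, ?_⟩) φ ψ hle
    · obtain ⟨v, rfl⟩ := surj2 (X := X) hκ v
      exact hran v
    · obtain ⟨m, hm⟩ := nil2 (X := X) hκ v
      refine ⟨m, ?_⟩
      change ρ (Δ.a ^ m) v = 0
      rw [map_pow, hA', ← hy₀.eq, hy₀.mul_pow, Module.End.mul_apply, hm, map_zero]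
    · obtain ⟨y, hy, e⟩ := h3 r
      change pr (ρ r v) = Δ.q r * pr v
      rw [e, ← hy.eq, LinearMap.add_apply, Module.End.mul_apply, hker v hv, map_zero, add_zero,
        ρ₀_apply, pr_smul]
    · refine Subtype.ext (funext fun k => ?_)
      cases k with
      | zero => exact (pr_eq v).1 hv'
      | succ k => rw [← zS2 (X := X) hκ v k, hker v hv]; rfl
    · rintro ⟨v, -, rfl⟩
      exact pr_mem v
    · rintro ⟨t, rfl⟩
      obtain ⟨x, hx⟩ := pr_c0 t
      refine ⟨c0 X x, hzA _ ?_, hx⟩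
      ext k
      rw [zS2 hκ, c0_succ]; rfl

theorem inf_cases {J : Set ℤ} (hJ : J.OrdConnected) (hinf : J.Infinite) (hu : J ≠ Set.univ) :
    ∃ n, J = Set.Iic n ∨ J = Set.Ici n := by
  by_cases ha : BddAbove J
  · obtain ⟨n, hn, hn'⟩ := Int.exists_greatest_of_bdd ha hinf.nonempty
    refine ⟨n, Or.inl (Set.Subset.antisymm hn' fun i hi => ?_)⟩
    obtain ⟨j, hj, hj'⟩ := not_bddBelow_iff.1 (fun hb => hinf (hb.finite_of_bddAbove ha)) i
    exact hJ.out hj hn ⟨hj'.le, hi⟩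
  by_cases hb : BddBelow J
  · obtain ⟨n, hn, hn'⟩ := Int.exists_least_of_bdd hb hinf.nonempty
    refine ⟨n, Or.inr (Set.Subset.antisymm hn' fun i hi => ?_)⟩
    obtain ⟨j, hj, hj'⟩ := not_bddAbove_iff.1 ha i
    exact hJ.out hn hj ⟨hi, hj'.le⟩
  refine absurd (Set.eq_univ_of_forall fun i => ?_) hu
  obtain ⟨j, hj, hj'⟩ := not_bddBelow_iff.1 hb i
  obtain ⟨l, hl, hl'⟩ := not_bddAbove_iff.1 ha i
  exact hJ.out hj hl ⟨hj'.le, hl'.le⟩

end Pool.Agent.Lib.MP_c13fce_lc.BandPar
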