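import Pool.Agent.Lib.MP_c13fce_lc.Interp

namespace Pool.Agent.Lib.MP_c13fce_lc

open Function RT

def Base (p : ℕ) [Fact p.Prime] (K : Type) [Group K] (b : Bool) (g h : K) : Prop :=
  ∀ (Ω : Type) (s s' : Ω → Option Ω), ∃ (N : Type) (_ : AddCommGroup N)
    (ρ : K →* AddMonoid.End N) (τ : N →+ (Ω → ZMod p)) (μ : (Ω → ZMod p) →+ N),
    Surjective τ ∧ Injective μ ∧ ∀ γ : K →* K, Injective γ → ∃ a b' c d : ZMod p,
      a * d - b' * c ≠ 0 ∧ (γ = MonoidHom.id K → b' = 0 ∧ c = 0 ∧ a = d) ∧ ∀ x,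
        ops b p (ρ (γ g)) (ρ (γ h)) .pi x = μ (τ x) ∧
        ops b p (ρ (γ g)) (ρ (γ h)) .xi x = μ (tw s s' a b' c d false (τ x)) ∧
        ops b p (ρ (γ g)) (ρ (γ h)) .eta x = μ (tw s s' a b' c d true (τ x)) ∧
        ops b p (ρ (γ g)) (ρ (γ h)) .f1 x = 0 ∧ ops b p (ρ (γ g)) (ρ (γ h)) .f2 x = 0

theorem exists_mu (p m : ℕ) (hm : m ≠ 0) (Ω : Type) :
    ∃ (τ : (Ω → ZMod (p * m)) →+ (Ω → ZMod p)) (μ : (Ω → ZMod p) →+ (Ω → ZMod (p * m))),
      Surjective τ ∧ Injective μ ∧ (∀ x, μ (τ x) = m • x) ∧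
      (∀ s x, τ (pull s x) = pull s (τ x)) ∧ ∀ s x, μ (pull s x) = pull s (μ x) := by
  let μ : ZMod p →+ ZMod (p * m) := ZMod.lift p ⟨zmultiplesHom _ (m : ZMod (p * m)), by
    simp only [zmultiplesHom_apply, natCast_zsmul, nsmul_eq_mul]
    rw [← Nat.cast_mul, ZMod.natCast_self]⟩
  let τ : ZMod (p * m) →+* ZMod p := ZMod.castHom (dvd_mul_right p m) (ZMod p)
  have hτ : Surjective τ := ZMod.castHom_surjective _
  have hμ : Injective μ := (ZMod.lift_injective p).2 fun k hk => by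
    simp only [zmultiplesHom_apply, zsmul_eq_mul] at hk
    rw [← Int.cast_natCast, ← Int.cast_mul, ZMod.intCast_zmod_eq_zero_iff_dvd] at hk
    rw [ZMod.intCast_zmod_eq_zero_iff_dvd]
    push_cast at hk
    exact (mul_dvd_mul_iff_right (by exact_mod_cast hm)).1 hk
  refine ⟨τ.toAddMonoidHom.compLeft Ω, μ.compLeft Ω, fun w => ?_, fun u v h => ?_, fun x => ?_,
    fun s x => ?_, fun s x => ?_⟩
  · choose t ht using hτ
    exact ⟨fun ω => t (w ω), funext fun ω => ht _⟩
  · exact funext fun ω => hμ (congrFun h ω)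
  · funext ω
    obtain ⟨k, hk⟩ := ZMod.intCast_surjective (x ω)
    change μ (τ (x ω)) = m • x ω
    rw [← hk, map_intCast, ZMod.lift_coe]
    simp [mul_comm]
  · funext ω
    change τ (pull s x ω) = pull s _ ω
    rw [pull_apply, pull_apply]
    cases s ω <;> simp
  · funext ω
    change μ (pull s x ω) = pull s _ ω
    rw [pull_apply, pull_apply]
    cases s ω <;> simp

theorem p_smul {p : ℕ} {Ω : Type} (w : Ω → ZMod p) : p • w = 0 := by
  funext ω; simp

theorem base_elem (p : ℕ) [Fact p.Prime] (K : Type) [Group K] (α β : K → ZMod p)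
    (hα : ∀ s t, α (s * t) = α s + α t) (hβ : ∀ s t, β (s * t) = β s + β t)
    (hi : ∀ t, α t = 0 → β t = 0 → t = 1) (g h : K) (g1 : α g = 1) (g2 : β g = 0)
    (h1 : α h = 0) (h2 : β h = 1) : Base p K false g h := by
  intro Ω s s'
  obtain ⟨τ, μ, hτ, hμ, e, -, -⟩ := exists_mu p p (Fact.out : p.Prime).ne_zero Ω
  have e0 : ∀ w, τ (μ w) = 0 := by
    intro w; obtain ⟨x, rfl⟩ := hτ w; rw [e, map_nsmul, p_smul]
  have α1 : α 1 = 0 := by simpa using hα 1 1
  have β1 : β 1 = 0 := by simpa using hβ 1 1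
  have αp : ∀ t (i : ℕ), α (t ^ i) = i * α t := by
    intro t i; induction i with
    | zero => simp [α1]
    | succ i ih => rw [pow_succ, hα, ih]; push_cast; ring
  have βp : ∀ t (i : ℕ), β (t ^ i) = i * β t := by
    intro t i; induction i with
    | zero => simp [β1]
    | succ i ih => rw [pow_succ, hβ, ih]; push_cast; ring
  let L : K → (Ω → ZMod p) →+ (Ω → ZMod p) := fun t => α t • pull s + β t • pull s'
  let ρ : K →* AddMonoid.End (Ω → ZMod (p * p)) :=
    { toFun := fun t => AddMonoidHom.id _ + μ.comp ((L t).comp τ)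
      map_one' := AddMonoidHom.ext fun x => by
        change x + μ (L 1 (τ x)) = x
        simp [L, α1, β1]
      map_mul' := fun s t => AddMonoidHom.ext fun x => by
        change x + μ (L (s * t) (τ x)) = x + μ (L t (τ x)) + μ (L s (τ (x + μ (L t (τ x)))))
        simp only [L, hα, hβ, map_add, e0, add_zero, add_smul, AddMonoidHom.add_apply]
        abel }
  have hρ : ∀ t x, ρ t x = x + μ (L t (τ x)) := fun _ _ => rfl
  refine ⟨_, inferInstance, ρ, τ, μ, hτ, hμ, fun γ hγ =>
    ⟨α (γ g), β (γ g), α (γ h), β (γ h), fun hd => ?_, ?_, fun x => ?_⟩⟩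
  · have key : ∀ i j : ZMod p, i * α (γ g) + j * α (γ h) = 0 → i * β (γ g) + j * β (γ h) = 0 →
        i = 0 ∧ j = 0 := by
      intro i j u v
      have : γ (g ^ i.val * h ^ j.val) = γ 1 := by
        rw [map_one]
        apply hi <;> simp [hα, hβ, αp, βp, u, v]
      have := hγ this
      have u1 := congrArg α this
      have u2 := congrArg β this
      simp only [hα, hβ, αp, βp, g1, g2, h1, h2, α1, β1] at u1 u2
      exact ⟨by simpa using u1, by simpa using u2⟩
    have k1 := key (β (γ h)) (-β (γ g)) (by linear_combination hd) (by ring)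
    have k2 := key (α (γ h)) (-α (γ g)) (by ring) (by linear_combination -hd)
    have := key 1 0 (by simpa using k2.2) (by simpa using k1.2)
    exact one_ne_zero this.1
  · rintro rfl; simp [g1, g2, h1, h2]
  · have : τ (p • x) = 0 := by rw [map_nsmul, p_smul]
    simp only [ops, cond_false, AddMonoid.End.coe_mul, comp_apply, AddMonoid.End.natCast_apply,
      end_sub, AddMonoid.End.coe_one, id, hρ, this, e, L, tw]
    simp

theorem one_add_pow' {S : Type} [Ring S] (y : S) (h : y * y * y = 0) (a : ℕ) :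
    (1 + y) ^ a = 1 + a • y + a.choose 2 • (y * y) := by
  induction a with
  | zero => simp
  | succ a ih =>
    rw [pow_succ, ih, Nat.choose_succ_succ' a 1, Nat.choose_one_right]
    simp only [add_mul, mul_add, one_mul, mul_one, smul_mul_assoc, h, smul_zero, add_smul, one_smul]
    abel

theorem base_cyc (p : ℕ) [hp : Fact p.Prime] (K : Type) [Group K] [Finite K] (g : K)
    (hg : ∀ x, x ∈ Subgroup.zpowers g) (ho : orderOf g = p ^ 2) : Base p K true g g := by
  intro Ω s s'
  have p0 := hp.out.ne_zero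
  obtain ⟨τ, μ, hτ, hμ, e, n1, n2⟩ := exists_mu p (p * p) (mul_ne_zero p0 p0) Ω
  have e0 : ∀ w, τ (μ w) = 0 := by
    intro w; obtain ⟨x, rfl⟩ := hτ w; rw [e, map_nsmul, mul_smul, p_smul]
  have e1 : ∀ w, p • μ w = 0 := fun w => by rw [← map_nsmul, p_smul, map_zero]
  let N := (Ω → ZMod (p * (p * p))) × (Ω → ZMod p)
  let τ' : N →+ (Ω → ZMod p) := τ.comp (AddMonoidHom.fst _ _)
  let μ' : (Ω → ZMod p) →+ N := (AddMonoidHom.inl _ _).comp μ
  let y : AddMonoid.End N := AddMonoidHom.prod (p • (pull s).comp (AddMonoidHom.fst _ _) +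
    μ.comp (AddMonoidHom.comp (pull s' - (pull s).comp (pull s)) (AddMonoidHom.snd _ _))) τ'
  have hy : ∀ x : N, y x = (p • pull s x.1 + μ (pull s' x.2 - pull s (pull s x.2)), τ x.1) :=
    fun _ => rfl
  have hτ' : ∀ x : N, τ' x = τ x.1 := fun _ => rfl
  have hμ' : ∀ w, μ' w = (μ w, 0) := fun _ => rfl
  have F1 : ∀ x, y (y x) = μ' (pull s' (τ' x)) := by
    intro x
    simp only [hy, hτ', hμ', map_add, map_nsmul, e0, p_smul, ← n2, smul_add, e1, ← mul_smul, ← e,
      n1, map_sub, smul_sub]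
    simp
  have F2 : ∀ x, p • y x = μ' (pull s (τ' x)) := by
    intro x
    rw [hy, hτ', hμ']
    refine Prod.ext ?_ (p_smul _)
    change p • (_ + _) = μ _
    rw [smul_add, e1, ← mul_smul, ← e, n1, add_zero]
  have F3 : ∀ w, y (μ' w) = 0 := by
    intro w
    simp only [hy, hμ', ← n2, e1, e0, map_zero, sub_zero, add_zero]; rfl
  have F4 : ∀ w, p • μ' w = 0 := fun w => by rw [← map_nsmul, p_smul, map_zero]
  have F5 : ∀ x : N, p • p • x = μ' (τ' x) := by
    intro x
    rw [hμ', hτ', e, mul_smul]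
    exact Prod.ext rfl (p_smul _)
  have y3 : y * y * y = 0 := AddMonoidHom.ext fun x => by
    change y (y (y x)) = 0
    rw [F1 x, F3]
  have hA : ∀ (a : ℕ) x, ((1 + y) ^ a) x = x + a • y x + a.choose 2 • y (y x) := by
    intro a x; rw [one_add_pow' y y3]; rfl
  have hA1 : (1 + y) ^ (p ^ 2) = 1 := AddMonoidHom.ext fun x => by
    have : p ∣ (p ^ 2).choose 2 := by
      rw [Nat.choose_two_right]
      rcases hp.out.eq_two_or_odd' with rfl | h
      · norm_num
      · rw [Nat.mul_div_assoc _ (h.pow.tsub_odd odd_one).two_dvd]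
        exact (dvd_pow_self p two_ne_zero).mul_right _
    obtain ⟨k, hk⟩ := this
    change ((1 + y) ^ (p ^ 2)) x = x
    rw [hA, hk, F1, mul_comm p k, mul_smul, F4, sq, mul_smul, F2, F4]; simp
  let u := Units.ofPowEqOne _ _ hA1 (pow_ne_zero 2 p0)
  have hu : orderOf u ∣ orderOf g := by
    rw [ho, orderOf_dvd_iff_pow_eq_one]; exact Units.pow_ofPowEqOne _ _
  let ρ : K →* AddMonoid.End N := (Units.coeHom _).comp (monoidHomOfForallMemZpowers hg hu)
  have hρ : ρ g = 1 + y := by simp [ρ, u]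
  refine ⟨N, inferInstance, ρ, τ', μ', fun w => ?_, fun u v h => hμ (congrArg Prod.fst h),
    fun γ hγ => ?_⟩
  · obtain ⟨x, hx⟩ := hτ w
    exact ⟨(x, 0), hx⟩
  · obtain ⟨a, ha⟩ : γ g ∈ Submonoid.powers g := mem_powers_iff_mem_zpowers.2 (hg _)
    simp only at ha
    have ha0 : (a : ZMod p) ≠ 0 := by
      rw [Ne, ZMod.natCast_eq_zero_iff]
      rintro ⟨k, rfl⟩
      have : γ (g ^ p) = γ 1 := by
        rw [map_one, map_pow, ← ha, ← pow_mul, ← orderOf_dvd_iff_pow_eq_one, ho]
        exact ⟨k, by ring⟩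
      have := orderOf_dvd_of_pow_eq_one (hγ this)
      rw [ho] at this
      have := Nat.le_of_dvd hp.out.pos this
      nlinarith [hp.out.two_le]
    refine ⟨a, 0, 0, a * a, by simp [ha0], ?_, fun x => ?_⟩
    · rintro rfl
      have : g ^ a = g ^ 1 := by simpa using ha
      rw [pow_eq_pow_iff_modEq, ho] at this
      have := (ZMod.natCast_eq_natCast_iff _ _ _).2 (this.of_dvd (dvd_pow_self p two_ne_zero))
      simp [this]
    · have hz : ∀ x, ρ (γ g) x - x = a • y x + a.choose 2 • y (y x) := by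
        intro x; rw [← ha, map_pow, hρ, hA]; abel
      have c1 : ∀ w, μ' ((a : ZMod p) • w) = a • μ' w := fun w => by
        rw [Nat.cast_smul_eq_nsmul, map_nsmul]
      simp only [ops, cond_true, AddMonoid.End.coe_mul, comp_apply, AddMonoid.End.natCast_apply,
        end_sub, AddMonoid.End.coe_one, id, hz, F5, F3, map_zero, smul_zero, add_zero, tw,
        AddMonoidHom.add_apply, AddMonoidHom.smul_apply, zero_smul, zero_add, mul_smul, c1,
        and_self, and_true, true_and]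
      constructor
      · rw [smul_add, smul_comm p a, F2, smul_comm p, F1, F4, smul_zero, add_zero]
      · simp only [map_add, map_nsmul, F1 x, F3, smul_zero, add_zero]

theorem coords (p : ℕ) [hp : Fact p.Prime] (A : Type) [AddCommGroup A] [Module (ZMod p) A]
    (hK : Nat.card A = p ^ 2) : ∃ (α β : A →+ ZMod p) (g h : A),
    (∀ t, ∃ i j : ℕ, t = i • g + j • h) ∧ (∀ t, α t = 0 → β t = 0 → t = 0) ∧
      α g = 1 ∧ β g = 0 ∧ α h = 0 ∧ β h = 1 := by
  have : Finite A := Nat.finite_of_card_ne_zero (hK ▸ pow_ne_zero 2 hp.out.ne_zero)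
  have hf : Module.finrank (ZMod p) A = 2 := by
    have := Module.natCard_eq_pow_finrank (K := ZMod p) (V := A)
    rw [Nat.card_zmod] at this
    exact Nat.pow_right_injective hp.out.two_le (this.symm.trans hK)
  let B := Module.finBasisOfFinrankEq (ZMod p) A hf
  refine ⟨(B.coord 0).toAddMonoidHom, (B.coord 1).toAddMonoidHom, B 0, B 1, fun t => ?_,
    fun t u v => ?_, by simp, by simp, by simp, by simp⟩
  · refine ⟨(B.repr t 0).val, (B.repr t 1).val, ?_⟩
    have := B.sum_repr t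
    rw [Fin.sum_univ_two] at this
    rw [← Nat.cast_smul_eq_nsmul (ZMod p), ← Nat.cast_smul_eq_nsmul (ZMod p)]
    simpa using this.symm
  · have := B.sum_repr t
    rw [Fin.sum_univ_two, show B.repr t 0 = 0 from u, show B.repr t 1 = 0 from v] at this
    simpa using this.symm

theorem base_noncyc (p : ℕ) [hp : Fact p.Prime] (K : Type) [CommGroup K]
    (hK : Nat.card K = p ^ 2) (he : Monoid.exponent K = p) :
    ∃ (g h : K), (∀ t, ∃ i j : ℕ, t = g ^ i * h ^ j) ∧ Base p K false g h := by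
  obtain ⟨α, β, g, h, h1, h2, h3, h4, h5, h6⟩ := @coords p _ (Additive K) _
    (AddCommGroup.zmodModule fun x => by
      rw [← he]; exact Monoid.pow_exponent_eq_one x.toMul) hK
  exact ⟨g.toMul, h.toMul, fun t => h1 (.ofMul t),
    base_elem p K (fun t => α (.ofMul t)) (fun t => β (.ofMul t))
      (by simp [ofMul_mul]) (by simp [ofMul_mul]) (fun t u v => h2 _ u v) _ _ h3 h4 h5 h6⟩

theorem base (p : ℕ) [hp : Fact p.Prime] (K : Type) [Group K] (hK : Nat.card K = p ^ 2) :
    ∃ (b : Bool) (g h : K), (∀ t, ∃ i j : ℕ, t = g ^ i * h ^ j) ∧ (b = true → h = g) ∧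
      Base p K b g h := by
  have p0 := hp.out.ne_zero
  have : Finite K := Nat.finite_of_card_ne_zero (hK ▸ pow_ne_zero 2 p0)
  by_cases hc : IsCyclic K
  · obtain ⟨g, hg⟩ := hc.exists_generator
    refine ⟨true, g, g, fun t => ?_, fun _ => rfl, base_cyc p K g hg ?_⟩
    · obtain ⟨a, ha⟩ : t ∈ Submonoid.powers g := mem_powers_iff_mem_zpowers.2 (hg _)
      exact ⟨a, 0, by simp [← ha]⟩
    · rw [orderOf_eq_card_of_forall_mem_zpowers hg, hK]
  · obtain ⟨g, h, h1, h2⟩ := @base_noncyc p _ K (IsPGroup.commGroupOfCardEqPrimeSq hK) hK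
      ((not_isCyclic_iff_exponent_eq_prime hp.out hK).1 hc)
    exact ⟨false, g, h, h1, by simp, h2⟩

end Pool.Agent.Lib.MP_c13fce_lc
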