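import Pool.Agent.Lib.MP_c13fce_lc.DualB

/-! Solutions in windows with a boundary term: maps, splitting, transplanting. -/

namespace Pool.Agent.Lib.MP_c13fce_lc
open scoped BigOperators
set_option linter.unusedSectionVars false
set_option linter.unusedVariables false

namespace Clo

variable {D Λ S : Type} [CommRing D] [IsDomain D] [Ring Λ] [Algebra D Λ] [Ring S] [Algebra D S]
  (Δ : SD D Λ S) (w : ℤ → Bool) (φ : PP Λ) (Γ : Set ℤ) (j : ℤ)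

/-- Left-hand sides of the system with the free variable in the lower part. -/
noncomputable def W (σ : Set ℤ) : Submodule D (φ.ι → St Δ.a Δ.b σ w) where
  carrier := {v | ∃ z ∈ stL Δ.a Δ.b σ w Γ, ∃ y : φ.κ → St Δ.a Δ.b σ w,
    ∀ t, v t = φ.h t • z + ∑ k, φ.H t k • y k}
  zero_mem' := ⟨0, zero_mem _, 0, by simp⟩
  add_mem' := by
    rintro v v' ⟨z, hz, y, h⟩ ⟨z', hz', y', h'⟩
    refine ⟨z + z', add_mem hz hz', y + y', fun t => ?_⟩
    simp only [Pi.add_apply, h, h', smul_add, Finset.sum_add_distrib]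
    abel
  smul_mem' := by
    rintro d v ⟨z, hz, y, h⟩
    refine ⟨d • z, ?_, d • y, fun t => ?_⟩
    · rw [← algebraMap_smul Λ]; exact Submodule.smul_mem _ _ hz
    · simp only [Pi.smul_apply, h, smul_add, Finset.smul_sum, smul_comm d]

/-- The vector of a solution with boundary term. -/
noncomputable def vec (σ : Set ℤ) (s : Λ) (n : ℤ) (c : φ.ι → Λ) : φ.ι → St Δ.a Δ.b σ w :=
  fun t => φ.h t • s • stE Δ.a Δ.b σ w j - c t • stE Δ.a Δ.b σ w n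

/-- A solution in the window `σ` with leading coefficient `s` and flux `c` at `n`. -/
def Part (σ : Set ℤ) (s : Λ) (n : ℤ) (c : φ.ι → Λ) : Prop :=
  vec Δ w φ j σ s n c ∈ W Δ w φ Γ σ

variable {Δ w φ Γ j} {σ σ' : Set ℤ} {s s' : Λ} {n n' : ℤ} {c c' : φ.ι → Λ}

theorem Part.map (h : Part Δ w φ Γ j σ s n c) (f : St Δ.a Δ.b σ w →ₗ[Λ] St Δ.a Δ.b σ' w)
    (hΓ : ∀ i ∈ Γ, i ∈ σ → f (stE Δ.a Δ.b σ w i) ∈ stL Δ.a Δ.b σ' w Γ)
    (hj : s • f (stE Δ.a Δ.b σ w j) - s' • stE Δ.a Δ.b σ' w j ∈ stL Δ.a Δ.b σ' w Γ)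
    (hn : ∀ t, c t • f (stE Δ.a Δ.b σ w n) = c' t • stE Δ.a Δ.b σ' w n') :
    Part Δ w φ Γ j σ' s' n' c' := by
  obtain ⟨z, hz, y, h⟩ := h
  refine ⟨_, sub_mem (map_stL_le f hΓ hz) hj, fun k => f (y k), fun t => ?_⟩
  have := congrArg f (h t)
  simp only [vec, map_sub, map_smul, map_add, map_sum, hn] at this
  simp only [vec, smul_sub]
  rw [sub_eq_iff_eq_add] at this
  rw [this]
  abel

theorem Part.incl (h : Part Δ w φ Γ j σ s n c) (hσ : σ ⊆ σ') (hD : Dn σ' w σ)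
    (hn : n ∈ σ ∨ c = 0) (hj : j ∈ σ ∨ s = 0) : Part Δ w φ Γ j σ' s n c := by
  obtain ⟨i, hi⟩ := exists_incl (a := Δ.a) (b := Δ.b) hσ hD
  refine h.map i (fun k hk hk' => by rw [hi k hk']; exact stE_mem_stL hk) ?_ fun t => ?_
  · rcases hj with hj | rfl
    · rw [hi j hj, sub_self]; exact zero_mem _
    · simp
  · rcases hn with hn | rfl
    · rw [hi n hn]
    · simp

theorem Part.add (h : Part Δ w φ Γ j σ s n c) (h' : Part Δ w φ Γ j σ s' n c') :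
    Part Δ w φ Γ j σ (s + s') n (c + c') := by
  have := add_mem h h'
  unfold Part
  convert this using 1
  funext t
  simp only [vec, Pi.add_apply, add_smul, smul_add]
  abel

theorem Part.neg (h : Part Δ w φ Γ j σ s n c) : Part Δ w φ Γ j σ (-s) n (-c) := by
  have := neg_mem h
  unfold Part
  convert this using 1
  funext t
  simp only [vec, Pi.neg_apply, neg_smul, smul_neg]
  abel

theorem Part.zero (h : Part Δ w φ Γ j σ s n 0) (n' : ℤ) : Part Δ w φ Γ j σ s n' 0 := by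
  unfold Part at h ⊢
  convert h using 1
  funext t
  simp [vec]

theorem Part.deep (h : Part Δ w φ Γ j σ s n c) (hn : Deep σ w n)
    (hc : ∀ t, Δ.q (c t) = Δ.q (c' t)) : Part Δ w φ Γ j σ s n c' := by
  unfold Part at h ⊢
  convert h using 1
  funext t
  have := Δ.rad_smul_deep hn (r := c t - c' t) (by rw [map_sub, hc, sub_self])
  rw [sub_smul, sub_eq_zero] at this
  simp only [vec, this]

theorem Part.split {s₁ s₂ : Λ} (h : Part Δ w φ Γ j σ (s₁ + s₂) 0 0) (hn : Deep σ w n)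
    (h₁ : j ≤ n ∨ s₁ = 0) (h₂ : n ≤ j ∨ s₂ = 0) :
    ∃ c, Part Δ w φ Γ j (σ ∩ Set.Iic n) s₁ n c ∧ Part Δ w φ Γ j (σ ∩ Set.Ici n) s₂ n (-c) := by
  obtain ⟨i₁, i₂, e₁, e₂, hk⟩ := split_deep (a := Δ.a) (b := Δ.b) hn
  have key : ∀ Γ' : Set ℤ, ∀ z ∈ stL Δ.a Δ.b σ w Γ', ∃ z₁ ∈ stL Δ.a Δ.b _ w Γ',
      ∃ z₂ ∈ stL Δ.a Δ.b _ w Γ', i₁ z₁ + i₂ z₂ = z := fun Γ' z hz => by
    have : stL Δ.a Δ.b σ w Γ' ≤ (stL Δ.a Δ.b _ w Γ').map i₁ ⊔ (stL Δ.a Δ.b _ w Γ').map i₂ :=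
      stL_le fun i hi _ => by
        rcases le_total i n with c | c
        · exact Submodule.mem_sup_left ⟨_, stE_mem_stL hi, e₁ i c⟩
        · exact Submodule.mem_sup_right ⟨_, stE_mem_stL hi, e₂ i c⟩
    obtain ⟨_, ⟨z₁, h1, rfl⟩, _, ⟨z₂, h2, rfl⟩, e⟩ := Submodule.mem_sup.1 (this hz)
    exact ⟨z₁, h1, z₂, h2, e⟩
  obtain ⟨z, hz, y, h⟩ := h
  obtain ⟨z₁, hz₁, z₂, hz₂, rfl⟩ := key Γ z hz
  choose y₁ _ y₂ _ hy using fun k => key σ (y k) (by rw [stL_top]; trivial)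
  have a₁ : i₁ (s₁ • stE Δ.a Δ.b _ w j) = s₁ • stE Δ.a Δ.b σ w j := by
    rcases h₁ with c | rfl
    · rw [map_smul, e₁ j c]
    · simp
  have a₂ : i₂ (s₂ • stE Δ.a Δ.b _ w j) = s₂ • stE Δ.a Δ.b σ w j := by
    rcases h₂ with c | rfl
    · rw [map_smul, e₂ j c]
    · simp
  have := fun t => hk (φ.h t • s₁ • stE Δ.a Δ.b _ w j - (φ.h t • z₁ + ∑ k, φ.H t k • y₁ k))
    (φ.h t • s₂ • stE Δ.a Δ.b _ w j - (φ.h t • z₂ + ∑ k, φ.H t k • y₂ k)) (by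
      have e := h t
      simp only [vec, Pi.zero_apply, zero_smul, sub_zero, ← hy, smul_add, add_smul,
        Finset.sum_add_distrib] at e
      rw [map_sub, map_sub, map_smul i₁ (φ.h t), map_smul i₂ (φ.h t), a₁, a₂]
      simp only [map_add, map_smul, map_sum]
      rw [← sub_eq_zero] at e
      rw [← e]
      abel)
  choose c h1 h2 using this
  refine ⟨c, ⟨z₁, hz₁, y₁, fun t => ?_⟩, ⟨z₂, hz₂, y₂, fun t => ?_⟩⟩
  · rw [vec, ← h1 t]; abel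
  · rw [vec, Pi.neg_apply, neg_smul, ← h2 t]; abel

variable {J : Set ℤ}

theorem Part.graph (h : Part Δ w φ (low J w j) j σ s n c) {ρ : Set ℤ} {δ : ℤ}
    (hG : GraphOK σ w σ' w ρ δ) (hσ' : σ' ⊆ J) (hn : n ∈ ρ)
    (hlt : ∀ i ∈ ρ, pnt J w (i + δ) < pnt J w i) :
    Part Δ w φ (low J w j) j σ' 0 (n + δ) c := by
  obtain ⟨g, hg⟩ := exists_graph (a := Δ.a) (b := Δ.b) hG
  refine h.map g (fun i hi _ => ?_) ?_ fun t => by rw [hg, if_pos hn]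
  · rw [hg]
    split_ifs with e
    · exact stE_mem_stL ⟨hσ' (hG.2.1 i e).1, (hlt i e).trans hi.2⟩
    · exact zero_mem _
  · rw [zero_smul, sub_zero, hg]
    split_ifs with e
    · exact Submodule.smul_mem _ _ (stE_mem_stL ⟨hσ' (hG.2.1 j e).1, hlt j e⟩)
    · rw [smul_zero]; exact zero_mem _

theorem ne_one_of_lt {u u' : Wd} (hu : u.Nrm) (hu' : u'.Nrm) {k : ℕ} (hk : ∀ i < k, u i = u' i)
    (hlt : u k < u' k) {i : ℕ} (hi : i < k) : u i ≠ 1 ∧ u' i ≠ 1 := by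
  have : u i ≠ 1 := fun e => by
    rw [hu.one_of_le e hi.le, hu'.one_of_le (hk i hi ▸ e) hi.le] at hlt
    exact lt_irrefl _ hlt
  exact ⟨this, hk i hi ▸ this⟩

theorem Icc_right {n : ℤ} {k : ℕ} (hn : n ∈ J) (h : ∀ i < k, rwd J w n i ≠ 1) :
    Set.Icc n (n + k) ⊆ J := by
  rintro m ⟨h1, h2⟩
  rcases h1.lt_or_eq with e | rfl
  · have := h (m - n - 1).toNat (by omega)
    rw [Ne, rwd_eq_one, not_not] at this
    rwa [show n + ((m - n - 1).toNat : ℤ) + 1 = m by omega] at this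
  · exact hn

theorem Icc_left {n : ℤ} {k : ℕ} (hn : n ∈ J) (h : ∀ i < k, lwd J w n i ≠ 1) :
    Set.Icc (n - k) n ⊆ J := by
  rintro m ⟨h1, h2⟩
  rcases h2.lt_or_eq with e | rfl
  · have := h (n - m - 1).toNat (by omega)
    rw [Ne, lwd_eq_one, not_not] at this
    rwa [show n - ((n - m - 1).toNat : ℤ) - 1 = m by omega] at this
  · exact hn

theorem transplant (hJ : J.OrdConnected) {n₁ n₃ : ℤ} (h₁ : Deep J w n₁) (h₃ : Deep J w n₃)
    (hlt : pnt J w n₃ < pnt J w n₁) : ∃ F : Set ℤ, F.Finite ∧ F ⊆ J ∧ ∀ σ σ' : Set ℤ,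
      F ⊆ σ → σ ⊆ J → F ⊆ σ' → σ' ⊆ J → ∀ (s₁ s₂ : Λ) (c : φ.ι → Λ),
        Part Δ w φ (low J w j) j (σ ∩ Set.Iic n₁) s₁ n₁ c →
        Part Δ w φ (low J w j) j (σ ∩ Set.Ici n₁) s₂ n₁ (-c) →
        Part Δ w φ (low J w j) j σ' 0 n₃ c := by
  rcases pnt_lt_iff.1 hlt with h | ⟨hr, h⟩
  · obtain ⟨k, hk, hk'⟩ := Wd.lt_iff.1 h
    have := fun i (hi : i < k) => ne_one_of_lt (rwd_nrm hJ w h₃.1) (rwd_nrm hJ w h₁.1) hk hk' hi
    refine ⟨Set.Icc n₁ (n₁ + k) ∪ Set.Icc n₃ (n₃ + k),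
      (Set.finite_Icc _ _).union (Set.finite_Icc _ _), Set.union_subset
        (Icc_right h₁.1 fun i hi => (this i hi).2) (Icc_right h₃.1 fun i hi => (this i hi).1),
      fun σ σ' a1 a2 a3 a4 s₁ s₂ c _ p => ?_⟩
    obtain ⟨hG, hp⟩ := graphOK_right (σ := σ ∩ Set.Ici n₁) (σ' := σ') hJ h₁ h₃ hk hk'
      (fun i hi => ⟨a1 (Or.inl hi), hi.1⟩) (Set.inter_subset_inter_left _ a2)
      (fun i hi => a3 (Or.inr hi)) a4
    have := (p.graph hG a4 ⟨le_rfl, by omega⟩ fun i hi => pnt_lt_iff.2 (Or.inl (hp i hi))).neg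
    rwa [neg_neg, neg_zero, add_sub_cancel] at this
  · obtain ⟨k, hk, hk'⟩ := Wd.lt_iff.1 h
    have := fun i (hi : i < k) => ne_one_of_lt (lwd_nrm hJ w h₃.1) (lwd_nrm hJ w h₁.1) hk hk' hi
    refine ⟨Set.Icc (n₁ - k) n₁ ∪ Set.Icc (n₃ - k) n₃,
      (Set.finite_Icc _ _).union (Set.finite_Icc _ _), Set.union_subset
        (Icc_left h₁.1 fun i hi => (this i hi).2) (Icc_left h₃.1 fun i hi => (this i hi).1),
      fun σ σ' a1 a2 a3 a4 s₁ s₂ c p _ => ?_⟩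
    obtain ⟨hG, hp⟩ := graphOK_left (σ := σ ∩ Set.Iic n₁) (σ' := σ') hJ h₁ h₃ hk hk'
      (fun i hi => ⟨a1 (Or.inl hi), hi.2⟩) (Set.inter_subset_inter_left _ a2)
      (fun i hi => a3 (Or.inr hi)) a4 hr
    have := p.graph hG a4 ⟨by omega, le_rfl⟩ hp
    rwa [add_sub_cancel] at this

theorem cycle [Finite S] (hJ : Δ.IsStr J w) {X : Set ℤ} (hX : X.Infinite)
    (hD : ∀ n ∈ X, Deep J w n) {s₁ s₂ : Λ} (h₁ : ∀ n ∈ X, j ≤ n ∨ s₁ = 0)
    (h₂ : ∀ n ∈ X, n ≤ j ∨ s₂ = 0) : ∃ F : Set ℤ, F.Finite ∧ F ⊆ J ∧ ∀ σ σ' : Set ℤ,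
      F ⊆ σ → σ ⊆ J → F ⊆ σ' → σ' ⊆ J → Part Δ w φ (low J w j) j σ (s₁ + s₂) 0 0 →
        ∃ n ∈ X, n ∈ F ∧ ∃ c, Part Δ w φ (low J w j) j (σ ∩ Set.Iic n) s₁ n c ∧
          Part Δ w φ (low J w j) j (σ ∩ Set.Ici n) s₂ n (-c) ∧
          Part Δ w φ (low J w j) j σ' 0 n c := by
  classical
  have := Fintype.ofFinite S
  obtain ⟨T, hT, hc⟩ := hX.exists_subset_card_eq (Fintype.card (φ.ι → S) + 1)
  have tr := fun (p : T × T) (h : pnt J w p.2 < pnt J w p.1) =>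
    transplant (Δ := Δ) (φ := φ) (j := j) hJ.oc (hD _ (hT p.1.2)) (hD _ (hT p.2.2)) h
  choose! F f1 f2 f3 using tr
  let F' : T × T → Set ℤ := fun p => if pnt J w p.2 < pnt J w p.1 then F p else ∅
  refine ⟨T ∪ ⋃ p, F' p, T.finite_toSet.union (Set.finite_iUnion fun p => ?_),
    Set.union_subset (fun n hn => (hD n (hT hn)).1) (Set.iUnion_subset fun p => ?_),
    fun σ σ' a1 a2 a3 a4 h => ?_⟩
  · simp only [F']
    split_ifs with e
    exacts [f1 p e, Set.finite_empty]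
  · simp only [F']
    split_ifs with e
    exacts [f2 p e, Set.empty_subset _]
  choose c hc1 hc2 using fun n : T => h.split ((hD n (hT n.2)).mono a2 (a1 (Or.inl n.2)))
    (h₁ n (hT n.2)) (h₂ n (hT n.2))
  have key : ∀ n n' : T, pnt J w n' < pnt J w n → (∀ t, Δ.q (c n t) = Δ.q (c n' t)) →
      Part Δ w φ (low J w j) j σ' 0 n' (c n') := fun n n' e he => by
    have sub : F (n, n') ⊆ T ∪ ⋃ p, F' p := fun i hi =>
      Or.inr (Set.mem_iUnion.2 ⟨(n, n'), by simp only [F']; rw [if_pos e]; exact hi⟩)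
    exact (f3 (n, n') e σ σ' (sub.trans a1) a2 (sub.trans a3) a4 s₁ s₂ _ (hc1 n) (hc2 n)).deep
      ((hD n' (hT n'.2)).mono a4 (a3 (Or.inl n'.2))) he
  obtain ⟨n, n', hne, he⟩ := Fintype.exists_ne_map_eq_of_card_lt (fun (n : T) t => Δ.q (c n t))
    (by rw [Fintype.card_coe, hc]; omega)
  have hp : pnt J w n ≠ pnt J w n' := fun e => hne (Subtype.ext
    (pnt_injOn hJ.oc hJ.np (hD n (hT n.2)).1 (hD n' (hT n'.2)).1 e))
  rcases hp.lt_or_gt with e | e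
  · exact ⟨n, hT n.2, Or.inl n.2, c n, hc1 n, hc2 n, key n' n e fun t => (congrFun he t).symm⟩
  · exact ⟨n', hT n'.2, Or.inl n'.2, c n', hc1 n', hc2 n', key n n' e fun t => congrFun he t⟩

end Clo

end Pool.Agent.Lib.MP_c13fce_lc
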