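import Pool.Agent.Lib.MP_c13fce_lc.Close1

/-! Cutting windows at the right and at the left. -/

namespace Pool.Agent.Lib.MP_c13fce_lc
open scoped BigOperators
set_option linter.unusedSectionVars false
set_option linter.unusedVariables false

namespace Clo

/-- The word ends on the right, or is eventually made of letters B. -/
def EndR (J : Set ℤ) (w : ℤ → Bool) : Prop := ∃ p, ∀ n, p ≤ n → n + 1 ∈ J → w n = false

/-- The word ends on the left, or is eventually made of letters A. -/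
def EndL (J : Set ℤ) (w : ℤ → Bool) : Prop := ∃ p, ∀ n, n < p → n ∈ J → w n = true

variable {D Λ S : Type} [CommRing D] [IsDomain D] [Ring Λ] [Algebra D Λ] [Ring S] [Algebra D S]
  {Δ : SD D Λ S} {w : ℤ → Bool} {φ : PP Λ} {j : ℤ} {J : Set ℤ}

theorem dn_Iic {n : ℤ} (hn : w n = true) : Dn J w (J ∩ Set.Iic n) := by
  intro i hi _
  have h2 : i ≤ n := hi.2
  refine ⟨fun _ h => ⟨h, by simp; omega⟩, fun h h' => ⟨h', ?_⟩⟩
  rcases h2.lt_or_eq with e | rfl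
  · exact e
  · rw [hn] at h; cases h

theorem dn_Ici {n : ℤ} (hn : w (n - 1) = false) : Dn J w (J ∩ Set.Ici n) := by
  intro i hi _
  have h2 : n ≤ i := hi.2
  refine ⟨fun h h' => ⟨h', ?_⟩, fun _ h => ⟨h, by simp; omega⟩⟩
  rcases h2.lt_or_eq with e | rfl
  · simp; omega
  · rw [hn] at h; cases h

theorem exists_deep {n₁ n₂ : ℤ} (h : n₁ ≤ n₂) (h₁ : w n₁ = false) (h₂ : w n₂ = true) :
    ∃ n, n₁ < n ∧ n ≤ n₂ ∧ w (n - 1) = false ∧ w n = true := by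
  have h' : n₁ < n₂ := lt_of_le_of_ne h fun e => by rw [e, h₂] at h₁; cases h₁
  obtain ⟨n, ⟨a1, a2⟩, a3⟩ := Int.exists_least_of_bdd (P := fun n => n₁ < n ∧ w n = true)
    ⟨n₁, fun z hz => hz.1.le⟩ ⟨n₂, h', h₂⟩
  refine ⟨n, a1, a3 n₂ ⟨h', h₂⟩, ?_, a2⟩
  by_cases c : n - 1 = n₁
  · rw [c, h₁]
  · by_contra e
    have := a3 (n - 1) ⟨by omega, by simpa using e⟩
    omega

theorem stab {α : Type} [Finite α] (G : ℤ → Set α) (P : ℤ → Prop) (hP : ∃ n, P n) :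
    ∃ n₁, P n₁ ∧ ∀ n, P n → G n₁ ⊆ G n → G n ⊆ G n₁ := by
  obtain ⟨_, ⟨n₁, h1, rfl⟩, h2⟩ := (wellFounded_gt (α := Set α)).has_min (G '' {n | P n})
    (Set.Nonempty.image _ hP)
  exact ⟨n₁, h1, fun n hn h => (eq_of_le_of_not_lt h (h2 _ ⟨n, hn, rfl⟩)).ge⟩

theorem Part.fin {Γ σ : Set ℤ} {s s' : Λ} {n : ℤ} {c : φ.ι → Λ} (h : Part Δ w φ Γ j σ s n c)
    (hs : s = s') (hc : c = 0) : Part Δ w φ Γ j σ s' 0 0 := by
  subst hs hc
  exact h.zero 0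

theorem lemR [Finite S] (hJ : Δ.IsStr J w) (hj : j ∈ J) (r : Λ) (m : ℤ) :
    ∃ τ F : Set ℤ, τ.OrdConnected ∧ Set.Iic m ⊆ τ ∧ F.Finite ∧ F ⊆ J ∧ Dn J w (J ∩ τ) ∧
      EndR (J ∩ τ) w ∧ ∀ σ : Set ℤ, σ.Finite → σ.OrdConnected → F ⊆ σ → σ ⊆ J →
        Part Δ w φ (low J w j) j σ r 0 0 → Part Δ w φ (low J w j) j (σ ∩ τ) r 0 0 := by
  by_cases h0 : EndR J w
  · exact ⟨Set.univ, ∅, Set.ordConnected_univ, Set.subset_univ _, Set.finite_empty,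
      Set.empty_subset _, by rw [Set.inter_univ]; exact dn_self, by rwa [Set.inter_univ],
      fun σ _ _ _ _ h => by rwa [Set.inter_univ]⟩
  have h1 : ∀ p, ∃ n, p ≤ n ∧ n + 1 ∈ J ∧ w n = true := by simpa [EndR] using h0
  have hE : ∀ n, EndR (J ∩ Set.Iic n) w := fun n =>
    ⟨n, fun i hi hi' => by have : i + 1 ≤ n := hi'.2; omega⟩
  by_cases h2 : ∀ p, ∃ n, p ≤ n ∧ w n = false
  · have hX : {n | Deep J w n ∧ j ≤ n}.Infinite := Set.infinite_of_forall_exists_gt fun k => by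
      obtain ⟨n₁, a1, a2⟩ := h2 (max k j)
      obtain ⟨n₂, a3, a4, a5⟩ := h1 n₁
      obtain ⟨n, b1, b2, b3, b4⟩ := exists_deep a3 a2 a5
      have := le_max_left k j
      have := le_max_right k j
      exact ⟨n, ⟨⟨hJ.oc.out hj a4 ⟨by omega, by omega⟩, Or.inl b3, Or.inl b4⟩, by omega⟩, by omega⟩
    obtain ⟨F, f1, f2, f3⟩ := cycle (φ := φ) (j := j) hJ hX (fun n hn => hn.1) (s₁ := r) (s₂ := 0)
      (fun n hn => Or.inl hn.2) (fun n hn => Or.inr rfl)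
    obtain ⟨M, hM⟩ := f1.bddAbove
    obtain ⟨n₀, a1, a2, a3⟩ := h1 (max M m)
    have := le_max_left M m
    have := le_max_right M m
    refine ⟨Set.Iic n₀, insert j F, Set.ordConnected_Iic, Set.Iic_subset_Iic.2 (by omega),
      f1.insert j, Set.insert_subset hj f2, dn_Iic a3, hE n₀, fun σ _ _ s1 s2 h => ?_⟩
    have s3 : F ⊆ σ := (Set.subset_insert _ _).trans s1
    obtain ⟨n, hn, hF, c, p1, -, p3⟩ := f3 σ (σ ∩ Set.Iic n₀) s3 s2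
      (fun i hi => ⟨s3 hi, by have := hM hi; simp; omega⟩) (Set.inter_subset_left.trans s2)
      (by rwa [add_zero])
    have := hM hF
    exact ((p1.incl (Set.inter_subset_inter_right _ (Set.Iic_subset_Iic.2 (by omega)))
      ((hn.1.mono s2 (s3 hF)).dn_Iic.mono Set.inter_subset_left) (Or.inl ⟨s3 hF, le_refl n⟩)
      (Or.inl ⟨s1 (Set.mem_insert _ _), hn.2⟩)).add p3.neg).fin (by simp) (by simp)
  obtain ⟨p, hp⟩ : ∃ p, ∀ n, p ≤ n → w n = true := by simpa using h2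
  have up : ∀ i ∈ J, ∀ n, i ≤ n → n ∈ J := fun i hi n hn => by
    obtain ⟨n', a1, a2, -⟩ := h1 n
    exact hJ.oc.out hi a2 ⟨hn, by omega⟩
  obtain ⟨d, ⟨d1, d2⟩, d3⟩ := Int.exists_least_of_bdd
    (P := fun d => d ∈ J ∧ ∀ n, d ≤ n → w n = true) (by
      by_contra e
      have e' : ∀ b, ∃ d, (d ∈ J ∧ ∀ n, d ≤ n → w n = true) ∧ d < b := by
        simpa [and_assoc] using e
      refine hJ.np ⟨Set.eq_univ_of_forall fun n => ?_, 1, one_pos, fun n => ?_⟩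
      · obtain ⟨d, a1, a2⟩ := e' n
        exact up d a1.1 n a2.le
      · obtain ⟨d, a1, a2⟩ := e' n
        rw [a1.2 n a2.le, a1.2 _ (by omega)])
    (by
      obtain ⟨n, a1, a2, -⟩ := h1 p
      exact ⟨n + 1, a2, fun i hi => hp i (by omega)⟩)
  have hd : Deep J w d := ⟨d1, by
    by_contra e
    simp only [not_or, not_not, Bool.not_eq_false] at e
    have := d3 (d - 1) ⟨e.2, fun n hn => by
      rcases hn.lt_or_eq with c | rfl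
      exacts [d2 n (by omega), e.1]⟩
    omega, Or.inl (d2 d le_rfl)⟩
  obtain ⟨s₁, s₂, e, e₁, e₂⟩ : ∃ s₁ s₂ : Λ, s₁ + s₂ = r ∧ (j ≤ d ∨ s₁ = 0) ∧ (d ≤ j ∨ s₂ = 0) := by
    rcases le_total j d with c | c
    exacts [⟨r, 0, add_zero r, Or.inl c, Or.inr rfl⟩, ⟨0, r, zero_add r, Or.inr rfl, Or.inl c⟩]
  have inc : ∀ (σ : Set ℤ) (n : ℤ) (c : φ.ι → Λ), σ.OrdConnected → d ∈ σ → (d ≤ j → j ∈ σ) →
      σ ⊆ Set.Icc d n → Part Δ w φ (low J w j) j σ s₂ d c →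
      Part Δ w φ (low J w j) j (Set.Icc d n) s₂ d c := fun σ n c a1 a2 a3 a4 h =>
    h.incl a4 (fun i hi hi' => ⟨fun _ h' => a1.out a2 hi ⟨h'.1, by omega⟩,
      fun h' => by rw [d2 i hi'.1] at h'; cases h'⟩) (Or.inl a2) (e₂.imp_left a3)
  obtain ⟨n₀, ⟨a1, a2, a3⟩, a4⟩ := stab (fun n => {x : φ.ι → S | ∃ c, (∀ t, Δ.q (c t) = x t) ∧
    Part Δ w φ (low J w j) j (Set.Icc d n) s₂ d c}) (fun n => d ≤ n ∧ j ≤ n ∧ m ≤ n)
    ⟨max d (max j m), by simp⟩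
  refine ⟨Set.Iic n₀, {d, j, n₀}, Set.ordConnected_Iic, Set.Iic_subset_Iic.2 a3,
    Set.toFinite _, by simp [Set.insert_subset_iff, d1, hj, up d d1 n₀ a1], dn_Iic (d2 _ a1),
    hE n₀, fun σ s0 s1 s2 s3 h => ?_⟩
  have b1 : d ∈ σ := s2 (by simp)
  have b2 : j ∈ σ := s2 (by simp)
  have b3 : n₀ ∈ σ := s2 (by simp)
  have hd' := hd.mono s3 b1
  obtain ⟨c, p1, p2⟩ := (e ▸ h).split hd' e₁ e₂
  obtain ⟨N, hN⟩ := s0.bddAbove
  have := hN b3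
  obtain ⟨c', q1, q2⟩ := a4 N ⟨by omega, by omega, by omega⟩
    (fun x ⟨c, a, b⟩ => ⟨c, a, inc _ N c Set.ordConnected_Icc ⟨le_rfl, a1⟩ (fun h => ⟨h, a2⟩)
      (Set.Icc_subset_Icc_right this) b⟩)
    ⟨-c, fun t => rfl, inc _ N _ (s1.inter Set.ordConnected_Ici) ⟨b1, le_refl d⟩ (fun h => ⟨b2, h⟩)
      (fun i hi => ⟨hi.2, hN hi.1⟩) p2⟩
  have q3 := q2.deep (hd.mono (fun i hi => up d d1 i hi.1) ⟨le_rfl, a1⟩) q1
  have e' : Set.Icc d n₀ = σ ∩ Set.Iic n₀ ∩ Set.Ici d := Set.ext fun i =>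
    ⟨fun hi => ⟨⟨s1.out b1 b3 hi, hi.2⟩, hi.1⟩, fun hi => ⟨hi.2, hi.1.2⟩⟩
  rw [e'] at q3
  exact ((p1.incl (Set.inter_subset_inter_right _ (Set.Iic_subset_Iic.2 a1))
    (hd'.dn_Iic.mono Set.inter_subset_left) (Or.inl ⟨b1, le_refl d⟩)
    (e₁.imp_left fun h => ⟨b2, h⟩)).add (q3.incl Set.inter_subset_left
      (hd'.mono Set.inter_subset_left ⟨b1, a1⟩).dn_Ici (Or.inl ⟨⟨b1, a1⟩, le_refl d⟩)
      (e₂.imp_left fun h => ⟨⟨b2, a2⟩, h⟩))).fin e (by simp)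

theorem lemL [Finite S] (hJ : Δ.IsStr J w) (hj : j ∈ J) (r : Λ) (m : ℤ) :
    ∃ τ F : Set ℤ, τ.OrdConnected ∧ Set.Ici m ⊆ τ ∧ F.Finite ∧ F ⊆ J ∧ Dn J w (J ∩ τ) ∧
      EndL (J ∩ τ) w ∧ ∀ σ : Set ℤ, σ.Finite → σ.OrdConnected → F ⊆ σ → σ ⊆ J →
        Part Δ w φ (low J w j) j σ r 0 0 → Part Δ w φ (low J w j) j (σ ∩ τ) r 0 0 := by
  by_cases h0 : EndL J w
  · exact ⟨Set.univ, ∅, Set.ordConnected_univ, Set.subset_univ _, Set.finite_empty,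
      Set.empty_subset _, by rw [Set.inter_univ]; exact dn_self, by rwa [Set.inter_univ],
      fun σ _ _ _ _ h => by rwa [Set.inter_univ]⟩
  have h1 : ∀ p, ∃ n, n < p ∧ n ∈ J ∧ w n = false := by simpa [EndL] using h0
  have hE : ∀ n, EndL (J ∩ Set.Ici n) w := fun n =>
    ⟨n, fun i hi hi' => by have : n ≤ i := hi'.2; omega⟩
  by_cases h2 : ∀ p, ∃ n, n < p ∧ w n = true
  · have hX : {n | Deep J w n ∧ n ≤ j}.Infinite := Set.infinite_of_forall_exists_lt fun k => by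
      obtain ⟨n₂, a1, a2⟩ := h2 (min k j)
      obtain ⟨n₁, a3, a4, a5⟩ := h1 n₂
      obtain ⟨n, b1, b2, b3, b4⟩ := exists_deep a3.le a5 a2
      have := min_le_left k j
      have := min_le_right k j
      exact ⟨n, ⟨⟨hJ.oc.out a4 hj ⟨by omega, by omega⟩, Or.inl b3, Or.inl b4⟩, by omega⟩, by omega⟩
    obtain ⟨F, f1, f2, f3⟩ := cycle (φ := φ) (j := j) hJ hX (fun n hn => hn.1) (s₁ := 0) (s₂ := r)
      (fun n hn => Or.inr rfl) (fun n hn => Or.inl hn.2)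
    obtain ⟨M, hM⟩ := f1.bddBelow
    obtain ⟨n₀, a1, a2, a3⟩ := h1 (min M m)
    have := min_le_left M m
    have := min_le_right M m
    refine ⟨Set.Ici (n₀ + 1), insert j F, Set.ordConnected_Ici, Set.Ici_subset_Ici.2 (by omega),
      f1.insert j, Set.insert_subset hj f2, dn_Ici (by rwa [add_sub_cancel_right]), hE _,
      fun σ _ _ s1 s2 h => ?_⟩
    have s3 : F ⊆ σ := (Set.subset_insert _ _).trans s1
    obtain ⟨n, hn, hF, c, -, p2, p3⟩ := f3 σ (σ ∩ Set.Ici (n₀ + 1)) s3 s2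
      (fun i hi => ⟨s3 hi, by have := hM hi; simp; omega⟩) (Set.inter_subset_left.trans s2)
      (by rwa [zero_add])
    have := hM hF
    exact ((p2.incl (Set.inter_subset_inter_right _ (Set.Ici_subset_Ici.2 (by omega)))
      ((hn.1.mono s2 (s3 hF)).dn_Ici.mono Set.inter_subset_left) (Or.inl ⟨s3 hF, le_refl n⟩)
      (Or.inl ⟨s1 (Set.mem_insert _ _), hn.2⟩)).add p3).fin (by simp) (by simp)
  obtain ⟨p, hp⟩ : ∃ p, ∀ n, n < p → w n = false := by simpa using h2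
  have up : ∀ i ∈ J, ∀ n, n ≤ i → n ∈ J := fun i hi n hn => by
    obtain ⟨n', a1, a2, -⟩ := h1 n
    exact hJ.oc.out a2 hi ⟨a1.le, hn⟩
  obtain ⟨d, ⟨d1, d2⟩, d3⟩ := Int.exists_greatest_of_bdd
    (P := fun d => d ∈ J ∧ ∀ n, n < d → w n = false) (by
      by_contra e
      have e' : ∀ b, ∃ d, (d ∈ J ∧ ∀ n, n < d → w n = false) ∧ b < d := by
        simpa [and_assoc] using e
      refine hJ.np ⟨Set.eq_univ_of_forall fun n => ?_, 1, one_pos, fun n => ?_⟩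
      · obtain ⟨d, a1, a2⟩ := e' n
        exact up d a1.1 n a2.le
      · obtain ⟨d, a1, a2⟩ := e' (n + 1)
        rw [a1.2 n (by omega), a1.2 _ (by omega)])
    (by
      obtain ⟨n, a1, a2, -⟩ := h1 p
      exact ⟨n, a2, fun i hi => hp i (by omega)⟩)
  have hd : Deep J w d := ⟨d1, Or.inl (d2 _ (by omega)), by
    by_contra e
    simp only [not_or, not_not, Bool.not_eq_true] at e
    have := d3 (d + 1) ⟨e.2, fun n hn => by
      rcases (Int.lt_add_one_iff.1 hn).lt_or_eq with c | rfl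
      exacts [d2 n c, e.1]⟩
    omega⟩
  obtain ⟨s₁, s₂, e, e₁, e₂⟩ : ∃ s₁ s₂ : Λ, s₁ + s₂ = r ∧ (j ≤ d ∨ s₁ = 0) ∧ (d ≤ j ∨ s₂ = 0) := by
    rcases le_total j d with c | c
    exacts [⟨r, 0, add_zero r, Or.inl c, Or.inr rfl⟩, ⟨0, r, zero_add r, Or.inr rfl, Or.inl c⟩]
  have inc : ∀ (σ : Set ℤ) (n : ℤ) (c : φ.ι → Λ), σ.OrdConnected → d ∈ σ → (j ≤ d → j ∈ σ) →
      σ ⊆ Set.Icc n d → Part Δ w φ (low J w j) j σ s₁ d c →
      Part Δ w φ (low J w j) j (Set.Icc n d) s₁ d c := fun σ n c a1 a2 a3 a4 h =>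
    h.incl a4 (fun i hi hi' => ⟨fun h' => absurd h' (by
      rw [d2 (i - 1) (by have := hi'.2; omega)]; simp),
      fun _ h' => a1.out hi a2 ⟨by omega, h'.2⟩⟩) (Or.inl a2) (e₁.imp_left a3)
  obtain ⟨n₀, ⟨a1, a2, a3⟩, a4⟩ := stab (fun n => {x : φ.ι → S | ∃ c, (∀ t, Δ.q (c t) = x t) ∧
    Part Δ w φ (low J w j) j (Set.Icc n d) s₁ d c}) (fun n => n ≤ d ∧ n ≤ j ∧ n ≤ m)
    ⟨min d (min j m), by simp⟩
  refine ⟨Set.Ici n₀, {d, j, n₀}, Set.ordConnected_Ici, Set.Ici_subset_Ici.2 a3,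
    Set.toFinite _, by simp [Set.insert_subset_iff, d1, hj, up d d1 n₀ a1],
    dn_Ici (d2 _ (by omega)), hE n₀, fun σ s0 s1 s2 s3 h => ?_⟩
  have b1 : d ∈ σ := s2 (by simp)
  have b2 : j ∈ σ := s2 (by simp)
  have b3 : n₀ ∈ σ := s2 (by simp)
  have hd' := hd.mono s3 b1
  obtain ⟨c, p1, p2⟩ := (e ▸ h).split hd' e₁ e₂
  obtain ⟨N, hN⟩ := s0.bddBelow
  have := hN b3
  obtain ⟨c', q1, q2⟩ := a4 N ⟨by omega, by omega, by omega⟩
    (fun x ⟨c, a, b⟩ => ⟨c, a, inc _ N c Set.ordConnected_Icc ⟨a1, le_rfl⟩ (fun h => ⟨a2, h⟩)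
      (Set.Icc_subset_Icc_left this) b⟩)
    ⟨c, fun t => rfl, inc _ N _ (s1.inter Set.ordConnected_Iic) ⟨b1, le_refl d⟩ (fun h => ⟨b2, h⟩)
      (fun i hi => ⟨hN hi.1, hi.2⟩) p1⟩
  have q3 := q2.deep (hd.mono (fun i hi => up d d1 i hi.2) ⟨a1, le_rfl⟩) q1
  have e' : Set.Icc n₀ d = σ ∩ Set.Ici n₀ ∩ Set.Iic d := Set.ext fun i =>
    ⟨fun hi => ⟨⟨s1.out b3 b1 hi, hi.1⟩, hi.2⟩, fun hi => ⟨hi.1.2, hi.2⟩⟩
  rw [e'] at q3
  exact ((q3.incl Set.inter_subset_left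
      (hd'.mono Set.inter_subset_left ⟨b1, a1⟩).dn_Iic (Or.inl ⟨⟨b1, a1⟩, le_refl d⟩)
      (e₁.imp_left fun h => ⟨⟨b2, a2⟩, h⟩)).add
    (p2.incl (Set.inter_subset_inter_right _ (Set.Ici_subset_Ici.2 a1))
    (hd'.dn_Ici.mono Set.inter_subset_left) (Or.inl ⟨b1, le_refl d⟩)
    (e₂.imp_left fun h => ⟨b2, h⟩))).fin e (by simp)

end Clo

end Pool.Agent.Lib.MP_c13fce_lc
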