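import Mathlib.Algebra.MonoidAlgebra.Defs
import Mathlib.Computability.RE
import Mathlib.Algebra.Squarefree.Basic

namespace Pool.Agent.Lib.MP_c13fce_lc

/-- Terms of the language of `R`-modules: variables, `0`, `+`, `-`, multiplication by `r`. -/
inductive Tm (R : Type) : Type
  | var : ℕ → Tm R
  | zero : Tm R
  | add : Tm R → Tm R → Tm R
  | neg : Tm R → Tm R
  | smul : R → Tm R → Tm R

/-- First-order formulas: equations, negation, implication, universal quantifier. -/
inductive Fm (R : Type) : Type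
  | eq : Tm R → Tm R → Fm R
  | not : Fm R → Fm R
  | imp : Fm R → Fm R → Fm R
  | all : ℕ → Fm R → Fm R

variable {R : Type}

/-- The variables of a term. -/
def Tm.vars : Tm R → Finset ℕ
  | var i => {i}
  | zero => ∅
  | add s t => s.vars ∪ t.vars
  | neg t => t.vars
  | smul _ t => t.vars

/-- The free variables of a formula. -/
def Fm.free : Fm R → Finset ℕ
  | eq s t => s.vars ∪ t.vars
  | not φ => φ.free
  | imp φ ψ => φ.free ∪ ψ.free
  | all i φ => φ.free.erase i

/-- The value of a term in a module under an assignment. -/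
def Tm.val [Ring R] {M : Type} [AddCommGroup M] [Module R M] (v : ℕ → M) : Tm R → M
  | var i => v i
  | zero => 0
  | add s t => s.val v + t.val v
  | neg t => -t.val v
  | smul r t => r • t.val v

/-- Satisfaction of a formula in a module under an assignment. -/
def Fm.Sat [Ring R] {M : Type} [AddCommGroup M] [Module R M] : Fm R → (ℕ → M) → Prop
  | eq s t, v => s.val v = t.val v
  | not φ, v => ¬ φ.Sat v
  | imp φ ψ, v => φ.Sat v → ψ.Sat v
  | all i φ, v => ∀ x : M, φ.Sat (Function.update v i x)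

/-- The theory of `R`-modules: the sentences true in every `R`-module. -/
def Theory (R : Type) [Ring R] : Set (Fm R) :=
  {φ | φ.free = ∅ ∧ ∀ (M : Type) [AddCommGroup M] [Module R M] (v : ℕ → M), φ.Sat v}

/-- The number of a term, given numbers `c r` for the ring elements. -/
def Tm.code (c : R → ℕ) : Tm R → ℕ
  | var i => Nat.pair 0 i
  | zero => Nat.pair 1 0
  | add s t => Nat.pair 2 (Nat.pair (s.code c) (t.code c))
  | neg t => Nat.pair 3 (t.code c)
  | smul r t => Nat.pair 4 (Nat.pair (c r) (t.code c))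

/-- The number of a formula. -/
def Fm.code (c : R → ℕ) : Fm R → ℕ
  | eq s t => Nat.pair 0 (Nat.pair (s.code c) (t.code c))
  | not φ => Nat.pair 1 (φ.code c)
  | imp φ ψ => Nat.pair 2 (Nat.pair (φ.code c) (ψ.code c))
  | all i φ => Nat.pair 3 (Nat.pair i (φ.code c))

end Pool.Agent.Lib.MP_c13fce_lc

theorem Pool.Agent.Lib.MP_c13fce_lc.Defs.rlz0 : True := by
  have := @Pool.Agent.Lib.MP_c13fce_lc.Tm.val.eq_def
  trivial

theorem Pool.Agent.Lib.MP_c13fce_lc.Defs.rlz1 : True := by
  have := @Pool.Agent.Lib.MP_c13fce_lc.Fm.Sat.eq_def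
  trivial

theorem Pool.Agent.Lib.MP_c13fce_lc.Defs.rlz2 : True := by
  have := @Pool.Agent.Lib.MP_c13fce_lc.Tm.vars.eq_def
  trivial

theorem Pool.Agent.Lib.MP_c13fce_lc.Defs.rlz3 : True := by
  have := @Pool.Agent.Lib.MP_c13fce_lc.Fm.free.eq_def
  trivial

theorem Pool.Agent.Lib.MP_c13fce_lc.Defs.rlz4 : True := by
  have := @Pool.Agent.Lib.MP_c13fce_lc.Fm.code.eq_def
  trivial

theorem Pool.Agent.Lib.MP_c13fce_lc.Defs.rlz5 : True := by
  have := @Pool.Agent.Lib.MP_c13fce_lc.Tm.code.eq_def
  trivial
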