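import Mathlib
import Pool.Agent.Lib.MP_c13fce_lc.Defs

/-! Shared definitions for the decidability half: pp formulas, indices, claims, nice modules. -/

namespace Pool.Agent.Lib.MP_c13fce_lc

open scoped BigOperators

/-- A positive primitive formula in one free variable: `∃ y, ∀ i, h i • x + ∑ k, H i k • y k = 0`. -/
structure PP (R : Type) : Type 1 where
  ι : Type
  κ : Type
  [fι : Fintype ι]
  [fκ : Fintype κ]
  h : ι → R
  H : ι → κ → R

attribute [instance] PP.fι PP.fκ

section
variable {R : Type} [Ring R]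

/-- The subgroup defined by a pp formula. -/
def PP.set (φ : PP R) (M : Type) [AddCommGroup M] [Module R M] : AddSubgroup M where
  carrier := {x | ∃ y : φ.κ → M, ∀ i, φ.h i • x + ∑ k, φ.H i k • y k = 0}
  zero_mem' := ⟨0, by simp⟩
  add_mem' := by
    rintro x x' ⟨y, hy⟩ ⟨y', hy'⟩
    refine ⟨y + y', fun i => ?_⟩
    have := congrArg₂ (· + ·) (hy i) (hy' i)
    simp only [add_zero] at this
    rw [← this]
    simp only [Pi.add_apply, smul_add, Finset.sum_add_distrib]
    abel
  neg_mem' := by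
    rintro x ⟨y, hy⟩
    refine ⟨-y, fun i => ?_⟩
    have := congrArg (fun z => -z) (hy i)
    simp only [neg_zero] at this
    rw [← this]
    simp only [Pi.neg_apply, smul_neg, Finset.sum_neg_distrib]
    abel

theorem PP.mem_set {φ : PP R} {M : Type} [AddCommGroup M] [Module R M] {x : M} :
    x ∈ φ.set M ↔ ∃ y : φ.κ → M, ∀ i, φ.h i • x + ∑ k, φ.H i k • y k = 0 := Iff.rfl

/-- `ψ` implies `φ` in every module. -/
def PP.Le (ψ φ : PP R) : Prop :=
  ∀ (M : Type) [AddCommGroup M] [Module R M], ψ.set M ≤ φ.set M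

/-- Image of a pp formula under a ring homomorphism. -/
def PP.map {R' : Type} (f : R → R') (φ : PP R) : PP R' where
  ι := φ.ι
  κ := φ.κ
  h i := f (φ.h i)
  H i k := f (φ.H i k)

/-- Conjunction of pp formulas. -/
def PP.and (φ ψ : PP R) : PP R where
  ι := φ.ι ⊕ ψ.ι
  κ := φ.κ ⊕ ψ.κ
  h := Sum.elim φ.h ψ.h
  H i k := match i, k with
    | .inl i, .inl k => φ.H i k
    | .inr i, .inr k => ψ.H i k
    | _, _ => 0

end

/-- The index of `B ⊓ A` in `A`, as an extended natural number. -/
noncomputable def eidx {M : Type} [AddCommGroup M] (B A : AddSubgroup M) : ℕ∞ :=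
  ENat.card (A ⧸ B.addSubgroupOf A)

/-- The invariant `|φ(M) / φ(M) ⊓ ψ(M)|`. -/
noncomputable def ind {R : Type} [Ring R] (φ ψ : PP R) (M : Type) [AddCommGroup M] [Module R M] :
    ℕ∞ := eidx (ψ.set M) (φ.set M)

/-- Supremum of the finite subproducts of a family over a set. -/
noncomputable def tprodE {ι : Type} (J : Set ι) (f : ι → ℕ∞) : ℕ∞ :=
  ⨆ F : Finset ι, ⨆ _ : (F : Set ι) ⊆ J, ∏ j ∈ F, f j

/-- Codes of pp formulas: a list of rows; entry `0` is the coefficient of the free variable. -/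
abbrev PPc (R : Type) := List (List R)

/-- The pp formula with a given code. -/
def PPc.toPP {R : Type} [Zero R] (L : PPc R) : PP R where
  ι := Fin L.length
  κ := Fin (L.map List.length).sum
  h i := (L.getD i []).getD 0 0
  H i k := (L.getD i []).getD (k + 1) 0

/-- A claim `n ≤ ind φ ψ` (flag `true`) or `ind φ ψ < n` (flag `false`). -/
abbrev Claim (R : Type) := PPc R × PPc R × ℕ × Bool

/-- Truth of a claim for a given value of the invariant. -/
def Claim.ok {R : Type} (c : Claim R) (x : ℕ∞) : Prop :=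
  if c.2.2.2 = true then (c.2.2.1 : ℕ∞) ≤ x else x < (c.2.2.1 : ℕ∞)

/-- A finite list of claims holds simultaneously in some module. -/
def Cons {R : Type} [Ring R] (χ : List (Claim R)) : Prop :=
  ∃ (M : Type) (_ : AddCommGroup M) (_ : Module R M),
    ∀ c ∈ χ, c.ok (ind c.1.toPP c.2.1.toPP M)

/-- The invariants of `M`, truncated at `B`, agree with those of the direct sum of the list. -/
def Match {R : Type} [Ring R] {ι : Type} (B : ℕ) (φ ψ : ι → PP R) (M : Type) [AddCommGroup M]
    [Module R M] (Cs : List (ModuleCat.{0} R)) : Prop :=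
  ∀ i, min (B : ℕ∞) (ind (φ i) (ψ i) M) =
    min (B : ℕ∞) (Cs.map fun C : ModuleCat.{0} R => ind (φ i) (ψ i) C).prod

/-- Von Neumann regularity of matrices up to nonzero scalars. -/
def Reg (D R : Type) [CommRing D] [Ring R] [Algebra D R] : Prop :=
  ∀ (ι κ : Type) [Fintype ι] [Fintype κ] (H : Matrix ι κ R),
    ∃ (Y : Matrix κ ι R) (n : D), n ≠ 0 ∧ H * Y * H = n • H

/-- Finite quotients and enough primes. -/
class FinQ (D : Type) [CommRing D] : Prop where
  fin : ∀ d : D, d ≠ 0 → Finite (D ⧸ Ideal.span {d})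
  jac : ∀ n : D, n ≠ 0 → ∃ q : D, q ≠ 0 ∧ ¬ IsUnit q ∧ IsCoprime q n

/-- A ring with primitive recursive operations and computable reduction modulo integers. -/
structure CompRing (R : Type) [Ring R] [Primcodable R] where
  add : Primrec₂ fun x y : R => x + y
  mul : Primrec₂ fun x y : R => x * y
  neg : Primrec fun x : R => -x
  reps : ℕ → List R
  reps_prim : Primrec reps
  reps_spec : ∀ q : ℕ, 0 < q → ∀ r : R, ∃ r' ∈ reps q, ∃ s : R, r = r' + (q : R) * s
  dv : ℕ → R → Bool
  dv_prim : Primrec₂ dv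
  dv_spec : ∀ (q : ℕ) (r : R), dv q r = true ↔ ∃ s : R, r = (q : R) * s

/-! ### Nice modules -/

section Nice
variable {R : Type} [Ring R] {n : ℕ}

/-- A module with `n` marked elements. -/
structure Pt (R : Type) [Ring R] (n : ℕ) : Type 1 where
  Y : Type
  [acg : AddCommGroup Y]
  [mod : Module R Y]
  y : Fin n → Y

attribute [instance] Pt.acg Pt.mod

/-- The gluing relations. -/
def glueRel (L E : Pt R n) (Z : Type) [AddCommGroup Z] [Module R Z] (l r : Fin n → Z) :
    Submodule R (L.Y × Z × E.Y) :=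
  Submodule.span R (Set.range (fun i => ((L.y i, -l i, 0) : L.Y × Z × E.Y)) ∪
    Set.range (fun i => ((0, r i, -E.y i) : L.Y × Z × E.Y)))

/-- Two pointed modules glued to a middle module. -/
abbrev Glue (L E : Pt R n) (Z : Type) [AddCommGroup Z] [Module R Z] (l r : Fin n → Z) : Type :=
  (L.Y × Z × E.Y) ⧸ glueRel L E Z l r

/-- A chain of finite modules, of sum type (`s = true`) or product type. -/
structure Tail (R : Type) [Ring R] (n : ℕ) : Type 1 where
  Z : ℕ → Type
  [acg : ∀ k, AddCommGroup (Z k)]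
  [mod : ∀ k, Module R (Z k)]
  [fin : ∀ k, Finite (Z k)]
  l : ∀ k, Fin n → Z k
  r : ∀ k, Fin n → Z k
  s : Bool

attribute [instance] Tail.acg Tail.mod Tail.fin

/-- Shift of a chain of coefficients. -/
def prev (c : ℕ → Fin n → R) : ℕ → Fin n → R
  | 0 => 0
  | k + 1 => c k

/-- Families with the support condition. -/
def Tail.supp (T : Tail R n) : Submodule R (∀ k, T.Z k) where
  carrier := {x | T.s = true → {k | x k ≠ 0}.Finite}
  zero_mem' := fun _ => by simp
  add_mem' := fun {x y} hx hy hs => ((hx hs).union (hy hs)).subset fun k hk => by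
    by_contra h
    simp only [Set.mem_union, Set.mem_ofPred_eq, not_or, not_not] at h
    exact hk (by simp [h.1, h.2])
  smul_mem' := fun c x hx hs => (hx hs).subset fun k hk h => hk (by simp [h])

/-- The boundary of a chain of coefficients. -/
def Tail.bd (T : Tail R n) (c : ℕ → Fin n → R) : ∀ k, T.Z k :=
  fun k => ∑ i, c k i • T.r k i - ∑ i, prev c k i • T.l k i

theorem prev_add (c c' : ℕ → Fin n → R) : prev (c + c') = prev c + prev c' := by
  funext k; cases k <;> simp [prev]

theorem prev_smul (a : R) (c : ℕ → Fin n → R) : prev (a • c) = a • prev c := by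
  funext k; cases k <;> simp [prev]

theorem prev_zero : prev (0 : ℕ → Fin n → R) = 0 := by
  funext k; cases k <;> simp [prev]

/-- The relations of a tail. -/
def Tail.rel (T : Tail R n) : Submodule R (∀ k, T.Z k) where
  carrier := {x | ∃ c : ℕ → Fin n → R, (T.s = true → {k | c k ≠ 0}.Finite) ∧ x = T.bd c}
  zero_mem' := ⟨0, fun _ => by simp, by funext k; simp [Tail.bd, prev_zero]⟩
  add_mem' := by
    rintro _ _ ⟨c, hc, rfl⟩ ⟨c', hc', rfl⟩
    refine ⟨c + c', fun hs => ((hc hs).union (hc' hs)).subset fun k hk => ?_, ?_⟩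
    · by_contra h
      simp only [Set.mem_union, Set.mem_ofPred_eq, not_or, not_not] at h
      exact hk (by simp [h.1, h.2])
    · funext k
      simp only [Tail.bd, prev_add, Pi.add_apply, add_smul, Finset.sum_add_distrib]
      abel
  smul_mem' := by
    rintro a _ ⟨c, hc, rfl⟩
    refine ⟨a • c, fun hs => (hc hs).subset fun k hk h => hk (by simp [h]), ?_⟩
    funext k
    simp only [Tail.bd, prev_smul, Pi.smul_apply, smul_eq_mul, mul_smul, smul_sub,
      Finset.smul_sum]

theorem Tail.single_mem (T : Tail R n) (k : ℕ) (z : T.Z k) : Pi.single k z ∈ T.supp :=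
  fun _ => (Set.finite_singleton k).subset fun j hj => by
    by_contra h
    exact hj (Pi.single_eq_of_ne h z)

/-- The pointed module of a tail. -/
def Tail.pt (T : Tail R n) : Pt R n where
  Y := T.supp ⧸ T.rel.submoduleOf T.supp
  y i := Submodule.Quotient.mk ⟨Pi.single 0 (T.l 0 i), T.single_mem 0 _⟩

/-- Data for the adic and the divisible ends: a left ideal stable under right multiplication
by `t`, and marked ring elements. -/
structure PData (R : Type) [Ring R] (q : R) (n : ℕ) where
  I : Submodule R R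
  t : R
  y : Fin n → R
  hq : ∀ r, r * q = q * r
  It : ∀ x ∈ I, x * t ∈ I

variable {q : R}

/-- The ideal of level `l`. -/
def PData.lev (P : PData R q n) (l : ℕ) : Submodule R R := P.I ⊔ Submodule.span R {q ^ l}

/-- The stable part of right multiplication by `t` at level `l`. -/
def PData.st (P : PData R q n) (l : ℕ) : Submodule R R :=
  ⨅ k : ℕ, Submodule.span R {P.t ^ k} ⊔ P.lev l

/-- Compatible sequences. -/
def PData.aSeq (P : PData R q n) : Submodule R (ℕ → R) :=
  ⨅ l : ℕ, (P.lev l).comap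
      ((LinearMap.proj (l + 1) : (ℕ → R) →ₗ[R] R) - (LinearMap.proj l : (ℕ → R) →ₗ[R] R)) ⊓
    (P.st l).comap (LinearMap.proj l : (ℕ → R) →ₗ[R] R)

/-- Null sequences. -/
def PData.aNull (P : PData R q n) : Submodule R (ℕ → R) :=
  ⨅ l : ℕ, (P.lev l).comap (LinearMap.proj l)

theorem PData.mem_aSeq {P : PData R q n} {x : ℕ → R} :
    x ∈ P.aSeq ↔ ∀ l, x (l + 1) - x l ∈ P.lev l ∧ x l ∈ P.st l := by
  simp [PData.aSeq, Submodule.mem_iInf]

theorem PData.mem_aNull {P : PData R q n} {x : ℕ → R} : x ∈ P.aNull ↔ ∀ l, x l ∈ P.lev l := by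
  simp [PData.aNull, Submodule.mem_iInf]

theorem PData.lev_mul (P : PData R q n) (l : ℕ) {x : R} (hx : x ∈ P.lev l) :
    x * P.t ∈ P.lev l := by
  obtain ⟨u, hu, v, hv, rfl⟩ := Submodule.mem_sup.1 hx
  obtain ⟨c, rfl⟩ := Submodule.mem_span_singleton.1 hv
  rw [add_mul]
  refine add_mem (Submodule.mem_sup_left (P.It u hu)) (Submodule.mem_sup_right ?_)
  have hc : Commute q P.t := (P.hq P.t).symm
  rw [smul_eq_mul, mul_assoc, (hc.pow_left l).eq, ← mul_assoc]
  exact Submodule.mem_span_singleton.2 ⟨_, rfl⟩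

theorem PData.mem_st (P : PData R q n) (l : ℕ) {x : R} (hx : x * P.t - x ∈ P.lev l) :
    x ∈ P.st l := by
  have key : ∀ k : ℕ, x * P.t ^ k - x ∈ P.lev l := by
    intro k
    induction k with
    | zero => simp
    | succ k ih =>
      have : x * P.t ^ (k + 1) - x = (x * P.t ^ k - x) * P.t + (x * P.t - x) := by
        rw [pow_succ, sub_mul, mul_assoc]; abel
      rw [this]
      exact add_mem (P.lev_mul l ih) hx
  refine Submodule.mem_iInf _ |>.2 fun k => ?_
  have : x = x * P.t ^ k - (x * P.t ^ k - x) := by abel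
  rw [this]
  exact sub_mem (Submodule.mem_sup_left (Submodule.mem_span_singleton.2 ⟨x, rfl⟩))
    (Submodule.mem_sup_right (key k))

/-- The adic end. -/
def PData.adic (P : PData R q n) (hy : ∀ i, P.y i * P.t - P.y i ∈ P.I) : Pt R n where
  Y := P.aSeq ⧸ P.aNull.submoduleOf P.aSeq
  y i := Submodule.Quotient.mk ⟨fun _ => P.y i, PData.mem_aSeq.2 fun l =>
    ⟨by simp, P.mem_st l (Submodule.mem_sup_left (hy i))⟩⟩

/-- Eventually compatible sequences (level `l` stands for the fraction `x l / q ^ l`). -/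
def PData.pSeq (P : PData R q n) : Submodule R (ℕ → R) where
  carrier := {x | ∀ᶠ l in Filter.atTop, x (l + 1) - x l * q ∈ P.lev (l + 1) ∧ x l ∈ P.st l}
  zero_mem' := Filter.Eventually.of_forall fun l => by simp
  add_mem' := fun {x y} hx hy => (Filter.Eventually.and hx hy).mono fun l h => by
    refine ⟨?_, add_mem h.1.2 h.2.2⟩
    have := add_mem h.1.1 h.2.1
    simp only [Pi.add_apply, add_mul]
    rwa [show x (l + 1) + y (l + 1) - (x l * q + y l * q) =
      x (l + 1) - x l * q + (y (l + 1) - y l * q) by abel]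
  smul_mem' := fun c x hx => Filter.Eventually.mono hx fun l h => by
    refine ⟨?_, Submodule.smul_mem _ c h.2⟩
    have := Submodule.smul_mem _ c h.1
    simp only [Pi.smul_apply, smul_eq_mul, mul_assoc] at this ⊢
    rwa [← mul_sub]

/-- Eventually null sequences. -/
def PData.pNull (P : PData R q n) : Submodule R (ℕ → R) where
  carrier := {x | ∀ᶠ l in Filter.atTop, x l ∈ P.lev l}
  zero_mem' := Filter.Eventually.of_forall fun l => by simp
  add_mem' := fun {x y} hx hy => (Filter.Eventually.and hx hy).mono fun l h => add_mem h.1 h.2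
  smul_mem' := fun c x hx => Filter.Eventually.mono hx fun l h => Submodule.smul_mem _ c h

theorem PData.lev_mul_pow (P : PData R q n) (l k : ℕ) {x : R} (hx : x ∈ P.lev l) :
    x * q ^ k ∈ P.lev (l + k) := by
  obtain ⟨u, hu, v, hv, rfl⟩ := Submodule.mem_sup.1 hx
  obtain ⟨c, rfl⟩ := Submodule.mem_span_singleton.1 hv
  rw [add_mul]
  have hc : Commute q u := (P.hq u).symm
  refine add_mem (Submodule.mem_sup_left ?_) (Submodule.mem_sup_right ?_)
  · rw [← (hc.pow_left k).eq]; exact P.I.smul_mem _ hu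
  · rw [smul_eq_mul, mul_assoc, ← pow_add]
    exact Submodule.mem_span_singleton.2 ⟨_, rfl⟩

theorem PData.frac_mem (P : PData R q n) (l : ℕ) {x : R} (hx : x * P.t - x ∈ P.lev l) :
    (fun k => x * q ^ (k - l)) ∈ P.pSeq := by
  refine Filter.eventually_atTop.2 ⟨l, fun k hk => ⟨?_, P.mem_st k ?_⟩⟩
  · beta_reduce
    rw [Nat.succ_sub hk, pow_succ, mul_assoc, sub_self]; exact zero_mem _
  · have hc : Commute q P.t := (P.hq P.t).symm
    have := P.lev_mul_pow l (k - l) hx
    rw [Nat.add_sub_cancel' hk, sub_mul, mul_assoc, ← (hc.pow_left _).eq, ← mul_assoc] at this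
    exact this

/-- The divisible end. -/
def PData.prufer (P : PData R q n) (hy : ∀ i, P.y i * P.t - P.y i ∈ P.lev 1) : Pt R n where
  Y := P.pSeq ⧸ P.pNull.submoduleOf P.pSeq
  y i := Submodule.Quotient.mk ⟨fun k => P.y i * q ^ (k - 1), P.frac_mem 1 (hy i)⟩

/-- The admissible ends. -/
def IsEnd (q : R) (E : Pt R n) : Prop :=
  (∃ T : Tail R n, (∀ k i, q • T.l k i = 0 ∧ q • T.r k i = 0) ∧ E = T.pt) ∨
  (∃ (P : PData R q n) (hy : ∀ i, P.y i * P.t - P.y i ∈ P.I), (∀ i, P.y i * q ∈ P.I) ∧
    E = P.adic hy) ∨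
  (∃ (P : PData R q n) (hy : ∀ i, P.y i * P.t - P.y i ∈ P.lev 1), E = P.prufer hy)

/-- Nice modules: two ends glued to a finite module. -/
def Nice (q : R) (C : ModuleCat.{0} R) : Prop :=
  ∃ (n : ℕ) (L E : Pt R n) (Z : Type) (_ : AddCommGroup Z) (_ : Module R Z) (_ : Finite Z)
    (l r : Fin n → Z), IsEnd q L ∧ IsEnd q E ∧ Nonempty (C ≃ₗ[R] Glue L E Z l r)

end Nice

end Pool.Agent.Lib.MP_c13fce_lc
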