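import Pool.Agent.Lib.MP_c13fce_lc.Defs2

/-! Shared definitions for the string and band analysis. -/

namespace Pool.Agent.Lib.MP_c13fce_lc

open scoped BigOperators

/-- The injective cogenerator `K / D`. -/
abbrev Inj (D : Type) [CommRing D] [IsDomain D] : Type :=
  FractionRing D ⧸ LinearMap.range (Algebra.linearMap D (FractionRing D))

/-- String data: a ring with two normal elements `a`, `b`, `a b = 0`, and finite semisimple
quotient `S`. -/
structure SD (D Λ S : Type) [CommRing D] [IsDomain D] [Ring Λ] [Algebra D Λ] [Ring S]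
    [Algebra D S] where
  π : D
  hπ : Irreducible π
  a : Λ
  b : Λ
  q : Λ →ₐ[D] S
  q_surj : Function.Surjective q
  q_ker : ∀ r, q r = 0 ↔ ∃ x y, r = x * a + y * b
  σ : S ≃ₐ[D] S
  na : ∀ r, ∃ r', a * r = r' * a ∧ q r' = σ (q r)
  na' : ∀ r', ∃ r, r' * a = a * r ∧ q r' = σ (q r)
  cb : ∀ r, b * r = r * b
  ab : a * b = 0
  qπ : algebraMap D S π = 0
  ea : ∃ (e : ℕ) (x y : Λ), a ^ e = π • x + y * b
  eb : ∃ (e : ℕ) (x y : Λ), b ^ e = π • x + y * a
  regA : ∀ r : Λ, (∃ y, π • r = y * b) → ∃ y, r = y * b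
  regB : b = 0 ∨ ∀ r : Λ, (∃ y, π • r = y * a) → ∃ y, r = y * a
  κ : S →ₗ[D] Inj D
  κ_comm : ∀ s t, κ (s * t) = κ (t * s)
  κ_σ : ∀ s, κ (σ s) = κ s
  κ_nd : ∀ s, (∀ r, κ (r * s) = 0) → s = 0
  reg : Reg D Λ

/-! ### Words -/

/-- Side words: `0` = incoming edge, `1` = end, `2` = outgoing edge. -/
abbrev Wd : Type := ℕ → Fin 3

/-- The word without its first letter. -/
def Wd.tl (u : Wd) : Wd := fun k => u (k + 1)

/-- Exchange of incoming and outgoing. -/
def Wd.flip (u : Wd) : Wd := fun k => Fin.rev (u k)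

/-- After an end letter only end letters occur. -/
def Wd.Nrm (u : Wd) : Prop := ∀ k, u k = 1 → u (k + 1) = 1

open Classical in
/-- The word read to the right of position `j`. The edge `j` joins `j` and `j + 1`; `w j = true`
(letter A) means `a • e (j + 1) = e j`, and `w j = false` (letter B) means `b • e j = e (j + 1)`. -/
noncomputable def rwd (J : Set ℤ) (w : ℤ → Bool) (j : ℤ) : Wd :=
  fun k => if j + k + 1 ∈ J then (if w (j + k) = true then 0 else 2) else 1

open Classical in
/-- The word read to the left of position `j`. -/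
noncomputable def lwd (J : Set ℤ) (w : ℤ → Bool) (j : ℤ) : Wd :=
  fun k => if j - k - 1 ∈ J then (if w (j - k - 1) = true then 2 else 0) else 1

/-- Pairs of words, ordered lexicographically. -/
abbrev Pnt : Type := Lex (Lex Wd × Lex Wd)

/-- The pair of words at a position. -/
noncomputable def pnt (J : Set ℤ) (w : ℤ → Bool) (j : ℤ) : Pnt :=
  toLex (toLex (rwd J w j), toLex (lwd J w j))

/-- Periodic words. -/
def Per (J : Set ℤ) (w : ℤ → Bool) : Prop :=
  J = Set.univ ∧ ∃ d : ℕ, 0 < d ∧ ∀ j, w (j + d) = w j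

/-- The signed number of letters A. -/
noncomputable def ht (w : ℤ → Bool) (j : ℤ) : ℤ :=
  ∑ i ∈ Finset.Ico 0 j, (if w i = true then 1 else 0) -
    ∑ i ∈ Finset.Ico j 0, (if w i = true then 1 else 0)

/-- A primitive periodic word with both letters, based at a deep. -/
structure IsBand (w : ℤ → Bool) (r : ℕ) (d : ℤ) : Prop where
  pos : 0 < r
  per : ∀ j, w (j + r) = w j
  prim : ∀ i ∈ Finset.Ico d (d + r), ∀ j ∈ Finset.Ico d (d + r),
    rwd Set.univ w i = rwd Set.univ w j → i = j
  left : w (d - 1) = false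
  right : w d = true

/-! ### Systems of submodules -/

section Sys
variable {D : Type} [CommRing D] {A : Type} [AddCommGroup A] [Module D A]

/-- The recursion satisfied by a family of submodules indexed by words. -/
def Side (α β : A →ₗ[D] A) (E : Submodule D A) (F : Wd → Submodule D A) : Prop :=
  ∀ u : Wd, F u = if u 0 = 0 then (F u.tl).map α else if u 0 = 2 then (F u.tl).comap β else E

/-- Lower and upper families for right and left words. -/
structure Sys (α β : A →ₗ[D] A) where
  Rm : Wd → Submodule D A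
  Rp : Wd → Submodule D A
  Lm : Wd → Submodule D A
  Lp : Wd → Submodule D A
  hRm : Side α β (LinearMap.range α) Rm
  hRp : Side α β (LinearMap.ker β) Rp
  hLm : Side β α (LinearMap.range β) Lm
  hLp : Side β α (LinearMap.ker α) Lp
  Rle : ∀ u, Rm u ≤ Rp u
  Lle : ∀ u, Lm u ≤ Lp u

variable {α β : A →ₗ[D] A}

/-- The homogeneous elements of type `(u, v)`. -/
def Sys.Q (Y : Sys α β) (u v : Wd) : Submodule D A := Y.Rp u ⊓ Y.Lp v
/-- The lower end of the interval of `(u, v)`. -/
def Sys.Gm (Y : Sys α β) (u v : Wd) : Submodule D A := Y.Rm u ⊔ Y.Rp u ⊓ Y.Lm v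
/-- The upper end of the interval of `(u, v)`. -/
def Sys.Gp (Y : Sys α β) (u v : Wd) : Submodule D A := Y.Rm u ⊔ Y.Rp u ⊓ Y.Lp v

/-- Finite approximations from below. -/
def lo (α β : A →ₗ[D] A) : ℕ → Wd → Submodule D A
  | 0, _ => ⊥
  | n + 1, u => if u 0 = 0 then (lo α β n u.tl).map α else
      if u 0 = 2 then (lo α β n u.tl).comap β else LinearMap.range α

/-- Finite approximations from above. -/
def up (α β : A →ₗ[D] A) : ℕ → Wd → Submodule D A
  | 0, _ => ⊤
  | n + 1, u => if u 0 = 0 then (up α β n u.tl).map α else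
      if u 0 = 2 then (up α β n u.tl).comap β else LinearMap.ker β

end Sys

/-- Multiplication by a ring element as a linear map over the central subring. -/
def act (D : Type) [CommRing D] {Λ : Type} [Ring Λ] [Algebra D Λ] (N : Type) [AddCommGroup N]
    [Module Λ N] [Module D N] [IsScalarTower D Λ N] (r : Λ) : N →ₗ[D] N where
  toFun x := r • x
  map_add' := smul_add r
  map_smul' d x := by
    rw [RingHom.id_apply, ← algebraMap_smul Λ d x, ← algebraMap_smul Λ d (r • x), smul_smul,
      smul_smul, Algebra.commutes]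

@[simp] theorem act_apply (D : Type) [CommRing D] {Λ : Type} [Ring Λ] [Algebra D Λ] (N : Type)
    [AddCommGroup N] [Module Λ N] [Module D N] [IsScalarTower D Λ N] (r : Λ) (x : N) :
    act D N r x = r • x := rfl

/-- All submodules of the system are stable under the ring. -/
def Sys.Stable {D : Type} [CommRing D] (Λ : Type) [Ring Λ] {N : Type} [AddCommGroup N]
    [Module Λ N] [Module D N] {α β : N →ₗ[D] N} (Y : Sys α β) : Prop :=
  ∀ (u : Wd) (r : Λ) (x : N), (x ∈ Y.Rm u → r • x ∈ Y.Rm u) ∧ (x ∈ Y.Rp u → r • x ∈ Y.Rp u) ∧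
    (x ∈ Y.Lm u → r • x ∈ Y.Lm u) ∧ (x ∈ Y.Lp u → r • x ∈ Y.Lp u)

/-! ### String modules -/

section St
variable {Λ : Type} [Ring Λ]

/-- The relations of the free string module. -/
noncomputable def stRel (a b : Λ) (J : Set ℤ) (w : ℤ → Bool) : Submodule Λ (ℤ →₀ Λ) :=
  Submodule.span Λ ({f | ∃ j, j ∉ J ∧ f = Finsupp.single j 1} ∪
    {f | ∃ j, j ∈ J ∧ f = Finsupp.single j a -
      if w (j - 1) = true then Finsupp.single (j - 1) 1 else 0} ∪
    {f | ∃ j, j ∈ J ∧ f = Finsupp.single j b -
      if w j = true then 0 else Finsupp.single (j + 1) 1})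

/-- The free string module. -/
abbrev St (a b : Λ) (J : Set ℤ) (w : ℤ → Bool) : Type := (ℤ →₀ Λ) ⧸ stRel a b J w

/-- The generators of the string module. -/
noncomputable def stE (a b : Λ) (J : Set ℤ) (w : ℤ → Bool) (j : ℤ) : St a b J w :=
  Submodule.Quotient.mk (Finsupp.single j 1)

/-- The submodule generated by the generators in `Γ`. -/
noncomputable def stL (a b : Λ) (J : Set ℤ) (w : ℤ → Bool) (Γ : Set ℤ) :
    Submodule Λ (St a b J w) :=
  Submodule.span Λ (stE a b J w '' Γ)

/-- Families satisfying the relations of the string module. -/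
def Traj (a b : Λ) (J : Set ℤ) (w : ℤ → Bool) {N : Type} [AddCommGroup N] [Module Λ N]
    (x : ℤ → N) : Prop :=
  (∀ j, j ∉ J → x j = 0) ∧
    (∀ j, j ∈ J → a • x j = if w (j - 1) = true then x (j - 1) else 0) ∧
    (∀ j, j ∈ J → b • x j = if w j = true then 0 else x (j + 1))

end St

/-! ### Formulas over a ring with a twisted shift -/

/-- `x = ∑ s k • v k` with `∑ (cL k t • v k + T (cR k t • v k)) = 0` for all `t`. -/
structure TF (S : Type) : Type 1 where
  K : Type
  ι : Type
  [fK : Fintype K]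
  [fι : Fintype ι]
  s : K → S
  cL : K → ι → S
  cR : K → ι → S

attribute [instance] TF.fK TF.fι

/-- The subgroup defined by a twisted formula. -/
def TF.set {S : Type} [Ring S] (F : TF S) {V : Type} [AddCommGroup V] [Module S V]
    (T : V →+ V) : AddSubgroup V where
  carrier := {x | ∃ v : F.K → V, x = ∑ k, F.s k • v k ∧
    ∀ t, ∑ k, (F.cL k t • v k + T (F.cR k t • v k)) = 0}
  zero_mem' := ⟨0, by simp, by simp⟩
  add_mem' := by
    rintro _ _ ⟨v, rfl, hv⟩ ⟨v', rfl, hv'⟩
    refine ⟨v + v', by simp [Finset.sum_add_distrib], fun t => ?_⟩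
    have := congrArg₂ (· + ·) (hv t) (hv' t)
    simp only [add_zero, ← Finset.sum_add_distrib] at this
    rw [← this]
    refine Finset.sum_congr rfl fun k _ => ?_
    simp only [Pi.add_apply, smul_add, map_add]
    abel
  neg_mem' := by
    rintro _ ⟨v, rfl, hv⟩
    refine ⟨-v, by simp, fun t => ?_⟩
    have := congrArg (fun z => -z) (hv t)
    simp only [neg_zero, ← Finset.sum_neg_distrib] at this
    rw [← this]
    refine Finset.sum_congr rfl fun k _ => ?_
    simp only [Pi.neg_apply, smul_neg, map_neg]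
    abel

/-- A finite module with a twisted automorphism, and a kind: `0` finite, `1` adic, `2` divisible. -/
structure BM (S : Type) [Ring S] (τ : S → S) : Type 1 where
  W : Type
  [acg : AddCommGroup W]
  [mod : Module S W]
  [fin : Finite W]
  T0 : W ≃+ W
  semi : ∀ (s : S) (x : W), T0 (s • x) = τ s • T0 x
  kind : Fin 3

attribute [instance] BM.acg BM.mod BM.fin

section BM
variable {S : Type} [Ring S] {τ : S → S}

/-- The parameter module: sequences supported at `0`, all sequences, or finitely supported ones. -/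
def BM.C (X : BM S τ) : Submodule S (ℕ → X.W) where
  carrier := {v | (X.kind = 0 → ∀ k, v (k + 1) = 0) ∧ (X.kind = 2 → {k | v k ≠ 0}.Finite)}
  zero_mem' := ⟨fun _ _ => rfl, fun _ => by simp⟩
  add_mem' := fun {x y} hx hy => ⟨fun h k => by simp [hx.1 h k, hy.1 h k], fun h =>
    ((hx.2 h).union (hy.2 h)).subset fun k hk => by
      by_contra h
      simp only [Set.mem_union, Set.mem_ofPred_eq, not_or, not_not] at h
      exact hk (by simp [h.1, h.2])⟩
  smul_mem' := fun c x hx => ⟨fun h k => by simp [hx.1 h k], fun h =>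
    (hx.2 h).subset fun k hk h => hk (by simp [h])⟩

/-- The neighbour: the previous entry in the adic kind, the next entry otherwise. -/
def BM.nb (X : BM S τ) (v : ℕ → X.W) (k : ℕ) : X.W :=
  if X.kind = 1 then (match k with | 0 => 0 | k + 1 => v k) else v (k + 1)

theorem BM.nb_add (X : BM S τ) (v v' : ℕ → X.W) (k : ℕ) :
    X.nb (v + v') k = X.nb v k + X.nb v' k := by
  unfold BM.nb; split_ifs
  · cases k <;> simp
  · rfl

theorem BM.nb_zero (X : BM S τ) (k : ℕ) : X.nb 0 k = 0 := by
  unfold BM.nb; split_ifs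
  · cases k <;> simp
  · rfl

/-- The twisted shift `T0 (1 + z)` on the parameter module. -/
def BM.T (X : BM S τ) : X.C →+ X.C where
  toFun v := ⟨fun k => X.T0 (v.1 k + X.nb v.1 k), fun h k => by
      have h1 : X.kind ≠ 1 := by rw [h]; decide
      simp [BM.nb, h1, v.2.1 h], fun h => by
      have h1 : X.kind ≠ 1 := by rw [h]; decide
      refine ((v.2.2 h).union ((v.2.2 h).preimage (f := fun k => k + 1)
        (add_left_injective 1).injOn)).subset fun k hk => ?_
      by_contra h'
      simp only [Set.mem_union, Set.mem_ofPred_eq, Set.mem_preimage, not_or, not_not] at h'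
      exact hk (by simp [BM.nb, h1, h'.1, h'.2])⟩
  map_zero' := by ext k; simp [BM.nb_zero]
  map_add' v v' := by
    ext k
    simp only [Submodule.coe_add, Pi.add_apply, BM.nb_add, ← map_add]
    congr 1; abel

end BM

/-- Every module with a twisted automorphism is matched by finitely many nice ones. -/
def BandReal (S : Type) [Ring S] (τ : S → S) : Prop :=
  ∀ (V : Type) [AddCommGroup V] [Module S V] (T : V ≃+ V),
    (∀ (s : S) (x : V), T (s • x) = τ s • T x) →
    ∀ (ι : Type) [Finite ι] (F F' : ι → TF S) (B : ℕ), ∃ Xs : List (BM S τ), ∀ i,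
      min (B : ℕ∞) (eidx ((F' i).set T.toAddMonoidHom) ((F i).set T.toAddMonoidHom)) =
        min (B : ℕ∞) (Xs.map fun X => eidx ((F' i).set X.T) ((F i).set X.T)).prod

/-! ### Local invariants -/

section Loc
variable {D Λ S : Type} [CommRing D] [IsDomain D] [Ring Λ] [Algebra D Λ] [Ring S] [Algebra D S]
  (Δ : SD D Λ S)

/-- Words which occur: if `b = 0` only the letter A. -/
def SD.Adm (J : Set ℤ) (w : ℤ → Bool) : Prop :=
  Δ.b ≠ 0 ∨ ∀ j, j ∈ J → j + 1 ∈ J → w j = true

/-- A nonperiodic admissible string. -/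
structure SD.IsStr (J : Set ℤ) (w : ℤ → Bool) : Prop where
  oc : J.OrdConnected
  ne : J.Nonempty
  np : ¬ Per J w
  adm : Δ.Adm J w

/-- The twist at position `j`. -/
noncomputable def SD.tw (w : ℤ → Bool) (j : ℤ) : S ≃ₐ[D] S := Δ.σ ^ (-ht w j)

/-- The positions below `j`. -/
def low (J : Set ℤ) (w : ℤ → Bool) (j : ℤ) : Set ℤ := {i | i ∈ J ∧ pnt J w i < pnt J w j}

/-- The leading coefficients at position `j` of elements of `φ` in the string module. -/
noncomputable def SD.U (φ : PP Λ) (J : Set ℤ) (w : ℤ → Bool) (j : ℤ) : AddSubgroup S where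
  carrier := {s | ∃ r, Δ.q r = s ∧ ∃ z ∈ stL Δ.a Δ.b J w (low J w j),
    r • stE Δ.a Δ.b J w j + z ∈ φ.set (St Δ.a Δ.b J w)}
  zero_mem' := ⟨0, map_zero _, 0, zero_mem _, by simp⟩
  add_mem' := by
    rintro _ _ ⟨r, rfl, z, hz, h⟩ ⟨r', rfl, z', hz', h'⟩
    refine ⟨r + r', map_add _ _ _, z + z', add_mem hz hz', ?_⟩
    have := add_mem h h'
    rwa [show r • stE Δ.a Δ.b J w j + z + (r' • stE Δ.a Δ.b J w j + z') =
      (r + r') • stE Δ.a Δ.b J w j + (z + z') by rw [add_smul]; abel] at this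
  neg_mem' := by
    rintro _ ⟨r, rfl, z, hz, h⟩
    refine ⟨-r, map_neg _ _, -z, neg_mem hz, ?_⟩
    have := neg_mem h
    rwa [show -(r • stE Δ.a Δ.b J w j + z) = (-r) • stE Δ.a Δ.b J w j + -z by
      rw [neg_smul]; abel] at this

/-- The weight of a string with coefficients in the summand given by the idempotent `e`. -/
noncomputable def SD.wt (φ ψ : PP Λ) (J : Set ℤ) (w : ℤ → Bool) (e : S) : ℕ∞ :=
  tprodE J fun j => eidx ((Δ.U ψ J w j).map (AddMonoidHom.mulRight (Δ.tw w j e)))
    ((Δ.U φ J w j).map (AddMonoidHom.mulRight (Δ.tw w j e)))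

/-- Leading coefficient and boundary terms of solutions on one period. -/
def SD.Theta (φ : PP Λ) (w : ℤ → Bool) (r : ℕ) (d i : ℤ) : Set (S × (φ.ι → S) × (φ.ι → S)) :=
  {θ | ∃ (ρ : Λ) (cL cR : φ.ι → Λ), Δ.q ρ = Δ.tw w i θ.1 ∧
    (∀ t, Δ.q (cL t) = Δ.tw w d (θ.2.1 t)) ∧ (∀ t, Δ.q (cR t) = Δ.tw w (d + r) (θ.2.2 t)) ∧
    ∃ z ∈ stL Δ.a Δ.b (Set.Icc d (d + r)) w
        {j | j ∈ Set.Icc d (d + r) ∧ toLex (rwd Set.univ w j) < toLex (rwd Set.univ w i)},
      ∃ y : φ.κ → St Δ.a Δ.b (Set.Icc d (d + r)) w, ∀ t,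
        φ.h t • (ρ • stE Δ.a Δ.b (Set.Icc d (d + r)) w i + z) + ∑ k, φ.H t k • y k =
          cL t • stE Δ.a Δ.b (Set.Icc d (d + r)) w d +
            cR t • stE Δ.a Δ.b (Set.Icc d (d + r)) w (d + r)}

/-- The twisted formula describing `φ` at position `i` of a band. -/
noncomputable def SD.bandTF [Finite S] (φ : PP Λ) (w : ℤ → Bool) (r : ℕ) (d i : ℤ) : TF S where
  K := Δ.Theta φ w r d i
  ι := φ.ι
  fK := Fintype.ofFinite _
  s θ := θ.1.1
  cL θ := θ.1.2.1
  cR θ := θ.1.2.2

/-- The twist along one period. -/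
noncomputable def SD.twp (w : ℤ → Bool) (r : ℕ) (d : ℤ) : S → S :=
  fun s => (Δ.σ ^ (-(ht w (d + r) - ht w d))) s

end Loc

end Pool.Agent.Lib.MP_c13fce_lc
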