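import Pool.Agent.Lib.MP_c13fce_lc.Defs2

/-! Basic facts on indices, pp formulas and truncated products. -/

namespace Pool.Agent.Lib.MP_c13fce_lc

open scoped BigOperators

section eidx
variable {M M' : Type} [AddCommGroup M] [AddCommGroup M']

theorem ecard_le_of_surj {α β : Type} (f : α → β) (hf : Function.Surjective f) :
    ENat.card β ≤ ENat.card α :=
  ENat.card_le_card_of_injective (Function.injective_surjInv hf)

theorem one_le_eidx (B A : AddSubgroup M) : 1 ≤ eidx B A :=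
  Order.one_le_iff_pos.2 ENat.card_pos

theorem eidx_ne_zero (B A : AddSubgroup M) : eidx B A ≠ 0 :=
  (lt_of_lt_of_le zero_lt_one (one_le_eidx B A)).ne'

theorem eidx_inf (B A : AddSubgroup M) : eidx (B ⊓ A) A = eidx B A := by
  unfold eidx
  rw [AddSubgroup.inf_addSubgroupOf_right]

theorem eidx_eq_one {B A : AddSubgroup M} : eidx B A = 1 ↔ A ≤ B := by
  constructor
  · intro h x hx
    have : Subsingleton (A ⧸ B.addSubgroupOf A) := by
      rw [← ENat.card_le_one_iff_subsingleton]; exact h.le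
    have h0 : ((⟨x, hx⟩ : A) : A ⧸ B.addSubgroupOf A) = 0 := Subsingleton.elim _ _
    exact (QuotientAddGroup.eq_zero_iff (N := B.addSubgroupOf A) (⟨x, hx⟩ : A)).1 h0
  · intro h
    refine le_antisymm ?_ (one_le_eidx B A)
    unfold eidx
    rw [ENat.card_le_one_iff_subsingleton, AddSubgroup.addSubgroupOf_eq_top.2 h]
    exact QuotientAddGroup.subsingleton_quotient_top

/-- A homomorphism which maps `A` into `A'` and reflects `B'` to `B` on `A`. -/
theorem eidx_le_of_inj {A B : AddSubgroup M} {A' B' : AddSubgroup M'} (f : A →+ A')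
    (hB : ∀ x : A, (f x : M') ∈ B' ↔ (x : M) ∈ B) : eidx B A ≤ eidx B' A' := by
  refine ENat.card_le_card_of_injective (f := QuotientAddGroup.map (B.addSubgroupOf A)
    (B'.addSubgroupOf A') f fun x hx => (hB x).2 hx) ?_
  rw [injective_iff_map_eq_zero]
  intro x hx
  induction x using QuotientAddGroup.induction_on with
  | H x =>
    rw [QuotientAddGroup.map_mk, QuotientAddGroup.eq_zero_iff] at hx
    exact (QuotientAddGroup.eq_zero_iff _).2 ((hB x).1 hx)

/-- A homomorphism which maps `B` into `B'` and is onto modulo `B'`. -/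
theorem eidx_le_of_surj {A B : AddSubgroup M} {A' B' : AddSubgroup M'} (f : A →+ A')
    (hB : ∀ x : A, (x : M) ∈ B → (f x : M') ∈ B')
    (hs : ∀ y : A', ∃ x : A, (f x : M') - y ∈ B') : eidx B' A' ≤ eidx B A := by
  refine ecard_le_of_surj (QuotientAddGroup.map (B.addSubgroupOf A)
    (B'.addSubgroupOf A') f fun x hx => hB x hx) ?_
  intro y
  induction y using QuotientAddGroup.induction_on with
  | H y =>
    obtain ⟨x, hx⟩ := hs y
    refine ⟨x, ?_⟩
    rw [QuotientAddGroup.map_mk, QuotientAddGroup.eq_iff_sub_mem]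
    exact hx

theorem eidx_eq_of_hom {A B : AddSubgroup M} {A' B' : AddSubgroup M'} (f : A →+ A')
    (hB : ∀ x : A, (f x : M') ∈ B' ↔ (x : M) ∈ B)
    (hs : ∀ y : A', ∃ x : A, (f x : M') - y ∈ B') : eidx B A = eidx B' A' :=
  le_antisymm (eidx_le_of_inj f hB) (eidx_le_of_surj f (fun x hx => (hB x).2 hx) hs)

/-- The restriction of a homomorphism to subgroups. -/
def resHom (f : M →+ M') (A : AddSubgroup M) (A' : AddSubgroup M') (h : ∀ x ∈ A, f x ∈ A') :
    A →+ A' := (f.comp A.subtype).codRestrict A' fun x => h x x.2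

@[simp] theorem resHom_apply (f : M →+ M') (A : AddSubgroup M) (A' : AddSubgroup M')
    (h : ∀ x ∈ A, f x ∈ A') (x : A) : (resHom f A A' h x : M') = f x := rfl

theorem eidx_eq_of_map (f : M →+ M') {A B : AddSubgroup M} {A' B' : AddSubgroup M'}
    (hA : ∀ x ∈ A, f x ∈ A') (hB : ∀ x ∈ A, f x ∈ B' ↔ x ∈ B)
    (hs : ∀ y ∈ A', ∃ x ∈ A, f x - y ∈ B') : eidx B A = eidx B' A' :=
  eidx_eq_of_hom (resHom f A A' hA) (fun x => hB x x.2) fun y => by
    obtain ⟨x, hx, h⟩ := hs y y.2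
    exact ⟨⟨x, hx⟩, h⟩

theorem eidx_comap (f : M →+ M') (hf : Function.Surjective f) (B A : AddSubgroup M') :
    eidx (B.comap f) (A.comap f) = eidx B A :=
  eidx_eq_of_map f (fun _ hx => hx) (fun _ _ => Iff.rfl) fun y hy => by
    obtain ⟨x, rfl⟩ := hf y
    exact ⟨x, hy, by simp⟩

theorem eidx_map (f : M →+ M') (hf : Function.Injective f) (B A : AddSubgroup M) :
    eidx (B.map f) (A.map f) = eidx B A :=
  (eidx_eq_of_map f (A := A) (B := B) (A' := A.map f) (B' := B.map f) (fun x hx => ⟨x, hx, rfl⟩)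
    (fun _ _ => ⟨fun ⟨_, hy, e⟩ => hf e ▸ hy, fun h => ⟨_, h, rfl⟩⟩) fun _ ⟨x, hx, e⟩ =>
      ⟨x, hx, by simp [e]⟩).symm

theorem eidx_anti {B B' : AddSubgroup M} (A : AddSubgroup M) (h : B ⊓ A ≤ B') :
    eidx B' A ≤ eidx B A :=
  eidx_le_of_surj (AddMonoidHom.id A) (fun x hx => h ⟨hx, x.2⟩) fun y => ⟨y, by simp⟩

theorem eidx_mono (B : AddSubgroup M) {A A' : AddSubgroup M} (h : A ≤ A') :
    eidx B A ≤ eidx B A' :=
  eidx_le_of_inj (AddSubgroup.inclusion h) fun _ => Iff.rfl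

/-- The second isomorphism theorem. -/
theorem eidx_sup (B A : AddSubgroup M) : eidx B (A ⊔ B) = eidx B A :=
  (eidx_eq_of_map (AddMonoidHom.id M) (fun _ hx => AddSubgroup.mem_sup_left hx)
    (fun _ _ => Iff.rfl) fun y hy => by
      obtain ⟨u, hu, v, hv, rfl⟩ := AddSubgroup.mem_sup.1 hy
      exact ⟨u, hu, by simpa using hv⟩).symm

theorem eidx_mul {C B A : AddSubgroup M} (h1 : C ≤ B) (h2 : B ≤ A) :
    eidx C A = eidx C B * eidx B A := by
  unfold eidx
  rw [mul_comm, ← ENat.card_prod]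
  refine (ENat.card_congr (AddSubgroup.quotientEquivProdOfLE (s := C.addSubgroupOf A)
    (t := B.addSubgroupOf A) (fun _ hx => h1 hx))).trans ?_
  rw [ENat.card_prod, ENat.card_prod]
  congr 1
  exact eidx_eq_of_map A.subtype (A := B.addSubgroupOf A) (B := C.addSubgroupOf A) (A' := B)
    (B' := C) (fun _ hx => hx) (fun _ _ => Iff.rfl) fun y hy => ⟨⟨y, h2 hy⟩, hy, by simp⟩

theorem eidx_prod (B A : AddSubgroup M) (B' A' : AddSubgroup M') :
    eidx (B.prod B') (A.prod A') = eidx B A * eidx B' A' := by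
  rw [← eidx_inf B A, ← eidx_inf B' A', ← eidx_inf (B.prod B')]
  have e : B.prod B' ⊓ A.prod A' = (B ⊓ A).prod (B' ⊓ A') := by
    ext x; simp [AddSubgroup.mem_prod]; tauto
  rw [e, eidx_mul (B := A.prod (B' ⊓ A')) (AddSubgroup.prod_mono inf_le_right le_rfl)
    (AddSubgroup.prod_mono le_rfl inf_le_right)]
  congr 1
  · refine eidx_eq_of_map (AddMonoidHom.fst M M') (fun x hx => hx.1)
      (fun x hx => ⟨fun h => ⟨h, hx.2⟩, fun h => h.1⟩) fun y hy =>
        ⟨(y, 0), ⟨hy, zero_mem _⟩, by simp⟩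
  · refine eidx_eq_of_map (AddMonoidHom.snd M M') (fun x hx => hx.2)
      (fun x hx => ⟨fun h => ⟨hx.1, h⟩, fun h => h.2⟩) fun y hy =>
        ⟨(0, y), ⟨zero_mem _, hy⟩, by simp⟩

/-- Lower bounds for the index are witnessed by finitely many elements. -/
theorem le_eidx_iff {B A : AddSubgroup M} {n : ℕ} : (n : ℕ∞) ≤ eidx B A ↔
    ∃ x : Fin n → M, (∀ i, x i ∈ A) ∧ ∀ i j, x i - x j ∈ B → i = j := by
  constructor
  · intro h
    have : Nonempty (Fin n ↪ A ⧸ B.addSubgroupOf A) := by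
      rw [← Cardinal.le_def, Cardinal.mk_fin]
      unfold eidx ENat.card at h
      exact Cardinal.natCast_le_toENat.1 h
    obtain ⟨f⟩ := this
    choose g hg using fun i => QuotientAddGroup.mk_surjective (f i)
    refine ⟨fun i => g i, fun i => (g i).2, fun i j hij => f.injective ?_⟩
    rw [← hg, ← hg, QuotientAddGroup.eq_iff_sub_mem]
    exact hij
  · rintro ⟨x, hx, hinj⟩
    have := ENat.card_le_card_of_injective
      (f := fun i => ((⟨x i, hx i⟩ : A) : A ⧸ B.addSubgroupOf A)) fun i j hij =>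
        hinj i j ((QuotientAddGroup.eq_iff_sub_mem (N := B.addSubgroupOf A)).1 hij)
    simpa [eidx] using this

theorem eidx_ne_top_iff {B A : AddSubgroup M} :
    eidx B A ≠ ⊤ ↔ Finite (A ⧸ B.addSubgroupOf A) := by
  unfold eidx
  rw [Ne, ENat.card_eq_top, not_infinite_iff_finite]

theorem eidx_eq_relIndex {B A : AddSubgroup M} (h : eidx B A ≠ ⊤) :
    eidx B A = (B.relIndex A : ℕ) := by
  have := eidx_ne_top_iff.1 h
  unfold eidx
  rw [ENat.card_eq_coe_natCard]; rfl

end eidx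

section trunc

theorem min_mul_congr {B : ℕ} {x x' y y' : ℕ∞} (hx : 1 ≤ x) (hx' : 1 ≤ x') (hy : 1 ≤ y)
    (hy' : 1 ≤ y') (h1 : min (B : ℕ∞) x = min (B : ℕ∞) x')
    (h2 : min (B : ℕ∞) y = min (B : ℕ∞) y') :
    min (B : ℕ∞) (x * y) = min (B : ℕ∞) (x' * y') := by
  have key : ∀ {u u' : ℕ∞}, min (B : ℕ∞) u = min (B : ℕ∞) u' → u = u' ∨ (B ≤ u ∧ B ≤ u') := by
    intro u u' h
    rcases le_total (B : ℕ∞) u with h1 | h1 <;> rcases le_total (B : ℕ∞) u' with h2 | h2
    · exact Or.inr ⟨h1, h2⟩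
    · rw [min_eq_left h1, min_eq_right h2] at h; exact Or.inr ⟨h1, h.le⟩
    · rw [min_eq_right h1, min_eq_left h2] at h; exact Or.inr ⟨h.ge, h2⟩
    · rw [min_eq_right h1, min_eq_right h2] at h; exact Or.inl h
  rcases key h1 with rfl | ⟨a, a'⟩
  · rcases key h2 with rfl | ⟨b, b'⟩
    · rfl
    · rw [min_eq_left (b.trans (le_mul_of_one_le_left' hx)),
        min_eq_left (b'.trans (le_mul_of_one_le_left' hx))]
  · rw [min_eq_left (a.trans (le_mul_of_one_le_right' hy)),
      min_eq_left (a'.trans (le_mul_of_one_le_right' hy'))]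

theorem one_le_list_prod {α : Type*} (l : List α) (f : α → ℕ∞) (h : ∀ a, 1 ≤ f a) :
    1 ≤ (l.map f).prod :=
  List.one_le_prod_of_one_le fun x hx => by
    obtain ⟨a, _, rfl⟩ := List.mem_map.1 hx
    exact h a

theorem min_finset_prod_congr {α : Type*} {B : ℕ} (s : Finset α) (f g : α → ℕ∞)
    (hf : ∀ a, 1 ≤ f a) (hg : ∀ a, 1 ≤ g a)
    (h : ∀ a ∈ s, min (B : ℕ∞) (f a) = min (B : ℕ∞) (g a)) :
    min (B : ℕ∞) (∏ a ∈ s, f a) = min (B : ℕ∞) (∏ a ∈ s, g a) := by
  classical
  induction s using Finset.induction_on with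
  | empty => simp
  | insert a s ha ih =>
    rw [Finset.prod_insert ha, Finset.prod_insert ha]
    exact min_mul_congr (hf a) (hg a) (Finset.one_le_prod' fun i _ => hf i)
      (Finset.one_le_prod' fun i _ => hg i) (h a (Finset.mem_insert_self _ _))
      (ih fun b hb => h b (Finset.mem_insert_of_mem hb))

theorem le_tprodE {ι : Type} {J : Set ι} (f : ι → ℕ∞) {F : Finset ι} (hF : (F : Set ι) ⊆ J) :
    ∏ j ∈ F, f j ≤ tprodE J f :=
  le_iSup₂_of_le (f := fun (F : Finset ι) (_ : (F : Set ι) ⊆ J) => ∏ j ∈ F, f j) F hF le_rfl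

theorem tprodE_le {ι : Type} {J : Set ι} {f : ι → ℕ∞} {x : ℕ∞}
    (h : ∀ F : Finset ι, (F : Set ι) ⊆ J → ∏ j ∈ F, f j ≤ x) : tprodE J f ≤ x :=
  iSup₂_le h

theorem one_le_tprodE {ι : Type} (J : Set ι) (f : ι → ℕ∞) : 1 ≤ tprodE J f := by
  simpa using le_tprodE f (J := J) (F := ∅) (by simp)

theorem tprodE_congr {ι : Type} {J : Set ι} {f g : ι → ℕ∞} (h : ∀ j ∈ J, f j = g j) :
    tprodE J f = tprodE J g := by
  unfold tprodE
  refine iSup_congr fun F => iSup_congr fun hF => Finset.prod_congr rfl fun j hj => h j (hF hj)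

theorem tprodE_finset {ι : Type} (F : Finset ι) {f : ι → ℕ∞} (h : ∀ j, 1 ≤ f j) :
    tprodE (F : Set ι) f = ∏ j ∈ F, f j :=
  le_antisymm (tprodE_le fun _ hG => Finset.prod_le_prod_of_subset_of_one_le'
    (Finset.coe_subset.1 hG) fun i _ _ => h i) (le_tprodE f le_rfl)

/-- A truncated value of `tprodE` is attained. -/
theorem exists_tprodE {ι : Type} (J : Set ι) (f : ι → ℕ∞) (B : ℕ) :
    ∃ F : Finset ι, (F : Set ι) ⊆ J ∧ min (B : ℕ∞) (tprodE J f) ≤ ∏ j ∈ F, f j := by
  by_contra h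
  push Not at h
  have hne : min (B : ℕ∞) (tprodE J f) ≠ ⊤ :=
    ne_top_of_le_ne_top (ENat.natCast_ne_top B) (min_le_left _ _)
  obtain ⟨m, hm⟩ := ENat.ne_top_iff_exists.1 hne
  have h0 := h ∅ (by simp)
  rw [← hm] at h0 h
  cases m with
  | zero => simp at h0
  | succ m =>
    have : tprodE J f ≤ m := tprodE_le fun F hF => by
      have := h F hF
      rw [Nat.cast_succ] at this
      exact Order.le_of_lt_add_one this
    have h2 : ((m + 1 : ℕ) : ℕ∞) ≤ m := (hm.le.trans (min_le_right _ _)).trans this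
    exact absurd (Nat.cast_le.1 h2) (by omega)

theorem tprodE_mul {ι : Type} (J : Set ι) {f g : ι → ℕ∞} (hf : ∀ j, 1 ≤ f j)
    (hg : ∀ j, 1 ≤ g j) : tprodE J (fun j => f j * g j) = tprodE J f * tprodE J g := by
  classical
  refine le_antisymm (tprodE_le fun F hF => ?_) ?_
  · rw [Finset.prod_mul_distrib]
    exact mul_le_mul' (le_tprodE f hF) (le_tprodE g hF)
  · unfold tprodE
    rw [ENat.iSup_mul]
    refine iSup_le fun F => ?_
    rw [ENat.iSup_mul]
    refine iSup_le fun hF => ?_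
    rw [ENat.mul_iSup]
    refine iSup_le fun G => ?_
    rw [ENat.mul_iSup]
    refine iSup_le fun hG => ?_
    refine le_trans ?_ (le_tprodE (fun j => f j * g j) (F := F ∪ G)
      (by rw [Finset.coe_union]; exact Set.union_subset hF hG))
    rw [Finset.prod_mul_distrib]
    exact mul_le_mul'
      (Finset.prod_le_prod_of_subset_of_one_le' Finset.subset_union_left fun i _ _ => hf i)
      (Finset.prod_le_prod_of_subset_of_one_le' Finset.subset_union_right fun i _ _ => hg i)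

end trunc

section chain
variable {M : Type} [AddCommGroup M] {ι : Type} [LinearOrder ι]

/-- Disjoint intervals of a chain give a lower bound for the index. -/
theorem prod_le_eidx (lo hi : ι → AddSubgroup M) (F : Finset ι) (hle : ∀ i ∈ F, lo i ≤ hi i)
    (hch : ∀ i ∈ F, ∀ j ∈ F, i < j → hi i ≤ lo j) (C A : AddSubgroup M)
    (hC : ∀ i ∈ F, C ≤ lo i) (hA : ∀ i ∈ F, hi i ≤ A) :
    ∏ i ∈ F, eidx (lo i) (hi i) ≤ eidx C A := by
  classical
  induction F using Finset.induction_on_max generalizing A with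
  | empty => simpa using one_le_eidx C A
  | insert m F hm ih =>
    have hmF : m ∉ F := fun h => lt_irrefl _ (hm m h)
    have mm := Finset.mem_insert_self m F
    rw [Finset.prod_insert hmF, eidx_mul (hC m mm) ((hle m mm).trans (hA m mm)), mul_comm]
    exact mul_le_mul' (ih (fun i hi => hle i (Finset.mem_insert_of_mem hi))
      (fun i hi j hj => hch i (Finset.mem_insert_of_mem hi) j (Finset.mem_insert_of_mem hj)) _
      (fun i hi => hC i (Finset.mem_insert_of_mem hi))
      fun i hi => hch i (Finset.mem_insert_of_mem hi) m mm (hm i hi)) (eidx_mono _ (hA m mm))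

/-- If the intervals in `F` cover, the index is the product. -/
theorem eidx_le_prod (lo hi : ι → AddSubgroup M) (F : Finset ι) (hle : ∀ i ∈ F, lo i ≤ hi i)
    (hch : ∀ i ∈ F, ∀ j ∈ F, i < j → hi i ≤ lo j) (C A : AddSubgroup M) (hCA : C ≤ A)
    (hC : ∀ i ∈ F, C ≤ lo i) (hA : ∀ i ∈ F, hi i ≤ A)
    (hcov : ∀ x ∈ A, x ∉ C → ∃ i ∈ F, x ∈ hi i ∧ x ∉ lo i) :
    eidx C A ≤ ∏ i ∈ F, eidx (lo i) (hi i) := by
  classical
  induction F using Finset.induction_on_max generalizing A with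
  | empty =>
    rw [Finset.prod_empty]
    refine (eidx_eq_one.2 fun x hx => ?_).le
    by_contra h
    simpa using hcov x hx h
  | insert m F hm ih =>
    have hmF : m ∉ F := fun h => lt_irrefl _ (hm m h)
    have mm := Finset.mem_insert_self m F
    have hAm : A = hi m := by
      refine le_antisymm (fun x hx => ?_) (hA m mm)
      by_cases hx' : x ∈ C
      · exact hle m mm (hC m mm hx')
      obtain ⟨i, hi', h1, -⟩ := hcov x hx hx'
      rcases Finset.mem_insert.1 hi' with rfl | hi''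
      · exact h1
      · exact hle m mm (hch i hi' m mm (hm i hi'') h1)
    subst hAm
    rw [Finset.prod_insert hmF, eidx_mul (hC m mm) (hle m mm), mul_comm]
    refine mul_le_mul' le_rfl (ih (fun i hi => hle i (Finset.mem_insert_of_mem hi))
      (fun i hi j hj => hch i (Finset.mem_insert_of_mem hi) j (Finset.mem_insert_of_mem hj)) _
      (hC m mm) (fun i hi => hC i (Finset.mem_insert_of_mem hi))
      (fun i hi => hch i (Finset.mem_insert_of_mem hi) m mm (hm i hi)) fun x hx hx' => ?_)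
    obtain ⟨i, hi', h1, h2⟩ := hcov x (hle m mm hx) hx'
    rcases Finset.mem_insert.1 hi' with rfl | hi''
    · exact absurd hx h2
    · exact ⟨i, hi'', h1, h2⟩

/-- The product formula for a covering chain of intervals. -/
theorem eidx_eq_tprodE (lo hi : ι → AddSubgroup M) (J : Set ι) (hle : ∀ i ∈ J, lo i ≤ hi i)
    (hch : ∀ i ∈ J, ∀ j ∈ J, i < j → hi i ≤ lo j) (C A : AddSubgroup M) (hCA : C ≤ A)
    (hC : ∀ i ∈ J, C ≤ lo i) (hA : ∀ i ∈ J, hi i ≤ A)
    (hcov : ∀ x ∈ A, x ∉ C → ∃ i ∈ J, x ∈ hi i ∧ x ∉ lo i) :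
    eidx C A = tprodE J fun i => eidx (lo i) (hi i) := by
  classical
  refine le_antisymm ?_ (tprodE_le fun F hF => prod_le_eidx lo hi F (fun i h => hle i (hF h))
    (fun i h j h' => hch i (hF h) j (hF h')) C A (fun i h => hC i (hF h)) fun i h => hA i (hF h))
  by_cases hfin : {i | i ∈ J ∧ ¬ hi i ≤ lo i}.Finite
  · have hF : (hfin.toFinset : Set ι) ⊆ J := fun i h => by
      have := hfin.mem_toFinset.1 h
      exact this.1
    refine (eidx_le_prod lo hi hfin.toFinset (fun i h => hle i (hF h))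
      (fun i h j h' => hch i (hF h) j (hF h')) C A hCA (fun i h => hC i (hF h))
      (fun i h => hA i (hF h)) fun x hx hx' => ?_).trans (le_tprodE _ hF)
    obtain ⟨i, hi', h1, h2⟩ := hcov x hx hx'
    exact ⟨i, hfin.mem_toFinset.2 ⟨hi', fun h => h2 (h h1)⟩, h1, h2⟩
  · refine le_top.trans (ENat.eq_top_iff_forall_ge.2 fun n => ?_).ge
    obtain ⟨F, hF, hc⟩ := Set.Infinite.exists_subset_card_eq hfin n
    refine le_trans ?_ (le_tprodE _ (F := F) fun i h => (hF h).1)
    have h2 : ∀ i ∈ F, (2 : ℕ∞) ≤ eidx (lo i) (hi i) := fun i h => by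
      have h1 : 1 < eidx (lo i) (hi i) :=
        lt_of_le_of_ne (one_le_eidx _ _) fun e => (hF h).2 (eidx_eq_one.1 e.symm)
      exact Order.add_one_le_of_lt h1
    refine le_trans ?_ (Finset.prod_le_prod' h2)
    rw [Finset.prod_const, hc]
    exact_mod_cast (Nat.lt_two_pow_self (n := n)).le

/-- Zassenhaus: the trace of an interval on a pair `C ≤ A`, seen from either side. -/
theorem eidx_zass {C A L H : AddSubgroup M} (hCA : C ≤ A) (hLH : L ≤ H) :
    eidx (A ⊓ L ⊔ C) (A ⊓ H ⊔ C) = eidx (C ⊓ H ⊔ L) (A ⊓ H ⊔ L) := by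
  have k1 : ∀ {C L : AddSubgroup M} (X : AddSubgroup M), X ≤ A ⊓ H →
      eidx (X ⊔ C) (A ⊓ H ⊔ C) = eidx (X ⊔ C) (A ⊓ H) := by
    intro C L X hX
    rw [← eidx_sup (X ⊔ C) (A ⊓ H), ← sup_assoc, sup_eq_left.2 hX]
  rw [k1 (L := L) _ (inf_le_inf_left A hLH), k1 (L := L) _ (inf_le_inf_right H hCA),
    ← eidx_inf (A ⊓ L ⊔ C), ← eidx_inf (C ⊓ H ⊔ L)]
  congr 1
  refine le_antisymm ?_ ?_
  · rintro x ⟨hx, hA, hH⟩
    obtain ⟨u, hu, v, hv, rfl⟩ := AddSubgroup.mem_sup.1 hx
    refine ⟨AddSubgroup.mem_sup.2 ⟨v, ⟨hv, ?_⟩, u, hu.2, add_comm _ _⟩, hA, hH⟩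
    have hH' : u + v ∈ H := hH
    simpa using sub_mem hH' (hLH hu.2)
  · rintro x ⟨hx, hA, hH⟩
    obtain ⟨u, hu, v, hv, rfl⟩ := AddSubgroup.mem_sup.1 hx
    refine ⟨AddSubgroup.mem_sup.2 ⟨v, ⟨?_, hv⟩, u, hu.1, add_comm _ _⟩, hA, hH⟩
    have hA' : u + v ∈ A := hA
    simpa using sub_mem hA' (hCA hu.1)

end chain

section pp
variable {R : Type} [Ring R] {M M' : Type} [AddCommGroup M] [Module R M] [AddCommGroup M']
  [Module R M']

theorem PP.map_mem (φ : PP R) (f : M →ₗ[R] M') {x : M} (hx : x ∈ φ.set M) : f x ∈ φ.set M' := by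
  obtain ⟨y, hy⟩ := hx
  refine ⟨fun k => f (y k), fun i => ?_⟩
  have := congrArg f (hy i)
  simpa [map_sum] using this

theorem PP.mem_and {φ ψ : PP R} {x : M} :
    x ∈ (φ.and ψ).set M ↔ x ∈ φ.set M ∧ x ∈ ψ.set M := by
  constructor
  · rintro ⟨y, hy⟩
    refine ⟨⟨fun k => y (.inl k), fun i => ?_⟩, ⟨fun k => y (.inr k), fun i => ?_⟩⟩
    · have := hy (.inl i)
      erw [Fintype.sum_sum_type] at this
      simpa [PP.and] using this
    · have := hy (.inr i)
      erw [Fintype.sum_sum_type] at this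
      simpa [PP.and] using this
  · rintro ⟨⟨y, hy⟩, ⟨y', hy'⟩⟩
    refine ⟨Sum.elim y y', ?_⟩
    rintro (i | i)
    · erw [Fintype.sum_sum_type]
      simpa [PP.and] using hy i
    · erw [Fintype.sum_sum_type]
      simpa [PP.and] using hy' i

theorem PP.set_and (φ ψ : PP R) : (φ.and ψ).set M = φ.set M ⊓ ψ.set M :=
  AddSubgroup.ext fun _ => PP.mem_and

theorem PP.and_le (φ ψ : PP R) : (φ.and ψ).Le φ := fun _ _ _ _ hx => (PP.mem_and.1 hx).1

theorem ind_and (φ ψ : PP R) : ind φ (φ.and ψ) M = ind φ ψ M := by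
  unfold ind
  rw [PP.set_and, inf_comm, eidx_inf]

theorem one_le_ind (φ ψ : PP R) : 1 ≤ ind φ ψ M := one_le_eidx _ _

/-- A retract: the invariants are computed inside the big module. -/
theorem ind_retract (φ ψ : PP R) (i : M →ₗ[R] M') (p : M' →ₗ[R] M) (h : ∀ x, p (i x) = x) :
    ind φ ψ M = eidx (ψ.set M') (φ.set M' ⊓ (LinearMap.range i).toAddSubgroup) :=
  eidx_eq_of_map i.toAddMonoidHom (fun x hx => ⟨φ.map_mem i hx, x, rfl⟩)
    (fun x _ => ⟨fun hx => h x ▸ ψ.map_mem p hx, fun hx => ψ.map_mem i hx⟩) fun y hy => by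
      obtain ⟨hy, x, rfl⟩ := hy
      exact ⟨x, h x ▸ φ.map_mem p hy, by simp⟩

theorem ind_congr (φ ψ : PP R) (e : M ≃ₗ[R] M') : ind φ ψ M = ind φ ψ M' := by
  rw [ind_retract φ ψ e.toLinearMap e.symm.toLinearMap (by simp), LinearEquiv.range]
  simp [ind]

theorem PP.set_prod (φ : PP R) : φ.set (M × M') = (φ.set M).prod (φ.set M') := by
  ext x
  constructor
  · intro hx
    exact ⟨φ.map_mem (LinearMap.fst R M M') hx, φ.map_mem (LinearMap.snd R M M') hx⟩
  · rintro ⟨h1, h2⟩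
    have := add_mem (φ.map_mem (LinearMap.inl R M M') h1) (φ.map_mem (LinearMap.inr R M M') h2)
    simpa using this

theorem ind_prod (φ ψ : PP R) : ind φ ψ (M × M') = ind φ ψ M * ind φ ψ M' := by
  unfold ind
  rw [PP.set_prod, PP.set_prod, eidx_prod]

theorem ind_subsingleton (φ ψ : PP R) [Subsingleton M] : ind φ ψ M = 1 :=
  eidx_eq_one.2 fun x _ => Subsingleton.elim 0 x ▸ zero_mem _

/-- The direct sum of a list of modules. -/
theorem exists_sum (Cs : List (ModuleCat.{0} R)) : ∃ C : ModuleCat.{0} R, ∀ φ ψ : PP R,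
    ind φ ψ C = (Cs.map fun C : ModuleCat.{0} R => ind φ ψ C).prod := by
  induction Cs with
  | nil => exact ⟨ModuleCat.of R PUnit, fun φ ψ => ind_subsingleton φ ψ⟩
  | cons C Cs ih =>
    obtain ⟨C', h⟩ := ih
    refine ⟨ModuleCat.of R (C × C'), fun φ ψ => ?_⟩
    rw [List.map_cons, List.prod_cons, ← h]
    exact ind_prod φ ψ

/-- Membership in the preimage of a pp subgroup under a surjection. -/
theorem PP.mem_of_surj (φ : PP R) (f : M →ₗ[R] M') (hf : Function.Surjective f) (x : M) :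
    f x ∈ φ.set M' ↔ ∃ y : φ.κ → M, ∀ i, f (φ.h i • x + ∑ k, φ.H i k • y k) = 0 := by
  constructor
  · rintro ⟨y, hy⟩
    choose y' hy' using fun k => hf (y k)
    exact ⟨y', fun i => by simpa [map_sum, hy'] using hy i⟩
  · rintro ⟨y, hy⟩
    exact ⟨fun k => f (y k), fun i => by simpa [map_sum] using hy i⟩

/-- Central elements preserve pp subgroups. -/
theorem PP.smul_mem_of_central (φ : PP R) {c : R} (hc : ∀ r, r * c = c * r) {x : M}
    (hx : x ∈ φ.set M) : c • x ∈ φ.set M := by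
  obtain ⟨y, hy⟩ := hx
  refine ⟨fun k => c • y k, fun i => ?_⟩
  have := congrArg (c • ·) (hy i)
  simp only [smul_add, Finset.smul_sum, smul_smul, smul_zero] at this
  simpa only [smul_smul, hc] using this

/-- Every pp formula is, up to a nonzero scalar, the image of a ring element. -/
theorem exists_E {D : Type} [CommRing D] [IsDomain D] [Algebra D R] (hreg : Reg D R)
    (φ : PP R) : ∃ (E : R) (n : D), n ≠ 0 ∧ ∀ (M : Type) [AddCommGroup M] [Module R M],
      (∀ x : M, E • x ∈ φ.set M) ∧ ∀ x ∈ φ.set M, E • x = algebraMap D R n • x := by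
  classical
  obtain ⟨Y, n, hn, hY⟩ := hreg φ.ι φ.κ (Matrix.of φ.H)
  let k : Matrix φ.ι Unit R := Matrix.of fun i _ =>
    algebraMap D R n * φ.h i - ∑ l, (Matrix.of φ.H * Y) i l * φ.h l
  obtain ⟨y', n', hn', hy'⟩ := hreg φ.ι Unit k
  let E0 : R := algebraMap D R n' - ∑ i, y' () i * k i ()
  have hkE : ∀ i, k i () * E0 = 0 := fun i => by
    have := congrFun (congrFun hy' i) ()
    rw [Matrix.mul_assoc, Matrix.mul_apply, Matrix.smul_apply] at this
    simp only [Finset.univ_unique, Finset.sum_singleton, Matrix.mul_apply] at this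
    simp only [E0, mul_sub]
    rw [← Algebra.commutes, ← Algebra.smul_def, ← this, sub_self]
  refine ⟨algebraMap D R n * E0, n * n', mul_ne_zero hn hn', fun M _ _ => ⟨fun x => ?_, ?_⟩⟩
  · refine ⟨fun l => -∑ i, (Y l i * φ.h i * E0) • x, fun i => ?_⟩
    have h0 : (k i () * E0) • x = 0 := by rw [hkE, zero_smul]
    rw [← h0]
    simp only [k, Matrix.of_apply, Matrix.mul_apply, sub_mul, sub_smul, Finset.sum_mul,
      Finset.sum_smul, smul_neg, Finset.smul_sum, smul_smul, Finset.sum_neg_distrib]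
    rw [Finset.sum_comm, ← mul_assoc, ← Algebra.commutes, sub_eq_add_neg]
    simp only [mul_assoc]
  · rintro x ⟨y, hy⟩
    have hk : ∀ i, k i () • x = 0 := fun i => by
      have e1 : ∀ l, φ.h l • x = -∑ m, φ.H l m • y m := fun l => eq_neg_of_add_eq_zero_left (hy l)
      have e2 : ∀ m, ∑ l, (Matrix.of φ.H * Y) i l * φ.H l m = algebraMap D R n * φ.H i m :=
        fun m => by
          have := congrFun (congrFun hY i) m
          rw [Matrix.mul_apply, Matrix.smul_apply, Algebra.smul_def] at this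
          exact this
      simp only [k, Matrix.of_apply, sub_smul, Finset.sum_smul, mul_smul, e1, smul_neg,
        Finset.smul_sum, Finset.sum_neg_distrib]
      rw [Finset.sum_comm]
      simp only [smul_smul, ← Finset.sum_smul, e2, sub_self]
    rw [mul_smul, map_mul, mul_smul]
    congr 1
    simp only [E0, sub_smul, Finset.sum_smul, mul_smul, hk, smul_zero, Finset.sum_const_zero,
      sub_zero]

end pp

end Pool.Agent.Lib.MP_c13fce_lc
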