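import Pool.Agent.Lib.MP_c13fce_lc.Defs3
import Pool.Agent.Lib.MP_c13fce_lc.Kit

/-! Duals, annihilators, trajectories, graph maps: definitions. -/

namespace Pool.Agent.Lib.MP_c13fce_lc

open scoped BigOperators

section Du
variable {D : Type} [CommRing D] [IsDomain D] {A B : Type} [AddCommGroup A] [Module D A]
  [AddCommGroup B] [Module D B]

/-- The dual with values in `K / D`. -/
abbrev Du (D : Type) [CommRing D] [IsDomain D] (A : Type) [AddCommGroup A] [Module D A] : Type :=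
  A →ₗ[D] Inj D

/-- The dual map. -/
def du (f : A →ₗ[D] B) : Du D B →ₗ[D] Du D A := LinearMap.lcomp D (Inj D) f

@[simp] theorem du_apply (f : A →ₗ[D] B) (χ : Du D B) (x : A) : du f χ x = χ (f x) := rfl

/-- The annihilator of a submodule. -/
def ann (Y : Submodule D A) : Submodule D (Du D A) where
  carrier := {χ | ∀ y ∈ Y, χ y = 0}
  zero_mem' := fun _ _ => rfl
  add_mem' := fun {χ χ'} h h' y hy => by simp [h y hy, h' y hy]
  smul_mem' := fun c χ h y hy => by simp [h y hy]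

theorem mem_ann {Y : Submodule D A} {χ : Du D A} : χ ∈ ann Y ↔ ∀ y ∈ Y, χ y = 0 := Iff.rfl

/-- The double dual. -/
abbrev DD (D : Type) [CommRing D] [IsDomain D] (A : Type) [AddCommGroup A] [Module D A] : Type :=
  Du D (Du D A)

/-- Evaluation. -/
def ev : A →ₗ[D] DD D A := LinearMap.applyₗ

@[simp] theorem ev_apply (x : A) (χ : Du D A) : ev (D := D) x χ = χ x := rfl

end Du

section DDmod
variable {D Λ : Type} [CommRing D] [IsDomain D] [Ring Λ] [Algebra D Λ] {M : Type}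
  [AddCommGroup M] [Module Λ M] [Module D M] [IsScalarTower D Λ M]

/-- The double dual is a module over the ring. -/
noncomputable instance (priority := 50) ddModule : Module Λ (DD D M) where
  smul r ξ := du (du (act D M r)) ξ
  one_smul ξ := LinearMap.ext fun χ => congrArg ξ (LinearMap.ext fun x => congrArg χ (one_smul Λ x))
  mul_smul r s ξ := LinearMap.ext fun χ =>
    congrArg ξ (LinearMap.ext fun x => congrArg χ (mul_smul r s x))
  smul_zero r := map_zero (du (du (act D M r)))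
  smul_add r := map_add (du (du (act D M r)))
  add_smul r s ξ := LinearMap.ext fun χ => by
    change ξ (du (act D M (r + s)) χ) = ξ (du (act D M r) χ) + ξ (du (act D M s) χ)
    rw [← map_add]
    exact congrArg ξ (LinearMap.ext fun x => by simp [add_smul])
  zero_smul ξ := LinearMap.ext fun χ => by
    change ξ (du (act D M 0) χ) = 0
    rw [← map_zero ξ]
    exact congrArg ξ (LinearMap.ext fun x => by simp)

theorem dd_smul_apply (r : Λ) (ξ : DD D M) (χ : Du D M) :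
    (r • ξ) χ = ξ (du (act D M r) χ) := rfl

instance ddTower : IsScalarTower D Λ (DD D M) where
  smul_assoc d r ξ := LinearMap.ext fun χ => by
    rw [LinearMap.smul_apply, dd_smul_apply, dd_smul_apply, ← map_smul]
    exact congrArg ξ (LinearMap.ext fun x => by simp)

theorem act_dd (r : Λ) : act D (DD D M) r = du (du (act D M r)) := rfl

end DDmod

section ATraj
variable {D : Type} [CommRing D] {A : Type} [AddCommGroup A] [Module D A]

/-- The least solution of the recursion. -/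
def mn (α β : A →ₗ[D] A) (u : Wd) : Submodule D A := ⨆ n, lo α β n u

/-- Trajectories for a pair of endomorphisms. -/
def ATraj (α β : A →ₗ[D] A) (J : Set ℤ) (w : ℤ → Bool) (x : ℤ → A) : Prop :=
  (∀ j, j ∉ J → x j = 0) ∧
    (∀ j, j ∈ J → α (x j) = if w (j - 1) = true then x (j - 1) else 0) ∧
    (∀ j, j ∈ J → β (x j) = if w j = true then 0 else x (j + 1))

variable {α β : A →ₗ[D] A}

/-- Homogeneous elements at a position. -/
noncomputable def Sys.Qa (Y : Sys α β) (J : Set ℤ) (w : ℤ → Bool) (j : ℤ) : Submodule D A :=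
  Y.Q (rwd J w j) (lwd J w j)
/-- Lower end of the interval at a position. -/
noncomputable def Sys.Ga (Y : Sys α β) (J : Set ℤ) (w : ℤ → Bool) (j : ℤ) : Submodule D A :=
  Y.Gm (rwd J w j) (lwd J w j)

/-- The group of homogeneous trajectories. -/
noncomputable def Sys.trajG (Y : Sys α β) (J : Set ℤ) (w : ℤ → Bool) : AddSubgroup (ℤ → A) where
  carrier := {x | ATraj α β J w x ∧ ∀ j ∈ J, x j ∈ Y.Qa J w j}
  zero_mem' := ⟨⟨fun _ _ => rfl, fun j _ => by simp, fun j _ => by simp⟩, fun j _ => zero_mem _⟩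
  add_mem' := fun {x y} hx hy => ⟨⟨fun j hj => by simp [hx.1.1 j hj, hy.1.1 j hj], fun j hj => by
      simp only [Pi.add_apply, map_add, hx.1.2.1 j hj, hy.1.2.1 j hj]
      split_ifs <;> simp, fun j hj => by
      simp only [Pi.add_apply, map_add, hx.1.2.2 j hj, hy.1.2.2 j hj]
      split_ifs <;> simp⟩, fun j hj => add_mem (hx.2 j hj) (hy.2 j hj)⟩
  neg_mem' := fun {x} hx => ⟨⟨fun j hj => by simp [hx.1.1 j hj], fun j hj => by
      simp only [Pi.neg_apply, map_neg, hx.1.2.1 j hj]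
      split_ifs <;> simp, fun j hj => by
      simp only [Pi.neg_apply, map_neg, hx.1.2.2 j hj]
      split_ifs <;> simp⟩, fun j hj => neg_mem (hx.2 j hj)⟩

end ATraj

/-- Sets of positions closed under the action of `a` and `b`. -/
def Dn (J : Set ℤ) (w : ℤ → Bool) (Γ : Set ℤ) : Prop :=
  ∀ j ∈ Γ, j ∈ J → (w (j - 1) = true → j - 1 ∈ J → j - 1 ∈ Γ) ∧
    (w j = false → j + 1 ∈ J → j + 1 ∈ Γ)

/-- A position whose generator is killed by `a` and `b`. -/
def Deep (J : Set ℤ) (w : ℤ → Bool) (n : ℤ) : Prop :=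
  n ∈ J ∧ (w (n - 1) = false ∨ n - 1 ∉ J) ∧ (w n = true ∨ n + 1 ∉ J)

/-- The conditions under which `e j ↦ e (j + δ)` for `j ∈ ρ`, `e j ↦ 0` otherwise, is a map. -/
def GraphOK (J : Set ℤ) (w : ℤ → Bool) (J' : Set ℤ) (w' : ℤ → Bool) (ρ : Set ℤ) (δ : ℤ) : Prop :=
  ρ ⊆ J ∧ (∀ j ∈ ρ, j + δ ∈ J' ∧
    ((w (j - 1) = true ∧ j - 1 ∈ ρ) ↔ (w' (j + δ - 1) = true ∧ j + δ - 1 ∈ J')) ∧
    ((w j = false ∧ j + 1 ∈ ρ) ↔ (w' (j + δ) = false ∧ j + δ + 1 ∈ J'))) ∧
  ∀ j ∈ J, j ∉ ρ → ¬ (w (j - 1) = true ∧ j - 1 ∈ ρ) ∧ ¬ (w j = false ∧ j + 1 ∈ ρ)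

section Fam
variable {D Λ S : Type} [CommRing D] [IsDomain D] [Ring Λ] [Algebra D Λ] [Ring S] [Algebra D S]
  (Δ : SD D Λ S)

/-- A family of ring elements lifting the twists of `s` and compatible with the edges. -/
def SD.Fam (w : ℤ → Bool) (s : S) (ρ : ℤ → Λ) : Prop :=
  (∀ j, Δ.q (ρ j) = Δ.tw w j s) ∧ (∀ j, w j = true → Δ.a * ρ (j + 1) = ρ j * Δ.a) ∧
    ∀ j, w j = false → ρ (j + 1) = ρ j

/-- Dual trajectories: families of characters. -/
def SD.DTraj (J : Set ℤ) (w : ℤ → Bool) {N : Type} [AddCommGroup N] [Module Λ N] [Module D N]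
    (χ : ℤ → Du D N) : Prop :=
  (∀ j, j ∉ J → χ j = 0) ∧
    (∀ j, j ∈ J → ∀ x, χ j (Δ.a • x) = if w j = true then χ (j + 1) x else 0) ∧
    (∀ j, j ∈ J → ∀ x, χ j (Δ.b • x) = if w (j - 1) = true then 0 else χ (j - 1) x)

/-- A dual basis of a string module. -/
structure SD.DualBasis (J : Set ℤ) (w : ℤ → Bool) where
  χ : ℤ → Du D (St Δ.a Δ.b J w)
  traj : Δ.DTraj J w χ
  diag : ∀ j ∈ J, ∀ r : Λ, χ j (r • stE Δ.a Δ.b J w j) = Δ.κ (Δ.q r)
  tri : ∀ Γ, Dn J w Γ → ∀ i ∈ Γ, ∀ j, j ∉ Γ → ∀ r : Λ, χ j (r • stE Δ.a Δ.b J w i) = 0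

end Fam

section DDsys
variable {D Λ S : Type} [CommRing D] [IsDomain D] [Ring Λ] [Algebra D Λ] [Ring S] [Algebra D S]
  (Δ : SD D Λ S) (M : Type) [AddCommGroup M] [Module Λ M] [Module D M] [IsScalarTower D Λ M]

/-- The properties of the canonical system on the double dual. -/
structure IsDDSys (Y : Sys (act D (DD D M) Δ.a) (act D (DD D M) Δ.b)) : Prop where
  Rm : ∀ u, Y.Rm u = ann (ann (mn (act D M Δ.a) (act D M Δ.b) u))
  Rp : ∀ u, Y.Rp u = ann (mn (du (act D M Δ.b)) (du (act D M Δ.a)) u.flip)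
  Lm : ∀ u, Y.Lm u = mn (act D (DD D M) Δ.b) (act D (DD D M) Δ.a) u
  Lp : ∀ u, Y.Lp u = ann (mn (du (act D M Δ.a)) (du (act D M Δ.b)) u.flip)
  stable : Y.Stable Λ

end DDsys

end Pool.Agent.Lib.MP_c13fce_lc
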