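import Pool.Agent.Lib.MP_c13fce_lc.DualB

/-! Definitions for the local theorem. -/

namespace Pool.Agent.Lib.MP_c13fce_lc

/-- Pairs of normal words. -/
def NP : Set Pnt := {p | Wd.Nrm (ofLex (ofLex p).1) ∧ Wd.Nrm (ofLex (ofLex p).2)}

/-- The subgroup `U V`. -/
def rsub {S : Type} [Ring S] (U : AddSubgroup S) (V : Type) [AddCommGroup V] [Module S V] :
    AddSubgroup V := AddSubgroup.closure {y | ∃ s ∈ U, ∃ v : V, y = s • v}

/-- The local index at a pair of words. -/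
noncomputable def Sys.lidx {D : Type} [CommRing D] {A : Type} [AddCommGroup A] [Module D A]
    {α β : A →ₗ[D] A} (Y : Sys α β) (C B : AddSubgroup A) (p : Pnt) : ℕ∞ :=
  eidx (C ⊓ (Y.Gp (ofLex (ofLex p).1) (ofLex (ofLex p).2)).toAddSubgroup ⊔
      (Y.Gm (ofLex (ofLex p).1) (ofLex (ofLex p).2)).toAddSubgroup)
    (B ⊓ (Y.Gp (ofLex (ofLex p).1) (ofLex (ofLex p).2)).toAddSubgroup ⊔
      (Y.Gm (ofLex (ofLex p).1) (ofLex (ofLex p).2)).toAddSubgroup)

end Pool.Agent.Lib.MP_c13fce_lc
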