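import Pool.Agent.Lib.MP_c13fce_lc.Defs4

/-! Duality with values in `K / D`. -/

namespace Pool.Agent.Lib.MP_c13fce_lc
open scoped BigOperators
set_option linter.unusedSectionVars false
set_option linter.unusedVariables false

section
variable {D : Type} [CommRing D] [IsDomain D]

theorem inj_div (d : D) (hd : d ≠ 0) (t : Inj D) : ∃ t' : Inj D, d • t' = t := by
  obtain ⟨k, rfl⟩ := Submodule.Quotient.mk_surjective _ t
  refine ⟨Submodule.Quotient.mk ((algebraMap D (FractionRing D) d)⁻¹ * k), ?_⟩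
  have h : algebraMap D (FractionRing D) d ≠ 0 := by
    rwa [Ne, IsFractionRing.to_map_eq_zero_iff]
  rw [← Submodule.Quotient.mk_smul, Algebra.smul_def, mul_inv_cancel_left₀ h]

/-- The class of `1 / d`. -/
noncomputable def invC (d : D) : Inj D :=
  Submodule.Quotient.mk ((algebraMap D (FractionRing D) d)⁻¹)

theorem smul_invC_eq_zero {d : D} (hd : d ≠ 0) (r : D) : r • invC d = 0 ↔ d ∣ r := by
  have h : algebraMap D (FractionRing D) d ≠ 0 := by
    rwa [Ne, IsFractionRing.to_map_eq_zero_iff]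
  rw [invC, ← Submodule.Quotient.mk_smul, Submodule.Quotient.mk_eq_zero, Algebra.smul_def]
  constructor
  · rintro ⟨c, hc⟩
    refine ⟨c, IsFractionRing.injective D (FractionRing D) ?_⟩
    rw [Algebra.linearMap_apply] at hc
    rw [map_mul, hc]
    field_simp
  · rintro ⟨c, rfl⟩
    refine ⟨c, ?_⟩
    rw [Algebra.linearMap_apply, map_mul]
    field_simp

theorem exists_smul_invC {d : D} (hd : d ≠ 0) {t : Inj D} (ht : d • t = 0) :
    ∃ r : D, r • invC d = t := by
  have h : algebraMap D (FractionRing D) d ≠ 0 := by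
    rwa [Ne, IsFractionRing.to_map_eq_zero_iff]
  obtain ⟨k, rfl⟩ := Submodule.Quotient.mk_surjective _ t
  rw [← Submodule.Quotient.mk_smul, Submodule.Quotient.mk_eq_zero, Algebra.smul_def] at ht
  obtain ⟨c, hc⟩ := ht
  refine ⟨c, ?_⟩
  rw [Algebra.linearMap_apply] at hc
  rw [invC, ← Submodule.Quotient.mk_smul, Algebra.smul_def, hc]
  congr 1
  field_simp

variable {A B C : Type} [AddCommGroup A] [Module D A] [AddCommGroup B] [Module D B]
  [AddCommGroup C] [Module D C]

theorem du_comp (f : A →ₗ[D] B) (g : B →ₗ[D] C) : du (g ∘ₗ f) = du f ∘ₗ du g := rfl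

theorem ann_anti {Y Y' : Submodule D A} (h : Y ≤ Y') : ann Y' ≤ ann Y :=
  fun _ hχ y hy => hχ y (h hy)

theorem ann_bot : ann (⊥ : Submodule D A) = ⊤ := by
  refine eq_top_iff.2 fun χ _ y hy => ?_
  rw [(Submodule.mem_bot D).1 hy, map_zero]

theorem ann_top : ann (⊤ : Submodule D A) = ⊥ :=
  eq_bot_iff.2 fun χ hχ => (Submodule.mem_bot D).2 (LinearMap.ext fun x => hχ x trivial)

theorem ann_iSup {ι : Type} (Y : ι → Submodule D A) : ann (⨆ i, Y i) = ⨅ i, ann (Y i) := by
  refine le_antisymm (le_iInf fun i => ann_anti (le_iSup Y i)) fun χ hχ y hy => ?_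
  have : (⨆ i, Y i) ≤ LinearMap.ker χ :=
    iSup_le fun i z hz => (Submodule.mem_iInf _).1 hχ i z hz
  exact this hy

theorem ann_sup (Y Y' : Submodule D A) : ann (Y ⊔ Y') = ann Y ⊓ ann Y' := by
  refine le_antisymm (le_inf (ann_anti le_sup_left) (ann_anti le_sup_right)) fun χ hχ y hy => ?_
  obtain ⟨u, hu, v, hv, rfl⟩ := Submodule.mem_sup.1 hy
  rw [map_add, hχ.1 u hu, hχ.2 v hv, add_zero]

theorem ann_map (f : A →ₗ[D] B) (Y : Submodule D A) : ann (Y.map f) = (ann Y).comap (du f) := by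
  ext χ
  constructor
  · intro h y hy
    exact h _ ⟨y, hy, rfl⟩
  · rintro h _ ⟨y, hy, rfl⟩
    exact h y hy

theorem ann_range (f : A →ₗ[D] B) : ann (LinearMap.range f) = LinearMap.ker (du f) := by
  rw [← Submodule.map_top f, ann_map, ann_top, Submodule.comap_bot]

theorem le_ann_ann (Y : Submodule D A) {x : A} (hx : x ∈ Y) : ev x ∈ ann (ann Y) :=
  fun χ hχ => hχ x hx

variable [IsPrincipalIdealRing D]

theorem inj_baer : Module.Baer D (Inj D) := by
  intro I g
  obtain ⟨d, rfl⟩ := (IsPrincipalIdealRing.principal I).principal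
  by_cases hd : d = 0
  · refine ⟨0, fun x hx => ?_⟩
    have : (⟨x, hx⟩ : Submodule.span D {d}) = 0 := by
      obtain ⟨c, rfl⟩ := Submodule.mem_span_singleton.1 hx
      ext; simp [hd]
    rw [this, map_zero]; rfl
  · obtain ⟨t, ht⟩ := inj_div d hd (g ⟨d, Submodule.mem_span_singleton_self d⟩)
    refine ⟨LinearMap.toSpanSingleton D _ t, fun x hx => ?_⟩
    obtain ⟨c, rfl⟩ := Submodule.mem_span_singleton.1 hx
    rw [LinearMap.toSpanSingleton_apply, smul_assoc, ht, ← map_smul]
    rfl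

theorem inj_extend (f : A →ₗ[D] B) (hf : Function.Injective f) (g : Du D A) :
    ∃ h : Du D B, ∀ x, h (f x) = g x := by
  obtain ⟨h, hh⟩ := (inj_baer (D := D)).extension_property f hf g
  exact ⟨h, fun x => LinearMap.congr_fun hh x⟩

/-- A character killing the kernel of `f` factors through `f`. -/
theorem exists_ext (f : A →ₗ[D] B) (g : Du D A) (h : ∀ x, f x = 0 → g x = 0) :
    ∃ h : Du D B, ∀ x, h (f x) = g x := by
  obtain ⟨k, hk⟩ := inj_extend ((LinearMap.ker f).liftQ f le_rfl)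
    (LinearMap.ker_eq_bot.1 (Submodule.ker_liftQ_eq_bot _ _ _ le_rfl))
    ((LinearMap.ker f).liftQ g h)
  exact ⟨k, fun x => hk (Submodule.Quotient.mk x)⟩

theorem ann_comap (f : A →ₗ[D] B) (Y : Submodule D B) :
    ann (Y.comap f) = (ann Y).map (du f) := by
  ext χ
  constructor
  · intro h
    obtain ⟨k, hk⟩ := exists_ext (Y.mkQ ∘ₗ f) χ fun x hx => h x (by simpa using hx)
    refine ⟨k ∘ₗ Y.mkQ, fun y hy => ?_, LinearMap.ext hk⟩
    rw [LinearMap.comp_apply, Submodule.mkQ_apply, (Submodule.Quotient.mk_eq_zero _).2 hy,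
      map_zero]
  · rintro ⟨k, hk, rfl⟩ y hy
    exact hk _ hy

theorem ann_ker (f : A →ₗ[D] B) : ann (LinearMap.ker f) = LinearMap.range (du f) := by
  rw [← Submodule.comap_bot, ann_comap, ann_bot, Submodule.map_top]

theorem ann_inf (Y Y' : Submodule D A) : ann (Y ⊓ Y') = ann Y ⊔ ann Y' := by
  refine le_antisymm (fun χ hχ => ?_) (sup_le (ann_anti inf_le_left) (ann_anti inf_le_right))
  obtain ⟨k, hk⟩ := exists_ext (Y.subtype.coprod Y'.subtype)
    (χ ∘ₗ Y'.subtype ∘ₗ LinearMap.snd D Y Y') fun x hx => by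
      have hx' : (x.1 : A) + x.2 = 0 := hx
      refine hχ (x.2 : A) ⟨?_, x.2.2⟩
      rw [eq_neg_of_add_eq_zero_right hx']
      exact neg_mem x.1.2
  refine Submodule.mem_sup.2 ⟨k, fun y hy => ?_, χ - k, fun y hy => ?_, by abel⟩
  · simpa using hk (⟨y, hy⟩, 0)
  · have := hk (0, ⟨y, hy⟩)
    simp only [LinearMap.coprod_apply, map_zero, Submodule.subtype_apply, zero_add,
      LinearMap.comp_apply, LinearMap.snd_apply] at this
    simp [this]

theorem ann_ann_map (f : A →ₗ[D] B) (Y : Submodule D A) :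
    ann (ann (Y.map f)) = (ann (ann Y)).map (du (du f)) := by rw [ann_map, ann_comap]

theorem ann_ann_comap (f : A →ₗ[D] B) (Y : Submodule D B) :
    ann (ann (Y.comap f)) = (ann (ann Y)).comap (du (du f)) := by rw [ann_comap, ann_map]

theorem ann_ann_sup (Y Y' : Submodule D A) :
    ann (ann (Y ⊔ Y')) = ann (ann Y) ⊔ ann (ann Y') := by rw [ann_sup, ann_inf]

theorem ann_ann_inf (Y Y' : Submodule D A) :
    ann (ann (Y ⊓ Y')) = ann (ann Y) ⊓ ann (ann Y') := by rw [ann_inf, ann_sup]

theorem ann_finset_inf {ι : Type} (F : Finset ι) (Y : ι → Submodule D A) :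
    ann (F.inf Y) = F.sup fun i => ann (Y i) := by
  classical
  induction F using Finset.induction_on with
  | empty => simp [ann_top]
  | insert i F _ ih => rw [Finset.inf_insert, Finset.sup_insert, ann_inf, ih]

theorem ann_ann_finset_sup {ι : Type} (F : Finset ι) (Y : ι → Submodule D A) :
    ann (ann (F.sup Y)) = F.sup fun i => ann (ann (Y i)) := by
  classical
  induction F using Finset.induction_on with
  | empty => simp [ann_top, ann_bot]
  | insert i F _ ih => rw [Finset.sup_insert, Finset.sup_insert, ann_ann_sup, ih]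

theorem mem_univ_sup_map {ι : Type} [Fintype ι] (f : ι → A →ₗ[D] B) (Y : ι → Submodule D A)
    {z : B} : z ∈ (Finset.univ.sup fun i => (Y i).map (f i)) ↔
      ∃ x : ι → A, (∀ i, x i ∈ Y i) ∧ ∑ i, f i (x i) = z := by
  constructor
  · intro hz
    let T : Submodule D B := (Submodule.pi Set.univ Y).map (∑ i, f i ∘ₗ LinearMap.proj i)
    have : (Finset.univ.sup fun i => (Y i).map (f i)) ≤ T := by
      classical
      refine Finset.sup_le fun i _ => ?_
      rintro _ ⟨y, hy, rfl⟩
      refine ⟨Pi.single i y, fun k _ => ?_, ?_⟩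
      · by_cases hk : k = i
        · subst hk; simpa using hy
        · simp [Pi.single_eq_of_ne hk]
      · rw [LinearMap.sum_apply, Finset.sum_eq_single i]
        · simp
        · intro k _ hk; simp [Pi.single_eq_of_ne hk]
        · simp
    obtain ⟨x, hx, rfl⟩ := this hz
    exact ⟨x, fun i => hx i trivial, by simp [LinearMap.sum_apply]⟩
  · rintro ⟨x, hx, rfl⟩
    exact Submodule.sum_mem _ fun i _ =>
      (Finset.le_sup (f := fun i => (Y i).map (f i)) (Finset.mem_univ i)) ⟨x i, hx i, rfl⟩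

/-- Transfer to the double dual: a solvability statement for a linear system with side conditions.
`c`, `c'` are matrices of endomorphisms. -/
theorem dd_transfer {ι κ μ : Type} [Fintype ι] [Fintype κ] [Fintype μ]
    (c : κ → ι → A →ₗ[D] A) (c' : κ → μ → A →ₗ[D] A) (Y : ι → Submodule D A)
    (Y' : μ → Submodule D A)
    (h : ∀ g : μ → A, (∀ m, g m ∈ Y' m) → ∃ x : ι → A, (∀ i, x i ∈ Y i) ∧
      ∀ k, ∑ i, c k i (x i) = ∑ m, c' k m (g m))
    (g : μ → DD D A) (hg : ∀ m, g m ∈ ann (ann (Y' m))) :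
    ∃ x : ι → DD D A, (∀ i, x i ∈ ann (ann (Y i))) ∧
      ∀ k, ∑ i, du (du (c k i)) (x i) = ∑ m, du (du (c' k m)) (g m) := by
  let f : ι → A →ₗ[D] (κ → A) := fun i => LinearMap.pi fun k => c k i
  let f' : μ → A →ₗ[D] (κ → A) := fun m => LinearMap.pi fun k => c' k m
  have hle : (Finset.univ.sup fun m => (Y' m).map (f' m)) ≤
      Finset.univ.sup fun i => (Y i).map (f i) := by
    intro z hz
    obtain ⟨g, hg, rfl⟩ := (mem_univ_sup_map f' Y').1 hz
    obtain ⟨x, hx, hxe⟩ := h g hg
    refine (mem_univ_sup_map f Y).2 ⟨x, hx, funext fun k => ?_⟩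
    simpa [f, f', Finset.sum_apply] using hxe k
  have hle2 := ann_anti (ann_anti hle)
  simp only [ann_ann_finset_sup, ann_ann_map] at hle2
  obtain ⟨x, hx, hxe⟩ := (mem_univ_sup_map _ _).1
    (hle2 ((mem_univ_sup_map (fun m => du (du (f' m))) _).2 ⟨g, hg, rfl⟩))
  refine ⟨x, hx, fun k => ?_⟩
  have := congrArg (du (du (LinearMap.proj k : (κ → A) →ₗ[D] A))) hxe
  rw [map_sum, map_sum] at this
  exact this

variable [FinQ D]

theorem exists_char (Y : Submodule D A) {x : A} (hx : x ∉ Y) : ∃ χ ∈ ann Y, χ x ≠ 0 := by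
  let f := LinearMap.toSpanSingleton D (A ⧸ Y) (Y.mkQ x)
  obtain ⟨d, hd⟩ := (IsPrincipalIdealRing.principal (LinearMap.ker f)).principal
  have hdu : ¬ IsUnit d := by
    intro hu
    apply hx
    have h1 : (1 : D) ∈ LinearMap.ker f := by
      rw [hd]; exact Ideal.mem_span_singleton.2 hu.dvd
    simpa [f] using h1
  obtain ⟨d', hd0, hdu', hdd⟩ : ∃ d' : D, d' ≠ 0 ∧ ¬ IsUnit d' ∧ d' ∣ d := by
    by_cases h0 : d = 0
    · obtain ⟨q, hq, hq', -⟩ := FinQ.jac (1 : D) one_ne_zero
      exact ⟨q, hq, hq', by rw [h0]; exact dvd_zero q⟩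
    · exact ⟨d, h0, hdu, dvd_rfl⟩
  obtain ⟨k, hk⟩ := exists_ext f (LinearMap.toSpanSingleton D _ (invC d')) fun r hr => by
    have : r ∈ LinearMap.ker f := hr
    rw [hd] at this
    exact (smul_invC_eq_zero hd0 r).2 (hdd.trans (Ideal.mem_span_singleton.1 this))
  refine ⟨k ∘ₗ Y.mkQ, fun y hy => ?_, fun h => hdu' ?_⟩
  · rw [LinearMap.comp_apply, Submodule.mkQ_apply, (Submodule.Quotient.mk_eq_zero _).2 hy,
      map_zero]
  · have := hk 1
    simp only [f, LinearMap.toSpanSingleton_apply, one_smul] at this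
    rw [LinearMap.comp_apply, this, ← one_smul D (invC d'), smul_invC_eq_zero hd0] at h
    exact isUnit_of_dvd_one h

theorem ev_mem_ann_ann {Y : Submodule D A} {x : A} : ev x ∈ ann (ann Y) ↔ x ∈ Y := by
  refine ⟨fun h => ?_, le_ann_ann Y⟩
  by_contra hx
  obtain ⟨χ, hχ, hne⟩ := exists_char Y hx
  exact hne (h χ hχ)

theorem ann_le_ann_iff {Y Y' : Submodule D A} : ann Y' ≤ ann Y ↔ Y ≤ Y' := by
  refine ⟨fun h x hx => ?_, ann_anti⟩
  by_contra hx'
  obtain ⟨χ, hχ, hne⟩ := exists_char Y' hx'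
  exact hne (h hχ x hx)

theorem ev_injective : Function.Injective (ev : A →ₗ[D] DD D A) := by
  refine (injective_iff_map_eq_zero _).2 fun x hx => ?_
  have : x ∈ (⊥ : Submodule D A) := ev_mem_ann_ann.1 (by rw [hx]; exact zero_mem _)
  exact this

theorem card_du_cyc (F : Type) [AddCommGroup F] [Module D F] [Finite F] (x : F)
    (hx : Submodule.span D {x} = ⊤) : Finite (Du D F) ∧ Nat.card (Du D F) ≤ Nat.card F := by
  let f := LinearMap.toSpanSingleton D F x
  have hf : Function.Surjective f := by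
    rw [← LinearMap.range_eq_top, ← LinearMap.span_singleton_eq_range, hx]
  obtain ⟨d, hd⟩ := (IsPrincipalIdealRing.principal (LinearMap.ker f)).principal
  have hd0 : d ≠ 0 := by
    rintro rfl
    have hinj : Function.Injective f := by
      rw [← LinearMap.ker_eq_bot, hd]; simp
    have : Finite D := Finite.of_injective f hinj
    obtain ⟨q, hq, hq', -⟩ := FinQ.jac (1 : D) one_ne_zero
    exact hq' ((Finite.isField_of_domain D).mul_inv_cancel hq |>.elim fun b hb =>
      IsUnit.of_mul_eq_one b hb)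
  have key : ∀ χ : Du D F, ∃ y : F, ∀ r : D, f r = y → r • invC d = χ x := by
    intro χ
    have hdx : d • x = 0 := by
      have : d ∈ LinearMap.ker f := by rw [hd]; exact Submodule.mem_span_singleton_self d
      exact this
    obtain ⟨r, hr⟩ := exists_smul_invC hd0 (t := χ x) (by rw [← map_smul, hdx, map_zero])
    refine ⟨f r, fun r' hr' => ?_⟩
    have : r' - r ∈ LinearMap.ker f := by rw [LinearMap.mem_ker, map_sub, hr', sub_self]
    rw [hd] at this
    rw [← hr, ← sub_eq_zero, ← sub_smul]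
    exact (smul_invC_eq_zero hd0 _).2 (Ideal.mem_span_singleton.1 this)
  choose g hg using key
  have hginj : Function.Injective g := by
    intro χ χ' h
    obtain ⟨r, hr⟩ := hf (g χ)
    have h1 : χ x = χ' x := (hg χ r hr).symm.trans (hg χ' r (hr.trans h))
    refine LinearMap.ext fun y => ?_
    obtain ⟨s, rfl⟩ := hf y
    simp [f, h1]
  exact ⟨Finite.of_injective g hginj, Nat.card_le_card_of_injective g hginj⟩

theorem card_du_le (F : Type) [AddCommGroup F] [Module D F] [Finite F] :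
    Finite (Du D F) ∧ Nat.card (Du D F) ≤ Nat.card F := by
  induction hn : Nat.card F using Nat.strong_induction_on generalizing F with
  | _ n ih =>
  subst hn
  by_cases hF : ∀ x : F, x = 0
  · exact card_du_cyc F 0 (eq_top_iff.2 fun x _ => by rw [hF x]; exact zero_mem _)
  obtain ⟨x, hx⟩ := not_forall.1 hF
  let N := Submodule.span D {x}
  have hN : 1 < Nat.card N := by
    have : Nontrivial N := ⟨⟨⟨x, Submodule.mem_span_singleton_self x⟩, 0,
      fun h => hx (congrArg Subtype.val h)⟩⟩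
    exact Finite.one_lt_card
  have hcard := Submodule.card_eq_card_quotient_mul_card N
  have : Finite (F ⧸ N) := Finite.of_surjective _ N.mkQ_surjective
  have hpos : 0 < Nat.card (F ⧸ N) := Nat.card_pos
  obtain ⟨h1, h1'⟩ := ih (Nat.card (F ⧸ N)) (by rw [hcard]; nlinarith) (F ⧸ N) rfl
  obtain ⟨h2, h2'⟩ := card_du_cyc (D := D) N ⟨x, Submodule.mem_span_singleton_self x⟩ (by
    refine eq_top_iff.2 fun y _ => ?_
    obtain ⟨c, hc⟩ := Submodule.mem_span_singleton.1 y.2
    exact Submodule.mem_span_singleton.2 ⟨c, Subtype.ext hc⟩)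
  let ρ : Du D F →ₗ[D] Du D N := du N.subtype
  have hker : ∀ χ : LinearMap.ker ρ, ∃ k : Du D (F ⧸ N), ∀ y, k (N.mkQ y) = χ.1 y := fun χ =>
    ⟨N.liftQ χ.1 fun y hy => LinearMap.congr_fun χ.2 ⟨y, hy⟩, fun y => rfl⟩
  choose g hg using hker
  have hginj : Function.Injective g := fun χ χ' h =>
    Subtype.ext (LinearMap.ext fun y => by rw [← hg χ, ← hg χ', h])
  have : Finite (LinearMap.ker ρ) := Finite.of_injective g hginj
  have hq : Function.Injective ((LinearMap.ker ρ).liftQ ρ le_rfl) :=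
    LinearMap.ker_eq_bot.1 (Submodule.ker_liftQ_eq_bot _ _ _ le_rfl)
  have : Finite (Du D F ⧸ LinearMap.ker ρ) := Finite.of_injective _ hq
  have hc2 := Submodule.card_eq_card_quotient_mul_card (LinearMap.ker ρ)
  refine ⟨Nat.finite_of_card_ne_zero (by
    rw [hc2]; exact (Nat.mul_pos Nat.card_pos Nat.card_pos).ne'), ?_⟩
  rw [hc2, hcard, mul_comm]
  exact Nat.mul_le_mul ((Nat.card_le_card_of_injective _ hq).trans h2')
    ((Nat.card_le_card_of_injective g hginj).trans h1')

/-- On a finite module evaluation is onto. -/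
theorem ev_surjective (F : Type) [AddCommGroup F] [Module D F] [Finite F] :
    Function.Surjective (ev : F →ₗ[D] DD D F) := by
  obtain ⟨h1, h1'⟩ := card_du_le (D := D) F
  obtain ⟨h2, h2'⟩ := card_du_le (D := D) (Du D F)
  exact (ev_injective.bijective_of_nat_card_le (h2'.trans h1')).2

/-- Every character of `S` is `κ (· * s)`. -/
theorem SD.frob {Λ S : Type} [Ring Λ] [Algebra D Λ] [Ring S] [Algebra D S] [Finite S]
    (Δ : SD D Λ S) (χ : Du D S) : ∃ s, ∀ r, χ r = Δ.κ (r * s) := by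
  obtain ⟨h1, h1'⟩ := card_du_le (D := D) S
  let f : S → Du D S := fun s => Δ.κ ∘ₗ LinearMap.mulRight D s
  have hf : Function.Injective f := fun s t h => by
    rw [← sub_eq_zero]
    refine Δ.κ_nd _ fun r => ?_
    have := LinearMap.congr_fun h r
    simp only [f, LinearMap.comp_apply, LinearMap.mulRight_apply] at this
    rw [mul_sub, map_sub, this, sub_self]
  obtain ⟨s, hs⟩ := (hf.bijective_of_nat_card_le h1').2 χ
  exact ⟨s, fun r => by rw [← hs]; rfl⟩

end

end Pool.Agent.Lib.MP_c13fce_lc
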