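import Pool.Agent.Lib.MP_c13fce_lc.Defs4

/-! Block F1, general lemmas: building string data over the integers. -/

namespace Pool.Agent.Lib.MP_c13fce_lc

namespace F1

theorem exists_inj_map {D : Type} [CommRing D] [IsDomain D] (π : D) (hπ : π ≠ 0) :
    ∃ f : D →+ Inj D, ∀ n, f n = 0 ↔ π ∣ n := by
  have hp' : algebraMap D (FractionRing D) π ≠ 0 := fun h ↦
    hπ (IsFractionRing.injective D (FractionRing D) (h.trans (map_zero _).symm))
  let f0 : D →+ FractionRing D :=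
    (AddMonoidHom.mulRight (algebraMap D (FractionRing D) π)⁻¹).comp
      (algebraMap D (FractionRing D)).toAddMonoidHom
  refine ⟨(LinearMap.range (Algebra.linearMap D (FractionRing D))).mkQ.toAddMonoidHom.comp f0,
    fun n ↦ ?_⟩
  have e : (LinearMap.range (Algebra.linearMap D (FractionRing D))).mkQ.toAddMonoidHom.comp f0 n
      = 0 ↔ ∃ y, algebraMap D (FractionRing D) y =
      algebraMap D (FractionRing D) n * (algebraMap D (FractionRing D) π)⁻¹ :=
    Submodule.Quotient.mk_eq_zero _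
  rw [e]
  constructor
  · rintro ⟨y, hy⟩
    rw [eq_mul_inv_iff_mul_eq₀ hp', ← map_mul] at hy
    exact ⟨y, by rw [← IsFractionRing.injective D (FractionRing D) hy, mul_comm]⟩
  · rintro ⟨y, rfl⟩
    exact ⟨y, by rw [eq_mul_inv_iff_mul_eq₀ hp', ← map_mul, mul_comm]⟩

/-- An additive map is linear for any two integer module structures. -/
def toLin {A B : Type} [AddCommGroup A] [AddCommGroup B] {iA : Module ℤ A} {iB : Module ℤ B}
    (f : A →+ B) : A →ₗ[ℤ] B where
  toFun := f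
  map_add' := map_add f
  map_smul' n s := map_intCast_smul f ℤ ℤ n s

/-- the embedding `ZMod p → ℚ / ℤ` -/
theorem exists_emb (p : ℕ) (hp : p ≠ 0) : ∃ ι : ZMod p →+ Inj ℤ, ∀ x, ι x = 0 → x = 0 := by
  obtain ⟨f, hf⟩ := exists_inj_map (p : ℤ) (by exact_mod_cast hp)
  refine ⟨ZMod.lift p ⟨f, (hf p).2 dvd_rfl⟩, fun x hx ↦ ?_⟩
  obtain ⟨n, rfl⟩ := ZMod.intCast_surjective x
  rw [ZMod.lift_coe] at hx
  exact (ZMod.intCast_zmod_eq_zero_iff_dvd n p).2 ((hf n).1 hx)

theorem exists_SD {Λ S : Type} [Ring Λ] [Ring S] [iΛ : Algebra ℤ Λ] [iS : Algebra ℤ S] (p : ℕ)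
    (hp : p.Prime) (a b : Λ) (q : Λ →+* S) (σ : S ≃+* S) (c : S →+ ZMod p)
    (q_surj : Function.Surjective q) (q_ker : ∀ r, q r = 0 ↔ ∃ x y, r = x * a + y * b)
    (na : ∀ r, ∃ r', a * r = r' * a ∧ q r' = σ (q r))
    (na' : ∀ r', ∃ r, r' * a = a * r ∧ q r' = σ (q r))
    (cb : ∀ r, b * r = r * b) (ab : a * b = 0) (qp : (p : S) = 0)
    (ea : ∃ (e : ℕ) (x y : Λ), a ^ e = p * x + y * b)
    (eb : ∃ (e : ℕ) (x y : Λ), b ^ e = p * x + y * a)
    (regA : ∀ r : Λ, (∃ y, p * r = y * b) → ∃ y, r = y * b)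
    (regB : b = 0 ∨ ∀ r : Λ, (∃ y, p * r = y * a) → ∃ y, r = y * a)
    (c_comm : ∀ s t, c (s * t) = c (t * s)) (c_σ : ∀ s, c (σ s) = c s)
    (c_nd : ∀ s, (∀ r, c (r * s) = 0) → s = 0) (reg : Reg ℤ Λ) :
    ∃ Δ : SD ℤ Λ S, Δ.π = p ∧ Δ.b = b ∧ ∀ s, Δ.σ s = σ s := by
  obtain rfl : iΛ = Ring.toIntAlgebra Λ := Subsingleton.elim _ _
  obtain rfl : iS = Ring.toIntAlgebra S := Subsingleton.elim _ _
  obtain ⟨ι, hι⟩ := exists_emb p hp.ne_zero
  have hs : ∀ x : Λ, (p : ℤ) • x = p * x := fun x ↦ by simp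
  exact ⟨{
    π := p
    hπ := (Nat.prime_iff_prime_int.mp hp).irreducible
    a := a
    b := b
    q := q.toIntAlgHom
    q_surj := q_surj
    q_ker := q_ker
    σ := σ.toIntAlgEquiv
    na := na
    na' := na'
    cb := cb
    ab := ab
    qπ := by simpa using qp
    ea := by simpa only [← hs] using ea
    eb := by simpa only [← hs] using eb
    regA := by simpa only [← hs] using regA
    regB := by simpa only [← hs] using regB
    κ := toLin (ι.comp c)
    κ_comm := fun s t ↦ congrArg ι (c_comm s t)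
    κ_σ := fun s ↦ congrArg ι (c_σ s)
    κ_nd := fun s h ↦ c_nd s fun r ↦ hι _ (h r)
    reg := reg }, rfl, rfl, fun _ ↦ rfl⟩

theorem reg_surj {R R' : Type} [Ring R] [Ring R'] [i : Algebra ℤ R] [i' : Algebra ℤ R']
    (f : R →+* R') (hf : Function.Surjective f) (h : Reg ℤ R) : Reg ℤ R' := by
  obtain rfl : i = Ring.toIntAlgebra R := Subsingleton.elim _ _
  obtain rfl : i' = Ring.toIntAlgebra R' := Subsingleton.elim _ _
  intro ι κ _ _ H
  choose H0 hH using fun i k ↦ hf (H i k)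
  obtain ⟨Y, n, hn, hY⟩ := h ι κ (Matrix.of H0)
  have e : (Matrix.of H0).map f = H := by
    ext i k
    exact hH i k
  refine ⟨Y.map f, n, hn, ?_⟩
  rw [← e, ← Matrix.map_mul, ← Matrix.map_mul, hY]
  ext i k
  exact map_zsmul f n _

/-- semisimplicity by averaging -/
theorem semisimple_of_avg {S : Type} [Ring S] (p : ℕ) [Fact p.Prime] (hp : (p : S) = 0)
    {G : Type} [Group G] [Fintype G] (φ : G →* S)
    (hspan : ∀ P : S → Prop, P 0 → (∀ x y, P x → P y → P (x + y)) →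
      (∀ (g : G) (n : ℤ), P (n * φ g)) → ∀ s, P s)
    (η : S) (h : ∑ g, φ g * η * φ g⁻¹ = 1) : IsSemisimpleRing S := by
  refine (isSemisimpleModule_iff S S).2 ⟨fun W ↦ ?_⟩
  obtain ⟨pr, hpr'⟩ : ∃ pr : S →+ W, ∀ w : W, pr w = w := by
    let i1 : Module (ZMod p) S :=
      AddCommGroup.zmodModule fun x ↦ by rw [nsmul_eq_mul, hp, zero_mul]
    let i2 : Module (ZMod p) W := AddCommGroup.zmodModule fun x ↦ Subtype.ext (by
      rw [AddSubmonoidClass.coe_nsmul, nsmul_eq_mul, hp, zero_mul]; rfl)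
    obtain ⟨pr, hpr⟩ := LinearMap.exists_leftInverse_of_injective
      (W.subtype.toAddMonoidHom.toZModLinearMap p) (LinearMap.ker_eq_bot.2 Subtype.val_injective)
    exact ⟨pr.toAddMonoidHom, fun w ↦ LinearMap.congr_fun hpr w⟩
  let P : S →+ W :=
    { toFun := fun x ↦ ∑ g, (φ g * η) • pr (φ g⁻¹ * x)
      map_zero' := by simp
      map_add' := fun x y ↦ by simp [mul_add, Finset.sum_add_distrib] }
  have hP : ∀ s x, P (s * x) = s • P x := by
    refine hspan (fun s ↦ ∀ x, P (s * x) = s • P x) ?_ ?_ ?_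
    · simp
    · intro s t hs ht x
      rw [add_mul, map_add, hs, ht, add_smul]
    · intro k n x
      rw [mul_assoc, ← zsmul_eq_mul, map_zsmul, mul_smul, Int.cast_smul_eq_zsmul]
      congr 1
      change ∑ g, _ = φ k • ∑ g, _
      rw [Finset.smul_sum]
      refine (Fintype.sum_equiv (Equiv.mulLeft k) _ _ fun g ↦ ?_).symm
      simp only [Equiv.coe_mulLeft, smul_smul, ← mul_assoc, ← map_mul, mul_inv_rev,
        inv_mul_cancel_right]
  let P' : S →ₗ[S] W := { P with map_smul' := hP }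
  refine ⟨_, LinearMap.isCompl_of_proj (f := P') fun w ↦ ?_⟩
  change ∑ g, (φ g * η) • pr (φ g⁻¹ * w) = w
  have : ∀ g, pr (φ g⁻¹ * w) = φ g⁻¹ • w := fun g ↦ hpr' (φ g⁻¹ • w)
  simp only [this, smul_smul]
  rw [← Finset.sum_smul, h, one_smul]

open MonoidAlgebra

variable {R G : Type} [CommRing R] [Group G]

theorem coeff_one_comm (s t : MonoidAlgebra R G) : (s * t).coeff 1 = (t * s).coeff 1 := by
  induction s using induction_linear with
  | zero => simp
  | add x y hx hy => simp [add_mul, mul_add, hx, hy]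
  | single g r => simp [coeff_single_mul_apply, coeff_mul_single_apply, mul_comm]

theorem exists_mul_of_dvd (p : ℕ) {s : MonoidAlgebra ℤ G} (h : ∀ x, (p : ℤ) ∣ s.coeff x) :
    ∃ t, s = p * t := by
  have : s ∈ Set.range (MonoidAlgebra.map (M := G) (AddMonoidHom.mulLeft (p : ℤ))) := by
    rw [range_map]
    exact fun x ↦ (h x).imp fun _ e ↦ e.symm
  obtain ⟨t, rfl⟩ := this
  refine ⟨t, ?_⟩
  ext x
  simp [natCast_def]

theorem eq_zero_of_mul {p : ℕ} (hp : p ≠ 0) {s : MonoidAlgebra ℤ G} (h : p * s = 0) : s = 0 := by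
  ext x
  have := congrArg (fun t ↦ t.coeff x) h
  simpa [natCast_def, hp] using this

end F1

end Pool.Agent.Lib.MP_c13fce_lc
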