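import Pool.Agent.Lib.MP_c13fce_lc.F1Reg

/-! Block F1: string data in the unramified case. -/

namespace Pool.Agent.Lib.MP_c13fce_lc

namespace F1

theorem finite_of_span {S : Type} [Ring S] (p : ℕ) (hp0 : p ≠ 0) (hp : (p : S) = 0)
    {G : Type} [Finite G] (φ : G → S)
    (hspan : ∀ P : S → Prop, P 0 → (∀ x y, P x → P y → P (x + y)) →
      (∀ (g : G) (n : ℤ), P (n * φ g)) → ∀ s, P s) : Finite S := by
  have : AddGroup.FG S := by
    refine AddGroup.fg_iff.2 ⟨Set.range φ, ?_, Set.finite_range φ⟩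
    rw [eq_top_iff]
    intro s _
    refine hspan (fun s ↦ s ∈ AddSubgroup.closure (Set.range φ)) (zero_mem _)
      (fun x y ↦ add_mem) (fun g n ↦ ?_) s
    rw [← zsmul_eq_mul]
    exact zsmul_mem (AddSubgroup.subset_closure (Set.mem_range_self g)) n
  refine AddCommGroup.finite_of_fg_isAddTorsion S fun s ↦ ?_
  exact isOfFinAddOrder_iff_nsmul_eq_zero.2
    ⟨p, Nat.pos_of_ne_zero hp0, by rw [nsmul_eq_mul, hp, zero_mul]⟩

open MonoidAlgebra in
theorem span_ind {G S : Type} [Group G] [Ring S] (f : MonoidAlgebra ℤ G →+* S)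
    (hf : Function.Surjective f) (P : S → Prop) (h0 : P 0) (ha : ∀ x y, P x → P y → P (x + y))
    (hs : ∀ (g : G) (n : ℤ), P (n * f (single g 1))) (s : S) : P s := by
  obtain ⟨r, rfl⟩ := hf s
  induction r using induction_linear with
  | zero => rwa [map_zero]
  | add x y hx hy => rw [map_add]; exact ha _ _ hx hy
  | single g n =>
    have : single g n = n • single g (1 : ℤ) := by rw [smul_single, smul_eq_mul, mul_one]
    rw [this, map_zsmul, zsmul_eq_mul]
    exact hs g n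

theorem twoSided_span {R : Type} [Ring R] (T : Set R) (h : ∀ t ∈ T, ∀ r, r * t = t * r) :
    (Ideal.span T).IsTwoSided := by
  refine ⟨fun {a} b ha ↦ ?_⟩
  induction ha using Submodule.span_induction with
  | mem t ht => rw [← h t ht]; exact Ideal.mul_mem_left _ _ (Ideal.subset_span ht)
  | zero => rw [zero_mul]; exact zero_mem _
  | add x y _ _ hx hy => rw [add_mul]; exact add_mem hx hy
  | smul c x _ hx => rw [smul_eq_mul, mul_assoc]; exact Ideal.mul_mem_left _ _ hx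

end F1

open MonoidAlgebra in
theorem exists_pure (p : ℕ) [Fact p.Prime] (G : Type) [Group G] [Fintype G]
    (N η : MonoidAlgebra ℤ G) (n u : ℤ) (hn : ¬ (p : ℤ) ∣ n) (hu : ¬ (p : ℤ) ∣ u)
    (hc : ∀ r, r * N = N * r) (hN : N * N = n • N)
    (hη : ∃ x y : MonoidAlgebra ℤ G,
      ∑ g : G, MonoidAlgebra.single g 1 * η * MonoidAlgebra.single g⁻¹ 1 =
        (u : MonoidAlgebra ℤ G) + (p : ℤ) • x + y * N) :
    ∃ (Λ S : Type) (_ : Ring Λ) (_ : Ring S) (_ : Finite S) (_ : IsSemisimpleRing S)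
      (f : MonoidAlgebra ℤ G →+* Λ) (Δ : SD ℤ Λ S), Function.Surjective f ∧
      (∀ r, f r = 0 ↔ ∃ y, r = y * N) ∧ Δ.π = p ∧ Δ.b = 0 := by
  have hp : p.Prime := Fact.out
  have hpp : Prime (p : ℤ) := Nat.prime_iff_prime_int.mp hp
  rw [zsmul_eq_mul] at hN
  let I : Ideal (MonoidAlgebra ℤ G) := Ideal.span {N}
  let J : Ideal (MonoidAlgebra ℤ G) := Ideal.span {N, (p : MonoidAlgebra ℤ G)}
  have : I.IsTwoSided := F1.twoSided_span _ (by rintro _ rfl; exact hc)
  have : J.IsTwoSided := F1.twoSided_span _ (by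
    rintro _ (rfl | rfl)
    · exact hc
    · exact fun r ↦ (Nat.cast_comm p r).symm)
  have hIJ : I ≤ J := Ideal.span_mono (by simp)
  have hI : ∀ r, Ideal.Quotient.mk I r = 0 ↔ ∃ y, r = y * N := fun r ↦ by
    rw [Ideal.Quotient.eq_zero_iff_mem, Ideal.mem_span_singleton']
    simp only [eq_comm]
  have hJ : ∀ r, Ideal.Quotient.mk J r = 0 ↔ ∃ x y, r = x * N + y * p := fun r ↦ by
    rw [Ideal.Quotient.eq_zero_iff_mem, Ideal.mem_span_pair]
    simp only [eq_comm]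
  have hpS : ((p : ℕ) : MonoidAlgebra ℤ G ⧸ J) = 0 := by
    rw [← map_natCast (Ideal.Quotient.mk J), hJ]
    exact ⟨0, 1, by simp⟩
  have hNS : Ideal.Quotient.mk J N = 0 := (hJ N).2 ⟨1, 0, by simp⟩
  obtain ⟨α, β, hαβ⟩ := (hpp.coprime_iff_not_dvd.2 hn)
  obtain ⟨α', β', hαβ'⟩ := (hpp.coprime_iff_not_dvd.2 hu)
  have hcn : ∀ r : MonoidAlgebra ℤ G, r * (n - N) = (n - N) * r := fun r ↦ by
    rw [mul_sub, sub_mul, hc, Int.cast_comm]
  have hnN : ((n : MonoidAlgebra ℤ G) - N) * N = 0 := by rw [sub_mul, hN, sub_self]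
  have hone : ∀ r : MonoidAlgebra ℤ G, r = α * (p * r) + β * (n * r) := fun r ↦ by
    rw [← mul_assoc, ← mul_assoc, ← add_mul, ← Int.cast_natCast, ← Int.cast_mul, ← Int.cast_mul,
      ← Int.cast_add, hαβ, Int.cast_one, one_mul]
  let c0 : MonoidAlgebra ℤ G →+ ZMod p :=
    { toFun := fun r ↦ (((n - N) * r).coeff 1 : ℤ)
      map_zero' := by simp
      map_add' := fun x y ↦ by simp [mul_add] }
  have hc0 : ∀ r, c0 r = (((n - N) * r).coeff 1 : ℤ) := fun _ ↦ rfl
  let c : MonoidAlgebra ℤ G ⧸ J →+ ZMod p := QuotientAddGroup.lift J.toAddSubgroup c0 (by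
    intro r hr
    obtain ⟨x, y, rfl⟩ := (hJ r).1 (Ideal.Quotient.eq_zero_iff_mem.2 hr)
    rw [AddMonoidHom.mem_ker, map_add, hc0, hc, ← mul_assoc, hnN, zero_mul, ← Nat.cast_comm,
      ← nsmul_eq_mul, map_nsmul]
    simp)
  have hcc : ∀ r, c (Ideal.Quotient.mk J r) = (((n - N) * r).coeff 1 : ℤ) := fun _ ↦ rfl
  obtain ⟨Δ, h1, h2, -⟩ := F1.exists_SD (Λ := MonoidAlgebra ℤ G ⧸ I) (S := MonoidAlgebra ℤ G ⧸ J)
    (iΛ := Ring.toIntAlgebra _) (iS := Ring.toIntAlgebra _) p hp p 0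
    (Ideal.Quotient.factor hIJ) (RingEquiv.refl _) c
    (fun s ↦ by
      obtain ⟨r, rfl⟩ := Ideal.Quotient.mk_surjective s
      exact ⟨Ideal.Quotient.mk I r, rfl⟩)
    (fun r ↦ by
      obtain ⟨r, rfl⟩ := Ideal.Quotient.mk_surjective r
      rw [Ideal.Quotient.factor_mk, hJ]
      constructor
      · rintro ⟨x, y, rfl⟩
        refine ⟨Ideal.Quotient.mk I y, 0, ?_⟩
        rw [map_add, (hI _).2 ⟨x, rfl⟩, map_mul, map_natCast, zero_add, zero_mul, add_zero]
      · rintro ⟨x, y, h⟩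
        obtain ⟨x, rfl⟩ := Ideal.Quotient.mk_surjective x
        rw [mul_zero, add_zero, ← map_natCast (Ideal.Quotient.mk I), ← map_mul, ← sub_eq_zero,
          ← map_sub, hI] at h
        obtain ⟨z, hz⟩ := h
        exact ⟨z, x, by rw [← hz, sub_add_cancel]⟩)
    (fun r ↦ ⟨r, Nat.cast_comm p r, rfl⟩) (fun r ↦ ⟨r, (Nat.cast_comm p r).symm, rfl⟩)
    (by simp) (by simp) hpS ⟨1, 1, 0, by simp⟩ ⟨1, 0, 0, by simp⟩
    (by
      rintro r ⟨y, hy⟩
      obtain ⟨r, rfl⟩ := Ideal.Quotient.mk_surjective r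
      rw [mul_zero, ← map_natCast (Ideal.Quotient.mk I), ← map_mul, hI] at hy
      obtain ⟨z, hz⟩ := hy
      have h1 : (n - N) * r = 0 := by
        refine F1.eq_zero_of_mul hp.ne_zero ?_
        rw [← mul_assoc, hcn, mul_assoc, hz, hc, ← mul_assoc, hnN, zero_mul]
      rw [sub_mul, sub_eq_zero, ← hc] at h1
      refine ⟨0, ?_⟩
      rw [zero_mul, hI]
      refine ⟨α * z + β * r, ?_⟩
      rw [add_mul, mul_assoc, mul_assoc, ← hz, ← h1, ← hone])
    (Or.inl rfl)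
    (fun s t ↦ by
      obtain ⟨s, rfl⟩ := Ideal.Quotient.mk_surjective s
      obtain ⟨t, rfl⟩ := Ideal.Quotient.mk_surjective t
      rw [← map_mul, ← map_mul, hcc, hcc, ← mul_assoc, F1.coeff_one_comm, ← mul_assoc, hcn,
        mul_assoc])
    (fun _ ↦ rfl)
    (fun s hs ↦ by
      obtain ⟨s, rfl⟩ := Ideal.Quotient.mk_surjective s
      obtain ⟨t, ht⟩ := F1.exists_mul_of_dvd p (s := ((n : MonoidAlgebra ℤ G) - N) * s) fun x ↦ by
        have := hs (Ideal.Quotient.mk J (single x⁻¹ 1))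
        rw [← map_mul, hcc, ← mul_assoc, ← hcn, mul_assoc, coeff_single_mul_apply,
          ZMod.intCast_zmod_eq_zero_iff_dvd] at this
        simpa using this
      rw [sub_mul, sub_eq_iff_eq_add] at ht
      rw [hone s, ht]
      simp only [map_add, map_mul, map_natCast, hpS, hNS, zero_mul, mul_zero, add_zero])
    (F1.reg_surj (Ideal.Quotient.mk I) Ideal.Quotient.mk_surjective (reg_group G))
  let φ : G →* MonoidAlgebra ℤ G ⧸ J := (Ideal.Quotient.mk J).toMonoidHom.comp (of ℤ G)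
  have hspan := F1.span_ind (Ideal.Quotient.mk J) Ideal.Quotient.mk_surjective
  refine ⟨_, _, _, _, F1.finite_of_span p hp.ne_zero hpS φ hspan,
    F1.semisimple_of_avg p hpS φ hspan (β' * Ideal.Quotient.mk J η) ?_, Ideal.Quotient.mk I, Δ,
    Ideal.Quotient.mk_surjective, hI, h1, h2⟩
  obtain ⟨x, y, h⟩ := hη
  have h' := congrArg (Ideal.Quotient.mk J) h
  simp only [map_sum, map_mul, map_add, map_intCast, hNS, mul_zero, add_zero, zsmul_eq_mul,
    Int.cast_natCast, map_natCast, hpS, zero_mul] at h'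
  have e : ∀ g, φ g * (β' * Ideal.Quotient.mk J η) * φ g⁻¹ = β' * (Ideal.Quotient.mk J (single g 1)
      * Ideal.Quotient.mk J η * Ideal.Quotient.mk J (single g⁻¹ 1)) := fun g ↦ by
    rw [← mul_assoc (φ g), ← Int.cast_comm, mul_assoc, mul_assoc, mul_assoc]
    rfl
  simp only [e]
  rw [← Finset.mul_sum, h']
  have := congrArg (Int.cast : ℤ → MonoidAlgebra ℤ G ⧸ J) hαβ'
  simpa [hpS] using this

end Pool.Agent.Lib.MP_c13fce_lc
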