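import Pool.Agent.Lib.MP_c13fce_lc.F1Gen

/-! Block F1: regularity of integral group rings. -/

namespace Pool.Agent.Lib.MP_c13fce_lc

namespace F1

theorem reg_semisimple {A : Type} [Ring A] [IsSemisimpleRing A] {ι κ : Type} [Fintype ι]
    [Fintype κ] (H : Matrix ι κ A) : ∃ Y : Matrix κ ι A, H * Y * H = H := by
  classical
  obtain ⟨f, rfl⟩ := (LinearMap.toMatrixRight' (R := A) (m := ι) (n := κ)).surjective H
  obtain ⟨s, hs⟩ := IsSemisimpleModule.lifting_property f.rangeRestrict f.surjective_rangeRestrict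
    LinearMap.id
  obtain ⟨t, ht⟩ := IsSemisimpleModule.extension_property f.range.subtype Subtype.val_injective s
  refine ⟨LinearMap.toMatrixRight' t, ?_⟩
  rw [← LinearMap.toMatrixRight'_comp, ← LinearMap.toMatrixRight'_comp]
  congr 1
  refine LinearMap.ext fun x ↦ ?_
  have h1 : t (f x) = s (f.rangeRestrict x) := LinearMap.congr_fun ht (f.rangeRestrict x)
  have h2 := congrArg Subtype.val (LinearMap.congr_fun hs (f.rangeRestrict x))
  simp only [LinearMap.comp_apply, h1]
  exact h2

open MonoidAlgebra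

theorem clear_den {G : Type} [Group G] (y : MonoidAlgebra ℚ G) :
    ∃ (n : ℤ) (x : MonoidAlgebra ℤ G), n ≠ 0 ∧ mapRingHom G (Int.castRingHom ℚ) x = n • y := by
  induction y using induction_linear with
  | zero => exact ⟨1, 0, one_ne_zero, by simp⟩
  | add y z hy hz =>
    obtain ⟨n, x, hn, hx⟩ := hy
    obtain ⟨m, w, hm, hw⟩ := hz
    refine ⟨n * m, m • x + n • w, mul_ne_zero hn hm, ?_⟩
    rw [map_add, map_zsmul, map_zsmul, hx, hw, smul_add, smul_smul, smul_smul, mul_comm m n]
  | single g r =>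
    refine ⟨r.den, single g r.num, by exact_mod_cast r.den_ne_zero, ?_⟩
    rw [mapRingHom_single, smul_single]
    congr 1
    simp [Rat.den_mul_eq_num]

end F1

open MonoidAlgebra in
theorem reg_group (G : Type) [Group G] [Finite G] : Reg ℤ (MonoidAlgebra ℤ G) := by
  classical
  intro ι κ _ _ H
  have : NeZero (Nat.card G : ℚ) := ⟨by exact_mod_cast Nat.card_pos.ne'⟩
  set φ := mapRingHom G (Int.castRingHom ℚ) with hφ
  have hinj : Function.Injective φ := map_injective _ Int.cast_injective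
  obtain ⟨Y, hY⟩ := F1.reg_semisimple (H.map φ)
  choose n X hn hX using fun (i : κ × ι) ↦ F1.clear_den (Y i.1 i.2)
  let Z : Matrix κ ι (MonoidAlgebra ℤ G) :=
    Matrix.of fun k i ↦ (∏ j ∈ Finset.univ.erase (k, i), n j) • X (k, i)
  have hZ : Z.map φ = (∏ j, n j) • Y := by
    ext1 k i
    change φ ((∏ j ∈ Finset.univ.erase (k, i), n j) • X (k, i)) = (∏ j, n j) • Y k i
    rw [map_zsmul, hX, smul_smul, Finset.prod_erase_mul _ _ (Finset.mem_univ _)]
  refine ⟨Z, ∏ j, n j, Finset.prod_ne_zero_iff.2 fun j _ ↦ hn j, ?_⟩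
  have : (H * Z * H).map φ = (∏ j, n j) • H.map φ := by
    rw [Matrix.map_mul, Matrix.map_mul, hZ, Matrix.mul_smul, Matrix.smul_mul, hY]
  ext1 i k
  apply hinj
  have h := congrFun (congrFun this i) k
  refine h.trans ?_
  exact (map_zsmul φ _ _).symm

end Pool.Agent.Lib.MP_c13fce_lc
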