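import Pool.Agent.Lib.MP_c13fce_lc.Defs4

/-! Block F1, group theory: splitting off the part of the commutator subgroup prime to `p`. -/

namespace Pool.Agent.Lib.MP_c13fce_lc

namespace F1

variable {G : Type} [Group G]

theorem tele {g m x : G} (hm : g * m = m * g) (hx : g * x * g⁻¹ = m * x) (i : ℕ) :
    g ^ i * x * (g ^ i)⁻¹ = m ^ i * x := by
  induction i with
  | zero => simp
  | succ i ih =>
    have hc : Commute g (m ^ i) := Commute.pow_right hm i
    calc g ^ (i + 1) * x * (g ^ (i + 1))⁻¹ = g * (g ^ i * x * (g ^ i)⁻¹) * g⁻¹ := by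
          rw [pow_succ']; group
      _ = (g * m ^ i) * x * g⁻¹ := by rw [ih]; group
      _ = m ^ i * (g * x * g⁻¹) := by rw [hc.eq]; group
      _ = m ^ (i + 1) * x := by rw [hx, pow_succ]; group

theorem eq_one_of_tele {p n : ℕ} (hpn : p.Coprime n) {g m x : G} (hm : g * m = m * g)
    (hx : g * x * g⁻¹ = m * x) (hg : g ^ p = 1) (hn : m ^ n = 1) : m = 1 := by
  have h := tele hm hx p
  rw [hg, inv_one, one_mul, mul_one, eq_comm, mul_eq_right] at h
  have h1 := orderOf_dvd_of_pow_eq_one h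
  have h2 := orderOf_dvd_of_pow_eq_one hn
  exact orderOf_eq_one_iff.1 (Nat.eq_one_of_dvd_coprimes hpn h1 h2)

theorem normal_zpowers {c t : G} [h : (Subgroup.zpowers c).Normal] (ht : t ∈ Subgroup.zpowers c) :
    (Subgroup.zpowers t).Normal := by
  obtain ⟨j, rfl⟩ := ht
  refine ⟨?_⟩
  rintro _ ⟨i, rfl⟩ x
  obtain ⟨k, hk⟩ := h.conj_mem c (Subgroup.mem_zpowers c) x
  refine ⟨i * k, ?_⟩
  simp only at hk ⊢
  rw [← conj_zpow, ← conj_zpow, ← hk, ← zpow_mul, ← zpow_mul, ← zpow_mul]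
  congr 1
  ring

end F1

theorem exists_split (p : ℕ) [Fact p.Prime] (G : Type) [Group G] [Finite G]
    (hG : Squarefree (Nat.card G)) (hp : p ∣ Nat.card G) :
    ∃ (K : Subgroup G) (_ : K.Normal) (g : G), orderOf g = p ∧ ¬ p ∣ Nat.card K ∧
      (∀ m ∈ K, g * m = m * g → m = 1) ∧ (Subgroup.zpowers (g : G ⧸ K)).Normal := by
  have hpp : p.Prime := Fact.out
  have := IsZGroup.of_squarefree hG
  have hcyc : IsCyclic (commutator G) := IsZGroup.isCyclic_commutator G
  obtain ⟨c, hc⟩ := (Subgroup.isCyclic_iff_exists_zpowers_eq_top _).1 hcyc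
  have hcn : (Subgroup.zpowers c).Normal := hc ▸ inferInstance
  by_cases hd : p ∣ Nat.card (commutator G)
  · obtain ⟨g, hg⟩ := exists_prime_orderOf_dvd_card' p hd
    refine ⟨⊥, inferInstance, g, by simpa using hg, by simpa using hpp.one_lt.ne',
      fun m hm _ ↦ hm, ?_⟩
    have h1 : (Subgroup.zpowers (g : G)).Normal := F1.normal_zpowers (c := c) (by rw [hc]; exact g.2)
    have h2 := h1.map (QuotientGroup.mk' ⊥) (QuotientGroup.mk'_surjective _)
    rwa [MonoidHom.map_zpowers] at h2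
  · obtain ⟨g, hg⟩ := exists_prime_orderOf_dvd_card' p hp
    have hgp : g ^ p = 1 := hg ▸ pow_orderOf_eq_one g
    have hcop : p.Coprime (Nat.card (commutator G)) := (Nat.Prime.coprime_iff_not_dvd hpp).2 hd
    have hcom : ∀ x : G, g * x * g⁻¹ * x⁻¹ ∈ Subgroup.zpowers c := fun x ↦ by
      rw [hc]
      exact Subgroup.commutator_mem_commutator (Subgroup.mem_top g) (Subgroup.mem_top x)
    have hpow : ∀ m ∈ Subgroup.zpowers c, m ^ Nat.card (commutator G) = 1 := fun m hm ↦ by
      have := pow_card_eq_one' (G := commutator G) (x := ⟨m, hc ▸ hm⟩)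
      exact congrArg Subtype.val this
    have hle : Subgroup.zpowers (g * c * g⁻¹ * c⁻¹) ≤ Subgroup.zpowers c :=
      (Subgroup.zpowers_le_of_mem (hcom c))
    have hj : ∀ j : ℤ, (g * c * g⁻¹ * c⁻¹) ^ j = g * c ^ j * g⁻¹ * (c ^ j)⁻¹ := fun j ↦ by
      obtain ⟨k, hk⟩ := hcn.conj_mem c (Subgroup.mem_zpowers c) g
      simp only at hk
      have : Commute (g * c * g⁻¹) c⁻¹ := hk ▸ ((Commute.refl c).zpow_left k).inv_right
      rw [this.mul_zpow, conj_zpow, inv_zpow]
    have hKn : (Subgroup.zpowers (g * c * g⁻¹ * c⁻¹)).Normal := F1.normal_zpowers (hcom c)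
    refine ⟨_, hKn, g, hg, fun h ↦ hd (h.trans (hc ▸ Subgroup.card_dvd_of_le hle)), ?_, ?_⟩
    · intro m hm hgm
      obtain ⟨j, hj'⟩ := hm
      simp only [hj] at hj'
      exact F1.eq_one_of_tele hcop hgm (x := c ^ j) (by rw [← hj']; group) hgp
        (hpow m (hle ⟨j, by simp only [hj, hj']⟩))
    · have hcen : ∀ x : G ⧸ Subgroup.zpowers (g * c * g⁻¹ * c⁻¹), (g : _) * x = x * g := by
        intro x
        obtain ⟨x, rfl⟩ := QuotientGroup.mk_surjective x
        obtain ⟨j, hx⟩ := hcom x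
        simp only at hx
        have h1 : ((g * c ^ j * g⁻¹ * (c ^ j)⁻¹ : G) :
            G ⧸ Subgroup.zpowers (g * c * g⁻¹ * c⁻¹)) = 1 :=
          (QuotientGroup.eq_one_iff _).2 ⟨j, hj j⟩
        simp only [QuotientGroup.mk_mul, QuotientGroup.mk_inv,
          mul_inv_eq_iff_eq_mul, one_mul] at h1
        have h2 := F1.eq_one_of_tele hcop h1 (x := (x : G ⧸ _))
          (by
            rw [hx]
            simp only [QuotientGroup.mk_mul, QuotientGroup.mk_inv]
            group)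
          (by rw [← QuotientGroup.mk_pow, hgp, QuotientGroup.mk_one])
          (by rw [← QuotientGroup.mk_pow, hpow _ ⟨j, rfl⟩, QuotientGroup.mk_one])
        rw [hx] at h2
        simpa only [QuotientGroup.mk_mul, QuotientGroup.mk_inv,
          mul_inv_eq_iff_eq_mul, one_mul] using h2
      refine ⟨?_⟩
      rintro _ ⟨i, rfl⟩ x
      refine ⟨i, ?_⟩
      have : Commute (g : G ⧸ Subgroup.zpowers (g * c * g⁻¹ * c⁻¹)) x := hcen x
      simp only
      rw [← (this.zpow_left i).eq, mul_inv_cancel_right]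

end Pool.Agent.Lib.MP_c13fce_lc
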