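import Pool.Agent.Lib.MP_c13fce_lc.Defs2

/-! The integral group ring of a finite group has primitive recursive operations. -/

set_option autoImplicit false

namespace Pool.Agent.Lib.MP_c13fce_lc

namespace F2

open Encodable

section Int
variable {α : Type} [Primcodable α]

lemma enc_ofNat (n : ℕ) : encode (Int.ofNat n) = 2 * n :=
  congrFun Equiv.natSumNatEquivNat_apply (Sum.inl n)

lemma enc_negSucc (n : ℕ) : encode (Int.negSucc n) = 2 * n + 1 :=
  congrFun Equiv.natSumNatEquivNat_apply (Sum.inr n)

lemma pr_half : Primrec fun z : ℤ => encode z / 2 :=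
  Primrec.nat_div.comp Primrec.encode (Primrec.const 2)

lemma pr_par : PrimrecPred fun z : ℤ => encode z % 2 = 0 :=
  Primrec.eq.comp (Primrec.nat_mod.comp Primrec.encode (Primrec.const 2)) (Primrec.const 0)

lemma pr_pos {f : α → ℤ} (hf : Primrec f) : Primrec fun a => (f a).toNat := by
  refine ((Primrec.ite pr_par pr_half (Primrec.const 0)).of_eq fun z => ?_).comp hf
  cases z with
  | ofNat n => rw [enc_ofNat]; simp
  | negSucc n => rw [enc_negSucc]; simp

lemma pr_negp {f : α → ℤ} (hf : Primrec f) : Primrec fun a => (-f a).toNat := by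
  refine ((Primrec.ite pr_par (Primrec.const 0) (Primrec.succ.comp pr_half)).of_eq
    (g := fun z : ℤ => (-z).toNat) fun z => ?_).comp hf
  cases z with
  | ofNat n => rw [enc_ofNat]; simp
  | negSucc n =>
    rw [enc_negSucc]
    have : (2 * n + 1) / 2 = n := by omega
    simp [this, Int.neg_negSucc]

lemma pr_diff {f g : α → ℕ} (hf : Primrec f) (hg : Primrec g) :
    Primrec fun a => (f a : ℤ) - g a := by
  refine Primrec.encode_iff.1 ((Primrec.ite (Primrec.nat_le.comp hg hf)
    (Primrec.nat_mul.comp (Primrec.const 2) (Primrec.nat_sub.comp hf hg))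
    (Primrec.succ.comp (Primrec.nat_mul.comp (Primrec.const 2)
      (Primrec.pred.comp (Primrec.nat_sub.comp hg hf))))).of_eq fun a => ?_)
  split_ifs with h
  · rw [← enc_ofNat]; congr 1; simp [h]
  · rw [Nat.succ_eq_add_one, ← enc_negSucc]; congr 1; rw [Int.negSucc_eq, Nat.pred_eq_sub_one]; omega

lemma pr_add {f g : α → ℤ} (hf : Primrec f) (hg : Primrec g) : Primrec fun a => f a + g a :=
  (pr_diff (Primrec.nat_add.comp (pr_pos hf) (pr_pos hg))
    (Primrec.nat_add.comp (pr_negp hf) (pr_negp hg))).of_eq fun a => by omega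

lemma pr_neg {f : α → ℤ} (hf : Primrec f) : Primrec fun a => -f a :=
  (pr_diff (pr_negp hf) (pr_pos hf)).of_eq fun a => by omega

lemma pr_mul {f g : α → ℤ} (hf : Primrec f) (hg : Primrec g) : Primrec fun a => f a * g a :=
  (pr_diff (Primrec.nat_add.comp (Primrec.nat_mul.comp (pr_pos hf) (pr_pos hg))
      (Primrec.nat_mul.comp (pr_negp hf) (pr_negp hg)))
    (Primrec.nat_add.comp (Primrec.nat_mul.comp (pr_pos hf) (pr_negp hg))
      (Primrec.nat_mul.comp (pr_negp hf) (pr_pos hg)))).of_eq fun a => by
    conv_rhs => rw [← Int.toNat_sub_toNat_neg (f a), ← Int.toNat_sub_toNat_neg (g a)]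
    push_cast; ring

lemma pr_abs {f : α → ℤ} (hf : Primrec f) : Primrec fun a => (f a).natAbs :=
  (Primrec.nat_add.comp (pr_pos hf) (pr_negp hf)).of_eq fun a => by omega

lemma pr_sum {ι : Type} (s : Finset ι) {f : ι → α → ℤ} (hf : ∀ i, Primrec (f i)) :
    Primrec fun a => ∑ i ∈ s, f i a := by
  classical
  induction s using Finset.induction_on with
  | empty => exact (Primrec.const 0).of_eq fun a => by simp
  | insert i s hi ih => exact (pr_add (hf i) ih).of_eq fun a => by rw [Finset.sum_insert hi]

end Int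

section Grp
variable {G : Type} [Group G] {n : ℕ} (e : Fin n ≃ G)

/-- Coordinates on the group ring. -/
noncomputable def coords : MonoidAlgebra ℤ G ≃ (Fin n → ℤ) where
  toFun r i := r.coeff (e i)
  invFun c := .ofCoeff ((@Finsupp.equivFunOnFinite G ℤ _ (.of_equiv _ e)).symm fun g => c (e.symm g))
  left_inv r := by ext; simp
  right_inv c := by ext; simp

/-- The coding of the group ring by the list of coefficients. -/
@[reducible] noncomputable def pcod : Primcodable (MonoidAlgebra ℤ G) := .ofEquiv _ (coords e)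

omit [Group G] in
lemma pcod_encode (r : MonoidAlgebra ℤ G) :
    (pcod e).encode r = encode (List.ofFn fun i => r.coeff (e i)) := by
  rw [← List.Vector.toList_ofFn]; rfl

omit [Group G] in
lemma pr_iff {α : Type} [Primcodable α] {f : α → MonoidAlgebra ℤ G} :
    @Primrec _ _ _ (pcod e) f ↔ ∀ g, Primrec fun a => (f a).coeff g := by
  rw [← Primrec.of_equiv_iff (coords e), Primrec.fin_curry, ← e.forall_congr_right]
  exact ⟨fun h i => h.comp Primrec.id (Primrec.const i), fun h => (Primrec.fin_curry₁.2 h).swap⟩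

lemma coeff_natCast_mul (q : ℕ) (s : MonoidAlgebra ℤ G) (g : G) :
    ((q : MonoidAlgebra ℤ G) * s).coeff g = q * s.coeff g := by
  rw [← nsmul_eq_mul, MonoidAlgebra.coeff_smul_apply, nsmul_eq_mul]

/-- The computable ring structure. -/
noncomputable def compRing : @CompRing (MonoidAlgebra ℤ G) _ (pcod e) :=
  letI := pcod e
  letI := Fintype.ofEquiv _ e
  have c1 := (pr_iff e).1 (Primrec.fst (α := MonoidAlgebra ℤ G) (β := MonoidAlgebra ℤ G))
  have c2 := (pr_iff e).1 (Primrec.snd (α := MonoidAlgebra ℤ G) (β := MonoidAlgebra ℤ G))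
  { add := (pr_iff e).2 fun g => pr_add (c1 g) (c2 g)
    mul := (pr_iff e).2 fun g => (pr_sum Finset.univ fun h => pr_mul (c1 h) (c2 (h⁻¹ * g))).of_eq
      fun a => by rw [MonoidAlgebra.coeff_mul_apply_left, Finsupp.sum_fintype _ _ (by simp)]
    neg := (pr_iff e).2 fun g => pr_neg ((pr_iff e).1 Primrec.id g)
    reps q := (List.range (q ^ n)).map fun k => (coords e).symm fun i => (k / q ^ (i : ℕ) % q : ℕ)
    reps_prim := by
      have pw : Primrec₂ fun a b : ℕ => a ^ b := Primrec₂.unpaired'.1 Nat.Primrec.pow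
      refine Primrec.list_map (Primrec.list_range.comp (pw.comp Primrec.id (Primrec.const n)))
        ((pr_iff e).2 fun g => (pr_diff (Primrec.nat_mod.comp (Primrec.nat_div.comp Primrec.snd
          (pw.comp Primrec.fst (Primrec.const (e.symm g : ℕ)))) Primrec.fst)
          (Primrec.const 0)).of_eq fun a => by simp [coords])
    reps_spec q hq r := by
      have h0 : (q : ℤ) ≠ 0 := by omega
      have hl : ∀ z : ℤ, (z % q).toNat < q := fun z => by
        have := Int.emod_lt_of_pos z (show (0 : ℤ) < q by omega)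
        omega
      let k := finFunctionFinEquiv fun i : Fin n => (⟨_, hl (r.coeff (e i))⟩ : Fin q)
      refine ⟨_, List.mem_map.2 ⟨k, List.mem_range.2 k.2, rfl⟩,
        (coords e).symm fun i => r.coeff (e i) / q, ?_⟩
      ext g
      have := finFunctionFinEquiv_symm_apply_val k (e.symm g)
      simp only [k, Equiv.symm_apply_apply, Equiv.apply_symm_apply] at this
      simp only [coords, Equiv.coe_fn_symm_mk, MonoidAlgebra.coeff_add, Finsupp.add_apply,
        Finsupp.equivFunOnFinite_symm_apply_apply, coeff_natCast_mul,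
        Equiv.apply_symm_apply, k, ← this]
      rw [Int.toNat_of_nonneg (Int.emod_nonneg _ h0), Int.emod_add_mul_ediv]
    dv q r := decide ((fun i => (r.coeff (e i)).natAbs % q) = fun _ => 0)
    dv_prim := (Primrec.eq.comp (Primrec.fin_curry.2 (Primrec.fin_curry₁.2 fun i =>
      Primrec.nat_mod.comp (pr_abs ((pr_iff e).1 Primrec.snd (e i))) Primrec.fst).swap)
      (Primrec.const _)).decide
    dv_spec q r := by
      rw [decide_eq_true_iff, funext_iff]
      simp only [← Nat.dvd_iff_mod_eq_zero, ← Int.natCast_dvd]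
      refine ⟨fun h => ⟨(coords e).symm fun i => r.coeff (e i) / q, ?_⟩, ?_⟩
      · ext g
        have := h (e.symm g)
        simp only [coords, Equiv.coe_fn_symm_mk, Finsupp.equivFunOnFinite_symm_apply_apply,
          coeff_natCast_mul, Equiv.apply_symm_apply] at this ⊢
        rw [Int.mul_ediv_cancel' this]
      · rintro ⟨s, rfl⟩ i
        simp only [coeff_natCast_mul, dvd_mul_right] }

end Grp

end F2

end Pool.Agent.Lib.MP_c13fce_lc
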