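import Pool.Agent.Lib.MP_c13fce_lc.Defs4

/-! Group ring lemmas for the assembly. -/

set_option autoImplicit false

namespace Pool.Agent.Lib.MP_c13fce_lc

namespace F2

open Function MonoidAlgebra

section Gen
variable {R Λ : Type} [Ring R] [Ring Λ]

lemma set_map (f : R → Λ) (φ : PP R) (M : Type) [AddCommGroup M] [Module R M] [Module Λ M]
    (h : ∀ r (x : M), f r • x = r • x) : (φ.map f).set M = φ.set M := by
  ext x
  exact exists_congr fun y => forall_congr' fun i => by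
    show f _ • x + ∑ k : φ.κ, f _ • y k = 0 ↔ _
    simp only [h]

lemma le_map (f : R →+* Λ) {φ ψ : PP R} (h : ψ.Le φ) : (ψ.map f).Le (φ.map f) := fun M _ _ => by
  let := Module.compHom M f
  rw [set_map f φ M fun _ _ => rfl, set_map f ψ M fun _ _ => rfl]
  exact h M

lemma exists_mod (f : R →+* Λ) (hf : Surjective f) (M : Type) [AddCommGroup M] [Module R M]
    (h : ∀ r, f r = 0 → ∀ x : M, r • x = 0) :
    ∃ _ : Module Λ M, ∀ r (x : M), f r • x = r • x :=
  let g : {g : R →+* AddMonoid.End M // RingHom.ker f ≤ RingHom.ker g} :=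
    ⟨Module.toAddMonoidEnd R M, fun r hr => AddMonoidHom.ext (h r hr)⟩
  ⟨Module.compHom M (f.liftOfSurjective hf g), fun r x => DFunLike.congr_fun
    (f.liftOfRightInverse_comp_apply _ (rightInverse_surjInv hf) g r) x⟩

variable {M M₁ M₂ : Type} [AddCommGroup M] [Module R M] [AddCommGroup M₁] [Module R M₁]
  [AddCommGroup M₂] [Module R M₂]

lemma bound_retract (i : M₁ →ₗ[R] M) (pr : M →ₗ[R] M₁) (h : ∀ x, pr (i x) = x) {φ ψ : PP R} {n : ℕ}
    (hk : ∀ x ∈ φ.set M, n • x ∈ ψ.set M) : ∀ x ∈ φ.set M₁, n • x ∈ ψ.set M₁ := fun x hx => by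
  simpa [h] using ψ.map_mem pr (hk _ (φ.map_mem i hx))

lemma match_prod (e : (M₁ × M₂) ≃ₗ[R] M) {ι : Type} {B : ℕ} {φ ψ : ι → PP R}
    {C₁ C₂ : List (ModuleCat.{0} R)} (h₁ : Match B φ ψ M₁ C₁) (h₂ : Match B φ ψ M₂ C₂) :
    Match B φ ψ M (C₁ ++ C₂) := fun i => by
  rw [← ind_congr _ _ e, ind_prod, List.map_append, List.prod_append]
  exact min_mul_congr (one_le_ind _ _) (one_le_list_prod _ _ fun _ => one_le_ind _ _)
    (one_le_ind _ _) (one_le_list_prod _ _ fun _ => one_le_ind _ _) (h₁ i) (h₂ i)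

/-- Multiplication by a central element. -/
def cmul (M : Type) [AddCommGroup M] [Module R M] {N : R} (hc : ∀ r, r * N = N * r) :
    M →ₗ[R] M where
  toFun x := N • x
  map_add' := smul_add N
  map_smul' r x := by simp only [smul_smul, hc, RingHom.id_apply]

lemma isCompl_cmul {N : R} (hc : ∀ r, r * N = N * r) {n : ℕ} (hN : N * N = n • N)
    (hn : Bijective fun x : M => n • x) :
    IsCompl (LinearMap.range (cmul M hc)) (LinearMap.ker (cmul M hc)) := by
  have key : ∀ y : M, N • N • y = n • N • y := fun y => by rw [smul_smul, hN, smul_assoc]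
  refine ⟨Submodule.disjoint_def.2 ?_, codisjoint_iff.2 (eq_top_iff.2 fun x _ => ?_)⟩
  · rintro _ ⟨y, rfl⟩ hy
    exact hn.1 (((key y).symm.trans hy).trans (smul_zero n).symm)
  · obtain ⟨y, rfl⟩ := hn.2 x
    refine Submodule.mem_sup.2 ⟨N • y, ⟨y, rfl⟩, n • y - N • y, ?_, by simp⟩
    show N • (n • y - N • y) = 0
    rw [smul_sub, key, smul_comm, sub_self]

end Gen

section Grp
variable {G : Type} [Group G] [Fintype G] (K : Subgroup G)

open Classical in
/-- The sum of the elements of a subgroup. -/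
noncomputable def nrm : MonoidAlgebra ℤ G := ∑ m ∈ Finset.univ.filter (· ∈ K), single m 1

open Classical in
lemma coeff_nrm (x : G) : (nrm K).coeff x = if x ∈ K then 1 else 0 := by
  simp [nrm, Finsupp.single_apply]

lemma nrm_sq : nrm K * nrm K = Nat.card K • nrm K := by
  classical
  have : ∀ m ∈ Finset.univ.filter (· ∈ K), single m (1 : ℤ) * nrm K = nrm K := fun m hm => by
    ext x
    simp [coeff_nrm, K.mul_mem_cancel_left (K.inv_mem (Finset.mem_filter.1 hm).2)]
  conv_lhs => arg 1; unfold nrm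
  rw [Finset.sum_mul, Finset.sum_congr (by convert rfl) this, Finset.sum_const,
    Nat.card_eq_fintype_card, Fintype.card_subtype]

variable [hK : K.Normal]

lemma nrm_comm (r : MonoidAlgebra ℤ G) : r * nrm K = nrm K * r := by
  induction r using MonoidAlgebra.induction_linear with
  | zero => simp
  | add x y hx hy => rw [add_mul, mul_add, hx, hy]
  | single g c => 
    ext x
    have : x * g⁻¹ ∈ K ↔ g⁻¹ * x ∈ K := hK.mem_comm_iff
    rw [coeff_mul_single_apply, coeff_single_mul_apply, coeff_nrm, coeff_nrm, this, mul_comm]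

lemma coeff_mul_nrm (r : MonoidAlgebra ℤ G) (x : G) :
    (r * nrm K).coeff x = (mapDomain (QuotientGroup.mk' K) r).coeff (x : G ⧸ K) := by
  classical
  induction r using MonoidAlgebra.induction_linear with
  | zero => simp [mapDomain_zero]
  | add a b ha hb => simp [add_mul, mapDomain_add, ha, hb]
  | single g c => simp [coeff_nrm, mapDomain_single, Finsupp.single_apply, QuotientGroup.eq]

lemma exists_eta {p u : ℕ} (hp : p.Prime) {g : G} (hg : orderOf g = p)
    (hu : Fintype.card G = p * u) (hfree : ∀ m ∈ K, g * m = m * g → m = 1) :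
    ∃ η : MonoidAlgebra ℤ G, ∑ γ : G, single γ 1 * η * single γ⁻¹ 1 = u • (1 - nrm K) := by
  classical
  let P := Subgroup.zpowers g
  have cP : Nat.card P = p := by rw [Nat.card_zpowers, hg]
  let O : G → Set G := fun x => {y | ∃ δ : P, y = (δ : G)⁻¹ * x * δ}
  have hO : ∀ (x : G) (δ : P), O ((δ : G)⁻¹ * x * δ) = O x := fun x δ => Set.ext fun y =>
    ⟨fun ⟨ε, h⟩ => ⟨δ * ε, by simp [h, mul_assoc]⟩, fun ⟨ε, h⟩ => ⟨δ⁻¹ * ε, by simp [h, mul_assoc]⟩⟩
  let c : G → ℤ := fun x => if (x ∈ K ∧ x ≠ 1) ∧ x = Classical.epsilon (· ∈ O x) then 1 else 0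
  have conj : ∀ x γ : G, (γ⁻¹ * x * γ ∈ K ∧ γ⁻¹ * x * γ ≠ 1) ↔ (x ∈ K ∧ x ≠ 1) := fun x γ => by
    rw [hK.mem_comm_iff, mul_inv_cancel_left, Ne, mul_assoc, inv_mul_eq_one, eq_comm, mul_eq_right]
  have h1 : ∀ x, x ∈ K ∧ x ≠ 1 → ∑ δ : P, c ((δ : G)⁻¹ * x * δ) = 1 := fun x hx => by
    obtain ⟨δ, hδ⟩ := Classical.epsilon_spec (p := (· ∈ O x)) ⟨x, 1, by simp⟩
    simp only [c, conj, hO, hx, hδ, ne_eq, not_false_eq_true, and_self, true_and]
    rw [Fintype.sum_eq_single δ fun ε hε => if_neg fun h => ?_, if_pos rfl]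
    have : Fact (Nat.card P).Prime := ⟨cP ▸ hp⟩
    have hm : ε * δ⁻¹ ∈ (Subgroup.centralizer {x}).subgroupOf P := by
      simp only [Subgroup.mem_subgroupOf, Subgroup.mem_centralizer_singleton_iff]
      have : x = ε * ((δ : G)⁻¹ * x * δ) * (ε : G)⁻¹ := by rw [← h]; group
      conv_rhs => rw [this]
      simp [mul_assoc]
    rcases ((Subgroup.centralizer {x}).subgroupOf P).eq_bot_or_eq_top_of_prime_card with a | a
    · exact hε (mul_inv_eq_one.1 (Subgroup.mem_bot.1 (a ▸ hm)))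
    · have : (⟨g, Subgroup.mem_zpowers g⟩ : P) ∈ (Subgroup.centralizer {x}).subgroupOf P :=
        a ▸ Subgroup.mem_top _
      exact hx.2 (hfree x hx.1 (Subgroup.mem_centralizer_singleton_iff.1 this))
  have h2 : ∀ x, x ∈ K ∧ x ≠ 1 → ∑ γ : G, c (γ⁻¹ * x * γ) = u := fun x hx => by
    refine mul_left_cancel₀ (Int.natCast_ne_zero.2 hp.ne_zero) ?_
    have : ∀ δ : P, ∑ γ : G, c ((δ : G)⁻¹ * (γ⁻¹ * x * γ) * δ) = ∑ γ : G, c (γ⁻¹ * x * γ) :=
      fun δ => Fintype.sum_equiv (Equiv.mulRight (δ : G)) _ _ fun γ => by simp [mul_assoc]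
    rw [← Nat.cast_mul, ← hu, ← cP, Nat.card_eq_fintype_card, ← nsmul_eq_mul, ← Finset.card_univ,
      ← Finset.sum_const, ← Finset.sum_congr rfl fun δ _ => this δ, Finset.sum_comm,
      Finset.sum_congr rfl fun γ _ => h1 _ ((conj x γ).2 hx)]
    simp
  refine ⟨.ofCoeff (Finsupp.equivFunOnFinite.symm fun x => -c x), ?_⟩
  ext x
  simp only [one_def, coeff_sum, Finsupp.finsetSum_apply, coeff_mul_single_apply,
    coeff_single_mul_apply, inv_inv, Finsupp.equivFunOnFinite_symm_apply_apply, one_mul, mul_one,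
    Finset.sum_neg_distrib, ← mul_assoc, coeff_smul_apply, coeff_sub, Finsupp.sub_apply, coeff_nrm,
    coeff_single, Finsupp.single_apply]
  by_cases hx : x ∈ K ∧ x ≠ 1
  · rw [h2 x hx]; simp [hx.1, hx.2.symm]
  · rw [Finset.sum_eq_zero fun γ _ => if_neg fun h => hx ((conj x γ).1 h.1)]
    by_cases e : x = 1
    · simp [e]
    · simp [Ne.symm e, show x ∉ K from fun h => hx ⟨h, e⟩]

end Grp

lemma twist_zpow {p : ℕ} {H : Type} [Group H]
    (σ : MonoidAlgebra (ZMod p) H ≃ₐ[ℤ] MonoidAlgebra (ZMod p) H) (ω : H →* (ZMod p)ˣ)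
    (hσ : ∀ h, σ (single h 1) = single h (ω h : ZMod p)) (m : ℤ) (h : H) (c : ZMod p) :
    (σ ^ m) (single h c) = single h (c * (ω h ^ m : (ZMod p)ˣ)) := by
  have h1 : ∀ c : ZMod p, σ (single h c) = single h (c * ω h) := fun c => by
    obtain ⟨z, rfl⟩ := ZMod.intCast_surjective c
    rw [← zsmul_one, ← smul_single, map_zsmul, hσ, smul_single, zsmul_eq_mul, zsmul_one]
  induction m using Int.induction_on generalizing c with
  | zero => simp
  | succ n ih => rw [zpow_add_one, AlgEquiv.mul_apply, h1, ih, zpow_add_one]; simp; ring_nf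
  | pred n ih =>
    have : σ⁻¹ (single h c) = single h (c * (ω h)⁻¹) := by
      rw [AlgEquiv.aut_inv, AlgEquiv.symm_apply_eq, h1, Units.inv_mul_cancel_right]
    rw [zpow_sub_one, AlgEquiv.mul_apply, this, ih, zpow_sub_one, Units.val_mul]; ring_nf

end F2

end Pool.Agent.Lib.MP_c13fce_lc
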