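import Pool.Agent.Lib.MP_c13fce_lc.LogA2
import Pool.Agent.Lib.MP_c13fce_lc.BMk

/-! Block A1: validity is recursively enumerable; decidability from the consistent claims. -/

namespace Pool.Agent.Lib.MP_c13fce_lc

open Pool.Agent.Lib.MP_a1ec0a_al Encodable

namespace LogA

variable {R : Type} [Ring R] [Primcodable R]

def fAnd (a b : ℕ) : ℕ := fNot (fImp a (fNot b))
def fEx (i a : ℕ) : ℕ := fNot (fAll i (fNot a))
def fTrue : ℕ := fEq tZero tZero
def bigAnd (l : List ℕ) : ℕ := l.foldr fAnd fTrue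
def exs (l : List ℕ) (a : ℕ) : ℕ := l.foldr fEx a
def sumT (l : List ℕ) : ℕ := l.foldr tAdd tZero
def width (L : PPc R) : ℕ := (L.map List.length).foldr (· + ·) 0

/-- The code of a pp formula applied to the term `t`, with bound variables from `N` on. -/
def ppC (L : PPc R) (t N : ℕ) : ℕ :=
  exs ((List.range (width L)).map (N + ·)) (bigAnd (L.map fun row =>
    fEq (tAdd (tSmul (row.getD 0 0) t) (sumT ((List.range (width L)).map fun k =>
      tSmul (row.getD (k + 1) 0) (tVar (N + k))))) tZero))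

/-- The code of the sentence `n ≤ ind φ ψ`. -/
def geC (φ ψ : PPc R) (n : ℕ) : ℕ :=
  exs (List.range n) (fAnd (bigAnd ((List.range n).map fun i => ppC φ (tVar i) n))
    (bigAnd ((List.range n).flatMap fun i => (List.range n).map fun j =>
      bif i == j then fTrue else fNot (ppC ψ (tAdd (tVar i) (tNeg (tVar j))) n))))

def claimC (c : Claim R) : ℕ :=
  bif c.2.2.2 then geC c.1 c.2.1 c.2.2.1 else fNot (geC c.1 c.2.1 c.2.2.1)

def claimsC (χ : List (Claim R)) : ℕ := bigAnd (χ.map claimC)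

section PRs
variable {α : Type} [Primcodable α]

@[fun_prop] theorem pr_fNot {f : α → ℕ} (hf : PR f) : PR fun a => fNot (f a) := by
  unfold fNot; fun_prop
@[fun_prop] theorem pr_tVar {f : α → ℕ} (hf : PR f) : PR fun a => tVar (f a) := by
  unfold tVar; fun_prop
@[fun_prop] theorem pr_tNeg {f : α → ℕ} (hf : PR f) : PR fun a => tNeg (f a) := by
  unfold tNeg; fun_prop
@[fun_prop] theorem pr_tAdd {f g : α → ℕ} (hf : PR f) (hg : PR g) :
    PR fun a => tAdd (f a) (g a) := by unfold tAdd; fun_prop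
omit [Ring R] in
@[fun_prop] theorem pr_tSmul {f : α → R} {g : α → ℕ} (hf : PR f) (hg : PR g) :
    PR fun a => tSmul (f a) (g a) := by unfold tSmul; fun_prop
@[fun_prop] theorem pr_fEq {f g : α → ℕ} (hf : PR f) (hg : PR g) :
    PR fun a => fEq (f a) (g a) := by unfold fEq; fun_prop
@[fun_prop] theorem pr_fImp {f g : α → ℕ} (hf : PR f) (hg : PR g) :
    PR fun a => fImp (f a) (g a) := by unfold fImp; fun_prop
@[fun_prop] theorem pr_fAnd {f g : α → ℕ} (hf : PR f) (hg : PR g) :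
    PR fun a => fAnd (f a) (g a) := by unfold fAnd; fun_prop
@[fun_prop] theorem pr_fEx {f g : α → ℕ} (hf : PR f) (hg : PR g) :
    PR fun a => fEx (f a) (g a) := by unfold fEx fAll; fun_prop
@[fun_prop] theorem pr_bigAnd {f : α → List ℕ} (hf : PR f) : PR fun a => bigAnd (f a) :=
  PR.foldr (f := fun _ => fAnd) (by fun_prop) hf (PR.const _)
@[fun_prop] theorem pr_exs {f : α → List ℕ} {g : α → ℕ} (hf : PR f) (hg : PR g) :
    PR fun a => exs (f a) (g a) := PR.foldr (f := fun _ => fEx) (by fun_prop) hf hg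
@[fun_prop] theorem pr_sumT {f : α → List ℕ} (hf : PR f) : PR fun a => sumT (f a) :=
  PR.foldr (f := fun _ => tAdd) (by fun_prop) hf (PR.const _)
omit [Ring R] in
@[fun_prop] theorem pr_width {f : α → PPc R} (hf : PR f) : PR fun a => width (f a) :=
  PR.foldr (f := fun _ => (· + ·)) (by fun_prop) (by fun_prop) (PR.const _)
@[fun_prop] theorem pr_ppC {f : α → PPc R} {g k : α → ℕ} (hf : PR f) (hg : PR g) (hk : PR k) :
    PR fun a => ppC (f a) (g a) (k a) := by unfold ppC; fun_prop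
@[fun_prop] theorem pr_geC {f g : α → PPc R} {k : α → ℕ} (hf : PR f) (hg : PR g) (hk : PR k) :
    PR fun a => geC (f a) (g a) (k a) := by unfold geC; fun_prop

theorem pr_claimsC : PR (claimsC (R := R)) := by
  unfold claimsC claimC; fun_prop

end PRs

section Sem
variable {M : Type} [AddCommGroup M] [Module R M]

theorem sat_and (a b : ℕ) (v : ℕ → M) :
    (decF R (fAnd a b)).Sat v ↔ (decF R a).Sat v ∧ (decF R b).Sat v := by
  simp [fAnd, Fm.Sat]

theorem sat_true (v : ℕ → M) : (decF R fTrue).Sat v := by simp [fTrue, Fm.Sat]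

theorem sat_bigAnd (l : List ℕ) (v : ℕ → M) :
    (decF R (bigAnd l)).Sat v ↔ ∀ a ∈ l, (decF R a).Sat v := by
  induction l with
  | nil => simpa [bigAnd] using sat_true v
  | cons a l ih => rw [List.forall_mem_cons, ← ih]; exact sat_and _ _ v

theorem sat_exs (l : List ℕ) (a : ℕ) (v : ℕ → M) : (decF R (exs l a)).Sat v ↔
    ∃ w : ℕ → M, (∀ i, i ∉ l → w i = v i) ∧ (decF R a).Sat w := by
  induction l generalizing v with
  | nil =>
    refine ⟨fun h => ⟨v, fun _ _ => rfl, h⟩, fun ⟨w, h1, h2⟩ => ?_⟩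
    rwa [show w = v from funext fun i => h1 i (by simp)] at h2
  | cons i l ih =>
    change (decF R (fEx i (exs l a))).Sat v ↔ _
    simp only [fEx, decF_not, decF_all, Fm.Sat, not_forall, not_not, ih]
    constructor
    · rintro ⟨x, w, h1, h2⟩
      refine ⟨w, fun j hj => ?_, h2⟩
      rw [List.mem_cons, not_or] at hj
      rw [h1 j hj.2, Function.update_of_ne hj.1]
    · rintro ⟨w, h1, h2⟩
      refine ⟨w i, w, fun j hj => ?_, h2⟩
      by_cases e : j = i
      · subst e; simp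
      · rw [Function.update_of_ne e]; exact h1 j (by simp [e, hj])

theorem val_sumT (f : ℕ → ℕ) (n : ℕ) (v : ℕ → M) :
    (decT R (sumT ((List.range n).map f))).val v = ∑ k : Fin n, (decT R (f k)).val v := by
  have h : ∀ l : List ℕ, (decT R (sumT l)).val v = (l.map fun s => (decT R s).val v).sum := by
    intro l
    induction l with
    | nil => simp [sumT, Tm.val]
    | cons a l ih =>
      change (decT R (tAdd a (sumT l))).val v = _
      simp [Tm.val, ih]
  rw [h, List.map_map, Fin.sum_univ_eq_sum_range (fun k => (decT R (f k)).val v)]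
  rfl

omit [Ring R] [Primcodable R] in
theorem width_eq (L : PPc R) : width L = (L.map List.length).sum := by
  rw [width, List.sum_eq_foldr]

theorem sat_ppC (L : PPc R) (t N : ℕ) (v : ℕ → M)
    (ht : ∀ w : ℕ → M, (∀ i < N, w i = v i) → (decT R t).val w = (decT R t).val v) :
    (decF R (ppC L t N)).Sat v ↔ (decT R t).val v ∈ L.toPP.set M := by
  have hget : ∀ i : Fin L.length, L.getD i [] = L.get i := fun i => by
    simp [List.getD_eq_getElem?_getD]
  rw [ppC, sat_exs, PP.mem_set, width_eq]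
  simp only [sat_bigAnd, List.forall_mem_map, decF_eq, Fm.Sat, decT_add, decT_smul, decT_zero,
    Tm.val, val_sumT, decT_var]
  constructor
  · rintro ⟨w, h1, h2⟩
    refine ⟨fun k : Fin (L.map List.length).sum => w (N + k), fun i : Fin L.length => ?_⟩
    have := h2 (L.get i) (List.get_mem _ _)
    rw [ht w fun j hj => h1 j (by simp; omega), ← hget i] at this
    exact this
  · rintro ⟨y, hy⟩
    let w : ℕ → M := fun j =>
      if h : N ≤ j ∧ j - N < (L.map List.length).sum then y ⟨j - N, h.2⟩ else v j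
    have hw : ∀ k : Fin (L.map List.length).sum, w (N + k) = y k := fun k => by simp [w]
    refine ⟨w, fun j hj => dif_neg fun h => hj ?_, fun row hrow => ?_⟩
    · exact List.mem_map.2 ⟨j - N, List.mem_range.2 h.2, by omega⟩
    · obtain ⟨i, rfl⟩ := List.get_of_mem hrow
      rw [ht w fun j hj => dif_neg fun h => by omega]
      simp only [hw]
      rw [← hget i]
      exact hy i

theorem sat_geC (φ ψ : PPc R) (n : ℕ) (v : ℕ → M) :
    (decF R (geC φ ψ n)).Sat v ↔ (n : ℕ∞) ≤ ind φ.toPP ψ.toPP M := by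
  have key : ∀ w : ℕ → M, (decF R (fAnd (bigAnd ((List.range n).map fun i => ppC φ (tVar i) n))
      (bigAnd ((List.range n).flatMap fun i => (List.range n).map fun j =>
        bif i == j then fTrue else fNot (ppC ψ (tAdd (tVar i) (tNeg (tVar j))) n))))).Sat w ↔
      (∀ i : Fin n, w i ∈ φ.toPP.set M) ∧ ∀ i j : Fin n, w i - w j ∈ ψ.toPP.set M → i = j := by
    intro w
    have h1 : ∀ i < n, (decF R (ppC φ (tVar i) n)).Sat w ↔ w i ∈ φ.toPP.set M := fun i hi => by
      rw [sat_ppC _ _ _ _ fun w' h => by simp [Tm.val, h i hi]]; simp [Tm.val]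
    have h2 : ∀ i < n, ∀ j < n, (decF R (ppC ψ (tAdd (tVar i) (tNeg (tVar j))) n)).Sat w ↔
        w i - w j ∈ ψ.toPP.set M := fun i hi j hj => by
      rw [sat_ppC _ _ _ _ fun w' h => by simp [Tm.val, h i hi, h j hj]]
      simp [Tm.val, sub_eq_add_neg]
    simp only [sat_and, sat_bigAnd, List.forall_mem_map, List.mem_range, List.forall_mem_flatMap]
    refine and_congr ⟨fun h i => (h1 i i.2).1 (h i i.2), fun h i hi => (h1 i hi).2 (h ⟨i, hi⟩)⟩
      ⟨fun h i j hij => ?_, fun h i hi j hj => ?_⟩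
    · by_contra e
      have := h i i.2 j j.2
      rw [show ((i : ℕ) == (j : ℕ)) = false by simpa [Fin.val_inj] using e, cond_false, decF_not,
        Fm.Sat, h2 i i.2 j j.2] at this
      exact this hij
    · by_cases e : i = j
      · subst e; simpa using sat_true w
      · rw [show (i == j) = false by simpa using e, cond_false, decF_not, Fm.Sat, h2 i hi j hj]
        exact fun H => e (congrArg Fin.val (h ⟨i, hi⟩ ⟨j, hj⟩ H))
  rw [geC, sat_exs, ind, le_eidx_iff]
  simp only [key]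
  constructor
  · rintro ⟨w, -, h⟩
    exact ⟨fun i => w i, h⟩
  · rintro ⟨x, h⟩
    refine ⟨fun j => if h : j < n then x ⟨j, h⟩ else v j, fun j hj => dif_neg (by simpa using hj),
      ?_⟩
    simpa using h

theorem sat_claimsC (χ : List (Claim R)) (v : ℕ → M) :
    (decF R (claimsC χ)).Sat v ↔ ∀ c ∈ χ, c.ok (ind c.1.toPP c.2.1.toPP M) := by
  rw [claimsC, sat_bigAnd, List.forall_mem_map]
  refine forall₂_congr fun c _ => ?_
  unfold claimC Claim.ok
  cases c.2.2.2 <;> simp [Fm.Sat, sat_geC]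

end Sem

section Codes
variable (R) in
def IsT (n : ℕ) : Prop := ∃ t : Tm R, t.code encode = n
variable (R) in
def IsF (n : ℕ) : Prop := ∃ φ : Fm R, φ.code encode = n

omit [Ring R]

theorem IsT.var (i : ℕ) : IsT R (tVar i) := ⟨.var i, rfl⟩
theorem IsT.zero : IsT R tZero := ⟨.zero, rfl⟩
theorem IsT.add {s t : ℕ} : IsT R s → IsT R t → IsT R (tAdd s t) := by
  rintro ⟨s, rfl⟩ ⟨t, rfl⟩; exact ⟨.add s t, rfl⟩
theorem IsT.neg {t : ℕ} : IsT R t → IsT R (tNeg t) := by
  rintro ⟨t, rfl⟩; exact ⟨.neg t, rfl⟩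
theorem IsT.smul (r : R) {t : ℕ} : IsT R t → IsT R (tSmul r t) := by
  rintro ⟨t, rfl⟩; exact ⟨.smul r t, rfl⟩
theorem IsF.eq {s t : ℕ} : IsT R s → IsT R t → IsF R (fEq s t) := by
  rintro ⟨s, rfl⟩ ⟨t, rfl⟩; exact ⟨.eq s t, rfl⟩
theorem IsF.not {a : ℕ} : IsF R a → IsF R (fNot a) := by
  rintro ⟨a, rfl⟩; exact ⟨.not a, rfl⟩
theorem IsF.imp {a b : ℕ} : IsF R a → IsF R b → IsF R (fImp a b) := by
  rintro ⟨a, rfl⟩ ⟨b, rfl⟩; exact ⟨.imp a b, rfl⟩
theorem IsF.all (i : ℕ) {a : ℕ} : IsF R a → IsF R (fAll i a) := by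
  rintro ⟨a, rfl⟩; exact ⟨.all i a, rfl⟩
theorem IsF.and {a b : ℕ} (ha : IsF R a) (hb : IsF R b) : IsF R (fAnd a b) := (ha.imp hb.not).not
theorem IsF.true : IsF R fTrue := .eq .zero .zero

theorem IsT.sumT {l : List ℕ} (h : ∀ a ∈ l, IsT R a) : IsT R (sumT l) := by
  induction l with
  | nil => exact .zero
  | cons a l ih =>
    rw [List.forall_mem_cons] at h
    exact h.1.add (ih h.2)

theorem IsF.bigAnd {l : List ℕ} (h : ∀ a ∈ l, IsF R a) : IsF R (bigAnd l) := by
  induction l with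
  | nil => exact .true
  | cons a l ih =>
    rw [List.forall_mem_cons] at h
    exact h.1.and (ih h.2)

theorem IsF.exs (l : List ℕ) {a : ℕ} (h : IsF R a) : IsF R (exs l a) := by
  induction l with
  | nil => exact h
  | cons i l ih => exact (ih.not.all i).not

end Codes

theorem IsF.ppC (L : PPc R) {t : ℕ} (h : IsT R t) (N : ℕ) : IsF R (ppC L t N) :=
  .exs _ (.bigAnd (List.forall_mem_map.2 fun _ _ => .eq ((h.smul _).add
    (.sumT (List.forall_mem_map.2 fun _ _ => (IsT.var _).smul _))) .zero))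

theorem IsF.geC (φ ψ : PPc R) (n : ℕ) : IsF R (geC φ ψ n) := by
  refine .exs _ (.and (.bigAnd (List.forall_mem_map.2 fun _ _ => .ppC _ (.var _) _))
    (.bigAnd (List.forall_mem_flatMap.2 fun i _ => List.forall_mem_map.2 fun j _ => ?_)))
  cases i == j
  · exact (IsF.ppC _ ((IsT.var _).add (IsT.var _).neg) _).not
  · exact .true

theorem IsF.claimsC (χ : List (Claim R)) : IsF R (claimsC χ) := by
  refine .bigAnd (List.forall_mem_map.2 fun c _ => ?_)
  unfold claimC
  cases c.2.2.2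
  · exact (IsF.geC _ _ _).not
  · exact .geC _ _ _

theorem prv_claims (χ : List (Claim R)) (φ : Fm R) :
    Prv R (fImp (claimsC χ) (fNot (φ.code encode))) ↔
      ∀ (M : Type) [AddCommGroup M] [Module R M] (v : ℕ → M),
        (∀ c ∈ χ, c.ok (ind c.1.toPP c.2.1.toPP M)) → ¬ φ.Sat v := by
  obtain ⟨θ, hθ⟩ := IsF.claimsC χ
  rw [← hθ, ← code_not, ← code_imp, prv_iff]
  refine forall₄_congr fun M _ _ v => ?_
  rw [Fm.Sat, Fm.Sat, ← sat_claimsC χ v, ← hθ, decF_code]

end LogA

open LogA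

theorem valid_re (R : Type) [Ring R] [Primcodable R] (hR : CompRing R) :
    REPred fun k : ℕ => ∃ φ ∈ Theory R, φ.code Encodable.encode = k := by
  have h1 := pr_isS (R := R)
  have h2 : S1 fun k : ℕ => isS R k = true ∧ Prv R k := S1.and (by fun_prop) (s1_prv hR)
  refine (h2.congr fun k => ?_).re
  rw [isS_iff]
  constructor
  · rintro ⟨⟨φ, h, rfl⟩, h'⟩
    exact ⟨φ, ⟨h, (prv_iff φ).1 h'⟩, rfl⟩
  · rintro ⟨φ, ⟨h, h'⟩, rfl⟩
    exact ⟨⟨φ, h, rfl⟩, (prv_iff φ).2 h'⟩

theorem decidable_of_cons (R : Type) [Ring R] [Primcodable R] (hR : CompRing R)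
    (h : REPred fun χ : List (Claim R) => Cons χ) :
    ComputablePred fun k : ℕ => ∃ φ ∈ Theory R, φ.code Encodable.encode = k := by
  refine ComputablePred.computable_iff_re_compl_re'.2 ⟨valid_re R hR, ?_⟩
  have h1 := pr_isS (R := R)
  have h2 := pr_claimsC (R := R)
  have h3 : S1 fun k : ℕ => isS R k = false ∨
      ∃ χ : List (Claim R), Cons χ ∧ Prv R (fImp (claimsC χ) (fNot k)) :=
    S1.or (by fun_prop) (S1.ex (S1.and ((s1_of_re h).comp (g := Prod.snd) (by fun_prop))
      ((s1_prv hR).comp (by fun_prop))))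
  refine (h3.congr fun k => ?_).re
  constructor
  · rintro (h' | ⟨χ, ⟨M, _, _, hM⟩, h'⟩) ⟨φ, hφ, rfl⟩
    · rw [isS_iff.2 ⟨φ, hφ.1, rfl⟩] at h'
      exact absurd h' (by simp)
    · exact (prv_claims χ φ).1 h' M 0 hM (hφ.2 M 0)
  · intro H
    cases hk : isS R k
    · exact Or.inl rfl
    obtain ⟨φ, hφ, rfl⟩ := isS_iff.1 hk
    have : ¬ ∀ (M : Type) [AddCommGroup M] [Module R M] (v : ℕ → M), φ.Sat v :=
      fun h' => H ⟨φ, ⟨hφ, h'⟩, rfl⟩
    push Not at this
    obtain ⟨M, _, _, v, hv⟩ := this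
    obtain ⟨χ, h4, h5⟩ := sat_claims φ.not hφ M v hv
    exact Or.inr ⟨χ, ⟨M, _, _, h4⟩, (prv_claims χ φ).2 h5⟩

end Pool.Agent.Lib.MP_c13fce_lc
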