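import Pool.Agent.Lib.MP_c13fce_lc.NRE3

/-! Block B: the claims realised by finite sums of nice modules are recursively enumerable. -/

namespace Pool.Agent.Lib.MP_c13fce_lc

open Pool.Agent.Lib.MP_a1ec0a_al

namespace NRE

variable {R : Type} [Ring R]

theorem exists_list {α β : Type} {χ : List α} {P : α × β → Prop} (h : ∀ c ∈ χ, ∃ d, P (c, d)) :
    ∃ D : List (α × β), D.map Prod.fst = χ ∧ ∀ e ∈ D, P e := by
  induction χ with
  | nil => exact ⟨[], rfl, by simp⟩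
  | cons c χ ih =>
    obtain ⟨D, e, hD⟩ := ih fun c hc => h c (List.mem_cons_of_mem _ hc)
    obtain ⟨d, hd⟩ := h c List.mem_cons_self
    exact ⟨(c, d) :: D, by simp [e], by simpa using ⟨hd, fun a b => hD (a, b)⟩⟩

/-- Bounds on invariants. -/
abbrev Cl (R : Type) := PPc R × PPc R × Bool × ℕ

/-- Pairs of lists of states. -/
abbrev SS (R : Type) := List (Mat R) × List (Mat R)

/-- A bound with the data for a glued module. -/
abbrev Dt (R : Type) := Cl R × (SS R × SS R × SS R × SS R) × ℕ × ℕ × ℕ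

/-- The bounds hold in one nice module. -/
def One (χ : List (Cl R)) : Prop := ∃ C : ModuleCat.{0} R, (∃ q : ℕ, 0 < q ∧ Nice (q : R) C) ∧
  ∀ c ∈ χ, bd c.2.2.1 c.2.2.2 (ind c.1.toPP c.2.1.toPP C)

def tIt (c : Cl R) (k : Bool) (S : SS R) : List (TItem R) :=
  [(c.1, k, S.1), (andc c.1 c.2.1, k, S.2)]

def iIt (c : Cl R) (S : SS R) (v : ℕ) : IItem R := ((c.1, S.1), (andc c.1 c.2.1, S.2), c.2.2.1, v)

def LocC (q n : ℕ) (Z : FC R) (e : Dt R) : Prop :=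
  BwdC q n Z e.1.1 false e.2.1.2.1.1 e.2.1.2.2.1.1 ∧
  BwdC q n Z (andc e.1.1 e.1.2.1) false e.2.1.2.1.2 e.2.1.2.2.1.2 ∧
  FwdC q n Z e.1.1 true e.2.1.1.1 e.2.1.2.2.2.1 ∧
  FwdC q n Z (andc e.1.1 e.1.2.1) true e.2.1.1.2 e.2.1.2.2.2.2 ∧
  IdxC q n Z e.1.1 e.2.1.1.1 e.2.1.2.1.1 (andc e.1.1 e.1.2.1) e.2.1.1.2 e.2.1.2.1.2 e.1.2.2.1
    e.2.2.2.1 ∧
  cmp e.1.2.2.1 e.1.2.2.2 (e.2.2.1 * (e.2.2.2.1 * e.2.2.2.2))

def OneC (C : ℕ × ℕ × List (TItem R) × List (IItem R) → Prop) (χ : List (Cl R)) : Prop :=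
  ∃ x : ℕ × ℕ × FC R × List (Dt R),
    C (x.1, x.2.1, x.2.2.2.flatMap (fun e => tIt e.1 true e.2.1.1),
      x.2.2.2.map fun e => iIt e.1 e.2.1.2.2.1 e.2.2.1) ∧
    C (x.1, x.2.1, x.2.2.2.flatMap (fun e => tIt e.1 false e.2.1.2.1),
      x.2.2.2.map fun e => iIt e.1 e.2.1.2.2.2 e.2.2.2.2) ∧
    FOk x.1 x.2.1 x.2.2.1 ∧ x.2.2.2.map (fun e => e.1) = χ ∧ AllL x.2.2.2 (LocC x.1 x.2.1 x.2.2.1)

section comp
variable {α : Type} [Primcodable α] [Primcodable R] [CR R]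

omit [Ring R] [CR R] in
@[fun_prop] theorem pr_tail {l : α → List R} (hl : PR l) : PR fun a => (l a).tail :=
  Primrec.list_tail.comp hl

omit [CR R] in
@[fun_prop] theorem pr_andc {φ ψ : α → PPc R} (h : PR φ) (h' : PR ψ) :
    PR fun a => andc (φ a) (ψ a) := by
  unfold andc; fun_prop

@[fun_prop] theorem s1_cmp {b : α → Bool} {v w : α → ℕ} (hb : PR b) (hv : PR v) (hw : PR w) :
    S1 fun a => cmp (b a) (v a) (w a) := by
  unfold cmp; fun_prop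

@[fun_prop] theorem s1_LocC {q m : α → ℕ} {Z : α → FC R} {e : α → Dt R} (hq : PR q) (hm : PR m)
    (hZ : PR Z) (he : PR e) : S1 fun a => LocC (q a) (m a) (Z a) (e a) := by
  unfold LocC; fun_prop

theorem s1_OneC {C : ℕ × ℕ × List (TItem R) × List (IItem R) → Prop} (hC : S1 C) :
    S1 (OneC C) := by
  unfold OneC tIt iIt
  exact S1.ex (S1.and (hC.comp (by fun_prop)) (S1.and (hC.comp (by fun_prop)) (by fun_prop)))

end comp

variable [Primcodable R] [CR R]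

theorem one_re [Module.Free ℤ R] [Module.Finite ℤ R] (hreg : Reg ℤ R) : S1 (One (R := R)) := by
  obtain ⟨C, hC, hs, hc⟩ := end_re (R := R) hreg
  refine (s1_OneC hC).congr fun χ => ⟨?_, ?_⟩
  · rintro ⟨⟨q, n, Z, D⟩, h₁, h₂, hZ, rfl, hD⟩
    obtain ⟨L, hL, tL, iL⟩ := hs _ _ _ _ hZ.1 h₁
    obtain ⟨E, hE, tE, iE⟩ := hs _ _ _ _ hZ.1 h₂
    refine ⟨ModuleCat.of R (Glue L E (fbp Z n).Y (fbp Z n).l (fbp Z n).r), ⟨q, hZ.1, n, L, E, _, _,
      _, finite_fbp Z n hZ.2.1, _, _, hL, hE, ⟨LinearEquiv.refl _ _⟩⟩, fun c hc => ?_⟩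
    obtain ⟨e, he, rfl⟩ := List.mem_map.1 hc
    obtain ⟨⟨-, a₁⟩, ⟨-, a₂⟩, ⟨-, a₃⟩, ⟨-, a₄⟩, ⟨-, a₅⟩, a₆⟩ := hD e he
    have p₁ := tL _ (List.mem_flatMap.2 ⟨e, he, List.mem_cons_self⟩)
    have p₂ := tL _ (List.mem_flatMap.2 ⟨e, he, List.mem_cons_of_mem _ List.mem_cons_self⟩)
    have p₃ := tE _ (List.mem_flatMap.2 ⟨e, he, List.mem_cons_self⟩)
    have p₄ := tE _ (List.mem_flatMap.2 ⟨e, he, List.mem_cons_of_mem _ List.mem_cons_self⟩)
    obtain ⟨g₁, g₂, g₃⟩ := glue_idx L E (fbp Z n) (kil_of_isEnd hL) (kil_of_isEnd hE)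
      (φ := e.1.1.toPP) (ψ := (andc e.1.1 e.1.2.1).toPP) (by rw [set_andc]; exact inf_le_left)
    dsimp only at p₁ p₂ p₃ p₄
    rw [p₃] at a₁ a₅
    rw [p₄] at a₂ a₅
    rw [p₁] at a₃ a₅
    rw [p₂] at a₄ a₅
    have b₁ := iL _ (List.mem_map_of_mem he) ((fbp Z n).bwd _ q false (sAE E q _))
      ((fbp Z n).bwd _ q false (sAE E q _)) a₁ a₂ g₁
    have b₃ := iE _ (List.mem_map_of_mem he) ((fbp Z n).fwd _ q true (sPL L q _))
      ((fbp Z n).fwd _ q true (sPL L q _)) a₃ a₄ g₂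
    have b₂ := (idxS_iff (B := (fbp Z n).sec _ q (sPL L q _) (sAE E q _))
      (A := (fbp Z n).sec _ q (sPL L q _) (sAE E q _))).1 a₅
    change bd _ _ (ind _ _ (Glue L E (fbp Z n).Y (fbp Z n).l (fbp Z n).r))
    rw [← ind_andc, g₃]
    exact bd_mul b₁ (bd_mul b₂ b₃ (cmp_refl _ _)) a₆
  · rintro ⟨M, ⟨q, hq, n, L, E, Z, _, _, _, l, r, hL, hE, ⟨e⟩⟩, h⟩
    let Zb : BP R n := { Y := Z, l := l, r := r }
    obtain ⟨Zc, hZ, eZ⟩ := exists_code hq Zb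
    obtain ⟨D, hD, hP⟩ := exists_list (χ := χ) (P := fun e : Dt R =>
      EndT q (ptBP L) (tIt e.1 true e.2.1.1) ∧ EndI' q (ptBP L) [iIt e.1 e.2.1.2.2.1 e.2.2.1] ∧
      EndT q (ptBP E) (tIt e.1 false e.2.1.2.1) ∧
      EndI' q (ptBP E) [iIt e.1 e.2.1.2.2.2 e.2.2.2.2] ∧ LocC q n Zc e) fun c hc => by
      obtain ⟨g₁, g₂, g₃⟩ := glue_idx L E Zb (kil_of_isEnd hL) (kil_of_isEnd hE)
        (φ := c.1.toPP) (ψ := (andc c.1 c.2.1).toPP) (by rw [set_andc]; exact inf_le_left)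
      have h₀ := h c hc
      rw [ind_congr _ _ e, ← ind_andc] at h₀
      obtain ⟨v₁, w, b₁, b, c₁⟩ := bd_split (one_le_eidx _ _)
        (one_le_mul (one_le_eidx _ _) (one_le_eidx _ _)) (g₃ ▸ h₀)
      obtain ⟨v₂, v₃, b₂, b₃, c₂⟩ := bd_split (one_le_eidx _ _) (one_le_eidx _ _) b
      have ex := fun (θ : PPc R) (X : AddSubgroup (V θ.toPP q n)) =>
        exists_im hq θ (X : Set (V θ.toPP q n))
      choose f hf using ex
      let ψ := andc c.1 c.2.1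
      refine ⟨((⟨f c.1 (sPL L q _), f ψ (sPL L q _)⟩, ⟨f c.1 (sAE E q _), f ψ (sAE E q _)⟩,
        ⟨f c.1 (Zb.bwd _ q false (sAE E q _)), f ψ (Zb.bwd _ q false (sAE E q _))⟩,
        ⟨f c.1 (Zb.fwd _ q true (sPL L q _)), f ψ (Zb.fwd _ q true (sPL L q _))⟩), v₁, v₂, v₃),
        ?_, ?_, ?_, ?_, ⟨hZ, ?_⟩, ⟨hZ, ?_⟩, ⟨hZ, ?_⟩, ⟨hZ, ?_⟩, ⟨hZ, ?_⟩, c₁.mul c₂⟩
      · simp only [EndT, tIt, List.forall_mem_cons, List.not_mem_nil, IsEmpty.forall_iff,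
          implies_true, and_true]
        exact ⟨hf _ _, hf _ _⟩
      · simp only [EndI', List.forall_mem_singleton]
        exact ⟨_, _, hf _ _, hf _ _, g₁, b₁⟩
      · simp only [EndT, tIt, List.forall_mem_cons, List.not_mem_nil, IsEmpty.forall_iff,
          implies_true, and_true]
        exact ⟨hf _ _, hf _ _⟩
      · simp only [EndI', List.forall_mem_singleton]
        exact ⟨_, _, hf _ _, hf _ _, g₂, b₃⟩
      · dsimp only; rw [hf, hf, ← eZ.bwdS]; rfl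
      · dsimp only; rw [hf, hf, ← eZ.bwdS]; rfl
      · dsimp only; rw [hf, hf, ← eZ.fwdS]; rfl
      · dsimp only; rw [hf, hf, ← eZ.fwdS]; rfl
      · dsimp only; rw [hf, hf, hf, hf]
        exact eZ.idxS (idxS_iff.2 b₂)
    refine ⟨(q, n, Zc, D), hc _ _ _ _ L hq hL (fun t ht => ?_) fun i hi => ?_,
      hc _ _ _ _ E hq hE (fun t ht => ?_) fun i hi => ?_, hZ, hD, fun e he => (hP e he).2.2.2.2⟩
    · obtain ⟨e, he, ht⟩ := List.mem_flatMap.1 ht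
      exact (hP e he).1 t ht
    · obtain ⟨e, he, rfl⟩ := List.mem_map.1 hi
      exact (hP e he).2.1 _ List.mem_cons_self
    · obtain ⟨e, he, ht⟩ := List.mem_flatMap.1 ht
      exact (hP e he).2.2.1 t ht
    · obtain ⟨e, he, rfl⟩ := List.mem_map.1 hi
      exact (hP e he).2.2.2.1 _ List.mem_cons_self

/-- Splitting off one nice summand. -/
def Rule (χ : List (Cl R)) (l : List (List (Cl R))) : Prop :=
  (∃ D : List (Cl R × ℕ × ℕ), One (D.map fun e => (e.1.1, e.1.2.1, e.1.2.2.1, e.2.1)) ∧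
    D.map (fun e => e.1) = χ ∧ l = [D.map fun e => (e.1.1, e.1.2.1, e.1.2.2.1, e.2.2)] ∧
    AllL D fun e => cmp e.1.2.2.1 e.1.2.2.2 (e.2.1 * e.2.2)) ∨
  (l = [] ∧ AllL χ fun c => cmp c.2.2.1 c.2.2.2 1)

omit [Primcodable R] [CR R] in
theorem der_iff (χ : List (Cl R)) : Der Rule χ ↔ ∃ Cs : List (ModuleCat.{0} R),
    (∀ C ∈ Cs, ∃ q : ℕ, 0 < q ∧ Nice (q : R) C) ∧ ∀ c ∈ χ, bd c.2.2.1 c.2.2.2
      (Cs.map fun C : ModuleCat.{0} R => ind c.1.toPP c.2.1.toPP C).prod := by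
  have b1 : ∀ (b : Bool) (v : ℕ), bd b v 1 ↔ cmp b v 1 := fun b v => by cases b <;> simp [bd, cmp]
  constructor
  · refine Der.sound (Sem := fun χ : List (Cl R) => ∃ Cs : List (ModuleCat.{0} R),
      (∀ C ∈ Cs, ∃ q : ℕ, 0 < q ∧ Nice (q : R) C) ∧ ∀ c ∈ χ, bd c.2.2.1 c.2.2.2
        (Cs.map fun C : ModuleCat.{0} R => ind c.1.toPP c.2.1.toPP C).prod) ?_
    rintro χ l (⟨D, ⟨C, hC, h₁⟩, rfl, rfl, h₂⟩ | ⟨rfl, h⟩) ih
    · obtain ⟨Cs, hCs, h₃⟩ := ih _ List.mem_cons_self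
      refine ⟨C :: Cs, List.forall_mem_cons.2 ⟨hC, hCs⟩, fun c hc => ?_⟩
      obtain ⟨e, he, rfl⟩ := List.mem_map.1 hc
      rw [List.map_cons, List.prod_cons]
      have k₁ := h₁ _ (List.mem_map_of_mem he)
      have k₃ := h₃ _ (List.mem_map_of_mem he)
      exact bd_mul k₁ k₃ (h₂ e he)
    · exact ⟨[], by simp, fun c hc => (b1 _ _).2 (h c hc)⟩
  · rintro ⟨Cs, hCs, h⟩
    induction Cs generalizing χ with
    | nil => exact Der.mk _ [] (.inr ⟨rfl, fun c hc => (b1 _ _).1 (h c hc)⟩) (by simp)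
    | cons C Cs ih =>
      obtain ⟨D, hD, hP⟩ := exists_list (χ := χ) (P := fun e : Cl R × ℕ × ℕ =>
        bd e.1.2.2.1 e.2.1 (ind e.1.1.toPP e.1.2.1.toPP C) ∧ bd e.1.2.2.1 e.2.2
          (Cs.map fun C : ModuleCat.{0} R => ind e.1.1.toPP e.1.2.1.toPP C).prod ∧
          cmp e.1.2.2.1 e.1.2.2.2 (e.2.1 * e.2.2)) fun c hc => by
        have h₀ := h c hc
        rw [List.map_cons, List.prod_cons] at h₀
        obtain ⟨v₁, v₂, h₀⟩ := bd_split (one_le_ind _ _)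
          (one_le_list_prod _ _ fun _ => one_le_ind _ _) h₀
        exact ⟨(v₁, v₂), h₀⟩
      refine Der.mk _ _ (.inl ⟨D, ⟨C, hCs C List.mem_cons_self, fun c hc => ?_⟩, hD, rfl,
        fun e he => (hP e he).2.2⟩) fun χ' hχ' => ?_
      · obtain ⟨e, he, rfl⟩ := List.mem_map.1 hc
        exact (hP e he).1
      · obtain rfl := List.mem_singleton.1 hχ'
        refine ih _ (fun C' hC' => hCs C' (List.mem_cons_of_mem _ hC')) fun c hc => ?_
        obtain ⟨e, he, rfl⟩ := List.mem_map.1 hc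
        exact (hP e he).2.1

end NRE

open NRE in
theorem nice_re (R : Type) [Ring R] [Primcodable R] (hR : CompRing R) [Module.Free ℤ R]
    [Module.Finite ℤ R] (hreg : Reg ℤ R) :
    REPred fun χ : List (Claim R) => ∃ Cs : List (ModuleCat.{0} R),
      (∀ C ∈ Cs, ∃ q : ℕ, 0 < q ∧ Nice (q : R) C) ∧
      ∀ c ∈ χ, c.ok (Cs.map fun C : ModuleCat.{0} R => ind c.1.toPP c.2.1.toPP C).prod := by
  let _ : CR R := ⟨hR⟩
  have h₁ : S1 (Der (Rule (R := R))) := Der.s1 (by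
    unfold Rule
    exact S1.or (S1.ex (S1.and ((one_re hreg).comp (by fun_prop)) (by fun_prop))) (by fun_prop))
  refine S1.re ((h₁.comp (g := fun χ : List (Claim R) => χ.map fun c =>
    (c.1, c.2.1, c.2.2.2, bif c.2.2.2 then c.2.2.1 else c.2.2.1 - 1)) (by fun_prop)).congr
      fun χ => ?_)
  rw [der_iff]
  refine exists_congr fun Cs => and_congr_right' ?_
  rw [List.forall_mem_map]
  refine forall₂_congr fun c _ => ?_
  obtain ⟨φ, ψ, m, b⟩ := c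
  have h1 := one_le_list_prod Cs (fun C : ModuleCat.{0} R => ind φ.toPP ψ.toPP C)
    fun _ => one_le_ind _ _
  generalize (Cs.map fun C : ModuleCat.{0} R => ind φ.toPP ψ.toPP C).prod = x at h1 ⊢
  cases b
  · simp only [bd, Claim.ok, Bool.false_eq_true, if_false, cond_false]
    cases m with
    | zero => simpa using (lt_of_lt_of_le zero_lt_one h1).ne'
    | succ m => rw [Nat.add_sub_cancel, Nat.cast_succ, ENat.lt_add_one_iff (ENat.natCast_ne_top m)]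
  · simp [bd, Claim.ok]

end Pool.Agent.Lib.MP_c13fce_lc
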