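import Pool.Agent.Lib.MP_c13fce_lc.GrpLoc
import Pool.Agent.Lib.MP_c13fce_lc.F2Comp
import Pool.Agent.Lib.MP_c13fce_lc.LogA
import Pool.Agent.Lib.MP_c13fce_lc.NiceRE

/-! Decidability for groups of squarefree order. -/

set_option autoImplicit false

namespace Pool.Agent.Lib.MP_c13fce_lc

lemma F2.ok_congr {R : Type} (c : Claim R) {B : ℕ} (hB : c.2.2.1 ≤ B) {x y : ℕ∞}
    (h : min (B : ℕ∞) x = min (B : ℕ∞) y) (hx : c.ok x) : c.ok y := by
  have hB' : (c.2.2.1 : ℕ∞) ≤ B := Nat.cast_le.2 hB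
  have key : (c.2.2.1 : ℕ∞) ≤ x ↔ (c.2.2.1 : ℕ∞) ≤ y := by
    rw [← and_iff_right hB' (b := _ ≤ x), ← le_min_iff, h, le_min_iff, and_iff_right hB']
  unfold Claim.ok at hx ⊢
  split_ifs at hx ⊢
  · exact key.1 hx
  · exact not_le.1 (mt key.2 (not_le.2 hx))

theorem decidable_of_squarefree (G : Type) [Group G] (n : ℕ) (e : Fin n ≃ G)
    (hG : Squarefree n) :
    ComputablePred fun k : ℕ => ∃ φ ∈ Theory (MonoidAlgebra ℤ G),
      φ.code (fun r => Encodable.encode (List.ofFn fun i => r.coeff (e i))) = k := by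
  have : Finite G := .of_equiv _ e
  let := F2.pcod e
  have hc : Nat.card G = n := by rw [← Nat.card_congr e, Nat.card_fin]
  rw [← funext (F2.pcod_encode e)]
  refine decidable_of_cons _ (F2.compRing e) ((nice_re _ (F2.compRing e)
    (by convert reg_group G; exact Subsingleton.elim _ _)).of_eq fun χ => ⟨fun ⟨Cs, _, h⟩ => ?_, fun ⟨M, _, _, h⟩ => ?_⟩)
  · obtain ⟨C, hC⟩ := exists_sum Cs
    exact ⟨C, inferInstance, inferInstance, fun c hc => hC _ _ ▸ h c hc⟩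
  · have : Finite {c // c ∈ χ} := (List.finite_toSet χ).to_subtype
    obtain ⟨Cs, h1, h2⟩ := group_match G (hc ▸ hG) M {c // c ∈ χ} (fun c => c.1.1.toPP)
      (fun c => c.1.2.1.toPP) (χ.map fun c => c.2.2.1).sum
    exact ⟨Cs, h1, fun c hc => F2.ok_congr c
      (List.le_sum_of_mem (List.mem_map_of_mem (f := fun c => c.2.2.1) hc)) (h2 ⟨c, hc⟩) (h c hc)⟩

end Pool.Agent.Lib.MP_c13fce_lc
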