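import Pool.Agent.Lib.MP_c13fce_lc.Defs4

/-! Elementary facts on nice modules. -/

namespace Pool.Agent.Lib.MP_c13fce_lc

open scoped BigOperators

instance : FinQ ℤ where
  fin d hd := Ideal.finiteQuotientOfFreeOfNeBot _ (by simpa using hd)
  jac n hn := by
    have h : 0 < n * n := mul_self_pos.2 hn
    refine ⟨n * n + 1, by omega, fun hu => ?_, ⟨1, -n, by ring⟩⟩
    rcases Int.isUnit_iff.1 hu with h1 | h1 <;> omega

theorem Nice.congr {R : Type} [Ring R] {q : R} {C C' : ModuleCat.{0} R} (h : Nice q C)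
    (e : C' ≃ₗ[R] C) : Nice q C' := by
  obtain ⟨n, L, E, Z, i1, i2, i3, l, r, hL, hE, ⟨e'⟩⟩ := h
  exact ⟨n, L, E, Z, i1, i2, i3, l, r, hL, hE, ⟨e.trans e'⟩⟩

namespace GlobN

section triv
variable {R : Type} [Ring R]

/-- The trivial tail. -/
def triv (R : Type) [Ring R] (n : ℕ) : Tail R n where
  Z _ := PUnit
  l _ _ := 0
  r _ _ := 0
  s := true

theorem isEnd_triv (q : R) (n : ℕ) : IsEnd q (triv R n).pt :=
  Or.inl ⟨triv R n, fun _ _ => ⟨rfl, rfl⟩, rfl⟩

instance (n : ℕ) : Subsingleton (triv R n).pt.Y := by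
  refine ⟨fun x y => ?_⟩
  obtain ⟨x, rfl⟩ := Submodule.Quotient.mk_surjective _ x
  obtain ⟨y, rfl⟩ := Submodule.Quotient.mk_surjective _ y
  exact congrArg _ (Subtype.ext (funext fun _ => rfl))

end triv

end GlobN

open GlobN

theorem nice_of_finite {R : Type} [Ring R] (q : R) (C : ModuleCat.{0} R) [Finite C] :
    Nice q C := by
  refine ⟨0, (triv R 0).pt, (triv R 0).pt, C, inferInstance, inferInstance, inferInstance,
    0, 0, isEnd_triv q 0, isEnd_triv q 0, ⟨?_⟩⟩
  refine LinearEquiv.ofBijective ((Submodule.mkQ _) ∘ₗ (LinearMap.inr R _ _) ∘ₗ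
    (LinearMap.inl R _ _)) ⟨?_, ?_⟩
  · rw [injective_iff_map_eq_zero]
    intro x hx
    have hb : glueRel (triv R 0).pt (triv R 0).pt C 0 0 = ⊥ := by
      unfold glueRel
      rw [Set.range_eq_empty, Set.range_eq_empty, Set.empty_union, Submodule.span_empty]
    have h1 := (Submodule.Quotient.mk_eq_zero _).1 hx
    rw [hb, Submodule.mem_bot] at h1
    exact congrArg (fun z => z.2.1) h1
  · intro z
    obtain ⟨⟨a, x, b⟩, rfl⟩ := Submodule.Quotient.mk_surjective _ z
    refine ⟨x, ?_⟩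
    rw [Subsingleton.elim a 0, Subsingleton.elim b 0]
    rfl

/-- An end, with its marked elements forgotten, or killed. -/
theorem nice_of_isEnd {R : Type} [Ring R] {q : R} {n : ℕ} {E : Pt R n} (h : IsEnd q E) :
    Nice q (ModuleCat.of R (E.Y ⧸ Submodule.span R (Set.range E.y))) := by
  refine ⟨n, (triv R n).pt, E, PUnit, inferInstance, inferInstance, inferInstance,
    0, 0, isEnd_triv q n, h, ⟨?_⟩⟩
  let f : E.Y ≃ₗ[R] (triv R n).pt.Y × PUnit × E.Y :=
    LinearEquiv.ofBijective ((LinearMap.inr R _ _) ∘ₗ (LinearMap.inr R _ _))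
      ⟨fun x y hxy => congrArg (fun z => z.2.2) hxy, fun z =>
        ⟨z.2.2, Prod.ext (Subsingleton.elim _ _) (Prod.ext (Subsingleton.elim _ _) rfl)⟩⟩
  have hf : ∀ x, f x = (0, 0, x) := fun _ => rfl
  refine Submodule.Quotient.equiv _ _ f ?_
  rw [Submodule.map_span]
  unfold glueRel
  refine le_antisymm (Submodule.span_le.2 ?_) (Submodule.span_le.2 ?_)
  · rintro _ ⟨_, ⟨i, rfl⟩, rfl⟩
    rw [SetLike.mem_coe, ← neg_mem_iff]
    refine Submodule.subset_span (Or.inr ⟨i, ?_⟩)
    exact Prod.ext (Subsingleton.elim _ _) (Prod.ext (Subsingleton.elim _ _) rfl)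
  · rintro _ (⟨i, rfl⟩ | ⟨i, rfl⟩)
    · have : (((triv R n).pt.y i, -(0 : Fin n → PUnit) i, 0) :
          (triv R n).pt.Y × PUnit × E.Y) = 0 :=
        Prod.ext (Subsingleton.elim _ _) (Prod.ext (Subsingleton.elim _ _) rfl)
      beta_reduce
      rw [this]
      exact zero_mem _
    · rw [SetLike.mem_coe, ← neg_mem_iff]
      refine Submodule.subset_span ⟨_, ⟨i, rfl⟩, ?_⟩
      exact Prod.ext (Subsingleton.elim _ _) (Prod.ext (Subsingleton.elim _ _) (neg_neg _).symm)

namespace GlobN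

section pull
variable {R Λ : Type} [Ring R] [Ring Λ]

/-- A module over the target, seen as a module over the source. -/
def PB (_f : R →+* Λ) (Z : Type) : Type := Z

instance (f : R →+* Λ) (Z : Type) [h : AddCommGroup Z] : AddCommGroup (PB f Z) := h

instance (f : R →+* Λ) (Z : Type) [h : Finite Z] : Finite (PB f Z) := h

instance (f : R →+* Λ) (Z : Type) [AddCommGroup Z] [Module Λ Z] : Module R (PB f Z) :=
  Module.compHom Z f

/-- The identity, as a semilinear map. -/
def PB.to (f : R →+* Λ) (Z : Type) [AddCommGroup Z] [Module Λ Z] : PB f Z →ₛₗ[f] Z where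
  toFun x := x
  map_add' _ _ := rfl
  map_smul' _ _ := rfl

variable {f : R →+* Λ} {M N : Type} [AddCommGroup M] [Module R M] [AddCommGroup N] [Module Λ N]

theorem mem_semi (g : M →ₛₗ[f] N) (hg : Function.Bijective g) (φ : PP R) (x : M) :
    g x ∈ (φ.map f).set N ↔ x ∈ φ.set M := by
  constructor
  · rintro ⟨y, hy⟩
    choose y' hy' using fun k => hg.2 (y k)
    refine ⟨y', fun i => hg.1 ?_⟩
    have := hy i
    rw [map_zero, ← this]
    simp only [map_add, map_sum, map_smulₛₗ, hy']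
    rfl
  · rintro ⟨y, hy⟩
    refine ⟨fun k => g (y k), fun i => ?_⟩
    have := congrArg g (hy i)
    simp only [map_add, map_sum, map_smulₛₗ, map_zero] at this
    exact this

theorem ind_semi (g : M →ₛₗ[f] N) (hg : Function.Bijective g) (φ ψ : PP R) :
    ind φ ψ M = ind (φ.map f) (ψ.map f) N :=
  eidx_eq_of_map g.toAddMonoidHom (fun x hx => (mem_semi g hg φ x).2 hx)
    (fun x _ => mem_semi g hg ψ x) fun y hy => by
      obtain ⟨x, rfl⟩ := hg.2 y
      exact ⟨x, (mem_semi g hg φ x).1 hy, by simp⟩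

theorem mapQ_bij (g : M →ₛₗ[f] N) (hg : Function.Surjective g) (B' : Submodule R M)
    (B : Submodule Λ N) (hB : ∀ x, x ∈ B' ↔ g x ∈ B) :
    Function.Bijective (Submodule.mapQ B' B g fun x hx => (hB x).1 hx) := by
  constructor
  · rw [injective_iff_map_eq_zero]
    intro x hx
    obtain ⟨x, rfl⟩ := Submodule.Quotient.mk_surjective _ x
    rw [Submodule.mapQ_apply, Submodule.Quotient.mk_eq_zero] at hx
    exact (Submodule.Quotient.mk_eq_zero _).2 ((hB x).2 hx)
  · intro y
    obtain ⟨y, rfl⟩ := Submodule.Quotient.mk_surjective _ y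
    obtain ⟨x, rfl⟩ := hg y
    exact ⟨Submodule.Quotient.mk x, rfl⟩

theorem sub_bij (g : M →ₛₗ[f] N) (hg : Function.Surjective g) (A' B' : Submodule R M)
    (A B : Submodule Λ N) (hA : ∀ x, x ∈ A' ↔ g x ∈ A) (hB : ∀ x, x ∈ B' ↔ g x ∈ B) :
    ∃ h : (A' ⧸ B'.submoduleOf A') →ₛₗ[f] (A ⧸ B.submoduleOf A), Function.Bijective h ∧
      ∀ x hx hx', h (Submodule.Quotient.mk ⟨x, hx⟩) = Submodule.Quotient.mk ⟨g x, hx'⟩ := by
  let g' : A' →ₛₗ[f] A := (g.comp A'.subtype).codRestrict A fun x => (hA x).1 x.2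
  refine ⟨_, mapQ_bij g' ?_ (B'.submoduleOf A') (B.submoduleOf A) fun x => hB x, ?_⟩
  · rintro ⟨y, hy⟩
    obtain ⟨x, rfl⟩ := hg y
    exact ⟨⟨x, (hA x).2 hy⟩, rfl⟩
  · intro x hx hx'
    rfl

variable {n : ℕ}

/-- The pull-back of a tail. -/
def tailPB (f : R →+* Λ) (T : Tail Λ n) : Tail R n where
  Z k := PB f (T.Z k)
  l := T.l
  r := T.r
  s := T.s

theorem bd_pb (T : Tail Λ n) (c : ℕ → Fin n → R) (k : ℕ) :
    (tailPB f T).bd c k = T.bd (fun k i => f (c k i)) k := by
  cases k with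
  | zero =>
    simp only [Tail.bd, prev, Pi.zero_apply, zero_smul]
    rfl
  | succ k => rfl

theorem tail_pull (hf : Function.Surjective f) (T : Tail Λ n) :
    ∃ g : (tailPB f T).pt.Y →ₛₗ[f] T.pt.Y, Function.Bijective g ∧
      ∀ i, g ((tailPB f T).pt.y i) = T.pt.y i := by
  classical
  let g0 : (∀ k, (tailPB f T).Z k) →ₛₗ[f] (∀ k, T.Z k) :=
    { toFun x := x
      map_add' _ _ := rfl
      map_smul' _ _ := rfl }
  obtain ⟨g, hg, hg'⟩ := sub_bij g0 (fun y => ⟨y, rfl⟩) (tailPB f T).supp (tailPB f T).rel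
    T.supp T.rel (fun _ => Iff.rfl) fun x => by
      constructor
      · rintro ⟨c, hc, rfl⟩
        refine ⟨fun k i => f (c k i), fun hs => (hc hs).subset fun k hk h => hk ?_, ?_⟩
        · funext i; simp [h]
        · funext k; exact bd_pb T c k
      · rintro ⟨c, hc, hx⟩
        refine ⟨fun k i => if c k i = 0 then 0 else Function.surjInv hf (c k i),
          fun hs => (hc hs).subset fun k hk h => hk ?_, ?_⟩
        · funext i; simp [h]
        · funext k
          rw [bd_pb]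
          have : (fun k i => f (if c k i = 0 then 0 else Function.surjInv hf (c k i))) = c := by
            funext k i
            split_ifs with h
            · rw [h, map_zero]
            · exact Function.surjInv_eq hf _
          rw [this]
          exact congrFun hx k
  exact ⟨g, hg, fun i => hg' _ _ _⟩

theorem mem_span_sup (hf : Function.Surjective f) (K' : Submodule R R) (K : Submodule Λ Λ)
    (hK : ∀ x, x ∈ K' ↔ f x ∈ K) (a x : R) :
    x ∈ K' ⊔ Submodule.span R {a} ↔ f x ∈ K ⊔ Submodule.span Λ {f a} := by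
  constructor
  · intro hx
    obtain ⟨u, hu, v, hv, rfl⟩ := Submodule.mem_sup.1 hx
    obtain ⟨c, rfl⟩ := Submodule.mem_span_singleton.1 hv
    rw [map_add, smul_eq_mul, map_mul]
    exact add_mem (Submodule.mem_sup_left ((hK u).1 hu))
      (Submodule.mem_sup_right (Submodule.mem_span_singleton.2 ⟨f c, rfl⟩))
  · intro hx
    obtain ⟨u, hu, v, hv, e⟩ := Submodule.mem_sup.1 hx
    obtain ⟨c, rfl⟩ := Submodule.mem_span_singleton.1 hv
    obtain ⟨c, rfl⟩ := hf c
    refine Submodule.mem_sup.2 ⟨x - c * a, (hK _).2 ?_, c * a,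
      Submodule.mem_span_singleton.2 ⟨c, rfl⟩, sub_add_cancel _ _⟩
    rw [map_sub, map_mul, ← e, smul_eq_mul, add_sub_cancel_right]
    exact hu

variable {q : R}

/-- The pull-back of the data of an adic or divisible end. -/
noncomputable def pdPB (hf : Function.Surjective f) (hq : ∀ r, r * q = q * r)
    (P : PData Λ (f q) n) : PData R q n where
  I := Ideal.comap f P.I
  t := Function.surjInv hf P.t
  y i := Function.surjInv hf (P.y i)
  hq := hq
  It x hx := by
    have hx' : f x ∈ P.I := hx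
    change f (x * _) ∈ P.I
    rw [map_mul, Function.surjInv_eq hf]
    exact P.It _ hx'

variable (hf : Function.Surjective f) (hq : ∀ r, r * q = q * r) (P : PData Λ (f q) n)

theorem pd_t : f (pdPB hf hq P).t = P.t := Function.surjInv_eq hf _

theorem pd_y (i : Fin n) : f ((pdPB hf hq P).y i) = P.y i := Function.surjInv_eq hf _

theorem pd_I (x : R) : x ∈ (pdPB hf hq P).I ↔ f x ∈ P.I := Iff.rfl

theorem pd_lev (l : ℕ) (x : R) : x ∈ (pdPB hf hq P).lev l ↔ f x ∈ P.lev l := by
  unfold PData.lev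
  rw [mem_span_sup hf _ P.I (pd_I hf hq P), map_pow]

theorem pd_st (l : ℕ) (x : R) : x ∈ (pdPB hf hq P).st l ↔ f x ∈ P.st l := by
  unfold PData.st
  rw [Submodule.mem_iInf, Submodule.mem_iInf]
  refine forall_congr' fun k => ?_
  rw [sup_comm, mem_span_sup hf _ (P.lev l) (pd_lev hf hq P l), map_pow, pd_t, sup_comm]

/-- The map on sequences. -/
def seqMap (f : R →+* Λ) : (ℕ → R) →ₛₗ[f] (ℕ → Λ) where
  toFun x k := f (x k)
  map_add' x y := funext fun k => map_add f (x k) (y k)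
  map_smul' c x := funext fun k => map_mul f c (x k)

theorem seqMap_apply (x : ℕ → R) (k : ℕ) : seqMap f x k = f (x k) := rfl

include hf in
theorem seqMap_surj : Function.Surjective (seqMap f) := fun y =>
  ⟨fun k => Function.surjInv hf (y k), funext fun k => Function.surjInv_eq hf (y k)⟩

theorem end_pull {E : Pt Λ n} (hf : Function.Surjective f) (hq : ∀ r, r * q = q * r)
    (hE : IsEnd (f q) E) : ∃ (E' : Pt R n) (g : E'.Y →ₛₗ[f] E.Y), IsEnd q E' ∧
      Function.Bijective g ∧ ∀ i, g (E'.y i) = E.y i := by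
  rcases hE with ⟨T, hT, rfl⟩ | ⟨P, hy, hy', rfl⟩ | ⟨P, hy, rfl⟩
  · obtain ⟨g, hg, hg'⟩ := tail_pull hf T
    exact ⟨(tailPB f T).pt, g, Or.inl ⟨tailPB f T, hT, rfl⟩, hg, hg'⟩
  · have h1 : ∀ i, (pdPB hf hq P).y i * (pdPB hf hq P).t - (pdPB hf hq P).y i ∈
        (pdPB hf hq P).I := fun i => by
      rw [pd_I, map_sub, map_mul, pd_y, pd_t]; exact hy i
    obtain ⟨g, hg, hg'⟩ := sub_bij (seqMap f) (seqMap_surj hf) (pdPB hf hq P).aSeq
      (pdPB hf hq P).aNull P.aSeq P.aNull
      (fun x => by simp only [PData.mem_aSeq, pd_lev, pd_st, map_sub, seqMap_apply])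
      (fun x => by simp only [PData.mem_aNull, pd_lev, seqMap_apply])
    refine ⟨(pdPB hf hq P).adic h1, g, Or.inr (Or.inl ⟨_, h1, fun i => ?_, rfl⟩), hg, fun i => ?_⟩
    · rw [pd_I, map_mul, pd_y]; exact hy' i
    · have e : seqMap f (fun _ => (pdPB hf hq P).y i) = fun _ => P.y i :=
        funext fun _ => pd_y hf hq P i
      refine (hg' _ _ (e ▸ PData.mem_aSeq.2 fun l =>
        ⟨by simp, P.mem_st l (Submodule.mem_sup_left (hy i))⟩)).trans ?_
      exact congrArg _ (Subtype.ext e)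
  · have h1 : ∀ i, (pdPB hf hq P).y i * (pdPB hf hq P).t - (pdPB hf hq P).y i ∈
        (pdPB hf hq P).lev 1 := fun i => by
      rw [pd_lev, map_sub, map_mul, pd_y, pd_t]; exact hy i
    obtain ⟨g, hg, hg'⟩ := sub_bij (seqMap f) (seqMap_surj hf) (pdPB hf hq P).pSeq
      (pdPB hf hq P).pNull P.pSeq P.pNull
      (fun x => Filter.eventually_congr (Filter.Eventually.of_forall fun l => by
        simp only [pd_lev, pd_st, map_sub, map_mul, seqMap_apply]))
      (fun x => Filter.eventually_congr (Filter.Eventually.of_forall fun l => by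
        simp only [pd_lev, seqMap_apply]))
    refine ⟨(pdPB hf hq P).prufer h1, g, Or.inr (Or.inr ⟨_, h1, rfl⟩), hg, fun i => ?_⟩
    have e : seqMap f (fun k => (pdPB hf hq P).y i * q ^ (k - 1)) =
        fun k => P.y i * f q ^ (k - 1) :=
      funext fun k => by rw [seqMap_apply, map_mul, map_pow, pd_y]
    refine (hg' _ _ (e ▸ P.frac_mem 1 (hy i))).trans ?_
    exact congrArg _ (Subtype.ext e)

end pull

end GlobN

/-- Pull-back along a surjection of rings (`q` central in `R`). -/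
theorem Nice.pullback {R Λ : Type} [Ring R] [Ring Λ] (f : R →+* Λ) (hf : Function.Surjective f)
    (q : R) (hq : ∀ r, r * q = q * r) (C : ModuleCat.{0} Λ) (h : Nice (f q) C) :
    ∃ C' : ModuleCat.{0} R, Nice q C' ∧
      ∀ φ ψ : PP R, ind φ ψ C' = ind (φ.map f) (ψ.map f) C := by
  obtain ⟨n, L, E, Z, i1, i2, i3, l, r, hL, hE, ⟨e⟩⟩ := h
  obtain ⟨L', gL, hL', hgL, hyL⟩ := end_pull hf hq hL
  obtain ⟨E', gE, hE', hgE, hyE⟩ := end_pull hf hq hE
  let g : (L'.Y × PB f Z × E'.Y) →ₛₗ[f] (L.Y × Z × E.Y) :=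
    { toFun x := (gL x.1, PB.to f Z x.2.1, gE x.2.2)
      map_add' x y := by simp
      map_smul' c x := by simp }
  have hg : ∀ a b c, g (a, b, c) = (gL a, b, gE c) := fun _ _ _ => rfl
  have hinj : Function.Injective g := by
    rintro ⟨a, b, c⟩ ⟨a', b', c'⟩ h
    rw [hg, hg] at h
    exact Prod.ext (hgL.1 (congrArg (fun z => z.1) h))
      (Prod.ext (congrArg (fun z => z.2.1) h) (hgE.1 (congrArg (fun z => z.2.2) h)))
  have hsurj : Function.Surjective g := by
    rintro ⟨a, b, c⟩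
    obtain ⟨a, rfl⟩ := hgL.2 a
    obtain ⟨c, rfl⟩ := hgE.2 c
    exact ⟨(a, b, c), rfl⟩
  have : RingHomSurjective f := ⟨hf⟩
  have hmap : (glueRel L' E' (PB f Z) l r).map g = glueRel L E Z l r := by
    unfold glueRel
    rw [Submodule.map_span, Set.image_union, ← Set.range_comp, ← Set.range_comp]
    congr 3
    · funext i
      exact Prod.ext (hyL i) (Prod.ext rfl (map_zero gE))
    · funext i
      exact Prod.ext (map_zero gL) (Prod.ext rfl ((map_neg gE _).trans (congrArg _ (hyE i))))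
  have hb := mapQ_bij g hsurj (glueRel L' E' (PB f Z) l r) (glueRel L E Z l r) fun x => by
    rw [← hmap]
    exact ⟨fun hx => ⟨x, hx, rfl⟩, fun ⟨y, hy, e⟩ => hinj e ▸ hy⟩
  refine ⟨ModuleCat.of R (Glue L' E' (PB f Z) l r), ⟨n, L', E', PB f Z, inferInstance,
    inferInstance, inferInstance, l, r, hL', hE', ⟨LinearEquiv.refl _ _⟩⟩, fun φ ψ => ?_⟩
  rw [ind_congr _ _ e]
  exact ind_semi _ hb φ ψ

end Pool.Agent.Lib.MP_c13fce_lc
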