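import Pool.Agent.Lib.MP_c13fce_lc.F1Pure
import Pool.Agent.Lib.MP_c13fce_lc.F1Split

/-! Block F1: string data of group rings. This file proves `exists_mixed`; the other statements
of the block (`reg_group`, `exists_pure`, `exists_split`) are in the imported files. -/

namespace Pool.Agent.Lib.MP_c13fce_lc

open MonoidAlgebra

namespace F1

/-- twisting a group algebra by a character -/
noncomputable def tw {F H : Type} [CommRing F] [Group H] (ω : H →* Fˣ) :
    MonoidAlgebra F H →ₐ[F] MonoidAlgebra F H :=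
  MonoidAlgebra.lift F (MonoidAlgebra F H) H
    { toFun := fun h ↦ single h (ω h : F)
      map_one' := by rw [map_one, Units.val_one, one_def]
      map_mul' := fun x y ↦ by rw [single_mul_single, map_mul, Units.val_mul] }

theorem tw_single {F H : Type} [CommRing F] [Group H] (ω : H →* Fˣ) (h : H) (c : F) :
    tw ω (single h c) = single h (c * ω h) := by
  rw [tw, lift_single]
  exact smul_single c h (ω h : F)

theorem exists_twist {F H : Type} [CommRing F] [Group H] (ω : H →* Fˣ) :
    ∃ σ : MonoidAlgebra F H ≃+* MonoidAlgebra F H,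
      ∀ h c, σ (single h c) = single h (c * ω h) := by
  refine ⟨(AlgEquiv.ofAlgHom (tw ω) (tw ω⁻¹) ?_ ?_).toRingEquiv, tw_single ω⟩
  · ext h
    simp [tw_single]
  · ext h
    simp [tw_single]

theorem exists_char (p : ℕ) {G : Type} [Group G] [Finite G] (g : G) (hg : orderOf g = p)
    [hZ : (Subgroup.zpowers g).Normal] :
    ∃ (k : G → ℕ) (ω : G ⧸ Subgroup.zpowers g →* (ZMod p)ˣ),
      (∀ x, g * x = x * g ^ k x) ∧ ∀ x : G, (ω x : ZMod p) = k x := by
  have h : ∀ x : G, ∃ k : ℕ, g ^ k = x⁻¹ * g * x := fun x ↦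
    (mem_powers_iff_mem_zpowers.2 (hZ.conj_mem' g (Subgroup.mem_zpowers g) x) :)
  choose k hk using h
  have he : ∀ i j : ℕ, g ^ i = g ^ j → (i : ZMod p) = j := fun i j hij ↦ by
    rw [pow_eq_pow_iff_modEq, hg] at hij
    exact (ZMod.natCast_eq_natCast_iff _ _ _).2 hij
  have h1 : ∀ z ∈ Subgroup.zpowers g, (k z : ZMod p) = 1 := by
    rintro _ ⟨i, rfl⟩
    rw [← Nat.cast_one]
    apply he
    rw [hk]
    group
  let w : G →* ZMod p :=
    { toFun := fun x ↦ k x
      map_one' := h1 1 (one_mem _)
      map_mul' := fun x y ↦ by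
        rw [← Nat.cast_mul]
        apply he
        rw [mul_comm, pow_mul, hk y, hk (x * y)]
        have : (y⁻¹ * g * y) ^ k x = y⁻¹ * g ^ k x * y := by
          simpa using conj_pow (a := y⁻¹) (b := g) (i := k x)
        rw [this, hk]
        group }
  refine ⟨k, QuotientGroup.lift _ w.toHomUnits fun z hz ↦ Units.ext (h1 z hz), fun x ↦ ?_,
    fun x ↦ rfl⟩
  rw [hk]
  group

section
variable {G : Type} [Group G] [Finite G] (g : G)

theorem single_sub_mem {z : G} (hz : z ∈ Subgroup.zpowers g) (x : G) (n : ℤ) :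
    single (x * z) n - single x n ∈ Ideal.span {(single g 1 - 1 : MonoidAlgebra ℤ G)} := by
  obtain ⟨i, rfl⟩ := mem_powers_iff_mem_zpowers.2 hz
  refine Ideal.mem_span_singleton'.2 ⟨single x n * ∑ j ∈ Finset.range i, single g 1 ^ j, ?_⟩
  rw [mul_assoc, geom_sum_mul, mul_sub, mul_one, single_pow, single_mul_single, one_pow, mul_one]

open Classical in
theorem exists_norm : ∃ b : MonoidAlgebra ℤ G,
    (∀ x, b.coeff x = if x ∈ Subgroup.zpowers g then 1 else 0) ∧
      ∃ y, b = (orderOf g : MonoidAlgebra ℤ G) * 1 + y * (single g 1 - 1) := by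
  have := Fintype.ofFinite G
  refine ⟨∑ z ∈ Finset.univ.filter (· ∈ Subgroup.zpowers g), single z 1, fun x ↦ ?_, ?_⟩
  · simp [coeff_sum, Finsupp.single_apply]
  · have h : ∑ z ∈ Finset.univ.filter (· ∈ Subgroup.zpowers g), (single z 1 - 1) ∈
        Ideal.span {(single g 1 - 1 : MonoidAlgebra ℤ G)} := Ideal.sum_mem _ fun z hz ↦ by
      simpa [one_def] using single_sub_mem g (Finset.mem_filter.1 hz).2 1 1
    obtain ⟨y, hy⟩ := Ideal.mem_span_singleton'.1 h
    refine ⟨y, ?_⟩
    rw [hy, Finset.sum_sub_distrib, Finset.sum_const, nsmul_eq_mul, ← Nat.card_zpowers,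
      Nat.card_eq_fintype_card, Fintype.card_subtype]
    abel

variable [(Subgroup.zpowers g).Normal]

theorem sub_sec_mem (r : MonoidAlgebra ℤ G) :
    r - mapDomain Quotient.out (mapDomainRingHom ℤ (QuotientGroup.mk' (Subgroup.zpowers g)) r) ∈
      Ideal.span {(single g 1 - 1 : MonoidAlgebra ℤ G)} := by
  induction r using induction_linear with
  | zero => simp
  | add x y hx hy =>
    rw [map_add, mapDomain_add, add_sub_add_comm]
    exact add_mem hx hy
  | single x n =>
    obtain ⟨z, hz⟩ := QuotientGroup.mk_out_eq_mul (Subgroup.zpowers g) x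
    have := neg_mem (single_sub_mem g z.2 x n)
    rw [neg_sub, ← hz] at this
    simpa using this

end

end F1

theorem exists_mixed (p : ℕ) [Fact p.Prime] (G : Type) [Group G] [Finite G] (g : G)
    (hg : orderOf g = p) [(Subgroup.zpowers g).Normal]
    (_hH : ¬ p ∣ Nat.card (G ⧸ Subgroup.zpowers g)) :
    ∃ (Δ : SD ℤ (MonoidAlgebra ℤ G) (MonoidAlgebra (ZMod p) (G ⧸ Subgroup.zpowers g)))
      (ω : G ⧸ Subgroup.zpowers g →* (ZMod p)ˣ), Δ.π = p ∧
      ∀ h, Δ.σ (MonoidAlgebra.single h 1) = MonoidAlgebra.single h (ω h : ZMod p) := by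
  classical
  have hp : p.Prime := Fact.out
  obtain ⟨k, ω, hk, hω⟩ := F1.exists_char p g hg
  obtain ⟨σ, hσ⟩ := F1.exists_twist ω
  obtain ⟨b, hb, y0, hy0⟩ := F1.exists_norm g
  rw [hg] at hy0
  set a : MonoidAlgebra ℤ G := single g 1 - 1 with ha
  set T := mapDomainRingHom ℤ (QuotientGroup.mk' (Subgroup.zpowers g)) with hT
  let V : MonoidAlgebra ℤ (G ⧸ Subgroup.zpowers g) →+ MonoidAlgebra ℤ G :=
    AddMonoidHom.mk' (mapDomain Quotient.out) (mapDomain_add _)
  have hTs : ∀ x n, T (single x n) = single (x : G ⧸ Subgroup.zpowers g) n := fun x n ↦ by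
    simp [hT]
  have hVs : ∀ h n, V (single h n) = single h.out n := fun h n ↦ mapDomain_single
  have hg1 : (g : G ⧸ Subgroup.zpowers g) = 1 :=
    (QuotientGroup.eq_one_iff g).2 (Subgroup.mem_zpowers g)
  have hTg : T (single g 1) = 1 := by rw [hTs, hg1, one_def]
  have hTa : T a = 0 := by rw [ha, map_sub, hTg, map_one, sub_self]
  have hTV : ∀ t, T (V t) = t := fun t ↦ by
    induction t using induction_linear with
    | zero => simp
    | add x y hx hy => rw [map_add, map_add, hx, hy]
    | single h n => rw [hVs, hTs, QuotientGroup.out_eq']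
  have hsec : ∀ r, ∃ x, r = x * a + V (T r) := fun r ↦ by
    obtain ⟨x, hx⟩ := Ideal.mem_span_singleton'.1 (F1.sub_sec_mem g r)
    exact ⟨x, by rw [hx]; exact (sub_add_cancel _ _).symm⟩
  have hVp : ∀ t, V (p * t) = p * V t := fun t ↦ by
    rw [← nsmul_eq_mul, map_nsmul, nsmul_eq_mul]
  have hab : a * b = 0 := by
    rw [ha, sub_mul, one_mul, sub_eq_zero]
    ext x
    rw [coeff_single_mul_apply, one_mul, hb, hb]
    simp only [Subgroup.mul_mem_cancel_left _ (inv_mem (Subgroup.mem_zpowers g))]
  have hcb : ∀ r, b * r = r * b := fun r ↦ by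
    induction r using induction_linear with
    | zero => simp
    | add x y hx hy => rw [mul_add, add_mul, hx, hy]
    | single x n =>
      ext y
      rw [coeff_single_mul_apply, coeff_mul_single_apply, hb, hb, mul_comm]
      simp only [Subgroup.Normal.mem_comm_iff inferInstance (a := y) (b := x⁻¹)]
  have hVb : ∀ t h, (V t * b).coeff h.out = t.coeff h := fun t h ↦ by
    induction t using induction_linear with
    | zero => simp
    | add x y hx hy => simp [add_mul, hx, hy]
    | single h' n =>
      rw [hVs, coeff_single_mul_apply, hb, coeff_single, Finsupp.single_apply]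
      simp only [← QuotientGroup.eq, QuotientGroup.out_eq', mul_ite, mul_one, mul_zero]
  let q := (mapRingHom (G ⧸ Subgroup.zpowers g) (Int.castRingHom (ZMod p))).comp T
  have hqs : ∀ x n, q (single x n) = single (x : G ⧸ Subgroup.zpowers g) (n : ZMod p) :=
    fun x n ↦ by simp [q, hTs]
  have hq : ∀ r, q r = mapRingHom _ (Int.castRingHom (ZMod p)) (T r) := fun _ ↦ rfl
  have hqg : q (single g 1) = 1 := by rw [hq, hTg, map_one]
  have hqa : q a = 0 := by rw [hq, hTa, map_zero]
  have hpS : (p : MonoidAlgebra (ZMod p) (G ⧸ Subgroup.zpowers g)) = 0 := by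
    simp [natCast_def]
  have hgeom : ∀ i : ℕ, q (∑ j ∈ Finset.range i, single g 1 ^ j) = single 1 (i : ZMod p) :=
    fun i ↦ by simp only [map_sum, map_pow, hqg, one_pow, Finset.sum_const, Finset.card_range,
      nsmul_eq_mul, mul_one, natCast_def]
  let c : MonoidAlgebra (ZMod p) (G ⧸ Subgroup.zpowers g) →+ ZMod p :=
    AddMonoidHom.mk' (fun s ↦ s.coeff 1) fun _ _ ↦ by simp
  have hc : ∀ s, c s = s.coeff 1 := fun _ ↦ rfl
  obtain ⟨Δ, h1, -, h2⟩ := F1.exists_SD p hp a b q σ c
    (fun s ↦ by
      obtain ⟨t, rfl⟩ := map_surjective (M := G ⧸ Subgroup.zpowers g)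
        (Int.castRingHom (ZMod p)).toAddMonoidHom ZMod.intCast_surjective s
      exact ⟨V t, by rw [hq, hTV]; rfl⟩)
    (fun r ↦ by
      constructor
      · intro h
        obtain ⟨t, ht⟩ := F1.exists_mul_of_dvd p (s := T r) fun x ↦ by
          have := congrArg (fun s ↦ s.coeff x) h
          simp only [hq, coeff_mapRingHom] at this
          exact (ZMod.intCast_zmod_eq_zero_iff_dvd _ p).1 this
        obtain ⟨x, hx⟩ := hsec r
        refine ⟨x - V t * y0, V t, ?_⟩
        rw [hx, ht, hVp, hy0, Nat.cast_comm]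
        noncomm_ring
      · rintro ⟨x, y, rfl⟩
        rw [hy0]
        simp [hqa, hpS])
    (fun r ↦ by
      induction r using induction_linear with
      | zero => exact ⟨0, by simp⟩
      | add x y hx hy =>
        obtain ⟨x', h1, h2⟩ := hx
        obtain ⟨y', h3, h4⟩ := hy
        exact ⟨x' + y', by rw [mul_add, add_mul, h1, h3], by simp only [map_add, h2, h4]⟩
      | single x n =>
        refine ⟨single x n * ∑ j ∈ Finset.range (k x), single g 1 ^ j, ?_, ?_⟩
        · rw [mul_assoc, ha, geom_sum_mul, mul_sub, sub_mul, mul_one, one_mul, single_pow,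
            single_mul_single, single_mul_single, hk, one_pow, mul_one, one_mul]
        · rw [map_mul, hgeom, hqs, hσ, single_mul_single, mul_one, hω])
    (fun r ↦ by
      induction r using induction_linear with
      | zero => exact ⟨0, by simp⟩
      | add x y hx hy =>
        obtain ⟨x', h1, h2⟩ := hx
        obtain ⟨y', h3, h4⟩ := hy
        exact ⟨x' + y', by rw [mul_add, add_mul, h1, h3], by simp only [map_add, h2, h4]⟩
      | single x n =>
        refine ⟨(∑ j ∈ Finset.range (k x⁻¹), single g 1 ^ j) * single x n, ?_, ?_⟩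
        · have e : x * g = g ^ k x⁻¹ * x := by
            have := hk x⁻¹
            rw [mul_inv_eq_iff_eq_mul, mul_assoc, eq_inv_mul_iff_mul_eq] at this
            exact this
          rw [← mul_assoc, ha, mul_geom_sum, mul_sub, sub_mul, mul_one, one_mul, single_pow,
            single_mul_single, single_mul_single, e, one_pow, mul_one, one_mul]
        · rw [map_mul, hgeom, hqs, single_mul_single, hσ, one_mul, ← hω, mul_right_comm,
            ← Units.val_mul, ← map_mul, ← QuotientGroup.mk_mul, inv_mul_cancel,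
            QuotientGroup.mk_one, map_one, Units.val_one, one_mul])
    hcb hab hpS
    (by
      obtain ⟨r, hr⟩ := (Commute.one_right a).exists_add_pow_prime_eq hp
      rw [ha, sub_add_cancel, single_pow, ← hg, pow_orderOf_eq_one, one_pow, ← one_def, hg, ← ha,
        one_pow, mul_one, add_right_comm, right_eq_add, add_eq_zero_iff_eq_neg] at hr
      exact ⟨p, -(a * r), 0, by rw [hr, zero_mul, add_zero, mul_neg, mul_assoc]⟩)
    ⟨1, 1, y0, by rw [pow_one]; exact hy0⟩
    (by
      rintro r ⟨y, hy⟩
      obtain ⟨x, hx⟩ := hsec y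
      rw [hx, add_mul, mul_assoc, hab, mul_zero, zero_add] at hy
      obtain ⟨t, ht⟩ := F1.exists_mul_of_dvd p (s := T y) fun h ↦ by
        rw [← hVb, ← hy]
        simp [natCast_def]
      rw [ht, hVp, mul_assoc, ← sub_eq_zero, ← mul_sub] at hy
      exact ⟨V t, sub_eq_zero.1 (F1.eq_zero_of_mul hp.ne_zero hy)⟩)
    (Or.inr (by
      rintro r ⟨y, hy⟩
      have h := congrArg T hy
      rw [map_mul, map_mul, hTa, mul_zero, map_natCast] at h
      obtain ⟨x, hx⟩ := hsec r
      rw [F1.eq_zero_of_mul hp.ne_zero h, map_zero, add_zero] at hx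
      exact ⟨x, hx⟩))
    (fun s t ↦ F1.coeff_one_comm s t)
    (fun s ↦ by
      induction s using induction_linear with
      | zero => simp
      | add x y hx hy => simp only [map_add, hx, hy]
      | single h n =>
        rw [hσ, hc, hc, coeff_single, coeff_single, Finsupp.single_apply, Finsupp.single_apply]
        split_ifs with h1
        · simp [h1]
        · rfl)
    (fun s hs ↦ by
      ext x
      have := hs (single x⁻¹ 1)
      rw [hc, coeff_single_mul_apply] at this
      simpa using this)
    (reg_group G)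
  exact ⟨Δ, ω, h1, fun h ↦ by rw [h2, hσ, one_mul]⟩

end Pool.Agent.Lib.MP_c13fce_lc
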