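import Pool.Agent.Lib.MP_c13fce_lc.RealBand3

/-! Realisation of bands. -/

namespace Pool.Agent.Lib.MP_c13fce_lc
open scoped BigOperators

namespace RB

theorem tail_ker {R : Type} [Ring R] {n : ℕ} (T : Tail R n) (z : T.supp) :
    (Submodule.span R (Set.range T.pt.y)).mkQ ((T.rel.submoduleOf T.supp).mkQ z) = 0 ↔
      ∃ c : ℕ → Fin n → R, (T.s = true → {k | c k ≠ 0}.Finite) ∧
        ∀ k, z.1 k = ∑ i, c (k + 1) i • T.r k i - ∑ i, c k i • T.l k i := by
  have key : ∀ e : Fin n → R, ∑ i, e i • T.pt.y i = (T.rel.submoduleOf T.supp).mkQ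
      ⟨Pi.single 0 (∑ i, e i • T.l 0 i), T.single_mem 0 _⟩ := by
    intro e
    have : (⟨Pi.single 0 (∑ i, e i • T.l 0 i), T.single_mem 0 _⟩ : T.supp) =
        ∑ i, e i • ⟨Pi.single 0 (T.l 0 i), T.single_mem 0 _⟩ := by
      apply Subtype.ext
      funext k
      rw [AddSubmonoidClass.coe_finsetSum, Finset.sum_apply]
      cases k <;> simp
    rw [this, map_sum]
    rfl
  rw [Submodule.mkQ_apply, Submodule.Quotient.mk_eq_zero, Submodule.mem_span_range_iff_exists_fun]
  constructor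
  · rintro ⟨e, he⟩
    rw [key] at he
    obtain ⟨c, hc, h⟩ := (Submodule.Quotient.eq _).1 he.symm
    refine ⟨fun k => Nat.casesOn k (-e) c, fun hs => ?_, fun k => ?_⟩
    · refine (((hc hs).image (· + 1)).insert 0).subset fun k hk => ?_
      cases k with
      | zero => simp
      | succ k => exact Or.inr ⟨k, hk, rfl⟩
    · have := congrFun h k
      cases k with
      | zero =>
        simp only [Submodule.subtype_apply, AddSubgroupClass.coe_sub, Pi.sub_apply,
          Pi.single_eq_same, Tail.bd, prev, Pi.zero_apply, zero_smul, Finset.sum_const_zero,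
          sub_zero] at this
        simp [← this]
      | succ k => simpa [Tail.bd, prev] using this
  · rintro ⟨c, hc, h⟩
    refine ⟨-c 0, ?_⟩
    rw [key]
    refine ((Submodule.Quotient.eq (T.rel.submoduleOf T.supp)).2
      ⟨fun k => c (k + 1), fun hs => ?_, funext fun k => ?_⟩).symm
    · exact (hc hs).preimage (f := fun k => k + 1) (add_left_injective 1).injOn
    · cases k with
      | zero => simp [Tail.bd, prev, h]
      | succ k => simp [Tail.bd, prev, h]

variable {D Λ S : Type} [CommRing D] [IsDomain D] [IsPrincipalIdealRing D] [FinQ D] [Ring Λ]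
  [Algebra D Λ] [Module.Finite D Λ] [Ring S] [Algebra D S] [Finite S] [IsSemisimpleRing S]
  {w : ℤ → Bool} {r : ℕ} {d : ℤ} {Δ : SD D Λ S} (hw : IsBand w r d) {X : BM S (Δ.twp w r d)}
  (Y : ZD Δ (Set.Icc d (d + r)) w X.W)

/-- The left boundary map composed with the twist. -/
noncomputable def ioT : X.W →+ Y.Z := (Y.io (dpL Δ hw)).comp X.T0.toAddMonoidHom

/-- Additive maps compatible with the twist at the right boundary. -/
def Semi (A : X.W →+ Y.Z) : Prop :=
  ∀ (c : Λ) (s : S), Δ.q c = Δ.tw w (d + r) s → ∀ x, c • A x = A (s • x)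

theorem semi_R : Semi Y (Y.io (dpR Δ hw)) := fun _ _ h x => Y.smul_io _ h x

theorem semi_T : Semi Y (ioT hw Y) := fun c s h x => by
  change c • Y.io (dpL Δ hw) (X.T0 x) = Y.io (dpL Δ hw) (X.T0 (s • x))
  rw [X.semi]
  exact Y.smul_io _ (by rw [tw_twp, h]) _

omit [IsPrincipalIdealRing D] [FinQ D] [Module.Finite D Λ] [Finite S] [IsSemisimpleRing S] in
theorem Semi.sub {A A' : X.W →+ Y.Z} (h : Semi Y A) (h' : Semi Y A') : Semi Y (A - A') :=
  fun c s hc x => by simp [smul_sub, h c s hc, h' c s hc]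

omit [IsPrincipalIdealRing D] [FinQ D] [Module.Finite D Λ] [Finite S] [IsSemisimpleRing S] in
theorem Semi.pi {A : X.W →+ Y.Z} (h : Semi Y A) (x : X.W) : algebraMap D Λ Δ.π • A x = 0 := by
  rw [h _ 0 (by simp [Δ.qπ]), zero_smul, map_zero]

/-- The parameter given by a row of coefficients. -/
noncomputable def co {n : ℕ} (ω : Fin n → X.W) (c : Fin n → Λ) : X.W :=
  ∑ i, (Δ.tw w (d + r)).symm (Δ.q (c i)) • ω i

omit [IsPrincipalIdealRing D] [FinQ D] [Module.Finite D Λ] [Finite S] [IsSemisimpleRing S] in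
theorem Semi.sum {A : X.W →+ Y.Z} (h : Semi Y A) {n : ℕ} (ω : Fin n → X.W) (c : Fin n → Λ) :
    ∑ i, c i • A (ω i) = A (co ω c) := by
  rw [co, map_sum]
  exact Finset.sum_congr rfl fun i _ => h _ _ (by simp) _

omit [IsPrincipalIdealRing D] [FinQ D] [Module.Finite D Λ] [Finite S] [IsSemisimpleRing S] in
theorem exists_co {n : ℕ} {ω : Fin n → X.W} (hω : Function.Surjective ω) (x : X.W) :
    ∃ c, co ω c = x ∧ (x = 0 → c = 0) := by
  by_cases hx : x = 0
  · exact ⟨0, by simp [co, hx], fun _ => rfl⟩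
  · obtain ⟨i, rfl⟩ := hω x
    refine ⟨Pi.single i 1, ?_, fun h => absurd h hx⟩
    rw [co, Finset.sum_eq_single i]
    · simp
    · intro j _ hj; simp [hj]
    · simp

theorem exists_BD : ∃ C : ModuleCat.{0} Λ, Nice (algebraMap D Λ Δ.π) C ∧
    Nonempty (BD Δ hw X Y C) := by
  obtain ⟨n, ⟨e⟩⟩ := Finite.exists_equiv_fin X.W
  have hω := e.symm.surjective
  have hT : ∀ (v : X.C) k, Y.io (dpL Δ hw) ((X.T v).1 k) =
      ioT hw Y (v.1 k) + ioT hw Y (X.nb v.1 k) := fun v k => (map_add (ioT hw Y) _ _)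
  have hk : X.kind = 0 ∨ X.kind = 1 ∨ X.kind = 2 := by
    generalize X.kind = k; revert k; decide
  rcases hk with hk | hk | hk
  · let Zs : Submodule Λ (ℕ → Y.Z) :=
      { carrier := {z | ∀ k, z (k + 1) = 0}
        zero_mem' := fun _ => rfl
        add_mem' := fun hx hy k => by simp [hx k, hy k]
        smul_mem' := fun c x hx k => by simp [hx k] }
    let Rel : Submodule Λ Zs :=
      { carrier := {z | ∃ v : X.C, ∀ k,
          z.1 k = Y.io (dpR Δ hw) (v.1 k) - Y.io (dpL Δ hw) ((X.T v).1 k)}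
        zero_mem' := ⟨0, fun k => by simp⟩
        add_mem' := by
          rintro x y ⟨v, hv⟩ ⟨v', hv'⟩
          refine ⟨v + v', fun k => ?_⟩
          simp only [Submodule.coe_add, Pi.add_apply, hv, hv', map_add]
          abel
        smul_mem' := by
          rintro c x ⟨v, hv⟩
          refine ⟨(Δ.tw w (d + r)).symm (Δ.q c) • v, fun k => ?_⟩
          simp only [Submodule.coe_smul, Pi.smul_apply, hv, T_smul, smul_sub]
          rw [Y.smul_io (dpR Δ hw) (s := (Δ.tw w (d + r)).symm (Δ.q c)) (by simp),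
            Y.smul_io (dpL Δ hw) (s := Δ.twp w r d ((Δ.tw w (d + r)).symm (Δ.q c)))
              (by simp [tw_twp])] }
    have : Finite Zs := Finite.of_injective (fun z : Zs => z.1 0) fun z z' h =>
      Subtype.ext (funext fun k => by
        cases k with
        | zero => exact h
        | succ k => rw [z.2 k, z'.2 k])
    have : Finite (Zs ⧸ Rel) := Finite.of_surjective _ Rel.mkQ_surjective
    refine ⟨ModuleCat.of Λ (Zs ⧸ Rel), nice_of_finite _ _, ⟨⟨Zs, fun z => ?_, Rel.mkQ,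
      Rel.mkQ_surjective, fun z => Submodule.Quotient.mk_eq_zero _⟩⟩⟩
    refine ⟨fun h => ⟨fun _ k hk => ?_, fun h2 => absurd (hk.symm.trans h2) (by decide)⟩,
      fun h k => ?_⟩
    · cases k with
      | zero => rfl
      | succ k => exact absurd (h k) hk
    · by_contra hk'
      exact absurd (h.1 hk hk') (by simp)
  · let T : Tail Λ n :=
      { Z := fun _ => Y.Z
        l := fun k i => Nat.casesOn k 0 fun _ => ioT hw Y (e.symm i)
        r := fun _ i => (Y.io (dpR Δ hw) - ioT hw Y) (e.symm i)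
        s := false }
    have hE : IsEnd (algebraMap D Λ Δ.π) T.pt := Or.inl ⟨T, fun k i => ⟨by
      cases k with
      | zero => exact smul_zero _
      | succ k => exact (semi_T hw Y).pi Y _, (Semi.sub Y (semi_R hw Y) (semi_T hw Y)).pi Y _⟩, rfl⟩
    have hC : ∀ v, v ∈ X.C := fun v => ⟨fun h => absurd (hk.symm.trans h) (by decide),
      fun h => absurd (hk.symm.trans h) (by decide)⟩
    have hb : ∀ (c : ℕ → Fin n → Λ) k, ∑ i, c (k + 1) i • T.r k i - ∑ i, c k i • T.l k i =
        Y.io (dpR Δ hw) (co e.symm (c (k + 1))) -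
          Y.io (dpL Δ hw) ((X.T ⟨fun k => co e.symm (c (k + 1)), hC _⟩).1 k) := by
      intro c k
      rw [hT, (Semi.sub Y (semi_R hw Y) (semi_T hw Y)).sum Y]
      cases k with
      | zero => simp [BM.nb, hk, T]
      | succ k =>
        rw [(semi_T hw Y).sum Y]
        simp [BM.nb, hk, sub_sub]
    refine ⟨_, nice_of_isEnd hE, ⟨⟨T.supp, fun z => ⟨fun _ => ⟨fun h => absurd (hk.symm.trans h)
      (by decide), fun h => absurd (hk.symm.trans h) (by decide)⟩, fun _ h => absurd h (by simp [T])⟩,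
      (Submodule.span Λ (Set.range T.pt.y)).mkQ ∘ₗ (T.rel.submoduleOf T.supp).mkQ,
      (Submodule.mkQ_surjective _).comp (Submodule.mkQ_surjective _), fun z => ?_⟩⟩⟩
    refine (tail_ker T z).trans ⟨?_, ?_⟩
    · rintro ⟨c, -, h⟩
      exact ⟨⟨fun k => co e.symm (c (k + 1)), hC _⟩, fun k => (h k).trans (hb c k)⟩
    · rintro ⟨v, h⟩
      choose c hc _ using fun k => exists_co hω (v.1 k)
      refine ⟨fun k => Nat.casesOn k 0 c, fun h => absurd h (by simp [T]), fun k => ?_⟩
      rw [hb, h]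
      simp only [hc]
  · let T : Tail Λ n :=
      { Z := fun _ => Y.Z
        l := fun _ i => (Y.io (dpR Δ hw) - ioT hw Y) (e.symm i)
        r := fun _ i => ioT hw Y (e.symm i)
        s := true }
    have hE : IsEnd (algebraMap D Λ Δ.π) T.pt := Or.inl ⟨T, fun k i =>
      ⟨(Semi.sub Y (semi_R hw Y) (semi_T hw Y)).pi Y _, (semi_T hw Y).pi Y _⟩, rfl⟩
    have hb : ∀ (c : ℕ → Fin n → Λ) (v : X.C), (∀ k, co e.symm (c k) = -v.1 k) → ∀ k,
        ∑ i, c (k + 1) i • T.r k i - ∑ i, c k i • T.l k i =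
        Y.io (dpR Δ hw) (v.1 k) - Y.io (dpL Δ hw) ((X.T v).1 k) := by
      intro c v hv k
      rw [hT, (Semi.sub Y (semi_R hw Y) (semi_T hw Y)).sum Y, (semi_T hw Y).sum Y, hv, hv]
      simp only [BM.nb, hk, map_neg, AddMonoidHom.sub_apply]
      rw [if_neg (by decide)]
      abel
    refine ⟨_, nice_of_isEnd hE, ⟨⟨T.supp, fun z => ⟨fun h => ⟨fun h => absurd (hk.symm.trans h)
      (by decide), fun _ => h rfl⟩, fun h _ => h.2 hk⟩,
      (Submodule.span Λ (Set.range T.pt.y)).mkQ ∘ₗ (T.rel.submoduleOf T.supp).mkQ,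
      (Submodule.mkQ_surjective _).comp (Submodule.mkQ_surjective _), fun z => ?_⟩⟩⟩
    refine (tail_ker T z).trans ⟨?_, ?_⟩
    · rintro ⟨c, hc, h⟩
      refine ⟨⟨fun k => -co e.symm (c k), fun h => absurd (hk.symm.trans h) (by decide),
        fun _ => (hc rfl).subset fun k hk h => hk (by simp [h, co])⟩, fun k => (h k).trans
          (hb c _ (fun k => by simp) k)⟩
    · rintro ⟨v, h⟩
      choose c hc hc0 using fun k => exists_co hω (-v.1 k)
      exact ⟨c, fun _ => (v.2.2 hk).subset fun k hk h => hk (hc0 k (by simp [h])),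
        fun k => (h k).trans (hb c v hc k).symm⟩

end RB

section
variable {D Λ S : Type} [CommRing D] [IsDomain D] [IsPrincipalIdealRing D] [FinQ D] [Ring Λ]
  [Algebra D Λ] [Module.Finite D Λ] [Ring S] [Algebra D S] [Finite S] [IsSemisimpleRing S]

set_option linter.unusedVariables false in
theorem SD.real_band (Δ : SD D Λ S) {w : ℤ → Bool} {r : ℕ} {d : ℤ} (hw : IsBand w r d)
    (hb : Δ.b ≠ 0) (X : BM S (Δ.twp w r d)) :
    ∃ C : ModuleCat.{0} Λ, Nice (algebraMap D Λ Δ.π) C ∧ ∀ φ ψ : PP Λ, ψ.Le φ →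
      ind φ ψ C = ∏ j ∈ Finset.Ico d (d + r),
        eidx ((Δ.bandTF ψ w r d j).set X.T) ((Δ.bandTF φ w r d j).set X.T) := by
  obtain ⟨Y⟩ := RB.exists_ZD Δ (Set.finite_Icc d (d + r)) w X.W
  obtain ⟨C, hC, ⟨E⟩⟩ := RB.exists_BD hw Y
  exact ⟨C, hC, E.count⟩

end

end Pool.Agent.Lib.MP_c13fce_lc
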