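import Pool.Agent.Lib.MP_c13fce_lc.RS7

/-! Realisation of strings: the shape of the ends and the theorem. -/

namespace Pool.Agent.Lib.MP_c13fce_lc
open scoped BigOperators
open Filter
set_option linter.unusedSectionVars false

namespace RS

section Comb
variable {J τ : Set ℤ} {w : ℤ → Bool}

theorem uni (hoc : τ.OrdConnected) (hv : ∀ j, j - 1 ∈ τ → j + 1 ∈ τ → w (j - 1) = false →
    w j = false) (hX : ∃ x, x ∈ τ ∧ (w x = false ∨ x + 1 ∉ τ))
    (hY : ∃ y, y ∈ τ ∧ (w (y - 1) = true ∨ y - 1 ∉ τ)) :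
    ∃ p ∈ τ, ∀ j, j ∈ τ → j + 1 ∈ τ → (w j = true ↔ j < p) := by
  classical
  have prop : ∀ j ∈ τ, w j = false → ∀ j', j ≤ j' → j' + 1 ∈ τ → w j' = false := by
    intro j hj hw j' hj'
    induction j', hj' using Int.leInduction with
    | base => exact fun _ => hw
    | succ k hk ih =>
      intro h1
      have h2 : ∀ i, j ≤ i → i ≤ k + 1 + 1 → i ∈ τ := fun i i1 i2 => hoc.out hj h1 ⟨i1, i2⟩
      exact hv _ (h2 _ (by omega) (by omega)) h1 (by simpa using ih (h2 _ (by omega) (by omega)))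
  obtain ⟨y, hy, hy'⟩ := hY
  obtain ⟨p, ⟨hp, hp'⟩, hmin⟩ := Int.exists_least_of_bdd ⟨y, fun x hx => by
    by_contra hh
    have h2 : ∀ i, x ≤ i → i ≤ y → i ∈ τ := fun i i1 i2 => hoc.out hx.1 hy ⟨i1, i2⟩
    have := prop x hx.1 (hx.2.resolve_right (not_not.2 (h2 _ (by omega) (by omega)))) (y - 1)
      (by omega) (by simpa using hy)
    exact hy'.elim (by simp [this]) fun h => h (h2 _ (by omega) (by omega))⟩ hX
  refine ⟨p, hp, fun j hj hj' => ⟨fun hw => by_contra fun hh => ?_, fun hh => ?_⟩⟩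
  · have := prop p hp (hp'.resolve_right (not_not.2 (hoc.out hp hj' ⟨by omega, by omega⟩))) j
      (by omega) hj'
    simp [this] at hw
  · by_contra hw
    have := hmin j ⟨hj, Or.inl (by simpa using hw)⟩
    omega

theorem exists_dseq (hoc : J.OrdConnected) {s d : ℤ} (hs : s = 1 ∨ s = -1) (hd : Deep J w d)
    (hτ : ∀ j, j ∈ τ ↔ j ∈ J ∧ s * d ≤ s * j) (hinf : ∀ x, ∃ n, Deep J w n ∧ x < s * n) :
    ∃ dd, dd 0 = d ∧ DSeq J w s dd τ ∧
      ∀ k n, Deep J w n → s * dd k < s * n → s * dd (k + 1) ≤ s * n := by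
  classical
  have hn : ∀ x, ∃ n, Deep J w n ∧ s * x < s * n ∧
      ∀ n', Deep J w n' → s * x < s * n' → s * n ≤ s * n' := fun x => by
    obtain ⟨_, ⟨n, rfl, h1⟩, h2⟩ := Int.exists_least_of_bdd
      (P := fun y => ∃ n, y = s * n ∧ Deep J w n ∧ s * x < s * n)
      ⟨s * x, fun _ ⟨n, h1, h2⟩ => h1 ▸ h2.2.le⟩ (let ⟨n, h⟩ := hinf (s * x); ⟨_, n, rfl, h⟩)
    exact ⟨n, h1.1, h1.2, fun n' k1 k2 => h2 _ ⟨n', rfl, k1, k2⟩⟩
  choose nx h1 h2 h3 using hn
  refine ⟨fun k => nx^[k] d, rfl, ⟨hs, fun k => ?_, fun k => ?_, fun j => ?_,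
    fun j hj => ((hτ j).1 hj).1⟩, fun k n => ?_⟩
  · cases k with
    | zero => exact hd
    | succ k => rw [Function.iterate_succ_apply']; exact h1 _
  · rw [Function.iterate_succ_apply']; exact h2 _
  · refine (hτ j).trans (and_iff_right_of_imp fun hj => hoc.uIcc_subset hd.1 (h1 j).1 ?_)
    have := h2 j
    rw [Set.mem_uIcc]
    rcases hs with rfl | rfl <;> omega
  · beta_reduce
    rw [Function.iterate_succ_apply']; exact h3 _ n

theorem lt_prop {u v : ℕ → Wd} (h0 : ∀ k, u (k + 1) 0 = v (k + 1) 0)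
    (hu : ∀ k, (u (k + 1)).tl = u k) (hv : ∀ k, (v (k + 1)).tl = v k)
    (h : toLex (u 0) < toLex (v 0)) (k : ℕ) : toLex (u k) < toLex (v k) := by
  induction k with
  | zero => exact h
  | succ k ih => exact Wd.lt_of_tl (h0 k) (by rwa [hu, hv])

theorem DSeq.oc {s : ℤ} {dd : ℕ → ℤ} (H : DSeq J w s dd τ) : τ.OrdConnected :=
  ⟨fun x hx y hy z hz => by
    rw [H.mem] at hx hy ⊢
    obtain ⟨h1, h2⟩ := hz
    rcases H.hs with rfl | rfl <;> omega⟩

theorem right_cases (hoc : J.OrdConnected) (hnp : ¬ Per J w) {dd : ℕ → ℤ} (H : DSeq J w 1 dd τ) :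
    RWO J w τ ∨ WO J w τ ∨ CL J w dd τ := by
  have hJ : ∀ j, dd 0 ≤ j → j ∈ J := fun j hj => H.sub ((H.mem j).2 (by omega))
  by_cases hper : ∃ (p : ℕ) (n0 : ℤ), 0 < p ∧ dd 0 ≤ n0 ∧ ∀ j, n0 ≤ j → w (j + p) = w j
  · obtain ⟨p, n0, hp, h0, hw⟩ := hper
    have hr : ∀ j, n0 ≤ j → rwd J w (j + p) = rwd J w j := fun j hj => funext fun k => by
      unfold rwd
      rw [if_pos (hJ _ (by omega)), if_pos (hJ (j + k + 1) (by omega)), add_right_comm,
        hw _ (by omega)]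
    have h1 : ∀ k : ℕ, lwd J w (n0 + (k + 1 : ℕ) + p) 0 = lwd J w (n0 + (k + 1 : ℕ)) 0 :=
      fun k => by
        unfold lwd
        rw [if_pos (hJ _ (by omega)), if_pos (hJ (n0 + (k + 1 : ℕ) - (0 : ℕ) - 1) (by omega)),
          ← hw (n0 + (k + 1 : ℕ) - (0 : ℕ) - 1) (by omega), add_sub_right_comm, add_sub_right_comm]
    have h2 : ∀ k : ℕ, (lwd J w (n0 + (k + 1 : ℕ) + p)).tl = lwd J w (n0 + k + p) := fun k => by
      rw [lwd_tl]; congr 1; omega
    have h3 : ∀ k : ℕ, (lwd J w (n0 + (k + 1 : ℕ))).tl = lwd J w (n0 + k) := fun k => by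
      rw [lwd_tl]; congr 1; omega
    rcases lt_trichotomy (toLex (lwd J w (n0 + (0 : ℕ) + p))) (toLex (lwd J w (n0 + (0 : ℕ))))
      with hh | hh | hh
    · refine Or.inl (wo_of_step H.oc (d := dd 0) (n0 := n0) H.hs hp (fun j => (H.mem j).1)
        fun i _ hi _ => ?_)
      obtain ⟨k, rfl⟩ := Int.le.dest (show n0 ≤ i by omega)
      rw [one_mul]
      exact pnt_lt_iff.2 (Or.inr ⟨hr _ (by omega), lt_prop (u := fun k => lwd J w (n0 + k + p))
        (v := fun k => lwd J w (n0 + k)) h1 h2 h3 hh k⟩)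
    · have := pnt_injOn hoc hnp (hJ _ (by omega)) (hJ _ (by omega))
        (pnt_eq_iff.2 ⟨hr _ (by omega), hh⟩)
      omega
    · refine Or.inr (Or.inl (wo_of_step H.oc (d := dd 0) (n0 := n0) H.hs hp (fun j => (H.mem j).1)
        fun i _ hi _ => ?_))
      obtain ⟨k, rfl⟩ := Int.le.dest (show n0 ≤ i by omega)
      rw [one_mul]
      exact pnt_lt_iff.2 (Or.inr ⟨(hr _ (by omega)).symm, lt_prop
        (v := fun k => lwd J w (n0 + k + p)) (u := fun k => lwd J w (n0 + k))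
        (fun k => (h1 k).symm) h3 h2 hh k⟩)
  refine Or.inr (Or.inr fun α _ f m => by_contra fun hn => ?_)
  have key : ∀ a b, f (m + a) = f (m + b) →
      toLex (rwd J w (dd (m + b))) < toLex (rwd J w (dd (m + a))) → False := fun a b hf hlt => by
    obtain ⟨κ, h1, h2⟩ := Wd.lt_iff.1 hlt
    obtain ⟨k', hk'⟩ := H.far (dd (m + a) + κ)
    have := H.mono (Nat.le_add_left k' m)
    have := H.mono (m + b).zero_le
    exact hn ⟨m + a, m + b, m + k', κ, by omega, by omega, by omega, hf, by omega,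
      fun j hj => (H.mem j).2 (by have := hj.1; omega), h1, h2⟩
  have hne : ∀ a b, a < b → rwd J w (dd b) ≠ rwd J w (dd a) := fun a b hab he => by
    have h1 := H.mono (show a + 1 ≤ b from hab)
    have h2 := H.lt a
    have h3 := H.mono a.zero_le
    obtain ⟨p, hp⟩ := Int.le.dest (show dd a ≤ dd b by omega)
    refine hper ⟨p, dd a, by omega, by omega, fun j hj => ?_⟩
    obtain ⟨k, rfl⟩ := Int.le.dest hj
    rw [add_right_comm, hp]
    exact (rwd_letter (congrFun he k) (hJ _ (by omega))).2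
  obtain ⟨a, b, hab, hf⟩ := Finite.exists_ne_map_eq_of_infinite fun k => f (m + k)
  rcases lt_trichotomy (toLex (rwd J w (dd (m + b)))) (toLex (rwd J w (dd (m + a))))
    with hh | hh | hh
  · exact key a b hf hh
  · rcases lt_or_gt_of_ne hab with h | h
    exacts [hne _ _ (by omega) hh, hne _ _ (by omega) hh.symm]
  · exact key b a hf.symm hh

theorem left_cases (hoc : J.OrdConnected) (hnp : ¬ Per J w) {dd : ℕ → ℤ}
    (H : DSeq J w (-1) dd τ)
    (hcon : ∀ k n, Deep J w n → -1 * dd k < -1 * n → -1 * dd (k + 1) ≤ -1 * n) :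
    RWO J w τ ∨ WO J w τ ∨ CL J w dd τ := by
  have hJ : ∀ j, j ≤ dd 0 → j ∈ J := fun j hj => H.sub ((H.mem j).2 (by omega))
  by_cases hper : ∃ (p : ℕ) (n0 : ℤ), 0 < p ∧ n0 ≤ dd 0 ∧ ∀ j, j ≤ n0 → w (j - p) = w j
  · obtain ⟨p, n0, hp, h0, hw⟩ := hper
    have hr : ∀ j, j ≤ n0 → lwd J w (j - p) = lwd J w j := fun j hj => funext fun k => by
      unfold lwd
      rw [if_pos (hJ _ (by omega)), if_pos (hJ (j - k - 1) (by omega)), ← hw (j - k - 1) (by omega),
        sub_right_comm j, sub_right_comm (j - k)]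
    have h1 : ∀ k : ℕ, rwd J w (n0 - (k + 1 : ℕ) - p) 0 = rwd J w (n0 - (k + 1 : ℕ)) 0 :=
      fun k => by
        unfold rwd
        rw [if_pos (hJ _ (by omega)), if_pos (hJ (n0 - (k + 1 : ℕ) + (0 : ℕ) + 1) (by omega)),
          ← hw (n0 - (k + 1 : ℕ) + (0 : ℕ)) (by omega), add_sub_right_comm]
    have h2 : ∀ k : ℕ, (rwd J w (n0 - (k + 1 : ℕ) - p)).tl = rwd J w (n0 - k - p) := fun k => by
      rw [rwd_tl]; congr 1; omega
    have h3 : ∀ k : ℕ, (rwd J w (n0 - (k + 1 : ℕ))).tl = rwd J w (n0 - k) := fun k => by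
      rw [rwd_tl]; congr 1; omega
    have h4 : ∀ i, -1 * n0 ≤ -1 * i → ∃ k : ℕ, i = n0 - k := fun i hi =>
      ⟨(n0 - i).toNat, by omega⟩
    rcases lt_trichotomy (toLex (rwd J w (n0 - (0 : ℕ) - p))) (toLex (rwd J w (n0 - (0 : ℕ))))
      with hh | hh | hh
    · refine Or.inl (wo_of_step H.oc (d := dd 0) (n0 := n0) H.hs hp (fun j => (H.mem j).1)
        fun i _ hi _ => ?_)
      obtain ⟨k, rfl⟩ := h4 i hi
      rw [neg_one_mul, ← sub_eq_add_neg]
      exact pnt_lt_iff.2 (Or.inl (lt_prop (u := fun k => rwd J w (n0 - k - p))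
        (v := fun k => rwd J w (n0 - k)) h1 h2 h3 hh k))
    · have := pnt_injOn hoc hnp (hJ _ (by omega)) (hJ _ (by omega))
        (pnt_eq_iff.2 ⟨hh, hr _ (by omega)⟩)
      omega
    · refine Or.inr (Or.inl (wo_of_step H.oc (d := dd 0) (n0 := n0) H.hs hp (fun j => (H.mem j).1)
        fun i _ hi _ => ?_))
      obtain ⟨k, rfl⟩ := h4 i hi
      rw [neg_one_mul, ← sub_eq_add_neg]
      exact pnt_lt_iff.2 (Or.inl (lt_prop (v := fun k => rwd J w (n0 - k - p))
        (u := fun k => rwd J w (n0 - k)) (fun k => (h1 k).symm) h3 h2 hh k))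
  refine Or.inr (Or.inr fun α _ f m => by_contra fun hn => hper ?_)
  have hm0 := H.mono m.zero_le
  have key : ∀ a b, m ≤ a → m ≤ b → f a = f b →
      toLex (rwd J w (dd b)) < toLex (rwd J w (dd a)) → ∀ i : ℕ, dd a + i < dd m →
      dd b + i < dd m → rwd J w (dd b) i = rwd J w (dd a) i := fun a b ha hb hf hlt i i1 i2 => by
    obtain ⟨κ, h1, h2⟩ := Wd.lt_iff.1 hlt
    refine h1 i (by_contra fun hh => hn ⟨a, b, m, κ, ha, hb, le_rfl, hf, by omega,
      fun j hj => (H.mem j).2 (by have := hj.2; omega), h1, h2⟩)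
  have hag : ∀ a b, m ≤ a → a ≤ b → f a = f b → ∀ j, dd b ≤ j → j + (dd a - dd b) < dd m →
      w (j + (dd a - dd b)) = w j := fun a b ha hab hf j j1 j2 => by
    obtain ⟨i, rfl⟩ := Int.le.dest j1
    have := H.mono hab
    rw [show dd b + i + (dd a - dd b) = dd a + i by ring]
    refine (rwd_letter (J' := J) ?_ (hJ _ (by omega))).2
    rcases lt_trichotomy (toLex (rwd J w (dd b))) (toLex (rwd J w (dd a))) with hh | hh | hh
    · exact (key a b ha (ha.trans hab) hf hh i (by omega) (by omega)).symm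
    · exact (congrFun hh i).symm
    · exact key b a (ha.trans hab) ha hf.symm hh i (by omega) (by omega)
  have hdeep : ∀ n, n < dd 0 → (Deep J w n ↔ w (n - 1) = false ∧ w n = true) := fun n hn =>
    ⟨fun h => ⟨h.2.1.resolve_right (not_not.2 (hJ _ (by omega))),
      h.2.2.resolve_right (not_not.2 (hJ _ (by omega)))⟩,
      fun h => ⟨hJ _ hn.le, Or.inl h.1, Or.inl h.2⟩⟩
  have hcon' : ∀ k n, Deep J w n → dd (k + 1) < n → dd k ≤ n := fun k n h1 h2 => by
    by_contra hh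
    have := hcon k n h1 (by omega)
    omega
  have hshift : ∀ K i, f K = f (K + i) → ∀ t j, j + t = K → m + 1 ≤ j →
      dd K - dd (K + i) = dd j - dd (j + i) := fun K i hf t => by
    induction t with
    | zero => rintro j rfl _; rfl
    | succ t ih =>
      intro j hj hm
      have h1 := ih (j + 1) (by omega) (by omega)
      have h2 := hag K (K + i) (by omega) (by omega) hf
      rw [add_right_comm] at h1
      have a1 := H.lt j
      have a2 := H.lt (j + i)
      have a3 := H.mono (show j + i + 1 ≤ K + i by omega)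
      have a4 := H.mono hm
      have a5 := H.lt m
      have a6 : 0 ≤ dd K - dd (K + i) := by have := H.mono (Nat.le_add_right K i); omega
      have a7 := H.mono (Nat.le_add_right j i)
      generalize dd K - dd (K + i) = δ at *
      obtain ⟨b1, b2⟩ := (hdeep _ (by omega)).1 (H.deep j)
      obtain ⟨c1, c2⟩ := (hdeep _ (by omega)).1 (H.deep (j + i))
      have d1 := hcon' (j + i) (dd j - δ) ((hdeep _ (by omega)).2 ⟨by
        rw [← h2 _ (by omega) (by omega), ← b1]; congr 1; ring, by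
        rw [← h2 _ (by omega) (by omega), sub_add_cancel, b2]⟩) (by omega)
      have d2 := hcon' j (dd (j + i) + δ) ((hdeep _ (by omega)).2 ⟨by
        rw [add_sub_right_comm, h2 _ (by omega) (by omega), c1], by
        rw [h2 _ (by omega) (by omega), c2]⟩) (by omega)
      omega
  have := Fintype.ofFinite α
  have hblock : ∀ b : ℕ, ∃ (i : Fin (Fintype.card α + 1)) (K : ℕ), 0 < i.1 ∧ b ≤ K ∧
      f K = f (K + i) := fun b => by
    obtain ⟨x, y, hxy, hf⟩ := Fintype.exists_ne_map_eq_of_card_lt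
      (fun x : Fin (Fintype.card α + 1) => f (b + x)) (by simp)
    rcases lt_or_gt_of_ne (Fin.val_ne_iff.2 hxy) with h | h
    · exact ⟨⟨y - x, by omega⟩, b + x, by simp; omega, by omega, hf.trans (by congr 1; simp; omega)⟩
    · exact ⟨⟨x - y, by omega⟩, b + y, by simp; omega, by omega,
        hf.symm.trans (by congr 1; simp; omega)⟩
  choose i K k1 k2 k3 using hblock
  obtain ⟨c, hc⟩ := ultra_const (hyperfilter ℕ) i
  obtain ⟨b0, rfl⟩ := hc.exists
  have e1 := H.mono (show m + 1 + 1 ≤ m + 1 + i b0 by have := k1 b0; omega)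
  have e2 := H.lt (m + 1)
  have e3 := H.lt m
  obtain ⟨p, hp⟩ := Int.le.dest (show dd (m + 1 + i b0) ≤ dd (m + 1) by omega)
  refine ⟨p, dd (m + 1), by omega, by omega, fun j hj => ?_⟩
  obtain ⟨x, hx⟩ := H.far (p - j)
  obtain ⟨b, hb, hb'⟩ := (hc.and (Nat.hyperfilter_le_atTop (eventually_ge_atTop (m + 1 + x)))).exists
  have f1 := k2 b
  have f2 := hshift (K b) (i b) (k3 b) (K b - (m + 1)) (m + 1) (by omega) le_rfl
  have f3 := hag (K b) (K b + i b) (by omega) (by omega) (k3 b) (j - p)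
  have f4 := H.mono (show x ≤ K b + i b by omega)
  rw [f2, hb, show dd (m + 1) - dd (m + 1 + i b0) = p by omega, sub_add_cancel] at f3
  rw [hb] at f4
  exact (f3 (by omega) (by omega)).symm

end Comb

section Main
variable {D Λ S : Type} [CommRing D] [IsDomain D] [IsPrincipalIdealRing D] [FinQ D] [Ring Λ]
  [Algebra D Λ] [Module.Finite D Λ] [Ring S] [Algebra D S] [Finite S] [IsSemisimpleRing S]
  {Δ : SD D Λ S} {J : Set ℤ} {w : ℤ → Bool} {e : S} {ρ : ℤ → Λ}

theorem right_end (h : Ctx Δ J w e ρ) {d : ℤ} (hd : Deep J w d) :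
    ∃ d', d ≤ d' ∧ Deep J w d' ∧ EndOK Δ J w ρ (J ∩ Set.Ici d') d' 1 := by
  classical
  by_cases hinf : ∀ x, ∃ n, Deep J w n ∧ x < 1 * n
  · obtain ⟨dd, rfl, H, -⟩ := exists_dseq (τ := J ∩ Set.Ici d) h.str.oc (Or.inl rfl) hd
      (by simp) hinf
    exact ⟨_, le_rfl, hd, exists_tail h H (right_cases h.str.oc h.str.np H)⟩
  push Not at hinf
  obtain ⟨x, hx⟩ := hinf
  obtain ⟨d', hd', hmax⟩ := Int.exists_greatest_of_bdd ⟨x, by simpa using hx⟩ ⟨d, hd⟩
  refine ⟨d', hmax d hd, hd', ?_⟩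
  have hoc : (J ∩ Set.Ici d').OrdConnected := h.str.oc.inter Set.ordConnected_Ici
  by_cases hX : ∃ x, x ∈ J ∩ Set.Ici d' ∧ (w x = false ∨ x + 1 ∉ J ∩ Set.Ici d')
  · obtain ⟨p, hp, huni⟩ := uni hoc (fun j h1 h2 hw => by_contra fun hh => by
      have := hmax j ⟨h.str.oc.out h1.1 h2.1 ⟨by omega, by omega⟩, Or.inl hw,
        Or.inl (by simpa using hh)⟩
      have : d' ≤ j - 1 := h1.2
      omega) hX ⟨d', ⟨hd'.1, Set.self_mem_Ici⟩, Or.inr fun hh => by
        have : d' ≤ d' - 1 := hh.2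
        omega⟩
    exact exists_adic h Set.inter_subset_left hoc hp huni (Or.inr hd')
  push Not at hX
  refine exists_prufer h (Or.inl rfl) hd' (fun j => ⟨fun hj => by simpa using hj.2, fun hj => ?_⟩)
    Set.inter_subset_left fun j hj _ => by simpa using (hX j hj).1
  rw [one_mul, one_mul] at hj
  induction j, hj using Int.leInduction with
  | base => exact ⟨hd'.1, Set.self_mem_Ici⟩
  | succ k _ ih => exact (hX k ih).2

theorem left_end (h : Ctx Δ J w e ρ) {d : ℤ} (hd : Deep J w d) :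
    ∃ d', d' ≤ d ∧ Deep J w d' ∧ EndOK Δ J w ρ (J ∩ Set.Iic d') d' 1 := by
  classical
  by_cases hinf : ∀ x, ∃ n, Deep J w n ∧ x < -1 * n
  · obtain ⟨dd, rfl, H, hcon⟩ := exists_dseq (τ := J ∩ Set.Iic d) h.str.oc (Or.inr rfl) hd
      (by simp) hinf
    exact ⟨_, le_rfl, hd, exists_tail h H (left_cases h.str.oc h.str.np H hcon)⟩
  push Not at hinf
  obtain ⟨x, hx⟩ := hinf
  obtain ⟨d', hd', hmin⟩ := Int.exists_least_of_bdd
    ⟨-x, fun n hn => by have := hx n hn; omega⟩ ⟨d, hd⟩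
  refine ⟨d', hmin d hd, hd', ?_⟩
  have hoc : (J ∩ Set.Iic d').OrdConnected := h.str.oc.inter Set.ordConnected_Iic
  by_cases hY : ∃ y, y ∈ J ∩ Set.Iic d' ∧ (w (y - 1) = true ∨ y - 1 ∉ J ∩ Set.Iic d')
  · obtain ⟨p, hp, huni⟩ := uni hoc (fun j h1 h2 hw => by_contra fun hh => by
      have := hmin j ⟨h.str.oc.out h1.1 h2.1 ⟨by omega, by omega⟩, Or.inl hw,
        Or.inl (by simpa using hh)⟩
      have : j + 1 ≤ d' := h2.2
      omega) ⟨d', ⟨hd'.1, Set.self_mem_Iic⟩, Or.inr fun hh => by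
        have : d' + 1 ≤ d' := hh.2
        omega⟩ hY
    exact exists_adic h Set.inter_subset_left hoc hp huni (Or.inr hd')
  push Not at hY
  refine exists_prufer h (Or.inr rfl) hd' (fun j => ⟨fun hj => by simpa using hj.2, fun hj => ?_⟩)
    Set.inter_subset_left fun j _ hj => by simpa using (hY _ hj).1
  replace hj : j ≤ d' := by omega
  induction j, hj using Int.leInductionDown with
  | base => exact ⟨hd'.1, Set.self_mem_Iic⟩
  | pred k _ ih => exact (hY k ih).2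

theorem no_deep (h : Ctx Δ J w e ρ) (hd : ∀ d, ¬ Deep J w d) : EndOK Δ J w ρ J 0 0 := by
  obtain ⟨j0, hj0⟩ := h.str.ne
  have hper : (∀ j ∈ J, j + 1 ∈ J) → (∀ j ∈ J, j - 1 ∈ J) → ∀ c, (∀ j ∈ J, w j = c) → False :=
    fun h1 h2 c h3 => by
      have : ∀ j, j ∈ J := fun j => Int.inductionOn' j j0 hj0 (fun k _ => h1 k) fun k _ => h2 k
      exact h.str.np ⟨Set.eq_univ_of_forall this, 1, one_pos, fun j => by
        rw [h3 _ (this _), h3 _ (this _)]⟩
  obtain ⟨p, hp, huni⟩ := uni (w := w) h.str.oc (fun j h1 h2 hw => by_contra fun hh => hd j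
    ⟨h.str.oc.out h1 h2 ⟨by omega, by omega⟩, Or.inl hw, Or.inl (by simpa using hh)⟩)
    (by_contra fun hX => by
      push Not at hX
      exact hper (fun j hj => (hX j hj).2) (fun j hj => by_contra fun hh =>
        hd j ⟨hj, Or.inr hh, Or.inl (by simpa using (hX j hj).1)⟩) true
        fun j hj => by simpa using (hX j hj).1)
    (by_contra fun hY => by
      push Not at hY
      have h1 : ∀ j ∈ J, j + 1 ∈ J := fun j hj => by_contra fun hh =>
        hd j ⟨hj, Or.inl (by simpa using (hY j hj).1), Or.inr hh⟩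
      exact hper h1 (fun j hj => (hY j hj).2) false fun j hj => by simpa using (hY _ (h1 j hj)).1)
  exact exists_adic h subset_rfl h.str.oc hp huni (Or.inl rfl)

end Main
end RS

section
variable {D Λ S : Type} [CommRing D] [IsDomain D] [IsPrincipalIdealRing D] [FinQ D] [Ring Λ]
  [Algebra D Λ] [Module.Finite D Λ] [Ring S] [Algebra D S] [Finite S] [IsSemisimpleRing S]

theorem SD.real_str (Δ : SD D Λ S) {J : Set ℤ} {w : ℤ → Bool} (hJ : Δ.IsStr J w) {e : S}
    (he : IsIdempotentElem e) : ∃ C : ModuleCat.{0} Λ, Nice (algebraMap D Λ Δ.π) C ∧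
      ∀ φ ψ : PP Λ, ψ.Le φ → ind φ ψ C = Δ.wt φ ψ J w e := by
  obtain ⟨ρ, hρ⟩ := Δ.exists_fam w e
  have h : RS.Ctx Δ J w e ρ := ⟨hJ, hρ, he⟩
  by_cases hd : ∃ d, Deep J w d
  · obtain ⟨d, hd⟩ := hd
    obtain ⟨dL, h1, h2, h3⟩ := RS.left_end h hd
    obtain ⟨dR, k1, k2, k3⟩ := RS.right_end h hd
    exact RS.glue h h2 k2 (h1.trans k1) h3 k3
  obtain ⟨E, hE, ⟨P⟩⟩ := RS.no_deep h (not_exists.1 hd)
  refine ⟨ModuleCat.of Λ E.Y, (nice_of_isEnd hE).congr
    (Submodule.quotEquivOfEqBot _ ?_).symm, P.count h⟩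
  rw [Set.range_unique, Submodule.span_singleton_eq_bot]
  exact P.θd.symm.trans (zero_smul _ _)

end
end Pool.Agent.Lib.MP_c13fce_lc
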