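import Pool.Agent.Lib.MP_c13fce_lc.Loc
import Pool.Agent.Lib.MP_c13fce_lc.RealStr
import Pool.Agent.Lib.MP_c13fce_lc.RealBand

/-! The local theorem with nice modules. -/

namespace Pool.Agent.Lib.MP_c13fce_lc
open scoped BigOperators
set_option linter.unusedSectionVars false
set_option linter.unusedVariables false

variable {D Λ S : Type} [CommRing D] [IsDomain D] [IsPrincipalIdealRing D] [FinQ D] [Ring Λ]
  [Algebra D Λ] [Module.Finite D Λ] [Ring S] [Algebra D S] [Finite S] [IsSemisimpleRing S]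

theorem list_prod_finset_prod {α β : Type*} (l : List α) (F : Finset β) (f : α → β → ℕ∞) :
    (l.map fun a => ∏ j ∈ F, f a j).prod = ∏ j ∈ F, (l.map fun a => f a j).prod := by
  induction l with
  | nil => simp
  | cons a l ih => simp [ih, Finset.prod_mul_distrib]

theorem SD.local_nice (Δ : SD D Λ S)
    (hB : ∀ w r d, IsBand w r d → Δ.b ≠ 0 → BandReal S (Δ.twp w r d))
    (M : Type) [AddCommGroup M] [Module Λ M] (ι : Type) [Finite ι] (φ ψ : ι → PP Λ)
    (hle : ∀ i, (ψ i).Le (φ i))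
    (hk : ∃ k : ℕ, ∀ i, ∀ x ∈ (φ i).set M, algebraMap D Λ (Δ.π ^ k) • x ∈ (ψ i).set M) (B : ℕ) :
    ∃ Cs, (∀ C ∈ Cs, Nice (algebraMap D Λ Δ.π) C) ∧ Match B φ ψ M Cs := by
  refine Δ.local_match _ (fun J w e h he => Δ.real_str h he) ?_ M ι φ ψ hle hk B
  intro w r d hw hb V _ _ T hT ι _ φ ψ hle B
  obtain ⟨Xs, hX⟩ := hB w r d hw hb V T hT (ι × Finset.Ico d (d + r))
    (fun p => Δ.bandTF (φ p.1) w r d p.2) (fun p => Δ.bandTF (ψ p.1) w r d p.2) B
  choose C hC using fun X => Δ.real_band hw hb X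
  refine ⟨Xs.map C, fun X hX => ?_, fun i => ?_⟩
  · obtain ⟨e, h, rfl⟩ := List.mem_map.1 hX
    exact (hC e).1
  · have e : ((Xs.map C).map fun C : ModuleCat.{0} Λ => ind (φ i) (ψ i) C) =
        Xs.map fun X => ∏ j ∈ Finset.Ico d (d + r),
          eidx ((Δ.bandTF (ψ i) w r d j).set X.T) ((Δ.bandTF (φ i) w r d j).set X.T) := by
      rw [List.map_map]
      exact List.map_congr_left fun X _ => (hC X).2 _ _ (hle i)
    rw [e, list_prod_finset_prod]
    exact min_finset_prod_congr _ _ _ (fun _ => one_le_eidx _ _)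
      (fun _ => one_le_list_prod _ _ fun _ => one_le_eidx _ _) fun j hj => hX (i, ⟨j, hj⟩)

end Pool.Agent.Lib.MP_c13fce_lc
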