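import Pool.Agent.Lib.MP_c13fce_lc.F2Grp
import Pool.Agent.Lib.MP_c13fce_lc.Glob
import Pool.Agent.Lib.MP_c13fce_lc.LocN
import Pool.Agent.Lib.MP_c13fce_lc.BandPar
import Pool.Agent.Lib.MP_c13fce_lc.GrpData

/-! Every module over the group ring has the truncated invariants of a sum of nice modules. -/

set_option autoImplicit false

namespace Pool.Agent.Lib.MP_c13fce_lc

namespace F2

open Function MonoidAlgebra

lemma match_quot {R Λ S : Type} [Ring R] [Module.Finite ℤ R] [Ring Λ] [A : Algebra ℤ Λ] [Ring S]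
    [Algebra ℤ S] [Finite S] [IsSemisimpleRing S] (Δ : SD ℤ Λ S) {p : ℕ} (hp : Δ.π = p)
    (hB : ∀ w r d, IsBand w r d → Δ.b ≠ 0 → BandReal S (Δ.twp w r d))
    (f : R →+* Λ) (hf : Surjective f) (M : Type) [AddCommGroup M] [Module R M]
    (hM : ∀ r, f r = 0 → ∀ x : M, r • x = 0) {ι : Type} [Finite ι] {φ ψ : ι → PP R}
    (hle : ∀ i, (ψ i).Le (φ i)) {k : ℕ} (hk : ∀ i, ∀ x ∈ (φ i).set M, p ^ k • x ∈ (ψ i).set M)
    (B : ℕ) : ∃ Cs, (∀ C ∈ Cs, Nice (p : R) C) ∧ Match B φ ψ M Cs := by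
  obtain rfl : A = Ring.toIntAlgebra Λ := Subsingleton.elim _ _
  have : Module.Finite ℤ Λ := .of_surjective f.toAddMonoidHom.toIntLinearMap hf
  obtain ⟨_, hs⟩ := exists_mod f hf M hM
  obtain ⟨Cs, h1, h2⟩ := Δ.local_nice hB M ι (fun i => (φ i).map f) (fun i => (ψ i).map f)
    (fun i => le_map f (hle i)) ⟨k, fun i x hx => by
      rw [set_map f _ M hs] at hx ⊢
      rw [hp, ← Nat.cast_pow, map_natCast, Nat.cast_smul_eq_nsmul]
      exact hk i x hx⟩ B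
  choose! C' h3 h4 using fun C (hC : C ∈ Cs) => Nice.pullback f hf (p : R)
    (fun r => (Nat.cast_comm p r).symm) C (by simpa [hp] using h1 C hC)
  refine ⟨Cs.map C', fun C hC => ?_, fun i => ?_⟩
  · obtain ⟨C₀, hC₀, rfl⟩ := List.mem_map.1 hC
    exact h3 C₀ hC₀
  · rw [List.map_map, comp_def, List.map_congr_left fun C hC => h4 C hC (φ i) (ψ i), ← h2 i]
    simp only [ind, set_map f _ M hs]

variable {G : Type} [Group G] [Fintype G] {p : ℕ} [hp : Fact p.Prime]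

lemma match_pure (N η : MonoidAlgebra ℤ G) {n u : ℕ} (hn : ¬ p ∣ n) (hu : ¬ p ∣ u)
    (hc : ∀ r, r * N = N * r) (hN : N * N = n • N)
    (hη : ∑ γ : G, single γ 1 * η * single γ⁻¹ 1 = u • (1 - N))
    (M : Type) [AddCommGroup M] [Module (MonoidAlgebra ℤ G) M] (hM : ∀ x : M, N • x = 0)
    {ι : Type} [Finite ι] {φ ψ : ι → PP (MonoidAlgebra ℤ G)} (hle : ∀ i, (ψ i).Le (φ i)) {k : ℕ}
    (hk : ∀ i, ∀ x ∈ (φ i).set M, p ^ k • x ∈ (ψ i).set M) (B : ℕ) :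
    ∃ Cs, (∀ C ∈ Cs, Nice (p : MonoidAlgebra ℤ G) C) ∧ Match B φ ψ M Cs := by
  obtain ⟨Λ, S, _, _, _, _, f, Δ, hf, hker, hπ, hb⟩ := exists_pure p G N η n u
    (mt Int.natCast_dvd_natCast.1 hn) (mt Int.natCast_dvd_natCast.1 hu) hc
    (by rw [hN, natCast_zsmul]) ⟨0, -u, by rw [hη, smul_sub]; simp [sub_eq_add_neg]⟩
  refine match_quot Δ hπ (fun _ _ _ _ h => (h hb).elim) f hf M (fun r hr x => ?_) hle hk B
  obtain ⟨y, rfl⟩ := (hker r).1 hr
  rw [mul_smul, hM, smul_zero]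

lemma match_loc (hG : Squarefree (Nat.card G)) (M : Type) [AddCommGroup M]
    [Module (MonoidAlgebra ℤ G) M] (hM : ∀ n : ℕ, ¬ p ∣ n → Bijective fun x : M => n • x)
    {ι : Type} [Finite ι] {φ ψ : ι → PP (MonoidAlgebra ℤ G)} (hle : ∀ i, (ψ i).Le (φ i)) {k : ℕ}
    (hk : ∀ i, ∀ x ∈ (φ i).set M, p ^ k • x ∈ (ψ i).set M) (B : ℕ) :
    ∃ Cs, (∀ C ∈ Cs, Nice (p : MonoidAlgebra ℤ G) C) ∧ Match B φ ψ M Cs := by
  by_cases hd : p ∣ Nat.card G
  swap
  · refine match_pure 0 1 hp.1.not_dvd_one hd (by simp) (by simp) ?_ M (by simp) hle hk B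
    simp [single_mul_single, ← one_def]
  obtain ⟨K, hK, g, hg, hpK, hfree, hn⟩ := exists_split p G hG hd
  obtain ⟨u, hu⟩ := hd
  have hpu : ¬ p ∣ u := fun h => hp.1.not_isUnit (hG p (hu ▸ mul_dvd_mul_left p h))
  obtain ⟨η, hη⟩ := exists_eta K hp.1 hg (Nat.card_eq_fintype_card (α := G) ▸ hu) hfree
  let e := Submodule.prodEquivOfIsCompl _ _ (isCompl_cmul (nrm_comm K) (nrm_sq K) (hM _ hpK))
  obtain ⟨C₂, a2, b2⟩ := match_pure (nrm K) η hpK hpu (nrm_comm K) (nrm_sq K) hη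
    (LinearMap.ker (cmul M (nrm_comm K))) (fun x => Subtype.ext (LinearMap.mem_ker.1 x.2)) hle (fun i => bound_retract
      (e.toLinearMap ∘ₗ .inr _ _ _) (.snd _ _ _ ∘ₗ e.symm.toLinearMap) (by simp) (hk i)) B
  have og : orderOf (g : G ⧸ K) = p := orderOf_eq_prime
    (by rw [← QuotientGroup.mk_pow, ← hg, pow_orderOf_eq_one, QuotientGroup.mk_one])
    fun h => hpK (hg ▸ K.orderOf_dvd_natCard ((QuotientGroup.eq_one_iff g).1 h))
  have hH : ¬ p ∣ Nat.card ((G ⧸ K) ⧸ Subgroup.zpowers (g : G ⧸ K)) := fun h => hpu (by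
    rw [K.card_eq_card_quotient_mul_card_subgroup, Subgroup.card_eq_card_quotient_mul_card_subgroup
      (Subgroup.zpowers (g : G ⧸ K)), Nat.card_zpowers, og, mul_comm _ p, mul_assoc] at hu
    exact mul_left_cancel₀ hp.1.ne_zero hu ▸ h.mul_right _)
  obtain ⟨Δ, ω, hπ, hσ⟩ := exists_mixed p (G ⧸ K) g og hH
  have : NeZero (Nat.card ((G ⧸ K) ⧸ Subgroup.zpowers (g : G ⧸ K)) : ZMod p) :=
    ⟨mt (ZMod.natCast_eq_zero_iff _ _).1 hH⟩
  have : Finite (MonoidAlgebra (ZMod p) ((G ⧸ K) ⧸ Subgroup.zpowers (g : G ⧸ K))) :=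
    Module.finite_of_finite (ZMod p)
  obtain ⟨C₁, a1, b1⟩ := match_quot Δ hπ (fun w r d _ _ => bandReal p _ hH
      ((zpowGroupHom _).comp ω) (Δ.σ ^ (-(ht w (d + r) - ht w d))).toRingEquiv.toRingHom
      fun h => (twist_zpow Δ.σ ω hσ _ h 1).trans (by rw [one_mul]; rfl))
    (mapDomainRingHom ℤ (QuotientGroup.mk' K)) (fun r => ⟨.ofCoeff _, congrArg ofCoeff
      (Finsupp.mapDomain_surjective (QuotientGroup.mk'_surjective K) r.coeff).choose_spec⟩)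
    (LinearMap.range (cmul M (nrm_comm K))) (fun r hr ⟨_, y, rfl⟩ => Subtype.ext (by
      have : r * nrm K = 0 := by
        ext x
        rw [coeff_mul_nrm, show mapDomain (QuotientGroup.mk' K) r = 0 from hr]
        rfl
      show r • nrm K • y = 0
      rw [smul_smul, this, zero_smul])) hle (fun i => bound_retract
      (e.toLinearMap ∘ₗ .inl _ _ _) (.fst _ _ _ ∘ₗ e.symm.toLinearMap) (by simp) (hk i)) B
  exact ⟨C₁ ++ C₂, fun C hC => (List.mem_append.1 hC).elim (a1 C) (a2 C), match_prod e b1 b2⟩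

end F2

theorem group_match (G : Type) [Group G] [Finite G] (hG : Squarefree (Nat.card G))
    (M : Type) [AddCommGroup M] [Module (MonoidAlgebra ℤ G) M] (ι : Type) [Finite ι]
    (φ ψ : ι → PP (MonoidAlgebra ℤ G)) (B : ℕ) :
    ∃ Cs, (∀ C ∈ Cs, ∃ q : ℕ, 0 < q ∧ Nice (q : MonoidAlgebra ℤ G) C) ∧ Match B φ ψ M Cs := by
  refine global_match ℤ _ (reg_group G) (fun C => ∃ q : ℕ, 0 < q ∧ Nice (q : MonoidAlgebra ℤ G) C)
    (fun C _ => ⟨1, one_pos, nice_of_finite _ C⟩) (fun π hπ M _ _ hM ι _ φ ψ hle ⟨k, hk⟩ B => ?_)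
    M ι φ ψ B
  have := Fintype.ofFinite G
  have hp : Fact π.natAbs.Prime := ⟨Int.prime_iff_natAbs_prime.1 hπ.prime⟩
  obtain ⟨Cs, h1, h2⟩ := F2.match_loc (p := π.natAbs) hG M (fun n hn => by
    simpa only [map_natCast, Nat.cast_smul_eq_nsmul] using
      hM n (hπ.prime.coprime_iff_not_dvd.2 (mt (Int.natAbs_dvd_natAbs (b := n)).2 hn)).symm) hle (k := k)
    (fun i x hx => by
      have := zsmul_mem (hk i x hx) (π.sign ^ k)
      rwa [eq_intCast, Int.cast_smul_eq_zsmul, smul_smul, ← mul_pow, Int.sign_mul_self,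
        ← Nat.cast_pow, natCast_zsmul] at this) B
  exact ⟨Cs, fun C hC => ⟨_, hp.1.pos, h1 C hC⟩, h2⟩

end Pool.Agent.Lib.MP_c13fce_lc
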