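import Pool.Agent.Lib.MP_c13fce_lc.Base

namespace Pool.Agent.Lib.MP_c13fce_lc

open Function RT MulAction

open Classical in
theorem sum_nonfixed {p : ℕ} [Fact p.Prime] {K Ω A : Type} [Group K] (hK : IsPGroup p K)
    [Fintype Ω] [MulAction K Ω] [AddCommGroup A] (F : Ω → A) (h1 : ∀ (t : K) c, F (t • c) = F c)
    (h2 : ∀ c, p • F c = 0) : ∑ c with ¬ ∀ t : K, t • c = c, F c = 0 := by
  rw [← Finset.sum_fiberwise_of_maps_to (g := fun c => orbit K c)
    (fun c hc => Finset.mem_image_of_mem _ hc)]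
  refine Finset.sum_eq_zero fun O hO => ?_
  obtain ⟨c, hc, rfl⟩ := Finset.mem_image.1 hO
  simp only [Finset.mem_filter, Finset.mem_univ, true_and] at hc
  have e : (Finset.univ.filter fun c => ¬ ∀ t : K, t • c = c).filter
      (fun d => orbit K d = orbit K c) = (orbit K c).toFinset := by
    ext d
    simp only [Finset.mem_filter, Finset.mem_univ, true_and, Set.mem_toFinset, orbit_eq_iff,
      and_iff_right_iff_imp]
    rintro ⟨s, rfl⟩ h
    refine hc fun t => ?_
    have := h (s * t * s⁻¹)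
    simpa [mul_smul] using this
  rw [e, Finset.sum_congr rfl (g := fun _ => F c), Finset.sum_const]
  · obtain ⟨k, hk⟩ := hK.card_orbit c
    rw [Set.toFinset_card, ← Nat.card_eq_fintype_card, hk]
    cases k with
    | zero =>
      exfalso
      rw [pow_zero, Nat.card_eq_one_iff_unique] at hk
      exact hc fun t => congrArg Subtype.val
        (hk.1.elim (⟨_, mem_orbit c t⟩ : orbit K c) ⟨_, mem_orbit_self c⟩)
    | succ k => rw [pow_succ, mul_smul, h2, smul_zero]
  · intro d hd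
    obtain ⟨s, rfl⟩ := Set.mem_toFinset.1 hd
    exact h1 s c

open Classical in
theorem nul_nonfixed {p : ℕ} [Fact p.Prime] {K Ω M : Type} [Group K] (hK : IsPGroup p K)
    [Fintype Ω] [MulAction K Ω] [AddCommGroup M] (b : Bool) (g h : K)
    (hgen : ∀ t, ∃ i j : ℕ, t = g ^ i * h ^ j) (hb : b = true → h = g)
    (R : K →* AddMonoid.End M) (θ : Ω → M →+ M) (θ1 : ∀ x, ∑ c, θ c x = x)
    (θ2 : ∀ t c x, R t (θ c x) = θ (t • c) (R t x))
    (hp : ∀ x, p • opE b p (R g) (R h) .pi x = 0) (x : M) (hx : Phi (opE b p (R g) (R h)) x) :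
    Nul (opE b p (R g) (R h)) (∑ c with ¬ ∀ t : K, t • c = c, θ c x) := by
  set a := opE b p (R g) (R h) with ha
  have hpi : ∀ x, a .pi x = cond b p 1 • p • x := opE_pi b p _ _
  have hR : ∀ s t x, R (s * t) x = R s (R t x) := fun s t x => by rw [map_mul]; rfl
  have ind : ∀ P : K → Prop, P 1 → (∀ s t, P s → P t → P (s * t)) → P g → P h → ∀ t, P t := by
    intro P h1 h2 h3 h4 t
    obtain ⟨i, j, rfl⟩ := hgen t
    have : ∀ u, P u → ∀ i : ℕ, P (u ^ i) := by
      intro u hu i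
      induction i with
      | zero => simpa
      | succ i ih => rw [pow_succ]; exact h2 _ _ ih hu
    exact h2 _ _ (this _ h3 i) (this _ h4 j)
  have inv : ∀ t, R t (a .pi x) = a .pi x := by
    refine ind _ (by simp) (fun s t u v => by rw [hR, v, u]) ?_ ?_
    · exact sub_eq_zero.1 (Eq.trans (by cases b <;> simp [ha, opE_eq, ops]) hx.1)
    · exact sub_eq_zero.1 (Eq.trans (by cases b <;> simp [ha, opE_eq, ops]) hx.2)
  have md : ∀ t l, a .pi l = 0 → cond b p 1 • (R t l - l) ∈ Psi a := by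
    refine ind _ (by simp) (fun s t u v l hl => ?_) ?_ ?_
    · have := add_mem (u (R t l) (by rw [hpi, ← map_nsmul, ← map_nsmul, ← hpi, hl, map_zero]))
        (v l hl)
      rwa [← smul_add, ← hR, sub_add_sub_cancel] at this
    · intro l hl
      exact AddSubgroup.mem_sup_left ⟨l, hl, opE_xi ..⟩
    · intro l hl
      cases b
      · exact AddSubgroup.mem_sup_right ⟨l, hl, (one_smul _ _).symm⟩
      · exact AddSubgroup.mem_sup_left ⟨l, hl, by rw [hb rfl]; exact opE_xi ..⟩
  have hfix : ∀ c, (∀ t : K, t • c = c) → ∀ o x, θ c (a o x) = a o (θ c x) := fun c hc =>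
    opE_nat b p (θ c) (fun x => by rw [θ2, hc]) (fun x => by rw [θ2, hc])
  have hsum : ∑ c with ¬ ∀ t : K, t • c = c, θ c x = x - ∑ c with ∀ t : K, t • c = c, θ c x := by
    rw [eq_sub_iff_add_eq', Finset.sum_filter_add_sum_filter_not, θ1]
  refine ⟨?_, ?_⟩
  · rw [hsum]
    constructor
    · rw [map_sub, map_sum, hx.1, Finset.sum_eq_zero, sub_zero]
      intro c hc
      rw [← hfix c (Finset.mem_filter.1 hc).2, hx.1, map_zero]
    · rw [map_sub, map_sum, hx.2, Finset.sum_eq_zero, sub_zero]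
      intro c hc
      rw [← hfix c (Finset.mem_filter.1 hc).2, hx.2, map_zero]
  · have e : ∀ c, a .pi (θ c x) = θ c (a .pi x) := fun c => by
      rw [hpi, hpi, map_nsmul, map_nsmul]
    rw [← QuotientAddGroup.eq_zero_iff, map_sum, Finset.sum_congr rfl fun c _ => e c,
      QuotientAddGroup.mk_sum]
    refine sum_nonfixed hK (fun c => ((θ c (a .pi x) : M) : M ⧸ Psi a)) (fun t c => ?_) fun c => ?_
    · rw [QuotientAddGroup.eq_iff_sub_mem]
      have := md t (θ c (p • x)) (by
        rw [hpi, ← map_nsmul, ← map_nsmul, ← hpi, map_nsmul, hp, map_zero])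
      rwa [smul_sub, ← map_nsmul, ← map_nsmul, ← hpi, θ2, inv] at this
    · rw [← QuotientAddGroup.mk_nsmul, ← map_nsmul, hp, map_zero, QuotientAddGroup.mk_zero]

section Coind

variable {G : Type} [Group G] (K : Subgroup G) {N : Type} [AddCommGroup N]
  (ρ : K →* AddMonoid.End N)

def Co : AddSubgroup (G → N) where
  carrier := {f | ∀ x (t : K), f (x * t) = ρ t⁻¹ (f x)}
  zero_mem' := by intro x t; simp
  add_mem' := by intro f g hf hg x t; simp [hf x t, hg x t]
  neg_mem' := by intro f hf x t; simp [hf x t]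

def coR : G →* AddMonoid.End (Co K ρ) where
  toFun u :=
    { toFun := fun f => ⟨fun x => f.1 (u⁻¹ * x), fun x t => by
        beta_reduce; rw [← mul_assoc, f.2]⟩
      map_zero' := rfl
      map_add' := fun _ _ => rfl }
  map_one' := AddMonoidHom.ext fun f => Subtype.ext (funext fun x => by
    change f.1 (1⁻¹ * x) = f.1 x
    simp)
  map_mul' u v := AddMonoidHom.ext fun f => Subtype.ext (funext fun x => by
    change f.1 ((u * v)⁻¹ * x) = f.1 (v⁻¹ * (u⁻¹ * x))
    simp [mul_assoc])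

theorem coR_apply (u : G) (f : Co K ρ) (x : G) : (coR K ρ u f).1 x = f.1 (u⁻¹ * x) := rfl

open Classical in
noncomputable def coθ (c : G ⧸ K) : Co K ρ →+ Co K ρ where
  toFun f := ⟨fun x => if (x : G ⧸ K) = c then f.1 x else 0, fun x t => by
    simp only [QuotientGroup.mk_mul_of_mem x t.2]
    split_ifs
    · exact f.2 x t
    · simp⟩
  map_zero' := Subtype.ext (funext fun x => by simp)
  map_add' f g := Subtype.ext (funext fun x => by
    simp only [AddSubgroup.coe_add, Pi.add_apply]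
    split_ifs <;> simp)

open Classical in
theorem coθ_apply (c : G ⧸ K) (f : Co K ρ) (x : G) :
    (coθ K ρ c f).1 x = if (x : G ⧸ K) = c then f.1 x else 0 := rfl

def coEv (u : G) : Co K ρ →+ N where
  toFun f := f.1 u
  map_zero' := rfl
  map_add' _ _ := rfl

open Classical in
noncomputable def coIn (u : G) : N →+ Co K ρ where
  toFun n := ⟨fun x => if h : u⁻¹ * x ∈ K then ρ ⟨_, h⟩⁻¹ n else 0, fun x t => by
    by_cases h : u⁻¹ * x ∈ K
    · have h' : u⁻¹ * (x * t) ∈ K := by rw [← mul_assoc]; exact mul_mem h t.2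
      have e : (⟨_, h'⟩ : K) = ⟨_, h⟩ * t := Subtype.ext (mul_assoc _ _ _).symm
      simp only [h, h', dif_pos, e, mul_inv_rev, map_mul]; rfl
    · have h' : u⁻¹ * (x * t) ∉ K := by
        rw [← mul_assoc]; exact fun h' => h ((K.mul_mem_cancel_right t.2).1 h')
      simp [h, h']⟩
  map_zero' := Subtype.ext (funext fun x => by simp)
  map_add' f g := Subtype.ext (funext fun x => by
    simp only [AddSubgroup.coe_add, Pi.add_apply]
    split_ifs <;> simp)

open Classical in
theorem coIn_apply (u : G) (n : N) (x : G) :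
    (coIn K ρ u n).1 x = if h : u⁻¹ * x ∈ K then ρ ⟨_, h⟩⁻¹ n else 0 := rfl

theorem coEv_coIn (u : G) (n : N) : coEv K ρ u (coIn K ρ u n) = n := by
  change (coIn K ρ u n).1 u = n
  have h : u⁻¹ * u ∈ K := by simp
  rw [coIn_apply, dif_pos h, show (⟨_, h⟩ : K) = 1 from Subtype.ext (by simp)]
  simp

theorem coIn_coEv (u : G) (f : Co K ρ) : coIn K ρ u (coEv K ρ u f) = coθ K ρ u f := by
  refine Subtype.ext (funext fun x => ?_)
  rw [coIn_apply, coθ_apply]
  by_cases h : u⁻¹ * x ∈ K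
  · rw [dif_pos h, if_pos (QuotientGroup.eq.2 h).symm]
    have := f.2 u ⟨_, h⟩
    simp only [mul_inv_cancel_left] at this
    exact this.symm
  · rw [dif_neg h, if_neg fun e => h (QuotientGroup.eq.1 e.symm)]

theorem coθ_sum [Fintype (G ⧸ K)] (f : Co K ρ) : ∑ c, coθ K ρ c f = f := by
  classical
  refine Subtype.ext (funext fun x => ?_)
  rw [AddSubgroup.val_finsetSum, Finset.sum_apply]
  simp [coθ_apply]

theorem coθ_R (u : G) (c : G ⧸ K) (f : Co K ρ) :
    coR K ρ u (coθ K ρ c f) = coθ K ρ (u • c) (coR K ρ u f) := by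
  refine Subtype.ext (funext fun x => ?_)
  rw [coR_apply, coθ_apply, coθ_apply, coR_apply]
  congr 1
  rw [eq_comm (a := (x : G ⧸ K)), smul_eq_iff_eq_inv_smul, eq_comm (a := c)]; rfl

theorem induce {p : ℕ} [Fact p.Prime] [Finite G] (hK : IsPGroup p K) (b : Bool) (g h : K)
    (hgen : ∀ t, ∃ i j : ℕ, t = g ^ i * h ^ j) (hb : b = true → h = g)
    (hp : ∀ x, p • opE b p (ρ g) (ρ h) .pi x = 0) (r s : RT Op) :
    ((∀ x y, sem (opE b p (coR K ρ g) (coR K ρ h)) r x y →
        Phi (opE b p (coR K ρ g) (coR K ρ h)) x ∧ Phi (opE b p (coR K ρ g) (coR K ρ h)) y) →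
      (∀ x y, Nul (opE b p (coR K ρ g) (coR K ρ h)) x → Nul (opE b p (coR K ρ g) (coR K ρ h)) y →
        sem (opE b p (coR K ρ g) (coR K ρ h)) s x y) →
      (∀ γ : K →* K, Injective γ → ∀ x y, sem (opE b p (ρ (γ g)) (ρ (γ h))) r x y →
        sem (opE b p (ρ (γ g)) (ρ (γ h))) s x y) →
      ∀ x y, sem (opE b p (coR K ρ g) (coR K ρ h)) r x y →
        sem (opE b p (coR K ρ g) (coR K ρ h)) s x y) ∧
    ((∀ x y, sem (opE b p (coR K ρ g) (coR K ρ h)) r x y →
        sem (opE b p (coR K ρ g) (coR K ρ h)) s x y) →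
      ∀ x y, sem (opE b p (ρ g) (ρ h)) r x y → sem (opE b p (ρ g) (ρ h)) s x y) := by
  classical
  set a := opE b p (coR K ρ g) (coR K ρ h) with ha
  have key : ∀ (u : G) (γ : K → K), (∀ t, (γ t : G) = u⁻¹ * t * u) →
      (∀ o x, coEv K ρ u (a o x) = opE b p (ρ (γ g)) (ρ (γ h)) o (coEv K ρ u x)) ∧
      ∀ o x, coIn K ρ u (opE b p (ρ (γ g)) (ρ (γ h)) o x) = a o (coIn K ρ u x) := by
    intro u γ hγ
    have e1 : ∀ (t : K) x, coEv K ρ u (coR K ρ t x) = ρ (γ t) (coEv K ρ u x) := by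
      intro t x
      have := x.2 u (γ t)⁻¹
      rw [inv_inv, Subgroup.coe_inv, hγ] at this
      refine Eq.trans ?_ this
      change x.1 _ = x.1 _
      group
    have e2 : ∀ (t : K) x, coIn K ρ u (ρ (γ t) x) = coR K ρ t (coIn K ρ u x) := by
      intro t x
      have e3 : (t : G) • (u : G ⧸ K) = u := by
        refine (QuotientGroup.eq.2 ?_).symm
        change u⁻¹ * (t * u) ∈ K
        rw [← mul_assoc, ← hγ]; exact (γ t).2
      conv_lhs => rw [← coEv_coIn K ρ u x, ← e1, coIn_coEv, ← e3, ← coθ_R, ← coIn_coEv, coEv_coIn]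
    exact ⟨opE_nat b p _ (e1 g) (e1 h), opE_nat b p _ (e2 g) (e2 h)⟩
  refine ⟨fun h1 h2 h3 x y hxy => ?_, fun h1 x y hxy => ?_⟩
  · let _ := Fintype.ofFinite (G ⧸ K)
    have hp' : ∀ x, p • a .pi x = 0 := by
      intro x
      refine Subtype.ext (funext fun u => ?_)
      have := hp (x.1 u)
      rw [opE_pi] at this ⊢
      exact this
    have nx := fun x hx => nul_nonfixed hK b g h hgen hb ((coR K ρ).comp K.subtype) (coθ K ρ)
      (coθ_sum K ρ) (fun t => coθ_R K ρ t) hp' x hx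
    rw [← coθ_sum K ρ x, ← coθ_sum K ρ y,
      ← Finset.sum_filter_add_sum_filter_not _ (fun c => ∀ t : K, t • c = c),
      ← Finset.sum_filter_add_sum_filter_not _ (fun c => ∀ t : K, t • c = c) (coθ K ρ · y)]
    refine sem_add _ _ _ _ _ _ (sem_sum _ _ _ _ _ fun c hc => ?_)
      (h2 _ _ (nx x (h1 x y hxy).1) (nx y (h1 x y hxy).2))
    obtain ⟨u, rfl⟩ := QuotientGroup.mk_surjective c
    have hu : ∀ t : K, u⁻¹ * t * u ∈ K := fun t => by
      have := QuotientGroup.eq.1 ((Finset.mem_filter.1 hc).2 t).symm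
      rwa [mul_assoc]
    let γ : K →* K :=
      { toFun := fun t => ⟨_, hu t⟩
        map_one' := Subtype.ext (by simp)
        map_mul' := fun s t => Subtype.ext (by simp [mul_assoc]) }
    obtain ⟨k1, k2⟩ := key u γ fun _ => rfl
    rw [← coIn_coEv, ← coIn_coEv]
    refine sem_map _ k2 _ _ _ (h3 γ (fun s t e => ?_) _ _ (sem_map _ k1 _ _ _ hxy))
    exact Subtype.ext (by simpa [γ] using e)
  · obtain ⟨k1, k2⟩ := key 1 id (by simp)
    have := sem_map _ k1 _ _ _ (h1 _ _ (sem_map _ k2 _ _ _ hxy))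
    rwa [coEv_coIn, coEv_coIn] at this

end Coind

end Pool.Agent.Lib.MP_c13fce_lc
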