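import Pool.Agent.Lib.MP_c13fce_lc.Ladder

namespace Pool.Agent.Lib.MP_c13fce_lc

open Function RT

inductive Op : Type
  | one | pi | xi | eta | f1 | f2

/-- the six ring elements used, in terms of the images `A`, `B` of the two generators -/
def ops {S : Type} [Ring S] (b : Bool) (p : ℕ) (A B : S) : Op → S
  | .one => 1
  | .pi => cond b (p * p) p
  | .xi => cond b (p * (A - 1)) (A - 1)
  | .eta => cond b ((A - 1) * (A - 1)) (B - 1)
  | .f1 => (A - 1) * cond b (p * p) p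
  | .f2 => (B - 1) * cond b (p * p) p

theorem ops_map {S S' : Type} [Ring S] [Ring S'] (f : S →+* S') (b : Bool) (p : ℕ) (A B : S)
    (o : Op) : f (ops b p A B o) = ops b p (f A) (f B) o := by
  cases o <;> cases b <;> simp [ops]

@[simp] theorem end_sub {M : Type} [AddCommGroup M] (A B : AddMonoid.End M) (x : M) :
    (A - B) x = A x - B x := rfl

@[simp] theorem end_add {M : Type} [AddCommGroup M] (A B : AddMonoid.End M) (x : M) :
    (A + B) x = A x + B x := rfl

theorem ops_nat {M M' : Type} [AddCommGroup M] [AddCommGroup M'] (f : M →+ M') (b : Bool) (p : ℕ)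
    {A B : AddMonoid.End M} {A' B' : AddMonoid.End M'} (hA : ∀ x, f (A x) = A' (f x))
    (hB : ∀ x, f (B x) = B' (f x)) (o : Op) (x : M) :
    f (ops b p A B o x) = ops b p A' B' o (f x) := by
  cases o <;> cases b <;> simp [ops, hA, hB]

def opE {M : Type} [AddCommGroup M] (b : Bool) (p : ℕ) (A B : AddMonoid.End M) (o : Op) :
    M →+ M := ops (S := AddMonoid.End M) b p A B o

section
variable {M M' : Type} [AddCommGroup M] [AddCommGroup M'] (b : Bool) (p : ℕ)
  (A B : AddMonoid.End M) (x : M)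

theorem opE_eq (o : Op) : opE b p A B o x = ops b p A B o x := rfl

theorem opE_one : opE b p A B .one x = x := rfl

theorem opE_pi : opE b p A B .pi x = cond b p 1 • p • x := by
  cases b <;> simp [opE_eq, ops]

theorem opE_xi : opE b p A B .xi x = cond b p 1 • (A x - x) := by
  cases b <;> simp [opE_eq, ops]

theorem opE_eta : opE false p A B .eta x = B x - x := rfl

theorem opE_nat (f : M →+ M') {A B : AddMonoid.End M} {A' B' : AddMonoid.End M'}
    (hA : ∀ x, f (A x) = A' (f x)) (hB : ∀ x, f (B x) = B' (f x)) (o : Op) (x : M) :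
    f (opE b p A B o x) = opE b p A' B' o (f x) := ops_nat f b p hA hB o x

end

def tPhi : RT Op := inf (ker (gr .f1)) (ker (gr .f2))

def tPsi : RT Op := add (comp (inv (ker (gr .pi))) (gr .xi)) (comp (inv (ker (gr .pi))) (gr .eta))

def tNul : RT Op := inf (inv tPhi) (comp tPsi (inv (gr .pi)))

def tOp (o : Op) : RT Op :=
  inf (inf tPhi (inv tPhi)) (comp (add (gr o) (add (comp tNul (gr o)) tPsi)) (inv (gr .pi)))

def rho1 (n i : ℕ) : RT Op :=
  subst (fun b => tOp (cond b .eta .xi)) (inf tPhi tNul) (rho n i)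

def wd (n : ℕ) : List ℕ → RT Op
  | [] => gr .one
  | i :: u => comp (rho1 n i) (wd n u)

variable {M : Type} [AddCommGroup M] (a : Op → M →+ M)

def Phi (x : M) : Prop := a .f1 x = 0 ∧ a .f2 x = 0

def Psi : AddSubgroup M := (a .pi).ker.map (a .xi) ⊔ (a .pi).ker.map (a .eta)

def Nul (x : M) : Prop := Phi a x ∧ a .pi x ∈ Psi a

theorem sem_tPhi (x y : M) : sem a tPhi x y ↔ Phi a x := by
  simp [tPhi, sem, Phi, eq_comm]

theorem sem_tPsi (x y : M) : sem a tPsi x y ↔ y ∈ Psi a := by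
  simp [tPsi, sem, Psi, AddSubgroup.mem_sup, eq_comm]

theorem sem_tNul (x y : M) : sem a tNul x y ↔ Nul a y := by
  simp [tNul, sem, sem_tPhi, sem_tPsi, Nul]

theorem sem_tOp (o : Op) (x y : M) : sem a (tOp o) x y ↔ Phi a x ∧ Phi a y ∧
    ∃ w, Nul a w ∧ ∃ s ∈ Psi a, a .pi y = a o x + (a o w + s) := by
  simp only [tOp, sem, sem_tPhi, sem_tPsi, sem_tNul, and_assoc]
  refine and_congr_right fun _ => and_congr_right fun _ => ?_
  constructor
  · rintro ⟨z, ⟨_, _, rfl, ⟨_, s, ⟨w, hw, rfl⟩, hs, rfl⟩, rfl⟩, e⟩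
    exact ⟨w, hw, s, hs, e.symm⟩
  · rintro ⟨w, hw, s, hs, e⟩
    exact ⟨_, ⟨_, _, rfl, ⟨_, s, ⟨w, hw, rfl⟩, hs, rfl⟩, rfl⟩, e.symm⟩

theorem rho1_dom (n i : ℕ) : ∀ x y, sem a (rho1 n i) x y → Phi a x ∧ Phi a y := by
  refine subst_dom (Phi a) ?_ ?_ ?_ _
  · intro x y u v; simp [Phi, u.1, u.2, v.1, v.2]
  · intro j x y h; rw [sem_tOp] at h; exact ⟨h.1, h.2.1⟩
  · intro x y h; exact ⟨(sem_tPhi a _ _).1 h.1, ((sem_tNul a _ _).1 h.2).1⟩

theorem rho1_null (n i : ℕ) : ∀ x y, Nul a x → Nul a y → sem a (rho1 n i) x y := by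
  refine subst_null (Nul a) ?_ ?_ ?_ _
  · simp [Nul, Phi]
  · intro j x y u v
    refine (sem_tOp a _ _ _).2 ⟨u.1, v.1, -x, ?_, _, v.2, by simp⟩
    simpa [Nul, Phi] using u
  · intro x y u v; exact ⟨(sem_tPhi a _ _).2 u.1, (sem_tNul a _ _).2 v⟩

theorem wd_dom (h1 : ∀ x, a .one x = x) (n : ℕ) : ∀ u : List ℕ, u ≠ [] → ∀ x y,
    sem a (wd n u) x y → Phi a x ∧ Phi a y := by
  intro u
  induction u with
  | nil => simp
  | cons i u ih =>
    rintro - x y ⟨z, h, h'⟩
    refine ⟨(rho1_dom a n i _ _ h).1, ?_⟩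
    cases u with
    | nil => rw [show y = z from h'.trans (h1 z)]; exact (rho1_dom a n i _ _ h).2
    | cons j u => exact (ih (by simp) _ _ h').2

theorem wd_null (h1 : ∀ x, a .one x = x) (n : ℕ) : ∀ u : List ℕ, u ≠ [] → ∀ x y,
    Nul a x → Nul a y → sem a (wd n u) x y := by
  intro u
  induction u with
  | nil => simp
  | cons i u ih =>
    intro _ x y hx hy
    refine ⟨y, rho1_null a n i _ _ hx hy, ?_⟩
    cases u with
    | nil => exact (h1 y).symm
    | cons j u => exact ih (by simp) _ _ hy hy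

theorem special {X k : Type} [Field k] (n : ℕ) (f : ℕ → Function.End X) (a' b c d : k)
    (hdet : a' * d - b * c ≠ 0) (τ : M →+ (ℕ × X → k)) (μ : (ℕ × X → k) →+ M)
    (hτ : Surjective τ) (hμ : Injective μ) (h1 : ∀ x, a .one x = x)
    (hpi : ∀ x, a .pi x = μ (τ x))
    (hxi : ∀ x, a .xi x = μ (tw (sX n) (sY n f) a' b c d false (τ x)))
    (heta : ∀ x, a .eta x = μ (tw (sX n) (sY n f) a' b c d true (τ x)))
    (hf : ∀ x, Phi a x) : ∃ D : M → Prop,
    (∀ u : List ℕ, u ≠ [] → (∀ i ∈ u, i < n) → ∀ x y, sem a (wd n u) x y ↔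
      D x ∧ D y ∧ ∀ t, τ y (0, t) = τ x (0, (u.map f).prod t)) ∧
    (b = 0 → c = 0 → a' = d → ∀ v : X → k, ∃ x, D x ∧ ∀ t, τ x (0, t) = v t) := by
  obtain ⟨D, D1, D2, D3⟩ := ladder n f a' b c d hdet
  have hker : ∀ x, a .pi x = 0 ↔ τ x = 0 := fun x => by rw [hpi, map_eq_zero_iff μ hμ]
  have hPsi : Psi a = ⊥ := by
    simp only [Psi, sup_eq_bot_iff, AddSubgroup.map_eq_bot_iff]
    constructor <;> intro x hx <;> simp [hxi, heta, (hker x).1 hx]
  have hNul : ∀ x, Nul a x ↔ τ x = 0 := fun x => by simp [Nul, hf, hPsi, hker]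
  have hr : ∀ i < n, ∀ x y, sem a (rho1 n i) x y ↔
      D (τ x) ∧ D (τ y) ∧ ∀ t, τ y (0, t) = τ x (0, f i t) := by
    intro i hi x y
    rw [← D1 i hi]
    refine subst_pull τ hτ ?_ ?_ _ x y
    · intro j x y
      have : ∀ x, a (cond j .eta .xi) x = μ (tw (sX n) (sY n f) a' b c d j (τ x)) := by
        cases j <;> assumption
      simp only [sem_tOp, hf, hNul, hPsi, this, hpi, AddSubgroup.mem_bot, true_and]
      constructor
      · rintro ⟨w, hw, s, rfl, e⟩
        simpa [hw, hμ.eq_iff] using e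
      · intro e; exact ⟨0, by simp, 0, rfl, by simp [e]⟩
    · intro x y; simp [sem, sem_tPhi, sem_tNul, hf, hNul]
  refine ⟨fun x => D (τ x), ?_, fun u v w t => ?_⟩
  · intro u
    induction u with
    | nil => simp
    | cons i u ih =>
      intro _ hu x y
      have hi := hu i (by simp)
      have hm : ∀ (f g : Function.End X) x, (f * g) x = f (g x) := fun _ _ _ => rfl
      cases u with
      | nil => simp [wd, sem, h1, hr i hi]
      | cons j u =>
        rw [wd, sem]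
        simp only [hr i hi, ih (by simp) fun j hj => hu j (by simp [hj])]
        constructor
        · rintro ⟨z, ⟨h1, -, h2⟩, -, h3, h4⟩
          exact ⟨h1, h3, fun t => by rw [h4, h2]; rfl⟩
        · rintro ⟨h1, h2, h3⟩
          obtain ⟨z, h4, h5⟩ := D2 _ h1 i
          obtain ⟨z, rfl⟩ := hτ z
          exact ⟨z, ⟨h1, h4, h5⟩, h4, h2, fun t => by rw [h3, h5]; rfl⟩
  · obtain ⟨x, h1, h2⟩ := D3 u v w t
    obtain ⟨x, rfl⟩ := hτ x
    exact ⟨x, h1, h2⟩

end Pool.Agent.Lib.MP_c13fce_lc
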