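import Pool.Agent.Lib.MP_c13fce_lc.DualB

/-! The local lemma for strings, from the closure lemma. -/

namespace Pool.Agent.Lib.MP_c13fce_lc

open scoped BigOperators

set_option linter.unusedSectionVars false

namespace LLc

section Ord
variable {D : Type} [CommRing D] {A : Type} [AddCommGroup A] [Module D A] {α β : A →ₗ[D] A}
  (Y : Sys α β) {J : Set ℤ} {w : ℤ → Bool} {i j : ℤ}

theorem Q_le_G (hαβ : ∀ x, β (α x) = 0) (hβα : ∀ x, α (β x) = 0) (hJ : J.OrdConnected)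
    (hi : i ∈ J) (hj : j ∈ J) (h : pnt J w i < pnt J w j) : Y.Qa J w i ≤ Y.Ga J w j := by
  intro x hx
  rcases pnt_lt_iff.1 h with h | ⟨h1, h2⟩
  · exact Submodule.mem_sup_left
      (Y.Rp_le_Rm hαβ (rwd_nrm hJ w hi) (rwd_nrm hJ w hj) h hx.1)
  · exact Submodule.mem_sup_right ⟨h1 ▸ hx.1,
      Y.Lp_le_Lm hβα (lwd_nrm hJ w hi) (lwd_nrm hJ w hj) h2 hx.2⟩

theorem G_le_G (hαβ : ∀ x, β (α x) = 0) (hβα : ∀ x, α (β x) = 0) (hJ : J.OrdConnected)
    (hi : i ∈ J) (hj : j ∈ J) (h : pnt J w i < pnt J w j) : Y.Ga J w i ≤ Y.Ga J w j := by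
  refine sup_le (fun x hx => Submodule.mem_sup_left ?_) fun x hx =>
    Q_le_G Y hαβ hβα hJ hi hj h ⟨hx.1, Y.Lle _ hx.2⟩
  rcases pnt_lt_iff.1 h with h | ⟨h1, -⟩
  · exact Y.Rp_le_Rm hαβ (rwd_nrm hJ w hi) (rwd_nrm hJ w hj) h (Y.Rle _ hx)
  · exact h1 ▸ hx

theorem G_le_Rp : Y.Ga J w j ≤ Y.Rp (rwd J w j) := sup_le (Y.Rle _) inf_le_left

end Ord

variable {D Λ S : Type} [CommRing D] [IsDomain D] [Ring Λ] [Algebra D Λ] [Ring S] [Algebra D S]
  {J : Set ℤ} {w : ℤ → Bool} (Δ : SD D Λ S)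

section Mod
variable {N : Type} [AddCommGroup N] [Module Λ N] [Module D N] [IsScalarTower D Λ N]

/-- The lower end of the interval as a submodule over the ring. -/
noncomputable def GaL {α β : N →ₗ[D] N} (Y : Sys α β) (hY : Y.Stable Λ) (J : Set ℤ)
    (w : ℤ → Bool) (j : ℤ) : Submodule Λ N where
  carrier := Y.Ga J w j
  zero_mem' := zero_mem _
  add_mem' := add_mem
  smul_mem' := fun r x hx => by
    obtain ⟨u, hu, v, hv, rfl⟩ := Submodule.mem_sup.1 hx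
    rw [smul_add]
    exact add_mem (Submodule.mem_sup_left ((hY _ r u).1 hu))
      (Submodule.mem_sup_right ⟨(hY _ r v).2.1 hv.1, (hY _ r v).2.2.1 hv.2⟩)

theorem G_smul {α β : N →ₗ[D] N} (Y : Sys α β) (hY : Y.Stable Λ) {j : ℤ} (r : Λ) {x : N}
    (hx : x ∈ Y.Ga J w j) : r • x ∈ Y.Ga J w j := (GaL Y hY J w j).smul_mem r hx

variable (Y : Sys (act D N Δ.a) (act D N Δ.b))

theorem exists_lift (hJ : J.OrdConnected) (hY : Y.Stable Λ) {j : ℤ} (hj : j ∈ J) {x : N}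
    (hx : x ∈ Y.Qa J w j) : ∃ f : St Δ.a Δ.b J w →ₗ[Λ] N, f (stE Δ.a Δ.b J w j) = x ∧
      ∀ z ∈ stL Δ.a Δ.b J w (low J w j), f z ∈ Y.Ga J w j := by
  obtain ⟨xs, hxs, rfl⟩ := Y.exists_traj (Δ.act_ba N) (Δ.act_ab N) hJ w hj hx
  have ht : Traj Δ.a Δ.b J w xs := hxs.1
  obtain ⟨f, hf⟩ := exists_stLift ht
  refine ⟨f, hf j, fun z hz => map_stL_le f (P := GaL Y hY J w j) (fun i hi hiJ => ?_) hz⟩
  rw [hf]
  exact Q_le_G Y (Δ.act_ba N) (Δ.act_ab N) hJ hiJ hj hi.2 (hxs.2 i hiJ)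

theorem rad_mem (hJ : Δ.IsStr J w) (hY : Y.Stable Λ) {j : ℤ} (hj : j ∈ J) {x : N}
    (hx : x ∈ Y.Qa J w j) {r : Λ} (hr : Δ.q r = 0) : r • x ∈ Y.Ga J w j := by
  obtain ⟨f, rfl, hf⟩ := exists_lift Δ Y hJ.oc hY hj hx
  rw [← map_smul]
  exact hf _ (Δ.rad_smul_low hJ hr hj)

theorem easy (hJ : Δ.IsStr J w) (hY : Y.Stable Λ) (φ : PP Λ) {j : ℤ} (hj : j ∈ J) :
    AddSubgroup.closure {y | ∃ (r : Λ) (x' : N), Δ.q r ∈ Δ.U φ J w j ∧ x' ∈ Y.Qa J w j ∧
      y = r • x'} ≤ φ.set N ⊔ (Y.Ga J w j).toAddSubgroup := by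
  refine (AddSubgroup.closure_le _).2 ?_
  rintro _ ⟨r, x', ⟨r', hr', z, hz, h⟩, hx', rfl⟩
  have h1 : (r - r') • x' ∈ Y.Ga J w j :=
    rad_mem Δ Y hJ hY hj hx' (by rw [map_sub, hr', sub_self])
  obtain ⟨f, hf, hf'⟩ := exists_lift Δ Y hJ.oc hY hj hx'
  have h2 := φ.map_mem f h
  rw [map_add, map_smul, hf] at h2
  refine AddSubgroup.mem_sup.2 ⟨_, h2, (r - r') • x' - f z, sub_mem h1 (hf' z hz), ?_⟩
  rw [sub_smul]
  abel

end Mod

theorem a_pow : ∃ (e : ℕ) (x : Λ), Δ.a ^ e = Δ.π • x := by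
  obtain ⟨e, x, y, h⟩ := Δ.ea
  exact ⟨e + 1, x * Δ.a, by rw [pow_succ, h, add_mul, mul_assoc, Δ.ba, mul_zero, add_zero,
    smul_mul_assoc]⟩

theorem b_pow : ∃ (e : ℕ) (x : Λ), Δ.b ^ e = Δ.π • x := by
  obtain ⟨e, x, y, h⟩ := Δ.eb
  exact ⟨e + 1, x * Δ.b, by rw [pow_succ, h, add_mul, mul_assoc, Δ.ab, mul_zero, add_zero,
    smul_mul_assoc]⟩

theorem inj_tors (t : Inj D) : ∃ d : D, d ≠ 0 ∧ d • t = 0 := by
  obtain ⟨t, rfl⟩ := Submodule.Quotient.mk_surjective _ t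
  obtain ⟨d, r, hr⟩ := IsLocalization.exists_integer_multiple (nonZeroDivisors D) t
  refine ⟨d, nonZeroDivisors.coe_ne_zero d, ?_⟩
  rw [← Submodule.Quotient.mk_smul, Submodule.Quotient.mk_eq_zero]
  exact ⟨r, hr⟩

variable [IsPrincipalIdealRing D]

section Win
variable {N : Type} [AddCommGroup N] [Module Λ N] [Module D N] [IsScalarTower D Λ N]
  [Module.Finite D N]

theorem char_kill (χ : Du D N) {g : Λ} (hg : ∃ (e : ℕ) (x : Λ), g ^ e = Δ.π • x) :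
    ∃ (K : ℕ) (c : D), IsCoprime c Δ.π ∧ ∀ y, c • χ (g ^ K • y) = 0 := by
  classical
  obtain ⟨s, hs⟩ := Module.Finite.fg_top (R := D) (M := N)
  choose d hd hd' using fun y : N => inj_tors (χ y)
  have h0 : ∏ y ∈ s, d y ≠ 0 := Finset.prod_ne_zero_iff.2 fun y _ => hd y
  have h1 : ∀ y, (∏ y ∈ s, d y) • χ y = 0 := by
    intro y
    have hy : y ∈ Submodule.span D (s : Set N) := hs ▸ Submodule.mem_top
    induction hy using Submodule.span_induction with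
    | mem y hy => rw [← Finset.prod_erase_mul _ _ hy, mul_smul, hd', smul_zero]
    | zero => rw [map_zero, smul_zero]
    | add y z _ _ hy hz => rw [map_add, smul_add, hy, hz, add_zero]
    | smul c y _ hy => rw [map_smul, smul_comm, hy, smul_zero]
  obtain ⟨l, c, hc, e⟩ := WfDvdMonoid.max_power_factor h0 Δ.hπ
  obtain ⟨k, x, hx⟩ := hg
  refine ⟨k * l, c, ((Δ.hπ.coprime_iff_not_dvd).2 hc).symm, fun y => ?_⟩
  rw [pow_mul, hx, smul_pow, smul_assoc, map_smul, smul_smul, mul_comm, ← e]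
  exact h1 _

variable {χ : ℤ → Du D N}

theorem right_end (hχ : Δ.DTraj J w χ) {n : ℤ} (hn : n ∈ J) : ∃ n', n ≤ n' ∧ n' ∈ J ∧
    ∃ c : D, IsCoprime c Δ.π ∧ (w n' = true → c • χ (n' + 1) = 0) := by
  by_cases h : ∃ n', n ≤ n' ∧ n' ∈ J ∧ (w n' = true → n' + 1 ∉ J)
  · obtain ⟨n', h1, h2, h3⟩ := h
    exact ⟨n', h1, h2, 1, isCoprime_one_left, fun hw => by rw [hχ.1 _ (h3 hw), smul_zero]⟩
  push Not at h
  have key : ∀ k : ℕ, n + k ∈ J ∧ ∀ y, χ (n + k) y = χ n (Δ.a ^ k • y) := by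
    intro k
    induction k with
    | zero => simpa using hn
    | succ k ih =>
      obtain ⟨h1, h2⟩ := h (n + k) (by omega) ih.1
      rw [Nat.cast_succ, ← add_assoc]
      refine ⟨h2, fun y => ?_⟩
      have := hχ.2.1 _ ih.1 y
      rw [if_pos h1, ih.2] at this
      rw [← this, pow_succ, mul_smul]
  obtain ⟨K, c, hc, hK⟩ := char_kill Δ (χ n) (a_pow Δ)
  refine ⟨n + K, by omega, (key K).1, c, hc, fun _ => LinearMap.ext fun y => ?_⟩
  have := (key (K + 1)).2 y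
  rw [Nat.cast_succ, ← add_assoc] at this
  rw [LinearMap.smul_apply, this, pow_succ, mul_smul]
  exact hK _

theorem left_end (hχ : Δ.DTraj J w χ) {m : ℤ} (hm : m ∈ J) : ∃ m', m' ≤ m ∧ m' ∈ J ∧
    ∃ c : D, IsCoprime c Δ.π ∧ (¬ w (m' - 1) = true → c • χ (m' - 1) = 0) := by
  by_cases h : ∃ m', m' ≤ m ∧ m' ∈ J ∧ (¬ w (m' - 1) = true → m' - 1 ∉ J)
  · obtain ⟨m', h1, h2, h3⟩ := h
    exact ⟨m', h1, h2, 1, isCoprime_one_left, fun hw => by rw [hχ.1 _ (h3 hw), smul_zero]⟩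
  push Not at h
  have key : ∀ k : ℕ, m - k ∈ J ∧ ∀ y, χ (m - k) y = χ m (Δ.b ^ k • y) := by
    intro k
    induction k with
    | zero => simpa using hm
    | succ k ih =>
      obtain ⟨h1, h2⟩ := h (m - k) (by omega) ih.1
      rw [Nat.cast_succ, ← sub_sub]
      refine ⟨h2, fun y => ?_⟩
      have := hχ.2.2 _ ih.1 y
      rw [if_neg h1, ih.2] at this
      rw [← this, pow_succ, mul_smul]
  obtain ⟨K, c, hc, hK⟩ := char_kill Δ (χ m) (b_pow Δ)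
  refine ⟨m - K, by omega, (key K).1, c, hc, fun _ => LinearMap.ext fun y => ?_⟩
  have := (key (K + 1)).2 y
  rw [Nat.cast_succ, ← sub_sub] at this
  rw [LinearMap.smul_apply, this, pow_succ, mul_smul]
  exact hK _

theorem window (hχ : Δ.DTraj J w χ) (hoc : J.OrdConnected) {m n : ℤ} (hm : m ∈ J) (hn : n ∈ J) :
    ∃ m' n', m' ≤ m ∧ n ≤ n' ∧ Set.Icc m' n' ⊆ J ∧ ∃ c : D, IsCoprime c Δ.π ∧
      Δ.DTraj (Set.Icc m' n') w fun i => if i ∈ Set.Icc m' n' then c • χ i else 0 := by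
  obtain ⟨n', h1, h2, c, hc, hc'⟩ := right_end Δ hχ hn
  obtain ⟨m', h3, h4, d, hd, hd'⟩ := left_end Δ hχ hm
  have hs : Set.Icc m' n' ⊆ J := hoc.out h4 h2
  refine ⟨m', n', h3, h1, hs, c * d, hc.mul_left hd, fun i hi => if_neg hi, fun i hi y => ?_,
    fun i hi y => ?_⟩
  · beta_reduce
    rw [if_pos hi, LinearMap.smul_apply, hχ.2.1 i (hs hi)]
    by_cases hw : w i = true
    · rw [if_pos hw, if_pos hw]
      by_cases hi' : i + 1 ∈ Set.Icc m' n'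
      · rw [if_pos hi', LinearMap.smul_apply]
      · have : i = n' := by
          simp only [Set.mem_Icc] at hi hi'
          omega
        subst this
        rw [if_neg hi', mul_comm, mul_smul, ← LinearMap.smul_apply c, hc' hw]
        simp
    · rw [if_neg hw, if_neg hw, smul_zero]
  · beta_reduce
    rw [if_pos hi, LinearMap.smul_apply, hχ.2.2 i (hs hi)]
    by_cases hw : w (i - 1) = true
    · rw [if_pos hw, if_pos hw, smul_zero]
    · rw [if_neg hw, if_neg hw]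
      by_cases hi' : i - 1 ∈ Set.Icc m' n'
      · rw [if_pos hi', LinearMap.smul_apply]
      · have : i = m' := by
          simp only [Set.mem_Icc] at hi hi'
          omega
        subst this
        rw [if_neg hi', mul_smul, ← LinearMap.smul_apply d, hd' hw]
        simp

variable [FinQ D] [Module.Finite D Λ]

theorem solve_window (hJ : Δ.IsStr J w) (hχ : Δ.DTraj J w χ) (φ : PP Λ) {j : ℤ} (hj : j ∈ J)
    {p : N} (hp : p ∈ φ.set N) (r0 : Λ) (h1 : ∀ r : Λ, χ j (r • p) = Δ.κ (Δ.q r * Δ.q r0))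
    (h2 : ∀ i ∈ J, pnt J w j < pnt J w i → ∀ r : Λ, χ i (r • p) = 0)
    (F : Finset ℤ) (hF : (F : Set ℤ) ⊆ J) : ∃ σ : Set ℤ, σ.Finite ∧ σ.OrdConnected ∧
      (F : Set ℤ) ⊆ σ ∧ σ ⊆ J ∧ ∃ z ∈ stL Δ.a Δ.b σ w (low J w j),
        r0 • stE Δ.a Δ.b σ w j + z ∈ φ.set (St Δ.a Δ.b σ w) := by
  classical
  have hne : (insert j F).Nonempty := Finset.insert_nonempty _ _
  have hmem : ∀ i ∈ insert j F, i ∈ J := fun i hi =>
    (Finset.mem_insert.1 hi).elim (fun h => h ▸ hj) fun h => hF h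
  obtain ⟨m, n, hm, hn, hs, c, hc, hψ⟩ := window Δ hχ hJ.oc
    (hmem _ (Finset.min'_mem _ hne)) (hmem _ (Finset.max'_mem _ hne))
  have hsub : ∀ i ∈ insert j F, i ∈ Set.Icc m n := fun i hi =>
    ⟨hm.trans (Finset.min'_le _ i hi), (Finset.le_max' _ i hi).trans hn⟩
  have hjs : j ∈ Set.Icc m n := hsub j (Finset.mem_insert_self _ _)
  have hfin : (Set.Icc m n).Finite := Set.finite_Icc m n
  refine ⟨Set.Icc m n, hfin, Set.ordConnected_Icc,
    fun i hi => hsub i (Finset.mem_insert_of_mem hi), hs, ?_⟩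
  obtain ⟨X⟩ := Δ.exists_dualBasis (w := w) hfin Set.ordConnected_Icc
    (hJ.adm.imp id fun h i hi hi' => h i (hs hi) (hs hi'))
  obtain ⟨f, hf⟩ := X.exists_hom hfin hψ
  have hΓ : Dn (Set.Icc m n) w {i | pnt J w i ≤ pnt J w j} :=
    (dn_of_lower hJ.oc fun i _ k hk _ h => le_trans h hk).mono hs
  have hv : f p - (c • r0) • stE Δ.a Δ.b (Set.Icc m n) w j ∈
      stL Δ.a Δ.b (Set.Icc m n) w (low J w j) := by
    refine (X.mem_stL hfin ((dn_low hJ.oc j).mono hs)).2 fun i hi r => ?_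
    by_cases his : i ∈ Set.Icc m n
    swap
    · rw [X.traj.1 i his, LinearMap.zero_apply]
    rw [smul_sub, map_sub, ← map_smul, hf, if_pos his, LinearMap.smul_apply, smul_smul r]
    by_cases hij : i = j
    · subst hij
      rw [X.diag i his, h1, map_mul Δ.q, map_smul Δ.q, mul_smul_comm, map_smul Δ.κ, sub_self]
    · have hlt : pnt J w j < pnt J w i := lt_of_le_of_ne
        (not_lt.1 fun h => hi ⟨hs his, h⟩) fun h => hij (pnt_injOn hJ.oc hJ.np hj (hs his) h).symm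
      rw [h2 i (hs his) hlt, X.tri _ hΓ j (le_refl (pnt J w j)) i (not_le.2 hlt), smul_zero,
        sub_self]
  obtain ⟨c', e', hce⟩ := hc
  have hw : ((e' * Δ.π) • r0) • stE Δ.a Δ.b (Set.Icc m n) w j ∈
      stL Δ.a Δ.b (Set.Icc m n) w (low J w j) := by
    refine stL_mono ?_ (Δ.rad_smul_dn hΓ (j := j) ?_ (le_refl (pnt J w j)))
    · rintro i ⟨⟨h3, h4⟩, h5⟩
      exact ⟨hs h5, lt_of_le_of_ne h3 fun h => h4 (pnt_injOn hJ.oc hJ.np (hs h5) hj h)⟩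
    · rw [map_smul, mul_smul, Algebra.smul_def Δ.π, Δ.qπ, zero_mul, smul_zero]
  refine ⟨_, sub_mem (Submodule.smul_mem _ (algebraMap D Λ c') hv) hw, ?_⟩
  have h3 := φ.smul_mem_of_central (c := algebraMap D Λ c')
    (fun r => (Algebra.commutes c' r).symm) (φ.map_mem f hp)
  convert h3 using 1
  have h4 : r0 = algebraMap D Λ c' * (c • r0) + (e' * Δ.π) • r0 := by
    rw [← Algebra.smul_def, smul_smul, ← add_smul, hce, one_smul]
  rw [smul_sub, smul_smul]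
  nth_rewrite 1 [h4]
  rw [add_smul]
  abel

end Win

variable [FinQ D] [Module.Finite D Λ] [Finite S] [IsSemisimpleRing S]

theorem local_core (hJ : Δ.IsStr J w) (φ : PP Λ) {j : ℤ} (hj : j ∈ J)
    (hCL : ∀ r : Λ, (∀ F : Finset ℤ, (F : Set ℤ) ⊆ J → ∃ σ : Set ℤ, σ.Finite ∧ σ.OrdConnected ∧
      (F : Set ℤ) ⊆ σ ∧ σ ⊆ J ∧ ∃ z ∈ stL Δ.a Δ.b σ w (low J w j),
        r • stE Δ.a Δ.b σ w j + z ∈ φ.set (St Δ.a Δ.b σ w)) → Δ.q r ∈ Δ.U φ J w j)
    (hU : ∀ s ∈ Δ.U φ J w j, ∀ t : S, s * t ∈ Δ.U φ J w j) (N : Type)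
    [AddCommGroup N] [Module Λ N] [Module D N] [IsScalarTower D Λ N]
    (Y : Sys (act D N Δ.a) (act D N Δ.b)) (hY : Y.Stable Λ) {x : N} (hx : x ∈ Y.Qa J w j) :
    (∃ z ∈ Y.Ga J w j, x + z ∈ φ.set N) ↔
      x ∈ AddSubgroup.closure {y | ∃ (r : Λ) (x' : N), Δ.q r ∈ Δ.U φ J w j ∧ x' ∈ Y.Qa J w j ∧
        y = r • x'} ⊔ (Y.Ga J w j).toAddSubgroup := by
  classical
  constructor
  swap
  · intro h
    obtain ⟨p, hp, g, hg, rfl⟩ :=
      AddSubgroup.mem_sup.1 (sup_le (easy Δ Y hJ hY φ hj) le_sup_right h)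
    exact ⟨-g, neg_mem hg, by simpa using hp⟩
  rintro ⟨z, hz, y, hy⟩
  by_contra hxW
  let T : Set N := {y | ∃ (r : Λ) (x' : N), Δ.q r ∈ Δ.U φ J w j ∧ x' ∈ Y.Qa J w j ∧ y = r • x'}
  let W : Submodule D N := Submodule.span D T ⊔ Y.Ga J w j
  have hxW' : x ∉ W := by
    intro h
    obtain ⟨u, hu, g, hg, rfl⟩ := Submodule.mem_sup.1 h
    refine hxW (add_mem (AddSubgroup.mem_sup_left ?_) (AddSubgroup.mem_sup_right hg))
    have key : ∀ d : D, d • u ∈ AddSubgroup.closure T := by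
      clear hxW h hy hx
      induction hu using Submodule.span_induction with
      | mem u hu =>
        intro d
        obtain ⟨r, x', h1, h2, rfl⟩ := hu
        exact AddSubgroup.subset_closure ⟨r, d • x', h1, Submodule.smul_mem _ d h2,
          (map_smul (act D N r) d x').symm⟩
      | zero => intro d; rw [smul_zero]; exact zero_mem _
      | add u v _ _ hu hv => intro d; rw [smul_add]; exact add_mem (hu d) (hv d)
      | smul e u _ hu => intro d; rw [smul_smul]; exact hu _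
    exact one_smul D u ▸ key 1
  have hWR : W ≤ Y.Rp (rwd J w j) := by
    refine sup_le (Submodule.span_le.2 ?_) (G_le_Rp Y)
    rintro _ ⟨r, x', -, h2, rfl⟩
    exact (hY _ r x').2.1 h2.1
  obtain ⟨χ0, hχ0, hχ0x⟩ := exists_char W hxW'
  have hG : χ0 ∈ ann (Y.Rp (rwd J w j)) ⊔ ann (Y.Lm (lwd J w j)) := by
    rw [← ann_inf]
    exact ann_anti (le_sup_right.trans le_sup_right) hχ0
  obtain ⟨χ1, hχ1, χ2, hχ2, rfl⟩ := Submodule.mem_sup.1 hG
  have h2W : ∀ u ∈ W, χ2 u = 0 := fun u hu => by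
    have := hχ0 u hu
    rwa [LinearMap.add_apply, hχ1 u (hWR hu), zero_add] at this
  have h2x : χ2 x ≠ 0 := by
    rwa [LinearMap.add_apply, hχ1 x hx.1, zero_add] at hχ0x
  have hQ : ∀ i (ξ : Du D N), ξ ∈ Y.dual.Qa J (fun i => !w i) i ↔
      ξ ∈ ann (Y.Rm (rwd J w i)) ∧ ξ ∈ ann (Y.Lm (lwd J w i)) := fun i ξ => by
    change ξ ∈ ann (Y.Rm (rwd J (fun i => !w i) i).flip) ∧
      ξ ∈ ann (Y.Lm (lwd J (fun i => !w i) i).flip) ↔ _
    rw [rwd_not, lwd_not, Wd.flip_flip, Wd.flip_flip]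
  obtain ⟨χ, hχ, hχj⟩ := Y.dual.exists_traj
    (fun ξ => LinearMap.ext fun u => (congrArg ξ (Δ.act_ba N u)).trans (map_zero ξ))
    (fun ξ => LinearMap.ext fun u => (congrArg ξ (Δ.act_ab N u)).trans (map_zero ξ))
    hJ.oc (fun i => !w i) hj ((hQ j χ2).2
      ⟨fun u hu => h2W u (Submodule.mem_sup_right (Submodule.mem_sup_left hu)), hχ2⟩)
  have hkill : ∀ i ∈ J, ∀ u ∈ Y.Ga J w i, χ i u = 0 := fun i hi u hu => by
    obtain ⟨h1, h2⟩ := (hQ i _).1 (hχ.2 i hi)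
    obtain ⟨u', hu', v, hv, rfl⟩ := Submodule.mem_sup.1 hu
    rw [map_add, h1 u' hu', h2 v hv.2, add_zero]
  let g : Du D Λ := χ j ∘ₗ (LinearMap.toSpanSingleton Λ N x).restrictScalars D
  obtain ⟨g', hg'⟩ := exists_ext Δ.q.toLinearMap g fun r hr =>
    hkill j hj _ (rad_mem Δ Y hJ hY hj hx hr)
  obtain ⟨s0, hs0⟩ := Δ.frob g'
  obtain ⟨r0, rfl⟩ := Δ.q_surj s0
  have hval : ∀ r : Λ, χ j (r • x) = Δ.κ (Δ.q r * Δ.q r0) := fun r =>
    (hg' r).symm.trans (hs0 _)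
  let N0 : Submodule Λ N := Submodule.span Λ (insert (x + z) (Set.range y))
  have : Module.Finite Λ N0 :=
    Module.Finite.span_of_finite Λ ((Set.finite_range y).insert _)
  have : Module.Finite D N0 := Module.Finite.trans Λ N0
  let χ' : ℤ → Du D N0 := fun i => χ i ∘ₗ N0.subtype.restrictScalars D
  have hχ' : Δ.DTraj J w χ' := by
    refine ⟨fun i hi => LinearMap.ext fun u => ?_, fun i hi u => ?_, fun i hi u => ?_⟩
    · change χ i u = 0
      rw [hχ.1.1 i hi, LinearMap.zero_apply]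
    · have := LinearMap.congr_fun (hχ.1.2.2 i hi) (u : N)
      change χ i (Δ.a • (u : N)) = if w i = true then χ (i + 1) u else 0
      cases hw : w i <;> simpa [hw] using this
    · have := LinearMap.congr_fun (hχ.1.2.1 i hi) (u : N)
      change χ i (Δ.b • (u : N)) = if w (i - 1) = true then 0 else χ (i - 1) u
      cases hw : w (i - 1) <;> simpa [hw] using this
  let p : N0 := ⟨x + z, Submodule.subset_span (Set.mem_insert _ _)⟩
  have hp : p ∈ φ.set N0 :=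
    ⟨fun k => ⟨y k, Submodule.subset_span (Set.mem_insert_of_mem _ ⟨k, rfl⟩)⟩, fun i =>
      Subtype.ext (by simpa [p] using hy i)⟩
  have hmem := hCL r0 (solve_window Δ hJ hχ' φ hj hp r0 (fun r => by
      change χ j (r • (x + z)) = _
      rw [smul_add, map_add, hval, hkill j hj _ (G_smul Y hY r hz), add_zero])
    fun i hi hlt r => hkill i hi _ (G_smul Y hY r (add_mem
      (Q_le_G Y (Δ.act_ba N) (Δ.act_ab N) hJ.oc hj hi hlt hx)
      (G_le_G Y (Δ.act_ba N) (Δ.act_ab N) hJ.oc hj hi hlt hz))))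
  obtain ⟨e, he, hspan⟩ := IsSemisimpleRing.ideal_eq_span_idempotent (Ideal.span {Δ.q r0})
  obtain ⟨t, ht⟩ := Ideal.mem_span_singleton'.1
    (hspan ▸ Ideal.mem_span_singleton_self e : e ∈ Ideal.span {Δ.q r0})
  obtain ⟨t', ht'⟩ := Ideal.mem_span_singleton'.1
    (hspan ▸ Ideal.mem_span_singleton_self (Δ.q r0) : Δ.q r0 ∈ Ideal.span {e})
  have hreg : Δ.q r0 * t * Δ.q r0 = Δ.q r0 := by
    rw [mul_assoc, ht]
    conv_lhs => rw [← ht', mul_assoc, he.eq, ht']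
  obtain ⟨u, hu⟩ := Δ.q_surj (Δ.q r0 * t)
  have h1 : χ j (u • x) = 0 := hχj ▸ h2W _ (Submodule.mem_sup_left
    (Submodule.subset_span ⟨u, x, hu ▸ hU _ hmem t, hx, rfl⟩))
  refine h2x ?_
  rw [← hχj, ← one_smul Λ x, hval, map_one, one_mul, ← hreg, ← hu, ← hval, h1]

end LLc

end Pool.Agent.Lib.MP_c13fce_lc
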