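import Pool.Agent.Lib.MP_c13fce_lc.RT

namespace Pool.Agent.Lib.MP_c13fce_lc

open Function RT

def pull {Ω A : Type} [AddCommGroup A] (s : Ω → Option Ω) : (Ω → A) →+ (Ω → A) where
  toFun w ω := (s ω).elim 0 w
  map_zero' := by funext ω; cases s ω <;> rfl
  map_add' u v := by funext ω; cases h : s ω <;> simp [h]

theorem pull_apply {Ω A : Type} [AddCommGroup A] (s : Ω → Option Ω) (w : Ω → A) (ω : Ω) :
    pull s w ω = (s ω).elim 0 w := rfl

def mono (b : ℕ → Bool) : ℕ → RT Bool
  | 0 => gr (b 0)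
  | m + 1 => comp (mono b m) (gr (b (m + 1)))

def dd : RT Bool := inf (ker (gr true)) (inf (ker (comp (gr false) (gr false)))
  (comp (comp (comp (gr false) (gr true)) (inf (gr false) (gr true))) top))

def bb (i m : ℕ) : Bool := decide (m = 1 ∨ m = 3 + i)

def rho (n i : ℕ) : RT Bool :=
  inf (inf dd (inv dd)) (comp (mono (bb i) (n + 2)) (inv (mono (bb n) (n + 2))))

def app {M : Type} [AddCommGroup M] (a : Bool → M →+ M) (b : ℕ → Bool) : ℕ → M → M
  | 0, x => a (b 0) x
  | m + 1, x => a (b (m + 1)) (app a b m x)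

theorem sem_mono {M : Type} [AddCommGroup M] (a : Bool → M →+ M) (b : ℕ → Bool) (m : ℕ) :
    ∀ x y, sem a (mono b m) x y ↔ y = app a b m x := by
  induction m with
  | zero => intro x y; rfl
  | succ m ih => intro x y; simp [mono, sem, ih, app]

variable {X : Type}

def sX (n : ℕ) : ℕ × X → Option (ℕ × X)
  | (0, _) => none
  | (j + 1, t) => if j ≠ 1 ∧ j < n + 3 then some (j, t) else none

def sY (n : ℕ) (f : ℕ → X → X) : ℕ × X → Option (ℕ × X)
  | (0, _) => none
  | (j + 1, t) => if j ≠ 0 ∧ j < n + 3 then some (j, if j < 3 then t else f (j - 3) t) else none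

def tw {Ω k : Type} [Field k] (s s' : Ω → Option Ω) (a b c d : k) : Bool → (Ω → k) →+ (Ω → k)
  | false => a • pull s + b • pull s'
  | true => c • pull s + d • pull s'

theorem ladder {k : Type} [Field k] (n : ℕ) (f : ℕ → X → X) (a b c d : k)
    (hdet : a * d - b * c ≠ 0) : ∃ D : (ℕ × X → k) → Prop,
    (∀ i < n, ∀ x y, sem (tw (sX n) (sY n f) a b c d) (rho n i) x y ↔
      D x ∧ D y ∧ ∀ t, y (0, t) = x (0, f i t)) ∧
    (∀ x, D x → ∀ i, ∃ y, D y ∧ ∀ t, y (0, t) = x (0, f i t)) ∧
    (b = 0 → c = 0 → a = d → ∀ v : X → k, ∃ x, D x ∧ ∀ t, x (0, t) = v t) := by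
  set T := tw (sX n) (sY n f) a b c d with hT
  have T0 : ∀ o w t, T o w (0, t) = 0 := by
    intro o w t; cases o <;> simp [hT, tw, pull_apply, sX, sY]
  have T1 : ∀ o w j, (∀ t, w (j, t) = 0) → ∀ t, T o w (j + 1, t) = 0 := by
    intro o w j h t
    cases o <;> simp only [hT, tw, AddMonoidHom.add_apply, AddMonoidHom.smul_apply, Pi.add_apply,
      Pi.smul_apply, pull_apply, sX, sY] <;> split_ifs <;> simp [h]
  have T2 : ∀ o w j, n + 3 ≤ j → ∀ t, T o w (j + 1, t) = 0 := by
    intro o w j h t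
    have : ¬ j < n + 3 := by omega
    cases o <;> simp [hT, tw, pull_apply, sX, sY, this]
  have A1 : ∀ β x m j, j ≤ m → ∀ t, app T β m x (j, t) = 0 := by
    intro β x m
    induction m with
    | zero => intro j h t; obtain rfl : j = 0 := by omega
              exact T0 _ _ _
    | succ m ih =>
      intro j h t
      cases j with
      | zero => exact T0 _ _ _
      | succ j => exact T1 _ _ _ (ih j (by omega)) t
  have A2 : ∀ β x, (∀ t, x (0, t) = 0) → ∀ m t, app T β m x (m + 1, t) = 0 := by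
    intro β x hx m
    induction m with
    | zero => exact T1 _ _ _ hx
    | succ m ih => exact T1 _ _ _ ih
  have A3 : ∀ β β' x y, app T β (n + 2) x = app T β' (n + 2) y ↔
      ∀ t, app T β (n + 2) x (n + 3, t) = app T β' (n + 2) y (n + 3, t) := by
    intro β β' x y
    refine ⟨fun h t => by rw [h], fun h => ?_⟩
    funext ⟨j, t⟩
    rcases lt_trichotomy j (n + 3) with hj | rfl | hj
    · rw [A1 _ _ _ _ (by omega), A1 _ _ _ _ (by omega)]
    · exact h t
    · obtain ⟨j, rfl⟩ : ∃ i, j = i + 1 := ⟨j - 1, by omega⟩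
      exact (T2 _ _ _ (by omega) t).trans (T2 _ _ _ (by omega) t).symm
  have hD : ∀ x y, sem T dd x y ↔ T true x = 0 ∧ T false (T false x) = 0 ∧
      T false (T true (T false x)) = T true (T true (T false x)) := by
    intro x y; simp [dd, sem, eq_comm]
  have hrho : ∀ i x y, sem T (rho n i) x y ↔ sem T dd x x ∧ sem T dd y y ∧
      ∀ t, app T (bb i) (n + 2) x (n + 3, t) = app T (bb n) (n + 2) y (n + 3, t) := by
    intro i x y
    simp [rho, sem, sem_mono, hD, and_assoc, A3]
  by_cases hs : b = 0 ∧ c = 0 ∧ a = d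
  · obtain ⟨rfl, rfl, rfl⟩ := hs
    have ha : a ≠ 0 := by rintro rfl; simp at hdet
    have A4 : ∀ i x m, m ≤ n + 2 → ∀ t, app T (bb i) m x (m + 1, t) =
        a ^ (m + 1) * x (0, if 3 + i ≤ m then f i t else t) := by
      intro i x m
      induction m with
      | zero =>
        intro _ t
        have : bb i 0 = false := by simp [bb]; omega
        simp [app, this, hT, tw, pull_apply, sX]
      | succ m ih =>
        intro h t
        have h3 : m + 1 < n + 3 := by omega
        rw [app]
        generalize app T (bb i) m x = w at ih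
        by_cases h1 : m = 0
        · subst h1
          simp [bb, hT, tw, pull_apply, sY, ih (by omega), pow_succ', show ¬ 3 + i ≤ 1 by omega,
            mul_assoc]
        · by_cases h2 : m + 1 = 3 + i
          · have e1 : ¬ m + 1 < 3 := by omega
            have e2 : m + 1 - 3 = i := by omega
            have e3 : ¬ 3 + i ≤ m := by omega
            have e4 : bb i (m + 1) = true := by simp [bb, h2]
            simp [e4, hT, tw, pull_apply, sY, h3, e1, e2, ih (by omega), e3, h2.ge, pow_succ',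
              mul_assoc]
          · have e4 : bb i (m + 1) = false := by simp [bb, h1, h2]
            have e3 : 3 + i ≤ m + 1 ↔ 3 + i ≤ m := by omega
            simp [e4, hT, tw, pull_apply, sX, h3, h1, ih (by omega), e3, pow_succ', mul_assoc]
    have hex : ∀ v : X → k, ∃ x, sem T dd x x ∧ ∀ t, x (0, t) = v t := by
      intro v
      set x : ℕ × X → k := fun ω => if ω.1 = 0 then v ω.2 else 0 with hx
      have x0 : ∀ j t, x (j + 1, t) = 0 := fun j t => by simp [hx]
      refine ⟨x, (hD _ _).2 ⟨?_, ?_, ?_⟩, fun t => by simp [hx]⟩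
      · funext ⟨j, t⟩
        rcases j with _ | _ | j
        · exact T0 _ _ _
        · simp [hT, tw, pull_apply, sY]
        · exact T1 _ _ _ (x0 j) t
      · funext ⟨j, t⟩
        rcases j with _ | _ | _ | j
        · exact T0 _ _ _
        · exact T1 _ _ _ (T0 _ _) t
        · simp [hT, tw, pull_apply, sX]
        · exact T1 _ _ _ (T1 _ _ _ (x0 j)) t
      · funext ⟨j, t⟩
        rcases j with _ | _ | _ | _ | j
        · rw [T0, T0]
        · rw [T1 _ _ _ (T0 _ _), T1 _ _ _ (T0 _ _)]
        · rw [T1 _ _ _ (T1 _ _ _ (T0 _ _)), T1 _ _ _ (T1 _ _ _ (T0 _ _))]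
        · simp [hT, tw, pull_apply, sX, sY]
        · rw [T1 _ _ _ (T1 _ _ _ (T1 _ _ _ (x0 j))), T1 _ _ _ (T1 _ _ _ (T1 _ _ _ (x0 j)))]
    refine ⟨fun x => sem T dd x x, fun i hi x y => ?_, fun x _ i => hex _, fun _ _ _ => hex⟩
    rw [hrho]
    simp only [A4 _ _ _ le_rfl, show 3 + i ≤ n + 2 by omega, show ¬ 3 + n ≤ n + 2 by omega,
      if_true, if_false, mul_right_inj' (pow_ne_zero _ ha), eq_comm]
  · have h0 : ∀ x, sem T dd x x → ∀ t, x (0, t) = 0 := by
      intro x hx t
      obtain ⟨h1, h2, h3⟩ := (hD _ _).1 hx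
      have e1 := congrFun h1 (1, t)
      have e2 := congrFun h2 (2, t)
      have e3 := congrFun h3 (3, t)
      simp [hT, tw, pull_apply, sX, sY] at e1 e2 e3
      by_contra hx0
      grind
    refine ⟨fun x => sem T dd x x, fun i hi x y => ?_, fun x hx i => ⟨x, hx, fun t => ?_⟩,
      fun h1 h2 h3 => (hs ⟨h1, h2, h3⟩).elim⟩
    · rw [hrho]
      refine and_congr_right fun hx => and_congr_right fun hy => ?_
      simp [A2 _ _ (h0 x hx), A2 _ _ (h0 y hy), h0 x hx, h0 y hy]
    · rw [h0 x hx, h0 x hx]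

end Pool.Agent.Lib.MP_c13fce_lc
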