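import Pool.Agent.Lib.MP_c13fce_lc.Defs5

/-! The parameter module of a word; words of trivial weight. -/

namespace Pool.Agent.Lib.MP_c13fce_lc
open scoped BigOperators
set_option linter.unusedSectionVars false
set_option linter.unusedVariables false

section Gen
variable {D : Type} [CommRing D] {A : Type} [AddCommGroup A] [Module D A] {α β : A →ₗ[D] A}
  (Y : Sys α β) {J : Set ℤ} {w : ℤ → Bool}

theorem Sys.lidx_pnt (C B : AddSubgroup A) (j : ℤ) : Y.lidx C B (pnt J w j) =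
    eidx (C ⊓ (Y.Rm (rwd J w j) ⊔ Y.Qa J w j).toAddSubgroup ⊔ (Y.Ga J w j).toAddSubgroup)
      (B ⊓ (Y.Rm (rwd J w j) ⊔ Y.Qa J w j).toAddSubgroup ⊔ (Y.Ga J w j).toAddSubgroup) := rfl

theorem Sys.one_le_lidx (C B : AddSubgroup A) (p : Pnt) : 1 ≤ Y.lidx C B p := one_le_eidx _ _

theorem Sys.Rm_le_Ga (j : ℤ) : Y.Rm (rwd J w j) ≤ Y.Ga J w j := le_sup_left

theorem Sys.Ga_le (j : ℤ) : Y.Ga J w j ≤ Y.Rm (rwd J w j) ⊔ Y.Qa J w j :=
  sup_le_sup_left (inf_le_inf_left _ (Y.Lle _)) _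

theorem Sys.Qa_le_Ga_of_lt (hαβ : ∀ x, β (α x) = 0) (hβα : ∀ x, α (β x) = 0)
    (hJ : J.OrdConnected) {i j : ℤ} (hi : i ∈ J) (hj : j ∈ J) (h : pnt J w i < pnt J w j) :
    Y.Qa J w i ≤ Y.Ga J w j := by
  rcases pnt_lt_iff.1 h with h | ⟨h, h'⟩
  · exact inf_le_left.trans
      ((Y.Rp_le_Rm hαβ (rwd_nrm hJ w hi) (rwd_nrm hJ w hj) h).trans le_sup_left)
  · refine le_trans ?_ le_sup_right
    rw [← h]
    exact inf_le_inf_left _ (Y.Lp_le_Lm hβα (lwd_nrm hJ w hi) (lwd_nrm hJ w hj) h')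

theorem Sys.lidx_eq_one {C B : AddSubgroup A} {j : ℤ}
    (h : ∀ x ∈ Y.Qa J w j, ∀ z ∈ Y.Ga J w j, x + z ∈ B → ∃ z' ∈ Y.Ga J w j, x + z' ∈ C) :
    Y.lidx C B (pnt J w j) = 1 := by
  rw [Y.lidx_pnt, eidx_eq_one]
  refine sup_le (fun y hy => ?_) le_sup_right
  obtain ⟨r, hr, x, hx, rfl⟩ := Submodule.mem_sup.1 hy.2
  obtain ⟨z', hz', h'⟩ := h x hx r (Y.Rm_le_Ga j hr) (by rw [add_comm]; exact hy.1)
  refine AddSubgroup.mem_sup.2 ⟨x + z', ⟨h', ?_⟩, r - z', sub_mem (Y.Rm_le_Ga j hr) hz', by abel⟩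
  exact add_mem (Submodule.mem_sup_right hx) (Y.Ga_le j hz')

/-- Transfer of the local index to the parameter module. -/
theorem Sys.lidx_cls (hαβ : ∀ x, β (α x) = 0) (hβα : ∀ x, α (β x) = 0) (hJ : J.OrdConnected)
    {V : Type} [AddCommGroup V] (cls : Y.trajG J w →+ V) (hsurj : Function.Surjective cls)
    {j : ℤ} (hj : j ∈ J) {C B : AddSubgroup A} {C' B' : AddSubgroup V}
    (hC : ∀ x : Y.trajG J w, (∃ z ∈ Y.Ga J w j, x.1 j + z ∈ C) ↔ cls x ∈ C')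
    (hB : ∀ x : Y.trajG J w, (∃ z ∈ Y.Ga J w j, x.1 j + z ∈ B) ↔ cls x ∈ B') :
    Y.lidx C B (pnt J w j) = eidx C' B' := by
  have key : ∀ (E : AddSubgroup A) (x : Y.trajG J w), x.1 j ∈ E ⊓ (Y.Rm (rwd J w j) ⊔
      Y.Qa J w j).toAddSubgroup ⊔ (Y.Ga J w j).toAddSubgroup ↔
        ∃ z ∈ Y.Ga J w j, x.1 j + z ∈ E := by
    intro E x
    constructor
    · intro h
      obtain ⟨u, hu, v, hv, e⟩ := AddSubgroup.mem_sup.1 h
      exact ⟨-v, neg_mem hv, by rw [← e, add_neg_cancel_right]; exact hu.1⟩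
    · rintro ⟨z, hz, h⟩
      exact AddSubgroup.mem_sup.2 ⟨_, ⟨h, add_mem (Submodule.mem_sup_right (x.2.2 j hj))
        (Y.Ga_le j hz)⟩, -z, neg_mem hz, by abel⟩
  rw [Y.lidx_pnt, ← eidx_comap cls hsurj]
  refine (eidx_eq_of_map ((Pi.evalAddMonoidHom (fun _ => A) j).comp (Y.trajG J w).subtype)
    (fun x hx => (key B x).2 ((hB x).2 hx)) (fun x _ => (key C x).trans (hC x))
    fun y hy => ?_).symm
  have hy' : y ∈ Y.Rm (rwd J w j) ⊔ Y.Qa J w j :=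
    (sup_le (inf_le_right) (fun z hz => Y.Ga_le j hz) : _ ≤ (Y.Rm (rwd J w j) ⊔
      Y.Qa J w j).toAddSubgroup) hy
  obtain ⟨r, hr, x, hx, rfl⟩ := Submodule.mem_sup.1 hy'
  obtain ⟨t, ht, rfl⟩ := Y.exists_traj hαβ hβα hJ w hj hx
  have hr' : r ∈ (Y.Ga J w j).toAddSubgroup := Y.Rm_le_Ga j hr
  refine ⟨⟨t, ht⟩, (hB _).1 ((key B ⟨t, ht⟩).1 ?_), AddSubgroup.mem_sup_right ?_⟩
  · simpa using sub_mem hy (AddSubgroup.mem_sup_right hr')
  · simpa using hr'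

end Gen

variable {D Λ S : Type} [CommRing D] [IsDomain D] [Ring Λ] [Algebra D Λ] [Ring S] [Algebra D S]
  (Δ : SD D Λ S) {N : Type} [AddCommGroup N] [Module Λ N] [Module D N] [IsScalarTower D Λ N]
  {Y : Sys (act D N Δ.a) (act D N Δ.b)} {J : Set ℤ} {w : ℤ → Bool}

theorem SD.Qa_smul (hY : Y.Stable Λ) {j : ℤ} (r : Λ) {x : N} (hx : x ∈ Y.Qa J w j) :
    r • x ∈ Y.Qa J w j := ⟨(hY _ r x).2.1 hx.1, (hY _ r x).2.2.2 hx.2⟩

theorem SD.Ga_smul (hY : Y.Stable Λ) {j : ℤ} (r : Λ) {x : N} (hx : x ∈ Y.Ga J w j) :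
    r • x ∈ Y.Ga J w j := by
  obtain ⟨u, hu, v, hv, rfl⟩ := Submodule.mem_sup.1 hx
  rw [smul_add]
  exact Submodule.add_mem_sup ((hY _ r u).1 hu) ⟨(hY _ r v).2.1 hv.1, (hY _ r v).2.2.1 hv.2⟩

theorem SD.rad_Qa (hY : Y.Stable Λ) (hJ : J.OrdConnected)
    (hng : ¬ (J = Set.univ ∧ ∀ m, w (m + 1) = w m)) {j : ℤ} (hj : j ∈ J) {r : Λ}
    (hr : Δ.q r = 0) {x : N} (hx : x ∈ Y.Qa J w j) : r • x ∈ Y.Ga J w j := by
  have ne : ∀ i, i ∈ J → i + 1 ∈ J → pnt J w i ≠ pnt J w (i + 1) := fun i h h' e =>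
    hng (by simpa using per_of_pnt_eq hJ h h' (by omega) e)
  obtain ⟨t, ht, rfl⟩ := Y.exists_traj (Δ.act_ba N) (Δ.act_ab N) hJ w hj hx
  obtain ⟨u, v, rfl⟩ := (Δ.q_ker r).1 hr
  rw [add_smul, mul_smul, mul_smul]
  refine add_mem (Δ.Ga_smul hY _ ?_) (Δ.Ga_smul hY _ ?_)
  · rw [show Δ.a • t j = _ from ht.1.2.1 j hj]
    split_ifs with c
    · by_cases h : j - 1 ∈ J
      · have h' : j - 1 + 1 ∈ J := by simpa using hj
        have := lt_of_le_of_ne ((pnt_down (w := w) hJ h h').1 c) (ne _ h h')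
        rw [sub_add_cancel] at this
        exact Y.Qa_le_Ga_of_lt (Δ.act_ba N) (Δ.act_ab N) hJ h hj this (ht.2 _ h)
      · rw [ht.1.1 _ h]; exact zero_mem _
    · exact zero_mem _
  · rw [show Δ.b • t j = _ from ht.1.2.2 j hj]
    split_ifs with c
    · exact zero_mem _
    · by_cases h : j + 1 ∈ J
      · have := lt_of_le_of_ne ((pnt_down (w := w) hJ hj h).2 (by simpa using c)) (ne _ hj h).symm
        exact Y.Qa_le_Ga_of_lt (Δ.act_ba N) (Δ.act_ab N) hJ h hj this (ht.2 _ h)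
      · rw [ht.1.1 _ h]; exact zero_mem _

/-- The action of a family on homogeneous trajectories. -/
def SD.famAct (hY : Y.Stable Λ) {s : S} {ρ : ℤ → Λ} (h : Δ.Fam w s ρ) :
    Y.trajG J w →+ Y.trajG J w where
  toFun x := ⟨fun j => ρ j • x.1 j, h.traj (J := J) x.2.1,
    fun j hj => Δ.Qa_smul hY _ (x.2.2 j hj)⟩
  map_zero' := Subtype.ext (funext fun j => smul_zero _)
  map_add' x y := Subtype.ext (funext fun j => smul_add _ _ _)

/-- The parameter module. -/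
theorem SD.exists_V (hY : Y.Stable Λ) (hJ : J.OrdConnected) (hne : J.Nonempty)
    (hng : ¬ (J = Set.univ ∧ ∀ m, w (m + 1) = w m)) :
    ∃ (V : Type) (_ : AddCommGroup V) (_ : Module S V) (cls : Y.trajG J w →+ V),
      Function.Surjective cls ∧
      (∀ (x : Y.trajG J w), ∀ j ∈ J, cls x = 0 ↔ x.1 j ∈ Y.Ga J w j) ∧
      ∀ (x x' : Y.trajG J w) (s : S), ∀ j ∈ J, ∀ ρ : Λ, Δ.q ρ = Δ.tw w j s →
        x'.1 j - ρ • x.1 j ∈ Y.Ga J w j → cls x' = s • cls x := by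
  obtain ⟨j₀, hj₀⟩ := hne
  let L : AddSubgroup (Y.trajG J w) := (Y.Ga J w j₀).toAddSubgroup.comap
    ((Pi.evalAddMonoidHom (fun _ => N) j₀).comp (Y.trajG J w).subtype)
  let cls : Y.trajG J w →+ Y.trajG J w ⧸ L := QuotientAddGroup.mk' L
  have hker : ∀ (x : Y.trajG J w), ∀ j ∈ J, cls x = 0 ↔ x.1 j ∈ Y.Ga J w j := fun x j hj =>
    (QuotientAddGroup.eq_zero_iff x).trans (Y.traj_low hJ w x.2 hj₀ hj)
  choose ρ hρ using Δ.exists_fam w
  let sm : S → (Y.trajG J w ⧸ L) →+ Y.trajG J w ⧸ L := fun s =>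
    QuotientAddGroup.map L L (Δ.famAct hY (hρ s)) fun x hx => Δ.Ga_smul hY _ hx
  have hsm : ∀ s x, sm s (cls x) = cls (Δ.famAct hY (hρ s) x) := fun _ _ => rfl
  have key : ∀ (x x' : Y.trajG J w) (s : S), ∀ j ∈ J, ∀ r : Λ, Δ.q r = Δ.tw w j s →
      x'.1 j - r • x.1 j ∈ Y.Ga J w j → cls x' = sm s (cls x) := by
    intro x x' s j hj r hr h
    rw [hsm, ← sub_eq_zero, ← map_sub, hker _ j hj]
    have := add_mem h (Δ.rad_Qa hY hJ hng hj (r := r - ρ s j)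
      (by rw [map_sub, hr, (hρ s).1, sub_self]) (x.2.2 j hj))
    rw [sub_smul, sub_add_sub_cancel] at this
    exact this
  have surj : Function.Surjective cls := QuotientAddGroup.mk'_surjective L
  let mod : Module S (Y.trajG J w ⧸ L) :=
    { smul := fun s v => sm s v
      one_smul := fun v => by
        obtain ⟨x, rfl⟩ := surj v
        exact (key x x 1 j₀ hj₀ 1 (by simp) (by simp)).symm
      mul_smul := fun s t v => by
        obtain ⟨x, rfl⟩ := surj v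
        change sm (s * t) (cls x) = sm s (sm t (cls x))
        rw [hsm t, hsm s]
        refine (key x _ _ j₀ hj₀ (ρ s j₀ * ρ t j₀)
          (by rw [map_mul, map_mul, (hρ s).1, (hρ t).1]) ?_).symm
        change ρ s j₀ • ρ t j₀ • x.1 j₀ - _ ∈ _
        rw [mul_smul, sub_self]; exact zero_mem _
      smul_zero := fun s => map_zero (sm s)
      smul_add := fun s => map_add (sm s)
      add_smul := fun s t v => by
        obtain ⟨x, rfl⟩ := surj v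
        change sm (s + t) (cls x) = sm s (cls x) + sm t (cls x)
        rw [hsm t, hsm s, ← map_add]
        refine (key x _ _ j₀ hj₀ (ρ s j₀ + ρ t j₀)
          (by rw [map_add, map_add, (hρ s).1, (hρ t).1]) ?_).symm
        change ρ s j₀ • x.1 j₀ + ρ t j₀ • x.1 j₀ - _ ∈ _
        rw [add_smul, sub_self]; exact zero_mem _
      zero_smul := fun v => by
        obtain ⟨x, rfl⟩ := surj v
        exact (key x 0 0 j₀ hj₀ 0 (by simp) (by simp)).symm }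
  exact ⟨_, inferInstance, mod, cls, surj, hker, key⟩

theorem rwd_per {r : ℕ} (h : ∀ j, w (j + r) = w j) (j : ℤ) :
    rwd Set.univ w (j + r) = rwd Set.univ w j := by
  funext k
  simp only [rwd, Set.mem_univ, if_true]
  rw [show j + r + k = j + k + r by ring, h]

theorem lwd_per {r : ℕ} (h : ∀ j, w (j + r) = w j) (j : ℤ) :
    lwd Set.univ w (j + r) = lwd Set.univ w j := by
  funext k
  simp only [lwd, Set.mem_univ, if_true]
  rw [show j + r - k - 1 = j - k - 1 + r by ring, h]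

/-- The shift of trajectories along a period. -/
def Sys.shift {A : Type} [AddCommGroup A] [Module D A] {α β : A →ₗ[D] A} (Y : Sys α β) {r : ℤ}
    (h : ∀ j, w (j + r) = w j) (hr : ∀ j, rwd Set.univ w (j + r) = rwd Set.univ w j)
    (hl : ∀ j, lwd Set.univ w (j + r) = lwd Set.univ w j) :
    Y.trajG Set.univ w →+ Y.trajG Set.univ w where
  toFun x := ⟨fun j => x.1 (j + r), ⟨fun j hj => absurd trivial hj, fun j _ => by
      rw [x.2.1.2.1 _ trivial, show j + r - 1 = j - 1 + r by ring, h], fun j _ => by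
      rw [x.2.1.2.2 _ trivial, show j + r + 1 = j + 1 + r by ring, h]⟩, fun j _ => by
      have := x.2.2 (j + r) trivial
      rwa [Sys.Qa, hr, hl] at this⟩
  map_zero' := rfl
  map_add' _ _ := rfl

theorem SD.exists_T (hY : Y.Stable Λ) {r : ℕ} {d : ℤ} (hw : ∀ j, w (j + r) = w j)
    {V : Type} [AddCommGroup V] [Module S V] (cls : Y.trajG Set.univ w →+ V)
    (hsurj : Function.Surjective cls)
    (hker : ∀ (x : Y.trajG Set.univ w) (j : ℤ), cls x = 0 ↔ x.1 j ∈ Y.Ga Set.univ w j)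
    (hsmul : ∀ (x x' : Y.trajG Set.univ w) (s : S) (j : ℤ) (ρ : Λ), Δ.q ρ = Δ.tw w j s →
      x'.1 j - ρ • x.1 j ∈ Y.Ga Set.univ w j → cls x' = s • cls x) :
    ∃ T : V ≃+ V, (∀ x x' : Y.trajG Set.univ w, (∀ j, x'.1 j = x.1 (j + r)) →
      cls x' = T (cls x)) ∧ ∀ (s : S) (v : V), T (s • v) = Δ.twp w r d s • T v := by
  let sh := Y.shift hw (rwd_per hw) (lwd_per hw)
  have hsh : ∀ x j, (sh x).1 j = x.1 (j + r) := fun _ _ => rfl
  have hG : ∀ j, Y.Ga Set.univ w (j + r) = Y.Ga Set.univ w j := fun j => by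
    rw [Sys.Ga, Sys.Ga, rwd_per hw, lwd_per hw]
  have hk : ∀ x, cls (sh x) = 0 ↔ cls x = 0 := fun x => by
    rw [hker _ 0, hker _ (0 + r), hG, hsh]
  let T₀ : V →+ V := (cls.liftOfSurjective hsurj) ⟨cls.comp sh, fun x hx => (hk x).2 hx⟩
  have hT₀ : ∀ x, T₀ (cls x) = cls (sh x) := fun x =>
    cls.liftOfRightInverse_comp_apply _ _ _ x
  have hbij : Function.Bijective T₀ := by
    refine ⟨(injective_iff_map_eq_zero _).2 fun v hv => ?_, fun v => ?_⟩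
    · obtain ⟨x, rfl⟩ := hsurj v
      exact (hk x).1 (hT₀ x ▸ hv)
    · obtain ⟨x, rfl⟩ := hsurj v
      have e : ∀ j : ℤ, j = j + -(r : ℤ) + r := fun j => by ring
      refine ⟨cls (Y.shift (r := -r) (fun j => by rw [← hw, ← e])
        (fun j => by rw [← rwd_per hw, ← e]) (fun j => by rw [← lwd_per hw, ← e]) x), ?_⟩
      rw [hT₀]
      congr 1
      refine Subtype.ext (funext fun j => ?_)
      change x.1 (j + r + -r) = x.1 j
      rw [add_neg_cancel_right]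
  refine ⟨AddEquiv.ofBijective T₀ hbij, fun x x' h => ?_, fun s v => ?_⟩
  · rw [show x' = sh x from Subtype.ext (funext h)]; exact (hT₀ x).symm
  · obtain ⟨x, rfl⟩ := hsurj v
    obtain ⟨ρ, hρ⟩ := Δ.exists_fam w s
    change T₀ _ = _ • T₀ _
    rw [← hsmul x (Δ.famAct hY hρ x) s 0 (ρ 0) (hρ.1 0) (by
      change ρ 0 • x.1 0 - _ ∈ _
      rw [sub_self]; exact zero_mem _), hT₀, hT₀]
    refine hsmul _ _ _ d (ρ (d + r)) ?_ ?_
    · rw [hρ.1, SD.twp, SD.tw, SD.tw, ← AlgEquiv.mul_apply, ← zpow_add]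
      congr 2; ring
    · change ρ (d + r) • x.1 (d + r) - ρ (d + r) • x.1 (d + r) ∈ _
      rw [sub_self]; exact zero_mem _

/-- Inadmissible words carry nothing. -/
theorem SD.Qa_le_of_not_adm (hJ : J.OrdConnected) (h : ¬ Δ.Adm J w) {j : ℤ} (hj : j ∈ J) :
    Y.Qa J w j ≤ Y.Ga J w j := by
  intro x hx
  obtain ⟨t, ht, rfl⟩ := Y.exists_traj (Δ.act_ba N) (Δ.act_ab N) hJ w hj hx
  simp only [SD.Adm, not_or, not_not, not_forall] at h
  obtain ⟨hb, i, hi, hi', c⟩ := h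
  rw [Y.traj_low hJ w ht hj hi', ← (ht.1.edge hi hi').2 (by simpa using c), act_apply,
    show Δ.b • t i = 0 by rw [hb, zero_smul]]
  exact zero_mem _

/-- If `π` is bijective on the interval, bounded pairs have trivial local index. -/
theorem SD.generic_one [IsPrincipalIdealRing D] (hY : Y.Stable Λ) {j : ℤ} (φ ψ : PP Λ) {k : ℕ}
    (hk : ∀ x ∈ φ.set N, algebraMap D Λ (Δ.π ^ k) • x ∈ ψ.set N)
    (hs : ∀ x ∈ Y.Qa J w j, ∃ y ∈ Y.Qa J w j, x - Δ.π • y ∈ Y.Ga J w j)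
    (hi : ∀ y ∈ Y.Qa J w j, Δ.π • y ∈ Y.Ga J w j → y ∈ Y.Ga J w j) :
    Y.lidx (ψ.set N) (φ.set N) (pnt J w j) = 1 := by
  have hs' : ∀ m : ℕ, ∀ x ∈ Y.Qa J w j, ∃ y ∈ Y.Qa J w j, x - Δ.π ^ m • y ∈ Y.Ga J w j := by
    intro m x hx
    induction m with
    | zero => exact ⟨x, hx, by simp⟩
    | succ m ih =>
      obtain ⟨y, hy, h⟩ := ih
      obtain ⟨y', hy', h'⟩ := hs y hy
      refine ⟨y', hy', ?_⟩
      have := add_mem h (Submodule.smul_mem _ (Δ.π ^ m) h')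
      rwa [smul_sub, sub_add_sub_cancel, smul_smul, ← pow_succ] at this
  have hi' : ∀ m : ℕ, ∀ y ∈ Y.Qa J w j, Δ.π ^ m • y ∈ Y.Ga J w j → y ∈ Y.Ga J w j := by
    intro m y hy h
    induction m with
    | zero => simpa using h
    | succ m ih =>
      rw [pow_succ', mul_smul] at h
      exact ih (hi _ (Submodule.smul_mem _ _ hy) h)
  obtain ⟨E, n, hn, hE⟩ := exists_E Δ.reg φ
  obtain ⟨l, n', hn', rfl⟩ := WfDvdMonoid.max_power_factor hn Δ.hπ
  obtain ⟨c, c', hc⟩ : IsCoprime (Δ.π ^ k) n' :=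
    (Δ.hπ.coprime_iff_not_dvd.2 hn').pow_left
  refine Y.lidx_eq_one fun x hx z hz h => ?_
  obtain ⟨y, hy, h1⟩ := hs' (l + k) x hx
  have h2 := (hE N).2 _ h
  rw [algebraMap_smul] at h2
  have h3 : n' • x - Δ.π ^ k • E • y ∈ Y.Ga J w j := by
    refine hi' l _ (sub_mem (Submodule.smul_mem _ _ hx)
      (Submodule.smul_mem _ _ (Δ.Qa_smul hY _ hy))) ?_
    have e : Δ.π ^ l • (n' • x - Δ.π ^ k • E • y) =
        E • (x - Δ.π ^ (l + k) • y) + E • z - (Δ.π ^ l * n') • z := by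
      have : E • x = (Δ.π ^ l * n') • (x + z) - E • z := by rw [← h2, smul_add]; abel
      rw [smul_sub E, this, smul_comm E (Δ.π ^ (l + k)), pow_add, smul_sub, smul_add, mul_smul,
        mul_smul, mul_smul]
      abel
    rw [e]
    exact sub_mem (add_mem (Δ.Ga_smul hY _ h1) (Δ.Ga_smul hY _ hz)) (Submodule.smul_mem _ _ hz)
  have c1 : ∀ (d : D) {u : N}, u ∈ ψ.set N → d • u ∈ ψ.set N := fun d u hu => by
    rw [← algebraMap_smul Λ]
    exact ψ.smul_mem_of_central (fun r => (Algebra.commutes d r).symm) hu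
  have p1 := c1 c (hk _ h)
  have p2 := c1 c' (hk _ ((hE N).1 y))
  rw [algebraMap_smul] at p1 p2
  refine ⟨c • Δ.π ^ k • z - c' • (n' • x - Δ.π ^ k • E • y), sub_mem (Submodule.smul_mem _ _
    (Submodule.smul_mem _ _ hz)) (Submodule.smul_mem _ _ h3), ?_⟩
  have e : x + (c • Δ.π ^ k • z - c' • (n' • x - Δ.π ^ k • E • y)) =
      c • Δ.π ^ k • (x + z) + c' • Δ.π ^ k • E • y := by
    have : x = c • Δ.π ^ k • x + c' • n' • x := by
      rw [smul_smul, smul_smul, ← add_smul, hc, one_smul]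
    rw [smul_add, smul_add, smul_sub]
    nth_rw 1 [this]
    abel
  rw [e]
  exact add_mem p1 p2

/-- Constant words have trivial local index on bounded pairs. -/
theorem SD.const_one [IsPrincipalIdealRing D] (hY : Y.Stable Λ) (hw : ∀ m, w (m + 1) = w m)
    (j : ℤ) (φ ψ : PP Λ) {k : ℕ}
    (hk : ∀ x ∈ φ.set N, algebraMap D Λ (Δ.π ^ k) • x ∈ ψ.set N) :
    Y.lidx (ψ.set N) (φ.set N) (pnt Set.univ w j) = 1 := by
  have hw' : ∀ m, w (m + (1 : ℕ)) = w m := by simpa using hw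
  have hQ : Y.Qa Set.univ w (j + 1) = Y.Qa Set.univ w j := by
    have h1 := rwd_per hw' j
    have h2 := lwd_per hw' j
    rw [Nat.cast_one] at h1 h2
    rw [Sys.Qa, Sys.Qa, h1, h2]
  have hG : Y.Ga Set.univ w (j + 1) = Y.Ga Set.univ w j := by
    have h1 := rwd_per hw' j
    have h2 := lwd_per hw' j
    rw [Nat.cast_one] at h1 h2
    rw [Sys.Ga, Sys.Ga, h1, h2]
  obtain ⟨c, e, u, hc, hs, hi⟩ : ∃ (c : Λ) (e : ℕ) (u : Λ),
      (∀ x ∈ Y.Qa Set.univ w j, c ^ e • x = Δ.π • u • x) ∧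
      (∀ x ∈ Y.Qa Set.univ w j, ∃ y ∈ Y.Qa Set.univ w j, c • y = x) ∧
      ∀ y ∈ Y.Qa Set.univ w j, c • y ∈ Y.Ga Set.univ w j → y ∈ Y.Ga Set.univ w j := by
    cases c : w j
    · obtain ⟨e, u, v, h⟩ := Δ.eb
      have s : ∀ x ∈ Y.Qa Set.univ w j, ∃ y ∈ Y.Qa Set.univ w j, Δ.b • y = x := fun x hx => by
        obtain ⟨y, hy, E⟩ := Y.edge_bw (J := Set.univ) (w := w) (i := j) trivial trivial (hQ ▸ hx)
        exact ⟨y, hy, E.2 c⟩
      refine ⟨Δ.b, e, u, fun x hx => ?_, s, fun y hy h' => ?_⟩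
      · obtain ⟨y, -, rfl⟩ := s x hx
        rw [h, add_smul, mul_smul, smul_smul Δ.a, Δ.ab, zero_smul, smul_zero, add_zero, smul_assoc]
      · exact (Y.edge_low (J := Set.univ) (w := w) (i := j) trivial trivial hy
          (hQ ▸ Δ.Qa_smul hY _ hy) ⟨by simp [c], fun _ => rfl⟩).2 (hG ▸ h')
    · obtain ⟨e, u, v, h⟩ := Δ.ea
      have s : ∀ x ∈ Y.Qa Set.univ w j, ∃ y ∈ Y.Qa Set.univ w j, Δ.a • y = x := fun x hx => by
        obtain ⟨y, hy, E⟩ := Y.edge_fw (J := Set.univ) (w := w) (i := j) trivial trivial hx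
        exact ⟨y, hQ ▸ hy, E.1 c⟩
      refine ⟨Δ.a, e, u, fun x hx => ?_, s, fun y hy h' => ?_⟩
      · obtain ⟨y, -, rfl⟩ := s x hx
        rw [h, add_smul, mul_smul, smul_smul Δ.b, Δ.ba, zero_smul, smul_zero, add_zero, smul_assoc]
      · exact hG ▸ (Y.edge_low (J := Set.univ) (w := w) (i := j) trivial trivial
          (Δ.Qa_smul hY _ hy) (hQ ▸ hy) ⟨fun _ => rfl, by simp [c]⟩).1 h'
  have hs' : ∀ m : ℕ, ∀ x ∈ Y.Qa Set.univ w j, ∃ y ∈ Y.Qa Set.univ w j, c ^ m • y = x := by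
    intro m x hx
    induction m with
    | zero => exact ⟨x, hx, by simp⟩
    | succ m ih =>
      obtain ⟨y, hy, h⟩ := ih
      obtain ⟨y', hy', h'⟩ := hs y hy
      exact ⟨y', hy', by rw [pow_succ, mul_smul, h', h]⟩
  have hi' : ∀ m : ℕ, ∀ y ∈ Y.Qa Set.univ w j, c ^ m • y ∈ Y.Ga Set.univ w j →
      y ∈ Y.Ga Set.univ w j := by
    intro m y hy h
    induction m with
    | zero => simpa using h
    | succ m ih =>
      rw [pow_succ', mul_smul] at h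
      exact ih (hi _ (Δ.Qa_smul hY _ hy) h)
  refine Δ.generic_one hY φ ψ hk (fun x hx => ?_) fun y hy h => hi' e y hy ?_
  · obtain ⟨y, hy, rfl⟩ := hs' e x hx
    exact ⟨u • y, Δ.Qa_smul hY _ hy, by rw [hc y hy, sub_self]; exact zero_mem _⟩
  · rw [hc y hy, smul_comm]
    exact Δ.Ga_smul hY _ h

end Pool.Agent.Lib.MP_c13fce_lc
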