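import Pool.Agent.Lib.MP_c13fce_lc.Kit
import Pool.Agent.Lib.MP_a1ec0a_al.S1

/-! Block A1, part 1: total decoders of codes, recognition of sentence codes. -/

namespace Pool.Agent.Lib.MP_c13fce_lc.LogA

open Pool.Agent.Lib.MP_a1ec0a_al Encodable

section PRkit
variable {α β : Type} [Primcodable α] [Primcodable β]

@[fun_prop] theorem pr_pair {f g : α → ℕ} (hf : PR f) (hg : PR g) :
    PR fun a => Nat.pair (f a) (g a) := Primrec₂.natPair.comp hf hg

@[fun_prop] theorem pr_unpair {f : α → ℕ} (hf : PR f) : PR fun a => (f a).unpair :=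
  Primrec.unpair.comp hf

@[fun_prop] theorem pr_encode {f : α → β} (hf : PR f) : PR fun a => encode (f a) :=
  Primrec.encode.comp hf

/-- `m` is the number of an element of `β`. -/
def isC (β : Type) [Primcodable β] (m : ℕ) : Bool := (decode₂ β m).isSome

theorem isC_iff {m : ℕ} : isC β m = true ↔ ∃ r : β, encode r = m := by
  simp [isC, Option.isSome_iff_exists, decode₂_eq_some]

@[fun_prop] theorem pr_isC {f : α → ℕ} (hf : PR f) : PR fun a => isC β (f a) :=
  Primrec.option_isSome.comp (Primrec.decode₂.comp hf)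

theorem s1_of_re {p : α → Prop} (hp : REPred p) : S1 p := by
  obtain ⟨c, hc⟩ := Nat.Partrec.Code.exists_code.1 hp
  refine ⟨fun x => (Nat.Partrec.Code.evaln x.2 c (encode x.1)).isSome, ?_, fun a => ?_⟩
  · exact Primrec.option_isSome.comp (Nat.Partrec.Code.primrec_evaln.comp
      ((Primrec.snd.pair (Primrec.const c)).pair (Primrec.encode.comp Primrec.fst)))
  · simp only [Option.isSome_iff_exists]
    rw [exists_comm]
    have : ∀ x, (∃ n, Nat.Partrec.Code.evaln n c (encode a) = some x) ↔ x ∈ c.eval (encode a) :=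
      fun x => Nat.Partrec.Code.evaln_complete.symm
    simp only [this, hc]
    simp

/-- Course-of-values recursion. -/
def cv (G : ℕ → List β → β) (n : ℕ) : β :=
  G n ((List.range n).attach.map fun m => cv G m.1)
termination_by n
decreasing_by exact List.mem_range.1 m.2

theorem cv_eq (G : ℕ → List β → β) (n : ℕ) : cv G n = G n ((List.range n).map (cv G)) := by
  rw [cv]; simp

theorem pr_cv {G : ℕ → List β → β} (hG : PR fun p : ℕ × List β => G p.1 p.2) : PR (cv G) := by
  have h : Primrec₂ fun (_ : Unit) (n : ℕ) => cv G n := by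
    refine Primrec.nat_strong_rec (fun (_ : Unit) n => cv G n)
      (g := fun _ L => some (G L.length L)) ?_ fun _ n => ?_
    · exact Primrec.option_some.comp (Primrec.comp hG
        ((Primrec.list_length.comp Primrec.snd).pair Primrec.snd))
    · rw [cv_eq G n]; simp
  exact h.comp (Primrec.const ()) Primrec.id

omit [Primcodable β] in
theorem getD_range (f : ℕ → β) {n m : ℕ} (h : m < n) (d : β) :
    ((List.range n).map f).getD m d = f m := by
  simp [List.getD_eq_getElem?_getD, h]

end PRkit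

theorem lt_pair {a : ℕ} (ha : a ≠ 0) (b : ℕ) : b < Nat.pair a b :=
  (Nat.right_le_pair 0 b).trans_lt (Nat.pair_lt_pair_left b (Nat.pos_of_ne_zero ha))

theorem lt_pair1 {a : ℕ} (ha : a ≠ 0) (b c : ℕ) : b < Nat.pair a (Nat.pair b c) :=
  (Nat.left_le_pair b c).trans_lt (lt_pair ha _)

theorem lt_pair2 {a : ℕ} (ha : a ≠ 0) (b c : ℕ) : c < Nat.pair a (Nat.pair b c) :=
  (Nat.right_le_pair b c).trans_lt (lt_pair ha _)

theorem unp_lt {n : ℕ} (h : n.unpair.1 ≠ 0) : n.unpair.2 < n := by
  conv_rhs => rw [← Nat.pair_unpair n]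
  exact lt_pair h _

theorem unp_lt1 {n : ℕ} (h : n.unpair.1 ≠ 0) : n.unpair.2.unpair.1 < n :=
  (Nat.unpair_left_le _).trans_lt (unp_lt h)

theorem unp_lt2 {n : ℕ} (h : n.unpair.1 ≠ 0) : n.unpair.2.unpair.2 < n :=
  (Nat.unpair_right_le _).trans_lt (unp_lt h)

variable (R : Type) [Ring R] [Primcodable R]

/-- Total decoder of terms. -/
def decT (n : ℕ) : Tm R :=
  if _h : n.unpair.1 = 0 then .var n.unpair.2
  else if n.unpair.1 = 2 then .add (decT n.unpair.2.unpair.1) (decT n.unpair.2.unpair.2)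
  else if n.unpair.1 = 3 then .neg (decT n.unpair.2)
  else if n.unpair.1 = 4 then
    .smul ((decode (α := R) n.unpair.2.unpair.1).getD 0) (decT n.unpair.2.unpair.2)
  else .zero
termination_by n
decreasing_by
  exacts [unp_lt1 _h, unp_lt2 _h, unp_lt _h, unp_lt2 _h]

/-- Total decoder of formulas. -/
def decF (n : ℕ) : Fm R :=
  if _h : n.unpair.1 = 0 then .eq (decT R n.unpair.2.unpair.1) (decT R n.unpair.2.unpair.2)
  else if n.unpair.1 = 1 then .not (decF n.unpair.2)
  else if n.unpair.1 = 2 then .imp (decF n.unpair.2.unpair.1) (decF n.unpair.2.unpair.2)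
  else .all n.unpair.2.unpair.1 (decF n.unpair.2.unpair.2)
termination_by n
decreasing_by
  exacts [unp_lt _h, unp_lt1 _h, unp_lt2 _h, unp_lt2 _h]

variable {R}

def tVar (i : ℕ) : ℕ := Nat.pair 0 i
def tZero : ℕ := Nat.pair 1 0
def tAdd (s t : ℕ) : ℕ := Nat.pair 2 (Nat.pair s t)
def tNeg (t : ℕ) : ℕ := Nat.pair 3 t
def tSmul (r : R) (t : ℕ) : ℕ := Nat.pair 4 (Nat.pair (encode r) t)
def fEq (s t : ℕ) : ℕ := Nat.pair 0 (Nat.pair s t)
def fNot (a : ℕ) : ℕ := Nat.pair 1 a
def fImp (a b : ℕ) : ℕ := Nat.pair 2 (Nat.pair a b)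
def fAll (i a : ℕ) : ℕ := Nat.pair 3 (Nat.pair i a)

@[simp] theorem decT_var (i : ℕ) : decT R (tVar i) = .var i := by rw [decT]; simp [tVar]
@[simp] theorem decT_zero : decT R tZero = .zero := by rw [decT]; simp [tZero]
@[simp] theorem decT_add (s t : ℕ) : decT R (tAdd s t) = .add (decT R s) (decT R t) := by
  rw [decT]; simp [tAdd]
@[simp] theorem decT_neg (t : ℕ) : decT R (tNeg t) = .neg (decT R t) := by
  rw [decT]; simp [tNeg]
@[simp] theorem decT_smul (r : R) (t : ℕ) : decT R (tSmul r t) = .smul r (decT R t) := by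
  rw [decT]; simp [tSmul]
@[simp] theorem decF_eq (s t : ℕ) : decF R (fEq s t) = .eq (decT R s) (decT R t) := by
  rw [decF]; simp [fEq]
@[simp] theorem decF_not (a : ℕ) : decF R (fNot a) = .not (decF R a) := by
  rw [decF]; simp [fNot]
@[simp] theorem decF_imp (a b : ℕ) : decF R (fImp a b) = .imp (decF R a) (decF R b) := by
  rw [decF]; simp [fImp]
@[simp] theorem decF_all (i a : ℕ) : decF R (fAll i a) = .all i (decF R a) := by
  rw [decF]; simp [fAll]

omit [Ring R] in
theorem code_var (i : ℕ) : (Tm.var i : Tm R).code encode = tVar i := rfl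
omit [Ring R] in
theorem code_zero : (Tm.zero : Tm R).code encode = tZero := rfl
omit [Ring R] in
theorem code_add (s t : Tm R) : (s.add t).code encode = tAdd (s.code encode) (t.code encode) := rfl
omit [Ring R] in
theorem code_neg (t : Tm R) : t.neg.code encode = tNeg (t.code encode) := rfl
omit [Ring R] in
theorem code_smul (r : R) (t : Tm R) : (t.smul r).code encode = tSmul r (t.code encode) := rfl
omit [Ring R] in
theorem code_eq (s t : Tm R) : (Fm.eq s t).code encode = fEq (s.code encode) (t.code encode) := rfl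
omit [Ring R] in
theorem code_not (a : Fm R) : a.not.code encode = fNot (a.code encode) := rfl
omit [Ring R] in
theorem code_imp (a b : Fm R) : (a.imp b).code encode = fImp (a.code encode) (b.code encode) := rfl
omit [Ring R] in
theorem code_all (i : ℕ) (a : Fm R) : (a.all i).code encode = fAll i (a.code encode) := rfl

theorem decT_code (t : Tm R) : decT R (t.code encode) = t := by
  induction t with
  | var i => simp [code_var]
  | zero => simp [code_zero]
  | add s t ihs iht => simp [code_add, ihs, iht]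
  | neg t ih => simp [code_neg, ih]
  | smul r t ih => simp [code_smul, ih]

theorem decF_code (φ : Fm R) : decF R (φ.code encode) = φ := by
  induction φ with
  | eq s t => simp [code_eq, decT_code]
  | not a ih => simp [code_not, ih]
  | imp a b iha ihb => simp [code_imp, iha, ihb]
  | all i a ih => simp [code_all, ih]

variable (R)

/-- Step of the recognition of term codes (flag, list of variables). -/
def gT (n : ℕ) (L : List (Bool × List ℕ)) : Bool × List ℕ :=
  bif n.unpair.1 == 0 then (true, [n.unpair.2])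
  else bif n.unpair.1 == 1 then (n.unpair.2 == 0, [])
  else bif n.unpair.1 == 2 then
    ((L.getD n.unpair.2.unpair.1 (false, [])).1 && (L.getD n.unpair.2.unpair.2 (false, [])).1,
      (L.getD n.unpair.2.unpair.1 (false, [])).2 ++ (L.getD n.unpair.2.unpair.2 (false, [])).2)
  else bif n.unpair.1 == 3 then L.getD n.unpair.2 (false, [])
  else bif n.unpair.1 == 4 then
    (isC R n.unpair.2.unpair.1 && (L.getD n.unpair.2.unpair.2 (false, [])).1,
      (L.getD n.unpair.2.unpair.2 (false, [])).2)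
  else (false, [])

def iT : ℕ → Bool × List ℕ := cv (gT R)

omit [Ring R] in
theorem pr_iT : PR (iT R) := pr_cv (by unfold gT; fun_prop)

/-- Step of the recognition of formula codes (flag, list of free variables). -/
def gF (n : ℕ) (L : List (Bool × List ℕ)) : Bool × List ℕ :=
  bif n.unpair.1 == 0 then
    ((iT R n.unpair.2.unpair.1).1 && (iT R n.unpair.2.unpair.2).1,
      (iT R n.unpair.2.unpair.1).2 ++ (iT R n.unpair.2.unpair.2).2)
  else bif n.unpair.1 == 1 then L.getD n.unpair.2 (false, [])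
  else bif n.unpair.1 == 2 then
    ((L.getD n.unpair.2.unpair.1 (false, [])).1 && (L.getD n.unpair.2.unpair.2 (false, [])).1,
      (L.getD n.unpair.2.unpair.1 (false, [])).2 ++ (L.getD n.unpair.2.unpair.2 (false, [])).2)
  else bif n.unpair.1 == 3 then
    ((L.getD n.unpair.2.unpair.2 (false, [])).1,
      (L.getD n.unpair.2.unpair.2 (false, [])).2.filter fun j => !(j == n.unpair.2.unpair.1))
  else (false, [])

def iF : ℕ → Bool × List ℕ := cv (gF R)

omit [Ring R] in
theorem pr_iF : PR (iF R) := by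
  have := pr_iT R
  exact pr_cv (by unfold gF; fun_prop)

variable {R}

omit [Ring R] in
theorem iT_code (t : Tm R) :
    (iT R (t.code encode)).1 = true ∧ ∀ i, i ∈ (iT R (t.code encode)).2 ↔ i ∈ t.vars := by
  induction t with
  | var i => rw [iT, cv_eq]; simp [gT, Tm.code, Tm.vars]
  | zero => rw [iT, cv_eq]; simp [gT, Tm.code, Tm.vars]
  | add s t ihs iht =>
    rw [iT, cv_eq]
    simp only [gT, Tm.code, Nat.unpair_pair, getD_range _ (lt_pair1 two_ne_zero _ _),
      getD_range _ (lt_pair2 two_ne_zero _ _)]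
    simp only [iT] at ihs iht
    simp [ihs, iht, Tm.vars]
  | neg t ih =>
    rw [iT, cv_eq]
    simp only [gT, Tm.code, Nat.unpair_pair, getD_range _ (lt_pair three_ne_zero _)]
    simp only [iT] at ih
    simp [ih, Tm.vars]
  | smul r t ih =>
    rw [iT, cv_eq]
    simp only [gT, Tm.code, Nat.unpair_pair, getD_range _ (lt_pair2 four_ne_zero _ _)]
    simp only [iT] at ih
    simp [ih, Tm.vars, isC_iff]

omit [Ring R] in
theorem iF_code (φ : Fm R) :
    (iF R (φ.code encode)).1 = true ∧ ∀ i, i ∈ (iF R (φ.code encode)).2 ↔ i ∈ φ.free := by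
  induction φ with
  | eq s t => rw [iF, cv_eq]; simp [gF, Fm.code, Fm.free, iT_code]
  | not a ih =>
    rw [iF, cv_eq]
    simp only [gF, Fm.code, Nat.unpair_pair, getD_range _ (lt_pair one_ne_zero _)]
    simp only [iF] at ih
    simp [ih, Fm.free]
  | imp a b iha ihb =>
    rw [iF, cv_eq]
    simp only [gF, Fm.code, Nat.unpair_pair, getD_range _ (lt_pair1 two_ne_zero _ _),
      getD_range _ (lt_pair2 two_ne_zero _ _)]
    simp only [iF] at iha ihb
    simp [iha, ihb, Fm.free]
  | all i a ih =>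
    rw [iF, cv_eq]
    simp only [gF, Fm.code, Nat.unpair_pair, getD_range _ (lt_pair2 three_ne_zero _ _)]
    simp only [iF] at ih
    simp [ih, Fm.free, and_comm]

omit [Ring R] in
theorem exists_tm (n : ℕ) (h : (iT R n).1 = true) : ∃ t : Tm R, t.code encode = n := by
  induction n using Nat.strong_induction_on with
  | _ n ih =>
    obtain ⟨a, b, rfl⟩ : ∃ a b, n = Nat.pair a b := ⟨_, _, (Nat.pair_unpair n).symm⟩
    obtain ⟨c, d, rfl⟩ : ∃ c d, b = Nat.pair c d := ⟨_, _, (Nat.pair_unpair b).symm⟩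
    rw [iT, cv_eq] at h
    rcases a with _ | _ | _ | _ | _ | a
    · exact ⟨.var _, rfl⟩
    · simp only [gT, Nat.unpair_pair] at h
      refine ⟨.zero, ?_⟩
      rw [show Nat.pair c d = 0 by simpa using h]; rfl
    · simp only [gT, Nat.unpair_pair, getD_range _ (lt_pair1 (Nat.succ_ne_zero _) _ _),
        getD_range _ (lt_pair2 (Nat.succ_ne_zero _) _ _)] at h
      simp only [zero_add, Nat.reduceAdd, Nat.reduceBEq, BEq.rfl, cond_true, cond_false,
        Bool.and_eq_true] at h
      obtain ⟨s, rfl⟩ := ih c (lt_pair1 (Nat.succ_ne_zero _) _ _) h.1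
      obtain ⟨t, rfl⟩ := ih d (lt_pair2 (Nat.succ_ne_zero _) _ _) h.2
      exact ⟨.add s t, rfl⟩
    · simp only [gT, Nat.unpair_pair, getD_range _ (lt_pair (Nat.succ_ne_zero _) _)] at h
      simp only [zero_add, Nat.reduceAdd, Nat.reduceBEq, BEq.rfl, cond_true, cond_false] at h
      obtain ⟨s, hs⟩ := ih _ (lt_pair (Nat.succ_ne_zero _) _) h
      exact ⟨.neg s, by rw [← hs]; rfl⟩
    · simp only [gT, Nat.unpair_pair, getD_range _ (lt_pair2 (Nat.succ_ne_zero _) _ _)] at h
      simp only [zero_add, Nat.reduceAdd, Nat.reduceBEq, BEq.rfl, cond_true, cond_false,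
        Bool.and_eq_true, isC_iff] at h
      obtain ⟨r, rfl⟩ := h.1
      obtain ⟨t, rfl⟩ := ih d (lt_pair2 (Nat.succ_ne_zero _) _ _) h.2
      exact ⟨.smul r t, rfl⟩
    · simp [gT] at h

omit [Ring R] in
theorem exists_fm (n : ℕ) (h : (iF R n).1 = true) : ∃ φ : Fm R, φ.code encode = n := by
  induction n using Nat.strong_induction_on with
  | _ n ih =>
    obtain ⟨a, b, rfl⟩ : ∃ a b, n = Nat.pair a b := ⟨_, _, (Nat.pair_unpair n).symm⟩
    obtain ⟨c, d, rfl⟩ : ∃ c d, b = Nat.pair c d := ⟨_, _, (Nat.pair_unpair b).symm⟩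
    rw [iF, cv_eq] at h
    rcases a with _ | _ | _ | _ | a
    · simp only [gF, Nat.unpair_pair, BEq.rfl, cond_true, Bool.and_eq_true] at h
      obtain ⟨s, rfl⟩ := exists_tm c h.1
      obtain ⟨t, rfl⟩ := exists_tm d h.2
      exact ⟨.eq s t, rfl⟩
    · simp only [gF, Nat.unpair_pair, getD_range _ (lt_pair (Nat.succ_ne_zero _) _)] at h
      simp only [zero_add, Nat.reduceBEq, BEq.rfl, cond_true, cond_false] at h
      obtain ⟨s, hs⟩ := ih _ (lt_pair (Nat.succ_ne_zero _) _) h
      exact ⟨.not s, by rw [← hs]; rfl⟩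
    · simp only [gF, Nat.unpair_pair, getD_range _ (lt_pair1 (Nat.succ_ne_zero _) _ _),
        getD_range _ (lt_pair2 (Nat.succ_ne_zero _) _ _)] at h
      simp only [zero_add, Nat.reduceAdd, Nat.reduceBEq, BEq.rfl, cond_true, cond_false,
        Bool.and_eq_true] at h
      obtain ⟨s, rfl⟩ := ih c (lt_pair1 (Nat.succ_ne_zero _) _ _) h.1
      obtain ⟨t, rfl⟩ := ih d (lt_pair2 (Nat.succ_ne_zero _) _ _) h.2
      exact ⟨.imp s t, rfl⟩
    · simp only [gF, Nat.unpair_pair, getD_range _ (lt_pair2 (Nat.succ_ne_zero _) _ _)] at h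
      simp only [zero_add, Nat.reduceAdd, Nat.reduceBEq, BEq.rfl, cond_true, cond_false] at h
      obtain ⟨t, rfl⟩ := ih d (lt_pair2 (Nat.succ_ne_zero _) _ _) h
      exact ⟨.all c t, rfl⟩
    · simp [gF] at h

variable (R) in
/-- `k` is the code of a sentence. -/
def isS (k : ℕ) : Bool := (iF R k).1 && (iF R k).2.length == 0

omit [Ring R] in
theorem pr_isS : PR (isS R) := by
  have := pr_iF R
  unfold isS; fun_prop

omit [Ring R] in
theorem isS_iff {k : ℕ} : isS R k = true ↔ ∃ φ : Fm R, φ.free = ∅ ∧ φ.code encode = k := by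
  simp only [isS, Bool.and_eq_true, beq_iff_eq, List.length_eq_zero_iff]
  constructor
  · rintro ⟨h1, h2⟩
    obtain ⟨φ, rfl⟩ := exists_fm k h1
    refine ⟨φ, Finset.eq_empty_of_forall_notMem fun i hi => ?_, rfl⟩
    have := ((iF_code φ).2 i).2 hi
    simp [h2] at this
  · rintro ⟨φ, h, rfl⟩
    refine ⟨(iF_code φ).1, List.eq_nil_iff_forall_not_mem.2 fun i hi => ?_⟩
    have := ((iF_code φ).2 i).1 hi
    simp [h] at this

end Pool.Agent.Lib.MP_c13fce_lc.LogA
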