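import Pool.Agent.Lib.MP_c13fce_lc.Ind
import Pool.Agent.Lib.MP_c13fce_lc.Post
import Mathlib.Computability.Reduce

namespace Pool.Agent.Lib.MP_c13fce_lc

open Function RT

def RelM (M : Type) : Type := M → M → Prop

instance (M : Type) : Monoid (RelM M) where
  mul r s := fun x y => ∃ z, r x z ∧ s z y
  one := fun x y => y = x
  mul_assoc r s t := funext fun x => funext fun y => propext
    ⟨fun ⟨z, ⟨w, h1, h2⟩, h3⟩ => ⟨w, h1, z, h2, h3⟩, fun ⟨w, h1, z, h2, h3⟩ => ⟨z, ⟨w, h1, h2⟩, h3⟩⟩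
  one_mul r := funext fun x => funext fun y => propext
    ⟨fun ⟨_, h1, h2⟩ => (show _ = x from h1) ▸ h2, fun h => ⟨x, rfl, h⟩⟩
  mul_one r := funext fun x => funext fun y => propext
    ⟨fun ⟨z, h1, h2⟩ => (show y = z from h2) ▸ h1, fun h => ⟨y, h, rfl⟩⟩

theorem sem_wd {M : Type} [AddCommGroup M] (a : Op → M →+ M) (h1 : ∀ x, a .one x = x) (n : ℕ)
    (u : List ℕ) :
    sem a (wd n u) = (u.map fun i => (show RelM M from sem a (rho1 n i))).prod := by
  induction u with
  | nil => funext x y; simp only [wd, sem, h1]; rfl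
  | cons i u ih => rw [List.map_cons, List.prod_cons, ← ih]; rfl

section Sent

variable {S : Type} (val : Op → S) (n : ℕ)

def incl (r s : List ℕ) : Fm S := .all 0 (.all 1 (.imp ((wd n r).fm val) ((wd n s).fm val)))

def hyp : List (List ℕ × List ℕ) → Fm S → Fm S
  | [], C => C
  | q :: R, C => .imp (incl val n q.1 q.2) (.imp (incl val n q.2 q.1) (hyp R C))

theorem incl_free (r s : List ℕ) : (incl val n r s).free = ∅ := by
  have h1 := fm_free val (wd n r)
  have h2 := fm_free val (wd n s)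
  ext i
  simp only [incl, Fm.free, Finset.mem_erase, Finset.mem_union, Finset.notMem_empty]
  grind

theorem hyp_free (R : List (List ℕ × List ℕ)) (C : Fm S) (h : C.free = ∅) :
    (hyp val n R C).free = ∅ := by
  induction R with
  | nil => exact h
  | cons q R ih => simp [hyp, Fm.free, incl_free, ih]

theorem prim_pair {α : Type} [Primcodable α] {f g : α → ℕ} (hf : Primrec f) (hg : Primrec g) :
    Primrec fun a => Nat.pair (f a) (g a) := Primrec₂.natPair.comp hf hg

theorem hyp_prim (c : S → ℕ) (R : List (List ℕ × List ℕ)) (C : ℕ → Fm S)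
    (h : Primrec fun w => (C w).code c) : Primrec fun w => (hyp val n R (C w)).code c := by
  induction R with
  | nil => exact h
  | cons q R ih =>
    simp only [hyp, Fm.code]
    iterate 4 refine prim_pair (Primrec.const _) ?_
    exact ih

theorem comp_prim (c : S → ℕ) : ∃ F : ℕ × ℕ → ℕ, Primrec F ∧
    ∀ φ ψ : Fm S, (φ.comp ψ).code c = F (φ.code c, ψ.code c) := by
  have h1 : ∀ i j, ∃ F : ℕ → ℕ, Primrec F ∧ ∀ φ : Fm S, (φ.sub i j).code c = F (φ.code c) := by
    intro i j
    refine ⟨fun x => Nat.pair 1 (Nat.pair 3 (Nat.pair i (Nat.pair 1 (Nat.pair 1 (Nat.pair 2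
      (Nat.pair ((Fm.eq (.var i) (.var j) : Fm S).code c) (Nat.pair 1 x))))))), ?_,
      fun φ => by simp only [Fm.ex, Fm.and, Fm.sub, Fm.code]⟩
    iterate 8 refine prim_pair (Primrec.const _) ?_
    exact Primrec.id
  obtain ⟨F, hF, e⟩ := h1 1 2
  obtain ⟨F', hF', e'⟩ := h1 0 2
  refine ⟨fun x => Nat.pair 1 (Nat.pair 3 (Nat.pair 2 (Nat.pair 1 (Nat.pair 1 (Nat.pair 2
    (Nat.pair (F x.1) (Nat.pair 1 (F' x.2)))))))), ?_,
    fun φ ψ => by simp only [Fm.comp, Fm.ex, Fm.and, Fm.code, e, e']⟩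
  iterate 6 refine prim_pair (Primrec.const _) ?_
  exact prim_pair (hF.comp Primrec.fst) (prim_pair (Primrec.const _) (hF'.comp Primrec.snd))

theorem fold_prim (F : ℕ × ℕ → ℕ) (hF : Primrec F) (t : ℕ → ℕ) (c₀ : ℕ) (U : ℕ → List ℕ)
    (hU : Primrec U) (hn : ∀ w, ∀ i ∈ U w, i < n) :
    Primrec fun w => (U w).foldr (fun i x => F (t i, x)) c₀ := by
  refine (Primrec.list_foldr
    (h := fun _ (x : ℕ × ℕ) => F (((List.range n).map t).getD x.1 0, x.2)) hU (Primrec.const c₀)
    (hF.comp ((((Primrec.list_getD 0).comp (Primrec.const _)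
      (Primrec.fst.comp Primrec.snd))).pair (Primrec.snd.comp Primrec.snd))).to₂).of_eq
    fun w => ?_
  have := hn w
  generalize U w = u at this
  induction u with
  | nil => rfl
  | cons i u ih =>
    have hi := this i (by simp)
    rw [List.foldr_cons, ih fun j hj => this j (by simp [hj])]
    simp [hi]

theorem incl_prim (c : S → ℕ) (U : ℕ → List ℕ) (hU : Primrec U) (hn : ∀ w, ∀ i ∈ U w, i < n)
    (V : List ℕ) : Primrec fun w => (incl val n (U w) V).code c := by
  obtain ⟨F, hF, e⟩ := comp_prim c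
  have h1 : Primrec fun w => ((wd n (U w)).fm val).code c := by
    refine (fold_prim n F hF (fun i => ((rho1 n i).fm val).code c) (((wd n []).fm val).code c)
      U hU hn).of_eq fun w => ?_
    induction U w with
    | nil => rfl
    | cons i u ih => rw [List.foldr_cons, ih, ← e, wd, RT.fm]
  simp only [incl, Fm.code]
  iterate 5 refine prim_pair (Primrec.const _) ?_
  exact prim_pair h1 (Primrec.const _)

variable [Ring S] {M : Type} [AddCommGroup M] [Module S M] (a : Op → M →+ M)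
  (ha : ∀ o x, val o • x = a o x)

include ha

theorem incl_sat (r s : List ℕ) (v : ℕ → M) :
    (incl val n r s).Sat v ↔ ∀ x y, sem a (wd n r) x y → sem a (wd n s) x y := by
  simp [incl, Fm.Sat, fm_sat val a ha]

theorem hyp_sat (R : List (List ℕ × List ℕ)) (C : Fm S) (v : ℕ → M) :
    (hyp val n R C).Sat v ↔
      ((∀ q ∈ R, sem a (wd n q.1) = sem a (wd n q.2)) → C.Sat v) := by
  induction R with
  | nil => simp [hyp]
  | cons q R ih =>
    simp only [hyp, Fm.Sat, incl_sat val n a ha, ih, List.forall_mem_cons, and_imp]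
    refine ⟨fun h e => h (fun _ _ => e ▸ id) (fun _ _ => e ▸ id), fun h e1 e2 => h ?_⟩
    exact funext fun x => funext fun y => propext ⟨e1 x y, e2 x y⟩

end Sent

theorem undecidable (G : Type) [Group G] [Finite G] (hG : ¬ Squarefree (Nat.card G))
    (c : MonoidAlgebra ℤ G → ℕ) (hc : Injective c) :
    ¬ ComputablePred fun k => ∃ φ ∈ Theory (MonoidAlgebra ℤ G), φ.code c = k := by
  obtain ⟨p, hp, hd⟩ : ∃ p : ℕ, p.Prime ∧ p * p ∣ Nat.card G := by
    simpa [Nat.squarefree_iff_prime_squarefree] using hG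
  have : Fact p.Prime := ⟨hp⟩
  obtain ⟨K, hK⟩ := Sylow.exists_subgroup_card_pow_prime p (n := 2) (by rwa [sq])
  obtain ⟨b, g, h, hgen, hb, hB⟩ := base p K hK
  obtain ⟨n, R, U, V, P, hP, hU, hR, gU, gV, fw, X, f, hf, bw⟩ := post
  let val : Op → MonoidAlgebra ℤ G :=
    ops b p (MonoidAlgebra.of ℤ G g) (MonoidAlgebra.of ℤ G h)
  let σ : ℕ → Fm (MonoidAlgebra ℤ G) := fun w => hyp val n R (incl val n (U w) V)
  have key : ∀ w, σ w ∈ Theory (MonoidAlgebra ℤ G) ↔ P w := by
    intro w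
    refine ⟨fun hw => ?_, fun hw => ⟨hyp_free _ _ _ _ (incl_free ..), fun M _ _ v => ?_⟩⟩
    · by_contra hn
      obtain ⟨N, _, ρ, τ, μ, hτ, hμ, hγ⟩ := hB (ℕ × X) (sX n) (sY n f)
      have sp : ∀ γ : K →* K, Injective γ → ∃ D : N → Prop,
          (∀ u, Good n u → ∀ x y, sem (opE b p (ρ (γ g)) (ρ (γ h))) (wd n u) x y ↔
            D x ∧ D y ∧ ∀ t, τ y (0, t) = τ x (0, (u.map f).prod t)) ∧
          (γ = MonoidHom.id K → ∀ v : X → ZMod p, ∃ x, D x ∧ ∀ t, τ x (0, t) = v t) := by
        intro γ hi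
        obtain ⟨a', b', c', d', h1, h2, h3⟩ := hγ γ hi
        obtain ⟨D, D1, D2⟩ := special (opE b p (ρ (γ g)) (ρ (γ h))) n f a' b' c' d' h1 τ μ hτ hμ
          (fun _ => rfl) (fun x => (h3 x).1) (fun x => (h3 x).2.1) (fun x => (h3 x).2.2.1)
          (fun x => (h3 x).2.2.2)
        exact ⟨D, fun u hu => D1 u hu.1 hu.2, fun e => D2 (h2 e).1 (h2 e).2.1 (h2 e).2.2⟩
      have hpN : ∀ x, p • opE b p (ρ g) (ρ h) .pi x = 0 := by
        intro x
        obtain ⟨a', b', c', d', -, -, h3⟩ := hγ (MonoidHom.id K) injective_id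
        rw [opE_eq, show ops b p (ρ g) (ρ h) .pi x = _ from (h3 x).1, ← map_nsmul, p_smul,
          map_zero]
      have ind := induce K ρ (IsPGroup.of_card hK) b g h hgen hb hpN
      let φ : MonoidAlgebra ℤ G →+* AddMonoid.End (Co K ρ) :=
        (MonoidAlgebra.lift ℤ _ G (coR K ρ)).toRingHom
      let _ : Module (MonoidAlgebra ℤ G) (Co K ρ) := Module.compHom _ φ
      have ha : ∀ o (x : Co K ρ), val o • x = opE b p (coR K ρ g) (coR K ρ h) o x := by
        intro o x
        change φ (val o) x = _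
        rw [ops_map, opE_eq]
        simp [φ]
      have up : ∀ r s, Good n r → Good n s → (r.map f).prod = (s.map f).prod → ∀ x y,
          sem (opE b p (coR K ρ g) (coR K ρ h)) (wd n r) x y →
            sem (opE b p (coR K ρ g) (coR K ρ h)) (wd n s) x y := by
        intro r s hr hs e
        refine (ind _ _).1 (wd_dom _ (fun _ => rfl) n r hr.1) (wd_null _ (fun _ => rfl) n s hs.1)
          fun γ hi x y => ?_
        obtain ⟨D, D1, -⟩ := sp γ hi
        rw [D1 r hr, D1 s hs, e]; exact id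
      have h1 := (incl_sat val n _ ha _ _ _).1 ((hyp_sat val n _ ha R _ _).1 (hw.2 (Co K ρ) 0)
        fun q hq => funext fun x => funext fun y => propext
          ⟨up _ _ (hR q hq).1 (hR q hq).2 (hf q hq) x y,
            up _ _ (hR q hq).2 (hR q hq).1 (hf q hq).symm x y⟩)
      have h2 := (ind _ _).2 h1
      obtain ⟨D, D1, D2⟩ := sp (MonoidHom.id K) injective_id
      refine bw w hn (funext fun t => ?_)
      classical
      obtain ⟨x, x1, x2⟩ := D2 rfl fun s => if s = ((U w).map f).prod t then 1 else 0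
      obtain ⟨y, y1, y2⟩ := D2 rfl fun s => τ x (0, ((U w).map f).prod s)
      have h3 := ((D1 V gV x y).1 (h2 x y ((D1 _ (gU w) x y).2 ⟨x1, y1, y2⟩))).2.2 t
      rw [y2, x2, x2, if_pos rfl] at h3
      by_contra hne
      rw [if_neg (Ne.symm hne)] at h3
      exact one_ne_zero h3
    · let a : Op → M →+ M := fun o => DistribSMul.toAddMonoidHom M (val o)
      have h1 : ∀ x, a .one x = x := fun x => one_smul _ x
      refine (hyp_sat val n a (fun _ _ => rfl) R _ v).2 fun e => ?_
      rw [incl_sat val n a fun _ _ => rfl, sem_wd a h1, sem_wd a h1,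
        fw w hw (RelM M) _ fun q hq => by rw [← sem_wd a h1, ← sem_wd a h1, e q hq]]
      exact fun _ _ => id
  intro hC
  have h1 : Primrec fun w => (σ w).code c :=
    hyp_prim val n c R _ (incl_prim val n c U hU (fun w => (gU w).2) V)
  refine hP ((ComputablePred.computable_of_manyOneReducible
    (p := fun w => ∃ φ ∈ Theory (MonoidAlgebra ℤ G), φ.code c = (σ w).code c)
    ⟨_, h1.to_comp, fun _ => Iff.rfl⟩ hC).of_eq fun w => ?_)
  rw [← key]
  exact ⟨fun ⟨φ, u, v⟩ => Fm.code_inj hc _ _ v ▸ u, fun u => ⟨_, u, rfl⟩⟩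

end Pool.Agent.Lib.MP_c13fce_lc
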