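import Pool.Agent.Lib.MP_c13fce_lc.Kit
import Pool.Agent.Lib.MP_a1ec0a_al.S1

/-! Block B (`nice_re`): shared definitions. -/

namespace Pool.Agent.Lib.MP_c13fce_lc.NRE

open Pool.Agent.Lib.MP_a1ec0a_al

variable {R : Type} [Ring R] {n : ℕ}

/-- The computable structure as an instance argument. -/
class CR (R : Type) [Ring R] [Primcodable R] where
  c : CompRing R

/-- Coefficients modulo `q`. -/
abbrev Rq (R : Type) [Ring R] (q : ℕ) : Type := R ⧸ Submodule.span R {(q : R)}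

/-- States: one coefficient for each row and each marked element. -/
abbrev V (θ : PP R) (q n : ℕ) : Type := θ.ι → Fin n → Rq R q

/-- Reduction of coefficients. -/
def mkV (q : ℕ) {θ : PP R} (c : θ.ι → Fin n → R) : V θ q n :=
  fun i j => Submodule.Quotient.mk (c i j)

theorem mkV_add (q : ℕ) {θ : PP R} (c d : θ.ι → Fin n → R) :
    mkV q (c + d) = mkV q c + mkV q d := rfl

theorem mkV_neg (q : ℕ) {θ : PP R} (c : θ.ι → Fin n → R) : mkV q (-c) = -mkV q c := rfl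

theorem mkV_zero (q : ℕ) {θ : PP R} : mkV q (0 : θ.ι → Fin n → R) = 0 := rfl

theorem mkV_surj (q : ℕ) {θ : PP R} (v : V θ q n) : ∃ c, mkV q c = v := by
  choose c hc using fun i j => Submodule.Quotient.mk_surjective _ (v i j)
  exact ⟨c, funext fun i => funext fun j => hc i j⟩

theorem mkV_eq {q : ℕ} {θ : PP R} {c d : θ.ι → Fin n → R} :
    mkV q c = mkV q d ↔ ∀ i j, ∃ s : R, c i j - d i j = s * q := by
  simp only [mkV, funext_iff, Submodule.Quotient.eq, Submodule.mem_span_singleton, smul_eq_mul]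
  exact forall₂_congr fun i j => exists_congr fun s => eq_comm

/-- A module with `n` marked elements on the left and `n` on the right. -/
structure BP (R : Type) [Ring R] (n : ℕ) : Type 1 where
  Y : Type
  [acg : AddCommGroup Y]
  [mod : Module R Y]
  l : Fin n → Y
  r : Fin n → Y

attribute [instance] BP.acg BP.mod

/-- The formula with boundary terms. -/
def BP.relR (W : BP R n) (θ : PP R) (x : W.Y) (c c' : θ.ι → Fin n → R) : Prop :=
  ∃ w : θ.κ → W.Y, ∀ i, θ.h i • x + ∑ k, θ.H i k • w k =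
    ∑ j, c' i j • W.r j - ∑ j, c i j • W.l j

theorem BP.relR_add {W : BP R n} {θ : PP R} {x y : W.Y} {c c' d d' : θ.ι → Fin n → R}
    (h : W.relR θ x c c') (h' : W.relR θ y d d') : W.relR θ (x + y) (c + d) (c' + d') := by
  obtain ⟨w, hw⟩ := h
  obtain ⟨w', hw'⟩ := h'
  refine ⟨w + w', fun i => ?_⟩
  have := congrArg₂ (· + ·) (hw i) (hw' i)
  simp only [Pi.add_apply, smul_add, add_smul, Finset.sum_add_distrib] at this ⊢
  linear_combination (norm := abel) this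

theorem BP.relR_neg {W : BP R n} {θ : PP R} {x : W.Y} {c c' : θ.ι → Fin n → R}
    (h : W.relR θ x c c') : W.relR θ (-x) (-c) (-c') := by
  obtain ⟨w, hw⟩ := h
  refine ⟨-w, fun i => ?_⟩
  have := congrArg (fun z => -z) (hw i)
  simp only [Pi.neg_apply, smul_neg, neg_smul, Finset.sum_neg_distrib] at this ⊢
  linear_combination (norm := abel) this

/-- The formula with boundary terms modulo `q`. -/
def BP.rel (W : BP R n) (θ : PP R) (q : ℕ) : AddSubgroup (W.Y × V θ q n × V θ q n) where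
  carrier := {z | ∃ c c', mkV q c = z.2.1 ∧ mkV q c' = z.2.2 ∧ W.relR θ z.1 c c'}
  zero_mem' := ⟨0, 0, rfl, rfl, 0, by simp⟩
  add_mem' := by
    rintro ⟨x, _, _⟩ ⟨y, _, _⟩ ⟨c, c', rfl, rfl, h⟩ ⟨d, d', rfl, rfl, h'⟩
    exact ⟨c + d, c' + d', rfl, rfl, BP.relR_add h h'⟩
  neg_mem' := by
    rintro ⟨x, _, _⟩ ⟨c, c', rfl, rfl, h⟩
    exact ⟨-c, -c', rfl, rfl, BP.relR_neg h⟩

theorem BP.mem_rel {W : BP R n} {θ : PP R} {q : ℕ} {x : W.Y} {v v' : V θ q n} :
    (x, v, v') ∈ W.rel θ q ↔ ∃ c c', mkV q c = v ∧ mkV q c' = v' ∧ W.relR θ x c c' := Iff.rfl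

/-- The marked elements are killed by `q`. -/
def BP.Kil (W : BP R n) (q : ℕ) : Prop := ∀ j, (q : R) • W.l j = 0 ∧ (q : R) • W.r j = 0

theorem sum_congr_kil {M : Type} [AddCommGroup M] [Module R M] {q : ℕ} {y : Fin n → M}
    (hy : ∀ j, (q : R) • y j = 0) {c d : Fin n → R} (h : ∀ j, ∃ s : R, c j - d j = s * q) :
    ∑ j, c j • y j = ∑ j, d j • y j :=
  Finset.sum_congr rfl fun j _ => by
    obtain ⟨s, hs⟩ := h j
    rw [← sub_eq_zero, ← sub_smul, hs, mul_smul, hy, smul_zero]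

theorem BP.Kil.mem_rel {W : BP R n} {q : ℕ} (h : W.Kil q) {θ : PP R} {x : W.Y}
    {c c' : θ.ι → Fin n → R} : (x, mkV q c, mkV q c') ∈ W.rel θ q ↔ W.relR θ x c c' := by
  refine ⟨?_, fun h => ⟨c, c', rfl, rfl, h⟩⟩
  rintro ⟨d, d', e, e', w, hw⟩
  refine ⟨w, fun i => ?_⟩
  rw [hw i, sum_congr_kil (fun j => (h j).1) (mkV_eq.1 e i),
    sum_congr_kil (fun j => (h j).2) (mkV_eq.1 e' i)]

/-- Transitions of states: with `x` free (`k = true`) or `x = 0` (`k = false`). -/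
def BP.KS (W : BP R n) (θ : PP R) (q : ℕ) (k : Bool) (c c' : V θ q n) : Prop :=
  ∃ x, (k = false → x = 0) ∧ (x, c, c') ∈ W.rel θ q

/-- Solutions with prescribed sets of boundary states. -/
def BP.secS (W : BP R n) (θ : PP R) (q : ℕ) (S A : Set (V θ q n)) : Set W.Y :=
  {x | ∃ c ∈ S, ∃ c' ∈ A, (x, c, c') ∈ W.rel θ q}

/-- Forward image of a set of states. -/
def BP.fwdS (W : BP R n) (θ : PP R) (q : ℕ) (k : Bool) (S : Set (V θ q n)) : Set (V θ q n) :=
  {c' | ∃ c ∈ S, W.KS θ q k c c'}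

/-- Backward image of a set of states. -/
def BP.bwdS (W : BP R n) (θ : PP R) (q : ℕ) (k : Bool) (A : Set (V θ q n)) : Set (V θ q n) :=
  {c | ∃ c' ∈ A, W.KS θ q k c c'}

theorem BP.KS_zero (W : BP R n) (θ : PP R) (q : ℕ) (k : Bool) : W.KS θ q k 0 0 :=
  ⟨0, fun _ => rfl, zero_mem (W.rel θ q)⟩

theorem BP.KS.add {W : BP R n} {θ : PP R} {q : ℕ} {k : Bool} {c c' d d' : V θ q n}
    (h : W.KS θ q k c c') (h' : W.KS θ q k d d') : W.KS θ q k (c + d) (c' + d') := by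
  obtain ⟨x, hx, h⟩ := h
  obtain ⟨y, hy, h'⟩ := h'
  exact ⟨x + y, fun e => by rw [hx e, hy e, add_zero], add_mem h h'⟩

theorem BP.KS.neg {W : BP R n} {θ : PP R} {q : ℕ} {k : Bool} {c c' : V θ q n}
    (h : W.KS θ q k c c') : W.KS θ q k (-c) (-c') := by
  obtain ⟨x, hx, h⟩ := h
  exact ⟨-x, fun e => by rw [hx e, neg_zero], neg_mem h⟩

/-- `secS` for subgroups. -/
def BP.sec (W : BP R n) (θ : PP R) (q : ℕ) (S A : AddSubgroup (V θ q n)) : AddSubgroup W.Y where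
  carrier := W.secS θ q S A
  zero_mem' := ⟨0, zero_mem S, 0, zero_mem A, zero_mem (W.rel θ q)⟩
  add_mem' := by
    rintro x y ⟨c, hc, c', hc', h⟩ ⟨d, hd, d', hd', h'⟩
    exact ⟨c + d, add_mem hc hd, c' + d', add_mem hc' hd', add_mem h h'⟩
  neg_mem' := by
    rintro x ⟨c, hc, c', hc', h⟩
    exact ⟨-c, neg_mem hc, -c', neg_mem hc', neg_mem h⟩

/-- `fwdS` for subgroups. -/
def BP.fwd (W : BP R n) (θ : PP R) (q : ℕ) (k : Bool) (S : AddSubgroup (V θ q n)) :
    AddSubgroup (V θ q n) where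
  carrier := W.fwdS θ q k S
  zero_mem' := ⟨0, zero_mem S, W.KS_zero θ q k⟩
  add_mem' := by
    rintro x y ⟨c, hc, h⟩ ⟨d, hd, h'⟩
    exact ⟨c + d, add_mem hc hd, h.add h'⟩
  neg_mem' := by
    rintro x ⟨c, hc, h⟩
    exact ⟨-c, neg_mem hc, h.neg⟩

/-- `bwdS` for subgroups. -/
def BP.bwd (W : BP R n) (θ : PP R) (q : ℕ) (k : Bool) (A : AddSubgroup (V θ q n)) :
    AddSubgroup (V θ q n) where
  carrier := W.bwdS θ q k A
  zero_mem' := ⟨0, zero_mem A, W.KS_zero θ q k⟩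
  add_mem' := by
    rintro x y ⟨c, hc, h⟩ ⟨d, hd, h'⟩
    exact ⟨c + d, add_mem hc hd, h.add h'⟩
  neg_mem' := by
    rintro x ⟨c, hc, h⟩
    exact ⟨-c, neg_mem hc, h.neg⟩

@[simp] theorem BP.coe_sec (W : BP R n) (θ : PP R) (q : ℕ) (S A : AddSubgroup (V θ q n)) :
    (W.sec θ q S A : Set W.Y) = W.secS θ q S A := rfl
@[simp] theorem BP.coe_fwd (W : BP R n) (θ : PP R) (q : ℕ) (k : Bool)
    (S : AddSubgroup (V θ q n)) : (W.fwd θ q k S : Set (V θ q n)) = W.fwdS θ q k S := rfl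
@[simp] theorem BP.coe_bwd (W : BP R n) (θ : PP R) (q : ℕ) (k : Bool)
    (A : AddSubgroup (V θ q n)) : (W.bwd θ q k A : Set (V θ q n)) = W.bwdS θ q k A := rfl

/-- An end as a module marked on the left only. -/
def ptBP (E : Pt R n) : BP R n := { Y := E.Y, l := E.y, r := 0 }

/-- Gluing the right marks of `A` to the left marks of `B`. -/
def BP.glue (A B : BP R n) : BP R n where
  Y := (A.Y × B.Y) ⧸ Submodule.span R (Set.range fun j => ((A.r j, -B.l j) : A.Y × B.Y))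
  l j := Submodule.Quotient.mk (A.l j, 0)
  r j := Submodule.Quotient.mk (0, B.r j)

/-- Two marked modules with the same boundary relations. -/
def Eqv (q : ℕ) (W W' : BP R n) : Prop :=
  ∃ G : AddSubgroup (W.Y × W'.Y), (∀ x, ∃ x', (x, x') ∈ G) ∧ (∀ x', ∃ x, (x, x') ∈ G) ∧
    ∀ x x', (x, x') ∈ G → ∀ (θ : PP R) c c',
      ((x, c, c') ∈ W.rel θ q ↔ (x', c, c') ∈ W'.rel θ q)

/-- `W` is the composite of `W₁` and `W₂`. -/
def Dec (q : ℕ) (W W₁ W₂ : BP R n) : Prop :=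
  ∃ G : AddSubgroup (W.Y × W₁.Y × W₂.Y), (∀ x, ∃ x₁ x₂, (x, x₁, x₂) ∈ G) ∧
    (∀ x₁ x₂, ∃ x, (x, x₁, x₂) ∈ G) ∧
    ∀ x x₁ x₂, (x, x₁, x₂) ∈ G → ∀ (θ : PP R) c c'', ((x, c, c'') ∈ W.rel θ q ↔
      ∃ c', (x₁, c, c') ∈ W₁.rel θ q ∧ (x₂, c', c'') ∈ W₂.rel θ q)

/-- A lower (`b = true`) or upper bound. -/
def bd (b : Bool) (v : ℕ) (x : ℕ∞) : Prop := if b = true then (v : ℕ∞) ≤ x else x ≤ (v : ℕ∞)

/-- The same bound for the index of `B` in `A`, in terms of elements. -/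
def IdxS {M : Type} [AddCommGroup M] (b : Bool) (v : ℕ) (B A : Set M) : Prop :=
  if b = true then ∃ x : Fin v → M, (∀ i, x i ∈ A) ∧ ∀ i j, x i - x j ∈ B → i = j
  else ∃ x : Fin v → M, ∀ a ∈ A, ∃ i, a - x i ∈ B

theorem idxS_iff {M : Type} [AddCommGroup M] {b : Bool} {v : ℕ} {B A : AddSubgroup M} :
    IdxS b v (B : Set M) (A : Set M) ↔ bd b v (eidx B A) := by
  cases b
  · simp only [IdxS, bd, Bool.false_eq_true, if_false, SetLike.mem_coe]
    constructor
    · rintro ⟨x, hx⟩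
      by_contra h
      have h' : ((v + 1 : ℕ) : ℕ∞) ≤ eidx B A := by
        rw [Nat.cast_succ]; exact Order.add_one_le_of_lt (not_le.1 h)
      obtain ⟨y, hy, hinj⟩ := le_eidx_iff.1 h'
      choose f hf using fun i => hx (y i) (hy i)
      have : Function.Injective f := fun i j e => hinj i j (by
        have := sub_mem (hf i) (hf j)
        rwa [e, sub_sub_sub_cancel_right] at this)
      simpa using Fintype.card_le_of_injective f this
    · intro h
      have hfin : Finite (A ⧸ B.addSubgroupOf A) :=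
        eidx_ne_top_iff.1 (ne_top_of_le_ne_top (ENat.natCast_ne_top v) h)
      have hc : Nat.card (A ⧸ B.addSubgroupOf A) ≤ Nat.card (Fin v) := by
        unfold eidx at h
        rw [ENat.card_eq_coe_natCard] at h
        simpa using h
      have := Fintype.ofFinite (A ⧸ B.addSubgroupOf A)
      rw [Nat.card_eq_fintype_card, Nat.card_eq_fintype_card] at hc
      obtain ⟨e⟩ := Function.Embedding.nonempty_of_card_le hc
      choose g hg using fun i : Fin v => QuotientAddGroup.mk_surjective (Function.invFun e i)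
      refine ⟨fun i => g i, fun a ha => ⟨e ((⟨a, ha⟩ : A) : A ⧸ B.addSubgroupOf A), ?_⟩⟩
      have := hg (e ((⟨a, ha⟩ : A) : A ⧸ B.addSubgroupOf A))
      rw [Function.leftInverse_invFun e.injective] at this
      exact (QuotientAddGroup.eq_iff_sub_mem (N := B.addSubgroupOf A)).1 this.symm
  · simp only [IdxS, bd, if_true, SetLike.mem_coe]
    exact le_eidx_iff.symm

/-! ### Codes -/

/-- Matrices as lists of rows. -/
abbrev Mat (R : Type) := List (List R)

/-- Entries of a coded matrix. -/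
def ent (c : Mat R) (i j : ℕ) : R := (c.getD i []).getD j 0

/-- A coded vector. -/
def vec (g : ℕ) (v : List R) : Fin g → R := fun a => v.getD a 0

/-- A coded family of coefficients. -/
def toC (L : PPc R) (n : ℕ) (c : Mat R) : L.toPP.ι → Fin n → R :=
  fun (i : Fin L.length) j => ent c i j

/-- The set of states listed. -/
def im (L : PPc R) (q n : ℕ) (Sl : List (Mat R)) : Set (V L.toPP q n) :=
  {v | ∃ c ∈ Sl, mkV q (toC L n c) = v}

/-- Codes of finite marked modules: generators, modulus, relations, left and right marks. -/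
abbrev FC (R : Type) := ℕ × ℕ × Mat R × Mat R × Mat R

/-- The relations of a coded module. -/
def fsub (W : FC R) : Submodule R (Fin W.1 → R) :=
  Submodule.span R {v | ∃ ρ ∈ W.2.2.1, vec W.1 ρ = v} ⊔
    Submodule.span R (Set.range fun a : Fin W.1 => Pi.single a (W.2.1 : R))

/-- The coded module. -/
def fbp (W : FC R) (n : ℕ) : BP R n where
  Y := (Fin W.1 → R) ⧸ fsub W
  l j := Submodule.Quotient.mk (vec W.1 (W.2.2.2.1.getD j []))
  r j := Submodule.Quotient.mk (vec W.1 (W.2.2.2.2.getD j []))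

/-- Valid codes. -/
def FOk (q n : ℕ) (W : FC R) : Prop := 0 < q ∧ 0 < W.2.1 ∧ (fbp W n).Kil q

def FwdC (q n : ℕ) (W : FC R) (L : PPc R) (k : Bool) (S S' : List (Mat R)) : Prop :=
  FOk q n W ∧ im L q n S' = (fbp W n).fwdS L.toPP q k (im L q n S)

def BwdC (q n : ℕ) (W : FC R) (L : PPc R) (k : Bool) (A A' : List (Mat R)) : Prop :=
  FOk q n W ∧ im L q n A' = (fbp W n).bwdS L.toPP q k (im L q n A)

def IdxC (q n : ℕ) (W : FC R) (φ : PPc R) (S A : List (Mat R)) (ψ : PPc R)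
    (S' A' : List (Mat R)) (b : Bool) (v : ℕ) : Prop :=
  FOk q n W ∧ IdxS b v ((fbp W n).secS ψ.toPP q (im ψ q n S') (im ψ q n A'))
    ((fbp W n).secS φ.toPP q (im φ q n S) (im φ q n A))

def UnivC (q n : ℕ) (L : PPc R) (S : List (Mat R)) : Prop := 0 < q ∧ im L q n S = Set.univ

def ImC (q n : ℕ) (L : PPc R) (S : List (Mat R)) (c : Mat R) : Prop :=
  mkV q (toC L n c) ∈ im L q n S

/-- A claim on the states of an end. -/
abbrev TItem (R : Type) := PPc R × Bool × List (Mat R)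

/-- A claim on an index in an end. -/
abbrev IItem (R : Type) := (PPc R × List (Mat R)) × (PPc R × List (Mat R)) × Bool × ℕ

def EndT (q : ℕ) (E : BP R n) (ts : List (TItem R)) : Prop :=
  ∀ t ∈ ts, im t.1 q n t.2.2 = E.bwdS t.1.toPP q t.2.1 Set.univ

def EndI (q : ℕ) (E : BP R n) (is : List (IItem R)) : Prop :=
  ∀ i ∈ is, ∀ (S : AddSubgroup (V i.1.1.toPP q n)) (S' : AddSubgroup (V i.2.1.1.toPP q n)),
    im i.1.1 q n i.1.2 = S → im i.2.1.1 q n i.2.1.2 = S' →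
    E.sec i.2.1.1.toPP q S' ⊤ ≤ E.sec i.1.1.toPP q S ⊤ →
    bd i.2.2.1 i.2.2.2 (eidx (E.sec i.2.1.1.toPP q S' ⊤) (E.sec i.1.1.toPP q S ⊤))

def EndI' (q : ℕ) (E : BP R n) (is : List (IItem R)) : Prop :=
  ∀ i ∈ is, ∃ (S : AddSubgroup (V i.1.1.toPP q n)) (S' : AddSubgroup (V i.2.1.1.toPP q n)),
    im i.1.1 q n i.1.2 = S ∧ im i.2.1.1 q n i.2.1.2 = S' ∧
    E.sec i.2.1.1.toPP q S' ⊤ ≤ E.sec i.1.1.toPP q S ⊤ ∧
    bd i.2.2.1 i.2.2.2 (eidx (E.sec i.2.1.1.toPP q S' ⊤) (E.sec i.1.1.toPP q S ⊤))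

/-- The claims realised by ends of a given kind are recursively enumerable. -/
def EndRE (R : Type) [Ring R] [Primcodable R] (Kd : ∀ (_ n : ℕ), Pt R n → Prop) : Prop :=
  ∃ C : ℕ × ℕ × List (TItem R) × List (IItem R) → Prop, S1 C ∧
    (∀ q n ts is, 0 < q → C (q, n, ts, is) →
      ∃ E : Pt R n, Kd q n E ∧ EndT q (ptBP E) ts ∧ EndI q (ptBP E) is) ∧
    ∀ q n ts is (E : Pt R n), 0 < q → Kd q n E → EndT q (ptBP E) ts → EndI' q (ptBP E) is →
      C (q, n, ts, is)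

def KTail (R : Type) [Ring R] (q n : ℕ) (E : Pt R n) : Prop :=
  ∃ T : Tail R n, (∀ k i, (q : R) • T.l k i = 0 ∧ (q : R) • T.r k i = 0) ∧ E = T.pt

def KAdic (R : Type) [Ring R] (q n : ℕ) (E : Pt R n) : Prop :=
  ∃ (P : PData R (q : R) n) (hy : ∀ i, P.y i * P.t - P.y i ∈ P.I), (∀ i, P.y i * q ∈ P.I) ∧
    E = P.adic hy

def KPruf (R : Type) [Ring R] (q n : ℕ) (E : Pt R n) : Prop :=
  ∃ (P : PData R (q : R) n) (hy : ∀ i, P.y i * P.t - P.y i ∈ P.lev 1), E = P.prufer hy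

/-! ### Tails -/

/-- The states accepted by the periodic tail with piece `W`. -/
def tA (q : ℕ) (W : BP R n) (s : Bool) (θ : PP R) (k : Bool) : Set (V θ q n) :=
  W.bwdS θ q k (if s = true then {0} else Set.univ)

/-- The certificate for the tail `W₀ W W W ...` of type `s`. -/
def TailCert (q : ℕ) (W₀ W : BP R n) (s : Bool) (ts : List (TItem R)) (is : List (IItem R)) :
    Prop :=
  (∀ t ∈ ts, W.bwdS t.1.toPP q t.2.1 (tA q W s t.1.toPP t.2.1) = tA q W s t.1.toPP t.2.1 ∧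
    im t.1 q n t.2.2 = W₀.bwdS t.1.toPP q t.2.1 (tA q W s t.1.toPP t.2.1)) ∧
  ∀ i ∈ is,
    W.bwdS i.1.1.toPP q (!s) (tA q W s i.1.1.toPP (!s)) = tA q W s i.1.1.toPP (!s) ∧
    W.bwdS i.2.1.1.toPP q (!s) (tA q W s i.2.1.1.toPP (!s)) = tA q W s i.2.1.1.toPP (!s) ∧
    W.fwdS i.1.1.toPP q s (W₀.fwdS i.1.1.toPP q s (im i.1.1 q n i.1.2)) =
      W₀.fwdS i.1.1.toPP q s (im i.1.1 q n i.1.2) ∧
    W.fwdS i.2.1.1.toPP q s (W₀.fwdS i.2.1.1.toPP q s (im i.2.1.1 q n i.2.1.2)) =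
      W₀.fwdS i.2.1.1.toPP q s (im i.2.1.1 q n i.2.1.2) ∧
    IdxS i.2.2.1 i.2.2.2
      (W₀.secS i.2.1.1.toPP q (im i.2.1.1 q n i.2.1.2) (tA q W s i.2.1.1.toPP (!s)))
      (W₀.secS i.1.1.toPP q (im i.1.1 q n i.1.2) (tA q W s i.1.1.toPP (!s))) ∧
    (i.2.2.1 = false → IdxS false 1
      (W.secS i.2.1.1.toPP q (W₀.fwdS i.2.1.1.toPP q s (im i.2.1.1 q n i.2.1.2))
        (tA q W s i.2.1.1.toPP (!s)))
      (W.secS i.1.1.toPP q (W₀.fwdS i.1.1.toPP q s (im i.1.1 q n i.1.2))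
        (tA q W s i.1.1.toPP (!s))))

/-! ### Cyclic modules -/

/-- The formula with boundary terms in the cyclic module `R / U` marked by `y`. -/
def Sol (θ : PP R) (U : Submodule R R) (y : Fin n → R) (X : R) (c : θ.ι → Fin n → R) : Prop :=
  ∃ w : θ.κ → R, ∀ i, θ.h i * X + ∑ k, θ.H i k * w k + ∑ j, c i j * y j ∈ U

def SolS (θ : PP R) (q : ℕ) (U : Submodule R R) (y : Fin n → R) (S : Set (V θ q n)) (X : R) :
    Prop := ∃ c, mkV q c ∈ S ∧ Sol θ U y X c

/-- The left ideal generated by a list. -/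
def spanL (g : List R) : Submodule R R := Submodule.span R {x | x ∈ g}

/-- The left ideal generated by a list and a natural number. -/
def cU (g : List R) (Q : ℕ) : Submodule R R := spanL g ⊔ Submodule.span R {(Q : R)}

def InC (g : List R) (Q : ℕ) (x : R) : Prop := x ∈ cU g Q

def SolC (q n : ℕ) (L : PPc R) (g : List R) (Q : ℕ) (y : List R) (S : List (Mat R)) (X : R) :
    Prop := SolS L.toPP q (cU g Q) (vec n y) (im L q n S) X

def NSolC (q n : ℕ) (L : PPc R) (g : List R) (Q : ℕ) (y : List R) (S : List (Mat R)) (X : R) :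
    Prop := 0 < Q ∧ (∀ j, vec n y j * (q : R) ∈ cU g Q) ∧ ¬ SolC q n L g Q y S X

/-- The preimage of the pp subgroup of `R / U`. -/
def Psi (θ : PP R) (U : Submodule R R) : AddSubgroup R where
  carrier := {X | ∃ w : θ.κ → R, ∀ i, θ.h i * X + ∑ k, θ.H i k * w k ∈ U}
  zero_mem' := ⟨0, by simp⟩
  add_mem' := by
    rintro x y ⟨w, hw⟩ ⟨w', hw'⟩
    refine ⟨w + w', fun i => ?_⟩
    have := add_mem (hw i) (hw' i)
    simp only [Pi.add_apply, mul_add, Finset.sum_add_distrib]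
    convert this using 1
    abel
  neg_mem' := by
    rintro x ⟨w, hw⟩
    refine ⟨-w, fun i => ?_⟩
    have := neg_mem (hw i)
    simp only [Pi.neg_apply, mul_neg, Finset.sum_neg_distrib]
    convert this using 1
    abel

/-- Right hand sides which can be solved modulo `I`, with `X` free or zero. -/
def Kth (θ : PP R) (k : Bool) (I : Submodule R R) : AddSubgroup (θ.ι → R) where
  carrier := {v | ∃ (X : R) (w : θ.κ → R), (k = false → X = 0) ∧
    ∀ i, θ.h i * X + ∑ k, θ.H i k * w k - v i ∈ I}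
  zero_mem' := ⟨0, 0, fun _ => rfl, by simp⟩
  add_mem' := by
    rintro x y ⟨X, w, hX, hw⟩ ⟨X', w', hX', hw'⟩
    refine ⟨X + X', w + w', fun e => by rw [hX e, hX' e, add_zero], fun i => ?_⟩
    have := add_mem (hw i) (hw' i)
    simp only [Pi.add_apply, mul_add, Finset.sum_add_distrib]
    convert this using 1
    abel
  neg_mem' := by
    rintro x ⟨X, w, hX, hw⟩
    refine ⟨-X, -w, fun e => by rw [hX e, neg_zero], fun i => ?_⟩
    have := neg_mem (hw i)
    simp only [Pi.neg_apply, mul_neg, Finset.sum_neg_distrib]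
    convert this using 1
    abel

/-- `q ^ j` kills the `q`-power torsion of `M / K`. -/
def TB {M : Type} [AddCommGroup M] (q : ℕ) (K : AddSubgroup M) (j : ℕ) : Prop :=
  ∀ (a : ℕ) (v : M), q ^ a • v ∈ K → q ^ j • v ∈ K

/-- `t ^ K` is idempotent at level `l`. -/
def Idem {q : R} (P : PData R q n) (l K : ℕ) : Prop :=
  0 < K ∧ P.t ^ (2 * K) - P.t ^ K ∈ P.lev l

/-- The certificate that `φ / ψ` has bounded exponent on the stable part. -/
def EC (φ ψ : PP R) (q : ℕ) (I : Submodule R R) (t : R) (a : ℕ) : Prop :=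
  ∃ (s k : ℕ) (E : R) (u : φ.ι → R), (∀ c, ∑ i, u i * φ.H i c = 0) ∧
    ∑ i, u i * φ.h i = ((q ^ a * (1 + q * s) : ℕ) : R) - E ∧
    ∀ z : R, ∃ z' : R, E * z * t ^ k - (q : R) * (E * z') ∈ Psi ψ I

def ECC (q : ℕ) (φ ψ : PPc R) (g : List R) (t : R) (a : ℕ) : Prop :=
  EC φ.toPP ψ.toPP q (spanL g) t a

end Pool.Agent.Lib.MP_c13fce_lc.NRE
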