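import Pool.Agent.Lib.MP_c13fce_lc.NRE0

/-! Block B: composition of marked modules. -/

namespace Pool.Agent.Lib.MP_c13fce_lc.NRE

variable {R : Type} [Ring R] {n : ℕ}

section idx
variable {M M₁ M₂ : Type} [AddCommGroup M] [AddCommGroup M₁] [AddCommGroup M₂]

theorem eidx_of_rel (G : AddSubgroup (M₁ × M₂)) (h₁ : ∀ x, ∃ x', (x, x') ∈ G)
    (h₂ : ∀ x', ∃ x, (x, x') ∈ G) {A B : AddSubgroup M₁} {A' B' : AddSubgroup M₂}
    (hA : ∀ x x', (x, x') ∈ G → (x ∈ A ↔ x' ∈ A'))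
    (hB : ∀ x x', (x, x') ∈ G → (x ∈ B ↔ x' ∈ B')) : eidx B A = eidx B' A' := by
  have s₁ : Function.Surjective ((AddMonoidHom.fst M₁ M₂).comp G.subtype) := fun x => by
    obtain ⟨x', h⟩ := h₁ x
    exact ⟨⟨_, h⟩, rfl⟩
  have s₂ : Function.Surjective ((AddMonoidHom.snd M₁ M₂).comp G.subtype) := fun x => by
    obtain ⟨x', h⟩ := h₂ x
    exact ⟨⟨_, h⟩, rfl⟩
  rw [← eidx_comap _ s₁, ← eidx_comap _ s₂]
  congr 1
  · exact AddSubgroup.ext fun z => hB z.1.1 z.1.2 z.2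
  · exact AddSubgroup.ext fun z => hA z.1.1 z.1.2 z.2

theorem eidx_split (f : M →+ M₂) (i : M₁ →+ M) (hi : ∀ x, f x = 0 ↔ ∃ y, i y = x)
    {A B : AddSubgroup M} (h : B ≤ A) :
    eidx B A = eidx (B.comap i) (A.comap i) * eidx (B.map f) (A.map f) := by
  rw [eidx_mul (B := A ⊓ f.ker ⊔ B) le_sup_right (sup_le inf_le_left h), eidx_sup]
  congr 1
  · refine (eidx_eq_of_map i (A := A.comap i) (B := B.comap i) (A' := A ⊓ f.ker) (B' := B)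
      (fun x hx => ⟨hx, (hi _).2 ⟨x, rfl⟩⟩) (fun _ _ => Iff.rfl) ?_).symm
    rintro y ⟨hy, hy'⟩
    obtain ⟨x, rfl⟩ := (hi y).1 hy'
    exact ⟨x, hy, by simp⟩
  · refine eidx_eq_of_map f (fun x hx => ⟨x, hx, rfl⟩) (fun x hx => ⟨?_, fun hx' => ?_⟩) ?_
    · rintro ⟨y, hy, e⟩
      refine AddSubgroup.mem_sup.2 ⟨x - y, ⟨A.sub_mem hx (h hy), ?_⟩, y, hy, by abel⟩
      change f (x - y) = 0
      rw [map_sub, e, sub_self]
    · obtain ⟨u, hu, v, hv, rfl⟩ := AddSubgroup.mem_sup.1 hx'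
      have : f u = 0 := hu.2
      exact ⟨v, hv, by rw [map_add, this, zero_add]⟩
    · rintro _ ⟨x, hx, rfl⟩
      exact ⟨x, hx, by simp⟩

end idx

variable {q : ℕ} {W W' W₁ W₂ W₃ : BP R n}

theorem glue_rel (h : (∀ j, (q : R) • W₁.r j = 0) ∨ ∀ j, (q : R) • W₂.l j = 0) (x₁ : W₁.Y)
    (x₂ : W₂.Y) (θ : PP R) (c c'' : V θ q n) :
    ((Submodule.Quotient.mk (x₁, x₂) : (W₁.glue W₂).Y), c, c'') ∈ (W₁.glue W₂).rel θ q ↔
      ∃ c', (x₁, c, c') ∈ W₁.rel θ q ∧ (x₂, c', c'') ∈ W₂.rel θ q := by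
  have key : ∀ (d d'' : θ.ι → Fin n → R) (w : θ.κ → W₁.Y × W₂.Y) (i : θ.ι),
      (θ.h i • (Submodule.Quotient.mk (x₁, x₂) : (W₁.glue W₂).Y) +
        ∑ k, θ.H i k • (Submodule.Quotient.mk (w k) : (W₁.glue W₂).Y) =
        ∑ j, d'' i j • (W₁.glue W₂).r j - ∑ j, d i j • (W₁.glue W₂).l j) ↔ ∃ d' : Fin n → R,
        (θ.h i • x₁ + ∑ k, θ.H i k • (w k).1 = ∑ j, d' j • W₁.r j - ∑ j, d i j • W₁.l j) ∧
        (θ.h i • x₂ + ∑ k, θ.H i k • (w k).2 = ∑ j, d'' i j • W₂.r j - ∑ j, d' j • W₂.l j) := by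
    intro d d'' w i
    let p := (Submodule.span R (Set.range fun j => ((W₁.r j, -W₂.l j) : W₁.Y × W₂.Y))).mkQ
    change (θ.h i • p (x₁, x₂) + ∑ k, θ.H i k • p (w k) =
      ∑ j, d'' i j • p (0, W₂.r j) - ∑ j, d i j • p (W₁.l j, 0)) ↔ _
    simp only [← map_smul, ← map_sum, ← map_add, ← map_sub]
    rw [Submodule.mkQ_apply, Submodule.mkQ_apply, Submodule.Quotient.eq,
      Submodule.mem_span_range_iff_exists_fun]
    refine exists_congr fun d' => ?_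
    simp only [Prod.ext_iff, Prod.fst_sum, Prod.snd_sum, Prod.fst_add, Prod.snd_add, Prod.fst_sub,
      Prod.snd_sub, Prod.smul_fst, Prod.smul_snd, smul_zero, Finset.sum_const_zero, smul_neg,
      Finset.sum_neg_distrib]
    constructor
    · rintro ⟨a, b⟩
      exact ⟨by linear_combination (norm := abel) -a, by linear_combination (norm := abel) -b⟩
    · rintro ⟨a, b⟩
      exact ⟨by linear_combination (norm := abel) -a, by linear_combination (norm := abel) -b⟩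
  constructor
  · rintro ⟨d, d'', rfl, rfl, w, hw⟩
    choose w' hw' using fun k => Submodule.Quotient.mk_surjective _ (w k)
    obtain rfl : w = fun k => Submodule.Quotient.mk (w' k) := funext fun k => (hw' k).symm
    choose d' h₁ h₂ using fun i => (key d d'' w' i).1 (hw i)
    exact ⟨mkV q d', ⟨d, d', rfl, rfl, _, h₁⟩, ⟨d', d'', rfl, rfl, _, h₂⟩⟩
  · rintro ⟨c', ⟨d, d₁, rfl, rfl, w₁, h₁⟩, ⟨d₂, d'', e, rfl, w₂, h₂⟩⟩
    refine ⟨d, d'', rfl, rfl, fun k => Submodule.Quotient.mk (w₁ k, w₂ k), fun i =>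
      (key d d'' (fun k => (w₁ k, w₂ k)) i).2 ?_⟩
    rcases h with h | h
    · exact ⟨d₂ i, by rw [sum_congr_kil h (mkV_eq.1 e i)]; exact h₁ i, h₂ i⟩
    · exact ⟨d₁ i, h₁ i, by rw [← sum_congr_kil h (mkV_eq.1 e i)]; exact h₂ i⟩

/-- The graph of the quotient map onto a glued module. -/
def glueG (W₁ W₂ : BP R n) : AddSubgroup ((W₁.glue W₂).Y × W₁.Y × W₂.Y) where
  carrier := {z | z.1 = Submodule.Quotient.mk z.2}
  zero_mem' := rfl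
  add_mem' := fun {a b} ha hb => by
    change a.1 + b.1 = _
    rw [ha, hb]; rfl
  neg_mem' := fun {a} ha => by
    change -a.1 = _
    rw [ha]; rfl

theorem dec_glue' (h : (∀ j, (q : R) • W₁.r j = 0) ∨ ∀ j, (q : R) • W₂.l j = 0) :
    Dec q (W₁.glue W₂) W₁ W₂ := by
  refine ⟨glueG W₁ W₂, fun x => ?_, fun x₁ x₂ => ⟨Submodule.Quotient.mk (x₁, x₂), rfl⟩, ?_⟩
  · obtain ⟨z, rfl⟩ := Submodule.Quotient.mk_surjective _ x
    exact ⟨z.1, z.2, rfl⟩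
  · rintro x x₁ x₂ (rfl : x = Submodule.Quotient.mk (x₁, x₂)) θ c c''
    exact glue_rel h x₁ x₂ θ c c''

theorem dec_glue (h₁ : W₁.Kil q) : Dec q (W₁.glue W₂) W₁ W₂ := dec_glue' (.inl fun j => (h₁ j).2)

theorem BP.Kil.glue (h₁ : W₁.Kil q) (h₂ : W₂.Kil q) : (W₁.glue W₂).Kil q := fun j => by
  constructor
  · change (Submodule.Quotient.mk ((q : R) • ((W₁.l j, 0) : W₁.Y × W₂.Y)) : (W₁.glue W₂).Y) = 0
    rw [Prod.smul_mk, (h₁ j).1, smul_zero]; rfl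
  · change (Submodule.Quotient.mk ((q : R) • ((0, W₂.r j) : W₁.Y × W₂.Y)) : (W₁.glue W₂).Y) = 0
    rw [Prod.smul_mk, (h₂ j).2, smul_zero]; rfl

instance [Finite W₁.Y] [Finite W₂.Y] : Finite (W₁.glue W₂).Y :=
  Finite.of_surjective _ (Submodule.Quotient.mk_surjective _)

theorem Dec.assoc (h₁ : W₁.Kil q) (h : Dec q W W₁ W') (h' : Dec q W' W₂ W₃) :
    Dec q W (W₁.glue W₂) W₃ := by
  obtain ⟨G, g₁, g₂, g₃⟩ := h
  obtain ⟨G', g₁', g₂', g₃'⟩ := h'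
  let H : AddSubgroup (W.Y × (W₁.glue W₂).Y × W₃.Y) :=
    { carrier := {z | ∃ x₁ x' x₂, (z.1, x₁, x') ∈ G ∧ (x', x₂, z.2.2) ∈ G' ∧
        z.2.1 = Submodule.Quotient.mk (x₁, x₂)}
      zero_mem' := ⟨0, 0, 0, zero_mem G, zero_mem G', rfl⟩
      add_mem' := by
        rintro ⟨x, _, x₃⟩ ⟨y, _, y₃⟩ ⟨x₁, x', x₂, a, b, rfl⟩ ⟨y₁, y', y₂, a', b', rfl⟩
        exact ⟨x₁ + y₁, x' + y', x₂ + y₂, add_mem a a', add_mem b b', rfl⟩
      neg_mem' := by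
        rintro ⟨x, _, x₃⟩ ⟨x₁, x', x₂, a, b, rfl⟩
        exact ⟨-x₁, -x', -x₂, neg_mem a, neg_mem b, rfl⟩ }
  refine ⟨H, fun x => ?_, fun u x₃ => ?_, ?_⟩
  · obtain ⟨x₁, x', a⟩ := g₁ x
    obtain ⟨x₂, x₃, b⟩ := g₁' x'
    exact ⟨_, x₃, x₁, x', x₂, a, b, rfl⟩
  · obtain ⟨⟨x₁, x₂⟩, rfl⟩ := Submodule.Quotient.mk_surjective _ u
    obtain ⟨x', b⟩ := g₂' x₂ x₃
    obtain ⟨x, a⟩ := g₂ x₁ x'
    exact ⟨x, x₁, x', x₂, a, b, rfl⟩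
  · rintro x _ x₃ ⟨x₁, x', x₂, a, b, rfl⟩ θ c c''
    rw [g₃ x x₁ x' a]
    simp only [g₃' x' x₂ x₃ b]
    constructor
    · rintro ⟨c₁, u, c₂, v, w⟩
      exact ⟨c₂, (glue_rel (.inl fun j => (h₁ j).2) x₁ x₂ θ c c₂).2 ⟨c₁, u, v⟩, w⟩
    · rintro ⟨c₂, u, w⟩
      obtain ⟨c₁, u, v⟩ := (glue_rel (.inl fun j => (h₁ j).2) x₁ x₂ θ c c₂).1 u
      exact ⟨c₁, u, c₂, v, w⟩

theorem Dec.KS (h : Dec q W W₁ W₂) (θ : PP R) (k : Bool) (c c'' : V θ q n) :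
    W.KS θ q k c c'' ↔ ∃ c', W₁.KS θ q k c c' ∧ W₂.KS θ q k c' c'' := by
  obtain ⟨G, g₁, g₂, g₃⟩ := h
  cases k
  · have := g₃ 0 0 0 (zero_mem G) θ c c''
    simpa [BP.KS] using this
  · constructor
    · rintro ⟨x, -, hx⟩
      obtain ⟨x₁, x₂, a⟩ := g₁ x
      obtain ⟨c', u, v⟩ := (g₃ x x₁ x₂ a θ c c'').1 hx
      exact ⟨c', ⟨x₁, nofun, u⟩, ⟨x₂, nofun, v⟩⟩
    · rintro ⟨c', ⟨x₁, -, u⟩, ⟨x₂, -, v⟩⟩
      obtain ⟨x, a⟩ := g₂ x₁ x₂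
      exact ⟨x, nofun, (g₃ x x₁ x₂ a θ c c'').2 ⟨c', u, v⟩⟩

theorem Dec.bwdS (h : Dec q W W₁ W₂) (θ : PP R) (k : Bool) (A : Set (V θ q n)) :
    W.bwdS θ q k A = W₁.bwdS θ q k (W₂.bwdS θ q k A) := by
  ext c
  simp only [BP.bwdS, Set.mem_ofPred_eq, h.KS]
  constructor
  · rintro ⟨c'', a, c', u, v⟩
    exact ⟨c', ⟨c'', a, v⟩, u⟩
  · rintro ⟨c', ⟨c'', a, v⟩, u⟩
    exact ⟨c'', a, c', u, v⟩

theorem Dec.fwdS (h : Dec q W W₁ W₂) (θ : PP R) (k : Bool) (S : Set (V θ q n)) :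
    W.fwdS θ q k S = W₂.fwdS θ q k (W₁.fwdS θ q k S) := by
  ext c
  simp only [BP.fwdS, Set.mem_ofPred_eq, h.KS]
  constructor
  · rintro ⟨c'', a, c', u, v⟩
    exact ⟨c', ⟨c'', a, u⟩, v⟩
  · rintro ⟨c', ⟨c'', a, u⟩, v⟩
    exact ⟨c'', a, c', u, v⟩

/-- Solutions in the composite, as pairs. -/
def cs (W₁ W₂ : BP R n) (θ : PP R) (q : ℕ) (S A : AddSubgroup (V θ q n)) :
    AddSubgroup (W₁.Y × W₂.Y) where
  carrier := {z | ∃ c ∈ S, ∃ c'' ∈ A, ∃ c', (z.1, c, c') ∈ W₁.rel θ q ∧ (z.2, c', c'') ∈ W₂.rel θ q}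
  zero_mem' := ⟨0, zero_mem S, 0, zero_mem A, 0, zero_mem (W₁.rel θ q), zero_mem (W₂.rel θ q)⟩
  add_mem' := by
    rintro x y ⟨c, hc, c'', hc'', c', u, v⟩ ⟨d, hd, d'', hd'', d', u', v'⟩
    exact ⟨c + d, add_mem hc hd, c'' + d'', add_mem hc'' hd'', c' + d', add_mem u u', add_mem v v'⟩
  neg_mem' := by
    rintro x ⟨c, hc, c'', hc'', c', u, v⟩
    exact ⟨-c, neg_mem hc, -c'', neg_mem hc'', -c', neg_mem u, neg_mem v⟩

section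
variable (θ : PP R) (S A : AddSubgroup (V θ q n))

theorem cs_inl : (cs W₁ W₂ θ q S A).comap (AddMonoidHom.inl _ _) =
    W₁.sec θ q S (W₂.bwd θ q false A) := by
  ext x
  constructor
  · rintro ⟨c, hc, c'', hc'', c', u, v⟩
    exact ⟨c, hc, c', ⟨c'', hc'', 0, fun _ => rfl, v⟩, u⟩
  · rintro ⟨c, hc, c', ⟨c'', hc'', y, hy, v⟩, u⟩
    obtain rfl := hy rfl
    exact ⟨c, hc, c'', hc'', c', u, v⟩

theorem cs_inr : (cs W₁ W₂ θ q S A).comap (AddMonoidHom.inr _ _) =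
    W₂.sec θ q (W₁.fwd θ q false S) A := by
  ext x
  constructor
  · rintro ⟨c, hc, c'', hc'', c', u, v⟩
    exact ⟨c', ⟨c, hc, 0, fun _ => rfl, u⟩, c'', hc'', v⟩
  · rintro ⟨c', ⟨c, hc, y, hy, u⟩, c'', hc'', v⟩
    obtain rfl := hy rfl
    exact ⟨c, hc, c'', hc'', c', u, v⟩

theorem cs_fst : (cs W₁ W₂ θ q S A).map (AddMonoidHom.fst _ _) =
    W₁.sec θ q S (W₂.bwd θ q true A) := by
  ext x
  constructor
  · rintro ⟨⟨x, y⟩, ⟨c, hc, c'', hc'', c', u, v⟩, rfl⟩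
    exact ⟨c, hc, c', ⟨c'', hc'', y, nofun, v⟩, u⟩
  · rintro ⟨c, hc, c', ⟨c'', hc'', y, -, v⟩, u⟩
    exact ⟨(x, y), ⟨c, hc, c'', hc'', c', u, v⟩, rfl⟩

theorem cs_snd : (cs W₁ W₂ θ q S A).map (AddMonoidHom.snd _ _) =
    W₂.sec θ q (W₁.fwd θ q true S) A := by
  ext x
  constructor
  · rintro ⟨⟨y, x⟩, ⟨c, hc, c'', hc'', c', u, v⟩, rfl⟩
    exact ⟨c', ⟨c, hc, y, nofun, u⟩, c'', hc'', v⟩
  · rintro ⟨c', ⟨c, hc, y, -, u⟩, c'', hc'', v⟩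
    exact ⟨(y, x), ⟨c, hc, c'', hc'', c', u, v⟩, rfl⟩

end

theorem Dec.idx (h : Dec q W W₁ W₂) (k : Bool) {φ ψ : PP R} {S A : AddSubgroup (V φ q n)}
    {S' A' : AddSubgroup (V ψ q n)} (hle : W.sec ψ q S' A' ≤ W.sec φ q S A) :
    W₁.sec ψ q S' (W₂.bwd ψ q k A') ≤ W₁.sec φ q S (W₂.bwd φ q k A) ∧
    W₂.sec ψ q (W₁.fwd ψ q (!k) S') A' ≤ W₂.sec φ q (W₁.fwd φ q (!k) S) A ∧
    eidx (W.sec ψ q S' A') (W.sec φ q S A) =
      eidx (W₁.sec ψ q S' (W₂.bwd ψ q k A')) (W₁.sec φ q S (W₂.bwd φ q k A)) *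
        eidx (W₂.sec ψ q (W₁.fwd ψ q (!k) S') A') (W₂.sec φ q (W₁.fwd φ q (!k) S) A) := by
  obtain ⟨G, g₁, g₂, g₃⟩ := h
  have hm : ∀ (θ : PP R) (S A : AddSubgroup (V θ q n)) x z, (x, z) ∈ G →
      (x ∈ W.sec θ q S A ↔ z ∈ cs W₁ W₂ θ q S A) := fun θ S A x z hz => by
    change (∃ c ∈ S, ∃ c'' ∈ A, (x, c, c'') ∈ W.rel θ q) ↔ _
    simp only [g₃ x z.1 z.2 hz]
    rfl
  have hle' : cs W₁ W₂ ψ q S' A' ≤ cs W₁ W₂ φ q S A := fun z hz => by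
    obtain ⟨x, a⟩ := g₂ z.1 z.2
    exact (hm _ _ _ x z a).1 (hle ((hm _ _ _ x z a).2 hz))
  rw [eidx_of_rel G (fun x => by obtain ⟨a, b, h⟩ := g₁ x; exact ⟨(a, b), h⟩)
    (fun z => g₂ z.1 z.2) (hm φ S A) (hm ψ S' A')]
  cases k
  · simp only [Bool.not_false, ← cs_inl, ← cs_snd]
    refine ⟨AddSubgroup.comap_mono hle', AddSubgroup.map_mono hle', eidx_split _ _ ?_ hle'⟩
    rintro ⟨a, b⟩
    simp [eq_comm]
  · simp only [Bool.not_true, ← cs_inr, ← cs_fst]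
    refine ⟨AddSubgroup.map_mono hle', AddSubgroup.comap_mono hle', ?_⟩
    rw [mul_comm]
    refine eidx_split _ _ ?_ hle'
    rintro ⟨a, b⟩
    simp [eq_comm]

/-- Limits along the hyperfilter (replaces Koenig and the pigeonhole principle). -/
theorem exists_ulim {β : Type} [Finite β] (f : ℕ → β) :
    ∃ b, ∀ᶠ m in (Filter.hyperfilter ℕ : Filter ℕ), f m = b := by
  obtain ⟨b, hb⟩ := Ultrafilter.eq_pure_of_finite ((Filter.hyperfilter ℕ).map f)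
  refine ⟨b, ?_⟩
  have : {b} ∈ (Filter.hyperfilter ℕ).map f := by rw [hb]; simp
  exact this

theorem ulim_ge (k : ℕ) : ∀ᶠ m in (Filter.hyperfilter ℕ : Filter ℕ), k ≤ m :=
  (Filter.eventually_ge_atTop k).filter_mono Nat.hyperfilter_le_atTop

/-! Transport along `Eqv`. -/

theorem Eqv.KS (h : Eqv q W W') (θ : PP R) (k : Bool) : W.KS θ q k = W'.KS θ q k := by
  obtain ⟨G, g₁, g₂, g₃⟩ := h
  funext c c'
  apply propext
  cases k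
  · simpa [BP.KS] using g₃ 0 0 (zero_mem G) θ c c'
  · constructor
    · rintro ⟨x, -, hx⟩
      obtain ⟨x', a⟩ := g₁ x
      exact ⟨x', nofun, (g₃ x x' a θ c c').1 hx⟩
    · rintro ⟨x', -, hx⟩
      obtain ⟨x, a⟩ := g₂ x'
      exact ⟨x, nofun, (g₃ x x' a θ c c').2 hx⟩

theorem Eqv.bwdS (h : Eqv q W W') (θ : PP R) (k : Bool) : W.bwdS θ q k = W'.bwdS θ q k := by
  funext A; simp only [BP.bwdS, h.KS]

theorem Eqv.fwdS (h : Eqv q W W') (θ : PP R) (k : Bool) : W.fwdS θ q k = W'.fwdS θ q k := by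
  funext A; simp only [BP.fwdS, h.KS]

theorem Eqv.idxS (h : Eqv q W W') {φ ψ : PP R} {S A : Set (V φ q n)} {S' A' : Set (V ψ q n)}
    {b : Bool} {v : ℕ} (hi : IdxS b v (W.secS ψ q S' A') (W.secS φ q S A)) :
    IdxS b v (W'.secS ψ q S' A') (W'.secS φ q S A) := by
  obtain ⟨G, g₁, g₂, g₃⟩ := h
  have hm : ∀ (θ : PP R) (S A : Set (V θ q n)) x x', (x, x') ∈ G →
      (x ∈ W.secS θ q S A ↔ x' ∈ W'.secS θ q S A) := fun θ S A x x' a => by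
    simp only [BP.secS, Set.mem_ofPred_eq, g₃ x x' a]
  choose f hf using g₁
  cases b
  · obtain ⟨x, hx⟩ : ∃ x : Fin v → W.Y, ∀ a ∈ W.secS φ q S A, ∃ i, a - x i ∈ W.secS ψ q S' A' := hi
    refine ⟨fun i => f (x i), fun a' ha' => ?_⟩
    obtain ⟨a, g⟩ := g₂ a'
    obtain ⟨i, hi⟩ := hx a ((hm _ _ _ _ _ g).2 ha')
    exact ⟨i, (hm _ _ _ _ _ (sub_mem g (hf (x i)))).1 hi⟩
  · obtain ⟨x, hx, hinj⟩ : ∃ x : Fin v → W.Y, (∀ i, x i ∈ W.secS φ q S A) ∧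
      ∀ i j, x i - x j ∈ W.secS ψ q S' A' → i = j := hi
    exact ⟨fun i => f (x i), fun i => (hm _ _ _ _ _ (hf _)).1 (hx i), fun i j h =>
      hinj i j ((hm _ _ _ _ _ (sub_mem (hf (x i)) (hf (x j)))).2 h)⟩

end Pool.Agent.Lib.MP_c13fce_lc.NRE
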