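import Pool.Agent.Lib.MP_c13fce_lc.NRE1

/-! Block B: conjunction of codes, the index of a glued module, bounds. -/

namespace Pool.Agent.Lib.MP_c13fce_lc.NRE

variable {R : Type} [Ring R] {n : ℕ}

section andc
variable {M : Type} [AddCommGroup M] [Module R M]

/-- Pairing of a list of coefficients with a sequence. -/
def dot : List R → (ℕ → M) → M
  | [], _ => 0
  | a :: t, w => a • w 0 + dot t fun k => w (k + 1)

theorem dot_eq_sum (t : List R) (w : ℕ → M) {N : ℕ} (h : t.length ≤ N) :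
    ∑ k ∈ Finset.range N, t.getD k 0 • w k = dot t w := by
  induction t generalizing w N with
  | nil => simp [dot]
  | cons a t ih =>
    obtain ⟨N, rfl⟩ : ∃ N', N = N' + 1 := ⟨N - 1, by simp at h; omega⟩
    rw [Finset.sum_range_succ', dot, ← ih (N := N) _ (by simpa using h), add_comm]
    simp

theorem dot_congr (t : List R) {w w' : ℕ → M} (h : ∀ k < t.length, w k = w' k) :
    dot t w = dot t w' := by
  rw [← dot_eq_sum t w le_rfl, ← dot_eq_sum t w' le_rfl]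
  exact Finset.sum_congr rfl fun k hk => by rw [h k (Finset.mem_range.1 hk)]

theorem dot_shift (K : ℕ) (t : List R) (w : ℕ → M) :
    dot (List.replicate K 0 ++ t) w = dot t fun k => w (k + K) := by
  induction K generalizing w with
  | zero => simp
  | succ K ih => simp [List.replicate_succ, dot, ih, add_assoc]

omit [Ring R] in
theorem len_le_width {L : PPc R} {row : List R} (h : row ∈ L) :
    row.length ≤ (L.map List.length).sum :=
  List.single_le_sum (fun _ _ => Nat.zero_le _) _ (List.mem_map_of_mem h)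

theorem mem_toPP (L : PPc R) (x : M) : x ∈ L.toPP.set M ↔
    ∃ w : ℕ → M, ∀ row ∈ L, row.getD 0 0 • x + dot row.tail w = 0 := by
  have key : ∀ (w : ℕ → M) (i : Fin L.length), ∑ k : Fin (L.map List.length).sum,
      (L.getD i []).getD (k + 1) 0 • w k = dot (L.getD i []).tail w := fun w i => by
    have hm : L.getD i [] ∈ L := by simp
    rw [← dot_eq_sum _ w (N := (L.map List.length).sum)
      (le_trans (by simp) (len_le_width hm)), Finset.sum_range]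
    exact Finset.sum_congr rfl fun k _ => by simp [List.getD_eq_getElem?_getD]
  constructor
  · rintro ⟨y, hy⟩
    let y' : Fin (L.map List.length).sum → M := y
    refine ⟨fun k => if h : k < (L.map List.length).sum then y' ⟨k, h⟩ else 0, fun row hrow => ?_⟩
    obtain ⟨i, hi, rfl⟩ := List.getElem_of_mem hrow
    have e : L[i] = L.getD i [] := by simp [hi]
    rw [e, ← key _ ⟨i, hi⟩]
    simp only [Fin.is_lt, dite_true]
    exact hy ⟨i, hi⟩
  · rintro ⟨w, hw⟩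
    refine ⟨fun k : Fin (L.map List.length).sum => w k, fun i : Fin L.length => ?_⟩
    have := hw (L.getD i []) (by simp)
    rwa [← key] at this

/-- The code of a conjunction. -/
def andc (φ ψ : PPc R) : PPc R :=
  φ ++ ψ.map fun row => row.getD 0 0 :: (List.replicate (φ.map List.length).sum 0 ++ row.tail)

theorem set_andc (φ ψ : PPc R) : (andc φ ψ).toPP.set M = φ.toPP.set M ⊓ ψ.toPP.set M := by
  ext x
  simp only [AddSubgroup.mem_inf, mem_toPP, andc, List.mem_append, List.mem_map, or_imp,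
    forall_and, forall_exists_index, and_imp, forall_apply_eq_imp_iff₂, List.getD_cons_zero,
    List.tail_cons, dot_shift]
  constructor
  · rintro ⟨w, h, h'⟩
    exact ⟨⟨w, h⟩, _, h'⟩
  · rintro ⟨⟨w, h⟩, w', h'⟩
    refine ⟨fun k => if k < (φ.map List.length).sum then w k else w' (k - (φ.map List.length).sum),
      fun row hrow => ?_, fun row hrow => ?_⟩
    · rw [← h row hrow]
      congr 1
      refine dot_congr _ fun k hk => if_pos ?_
      have := len_le_width hrow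
      simp at hk; omega
    · simpa using h' row hrow

theorem ind_andc (φ ψ : PPc R) : ind φ.toPP (andc φ ψ).toPP M = ind φ.toPP ψ.toPP M := by
  unfold ind
  rw [set_andc, inf_comm, eidx_inf]

end andc

/-! The marked elements of ends are killed by `q`. -/

theorem kil_of_isEnd {q : ℕ} {E : Pt R n} (h : IsEnd (q : R) E) (j : Fin n) :
    (q : R) • E.y j = 0 := by
  rcases h with ⟨T, hT, rfl⟩ | ⟨P, hy, hq, rfl⟩ | ⟨P, hy, rfl⟩
  · change (Submodule.Quotient.mk ((q : R) • (⟨Pi.single 0 (T.l 0 j), T.single_mem 0 _⟩ : T.supp)) :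
      T.pt.Y) = 0
    have : (q : R) • (⟨Pi.single 0 (T.l 0 j), T.single_mem 0 _⟩ : T.supp) = 0 := by
      apply Subtype.ext
      change (q : R) • (Pi.single 0 (T.l 0 j) : ∀ k, T.Z k) = 0
      rw [← Pi.single_smul, (hT 0 j).1, Pi.single_zero]
    rw [this]; rfl
  · refine (Submodule.Quotient.mk_eq_zero (P.aNull.submoduleOf P.aSeq)).2 ?_
    refine PData.mem_aNull.2 fun l => Submodule.mem_sup_left ?_
    change (q : R) * P.y j ∈ P.I
    rw [← P.hq]; exact hq j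
  · refine (Submodule.Quotient.mk_eq_zero (P.pNull.submoduleOf P.pSeq)).2 ?_
    refine Filter.eventually_atTop.2 ⟨1, fun l hl => Submodule.mem_sup_right ?_⟩
    change (q : R) * (P.y j * (q : R) ^ (l - 1)) ∈ _
    refine Submodule.mem_span_singleton.2 ⟨P.y j, ?_⟩
    rw [← P.hq, mul_assoc, ← pow_succ, Nat.sub_add_cancel hl, smul_eq_mul]

/-! The index in a glued module. -/

section glue
variable {q : ℕ} (L E : Pt R n) (Z : BP R n)

/-- An end marked on the right. -/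
def ptR (L : Pt R n) : BP R n := { Y := L.Y, l := 0, r := L.y }

/-- The glued module without marks. -/
def glB : BP R n := { Y := Glue L E Z.Y Z.l Z.r, l := 0, r := 0 }

theorem ptBP_relR (θ : PP R) (x : E.Y) (c c' : θ.ι → Fin n → R) : (ptBP E).relR θ x c c' ↔
    ∃ w : θ.κ → E.Y, ∀ i, θ.h i • x + ∑ k, θ.H i k • w k = -∑ j, c i j • E.y j := by
  change (∃ w : θ.κ → E.Y, ∀ i, θ.h i • x + ∑ k, θ.H i k • w k =
    ∑ j, c' i j • (0 : E.Y) - ∑ j, c i j • E.y j) ↔ _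
  simp

theorem ptR_relR (θ : PP R) (x : L.Y) (c c' : θ.ι → Fin n → R) : (ptR L).relR θ x c c' ↔
    ∃ w : θ.κ → L.Y, ∀ i, θ.h i • x + ∑ k, θ.H i k • w k = ∑ j, c' i j • L.y j := by
  change (∃ w : θ.κ → L.Y, ∀ i, θ.h i • x + ∑ k, θ.H i k • w k =
    ∑ j, c' i j • L.y j - ∑ j, c i j • (0 : L.Y)) ↔ _
  simp

theorem glB_relR (θ : PP R) (x : Glue L E Z.Y Z.l Z.r) (c c' : θ.ι → Fin n → R) :
    (glB L E Z).relR θ x c c' ↔ x ∈ θ.set (Glue L E Z.Y Z.l Z.r) := by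
  change (∃ w : θ.κ → Glue L E Z.Y Z.l Z.r, ∀ i, θ.h i • x + ∑ k, θ.H i k • w k =
    ∑ j, c' i j • (0 : Glue L E Z.Y Z.l Z.r) - ∑ j, c i j • (0 : Glue L E Z.Y Z.l Z.r)) ↔ _
  simp [PP.mem_set]

theorem ptR_rel (θ : PP R) (x : L.Y) (c c' : V θ q n) :
    (x, c, c') ∈ (ptR L).rel θ q ↔ (x, -c', c) ∈ (ptBP L).rel θ q := by
  constructor
  · rintro ⟨d, d', rfl, rfl, h⟩
    obtain ⟨w, hw⟩ := (ptR_relR L θ x d d').1 h
    exact ⟨-d', d, rfl, rfl, (ptBP_relR L θ x _ _).2 ⟨w, fun i => by simpa using hw i⟩⟩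
  · rintro ⟨d', d, e, rfl, h⟩
    obtain ⟨w, hw⟩ := (ptBP_relR L θ x d' d).1 h
    exact ⟨d, -d', rfl, by rw [mkV_neg, e, neg_neg],
      (ptR_relR L θ x _ _).2 ⟨w, fun i => by simpa using hw i⟩⟩

theorem ptR_sec (θ : PP R) (A : AddSubgroup (V θ q n)) :
    (ptR L).sec θ q ⊤ A = (ptBP L).sec θ q A ⊤ := by
  ext x
  constructor
  · rintro ⟨c, -, c', hc', h⟩
    exact ⟨-c', A.neg_mem hc', c, trivial, (ptR_rel L θ x c c').1 h⟩
  · rintro ⟨c', hc', c, -, h⟩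
    exact ⟨c, trivial, -c', A.neg_mem hc', (ptR_rel L θ x c (-c')).2 (by rwa [neg_neg])⟩

theorem ptR_fwd (θ : PP R) (k : Bool) : (ptR L).fwd θ q k ⊤ = (ptBP L).bwd θ q k ⊤ := by
  have h1 : ∀ c', c' ∈ (ptR L).fwd θ q k ⊤ ↔ -c' ∈ (ptBP L).bwd θ q k ⊤ := fun c' => by
    constructor
    · rintro ⟨c, -, x, hx, h⟩
      exact ⟨c, trivial, x, hx, (ptR_rel L θ x c c').1 h⟩
    · rintro ⟨c, -, x, hx, h⟩
      exact ⟨c, trivial, x, hx, (ptR_rel L θ x c c').2 h⟩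
  ext c'
  rw [h1, neg_mem_iff]

theorem glB_sec (θ : PP R) : (glB L E Z).sec θ q ⊤ ⊤ = θ.set (Glue L E Z.Y Z.l Z.r) := by
  ext x
  constructor
  · rintro ⟨_, -, _, -, d, d', -, -, h⟩
    exact (glB_relR L E Z θ x d d').1 h
  · intro h
    exact ⟨0, trivial, 0, trivial, 0, 0, rfl, rfl, (glB_relR L E Z θ x 0 0).2 h⟩

theorem mem_glueRel (z : L.Y × Z.Y × E.Y) : z ∈ glueRel L E Z.Y Z.l Z.r ↔ ∃ d d' : Fin n → R,
    z.1 = ∑ j, d j • L.y j ∧ z.2.1 = ∑ j, d' j • Z.r j - ∑ j, d j • Z.l j ∧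
      z.2.2 = -∑ j, d' j • E.y j := by
  rw [glueRel, Submodule.span_union, Submodule.mem_sup]
  simp only [Submodule.mem_span_range_iff_exists_fun]
  constructor
  · rintro ⟨_, ⟨d, rfl⟩, _, ⟨d', rfl⟩, rfl⟩
    refine ⟨d, d', ?_, ?_, ?_⟩ <;> simp [Prod.fst_sum, Prod.snd_sum, sub_eq_neg_add]
  · rintro ⟨d, d', h₁, h₂, h₃⟩
    refine ⟨_, ⟨d, rfl⟩, _, ⟨d', rfl⟩, Prod.ext ?_ (Prod.ext ?_ ?_)⟩ <;>
      simp [Prod.fst_sum, Prod.snd_sum, sub_eq_neg_add, h₁, h₂, h₃]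

theorem glB_rel (hL : ∀ j, (q : R) • L.y j = 0) (hE : ∀ j, (q : R) • E.y j = 0) (θ : PP R)
    (z : L.Y × Z.Y × E.Y) (c c₃ : V θ q n) :
    ((glueRel L E Z.Y Z.l Z.r).mkQ z, c, c₃) ∈ (glB L E Z).rel θ q ↔ ∃ c₁,
      (z.1, c, c₁) ∈ (ptR L).rel θ q ∧ ∃ c₂, (z.2.1, c₁, c₂) ∈ Z.rel θ q ∧
        (z.2.2, c₂, c₃) ∈ (ptBP E).rel θ q := by
  obtain ⟨c, rfl⟩ := mkV_surj q c
  obtain ⟨c₃, rfl⟩ := mkV_surj q c₃
  have k₀ : (glB L E Z).Kil q := fun j => ⟨smul_zero _, smul_zero _⟩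
  have k₁ : (ptR L).Kil q := fun j => ⟨(smul_zero _ : (q : R) • (0 : L.Y) = 0), hL j⟩
  have k₃ : (ptBP E).Kil q := fun j => ⟨hE j, (smul_zero _ : (q : R) • (0 : E.Y) = 0)⟩
  refine (k₀.mem_rel.trans (glB_relR L E Z θ _ c c₃)).trans ?_
  rw [θ.mem_of_surj _ (Submodule.mkQ_surjective _)]
  simp only [Submodule.mkQ_apply, Submodule.Quotient.mk_eq_zero, mem_glueRel]
  constructor
  · rintro ⟨w, hw⟩
    choose d d' h₁ h₂ h₃ using hw
    refine ⟨mkV q d, k₁.mem_rel.2 ((ptR_relR L θ _ _ _).2 ⟨fun k => (w k).1, fun i => ?_⟩),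
      mkV q d', ⟨d, d', rfl, rfl, fun k => (w k).2.1, fun i => ?_⟩,
      k₃.mem_rel.2 ((ptBP_relR E θ _ _ _).2 ⟨fun k => (w k).2.2, fun i => ?_⟩)⟩
    · simpa [Prod.fst_sum] using h₁ i
    · simpa [Prod.fst_sum, Prod.snd_sum] using h₂ i
    · simpa [Prod.snd_sum] using h₃ i
  · rintro ⟨_, h₁, _, ⟨d, d', rfl, rfl, w₂, h₂⟩, h₃⟩
    obtain ⟨w₁, h₁⟩ := (ptR_relR L θ _ _ _).1 (k₁.mem_rel.1 h₁)
    obtain ⟨w₃, h₃⟩ := (ptBP_relR E θ _ _ _).1 (k₃.mem_rel.1 h₃)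
    refine ⟨fun k => (w₁ k, w₂ k, w₃ k), fun i => ⟨d i, d' i, ?_, ?_, ?_⟩⟩
    · simpa [Prod.fst_sum] using h₁ i
    · simpa [Prod.fst_sum, Prod.snd_sum] using h₂ i
    · simpa [Prod.snd_sum] using h₃ i

theorem dec_glB (hL : ∀ j, (q : R) • L.y j = 0) (hE : ∀ j, (q : R) • E.y j = 0) :
    Dec q (glB L E Z) (ptR L) (Z.glue (ptBP E)) := by
  let H : AddSubgroup ((glB L E Z).Y × (ptR L).Y × (Z.glue (ptBP E)).Y) :=
    { carrier := {u | ∃ z : L.Y × Z.Y × E.Y, u.1 = (glueRel L E Z.Y Z.l Z.r).mkQ z ∧ u.2.1 = z.1 ∧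
        u.2.2 = Submodule.Quotient.mk z.2}
      zero_mem' := ⟨0, rfl, rfl, rfl⟩
      add_mem' := by
        rintro ⟨_, _, _⟩ ⟨_, _, _⟩ ⟨z, rfl, rfl, rfl⟩ ⟨z', rfl, rfl, rfl⟩
        exact ⟨z + z', rfl, rfl, rfl⟩
      neg_mem' := by
        rintro ⟨_, _, _⟩ ⟨z, rfl, rfl, rfl⟩
        exact ⟨-z, rfl, rfl, rfl⟩ }
  refine ⟨H, fun x => ?_, fun x u => ?_, ?_⟩
  · obtain ⟨z, rfl⟩ := Submodule.mkQ_surjective _ x
    exact ⟨_, _, z, rfl, rfl, rfl⟩
  · obtain ⟨z, rfl⟩ := Submodule.Quotient.mk_surjective _ u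
    exact ⟨_, (x, z), rfl, rfl, rfl⟩
  · rintro _ _ _ ⟨z, rfl, rfl, rfl⟩ θ c c''
    refine (glB_rel L E Z hL hE θ z c c'').trans (exists_congr fun c₁ => and_congr_right' ?_)
    exact (glue_rel (W₁ := Z) (W₂ := ptBP E) (.inr hE) z.2.1 z.2.2 θ c₁ c'').symm

/-- States of the left end. -/
abbrev sPL (q : ℕ) (θ : PP R) := (ptBP L).bwd θ q true ⊤
/-- States of the right end. -/
abbrev sAE (q : ℕ) (θ : PP R) := (ptBP E).bwd θ q false ⊤

theorem glue_idx (hL : ∀ j, (q : R) • L.y j = 0) (hE : ∀ j, (q : R) • E.y j = 0) {φ ψ : PP R}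
    (hle : ψ.set (Glue L E Z.Y Z.l Z.r) ≤ φ.set (Glue L E Z.Y Z.l Z.r)) :
    (ptBP L).sec ψ q (Z.bwd ψ q false (sAE E q ψ)) ⊤ ≤
      (ptBP L).sec φ q (Z.bwd φ q false (sAE E q φ)) ⊤ ∧
    (ptBP E).sec ψ q (Z.fwd ψ q true (sPL L q ψ)) ⊤ ≤
      (ptBP E).sec φ q (Z.fwd φ q true (sPL L q φ)) ⊤ ∧
    ind φ ψ (Glue L E Z.Y Z.l Z.r) =
      eidx ((ptBP L).sec ψ q (Z.bwd ψ q false (sAE E q ψ)) ⊤)
        ((ptBP L).sec φ q (Z.bwd φ q false (sAE E q φ)) ⊤) *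
      (eidx (Z.sec ψ q (sPL L q ψ) (sAE E q ψ)) (Z.sec φ q (sPL L q φ) (sAE E q φ)) *
      eidx ((ptBP E).sec ψ q (Z.fwd ψ q true (sPL L q ψ)) ⊤)
        ((ptBP E).sec φ q (Z.fwd φ q true (sPL L q φ)) ⊤)) := by
  have D₂ : Dec q (Z.glue (ptBP E)) Z (ptBP E) := dec_glue' (.inr hE)
  have hb : ∀ θ : PP R, (Z.glue (ptBP E)).bwd θ q false ⊤ = Z.bwd θ q false (sAE E q θ) :=
    fun θ => SetLike.coe_injective (D₂.bwdS θ false _)
  obtain ⟨h₁, h₂, h₃⟩ := (dec_glB L E Z hL hE).idx false (φ := φ) (ψ := ψ) (S := ⊤) (A := ⊤)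
    (S' := ⊤) (A' := ⊤) (by rwa [glB_sec, glB_sec])
  simp only [Bool.not_false, ptR_sec, ptR_fwd, hb, glB_sec] at h₁ h₂ h₃
  obtain ⟨-, h₅, h₆⟩ := D₂.idx false h₂
  exact ⟨h₁, h₅, h₃.trans (congrArg _ h₆)⟩

end glue

/-! Bounds for products. -/

/-- Comparison of bounds. -/
def cmp (b : Bool) (v w : ℕ) : Prop := (b = true ∧ v ≤ w) ∨ (b = false ∧ w ≤ v)

theorem bd_mul {b : Bool} {v v₁ v₂ : ℕ} {x₁ x₂ : ℕ∞} (h₁ : bd b v₁ x₁) (h₂ : bd b v₂ x₂)
    (h : cmp b v (v₁ * v₂)) : bd b v (x₁ * x₂) := by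
  cases b
  · simp only [bd, cmp, Bool.false_eq_true, if_false, false_and, false_or, true_and] at *
    exact (mul_le_mul' h₁ h₂).trans (by exact_mod_cast h)
  · simp only [bd, cmp, if_true, true_and, Bool.true_eq_false, false_and, or_false] at *
    exact le_trans (by exact_mod_cast h) (mul_le_mul' h₁ h₂)

theorem cmp_refl (b : Bool) (v : ℕ) : cmp b v v := by cases b <;> simp [cmp]

theorem cmp.mul {b : Bool} {v v₁ v₂ w : ℕ} (h : cmp b v (v₁ * v₂)) (h' : cmp b v₂ w) :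
    cmp b v (v₁ * w) := by
  cases b
  · simp only [cmp, Bool.false_eq_true, false_and, false_or, true_and] at *
    exact (Nat.mul_le_mul_left _ h').trans h
  · simp only [cmp, true_and, Bool.true_eq_false, false_and, or_false] at *
    exact h.trans (Nat.mul_le_mul_left _ h')

theorem bd_split {b : Bool} {v : ℕ} {x₁ x₂ : ℕ∞} (h₁ : 1 ≤ x₁) (h₂ : 1 ≤ x₂)
    (h : bd b v (x₁ * x₂)) : ∃ v₁ v₂, bd b v₁ x₁ ∧ bd b v₂ x₂ ∧ cmp b v (v₁ * v₂) := by
  cases b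
  · simp only [bd, cmp, Bool.false_eq_true, if_false, false_and, false_or, true_and] at *
    have e₁ : x₁ ≠ ⊤ := ne_top_of_le_ne_top (ENat.natCast_ne_top v)
      ((le_mul_of_one_le_right' h₂).trans h)
    have e₂ : x₂ ≠ ⊤ := ne_top_of_le_ne_top (ENat.natCast_ne_top v)
      ((le_mul_of_one_le_left' h₁).trans h)
    lift x₁ to ℕ using e₁
    lift x₂ to ℕ using e₂
    exact ⟨x₁, x₂, le_rfl, le_rfl, by exact_mod_cast h⟩
  · simp only [bd, cmp, if_true, true_and, Bool.true_eq_false, false_and, or_false] at *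
    by_cases e₁ : x₁ = ⊤
    · exact ⟨v, 1, by simp [e₁], by simpa using h₂, by simp⟩
    by_cases e₂ : x₂ = ⊤
    · exact ⟨1, v, by simpa using h₁, by simp [e₂], by simp⟩
    lift x₁ to ℕ using e₁
    lift x₂ to ℕ using e₂
    exact ⟨x₁, x₂, le_rfl, le_rfl, by exact_mod_cast h⟩

end Pool.Agent.Lib.MP_c13fce_lc.NRE
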