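import Pool.Agent.Lib.MP_c13fce_lc.NREc1

/-! Block BC, second half: coded finite marked modules. -/

namespace Pool.Agent.Lib.MP_c13fce_lc.NRE

open Pool.Agent.Lib.MP_a1ec0a_al BC

variable {R : Type} [Ring R] {n : ℕ}

namespace BC

theorem cast_mem_fsub (W : FC R) (s : Fin W.1 → R) : (fun p => (W.2.1 : R) * s p) ∈ fsub W := by
  refine Submodule.mem_sup_right ((Submodule.mem_span_range_iff_exists_fun R).2 ⟨s, ?_⟩)
  funext p
  simp [Finset.sum_apply, Pi.single_apply, Nat.cast_comm]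

theorem mem_fsub {W : FC R} {v : Fin W.1 → R} : v ∈ fsub W ↔
    ∃ a : Fin W.2.2.1.length → R, ∀ p : Fin W.1, ∃ s : R,
      v p - ∑ j, a j * ent W.2.2.1 j p = (W.2.1 : R) * s := by
  have h := fun v => mem_span_list (R := R) W.2.2.1 [] (vec W.1) (v := v)
  constructor
  · intro hv
    obtain ⟨y, hy, z, hz, rfl⟩ := Submodule.mem_sup.1 hv
    obtain ⟨a, rfl⟩ := (h y).1 hy
    obtain ⟨s, rfl⟩ := (Submodule.mem_span_range_iff_exists_fun R).1 hz
    refine ⟨a, fun p => ⟨s p, ?_⟩⟩
    simp [Finset.sum_apply, Pi.single_apply, Nat.cast_comm, vec, ent]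
  · rintro ⟨a, ha⟩
    choose s hs using ha
    have : v = (∑ j, a j • vec W.1 (W.2.2.1.getD j [])) + fun p => (W.2.1 : R) * s p := by
      funext p
      simp [← hs, Finset.sum_apply, vec, ent]
    rw [this]
    exact add_mem (Submodule.mem_sup_left ((h _).2 ⟨a, rfl⟩)) (cast_mem_fsub W s)

/-- The element of a coded module with a given code. -/
def el (W : FC R) (n : ℕ) (x : List R) : (fbp W n).Y := Submodule.Quotient.mk (vec W.1 x)

theorem el_nil (W : FC R) : el W n [] = 0 := by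
  have : vec W.1 ([] : List R) = 0 := funext fun p => by simp [vec]
  rw [el, this]; rfl

theorem exists_el (W : FC R) (z : (fbp W n).Y) : ∃ x, el W n x = z := by
  obtain ⟨u, rfl⟩ := Submodule.Quotient.mk_surjective (fsub W) z
  obtain ⟨x, rfl⟩ := exists_vec u
  exact ⟨x, rfl⟩

theorem vec_range (g : ℕ) (f : ℕ → R) : vec g ((List.range g).map f) = fun p : Fin g => f p :=
  funext fun p => getD_range f p.2 0

/-- Difference of coded vectors. -/
def lsub (g : ℕ) (x y : List R) : List R := (List.range g).map fun p => x.getD p 0 - y.getD p 0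

theorem el_lsub (W : FC R) (x y : List R) : el W n (lsub W.1 x y) = el W n x - el W n y := by
  rw [el, lsub, vec_range]; rfl

theorem relR_mk {W : FC R} {θ : PP R} {u : Fin W.1 → R} {c c' : θ.ι → Fin n → R} :
    (fbp W n).relR θ (Submodule.Quotient.mk u) c c' ↔ ∃ w : θ.κ → Fin W.1 → R, ∀ i,
      θ.h i • u + ∑ k, θ.H i k • w k - (∑ j, c' i j • vec W.1 (W.2.2.2.2.getD j []) -
        ∑ j, c i j • vec W.1 (W.2.2.2.1.getD j [])) ∈ fsub W := by
  have key : ∀ (w : θ.κ → Fin W.1 → R) i, θ.h i • u + ∑ k, θ.H i k • w k -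
      (∑ j, c' i j • vec W.1 (W.2.2.2.2.getD j []) -
        ∑ j, c i j • vec W.1 (W.2.2.2.1.getD j [])) ∈ fsub W ↔
      θ.h i • (fsub W).mkQ u + ∑ k, θ.H i k • (fsub W).mkQ (w k) =
        ∑ j, c' i j • (fsub W).mkQ (vec W.1 (W.2.2.2.2.getD j [])) -
          ∑ j, c i j • (fsub W).mkQ (vec W.1 (W.2.2.2.1.getD j [])) := fun w i => by
    rw [← Submodule.Quotient.eq, ← Submodule.mkQ_apply, ← Submodule.mkQ_apply]
    simp only [map_add, map_sub, map_sum, map_smul]
  constructor
  · rintro ⟨w, hw⟩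
    choose w' hw' using fun k => Submodule.Quotient.mk_surjective (fsub W) (w k)
    obtain rfl : w = fun k => Submodule.Quotient.mk (w' k) := funext fun k => (hw' k).symm
    exact ⟨w', fun i => (key w' i).2 (hw i)⟩
  · rintro ⟨w, hw⟩
    exact ⟨fun k => Submodule.Quotient.mk (w k), fun i => (key w i).1 (hw i)⟩

variable [Primcodable R] [CR R]

/-- Representatives of all elements. -/
def els (W : FC R) : List (List R) := tup ((CR.c (R := R)).reps W.2.1) W.1

theorem exists_els {W : FC R} (h : 0 < W.2.1) (z : (fbp W n).Y) : ∃ x ∈ els W, el W n x = z := by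
  obtain ⟨u, rfl⟩ := Submodule.Quotient.mk_surjective (fsub W) z
  obtain ⟨x, hx, hs⟩ := exists_rep h u
  choose s hs using hs
  refine ⟨x, hx, ((Submodule.Quotient.eq _).2 ?_).symm⟩
  convert cast_mem_fsub W s using 1
  funext p
  simp [hs, vec]

/-- Membership in the relation module. -/
def memB (W : FC R) (v : List R) : Bool :=
  (tup ((CR.c (R := R)).reps W.2.1) W.2.2.1.length).any fun a => (List.range W.1).all fun p =>
    (CR.c (R := R)).dv W.2.1
      (v.getD p 0 - ∑ j ∈ Finset.range W.2.2.1.length, a.getD j 0 * ent W.2.2.1 j p)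

theorem memB_iff {W : FC R} (hQ : 0 < W.2.1) {v : List R} :
    vec W.1 v ∈ fsub W ↔ memB W v = true := by
  simp only [memB, List.any_eq_true, allB_range, CompRing.dv_spec, mem_fsub, Finset.sum_range]
  refine ⟨?_, fun ⟨a, _, h⟩ => ⟨_, h⟩⟩
  rintro ⟨a, h⟩
  obtain ⟨x, hx, hs⟩ := exists_rep hQ a
  choose t ht using hs
  refine ⟨x, hx, fun p => ?_⟩
  obtain ⟨s, h⟩ := h p
  refine ⟨s + ∑ j, t j * ent W.2.2.1 j p, ?_⟩
  simp only [ht, add_mul, Finset.sum_add_distrib, mul_assoc, ← Finset.mul_sum] at h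
  rw [mul_add, ← h, vec]
  abel

/-- The boundary relation. -/
def relB (W : FC R) (n : ℕ) (L : PPc R) (x : List R) (c c' : Mat R) : Bool :=
  (tup (els W) (L.map List.length).sum).any fun w => (List.range L.length).all fun i =>
    memB W ((List.range W.1).map fun p => ent L i 0 * x.getD p 0 +
      ∑ k ∈ Finset.range (L.map List.length).sum, ent L i (k + 1) * ent w k p -
        (∑ j ∈ Finset.range n, ent c' i j * ent W.2.2.2.2 j p -
          ∑ j ∈ Finset.range n, ent c i j * ent W.2.2.2.1 j p))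

theorem relB_iff {W : FC R} (hQ : 0 < W.2.1) {L : PPc R} {x : List R} {c c' : Mat R} :
    (fbp W n).relR L.toPP (el W n x) (toC L n c) (toC L n c') ↔ relB W n L x c c' = true := by
  simp only [relB, List.any_eq_true, allB_range, ← memB_iff hQ, vec_range, Finset.sum_range]
  rw [el, relR_mk]
  have key : ∀ (w : Fin (L.map List.length).sum → Fin W.1 → R) (i : Fin L.length),
      L.toPP.h i • vec W.1 x + ∑ k : L.toPP.κ, L.toPP.H i k • w k -
        (∑ j, toC L n c' i j • vec W.1 (W.2.2.2.2.getD j []) -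
          ∑ j, toC L n c i j • vec W.1 (W.2.2.2.1.getD j [])) =
      fun p : Fin W.1 => ent L i 0 * x.getD p 0 +
        ∑ k : Fin (L.map List.length).sum, ent L i (k + 1) * w k p -
          (∑ j : Fin n, ent c' i j * ent W.2.2.2.2 j p -
            ∑ j : Fin n, ent c i j * ent W.2.2.2.1 j p) := fun w i => by
    funext p
    simp only [Pi.sub_apply, Pi.add_apply, Finset.sum_apply, Pi.smul_apply, smul_eq_mul]
    rfl
  constructor
  · rintro ⟨w, h⟩
    obtain ⟨z, hz, hs⟩ := exists_repM (m := (L.map List.length).sum) hQ w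
    choose t ht using hs
    refine ⟨z, hz, fun i => ?_⟩
    have h1 := h i
    rw [key] at h1
    convert sub_mem h1 (cast_mem_fsub W fun p =>
      ∑ k : Fin (L.map List.length).sum, ent L i (k + 1) * t k p) using 1
    funext p
    simp only [Pi.sub_apply, ht, mul_add, Finset.sum_add_distrib, mul_cast_mul, ← Finset.mul_sum]
    abel
  · rintro ⟨w, -, h⟩
    exact ⟨fun (k : Fin (L.map List.length).sum) p => ent w k p, fun i => by rw [key]; exact h i⟩

theorem rel_iff {q : ℕ} {W : FC R} (h : FOk q n W) {L : PPc R} {x : List R} {c c' : Mat R} :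
    (el W n x, mkV q (toC L n c), mkV q (toC L n c')) ∈ (fbp W n).rel L.toPP q ↔
      relB W n L x c c' = true := by
  rw [h.2.2.mem_rel, relB_iff h.2.1]

/-- Transitions. -/
def ksB (W : FC R) (n : ℕ) (L : PPc R) (k : Bool) (c c' : Mat R) : Bool :=
  (bif k then els W else [[]]).any fun x => relB W n L x c c'

theorem ksB_iff {q : ℕ} {W : FC R} (h : FOk q n W) {L : PPc R} {k : Bool} {c c' : Mat R} :
    (fbp W n).KS L.toPP q k (mkV q (toC L n c)) (mkV q (toC L n c')) ↔
      ksB W n L k c c' = true := by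
  simp only [ksB, List.any_eq_true, ← rel_iff h, BP.KS]
  cases k
  · simp [el_nil]
  · simp only [Bool.true_eq_false, false_imp_iff, true_and, cond_true]
    refine ⟨fun ⟨z, hz⟩ => ?_, fun ⟨x, _, hx⟩ => ⟨_, hx⟩⟩
    obtain ⟨x, hx, rfl⟩ := exists_els h.2.1 z
    exact ⟨x, hx, hz⟩

/-- Sections. -/
def secB (W : FC R) (n : ℕ) (L : PPc R) (S A : List (Mat R)) (x : List R) : Bool :=
  S.any fun c => A.any fun c' => relB W n L x c c'

theorem secB_iff {q : ℕ} {W : FC R} (h : FOk q n W) {L : PPc R} {S A : List (Mat R)}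
    {x : List R} : el W n x ∈ (fbp W n).secS L.toPP q (im L q n S) (im L q n A) ↔
      secB W n L S A x = true := by
  simp only [secB, List.any_eq_true, ← rel_iff h]
  constructor
  · rintro ⟨_, ⟨c, hc, rfl⟩, _, ⟨c', hc', rfl⟩, e⟩
    exact ⟨c, hc, c', hc', e⟩
  · rintro ⟨c, hc, c', hc', e⟩
    exact ⟨_, ⟨c, hc, rfl⟩, _, ⟨c', hc', rfl⟩, e⟩

/-- The index test for a given list of elements. -/
def idxB (W : FC R) (n : ℕ) (φ : PPc R) (S A : List (Mat R)) (ψ : PPc R) (S' A' : List (Mat R))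
    (b : Bool) (v : ℕ) (xs : Mat R) : Bool :=
  bif b then (List.range v).all fun i => secB W n φ S A (xs.getD i []) &&
    (List.range v).all fun j => !secB W n ψ S' A' (lsub W.1 (xs.getD i []) (xs.getD j [])) || i == j
  else (els W).all fun a => !secB W n φ S A a ||
    (List.range v).any fun i => secB W n ψ S' A' (lsub W.1 a (xs.getD i []))

theorem idxB_iff {q : ℕ} {W : FC R} (h : FOk q n W) {φ ψ : PPc R} {S A S' A' : List (Mat R)}
    {b : Bool} {v : ℕ} {xs : Mat R} : idxB W n φ S A ψ S' A' b v xs = true ↔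
      if b = true then (∀ i : Fin v, el W n (xs.getD i []) ∈
          (fbp W n).secS φ.toPP q (im φ q n S) (im φ q n A)) ∧
        ∀ i j : Fin v, el W n (xs.getD i []) - el W n (xs.getD j []) ∈
          (fbp W n).secS ψ.toPP q (im ψ q n S') (im ψ q n A') → i = j
      else ∀ a ∈ (fbp W n).secS φ.toPP q (im φ q n S) (im φ q n A), ∃ i : Fin v,
        a - el W n (xs.getD i []) ∈ (fbp W n).secS ψ.toPP q (im ψ q n S') (im ψ q n A') := by
  have imp : ∀ a c : Bool, (!a || c) = true ↔ (a = true → c = true) := by decide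
  cases b
  · simp only [idxB, cond_false, Bool.false_eq_true, if_false, List.all_eq_true, imp,
      List.any_eq_true, List.mem_range, ← secB_iff h, el_lsub]
    constructor
    · intro H a ha
      obtain ⟨x, hx, rfl⟩ := exists_els h.2.1 a
      obtain ⟨i, hi, e⟩ := H x hx ha
      exact ⟨⟨i, hi⟩, e⟩
    · intro H x _ hx
      obtain ⟨i, e⟩ := H _ hx
      exact ⟨i, i.2, e⟩
  · simp only [idxB, cond_true, if_true, allB_range, Bool.and_eq_true, imp, ← secB_iff h, el_lsub,
      beq_iff_eq, Fin.val_inj, forall_and]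

end BC

variable {α : Type} [Primcodable α] [Primcodable R] [CR R]
variable {q m Q v : α → ℕ} {W : α → FC R} {L L' : α → PPc R} {k : α → Bool}
  {S S' A A' : α → List (Mat R)} {c c' : α → Mat R} {g y : α → List R} {X : α → R}

@[fun_prop] theorem BC.pr_els (hW : PR W) : PR fun a => els (W a) := by
  unfold els; fun_prop
@[fun_prop] theorem BC.pr_lsub (hm : PR m) (hg : PR g) (hy : PR y) :
    PR fun a => lsub (m a) (g a) (y a) := by
  unfold lsub; fun_prop
@[fun_prop] theorem BC.pr_memB (hW : PR W) (hy : PR y) : PR fun a => memB (W a) (y a) := by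
  unfold memB; fun_prop
@[fun_prop] theorem BC.pr_relB (hW : PR W) (hm : PR m) (hL : PR L) (hy : PR y) (hc : PR c)
    (hc' : PR c') : PR fun a => relB (W a) (m a) (L a) (y a) (c a) (c' a) := by
  unfold relB; fun_prop
@[fun_prop] theorem BC.pr_ksB (hW : PR W) (hm : PR m) (hL : PR L) (hk : PR k) (hc : PR c)
    (hc' : PR c') : PR fun a => ksB (W a) (m a) (L a) (k a) (c a) (c' a) := by
  unfold ksB; fun_prop
@[fun_prop] theorem BC.pr_secB (hW : PR W) (hm : PR m) (hL : PR L) (hS : PR S) (hA : PR A)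
    (hy : PR y) : PR fun a => secB (W a) (m a) (L a) (S a) (A a) (y a) := by
  unfold secB; fun_prop
@[fun_prop] theorem BC.pr_idxB (hW : PR W) (hm : PR m) (hL : PR L) (hS : PR S) (hA : PR A)
    (hL' : PR L') (hS' : PR S') (hA' : PR A') (hk : PR k) (hv : PR v) (hc : PR c) :
    PR fun a => idxB (W a) (m a) (L a) (S a) (A a) (L' a) (S' a) (A' a) (k a) (v a) (c a) := by
  unfold idxB; fun_prop

@[fun_prop] theorem s1_FOk (hq : PR q) (hm : PR m) (hW : PR W) :
    S1 fun a => FOk (q a) (m a) (W a) := by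
  have := s1_cond (H := fun a => 0 < q a ∧ 0 < (W a).2.1)
    (p := fun a => (fbp (W a) (m a)).Kil (q a))
    (B := fun a => (List.range (m a)).all fun j =>
      memB (W a) ((List.range (W a).1).map fun p => (q a : R) * ent (W a).2.2.2.1 j p) &&
      memB (W a) ((List.range (W a).1).map fun p => (q a : R) * ent (W a).2.2.2.2 j p))
    (by fun_prop) (by fun_prop) fun a ha => by
      simp only [allB_range, Bool.and_eq_true, ← memB_iff ha.2, vec_range,
        ← Submodule.Quotient.mk_eq_zero]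
      rfl
  exact this.congr fun a => and_assoc
@[fun_prop] theorem s1_FwdC (hq : PR q) (hm : PR m) (hW : PR W) (hL : PR L) (hk : PR k)
    (hS : PR S) (hS' : PR S') :
    S1 fun a => FwdC (q a) (m a) (W a) (L a) (k a) (S a) (S' a) :=
  s1_cond (B := fun a => (sts (q a) (m a) (L a)).all fun c => imB (q a) (m a) (L a) (S' a) c ==
      (S a).any fun d => ksB (W a) (m a) (L a) (k a) d c) (s1_FOk hq hm hW) (by fun_prop)
    fun a ha => im_eq_iff ha.1 fun c => by
      simp only [List.any_eq_true, ← ksB_iff ha]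
      exact ⟨fun ⟨_, ⟨d, hd, e⟩, h⟩ => ⟨d, hd, e ▸ h⟩, fun ⟨d, hd, h⟩ => ⟨_, ⟨d, hd, rfl⟩, h⟩⟩
@[fun_prop] theorem s1_BwdC (hq : PR q) (hm : PR m) (hW : PR W) (hL : PR L) (hk : PR k)
    (hS : PR S) (hS' : PR S') :
    S1 fun a => BwdC (q a) (m a) (W a) (L a) (k a) (S a) (S' a) :=
  s1_cond (B := fun a => (sts (q a) (m a) (L a)).all fun c => imB (q a) (m a) (L a) (S' a) c ==
      (S a).any fun d => ksB (W a) (m a) (L a) (k a) c d) (s1_FOk hq hm hW) (by fun_prop)
    fun a ha => im_eq_iff ha.1 fun c => by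
      simp only [List.any_eq_true, ← ksB_iff ha]
      exact ⟨fun ⟨_, ⟨d, hd, e⟩, h⟩ => ⟨d, hd, e ▸ h⟩, fun ⟨d, hd, h⟩ => ⟨_, ⟨d, hd, rfl⟩, h⟩⟩
@[fun_prop] theorem s1_IdxC (hq : PR q) (hm : PR m) (hW : PR W) (hL : PR L) (hS : PR S)
    (hA : PR A) (hL' : PR L') (hS' : PR S') (hA' : PR A') (hk : PR k) (hv : PR v) :
    S1 fun a => IdxC (q a) (m a) (W a) (L a) (S a) (A a) (L' a) (S' a) (A' a) (k a) (v a) := by
  have : S1 fun a => FOk (q a) (m a) (W a) ∧ ∃ xs : Mat R,
      idxB (W a) (m a) (L a) (S a) (A a) (L' a) (S' a) (A' a) (k a) (v a) xs = true := by fun_prop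
  refine this.congr fun a => and_congr_right fun ha => ?_
  simp only [idxB_iff ha, IdxS]
  have ex : ∀ x : Fin (v a) → (fbp (W a) (m a)).Y, ∃ xs : Mat R,
      x = fun i : Fin (v a) => el (W a) (m a) (xs.getD i []) := fun x => by
    choose f hf using fun i => exists_el (W a) (x i)
    exact ⟨List.ofFn f, funext fun i => by rw [getD_ofFn, hf]⟩
  split_ifs
  all_goals
    refine ⟨fun ⟨xs, h⟩ => ⟨_, h⟩, fun ⟨x, h⟩ => ?_⟩
    obtain ⟨xs, rfl⟩ := ex x
    exact ⟨xs, h⟩

theorem finite_fbp (W : FC R) (n : ℕ) (h : 0 < W.2.1) : Finite (fbp W n).Y := by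
  have := (els W).finite_toSet.to_subtype
  refine Finite.of_surjective (fun x : {x | x ∈ els W} => el W n x.1) fun z => ?_
  obtain ⟨x, hx, rfl⟩ := exists_els h z
  exact ⟨⟨x, hx⟩, rfl⟩

theorem BC.exists_fsub {g Q : ℕ} (hQ : 0 < Q) (U : Submodule R (Fin g → R))
    (hU : ∀ s : Fin g → R, (fun p => (Q : R) * s p) ∈ U) (l r : Mat R) :
    ∃ ρ : Mat R, fsub ((g, Q, ρ, l, r) : FC R) = U := by
  classical
  refine ⟨(tup ((CR.c (R := R)).reps Q) g).filter fun x => decide (vec g x ∈ U),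
    le_antisymm (sup_le (Submodule.span_le.2 ?_) (Submodule.span_le.2 ?_)) fun u hu => ?_⟩
  · rintro _ ⟨x, hx, rfl⟩
    simpa using (List.mem_filter.1 hx).2
  · rintro _ ⟨a, rfl⟩
    have : ∀ a : Fin g, (Pi.single a (Q : R) : Fin g → R) ∈ U := fun a => by
      have e : (Pi.single a (Q : R) : Fin g → R) =
          fun p => (Q : R) * (Pi.single a 1 : Fin g → R) p := by
        funext p
        simp [Pi.single_apply]
      rw [e]; exact hU _
    exact this a
  · obtain ⟨x, hx, hs⟩ := exists_rep hQ u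
    choose s hs using hs
    have e : u = vec g x + fun p => (Q : R) * s p := funext hs
    have h1 : vec g x ∈ U := by simpa [e] using sub_mem hu (hU s)
    rw [e]
    exact add_mem (Submodule.mem_sup_left (Submodule.subset_span
      ⟨x, List.mem_filter.2 ⟨hx, by simpa using h1⟩, rfl⟩)) (cast_mem_fsub (g, Q, _, l, r) s)

theorem exists_code {q : ℕ} (hq : 0 < q) (W : BP R n) [Finite W.Y] :
    ∃ Wc : FC R, FOk q n Wc ∧ Eqv q W (fbp Wc n) := by
  obtain ⟨g, ⟨e⟩⟩ := Finite.exists_equiv_fin W.Y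
  let π : (Fin g → R) →ₗ[R] W.Y := Fintype.linearCombination R e.symm
  have hπ : Function.Surjective π := fun y => ⟨Pi.single (e y) 1, by simp [π]⟩
  choose l hl using fun j => hπ (W.l j)
  choose r hr using fun j => hπ (W.r j)
  obtain ⟨lc, hlc⟩ := exists_mat l
  obtain ⟨rc, hrc⟩ := exists_mat r
  have hlc' : ∀ j : Fin n, vec g (lc.getD j []) = l j := fun j => funext (hlc j)
  have hrc' : ∀ j : Fin n, vec g (rc.getD j []) = r j := fun j => funext (hrc j)
  let N : Submodule R W.Y := Submodule.span R (Set.range fun j => (q : R) • W.l j) ⊔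
    Submodule.span R (Set.range fun j => (q : R) • W.r j)
  obtain ⟨ρ, hρ⟩ := exists_fsub (Nat.card_pos (α := W.Y)) (N.comap π) (fun s => by
    have : (fun p => (Nat.card W.Y : R) * s p) = (Nat.card W.Y : R) • s := rfl
    rw [Submodule.mem_comap, this, map_smul, Nat.cast_smul_eq_nsmul, card_nsmul_eq_zero']
    exact zero_mem _) lc rc
  have mem : ∀ u, u ∈ fsub ((g, Nat.card W.Y, ρ, lc, rc) : FC R) ↔ π u ∈ N := fun u => by
    rw [hρ]; rfl
  refine ⟨(g, Nat.card W.Y, ρ, lc, rc), ⟨hq, Nat.card_pos, fun j => ⟨?_, ?_⟩⟩,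
    (π.prod (fsub ((g, Nat.card W.Y, ρ, lc, rc) : FC R)).mkQ).toAddMonoidHom.range,
    fun x => ?_, fun x => ?_, ?_⟩
  · refine (Submodule.Quotient.mk_eq_zero _).2 ((mem ((q : R) • vec g (lc.getD j []))).2 ?_)
    rw [map_smul, hlc', hl]
    exact Submodule.mem_sup_left (Submodule.subset_span ⟨j, rfl⟩)
  · refine (Submodule.Quotient.mk_eq_zero _).2 ((mem ((q : R) • vec g (rc.getD j []))).2 ?_)
    rw [map_smul, hrc', hr]
    exact Submodule.mem_sup_right (Submodule.subset_span ⟨j, rfl⟩)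
  · obtain ⟨u, rfl⟩ := hπ x
    exact ⟨_, u, rfl⟩
  · obtain ⟨u, rfl⟩ := Submodule.Quotient.mk_surjective _ x
    exact ⟨_, u, rfl⟩
  · rintro _ _ ⟨u, ⟨⟩⟩ θ c c'
    have key : ∀ (d d' : θ.ι → Fin n → R), (fbp ((g, Nat.card W.Y, ρ, lc, rc) : FC R) n).relR θ
        (Submodule.Quotient.mk u) d d' ↔ ∃ w : θ.κ → W.Y, ∀ i, θ.h i • π u + ∑ k, θ.H i k • w k -
          (∑ j, d' i j • W.r j - ∑ j, d i j • W.l j) ∈ N := fun d d' => by
      rw [relR_mk]
      simp only [mem, map_sub, map_add, map_sum, map_smul, hlc', hrc', hl, hr]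
      refine ⟨fun ⟨w, h⟩ => ⟨_, h⟩, fun ⟨w, h⟩ => ?_⟩
      choose w' hw' using fun k => hπ (w k)
      exact ⟨w', by simpa only [hw'] using h⟩
    constructor
    · rintro ⟨d, d', h1, h2, w, hw⟩
      exact ⟨d, d', h1, h2, (key d d').2 ⟨w, fun i => by
        rw [sub_eq_zero.2 (hw i)]; exact zero_mem _⟩⟩
    · rintro ⟨d, d', h1, h2, h⟩
      obtain ⟨w, hw⟩ := (key d d').1 h
      have hw' := fun i => Submodule.mem_sup.1 (hw i)
      simp only [Submodule.mem_span_range_iff_exists_fun] at hw'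
      choose y hy z hz hyz using hw'
      choose s hs using hy
      choose t ht using hz
      refine ⟨fun i j => d i j - s i j * q, fun i j => d' i j + t i j * q,
        (mkV_eq.2 fun i j => ⟨-s i j, by simp⟩).trans h1,
        (mkV_eq.2 fun i j => ⟨t i j, by simp⟩).trans h2, w, fun i => ?_⟩
      have := hyz i
      rw [← hs, ← ht] at this
      simp only [sub_smul, add_smul, mul_smul, Finset.sum_add_distrib, Finset.sum_sub_distrib]
      change θ.h i • π u + _ = _
      linear_combination (norm := abel) -this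

end Pool.Agent.Lib.MP_c13fce_lc.NRE
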