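import Pool.Agent.Lib.MP_c13fce_lc.NRE0

/-! Block B: cyclic modules, algebraic part. -/

namespace Pool.Agent.Lib.MP_c13fce_lc.NRE

variable {R : Type} [Ring R] {n : ℕ}
variable {q : ℕ} {P : PData R (q : R) n} {l l' K K' : ℕ}

theorem lev_anti (P : PData R (q : R) n) (h : l ≤ l') : P.lev l' ≤ P.lev l := by
  refine sup_le_sup_left ((Submodule.span_singleton_le_iff_mem _ _).2 ?_) _
  refine Submodule.mem_span_singleton.2 ⟨(q : R) ^ (l' - l), ?_⟩
  rw [smul_eq_mul, ← pow_add, Nat.sub_add_cancel h]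

theorem lev_eq {g : List R} (h : P.I = spanL g) (l : ℕ) : P.lev l = cU g (q ^ l) := by
  rw [PData.lev, cU, h, Nat.cast_pow]

theorem cU_zero (g : List R) : cU g 0 = spanL g := by simp [cU]

theorem exists_gens [Module.Finite ℤ R] (I : Submodule R R) : ∃ g, I = spanL g := by
  have : IsNoetherian R R := isNoetherian_of_tower ℤ inferInstance
  obtain ⟨S, hS⟩ := IsNoetherian.noetherian I
  exact ⟨S.toList, by rw [← hS, spanL]; simp⟩

theorem BY.finite_of_kill {M N : Type} [AddCommGroup M] [AddCommGroup N] [Module.Finite ℤ M]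
    (f : M →+ N) (hf : Function.Surjective f) {m : ℕ} (hm : 0 < m) (h : ∀ x, f (m • x) = 0) :
    Finite N := by
  have : Module.Finite ℤ N := Module.Finite.of_surjective f.toIntLinearMap hf
  refine Module.finite_of_fg_torsion _ fun x => ?_
  obtain ⟨x, rfl⟩ := hf x
  refine ⟨⟨(m : ℤ), mem_nonZeroDivisors_of_ne_zero (by positivity)⟩, ?_⟩
  change (m : ℤ) • f x = 0
  rw [natCast_zsmul, ← map_nsmul, h]

theorem finite_lev [Module.Finite ℤ R] (hq : 0 < q) (P : PData R (q : R) n) (l : ℕ) :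
    Finite (R ⧸ P.lev l) := by
  refine BY.finite_of_kill (P.lev l).mkQ.toAddMonoidHom (Submodule.mkQ_surjective _)
    (pow_pos hq l) fun x => (Submodule.Quotient.mk_eq_zero _).2 ?_
  refine Submodule.mem_sup_right (Submodule.mem_span_singleton.2 ⟨x, ?_⟩)
  rw [smul_eq_mul, nsmul_eq_mul, Nat.cast_pow]
  exact ((Nat.cast_commute q x).pow_left l).eq.symm

namespace BY

theorem mul_tpow {U : Submodule R R} {t : R} (hU : ∀ x ∈ U, x * t ∈ U) {x : R} (hx : x ∈ U)
    (k : ℕ) : x * t ^ k ∈ U := by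
  induction k with
  | zero => simpa using hx
  | succ k ih => rw [pow_succ, ← mul_assoc]; exact hU _ ih

theorem lev_tpow {x : R} (hx : x ∈ P.lev l) (k : ℕ) : x * P.t ^ k ∈ P.lev l :=
  mul_tpow (fun _ h => P.lev_mul l h) hx k

theorem lmul {U : Submodule R R} (a : R) {x : R} (hx : x ∈ U) : a * x ∈ U := U.smul_mem a hx

theorem period {a d : ℕ} (h : P.t ^ (a + d) - P.t ^ a ∈ P.lev l) {m : ℕ} (hm : a ≤ m) (i : ℕ) :
    P.t ^ (m + i * d) - P.t ^ m ∈ P.lev l := by
  induction i with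
  | zero => simp
  | succ i ih =>
    have := add_mem (lev_tpow h (m - a + i * d)) ih
    rwa [sub_mul, ← pow_add, ← pow_add, show a + d + (m - a + i * d) = m + (i + 1) * d by
      rw [add_mul]; omega, show a + (m - a + i * d) = m + i * d by omega, sub_add_sub_cancel]
      at this

theorem exists_dvd (q : ℕ) {m : ℕ} (hm : 0 < m) : ∃ a s, m ∣ q ^ a * (1 + q * s) := by
  induction m using Nat.strong_induction_on with
  | _ m ih =>
    by_cases h : Nat.Coprime q m
    · obtain ⟨s, -, hs⟩ := Nat.exists_mul_mod_eq_of_coprime (m - 1) h hm.ne'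
      refine ⟨0, s, ?_⟩
      rw [pow_zero, one_mul, ← Nat.modEq_zero_iff_dvd]
      have h1 : 1 + q * s ≡ 1 + (m - 1) [MOD m] := Nat.ModEq.add_left 1 hs
      rw [show 1 + (m - 1) = m by omega] at h1
      exact h1.trans (Nat.modEq_zero_iff_dvd.2 dvd_rfl)
    · obtain ⟨m', hm'⟩ := Nat.gcd_dvd_right q m
      have h1 : 0 < Nat.gcd q m := Nat.gcd_pos_of_pos_right _ hm
      have h2 : Nat.gcd q m ≠ 1 := h
      have h3 : 0 < m' := Nat.pos_of_mul_pos_left (hm' ▸ hm)
      obtain ⟨a, s, hs⟩ := ih m' (by nlinarith [show 2 ≤ Nat.gcd q m by omega]) h3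
      refine ⟨a + 1, s, ?_⟩
      rw [pow_succ', mul_assoc]
      exact (dvd_of_eq hm').trans (mul_dvd_mul (Nat.gcd_dvd_left q m) hs)

/-- Every nonzero integer has a multiple of the form `q ^ a (1 + q s)`. -/
theorem exists_mul_eq (q : ℕ) {m : ℤ} (hm : m ≠ 0) :
    ∃ (a s : ℕ) (c : ℤ), c * m = ((q ^ a * (1 + q * s) : ℕ) : ℤ) := by
  obtain ⟨a, s, h⟩ := exists_dvd q (Int.natAbs_pos.2 hm)
  obtain ⟨c, hc⟩ := Int.natAbs_dvd.1 (Int.natCast_dvd_natCast.2 h)
  exact ⟨a, s, c, by rw [hc, mul_comm]⟩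

theorem psi_iff {θ : PP R} {U : Submodule R R} {X : R} :
    X ∈ Psi θ U ↔ Sol (n := n) θ U 0 X 0 := by
  simp only [Sol, Pi.zero_apply, mul_zero, Finset.sum_const_zero, add_zero]
  rfl

theorem psi_mono (θ : PP R) {U U' : Submodule R R} (h : U ≤ U') : Psi θ U ≤ Psi θ U' :=
  fun _ ⟨w, hw⟩ => ⟨w, fun i => h (hw i)⟩

theorem mem_psi (θ : PP R) {U : Submodule R R} {X : R} (h : X ∈ U) : X ∈ Psi θ U :=
  ⟨0, fun i => by simpa using lmul _ h⟩

theorem psi_tpow {θ : PP R} {U : Submodule R R} {t : R} (hU : ∀ x ∈ U, x * t ∈ U) {X : R}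
    (h : X ∈ Psi θ U) (k : ℕ) : X * t ^ k ∈ Psi θ U := by
  obtain ⟨w, hw⟩ := h
  refine ⟨fun c => w c * t ^ k, fun i => ?_⟩
  simpa only [add_mul, Finset.sum_mul, mul_assoc] using mul_tpow hU (hw i) k

end BY

open BY

theorem exists_idem [Module.Finite ℤ R] (hq : 0 < q) (P : PData R (q : R) n) (l : ℕ) :
    ∃ K, Idem P l K := by
  have := finite_lev hq P l
  have key : ∀ a b : ℕ, a < b → (P.lev l).mkQ (P.t ^ b) = (P.lev l).mkQ (P.t ^ a) →
      ∃ K, Idem P l K := fun a b hab h => by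
    obtain ⟨d, rfl⟩ := Nat.exists_eq_add_of_lt hab
    rw [Submodule.mkQ_apply, Submodule.mkQ_apply, Submodule.Quotient.eq, add_assoc] at h
    refine ⟨(a + 1) * (d + 1), by positivity, ?_⟩
    rw [two_mul]
    exact period h (by nlinarith) _
  obtain ⟨a, b, hab, h⟩ := Finite.exists_ne_map_eq_of_infinite fun k : ℕ => (P.lev l).mkQ (P.t ^ k)
  rcases lt_or_gt_of_ne hab with h1 | h1
  · exact key a b h1 h.symm
  · exact key b a h1 h

theorem Idem.iter (h : Idem P l K) (i : ℕ) : P.t ^ (K + i * K) - P.t ^ K ∈ P.lev l :=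
  period (by rw [← two_mul]; exact h.2) le_rfl i

theorem Idem.sub_mem (h : Idem P l K) (h' : Idem P l K') : P.t ^ K - P.t ^ K' ∈ P.lev l := by
  obtain ⟨a, rfl⟩ := Nat.exists_eq_succ_of_ne_zero h.1.ne'
  obtain ⟨b, rfl⟩ := Nat.exists_eq_succ_of_ne_zero h'.1.ne'
  have := _root_.sub_mem (h'.iter a) (h.iter b)
  rwa [show b.succ + a * b.succ = a.succ + b * a.succ by simp only [Nat.succ_eq_add_one]; ring,
    sub_sub_sub_cancel_left] at this

theorem Idem.mono (h : Idem P l' K) (hl : l ≤ l') : Idem P l K := ⟨h.1, lev_anti P hl h.2⟩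

theorem Idem.mem_st (h : Idem P l K) (X : R) : X * P.t ^ K ∈ P.st l := by
  refine (Submodule.mem_iInf _).2 fun k => ?_
  have h1 : k ≤ K + k * K := by nlinarith [h.1]
  have : X * P.t ^ K = X * P.t ^ (K + k * K - k) * P.t ^ k -
      X * (P.t ^ (K + k * K) - P.t ^ K) := by
    rw [mul_assoc, ← pow_add, Nat.sub_add_cancel h1, mul_sub, sub_sub_cancel]
  rw [this]
  exact _root_.sub_mem (Submodule.mem_sup_left (Submodule.mem_span_singleton.2 ⟨_, rfl⟩))
    (Submodule.mem_sup_right (lmul _ (h.iter k)))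

theorem Idem.fix (h : Idem P l K) {x : R} (hx : x ∈ P.st l) : x * P.t ^ K - x ∈ P.lev l := by
  obtain ⟨u, hu, v, hv, rfl⟩ := Submodule.mem_sup.1 ((Submodule.mem_iInf _).1 hx K)
  obtain ⟨c, rfl⟩ := Submodule.mem_span_singleton.1 hu
  have := add_mem (lmul c h.2) (_root_.sub_mem (lev_tpow hv K) hv)
  convert this using 1
  rw [smul_eq_mul, two_mul, pow_add]
  noncomm_ring

theorem st_mul_pow {x : R} (hx : x ∈ P.st l) (k : ℕ) : x * (q : R) ^ k ∈ P.st (l + k) := by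
  refine (Submodule.mem_iInf _).2 fun j => ?_
  obtain ⟨u, hu, v, hv, rfl⟩ := Submodule.mem_sup.1 ((Submodule.mem_iInf _).1 hx j)
  obtain ⟨c, rfl⟩ := Submodule.mem_span_singleton.1 hu
  rw [add_mul]
  refine add_mem (Submodule.mem_sup_left (Submodule.mem_span_singleton.2 ⟨c * (q : R) ^ k, ?_⟩))
    (Submodule.mem_sup_right (P.lev_mul_pow l k hv))
  rw [smul_eq_mul, smul_eq_mul, mul_assoc, mul_assoc,
    ((Nat.cast_commute q (P.t ^ j)).pow_left k).eq]

theorem Sol.congr {θ : PP R} {U : Submodule R R} {y : Fin n → R} {X X' : R}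
    {c : θ.ι → Fin n → R} (h : Sol θ U y X c) (hX : X - X' ∈ U) : Sol θ U y X' c := by
  obtain ⟨w, hw⟩ := h
  refine ⟨w, fun i => ?_⟩
  convert sub_mem (hw i) (lmul (θ.h i) hX) using 1
  rw [mul_sub]
  abel

theorem Sol.of_mkV {θ : PP R} {U : Submodule R R} {y : Fin n → R} {X : R}
    {c c' : θ.ι → Fin n → R} (h : Sol θ U y X c) (hy : ∀ j, y j * (q : R) ∈ U)
    (hc : mkV q c = mkV q c') : Sol θ U y X c' := by
  obtain ⟨w, hw⟩ := h
  refine ⟨w, fun i => ?_⟩
  have h1 : ∑ j, (c i j - c' i j) * y j ∈ U := Submodule.sum_mem _ fun j _ => by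
    obtain ⟨s, hs⟩ := mkV_eq.1 hc i j
    rw [hs, mul_assoc, (Nat.cast_commute q (y j)).eq]
    exact lmul _ (hy j)
  convert sub_mem (hw i) h1 using 1
  simp only [sub_mul, Finset.sum_sub_distrib]
  abel

theorem Sol.mul_pow {θ : PP R} {y : Fin n → R} {X : R} {c : θ.ι → Fin n → R}
    (h : Sol θ (P.lev l) y X c) (hy : ∀ j, y j * P.t - y j ∈ P.lev l) (k : ℕ) :
    Sol θ (P.lev l) y (X * P.t ^ k) c := by
  induction k with
  | zero => simpa using h
  | succ k ih =>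
    obtain ⟨w, hw⟩ := ih
    refine ⟨fun a => w a * P.t, fun i => ?_⟩
    have h1 : ∑ j, c i j * (y j * P.t - y j) ∈ P.lev l :=
      Submodule.sum_mem _ fun j _ => lmul _ (hy j)
    convert sub_mem (P.lev_mul l (hw i)) h1 using 1
    simp only [mul_sub, Finset.sum_sub_distrib, add_mul, Finset.sum_mul, mul_assoc, pow_succ]
    abel

theorem Sol.of_st [Module.Finite ℤ R] (hq : 0 < q) {θ : PP R} {y : Fin n → R} {X : R}
    {c : θ.ι → Fin n → R} {k : ℕ} (h : Sol θ (P.lev l) y (X * P.t ^ k) c)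
    (hy : ∀ j, y j * P.t - y j ∈ P.lev l) (hX : X ∈ P.st l) : Sol θ (P.lev l) y X c := by
  obtain ⟨K, hK⟩ := exists_idem hq P l
  have h1 : k ≤ K + k * K := by nlinarith [hK.1]
  refine (h.mul_pow hy (K + k * K - k)).congr ?_
  rw [mul_assoc, ← pow_add, Nat.add_sub_cancel' h1]
  convert add_mem (lmul X (hK.iter k)) (hK.fix hX) using 1
  rw [mul_sub, sub_add_sub_cancel]

theorem exists_TB {M : Type} [AddCommGroup M] [Module.Finite ℤ M] (q : ℕ) (K : AddSubgroup M) :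
    ∃ j, TB q K j := by
  have mono : ∀ {a b : ℕ} {v : M}, a ≤ b → q ^ a • v ∈ K → q ^ b • v ∈ K := fun {a b v} h hv => by
    rw [← Nat.sub_add_cancel h, pow_add, mul_smul]
    exact K.nsmul_mem hv _
  let N : ℕ →o Submodule ℤ M :=
    ⟨fun a => (K.comap (nsmulAddMonoidHom (q ^ a))).toIntSubmodule, fun a b h v hv => mono h hv⟩
  obtain ⟨j, hj⟩ := monotone_stabilizes_iff_noetherian.2 (inferInstance : IsNoetherian ℤ M) N
  refine ⟨j, fun a v hv => ?_⟩
  rcases le_total a j with h | h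
  · exact mono h hv
  · have : v ∈ N a := hv
    rw [← hj a h] at this
    exact this

theorem mem_of_coprime {M : Type} [AddCommGroup M] {K : AddSubgroup M} {a b : ℕ} {v : M}
    (h : a.Coprime b) (ha : a • v ∈ K) (hb : b • v ∈ K) : v ∈ K := by
  obtain ⟨u, w, e⟩ := Nat.isCoprime_iff_coprime.2 h
  have := add_mem (K.zsmul_mem ha u) (K.zsmul_mem hb w)
  rwa [← natCast_zsmul, ← natCast_zsmul, smul_smul, smul_smul, ← add_smul, e, one_smul] at this

theorem ec_sound [Module.Finite ℤ R] (hq : 0 < q) {φ ψ : PP R} {a : ℕ}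
    (h : EC φ ψ q P.I P.t a) : ∃ (E : R) (s : ℕ),
      (∀ l, ∀ z ∈ P.st l, E * z ∈ Psi ψ (P.lev l)) ∧
      ∀ (U : Submodule R R) (y : Fin n → R) (X : R) (c : φ.ι → Fin n → R),
        (∀ j, y j * (q : R) ∈ U) → Sol φ U y X c →
        (q : R) * ((((q ^ a * (1 + q * s) : ℕ) : R) - E) * X) ∈ U := by
  obtain ⟨s, k, E, u, h1, h2, h3⟩ := h
  refine ⟨E, s, fun l z hz => ?_, fun U y X c hy ⟨w, hw⟩ => ?_⟩
  · have key : ∀ i : ℕ, ∃ z', E * z * P.t ^ (k * i) - (q : R) ^ i * (E * z') ∈ Psi ψ P.I := by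
      intro i
      induction i with
      | zero => exact ⟨z, by simp⟩
      | succ i ih =>
        obtain ⟨z', hz'⟩ := ih
        obtain ⟨z'', hz''⟩ := h3 z'
        refine ⟨z'', ?_⟩
        convert add_mem (psi_tpow P.It hz' k) (AddSubgroup.nsmul_mem _ hz'' (q ^ i)) using 1
        rw [nsmul_eq_mul, Nat.cast_pow, mul_add, mul_one, pow_add, pow_succ]
        noncomm_ring
    obtain ⟨z', hz'⟩ := key l
    have h4 : (q : R) ^ l * (E * z') ∈ P.lev l :=
      Submodule.mem_sup_right (Submodule.mem_span_singleton.2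
        ⟨E * z', ((Nat.cast_commute q _).pow_left l).eq.symm⟩)
    have h5 := add_mem (psi_mono ψ (U' := P.lev l) le_sup_left hz') (mem_psi ψ h4)
    rw [sub_add_cancel, psi_iff (n := n)] at h5
    exact psi_iff.2 (h5.of_st hq (fun j => by simp) (lmul E hz))
  · have h4 : ∑ i, u i * (φ.h i * X + ∑ k, φ.H i k * w k + ∑ j, c i j * y j) ∈ U :=
      Submodule.sum_mem _ fun i _ => lmul _ (hw i)
    have h5 : ∑ i, u i * ∑ k, φ.H i k * w k = 0 := by
      simp only [Finset.mul_sum, ← mul_assoc]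
      rw [Finset.sum_comm]
      simp only [← Finset.sum_mul, h1, zero_mul, Finset.sum_const_zero]
    have h6 : (q : R) * ∑ i, u i * ∑ j, c i j * y j ∈ U := by
      simp only [Finset.mul_sum]
      refine Submodule.sum_mem _ fun i _ => Submodule.sum_mem _ fun j _ => ?_
      rw [(Nat.cast_commute q _).eq, mul_assoc, mul_assoc]
      exact lmul _ (lmul _ (hy j))
    simp only [mul_add, Finset.sum_add_distrib, h5, add_zero] at h4
    convert sub_mem (lmul (q : R) h4) h6 using 1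
    rw [mul_add (q : R) (∑ i, u i * (φ.h i * X)), add_sub_cancel_right, ← h2, Finset.sum_mul]
    simp only [mul_assoc]

theorem BY.free_real (φ : PP R) {E : R} {m : R}
    (h : ∀ (M : Type) [AddCommGroup M] [Module R M], ∀ x ∈ φ.set M, E • x = m • x) :
    ∃ u : φ.ι → R, (∀ c, ∑ i, u i * φ.H i c = 0) ∧ ∑ i, u i * φ.h i = m - E := by
  classical
  let row : φ.ι → (Option φ.κ → R) := fun i c => c.elim (φ.h i) (φ.H i)
  let p := (Submodule.span R (Set.range row)).mkQ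
  have h1 := h _ (p (Pi.single none 1)) ⟨fun k => p (Pi.single (some k) 1), fun i => by
    simp only [← map_smul, ← map_sum, ← map_add]
    rw [Submodule.mkQ_apply, Submodule.Quotient.mk_eq_zero]
    refine Submodule.subset_span ⟨i, funext fun c => ?_⟩
    cases c <;> simp [row, Finset.sum_apply, Pi.single_apply]⟩
  rw [← map_smul, ← map_smul, eq_comm, Submodule.mkQ_apply, Submodule.mkQ_apply,
    Submodule.Quotient.eq, Submodule.mem_span_range_iff_exists_fun] at h1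
  obtain ⟨u, hu⟩ := h1
  refine ⟨u, fun c => ?_, ?_⟩
  · simpa [row, Finset.sum_apply] using congrFun hu (some c)
  · simpa [row, Finset.sum_apply] using congrFun hu none

theorem BY.psi_lev {ψ : PP R} {j : ℕ} (hj : TB q (Kth ψ true P.I) j) {X : R} (d : ℕ)
    (hX : X ∈ Psi ψ (P.lev (j + d))) : ∃ X' : R, X - q ^ d • X' ∈ Psi ψ P.I := by
  obtain ⟨w, hw⟩ := hX
  have h1 : ∀ i, ∃ v : R, ψ.h i * X + ∑ k, ψ.H i k * w k - q ^ (j + d) • v ∈ P.I := fun i => by
    obtain ⟨u, hu, v, hv, e⟩ := Submodule.mem_sup.1 (hw i)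
    obtain ⟨c, rfl⟩ := Submodule.mem_span_singleton.1 hv
    refine ⟨c, ?_⟩
    rwa [← e, nsmul_eq_mul, Nat.cast_pow, smul_eq_mul,
      ((Nat.cast_commute q c).pow_left _).eq, add_sub_cancel_right]
  choose v hv using h1
  obtain ⟨X', w', -, hw'⟩ := hj (j + d) v ⟨X, w, nofun, hv⟩
  refine ⟨X', w - q ^ d • w', fun i => ?_⟩
  convert sub_mem (hv i) (P.I.toAddSubgroup.nsmul_mem (hw' i) (q ^ d)) using 1
  simp only [Pi.sub_apply, Pi.smul_apply, mul_sub, mul_smul_comm, Finset.sum_sub_distrib,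
    smul_sub, smul_add, Finset.smul_sum, smul_smul, ← pow_add, add_comm d j]
  abel

theorem ec_complete [Module.Finite ℤ R] (hreg : Reg ℤ R) (_hq : 0 < q) {φ ψ : PP R}
    (h : ∀ E : R, (∀ (M : Type) [AddCommGroup M] [Module R M] (x : M), E • x ∈ φ.set M) →
      ∃ N : ℕ, 0 < N ∧ ∀ l, ∃ k, ∀ z : R, (N : R) * E * z * P.t ^ k ∈ Psi ψ (P.lev l)) :
    ∃ a, EC φ ψ q P.I P.t a := by
  obtain ⟨E, m, hm, hE⟩ := exists_E hreg φ
  obtain ⟨N, hN, hl⟩ := h E fun M _ _ => (hE M).1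
  obtain ⟨u, hu, hu'⟩ := free_real φ fun M _ _ => (hE M).2
  obtain ⟨a, s, c, hc⟩ := exists_mul_eq q (mul_ne_zero (Int.natCast_ne_zero.2 hN.ne') hm)
  obtain ⟨j, hj⟩ := exists_TB q (Kth ψ true P.I)
  obtain ⟨j', hj'⟩ := exists_TB q (Psi ψ P.I ⊔ (AddMonoidHom.mulLeft (c • ((N : R) * E))).range)
  obtain ⟨k, hk⟩ := hl (j + (j' + 1))
  refine ⟨a, s, k, c • ((N : R) * E), fun i => c • ((N : R) * u i), fun b => ?_, ?_, fun z => ?_⟩
  · simp only [smul_mul_assoc, mul_assoc, ← Finset.smul_sum, ← Finset.mul_sum, hu, mul_zero,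
      smul_zero]
  · simp only [smul_mul_assoc, mul_assoc, ← Finset.smul_sum, ← Finset.mul_sum, hu', mul_sub,
      smul_sub]
    congr 1
    rw [← Int.cast_natCast (R := R) (q ^ a * (1 + q * s)), ← hc, zsmul_eq_mul]
    simp
  · have h1 := AddSubgroup.zsmul_mem _ (hk z) c
    obtain ⟨X, hX⟩ := psi_lev hj _ h1
    have h2 : q ^ (j' + 1) • X ∈
        Psi ψ P.I ⊔ (AddMonoidHom.mulLeft (c • ((N : R) * E))).range := by
      have := sub_mem (AddSubgroup.mem_sup_right (S := Psi ψ P.I)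
        (T := (AddMonoidHom.mulLeft (c • ((N : R) * E))).range) ⟨z * P.t ^ k, rfl⟩)
        (AddSubgroup.mem_sup_left hX)
      simpa [mul_assoc] using this
    obtain ⟨p, hp, _, ⟨z', rfl⟩, e⟩ := AddSubgroup.mem_sup.1 (hj' _ X h2)
    refine ⟨z', ?_⟩
    convert add_mem hX (AddSubgroup.nsmul_mem _ hp q) using 1
    rw [pow_succ', mul_smul, ← e]
    simp only [AddMonoidHom.coe_mulLeft, smul_add, nsmul_eq_mul, smul_mul_assoc]
    abel

end Pool.Agent.Lib.MP_c13fce_lc.NRE
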