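import Pool.Agent.Lib.Rlz.NatBle
import Pool.Agent.Lib.MP_c13fce_lc.NREy1
import Pool.Agent.Lib.MP_c13fce_lc.NREc1

/-! Block BY, second half: recursively enumerable torsion bounds and exponent certificates. -/

namespace Pool.Agent.Lib.MP_c13fce_lc.NRE

open Pool.Agent.Lib.MP_a1ec0a_al Matrix

variable {R : Type} [Ring R]

open BC

namespace BY

theorem tb_core [Module.Free ℤ R] {ι κ : Type} [Fintype ι] [Fintype κ] {M : Matrix ι κ R}
    {Y : Matrix κ ι R} {m₁ m₂ N : ℕ} (hM : M * Y * M = m₁ • M) {I : Submodule R R} {e : R}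
    (he : e ∈ I) (hI : ∀ x ∈ I, x * e = m₂ • x) (hN : N ≠ 0) {v : ι → R} {w : κ → R}
    (h : ∀ i, (M *ᵥ w) i - N • v i ∈ I) :
    ∃ w' : κ → R, ∀ i, (M *ᵥ w') i - (m₁ * m₂) • v i ∈ I := by
  have h1 : ∀ i, N • (m₁ • v - (M * Y) *ᵥ v) i ∈ I := fun i => by
    have e1 : N • (m₁ • v - (M * Y) *ᵥ v) =
        (M * Y) *ᵥ (M *ᵥ w - N • v) - m₁ • (M *ᵥ w - N • v) := by
      rw [mulVec_sub, mulVec_mulVec, hM, smul_mulVec, mulVec_smul, smul_sub, smul_sub,
        smul_comm N m₁]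
      abel
    have e2 := congrFun e1 i
    rw [Pi.smul_apply] at e2
    rw [e2, Pi.sub_apply]
    exact sub_mem (I.sum_mem fun b _ => lmul _ (h b)) (nsmul_mem (h i) _)
  refine ⟨m₂ • (Y *ᵥ v), fun i => ?_⟩
  have h2 := hI _ (h1 i)
  rw [smul_mul_assoc, smul_comm m₂ N, ← natCast_zsmul, ← natCast_zsmul _ N] at h2
  have h3 := smul_right_injective R (Int.natCast_ne_zero.2 hN) h2
  have h4 := neg_mem (h3 ▸ lmul ((m₁ • v - (M * Y) *ᵥ v) i) he)
  convert h4 using 1
  rw [mulVec_smul, mulVec_mulVec, mul_comm m₁, mul_smul, Pi.sub_apply, smul_sub, neg_sub]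
  rfl

/-- The matrix of a code, with the first column removed when `k = false`. -/
def mx (L : PPc R) (k : Bool) (i c : ℕ) : R := bif (k || Nat.ble 1 c) then ent L i c else 0

/-- The same as a matrix. -/
def mM (L : PPc R) (k : Bool) : Matrix (Fin L.length) (Fin ((L.map List.length).sum + 1)) R :=
  Matrix.of fun i c => mx L k i c

theorem kth_iff {L : PPc R} {k : Bool} {I : Submodule R R} {v : Fin L.length → R} :
    v ∈ Kth L.toPP k I ↔ ∃ w, ∀ i, (mM L k *ᵥ w) i - v i ∈ I := by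
  have key : ∀ w i, (mM L k *ᵥ w) i = ent L i 0 * (bif k then w 0 else 0) +
      ∑ c : Fin (L.map List.length).sum, ent L i (c + 1) * w c.succ := fun w i => by
    cases k <;> simp [mM, mx, mulVec, dotProduct, Fin.sum_univ_succ, Nat.ble]
  simp only [key]
  constructor
  · rintro ⟨X, w, hX, h⟩
    refine ⟨Fin.cons X w, fun i => ?_⟩
    have : (bif k then X else 0) = X := by
      cases k
      exacts [(hX rfl).symm, rfl]
    simp only [Fin.cons_zero, Fin.cons_succ, this]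
    exact h i
  · rintro ⟨w, h⟩
    exact ⟨bif k then w 0 else 0, fun c : Fin _ => w c.succ, fun e => by simp [e], h⟩

/-- Numbers of the form `q ^ j (1 + q s)`. -/
def mq (R : Type) [Ring R] (q j s : ℕ) : R := ((q ^ j * (1 + q * s) : ℕ) : R)

/-- `e` acts on the generators as the scalar `m`. -/
def PA (g : List R) (e m : R) : Prop := AllL g fun x => x * e = m * x

/-- `Y` is a generalised inverse up to the scalar `m`. -/
def PB (L : PPc R) (k : Bool) (Y : Mat R) (m : R) : Prop :=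
  AllL (List.range L.length) fun i => AllL (List.range ((L.map List.length).sum + 1)) fun c =>
    ∑ b ∈ Finset.range L.length, (∑ a ∈ Finset.range ((L.map List.length).sum + 1),
      mx L k i a * ent Y a b) * mx L k b c = m * mx L k i c

/-- The certificate for a torsion bound. -/
def TBC (q : ℕ) (L : PPc R) (k : Bool) (g : List R) (j : ℕ) : Prop :=
  ∃ j₁ j₂ : ℕ, j = j₁ + j₂ ∧ (∃ (s : ℕ) (Y : Mat R), PB L k Y (mq R q j₁ s)) ∧
    ∃ (s : ℕ) (e : R), InC g 0 e ∧ PA g e (mq R q j₂ s)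

theorem TBC.sound [Module.Free ℤ R] {q : ℕ} {L : PPc R} {k : Bool} {g : List R} {j : ℕ}
    (hq : 0 < q) (h : TBC q L k g j) : TB q (Kth L.toPP k (spanL g)) j := by
  obtain ⟨j₁, j₂, rfl, ⟨s₁, Y, hM⟩, s₂, e, he, hg⟩ := h
  intro a v hv
  simp only [PB, all_range, Finset.sum_range] at hM
  obtain ⟨w, hw⟩ := kth_iff.1 hv
  have hI : ∀ x ∈ spanL g, x * e = (q ^ j₂ * (1 + q * s₂)) • x := fun x hx => by
    induction hx using Submodule.span_induction with
    | mem x hx => rw [nsmul_eq_mul]; exact hg x hx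
    | zero => simp
    | add x y _ _ hx hy => rw [add_mul, hx, hy, smul_add]
    | smul r x _ hx => rw [smul_eq_mul, mul_assoc, hx, mul_smul_comm]
  obtain ⟨w', hw'⟩ := tb_core (M := mM L k) (Y := Matrix.of fun a b => ent Y a b)
    (m₁ := q ^ j₁ * (1 + q * s₁)) (by
      ext i c
      rw [Matrix.smul_apply, nsmul_eq_mul]
      exact hM i c) (cU_zero g ▸ he) hI (pow_pos hq a).ne' hw
  have h1 : (q ^ j₁ * (1 + q * s₁) * (q ^ j₂ * (1 + q * s₂))) • v ∈ Kth L.toPP k (spanL g) :=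
    kth_iff.2 ⟨w', hw'⟩
  have hc : ∀ s, (q ^ a).Coprime (1 + q * s) := fun s =>
    Nat.Coprime.pow_left _ (by simp)
  refine mem_of_coprime (Nat.Coprime.mul_right (hc s₁) (hc s₂)) ?_ ?_
  · rw [smul_comm]; exact nsmul_mem hv _
  · convert h1 using 1
    rw [← mul_smul, pow_add]
    congr 1
    ring

theorem TBC.complete (hreg : Reg ℤ R) (q : ℕ) (L : PPc R) (k : Bool) (g : List R) :
    ∃ j, TBC q L k g j := by
  obtain ⟨Y, m, hm, hY⟩ := hreg _ _ (mM L k)
  obtain ⟨Y', m', hm', hY'⟩ := hreg (Fin g.length) Unit (Matrix.of fun i _ => g.getD i 0)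
  obtain ⟨j₁, s₁, c₁, h₁⟩ := exists_mul_eq q hm
  obtain ⟨j₂, s₂, c₂, h₂⟩ := exists_mul_eq q hm'
  obtain ⟨Z, hZ⟩ := exists_mat (c₁ • Y)
  refine ⟨_, j₁, j₂, rfl, ⟨s₁, Z, ?_⟩, s₂, c₂ • ∑ b : Fin g.length, Y' () b * g.getD b 0,
    mem_cU.2 ⟨fun b => c₂ • Y' () b, 0, by simp [Finset.mul_sum, mul_assoc]⟩, fun x hx => ?_⟩
  swap
  · obtain ⟨i, rfl⟩ := List.mem_iff_get.1 hx
    have := congrFun (congrFun hY' i) ()
    rw [Matrix.mul_assoc] at this
    simp only [Matrix.mul_apply, Matrix.of_apply, Matrix.smul_apply, Finset.univ_unique,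
      Finset.sum_singleton] at this
    have e : g.get i = g.getD i 0 := by simp [List.getD_eq_getElem?_getD]
    rw [e, mul_smul_comm, this, smul_smul, h₂, natCast_zsmul, nsmul_eq_mul, mq]
  · simp only [PB, all_range, Finset.sum_range, hZ]
    intro i c
    have : mM L k * (c₁ • Y) * mM L k = (q ^ j₁ * (1 + q * s₁)) • mM L k := by
      rw [Matrix.mul_smul, Matrix.smul_mul, hY, smul_smul, h₁, natCast_zsmul]
    have := congrFun (congrFun this i) c
    rw [Matrix.smul_apply, nsmul_eq_mul] at this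
    exact this

theorem psi_code {L : PPc R} {g : List R} {X : R} : (∃ w : List R,
    AllL (List.range L.length) fun i => InC g 0 (ent L i 0 * X +
      ∑ c ∈ Finset.range (L.map List.length).sum, ent L i (c + 1) * w.getD c 0)) ↔
    X ∈ Psi L.toPP (spanL g) := by
  simp only [all_range, Finset.sum_range, InC, cU_zero]
  refine ⟨fun ⟨w, h⟩ => ⟨_, h⟩, ?_⟩
  rintro ⟨w, h⟩
  obtain ⟨w, rfl⟩ := exists_vec (n := (L.map List.length).sum) w
  exact ⟨w, h⟩

/-- Membership in `Psi`. -/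
def PC (L : PPc R) (g : List R) (X : R) : Prop := X ∈ Psi L.toPP (spanL g)

/-- A combination of the rows with first entry `X` and other entries zero. -/
def PD (L : PPc R) (X : R) : Prop :=
  ∃ u : L.toPP.ι → R, (∀ c, ∑ i, u i * L.toPP.H i c = 0) ∧ ∑ i, u i * L.toPP.h i = X

/-- The last condition of the certificate. -/
def PE (q : ℕ) (L : PPc R) (g : List R) (E T : R) : Prop :=
  ∀ z : R, ∃ z' : R, PC L g (E * z * T - (q : R) * (E * z'))

variable {α : Type} [Primcodable α] [Primcodable R] [CR R]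

omit [CR R] in
@[fun_prop] theorem pr_mx {L : α → PPc R} {k : α → Bool} {i c : α → ℕ} (hL : PR L) (hk : PR k)
    (hi : PR i) (hc : PR c) : PR fun a => mx (L a) (k a) (i a) (c a) := by
  unfold mx; fun_prop

@[fun_prop] theorem pr_mq {q j s : α → ℕ} (hq : PR q) (hj : PR j) (hs : PR s) :
    PR fun a => mq R (q a) (j a) (s a) := by
  unfold mq; fun_prop

@[fun_prop] theorem s1_PA {g : α → List R} {e m : α → R} (hg : PR g) (he : PR e) (hm : PR m) :
    S1 fun a => PA (g a) (e a) (m a) := by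
  unfold PA; fun_prop

@[fun_prop] theorem s1_PB {L : α → PPc R} {k : α → Bool} {Y : α → Mat R} {m : α → R} (hL : PR L)
    (hk : PR k) (hY : PR Y) (hm : PR m) : S1 fun a => PB (L a) (k a) (Y a) (m a) := by
  unfold PB; fun_prop

theorem s1_TBC {q j : α → ℕ} {L : α → PPc R} {k : α → Bool} {g : α → List R} (hq : PR q)
    (hL : PR L) (hk : PR k) (hg : PR g) (hj : PR j) :
    S1 fun a => TBC (q a) (L a) (k a) (g a) (j a) := by
  unfold TBC; fun_prop

@[fun_prop] theorem s1_PC {L : α → PPc R} {g : α → List R} {X : α → R} (hL : PR L) (hg : PR g)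
    (hX : PR X) : S1 fun a => PC (L a) (g a) (X a) := by
  refine S1.congr ?_ fun a => psi_code
  fun_prop

@[fun_prop] theorem s1_PD {L : α → PPc R} {X : α → R} (hL : PR L) (hX : PR X) :
    S1 fun a => PD (L a) (X a) := by
  have : S1 fun x => ∃ u : List R, AllL (List.range ((L x).map List.length).sum) (fun c =>
        ∑ i ∈ Finset.range (L x).length, u.getD i 0 * ent (L x) i (c + 1) = 0) ∧
      ∑ i ∈ Finset.range (L x).length, u.getD i 0 * ent (L x) i 0 = X x := by fun_prop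
  refine this.congr fun x => ?_
  simp only [all_range, Finset.sum_range]
  refine ⟨fun ⟨u, h⟩ => ⟨fun i : Fin _ => u.getD i 0, h⟩, ?_⟩
  rintro ⟨u, h⟩
  obtain ⟨u, rfl⟩ := exists_vec (n := (L x).length) u
  exact ⟨u, h⟩

@[fun_prop] theorem s1_PE [Module.Finite ℤ R] {q : α → ℕ} {L : α → PPc R} {g : α → List R}
    {E T : α → R} (hq : PR q) (hL : PR L) (hg : PR g) (hE : PR E) (hT : PR T) :
    S1 fun a => PE (q a) (L a) (g a) (E a) (T a) := by
  obtain ⟨Z, hZ⟩ := Module.Finite.fg_top (R := ℤ) (M := R)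
  have : S1 fun x => AllL Z.toList fun z => ∃ z' : R,
      PC (L x) (g x) (E x * z * T x - (q x : R) * (E x * z')) := by fun_prop
  refine this.congr fun x => ⟨fun h z => ?_, fun h z _ => h z⟩
  have hz : z ∈ Submodule.span ℤ (Z : Set R) := hZ ▸ Submodule.mem_top
  unfold PC
  induction hz using Submodule.span_induction with
  | mem z hz => exact h z (Finset.mem_toList.2 hz)
  | zero => exact ⟨0, by simp⟩
  | add y z _ _ hy hz =>
    obtain ⟨y', hy⟩ := hy
    obtain ⟨z', hz⟩ := hz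
    refine ⟨y' + z', ?_⟩
    convert add_mem hy hz using 1
    simp only [mul_add, add_mul]
    abel
  | smul r z _ hz =>
    obtain ⟨z', hz⟩ := hz
    refine ⟨r • z', ?_⟩
    convert zsmul_mem hz r using 1
    simp only [mul_smul_comm, smul_mul_assoc, smul_sub]

end BY

open BY

theorem exists_TBC [Primcodable R] [CR R] [Module.Free ℤ R] [Module.Finite ℤ R] (hreg : Reg ℤ R) :
    ∃ C : ℕ × PPc R × Bool × List R × ℕ → Prop, S1 C ∧
      (∀ q L k g j, 0 < q → C (q, L, k, g, j) → TB q (Kth L.toPP k (spanL g)) j) ∧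
      ∀ q L k g, 0 < q → ∃ j, C (q, L, k, g, j) :=
  ⟨fun x => TBC x.1 x.2.1 x.2.2.1 x.2.2.2.1 x.2.2.2.2,
    s1_TBC (by fun_prop) (by fun_prop) (by fun_prop) (by fun_prop) (by fun_prop),
    fun _ _ _ _ _ hq h => h.sound hq, fun q L k g _ => TBC.complete hreg q L k g⟩

@[fun_prop] theorem s1_ECC {α : Type} [Primcodable α] [Primcodable R] [CR R] [Module.Finite ℤ R]
    {q a : α → ℕ} {L L' : α → PPc R} {g : α → List R} {t : α → R} (hq : PR q) (hL : PR L)
    (hL' : PR L') (hg : PR g) (ht : PR t) (ha : PR a) :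
    S1 fun x => ECC (q x) (L x) (L' x) (g x) (t x) (a x) := by
  have : S1 fun x => ∃ E : R, (∃ s : ℕ, PD (L x) (mq R (q x) (a x) s - E)) ∧
      ∃ k : ℕ, PE (q x) (L' x) (g x) E (t x ^ k) := by fun_prop
  refine this.congr fun x => ⟨?_, ?_⟩
  · rintro ⟨E, ⟨s, u, h1, h2⟩, k, h3⟩
    exact ⟨s, k, E, u, h1, h2, h3⟩
  · rintro ⟨s, k, E, u, h1, h2, h3⟩
    exact ⟨E, ⟨s, u, h1, h2⟩, k, h3⟩

end Pool.Agent.Lib.MP_c13fce_lc.NRE
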