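import Pool.Agent.Lib.MP_c13fce_lc.NRE1
import Pool.Agent.Lib.MP_c13fce_lc.NREc
import Pool.Agent.Lib.MP_c13fce_lc.NREy

/-! Block BA: the claims realised by adic ends are recursively enumerable. -/

namespace Pool.Agent.Lib.MP_c13fce_lc.NRE

open Pool.Agent.Lib.MP_a1ec0a_al

variable {R : Type} [Ring R] {n : ℕ}

namespace BA

section basic
variable {q : ℕ} {P : PData R (q : R) n} {θ : PP R} {U U' : Submodule R R} {y : Fin n → R}

theorem sol_mono {X : R} {c : θ.ι → Fin n → R} (h : Sol θ U y X c) (hU : U ≤ U') :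
    Sol θ U' y X c := by
  obtain ⟨w, hw⟩ := h
  exact ⟨w, fun i => hU (hw i)⟩

theorem sol_sub {X X' : R} {c c' : θ.ι → Fin n → R} (h : Sol θ U y X c) (h' : Sol θ U y X' c') :
    Sol θ U y (X - X') (c - c') := by
  obtain ⟨w, hw⟩ := h
  obtain ⟨w', hw'⟩ := h'
  refine ⟨w - w', fun i => ?_⟩
  have := sub_mem (hw i) (hw' i)
  simp only [Pi.sub_apply, mul_sub, sub_mul, Finset.sum_sub_distrib]
  convert this using 1
  abel

theorem mkV_sub (q : ℕ) {θ : PP R} (c d : θ.ι → Fin n → R) :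
    mkV q (c - d) = mkV q c - mkV q d := rfl

theorem solS_mono {S : Set (V θ q n)} {X : R} (h : SolS θ q U y S X) (hU : U ≤ U') :
    SolS θ q U' y S X := by
  obtain ⟨c, hc, h⟩ := h
  exact ⟨c, hc, sol_mono h hU⟩

theorem solS_congr {S : Set (V θ q n)} {X X' : R} (h : SolS θ q U y S X) (hX : X - X' ∈ U) :
    SolS θ q U y S X' := by
  obtain ⟨c, hc, h⟩ := h
  exact ⟨c, hc, h.congr hX⟩

theorem solS_sub {S : AddSubgroup (V θ q n)} {X X' : R} (h : SolS θ q U y S X)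
    (h' : SolS θ q U y S X') : SolS θ q U y S (X - X') := by
  obtain ⟨c, hc, h⟩ := h
  obtain ⟨c', hc', h'⟩ := h'
  exact ⟨c - c', by rw [mkV_sub]; exact S.sub_mem hc hc', sol_sub h h'⟩

theorem I_le_lev (P : PData R (q : R) n) (l : ℕ) : P.I ≤ P.lev l := le_sup_left

theorem pow_mul_mem_lev (P : PData R (q : R) n) (l : ℕ) (s : R) : (q : R) ^ l * s ∈ P.lev l := by
  refine Submodule.mem_sup_right (Submodule.mem_span_singleton.2 ⟨s, ?_⟩)
  rw [smul_eq_mul, ← Nat.cast_pow, Nat.cast_comm]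

theorem mem_lev {l : ℕ} {x : R} : x ∈ P.lev l ↔ ∃ s : R, x - (q : R) ^ l * s ∈ P.I := by
  constructor
  · intro hx
    obtain ⟨u, hu, v, hv, rfl⟩ := Submodule.mem_sup.1 hx
    obtain ⟨c, rfl⟩ := Submodule.mem_span_singleton.1 hv
    refine ⟨c, ?_⟩
    rw [smul_eq_mul, ← Nat.cast_pow, Nat.cast_comm]
    simpa using hu
  · rintro ⟨s, hs⟩
    have := add_mem (I_le_lev P l hs) (pow_mul_mem_lev P l s)
    simpa using this

theorem lev_mul_pow_t (l k : ℕ) {x : R} (hx : x ∈ P.lev l) : x * P.t ^ k ∈ P.lev l := by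
  induction k with
  | zero => simpa using hx
  | succ k ih => rw [pow_succ, ← mul_assoc]; exact P.lev_mul l ih

theorem aSeq_sub {x : ℕ → R} (hx : x ∈ P.aSeq) {l l' : ℕ} (h : l ≤ l') :
    x l' - x l ∈ P.lev l := by
  induction l', h using Nat.le_induction with
  | base => simp
  | succ m hm ih =>
    have := add_mem (lev_anti P hm (PData.mem_aSeq.1 hx m).1) ih
    simpa using this

theorem sol_down {x : ℕ → R} (hx : x ∈ P.aSeq) {l l' : ℕ} (h : l ≤ l') {c : θ.ι → Fin n → R}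
    (hs : Sol θ (P.lev l') y (x l') c) : Sol θ (P.lev l) y (x l) c :=
  (sol_mono hs (lev_anti P h)).congr (aSeq_sub hx h)

theorem solS_down {x : ℕ → R} (hx : x ∈ P.aSeq) {l l' : ℕ} (h : l ≤ l') {S : Set (V θ q n)}
    (hs : SolS θ q (P.lev l') y S (x l')) : SolS θ q (P.lev l) y S (x l) :=
  solS_congr (solS_mono hs (lev_anti P h)) (aSeq_sub hx h)

/-- Limits of sequences of ring elements in the adic end. -/
theorem exists_lim [Module.Finite ℤ R] (hq : 0 < q) (P : PData R (q : R) n) (u : ℕ → R) :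
    ∃ w : P.aSeq, ∀ L K, Idem P L K →
      ∀ᶠ l in (Filter.hyperfilter ℕ : Filter ℕ), u l * P.t ^ K - w.1 L ∈ P.lev L := by
  choose K hK using exists_idem hq P
  have : ∀ L, ∃ ω : R, ∀ᶠ l in (Filter.hyperfilter ℕ : Filter ℕ), u l - ω ∈ P.lev L := by
    intro L
    have := finite_lev hq P L
    obtain ⟨b, hb⟩ := exists_ulim (fun l => (Submodule.Quotient.mk (u l) : R ⧸ P.lev L))
    obtain ⟨ω, rfl⟩ := Submodule.Quotient.mk_surjective _ b
    exact ⟨ω, hb.mono fun l hl => (Submodule.Quotient.eq _).1 hl⟩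
  choose ω hω using this
  refine ⟨⟨fun L => ω L * P.t ^ K L, PData.mem_aSeq.2 fun L => ⟨?_, (hK L).mem_st _⟩⟩, ?_⟩
  · obtain ⟨l, h1, h2⟩ := ((hω L).and (hω (L + 1))).exists
    have e1 : ω (L + 1) - ω L ∈ P.lev L := by
      have := sub_mem h1 (lev_anti P (Nat.le_succ L) h2)
      simpa using this
    have e2 := ((hK (L + 1)).mono (Nat.le_succ L)).sub_mem (hK L)
    have := add_mem (Submodule.smul_mem _ (ω (L + 1)) e2) (lev_mul_pow_t L (K L) e1)
    convert this using 1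
    simp only [smul_eq_mul, mul_sub, sub_mul]
    abel
  · intro L K' hK'
    refine (hω L).mono fun l hl => ?_
    have e2 := hK'.sub_mem (hK L)
    have := add_mem (Submodule.smul_mem _ (u l) e2) (lev_mul_pow_t L (K L) hl)
    convert this using 1
    simp only [smul_eq_mul, mul_sub, sub_mul]
    abel

theorem exists_pi [Module.Finite ℤ R] (hq : 0 < q) (P : PData R (q : R) n) (X : R) :
    ∃ w : P.aSeq, ∀ L K, Idem P L K → X * P.t ^ K - w.1 L ∈ P.lev L := by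
  obtain ⟨w, hw⟩ := exists_lim hq P fun _ => X
  exact ⟨w, fun L K h => (hw L K h).exists.choose_spec⟩

theorem cy_mul_q {c : θ.ι → Fin n → R} (hyq : ∀ j, y j * (q : R) ∈ U) (i : θ.ι) :
    (q : R) * ∑ j, c i j * y j ∈ U := by
  rw [Finset.mul_sum]
  refine Submodule.sum_mem _ fun j _ => ?_
  have := U.smul_mem (c i j) (hyq j)
  rw [smul_eq_mul, ← mul_assoc, ← Nat.cast_comm] at this
  exact this

theorem kth_cy (k : Bool) {c : θ.ι → Fin n → R} (hyq : ∀ j, y j * (q : R) ∈ U) :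
    q • (fun i => ∑ j, c i j * y j) ∈ Kth θ k U := by
  refine ⟨0, 0, fun _ => rfl, fun i => ?_⟩
  have := neg_mem (cy_mul_q (c := c) hyq i)
  simpa using this

/-- A solution at a high level gives an exact solution. -/
theorem kth_of_level {k : Bool} {j : ℕ} (hj : TB q (Kth θ k P.I) j)
    (hyq : ∀ j, y j * (q : R) ∈ P.I) {X : R} (hX : k = false → X = 0) {c : θ.ι → Fin n → R}
    {l : ℕ} (hl : j ≤ l) (h : Sol θ (P.lev l) y X c) :
    (fun i => ∑ j, c i j * y j) ∈ Kth θ k P.I := by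
  obtain ⟨w, hw⟩ := h
  choose s hs using fun i => mem_lev.1 (hw i)
  have h1 : q ^ l • s - (fun i => ∑ j, c i j * y j) ∈ Kth θ k P.I := by
    refine ⟨X, w, hX, fun i => ?_⟩
    convert hs i using 1
    rw [Pi.sub_apply, Pi.smul_apply, nsmul_eq_mul, Nat.cast_pow]
    abel
  have h2 : q ^ (l + 1) • s ∈ Kth θ k P.I := by
    have := add_mem (nsmul_mem h1 q) (kth_cy k (c := c) hyq)
    rwa [smul_sub, sub_add_cancel, smul_smul, ← pow_succ'] at this
  have h3 : q ^ l • s ∈ Kth θ k P.I := by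
    have := nsmul_mem (hj _ _ h2) (q ^ (l - j))
    rwa [smul_smul, ← pow_add, Nat.sub_add_cancel hl] at this
  have := sub_mem h3 h1
  rwa [sub_sub_cancel] at this

theorem exact_of_levels [Module.Finite ℤ R] {k : Bool} (hyq : ∀ j, y j * (q : R) ∈ P.I)
    {c : θ.ι → Fin n → R} (h : ∀ l, ∃ X, (k = false → X = 0) ∧ Sol θ (P.lev l) y X c) :
    ∃ X, (k = false → X = 0) ∧ Sol θ P.I y X c := by
  obtain ⟨j, hj⟩ := exists_TB q (Kth θ k P.I)
  obtain ⟨X, hX, hs⟩ := h j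
  obtain ⟨X', w, hX', hw⟩ := neg_mem (kth_of_level hj hyq hX le_rfl hs)
  exact ⟨X', hX', w, fun i => by simpa using hw i⟩

theorem exact_near [Module.Finite ℤ R] (hyq : ∀ j, y j * (q : R) ∈ P.I) {x : ℕ → R}
    (hx : x ∈ P.aSeq) {c : θ.ι → Fin n → R} (h : ∀ l, Sol θ (P.lev l) y (x l) c) (l : ℕ) :
    ∃ X, Sol θ P.I y X c ∧ X - x l ∈ P.lev l := by
  obtain ⟨j, hj⟩ := exists_TB q (Kth θ true P.I)
  have h0 := kth_of_level hj hyq (X := x j) nofun le_rfl (h j)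
  obtain ⟨w, hw⟩ := h (l + j)
  choose s hs using fun i => mem_lev.1 (hw i)
  have h1 : q ^ (l + j) • s - (fun i => ∑ j, c i j * y j) ∈ Kth θ true P.I := by
    refine ⟨x (l + j), w, nofun, fun i => ?_⟩
    convert hs i using 1
    rw [Pi.sub_apply, Pi.smul_apply, nsmul_eq_mul, Nat.cast_pow]
    abel
  have h2 : q ^ (l + j) • s ∈ Kth θ true P.I := by simpa using add_mem h1 h0
  obtain ⟨X', w', -, hw'⟩ := hj _ _ h2
  have hc : ∀ r : R, r * (q : R) ^ l = (q : R) ^ l * r := fun r => by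
    rw [← Nat.cast_pow, Nat.cast_comm]
  refine ⟨x (l + j) - (q : R) ^ l * X', ⟨fun k => w k - (q : R) ^ l * w' k, fun i => ?_⟩, ?_⟩
  · have := sub_mem (hs i) (P.I.smul_mem ((q : R) ^ l) (hw' i))
    convert this using 1
    simp only [Pi.smul_apply, nsmul_eq_mul, Nat.cast_pow, smul_eq_mul, mul_sub, mul_add,
      Finset.sum_sub_distrib, Finset.mul_sum, pow_add, ← mul_assoc, hc]
    abel
  · have := sub_mem (aSeq_sub hx (Nat.le_add_right l j)) (pow_mul_mem_lev P l X')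
    convert this using 1
    abel

end basic

section adic
variable {q : ℕ} {P : PData R (q : R) n} {hy : ∀ i, P.y i * P.t - P.y i ∈ P.I} {θ : PP R}

/-- The class of a compatible sequence. -/
def cl (hy : ∀ i, P.y i * P.t - P.y i ∈ P.I) : P.aSeq →ₗ[R] (ptBP (P.adic hy)).Y :=
  (P.aNull.submoduleOf P.aSeq).mkQ

theorem cl_surj (hy : ∀ i, P.y i * P.t - P.y i ∈ P.I) : Function.Surjective (cl hy) :=
  Submodule.mkQ_surjective _

theorem cl_eq_zero {x : P.aSeq} : cl hy x = 0 ↔ ∀ l, x.1 l ∈ P.lev l :=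
  (Submodule.Quotient.mk_eq_zero _).trans PData.mem_aNull

/-- The marked elements as sequences. -/
def ys (hy : ∀ i, P.y i * P.t - P.y i ∈ P.I) (j : Fin n) : P.aSeq :=
  ⟨fun _ => P.y j, PData.mem_aSeq.2 fun l =>
    ⟨by simp, P.mem_st l (Submodule.mem_sup_left (hy j))⟩⟩

theorem hyl (hy : ∀ i, P.y i * P.t - P.y i ∈ P.I) (l : ℕ) (j : Fin n) :
    P.y j * P.t - P.y j ∈ P.lev l := I_le_lev P l (hy j)

theorem relR_iff {x : P.aSeq} {c c' : θ.ι → Fin n → R} :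
    (ptBP (P.adic hy)).relR θ (cl hy x) c c' ↔ ∃ w : θ.κ → P.aSeq, ∀ i l,
      θ.h i * x.1 l + ∑ k, θ.H i k * (w k).1 l + ∑ j, c i j * P.y j ∈ P.lev l := by
  have key : ∀ (w : θ.κ → P.aSeq) (i : θ.ι),
      (θ.h i • cl hy x + ∑ k, θ.H i k • cl hy (w k) =
        ∑ j, c' i j • (ptBP (P.adic hy)).r j - ∑ j, c i j • (ptBP (P.adic hy)).l j) ↔
      ∀ l, θ.h i * x.1 l + ∑ k, θ.H i k * (w k).1 l + ∑ j, c i j * P.y j ∈ P.lev l := by
    intro w i
    have e1 : ∀ j, (ptBP (P.adic hy)).r j = 0 := fun _ => rfl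
    have e2 : ∀ j, (ptBP (P.adic hy)).l j = cl hy (ys hy j) := fun _ => rfl
    simp only [e1, e2, smul_zero, Finset.sum_const_zero, zero_sub, eq_neg_iff_add_eq_zero,
      ← map_smul, ← map_sum, ← map_add, cl_eq_zero]
    refine forall_congr' fun l => ?_
    simp [ys]
  constructor
  · rintro ⟨w, hw⟩
    choose w' hw' using fun k => cl_surj hy (w k)
    refine ⟨w', fun i => (key w' i).1 ?_⟩
    simpa only [hw'] using hw i
  · rintro ⟨w, hw⟩
    exact ⟨fun k => cl hy (w k), fun i => (key w i).2 (hw i)⟩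

variable [Module.Finite ℤ R]

theorem relR_char (hq : 0 < q) {x : P.aSeq} {c c' : θ.ι → Fin n → R} :
    (ptBP (P.adic hy)).relR θ (cl hy x) c c' ↔ ∀ l, Sol θ (P.lev l) P.y (x.1 l) c := by
  rw [relR_iff]
  constructor
  · rintro ⟨w, hw⟩ l
    exact ⟨fun k => (w k).1 l, fun i => hw i l⟩
  · intro h
    choose u hu using h
    choose w hw using fun k => exists_lim hq P fun l => u l k
    refine ⟨w, fun i L => ?_⟩
    obtain ⟨K, hK⟩ := exists_idem hq P L
    obtain ⟨l, h1, h2⟩ :=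
      ((Filter.eventually_all.2 fun k => hw k L K hK).and (ulim_ge L)).exists
    have a1 := lev_mul_pow_t L K (lev_anti P h2 (hu l i))
    have a2 : θ.h i * (x.1 l * P.t ^ K - x.1 L) ∈ P.lev L := by
      refine Submodule.smul_mem _ _ ?_
      have := add_mem (lev_mul_pow_t L K (aSeq_sub x.2 h2))
        (hK.fix (PData.mem_aSeq.1 x.2 L).2)
      convert this using 1
      rw [sub_mul]; abel
    have a3 : ∑ k, θ.H i k * (u l k * P.t ^ K - (w k).1 L) ∈ P.lev L :=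
      Submodule.sum_mem _ fun k _ => Submodule.smul_mem _ _ (h1 k)
    have a4 : ∑ j, c i j * (P.y j * P.t ^ K - P.y j) ∈ P.lev L :=
      Submodule.sum_mem _ fun j _ => Submodule.smul_mem _ _ (hK.fix (P.mem_st L (hyl hy L j)))
    have := sub_mem (sub_mem (sub_mem a1 a2) a3) a4
    convert this using 1
    simp only [add_mul, mul_sub, Finset.sum_mul, Finset.sum_sub_distrib, mul_assoc]
    abel

omit [Module.Finite ℤ R] in
theorem hql (hyq : ∀ j, P.y j * (q : R) ∈ P.I) (l : ℕ) (j : Fin n) :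
    P.y j * (q : R) ∈ P.lev l := I_le_lev P l (hyq j)

theorem rel_char (hq : 0 < q) (hyq : ∀ j, P.y j * (q : R) ∈ P.I) {x : P.aSeq}
    {c : θ.ι → Fin n → R} {v' : V θ q n} :
    (cl hy x, mkV q c, v') ∈ (ptBP (P.adic hy)).rel θ q ↔
      ∀ l, Sol θ (P.lev l) P.y (x.1 l) c := by
  constructor
  · rintro ⟨d, d', e, -, h⟩ l
    exact ((relR_char hq).1 h l).of_mkV (hql hyq l) e
  · intro h
    obtain ⟨c', rfl⟩ := mkV_surj q v'
    exact ⟨c, c', rfl, rfl, (relR_char hq).2 h⟩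

theorem sec_char' (hq : 0 < q) (hyq : ∀ j, P.y j * (q : R) ∈ P.I) {x : P.aSeq}
    {S : AddSubgroup (V θ q n)} : cl hy x ∈ (ptBP (P.adic hy)).sec θ q S ⊤ ↔
      ∃ c, mkV q c ∈ S ∧ ∀ l, Sol θ (P.lev l) P.y (x.1 l) c := by
  constructor
  · rintro ⟨v, hv, v', -, h⟩
    obtain ⟨c, rfl⟩ := mkV_surj q v
    exact ⟨c, hv, (rel_char hq hyq).1 h⟩
  · rintro ⟨c, hc, h⟩
    exact ⟨_, hc, 0, trivial, (rel_char hq hyq).2 h⟩

theorem sec_char [Finite (Rq R q)] (hq : 0 < q) (hyq : ∀ j, P.y j * (q : R) ∈ P.I) {x : P.aSeq}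
    {S : AddSubgroup (V θ q n)} : cl hy x ∈ (ptBP (P.adic hy)).sec θ q S ⊤ ↔
      ∀ l, SolS θ q (P.lev l) P.y S (x.1 l) := by
  rw [sec_char' hq hyq]
  constructor
  · rintro ⟨c, hc, h⟩ l
    exact ⟨c, hc, h l⟩
  · intro h
    choose c hc h using h
    obtain ⟨v, hv⟩ := exists_ulim fun l => mkV q (c l)
    obtain ⟨l₀, h₀⟩ := hv.exists
    refine ⟨c l₀, hc l₀, fun L => ?_⟩
    obtain ⟨l, h1, h2⟩ := (hv.and (ulim_ge L)).exists
    exact (sol_down x.2 h2 (h l)).of_mkV (hql hyq L) (h1.trans h₀.symm)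

theorem st_char (hq : 0 < q) (hyq : ∀ j, P.y j * (q : R) ∈ P.I) {k : Bool}
    {c : θ.ι → Fin n → R} :
    (mkV q c ∈ (ptBP (P.adic hy)).bwdS θ q k Set.univ →
      ∀ l, ∃ X, (k = false → X = 0) ∧ Sol θ (P.lev l) P.y X c) ∧
    ((∃ X, (k = false → X = 0) ∧ Sol θ P.I P.y X c) →
      mkV q c ∈ (ptBP (P.adic hy)).bwdS θ q k Set.univ) := by
  constructor
  · rintro ⟨v', -, x, hx, h⟩ l
    cases k
    · obtain rfl := hx rfl
      rw [← map_zero (cl hy)] at h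
      exact ⟨0, fun _ => rfl, (rel_char hq hyq).1 h l⟩
    · obtain ⟨x, rfl⟩ := cl_surj hy x
      exact ⟨x.1 l, nofun, (rel_char hq hyq).1 h l⟩
  · rintro ⟨X, hX, h⟩
    cases k
    · obtain rfl := hX rfl
      refine ⟨0, trivial, 0, fun _ => rfl, ?_⟩
      rw [← map_zero (cl hy)]
      exact (rel_char hq hyq).2 fun l => sol_mono h (I_le_lev P l)
    · obtain ⟨x, hx⟩ := exists_pi hq P X
      refine ⟨0, trivial, cl hy x, nofun, (rel_char hq hyq).2 fun l => ?_⟩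
      obtain ⟨K, hK⟩ := exists_idem hq P l
      exact ((sol_mono h (I_le_lev P l)).mul_pow (hyl hy l) K).congr (hx l K hK)

variable {φ ψ : PP R} {S : AddSubgroup (V φ q n)} {S' : AddSubgroup (V ψ q n)}
  [Finite (Rq R q)]

theorem lower_sound (hq : 0 < q) (hyq : ∀ j, P.y j * (q : R) ∈ P.I) {l K v : ℕ}
    (hK : Idem P l K) (X : Fin v → R) (hX : ∀ i, SolS φ q P.I P.y S (X i))
    (hne : ∀ i j, i = j ∨ ¬ SolS ψ q (P.lev l) P.y S' ((X i - X j) * P.t ^ K)) :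
    IdxS true v ((ptBP (P.adic hy)).sec ψ q S' ⊤ : Set _)
      ((ptBP (P.adic hy)).sec φ q S ⊤ : Set (ptBP (P.adic hy)).Y) := by
  choose x hx using fun i => exists_pi hq P (X i)
  refine ⟨fun i => cl hy (x i), fun i => (sec_char hq hyq).2 fun L => ?_, fun i j h => ?_⟩
  · obtain ⟨K', hK'⟩ := exists_idem hq P L
    obtain ⟨c, hc, h⟩ := hX i
    exact ⟨c, hc, ((sol_mono h (I_le_lev P L)).mul_pow (hyl hy L) K').congr (hx i L K' hK')⟩
  · refine (hne i j).resolve_right (not_not.2 ?_)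
    rw [← map_sub] at h
    refine solS_congr ((sec_char hq hyq).1 h l) ?_
    have := sub_mem (hx j l K hK) (hx i l K hK)
    convert this using 1
    simp only [Submodule.coe_sub, Pi.sub_apply, sub_mul]
    abel

theorem lower_complete (hq : 0 < q) (hyq : ∀ j, P.y j * (q : R) ∈ P.I) {v : ℕ}
    (h : IdxS true v ((ptBP (P.adic hy)).sec ψ q S' ⊤ : Set _)
      ((ptBP (P.adic hy)).sec φ q S ⊤ : Set (ptBP (P.adic hy)).Y)) :
    ∃ (l K : ℕ) (X : Fin v → R), Idem P l K ∧ (∀ i, SolS φ q P.I P.y S (X i)) ∧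
      ∀ i j, i = j ∨ ¬ SolS ψ q (P.lev l) P.y S' ((X i - X j) * P.t ^ K) := by
  obtain ⟨a, ha, hinj⟩ := h
  choose x hx using fun i => cl_surj hy (a i)
  have h1 : ∀ p : Fin v × Fin v, ∀ᶠ l in Filter.atTop,
      p.1 = p.2 ∨ ¬ SolS ψ q (P.lev l) P.y S' ((x p.1 - x p.2).1 l) := by
    rintro ⟨i, j⟩
    by_cases e : i = j
    · exact Filter.Eventually.of_forall fun l => .inl e
    · have : ¬ ∀ l, SolS ψ q (P.lev l) P.y S' ((x i - x j).1 l) := fun h => e (hinj i j (by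
        rw [← hx, ← hx, ← map_sub]; exact (sec_char hq hyq).2 h))
      obtain ⟨l, hl⟩ := not_forall.1 this
      exact (Filter.eventually_ge_atTop l).mono fun l' hl' =>
        .inr fun h => hl (solS_down (x i - x j).2 hl' h)
  obtain ⟨l, hl⟩ := (Filter.eventually_all.2 h1).exists
  obtain ⟨K, hK⟩ := exists_idem hq P l
  have h2 : ∀ i, ∃ X, SolS φ q P.I P.y S X ∧ X - (x i).1 l ∈ P.lev l := fun i => by
    obtain ⟨c, hc, h⟩ := (sec_char' hq hyq).1 (by rw [hx]; exact ha i)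
    obtain ⟨X, h1, h2⟩ := exact_near hyq (x i).2 h l
    exact ⟨X, ⟨c, hc, h1⟩, h2⟩
  choose X hX hX' using h2
  refine ⟨l, K, X, hK, hX, fun i j => (hl (i, j)).imp_right fun h h' => h (solS_congr h' ?_)⟩
  have := add_mem (lev_mul_pow_t l K (sub_mem (hX' i) (hX' j)))
    (hK.fix (PData.mem_aSeq.1 (x i - x j).2 l).2)
  convert this using 1
  simp only [Submodule.coe_sub, Pi.sub_apply, sub_mul]
  abel

omit [Module.Finite ℤ R] [Finite (Rq R q)] in
theorem lev_le_psi (θ : PP R) (U : Submodule R R) {X : R} (hX : X ∈ U) : X ∈ Psi θ U :=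
  ⟨0, fun i => by simpa using U.smul_mem (θ.h i) hX⟩

/-- The key step for upper bounds: congruence at one level implies congruence. -/
theorem upper_key (hq : 0 < q) (hyq : ∀ j, P.y j * (q : R) ∈ P.I) {a j l : ℕ}
    (hEC : EC φ ψ q P.I P.t a) (hj : TB q (Kth ψ false P.I) j) (hjl : j ≤ l) {z : P.aSeq}
    (hz : cl hy z ∈ (ptBP (P.adic hy)).sec φ q S ⊤) (h : SolS ψ q (P.lev l) P.y S' (z.1 l)) :
    cl hy z ∈ (ptBP (P.adic hy)).sec ψ q S' ⊤ := by
  obtain ⟨E, s, hE, hE'⟩ := ec_sound hq hEC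
  obtain ⟨d, -, hd⟩ := (sec_char' hq hyq).1 hz
  obtain ⟨c, hc, h⟩ := h
  have hcm : ∀ (k : ℕ) (r s : R), r * ((q : R) ^ k * s) = (q : R) ^ k * (r * s) :=
    fun k r s => by rw [← mul_assoc, ← Nat.cast_pow, ← Nat.cast_comm, mul_assoc]
  have h1 : ∀ L, q ^ (a + 1) • z.1 L ∈ Psi ψ (P.lev L) := fun L => by
    have b1 := lev_le_psi ψ _ (hE' _ _ _ _ (hql hyq L) (hd L))
    have b2 := nsmul_mem (hE L _ (PData.mem_aSeq.1 z.2 L).2) q
    refine mem_of_coprime (a := 1 + q * s) (b := q ^ L) ?_ ?_ ?_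
    · exact Nat.Coprime.pow_right _ (by simp)
    · have := add_mem b1 b2
      convert this using 1
      rw [smul_smul, sub_mul, mul_sub, nsmul_eq_mul, nsmul_eq_mul, sub_add_cancel, ← mul_assoc,
        ← Nat.cast_mul]
      congr 2
      ring
    · refine lev_le_psi ψ _ ?_
      rw [nsmul_eq_mul, Nat.cast_pow]
      exact pow_mul_mem_lev P L _
  refine (sec_char' hq hyq).2 ⟨c, hc, fun m => ?_⟩
  obtain ⟨w', hw'⟩ := h1 (a + 1 + l + m)
  choose v' hv' using fun i => mem_lev.1 (hw' i)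
  have hle : l ≤ a + 1 + l + m := by omega
  obtain ⟨w, hw⟩ := h.congr (X' := z.1 (a + 1 + l + m))
    (by simpa using neg_mem (aSeq_sub z.2 hle))
  choose v hv using fun i => mem_lev.1 (hw i)
  have h2 : q ^ (a + 1 + l) • (v - q ^ m • v') ∈ Kth ψ false P.I := by
    refine ⟨0, fun k => (q : R) ^ (a + 1) * w k - w' k, fun _ => rfl, fun i => ?_⟩
    have b := P.I.smul_mem ((q : R) ^ a) (cy_mul_q (c := c) hyq i)
    have := sub_mem (sub_mem (P.I.smul_mem ((q : R) ^ (a + 1)) (hv i)) (hv' i)) b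
    convert this using 1
    have e1 : ∑ k, ψ.H i k * ((q : R) ^ (a + 1) * w k - w' k) =
        (q : R) ^ (a + 1) * ∑ k, ψ.H i k * w k - ∑ k, ψ.H i k * w' k := by
      rw [Finset.mul_sum, ← Finset.sum_sub_distrib]
      exact Finset.sum_congr rfl fun k _ => by rw [mul_sub, hcm]
    have e2 : (q : R) ^ (a + 1 + l) * (v i - (q : R) ^ m * v' i) =
        (q : R) ^ (a + 1) * ((q : R) ^ l * v i) - (q : R) ^ (a + 1 + l + m) * v' i := by
      rw [mul_sub, ← mul_assoc, ← mul_assoc, ← pow_add, ← pow_add]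
    rw [Pi.smul_apply, Pi.sub_apply, Pi.smul_apply]
    simp only [nsmul_eq_mul, Nat.cast_pow, smul_eq_mul]
    rw [e1, e2, hcm (a + 1) (ψ.h i), ← mul_assoc ((q : R) ^ a), ← pow_succ, mul_sub, mul_add,
      mul_add, mul_zero]
    abel
  have h3 : q ^ l • (v - q ^ m • v') ∈ Kth ψ false P.I := by
    have := nsmul_mem (hj _ _ h2) (q ^ (l - j))
    rwa [smul_smul, ← pow_add, Nat.sub_add_cancel hjl] at this
  obtain ⟨X, w'', hX, hw''⟩ := h3
  obtain rfl := hX rfl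
  have h4 : Sol ψ (P.lev (l + m)) P.y (z.1 (a + 1 + l + m)) c := by
    refine ⟨fun k => w k - w'' k, fun i => mem_lev.2 ⟨v' i, ?_⟩⟩
    have := sub_mem (hv i) (hw'' i)
    convert this using 1
    rw [Pi.smul_apply, Pi.sub_apply, Pi.smul_apply]
    simp only [nsmul_eq_mul, Nat.cast_pow, mul_sub, mul_zero, Finset.sum_sub_distrib,
      ← mul_assoc, ← pow_add]
    abel
  exact (sol_mono h4 (lev_anti P (Nat.le_add_left m l))).congr (aSeq_sub z.2 (by omega))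

theorem upper_sound (hq : 0 < q) (hyq : ∀ j, P.y j * (q : R) ∈ P.I) {a j l l' K v : ℕ}
    (hEC : EC φ ψ q P.I P.t a) (hj : TB q (Kth ψ false P.I) j) (hjl : j ≤ l) (hl : l ≤ l')
    (xs : ℕ → R) (h : ∀ X, SolS φ q (P.lev l') P.y S X →
      ∃ i, i < v ∧ SolS ψ q (P.lev l) P.y S' (X * P.t ^ K - xs i)) :
    IdxS false v ((ptBP (P.adic hy)).sec ψ q S' ⊤ : Set _)
      ((ptBP (P.adic hy)).sec φ q S ⊤ : Set (ptBP (P.adic hy)).Y) := by
  classical
  let p : Fin v → P.aSeq → Prop := fun i x => cl hy x ∈ (ptBP (P.adic hy)).sec φ q S ⊤ ∧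
    SolS ψ q (P.lev l) P.y S' (x.1 l' * P.t ^ K - xs i)
  refine ⟨fun i => if e : ∃ x, p i x then cl hy e.choose else 0, fun x hx => ?_⟩
  obtain ⟨x, rfl⟩ := cl_surj hy x
  obtain ⟨i, hi, hs⟩ := h _ ((sec_char hq hyq).1 hx l')
  have e : ∃ x, p ⟨i, hi⟩ x := ⟨x, hx, hs⟩
  refine ⟨⟨i, hi⟩, ?_⟩
  simp only [dif_pos e]
  obtain ⟨hx', hs'⟩ := e.choose_spec
  generalize e.choose = x' at hx' hs'
  rw [← map_sub]
  refine upper_key hq hyq hEC hj hjl (by rw [map_sub]; exact sub_mem hx hx') ?_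
  obtain ⟨c, hc, hs''⟩ := solS_sub hs hs'
  refine ⟨c, hc, Sol.of_st hq (k := K) (hs''.congr ?_) (hyl hy l)
    (PData.mem_aSeq.1 (x - x').2 l).2⟩
  have := lev_mul_pow_t l K (aSeq_sub (x - x').2 hl)
  convert this using 1
  simp only [Submodule.coe_sub, Pi.sub_apply, sub_mul]
  abel

theorem upper_ec (hreg : Reg ℤ R) (hq : 0 < q) (hyq : ∀ j, P.y j * (q : R) ∈ P.I) {v : ℕ}
    (h : bd false v (eidx ((ptBP (P.adic hy)).sec ψ q S' ⊤) ((ptBP (P.adic hy)).sec φ q S ⊤))) :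
    ∃ a, EC φ ψ q P.I P.t a := by
  refine ec_complete hreg hq fun E hE => ?_
  have hfin := eidx_ne_top_iff.1 (ne_top_of_le_ne_top (ENat.natCast_ne_top v) h)
  set A := (ptBP (P.adic hy)).sec φ q S ⊤
  set B := (ptBP (P.adic hy)).sec ψ q S' ⊤
  refine ⟨q * Nat.card (A ⧸ B.addSubgroupOf A), Nat.mul_pos hq Nat.card_pos, fun l => ?_⟩
  obtain ⟨K, hK⟩ := exists_idem hq P l
  refine ⟨K, fun z => ?_⟩
  obtain ⟨x, hx⟩ := exists_pi hq P z
  have h1 : E • cl hy x ∈ A := by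
    obtain ⟨w, hw⟩ := hE _ (cl hy x)
    exact ⟨0, zero_mem S, 0, trivial, 0, 0, rfl, rfl, w, fun i => by simpa using hw i⟩
  have h2 : Nat.card (A ⧸ B.addSubgroupOf A) • E • cl hy x ∈ B := by
    have : Nat.card (A ⧸ B.addSubgroupOf A) • (⟨_, h1⟩ : A) ∈ B.addSubgroupOf A := by
      rw [← QuotientAddGroup.eq_zero_iff, QuotientAddGroup.mk_nsmul]
      exact card_nsmul_eq_zero'
    exact this
  generalize Nat.card (A ⧸ B.addSubgroupOf A) = J at h2
  rw [← map_smul, ← map_nsmul] at h2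
  obtain ⟨c, -, w, hw⟩ := (sec_char hq hyq).1 h2 l
  have h3 : (q : R) * (J * (E * x.1 l)) ∈ Psi ψ (P.lev l) := by
    refine ⟨fun k => q * w k, fun i => ?_⟩
    have := sub_mem ((P.lev l).smul_mem (q : R) (hw i)) (cy_mul_q (c := c) (hql hyq l) i)
    convert this using 1
    have hc : ∀ r s : R, r * ((q : R) * s) = q * (r * s) := fun r s => by
      rw [← mul_assoc, ← Nat.cast_comm q r, mul_assoc]
    have e : (J • E • x).1 l = J * (E * x.1 l) := by simp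
    rw [smul_eq_mul, mul_add, add_sub_cancel_right, mul_add, Finset.mul_sum, e, hc]
    congr 1
    exact Finset.sum_congr rfl fun k _ => hc _ _
  have := add_mem h3 (lev_le_psi ψ _ ((P.lev l).smul_mem ((q : R) * J * E) (hx l K hK)))
  convert this using 1
  simp only [smul_eq_mul, mul_sub, Nat.cast_mul, mul_assoc]
  abel

theorem upper_complete (hq : 0 < q) (hyq : ∀ j, P.y j * (q : R) ∈ P.I) {v : ℕ}
    (h : IdxS false v ((ptBP (P.adic hy)).sec ψ q S' ⊤ : Set _)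
      ((ptBP (P.adic hy)).sec φ q S ⊤ : Set (ptBP (P.adic hy)).Y)) (l : ℕ) :
    ∃ (l' K : ℕ) (xs : Fin v → R), l ≤ l' ∧ ∀ X, SolS φ q (P.lev l') P.y S X →
      ∃ i, SolS ψ q (P.lev l) P.y S' (X * P.t ^ K - xs i) := by
  obtain ⟨a, ha⟩ := h
  choose x hx using fun i => cl_surj hy (a i)
  obtain ⟨K, hK⟩ := exists_idem hq P l
  by_contra hcon
  have : ∀ m, ∃ X, SolS φ q (P.lev (l + m)) P.y S X ∧
      ∀ i, ¬ SolS ψ q (P.lev l) P.y S' (X * P.t ^ K - (x i).1 l) := fun m => by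
    by_contra h'
    refine hcon ⟨l + m, K, fun i => (x i).1 l, Nat.le_add_right l m, fun X hX => ?_⟩
    by_contra h''
    exact h' ⟨X, hX, fun i hi => h'' ⟨i, hi⟩⟩
  choose X hX hX' using this
  obtain ⟨z, hz⟩ := exists_lim hq P X
  have h1 : cl hy z ∈ (ptBP (P.adic hy)).sec φ q S ⊤ := by
    refine (sec_char hq hyq).2 fun L => ?_
    obtain ⟨K', hK'⟩ := exists_idem hq P L
    obtain ⟨m, h1, h2⟩ := ((hz L K' hK').and (ulim_ge L)).exists
    obtain ⟨c, hc, h⟩ := hX m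
    exact ⟨c, hc, ((sol_mono h (lev_anti P (by omega))).mul_pow (hyl hy L) K').congr h1⟩
  obtain ⟨i, hi⟩ := ha _ h1
  rw [← hx, ← map_sub] at hi
  obtain ⟨m, hm⟩ := (hz l K hK).exists
  refine hX' m i (solS_congr ((sec_char hq hyq).1 hi l) ?_)
  have := neg_mem hm
  convert this using 1
  simp only [Submodule.coe_sub, Pi.sub_apply]
  abel

end adic

section cert
variable [Primcodable R] [CR R]

/-- Certificate for a claim on states. -/
def TI (q n : ℕ) (g y : List R) (τ : TItem R) : Prop :=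
  (AllL τ.2.2 fun c => ∃ X : R, (τ.2.1 = true ∨ X = 0) ∧ SolC q n τ.1 g 0 y [c] X) ∧
  ∃ Ul : List (Mat R), UnivC q n τ.1 Ul ∧ AllL Ul fun c => ImC q n τ.1 τ.2.2 c ∨
    ∃ l : ℕ, AllL (bif τ.2.1 then (CR.c (R := R)).reps (q ^ l) else [0]) fun X =>
      NSolC q n τ.1 g (q ^ l) y [c] X

/-- The listed elements are pairwise incongruent. -/
def LN (q n : ℕ) (g : List R) (e : R) (y : List R) (ι : IItem R) (Q : ℕ) (xs : List R) : Prop :=
  AllL (List.range ι.2.2.2) fun i => AllL (List.range ι.2.2.2) fun j => i = j ∨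
    NSolC q n ι.2.1.1 g Q y ι.2.1.2 ((xs.getD i 0 - xs.getD j 0) * e)

/-- The listed elements are solutions. -/
def LS (q n : ℕ) (g y : List R) (ι : IItem R) (xs : List R) : Prop :=
  AllL (List.range ι.2.2.2) fun i => SolC q n ι.1.1 g 0 y ι.1.2 (xs.getD i 0)

/-- The idempotent certificate. -/
def LE (g : List R) (t : R) (Q K : ℕ) : Prop := 0 < K ∧ InC g Q (t ^ (2 * K) - t ^ K)

/-- Certificate for a lower bound. -/
def LI (q n : ℕ) (g : List R) (t : R) (y : List R) (ι : IItem R) : Prop :=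
  ∃ (l K : ℕ) (xs : List R), LE g t (q ^ l) K ∧ LS q n g y ι xs ∧
    LN q n g (t ^ K) y ι (q ^ l) xs

/-- The covering part of the certificate for an upper bound. -/
def UK (q n : ℕ) (g : List R) (t : R) (y : List R) (ι : IItem R) (l l' : ℕ) : Prop :=
  ∃ (K : ℕ) (xs : List R),
    AllL ((CR.c (R := R)).reps (q ^ l')) fun X => NSolC q n ι.1.1 g (q ^ l') y ι.1.2 X ∨
      ∃ i : ℕ, i < ι.2.2.2 ∧ SolC q n ι.2.1.1 g (q ^ l) y ι.2.1.2 (X * t ^ K - xs.getD i 0)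

/-- Certificate for an upper bound. -/
def UI (T : ℕ × PPc R × Bool × List R × ℕ → Prop) (q n : ℕ) (g : List R) (t : R) (y : List R)
    (ι : IItem R) : Prop :=
  (∃ a : ℕ, ECC q ι.1.1 ι.2.1.1 g t a) ∧ ∃ l : ℕ, T (q, ι.2.1.1, false, g, l) ∧
    ∃ l' : ℕ, l ≤ l' ∧ UK q n g t y ι l l'

/-- The data of the end are admissible. -/
def Adm (q n : ℕ) (g : List R) (t : R) (y : List R) : Prop :=
  (AllL g fun r => InC g 0 (r * t)) ∧
    AllL (List.range n) fun j => InC g 0 (y.getD j 0 * t - y.getD j 0) ∧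
      InC g 0 (y.getD j 0 * (q : R))

/-- The full certificate. -/
def Cert (T : ℕ × PPc R × Bool × List R × ℕ → Prop)
    (x : ℕ × ℕ × List (TItem R) × List (IItem R)) : Prop :=
  ∃ (g : List R) (t : R) (y : List R), Adm x.1 x.2.1 g t y ∧
    (AllL x.2.2.1 fun τ => TI x.1 x.2.1 g y τ) ∧
    AllL x.2.2.2 fun ι => (ι.2.2.1 = true ∧ LI x.1 x.2.1 g t y ι) ∨
      (ι.2.2.1 = false ∧ UI T x.1 x.2.1 g t y ι)

section
variable {α : Type} [Primcodable α] {q m : α → ℕ} {g y : α → List R} {t : α → R}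

@[fun_prop] theorem s1_TI {τ : α → TItem R} (hq : PR q) (hm : PR m) (hg : PR g) (hy : PR y)
    (hτ : PR τ) : S1 fun a => TI (q a) (m a) (g a) (y a) (τ a) := by
  unfold TI
  fun_prop

@[fun_prop] theorem s1_LN {ι : α → IItem R} {Q : α → ℕ} {xs : α → List R} (hq : PR q)
    (hm : PR m) (hg : PR g) (ht : PR t) (hy : PR y) (hι : PR ι) (hQ : PR Q) (hx : PR xs) :
    S1 fun a => LN (q a) (m a) (g a) (t a) (y a) (ι a) (Q a) (xs a) := by
  unfold LN
  fun_prop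

@[fun_prop] theorem s1_LS {ι : α → IItem R} {xs : α → List R} (hq : PR q)
    (hm : PR m) (hg : PR g) (hy : PR y) (hι : PR ι) (hx : PR xs) :
    S1 fun a => LS (q a) (m a) (g a) (y a) (ι a) (xs a) := by
  unfold LS
  fun_prop

@[fun_prop] theorem s1_LE (hq : PR q) (hm : PR m) (hg : PR g) (ht : PR t) :
    S1 fun a => LE (g a) (t a) (q a) (m a) := by
  unfold LE
  fun_prop

@[fun_prop] theorem s1_LI {ι : α → IItem R} (hq : PR q) (hm : PR m) (hg : PR g) (ht : PR t)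
    (hy : PR y) (hι : PR ι) : S1 fun a => LI (q a) (m a) (g a) (t a) (y a) (ι a) := by
  unfold LI
  fun_prop

@[fun_prop] theorem s1_UK {ι : α → IItem R} {l l' : α → ℕ} (hq : PR q) (hm : PR m) (hg : PR g)
    (ht : PR t) (hy : PR y) (hι : PR ι) (hl : PR l) (hl' : PR l') :
    S1 fun a => UK (q a) (m a) (g a) (t a) (y a) (ι a) (l a) (l' a) := by
  unfold UK
  fun_prop

@[fun_prop] theorem s1_Adm (hq : PR q) (hm : PR m) (hg : PR g) (ht : PR t) (hy : PR y) :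
    S1 fun a => Adm (q a) (m a) (g a) (t a) (y a) := by
  unfold Adm
  fun_prop

theorem s1_UI [Module.Finite ℤ R] {T : ℕ × PPc R × Bool × List R × ℕ → Prop} (hT : S1 T)
    {ι : α → IItem R} (hq : PR q) (hm : PR m) (hg : PR g) (ht : PR t)
    (hy : PR y) (hι : PR ι) : S1 fun a => UI T (q a) (m a) (g a) (t a) (y a) (ι a) := by
  unfold UI
  exact S1.and (by fun_prop) (S1.ex (S1.and (hT.comp (by fun_prop)) (by fun_prop)))

end

theorem s1_Cert [Module.Finite ℤ R] {T : ℕ × PPc R × Bool × List R × ℕ → Prop} (hT : S1 T) :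
    S1 (Cert T) := by
  unfold Cert
  refine S1.ex (S1.ex (S1.ex (S1.and (by fun_prop) (S1.and (by fun_prop)
    (S1.all (S1.or (by fun_prop) (S1.and (by fun_prop) ?_)) (by fun_prop))))))
  exact s1_UI hT (by fun_prop) (by fun_prop) (by fun_prop) (by fun_prop) (by fun_prop)
    (by fun_prop)

variable {q : ℕ} {P : PData R (q : R) n} {hy : ∀ i, P.y i * P.t - P.y i ∈ P.I} {g y : List R}

omit [Primcodable R] [CR R] in
theorem solC_one {L : PPc R} {Q : ℕ} {c : Mat R} {X : R}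
    (h : ∀ j, vec n y j * (q : R) ∈ cU g Q) :
    SolC q n L g Q y [c] X ↔ Sol L.toPP (cU g Q) (vec n y) X (toC L n c) := by
  constructor
  · rintro ⟨d, ⟨c', hc', e⟩, hd⟩
    obtain rfl := List.mem_singleton.1 hc'
    exact hd.of_mkV h e.symm
  · intro hs
    exact ⟨_, ⟨c, List.mem_singleton_self c, rfl⟩, hs⟩

theorem exists_rep (hq : 0 < q) (P : PData R (q : R) n) (l : ℕ) (X : R) :
    ∃ X' ∈ (CR.c (R := R)).reps (q ^ l), X - X' ∈ P.lev l := by
  obtain ⟨X', h, s, e⟩ := (CR.c (R := R)).reps_spec (q ^ l) (pow_pos hq l) X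
  refine ⟨X', h, ?_⟩
  rw [e, add_sub_cancel_left, Nat.cast_pow]
  exact pow_mul_mem_lev P l s

variable [Module.Finite ℤ R]

theorem TI_iff (hq : 0 < q) (hyq : ∀ j, P.y j * (q : R) ∈ P.I) (hg : P.I = spanL g)
    (hv : vec n y = P.y) (τ : TItem R) : TI q n g y τ ↔
      im τ.1 q n τ.2.2 = (ptBP (P.adic hy)).bwdS τ.1.toPP q τ.2.1 Set.univ := by
  obtain ⟨L, k, Sl⟩ := τ
  have h0 : cU g 0 = P.I := by rw [cU_zero, hg]
  have hq0 : ∀ j, vec n y j * (q : R) ∈ cU g 0 := by rw [h0, hv]; exact hyq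
  have hql' : ∀ l j, vec n y j * (q : R) ∈ cU g (q ^ l) := fun l => by
    rw [← lev_eq hg, hv]; exact hql hyq l
  have hk : ∀ X : R, (k = true ∨ X = 0) ↔ (k = false → X = 0) := fun X => by cases k <;> simp
  simp only [TI, AllL, NSolC, solC_one hq0, solC_one (hql' _), hk, h0, ← lev_eq hg, hv]
  constructor
  · rintro ⟨h1, Ul, ⟨-, hU⟩, h2⟩
    refine Set.Subset.antisymm ?_ fun v hv' => ?_
    · rintro _ ⟨c, hc, rfl⟩
      exact (st_char hq hyq).2 (h1 c hc)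
    · obtain ⟨c, hc, rfl⟩ : v ∈ im L q n Ul := by rw [hU]; trivial
      refine (h2 c hc).resolve_right ?_
      rintro ⟨l, hl⟩
      obtain ⟨X, hX, hs⟩ := (st_char hq hyq).1 hv' l
      cases k
      · obtain rfl := hX rfl
        exact (hl 0 (by simp)).2.2 hs
      · obtain ⟨X', h, e⟩ := exists_rep hq P l X
        exact (hl X' h).2.2 (hs.congr e)
  · intro h
    refine ⟨fun c hc => exact_of_levels hyq ((st_char (hy := hy) hq hyq).1 ?_), ?_⟩
    · rw [← h]; exact ⟨c, hc, rfl⟩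
    · obtain ⟨Ul, hU⟩ := exists_im hq L (Set.univ : Set (V L.toPP q n))
      refine ⟨Ul, ⟨hq, hU⟩, fun c _ => or_iff_not_imp_left.2 fun hc => ?_⟩
      have : ¬ ∀ l, ∃ X, (k = false → X = 0) ∧ Sol L.toPP (P.lev l) P.y X (toC L n c) :=
        fun h' => hc (by
          rw [ImC, h]; exact (st_char hq hyq).2 (exact_of_levels hyq h'))
      obtain ⟨l, hl⟩ := not_forall.1 this
      refine ⟨l, fun X hX => ⟨pow_pos hq l, hql hyq l, fun hs => hl ⟨X, ?_, hs⟩⟩⟩
      rintro rfl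
      simpa using hX

theorem LI_iff (hq : 0 < q) (hyq : ∀ j, P.y j * (q : R) ∈ P.I) (hg : P.I = spanL g)
    (hv : vec n y = P.y) (ι : IItem R) {S : AddSubgroup (V ι.1.1.toPP q n)}
    {S' : AddSubgroup (V ι.2.1.1.toPP q n)} (hS : im ι.1.1 q n ι.1.2 = S)
    (hS' : im ι.2.1.1 q n ι.2.1.2 = S') : LI q n g P.t y ι ↔
      IdxS true ι.2.2.2 ((ptBP (P.adic hy)).sec ι.2.1.1.toPP q S' ⊤ : Set _)
        ((ptBP (P.adic hy)).sec ι.1.1.toPP q S ⊤ : Set (ptBP (P.adic hy)).Y) := by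
  have := finite_Rq (R := R) hq
  have h0 : cU g 0 = P.I := by rw [cU_zero, hg]
  simp only [LI, LN, LS, LE, AllL, NSolC, SolC, InC, h0, ← lev_eq hg, hv, hS, hS',
    List.mem_range]
  constructor
  · rintro ⟨l, K, xs, hK, h1, h2⟩
    exact lower_sound hq hyq hK (fun i => xs.getD i 0) (fun i => h1 i i.2) fun i j =>
      (h2 i i.2 j j.2).imp Fin.ext fun h => h.2.2
  · intro h
    obtain ⟨l, K, X, hK, h1, h2⟩ := lower_complete hq hyq h
    obtain ⟨xs, rfl⟩ := exists_vec X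
    exact ⟨l, K, xs, hK, fun i hi => h1 ⟨i, hi⟩, fun i hi j hj =>
      (h2 ⟨i, hi⟩ ⟨j, hj⟩).imp (congrArg Fin.val) fun h => ⟨pow_pos hq l, hql hyq l, h⟩⟩

theorem UI_iff (hreg : Reg ℤ R) {T : ℕ × PPc R × Bool × List R × ℕ → Prop}
    (hT : ∀ q L k g j, 0 < q → T (q, L, k, g, j) → TB q (Kth L.toPP k (spanL g)) j)
    (hT' : ∀ q L k g, 0 < q → ∃ j, T (q, L, k, g, j))
    (hq : 0 < q) (hyq : ∀ j, P.y j * (q : R) ∈ P.I) (hg : P.I = spanL g)
    (hv : vec n y = P.y) (ι : IItem R) {S : AddSubgroup (V ι.1.1.toPP q n)}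
    {S' : AddSubgroup (V ι.2.1.1.toPP q n)} (hS : im ι.1.1 q n ι.1.2 = S)
    (hS' : im ι.2.1.1 q n ι.2.1.2 = S') : UI T q n g P.t y ι ↔
      IdxS false ι.2.2.2 ((ptBP (P.adic hy)).sec ι.2.1.1.toPP q S' ⊤ : Set _)
        ((ptBP (P.adic hy)).sec ι.1.1.toPP q S ⊤ : Set (ptBP (P.adic hy)).Y) := by
  have := finite_Rq (R := R) hq
  simp only [UI, UK, AllL, NSolC, SolC, ECC, ← hg, ← lev_eq hg, hv, hS, hS']
  constructor
  · rintro ⟨⟨a, hE⟩, l, hj, l', hl, K, xs, h⟩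
    refine upper_sound hq hyq hE (hg ▸ hT _ _ _ _ _ hq hj) le_rfl hl (K := K)
      (fun i => xs.getD i 0) fun X hX => ?_
    obtain ⟨X', h1, e⟩ := exists_rep hq P l' X
    obtain ⟨i, hi, hs⟩ := (h X' h1).resolve_left fun h => h.2.2 (solS_congr hX e)
    refine ⟨i, hi, solS_congr hs ?_⟩
    have := neg_mem (lev_mul_pow_t l K (lev_anti P hl e))
    convert this using 1
    rw [sub_mul]; abel
  · intro h
    obtain ⟨j, hj⟩ := hT' q ι.2.1.1 false g hq
    obtain ⟨a, ha⟩ := upper_ec hreg hq hyq (idxS_iff.1 h)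
    obtain ⟨l', K, X, hl, h⟩ := upper_complete hq hyq h j
    obtain ⟨xs, rfl⟩ := exists_vec X
    refine ⟨⟨a, ha⟩, j, hj, l', hl, K, xs, fun X _ => or_iff_not_imp_right.2 fun hn =>
      ⟨pow_pos hq l', hql hyq l', fun hs => hn ?_⟩⟩
    obtain ⟨i, hi⟩ := h X hs
    exact ⟨i, i.2, hi⟩

end cert

end BA

open BA in
theorem adic_re (R : Type) [Ring R] [Primcodable R] [CR R] [Module.Free ℤ R] [Module.Finite ℤ R]
    (hreg : Reg ℤ R) : EndRE R (KAdic R) := by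
  obtain ⟨T, hT, hT₁, hT₂⟩ := exists_TBC hreg
  refine ⟨Cert T, s1_Cert hT, ?_, ?_⟩
  · rintro q n ts is hq ⟨g, t, y, ⟨h1, h2⟩, h3, h4⟩
    simp only [AllL, InC, cU_zero, List.mem_range] at h1 h2 h3 h4
    let P : PData R (q : R) n :=
      { I := spanL g, t := t, y := vec n y, hq := fun r => (Nat.cast_comm q r).symm
        It := fun x hx => by
          induction hx using Submodule.span_induction with
          | mem x hx => exact h1 x hx
          | zero => simp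
          | add x y _ _ hx hy => rw [add_mul]; exact add_mem hx hy
          | smul r x _ hx => rw [smul_mul_assoc]; exact Submodule.smul_mem _ r hx }
    have hy : ∀ i, P.y i * P.t - P.y i ∈ P.I := fun i => (h2 i i.2).1
    have hyq : ∀ i, P.y i * (q : R) ∈ P.I := fun i => (h2 i i.2).2
    refine ⟨P.adic hy, ⟨P, hy, hyq, rfl⟩, fun τ hτ => (TI_iff hq hyq rfl rfl τ).1 (h3 τ hτ),
      fun ι hι S S' hS hS' _ => idxS_iff.1 ?_⟩
    rcases h4 ι hι with ⟨e, h⟩ | ⟨e, h⟩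
    · rw [e]; exact (LI_iff hq hyq rfl rfl ι hS hS').1 h
    · rw [e]; exact (UI_iff hreg hT₁ hT₂ hq hyq rfl rfl ι hS hS').1 h
  · rintro q n ts is _ hq ⟨P, hy, hyq, rfl⟩ ht hi
    obtain ⟨g, hg⟩ := exists_gens P.I
    obtain ⟨y, hv⟩ := exists_vec P.y
    have hv' : ∀ j (hj : j < n), y.getD j 0 = P.y ⟨j, hj⟩ := fun j hj => congrFun hv ⟨j, hj⟩
    refine ⟨g, P.t, y, ⟨fun r hr => ?_, fun j hj => ?_⟩,
      fun τ hτ => (TI_iff hq hyq hg hv τ).2 (ht τ hτ), fun ι hι => ?_⟩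
    · simp only [InC, cU_zero, ← hg]
      exact P.It r (hg ▸ Submodule.subset_span hr)
    · simp only [InC, cU_zero, ← hg, hv' j (List.mem_range.1 hj)]
      exact ⟨hy _, hyq _⟩
    · obtain ⟨S, S', hS, hS', -, h⟩ := hi ι hι
      rw [← idxS_iff] at h
      cases e : ι.2.2.1
      · rw [e] at h
        exact .inr ⟨rfl, (UI_iff hreg hT₁ hT₂ hq hyq hg hv ι hS hS').2 h⟩
      · rw [e] at h
        exact .inl ⟨rfl, (LI_iff hq hyq hg hv ι hS hS').2 h⟩

end Pool.Agent.Lib.MP_c13fce_lc.NRE
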