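import Pool.Agent.Lib.MP_c13fce_lc.NREp1
import Pool.Agent.Lib.MP_c13fce_lc.NREy
import Pool.Agent.Lib.MP_c13fce_lc.NREc

/-! Block B: the claims realised by divisible ends are recursively enumerable. -/

namespace Pool.Agent.Lib.MP_c13fce_lc.NRE

open Pool.Agent.Lib.MP_a1ec0a_al Filter

namespace Pru

variable {R : Type} [Ring R] {n q : ℕ} {P : PData R (q : R) n}

/-- The coded marks at level `l + 1`. -/
def ys (q : ℕ) (y : List R) (l : ℕ) : List R := y.map fun a => a * (q : R) ^ l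

def SC (q n : ℕ) (L : PPc R) (g y : List R) (l : ℕ) (S : List (Mat R)) (X : R) : Prop :=
  SolC q n L g (q ^ (l + 1)) (ys q y l) S X

def NC (q n : ℕ) (L : PPc R) (g y : List R) (l : ℕ) (S : List (Mat R)) (X : R) : Prop :=
  NSolC q n L g (q ^ (l + 1)) (ys q y l) S X

def IC (q : ℕ) (g : List R) (t : R) (l K : ℕ) : Prop :=
  0 < K ∧ InC g (q ^ (l + 1)) (t ^ (2 * K) - t ^ K)

theorem vec_ys {y : List R} (hy : P.y = vec n y) (l : ℕ) : vec n (ys q y l) = yl P l := by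
  funext j
  simp only [vec, ys, yl, hy, List.getD_eq_getElem?_getD, List.getElem?_map]
  cases y[(j : ℕ)]? <;> simp

theorem sc_iff {g y : List R} (hI : P.I = spanL g) (hy : P.y = vec n y) {L : PPc R} {l : ℕ}
    {S : List (Mat R)} {X : R} : SC q n L g y l S X ↔ SS P L.toPP (im L q n S) l X := by
  rw [SC, SolC, vec_ys hy, ← lev_eq hI]; rfl

theorem nc_iff (hq : 0 < q) {g y : List R} (hI : P.I = spanL g) (hy : P.y = vec n y) {L : PPc R}
    {l : ℕ} {S : List (Mat R)} {X : R} : NC q n L g y l S X ↔ ¬ SS P L.toPP (im L q n S) l X := by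
  rw [← sc_iff hI hy, NC, NSolC, vec_ys hy, ← lev_eq hI]
  exact ⟨fun h => h.2.2, fun h => ⟨by positivity, yl_q l, h⟩⟩

theorem ic_iff {g : List R} (hI : P.I = spanL g) {l K : ℕ} :
    IC q g P.t l K ↔ Idem P (l + 1) K := by
  rw [IC, InC, ← lev_eq hI]; rfl

theorem ss_single {L : PPc R} {l : ℕ} {c : Mat R} {X : R} :
    SS P L.toPP (im L q n [c]) l X ↔ SL P L.toPP l X (toC L n c) := by
  constructor
  · rintro ⟨d, ⟨c', hc', e⟩, h⟩
    rw [List.mem_singleton.1 hc'] at e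
    exact Sol.of_mkV h (yl_q l) e.symm
  · exact fun h => ⟨_, ⟨c, List.mem_singleton_self c, rfl⟩, h⟩

variable [Primcodable R] [CR R]

theorem exists_rep (hq : 0 < q) (P : PData R (q : R) n) (l : ℕ) (X : R) :
    ∃ X' ∈ (CR.c (R := R)).reps (q ^ l), X - X' ∈ P.lev l := by
  obtain ⟨X', h, s, e⟩ := (CR.c (R := R)).reps_spec (q ^ l) (by positivity) X
  refine ⟨X', h, ?_⟩
  rw [e, add_sub_cancel_left, Nat.cast_pow, comm]
  exact pow_mem _ _

section S1
variable {α : Type} [Primcodable α] {q m l K : α → ℕ} {L : α → PPc R} {g y : α → List R}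
  {S : α → List (Mat R)} {X : α → R}

@[fun_prop] theorem pr_ys (hq : PR q) (hy : PR y) (hl : PR l) :
    PR fun a => ys (q a) (y a) (l a) := by
  unfold ys; fun_prop

@[fun_prop] theorem s1_SC (hq : PR q) (hm : PR m) (hL : PR L) (hg : PR g) (hy : PR y)
    (hl : PR l) (hS : PR S) (hX : PR X) :
    S1 fun a => SC (q a) (m a) (L a) (g a) (y a) (l a) (S a) (X a) := by
  unfold SC; fun_prop

@[fun_prop] theorem s1_NC (hq : PR q) (hm : PR m) (hL : PR L) (hg : PR g) (hy : PR y)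
    (hl : PR l) (hS : PR S) (hX : PR X) :
    S1 fun a => NC (q a) (m a) (L a) (g a) (y a) (l a) (S a) (X a) := by
  unfold NC; fun_prop

@[fun_prop] theorem s1_IC (hq : PR q) (hg : PR g) (hX : PR X) (hl : PR l) (hK : PR K) :
    S1 fun a => IC (q a) (g a) (X a) (l a) (K a) := by
  unfold IC; fun_prop

/-- The difference of two fractions, moved to a higher level. -/
def df (q : ℕ) (t : R) (K j : ℕ) (X X' : R) : R := (X - X') * t ^ K * (q : R) ^ j

@[fun_prop] theorem pr_df {j : α → ℕ} {t X' : α → R} (hq : PR q) (ht : PR t) (hK : PR K)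
    (hj : PR j) (hX : PR X) (hX' : PR X') :
    PR fun a => df (q a) (t a) (K a) (j a) (X a) (X' a) := by
  unfold df; fun_prop

/-- Pairwise incongruent fractions. -/
def NQ (q n : ℕ) (L : PPc R) (g y : List R) (l : ℕ) (S : List (Mat R)) (t : R) (K j : ℕ)
    (xs : List R) (v : ℕ) : Prop :=
  AllL (List.range v) fun i => AllL (List.range v) fun i' =>
    i = i' ∨ NC q n L g y (l + j) S (df q t K j (xs.getD i 0) (xs.getD i' 0))

/-- A fraction congruent to a listed one. -/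
def SQ (q n : ℕ) (L : PPc R) (g y : List R) (l : ℕ) (S : List (Mat R)) (t : R) (K : ℕ)
    (xs : List R) (v : ℕ) (X : R) : Prop :=
  ∃ i j, i < v ∧ SC q n L g y (l + j) S (df q t K j X (xs.getD i 0))

@[fun_prop] theorem s1_NQ {j v : α → ℕ} {xs : α → List R} (hq : PR q) (hm : PR m) (hL : PR L)
    (hg : PR g) (hy : PR y) (hl : PR l) (hS : PR S) (hX : PR X) (hK : PR K) (hj : PR j)
    (hxs : PR xs) (hv : PR v) : S1 fun a =>
      NQ (q a) (m a) (L a) (g a) (y a) (l a) (S a) (X a) (K a) (j a) (xs a) (v a) := by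
  unfold NQ; fun_prop

@[fun_prop] theorem s1_SQ {v : α → ℕ} {xs : α → List R} {t : α → R} (hq : PR q) (hm : PR m)
    (hL : PR L) (hg : PR g) (hy : PR y) (hl : PR l) (hS : PR S) (ht : PR t) (hK : PR K)
    (hxs : PR xs) (hv : PR v) (hX : PR X) : S1 fun a =>
      SQ (q a) (m a) (L a) (g a) (y a) (l a) (S a) (t a) (K a) (xs a) (v a) (X a) := by
  unfold SQ; fun_prop

end S1

variable [Module.Free ℤ R] [Module.Finite ℤ R]

/-- The certified torsion bounds. -/
def TBc (hreg : Reg ℤ R) (q : ℕ) (L : PPc R) (k : Bool) (g : List R) (j : ℕ) : Prop :=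
  (exists_TBC hreg).choose (q, L, k, g, j)

theorem TBc.tb {hreg : Reg ℤ R} (hq : 0 < q) {L : PPc R} {k : Bool} {g : List R} {j : ℕ}
    (h : TBc hreg q L k g j) (hI : P.I = spanL g) : TB q (Kth L.toPP k P.I) j :=
  hI ▸ (exists_TBC hreg).choose_spec.2.1 q L k g j hq h

theorem exists_TBc (hreg : Reg ℤ R) (hq : 0 < q) (L : PPc R) (k : Bool) (g : List R) :
    ∃ j, TBc hreg q L k g j := (exists_TBC hreg).choose_spec.2.2 q L k g hq

@[fun_prop] theorem s1_TBc (hreg : Reg ℤ R) {α : Type} [Primcodable α] {q j : α → ℕ}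
    {L : α → PPc R} {k : α → Bool} {g : α → List R} (hq : PR q) (hL : PR L) (hk : PR k)
    (hg : PR g) (hj : PR j) : S1 fun a => TBc hreg (q a) (L a) (k a) (g a) (j a) :=
  (exists_TBC hreg).choose_spec.1.comp (g := fun a => (q a, L a, k a, g a, j a)) (by fun_prop)

/-- The certificate for a claim on states. -/
def TC (hreg : Reg ℤ R) (q n : ℕ) (g y : List R) (L : PPc R) (k : Bool) (S : List (Mat R)) :
    Prop :=
  (AllL S fun c => ∃ j X, (k = true ∨ X = 0) ∧ SC q n L g y j [c] X) ∧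
  ∃ j U, TBc hreg q L k g j ∧ UnivC q n L U ∧ AllL U fun c => ImC q n L S c ∨
    AllL (bif k then (CR.c (R := R)).reps (q ^ (j + 1)) else [0]) fun X => NC q n L g y j [c] X

/-- The certificate for a lower bound. -/
def LC (hreg : Reg ℤ R) (q n : ℕ) (g : List R) (t : R) (y : List R) (φ : PPc R)
    (S : List (Mat R)) (ψ : PPc R) (S' : List (Mat R)) (v : ℕ) : Prop :=
  ∃ z : (ℕ × ℕ) × ℕ × List R, IC q g t z.1.1 z.1.2 ∧ TBc hreg q ψ false g z.2.1 ∧
    (AllL (List.range v) fun i => SC q n φ g y z.1.1 S (z.2.2.getD i 0)) ∧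
      NQ q n ψ g y z.1.1 S' t z.1.2 z.2.1 z.2.2 v

/-- The certificate for an upper bound. -/
def UC (hreg : Reg ℤ R) (q n : ℕ) (g : List R) (t : R) (y : List R) (φ : PPc R)
    (S : List (Mat R)) (ψ : PPc R) (S' : List (Mat R)) (v : ℕ) : Prop :=
  ∃ z : (ℕ × ℕ) × ℕ × List R, ECC q φ ψ g t z.1.1 ∧ IC q g t z.1.1 z.1.2 ∧
    TBc hreg q φ false g z.2.1 ∧ AllL ((CR.c (R := R)).reps (q ^ (z.1.1 + 1))) fun X =>
      NC q n φ g y (z.1.1 + z.2.1) S (X * (q : R) ^ z.2.1) ∨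
        SQ q n ψ g y z.1.1 S' t z.1.2 z.2.2 v X

section S1
variable (hreg : Reg ℤ R) {α : Type} [Primcodable α] {q m v : α → ℕ} {L L' : α → PPc R}
  {g y : α → List R} {S S' : α → List (Mat R)} {t : α → R} {k : α → Bool}

@[fun_prop] theorem s1_TC (hq : PR q) (hm : PR m) (hg : PR g) (hy : PR y) (hL : PR L)
    (hk : PR k) (hS : PR S) :
    S1 fun a => TC hreg (q a) (m a) (g a) (y a) (L a) (k a) (S a) := by
  unfold TC; fun_prop

@[fun_prop] theorem s1_LC (hq : PR q) (hm : PR m) (hg : PR g) (ht : PR t) (hy : PR y)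
    (hL : PR L) (hS : PR S) (hL' : PR L') (hS' : PR S') (hv : PR v) :
    S1 fun a => LC hreg (q a) (m a) (g a) (t a) (y a) (L a) (S a) (L' a) (S' a) (v a) := by
  unfold LC; fun_prop

@[fun_prop] theorem s1_UC (hq : PR q) (hm : PR m) (hg : PR g) (ht : PR t) (hy : PR y)
    (hL : PR L) (hS : PR S) (hL' : PR L') (hS' : PR S') (hv : PR v) :
    S1 fun a => UC hreg (q a) (m a) (g a) (t a) (y a) (L a) (S a) (L' a) (S' a) (v a) := by
  unfold UC; fun_prop

end S1

section Items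
variable {hreg : Reg ℤ R} {g y : List R} {E : Pt R n}

theorem tc_iff (F : Fr P E) (hq : 0 < q) (hy : ∀ i, P.y i * P.t - P.y i ∈ P.lev 1)
    (hI : P.I = spanL g) (hv : P.y = vec n y) {L : PPc R} {k : Bool} {S : List (Mat R)} :
    TC hreg q n g y L k S ↔ im L q n S = (ptBP E).bwdS L.toPP q k Set.univ := by
  constructor
  · rintro ⟨h1, j, U, hj, hU, h2⟩
    refine Set.Subset.antisymm ?_ fun v hv' => ?_
    · rintro _ ⟨c, hc, rfl⟩
      obtain ⟨j, X, hX, h⟩ := h1 c hc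
      exact (F.mem_bwd hq hy).2 ⟨j, X, fun e => hX.resolve_left (by simp [e]),
        ss_single.1 ((sc_iff hI hv).1 h)⟩
    · obtain ⟨c, hc, rfl⟩ : v ∈ im L q n U := hU.2 ▸ Set.mem_univ v
      refine (h2 c hc).resolve_right fun h => ?_
      obtain ⟨j', X, hX, h'⟩ := (F.mem_bwd hq hy).1 hv'
      obtain ⟨X', hX', h''⟩ := h'.tb' (hj.tb hq hI) hX
      cases k
      · exact (nc_iff hq hI hv).1 (h 0 (by simp)) (ss_single.2 (hX' rfl ▸ h''))
      · obtain ⟨Z, hZ, e⟩ := exists_rep hq P (j + 1) X'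
        exact (nc_iff hq hI hv).1 (h Z hZ) ((ss_single.2 h'').congr e)
  · intro h
    obtain ⟨j, hj⟩ := exists_TBc hreg hq L k g
    obtain ⟨U, hU⟩ := exists_im hq L (Set.univ : Set (V L.toPP q n))
    refine ⟨fun c hc => ?_, j, U, hj, ⟨hq, hU⟩, fun c _ => or_iff_not_imp_left.2 fun hc X hX =>
      (nc_iff hq hI hv).2 fun h' => hc ?_⟩
    · obtain ⟨j, X, hX, h'⟩ := (F.mem_bwd hq hy).1 (h ▸ ⟨c, hc, rfl⟩ :
        mkV q (toC L n c) ∈ (ptBP E).bwdS L.toPP q k Set.univ)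
      exact ⟨j, X, by cases k <;> simp [hX], (sc_iff hI hv).2 (ss_single.2 h')⟩
    · rw [ImC, h]
      exact (F.mem_bwd hq hy).2 ⟨j, X, fun e => by simpa [e] using hX, ss_single.1 h'⟩

variable {φ ψ : PPc R} {Sl Sl' : List (Mat R)} {S : AddSubgroup (V φ.toPP q n)}
  {S' : AddSubgroup (V ψ.toPP q n)} {v : ℕ}

theorem lc_iff (F : Fr P E) (hq : 0 < q) (hy : ∀ i, P.y i * P.t - P.y i ∈ P.lev 1)
    (hI : P.I = spanL g) (hv : P.y = vec n y) (hS : im φ q n Sl = S) (hS' : im ψ q n Sl' = S') :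
    LC hreg q n g P.t y φ Sl ψ Sl' v ↔
      bd true v (eidx (sc E ψ.toPP q S') (sc E φ.toPP q S)) := by
  rw [← idxS_iff]
  simp only [IdxS, if_true, SetLike.mem_coe]
  constructor
  · rintro ⟨⟨⟨l, K⟩, j, xs⟩, hK, hj, h1, h2⟩
    refine ⟨fun i => F.f l (xs.getD i 0), fun i => F.of_SS hq
      (hS ▸ (sc_iff hI hv).1 (h1 i (List.mem_range.2 i.2))), fun i i' h => Fin.ext ?_⟩
    refine (h2 i (List.mem_range.2 i.2) i' (List.mem_range.2 i'.2)).resolve_right fun h' => ?_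
    rw [← map_sub] at h
    obtain ⟨j', h3⟩ := F.to_SS hq hy ((ic_iff hI).1 hK) h
    exact (nc_iff hq hI hv).1 h' (hS' ▸ h3.tb (hj.tb hq hI))
  · rintro ⟨x, h1, h2⟩
    obtain ⟨l, hl⟩ := (eventually_all.2 fun i => F.ev_sol hq hy (h1 i)).exists
    choose X hX hX' using hl
    obtain ⟨K, hK⟩ := exists_idem hq P (l + 1)
    obtain ⟨j, hj⟩ := exists_TBc hreg hq ψ false g
    obtain ⟨xs, hxs⟩ := exists_vec X
    have e : ∀ (i : ℕ) (hi : i ∈ List.range v), xs.getD i 0 = X ⟨i, List.mem_range.1 hi⟩ :=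
      fun i hi => congrFun hxs ⟨i, List.mem_range.1 hi⟩
    refine ⟨((l, K), j, xs), (ic_iff hI).2 hK, hj, fun i hi => (sc_iff hI hv).2 ?_,
      fun i hi i' hi' => or_iff_not_imp_right.2 fun h => ?_⟩
    · dsimp only
      rw [e i hi, hS]; exact hX' _
    · rw [nc_iff hq hI hv, not_not, hS'] at h
      have := F.of_SS' hq hK h
      dsimp only at this
      rw [map_sub, e i hi, e i' hi', hX, hX] at this
      exact congrArg Fin.val (h2 _ _ this)

theorem uc_sound (F : Fr P E) (hq : 0 < q) (hy : ∀ i, P.y i * P.t - P.y i ∈ P.lev 1)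
    (hI : P.I = spanL g) (hv : P.y = vec n y) (hS : im φ q n Sl = S) (hS' : im ψ q n Sl' = S')
    (hle : sc E ψ.toPP q S' ≤ sc E φ.toPP q S) (h : UC hreg q n g P.t y φ Sl ψ Sl' v) :
    bd false v (eidx (sc E ψ.toPP q S') (sc E φ.toPP q S)) := by
  rw [← idxS_iff]
  simp only [IdxS, Bool.false_eq_true, if_false, SetLike.mem_coe]
  obtain ⟨⟨⟨a, K⟩, j, xs⟩, ha, hK, hj, h⟩ := h
  rw [ic_iff hI] at hK
  rw [ECC, ← hI] at ha
  dsimp only at ha hK hj h
  refine ⟨fun i => F.f a (xs.getD i 0), fun x hx => ?_⟩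
  obtain ⟨x₁, hx₁, X, hX⟩ := F.decomp hq hy ha S' hx
  obtain ⟨j', h1⟩ := F.to_SS hq hy hK (hX ▸ sub_mem hx (hle hx₁) : F.f a X ∈ sc E φ.toPP q S)
  obtain ⟨Z, hZ, e⟩ := exists_rep hq P (a + 1) (X * P.t ^ K)
  have h2 : SS P φ.toPP S (a + j) (Z * (q : R) ^ j) :=
    (h1.tb (hj.tb hq hI)).congr (by rw [← sub_mul]; exact lev_up e j)
  obtain ⟨i, j'', hi, h3⟩ := (h Z hZ).resolve_left fun h' => (nc_iff hq hI hv).1 h' (hS ▸ h2)
  rw [sc_iff hI hv, hS'] at h3
  have h4 := F.of_SS' hq hK h3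
  rw [map_sub, ← F.congr hq e, F.idem hK, hX] at h4
  refine ⟨⟨i, hi⟩, ?_⟩
  convert add_mem h4 hx₁ using 1
  abel

theorem uc_complete (F : Fr P E) (hq : 0 < q) (hy : ∀ i, P.y i * P.t - P.y i ∈ P.lev 1)
    (hI : P.I = spanL g) (hv : P.y = vec n y) (hS : im φ q n Sl = S) (hS' : im ψ q n Sl' = S')
    (h : bd false v (eidx (sc E ψ.toPP q S') (sc E φ.toPP q S))) :
    UC hreg q n g P.t y φ Sl ψ Sl' v := by
  obtain ⟨a, ha⟩ := F.exists_ec hreg hq hy
    (ne_top_of_le_ne_top (ENat.natCast_ne_top v) (by simpa [bd] using h))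
  rw [← idxS_iff] at h
  simp only [IdxS, Bool.false_eq_true, if_false, SetLike.mem_coe] at h
  obtain ⟨x, hx⟩ := h
  obtain ⟨K, hK⟩ := exists_idem hq P (a + 1)
  obtain ⟨j, hj⟩ := exists_TBc hreg hq φ false g
  have h1 : ∀ i, ∃ Z : R, ∀ X, F.f a X - x i ∈ sc E ψ.toPP q S' →
      F.f a (X - Z) ∈ sc E ψ.toPP q S' := fun i => by
    by_cases h : ∃ Z, F.f a Z - x i ∈ sc E ψ.toPP q S'
    · obtain ⟨Z, hZ⟩ := h
      exact ⟨Z, fun X hX => by simpa using sub_mem hX hZ⟩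
    · exact ⟨0, fun X hX => (h ⟨X, hX⟩).elim⟩
  choose Z hZ using h1
  obtain ⟨xs, hxs⟩ := exists_vec Z
  refine ⟨((a, K), j, xs), by rw [ECC, ← hI]; exact ha, (ic_iff hI).2 hK, hj,
    fun X _ => or_iff_not_imp_left.2 fun h => ?_⟩
  rw [nc_iff hq hI hv, not_not, hS] at h
  have h2 := F.of_SS hq h
  rw [F.up] at h2
  obtain ⟨i, hi⟩ := hx _ h2
  obtain ⟨j', h3⟩ := F.to_SS hq hy hK (hZ i X hi)
  refine ⟨i, j', i.2, (sc_iff hI hv).2 ?_⟩
  rw [hS', ← hxs] at *
  exact h3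

end Items

/-- The certificates for all claims on states. -/
def TCs (hreg : Reg ℤ R) (q n : ℕ) (g y : List R) (ts : List (TItem R)) : Prop :=
  AllL ts fun x => TC hreg q n g y x.1 x.2.1 x.2.2

/-- The certificate for a claim on an index. -/
def XC (hreg : Reg ℤ R) (q n : ℕ) (g : List R) (t : R) (y : List R) (x : IItem R) : Prop :=
  (x.2.2.1 = true ∧ LC hreg q n g t y x.1.1 x.1.2 x.2.1.1 x.2.1.2 x.2.2.2) ∨
    (x.2.2.1 = false ∧ UC hreg q n g t y x.1.1 x.1.2 x.2.1.1 x.2.1.2 x.2.2.2)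

/-- The certificate for all claims. -/
def Cert (hreg : Reg ℤ R) (q n : ℕ) (ts : List (TItem R)) (is : List (IItem R)) : Prop :=
  ∃ z : List R × R × List R, (AllL z.1 fun x => InC z.1 0 (x * z.2.1)) ∧
    (AllL (List.range n) fun j => InC z.1 (q ^ 1) (z.2.2.getD j 0 * z.2.1 - z.2.2.getD j 0)) ∧
    TCs hreg q n z.1 z.2.2 ts ∧ AllL is fun x => XC hreg q n z.1 z.2.1 z.2.2 x

section S1
variable (hreg : Reg ℤ R) {α : Type} [Primcodable α] {q m : α → ℕ} {g y : α → List R} {t : α → R}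
  {ts : α → List (TItem R)} {is : α → List (IItem R)} {x : α → IItem R}

@[fun_prop] theorem s1_TCs (hq : PR q) (hm : PR m) (hg : PR g) (hy : PR y) (hts : PR ts) :
    S1 fun a => TCs hreg (q a) (m a) (g a) (y a) (ts a) := by
  unfold TCs; fun_prop

@[fun_prop] theorem s1_XC (hq : PR q) (hm : PR m) (hg : PR g) (ht : PR t) (hy : PR y)
    (hx : PR x) : S1 fun a => XC hreg (q a) (m a) (g a) (t a) (y a) (x a) := by
  unfold XC; fun_prop

@[fun_prop] theorem s1_Cert (hq : PR q) (hm : PR m) (hts : PR ts) (his : PR is) :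
    S1 fun a => Cert hreg (q a) (m a) (ts a) (is a) := by
  unfold Cert; fun_prop

end S1

end Pru

open Pru in
theorem pruf_re (R : Type) [Ring R] [Primcodable R] [CR R] [Module.Free ℤ R] [Module.Finite ℤ R]
    (hreg : Reg ℤ R) : EndRE R (KPruf R) := by
  refine ⟨fun a => Cert hreg a.1 a.2.1 a.2.2.1 a.2.2.2, by fun_prop, ?_, ?_⟩
  · rintro q n ts is hq ⟨⟨g, t, y⟩, h1, h2, h3, h4⟩
    let P : PData R (q : R) n := ⟨spanL g, t, vec n y, fun r => (Nat.cast_commute q r).eq.symm,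
      fun x hx => by
        induction hx using Submodule.span_induction with
        | mem x hx => exact cU_zero g ▸ h1 x hx
        | zero => simp
        | add x y _ _ hx hy => rw [add_mul]; exact add_mem hx hy
        | smul a x _ hx => rw [smul_eq_mul, mul_assoc]; exact BY.lmul a hx⟩
    have hy : ∀ i, P.y i * P.t - P.y i ∈ P.lev 1 := fun i => by
      rw [lev_eq (P := P) (g := g) rfl]; exact h2 i (List.mem_range.2 i.2)
    obtain ⟨F⟩ := exists_fr hq hy
    refine ⟨P.prufer hy, ⟨P, hy, rfl⟩, fun x hx => (tc_iff F hq hy rfl rfl).1 (h3 x hx),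
      fun x hx S S' hS hS' hle => ?_⟩
    rcases h4 x hx with ⟨e, h⟩ | ⟨e, h⟩ <;> rw [e]
    · exact (lc_iff F hq hy rfl rfl hS hS').1 h
    · exact uc_sound F hq hy rfl rfl hS hS' hle h
  · rintro q n ts is E hq ⟨P, hy, rfl⟩ ht hi
    obtain ⟨g, hI⟩ := exists_gens P.I
    obtain ⟨y, hv⟩ := exists_vec P.y
    obtain ⟨F⟩ := exists_fr hq hy
    refine ⟨(g, P.t, y), fun x hx => ?_, fun j hj => ?_,
      fun x hx => (tc_iff F hq hy hI hv.symm).2 (ht x hx), fun x hx => ?_⟩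
    · change x * P.t ∈ cU g 0
      rw [cU_zero, ← hI]
      exact P.It x (hI ▸ Submodule.subset_span hx)
    · have := hy ⟨j, List.mem_range.1 hj⟩
      rwa [lev_eq hI, ← hv] at this
    · obtain ⟨S, S', hS, hS', -, h⟩ := hi x hx
      cases e : x.2.2.1 <;> rw [e] at h
      · exact Or.inr ⟨e, uc_complete F hq hy hI hv.symm hS hS' h⟩
      · exact Or.inl ⟨e, (lc_iff F hq hy hI hv.symm hS hS').2 h⟩

end Pool.Agent.Lib.MP_c13fce_lc.NRE
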