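import Pool.Agent.Lib.MP_c13fce_lc.NREt1

/-! Block BT: certificates for tails. -/

namespace Pool.Agent.Lib.MP_c13fce_lc.NRE

variable {R : Type} [Ring R] {n : ℕ}

namespace BT

variable {q : ℕ}

/-- The constant tail. -/
def cst (W : BP R n) [Finite W.Y] (s : Bool) : Tail R n where
  Z _ := W.Y
  l _ := W.l
  r _ := W.r
  s := s

/-- A tail with a new first piece. -/
def consT (W : BP R n) [h : Finite W.Y] (T : Tail R n) : Tail R n where
  Z k := match k with
    | 0 => W.Y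
    | k + 1 => T.Z k
  acg k := match k with
    | 0 => W.acg
    | k + 1 => T.acg k
  mod k := match k with
    | 0 => W.mod
    | k + 1 => T.mod k
  fin k := match k with
    | 0 => h
    | k + 1 => T.fin k
  l k := match k with
    | 0 => W.l
    | k + 1 => T.l k
  r k := match k with
    | 0 => W.r
    | k + 1 => T.r k
  s := T.s

variable [Finite (Rq R q)]

theorem St_cst {W : BP R n} [Finite W.Y] (h : W.Kil q) (s : Bool) (θ : PP R) (k : Bool)
    (hfix : W.bwdS θ q k (tA q W s θ k) = tA q W s θ k) :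
    (tE (cst W s)).bwdS θ q k Set.univ = tA q W s θ k := by
  have hT : TK q (cst W s) := fun _ => h
  have h1 : ∀ m, (blk (cst W s) m).bwdS θ q k (tA q W s θ k) = tA q W s θ k := by
    intro m
    induction m with
    | zero => exact hfix
    | succ m ih =>
      refine ((dec_glue (blk_kil hT m)).bwdS θ k _).trans ?_
      exact (congrArg ((blk (cst W s) m).bwdS θ q k) hfix).trans ih
  obtain ⟨m, hm⟩ := (St_eq hT θ k).exists
  rw [hm]
  cases m with
  | zero => rfl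
  | succ m => exact ((dec_glue (blk_kil hT m)).bwdS θ k _).trans (h1 m)

theorem two_pow_le (β ρ : ℕ → ℕ∞) (hβ : ∀ a, β (a + 1) = β a * ρ a) (h1 : ∀ a, 1 ≤ β a)
    (hρ : ∀ a, 1 ≤ ρ a) (h : ¬ ∀ᶠ a in Filter.atTop, ρ a = 1) (v : ℕ) :
    ∀ᶠ a in Filter.atTop, (v : ℕ∞) ≤ β a := by
  have hmono : Monotone β := monotone_nat_of_le_succ fun a => by
    rw [hβ]; exact le_mul_of_one_le_right' (hρ a)
  have key : ∀ v : ℕ, ∃ a, (2 : ℕ∞) ^ v ≤ β a := by
    intro v
    induction v with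
    | zero => exact ⟨0, by simpa using h1 0⟩
    | succ v ih =>
      obtain ⟨a, ha⟩ := ih
      rw [Filter.not_eventually, Filter.frequently_atTop] at h
      obtain ⟨b, hb, hb'⟩ := h a
      refine ⟨b + 1, ?_⟩
      rw [hβ, pow_succ]
      exact mul_le_mul' (ha.trans (hmono hb))
        (Order.add_one_le_of_lt (lt_of_le_of_ne (hρ b) fun e => hb' e.symm))
  obtain ⟨a, ha⟩ := key v
  refine (Filter.eventually_ge_atTop a).mono fun b hb => le_trans ?_ (ha.trans (hmono hb))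
  exact_mod_cast (Nat.lt_two_pow_self (n := v)).le

/-- The filter used for the two cut points. -/
noncomputable abbrev UU : Filter ℕ := (Filter.hyperfilter ℕ : Filter ℕ)

/-- The repeated block. -/
abbrev mid (T : Tail R n) (a b : ℕ) : BP R n := blk (dr T (a + 1)) (b - (a + 1))

omit [Finite (Rq R q)] in
theorem dec_mid {T : Tail R n} (hT : TK q T) {a b : ℕ} (h : a + 1 ≤ b) :
    Dec q (tE (dr T (a + 1))) (mid T a b) (tE (dr T (b + 1))) := by
  have := dec_blk (hT.dr (a + 1)) (b - (a + 1))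
  rwa [dr_add, show b - (a + 1) + 1 + (a + 1) = b + 1 by omega] at this

omit [Finite (Rq R q)] in
theorem fwd_mid {T : Tail R n} (hT : TK q T) (θ : PP R) (k : Bool) (S : Set (V θ q n))
    (a m : ℕ) : (blk (dr T (a + 1)) m).fwdS θ q k ((blk T a).fwdS θ q k S) =
      (blk T (m + (a + 1))).fwdS θ q k S := by
  induction m with
  | zero =>
    rw [Nat.zero_add]
    refine Eq.trans ?_ ((dec_glue (blk_kil hT a)).fwdS θ k S).symm
    change (piece (dr T (a + 1)) 0).fwdS θ q k _ = _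
    rw [piece_dr, Nat.zero_add]
  | succ m ih =>
    refine ((dec_glue (blk_kil (hT.dr (a + 1)) m)).fwdS θ k _).trans ?_
    rw [ih, piece_dr, Nat.add_right_comm m 1]
    exact ((dec_glue (blk_kil hT _)).fwdS θ k S).symm

theorem ev_eq {β : Type} [Finite β] (f : ℕ → β) : ∀ᶠ a in UU, ∀ᶠ b in UU, f a = f b := by
  obtain ⟨c, hc⟩ := exists_ulim f
  exact hc.mono fun a ha => hc.mono fun b hb => ha.trans hb.symm

theorem ev_bwd {T : Tail R n} (hT : TK q T) (θ : PP R) (k : Bool) :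
    ∀ᶠ a in UU, ∀ᶠ b in UU,
      tA q (mid T a b) T.s θ k = (tE (dr T (a + 1))).bwdS θ q k Set.univ ∧
      tA q (mid T a b) T.s θ k = (tE (dr T (b + 1))).bwdS θ q k Set.univ ∧
      (mid T a b).bwdS θ q k (tA q (mid T a b) T.s θ k) = tA q (mid T a b) T.s θ k := by
  refine (ev_eq fun a => (tE (dr T (a + 1))).bwdS θ q k Set.univ).mono fun a ha => ?_
  have h1 := ((Filter.tendsto_sub_atTop_nat (a + 1)).eventually
    (St_eq (hT.dr (a + 1)) θ k)).filter_mono Nat.hyperfilter_le_atTop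
  refine (ha.and (h1.and (ulim_ge (a + 1)))).mono fun b hb => ?_
  obtain ⟨h2, h3, h4⟩ := hb
  rw [dr_s] at h3
  refine ⟨h3.symm, h3.symm.trans h2, ?_⟩
  rw [← h3]
  exact (congrArg ((mid T a b).bwdS θ q k) h2).trans ((dec_mid hT h4).bwdS θ k _).symm

theorem ev_fwd {T : Tail R n} (hT : TK q T) (θ : PP R) (k : Bool) (S : Set (V θ q n)) :
    ∀ᶠ a in UU, ∀ᶠ b in UU,
      (mid T a b).fwdS θ q k ((blk T a).fwdS θ q k S) = (blk T a).fwdS θ q k S := by
  refine (ev_eq fun a => (blk T a).fwdS θ q k S).mono fun a ha => ?_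
  refine (ha.and (ulim_ge (a + 1))).mono fun b hb => ?_
  rw [fwd_mid hT, Nat.sub_add_cancel hb.2]
  exact hb.1.symm

theorem ev_idx {T : Tail R n} (hT : TK q T) {φ ψ : PP R} {S : AddSubgroup (V φ q n)}
    {S' : AddSubgroup (V ψ q n)} (hle : (tE T).sec ψ q S' ⊤ ≤ (tE T).sec φ q S ⊤) {b : Bool}
    {v : ℕ} (hb : bd b v (eidx ((tE T).sec ψ q S' ⊤) ((tE T).sec φ q S ⊤))) :
    ∀ᶠ a in Filter.atTop,
      bd b v (eidx ((blk T a).sec ψ q S' ((tE (dr T (a + 1))).bwd ψ q (!T.s) ⊤))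
        ((blk T a).sec φ q S ((tE (dr T (a + 1))).bwd φ q (!T.s) ⊤))) ∧
      (b = false → (tE (dr T (a + 1))).sec φ q ((blk T a).fwd φ q T.s S) ⊤ =
        (tE (dr T (a + 1))).sec ψ q ((blk T a).fwd ψ q T.s S') ⊤) := by
  have hd := fun a => (dec_blk hT a).idx (!T.s) hle
  simp only [Bool.not_not] at hd
  have hA : ∀ (θ : PP R) a, (tE (dr T (a + 1))).bwd θ q (!T.s) ⊤ =
      (piece T (a + 1)).bwd θ q (!T.s) ((tE (dr T (a + 1 + 1))).bwd θ q (!T.s) ⊤) :=
    fun θ a => SetLike.coe_injective ((dec_dr hT (a + 1)).bwdS θ _ _)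
  have hF : ∀ (θ : PP R) (S : AddSubgroup (V θ q n)) a, (blk T (a + 1)).fwd θ q T.s S =
      (piece T (a + 1)).fwd θ q T.s ((blk T a).fwd θ q T.s S) :=
    fun θ S a => SetLike.coe_injective ((dec_glue (blk_kil hT a)).fwdS θ _ _)
  let β : ℕ → ℕ∞ := fun a =>
    eidx ((blk T a).sec ψ q S' ((tE (dr T (a + 1))).bwd ψ q (!T.s) ⊤))
      ((blk T a).sec φ q S ((tE (dr T (a + 1))).bwd φ q (!T.s) ⊤))
  let ρ : ℕ → ℕ∞ := fun a =>
    eidx ((piece T (a + 1)).sec ψ q ((blk T a).fwd ψ q T.s S')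
        ((tE (dr T (a + 1 + 1))).bwd ψ q (!T.s) ⊤))
      ((piece T (a + 1)).sec φ q ((blk T a).fwd φ q T.s S)
        ((tE (dr T (a + 1 + 1))).bwd φ q (!T.s) ⊤))
  have hβ : ∀ a, β (a + 1) = β a * ρ a := fun a => by
    have := ((dec_glue (W₂ := piece T (a + 1)) (blk_kil hT a)).idx (!T.s) (hd (a + 1)).1).2.2
    rw [Bool.not_not, ← hA, ← hA] at this
    exact this
  by_cases hρ : ∀ᶠ a in Filter.atTop, ρ a = 1
  · obtain ⟨a0, ha0⟩ := Filter.eventually_atTop.1 hρ
    refine (Filter.eventually_ge_atTop a0).mono fun a ha => ?_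
    have h1 := sec_le T.s (fun T' S₁ S₁' => ∃ a, a0 ≤ a ∧ T' = dr T (a + 1) ∧
        S₁ = (blk T a).fwd φ q T.s S ∧ S₁' = (blk T a).fwd ψ q T.s S') (by
      rintro _ _ _ ⟨a, ha, rfl, rfl, rfl⟩
      rw [piece_dr, Nat.zero_add, ← dr_succ]
      exact ⟨dr_s _ _, hT.dr _, (hd a).2.1, eidx_eq_one.1 (ha0 a ha), a + 1, by omega, rfl,
        (hF φ S a).symm, (hF ψ S' a).symm⟩) ⟨a, ha, rfl, rfl, rfl⟩
    refine ⟨?_, fun _ => le_antisymm h1 (hd a).2.1⟩
    rwa [(hd a).2.2, eidx_eq_one.2 h1, mul_one] at hb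
  · have h1 := two_pow_le β ρ hβ (fun _ => one_le_eidx _ _) (fun _ => one_le_eidx _ _) hρ
    cases b with
    | true => exact (h1 v).mono fun a ha => ⟨ha, nofun⟩
    | false =>
      obtain ⟨a, ha⟩ := (h1 (v + 1)).exists
      have h2 : β a * _ ≤ (v : ℕ∞) := (hd a).2.2 ▸ hb
      have h3 := (ha.trans (le_mul_of_one_le_right' (one_le_eidx _ _))).trans h2
      exact absurd (Nat.cast_le.1 h3) (by omega)

end BT

open BT

theorem tail_sound {q : ℕ} [Finite (Rq R q)] (W₀ W : BP R n) [Finite W₀.Y] [Finite W.Y]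
    (h₀ : W₀.Kil q) (h : W.Kil q) (s : Bool) (ts : List (TItem R)) (is : List (IItem R))
    (hc : TailCert q W₀ W s ts is) :
    ∃ E : Pt R n, KTail R q n E ∧ EndT q (ptBP E) ts ∧ EndI q (ptBP E) is := by
  have hT : TK q (consT W₀ (cst W s)) := fun k => by
    cases k with
    | zero => exact h₀
    | succ k => exact h
  have hd : Dec q (tE (consT W₀ (cst W s))) W₀ (tE (cst W s)) := dec_cons hT
  refine ⟨(consT W₀ (cst W s)).pt, ⟨consT W₀ (cst W s), hT, rfl⟩, fun t ht => ?_,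
    fun i hi S S' hS hS' hle => ?_⟩
  · obtain ⟨h1, h2⟩ := hc.1 t ht
    rw [h2, ← St_cst h s _ _ h1]
    exact (hd.bwdS _ _ _).symm
  · obtain ⟨h1, h2, h3, h4, h5, h6⟩ := hc.2 i hi
    rw [hS] at h3 h5 h6
    rw [hS'] at h4 h5 h6
    rw [← St_cst h s _ _ h1, ← St_cst h s _ _ h2] at h5 h6
    obtain ⟨-, k2, k3⟩ := hd.idx (!s) hle
    rw [Bool.not_not] at k2 k3
    have h7 := (idxS_iff (A := W₀.sec _ q S ((tE (cst W s)).bwd _ q (!s) ⊤))
      (B := W₀.sec _ q S' ((tE (cst W s)).bwd _ q (!s) ⊤))).1 h5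
    refine k3 ▸ ?_
    cases hb : i.2.2.1 with
    | true =>
      rw [hb] at h7
      exact le_trans h7 (le_mul_of_one_le_right' (one_le_eidx _ _))
    | false =>
      rw [hb] at h7
      have h8 := (idxS_iff (A := W.sec _ q (W₀.fwd _ q s S) ((tE (cst W s)).bwd _ q (!s) ⊤))
        (B := W.sec _ q (W₀.fwd _ q s S') ((tE (cst W s)).bwd _ q (!s) ⊤))).1 (h6 hb)
      have h9 := sec_le s (fun T' S₁ S₁' => T' = cst W s ∧ S₁ = W₀.fwd _ q s S ∧
          S₁' = W₀.fwd _ q s S') (by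
        rintro _ _ _ ⟨rfl, rfl, rfl⟩
        exact ⟨rfl, fun _ => h, k2, eidx_eq_one.1 (le_antisymm h8 (one_le_eidx _ _)), rfl,
          SetLike.coe_injective h3, SetLike.coe_injective h4⟩) ⟨rfl, rfl, rfl⟩
      rw [eidx_eq_one.2 h9, mul_one]
      exact h7

theorem tail_complete {q : ℕ} [Finite (Rq R q)] (E : Pt R n) (hE : KTail R q n E)
    (ts : List (TItem R)) (is : List (IItem R)) (ht : EndT q (ptBP E) ts)
    (hi : EndI' q (ptBP E) is) : ∃ (W₀ W : BP R n) (s : Bool), Finite W₀.Y ∧ Finite W.Y ∧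
      W₀.Kil q ∧ W.Kil q ∧ TailCert q W₀ W s ts is := by
  obtain ⟨T, hT', rfl⟩ := hE
  have hT : TK q T := hT'
  have key : ∀ᶠ a in UU, ∀ᶠ b in UU, TailCert q (blk T a) (mid T a b) T.s ts is := by
    unfold TailCert
    simp only [Filter.eventually_and]
    constructor
    · refine ((Filter.eventually_all_finite (List.finite_toSet ts)).2 fun t h => ?_).mono
        fun a ha => (Filter.eventually_all_finite (List.finite_toSet ts)).2 ha
      refine (ev_bwd hT t.1.toPP t.2.1).mono fun a ha => ha.mono fun b hb => ⟨hb.2.2, ?_⟩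
      rw [hb.1, ht t h]
      exact (dec_blk hT a).bwdS _ _ _
    · refine ((Filter.eventually_all_finite (List.finite_toSet is)).2 fun i h => ?_).mono
        fun a ha => (Filter.eventually_all_finite (List.finite_toSet is)).2 ha
      obtain ⟨S, S', hS, hS', hle, hb⟩ := hi i h
      rw [hS, hS']
      filter_upwards [ev_bwd hT i.1.1.toPP (!T.s), ev_bwd hT i.2.1.1.toPP (!T.s),
        ev_fwd hT i.1.1.toPP T.s S, ev_fwd hT i.2.1.1.toPP T.s S',
        (ev_idx hT hle hb).filter_mono Nat.hyperfilter_le_atTop] with a h1 h2 h3 h4 h5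
      filter_upwards [h1, h2, h3, h4, ulim_ge (a + 1)] with b k1 k2 k3 k4 k5
      refine ⟨k1.2.2, k2.2.2, k3, k4, ?_, fun hb' => ?_⟩
      · rw [k1.1, k2.1]
        exact idxS_iff.2 h5.1
      · rw [k1.2.1, k2.2.1]
        have h6 := ((dec_mid hT k5).idx (!T.s) (h5.2 hb').ge).2.2
        rw [eidx_eq_one.2 (h5.2 hb').le] at h6
        refine (idxS_iff (A := (mid T a b).sec _ q ((blk T a).fwd _ q T.s S)
          ((tE (dr T (b + 1))).bwd _ q (!T.s) ⊤)) (B := (mid T a b).sec _ q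
            ((blk T a).fwd _ q T.s S') ((tE (dr T (b + 1))).bwd _ q (!T.s) ⊤))).2 ?_
        exact (le_mul_of_one_le_right' (one_le_eidx _ _)).trans h6.ge
  obtain ⟨a, ha⟩ := key.exists
  obtain ⟨b, hb⟩ := ha.exists
  exact ⟨_, _, _, blk_fin T a, blk_fin _ _, blk_kil hT a, blk_kil (hT.dr _) _, hb⟩

end Pool.Agent.Lib.MP_c13fce_lc.NRE
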