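import Pool.Agent.Lib.MP_c13fce_lc.NRE2
import Pool.Agent.Lib.MP_c13fce_lc.NREc
import Pool.Agent.Lib.MP_c13fce_lc.NREt
import Pool.Agent.Lib.MP_c13fce_lc.NREa
import Pool.Agent.Lib.MP_c13fce_lc.NREp

/-! Block B: claims on ends are recursively enumerable. -/

namespace Pool.Agent.Lib.MP_c13fce_lc.NRE

open Pool.Agent.Lib.MP_a1ec0a_al

variable {R : Type} [Ring R] {n : ℕ}

/-- The list `A` describes the states accepted by the periodic tail. -/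
def FixC (q n : ℕ) (W : FC R) (s : Bool) (L : PPc R) (k : Bool) (A : List (Mat R)) : Prop :=
  ∃ Z : List (Mat R), ((s = true ∧ Z = [[]]) ∨ (s = false ∧ UnivC q n L Z)) ∧
    BwdC q n W L k Z A ∧ BwdC q n W L k A A

theorem FixC.spec {q : ℕ} {W : FC R} {s : Bool} {L : PPc R} {k : Bool} {A : List (Mat R)}
    (h : FixC q n W s L k A) : im L q n A = tA q (fbp W n) s L.toPP k ∧
      (fbp W n).bwdS L.toPP q k (tA q (fbp W n) s L.toPP k) = tA q (fbp W n) s L.toPP k := by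
  obtain ⟨Z, hZ, ⟨-, h₁⟩, -, h₂⟩ := h
  have : im L q n A = tA q (fbp W n) s L.toPP k := by
    rw [h₁, tA]
    rcases hZ with ⟨rfl, rfl⟩ | ⟨rfl, -, hZ⟩
    · simp [im_nil]
    · simp [hZ]
  exact ⟨this, by rw [← this, ← h₂]⟩

/-- The coded certificate for a tail. -/
def TailC (q n : ℕ) (ts : List (TItem R)) (is : List (IItem R)) : Prop :=
  ∃ (W₀ W : FC R) (s : Bool), FOk q n W₀ ∧ FOk q n W ∧
    AllL ts (fun t => ∃ A, FixC q n W s t.1 t.2.1 A ∧ BwdC q n W₀ t.1 t.2.1 A t.2.2) ∧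
    AllL is fun i => ∃ A A' S S' : List (Mat R), FixC q n W s i.1.1 (!s) A ∧
      FixC q n W s i.2.1.1 (!s) A' ∧ FwdC q n W₀ i.1.1 s i.1.2 S ∧ FwdC q n W i.1.1 s S S ∧
      FwdC q n W₀ i.2.1.1 s i.2.1.2 S' ∧ FwdC q n W i.2.1.1 s S' S' ∧
      IdxC q n W₀ i.1.1 i.1.2 A i.2.1.1 i.2.1.2 A' i.2.2.1 i.2.2.2 ∧
      (i.2.2.1 = true ∨ IdxC q n W i.1.1 S A i.2.1.1 S' A' false 1)

variable [Primcodable R] [CR R]

theorem exists_fixC {q : ℕ} {W : FC R} (hW : FOk q n W) {s : Bool} {L : PPc R} {k : Bool}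
    (h : (fbp W n).bwdS L.toPP q k (tA q (fbp W n) s L.toPP k) = tA q (fbp W n) s L.toPP k) :
    ∃ A, FixC q n W s L k A ∧ im L q n A = tA q (fbp W n) s L.toPP k := by
  obtain ⟨A, hA⟩ := exists_im hW.1 L (tA q (fbp W n) s L.toPP k)
  obtain ⟨U, hU⟩ := exists_im (n := n) hW.1 L Set.univ
  refine ⟨A, ?_, hA⟩
  cases s
  · exact ⟨U, .inr ⟨rfl, hW.1, hU⟩, ⟨hW, by simp [hA, hU, tA]⟩, hW, by rw [hA, h]⟩
  · exact ⟨[[]], .inl ⟨rfl, rfl⟩, ⟨hW, by simp [hA, im_nil, tA]⟩, hW, by rw [hA, h]⟩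

theorem tailC_iff {q : ℕ} {ts : List (TItem R)} {is : List (IItem R)} : TailC q n ts is ↔
    ∃ (W₀ W : FC R) (s : Bool), FOk q n W₀ ∧ FOk q n W ∧
      TailCert q (fbp W₀ n) (fbp W n) s ts is := by
  refine exists₃_congr fun W₀ W s => and_congr_right fun h₀ => and_congr_right fun h => ?_
  refine and_congr (forall₂_congr fun t _ => ?_) (forall₂_congr fun i _ => ?_)
  · constructor
    · rintro ⟨A, hA, -, h'⟩
      exact ⟨hA.spec.2, by rw [h', hA.spec.1]⟩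
    · rintro ⟨h₁, h₂⟩
      obtain ⟨A, hA, e⟩ := exists_fixC h h₁
      exact ⟨A, hA, h₀, by rw [h₂, e]⟩
  · constructor
    · rintro ⟨A, A', S, S', hA, hA', ⟨-, h₁⟩, ⟨-, h₂⟩, ⟨-, h₃⟩, ⟨-, h₄⟩, ⟨-, h₅⟩, h₆⟩
      refine ⟨hA.spec.2, hA'.spec.2, by rw [← h₁, ← h₂], by rw [← h₃, ← h₄],
        by rwa [← hA.spec.1, ← hA'.spec.1], fun hb => ?_⟩
      rw [← hA.spec.1, ← hA'.spec.1, ← h₁, ← h₃]
      exact (h₆.resolve_left (by simp [hb])).2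
    · rintro ⟨h₁, h₂, h₃, h₄, h₅, h₆⟩
      obtain ⟨A, hA, e⟩ := exists_fixC h h₁
      obtain ⟨A', hA', e'⟩ := exists_fixC h h₂
      obtain ⟨S, hS⟩ := exists_im h.1 i.1.1 ((fbp W₀ n).fwdS i.1.1.toPP q s (im i.1.1 q n i.1.2))
      obtain ⟨S', hS'⟩ := exists_im h.1 i.2.1.1
        ((fbp W₀ n).fwdS i.2.1.1.toPP q s (im i.2.1.1 q n i.2.1.2))
      refine ⟨A, A', S, S', hA, hA', ⟨h₀, hS⟩, ⟨h, by rw [hS, h₃]⟩, ⟨h₀, hS'⟩,
        ⟨h, by rw [hS', h₄]⟩, ⟨h₀, by rwa [e, e']⟩, ?_⟩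
      cases hb : i.2.2.1
      · exact .inr ⟨h, by rw [e, e', hS, hS']; exact h₆ hb⟩
      · exact .inl rfl

@[fun_prop] theorem s1_FixC {α : Type} [Primcodable α] {q m : α → ℕ} {W : α → FC R}
    {s k : α → Bool} {L : α → PPc R} {A : α → List (Mat R)} (hq : PR q) (hm : PR m) (hW : PR W)
    (hs : PR s) (hL : PR L) (hk : PR k) (hA : PR A) :
    S1 fun a => FixC (q a) (m a) (W a) (s a) (L a) (k a) (A a) := by
  unfold FixC; fun_prop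

theorem s1_TailC : S1 fun a : ℕ × ℕ × List (TItem R) × List (IItem R) =>
    TailC a.1 a.2.1 a.2.2.1 a.2.2.2 := by
  unfold TailC; fun_prop

omit [Primcodable R] [CR R] in
theorem TailCert.eqv {q : ℕ} {W₀ W W₀' W' : BP R n} {s : Bool} {ts : List (TItem R)}
    {is : List (IItem R)} (h : TailCert q W₀ W s ts is) (e₀ : Eqv q W₀ W₀') (e : Eqv q W W') :
    TailCert q W₀' W' s ts is := by
  have ht : ∀ θ k, tA q W' s θ k = tA q W s θ k := fun θ k => by rw [tA, tA, e.bwdS]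
  refine ⟨fun t ht' => ?_, fun i hi => ?_⟩
  · simpa only [ht, ← e.bwdS, ← e₀.bwdS] using h.1 t ht'
  · obtain ⟨h₁, h₂, h₃, h₄, h₅, h₆⟩ := h.2 i hi
    simp only [ht, ← e.bwdS, ← e.fwdS, ← e₀.fwdS]
    exact ⟨h₁, h₂, h₃, h₄, e₀.idxS h₅, fun hb => e.idxS (h₆ hb)⟩

theorem tail_re : EndRE R (KTail R) := by
  refine ⟨_, s1_TailC, fun q n ts is hq h => ?_, fun q n ts is E hq hE ht hi => ?_⟩
  · obtain ⟨W₀, W, s, h₀, h₁, h⟩ := tailC_iff.1 h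
    have := finite_Rq (R := R) hq
    have := finite_fbp W₀ n h₀.2.1
    have := finite_fbp W n h₁.2.1
    exact tail_sound _ _ h₀.2.2 h₁.2.2 s ts is h
  · have := finite_Rq (R := R) hq
    obtain ⟨W₀, W, s, f₀, f₁, -, -, h⟩ := tail_complete E hE ts is ht hi
    obtain ⟨W₀', h₀, e₀⟩ := exists_code hq W₀
    obtain ⟨W', h₁, e₁⟩ := exists_code hq W
    exact tailC_iff.2 ⟨W₀', W', s, h₀, h₁, h.eqv e₀ e₁⟩

theorem end_re [Module.Free ℤ R] [Module.Finite ℤ R] (hreg : Reg ℤ R) :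
    EndRE R fun q _ E => IsEnd (q : R) E := by
  obtain ⟨C₁, r₁, s₁, c₁⟩ := tail_re (R := R)
  obtain ⟨C₂, r₂, s₂, c₂⟩ := adic_re R hreg
  obtain ⟨C₃, r₃, s₃, c₃⟩ := pruf_re R hreg
  refine ⟨fun a => C₁ a ∨ C₂ a ∨ C₃ a, r₁.or (r₂.or r₃), fun q n ts is hq h => ?_,
    fun q n ts is E hq hE ht hi => ?_⟩
  · rcases h with h | h | h
    · obtain ⟨E, hE, h⟩ := s₁ q n ts is hq h
      exact ⟨E, .inl hE, h⟩
    · obtain ⟨E, hE, h⟩ := s₂ q n ts is hq h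
      exact ⟨E, .inr (.inl hE), h⟩
    · obtain ⟨E, hE, h⟩ := s₃ q n ts is hq h
      exact ⟨E, .inr (.inr hE), h⟩
  · rcases hE with hE | hE | hE
    · exact .inl (c₁ q n ts is E hq hE ht hi)
    · exact .inr (.inl (c₂ q n ts is E hq hE ht hi))
    · exact .inr (.inr (c₃ q n ts is E hq hE ht hi))

end Pool.Agent.Lib.MP_c13fce_lc.NRE
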