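import Pool.Agent.Lib.MP_c13fce_lc.NREy1

/-! Block B: divisible ends, algebraic part. -/

namespace Pool.Agent.Lib.MP_c13fce_lc.NRE.Pru

open Filter

variable {R : Type} [Ring R] {n q : ℕ} {P : PData R (q : R) n}

/-- The marks at level `l + 1`. -/
def yl (P : PData R (q : R) n) (l : ℕ) : Fin n → R := fun j => P.y j * (q : R) ^ l

theorem comm (x : R) (k : ℕ) : (q : R) ^ k * x = x * (q : R) ^ k :=
  ((Nat.cast_commute q x).pow_left k).eq

theorem pow_mem (x : R) (l : ℕ) : x * (q : R) ^ l ∈ P.lev l :=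
  Submodule.mem_sup_right (Submodule.mem_span_singleton.2 ⟨x, rfl⟩)

theorem lev_up {l : ℕ} {x : R} (hx : x ∈ P.lev (l + 1)) (j : ℕ) :
    x * (q : R) ^ j ∈ P.lev (l + j + 1) := by
  have := P.lev_mul_pow (l + 1) j hx
  rwa [add_right_comm] at this

theorem yl_q (l : ℕ) (j : Fin n) : yl P l j * (q : R) ∈ P.lev (l + 1) := by
  rw [yl, mul_assoc, ← pow_succ]; exact pow_mem _ _

theorem yl_t (hy : ∀ i, P.y i * P.t - P.y i ∈ P.lev 1) (l : ℕ) (j : Fin n) :
    yl P l j * P.t - yl P l j ∈ P.lev (l + 1) := by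
  have := P.lev_mul_pow 1 l (hy j)
  rwa [add_comm, sub_mul, mul_assoc, ← comm, ← mul_assoc] at this

theorem yl_up (l j : ℕ) (a : Fin n) : yl P l a * (q : R) ^ j = yl P (l + j) a := by
  rw [yl, yl, mul_assoc, ← pow_add]

/-- Solutions at level `l + 1`. -/
def SL (P : PData R (q : R) n) (θ : PP R) (l : ℕ) (X : R) (c : θ.ι → Fin n → R) : Prop :=
  Sol θ (P.lev (l + 1)) (yl P l) X c

theorem SL.up {θ : PP R} {l : ℕ} {X : R} {c : θ.ι → Fin n → R} (h : SL P θ l X c) (j : ℕ) :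
    SL P θ (l + j) (X * (q : R) ^ j) c := by
  obtain ⟨w, hw⟩ := h
  refine ⟨fun k => w k * (q : R) ^ j, fun i => ?_⟩
  have := lev_up (hw i) j
  simpa only [add_mul, Finset.sum_mul, mul_assoc, yl_up] using this

theorem tb_step {θ : PP R} {k : Bool} {j j' m : ℕ} (hj : TB q (Kth θ k P.I) j) {X : R}
    (hX : k = false → X = 0) {w : θ.κ → R} {v : θ.ι → R}
    (h : ∀ i, θ.h i * X + ∑ k, θ.H i k * w k + v i * (q : R) ^ j' ∈ P.lev (m + j')) :
    ∃ (X' : R) (w' : θ.κ → R), (k = false → X' = 0) ∧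
      ∀ i, θ.h i * X' + ∑ k, θ.H i k * w' k + v i * (q : R) ^ j ∈ P.lev (m + j) := by
  have h1 : ∀ i, ∃ s : R, θ.h i * X + ∑ k, θ.H i k * w k + v i * (q : R) ^ j' -
      s * (q : R) ^ (m + j') ∈ P.I := fun i => by
    obtain ⟨u, hu, z, hz, e⟩ := Submodule.mem_sup.1 (h i)
    obtain ⟨s, rfl⟩ := Submodule.mem_span_singleton.1 hz
    exact ⟨s, by rw [← e, smul_eq_mul, add_sub_cancel_right]; exact hu⟩
  choose s hs using h1
  have h2 : q ^ j' • (fun i => s i * (q : R) ^ m - v i) ∈ Kth θ k P.I :=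
    ⟨X, w, hX, fun i => by
      convert hs i using 1
      simp only [Pi.smul_apply, nsmul_eq_mul, Nat.cast_pow, comm _ j', sub_mul, mul_assoc,
        ← pow_add]
      abel⟩
  obtain ⟨X', w', hX', hw'⟩ := hj _ _ h2
  refine ⟨X', w', hX', fun i => ?_⟩
  have := add_mem (Submodule.mem_sup_left (hw' i) : _ ∈ P.lev (m + j)) (pow_mem (s i) (m + j))
  rw [Pi.smul_apply, nsmul_eq_mul, Nat.cast_pow, comm _ j, sub_mul, mul_assoc,
    ← pow_add] at this
  convert this using 1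
  · rfl
  · abel

theorem SL.tb {θ : PP R} {l j j' : ℕ} (hj : TB q (Kth θ false P.I) j) {X : R}
    {c : θ.ι → Fin n → R} (h : SL P θ (l + j') (X * (q : R) ^ j') c) :
    SL P θ (l + j) (X * (q : R) ^ j) c := by
  obtain ⟨w, hw⟩ := h
  obtain ⟨X', w', hX', hw'⟩ := tb_step (m := l + 1) (j' := j') hj (X := 0) (fun _ => rfl) (w := w)
    (v := fun i => θ.h i * X + ∑ a, c i a * yl P l a) fun i => by
      convert hw i using 1
      · rw [add_right_comm]
      · simp only [add_mul, Finset.sum_mul, mul_assoc, yl_up, mul_zero]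
        abel
  refine ⟨w', fun i => ?_⟩
  convert hw' i using 1
  · rw [add_right_comm]
  · simp only [add_mul, Finset.sum_mul, mul_assoc, yl_up, hX' rfl, mul_zero]
    abel

theorem SL.tb' {θ : PP R} {k : Bool} {j j' : ℕ} (hj : TB q (Kth θ k P.I) j) {X : R}
    (hX : k = false → X = 0) {c : θ.ι → Fin n → R} (h : SL P θ j' X c) :
    ∃ X', (k = false → X' = 0) ∧ SL P θ j X' c := by
  obtain ⟨w, hw⟩ := h
  obtain ⟨X', w', hX', hw'⟩ := tb_step (m := 1) (j' := j') hj hX (w := w)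
    (v := fun i => ∑ a, c i a * P.y a) fun i => by
      convert hw i using 1
      · rw [add_comm]
      · simp only [Finset.sum_mul, mul_assoc, yl]
  refine ⟨X', hX', w', fun i => ?_⟩
  convert hw' i using 1
  · rw [add_comm]
  · simp only [Finset.sum_mul, mul_assoc, yl]

/-- The fractions `X / q ^ (l + 1)` in a divisible end. -/
structure Fr (P : PData R (q : R) n) (E : Pt R n) where
  f : ℕ → R →ₗ[R] E.Y
  ker : ∀ l K X, Idem P (l + 1) K →
    (f l X = 0 ↔ ∃ j, X * P.t ^ K * (q : R) ^ j ∈ P.lev (l + j + 1))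
  up : ∀ l j X, f (l + j) (X * (q : R) ^ j) = f l X
  surj : ∀ x, ∃ l X, f l X = x
  mark : ∀ j, f 0 (P.y j) = E.y j

theorem seq_mem {l : ℕ} {x : R} (hx : x ∈ P.st l) :
    (fun k => x * (q : R) ^ (k - l)) ∈ P.pSeq := by
  refine eventually_atTop.2 ⟨l, fun k hk => ⟨?_, ?_⟩⟩
  · beta_reduce
    rw [Nat.succ_sub hk, pow_succ, mul_assoc, sub_self]; exact zero_mem _
  · have := st_mul_pow hx (k - l)
    rwa [Nat.add_sub_cancel' hk] at this

theorem mk_eq {s s' : P.pSeq} :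
    (Submodule.Quotient.mk s : P.pSeq ⧸ P.pNull.submoduleOf P.pSeq) = Submodule.Quotient.mk s' ↔
      ∀ᶠ k in atTop, s.1 k - s'.1 k ∈ P.lev k :=
  Submodule.Quotient.eq _

theorem ev_lev {l : ℕ} {x : R} (hx : x ∈ P.lev l) :
    ∀ᶠ k in atTop, x * (q : R) ^ (k - l) ∈ P.lev k :=
  eventually_atTop.2 ⟨l, fun k hk => by
    have := P.lev_mul_pow l (k - l) hx
    rwa [Nat.add_sub_cancel' hk] at this⟩

theorem exists_fr [Module.Finite ℤ R] (hq : 0 < q) (hy : ∀ i, P.y i * P.t - P.y i ∈ P.lev 1) :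
    Nonempty (Fr P (P.prufer hy)) := by
  choose e he using fun l => exists_idem hq P (l + 1)
  let g : ℕ → R →ₗ[R] P.pSeq := fun l => LinearMap.codRestrict P.pSeq
    (LinearMap.pi fun k => LinearMap.toSpanSingleton R R (P.t ^ e l * (q : R) ^ (k - (l + 1))))
    fun X => by
      convert seq_mem ((he l).mem_st X) using 2 with k
      simp [mul_assoc]
  have hg : ∀ l X k, (g l X).1 k = X * P.t ^ e l * (q : R) ^ (k - (l + 1)) := fun l X k => by
    simp [g, mul_assoc]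
  refine ⟨⟨fun l => (P.pNull.submoduleOf P.pSeq).mkQ ∘ₗ g l, fun l K X hK => ?_,
    fun l j X => ?_, fun x => ?_, fun j => ?_⟩⟩
  · have e1 : X * P.t ^ e l - X * P.t ^ K ∈ P.lev (l + 1) := by
      rw [← mul_sub]; exact BY.lmul _ ((he l).sub_mem hK)
    refine (mk_eq (s := g l X) (s' := 0)).trans ⟨fun h => ?_, fun ⟨j, hj⟩ => ?_⟩
    · obtain ⟨k, hk, hk'⟩ := (h.and (eventually_ge_atTop (l + 1))).exists
      obtain ⟨j, rfl⟩ := Nat.exists_eq_add_of_le hk'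
      refine ⟨j, ?_⟩
      have := sub_mem hk (P.lev_mul_pow _ j e1)
      rw [add_right_comm]
      convert this using 1
      simp [hg, sub_mul]
    · filter_upwards [ev_lev hj, ev_lev e1, eventually_ge_atTop (l + j + 1)] with k h1 h2 h3
      convert add_mem h1 h2 using 1
      have : k - (l + 1) = j + (k - (l + j + 1)) := by omega
      simp only [hg, sub_mul, this, pow_add, mul_assoc, ZeroMemClass.coe_zero, Pi.zero_apply]
      abel
  · refine mk_eq.2 ?_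
    have e1 : X * P.t ^ e (l + j) - X * P.t ^ e l ∈ P.lev (l + 1) := by
      rw [← mul_sub]; exact BY.lmul _ (((he (l + j)).mono (by omega)).sub_mem (he l))
    filter_upwards [ev_lev e1, eventually_ge_atTop (l + j + 1)] with k h1 h3
    convert h1 using 1
    have : k - (l + 1) = j + (k - (l + j + 1)) := by omega
    rw [hg, hg, sub_mul, this, pow_add, mul_assoc X ((q : R) ^ j), comm]
    simp only [mul_assoc]
  · obtain ⟨s, rfl⟩ := Submodule.Quotient.mk_surjective _ x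
    obtain ⟨l, hl⟩ := eventually_atTop.1 s.2
    refine ⟨l, s.1 (l + 1), mk_eq.2 ?_⟩
    have key : ∀ j, s.1 (l + 1) * (q : R) ^ j - s.1 (l + 1 + j) ∈ P.lev (l + 1 + j) := by
      intro j
      induction j with
      | zero => simp
      | succ j ih =>
        have := sub_mem (P.lev_mul_pow _ 1 ih) (hl (l + 1 + j) (by omega)).1
        rwa [pow_one, sub_mul, mul_assoc, ← pow_succ, sub_sub_sub_cancel_right] at this
    filter_upwards [ev_lev ((he l).fix (hl (l + 1) (by omega)).2), eventually_ge_atTop (l + 1)]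
      with k h1 h3
    obtain ⟨j, rfl⟩ := Nat.exists_eq_add_of_le h3
    convert add_mem h1 (key j) using 1
    simp [hg, sub_mul]
  · refine mk_eq.2 ?_
    filter_upwards [ev_lev ((he 0).fix (P.mem_st _ (hy j)))] with k h1
    convert h1 using 1
    simp [hg, sub_mul]

theorem relR_pt {E : Pt R n} {θ : PP R} {x : E.Y} {c c' : θ.ι → Fin n → R} :
    (ptBP E).relR θ x c c' ↔ ∃ w : θ.κ → E.Y, ∀ i,
      θ.h i • x + ∑ k, θ.H i k • w k + ∑ j, c i j • E.y j = 0 := by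
  change (∃ w : θ.κ → E.Y, ∀ i, θ.h i • x + ∑ k, θ.H i k • w k =
    ∑ j, c' i j • (0 : E.Y) - ∑ j, c i j • E.y j) ↔ _
  simp only [smul_zero, Finset.sum_const_zero, zero_sub, add_eq_zero_iff_eq_neg]

namespace Fr

variable [Module.Finite ℤ R] {E : Pt R n} (F : Fr P E)

theorem zero (hq : 0 < q) {l : ℕ} {X : R} (h : X ∈ P.lev (l + 1)) : F.f l X = 0 := by
  obtain ⟨K, hK⟩ := exists_idem hq P (l + 1)
  exact (F.ker l K X hK).2 ⟨0, by simpa using BY.lev_tpow h K⟩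

theorem congr (hq : 0 < q) {l : ℕ} {X X' : R} (h : X - X' ∈ P.lev (l + 1)) :
    F.f l X = F.f l X' := by
  rw [← sub_eq_zero, ← map_sub]; exact F.zero hq h

omit [Module.Finite ℤ R] in
theorem idem {l K : ℕ} (hK : Idem P (l + 1) K) (X : R) : F.f l (X * P.t ^ K) = F.f l X := by
  rw [← sub_eq_zero, ← map_sub]
  refine (F.ker l K _ hK).2 ⟨0, ?_⟩
  have := BY.lmul X hK.2
  rw [two_mul, pow_add, mul_sub, ← mul_assoc] at this
  simpa [sub_mul] using this

omit [Module.Finite ℤ R] in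
theorem mark' (l : ℕ) (j : Fin n) : F.f l (yl P l j) = E.y j := by
  have := F.up 0 l (P.y j)
  rw [zero_add] at this
  rw [yl, this, F.mark]

omit [Module.Finite ℤ R] in
theorem ev_surj (x : E.Y) : ∀ᶠ l in atTop, ∃ X, F.f l X = x := by
  obtain ⟨l, X, rfl⟩ := F.surj x
  refine eventually_atTop.2 ⟨l, fun k hk => ?_⟩
  obtain ⟨j, rfl⟩ := Nat.exists_eq_add_of_le hk
  exact ⟨_, F.up l j X⟩

include F in
theorem kil (hq : 0 < q) : (ptBP E).Kil q := fun j => by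
  refine ⟨?_, smul_zero (A := E.Y) (q : R)⟩
  change (q : R) • E.y j = 0
  rw [← F.mark' 0, ← map_smul, smul_eq_mul, (Nat.cast_commute q _).eq]
  exact F.zero hq (yl_q 0 j)

omit [Module.Finite ℤ R] in
theorem map_row {θ : PP R} (l : ℕ) (X : R) (w : θ.κ → R) (c : θ.ι → Fin n → R) (i : θ.ι) :
    F.f l (θ.h i * X + ∑ k, θ.H i k * w k + ∑ j, c i j * yl P l j) =
      θ.h i • F.f l X + ∑ k, θ.H i k • F.f l (w k) + ∑ j, c i j • E.y j := by
  simp only [map_add, map_sum, ← smul_eq_mul, map_smul, F.mark']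

theorem of_SL (hq : 0 < q) {θ : PP R} {l : ℕ} {X : R} {c : θ.ι → Fin n → R}
    (h : SL P θ l X c) (c' : θ.ι → Fin n → R) : (ptBP E).relR θ (F.f l X) c c' := by
  obtain ⟨w, hw⟩ := h
  refine relR_pt.2 ⟨fun k => F.f l (w k), fun i => ?_⟩
  rw [← F.map_row]
  exact F.zero hq (hw i)

theorem to_SL (hq : 0 < q) (hy : ∀ i, P.y i * P.t - P.y i ∈ P.lev 1) {θ : PP R} {l K : ℕ}
    (hK : Idem P (l + 1) K) {X : R} {c c' : θ.ι → Fin n → R}
    (h : (ptBP E).relR θ (F.f l X) c c') : ∃ j, SL P θ (l + j) (X * P.t ^ K * (q : R) ^ j) c := by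
  obtain ⟨w, hw⟩ := relR_pt.1 h
  obtain ⟨l', h1, h2⟩ := ((eventually_all.2 fun k => F.ev_surj (w k)).and
    (eventually_ge_atTop l)).exists
  obtain ⟨d, rfl⟩ := Nat.exists_eq_add_of_le h2
  choose W hW using h1
  obtain ⟨K', hK'⟩ := exists_idem hq P (l + d + 1)
  have h3 : ∀ i, ∀ᶠ j in atTop, (θ.h i * (X * (q : R) ^ d) + ∑ k, θ.H i k * W k +
      ∑ a, c i a * yl P (l + d) a) * P.t ^ K' * (q : R) ^ j ∈ P.lev (l + d + j + 1) := fun i => by
    obtain ⟨j, hj⟩ := (F.ker (l + d) K' (θ.h i * (X * (q : R) ^ d) + ∑ k, θ.H i k * W k +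
      ∑ a, c i a * yl P (l + d) a) hK').1 (by
        rw [F.map_row, F.up]
        simp only [hW, hw i])
    refine eventually_atTop.2 ⟨j, fun k hk => ?_⟩
    obtain ⟨a, rfl⟩ := Nat.exists_eq_add_of_le hk
    have := lev_up hj a
    rwa [mul_assoc _ ((q : R) ^ j), ← pow_add, add_assoc (l + d)] at this
  obtain ⟨j, hj⟩ := (eventually_all.2 h3).exists
  refine ⟨d + j, fun k => W k * P.t ^ K' * (q : R) ^ j, fun i => ?_⟩
  have e1 : X * P.t ^ K - X * P.t ^ K' ∈ P.lev (l + 1) := by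
    rw [← mul_sub]; exact BY.lmul _ (hK.sub_mem (hK'.mono (by omega)))
  have e2 : ∑ a, c i a * ((yl P (l + d) a * P.t ^ K' - yl P (l + d) a) * (q : R) ^ j) ∈
      P.lev (l + d + j + 1) := Submodule.sum_mem _ fun a _ =>
    BY.lmul _ (lev_up (hK'.fix (P.mem_st _ (yl_t hy _ a))) j)
  have e3 := lev_up e1 (d + j)
  rw [← add_assoc l d j] at e3 ⊢
  have := sub_mem (add_mem (hj i) (BY.lmul (θ.h i) e3)) e2
  convert this using 1
  simp only [add_mul, sub_mul, mul_sub, Finset.sum_mul, Finset.sum_sub_distrib, mul_assoc,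
    ← yl_up (l + d) j, pow_add, comm (P.t ^ K') d]
  abel

end Fr

/-- Solutions at level `l + 1` with state in `S`. -/
def SS (P : PData R (q : R) n) (θ : PP R) (S : Set (V θ q n)) (l : ℕ) (X : R) : Prop :=
  ∃ c, mkV q c ∈ S ∧ SL P θ l X c

theorem SS.up {θ : PP R} {S : Set (V θ q n)} {l : ℕ} {X : R} (h : SS P θ S l X) (j : ℕ) :
    SS P θ S (l + j) (X * (q : R) ^ j) :=
  h.imp fun _ h => ⟨h.1, h.2.up j⟩

theorem SS.tb {θ : PP R} {S : Set (V θ q n)} {l j j' : ℕ} (hj : TB q (Kth θ false P.I) j) {X : R}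
    (h : SS P θ S (l + j') (X * (q : R) ^ j')) : SS P θ S (l + j) (X * (q : R) ^ j) :=
  h.imp fun _ h => ⟨h.1, h.2.tb hj⟩

theorem SS.congr {θ : PP R} {S : Set (V θ q n)} {l : ℕ} {X X' : R} (h : SS P θ S l X)
    (hX : X - X' ∈ P.lev (l + 1)) : SS P θ S l X' :=
  h.imp fun _ h => ⟨h.1, Sol.congr h.2 hX⟩

/-- The solutions in an end with state in `S`. -/
def sc (E : Pt R n) (θ : PP R) (q : ℕ) (S : AddSubgroup (V θ q n)) : AddSubgroup E.Y :=
  (ptBP E).sec θ q S ⊤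

theorem mem_sc {E : Pt R n} {θ : PP R} {S : AddSubgroup (V θ q n)} {x : E.Y} :
    x ∈ sc E θ q S ↔ ∃ c c', mkV q c ∈ S ∧ (ptBP E).relR θ x c c' :=
  ⟨fun ⟨_, h, _, _, c, c', e, _, h'⟩ => ⟨c, c', e ▸ h, h'⟩,
    fun ⟨c, c', h, h'⟩ => ⟨_, h, _, trivial, c, c', rfl, rfl, h'⟩⟩

theorem set_le_sc {E : Pt R n} (θ : PP R) (S : AddSubgroup (V θ q n)) :
    θ.set E.Y ≤ sc E θ q S := fun _ ⟨w, hw⟩ =>
  mem_sc.2 ⟨0, 0, S.zero_mem, relR_pt.2 ⟨w, fun i => by simpa using hw i⟩⟩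

namespace Fr

variable [Module.Finite ℤ R] {E : Pt R n} (F : Fr P E)

theorem of_SS (hq : 0 < q) {θ : PP R} {S : AddSubgroup (V θ q n)} {l : ℕ} {X : R}
    (h : SS P θ S l X) : F.f l X ∈ sc E θ q S := by
  obtain ⟨c, hc, h⟩ := h
  exact mem_sc.2 ⟨c, 0, hc, F.of_SL hq h 0⟩

theorem of_SS' (hq : 0 < q) {θ : PP R} {S : AddSubgroup (V θ q n)} {l j K : ℕ} {X : R}
    (hK : Idem P (l + 1) K) (h : SS P θ S (l + j) (X * P.t ^ K * (q : R) ^ j)) :
    F.f l X ∈ sc E θ q S := by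
  have := F.of_SS hq h
  rwa [F.up, F.idem hK] at this

theorem to_SS (hq : 0 < q) (hy : ∀ i, P.y i * P.t - P.y i ∈ P.lev 1) {θ : PP R}
    {S : AddSubgroup (V θ q n)} {l K : ℕ} (hK : Idem P (l + 1) K) {X : R}
    (h : F.f l X ∈ sc E θ q S) : ∃ j, SS P θ S (l + j) (X * P.t ^ K * (q : R) ^ j) := by
  obtain ⟨c, c', hc, h⟩ := mem_sc.1 h
  obtain ⟨j, hj⟩ := F.to_SL hq hy hK h
  exact ⟨j, c, hc, hj⟩

theorem ev_sol (hq : 0 < q) (hy : ∀ i, P.y i * P.t - P.y i ∈ P.lev 1) {θ : PP R}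
    {S : AddSubgroup (V θ q n)} {x : E.Y} (h : x ∈ sc E θ q S) :
    ∀ᶠ l in atTop, ∃ X, F.f l X = x ∧ SS P θ S l X := by
  obtain ⟨l, X, rfl⟩ := F.surj x
  obtain ⟨K, hK⟩ := exists_idem hq P (l + 1)
  obtain ⟨j, hj⟩ := F.to_SS hq hy hK h
  refine eventually_atTop.2 ⟨l + j, fun k hk => ?_⟩
  obtain ⟨a, rfl⟩ := Nat.exists_eq_add_of_le hk
  exact ⟨_, by rw [F.up, F.up, F.idem hK], hj.up a⟩

include F in
theorem mem_bwd (hq : 0 < q) (hy : ∀ i, P.y i * P.t - P.y i ∈ P.lev 1) {θ : PP R} {k : Bool}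
    {c : θ.ι → Fin n → R} : mkV q c ∈ (ptBP E).bwdS θ q k Set.univ ↔
      ∃ j X, (k = false → X = 0) ∧ SL P θ j X c := by
  constructor
  · rintro ⟨v, -, x, hx, h⟩
    obtain ⟨c', rfl⟩ := mkV_surj q v
    have h' := (F.kil hq).mem_rel.1 h
    obtain ⟨l, X, hX, rfl⟩ : ∃ l X, (k = false → X = 0) ∧ F.f l X = x := by
      cases k
      · exact ⟨0, 0, fun _ => rfl, (map_zero _).trans (hx rfl).symm⟩
      · obtain ⟨l, X, e⟩ := F.surj x
        exact ⟨l, X, fun h => (by cases h), e⟩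
    obtain ⟨K, hK⟩ := exists_idem hq P (l + 1)
    obtain ⟨j, hj⟩ := F.to_SL hq hy hK h'
    exact ⟨_, _, fun h => by rw [hX h, zero_mul, zero_mul], hj⟩
  · rintro ⟨j, X, hX, h⟩
    exact ⟨mkV q 0, trivial, F.f j X, fun h => by rw [hX h]; exact map_zero _,
      c, 0, rfl, rfl, F.of_SL hq h 0⟩

theorem tors (hq : 0 < q) {a : ℕ} {x : E.Y} (hx : (q : R) ^ (a + 1) • x = 0) :
    ∃ X, F.f a X = x := by
  obtain ⟨l, ⟨Z, rfl⟩, hl⟩ := ((F.ev_surj x).and (eventually_ge_atTop a)).exists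
  obtain ⟨d, rfl⟩ := Nat.exists_eq_add_of_le hl
  obtain ⟨K, hK⟩ := exists_idem hq P (a + d + 1)
  rw [← map_smul] at hx
  obtain ⟨j, hj⟩ := (F.ker _ K _ hK).1 hx
  obtain ⟨u, hu, z, hz, e⟩ := Submodule.mem_sup.1 hj
  obtain ⟨s, rfl⟩ := Submodule.mem_span_singleton.1 hz
  refine ⟨s, ?_⟩
  rw [← F.up a d, ← F.idem hK Z, ← sub_eq_zero, ← map_sub, ← F.up _ (a + 1 + j)]
  refine F.zero hq (Submodule.mem_sup_left ?_)
  have e2 : (s * (q : R) ^ d - Z * P.t ^ K) * (q : R) ^ (a + 1 + j) = -u := by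
    rw [smul_eq_mul, smul_eq_mul, mul_assoc _ Z, comm, mul_assoc (Z * _), ← pow_add] at e
    rw [sub_mul, ← e, mul_assoc, ← pow_add, show d + (a + 1 + j) = a + d + j + 1 by omega]
    abel
  rw [e2]
  exact neg_mem hu

theorem decomp (hq : 0 < q) (hy : ∀ i, P.y i * P.t - P.y i ∈ P.lev 1) {φ ψ : PP R} {a : ℕ}
    (h : EC φ ψ q P.I P.t a) {S : AddSubgroup (V φ q n)} (S' : AddSubgroup (V ψ q n)) {x : E.Y}
    (hx : x ∈ sc E φ q S) : ∃ x₁ ∈ sc E ψ q S', ∃ X, F.f a X = x - x₁ := by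
  obtain ⟨e, s, h1, h2⟩ := ec_sound (P := P) hq h
  obtain ⟨l, X, rfl, c, -, hc⟩ := (F.ev_sol hq hy hx).exists
  have h3 := F.zero hq (h2 _ _ X c (yl_q l) hc)
  obtain ⟨K, hK⟩ := exists_idem hq P (l + a + 1)
  have h4 : e • F.f (l + a) X ∈ sc E ψ q S' := by
    rw [← F.idem hK, ← map_smul]
    obtain ⟨w, hw⟩ := h1 _ _ (hK.mem_st X)
    exact F.of_SS hq ⟨0, S'.zero_mem, w, fun i => by simpa using hw i⟩
  have hco : IsCoprime ((1 + q * s : ℕ) : ℤ) ((q : ℤ) ^ (l + 1)) :=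
    IsCoprime.pow_right ⟨1, -s, by push_cast; ring⟩
  obtain ⟨r, r', hr⟩ := hco
  refine ⟨r • e • F.f (l + a) X, zsmul_mem h4 r, F.tors hq ?_⟩
  have h5 : (q : R) ^ a • F.f (l + a) X = F.f l X := by
    rw [← map_smul, smul_eq_mul, comm, F.up]
  have h6 : (q : R) ^ (l + 1) • F.f l X = 0 := by
    rw [← map_smul, smul_eq_mul, comm]; exact F.zero hq (pow_mem _ _)
  rw [← smul_eq_mul, ← smul_eq_mul, map_smul, map_smul, sub_smul, smul_sub, sub_eq_zero] at h3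
  set x := F.f l X
  have h7 : (q : R) ^ (a + 1) • e • F.f (l + a) X = (q : R) • e • x := by
    rw [← h5, smul_smul, smul_smul, smul_smul, pow_succ', mul_assoc, mul_assoc, comm]
  rw [smul_sub, smul_comm _ r, h7, ← h3]
  have h8 : ∀ m : ℕ, (m : R) • x = (m : ℤ) • x := fun m => by
    rw [Nat.cast_smul_eq_nsmul, natCast_zsmul]
  rw [← Nat.cast_pow, h8] at h6
  rw [smul_smul (q : R), ← Nat.cast_mul, ← Nat.cast_pow, h8, h8, smul_smul, ← sub_smul]
  have : ((q ^ (a + 1) : ℕ) : ℤ) - r * (q * (q ^ a * (1 + q * s)) : ℕ) =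
      (r' * q ^ (a + 1)) * (q ^ (l + 1) : ℕ) := by
    push_cast at hr ⊢
    linear_combination (-(q : ℤ) ^ (a + 1)) * hr
  rw [this, mul_smul, h6, smul_zero]

include F in
theorem exists_ec (hreg : Reg ℤ R) (hq : 0 < q) (hy : ∀ i, P.y i * P.t - P.y i ∈ P.lev 1)
    {φ ψ : PP R} {S : AddSubgroup (V φ q n)} {S' : AddSubgroup (V ψ q n)}
    (h : eidx (sc E ψ q S') (sc E φ q S) ≠ ⊤) : ∃ a, EC φ ψ q P.I P.t a := by
  refine ec_complete hreg hq fun e he => ?_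
  have := eidx_ne_top_iff.1 h
  have hJ : (sc E ψ q S').relIndex (sc E φ q S) ≠ 0 := AddSubgroup.index_ne_zero_of_finite
  obtain ⟨j, hj⟩ := exists_TB q (Kth ψ false P.I)
  refine ⟨q ^ j * q * (sc E ψ q S').relIndex (sc E φ q S), by positivity, fun l => ?_⟩
  obtain ⟨K, hK⟩ := exists_idem hq P (l + 1)
  refine ⟨K, fun z => ?_⟩
  have h1 := (sc E ψ q S').nsmul_relIndex_mem (set_le_sc φ S (he E.Y (F.f l z)))
  set J := (sc E ψ q S').relIndex (sc E φ q S)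
  obtain ⟨c, c', -, h2⟩ := mem_sc.1 h1
  obtain ⟨w, hw⟩ := relR_pt.1 h2
  have h3 : (ptBP E).relR ψ (F.f l ((q : R) * (J * (e * z)))) 0 0 :=
    relR_pt.2 ⟨fun k => (q : R) • w k, fun i => by
      have h4 : ∀ (r : R) (x : E.Y), r • (q : R) • x = (q : R) • r • x := fun r x => by
        rw [smul_smul, smul_smul, (Nat.cast_commute q r).eq]
      have h5 : ∑ a, (q : R) • c i a • E.y a = 0 := Finset.sum_eq_zero fun a _ => by
        rw [← h4, show (q : R) • E.y a = 0 from (F.kil hq a).1, smul_zero]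
      have := congrArg ((q : R) • ·) (hw i)
      simp only [smul_add, Finset.smul_sum, smul_zero, h5, add_zero] at this
      simp only [← smul_eq_mul, map_smul, h4, Pi.zero_apply, zero_smul, Finset.sum_const_zero,
        add_zero, Nat.cast_smul_eq_nsmul R J, map_nsmul]
      exact this⟩
  obtain ⟨j', h4⟩ := F.to_SL hq hy hK h3
  obtain ⟨w', hw'⟩ := h4.tb hj
  refine BY.psi_mono ψ (lev_anti P (by omega : l ≤ l + j + 1)) ⟨w', fun i => ?_⟩
  have := hw' i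
  rw [← comm] at this
  simpa [mul_assoc] using this

end Fr

end Pool.Agent.Lib.MP_c13fce_lc.NRE.Pru
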