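import Pool.Agent.Lib.MP_c13fce_lc.NRE1

/-! Block BT: chains in tails. -/

namespace Pool.Agent.Lib.MP_c13fce_lc.NRE

namespace BT

variable {R : Type} [Ring R] {n : ℕ} {q : ℕ}

/-- One piece of a tail. -/
def piece (T : Tail R n) (k : ℕ) : BP R n := { Y := T.Z k, l := T.l k, r := T.r k }

/-- The tail without its first piece. -/
def drop1 (T : Tail R n) : Tail R n where
  Z k := T.Z (k + 1)
  l k := T.l (k + 1)
  r k := T.r (k + 1)
  s := T.s

/-- The tail without its first pieces. -/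
def dr (T : Tail R n) (a : ℕ) : Tail R n := drop1^[a] T

theorem dr_succ (T : Tail R n) (a : ℕ) : dr T (a + 1) = drop1 (dr T a) :=
  Function.iterate_succ_apply' _ _ _

theorem dr_add (T : Tail R n) (a b : ℕ) : dr (dr T a) b = dr T (b + a) :=
  (Function.iterate_add_apply _ _ _ _).symm

theorem piece_dr (T : Tail R n) (a k : ℕ) : piece (dr T a) k = piece T (k + a) := by
  induction a generalizing T with
  | zero => rfl
  | succ a ih => exact ih (drop1 T)

theorem dr_s (T : Tail R n) (a : ℕ) : (dr T a).s = T.s := by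
  induction a generalizing T with
  | zero => rfl
  | succ a ih => exact ih (drop1 T)

/-- The marks of the tail are killed by `q`. -/
def TK (q : ℕ) (T : Tail R n) : Prop := ∀ k, (piece T k).Kil q

theorem TK.drop1 {T : Tail R n} (h : TK q T) : TK q (drop1 T) := fun k => h (k + 1)

theorem TK.dr {T : Tail R n} (h : TK q T) (a : ℕ) : TK q (dr T a) := fun k => by
  rw [piece_dr]; exact h _

/-- The marked module of a tail. -/
abbrev tE (T : Tail R n) : BP R n := ptBP T.pt

/-- The class of a family. -/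
def mkT (T : Tail R n) : T.supp →ₗ[R] (tE T).Y := (T.rel.submoduleOf T.supp).mkQ

theorem mkT_surj (T : Tail R n) : Function.Surjective (mkT T) := Submodule.mkQ_surjective _

/-- A sequence with a new first term. -/
def sc {α : Type} (d : α) (e : ℕ → α) : ℕ → α
  | 0 => d
  | k + 1 => e k

theorem fin_sc {α : Type} [Zero α] (d : α) {e : ℕ → α} (h : {k | e k ≠ 0}.Finite) :
    {k | sc d e k ≠ 0}.Finite :=
  ((h.image Nat.succ).insert 0).subset fun k hk => by
    cases k with
    | zero => exact Set.mem_insert _ _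
    | succ k => exact Set.mem_insert_of_mem _ ⟨k, hk, rfl⟩

theorem fin_tl {β : ℕ → Type} [∀ k, Zero (β k)] {e : ∀ k, β k} (h : {k | e k ≠ 0}.Finite) :
    {k | e (k + 1) ≠ 0}.Finite :=
  h.preimage (f := fun k => k + 1) (add_left_injective 1).injOn

theorem key (T : Tail R n) (θ : PP R) (x : T.supp) (w : θ.κ → T.supp) (d d' : Fin n → R)
    (i : θ.ι) : (θ.h i • mkT T x + ∑ k, θ.H i k • mkT T (w k) =
      ∑ j, d' j • (tE T).r j - ∑ j, d j • (tE T).l j) ↔
    ∃ e : ℕ → Fin n → R, (T.s = true → {k | e k ≠ 0}.Finite) ∧ ∀ k,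
      θ.h i • x.1 k + ∑ a, θ.H i a • (w a).1 k =
        ∑ j, e k j • T.r k j - ∑ j, sc d e k j • T.l k j := by
  have h0 : ∑ j, d' j • (tE T).r j = 0 := Finset.sum_eq_zero fun j _ => by
    rw [show (tE T).r j = 0 from rfl, smul_zero]
  let u : Fin n → T.supp := fun j => ⟨Pi.single 0 (T.l 0 j), T.single_mem 0 _⟩
  have h1 : ∀ j, (tE T).l j = mkT T (u j) := fun _ => rfl
  rw [h0, zero_sub, eq_neg_iff_add_eq_zero]
  simp only [h1, ← map_smul, ← map_sum, ← map_add]
  refine (Submodule.Quotient.mk_eq_zero _).trans ?_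
  change (∃ e : ℕ → Fin n → R, (T.s = true → {k | e k ≠ 0}.Finite) ∧
    ((θ.h i • x + ∑ k, θ.H i k • w k + ∑ j, d j • u j : T.supp) : ∀ k, T.Z k) = T.bd e) ↔ _
  refine exists_congr fun e => and_congr Iff.rfl (funext_iff.trans (forall_congr' fun k => ?_))
  simp only [Submodule.coe_add, Submodule.coe_smul, Submodule.coe_sum, Pi.add_apply,
    Pi.smul_apply, Finset.sum_apply, Tail.bd, u]
  cases k with
  | zero =>
    simp only [Pi.single_eq_same, prev, sc, Pi.zero_apply, zero_smul, Finset.sum_const_zero,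
      sub_zero]
    exact eq_sub_iff_add_eq.symm
  | succ k =>
    simp only [Pi.single_eq_of_ne (Nat.succ_ne_zero k), smul_zero, Finset.sum_const_zero,
      add_zero, prev, sc]

theorem char {T : Tail R n} (hT : TK q T) (θ : PP R) (x : T.supp) (c0 c' : V θ q n) :
    (mkT T x, c0, c') ∈ (tE T).rel θ q ↔ ∃ c : ℕ → V θ q n, c 0 = c0 ∧
      (T.s = true → {k | c k ≠ 0}.Finite) ∧
      ∀ k, (x.1 k, c k, c (k + 1)) ∈ (piece T k).rel θ q := by
  classical
  constructor
  · rintro ⟨d, d', rfl, rfl, w, hw⟩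
    choose w' hw' using fun k => mkT_surj T (w k)
    obtain rfl : w = fun k => mkT T (w' k) := funext fun k => (hw' k).symm
    choose e he he' using fun i => (key T θ x w' (d i) (d' i) i).1 (hw i)
    refine ⟨fun k => mkV q fun i => sc (d i) (e i) k, rfl, fun hs => ?_, fun k =>
      ⟨_, _, rfl, rfl, fun a => (w' a).1 k, fun i => he' i k⟩⟩
    refine (Set.finite_iUnion fun i => fin_sc (d i) (he i hs)).subset fun k hk => ?_
    by_contra h
    simp only [Set.mem_iUnion, Set.mem_ofPred_eq, not_exists, not_not] at h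
    exact hk (congrArg (mkV q) (funext h : (fun i => sc (d i) (e i) k) = 0))
  · rintro ⟨c, rfl, hc, h⟩
    have h1 : ∀ v : V θ q n, ∃ d, mkV q d = v ∧ (v = 0 → d = 0) := fun v => by
      by_cases hv : v = 0
      · exact ⟨0, hv ▸ rfl, fun _ => rfl⟩
      · obtain ⟨d, hd⟩ := mkV_surj q v
        exact ⟨d, hd, fun h => absurd h hv⟩
    choose lf hlf hlf0 using h1
    have h2 : ∀ k, ∃ w : θ.κ → T.Z k, (∀ i, θ.h i • x.1 k + ∑ a, θ.H i a • w a =
        ∑ j, lf (c (k + 1)) i j • T.r k j - ∑ j, lf (c k) i j • T.l k j) ∧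
        (x.1 k = 0 → c k = 0 → c (k + 1) = 0 → w = 0) := fun k => by
      by_cases h0 : x.1 k = 0 ∧ c k = 0 ∧ c (k + 1) = 0
      · refine ⟨0, fun i => ?_, fun _ _ _ => rfl⟩
        rw [hlf0 _ h0.2.1, hlf0 _ h0.2.2, h0.1]
        simp
      · have h3 := h k
        rw [← hlf (c k), ← hlf (c (k + 1))] at h3
        obtain ⟨w, hw⟩ := (hT k).mem_rel.1 h3
        exact ⟨w, hw, fun a b c => absurd ⟨a, b, c⟩ h0⟩
    choose w hw hw0 using h2
    have h4 : ∀ a, (fun k => w k a) ∈ T.supp := fun a hs =>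
      (((x.2 hs).union (hc hs)).union (fin_tl (hc hs))).subset fun k hk => by
        by_contra h5
        simp only [Set.mem_union, Set.mem_ofPred_eq, not_or, not_not] at h5
        exact hk (congrFun (hw0 k h5.1.1 h5.1.2 h5.2) a)
    refine ⟨lf (c 0), lf c', hlf _, hlf _, fun a => mkT T ⟨_, h4 a⟩, fun i =>
      (key T θ x (fun a => ⟨_, h4 a⟩) _ _ i).2 ⟨fun k => lf (c (k + 1)) i, fun hs => ?_,
        fun k => ?_⟩⟩
    · exact (fin_tl (hc hs)).subset fun k hk h5 => hk (congrFun (hlf0 _ h5) i)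
    · cases k <;> exact hw _ i

/-- The shift of a family. -/
def shift (T : Tail R n) : T.supp →+ (drop1 T).supp where
  toFun x := ⟨fun k => x.1 (k + 1), fun hs => fin_tl (x.2 hs)⟩
  map_zero' := rfl
  map_add' _ _ := rfl

/-- A family with a given first term and shift. -/
def consX (T : Tail R n) (x0 : T.Z 0) (x : (drop1 T).supp) : T.supp :=
  ⟨fun k => match k with
    | 0 => x0
    | k + 1 => x.1 k, fun hs => (((x.2 hs).image Nat.succ).insert 0).subset fun k hk => by
      cases k with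
      | zero => exact Set.mem_insert _ _
      | succ k => exact Set.mem_insert_of_mem _ ⟨k, hk, rfl⟩⟩

theorem rel_cons {T : Tail R n} (hT : TK q T) (θ : PP R) (x : T.supp) (c c'' : V θ q n) :
    (mkT T x, c, c'') ∈ (tE T).rel θ q ↔ ∃ c', (x.1 0, c, c') ∈ (piece T 0).rel θ q ∧
      (mkT _ (shift T x), c', c'') ∈ (tE (drop1 T)).rel θ q := by
  rw [char hT]
  constructor
  · rintro ⟨ch, rfl, h1, h2⟩
    exact ⟨ch 1, h2 0, (char hT.drop1 θ _ _ _).2
      ⟨fun k => ch (k + 1), rfl, fun hs => fin_tl (h1 hs), fun k => h2 (k + 1)⟩⟩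
  · rintro ⟨c', h0, h⟩
    obtain ⟨ch, rfl, h1, h2⟩ := (char hT.drop1 θ _ _ _).1 h
    refine ⟨sc c ch, rfl, fun hs => fin_sc c (h1 hs), fun k => ?_⟩
    cases k with
    | zero => exact h0
    | succ k => exact h2 k

theorem dec_cons {T : Tail R n} (hT : TK q T) : Dec q (tE T) (piece T 0) (tE (drop1 T)) := by
  let G : AddSubgroup ((tE T).Y × (piece T 0).Y × (tE (drop1 T)).Y) :=
    { carrier := {z | ∃ x : T.supp, z = (mkT T x, x.1 0, mkT _ (shift T x))}
      zero_mem' := ⟨0, by rw [map_zero, map_zero, map_zero]; rfl⟩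
      add_mem' := by
        rintro _ _ ⟨x, rfl⟩ ⟨y, rfl⟩
        exact ⟨x + y, by rw [map_add, map_add, map_add]; rfl⟩
      neg_mem' := by
        rintro _ ⟨x, rfl⟩
        exact ⟨-x, by rw [map_neg, map_neg, map_neg]; rfl⟩ }
  refine ⟨G, fun z => ?_, fun x₁ z => ?_, ?_⟩
  · obtain ⟨x, rfl⟩ := mkT_surj T z
    exact ⟨_, _, x, rfl⟩
  · obtain ⟨x, rfl⟩ := mkT_surj _ z
    exact ⟨_, consX T x₁ x, rfl⟩
  · rintro _ _ _ ⟨x, h⟩ θ c c''
    obtain ⟨rfl, h'⟩ := Prod.mk.inj h
    obtain ⟨rfl, rfl⟩ := Prod.mk.inj h'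
    exact rel_cons hT θ x c c''

/-- The first pieces glued together. -/
def blk (T : Tail R n) : ℕ → BP R n
  | 0 => piece T 0
  | m + 1 => (blk T m).glue (piece T (m + 1))

theorem blk_kil {T : Tail R n} (hT : TK q T) (m : ℕ) : (blk T m).Kil q := by
  induction m with
  | zero => exact hT 0
  | succ m ih => exact ih.glue (hT _)

theorem blk_fin (T : Tail R n) (m : ℕ) : Finite (blk T m).Y := by
  induction m with
  | zero => exact T.fin 0
  | succ m ih =>
    have : Finite (piece T (m + 1)).Y := T.fin _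
    exact inferInstanceAs (Finite ((blk T m).glue (piece T (m + 1))).Y)

theorem dec_dr {T : Tail R n} (hT : TK q T) (a : ℕ) :
    Dec q (tE (dr T a)) (piece T a) (tE (dr T (a + 1))) := by
  have := dec_cons (hT.dr a)
  rwa [piece_dr, Nat.zero_add, ← dr_succ] at this

theorem dec_blk {T : Tail R n} (hT : TK q T) (m : ℕ) :
    Dec q (tE T) (blk T m) (tE (dr T (m + 1))) := by
  induction m with
  | zero => exact dec_cons hT
  | succ m ih => exact ih.assoc (blk_kil hT m) (dec_dr hT (m + 1))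

theorem blk_KS {T : Tail R n} (hT : TK q T) (θ : PP R) (k : Bool) (m : ℕ) (c c' : V θ q n) :
    (blk T m).KS θ q k c c' ↔ ∃ ch : ℕ → V θ q n, ch 0 = c ∧ ch (m + 1) = c' ∧
      ∀ j ≤ m, (piece T j).KS θ q k (ch j) (ch (j + 1)) := by
  induction m generalizing c' with
  | zero =>
    constructor
    · intro h
      refine ⟨sc c fun _ => c', rfl, rfl, fun j hj => ?_⟩
      obtain rfl := Nat.le_zero.1 hj
      exact h
    · rintro ⟨ch, rfl, rfl, h⟩
      exact h 0 le_rfl
  | succ m ih =>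
    refine ((dec_glue (blk_kil hT m)).KS θ k c c').trans ⟨?_, ?_⟩
    · rintro ⟨c₁, h1, h2⟩
      obtain ⟨ch, rfl, rfl, h⟩ := (ih _).1 h1
      refine ⟨Function.update ch (m + 2) c', Function.update_of_ne (by omega) _ _,
        Function.update_self _ _ _, fun j hj => ?_⟩
      rw [Function.update_of_ne (by omega)]
      rcases Nat.lt_or_eq_of_le hj with hj | rfl
      · rw [Function.update_of_ne (by omega)]
        exact h j (by omega)
      · rw [Function.update_self]
        exact h2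
    · rintro ⟨ch, rfl, rfl, h⟩
      exact ⟨ch (m + 1), (ih _).2 ⟨ch, rfl, rfl, fun j hj => h j (by omega)⟩, h _ le_rfl⟩

theorem mem_St {T : Tail R n} (hT : TK q T) (θ : PP R) (k : Bool) (c : V θ q n) :
    c ∈ (tE T).bwdS θ q k Set.univ ↔ ∃ ch : ℕ → V θ q n, ch 0 = c ∧
      (T.s = true → {j | ch j ≠ 0}.Finite) ∧ ∀ j, (piece T j).KS θ q k (ch j) (ch (j + 1)) := by
  classical
  constructor
  · rintro ⟨c', -, z, hz0, hz⟩
    have : ∃ x : T.supp, mkT T x = z ∧ (k = false → x = 0) := by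
      cases k
      · exact ⟨0, by rw [hz0 rfl, map_zero], fun _ => rfl⟩
      · obtain ⟨x, hx⟩ := mkT_surj T z
        exact ⟨x, hx, nofun⟩
    obtain ⟨x, rfl, hx⟩ := this
    obtain ⟨ch, h0, h1, h2⟩ := (char hT θ x c c').1 hz
    exact ⟨ch, h0, h1, fun j => ⟨x.1 j, fun e => by rw [hx e]; rfl, h2 j⟩⟩
  · rintro ⟨ch, rfl, h1, h2⟩
    have h3 : ∀ j, ∃ x : T.Z j, (k = false → x = 0) ∧ (ch j = 0 → ch (j + 1) = 0 → x = 0) ∧
        (x, ch j, ch (j + 1)) ∈ (piece T j).rel θ q := fun j => by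
      by_cases h0 : ch j = 0 ∧ ch (j + 1) = 0
      · refine ⟨0, fun _ => rfl, fun _ _ => rfl, ?_⟩
        rw [h0.1, h0.2]
        exact zero_mem ((piece T j).rel θ q)
      · obtain ⟨x, hx, hx'⟩ := h2 j
        exact ⟨x, hx, fun a b => absurd ⟨a, b⟩ h0, hx'⟩
    choose x hx hx0 hx' using h3
    have h4 : x ∈ T.supp := fun hs => ((h1 hs).union (fin_tl (h1 hs))).subset fun j hj => by
      by_contra h5
      simp only [Set.mem_union, Set.mem_ofPred_eq, not_or, not_not] at h5
      exact hj (hx0 j h5.1 h5.2)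
    refine ⟨0, trivial, mkT T ⟨x, h4⟩, fun e => ?_, (char hT θ _ _ _).2 ⟨ch, rfl, h1, hx'⟩⟩
    rw [show (⟨x, h4⟩ : T.supp) = 0 from Subtype.ext (funext fun j => hx j e), map_zero]

theorem chain_ulim {α : Type} [Finite α] (P0 : α → Prop) (P : ℕ → α → α → Prop)
    (h : ∀ m, ∃ ch : ℕ → α, P0 (ch 0) ∧ ∀ j < m, P j (ch j) (ch (j + 1))) :
    ∃ ch : ℕ → α, P0 (ch 0) ∧ ∀ j, P j (ch j) (ch (j + 1)) := by
  choose ch h0 h1 using h
  choose c hc using fun j => exists_ulim fun m => ch m j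
  refine ⟨c, ?_, fun j => ?_⟩
  · obtain ⟨m, hm⟩ := (hc 0).exists
    exact hm ▸ h0 m
  · obtain ⟨m, hm, hm', hm''⟩ := ((hc j).and ((hc (j + 1)).and (ulim_ge (j + 1)))).exists
    exact hm ▸ hm' ▸ h1 m j hm''

variable [Finite (Rq R q)]

theorem St_eq {T : Tail R n} (hT : TK q T) (θ : PP R) (k : Bool) :
    ∀ᶠ m in Filter.atTop, (tE T).bwdS θ q k Set.univ = tA q (blk T m) T.s θ k := by
  have : ∀ᶠ m in Filter.atTop, ∀ c,
      (c ∈ (tE T).bwdS θ q k Set.univ ↔ c ∈ tA q (blk T m) T.s θ k) := by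
    refine Filter.eventually_all.2 fun c => ?_
    have hm : ∀ m, c ∈ tA q (blk T m) T.s θ k ↔ ∃ ch : ℕ → V θ q n, ch 0 = c ∧
        (T.s = true → ch (m + 1) = 0) ∧
        ∀ j ≤ m, (piece T j).KS θ q k (ch j) (ch (j + 1)) := fun m => by
      constructor
      · rintro ⟨c', hc', h⟩
        obtain ⟨ch, h0, rfl, h1⟩ := (blk_KS hT θ k m c c').1 h
        exact ⟨ch, h0, fun hs => by rwa [if_pos hs] at hc', h1⟩
      · rintro ⟨ch, h0, h1, h2⟩
        refine ⟨ch (m + 1), ?_, (blk_KS hT θ k m c _).2 ⟨ch, h0, rfl, h2⟩⟩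
        split_ifs with hs
        · exact h1 hs
        · trivial
    simp only [hm, mem_St hT]
    by_cases hc : ∃ ch : ℕ → V θ q n, ch 0 = c ∧
      (T.s = true → {j | ch j ≠ 0}.Finite) ∧ ∀ j, (piece T j).KS θ q k (ch j) (ch (j + 1))
    · simp only [hc, true_iff]
      obtain ⟨ch, h0, h1, h2⟩ := hc
      by_cases hs : T.s = true
      · obtain ⟨N, hN⟩ := (h1 hs).bddAbove
        refine (Filter.eventually_ge_atTop N).mono fun m hm => ⟨ch, h0, fun _ => ?_,
          fun j _ => h2 j⟩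
        by_contra h3
        have := hN (show m + 1 ∈ {j | ch j ≠ 0} from h3)
        omega
      · exact Filter.Eventually.of_forall fun m => ⟨ch, h0, fun h => absurd h hs, fun j _ => h2 j⟩
    · simp only [hc, false_iff]
      by_cases hs : T.s = true
      · refine Filter.Eventually.of_forall fun m => ?_
        rintro ⟨ch, h0, h1, h2⟩
        refine hc ⟨fun j => if j ≤ m then ch j else 0, by simpa using h0,
          fun _ => (Set.finite_le_nat m).subset fun j hj => ?_, fun j => ?_⟩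
        · by_contra h3
          exact hj (if_neg h3)
        · beta_reduce
          by_cases hj : j ≤ m
          · rw [if_pos hj]
            by_cases hj' : j + 1 ≤ m
            · rw [if_pos hj']
              exact h2 j hj
            · obtain rfl : j = m := by omega
              rw [if_neg hj', ← h1 hs]
              exact h2 j hj
          · rw [if_neg hj, if_neg (by omega)]
            exact BP.KS_zero _ _ _ _
      · by_contra h3
        rw [Filter.not_eventually, Filter.frequently_atTop] at h3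
        obtain ⟨ch, h0, h1⟩ := chain_ulim (fun v => v = c)
          (fun j => (piece T j).KS θ q k) fun m => by
            obtain ⟨m', hm', h4⟩ := h3 m
            obtain ⟨ch, h0, -, h2⟩ := not_not.1 h4
            exact ⟨ch, h0, fun j hj => h2 j (by omega)⟩
        exact hc ⟨ch, h0, fun h => absurd h hs, h1⟩
  exact this.mono fun m hm => Set.ext hm

theorem sec_le {φ ψ : PP R} (s : Bool)
    (P : Tail R n → AddSubgroup (V φ q n) → AddSubgroup (V ψ q n) → Prop)
    (hP : ∀ T S S', P T S S' → T.s = s ∧ TK q T ∧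
      (tE T).sec ψ q S' ⊤ ≤ (tE T).sec φ q S ⊤ ∧
      (piece T 0).sec φ q S ((tE (drop1 T)).bwd φ q (!s) ⊤) ≤
        (piece T 0).sec ψ q S' ((tE (drop1 T)).bwd ψ q (!s) ⊤) ∧
      P (drop1 T) ((piece T 0).fwd φ q s S) ((piece T 0).fwd ψ q s S'))
    {T : Tail R n} {S : AddSubgroup (V φ q n)} {S' : AddSubgroup (V ψ q n)} (h : P T S S') :
    (tE T).sec φ q S ⊤ ≤ (tE T).sec ψ q S' ⊤ := by
  intro z hz
  obtain ⟨x, rfl⟩ := mkT_surj T z
  cases s with
  | true =>
    have main : ∀ N T S S', P T S S' → ∀ x : T.supp, (∀ k, N ≤ k → x.1 k = 0) →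
        mkT T x ∈ (tE T).sec φ q S ⊤ → mkT T x ∈ (tE T).sec ψ q S' ⊤ := by
      intro N
      induction N with
      | zero =>
        intro T S S' _ x hx _
        rw [show x = 0 from Subtype.ext (funext fun k => hx k (Nat.zero_le k)), map_zero]
        exact zero_mem _
      | succ N ih =>
        intro T S S' h x hx hxφ
        obtain ⟨-, hT, hle, hloc, hn⟩ := hP T S S' h
        obtain ⟨c, hc, c'', -, h1⟩ := id hxφ
        obtain ⟨c', h2, h3⟩ := (rel_cons hT φ x c c'').1 h1
        obtain ⟨d', ⟨d, hd, x0, -, h4⟩, d'', -, h5⟩ := ih _ _ _ hn (shift T x)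
          (fun k hk => hx (k + 1) (by omega)) ⟨c', ⟨c, hc, _, nofun, h2⟩, c'', trivial, h3⟩
        have h6 : mkT T (consX T x0 (shift T x)) ∈ (tE T).sec ψ q S' ⊤ :=
          ⟨d, hd, d'', trivial, (rel_cons hT ψ _ d d'').2 ⟨d', h4, h5⟩⟩
        have h7 := sub_mem hxφ (hle h6)
        rw [← map_sub] at h7
        have h8 : mkT _ (shift T (x - consX T x0 (shift T x))) = 0 := by
          rw [map_sub, show shift T (consX T x0 (shift T x)) = shift T x from rfl, sub_self,
            map_zero]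
        obtain ⟨e, he, e'', -, h9⟩ := h7
        obtain ⟨e', h10, h11⟩ := (rel_cons hT φ _ e e'').1 h9
        obtain ⟨f, hf, f', ⟨f'', -, y, hy, h12⟩, h13⟩ :=
          hloc ⟨e, he, e', ⟨e'', trivial, _, fun _ => h8, h11⟩, h10⟩
        have h14 : mkT T (x - consX T x0 (shift T x)) ∈ (tE T).sec ψ q S' ⊤ :=
          ⟨f, hf, f'', trivial, (rel_cons hT ψ _ f f'').2 ⟨f', h13, by
            rw [h8, ← hy rfl]; exact h12⟩⟩
        have h15 := add_mem h14 h6
        rwa [← map_add, sub_add_cancel] at h15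
    obtain ⟨N, hN⟩ := (x.2 (hP T S S' h).1).bddAbove
    refine main (N + 1) T S S' h x (fun k hk => ?_) hz
    by_contra h1
    have := hN (show k ∈ {k | x.1 k ≠ 0} from h1)
    omega
  | false =>
    have main : ∀ m T S S', P T S S' → ∀ x : T.supp, mkT T x ∈ (tE T).sec φ q S ⊤ →
        ∃ ch : ℕ → V ψ q n, ch 0 ∈ S' ∧
          ∀ j < m, (x.1 j, ch j, ch (j + 1)) ∈ (piece T j).rel ψ q := by
      intro m
      induction m with
      | zero => exact fun T S S' _ x _ => ⟨0, zero_mem _, fun j hj => absurd hj (by omega)⟩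
      | succ m ih =>
        intro T S S' h x hxφ
        obtain ⟨-, hT, hle, hloc, hn⟩ := hP T S S' h
        obtain ⟨c, hc, c'', -, h1⟩ := id hxφ
        obtain ⟨c', h2, h3⟩ := (rel_cons hT φ x c c'').1 h1
        obtain ⟨d, hd, d', ⟨d'', -, z, -, h4⟩, h5⟩ :=
          hloc ⟨c, hc, c', ⟨c'', trivial, _, nofun, h3⟩, h2⟩
        obtain ⟨x1, rfl⟩ := mkT_surj _ z
        have h6 : (mkT T (consX T (x.1 0) x1), d, d'') ∈ (tE T).rel ψ q :=
          (rel_cons hT ψ _ d d'').2 ⟨d', h5, h4⟩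
        have h7 := sub_mem hxφ (hle ⟨d, hd, d'', trivial, h6⟩)
        rw [← map_sub] at h7
        obtain ⟨e, he, e'', -, h9⟩ := h7
        obtain ⟨e', h10, h11⟩ := (rel_cons hT φ _ e e'').1 h9
        have h8 : (x - consX T (x.1 0) x1).1 0 = 0 := sub_self (x.1 0)
        obtain ⟨ch1, ⟨g, hg, y, hy, h12⟩, h13⟩ := ih _ _ _ hn (shift T (x - consX T (x.1 0) x1))
          ⟨e', ⟨e, he, _, fun _ => h8, h10⟩, e'', trivial, h11⟩
        obtain ⟨ch2, rfl, -, h14⟩ := (char hT ψ _ _ _).1 h6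
        refine ⟨sc g ch1 + ch2, add_mem hg hd, fun j hj => ?_⟩
        have h15 : ((x - consX T (x.1 0) x1).1 j, sc g ch1 j, sc g ch1 (j + 1)) ∈
            (piece T j).rel ψ q := by
          cases j with
          | zero =>
            obtain rfl : y = (x - consX T (x.1 0) x1).1 0 := (hy rfl).trans h8.symm
            exact h12
          | succ j => exact h13 j (by omega)
        have h16 := add_mem h15 (h14 j)
        have h17 : (x - consX T (x.1 0) x1).1 j + (consX T (x.1 0) x1).1 j = x.1 j :=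
          sub_add_cancel (x.1 j) _
        rw [← h17]
        exact h16
    obtain ⟨hs, hT, -⟩ := hP T S S' h
    obtain ⟨ch, h0, h1⟩ := chain_ulim (fun v => v ∈ S')
      (fun j c c' => (x.1 j, c, c') ∈ (piece T j).rel ψ q) fun m => main m T S S' h x hz
    exact ⟨ch 0, h0, 0, trivial, (char hT ψ _ _ _).2
      ⟨ch, rfl, fun h => absurd (hs.symm.trans h) Bool.false_ne_true, h1⟩⟩

end BT

end Pool.Agent.Lib.MP_c13fce_lc.NRE
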