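import Pool.Agent.Lib.MP_c13fce_lc.Close
import Pool.Agent.Lib.MP_c13fce_lc.GlobNice

/-! Realisation of strings, part 1: transfer maps, parts, the abstract count. -/

namespace Pool.Agent.Lib.MP_c13fce_lc
open scoped BigOperators
set_option linter.unusedSectionVars false

namespace RS

/-- `i` is a lower neighbour of `j`. -/
def Eg (w : ℤ → Bool) (j i : ℤ) : Prop :=
  (i = j - 1 ∧ w (j - 1) = true) ∨ (i = j + 1 ∧ w j = false)

/-- The generators can be transferred from `σ` to `σ'`. -/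
def Tr (w : ℤ → Bool) (σ σ' : Set ℤ) : Prop :=
  ∀ j i, Eg w j i → j ∈ σ → i ∈ σ' → (i ∈ σ ↔ j ∈ σ')

/-- Lower sets for the order of positions. -/
def Lw (J : Set ℤ) (w : ℤ → Bool) (Γ : Set ℤ) : Prop :=
  ∀ i ∈ J, ∀ j ∈ Γ, j ∈ J → pnt J w i ≤ pnt J w j → i ∈ Γ

theorem deep_not {J : Set ℤ} {w : ℤ → Bool} {n i : ℤ} (h : Deep J w n) (he : Eg w n i) :
    i ∉ J := by
  obtain ⟨-, h1, h2⟩ := h
  rcases he with ⟨rfl, hw⟩ | ⟨rfl, hw⟩
  · exact h1.resolve_left (by simp [hw])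
  · exact h2.resolve_left (by simp [hw])

theorem Eg.near {w : ℤ → Bool} {j i : ℤ} (h : Eg w j i) : i = j - 1 ∨ i = j + 1 :=
  h.imp And.left And.left

theorem exists_idem {α : Type} [Finite α] (u : ℕ → α)
    (h : ∀ i j, u i = u j → u (i + 1) = u (j + 1)) : ∃ M, 0 < M ∧ u (2 * M) = u M := by
  have key : ∀ i j, i < j → u i = u j → ∃ M, 0 < M ∧ u (2 * M) = u M := by
    intro i j hij he
    obtain ⟨p, rfl⟩ : ∃ p, j = i + (p + 1) := ⟨j - i - 1, by omega⟩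
    have h1 : ∀ k, u (i + k) = u (i + (p + 1) + k) := fun k => by
      induction k with
      | zero => exact he
      | succ k ih => exact h _ _ ih
    have h2 : ∀ n k, u (i + k + n * (p + 1)) = u (i + k) := fun n k => by
      induction n with
      | zero => simp
      | succ n ih =>
        rw [← ih, show i + k + (n + 1) * (p + 1) = i + (p + 1) + (k + n * (p + 1)) by ring, ← h1,
          add_assoc]
    refine ⟨(i + 1) * (p + 1), by positivity, ?_⟩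
    have := h2 (i + 1) (i * p + p + 1)
    rw [show i + (i * p + p + 1) = (i + 1) * (p + 1) by ring] at this
    rw [← this]; congr 1; ring
  obtain ⟨i, j, hne, he⟩ := Finite.exists_ne_map_eq_of_infinite u
  rcases lt_or_gt_of_ne hne with hl | hl
  · exact key i j hl he
  · exact key j i hl he.symm

theorem ultra_const {ι α : Type} [Finite α] (𝒰 : Ultrafilter ι) (f : ι → α) :
    ∃ c, ∀ᶠ i in (𝒰 : Filter ι), f i = c := by
  obtain ⟨c, hc⟩ := (𝒰.map f).eq_pure_of_finite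
  refine ⟨c, ?_⟩
  have : {c} ∈ 𝒰.map f := by rw [hc]; simp
  exact this

section Sol
variable {Λ : Type} [Ring Λ] {N N' : Type} [AddCommGroup N] [Module Λ N] [AddCommGroup N']
  [Module Λ N']

/-- Solvability of the system with a given right hand side. -/
def Sol (φ : PP Λ) (x : N) (v : φ.ι → N) : Prop :=
  ∃ y : φ.κ → N, ∀ i, φ.h i • x + ∑ k, φ.H i k • y k = v i

variable {φ : PP Λ}

theorem Sol.map {x : N} {v : φ.ι → N} (h : Sol φ x v) (f : N →ₗ[Λ] N') :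
    Sol φ (f x) fun i => f (v i) := by
  obtain ⟨y, hy⟩ := h
  exact ⟨fun k => f (y k), fun i => by simp [← hy i, map_sum]⟩

theorem Sol.congr {x x' : N} {v v' : φ.ι → N} (h : Sol φ x v) (hx : x' = x)
    (hv : ∀ i, v' i = v i) : Sol φ x' v' := by
  rw [hx, funext hv]; exact h

theorem Sol.add {x x' : N} {v v' : φ.ι → N} (h : Sol φ x v) (h' : Sol φ x' v') :
    Sol φ (x + x') fun i => v i + v' i := by
  obtain ⟨y, hy⟩ := h
  obtain ⟨y', hy'⟩ := h'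
  refine ⟨y + y', fun i => ?_⟩
  simp only [← hy i, ← hy' i, Pi.add_apply, smul_add, Finset.sum_add_distrib]
  abel

theorem Sol.neg {x : N} {v : φ.ι → N} (h : Sol φ x v) : Sol φ (-x) fun i => -v i :=
  h.map (-LinearMap.id)

theorem sol_zero : Sol φ (0 : N) fun _ => 0 := ⟨0, by simp⟩

theorem Sol.sum {ι : Type} (s : Finset ι) {x : ι → N} {v : ι → φ.ι → N}
    (h : ∀ k ∈ s, Sol φ (x k) (v k)) : Sol φ (∑ k ∈ s, x k) fun i => ∑ k ∈ s, v k i := by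
  classical
  induction s using Finset.induction_on with
  | empty => simpa using sol_zero
  | insert k s hk ih =>
    simp only [Finset.sum_insert hk]
    exact (h k (by simp)).add (ih fun j hj => h j (by simp [hj]))

end Sol

section St
variable {Λ : Type} [Ring Λ] {a b : Λ} {w : ℤ → Bool} {σ σ' τ Γ : Set ℤ}

theorem traj_of_pieces {N : Type} [AddCommGroup N] [Module Λ N] {x : ℤ → N}
    (h0 : ∀ j, j ∉ τ → x j = 0)
    (h : ∀ j ∈ τ, ∃ (σ : Set ℤ) (f : St a b σ w →ₗ[Λ] N), j ∈ σ ∧ f (stE a b σ w j) = x j ∧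
      ∀ i, Eg w j i → f (stE a b σ w i) = x i) : Traj a b τ w x := by
  refine ⟨h0, fun j hj => ?_, fun j hj => ?_⟩
  · obtain ⟨σ, f, h1, h2, h3⟩ := h j hj
    rw [← h2, ← map_smul, traj_stE.2.1 j h1]
    split_ifs with hw
    · exact h3 _ (Or.inl ⟨rfl, hw⟩)
    · exact map_zero f
  · obtain ⟨σ, f, h1, h2, h3⟩ := h j hj
    rw [← h2, ← map_smul, traj_stE.2.2 j h1]
    split_ifs with hw
    · exact map_zero f
    · exact h3 _ (Or.inr ⟨rfl, by simpa using hw⟩)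

theorem exists_tr (h : Tr w σ σ') : ∃ g : St a b σ w →ₗ[Λ] St a b σ' w,
    ∀ j ∈ σ, g (stE a b σ w j) = stE a b σ' w j := by
  classical
  have key : ∀ j ∈ σ, ∀ i, Eg w j i → j ∉ σ' → (if i ∈ σ then stE a b σ' w i else 0) = 0 := by
    intro j hj i he hj'
    split_ifs with hi
    · exact stE_not_mem fun hi' => hj' ((h j i he hj hi').1 hi)
    · rfl
  have key' : ∀ j ∈ σ, ∀ i, Eg w j i → j ∈ σ' →
      stE a b σ' w i = if i ∈ σ then stE a b σ' w i else 0 := by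
    intro j hj i he hj'
    split_ifs with hi
    · rfl
    · exact stE_not_mem fun hi' => hi ((h j i he hj hi').2 hj')
  obtain ⟨g, hg⟩ := exists_stLift (a := a) (b := b) (J := σ) (w := w)
    (x := fun j => if j ∈ σ then stE a b σ' w j else 0) ⟨fun j hj => if_neg hj, fun j hj => by
      simp only [if_pos hj]
      by_cases hj' : j ∈ σ'
      · rw [traj_stE.2.1 j hj']
        by_cases hw : w (j - 1) = true
        · rw [if_pos hw, if_pos hw]; exact key' j hj _ (Or.inl ⟨rfl, hw⟩) hj'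
        · rw [if_neg hw, if_neg hw]
      · rw [stE_not_mem hj', smul_zero]
        by_cases hw : w (j - 1) = true
        · rw [if_pos hw, key j hj _ (Or.inl ⟨rfl, hw⟩) hj']
        · rw [if_neg hw], fun j hj => by
      simp only [if_pos hj]
      by_cases hj' : j ∈ σ'
      · rw [traj_stE.2.2 j hj']
        by_cases hw : w j = true
        · rw [if_pos hw, if_pos hw]
        · rw [if_neg hw, if_neg hw]; exact key' j hj _ (Or.inr ⟨rfl, by simpa using hw⟩) hj'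
      · rw [stE_not_mem hj', smul_zero]
        by_cases hw : w j = true
        · rw [if_pos hw]
        · rw [if_neg hw, key j hj _ (Or.inr ⟨rfl, by simpa using hw⟩) hj']⟩
  exact ⟨g, fun j hj => by rw [hg, if_pos hj]⟩

theorem stE_mem {j : ℤ} (hj : j ∈ Γ) : stE a b σ w j ∈ stL a b σ w Γ :=
  Submodule.subset_span ⟨j, hj, rfl⟩

theorem stL_empty : stL a b σ w ∅ = ⊥ := by simp [stL]

theorem stL_insert (j : ℤ) : stL a b σ w (insert j Γ) =
    Submodule.span Λ {stE a b σ w j} ⊔ stL a b σ w Γ := by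
  rw [stL, Set.image_insert_eq, Submodule.span_insert]; rfl

theorem tr_mem {g : St a b σ w →ₗ[Λ] St a b σ' w}
    (hg : ∀ j ∈ σ, g (stE a b σ w j) = stE a b σ' w j) {z : St a b σ w}
    (hz : z ∈ stL a b σ w Γ) : g z ∈ stL a b σ' w Γ :=
  map_stL_le g (fun j hj hj' => by rw [hg j hj']; exact stE_mem hj) hz

theorem stL_eq_map : stL a b σ w Γ = (Submodule.span Λ
    ((fun j => (Finsupp.single j 1 : ℤ →₀ Λ)) '' Γ)).map (stRel a b σ w).mkQ := by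
  rw [Submodule.map_span, ← Set.image_comp]; rfl

theorem win_fin (hσ : σ.OrdConnected) (φ : PP Λ) {j : ℤ} {r : Λ} {z : St a b σ w}
    (hz : z ∈ stL a b σ w Γ) (h : r • stE a b σ w j + z ∈ φ.set (St a b σ w)) (F : Finset ℤ)
    (hF : (F : Set ℤ) ⊆ σ) : ∃ σ' : Set ℤ, σ'.Finite ∧ σ'.OrdConnected ∧ (F : Set ℤ) ⊆ σ' ∧
      σ' ⊆ σ ∧ ∃ z' ∈ stL a b σ' w Γ, r • stE a b σ' w j + z' ∈ φ.set (St a b σ' w) := by
  classical
  rw [stL_eq_map] at hz
  obtain ⟨f, hf, rfl⟩ := hz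
  have h' : (stRel a b σ w).mkQ (r • Finsupp.single j 1 + f) ∈ φ.set (St a b σ w) := h
  obtain ⟨y, hy⟩ := (φ.mem_of_surj _ (Submodule.mkQ_surjective _) _).1 h'
  choose G hG hG' using fun i => rel_window ((Submodule.Quotient.mk_eq_zero _).1 (hy i))
  obtain ⟨hi, hhi⟩ := (F ∪ Finset.univ.biUnion G).bddAbove
  obtain ⟨lo, hlo⟩ := (F ∪ Finset.univ.biUnion G).bddBelow
  refine ⟨σ ∩ Set.Icc lo hi, (Set.finite_Icc _ _).inter_of_right _,
    hσ.inter Set.ordConnected_Icc, fun x hx => ⟨hF hx, hlo (by simp [Finset.mem_coe.1 hx]),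
      hhi (by simp [Finset.mem_coe.1 hx])⟩, Set.inter_subset_left,
    (stRel a b _ w).mkQ f, by rw [stL_eq_map]; exact ⟨f, hf, rfl⟩, ?_⟩
  refine (φ.mem_of_surj _ (Submodule.mkQ_surjective _) (r • Finsupp.single j 1 + f)).2
    ⟨y, fun i => (Submodule.Quotient.mk_eq_zero _).2 (hG' i _ (fun x hx => ?_)
      Set.inter_subset_left)⟩
  have : x ∈ F ∪ Finset.univ.biUnion G :=
    Finset.mem_union_right _ (Finset.mem_biUnion.2 ⟨i, Finset.mem_univ _, hx⟩)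
  exact ⟨hG i hx, hlo this, hhi this⟩

end St

theorem pnt_le {J : Set ℤ} {w : ℤ → Bool} {i j : ℤ}
    (h1 : toLex (rwd J w i) ≤ toLex (rwd J w j)) (h2 : toLex (lwd J w i) ≤ toLex (lwd J w j)) :
    pnt J w i ≤ pnt J w j := by
  rw [pnt, pnt, Prod.Lex.toLex_le_toLex]
  exact h1.lt_or_eq.imp id fun h => ⟨h, h2⟩

theorem nb_low {J : Set ℤ} {w : ℤ → Bool} (hoc : J.OrdConnected) (hnp : ¬ Per J w) {i j : ℤ}
    (hj : j ∈ J) (hi : i ∈ J) (h : Eg w j i) : pnt J w i < pnt J w j := by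
  refine lt_of_le_of_ne ?_ fun he => ?_
  · rcases h with ⟨rfl, hw⟩ | ⟨rfl, hw⟩
    · have := (rwd_down (w := w) hoc hi (by simpa using hj)).1 hw
      rw [sub_add_cancel] at this
      exact pnt_le this.1 this.2
    · have := (rwd_down (w := w) hoc hj hi).2 hw
      exact pnt_le this.1 this.2
  · have := pnt_injOn hoc hnp hi hj he
    have := h.near
    omega

theorem lw_low (J : Set ℤ) (w : ℤ → Bool) (j : ℤ) : Lw J w (low J w j) :=
  fun _ hi _ hk _ h => ⟨hi, h.trans_lt hk.2⟩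

section Main
variable {D Λ S : Type} [CommRing D] [IsDomain D] [IsPrincipalIdealRing D] [FinQ D] [Ring Λ]
  [Algebra D Λ] [Module.Finite D Λ] [Ring S] [Algebra D S] [Finite S] [IsSemisimpleRing S]

/-- The standing assumptions. -/
structure Ctx (Δ : SD D Λ S) (J : Set ℤ) (w : ℤ → Bool) (e : S) (ρ : ℤ → Λ) : Prop where
  str : Δ.IsStr J w
  fam : Δ.Fam w e ρ
  idem : IsIdempotentElem e

variable {Δ : SD D Λ S} {J : Set ℤ} {w : ℤ → Bool} {e : S} {ρ : ℤ → Λ}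

theorem Ctx.idem_tw (h : Ctx Δ J w e ρ) (j : ℤ) : IsIdempotentElem (Δ.tw w j e) := by
  rw [IsIdempotentElem, ← map_mul, h.idem.eq]

theorem Ctx.q_pow (h : Ctx Δ J w e ρ) (j : ℤ) {M : ℕ} (hM : 0 < M) :
    Δ.q (ρ j ^ M - ρ j) = 0 := by
  rw [map_sub, map_pow, h.fam.1, (h.idem_tw j).pow_eq hM.ne', sub_self]

theorem Ctx.rad_low (h : Ctx Δ J w e ρ) {σ : Set ℤ} (hσ : σ ⊆ J) {r : Λ} (hr : Δ.q r = 0)
    {j : ℤ} (hj : j ∈ J) : r • stE Δ.a Δ.b σ w j ∈ stL Δ.a Δ.b σ w (low J w j) :=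
  stL_mono (fun _ hi => And.intro (hσ hi.2) (nb_low h.str.oc h.str.np hj (hσ hi.2) hi.1.2))
    (Δ.rad_smul_mem hr j)

theorem deep_rad {σ : Set ℤ} (hσ : σ ⊆ J) {r : Λ} (hr : Δ.q r = 0) {n : ℤ} (hn : Deep J w n) :
    r • stE Δ.a Δ.b σ w n = 0 := by
  have := stL_mono (Γ' := ∅) (fun _ hi => (deep_not hn hi.1.2 (hσ hi.2)).elim)
    (Δ.rad_smul_mem (J := σ) (w := w) hr n)
  rwa [stL_empty, Submodule.mem_bot] at this

theorem deep_congr {σ : Set ℤ} (hσ : σ ⊆ J) {r r' : Λ} (hr : Δ.q r = Δ.q r') {n : ℤ}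
    (hn : Deep J w n) : r • stE Δ.a Δ.b σ w n = r' • stE Δ.a Δ.b σ w n := by
  rw [← sub_eq_zero, ← sub_smul]
  exact deep_rad hσ (by rw [map_sub, hr, sub_self]) hn

variable (Δ J w ρ) in
/-- A module with a filtration indexed by sets of positions. -/
structure Part (τ : Set ℤ) (d : ℤ) (c0 : Λ) (Y : Type) [AddCommGroup Y] [Module Λ Y]
    (y0 : Y) where
  θ : St Δ.a Δ.b τ w →ₗ[Λ] Y
  θd : c0 • θ (stE Δ.a Δ.b τ w d) = y0
  L : Set ℤ → Submodule Λ Y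
  mono : ∀ Γ Γ', Γ ∩ τ ⊆ Γ' → L Γ ≤ L Γ'
  θL : ∀ j, θ (stE Δ.a Δ.b τ w j) ∈ L {j}
  top : L τ = ⊤
  bot : L ∅ = ⊥
  step : ∀ j ∈ J, ∀ x ∈ L (insert j (low J w j)), ∃ r : Λ,
    x - r • θ (stE Δ.a Δ.b τ w j) ∈ L (low J w j)
  fix : ∀ j ∈ J, θ (stE Δ.a Δ.b τ w j) - ρ j • θ (stE Δ.a Δ.b τ w j) ∈ L (low J w j)
  fin : ∀ Γ, ∀ z ∈ L Γ, ∃ F : Finset ℤ, (F : Set ℤ) ⊆ Γ ∩ τ ∧
    z ∈ L {i | ∃ j ∈ F, pnt J w i ≤ pnt J w j}
  win : ∀ F : Finset ℤ, (F : Set ℤ) ⊆ τ → ∃ σ : Set ℤ, σ.OrdConnected ∧ (F : Set ℤ) ⊆ σ ∧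
    σ ⊆ τ ∧ ∃ lam : Y →ₗ[Λ] St Δ.a Δ.b σ w, (∀ Γ, ∀ z ∈ L Γ, lam z ∈ stL Δ.a Δ.b σ w Γ) ∧
      (∀ j ∈ σ, lam (θ (stE Δ.a Δ.b τ w j)) - ρ j • stE Δ.a Δ.b σ w j ∈
        stL Δ.a Δ.b σ w (low J w j)) ∧ lam y0 = (c0 * ρ d) • stE Δ.a Δ.b σ w d
  lim : ∀ (φ : PP Λ) (c : φ.ι → Λ) (x : Y) (𝒰 : Ultrafilter ℤ) (Γ : ℤ → Set ℤ) (Γ0 : Set ℤ),
    (∀ i, Lw J w (Γ i)) → Lw J w Γ0 → (∀ j, j ∉ Γ0 → ∀ᶠ i in (𝒰 : Filter ℤ), j ∉ Γ i) →
    (∀ᶠ i in (𝒰 : Filter ℤ), ∃ z ∈ L (Γ i), Sol φ (x - z) fun t => c t • y0) →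
    ∃ z ∈ L Γ0, Sol φ (x - z) fun t => c t • y0

theorem tprodE_image {ι κ : Type} {J : Set ι} {f : ι → κ} (hf : Set.InjOn f J) (g : κ → ℕ∞) :
    tprodE (f '' J) g = tprodE J fun j => g (f j) := by
  classical
  refine le_antisymm (tprodE_le fun F hF => ?_) (tprodE_le fun F hF => ?_)
  · obtain ⟨G, hG, rfl⟩ := Finset.subset_set_image_iff.1 hF
    rw [Finset.prod_image (hf.mono hG)]
    exact le_tprodE (fun j => g (f j)) hG
  · rw [← Finset.prod_image (g := f) (f := g) (hf.mono hF)]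
    exact le_tprodE g (by rw [Finset.coe_image]; exact Set.image_mono hF)

variable {d : ℤ} {c0 : Λ} {Y : Type} [AddCommGroup Y] [Module Λ Y] {y0 : Y}

theorem Part.map_mem {τ : Set ℤ} (P : Part Δ J w ρ τ d c0 Y y0) {Γ : Set ℤ}
    {z : St Δ.a Δ.b τ w} (hz : z ∈ stL Δ.a Δ.b τ w Γ) : P.θ z ∈ P.L Γ :=
  map_stL_le P.θ (fun j hj _ => P.mono _ _ (fun i hi => by rw [hi.1]; exact hj) (P.θL j)) hz

theorem Part.key (h : Ctx Δ J w e ρ) (P : Part Δ J w ρ J d c0 Y y0) (φ : PP Λ) {j : ℤ}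
    (hj : j ∈ J) (r : Λ) : (∃ z ∈ P.L (low J w j), r • P.θ (stE Δ.a Δ.b J w j) + z ∈ φ.set Y) ↔
      Δ.q r * Δ.tw w j e ∈ Δ.U φ J w j := by
  classical
  constructor
  · rintro ⟨z, hz, hx⟩
    rw [← h.fam.1, ← map_mul]
    refine Δ.mem_U_of_windows h.str φ hj _ fun F hF => ?_
    obtain ⟨σ, h1, h2, h3, lam, h4, h5, -⟩ := P.win (insert j F)
      (by rw [Finset.coe_insert]; exact Set.insert_subset hj hF)
    have h6 := φ.map_mem lam hx
    rw [show lam (r • P.θ (stE Δ.a Δ.b J w j) + z) = (r * ρ j) • stE Δ.a Δ.b σ w j +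
      (r • (lam (P.θ (stE Δ.a Δ.b J w j)) - ρ j • stE Δ.a Δ.b σ w j) + lam z) by
        rw [map_add, map_smul, mul_smul, smul_sub]; abel] at h6
    obtain ⟨σ', k1, k2, k3, k4, k5⟩ := win_fin h1 φ (add_mem (Submodule.smul_mem _ r
      (h5 j (h2 (by simp)))) (h4 _ z hz)) h6 F (fun i hi => h2 (by simp [Finset.mem_coe.1 hi]))
    exact ⟨σ', k1, k2, k3, k4.trans h3, k5⟩
  · rintro ⟨r', hr', z, hz, hx⟩
    have h6 := φ.map_mem P.θ hx
    refine ⟨P.θ z - r • (P.θ (stE Δ.a Δ.b J w j) - ρ j • P.θ (stE Δ.a Δ.b J w j)) +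
      P.θ ((r' - r * ρ j) • stE Δ.a Δ.b J w j), add_mem (sub_mem (P.map_mem hz)
        (Submodule.smul_mem _ r (P.fix j hj))) (P.map_mem (h.rad_low subset_rfl
          (by rw [map_sub, hr', map_mul, h.fam.1, sub_self]) hj)), ?_⟩
    convert h6 using 1
    simp only [map_add, map_smul, sub_smul, mul_smul, smul_sub, map_sub]
    abel

theorem Part.cover (h : Ctx Δ J w e ρ) (P : Part Δ J w ρ J d c0 Y y0) (ψ : PP Λ) {x : Y}
    (hx : x ∉ ψ.set Y) : ∃ j ∈ J, (∃ z ∈ P.L (insert j (low J w j)), x - z ∈ ψ.set Y) ∧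
      ¬ ∃ z ∈ P.L (low J w j), x - z ∈ ψ.set Y := by
  classical
  set B : Set ℤ := {j | j ∈ J ∧ ∃ z ∈ P.L (low J w j), x - z ∈ ψ.set Y} with hB
  have hlw : Lw J w (J \ B) := fun i hi j hj _ hij => ⟨hi, fun ⟨_, z, hz, hz'⟩ =>
    hj.2 ⟨hj.1, z, P.mono _ _ (fun k hk => And.intro hk.2 (hk.1.2.trans_le hij)) hz, hz'⟩⟩
  have h1 : ∃ z ∈ P.L (J \ B), x - z ∈ ψ.set Y := by
    rcases B.eq_empty_or_nonempty with h0 | ⟨j0, hj0⟩
    · exact ⟨x, by rw [h0, Set.sdiff_empty, P.top]; trivial, by simp⟩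
    obtain ⟨𝒰, h𝒰⟩ := Ultrafilter.exists_ultrafilter_of_finite_inter_nonempty
      ((fun i => {j | j ∈ B ∧ pnt J w j ≤ pnt J w i}) '' B) fun T hT => by
        obtain ⟨G, hG, rfl⟩ := Finset.subset_set_image_iff.1 hT
        obtain ⟨m, hm, hm'⟩ := (insert j0 G).exists_min_image (pnt J w) (by simp)
        refine ⟨m, ?_⟩
        simp only [Finset.coe_image, Set.sInter_image, Set.mem_iInter]
        refine fun i hi => ⟨?_, hm' i (by simp [Finset.mem_coe.1 hi])⟩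
        rcases Finset.mem_insert.1 hm with rfl | hm
        · exact hj0
        · exact hG hm
    have h2 : ∀ i ∈ B, ∀ᶠ j in (𝒰 : Filter ℤ), j ∈ B ∧ pnt J w j ≤ pnt J w i :=
      fun i hi => h𝒰 ⟨i, hi, rfl⟩
    obtain ⟨z, hz, y, hy⟩ := P.lim ψ 0 x 𝒰 (low J w) (J \ B) (lw_low J w) hlw (fun i hi => by
      by_cases hi' : i ∈ B
      · exact (h2 i hi').mono fun j hj hk => absurd hk.2 (not_lt.2 hj.2)
      · exact Filter.Eventually.of_forall fun j hk => hi ⟨hk.1, hi'⟩)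
      ((h2 j0 hj0).mono fun j ⟨⟨_, z, hz, y, hy⟩, _⟩ => ⟨z, hz, y, by simpa using hy⟩)
    exact ⟨z, hz, y, by simpa using hy⟩
  obtain ⟨z, hz, hz'⟩ := h1
  obtain ⟨F, hF, hF'⟩ := P.fin _ z hz
  rcases F.eq_empty_or_nonempty with rfl | hne
  · have : z ∈ P.L ∅ := P.mono _ _ (fun i hi => by simpa using hi.1) hF'
    rw [P.bot, Submodule.mem_bot] at this
    exact absurd (by simpa [this] using hz') hx
  obtain ⟨j, hj, hj'⟩ := F.exists_max_image (pnt J w) hne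
  refine ⟨j, (hF hj).2, ⟨z, P.mono _ _ ?_ hF', hz'⟩, fun hh => (hF hj).1.2 ⟨(hF hj).2, hh⟩⟩
  rintro i ⟨⟨k, hk, hik⟩, hi⟩
  rcases (hik.trans (hj' k hk)).lt_or_eq with hl | hl
  · exact Or.inr ⟨hi, hl⟩
  · exact Or.inl (pnt_injOn h.str.oc h.str.np hi (hF hj).2 hl)

theorem Part.factor (h : Ctx Δ J w e ρ) (P : Part Δ J w ρ J d c0 Y y0) (φ ψ : PP Λ) {j : ℤ}
    (hj : j ∈ J) :
    eidx (ψ.set Y ⊓ (P.L (insert j (low J w j))).toAddSubgroup ⊔ (P.L (low J w j)).toAddSubgroup)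
      (φ.set Y ⊓ (P.L (insert j (low J w j))).toAddSubgroup ⊔ (P.L (low J w j)).toAddSubgroup) =
    eidx ((Δ.U ψ J w j).map (AddMonoidHom.mulRight (Δ.tw w j e)))
      ((Δ.U φ J w j).map (AddMonoidHom.mulRight (Δ.tw w j e))) := by
  set Lo := (P.L (low J w j)).toAddSubgroup with hLo
  set Hi := (P.L (insert j (low J w j))).toAddSubgroup with hHi
  set E := P.θ (stE Δ.a Δ.b J w j) with hE
  have hle : P.L (low J w j) ≤ P.L (insert j (low J w j)) :=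
    P.mono _ _ fun _ hi => Or.inr hi.1
  have hEm : E ∈ P.L (insert j (low J w j)) :=
    P.mono _ _ (fun i hi => Or.inl hi.1) (P.θL j)
  let m := QuotientAddGroup.mk' Lo
  have hc : ∀ A : AddSubgroup Y, A ⊔ Lo = (A.map m).comap m := fun A => by
    rw [AddSubgroup.comap_map_eq, QuotientAddGroup.ker_mk']
  rw [hc, hc, eidx_comap m (QuotientAddGroup.mk'_surjective Lo)]
  let g : Λ →+ Y ⧸ Lo := m.comp (LinearMap.toSpanSingleton Λ Y E).toAddMonoidHom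
  let qa : Λ →+ S := Δ.q.toRingHom.toAddMonoidHom
  have hg : qa.ker ≤ g.ker := fun r hr => by
    have := P.map_mem (h.rad_low subset_rfl (r := r) hr hj)
    rw [map_smul] at this
    exact (QuotientAddGroup.eq_zero_iff _).2 this
  let ν := qa.liftOfSurjective Δ.q_surj ⟨g, hg⟩
  have hν : ∀ r, ν (Δ.q r) = m (r • E) := fun r =>
    AddMonoidHom.liftOfRightInverse_comp_apply qa _ _ ⟨g, hg⟩ r
  have k1 : ∀ (χ : PP Λ) (r : Λ), ν (Δ.q r) ∈ (χ.set Y ⊓ Hi).map m ↔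
      Δ.q r * Δ.tw w j e ∈ Δ.U χ J w j := fun χ r => by
    rw [← P.key h χ hj r, hν]
    constructor
    · rintro ⟨x, hx, hx'⟩
      refine ⟨x - r • E, (QuotientAddGroup.eq_iff_sub_mem (N := Lo)).1 hx', ?_⟩
      rw [← hE, add_sub_cancel]
      exact hx.1
    · rintro ⟨z, hz, hz'⟩
      refine ⟨_, ⟨hz', add_mem (Submodule.smul_mem _ r hEm) (hle hz)⟩,
        (QuotientAddGroup.eq_iff_sub_mem (N := Lo)).2 ?_⟩
      rw [← hE, add_sub_cancel_left]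
      exact hz
  have k2 : ∀ (χ : PP Λ) (s : S), s ∈ (Δ.U χ J w j).map (AddMonoidHom.mulRight (Δ.tw w j e)) ↔
      s * Δ.tw w j e ∈ Δ.U χ J w j ∧ s * Δ.tw w j e = s := fun χ s => by
    constructor
    · rintro ⟨u, hu, rfl⟩
      simp only [AddMonoidHom.coe_mulRight, mul_assoc, (h.idem_tw j).eq, and_true]
      exact Δ.U_mul_mem h.str χ hj hu _
    · exact fun hs => ⟨_, hs.1, by simp only [AddMonoidHom.coe_mulRight, hs.2]⟩
  refine (eidx_eq_of_map ν (fun s hs => ?_) (fun s hs => ?_) fun y hy => ?_).symm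
  · obtain ⟨r, rfl⟩ := Δ.q_surj s
    exact (k1 φ r).2 ((k2 φ _).1 hs).1
  · obtain ⟨r, rfl⟩ := Δ.q_surj s
    rw [k1, k2, and_iff_left ((k2 φ _).1 hs).2]
  · obtain ⟨x, hx, rfl⟩ := hy
    obtain ⟨r, hr⟩ := P.step j hj x hx.2
    have h1 := (P.key h φ hj r).1 ⟨_, hr, by simpa using hx.1⟩
    refine ⟨Δ.q (r * ρ j), (k2 φ _).2 ?_, ?_⟩
    · rw [map_mul, h.fam.1, mul_assoc, (h.idem_tw j).eq]
      exact ⟨h1, rfl⟩
    · have := neg_mem (add_mem hr (Submodule.smul_mem _ r (P.fix j hj)))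
      rw [smul_sub, ← mul_smul, sub_add_sub_cancel, neg_sub] at this
      have h2 : m ((r * ρ j) • E - x) = 0 := (QuotientAddGroup.eq_zero_iff (N := Lo) _).2 this
      rw [hν, ← map_sub, h2]
      exact zero_mem _

/-- The abstract count. -/
theorem Part.count (h : Ctx Δ J w e ρ) (P : Part Δ J w ρ J d c0 Y y0) (φ ψ : PP Λ)
    (hle : ψ.Le φ) : ind φ ψ Y = Δ.wt φ ψ J w e := by
  have hinj := pnt_injOn (w := w) h.str.oc h.str.np
  have hi_eq : ∀ j ∈ J, P.L {i | i ∈ J ∧ pnt J w i ≤ pnt J w j} = P.L (insert j (low J w j)) :=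
    fun j hj => le_antisymm (P.mono _ _ fun i hi => hi.1.2.lt_or_eq.elim
      (fun hl => Or.inr ⟨hi.2, hl⟩) fun hl => Or.inl (hinj hi.2 hj hl))
      (P.mono _ _ fun i hi => ⟨hi.2, hi.1.elim (fun hl => hl ▸ le_rfl) fun hl => hl.2.le⟩)
  have hmem : ∀ (Γ : Set ℤ) {x : Y}, x ∈ φ.set Y →
      (x ∈ φ.set Y ⊓ (P.L Γ).toAddSubgroup ⊔ ψ.set Y ↔ ∃ z ∈ P.L Γ, x - z ∈ ψ.set Y) := by
    intro Γ x hx
    rw [AddSubgroup.mem_sup]
    constructor
    · rintro ⟨u, hu, v, hv, rfl⟩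
      exact ⟨u, hu.2, by simpa using hv⟩
    · rintro ⟨z, hz, hz'⟩
      exact ⟨z, ⟨by simpa using sub_mem hx (hle Y hz'), hz⟩, _, hz', by simp⟩
  have hmo : ∀ Γ Γ' : Set ℤ, Γ ∩ J ⊆ Γ' → φ.set Y ⊓ (P.L Γ).toAddSubgroup ⊔ ψ.set Y ≤
      φ.set Y ⊓ (P.L Γ').toAddSubgroup ⊔ ψ.set Y := fun Γ Γ' hh =>
    sup_le_sup_right (inf_le_inf_left _ fun x hx => P.mono _ _ hh hx) _
  rw [ind, eidx_eq_tprodE
    (fun u => φ.set Y ⊓ (P.L {i | i ∈ J ∧ pnt J w i < u}).toAddSubgroup ⊔ ψ.set Y)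
    (fun u => φ.set Y ⊓ (P.L {i | i ∈ J ∧ pnt J w i ≤ u}).toAddSubgroup ⊔ ψ.set Y)
    (pnt J w '' J)
    (fun u _ => hmo _ _ fun i hi => And.intro hi.2 hi.1.2.le)
    (fun u _ v _ huv => hmo _ _ fun i hi => And.intro hi.2 (hi.1.2.trans_lt huv)) _ _ (hle Y)
    (fun _ _ => le_sup_right) (fun _ _ => sup_le inf_le_left (hle Y)) ?_,
    tprodE_image hinj, SD.wt]
  · refine tprodE_congr fun j hj => ?_
    rw [hi_eq j hj, ← P.factor h φ ψ hj]
    exact eidx_zass (hle Y) (P.mono _ _ fun _ hi => Or.inr hi.1)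
  · intro x hx hx'
    obtain ⟨j, hj, h1, h2⟩ := P.cover h ψ hx'
    refine ⟨_, ⟨j, hj, rfl⟩, ?_, ?_⟩
    · rw [hi_eq j hj, hmem _ hx]; exact h1
    · rw [hmem _ hx]; exact h2

end Main
end RS
end Pool.Agent.Lib.MP_c13fce_lc
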