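import Pool.Agent.Lib.MP_c13fce_lc.RS2

/-! Realisation of strings, part 3: idempotent powers and the adic end. -/

namespace Pool.Agent.Lib.MP_c13fce_lc
open scoped BigOperators
set_option linter.unusedSectionVars false

namespace RS

theorem wo_of_step {r : ℤ → ℤ → Prop} [IsStrictOrder ℤ r] {τ : Set ℤ} (hoc : τ.OrdConnected)
    {s d n0 : ℤ} {p : ℕ} (hs : s = 1 ∨ s = -1) (hp : 0 < p) (hτ : ∀ j ∈ τ, s * d ≤ s * j)
    (h : ∀ i ∈ τ, s * n0 ≤ s * i → i + s * p ∈ τ → r i (i + s * p)) : τ.WellFoundedOn r := by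
  refine wo_of_period (n0 := n0) hs hp hτ fun i hi m hm h1 h2 => ?_
  induction m, hm using Nat.le_induction with
  | base => simpa using h i hi h1 (by simpa using h2)
  | succ m hm ih =>
    have h3 : (0 : ℤ) ≤ p * m := by positivity
    have e : i + s * (p * (m + 1 : ℕ)) = i + s * (p * m) + s * p := by push_cast; ring
    have h4 : i + s * (p * m) ∈ τ := by
      rw [e] at h2
      refine hoc.uIcc_subset hi h2 (Set.mem_uIcc.2 ?_)
      rcases hs with rfl | rfl <;> omega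
    rw [e] at h2 ⊢
    refine trans_of r (ih h4) (h _ h4 ?_ h2)
    rcases hs with rfl | rfl <;> omega

section PD
variable {R : Type} [Ring R] {q : R} {n : ℕ} (P : PData R q n)

theorem lev_mul_t (l k : ℕ) {x : R} (hx : x ∈ P.lev l) : x * P.t ^ k ∈ P.lev l := by
  induction k with
  | zero => simpa using hx
  | succ k ih => rw [pow_succ, ← mul_assoc]; exact P.lev_mul l ih

theorem span_pow_anti {l l' : ℕ} (h : l ≤ l') :
    Submodule.span R {q ^ l'} ≤ Submodule.span R {q ^ l} := by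
  rw [Submodule.span_singleton_le_iff_mem, Submodule.mem_span_singleton]
  exact ⟨q ^ (l' - l), by rw [smul_eq_mul, ← pow_add, Nat.sub_add_cancel h]⟩

theorem lev_anti {l l' : ℕ} (h : l ≤ l') : P.lev l' ≤ P.lev l :=
  sup_le_sup_left (span_pow_anti h) _

theorem st_fix {l M : ℕ} (hM : P.t ^ (2 * M) - P.t ^ M ∈ P.lev l) {x : R} (hx : x ∈ P.st l) :
    x * P.t ^ M - x ∈ P.lev l := by
  obtain ⟨u, hu, y, hy, rfl⟩ := Submodule.mem_sup.1 ((Submodule.mem_iInf _).1 hx M)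
  obtain ⟨r, rfl⟩ := Submodule.mem_span_singleton.1 hu
  have := add_mem (Submodule.smul_mem _ r hM) (sub_mem (lev_mul_t P l M hy) hy)
  convert this using 1
  simp only [smul_eq_mul, two_mul, pow_add]
  noncomm_ring

theorem st_of {l M : ℕ} (h0 : 0 < M) (hM : P.t ^ (2 * M) - P.t ^ M ∈ P.lev l) (r : R) :
    r * P.t ^ M ∈ P.st l := by
  have key : ∀ k, P.t ^ (M * (k + 1)) - P.t ^ M ∈ P.lev l := fun k => by
    induction k with
    | zero => simp
    | succ k ih =>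
      have := add_mem (lev_mul_t P l M ih) hM
      convert this using 1
      rw [sub_mul, ← pow_add, ← pow_add, ← two_mul, sub_add_sub_cancel]
      rfl
  refine Submodule.smul_mem _ r ((Submodule.mem_iInf _).2 fun k => ?_)
  rw [← sub_sub_cancel (P.t ^ (M * (k + 1))) (P.t ^ M)]
  refine sub_mem (Submodule.mem_sup_left (Submodule.mem_span_singleton.2
    ⟨P.t ^ (M * (k + 1) - k), ?_⟩)) (Submodule.mem_sup_right (key k))
  rw [smul_eq_mul, ← pow_add, Nat.sub_add_cancel (by nlinarith)]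

theorem idem_uniq {l M M' : ℕ} (h0 : 0 < M) (hM : P.t ^ (2 * M) - P.t ^ M ∈ P.lev l)
    (h0' : 0 < M') (hM' : P.t ^ (2 * M') - P.t ^ M' ∈ P.lev l) :
    P.t ^ M' - P.t ^ M ∈ P.lev l := by
  have h1 := st_fix P hM' (st_of P h0 hM 1)
  have h2 := st_fix P hM (st_of P h0' hM' 1)
  rw [one_mul, ← pow_add] at h1 h2
  rw [add_comm] at h2
  simpa using sub_mem h1 h2

theorem exists_M (hf : ∀ l, Finite (R ⧸ P.lev l)) :
    ∃ M : ℕ → ℕ, ∀ l, 0 < M l ∧ P.t ^ (2 * M l) - P.t ^ M l ∈ P.lev l := by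
  have : ∀ l, ∃ M, 0 < M ∧ P.t ^ (2 * M) - P.t ^ M ∈ P.lev l := fun l => by
    obtain ⟨M, h1, h2⟩ := exists_idem (fun k => (P.lev l).mkQ (P.t ^ k)) fun i j hij => by
      simp only [Submodule.mkQ_apply, Submodule.Quotient.eq] at hij ⊢
      have := (P.lev l).smul_mem P.t hij
      rwa [smul_eq_mul, mul_sub, ← pow_succ', ← pow_succ'] at this
    exact ⟨M, h1, (Submodule.Quotient.eq _).1 h2⟩
  choose M hM using this
  exact ⟨M, hM⟩

theorem aSeq_sub {x : ℕ → R} (hx : x ∈ P.aSeq) {l l' : ℕ} (h : l ≤ l') :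
    x l' - x l ∈ P.lev l := by
  induction l', h using Nat.le_induction with
  | base => simp
  | succ k hk ih =>
    rw [← sub_add_sub_cancel _ (x k)]
    exact add_mem (lev_anti P hk (PData.mem_aSeq.1 hx k).1) ih

/-- The adic module. -/
abbrev AY : Type := P.aSeq ⧸ P.aNull.submoduleOf P.aSeq

/-- The projection to level `l`. -/
noncomputable def mu (l : ℕ) : AY P →ₗ[R] R ⧸ P.lev l :=
  Submodule.mapQ _ _ ((LinearMap.proj l).comp P.aSeq.subtype) fun _ hx =>
    PData.mem_aNull.1 hx l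

theorem mu_mk (l : ℕ) (x : P.aSeq) :
    mu P l (Submodule.Quotient.mk x) = Submodule.Quotient.mk (x.1 l) := rfl

theorem mu_inj {x y : AY P} (h : ∀ l, mu P l x = mu P l y) : x = y := by
  induction x using Submodule.Quotient.induction_on with | H x =>
  induction y using Submodule.Quotient.induction_on with | H y =>
  exact (Submodule.Quotient.eq _).2 (PData.mem_aNull.2 fun l => (Submodule.Quotient.eq _).1 (h l))

theorem mu_lim (hf : ∀ l, Finite (R ⧸ P.lev l)) {ι : Type} (𝒰 : Ultrafilter ι) (u : ι → AY P) :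
    ∃ v : AY P, ∀ l, ∀ᶠ i in (𝒰 : Filter ι), mu P l (u i) = mu P l v := by
  choose x hx using fun i => Submodule.Quotient.mk_surjective _ (u i)
  choose c hc using fun l => ultra_const 𝒰 fun i => mu P l (u i)
  choose k hk using fun l => (hc l).exists
  have h1 : ∀ l i, mu P l (u i) = c l → (x (k l)).1 l - (x i).1 l ∈ P.lev l := fun l i hi => by
    rw [← Submodule.Quotient.eq, ← mu_mk, ← mu_mk, hx, hx, hk, hi]
  refine ⟨Submodule.Quotient.mk ⟨fun l => (x (k l)).1 l, PData.mem_aSeq.2 fun l =>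
    ⟨?_, (PData.mem_aSeq.1 (x (k l)).2 l).2⟩⟩, fun l => (hc l).mono fun i hi => ?_⟩
  · obtain ⟨i, hi, hi'⟩ := ((hc l).and (hc (l + 1))).exists
    have := sub_mem (add_mem (lev_anti P l.le_succ (h1 _ i hi'))
      (PData.mem_aSeq.1 (x i).2 l).1) (h1 _ i hi)
    convert this using 1
    abel
  · rw [hi, ← hk l, ← hx]; rfl

end PD

section Pow
variable {Λ : Type} [Ring Λ] {a b : Λ} {w : ℤ → Bool} {σ : Set ℤ}

theorem a_pow_cases (j : ℤ) (k : ℕ) : a ^ k • stE a b σ w j = 0 ∨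
    a ^ k • stE a b σ w j = stE a b σ w (j - k) := by
  induction k with
  | zero => simp
  | succ k ih =>
    rw [pow_succ', mul_smul]
    rcases ih with ih | ih
    · rw [ih, smul_zero]; exact Or.inl rfl
    rw [ih]
    by_cases hj : j - k ∈ σ
    · rw [traj_stE.2.1 _ hj]
      split_ifs
      · exact Or.inr (by congr 1; push_cast; ring)
      · exact Or.inl rfl
    · rw [stE_not_mem hj, smul_zero]; exact Or.inl rfl

theorem b_pow_cases (j : ℤ) (k : ℕ) : b ^ k • stE a b σ w j = 0 ∨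
    b ^ k • stE a b σ w j = stE a b σ w (j + k) := by
  induction k with
  | zero => simp
  | succ k ih =>
    rw [pow_succ', mul_smul]
    rcases ih with ih | ih
    · rw [ih, smul_zero]; exact Or.inl rfl
    rw [ih]
    by_cases hj : j + k ∈ σ
    · rw [traj_stE.2.2 _ hj]
      split_ifs
      · exact Or.inl rfl
      · exact Or.inr (by congr 1; push_cast; ring)
    · rw [stE_not_mem hj, smul_zero]; exact Or.inl rfl

variable (hoc : σ.OrdConnected) {p : ℤ} (hp : p ∈ σ)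
  (huni : ∀ j, j ∈ σ → j + 1 ∈ σ → (w j = true ↔ j < p))
include hoc hp huni

theorem a_pow_uni (k : ℕ) (hk : p - k ∈ σ) : a ^ k • stE a b σ w p = stE a b σ w (p - k) := by
  induction k with
  | zero => simp
  | succ k ih =>
    have h1 : p - k ∈ σ := hoc.out hk hp (by constructor <;> omega)
    have e : p - k - 1 = p - (k + 1 : ℕ) := by push_cast; ring
    rw [pow_succ', mul_smul, ih h1, traj_stE.2.1 _ h1, if_pos, e]
    exact (huni _ (e ▸ hk) (by simpa using h1)).2 (by omega)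

theorem b_pow_uni (k : ℕ) (hk : p + k ∈ σ) : b ^ k • stE a b σ w p = stE a b σ w (p + k) := by
  induction k with
  | zero => simp
  | succ k ih =>
    have h1 : p + k ∈ σ := hoc.out hp hk (by constructor <;> omega)
    have e : p + k + 1 = p + (k + 1 : ℕ) := by push_cast; ring
    rw [pow_succ', mul_smul, ih h1, traj_stE.2.2 _ h1, if_neg, e]
    rw [huni _ h1 (e ▸ hk)]
    omega

theorem pow_uni {j : ℤ} (hj : j ∈ σ) : ∃ k : ℕ, (j = p - k ∧ a ^ k • stE a b σ w p = stE a b σ w j) ∨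
    (j = p + k ∧ b ^ k • stE a b σ w p = stE a b σ w j) := by
  rcases le_total j p with h | h
  · obtain ⟨k, hk⟩ := Int.eq_ofNat_of_zero_le (sub_nonneg.2 h)
    obtain rfl : j = p - k := by omega
    exact ⟨k, Or.inl ⟨rfl, a_pow_uni hoc hp huni k hj⟩⟩
  · obtain ⟨k, hk⟩ := Int.eq_ofNat_of_zero_le (sub_nonneg.2 h)
    obtain rfl : j = p + k := by omega
    exact ⟨k, Or.inr ⟨rfl, b_pow_uni hoc hp huni k hj⟩⟩

end Pow

section Main
variable {D Λ S : Type} [CommRing D] [IsDomain D] [IsPrincipalIdealRing D] [FinQ D] [Ring Λ]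
  [Algebra D Λ] [Module.Finite D Λ] [Ring S] [Algebra D S] [Finite S] [IsSemisimpleRing S]
  (Δ : SD D Λ S) {J : Set ℤ} {w : ℤ → Bool} {e : S} {ρ : ℤ → Λ}

theorem finite_quot {l : ℕ} {N : Submodule Λ Λ} (hN : algebraMap D Λ Δ.π ^ l ∈ N) :
    Finite (Λ ⧸ N) := by
  obtain ⟨n, f, hf⟩ := Module.Finite.exists_fin' D Λ
  have := FinQ.fin (Δ.π ^ l) (pow_ne_zero l Δ.hπ.ne_zero)
  refine Finite.of_surjective (fun x : Fin n → D ⧸ Ideal.span {Δ.π ^ l} =>
    N.mkQ (f fun i => (x i).out)) fun v => ?_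
  obtain ⟨v, rfl⟩ := N.mkQ_surjective v
  obtain ⟨y, rfl⟩ := hf v
  refine ⟨fun i => Ideal.Quotient.mk _ (y i), (Submodule.Quotient.eq _).2 ?_⟩
  choose u hu using fun i => Ideal.mem_span_singleton'.1
    (Ideal.Quotient.eq.1 (Ideal.Quotient.mk_out (Ideal.Quotient.mk (Ideal.span {Δ.π ^ l}) (y i))))
  rw [← map_sub, show ((fun i => (Ideal.Quotient.mk (Ideal.span {Δ.π ^ l}) (y i)).out) - y) =
    Δ.π ^ l • u from funext fun i => by simp [← hu i, mul_comm], map_smul, Algebra.smul_def,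
    Algebra.commutes, map_pow]
  exact N.smul_mem _ hN

theorem finite_lev {n : ℕ} (P : PData Λ (algebraMap D Λ Δ.π) n) (l : ℕ) : Finite (Λ ⧸ P.lev l) :=
  finite_quot Δ (Submodule.mem_sup_right (Submodule.mem_span_singleton_self _))

theorem q_pi : Δ.q (algebraMap D Λ Δ.π) = 0 := by rw [AlgHom.commutes, Δ.qπ]

theorem ba_zero : Δ.b * Δ.a = 0 := by rw [Δ.cb, Δ.ab]

theorem pi_pow (l : ℕ) : ∃ x y, algebraMap D Λ Δ.π ^ (l + 1) = x * Δ.a ^ (l + 1) +
    y * Δ.b ^ (l + 1) := by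
  obtain ⟨x0, y0, h0⟩ := (Δ.q_ker _).1 (q_pi Δ)
  induction l with
  | zero => exact ⟨x0, y0, by simpa using h0⟩
  | succ l ih =>
    obtain ⟨x, y, h⟩ := ih
    refine ⟨x * x0, y * y0, ?_⟩
    rw [pow_succ, h, add_mul, mul_assoc, mul_assoc, ← Algebra.commutes, ← Algebra.commutes, h0]
    have h1 : Δ.b * Δ.a ^ (l + 1) = 0 := by rw [pow_succ', ← mul_assoc, ba_zero, zero_mul]
    have h2 : Δ.a * Δ.b ^ (l + 1) = 0 := by rw [pow_succ', ← mul_assoc, Δ.ab, zero_mul]
    simp only [add_mul, mul_assoc, h1, h2, ← pow_succ', mul_zero, add_zero, zero_add]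

theorem pow_dvd_aux {u v : Λ} (huv : v * u = 0) {e : ℕ} {x y : Λ} (h : u ^ e = Δ.π • x + y * v)
    (l k : ℕ) (hk : (e + 1) * l ≤ k) : ∃ z, u ^ k = z * algebraMap D Λ Δ.π ^ l := by
  have h1 : u ^ (e + 1) = x * u * algebraMap D Λ Δ.π := by
    rw [pow_succ, h, add_mul, mul_assoc y, huv, mul_zero, add_zero, Algebra.smul_def, mul_assoc,
      Algebra.commutes]
  refine ⟨u ^ (k - (e + 1) * l) * (x * u) ^ l, ?_⟩
  rw [mul_assoc, ← (Algebra.commute_algebraMap_right _ _).mul_pow, ← h1, ← pow_mul, ← pow_add,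
    Nat.sub_add_cancel hk]

theorem far_pow (l : ℕ) : ∃ m : ℕ, ∀ k, m ≤ k → (∃ z, Δ.a ^ k = z * algebraMap D Λ Δ.π ^ l) ∧
    ∃ z, Δ.b ^ k = z * algebraMap D Λ Δ.π ^ l := by
  obtain ⟨e, x, y, h⟩ := Δ.ea
  obtain ⟨e', x', y', h'⟩ := Δ.eb
  exact ⟨(e + 1) * l + (e' + 1) * l, fun k hk => ⟨pow_dvd_aux Δ (ba_zero Δ) h l k (by omega),
    pow_dvd_aux Δ Δ.ab h' l k (by omega)⟩⟩

variable {Δ}

theorem rwo_uni (h : Ctx Δ J w e ρ) {τ : Set ℤ} (hτ : τ ⊆ J) (hoc : τ.OrdConnected) {p : ℤ}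
    (huni : ∀ j, j ∈ τ → j + 1 ∈ τ → (w j = true ↔ j < p)) : RWO J w τ := by
  refine Set.WellFoundedOn.subset (t := τ ∩ Set.Iic p ∪ τ ∩ Set.Ici p)
    (Set.WellFoundedOn.union (r := fun i j => pnt J w j < pnt J w i) ?_ ?_) fun j hj => (le_total j p).imp (And.intro hj) (And.intro hj)
  · refine wo_of_step (hoc.inter Set.ordConnected_Iic) (s := -1) (d := p) (n0 := p) (p := 1)
      (Or.inr rfl) one_pos (fun j hj => by have := hj.2; simp at this ⊢; omega)
      fun i hi _ hi' => nb_low h.str.oc h.str.np (hτ hi.1) (hτ hi'.1) (Or.inl ⟨by simp; ring, ?_⟩)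
    have h1 : i ≤ p := hi.2
    exact (huni _ (by simpa [sub_eq_add_neg] using hi'.1) (by simpa using hi.1)).2 (by omega)
  · refine wo_of_step (hoc.inter Set.ordConnected_Ici) (s := 1) (d := p) (n0 := p) (p := 1)
      (Or.inl rfl) one_pos (fun j hj => by simpa using hj.2)
      fun i hi _ hi' => nb_low h.str.oc h.str.np (hτ hi.1) (hτ hi'.1) (Or.inr ⟨by simp, ?_⟩)
    have h1 : p ≤ i := hi.2
    rw [← Bool.not_eq_true, huni _ hi.1 (by simpa using hi'.1)]
    omega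

end Main
end RS
end Pool.Agent.Lib.MP_c13fce_lc
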