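import Pool.Agent.Lib.MP_c13fce_lc.RS3

/-! Realisation of strings, part 4: the adic end. -/

namespace Pool.Agent.Lib.MP_c13fce_lc
open scoped BigOperators
set_option linter.unusedSectionVars false

namespace RS

section Nu
variable {R : Type} [Ring R] {q : R} {n : ℕ} (P : PData R q n) {N : Type} [AddCommGroup N]
  [Module R N] (ev : R →ₗ[R] N)

/-- The projection to level `l`, read in a cyclic module. -/
noncomputable def nu (l : ℕ) : AY P →ₗ[R] N ⧸ (P.lev l).map ev :=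
  (Submodule.mapQ _ _ ev fun _ hx => Submodule.mem_map_of_mem hx).comp (mu P l)

theorem nu_mk (l : ℕ) (x : P.aSeq) :
    nu P ev l (Submodule.Quotient.mk x) = Submodule.Quotient.mk (ev (x.1 l)) := rfl

variable {P ev}

theorem nu_inj (hI : LinearMap.ker ev = P.I) {x y : AY P} (h : ∀ l, nu P ev l x = nu P ev l y) :
    x = y := by
  induction x using Submodule.Quotient.induction_on with | H x =>
  induction y using Submodule.Quotient.induction_on with | H y =>
  refine mu_inj P fun l => (Submodule.Quotient.eq _).2 ?_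
  have := (Submodule.Quotient.eq _).1 (h l)
  rw [← map_sub, ← Submodule.mem_comap, Submodule.comap_map_eq, hI] at this
  exact sup_le (le_refl (P.lev l)) le_sup_left this

theorem nu_down {x : AY P} {l l' : ℕ} (h : l ≤ l') {u : N}
    (hu : nu P ev l' x = Submodule.Quotient.mk u) : nu P ev l x = Submodule.Quotient.mk u := by
  induction x using Submodule.Quotient.induction_on with | H x =>
  rw [nu_mk, Submodule.Quotient.eq] at hu ⊢
  have := sub_mem (Submodule.map_mono (lev_anti P h) hu)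
    (Submodule.mem_map_of_mem (f := ev) (aSeq_sub P x.2 h))
  rwa [map_sub, sub_sub_sub_cancel_left] at this

theorem nu_fix {f : Module.End R N} (hf : ∀ (M : ℕ) r, (f ^ M) (ev r) = ev (r * P.t ^ M))
    {l M : ℕ} (hM : P.t ^ (2 * M) - P.t ^ M ∈ P.lev l) {x : AY P} {u : N}
    (hu : nu P ev l x = Submodule.Quotient.mk u) :
    nu P ev l x = Submodule.Quotient.mk ((f ^ M) u) := by
  induction x using Submodule.Quotient.induction_on with | H x =>
  rw [nu_mk, Submodule.Quotient.eq] at hu ⊢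
  obtain ⟨r, hr, hr'⟩ := hu
  have := sub_mem (Submodule.mem_map_of_mem (f := ev) (lev_mul_t P l M hr))
    (Submodule.mem_map_of_mem (f := ev) (st_fix P hM (PData.mem_aSeq.1 x.2 l).2))
  rwa [← hf, hr', map_sub, map_sub, ← hf, sub_sub_sub_cancel_left] at this

theorem exists_theta (hI : LinearMap.ker ev = P.I) (hs : Function.Surjective ev)
    {f : Module.End R N} (hf : ∀ (M : ℕ) r, (f ^ M) (ev r) = ev (r * P.t ^ M)) {M : ℕ → ℕ}
    (hM : ∀ l, 0 < M l ∧ P.t ^ (2 * M l) - P.t ^ M l ∈ P.lev l) :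
    ∃ θ : N →ₗ[R] AY P, ∀ l z, nu P ev l (θ z) = Submodule.Quotient.mk ((f ^ M l) z) := by
  let g : R →ₗ[R] P.aSeq := LinearMap.codRestrict _
    (LinearMap.pi fun l => LinearMap.toSpanSingleton R R (P.t ^ M l)) fun r =>
      PData.mem_aSeq.2 fun l => ⟨by
        have := Submodule.smul_mem _ r (idem_uniq P (hM l).1 (hM l).2 (hM (l + 1)).1
          (lev_anti P l.le_succ (hM (l + 1)).2))
        rwa [smul_sub] at this, st_of P (hM l).1 (hM l).2 r⟩
  refine ⟨((LinearMap.ker ev).liftQ ((Submodule.mkQ _).comp g) fun r hr => ?_).comp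
    (ev.quotKerEquivOfSurjective hs).symm.toLinearMap, fun l z => ?_⟩
  · exact (Submodule.Quotient.mk_eq_zero _).2 (PData.mem_aNull.2 fun l =>
      lev_mul_t P l _ (Submodule.mem_sup_left (hI ▸ hr)))
  · obtain ⟨r, rfl⟩ := hs z
    rw [LinearMap.comp_apply, LinearEquiv.coe_coe, LinearMap.quotKerEquivOfSurjective_symm_apply,
      hf]
    rfl

end Nu

section Main
variable {D Λ S : Type} [CommRing D] [IsDomain D] [IsPrincipalIdealRing D] [FinQ D] [Ring Λ]
  [Algebra D Λ] [Module.Finite D Λ] [Ring S] [Algebra D S] [Finite S] [IsSemisimpleRing S]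
  {Δ : SD D Λ S} {J : Set ℤ} {w : ℤ → Bool} {e : S} {ρ : ℤ → Λ}

variable (Δ J w ρ) in
/-- The positions in `τ` are realised by an admissible end. -/
def EndOK (τ : Set ℤ) (d : ℤ) (c0 : Λ) : Prop :=
  ∃ E : Pt Λ 1, IsEnd (algebraMap D Λ Δ.π) E ∧ Nonempty (Part Δ J w ρ τ d c0 E.Y (E.y 0))

theorem exists_adic (h : Ctx Δ J w e ρ) {τ : Set ℤ} (hτ : τ ⊆ J) (hoc : τ.OrdConnected) {p : ℤ}
    (hp : p ∈ τ) (huni : ∀ j, j ∈ τ → j + 1 ∈ τ → (w j = true ↔ j < p)) {d : ℤ} {c0 : Λ}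
    (hd : c0 = 0 ∨ Deep J w d) : EndOK Δ J w ρ τ d c0 := by
  classical
  let ev := LinearMap.toSpanSingleton Λ _ (stE Δ.a Δ.b τ w p)
  have hev : ∀ r, ev r = r • stE Δ.a Δ.b τ w p := fun _ => rfl
  have hs : Function.Surjective ev := by
    rw [← LinearMap.range_eq_top, eq_top_iff, ← stL_top]
    refine stL_le fun j _ hj => ?_
    obtain ⟨k, hk | hk⟩ := pow_uni (a := Δ.a) (b := Δ.b) hoc hp huni hj
    exacts [⟨_, hk.2⟩, ⟨_, hk.2⟩]
  obtain ⟨f, hf⟩ := h.exists_rh τ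
  have hf' : ∀ (M : ℕ) r, (f ^ M) (ev r) = ev (r * ρ p ^ M) := fun M r => by
    rw [hev, hev, map_smul, hf, mul_smul]
  have hfL : ∀ (M : ℕ) Γ, ∀ z ∈ stL Δ.a Δ.b τ w Γ, (f ^ M) z ∈ stL Δ.a Δ.b τ w Γ :=
    fun M Γ z hz => map_stL_le (f ^ M) (fun j hj _ => by
      rw [hf]; exact Submodule.smul_mem _ _ (stE_mem hj)) hz
  obtain ⟨γ, hγ⟩ := hs (stE Δ.a Δ.b τ w d)
  have hy0 : ev (c0 * ρ d * γ) = (c0 * ρ d) • stE Δ.a Δ.b τ w d := by
    rw [← hγ, ← map_smul, smul_eq_mul]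
  have hdd : ∀ r r' : Λ, Δ.q r = Δ.q r' → (c0 * r) • stE Δ.a Δ.b τ w d =
      (c0 * r') • stE Δ.a Δ.b τ w d := fun r r' hr => by
    rcases hd with rfl | hd
    · simp
    · exact deep_congr hτ (by rw [map_mul, map_mul, hr]) hd
  let P : PData Λ (algebraMap D Λ Δ.π) 1 := ⟨LinearMap.ker ev, ρ p, fun _ => c0 * ρ d * γ,
    fun r => (Algebra.commutes _ r).symm, fun x hx => by
      rw [LinearMap.mem_ker, ← pow_one (ρ p), ← hf', LinearMap.mem_ker.1 hx, map_zero]⟩
  have hy : ∀ i, P.y i * P.t - P.y i ∈ P.I := fun _ => by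
    change ev (c0 * ρ d * γ * ρ p - c0 * ρ d * γ) = 0
    rw [map_sub, ← pow_one (ρ p), ← hf', hy0, map_smul, hf, ← mul_smul, mul_assoc, sub_eq_zero]
    exact hdd _ _ (by rw [← pow_succ', ← sub_eq_zero, ← map_sub, h.q_pow d (Nat.succ_pos 1)])
  obtain ⟨M, hM⟩ := exists_M P (finite_lev Δ P)
  obtain ⟨θ, hθ⟩ := exists_theta (P := P) rfl hs hf' hM
  let L : Set ℤ → Submodule Λ (AY P) := fun Γ => ⨅ l,
    ((stL Δ.a Δ.b τ w Γ).map (Submodule.mkQ _)).comap (nu P ev l)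
  have hL : ∀ Γ x, x ∈ L Γ ↔ ∀ l, ∃ z ∈ stL Δ.a Δ.b τ w Γ,
      Submodule.Quotient.mk z = nu P ev l x := fun Γ x => Submodule.mem_iInf _
  have hmono : ∀ Γ Γ', Γ ∩ τ ⊆ Γ' → L Γ ≤ L Γ' := fun Γ Γ' hh =>
    iInf_mono fun l => Submodule.comap_mono (Submodule.map_mono (stL_mono hh))
  obtain ⟨Y0, hY0, hY0'⟩ : ∃ Y0 : AY P, Y0 = (P.adic hy).y 0 ∧
    ∀ l, nu P ev l Y0 = Submodule.Quotient.mk (ev (c0 * ρ d * γ)) := ⟨_, rfl, fun _ => rfl⟩
  refine ⟨P.adic hy, Or.inr (Or.inl ⟨P, hy, fun _ => ?_, rfl⟩), hY0 ▸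
    (show Nonempty (Part Δ J w ρ τ d c0 (AY P) Y0) from ?_)⟩
  rotate_left
  refine ⟨θ, ?_, L, hmono, fun j => ?_, ?_, ?_, fun j hj x hx => ?_, fun j hj => ?_, fun Γ z hz => ?_, fun F hF => ?_,
    fun φ c x 𝒰 Γ Γ0 h1 _ h2 h3 => ?_⟩
  rotate_right
  · change ev (c0 * ρ d * γ * algebraMap D Λ Δ.π) = 0
    rw [← Algebra.commutes, ← smul_eq_mul, map_smul, hy0, ← mul_smul, ← mul_assoc,
      Algebra.commutes, mul_assoc, hdd _ 0 (by rw [map_mul, q_pi, zero_mul, map_zero]), mul_zero,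
      zero_smul]
  · refine nu_inj (P := P) (ev := ev) rfl fun l => ?_
    rw [map_smul, hθ, hf, ← Submodule.Quotient.mk_smul, ← mul_smul,
      hdd _ (ρ d) (by rw [← sub_eq_zero, ← map_sub, h.q_pow d (hM l).1]), ← hy0, hY0']
  · exact (hL _ _).2 fun l => ⟨_, hfL _ _ _ (stE_mem rfl), (hθ l _).symm⟩
  · refine eq_top_iff.2 fun x _ => (hL _ _).2 fun l => ?_
    obtain ⟨z, hz⟩ := Submodule.Quotient.mk_surjective _ (nu P ev l x)
    exact ⟨z, by rw [stL_top]; trivial, hz⟩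
  · refine eq_bot_iff.2 fun x hx => nu_inj (P := P) (ev := ev) rfl fun l => ?_
    obtain ⟨z, hz, hz'⟩ := (hL _ _).1 hx l
    rw [stL_empty, Submodule.mem_bot] at hz
    rw [← hz', hz, map_zero]
    rfl
  · choose u hu hu' using (hL _ _).1 hx
    choose r z hz hrz using fun l => mem_stL_insert.1 (hu l)
    obtain ⟨s, hs⟩ := ultra_const (Filter.hyperfilter ℕ) fun l => Δ.q (r l)
    obtain ⟨r0, rfl⟩ := Δ.q_surj s
    refine ⟨r0, (hL _ _).2 fun l => ?_⟩
    obtain ⟨l', h1, h2⟩ := (hs.and (Nat.hyperfilter_le_atTop (Filter.eventually_ge_atTop l))).exists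
    refine ⟨_, hfL (M l) _ _ (add_mem (hz l') (h.rad_low hτ (r := r l' - r0)
      (by rw [map_sub, h1, sub_self]) hj)), ?_⟩
    rw [map_sub, nu_fix hf' (hM l).2 (nu_down h2 (hu' l').symm), map_smul, hθ, hrz,
      ← Submodule.Quotient.mk_smul, ← Submodule.Quotient.mk_sub, ← map_smul, ← map_sub, sub_smul]
    congr 2
    abel
  · refine (hL _ _).2 fun l => ⟨_, h.rad_low hτ (r := ρ j ^ M l - ρ j * ρ j ^ M l) ?_ hj, ?_⟩
    · have := h.q_pow j (hM l).1
      have h2 := h.q_pow j (M l).succ_pos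
      rw [map_sub, sub_eq_zero] at this h2 ⊢
      rw [this, ← pow_succ', h2]
    · rw [map_sub, map_smul, hθ, hf, sub_smul, mul_smul]
      rfl
  · obtain ⟨F, hF, hF'⟩ := fin_of_rwo (rwo_uni h hτ hoc huni) Γ
    exact ⟨F, hF, hmono _ _ hF' hz⟩
  · obtain ⟨m, hm⟩ := (F.image fun j => (j - p).natAbs).bddAbove
    let σ := τ ∩ Set.Icc (p - m) (p + m)
    obtain ⟨pr, hpr⟩ := exists_tr (a := Δ.a) (b := Δ.b) (w := w) (σ := τ) (σ' := σ)
      fun j i he hj hi => by
        refine iff_of_true hi.1 ⟨hj, ?_⟩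
        obtain ⟨hi, hi1, hi2⟩ := hi
        rcases he with ⟨rfl, hw⟩ | ⟨rfl, hw⟩
        · have := (huni _ hi (by simpa using hj)).1 hw
          constructor <;> omega
        · have := (huni _ hj hi).not.1 (by simp [hw])
          constructor <;> omega
    have hpr' : ∀ j, pr (stE Δ.a Δ.b τ w j) = stE Δ.a Δ.b σ w j := fun j => by
      by_cases hj : j ∈ τ
      · exact hpr j hj
      · rw [stE_not_mem hj, map_zero, stE_not_mem fun hh => hj hh.1]
    have hk : (P.lev (m + 1)).map ev ≤ LinearMap.ker pr := by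
      rw [Submodule.map_le_iff_le_comap]
      refine sup_le (fun x hx => ?_) ((Submodule.span_singleton_le_iff_mem _ _).2 ?_)
      · rw [Submodule.mem_comap, LinearMap.mem_ker.1 hx]; exact zero_mem _
      · obtain ⟨x, y, hxy⟩ := pi_pow Δ m
        have ha : Δ.a ^ (m + 1) • stE Δ.a Δ.b σ w p = 0 :=
          (a_pow_cases p (m + 1)).elim id fun hh => hh.trans (stE_not_mem fun hh => by
            have := hh.2.1; omega)
        have hb : Δ.b ^ (m + 1) • stE Δ.a Δ.b σ w p = 0 :=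
          (b_pow_cases p (m + 1)).elim id fun hh => hh.trans (stE_not_mem fun hh => by
            have := hh.2.2; omega)
        rw [Submodule.mem_comap, LinearMap.mem_ker, hev, map_smul, hpr', hxy, add_smul, mul_smul,
          mul_smul, ha, hb, smul_zero, smul_zero, add_zero]
    refine ⟨σ, hoc.inter Set.ordConnected_Icc, fun j hj => ⟨hF hj, ?_⟩, Set.inter_subset_left,
      (Submodule.liftQ _ pr hk).comp (nu P ev (m + 1)), fun Γ z hz => ?_, fun j hj => ?_, ?_⟩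
    · have := hm (Finset.mem_coe.2 (Finset.mem_image_of_mem _ (Finset.mem_coe.1 hj)))
      constructor <;> omega
    · obtain ⟨u, hu, hu'⟩ := (hL _ _).1 hz (m + 1)
      rw [LinearMap.comp_apply, ← hu']
      exact tr_mem hpr hu
    · rw [LinearMap.comp_apply, hθ, Submodule.liftQ_apply, hf, map_smul, hpr', ← sub_smul]
      exact h.rad_low (fun i hi => hτ hi.1) (h.q_pow j (hM _).1) (hτ hj.1)
    · rw [LinearMap.comp_apply, hY0', Submodule.liftQ_apply, hy0, map_smul, hpr']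
  · choose! z hz y hy using fun i (hi : ∃ z ∈ L (Γ i), Sol φ (x - z) fun t => c t • Y0) => hi
    obtain ⟨z0, hz0⟩ := mu_lim P (finite_lev Δ P) 𝒰 z
    choose y0 hy0 using fun k => mu_lim P (finite_lev Δ P) 𝒰 fun i => y i k
    refine ⟨z0, (hL _ _).2 fun l => ?_, y0, fun t => mu_inj P fun l => ?_⟩
    · obtain ⟨m, hm⟩ := far_pow Δ l
      have hfin : (τ ∩ Set.Icc (p - m) (p + m)).Finite := (Set.finite_Icc _ _).inter_of_right _
      obtain ⟨i, ⟨k1, k2⟩, k3⟩ := (((ev_sub hfin.wellFoundedOn (fun i hi => hτ hi.1) h1 h2).and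
        (hz0 l)).and h3).exists
      obtain ⟨u, hu, hu'⟩ := (hL _ _).1 (hz i k3) l
      have : nu P ev l z0 = Submodule.Quotient.mk u := by
        rw [hu', nu, LinearMap.comp_apply, LinearMap.comp_apply, k2]
      rw [this]
      refine map_stL_le (Submodule.mkQ _)
        (P := (stL Δ.a Δ.b τ w Γ0).map (Submodule.mkQ _)) (fun j hj hj' => ?_) hu
      by_cases hjm : j ∈ Set.Icc (p - m) (p + m)
      · exact Submodule.mem_map_of_mem (stE_mem (k1 ⟨hj, hj', hjm⟩))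
      have : stE Δ.a Δ.b τ w j ∈ (P.lev l).map ev := by
        obtain ⟨k, hk⟩ := pow_uni (a := Δ.a) (b := Δ.b) hoc hp huni hj'
        have hkm : m ≤ k := by rw [Set.mem_Icc] at hjm; omega
        obtain ⟨⟨u, hu⟩, v, hv⟩ := hm k hkm
        rcases hk with hk | hk
        · exact ⟨_, Submodule.mem_sup_right (Submodule.mem_span_singleton.2 ⟨u, hu.symm⟩), hk.2⟩
        · exact ⟨_, Submodule.mem_sup_right (Submodule.mem_span_singleton.2 ⟨v, hv.symm⟩), hk.2⟩
      rw [Submodule.mkQ_apply, (Submodule.Quotient.mk_eq_zero _).2 this]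
      exact zero_mem _
    · obtain ⟨i, ⟨k1, k2⟩, k3⟩ := (((hz0 l).and (Filter.eventually_all.2 fun k => hy0 k l)).and
        h3).exists
      rw [← hy i k3 t]
      simp only [map_add, map_smul, map_sub, map_sum, k1, k2]

end Main
end RS
end Pool.Agent.Lib.MP_c13fce_lc
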