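import Pool.Agent.Lib.MP_c13fce_lc.RS4

/-! Realisation of strings, part 5: the divisible end. -/

namespace Pool.Agent.Lib.MP_c13fce_lc
open scoped BigOperators
open Filter
set_option linter.unusedSectionVars false

namespace RS

section PY
variable {R : Type} [Ring R] {q : R} {n : ℕ} (P : PData R q n)

/-- The divisible module. -/
abbrev PY : Type := P.pSeq ⧸ P.pNull.submoduleOf P.pSeq

theorem py_eq {x y : P.pSeq} (h : ∀ᶠ l in atTop, x.1 l - y.1 l ∈ P.lev l) :
    (Submodule.Quotient.mk x : PY P) = Submodule.Quotient.mk y :=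
  (Submodule.Quotient.eq _).2 h

theorem exists_lam {N : Type} [AddCommGroup N] [Module R N] (g : ℕ → N)
    (hg : ∀ l, q • g (l + 1) = g l) (hk : ∀ l, ∀ r ∈ P.lev l, r • g l = 0) :
    ∃ lam : PY P →ₗ[R] N, ∀ x : P.pSeq, ∀ᶠ l in atTop,
      lam (Submodule.Quotient.mk x) = x.1 l • g l := by
  have key : ∀ x : P.pSeq, ∃ z : N, ∀ᶠ l in atTop, z = x.1 l • g l := fun x => by
    obtain ⟨m, hm⟩ := eventually_atTop.1 x.2
    refine ⟨x.1 m • g m, eventually_atTop.2 ⟨m, fun l hl => ?_⟩⟩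
    induction l, hl using Nat.le_induction with
    | base => rfl
    | succ l hl ih =>
      have := hk _ _ (hm l hl).1
      rw [sub_smul, mul_smul, hg, sub_eq_zero] at this
      rw [this, ih]
  choose val hval using key
  let v : P.pSeq →ₗ[R] N := ⟨⟨val, fun x y => by
      obtain ⟨l, ⟨h1, h2⟩, h3⟩ := (((hval x).and (hval y)).and (hval (x + y))).exists
      rw [h1, h2, h3, ← add_smul]; rfl⟩, fun r x => by
      obtain ⟨l, h1, h2⟩ := ((hval x).and (hval (r • x))).exists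
      change val _ = r • val x
      rw [h1, h2, ← mul_smul]; rfl⟩
  refine ⟨Submodule.liftQ _ v fun x hx => ?_, hval⟩
  obtain ⟨l, h1, h2⟩ := ((hval x).and hx).exists
  exact h1.trans (hk l _ h2)

variable {M : ℕ → ℕ} (hM : ∀ l, 0 < M l ∧ P.t ^ (2 * M l) - P.t ^ M l ∈ P.lev l)

/-- The stable part of a fraction. -/
noncomputable def frac (k : ℕ) (r : R) : P.pSeq :=
  ⟨fun l => r * q ^ (l - k) * P.t ^ M l, eventually_atTop.2 ⟨k, fun l hl => ⟨by
    have := Submodule.smul_mem _ (r * q ^ (l - k)) (P.lev_mul_pow l 1 (idem_uniq P (hM l).1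
      (hM l).2 (hM (l + 1)).1 (lev_anti P l.le_succ (hM (l + 1)).2)))
    convert this using 1
    beta_reduce
    rw [Nat.succ_sub hl, pow_succ, pow_one, smul_eq_mul, sub_mul, mul_sub, P.hq (P.t ^ M (l + 1))]
    simp only [mul_assoc], st_of P (hM l).1 (hM l).2 _⟩⟩⟩

theorem frac_level (x : P.pSeq) : ∀ᶠ k in atTop,
    (Submodule.Quotient.mk (frac P hM k (x.1 k)) : PY P) = Submodule.Quotient.mk x := by
  obtain ⟨m, hm⟩ := eventually_atTop.1 x.2
  refine eventually_atTop.2 ⟨m, fun k hk => py_eq P (eventually_atTop.2 ⟨k, fun l hl => ?_⟩)⟩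
  have : x.1 l - x.1 k * q ^ (l - k) ∈ P.lev l := by
    induction l, hl using Nat.le_induction with
    | base => simp
    | succ l hl ih =>
      have := add_mem (hm l (hk.trans hl)).1 (P.lev_mul_pow l 1 ih)
      rwa [pow_one, sub_mul, sub_add_sub_cancel, mul_assoc, ← pow_succ,
        ← Nat.sub_add_comm hl] at this
  have := sub_mem (st_fix P (hM l).2 (hm l (hk.trans hl)).2) (lev_mul_t P l (M l) this)
  rwa [sub_mul, sub_sub_sub_cancel_left] at this

end PY

section Main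
variable {D Λ S : Type} [CommRing D] [IsDomain D] [IsPrincipalIdealRing D] [FinQ D] [Ring Λ]
  [Algebra D Λ] [Module.Finite D Λ] [Ring S] [Algebra D S] [Finite S] [IsSemisimpleRing S]
  {Δ : SD D Λ S} {J : Set ℤ} {w : ℤ → Bool} {e : S} {ρ : ℤ → Λ}

theorem prufer_ret {u v : Λ} (hker : ∀ r, Δ.q r = 0 → ∃ x y, r = x * u + y * v)
    (hv : ∀ r, ∃ r', v * r = r' * v) (hu : ∀ r', ∃ r, r' * u = u * r)
    (hreg : ∀ r, (∃ y, Δ.π • r = y * v) → ∃ y, r = y * v)
    (he : ∃ (e : ℕ) (x y : Λ), u ^ e = Δ.π • x + y * v)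
    {N : Type} [AddCommGroup N] [Module Λ N] (E : ℕ → N) (hE0 : E 0 = 0)
    (hEu : ∀ k, u • E (k + 1) = E k) (hEv : ∀ k, v • E k = 0)
    (huniv : ∀ (Y : Type) [AddCommGroup Y] [Module Λ Y] (X : ℕ → Y), X 0 = 0 →
      (∀ k, u • X (k + 1) = X k) → (∀ k, v • X k = 0) → ∃ θ : N →ₗ[Λ] Y, ∀ k, θ (E k) = X k)
    (σ : ℕ → Λ) (hσ : ∀ k, u * σ (k + 1) = σ k * u)
    (hσ1 : ∀ M, 0 < M → Δ.q (σ 1 ^ M - σ 1) = 0) (f : Module.End Λ N)
    (hf : ∀ (M : ℕ) k, (f ^ M) (E k) = σ k ^ M • E k) :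
    ∃ (P : PData Λ (algebraMap D Λ Δ.π) 1) (hy : ∀ i, P.y i * P.t - P.y i ∈ P.lev 1)
      (θ : N →ₗ[Λ] PY P) (lam : PY P →ₗ[Λ] N), (∀ y, θ (lam y) = y) ∧
      (∀ k, ∃ M, 0 < M ∧ lam (θ (E k)) = σ k ^ M • E k) ∧ θ (E 1) = (P.prufer hy).y 0 := by
  set p := algebraMap D Λ Δ.π with hp
  have hc : ∀ r, r * p = p * r := fun r => (Algebra.commutes _ r).symm
  let I : Ideal Λ := Submodule.span Λ {v}
  have hI : ∀ r, r ∈ I ↔ ∃ y, r = y * v := fun r =>
    Submodule.mem_span_singleton.trans ⟨fun ⟨y, h⟩ => ⟨y, h.symm⟩, fun ⟨y, h⟩ => ⟨y, h.symm⟩⟩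
  have : I.IsTwoSided := ⟨fun {x} r hx => by
    obtain ⟨y, rfl⟩ := (hI x).1 hx
    obtain ⟨r', hr⟩ := hv r
    exact (hI _).2 ⟨y * r', by rw [mul_assoc, hr, mul_assoc]⟩⟩
  let m := Ideal.Quotient.mk I
  have hm : ∀ {r r'}, m r = m r' ↔ r - r' ∈ I := Ideal.Quotient.eq
  have hmv : m v = 0 := Ideal.Quotient.eq_zero_iff_mem.2 ((hI _).2 ⟨1, (one_mul v).symm⟩)
  have hact : ∀ {r r'}, m r = m r' → ∀ k, r • E k = r' • E k := fun h k => by
    obtain ⟨y, hy⟩ := (hI _).1 (hm.1 h)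
    rw [← sub_eq_zero, ← sub_smul, hy, mul_smul, hEv, smul_zero]
  have hcm : ∀ z, Commute (m p) z := fun z => by
    obtain ⟨r, rfl⟩ := Ideal.Quotient.mk_surjective z
    rw [Commute, SemiconjBy, ← map_mul, ← map_mul, hc]
  have hr1 : ∀ {z z'}, m p * z = m p * z' → z = z' := fun {z z'} h => by
    obtain ⟨r, rfl⟩ := Ideal.Quotient.mk_surjective z
    obtain ⟨r', rfl⟩ := Ideal.Quotient.mk_surjective z'
    rw [← map_mul, ← map_mul, hm, ← mul_sub, hp, ← Algebra.smul_def, hI] at h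
    exact hm.2 ((hI _).2 (hreg _ h))
  have hrl : ∀ (l : ℕ) {z z'}, m p ^ l * z = m p ^ l * z' → z = z' := fun l => by
    induction l with
    | zero => simp
    | succ l ih => exact fun h => ih (hr1 (by rwa [← mul_assoc, ← mul_assoc, ← pow_succ']))
  obtain ⟨γ, y1, hγ⟩ := hker p (q_pi Δ)
  have h1 : m γ * m u = m p := by rw [hγ, map_add, map_mul, map_mul, hmv, mul_zero, add_zero]
  have h2 : Commute (m γ) (m u) := by
    obtain ⟨γ', hγ'⟩ := hu γ
    have h3 : m γ * m u = m u * m γ' := by rw [← map_mul, hγ', map_mul]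
    have : m γ' = m γ := hr1 (by rw [(hcm (m γ)).eq, ← h1, mul_assoc, ← h3])
    rw [Commute, SemiconjBy, h3, this]
  obtain ⟨e, x0, y2, hx0⟩ := he
  set x := x0 * u
  have h3 : m p * m x = m u ^ (e + 1) := by
    rw [pow_succ, ← map_pow, hx0, map_add, map_mul m y2, hmv, mul_zero, add_zero,
      Algebra.smul_def, map_mul, map_mul, mul_assoc]
  have h4 : Commute (m γ) (m x) := hr1 (by
    rw [← mul_assoc, (hcm _).eq, mul_assoc, h3, ← mul_assoc, h3, (h2.pow_right _).eq])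
  have h5 : m γ * m x = m u ^ e := hr1 (by
    rw [← mul_assoc, (hcm _).eq, mul_assoc, h3, pow_succ', ← mul_assoc, h1])
  have h6 : m x * m γ ^ (e + 1) = m p ^ e := hr1 (by
    rw [← mul_assoc, h3, ← h2.symm.mul_pow, ← h2.eq, h1, pow_succ'])
  have h7 : ∀ k, m (σ 0) * m u ^ k = m u ^ k * m (σ k) := fun k => by
    induction k with
    | zero => simp
    | succ k ih => rw [pow_succ, ← mul_assoc, ih, mul_assoc, ← map_mul, ← hσ, map_mul, mul_assoc]
  have h8 : ∀ l, m p ^ l * m x ^ l = m u ^ ((e + 1) * l) := fun l => by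
    rw [← (hcm _).mul_pow, h3, pow_mul]
  have h9 : m γ * m (σ 0) = m (σ 1) * m γ := hr1 (by
    have := h7 1
    rw [pow_one] at this
    rw [← mul_assoc, (hcm (m γ)).eq, mul_assoc, (hcm _).eq, ← h1, mul_assoc, ← mul_assoc (m u),
      ← this, mul_assoc, h2.eq])
  have h10 : ∀ M, m γ * m (σ 0) ^ M = m (σ 1) ^ M * m γ := fun M =>
    (SemiconjBy.pow_right h9 M).eq
  have hEk : ∀ j k, u ^ j • E (k + j) = E k := fun j k => by
    induction j with
    | zero => simp
    | succ j ih => rw [pow_succ, mul_smul, ← add_assoc, hEu, ih]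
  let P : PData Λ p 1 := ⟨I, σ 0, fun _ => σ 1 * γ, hc, fun r hr => I.mul_mem_right _ hr⟩
  have hlev : ∀ {l r} (z : Λ), m r = m z * m p ^ l → r ∈ P.lev l := fun {l r} z h => by
    rw [← map_pow, ← map_mul, hm] at h
    rw [← sub_add_cancel r (z * p ^ l)]
    exact add_mem (Submodule.mem_sup_left h)
      (Submodule.mem_sup_right (Submodule.mem_span_singleton.2 ⟨z, rfl⟩))
  have hrad : ∀ M, 0 < M → ∃ z, m γ * m (σ 0) ^ M - m (σ 1) * m γ = m z * m p := fun M hM => by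
    obtain ⟨α, β, h⟩ := hker _ (hσ1 M hM)
    refine ⟨α, ?_⟩
    rw [h10, ← sub_mul, ← map_pow, ← map_sub, h, map_add, map_mul, map_mul, hmv, mul_zero,
      add_zero, mul_assoc, ← h2.eq, h1]
  have hy : ∀ i, P.y i * P.t - P.y i ∈ P.lev 1 := fun _ => by
    obtain ⟨z, hz⟩ := hrad 2 two_pos
    refine hlev z ?_
    rw [pow_one, ← hz, h10]
    simp only [P, map_sub, map_mul, mul_assoc, h9, sq]
  obtain ⟨M, hM⟩ := exists_M P (finite_lev Δ P)
  let g : ℕ → N := fun l => x ^ l • E ((e + 1) * l)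
  have hg : ∀ l, p • g (l + 1) = g l := fun l => by
    simp only [g]
    rw [← hEk (e + 1) ((e + 1) * l), ← mul_smul, ← mul_smul, mul_add_one]
    refine hact ?_ _
    simp only [map_mul, map_pow]
    rw [pow_succ, ← mul_assoc, (hcm _).eq, mul_assoc, h3]
  have hgk : ∀ j k, p ^ j • g (k + j) = g k := fun j k => by
    induction j with
    | zero => simp
    | succ j ih => rw [pow_succ, mul_smul, ← add_assoc, hg, ih]
  obtain ⟨lam, hlam⟩ := exists_lam P g hg fun l r hr => by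
    obtain ⟨r1, hr1, r2, hr2, rfl⟩ := Submodule.mem_sup.1 hr
    obtain ⟨z, rfl⟩ := Submodule.mem_span_singleton.1 hr2
    have := hgk l 0
    rw [zero_add] at this
    rw [add_smul, smul_assoc, this]
    simp only [g, mul_zero, hE0, smul_zero, add_zero]
    rw [← mul_smul, hact (r' := 0) (hm.2 (by simpa using I.mul_mem_right _ hr1)), zero_smul]
  obtain ⟨θ, hθ⟩ := huniv (PY P) (fun k => Submodule.Quotient.mk (frac P hM k (γ ^ k)))
    (py_eq P (y := 0) (Eventually.of_forall fun l => hlev (σ 0 ^ M l) (by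
      simp [frac, P, ((hcm _).pow_left l).eq])))
    (fun k => py_eq P (x := u • frac P hM (k + 1) (γ ^ (k + 1)))
      (eventually_atTop.2 ⟨k + 1, fun l hl => hlev 0 (by
        obtain ⟨j, rfl⟩ := Nat.exists_eq_add_of_le hl
        have : k + 1 + j - k = j + 1 := by omega
        simp only [frac, Submodule.coe_smul, Pi.smul_apply, smul_eq_mul, map_sub, map_mul,
          map_pow, map_zero, zero_mul, Nat.add_sub_cancel_left, this, sub_eq_zero]
        rw [pow_succ', pow_succ', ← mul_assoc, ← mul_assoc, ← mul_assoc, ← h2.eq, h1,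
          (hcm _).eq, ← mul_assoc])⟩))
    (fun k => py_eq P (x := v • frac P hM k (γ ^ k)) (y := 0)
      (Eventually.of_forall fun l => hlev 0 (by simp [frac, hmv])))
  refine ⟨P, hy, θ, lam, fun y => ?_, fun k => ?_, ?_⟩
  · induction y using Submodule.Quotient.induction_on with | H y =>
    obtain ⟨l, k1, k2⟩ := ((hlam y).and (frac_level P hM y)).exists
    rw [k1, ← k2, ← mul_smul, map_smul, hθ]
    refine py_eq P (x := (y.1 l * x ^ l) • frac P hM _ _)
      (eventually_atTop.2 ⟨(e + 1) * l, fun j hj => hlev 0 ?_⟩)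
    obtain ⟨j, rfl⟩ := Nat.exists_eq_add_of_le hj
    have : (e + 1) * l + j - l = e * l + j := by rw [add_one_mul]; omega
    simp only [frac, Submodule.coe_smul, Pi.smul_apply, smul_eq_mul, map_sub, map_mul,
      map_pow, map_zero, zero_mul, Nat.add_sub_cancel_left, this, sub_eq_zero]
    rw [pow_add, pow_mul, pow_mul, ← h6, (h4.symm.pow_right _).mul_pow]
    simp only [mul_assoc]
  · obtain ⟨l, k1, k2⟩ := ((hlam (frac P hM k (γ ^ k))).and (eventually_ge_atTop k)).exists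
    obtain ⟨j, rfl⟩ := Nat.exists_eq_add_of_le k2
    refine ⟨M (k + j), (hM _).1, ?_⟩
    have hfg : ∀ (L : ℕ) l, σ 0 ^ L • g l = (f ^ L) (g l) := fun L l => by
      simp only [g]
      rw [map_smul, hf, ← mul_smul, ← mul_smul]
      refine hact ?_ _
      simp only [map_mul, map_pow]
      refine (SemiconjBy.pow_right (hrl l ?_) L).eq.symm
      rw [← mul_assoc, h8, ← h7, ← h8, ← mul_assoc, ← mul_assoc, ((hcm _).pow_left l).eq]
    rw [hθ, k1, ← hf]
    simp only [frac, Nat.add_sub_cancel_left]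
    rw [mul_smul, hfg, ← map_smul, mul_smul, hgk, ← mul_smul, ← hEk (e * k) k]
    congr 1
    rw [add_one_mul, add_comm]
    refine hact ?_ _
    simp only [map_mul, map_pow]
    rw [← h4.mul_pow, h5, pow_mul]
  · rw [hθ]
    refine py_eq P (eventually_atTop.2 ⟨1, fun l hl => ?_⟩)
    obtain ⟨j, rfl⟩ := Nat.exists_eq_add_of_le hl
    obtain ⟨z, hz⟩ := hrad _ (hM (1 + j)).1
    refine hlev z ?_
    rw [pow_add, pow_one (m p), ← mul_assoc, ← hz]
    simp only [frac, P, map_sub, map_mul, map_pow, pow_one, Nat.add_sub_cancel_left, sub_mul,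
      mul_assoc, ((hcm _).pow_left j).eq]

theorem exists_prufer (h : Ctx Δ J w e ρ) {s d : ℤ} (hs : s = 1 ∨ s = -1) (hd : Deep J w d)
    {τ : Set ℤ} (hτ : ∀ j, j ∈ τ ↔ s * d ≤ s * j) (hτJ : τ ⊆ J)
    (hw : ∀ j, j ∈ τ → j + 1 ∈ τ → (w j = true ↔ s = 1)) : EndOK Δ J w ρ τ d 1 := by
  classical
  have hoc : τ.OrdConnected := ⟨fun x hx y hy z hz => by
    rw [hτ] at hx hy ⊢
    obtain ⟨h1, h2⟩ := hz
    rcases hs with rfl | rfl <;> omega⟩
  obtain ⟨f, hf⟩ := h.exists_rh τ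
  have key : ∀ {u v : Λ}, (∀ r, Δ.q r = 0 → ∃ x y, r = x * u + y * v) →
      (∀ r, ∃ r', v * r = r' * v) → (∀ r', ∃ r, r' * u = u * r) → (∀ r, ∃ r', u * r = r' * u) →
      (∀ r, (∃ y, Δ.π • r = y * v) → ∃ y, r = y * v) →
      (∃ (e : ℕ) (x y : Λ), u ^ e = Δ.π • x + y * v) →
      (∀ j ∈ τ, u • stE Δ.a Δ.b τ w j = stE Δ.a Δ.b τ w (j - s)) →
      (∀ j ∈ τ, v • stE Δ.a Δ.b τ w j = 0) →
      (∀ (Y : Type) [AddCommGroup Y] [Module Λ Y] (x : ℤ → Y), (∀ j, j ∉ τ → x j = 0) →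
        (∀ j ∈ τ, u • x j = x (j - s)) → (∀ j, v • x j = 0) → Traj Δ.a Δ.b τ w x) →
      (∀ j ∈ τ, u * ρ (j + s) = ρ j * u) → EndOK Δ J w ρ τ d 1 := by
    intro u v h1 h2 h3 h4 h5 h6 h7 h8 h9 h10
    obtain ⟨t, ht⟩ := h4 (ρ d)
    have m0 : d + s * ((0 : ℕ) - 1) ∉ τ := by rw [hτ]; rcases hs with rfl | rfl <;> omega
    have m1 : ∀ k : ℕ, d + s * ((k + 1 : ℕ) - 1) ∈ τ := fun k => by
      rw [hτ]; rcases hs with rfl | rfl <;> omega
    have m2 : ∀ j ∈ τ, ∃ k : ℕ, j = d + s * ((k + 1 : ℕ) - 1) := fun j hj => by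
      rw [hτ] at hj
      refine ⟨(s * j - s * d).toNat, ?_⟩
      rcases hs with rfl | rfl <;> omega
    obtain ⟨P, hy, θ, lam, k1, k2, k3⟩ := prufer_ret h1 h2 h3 h5 h6
      (fun k => stE Δ.a Δ.b τ w (d + s * (k - 1))) (stE_not_mem m0)
      (fun k => by rw [h7 _ (m1 k)]; congr 1; push_cast; ring)
      (fun k => by
        cases k with
        | zero => rw [stE_not_mem m0, smul_zero]
        | succ k => exact h8 _ (m1 k))
      (fun Y _ _ X x0 x1 x2 => by
        obtain ⟨θ, hθ⟩ := exists_stLift (h9 Y (fun j => X (s * j - s * d + 1).toNat)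
          (fun j hj => by
            rw [hτ] at hj
            rw [show (s * j - s * d + 1).toNat = 0 by omega, x0])
          (fun j hj => by
            rw [hτ] at hj
            rw [show (s * j - s * d + 1).toNat = (s * (j - s) - s * d + 1).toNat + 1 by
              rcases hs with rfl | rfl <;> omega, x1]) fun j => x2 _)
        refine ⟨θ, fun k => ?_⟩
        rw [hθ]
        congr 1
        rcases hs with rfl | rfl <;> omega)
      (fun k => Nat.casesOn k t fun k => ρ (d + s * ((k + 1 : ℕ) - 1)))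
      (fun k => by
        cases k with
        | zero => simpa using ht
        | succ k =>
          rw [← h10 _ (m1 k)]
          exact congrArg (fun z => u * ρ z) (by push_cast; ring)) (fun M hM => h.q_pow _ hM) f (fun M k => by
        cases k with
        | zero => rw [stE_not_mem m0, map_zero, smul_zero]
        | succ k => exact hf M _)
    let R : RetP Δ w ρ τ (PY P) := ⟨θ, lam, k1, fun j => by
      by_cases hj : j ∈ τ
      · obtain ⟨k, rfl⟩ := m2 j hj
        exact k2 (k + 1)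
      · exact ⟨1, one_pos, by rw [stE_not_mem hj, map_zero, map_zero, smul_zero]⟩⟩
    have hwo : WO J w τ := wo_of_step hoc (d := d) (n0 := d) hs one_pos (fun j hj => (hτ j).1 hj)
      fun i hi _ hi' => nb_low h.str.oc h.str.np (hτJ hi') (hτJ hi) (by
        rcases hs with rfl | rfl
        · exact Or.inl ⟨by simp, by simpa using hw i hi (by simpa using hi')⟩
        · exact Or.inr ⟨by simp, by simpa using hw _ hi' (by simpa using hi)⟩)
    refine ⟨P.prufer hy, Or.inr (Or.inr ⟨P, hy, rfl⟩), ?_⟩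
    have := R.part h hτJ hoc hwo (c0 := 1) (Or.inr hd)
    rw [one_smul] at this
    rw [← k3]
    simp only [Nat.cast_one, sub_self, mul_zero, add_zero]
    exact ⟨this⟩
  rcases hs with rfl | rfl
  · have hw' : ∀ j ∈ τ, w j = true := fun j hj =>
      (hw j hj (by rw [hτ] at hj ⊢; omega)).2 rfl
    refine key (fun r => (Δ.q_ker r).1) (fun r => ⟨r, Δ.cb r⟩)
      (fun r => (Δ.na' r).imp fun _ hh => hh.1) (fun r => (Δ.na r).imp fun _ hh => hh.1) Δ.regA
      Δ.ea (fun j hj => ?_) (fun j hj => by rw [traj_stE.2.2 j hj, if_pos (hw' j hj)])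
      (fun Y _ _ x x0 x1 x2 => ⟨x0, fun j hj => ?_, fun j hj => by rw [x2, if_pos (hw' j hj)]⟩)
      fun j hj => h.fam.2.1 j (hw' j hj)
    · rw [traj_stE.2.1 j hj]
      split_ifs with hh
      exacts [rfl, (stE_not_mem fun h' => hh (hw' _ h')).symm]
    · rw [x1 j hj]
      split_ifs with hh
      exacts [rfl, x0 _ fun h' => hh (hw' _ h')]
  · have hw' : ∀ j, j + 1 ∈ τ → ¬ w j = true := fun j hj =>
      (hw j (by rw [hτ] at hj ⊢; omega) hj).not.2 (by decide)
    have hb : Δ.b ≠ 0 := h.str.adm.resolve_right fun hh =>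
      hw' (d - 1) (by rw [hτ]; omega) (hh _ (hτJ (by rw [hτ]; omega)) (hτJ (by rw [hτ]; omega)))
    refine key (fun r hr => ?_) (fun r => (Δ.na r).imp fun _ hh => hh.1)
      (fun r => ⟨r, (Δ.cb r).symm⟩) (fun r => ⟨r, Δ.cb r⟩) (Δ.regB.resolve_left hb)
      Δ.eb (fun j hj => ?_)
      (fun j hj => by rw [traj_stE.2.1 j hj, if_neg (hw' _ (by simpa using hj))])
      (fun Y _ _ x x0 x1 x2 => ⟨x0, fun j hj => by rw [x2, if_neg (hw' _ (by simpa using hj))],
        fun j hj => ?_⟩) fun j hj => ?_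
    · obtain ⟨x, y, hxy⟩ := (Δ.q_ker r).1 hr
      exact ⟨y, x, by rw [hxy, add_comm]⟩
    · rw [traj_stE.2.2 j hj, sub_neg_eq_add]
      split_ifs with hh
      exacts [(stE_not_mem fun h' => hw' _ h' hh).symm, rfl]
    · rw [x1 j hj, sub_neg_eq_add]
      split_ifs with hh
      exacts [x0 _ fun h' => hw' _ h' hh, rfl]
    · rw [Δ.cb, ← h.fam.2.2 _ (by simpa using hw' (j + -1) (by simpa using hj))]
      simp

end Main
end RS
end Pool.Agent.Lib.MP_c13fce_lc
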