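import Pool.Agent.Lib.MP_c13fce_lc.RS5

/-! Realisation of strings, part 6: ends with infinitely many deeps. -/

namespace Pool.Agent.Lib.MP_c13fce_lc
open scoped BigOperators
open Filter
set_option linter.unusedSectionVars false

namespace RS

section Tl
variable {R : Type} [Ring R] (T : Tail R 1)

/-- The module of a tail. -/
abbrev TY : Type := T.supp ⧸ T.rel.submoduleOf T.supp

/-- The map from a piece. -/
noncomputable def io (k : ℕ) : T.Z k →ₗ[R] TY T :=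
  (Submodule.mkQ _).comp (LinearMap.codRestrict T.supp (LinearMap.single R T.Z k) (T.single_mem k))

theorem io_apply (k : ℕ) (z : T.Z k) :
    io T k z = Submodule.Quotient.mk ⟨Pi.single k z, T.single_mem k z⟩ := rfl

theorem ty_eq (u : T.supp) (c : R) : Submodule.Quotient.mk u = c • io T 0 (T.l 0 0) ↔
    ∃ g : ℕ → R, g 0 = -c ∧ (T.s = true → {k | g (k + 1) ≠ 0}.Finite) ∧
      ∀ k, u.1 k = g (k + 1) • T.r k 0 - g k • T.l k 0 := by
  rw [io_apply, ← Submodule.Quotient.mk_smul, Submodule.Quotient.eq]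
  constructor
  · rintro ⟨c', hc, h⟩
    refine ⟨fun k => Nat.casesOn k (-c) fun k => c' k 0, rfl, fun hs => (hc hs).subset
      fun k hk h0 => hk (by simp [h0]), fun k => ?_⟩
    have := congrFun h k
    cases k with
    | zero => simpa [Tail.bd, prev, sub_eq_iff_eq_add] using this
    | succ k => simpa [Tail.bd, prev] using this
  · rintro ⟨g, h0, hg, h⟩
    refine ⟨fun k _ => g (k + 1), fun hs => (hg hs).subset fun k hk h0 => hk (funext fun _ => h0),
      funext fun k => ?_⟩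
    cases k with
    | zero => simp [Tail.bd, prev, h, h0]
    | succ k => simp [Tail.bd, prev, h]

theorem io_glue (k : ℕ) : io T k (T.r k 0) = io T (k + 1) (T.l (k + 1) 0) := by
  rw [← sub_eq_zero, ← zero_smul R (io T 0 (T.l 0 0)), io_apply, io_apply T (k + 1),
    ← Submodule.Quotient.mk_sub, ty_eq]
  refine ⟨Pi.single (k + 1) 1, by simp, fun _ => (Set.finite_singleton k).subset fun j hj => ?_,
    fun j => ?_⟩
  · by_contra hh
    exact hj (Pi.single_eq_of_ne (fun h => hh (Nat.succ_injective h)) _)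
  · change Pi.single k (T.r k 0) j - Pi.single (k + 1) (T.l (k + 1) 0) j = _
    congr 1
    · by_cases hj : j = k
      · subst hj; simp
      · simp [hj]
    · by_cases hj : j = k + 1
      · subst hj; simp
      · simp [hj]

theorem io_sum (F : Finset ℕ) (x : ∀ k, T.Z k) : ∃ u : T.supp,
    ∑ k ∈ F, io T k (x k) = Submodule.Quotient.mk u ∧ ∀ k, u.1 k = if k ∈ F then x k else 0 := by
  refine ⟨∑ k ∈ F, ⟨Pi.single k (x k), T.single_mem k _⟩, (map_sum (Submodule.mkQ _) _ _).symm,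
    fun k => ?_⟩
  rw [Submodule.coe_sum, Finset.sum_apply]
  exact Finset.sum_pi_single k x F

end Tl

/-- A sequence of deeps going to one side. -/
structure DSeq (J : Set ℤ) (w : ℤ → Bool) (s : ℤ) (dd : ℕ → ℤ) (τ : Set ℤ) : Prop where
  hs : s = 1 ∨ s = -1
  deep : ∀ k, Deep J w (dd k)
  lt : ∀ k, s * dd k < s * dd (k + 1)
  mem : ∀ j, j ∈ τ ↔ s * dd 0 ≤ s * j
  sub : τ ⊆ J

/-- The segment between consecutive terms. -/
def seg (s : ℤ) (dd : ℕ → ℤ) (k : ℕ) : Set ℤ := {j | s * dd k ≤ s * j ∧ s * j ≤ s * dd (k + 1)}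

/-- Chains of coefficients can be closed. -/
def CL (J : Set ℤ) (w : ℤ → Bool) (dd : ℕ → ℤ) (τ : Set ℤ) : Prop :=
  ∀ (α : Type) [Finite α] (f : ℕ → α) (m : ℕ), ∃ k1 k3 k' κ : ℕ, m ≤ k1 ∧ m ≤ k3 ∧ m ≤ k' ∧
    f k1 = f k3 ∧ dd k1 + κ < dd k' ∧ Set.Icc (dd k3) (dd k3 + κ) ⊆ τ ∧
    (∀ i < κ, rwd J w (dd k3) i = rwd J w (dd k1) i) ∧ rwd J w (dd k3) κ < rwd J w (dd k1) κ

section DS
variable {J τ : Set ℤ} {w : ℤ → Bool} {s : ℤ} {dd : ℕ → ℤ} (H : DSeq J w s dd τ)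
include H

theorem DSeq.mono {k k' : ℕ} (h : k ≤ k') : s * dd k ≤ s * dd k' :=
  (strictMono_nat_of_lt_succ H.lt).monotone h

theorem DSeq.big (k : ℕ) : s * dd 0 + k ≤ s * dd k := by
  induction k with
  | zero => simp
  | succ k ih => have := H.lt k; omega

theorem DSeq.far (x : ℤ) : ∃ m, x < s * dd m :=
  ⟨(x - s * dd 0 + 1).toNat, by have := H.big (x - s * dd 0 + 1).toNat; omega⟩

theorem DSeq.fin (k : ℕ) : (seg s dd k).Finite :=
  (Set.finite_uIcc (dd k) (dd (k + 1))).subset fun j ⟨h1, h2⟩ => by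
    rw [Set.mem_uIcc]
    rcases H.hs with rfl | rfl <;> omega

theorem DSeq.seg_sub (k : ℕ) : seg s dd k ⊆ τ := fun j hj =>
  (H.mem j).2 ((H.mono k.zero_le).trans hj.1)

theorem DSeq.exists_seg {j : ℤ} (hj : j ∈ τ) :
    ∃ k, s * dd k ≤ s * j ∧ s * j < s * dd (k + 1) := by
  classical
  have h := H.far (s * j)
  have h1 := Nat.find_spec h
  cases hk : Nat.find h with
  | zero => rw [hk] at h1; exact absurd ((H.mem j).1 hj) (not_le.2 h1)
  | succ k => exact ⟨k, not_lt.1 (Nat.find_min h (by omega)), hk ▸ h1⟩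

theorem DSeq.two {j : ℤ} {k k' : ℕ} (h : j ∈ seg s dd k) (h' : j ∈ seg s dd k') (hk : k < k') :
    k' = k + 1 ∧ j = dd (k + 1) := by
  have h1 := H.mono (show k + 1 ≤ k' from hk)
  have h2 := h.2
  have h3 := h'.1
  refine ⟨by_contra fun hh => ?_, by rcases H.hs with rfl | rfl <;> omega⟩
  have := H.mono (show k + 1 + 1 ≤ k' by omega)
  have := H.lt (k + 1)
  omega

theorem DSeq.edge {i j : ℤ} {k : ℕ} (hj : j ∈ seg s dd k) (he : Eg w j i) (hi : i ∈ J) :
    i ∈ seg s dd k := by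
  have h1 : j ≠ dd k := fun hh => deep_not (H.deep k) (hh ▸ he) hi
  have h2 : j ≠ dd (k + 1) := fun hh => deep_not (H.deep _) (hh ▸ he) hi
  obtain ⟨h3, h4⟩ := hj
  have := he.near
  constructor <;> rcases H.hs with rfl | rfl <;> omega

theorem DSeq.left (k : ℕ) : dd k ∈ seg s dd k := ⟨le_rfl, (H.lt k).le⟩
theorem DSeq.right (k : ℕ) : dd (k + 1) ∈ seg s dd k := ⟨(H.lt k).le, le_rfl⟩

end DS

section Main
variable {D Λ S : Type} [CommRing D] [IsDomain D] [IsPrincipalIdealRing D] [FinQ D] [Ring Λ]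
  [Algebra D Λ] [Module.Finite D Λ] [Ring S] [Algebra D S] [Finite S] [IsSemisimpleRing S]
  {Δ : SD D Λ S} {J : Set ℤ} {w : ℤ → Bool} {e : S} {ρ : ℤ → Λ}

theorem exists_tail (h : Ctx Δ J w e ρ) {s : ℤ} {dd : ℕ → ℤ} {τ : Set ℤ} (H : DSeq J w s dd τ)
    (hc : RWO J w τ ∨ WO J w τ ∨ CL J w dd τ) : EndOK Δ J w ρ τ (dd 0) 1 := by
  classical
  obtain ⟨fl, hf, hf'⟩ : ∃ fl : Bool, (¬ fl = true → RWO J w τ) ∧
      (fl = true → WO J w τ ∨ CL J w dd τ) :=
    hc.elim (fun hh => ⟨false, fun _ => hh, by simp⟩) fun hh => ⟨true, by simp, fun _ => hh⟩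
  obtain ⟨T, R, hl', hr', rfl⟩ : ∃ (T : Tail Λ 1) (R : ∀ k, RetP Δ w ρ (seg s dd k) (T.Z k)),
      (∀ k i, T.l k i = (R k).θ (stE _ _ _ w (dd k))) ∧
      (∀ k i, T.r k i = (R k).θ (stE _ _ _ w (dd (k + 1)))) ∧ T.s = fl := by
    choose Z hZ R using fun k => h.exists_retP (H.fin k)
    exact ⟨{ Z := fun k => Z k
             acg := fun k => inferInstance
             mod := fun k => inferInstance
             l := fun k _ => (R k).some.θ (stE _ _ _ w (dd k))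
             r := fun k _ => (R k).some.θ (stE _ _ _ w (dd (k + 1)))
             s := fl }, fun k => (R k).some, fun _ _ => rfl, fun _ _ => rfl, rfl⟩
  have hl := fun k => hl' k 0
  have hr := fun k => hr' k 0
  have sJ : ∀ k, seg s dd k ⊆ J := fun k => (H.seg_sub k).trans H.sub
  have hcg : ∀ k n {r r' : Λ}, Δ.q r = Δ.q r' → r • (R k).θ (stE _ _ _ w (dd n)) =
      r' • (R k).θ (stE _ _ _ w (dd n)) := fun k n _ _ hh => by
    rw [← map_smul, ← map_smul, deep_congr (sJ k) hh (H.deep n)]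
  choose! ix hix using fun j (hj : j ∈ τ) => H.exists_seg hj
  have htwo : ∀ k k' j, j ∈ seg s dd k → j ∈ seg s dd k' → k < k' →
      io T k ((R k).θ (stE _ _ _ w j)) = io T k' ((R k').θ (stE _ _ _ w j)) := by
    intro k k' j h1 h2 h3
    obtain ⟨rfl, rfl⟩ := H.two h1 h2 h3
    rw [← hl, ← hr, io_glue]
  let X : ℤ → TY T := fun j => if j ∈ τ then io T (ix j) ((R _).θ (stE _ _ _ w j)) else 0
  have hX : ∀ k j, j ∈ seg s dd k → io T k ((R k).θ (stE _ _ _ w j)) = X j := fun k j hj => by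
    have h1 := H.seg_sub k hj
    have h2 : j ∈ seg s dd (ix j) := ⟨(hix j h1).1, (hix j h1).2.le⟩
    simp only [X, if_pos h1]
    rcases lt_trichotomy k (ix j) with hh | hh | hh
    exacts [htwo _ _ _ hj h2 hh, by subst hh; rfl, (htwo _ _ _ h2 hj hh).symm]
  obtain ⟨θ, hθ⟩ := exists_stLift (traj_of_pieces (a := Δ.a) (b := Δ.b) (w := w) (τ := τ) (x := X)
    (fun j hj => if_neg hj) fun j hj => by
      have h2 : j ∈ seg s dd (ix j) := ⟨(hix j hj).1, (hix j hj).2.le⟩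
      refine ⟨_, (io T (ix j)).comp (R _).θ, h2, hX _ _ h2, fun i he => ?_⟩
      by_cases hi : i ∈ J
      · exact hX _ _ (H.edge h2 he hi)
      · rw [stE_not_mem fun hh => hi (sJ _ hh), map_zero]
        exact (if_neg fun hh => hi (H.sub hh)).symm)
  have hθ' : ∀ k j, j ∈ seg s dd k → θ (stE _ _ _ w j) = io T k ((R k).θ (stE _ _ _ w j)) :=
    fun k j hj => by rw [hθ, hX k j hj]
  let L : Set ℤ → Submodule Λ (TY T) := fun Γ =>
    ((Submodule.pi Set.univ fun k => (R k).L Γ).comap T.supp.subtype).map (Submodule.mkQ _)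
  have hL : ∀ Γ x, x ∈ L Γ ↔ ∃ u : T.supp, (∀ k, u.1 k ∈ (R k).L Γ) ∧
      Submodule.Quotient.mk u = x := fun Γ x =>
    ⟨fun ⟨u, h1, h2⟩ => ⟨u, fun k => h1 k trivial, h2⟩, fun ⟨u, h1, h2⟩ => ⟨u, fun k _ => h1 k, h2⟩⟩
  have hmono : ∀ Γ Γ', Γ ∩ τ ⊆ Γ' → L Γ ≤ L Γ' := fun Γ Γ' hh x hx => by
    obtain ⟨u, h1, h2⟩ := (hL _ _).1 hx
    exact (hL _ _).2 ⟨u, fun k => (R k).mono (fun i hi => hh ⟨hi.1, H.seg_sub k hi.2⟩) (h1 k), h2⟩
  have hio : ∀ Γ k, ∀ z ∈ (R k).L Γ, io T k z ∈ L Γ := fun Γ k z hz =>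
    (hL _ _).2 ⟨⟨Pi.single k z, T.single_mem k z⟩, fun k' => by
      by_cases hk : k' = k
      · subst hk; simpa using hz
      · simp [Pi.single_eq_of_ne hk], rfl⟩
  have hθL : ∀ j, θ (stE _ _ _ w j) ∈ L {j} := fun j => by
    by_cases hj : j ∈ τ
    · rw [hθ' (ix j) j ⟨(hix j hj).1, (hix j hj).2.le⟩]
      exact hio _ _ _ ((R _).map_mem (stE_mem rfl))
    · rw [stE_not_mem hj, map_zero]; exact zero_mem _
  have htr : ∀ (σ : Set ℤ) k, σ ⊆ J → seg s dd k ⊆ σ ∪ Set.range dd →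
      ∃ g : St Δ.a Δ.b (seg s dd k) w →ₗ[Λ] St Δ.a Δ.b σ w,
        ∀ j ∈ seg s dd k, g (stE _ _ _ w j) = stE _ _ _ w j := fun σ k h1 h2 =>
    exists_tr fun j i he hj hi => iff_of_true (H.edge hj he (h1 hi))
      ((h2 hj).resolve_right fun ⟨n, hn⟩ => deep_not (H.deep n) (hn ▸ he) (h1 hi))
  refine ⟨T.pt, Or.inl ⟨T, fun k _ => ⟨?_, ?_⟩, rfl⟩,
    show Nonempty (Part Δ J w ρ τ (dd 0) 1 (TY T) (io T 0 (T.l 0 0))) from ?_⟩
  · rw [hl', hcg k _ (r' := 0) (by rw [q_pi, map_zero]), zero_smul]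
  · rw [hr', hcg k _ (r' := 0) (by rw [q_pi, map_zero]), zero_smul]
  refine ⟨θ, by rw [one_smul, hθ' 0 _ (H.left 0), hl], L, hmono, hθL, ?_, ?_, fun j hj x hx => ?_,
    fun j hj => ?_, fun Γ z hz => ?_, fun F hF => ?_, fun φ c x 𝒰 Γ Γ0 h1 h0 h2 h3 => ?_⟩
  · refine eq_top_iff.2 fun x _ => ?_
    obtain ⟨u, rfl⟩ := Submodule.Quotient.mk_surjective _ x
    exact (hL _ _).2 ⟨u, fun k => (R k).mono (fun i hi => H.seg_sub k hi.1)
      (by rw [(R k).top]; trivial), rfl⟩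
  · refine eq_bot_iff.2 fun x hx => ?_
    obtain ⟨u, hu, rfl⟩ := (hL _ _).1 hx
    rw [show u = 0 from Subtype.ext (funext fun k => by simpa [(R k).bot] using hu k)]
    exact zero_mem _
  · obtain ⟨u, hu, rfl⟩ := (hL _ _).1 hx
    choose r hr using fun k => (R k).step (hu k)
    obtain ⟨m, hm⟩ := H.far (s * j)
    let K := (Finset.range m).filter fun k => j ∈ seg s dd k
    obtain ⟨v, hv, hv'⟩ := io_sum T K fun k => r k • (R k).θ (stE _ _ _ w j)
    refine ⟨∑ k ∈ K, r k, (hL _ _).2 ⟨u - v, fun k => ?_, ?_⟩⟩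
    · rw [Submodule.coe_sub, Pi.sub_apply, hv']
      split_ifs with hk
      · exact hr k
      · have : j ∉ seg s dd k := fun hh => hk (Finset.mem_filter.2 ⟨Finset.mem_range.2
          (not_le.1 fun hmk => absurd ((H.mono hmk).trans hh.1) (not_le.2 hm)), hh⟩)
        have h5 := hr k
        rwa [stE_not_mem this, map_zero, smul_zero] at h5
    · rw [Submodule.Quotient.mk_sub, ← hv, Finset.sum_smul]
      congr 1
      exact Finset.sum_congr rfl fun k hk => by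
        rw [map_smul, hθ' k j (Finset.mem_filter.1 hk).2]
  · by_cases hj' : j ∈ τ
    · rw [hθ' (ix j) j ⟨(hix j hj').1, (hix j hj').2.le⟩, ← map_smul, ← map_sub]
      exact hio _ _ _ ((R _).fix h (sJ _) hj)
    · rw [stE_not_mem hj', map_zero, smul_zero, sub_zero]; exact zero_mem _
  · by_cases hfl : T.s = true
    · obtain ⟨u, hu, rfl⟩ := (hL _ _).1 hz
      have hfin := ((u.2 hfl).biUnion fun k _ => H.fin k).inter_of_right Γ
      refine ⟨hfin.toFinset, fun i hi => ?_, (hL _ _).2 ⟨u, fun k => ?_, rfl⟩⟩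
      · rw [Set.Finite.coe_toFinset] at hi
        obtain ⟨k, -, hk⟩ := Set.mem_iUnion₂.1 hi.2
        exact ⟨hi.1, H.seg_sub k hk⟩
      · by_cases hk : u.1 k = 0
        · rw [hk]; exact zero_mem _
        · exact (R k).mono (fun i hi => Exists.intro i ⟨hfin.mem_toFinset.2
            ⟨hi.1, Set.mem_iUnion₂.2 ⟨k, hk, hi.2⟩⟩, le_rfl⟩) (hu k)
    · obtain ⟨F, hF, hF'⟩ := fin_of_rwo (hf hfl) Γ
      exact ⟨F, hF, hmono _ _ hF' hz⟩
  · obtain ⟨x0, hx0⟩ := (F.image fun j => s * j).bddAbove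
    obtain ⟨m, hm⟩ := H.far x0
    let σ : Set ℤ := {j | s * dd 0 ≤ s * j ∧ s * j < s * dd (m + 1)}
    have hσ : σ ⊆ τ := fun j hj => (H.mem j).2 hj.1
    choose! tr htr' using fun k (hk : k < m + 1) => htr σ k (hσ.trans H.sub) fun j hj => by
      rcases (hj.2.trans (H.mono (Nat.succ_le_of_lt hk))).lt_or_eq with hh | hh
      · exact Or.inl ⟨(H.mono k.zero_le).trans hj.1, hh⟩
      · exact Or.inr ⟨m + 1, by rcases H.hs with rfl | rfl <;> omega⟩
    let Φ : T.supp →ₗ[Λ] St Δ.a Δ.b σ w := (∑ k ∈ Finset.range (m + 1),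
      ((tr k).comp (R k).lam).comp (LinearMap.proj k)).comp T.supp.subtype
    have hΦ : ∀ u, Φ u = ∑ k ∈ Finset.range (m + 1), tr k ((R k).lam (u.1 k)) := fun u =>
      LinearMap.sum_apply _ _ _
    have hker : T.rel.submoduleOf T.supp ≤ LinearMap.ker Φ := fun u hu => by
      obtain ⟨g, g0, -, hg⟩ := (ty_eq T u 0).1
        (((Submodule.Quotient.mk_eq_zero _).2 hu).trans (zero_smul Λ _).symm)
      rw [LinearMap.mem_ker, hΦ, Finset.sum_congr rfl fun k hk => show tr k ((R k).lam (u.1 k)) =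
        g (k + 1) • ρ (dd (k + 1)) • stE _ _ σ w (dd (k + 1)) - g k • ρ (dd k) • stE _ _ σ w (dd k)
        by simp only [hg, hl, hr, map_sub, map_smul, (R k).deep h (sJ k) (H.deep _),
          htr' k (Finset.mem_range.1 hk) _ (H.left k), htr' k (Finset.mem_range.1 hk) _ (H.right k)],
        Finset.sum_range_sub fun k => g k • ρ (dd k) • stE Δ.a Δ.b σ w (dd k), g0,
        stE_not_mem fun hh => lt_irrefl _ hh.2]
      simp
    have hlam : ∀ k < m + 1, ∀ z, Submodule.liftQ _ Φ hker (io T k z) = tr k ((R k).lam z) :=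
      fun k hk z => by
        rw [io_apply, Submodule.liftQ_apply, hΦ, Finset.sum_eq_single k (fun k' _ hk' => by
          simp [Pi.single_eq_of_ne hk']) fun hh => absurd (Finset.mem_range.2 hk) hh]
        simp
    refine ⟨σ, ⟨fun x hx y hy z hz => ?_⟩, fun j hj => ⟨(H.mem j).1 (hF hj), ?_⟩, hσ,
      Submodule.liftQ _ Φ hker, fun Γ z hz => ?_, fun j hj => ?_, ?_⟩
    · obtain ⟨⟨h1, h2⟩, ⟨h3, h4⟩, h5, h6⟩ := And.intro hx (And.intro hy hz)
      constructor <;> rcases H.hs with rfl | rfl <;> omega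
    · exact ((hx0 (Finset.mem_coe.2 (Finset.mem_image_of_mem _ (Finset.mem_coe.1 hj)))).trans_lt
        hm).trans (H.lt m)
    · obtain ⟨u, hu, rfl⟩ := (hL _ _).1 hz
      rw [Submodule.liftQ_apply, hΦ]
      exact sum_mem fun k hk => tr_mem (htr' k (Finset.mem_range.1 hk)) (hu k)
    · obtain ⟨k1, k2⟩ := hix j (hσ hj)
      have hk : ix j < m + 1 := not_le.1 fun hh => absurd ((H.mono hh).trans k1) (not_le.2 hj.2)
      rw [hθ' _ j ⟨k1, k2.le⟩, hlam _ hk, ← htr' _ hk j ⟨k1, k2.le⟩, ← map_smul, ← map_sub]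
      exact tr_mem (htr' _ hk) ((R _).near h (sJ _) (H.sub (hσ hj)))
    · rw [hlam 0 m.succ_pos, hl, (R 0).deep h (sJ 0) (H.deep 0), map_smul,
        htr' 0 m.succ_pos _ (H.left 0), one_mul]
  by_cases hwo : WO J w τ
  · obtain ⟨i, hi, z, hz, hz'⟩ := ((ev_sub hwo H.sub h1 h2).and h3).exists
    exact ⟨z, hmono _ _ hi hz, hz'⟩
  obtain ⟨x, rfl⟩ := Submodule.Quotient.mk_surjective _ x
  have h4 : ∀ᶠ i in (𝒰 : Filter ℤ), ∃ (z : ∀ k, T.Z k) (g : φ.ι → ℕ → Λ), (∀ t, g t 0 = -c t) ∧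
      ∀ k, z k ∈ (R k).L (Γ i) ∧
        Sol φ (x.1 k - z k) fun t => g t (k + 1) • T.r k 0 - g t k • T.l k 0 :=
    h3.mono fun i ⟨z, hz, y, hy⟩ => by
      obtain ⟨u, hu, rfl⟩ := (hL _ _).1 hz
      choose v hv using fun j => Submodule.Quotient.mk_surjective _ (y j)
      choose g g0 _ hg using fun t => (ty_eq T (φ.h t • (x - u) + ∑ j, φ.H t j • v j) (c t)).1 (by
        refine Eq.trans ?_ (hy t)
        rw [← Submodule.mkQ_apply]
        simp only [map_add, map_smul, map_sub, map_sum, Submodule.mkQ_apply, hv])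
      exact ⟨u.1, g, g0, fun k => ⟨hu k, fun j => (v j).1 k, fun t =>
        Eq.trans (by simp [Finset.sum_apply]) (hg t k)⟩⟩
  choose! z g g0 hzg using fun i (hi : ∃ (z : ∀ k, T.Z k) (g : φ.ι → ℕ → Λ),
    (∀ t, g t 0 = -c t) ∧ ∀ k, z k ∈ (R k).L (Γ i) ∧
      Sol φ (x.1 k - z k) fun t => g t (k + 1) • T.r k 0 - g t k • T.l k 0) => hi
  choose lm hlm using fun k => ultra_const 𝒰 fun i => (z i k, fun t => Δ.q (g i t k))
  choose n hn hn' using fun k => ((hlm k).and h4).exists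
  have h5 : ∀ k, z (n k) k ∈ (R k).L Γ0 ∧ Sol φ (x.1 k - z (n k) k)
      fun t => g (n (k + 1)) t (k + 1) • T.r k 0 - g (n k) t k • T.l k 0 := fun k => by
    obtain ⟨i, ⟨⟨k1, k2⟩, k3⟩, k4⟩ := ((((hlm k).and (hlm (k + 1))).and h4).and
      (ev_sub (H.fin k).wellFoundedOn (sJ k) h1 h2)).exists
    obtain ⟨e1, e2⟩ := Prod.ext_iff.1 ((hn k).trans k1.symm)
    obtain ⟨-, e3⟩ := Prod.ext_iff.1 ((hn (k + 1)).trans k2.symm)
    simp only at e1 e2 e3
    rw [e1]
    exact ⟨(R k).mono k4 (hzg i k3 k).1, (hzg i k3 k).2.congr rfl fun t => by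
      rw [hl, hr, hcg k _ (congrFun e2 t), hcg k _ (congrFun e3 t)]⟩
  by_cases hfl : T.s = true
  swap
  · choose y hy using fun k => (h5 k).2
    refine ⟨_, (hL _ _).2 ⟨⟨fun k => z (n k) k, fun hh => absurd hh hfl⟩, fun k => (h5 k).1, rfl⟩,
      fun j => Submodule.Quotient.mk ⟨fun k => y k j, fun hh => absurd hh hfl⟩, fun t => ?_⟩
    refine Eq.trans ?_ ((ty_eq T (φ.h t • (x - ⟨fun k => z (n k) k, fun hh => absurd hh hfl⟩) +
      ∑ j, φ.H t j • ⟨fun k => y k j, fun hh => absurd hh hfl⟩) (c t)).2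
      ⟨fun k => g (n k) t k, g0 _ (hn' 0) t, fun hh => absurd hh hfl, fun k => ?_⟩)
    · rw [← Submodule.mkQ_apply _ (_ + _)]
      simp only [map_add, map_smul, map_sub, map_sum, Submodule.mkQ_apply]
    · exact Eq.trans (by simp [Finset.sum_apply]) (hy k t)
  obtain ⟨m, hm⟩ := (x.2 hfl).bddAbove
  have hx0 : ∀ k, m + 1 ≤ k → x.1 k = 0 := fun k hk => by_contra fun hh => by
    have := hm hh; omega
  obtain ⟨k1, k3, k', κ, a1, a3, a', hcol, hκ, hsub, hag, hlt⟩ := (hf' hfl).resolve_left hwo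
    (φ.ι → S) (fun k t => Δ.q (g (n k) t k * ρ (dd k))) (m + 1)
  let σ := Set.Icc (dd k1) (dd k')
  have hσ : σ ⊆ J := h.str.oc.out (H.deep k1).1 (H.deep k').1
  obtain ⟨hG, hlow⟩ := graphOK_right (σ := σ) h.str.oc (H.deep k1) (H.deep k3) hag hlt
    (Set.Icc_subset_Icc le_rfl hκ.le) (fun j hj => ⟨hσ hj, hj.1⟩) hsub H.sub
  obtain ⟨G, hGe⟩ := exists_graph (a := Δ.a) (b := Δ.b) hG
  let Fl : ℕ → φ.ι → St Δ.a Δ.b σ w := fun k t => g (n k) t k • ρ (dd k) • stE _ _ σ w (dd k)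
  have hseg : ∀ a b, m + 1 ≤ a → a ≤ b → (∀ j, s * dd a ≤ s * j → s * j ≤ s * dd b → j ∈ σ) →
      ∃ Z' ∈ stL Δ.a Δ.b σ w Γ0, Sol φ (-Z') fun t => Fl b t - Fl a t := by
    intro a b ha hab hσ'
    induction b, hab using Nat.le_induction with
    | base => exact ⟨0, zero_mem _, sol_zero.congr neg_zero fun t => sub_self _⟩
    | succ b hab ih =>
      obtain ⟨Z', hZ', hs⟩ := ih fun j j1 j2 => hσ' j j1 (j2.trans (H.lt b).le)
      obtain ⟨tr, htr'⟩ := htr σ b hσ fun j hj => Or.inl (hσ' j ((H.mono hab).trans hj.1) hj.2)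
      refine ⟨Z' + tr ((R b).lam (z (n b) b)), add_mem hZ' (tr_mem htr' (h5 b).1),
        (hs.add ((h5 b).2.map (tr.comp (R b).lam))).congr ?_ fun t => ?_⟩
      · rw [hx0 b (ha.trans hab), zero_sub, map_neg, neg_add]; rfl
      · simp only [Fl, hl, hr, LinearMap.comp_apply, map_sub, map_smul,
          (R b).deep h (sJ b) (H.deep _), htr' _ (H.left b), htr' _ (H.right b)]
        abel
  obtain ⟨Z', hZ', hs⟩ : ∃ Z' ∈ stL Δ.a Δ.b σ w Γ0, Sol φ (-Z') fun t => Fl k' t - Fl k1 t := by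
    rcases le_total k1 k' with hh | hh
    · exact hseg k1 k' a1 hh fun j j1 j2 => by
        constructor <;> rcases H.hs with rfl | rfl <;> omega
    · obtain ⟨Z', hZ', hs⟩ := hseg k' k1 a' hh fun j j1 j2 => by
        constructor <;> rcases H.hs with rfl | rfl <;> omega
      exact ⟨-Z', neg_mem hZ', hs.neg.congr rfl fun t => (neg_sub _ _).symm⟩
  obtain ⟨v, hv, hv'⟩ := io_sum T (Finset.range k3) x.1
  have hxv : v = x := Subtype.ext (funext fun k => by
    rw [hv']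
    split_ifs with hk
    exacts [rfl, (hx0 k (a3.trans (not_lt.1 fun hh => hk (Finset.mem_range.2 hh)))).symm])
  refine ⟨∑ k ∈ Finset.range k3, io T k (z (n k) k) + θ (G Z'), add_mem
    (sum_mem fun k _ => hio _ _ _ (h5 k).1) (map_stL_le (θ.comp G) (fun j hj hj' => ?_) hZ'),
    ((Sol.sum (Finset.range k3) fun k _ => (h5 k).2.map (io T k)).add
      (hs.map (θ.comp G))).congr ?_ fun t => ?_⟩
  · rw [LinearMap.comp_apply, hGe]
    split_ifs with hh
    · refine hmono _ _ (fun i hi => ?_) (hθL _)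
      obtain ⟨rfl, hi⟩ := hi
      exact h0 _ (H.sub hi) j hj (hσ hj') (pnt_lt_iff.2 (Or.inl (hlow j hh))).le
    · rw [map_zero]; exact zero_mem _
  · simp only [map_sub, map_neg, Finset.sum_sub_distrib, hv, hxv, LinearMap.comp_apply]
    abel
  · simp only [map_sub, map_smul, io_glue, Fl, LinearMap.comp_apply, hGe]
    rw [Finset.sum_range_sub fun k => g (n k) t k • io T k (T.l k 0), g0 _ (hn' 0),
      if_neg fun hh => absurd hh.2 (not_le.2 hκ), if_pos ⟨le_rfl, by omega⟩, add_sub_cancel,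
      hθ' k3 _ (H.left k3), map_zero, smul_zero, smul_zero, ← mul_smul,
      ← map_smul (io T k3) (_ * _), hcg k3 k3 (congrFun hcol t), mul_smul, (R k3).deep' h (sJ k3) (H.deep k3), ← hl]
    simp

end Main
end RS
end Pool.Agent.Lib.MP_c13fce_lc
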