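import Pool.Agent.Lib.MP_c13fce_lc.RS6

/-! Realisation of strings, part 7: gluing two ends to a finite centre. -/

namespace Pool.Agent.Lib.MP_c13fce_lc
open scoped BigOperators
open Filter
set_option linter.unusedSectionVars false

namespace RS

theorem mem_glueRel {R : Type} [Ring R] {L E : Pt R 1} {Z : Type} [AddCommGroup Z] [Module R Z]
    {l r : Z} {x : L.Y × Z × E.Y} : x ∈ glueRel L E Z (fun _ => l) (fun _ => r) ↔
      ∃ c c' : R, x.1 = c • L.y 0 ∧ x.2.1 = c' • r - c • l ∧ x.2.2 = -c' • E.y 0 := by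
  rw [glueRel, Set.range_unique, Set.range_unique, Set.singleton_union, Submodule.mem_span_pair]
  refine exists₂_congr fun c c' => ?_
  obtain ⟨x, y, z⟩ := x
  simp [eq_comm, sub_eq_neg_add]

section Main
variable {D Λ S : Type} [CommRing D] [IsDomain D] [IsPrincipalIdealRing D] [FinQ D] [Ring Λ]
  [Algebra D Λ] [Module.Finite D Λ] [Ring S] [Algebra D S] [Finite S] [IsSemisimpleRing S]
  {Δ : SD D Λ S} {J : Set ℤ} {w : ℤ → Bool} {e : S} {ρ : ℤ → Λ}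

theorem Part.step' {τ : Set ℤ} {d : ℤ} {c0 : Λ} {Y : Type} [AddCommGroup Y] [Module Λ Y] {y0 : Y}
    (P : Part Δ J w ρ τ d c0 Y y0) {C : Type} [AddCommGroup C] [Module Λ C] (i : Y →ₗ[Λ] C)
    {j : ℤ} (hj : j ∈ J) {x : C} (hx : j ∈ τ → x = i (P.θ (stE Δ.a Δ.b τ w j))) {a : Y}
    (ha : a ∈ P.L (insert j (low J w j))) :
    ∃ r : Λ, i a - r • x ∈ (P.L (low J w j)).map i := by
  obtain ⟨r, hr⟩ := P.step j hj a ha
  by_cases h : j ∈ τ
  · exact ⟨r, _, hr, by rw [map_sub, map_smul, hx h]⟩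
  · rw [stE_not_mem h, map_zero, smul_zero, sub_zero] at hr
    exact ⟨0, a, hr, by simp⟩

theorem glue (h : Ctx Δ J w e ρ) {dL dR : ℤ} (hL : Deep J w dL) (hR : Deep J w dR)
    (hle : dL ≤ dR) (EL : EndOK Δ J w ρ (J ∩ Set.Iic dL) dL 1)
    (ER : EndOK Δ J w ρ (J ∩ Set.Ici dR) dR 1) : ∃ C : ModuleCat.{0} Λ,
      Nice (algebraMap D Λ Δ.π) C ∧ ∀ φ ψ : PP Λ, ψ.Le φ → ind φ ψ C = Δ.wt φ ψ J w e := by
  classical
  obtain ⟨A, hA, ⟨PA⟩⟩ := EL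
  obtain ⟨B, hB, ⟨PB⟩⟩ := ER
  have hσ : Set.Icc dL dR ⊆ J := h.str.oc.out hL.1 hR.1
  obtain ⟨Z, hZ, ⟨R⟩⟩ := h.exists_retP (Set.finite_Icc dL dR)
  let PZ := R.part h hσ Set.ordConnected_Icc (Set.finite_Icc dL dR).wellFoundedOn (d := 0)
    (Or.inl rfl)
  set l := R.θ (stE _ _ _ w dL) with hl
  set r := R.θ (stE _ _ _ w dR) with hr
  have yA : A.y 0 = PA.θ (stE _ _ _ w dL) := PA.θd.symm.trans (one_smul _ _)
  have yB : B.y 0 = PB.θ (stE _ _ _ w dR) := PB.θd.symm.trans (one_smul _ _)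
  let π := (glueRel A B Z (fun _ => l) fun _ => r).mkQ
  let iA := π.comp (LinearMap.inl Λ _ _)
  let iZ := (π.comp (LinearMap.inr Λ _ _)).comp (LinearMap.inl Λ _ _)
  let iB := (π.comp (LinearMap.inr Λ _ _)).comp (LinearMap.inr Λ _ _)
  have hπ : ∀ a z b, iA a + iZ z + iB b = π (a, z, b) := fun a z b => by
    simp only [iA, iZ, iB, LinearMap.comp_apply, ← map_add]
    simp
  have hπ0 : ∀ x, π x = 0 ↔ ∃ c c' : Λ, x.1 = c • A.y 0 ∧ x.2.1 = c' • r - c • l ∧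
      x.2.2 = -c' • B.y 0 := fun x => (Submodule.Quotient.mk_eq_zero _).trans mem_glueRel
  have gA : iA (A.y 0) = iZ l := by
    have := (hπ _ _ _).trans ((hπ0 (A.y 0, -l, 0)).2 ⟨1, 0, by simp⟩)
    rwa [map_zero, add_zero, map_neg, add_neg_eq_zero] at this
  have gB : iZ r = iB (B.y 0) := by
    have := (hπ _ _ _).trans ((hπ0 (0, r, -B.y 0)).2 ⟨0, 1, by simp⟩)
    rwa [map_zero, zero_add, map_neg, add_neg_eq_zero] at this
  have eA : ∀ j i, j ≤ dL → Eg w j i → i ∈ J → i ≤ dL := fun j i hj he hi => by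
    have : j ≠ dL := fun hh => deep_not hL (hh ▸ he) hi
    have := he.near
    omega
  have eB : ∀ j i, dR ≤ j → Eg w j i → i ∈ J → dR ≤ i := fun j i hj he hi => by
    have : j ≠ dR := fun hh => deep_not hR (hh ▸ he) hi
    have := he.near
    omega
  have eZ : ∀ j i, j ∈ Set.Icc dL dR → Eg w j i → i ∈ J → i ∈ Set.Icc dL dR :=
    fun j i hj he hi => by
      have : j ≠ dL := fun hh => deep_not hL (hh ▸ he) hi
      have : j ≠ dR := fun hh => deep_not hR (hh ▸ he) hi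
      have := he.near
      obtain ⟨h1, h2⟩ := hj
      constructor <;> omega
  let X := fun j => if j ≤ dL then iA (PA.θ (stE _ _ _ w j)) else
    if j ≤ dR then iZ (R.θ (stE _ _ _ w j)) else iB (PB.θ (stE _ _ _ w j))
  have xA : ∀ j, j ≤ dL → iA (PA.θ (stE _ _ _ w j)) = X j := fun j hj => (if_pos hj).symm
  have xZ : ∀ j ∈ Set.Icc dL dR, iZ (R.θ (stE _ _ _ w j)) = X j := fun j hj => by
    rcases hj.1.lt_or_eq with hh | rfl
    · simp only [X, if_neg (not_le.2 hh), if_pos hj.2]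
    · rw [← xA _ le_rfl, ← yA, gA]
  have xB : ∀ j, dR ≤ j → iB (PB.θ (stE _ _ _ w j)) = X j := fun j hj => by
    rcases hj.lt_or_eq with hh | rfl
    · simp only [X, if_neg (not_le.2 hh), if_neg (not_le.2 (hle.trans_lt hh))]
    · rw [← xZ _ ⟨hle, le_rfl⟩, ← yB, gB]
  have x0 : ∀ j, j ∉ J → X j = 0 := fun j hj => by
    simp only [X, stE_not_mem (J := J ∩ Set.Iic dL) fun hh => hj hh.1,
      stE_not_mem (J := J ∩ Set.Ici dR) fun hh => hj hh.1, stE_not_mem fun hh => hj (hσ hh),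
      map_zero, ite_self]
  have tri : ∀ j, j ≤ dL ∨ j ∈ Set.Icc dL dR ∨ dR ≤ j := fun j => by rw [Set.mem_Icc]; omega
  obtain ⟨θ, hθ⟩ := exists_stLift (traj_of_pieces (a := Δ.a) (b := Δ.b) (w := w) x0 fun j hj => by
    rcases tri j with h1 | h1 | h1
    · refine ⟨_, iA.comp PA.θ, ⟨hj, h1⟩, xA j h1, fun i he => ?_⟩
      by_cases hi : i ∈ J
      exacts [xA i (eA j i h1 he hi), by rw [x0 i hi, stE_not_mem fun hh => hi hh.1, map_zero]]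
    · refine ⟨_, iZ.comp R.θ, h1, xZ j h1, fun i he => ?_⟩
      by_cases hi : i ∈ J
      exacts [xZ i (eZ j i h1 he hi), by rw [x0 i hi, stE_not_mem fun hh => hi (hσ hh), map_zero]]
    · refine ⟨_, iB.comp PB.θ, ⟨hj, h1⟩, xB j h1, fun i he => ?_⟩
      by_cases hi : i ∈ J
      exacts [xB i (eB j i h1 he hi), by rw [x0 i hi, stE_not_mem fun hh => hi hh.1, map_zero]])
  let L := fun Γ => (PA.L Γ).map iA ⊔ (R.L Γ).map iZ ⊔ (PB.L Γ).map iB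
  have hLm : ∀ Γ x, x ∈ L Γ ↔ ∃ a ∈ PA.L Γ, ∃ z ∈ R.L Γ, ∃ b ∈ PB.L Γ,
      iA a + iZ z + iB b = x := fun Γ x => by
    simp only [L, Submodule.mem_sup, Submodule.mem_map]
    constructor
    · rintro ⟨_, ⟨_, ⟨a, ha, rfl⟩, _, ⟨z, hz, rfl⟩, rfl⟩, _, ⟨b, hb, rfl⟩, rfl⟩
      exact ⟨a, ha, z, hz, b, hb, rfl⟩
    · rintro ⟨a, ha, z, hz, b, hb, rfl⟩
      exact ⟨_, ⟨_, ⟨a, ha, rfl⟩, _, ⟨z, hz, rfl⟩, rfl⟩, _, ⟨b, hb, rfl⟩, rfl⟩
  have mA : ∀ Γ, (PA.L Γ).map iA ≤ L Γ := fun Γ => le_sup_of_le_left le_sup_left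
  have mZ : ∀ Γ, (R.L Γ).map iZ ≤ L Γ := fun Γ => le_sup_of_le_left le_sup_right
  have mB : ∀ Γ, (PB.L Γ).map iB ≤ L Γ := fun Γ => le_sup_right
  refine ⟨ModuleCat.of Λ (Glue A B Z (fun _ => l) fun _ => r), ⟨1, A, B, Z, _, _, hZ, _, _, hA, hB,
    ⟨LinearEquiv.refl _ _⟩⟩, Part.count h (d := 0) (c0 := 0) (y0 := 0) ⟨θ, zero_smul _ _, L,
      fun Γ Γ' hh => ?_, fun j => ?_, ?_, ?_, fun j hj x hx => ?_, fun j hj => ?_,
      fun Γ x hx => ?_, fun F hF => ?_, fun φ c x 𝒰 Γ Γ0 h1 h0 h2 h3 => ?_⟩⟩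
  · exact sup_le_sup (sup_le_sup (Submodule.map_mono (PA.mono _ _ fun i hi => hh ⟨hi.1, hi.2.1⟩))
      (Submodule.map_mono (R.mono fun i hi => hh ⟨hi.1, hσ hi.2⟩)))
      (Submodule.map_mono (PB.mono _ _ fun i hi => hh ⟨hi.1, hi.2.1⟩))
  · rw [hθ]
    rcases tri j with h1 | h1 | h1
    exacts [mA _ ⟨_, PA.θL j, xA j h1⟩, mZ _ ⟨_, PZ.θL j, xZ j h1⟩, mB _ ⟨_, PB.θL j, xB j h1⟩]
  · refine eq_top_iff.2 fun x _ => ?_
    obtain ⟨⟨a, z, b⟩, rfl⟩ := Submodule.mkQ_surjective _ x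
    exact (hLm _ _).2 ⟨a, PA.mono _ _ (fun i hi => hi.2.1) (by rw [PA.top]; trivial), z,
      R.mono (fun i hi => hσ hi.1) (by rw [R.top]; trivial), b,
      PB.mono _ _ (fun i hi => hi.2.1) (by rw [PB.top]; trivial), hπ a z b⟩
  · simp only [L, PA.bot, PB.bot, R.bot, Submodule.map_bot, sup_idem]
  · obtain ⟨a, ha, z, hz, b, hb, rfl⟩ := (hLm _ _).1 hx
    obtain ⟨r1, h1⟩ := PA.step' iA hj (fun hh => (xA j hh.2).symm) ha
    obtain ⟨r2, h2⟩ := PZ.step' iZ hj (fun hh => (xZ j hh).symm) hz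
    obtain ⟨r3, h3⟩ := PB.step' iB hj (fun hh => (xB j hh.2).symm) hb
    refine ⟨r1 + r2 + r3, ?_⟩
    convert add_mem (add_mem (mA _ h1) (mZ _ h2)) (mB _ h3) using 1
    rw [hθ, add_smul, add_smul]
    abel
  · rw [hθ]
    rcases tri j with h1 | h1 | h1
    · exact mA _ ⟨_, PA.fix j hj, by rw [map_sub, map_smul, xA j h1]⟩
    · exact mZ _ ⟨_, R.fix h hσ hj, by rw [map_sub, map_smul, xZ j h1]⟩
    · exact mB _ ⟨_, PB.fix j hj, by rw [map_sub, map_smul, xB j h1]⟩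
  · obtain ⟨a, ha, z, hz, b, hb, rfl⟩ := (hLm _ _).1 hx
    obtain ⟨F1, h1, k1⟩ := PA.fin _ a ha
    obtain ⟨F2, h2, k2⟩ := PZ.fin _ z hz
    obtain ⟨F3, h3, k3⟩ := PB.fin _ b hb
    refine ⟨F1 ∪ F2 ∪ F3, fun i hi => ?_, (hLm _ _).2 ⟨a, PA.mono _ _ ?_ k1, z, R.mono ?_ k2, b,
      PB.mono _ _ ?_ k3, rfl⟩⟩
    · simp only [Finset.coe_union, Set.mem_union] at hi
      rcases hi with (hi | hi) | hi
      exacts [⟨(h1 hi).1, (h1 hi).2.1⟩, ⟨(h2 hi).1, hσ (h2 hi).2⟩, ⟨(h3 hi).1, (h3 hi).2.1⟩]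
    all_goals exact fun i ⟨⟨j, hj, hij⟩, _⟩ => ⟨j, by simp [hj], hij⟩
  · obtain ⟨σA, a1, a2, a3, lA, a4, a5, a6⟩ := PA.win (insert dL (F.filter (· ≤ dL))) fun i hi => by
      simp only [Finset.coe_insert, Finset.coe_filter, Set.mem_insert_iff] at hi
      rcases hi with rfl | hi
      exacts [⟨hL.1, Set.self_mem_Iic⟩, ⟨hF hi.1, hi.2⟩]
    obtain ⟨σB, b1, b2, b3, lB, b4, b5, b6⟩ := PB.win (insert dR (F.filter (dR ≤ ·))) fun i hi => by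
      simp only [Finset.coe_insert, Finset.coe_filter, Set.mem_insert_iff] at hi
      rcases hi with rfl | hi
      exacts [⟨hR.1, Set.self_mem_Ici⟩, ⟨hF hi.1, hi.2⟩]
    have a0 : dL ∈ σA := a2 (by simp)
    have b0 : dR ∈ σB := b2 (by simp)
    let σ := σA ∪ Set.Icc dL dR ∪ σB
    have hσJ : σ ⊆ J := Set.union_subset (Set.union_subset (fun i hi => (a3 hi).1) hσ)
      fun i hi => (b3 hi).1
    have sA : ∀ i ∈ σ, i ≤ dL → i ∈ σA := by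
      rintro i ((hi | hi) | hi) h1
      exacts [hi, le_antisymm h1 hi.1 ▸ a0, le_antisymm h1 (hle.trans (b3 hi).2) ▸ a0]
    have sB : ∀ i ∈ σ, dR ≤ i → i ∈ σB := by
      rintro i ((hi | hi) | hi) h1
      exacts [le_antisymm h1 ((a3 hi).2.trans hle) ▸ b0, le_antisymm h1 hi.2 ▸ b0, hi]
    obtain ⟨tA, htA⟩ := exists_tr (a := Δ.a) (b := Δ.b) (w := w) (σ := σA) (σ' := σ)
      fun j i he hj hi => iff_of_true (sA i hi (eA j i (a3 hj).2 he (hσJ hi))) (.inl (.inl hj))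
    obtain ⟨tZ, htZ⟩ := exists_tr (a := Δ.a) (b := Δ.b) (w := w) (σ := Set.Icc dL dR) (σ' := σ)
      fun j i he hj hi => iff_of_true (eZ j i hj he (hσJ hi)) (.inl (.inr hj))
    obtain ⟨tB, htB⟩ := exists_tr (a := Δ.a) (b := Δ.b) (w := w) (σ := σB) (σ' := σ)
      fun j i he hj hi => iff_of_true (sB i hi (eB j i (b3 hj).2 he (hσJ hi))) (.inr hj)
    let lam := (glueRel A B Z (fun _ => l) fun _ => r).liftQ
      ((tA.comp lA).coprod ((tZ.comp R.lam).coprod (tB.comp lB))) fun x hx => by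
        obtain ⟨c, c', k1, k2, k3⟩ := mem_glueRel.1 hx
        simp only [LinearMap.mem_ker, LinearMap.coprod_apply, LinearMap.comp_apply, k1, k2, k3,
          map_smul, map_sub, a6, b6, hl, hr, R.deep h hσ hL, R.deep h hσ hR, one_mul, htA _ a0,
          htB _ b0, htZ _ ⟨le_rfl, hle⟩, htZ _ ⟨hle, le_rfl⟩, neg_smul, map_neg]
        abel
    have nA : ∀ a, lam (iA a) = tA (lA a) := fun a => by simp [lam, iA, π]
    have nZ : ∀ a, lam (iZ a) = tZ (R.lam a) := fun a => by simp [lam, iZ, π]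
    have nB : ∀ a, lam (iB a) = tB (lB a) := fun a => by simp [lam, iB, π]
    refine ⟨σ, ⟨fun x hx y hy z hz => ?_⟩, fun j hj => ?_, hσJ, lam, fun Γ x hx => ?_,
      fun j hj => ?_, by rw [map_zero, zero_mul, zero_smul]⟩
    · rcases tri z with h1 | h1 | h1
      exacts [.inl (.inl (a1.out (sA x hx (hz.1.trans h1)) a0 ⟨hz.1, h1⟩)), .inl (.inr h1),
        .inr (b1.out b0 (sB y hy (h1.trans hz.2)) ⟨h1, hz.2⟩)]
    · rcases tri j with h1 | h1 | h1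
      exacts [.inl (.inl (a2 (by simp [Finset.mem_coe.1 hj, h1]))), .inl (.inr h1),
        .inr (b2 (by simp [Finset.mem_coe.1 hj, h1]))]
    · obtain ⟨a, ha, z, hz, b, hb, rfl⟩ := (hLm _ _).1 hx
      rw [map_add, map_add, nA, nZ, nB]
      exact add_mem (add_mem (tr_mem htA (a4 _ a ha)) (tr_mem htZ hz)) (tr_mem htB (b4 _ b hb))
    · rw [hθ]
      rcases tri j with h1 | h1 | h1
      · rw [← xA j h1, nA, ← htA j (sA j hj h1), ← map_smul, ← map_sub]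
        exact tr_mem htA (a5 j (sA j hj h1))
      · rw [← xZ j h1, nZ, ← htZ j h1, ← map_smul, ← map_sub]
        exact tr_mem htZ (R.near h hσ (hσJ hj))
      · rw [← xB j h1, nB, ← htB j (sB j hj h1), ← map_smul, ← map_sub]
        exact tr_mem htB (b5 j (sB j hj h1))
  obtain ⟨⟨xa, xz, xb⟩, rfl⟩ := Submodule.mkQ_surjective _ x
  let Q := fun i (z : Z) (c c' : φ.ι → Λ) => z ∈ R.L (Γ i) ∧
    (∃ a ∈ PA.L (Γ i), Sol φ (xa - a) fun t => c t • A.y 0) ∧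
    (Sol φ (xz - z) fun t => c' t • r - c t • l) ∧
    ∃ b ∈ PB.L (Γ i), Sol φ (xb - b) fun t => -c' t • B.y 0
  have h4 : ∀ᶠ i in (𝒰 : Filter ℤ), ∃ z c c', Q i z c c' := h3.mono fun i ⟨u, hu, hs⟩ => by
    obtain ⟨a, ha, z, hz, b, hb, rfl⟩ := (hLm _ _).1 hu
    obtain ⟨y, hy⟩ := hs
    rw [hπ] at hy
    obtain ⟨y, hy⟩ := (φ.mem_of_surj π (Submodule.mkQ_surjective _) ((xa, xz, xb) - (a, z, b))).1
      ⟨y, fun t => by rw [map_sub]; exact (hy t).trans (smul_zero _)⟩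
    choose c c' k1 k2 k3 using fun t => (hπ0 _).1 (hy t)
    exact ⟨z, c, c', hz, ⟨a, ha, fun k => (y k).1, fun t => Eq.trans (by simp [Prod.fst_sum])
      (k1 t)⟩, ⟨fun k => (y k).2.1, fun t => Eq.trans (by simp [Prod.fst_sum, Prod.snd_sum])
      (k2 t)⟩, b, hb, fun k => (y k).2.2, fun t => Eq.trans (by simp [Prod.snd_sum]) (k3 t)⟩
  choose! z cA cB hQ using fun i (hi : ∃ z c c', Q i z c c') => hi
  obtain ⟨lm, hlm⟩ := ultra_const 𝒰 fun i => (z i, fun t => (Δ.q (cA i t), Δ.q (cB i t)))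
  obtain ⟨n, ⟨n1, n2⟩, n3⟩ := ((hlm.and h4).and
    (ev_sub (Set.finite_Icc dL dR).wellFoundedOn hσ h1 h2)).exists
  have h5 : ∀ᶠ i in (𝒰 : Filter ℤ), (∀ t, Δ.q (cA n t) = Δ.q (cA i t) ∧
      Δ.q (cB n t) = Δ.q (cB i t)) ∧ Q i (z i) (cA i) (cB i) := (hlm.and h4).mono fun i hi =>
    ⟨fun t => Prod.ext_iff.1 (congrFun (Prod.ext_iff.1 (n1.trans hi.1.symm)).2 t), hQ i hi.2⟩
  obtain ⟨a, ha, sa⟩ := PA.lim φ (cA n) xa 𝒰 Γ Γ0 h1 h0 h2 (h5.mono fun i ⟨k1, _, ⟨a, ha, k2⟩, _⟩ =>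
    ⟨a, ha, k2.congr rfl fun t => by
      rw [yA, ← map_smul, ← map_smul, deep_congr (fun _ hh => hh.1) (k1 t).1 hL]⟩)
  obtain ⟨b, hb, sb⟩ := PB.lim φ (fun t => -cB n t) xb 𝒰 Γ Γ0 h1 h0 h2
    (h5.mono fun i ⟨k1, _, _, _, b, hb, k2⟩ => ⟨b, hb, k2.congr rfl fun t => by
      rw [yB, neg_smul, neg_smul, ← map_smul, ← map_smul,
        deep_congr (fun _ hh => hh.1) (k1 t).2 hR]⟩)
  obtain ⟨k1, -, k2, -⟩ := hQ n n2
  refine ⟨_, (hLm _ _).2 ⟨a, ha, z n, R.mono n3 k1, b, hb, rfl⟩,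
    (((sa.map iA).add (k2.map iZ)).add (sb.map iB)).congr ?_ fun t => ?_⟩
  · rw [map_sub, map_sub, map_sub]
    exact (congrArg (· - _) (hπ xa xz xb).symm).trans (by abel)
  · simp only [map_sub, map_smul, gA, gB, neg_smul, map_neg, smul_zero]
    abel

end Main
end RS
end Pool.Agent.Lib.MP_c13fce_lc
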