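import Pool.Agent.Lib.MP_c13fce_lc.Defs
import Mathlib.Tactic

namespace Pool.Agent.Lib.MP_c13fce_lc

open Function

/-- terms for positive primitive binary relations -/
inductive RT (I : Type) : Type
  | gr : I → RT I
  | zero : RT I
  | inv : RT I → RT I
  | comp : RT I → RT I → RT I
  | inf : RT I → RT I → RT I
  | add : RT I → RT I → RT I

namespace RT

variable {I J M M' : Type} [AddCommGroup M] [AddCommGroup M']

def sem (a : I → M →+ M) : RT I → M → M → Prop
  | gr i, x, y => y = a i x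
  | zero, _, y => y = 0
  | inv t, x, y => sem a t y x
  | comp t s, x, y => ∃ z, sem a t x z ∧ sem a s z y
  | inf t s, x, y => sem a t x y ∧ sem a s x y
  | add t s, x, y => ∃ y₁ y₂, sem a t x y₁ ∧ sem a s x y₂ ∧ y = y₁ + y₂

theorem sem_map {a : I → M →+ M} {a' : I → M' →+ M'} (f : M →+ M')
    (hf : ∀ i x, f (a i x) = a' i (f x)) (t : RT I) :
    ∀ x y, sem a t x y → sem a' t (f x) (f y) := by
  induction t with
  | gr i => rintro x y rfl; exact hf i x
  | zero => rintro x y rfl; exact map_zero f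
  | inv t ih => exact fun x y => ih y x
  | comp t s h1 h2 => rintro x y ⟨z, u, v⟩; exact ⟨f z, h1 _ _ u, h2 _ _ v⟩
  | inf t s h1 h2 => rintro x y ⟨u, v⟩; exact ⟨h1 _ _ u, h2 _ _ v⟩
  | add t s h1 h2 =>
    rintro x y ⟨y₁, y₂, u, v, rfl⟩; exact ⟨_, _, h1 _ _ u, h2 _ _ v, map_add f _ _⟩

theorem sem_zero (a : I → M →+ M) (t : RT I) : sem a t 0 0 := by
  induction t with
  | gr i => exact (map_zero _).symm
  | zero => rfl
  | inv t ih => exact ih
  | comp t s h1 h2 => exact ⟨0, h1, h2⟩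
  | inf t s h1 h2 => exact ⟨h1, h2⟩
  | add t s h1 h2 => exact ⟨0, 0, h1, h2, by simp⟩

theorem sem_add (a : I → M →+ M) (t : RT I) :
    ∀ x y x' y', sem a t x y → sem a t x' y' → sem a t (x + x') (y + y') := by
  induction t with
  | gr i => rintro x y x' y' rfl rfl; exact (map_add _ _ _).symm
  | zero => rintro x y x' y' rfl rfl; exact add_zero _
  | inv t ih => exact fun x y x' y' => ih y x y' x'
  | comp t s h1 h2 =>
    rintro x y x' y' ⟨z, u, v⟩ ⟨z', u', v'⟩; exact ⟨_, h1 _ _ _ _ u u', h2 _ _ _ _ v v'⟩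
  | inf t s h1 h2 =>
    rintro x y x' y' ⟨u, v⟩ ⟨u', v'⟩; exact ⟨h1 _ _ _ _ u u', h2 _ _ _ _ v v'⟩
  | add t s h1 h2 =>
    rintro x y x' y' ⟨y₁, y₂, u, v, rfl⟩ ⟨z₁, z₂, u', v', rfl⟩
    exact ⟨_, _, h1 _ _ _ _ u u', h2 _ _ _ _ v v', by abel⟩

theorem sem_sum (a : I → M →+ M) (t : RT I) {ι : Type} (S : Finset ι) (x y : ι → M)
    (h : ∀ i ∈ S, sem a t (x i) (y i)) : sem a t (∑ i ∈ S, x i) (∑ i ∈ S, y i) := by
  classical
  induction S using Finset.induction_on with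
  | empty => simpa using sem_zero a t
  | insert i S hi ih =>
    rw [Finset.sum_insert hi, Finset.sum_insert hi]
    exact sem_add a t _ _ _ _ (h i (by simp)) (ih fun j hj => h j (by simp [hj]))

def subst (σ : J → RT I) (z : RT I) : RT J → RT I
  | gr j => σ j
  | zero => z
  | inv t => inv (subst σ z t)
  | comp t s => comp (subst σ z t) (subst σ z s)
  | inf t s => inf (subst σ z t) (subst σ z s)
  | add t s => add (subst σ z t) (subst σ z s)

theorem subst_pull {a : I → M →+ M} {a' : J → M' →+ M'} {σ : J → RT I} {z : RT I} (τ : M →+ M')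
    (hτ : Surjective τ) (h1 : ∀ j x y, sem a (σ j) x y ↔ τ y = a' j (τ x))
    (h2 : ∀ x y, sem a z x y ↔ τ y = 0) (t : RT J) :
    ∀ x y, sem a (subst σ z t) x y ↔ sem a' t (τ x) (τ y) := by
  induction t with
  | gr j => exact h1 j
  | zero => exact h2
  | inv t ih => exact fun x y => ih y x
  | comp t s i1 i2 =>
    intro x y
    simp only [subst, sem, i1, i2]
    exact (hτ.exists (p := fun z => sem a' t (τ x) z ∧ sem a' s z (τ y))).symm
  | inf t s i1 i2 => intro x y; simp only [subst, sem, i1, i2]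
  | add t s i1 i2 =>
    intro x y
    simp only [subst, sem, i1, i2]
    constructor
    · rintro ⟨y₁, y₂, u, v, rfl⟩; exact ⟨_, _, u, v, map_add _ _ _⟩
    · rintro ⟨y₁, y₂, u, v, e⟩
      obtain ⟨y₁, rfl⟩ := hτ y₁
      exact ⟨y₁, y - y₁, u, by simpa [e] using v, by abel⟩

theorem subst_null {a : I → M →+ M} {σ : J → RT I} {z : RT I} (ψ : M → Prop) (h0 : ψ 0)
    (h1 : ∀ j x y, ψ x → ψ y → sem a (σ j) x y) (h2 : ∀ x y, ψ x → ψ y → sem a z x y) (t : RT J) :
    ∀ x y, ψ x → ψ y → sem a (subst σ z t) x y := by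
  induction t with
  | gr j => exact h1 j
  | zero => exact h2
  | inv t ih => exact fun x y u v => ih y x v u
  | comp t s i1 i2 => exact fun x y u v => ⟨x, i1 _ _ u u, i2 _ _ u v⟩
  | inf t s i1 i2 => exact fun x y u v => ⟨i1 _ _ u v, i2 _ _ u v⟩
  | add t s i1 i2 => exact fun x y u v => ⟨y, 0, i1 _ _ u v, i2 _ _ u h0, by simp⟩

theorem subst_dom {a : I → M →+ M} {σ : J → RT I} {z : RT I} (φ : M → Prop)
    (h0 : ∀ x y, φ x → φ y → φ (x + y))
    (h1 : ∀ j x y, sem a (σ j) x y → φ x ∧ φ y) (h2 : ∀ x y, sem a z x y → φ x ∧ φ y) (t : RT J) :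
    ∀ x y, sem a (subst σ z t) x y → φ x ∧ φ y := by
  induction t with
  | gr j => exact h1 j
  | zero => exact h2
  | inv t ih => exact fun x y u => (ih y x u).symm
  | comp t s i1 i2 => rintro x y ⟨w, u, v⟩; exact ⟨(i1 _ _ u).1, (i2 _ _ v).2⟩
  | inf t s i1 i2 => exact fun x y u => i1 _ _ u.1
  | add t s i1 i2 =>
    rintro x y ⟨y₁, y₂, u, v, rfl⟩; exact ⟨(i1 _ _ u).1, h0 _ _ (i1 _ _ u).2 (i2 _ _ v).2⟩

def top : RT I := comp zero (inv zero)

@[simp] theorem sem_top (a : I → M →+ M) (x y : M) : sem a top x y := ⟨0, rfl, rfl⟩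

def ker (t : RT I) : RT I := comp (inf t zero) top

@[simp] theorem sem_ker (a : I → M →+ M) (t : RT I) (x y : M) :
    sem a (ker t) x y ↔ sem a t x 0 := by
  simp [ker, sem]

end RT

section Syntax

variable {R : Type}

def Fm.and (φ ψ : Fm R) : Fm R := .not (.imp φ (.not ψ))

def Fm.ex (i : ℕ) (φ : Fm R) : Fm R := .not (.all i (.not φ))

def Fm.sub (i j : ℕ) (φ : Fm R) : Fm R := .ex i (.and (.eq (.var i) (.var j)) φ)

def Fm.comp (φ ψ : Fm R) : Fm R := .ex 2 (.and (.sub 1 2 φ) (.sub 0 2 ψ))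

def RT.fm {I : Type} (val : I → R) : RT I → Fm R
  | .gr i => .eq (.var 1) (.smul (val i) (.var 0))
  | .zero => .eq (.var 1) .zero
  | .inv t => .sub 2 0 (.sub 0 1 (.sub 1 2 (t.fm val)))
  | .comp t s => .comp (t.fm val) (s.fm val)
  | .inf t s => .and (t.fm val) (s.fm val)
  | .add t s => .ex 2 (.ex 3 (.and (.sub 1 2 (t.fm val)) (.and (.sub 1 3 (s.fm val))
      (.eq (.var 1) (.add (.var 2) (.var 3))))))

theorem RT.fm_free {I : Type} (val : I → R) (t : RT I) : ∀ i ∈ (t.fm val).free, i = 0 ∨ i = 1 := by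
  induction t <;>
    simp only [RT.fm, Fm.comp, Fm.sub, Fm.ex, Fm.and, Fm.free, Tm.vars, Finset.mem_union,
      Finset.mem_erase, Finset.mem_singleton, Finset.notMem_empty] <;> grind

variable [Ring R] {M : Type} [AddCommGroup M] [Module R M]

@[simp] theorem Fm.sat_and (φ ψ : Fm R) (v : ℕ → M) : (φ.and ψ).Sat v ↔ φ.Sat v ∧ ψ.Sat v := by
  simp [Fm.and, Fm.Sat]

@[simp] theorem Fm.sat_ex (i : ℕ) (φ : Fm R) (v : ℕ → M) :
    (φ.ex i).Sat v ↔ ∃ x, φ.Sat (update v i x) := by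
  simp [Fm.ex, Fm.Sat]

theorem Fm.sat_sub {i j : ℕ} (h : j ≠ i) (φ : Fm R) (v : ℕ → M) :
    (φ.sub i j).Sat v ↔ φ.Sat (update v i (v j)) := by
  simp [Fm.sub, Fm.Sat, Tm.val, update_of_ne h]

theorem RT.fm_sat {I : Type} (val : I → R) (a : I → M →+ M) (h : ∀ i x, val i • x = a i x)
    (t : RT I) : ∀ v : ℕ → M, (t.fm val).Sat v ↔ t.sem a (v 0) (v 1) := by
  induction t with
  | gr i => intro v; simp [RT.fm, Fm.Sat, Tm.val, RT.sem, h]
  | zero => intro v; simp [RT.fm, Fm.Sat, Tm.val, RT.sem]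
  | inv t ih => intro v; simp [RT.fm, Fm.sat_sub, RT.sem, ih]
  | comp t s h1 h2 => intro v; simp [RT.fm, Fm.comp, Fm.sat_sub, RT.sem, h1, h2]
  | inf t s h1 h2 => intro v; simp [RT.fm, RT.sem, h1, h2]
  | add t s h1 h2 => intro v; simp [RT.fm, Fm.sat_sub, RT.sem, h1, h2, Fm.Sat, Tm.val]

omit [Ring R] in
theorem Tm.code_inj {c : R → ℕ} (hc : Injective c) : ∀ s t : Tm R, s.code c = t.code c → s = t := by
  intro s
  induction s <;> intro t <;> cases t <;> simp [Tm.code, Nat.pair_eq_pair, hc.eq_iff] <;> grind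

omit [Ring R] in
theorem Fm.code_inj {c : R → ℕ} (hc : Injective c) : ∀ s t : Fm R, s.code c = t.code c → s = t := by
  have := Tm.code_inj hc
  intro s
  induction s <;> intro t <;> cases t <;> simp [Fm.code, Nat.pair_eq_pair] <;> grind

end Syntax

end Pool.Agent.Lib.MP_c13fce_lc
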