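import Pool.Agent.Lib.MP_c13fce_lc.DualB
import Pool.Agent.Lib.MP_c13fce_lc.GlobNice

/-! Realisation of bands, part 1: the coefficient module. -/

namespace Pool.Agent.Lib.MP_c13fce_lc
open scoped BigOperators

namespace RB

theorem exists_idem_pow {M : Type} [Monoid M] [Finite M] (f : M) :
    ∃ N : ℕ, f ^ (N + 1) * f ^ (N + 1) = f ^ (N + 1) := by
  obtain ⟨a, b, hab, h⟩ := Finite.exists_ne_map_eq_of_infinite (fun k : ℕ => f ^ k)
  wlog hlt : a < b generalizing a b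
  · exact this b a hab.symm h.symm (by omega)
  obtain ⟨c, rfl⟩ := Nat.exists_eq_add_of_lt hlt
  have key : ∀ t k, f ^ (a + k + t * (c + 1)) = f ^ (a + k) := by
    intro t k
    induction t with
    | zero => simp
    | succ t ih =>
      rw [show a + k + (t + 1) * (c + 1) = (a + c + 1) + (k + t * (c + 1)) by ring, pow_add]
      rw [← h, ← pow_add, ← add_assoc, ih]
  refine ⟨a + c + a * c, ?_⟩
  rw [← pow_add, show a + c + a * c + 1 + (a + c + a * c + 1) =
    a + (c + a * c + 1) + (a + 1) * (c + 1) by ring, key]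
  congr 1; ring

variable {D Λ S : Type} [CommRing D] [IsDomain D] [Ring Λ] [Algebra D Λ] [Ring S] [Algebra D S]

/-- The coefficient module: a summand of a power of a string module with coefficients in `W`. -/
structure ZD (Δ : SD D Λ S) (J : Set ℤ) (w : ℤ → Bool) (W : Type) [AddCommGroup W]
    [Module S W] : Type 1 where
  n : ℕ
  Z : Type
  [acg : AddCommGroup Z]
  [mod : Module Λ Z]
  [fin : Finite Z]
  j : W →ₗ[S] (Fin n → S)
  ret : (Fin n → S) →ₗ[S] W
  ret_j : ∀ x, ret (j x) = x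
  p : Fin n → Z →ₗ[Λ] St Δ.a Δ.b J w
  g : W → St Δ.a Δ.b J w →ₗ[Λ] Z
  g0 : g 0 = 0
  pg : ∀ x m i, ∃ ρ, Δ.q ρ = Δ.tw w i (j x m) ∧
    p m (g x (stE Δ.a Δ.b J w i)) = ρ • stE Δ.a Δ.b J w i
  ω : Fin n → W
  sum : ∀ z, z = ∑ m, g (ω m) (p m z)

attribute [instance] ZD.acg ZD.mod ZD.fin

theorem exists_ZD [IsPrincipalIdealRing D] [FinQ D] [Module.Finite D Λ] [Finite S]
    [IsSemisimpleRing S] (Δ : SD D Λ S) {J : Set ℤ} (hJ : J.Finite) (w : ℤ → Bool) (W : Type)
    [AddCommGroup W] [Module S W] [Finite W] : Nonempty (ZD Δ J w W) := by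
  classical
  have := Δ.finite_St (w := w) hJ
  obtain ⟨n, ret, hret⟩ := Module.Finite.exists_fin' S W
  have := Module.projective_of_isSemisimpleRing S W
  obtain ⟨j, hj⟩ := ret.exists_rightInverse_of_surjective (LinearMap.range_eq_top.2 hret)
  have hj' : ∀ x, ret (j x) = x := fun x => LinearMap.congr_fun hj x
  have hR : ∀ s : S, ∃ R : St Δ.a Δ.b J w →ₗ[Λ] St Δ.a Δ.b J w, (s = 0 → R = 0) ∧
      ∀ i, ∃ ρ, Δ.q ρ = Δ.tw w i s ∧ R (stE Δ.a Δ.b J w i) = ρ • stE Δ.a Δ.b J w i := by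
    intro s
    by_cases hs : s = 0
    · exact ⟨0, fun _ => rfl, fun i => ⟨0, by simp [hs], by simp⟩⟩
    · obtain ⟨ρ, hρ⟩ := Δ.exists_fam w s
      obtain ⟨R, hR⟩ := exists_stLift (hρ.traj (traj_stE (J := J)))
      exact ⟨R, fun h => absurd h hs, fun i => ⟨ρ i, hρ.1 i, hR i⟩⟩
  choose R hR0 hR using hR
  let g0 : W → St Δ.a Δ.b J w →ₗ[Λ] (Fin n → St Δ.a Δ.b J w) :=
    fun x => LinearMap.pi fun m => R (j x m)
  let ω : Fin n → W := fun m => ret (Pi.single m 1)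
  let f : Module.End Λ (Fin n → St Δ.a Δ.b J w) := ∑ m, g0 (ω m) ∘ₗ LinearMap.proj m
  have hf : ∀ x, f x = ∑ m, g0 (ω m) (x m) := fun x => by simp [f]
  let Top : ℤ → (Fin n → S) → (Fin n → St Δ.a Δ.b J w) → Prop := fun i s x =>
    ∀ m, ∃ ρ, Δ.q ρ = Δ.tw w i (s m) ∧ x m = ρ • stE Δ.a Δ.b J w i
  have htop : ∀ i (y : W) x, Top i (j y) x → Top i (j y) (f x) := by
    intro i y x hx m'
    choose ρ hρ hx using hx
    choose ρ' hρ' hR' using fun m => hR (j (ω m) m') i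
    refine ⟨∑ m, ρ m * ρ' m, ?_, ?_⟩
    · have e1 : y = ∑ m, j y m • ω m := by
        conv_lhs => rw [← hj' y, pi_eq_sum_univ' (j y)]
        simp [ω, map_sum]
      conv_rhs => rw [e1]
      simp [map_sum, hρ, hρ']
    · rw [hf, Finset.sum_apply, Finset.sum_smul]
      refine Finset.sum_congr rfl fun m _ => ?_
      simp only [g0, LinearMap.pi_apply, hx, map_smul, hR', smul_smul]
  have htop' : ∀ (k : ℕ) i (y : W) x, Top i (j y) x → Top i (j y) ((f ^ k) x) := by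
    intro k i y x hx
    induction k with
    | zero => simpa using hx
    | succ k ih => rw [pow_succ', Module.End.mul_apply]; exact htop _ _ _ ih
  have : Finite (Module.End Λ (Fin n → St Δ.a Δ.b J w)) := DFunLike.finite _
  obtain ⟨N, hN⟩ := exists_idem_pow f
  refine ⟨{ n := n
            Z := LinearMap.range (f ^ (N + 1))
            j := j
            ret := ret
            ret_j := hj'
            p := fun m => LinearMap.proj m ∘ₗ Submodule.subtype _
            g := fun x => (f ^ (N + 1)).rangeRestrict ∘ₗ (f ^ N) ∘ₗ g0 x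
            g0 := ?_
            pg := ?_
            ω := ω
            sum := ?_ }⟩
  · have : g0 0 = 0 := by
      ext x m
      simp [g0, hR0 0 rfl]
    rw [this]; simp
  · intro x m i
    exact htop' (N + 1) i x _ (htop' N i x _ fun m => hR (j x m) i) m
  · rintro ⟨_, z, rfl⟩
    apply Subtype.ext
    simp only [LinearMap.comp_apply, Submodule.subtype_apply, LinearMap.proj_apply,
      AddSubmonoidClass.coe_finsetSum, LinearMap.rangeRestrict, LinearMap.codRestrict_apply]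
    rw [← map_sum, ← map_sum, ← hf, ← Module.End.mul_apply (f ^ N) f, ← pow_succ,
      ← Module.End.mul_apply, hN, ← Module.End.mul_apply, hN]

namespace ZD
variable {Δ : SD D Λ S} {J : Set ℤ} {w : ℤ → Bool} {W : Type} [AddCommGroup W] [Module S W]
  (Y : ZD Δ J w W)

theorem ext' {z z' : Y.Z} (h : ∀ m, Y.p m z = Y.p m z') : z = z' := by
  rw [Y.sum z, Y.sum z']; simp only [h]

theorem pg_mem (x : W) (m : Fin Y.n) {Γ : Set ℤ} {z : St Δ.a Δ.b J w}
    (hz : z ∈ stL Δ.a Δ.b J w Γ) : Y.p m (Y.g x z) ∈ stL Δ.a Δ.b J w Γ :=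
  map_stL_le (Y.p m ∘ₗ Y.g x) (fun i hi _ => by
    obtain ⟨ρ, -, h⟩ := Y.pg x m i
    rw [LinearMap.comp_apply, h]
    exact Submodule.smul_mem _ _ (Submodule.subset_span ⟨i, hi, rfl⟩)) hz

/-- Positions whose generator is killed by the radical. -/
def Dp (Δ : SD D Λ S) (J : Set ℤ) (w : ℤ → Bool) (i : ℤ) : Prop :=
  ∀ r, Δ.q r = 0 → r • stE Δ.a Δ.b J w i = 0

theorem Dp.congr {i : ℤ} (hi : Dp Δ J w i) {r r' : Λ} (h : Δ.q r = Δ.q r') :
    r • stE Δ.a Δ.b J w i = r' • stE Δ.a Δ.b J w i := by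
  rw [← sub_eq_zero, ← sub_smul]
  exact hi _ (by rw [map_sub, h, sub_self])

theorem p_io {i : ℤ} (hi : Dp Δ J w i) (x : W) (m : Fin Y.n) {ρ : Λ}
    (h : Δ.q ρ = Δ.tw w i (Y.j x m)) :
    Y.p m (Y.g x (stE Δ.a Δ.b J w i)) = ρ • stE Δ.a Δ.b J w i := by
  obtain ⟨ρ', h1, h2⟩ := Y.pg x m i
  rw [h2]; exact hi.congr (h1.trans h.symm)

/-- The embedding of the coefficients at a deep position. -/
noncomputable def io {i : ℤ} (hi : Dp Δ J w i) : W →+ Y.Z :=
  AddMonoidHom.mk' (fun x => Y.g x (stE Δ.a Δ.b J w i)) fun x y => Y.ext' fun m => by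
    obtain ⟨ρ, h1, h2⟩ := Y.pg x m i
    obtain ⟨ρ', h1', h2'⟩ := Y.pg y m i
    rw [map_add, h2, h2', ← add_smul]
    exact Y.p_io hi _ _ (by simp [h1, h1'])

theorem io_apply {i : ℤ} (hi : Dp Δ J w i) (x : W) :
    Y.io hi x = Y.g x (stE Δ.a Δ.b J w i) := rfl

theorem smul_io {i : ℤ} (hi : Dp Δ J w i) {c : Λ} {s : S} (h : Δ.q c = Δ.tw w i s) (x : W) :
    c • Y.io hi x = Y.io hi (s • x) := Y.ext' fun m => by
  obtain ⟨ρ, h1, h2⟩ := Y.pg x m i
  rw [map_smul, io_apply, h2, smul_smul, io_apply]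
  exact (Y.p_io hi _ _ (by simp [h, h1])).symm

end ZD

end RB

end Pool.Agent.Lib.MP_c13fce_lc
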