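import Pool.Agent.Lib.MP_c13fce_lc.RealBand1

/-! Realisation of bands, part 2: the invariants of a band module. -/

namespace Pool.Agent.Lib.MP_c13fce_lc
open scoped BigOperators

namespace RB

/-- The support condition of a kind. -/
def Sup (k : Fin 3) (A : Set ℕ) : Prop := (k = 0 → A ⊆ {0}) ∧ (k = 2 → A.Finite)

theorem Sup.mono {k : Fin 3} {A A' : Set ℕ} (h : Sup k A') (hA : A ⊆ A') : Sup k A :=
  ⟨fun hk => hA.trans (h.1 hk), fun hk => (h.2 hk).subset hA⟩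

theorem Sup.union {k : Fin 3} {A A' : Set ℕ} (h : Sup k A) (h' : Sup k A') : Sup k (A ∪ A') :=
  ⟨fun hk => Set.union_subset (h.1 hk) (h'.1 hk), fun hk => (h.2 hk).union (h'.2 hk)⟩

theorem Sup.iUnion {k : Fin 3} {ι : Type} [Finite ι] {A : ι → Set ℕ} (h : ∀ i, Sup k (A i)) :
    Sup k (⋃ i, A i) :=
  ⟨fun hk => Set.iUnion_subset fun i => (h i).1 hk,
    fun hk => Set.finite_iUnion fun i => (h i).2 hk⟩

theorem mem_C {S : Type} [Ring S] {τ : S → S} {X : BM S τ} {v : ℕ → X.W} :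
    v ∈ X.C ↔ Sup X.kind {k | v k ≠ 0} := by
  refine and_congr (forall_congr' fun _ => ⟨fun h k hk => ?_, fun h k => ?_⟩) Iff.rfl
  · cases k with
    | zero => rfl
    | succ k => exact absurd (h k) hk
  · by_contra hk
    exact absurd (h hk) (by simp)

theorem T_smul {S : Type} [Ring S] {τ : S → S} (X : BM S τ) (s : S) (v : X.C) :
    X.T (s • v) = τ s • X.T v := by
  ext k
  have : X.nb (s • v.1) k = s • X.nb v.1 k := by
    unfold BM.nb; split_ifs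
    · cases k <;> simp
    · rfl
  change X.T0 (s • v.1 k + X.nb (s • v.1) k) = τ s • X.T0 (v.1 k + X.nb v.1 k)
  rw [this, ← smul_add, X.semi]

/-- An index computed through a correspondence. -/
theorem eidx_eq_of_corr {M M' : Type} [AddCommGroup M] [AddCommGroup M']
    (G : AddSubgroup (M × M')) {A B : AddSubgroup M} {A' B' : AddSubgroup M'}
    (hA : ∀ x ∈ G, x.1 ∈ A ↔ x.2 ∈ A') (hB : ∀ x ∈ G, x.1 ∈ B ↔ x.2 ∈ B')
    (h1 : ∀ x ∈ A, ∃ y, (x, y) ∈ G) (h2 : ∀ y ∈ A', ∃ x, (x, y) ∈ G) :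
    eidx B A = eidx B' A' := by
  have e1 := eidx_eq_of_map (AddMonoidHom.fst M M') (A := G ⊓ A.comap (AddMonoidHom.fst M M'))
    (B := B.comap (AddMonoidHom.fst M M')) (A' := A) (B' := B) (fun x hx => hx.2)
    (fun _ _ => Iff.rfl) fun x hx => by
      obtain ⟨y, hy⟩ := h1 x hx
      exact ⟨(x, y), ⟨hy, hx⟩, by simp⟩
  have e2 := eidx_eq_of_map (AddMonoidHom.snd M M') (A := G ⊓ A.comap (AddMonoidHom.fst M M'))
    (B := B.comap (AddMonoidHom.fst M M')) (A' := A') (B' := B') (fun x hx => (hA x hx.1).1 hx.2)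
    (fun x hx => (hB x hx.1).symm) fun y hy => by
      obtain ⟨x, hx⟩ := h2 y hy
      exact ⟨(x, y), ⟨hx, (hA _ hx).2 hy⟩, by simp⟩
  rw [← e1, e2]

variable {D Λ S : Type} [CommRing D] [IsDomain D] [Ring Λ] [Algebra D Λ] [Ring S] [Algebra D S]

namespace ZD
variable {Δ : SD D Λ S} {J : Set ℤ} {w : ℤ → Bool} {W : Type} [AddCommGroup W] [Module S W]
  (Y : ZD Δ J w W)

/-- Pairs of a coefficient and an element with this leading coefficient. -/
def Tp (Γ : Set ℤ) (i : ℤ) : AddSubgroup (W × Y.Z) where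
  carrier := {x | ∀ m, ∃ ρ, Δ.q ρ = Δ.tw w i (Y.j x.1 m) ∧
    Y.p m x.2 - ρ • stE Δ.a Δ.b J w i ∈ stL Δ.a Δ.b J w Γ}
  zero_mem' := fun m => ⟨0, by simp, by simp⟩
  add_mem' := fun {x y} hx hy m => by
    obtain ⟨ρ, h1, h2⟩ := hx m
    obtain ⟨ρ', h1', h2'⟩ := hy m
    refine ⟨ρ + ρ', by simp [h1, h1'], ?_⟩
    have := add_mem h2 h2'
    rw [Prod.snd_add, map_add, add_smul]
    convert this using 1
    abel
  neg_mem' := fun {x} hx m => by
    obtain ⟨ρ, h1, h2⟩ := hx m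
    refine ⟨-ρ, by simp [h1], ?_⟩
    have := neg_mem h2
    rw [Prod.snd_neg, map_neg, neg_smul]
    convert this using 1
    abel

theorem tp_g (Γ : Set ℤ) (i : ℤ) (x : W) : (x, Y.g x (stE Δ.a Δ.b J w i)) ∈ Y.Tp Γ i := fun m => by
  obtain ⟨ρ, h1, h2⟩ := Y.pg x m i
  exact ⟨ρ, h1, by rw [h2, sub_self]; exact zero_mem _⟩

theorem tp_smul {Γ : Set ℤ} {i : ℤ} {x : W} {z : Y.Z} (h : (x, z) ∈ Y.Tp Γ i) {c : Λ} {s : S}
    (hc : Δ.q c = Δ.tw w i s) : (s • x, c • z) ∈ Y.Tp Γ i := fun m => by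
  obtain ⟨ρ, h1, h2⟩ := h m
  refine ⟨c * ρ, by simp [hc, h1], ?_⟩
  rw [map_smul, mul_smul, ← smul_sub]
  exact Submodule.smul_mem _ _ h2

theorem tp_low {Γ : Set ℤ} (i : ℤ) (x : W) {y : St Δ.a Δ.b J w} (hy : y ∈ stL Δ.a Δ.b J w Γ) :
    ((0 : W), Y.g x y) ∈ Y.Tp Γ i := fun m =>
  ⟨0, by simp, by simpa using Y.pg_mem x m hy⟩

end ZD

/-- The right word at a position of a band. -/
noncomputable def uw (w : ℤ → Bool) (j : ℤ) : Lex Wd := toLex (rwd Set.univ w j)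

variable {w : ℤ → Bool} {r : ℕ} {d : ℤ}

theorem per_mul (hw : IsBand w r d) (j : ℤ) (m : ℕ) : w (j + m * r) = w j := by
  induction m with
  | zero => simp
  | succ m ih => rw [← ih, ← hw.per (j + m * r)]; congr 1; push_cast; ring

theorem uw_per (hw : IsBand w r d) (j : ℤ) : uw w (j + r) = uw w j := by
  unfold uw; congr 1; funext k
  simp only [rwd, Set.mem_univ, if_true]
  rw [show j + r + k = j + k + r by ring, hw.per]

theorem uw_ne (hw : IsBand w r d) (j : ℤ) : uw w j ≠ uw w (j + 1) := by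
  intro h
  have h1 : ∀ k : ℕ, w (j + k) = w (j + 1 + k) := fun k => by
    have := congrFun (toLex.injective h) k
    simp only [rwd, Set.mem_univ, if_true] at this
    revert this
    cases w (j + k) <;> cases w (j + 1 + k) <;> simp
  have hr := hw.pos
  obtain ⟨k, hk⟩ : ∃ k : ℕ, j + k = d - 1 + ((j - d + 1).toNat : ℤ) * r := by
    refine ⟨(d - 1 + ((j - d + 1).toNat : ℤ) * r - j).toNat, ?_⟩
    have h2 : j - d + 1 ≤ ((j - d + 1).toNat : ℤ) := Int.self_le_toNat _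
    have h3 : ((j - d + 1).toNat : ℤ) * 1 ≤ ((j - d + 1).toNat : ℤ) * r :=
      mul_le_mul_of_nonneg_left (by exact_mod_cast hr) (by positivity)
    rw [Int.toNat_of_nonneg (by linarith)]; ring
  have := h1 k
  rw [hk, show j + 1 + k = d + ((j - d + 1).toNat : ℤ) * r by linarith, per_mul hw, per_mul hw,
    hw.left, hw.right] at this
  exact absurd this (by simp)

/-- Positions of one period below a word. -/
def ltS (w : ℤ → Bool) (r : ℕ) (d : ℤ) (u : Lex Wd) : Set ℤ :=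
  {j | j ∈ Set.Icc d (d + r) ∧ uw w j < u}

/-- Positions of one period weakly below a word. -/
def leS (w : ℤ → Bool) (r : ℕ) (d : ℤ) (u : Lex Wd) : Set ℤ :=
  {j | j ∈ Set.Icc d (d + r) ∧ uw w j ≤ u}

section
variable [IsPrincipalIdealRing D] [FinQ D] [Module.Finite D Λ] [Finite S] [IsSemisimpleRing S]
  (Δ : SD D Λ S)

theorem dp_of {J : Set ℤ} {i : ℤ} (h1 : w (i - 1) = false) (h2 : w i = true) : ZD.Dp Δ J w i := by
  intro ρ hρ
  have := stL_mono (Γ' := ∅) (by rintro j ⟨⟨-, h | h⟩, -⟩ <;> simp_all) (Δ.rad_smul_mem (J := J)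
    (w := w) hρ i)
  simpa [stL] using this

theorem dpL (hw : IsBand w r d) : ZD.Dp Δ (Set.Icc d (d + r)) w d := dp_of Δ hw.left hw.right

theorem dpR (hw : IsBand w r d) : ZD.Dp Δ (Set.Icc d (d + r)) w (d + r) :=
  dp_of Δ (by rw [show d + r - 1 = d - 1 + r by ring, hw.per, hw.left])
    (by rw [hw.per, hw.right])

theorem rad_lt (hw : IsBand w r d) {ρ : Λ} (hρ : Δ.q ρ = 0) (i : ℤ) :
    ρ • stE Δ.a Δ.b (Set.Icc d (d + r)) w i ∈
      stL Δ.a Δ.b (Set.Icc d (d + r)) w (ltS w r d (uw w i)) := by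
  refine stL_mono ?_ (Δ.rad_smul_mem hρ i)
  rintro j ⟨⟨hj, ⟨rfl, h⟩ | ⟨rfl, h⟩⟩, -⟩
  · refine ⟨hj, lt_of_le_of_ne ?_ ?_⟩
    · have := ((rwd_down (J := Set.univ) (w := w) Set.ordConnected_univ (Set.mem_univ (i - 1))
        (Set.mem_univ _)).1 h).1
      rwa [sub_add_cancel] at this
    · have := uw_ne hw (i - 1)
      rwa [sub_add_cancel] at this
  · exact ⟨hj, lt_of_le_of_ne ((rwd_down (J := Set.univ) (w := w) Set.ordConnected_univ
      (Set.mem_univ i) (Set.mem_univ _)).2 h).1 (uw_ne hw i).symm⟩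

omit [IsPrincipalIdealRing D] [FinQ D] [Module.Finite D Λ] [Finite S] [IsSemisimpleRing S] in
theorem le_decomp (hw : IsBand w r d) {i : ℤ} (hi : i ∈ Finset.Ico d (d + r))
    {y : St Δ.a Δ.b (Set.Icc d (d + r)) w}
    (hy : y ∈ stL Δ.a Δ.b (Set.Icc d (d + r)) w (leS w r d (uw w i))) :
    ∃ ρ ρ' : Λ, (i ≠ d → ρ' = 0) ∧ (y = 0 → ρ = 0 ∧ ρ' = 0) ∧
      y - ρ • stE Δ.a Δ.b (Set.Icc d (d + r)) w i - ρ' • stE Δ.a Δ.b (Set.Icc d (d + r)) w (d + r) ∈
        stL Δ.a Δ.b (Set.Icc d (d + r)) w (ltS w r d (uw w i)) := by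
  by_cases h0 : y = 0
  · exact ⟨0, 0, fun _ => rfl, fun _ => ⟨rfl, rfl⟩, by simp [h0]⟩
  suffices h : ∃ ρ ρ' : Λ, (i ≠ d → ρ' = 0) ∧
      y - ρ • stE Δ.a Δ.b (Set.Icc d (d + r)) w i - ρ' • stE Δ.a Δ.b (Set.Icc d (d + r)) w (d + r) ∈
        stL Δ.a Δ.b (Set.Icc d (d + r)) w (ltS w r d (uw w i)) by
    obtain ⟨ρ, ρ', h1, h2⟩ := h
    exact ⟨ρ, ρ', h1, fun h => absurd h h0, h2⟩
  clear h0
  induction hy using Submodule.span_induction with
  | mem x hx =>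
    obtain ⟨j, ⟨hj, hle⟩, rfl⟩ := hx
    rcases hle.lt_or_eq with hlt | heq
    · refine ⟨0, 0, fun _ => rfl, ?_⟩
      rw [zero_smul, zero_smul, sub_zero, sub_zero]
      exact Submodule.subset_span ⟨j, ⟨hj, hlt⟩, rfl⟩
    · rcases hj.2.lt_or_eq with hj2 | rfl
      · obtain rfl := hw.prim j (Finset.mem_Ico.2 ⟨hj.1, hj2⟩) i hi (toLex.injective heq)
        exact ⟨1, 0, fun _ => rfl, by simp⟩
      · rw [uw_per hw] at heq
        have := hw.prim d (Finset.mem_Ico.2 ⟨le_rfl, by have := hw.pos; omega⟩) i hi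
          (toLex.injective heq)
        exact ⟨0, 1, fun h => absurd this.symm h, by simp⟩
  | zero => exact ⟨0, 0, fun _ => rfl, by simp⟩
  | add x y _ _ hx hy =>
    obtain ⟨ρ, ρ', h1, h2⟩ := hx
    obtain ⟨η, η', h3, h4⟩ := hy
    refine ⟨ρ + η, ρ' + η', fun h => by simp [h1 h, h3 h], ?_⟩
    have := add_mem h2 h4
    rw [add_smul, add_smul]
    convert this using 1
    abel
  | smul c x _ hx =>
    obtain ⟨ρ, ρ', h1, h2⟩ := hx
    refine ⟨c * ρ, c * ρ', fun h => by simp [h1 h], ?_⟩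
    rw [mul_smul, mul_smul, ← smul_sub, ← smul_sub]
    exact Submodule.smul_mem _ _ h2

omit [IsPrincipalIdealRing D] [FinQ D] [Module.Finite D Λ] [Finite S] [IsSemisimpleRing S] in
theorem tw_twp (s : S) : Δ.tw w d (Δ.twp w r d s) = Δ.tw w (d + r) s := by
  unfold SD.tw SD.twp
  rw [← AlgEquiv.mul_apply, ← zpow_add]
  congr 2; ring

end

end RB

end Pool.Agent.Lib.MP_c13fce_lc
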