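import Pool.Agent.Lib.MP_c13fce_lc.RealBand2

/-! Realisation of bands, part 3: the invariants of a band module. -/

namespace Pool.Agent.Lib.MP_c13fce_lc
open scoped BigOperators

namespace RB

variable {D Λ S : Type} [CommRing D] [IsDomain D] [IsPrincipalIdealRing D] [FinQ D] [Ring Λ]
  [Algebra D Λ] [Module.Finite D Λ] [Ring S] [Algebra D S] [Finite S] [IsSemisimpleRing S]
  {w : ℤ → Bool} {r : ℕ} {d : ℤ}

/-- A presentation of the band module. -/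
structure BD (Δ : SD D Λ S) (hw : IsBand w r d) (X : BM S (Δ.twp w r d))
    (Y : ZD Δ (Set.Icc d (d + r)) w X.W) (B : Type) [AddCommGroup B] [Module Λ B] where
  Zs : Submodule Λ (ℕ → Y.Z)
  hZs : ∀ z, z ∈ Zs ↔ Sup X.kind {k | z k ≠ 0}
  π : Zs →ₗ[Λ] B
  surj : Function.Surjective π
  ker : ∀ z, π z = 0 ↔ ∃ v : X.C, ∀ k,
    z.1 k = Y.io (dpR Δ hw) (v.1 k) - Y.io (dpL Δ hw) ((X.T v).1 k)

namespace BD
variable {Δ : SD D Λ S} {hw : IsBand w r d} {X : BM S (Δ.twp w r d)}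
  {Y : ZD Δ (Set.Icc d (d + r)) w X.W} {B : Type} [AddCommGroup B] [Module Λ B]
  (E : BD Δ hw X Y B)

/-- The filtration. -/
def L (Γ : Set ℤ) : AddSubgroup B where
  carrier := {x | ∃ z : E.Zs, E.π z = x ∧
    ∀ k m, Y.p m (z.1 k) ∈ stL Δ.a Δ.b (Set.Icc d (d + r)) w Γ}
  zero_mem' := ⟨0, map_zero _, fun k m => by simp⟩
  add_mem' := by
    rintro _ _ ⟨z, rfl, hz⟩ ⟨z', rfl, hz'⟩
    exact ⟨z + z', map_add _ _ _, fun k m => by simpa using add_mem (hz k m) (hz' k m)⟩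
  neg_mem' := by
    rintro _ ⟨z, rfl, hz⟩
    exact ⟨-z, map_neg _ _, fun k m => by simpa using neg_mem (hz k m)⟩

theorem L_mono {Γ Γ' : Set ℤ} (h : Γ ⊆ Γ') : E.L Γ ≤ E.L Γ' := by
  rintro _ ⟨z, rfl, hz⟩
  exact ⟨z, rfl, fun k m => stL_mono (Set.inter_subset_left.trans h) (hz k m)⟩

theorem L_top : E.L (Set.Icc d (d + r)) = ⊤ := by
  refine eq_top_iff.2 fun x _ => ?_
  obtain ⟨z, rfl⟩ := E.surj x
  exact ⟨z, rfl, fun k m => by rw [stL_top]; trivial⟩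

theorem L_empty : E.L ∅ = ⊥ := by
  refine eq_bot_iff.2 ?_
  rintro _ ⟨z, rfl, hz⟩
  have : z = 0 := Subtype.ext (funext fun k => Y.ext' fun m => by simpa [stL] using hz k m)
  rw [this, map_zero]; exact zero_mem _

/-- The correspondence between parameters and elements with leading position `i`. -/
def Gam (i : ℤ) : AddSubgroup (X.C × B) where
  carrier := {x | ∃ z : E.Zs, E.π z = x.2 ∧
    ∀ k, (x.1.1 k, z.1 k) ∈ Y.Tp (ltS w r d (uw w i)) i}
  zero_mem' := ⟨0, map_zero _, fun _ => zero_mem _⟩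
  add_mem' := by
    rintro x y ⟨z, h, hz⟩ ⟨z', h', hz'⟩
    exact ⟨z + z', by simp [h, h'], fun k => add_mem (hz k) (hz' k)⟩
  neg_mem' := by
    rintro x ⟨z, h, hz⟩
    exact ⟨-z, by simp [h], fun k => neg_mem (hz k)⟩

theorem gam_lo {i : ℤ} {x : B} : ((0 : X.C), x) ∈ E.Gam i ↔ x ∈ E.L (ltS w r d (uw w i)) := by
  constructor
  · rintro ⟨z, h, hz⟩
    refine ⟨z, h, fun k m => ?_⟩
    obtain ⟨ρ, h1, h2⟩ := hz k m
    have := add_mem h2 (rad_lt Δ hw (ρ := ρ) (by simpa using h1) i)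
    simpa using this
  · rintro ⟨z, h, hz⟩
    exact ⟨z, h, fun k m => ⟨0, by simp, by simpa using hz k m⟩⟩

theorem gam_hi {i : ℤ} (hi : i ∈ Set.Icc d (d + r)) {v : X.C} {x : B} (h : (v, x) ∈ E.Gam i) :
    x ∈ E.L (leS w r d (uw w i)) := by
  obtain ⟨z, h, hz⟩ := h
  refine ⟨z, h, fun k m => ?_⟩
  obtain ⟨ρ, -, h2⟩ := hz k m
  have h3 : stE Δ.a Δ.b (Set.Icc d (d + r)) w i ∈
      stL Δ.a Δ.b (Set.Icc d (d + r)) w (leS w r d (uw w i)) :=
    Submodule.subset_span ⟨i, ⟨hi, le_rfl⟩, rfl⟩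
  have := add_mem (stL_mono (Γ' := leS w r d (uw w i)) (fun j hj => ⟨hj.1.1, hj.1.2.le⟩) h2)
    (Submodule.smul_mem _ ρ h3)
  simpa using this

theorem g_mem (v : X.C) (y : St Δ.a Δ.b (Set.Icc d (d + r)) w) :
    (fun k => Y.g (v.1 k) y) ∈ E.Zs :=
  (E.hZs _).2 ((mem_C.1 v.2).mono fun k hk h => hk (by simp [h, Y.g0]))

theorem gam_left (i : ℤ) (v : X.C) : ∃ x, (v, x) ∈ E.Gam i :=
  ⟨_, ⟨_, E.g_mem v (stE Δ.a Δ.b (Set.Icc d (d + r)) w i)⟩, rfl, fun _ => Y.tp_g _ _ _⟩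

theorem gam_right {i : ℤ} (hi : i ∈ Finset.Ico d (d + r)) {x : B}
    (hx : x ∈ E.L (leS w r d (uw w i))) : ∃ v, (v, x) ∈ E.Gam i := by
  obtain ⟨z, rfl, hz⟩ := hx
  choose ρ ρ' h1 h2 h3 using fun k m => le_decomp Δ hw hi (hz k m)
  have hs := (E.hZs _).1 z.2
  let a : X.C := ⟨fun k => ∑ m, (Δ.tw w i).symm (Δ.q (ρ k m)) • Y.ω m, mem_C.2 (hs.mono
    fun k hk h => hk (Finset.sum_eq_zero fun m _ => by simp [(h2 k m (by simp [h])).1]))⟩
  let a' : X.C := ⟨fun k => ∑ m, (Δ.tw w (d + r)).symm (Δ.q (ρ' k m)) • Y.ω m, mem_C.2 (hs.mono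
    fun k hk h => hk (Finset.sum_eq_zero fun m _ => by simp [(h2 k m (by simp [h])).2]))⟩
  let z0 : E.Zs := ⟨_, E.g_mem a' (stE Δ.a Δ.b (Set.Icc d (d + r)) w (d + r))⟩ -
    ⟨_, E.g_mem (X.T a') (stE Δ.a Δ.b (Set.Icc d (d + r)) w d)⟩
  have hz0 : E.π z0 = 0 := (E.ker _).2 ⟨a', fun k => rfl⟩
  refine ⟨a + X.T a', z - z0, by simp [hz0], fun k => ?_⟩
  have e1 : ((X.T a').1 k, Y.io (dpL Δ hw) ((X.T a').1 k)) ∈ Y.Tp (ltS w r d (uw w i)) i := by
    by_cases hid : i = d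
    · subst hid; exact Y.tp_g _ _ _
    · have : a' = 0 := Subtype.ext (funext fun k => by simp [a', fun m => h1 k m hid])
      rw [this, map_zero, Submodule.coe_zero, Pi.zero_apply, map_zero]
      exact zero_mem _
  have e2 : ∀ m, ((Δ.tw w i).symm (Δ.q (ρ k m)) • Y.ω m, Y.g (Y.ω m) (Y.p m (z.1 k)) -
      Y.io (dpR Δ hw) ((Δ.tw w (d + r)).symm (Δ.q (ρ' k m)) • Y.ω m)) ∈
      Y.Tp (ltS w r d (uw w i)) i := by
    intro m
    have := add_mem (Y.tp_smul (Y.tp_g (ltS w r d (uw w i)) i (Y.ω m)) (c := ρ k m)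
      (s := (Δ.tw w i).symm (Δ.q (ρ k m))) (by simp)) (Y.tp_low i (Y.ω m) (h3 k m))
    rw [← Y.smul_io (dpR Δ hw) (c := ρ' k m) (by simp), Y.io_apply]
    convert this using 1
    simp only [Prod.mk_add_mk, add_zero, map_sub, map_smul, Prod.mk.injEq, true_and]
    abel
  have := add_mem (sum_mem fun m (_ : m ∈ Finset.univ) => e2 m) e1
  convert this using 1
  rw [← prod_mk_sum, Finset.sum_sub_distrib, ← Y.sum, ← map_sum, Prod.mk_add_mk]
  congr 1
  change z.1 k - (Y.io (dpR Δ hw) (a'.1 k) - Y.io (dpL Δ hw) ((X.T a').1 k)) = _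
  abel

theorem gam_mem (φ : PP Λ) {i : ℤ} {v : X.C} {x : B} (h : (v, x) ∈ E.Gam i) (hx : x ∈ φ.set B) :
    v ∈ (Δ.bandTF φ w r d i).set X.T := by
  classical
  obtain ⟨z, hzx, hz⟩ := h
  simp only at hzx
  subst hzx
  obtain ⟨y, hy⟩ := (φ.mem_of_surj E.π E.surj z).1 hx
  choose u hu using fun t => (E.ker _).1 (hy t)
  let th : ℕ → Fin Y.n → S × (φ.ι → S) × (φ.ι → S) := fun k m =>
    (Y.j (v.1 k) m, fun t => -Y.j ((X.T (u t)).1 k) m, fun t => Y.j ((u t).1 k) m)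
  have hth : ∀ k m, th k m ∈ Δ.Theta φ w r d i := by
    intro k m
    obtain ⟨ρ, h1, h2⟩ := hz k m
    choose cL hL hL' using fun t => Y.pg ((X.T (u t)).1 k) m d
    choose cR hR hR' using fun t => Y.pg ((u t).1 k) m (d + r)
    refine ⟨ρ, fun t => -cL t, cR, h1, fun t => by simp [th, hL], hR, _, h2,
      fun l => Y.p m ((y l).1 k), fun t => ?_⟩
    have := congrArg (Y.p m) (hu t k)
    rw [map_sub, Y.io_apply, Y.io_apply, hL', hR'] at this
    rw [neg_smul, add_comm (-_), ← sub_eq_add_neg, ← this]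
    simp [map_sum]
  have hsup : Sup X.kind ({k | v.1 k ≠ 0} ∪ ⋃ t, ({k | (u t).1 k ≠ 0} ∪ {k | (X.T (u t)).1 k ≠ 0})) :=
    (mem_C.1 v.2).union (Sup.iUnion fun t => (mem_C.1 (u t).2).union (mem_C.1 (X.T (u t)).2))
  let vv : Δ.Theta φ w r d i → X.C := fun θ =>
    ⟨fun k => Y.ret fun m => if th k m = θ.1 ∧ θ.1 ≠ 0 then 1 else 0, mem_C.2 (hsup.mono
      fun k hk => by
        by_contra hn
        simp only [Set.mem_union, Set.mem_iUnion, Set.mem_ofPred_eq, not_or, not_exists,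
          not_not] at hn
        refine hk ?_
        rw [← map_zero Y.ret]
        congr 1; funext m
        have : th k m = 0 := by
          simp only [th, hn.1, fun t => (hn.2 t).1, fun t => (hn.2 t).2, map_zero, Pi.zero_apply,
            neg_zero]
          rfl
        rw [if_neg, Pi.zero_apply]
        rintro ⟨h1, h2⟩
        exact h2 (h1.symm.trans this))⟩
  let _ : Fintype (Δ.Theta φ w r d i) := Fintype.ofFinite _
  have key : ∀ (c : S × (φ.ι → S) × (φ.ι → S) → S), c 0 = 0 → ∀ k,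
      (∑ θ : Δ.Theta φ w r d i, c θ.1 • vv θ).1 k = Y.ret fun m => c (th k m) := by
    intro c hc k
    rw [AddSubmonoidClass.coe_finsetSum, Finset.sum_apply]
    simp only [vv, Submodule.coe_smul, Pi.smul_apply, ← map_smul, ← map_sum]
    congr 1; funext m
    rw [Finset.sum_apply, Finset.sum_eq_single ⟨th k m, hth k m⟩]
    · by_cases h0 : th k m = 0 <;> simp [h0, hc]
    · intro θ _ hθ
      have : th k m ≠ θ.1 := fun h => hθ (Subtype.ext h.symm)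
      simp [this]
    · simp
  refine ⟨vv, Subtype.ext (funext fun k => ?_), fun t => ?_⟩
  · exact ((key (fun θ => θ.1) rfl k).trans (Y.ret_j _)).symm
  · have k1 : ∑ θ : Δ.Theta φ w r d i, θ.1.2.1 t • vv θ = -X.T (u t) :=
      Subtype.ext (funext fun k => (key (fun θ => θ.2.1 t) rfl k).trans (by
        rw [Submodule.coe_neg, Pi.neg_apply, ← Y.ret_j ((X.T (u t)).1 k), ← map_neg]; rfl))
    have k2 : ∑ θ : Δ.Theta φ w r d i, θ.1.2.2 t • vv θ = u t :=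
      Subtype.ext (funext fun k => (key (fun θ => θ.2.2 t) rfl k).trans (Y.ret_j _))
    change ∑ θ : Δ.Theta φ w r d i, (θ.1.2.1 t • vv θ + X.T (θ.1.2.2 t • vv θ)) = 0
    rw [Finset.sum_add_distrib, ← map_sum, k1, k2, neg_add_cancel]

theorem gam_mem' (φ : PP Λ) {i : ℤ} {v : X.C} (hv : v ∈ (Δ.bandTF φ w r d i).set X.T) :
    ∃ x ∈ φ.set B, (v, x) ∈ E.Gam i := by
  let _ : Fintype (Δ.Theta φ w r d i) := Fintype.ofFinite _
  obtain ⟨vv, hv, hrel⟩ := hv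
  change Δ.Theta φ w r d i → X.C at vv
  change v = ∑ θ : Δ.Theta φ w r d i, θ.1.1 • vv θ at hv
  change ∀ t : φ.ι, ∑ θ : Δ.Theta φ w r d i, (θ.1.2.1 t • vv θ + X.T (θ.1.2.2 t • vv θ)) = 0
    at hrel
  choose ρ cL cR h1 hL hR z hz y hy using fun θ : Δ.Theta φ w r d i => θ.2
  let G : Δ.Theta φ w r d i → St Δ.a Δ.b (Set.Icc d (d + r)) w → E.Zs :=
    fun θ y => ⟨_, E.g_mem (vv θ) y⟩
  refine ⟨E.π (∑ θ, G θ (ρ θ • stE Δ.a Δ.b (Set.Icc d (d + r)) w i + z θ)), ?_, _, rfl,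
    fun k => ?_⟩
  · refine (φ.mem_of_surj E.π E.surj _).2 ⟨fun l => ∑ θ, G θ (y θ l), fun t => ?_⟩
    refine (E.ker _).2 ⟨∑ θ : Δ.Theta φ w r d i, θ.1.2.2 t • vv θ, fun k => ?_⟩
    have e1 := hrel t
    rw [Finset.sum_add_distrib, ← map_sum, add_eq_zero_iff_neg_eq] at e1
    rw [← e1]
    have e2 : ∀ θ : Δ.Theta φ w r d i, Y.g ((vv θ).1 k) (φ.h t •
        (ρ θ • stE Δ.a Δ.b (Set.Icc d (d + r)) w i + z θ) + ∑ l, φ.H t l • y θ l) =
        Y.io (dpR Δ hw) (θ.1.2.2 t • (vv θ).1 k) + Y.io (dpL Δ hw) (θ.1.2.1 t • (vv θ).1 k) := by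
      intro θ
      rw [hy θ t, ← Y.smul_io _ (hL θ t), ← Y.smul_io _ (hR θ t), map_add, map_smul, map_smul]
      exact add_comm _ _
    simp only [Submodule.coe_add, Submodule.coe_smul, AddSubmonoidClass.coe_finsetSum,
      Pi.add_apply, Pi.smul_apply, Finset.sum_apply, Submodule.coe_neg, Pi.neg_apply, map_neg,
      map_sum, sub_neg_eq_add, ← Finset.sum_add_distrib, ← e2, G, map_add, map_smul,
      Finset.smul_sum]
    rw [Finset.sum_add_distrib, Finset.sum_comm (s := Finset.univ (α := φ.κ))]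
  · rw [hv]
    simp only [AddSubmonoidClass.coe_finsetSum, Finset.sum_apply, Submodule.coe_smul,
      Pi.smul_apply, G]
    rw [prod_mk_sum]
    refine sum_mem fun θ _ => ?_
    have := add_mem (Y.tp_smul (Y.tp_g (ltS w r d (uw w i)) i ((vv θ).1 k)) (h1 θ))
      (Y.tp_low i ((vv θ).1 k) (hz θ))
    simpa using this

theorem gam_iff (φ : PP Λ) {i : ℤ} (hi : i ∈ Set.Icc d (d + r)) (x : X.C × B) (h : x ∈ E.Gam i) :
    x.1 ∈ (Δ.bandTF φ w r d i).set X.T ↔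
      x.2 ∈ φ.set B ⊓ E.L (leS w r d (uw w i)) ⊔ E.L (ltS w r d (uw w i)) := by
  constructor
  · intro hv
    obtain ⟨y, hy, h'⟩ := E.gam_mem' φ hv
    have := sub_mem h h'
    refine AddSubgroup.mem_sup.2 ⟨y, ⟨hy, E.gam_hi hi h'⟩, x.2 - y, E.gam_lo.1 ?_, by abel⟩
    convert this using 1
    ext <;> simp
  · intro hx
    obtain ⟨y, hy, y', hy', e⟩ := AddSubgroup.mem_sup.1 hx
    refine E.gam_mem φ (x := y) ?_ hy.1
    convert sub_mem h (E.gam_lo.2 hy') using 1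
    ext <;> simp [← e]

include E in
theorem count (φ ψ : PP Λ) (hle : ψ.Le φ) : ind φ ψ B = ∏ j ∈ Finset.Ico d (d + r),
    eidx ((Δ.bandTF ψ w r d j).set X.T) ((Δ.bandTF φ w r d j).set X.T) := by
  classical
  let F := (Finset.Ico d (d + r)).image (uw w)
  have hF : ∀ j ∈ Set.Icc d (d + r), uw w j ∈ F := by
    intro j hj
    rcases hj.2.lt_or_eq with h | rfl
    · exact Finset.mem_image_of_mem _ (Finset.mem_Ico.2 ⟨hj.1, h⟩)
    · rw [uw_per hw]
      exact Finset.mem_image_of_mem _ (Finset.mem_Ico.2 ⟨le_rfl, by have := hw.pos; omega⟩)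
  have hCA : ψ.set B ≤ φ.set B := hle B
  have hlohi : ∀ u, E.L (ltS w r d u) ≤ E.L (leS w r d u) :=
    fun u => E.L_mono fun j hj => ⟨hj.1, hj.2.le⟩
  have h1 := eidx_eq_tprodE (fun u => φ.set B ⊓ E.L (ltS w r d u) ⊔ ψ.set B)
    (fun u => φ.set B ⊓ E.L (leS w r d u) ⊔ ψ.set B) (F : Set (Lex Wd))
    (fun u _ => sup_le_sup_right (inf_le_inf_left _ (hlohi u)) _)
    (fun u _ u' _ h => sup_le_sup_right (inf_le_inf_left _
      (E.L_mono (Γ := leS w r d u) (Γ' := ltS w r d u') fun j hj => ⟨hj.1, hj.2.trans_lt h⟩)) _)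
    (ψ.set B) (φ.set B) hCA
    (fun _ _ => le_sup_right) (fun _ _ => sup_le inf_le_left hCA) (fun x hx hx' => by
      have hFne : F.Nonempty := ⟨_, hF d ⟨le_rfl, by omega⟩⟩
      let F' := F.filter fun u => x ∈ φ.set B ⊓ E.L (leS w r d u) ⊔ ψ.set B
      have hne : F'.Nonempty := ⟨F.max' hFne, Finset.mem_filter.2 ⟨F.max'_mem _,
        AddSubgroup.mem_sup_left ⟨hx, E.L_mono (Γ := Set.Icc d (d + r))
          (Γ' := leS w r d (F.max' hFne)) (fun j hj => ⟨hj, F.le_max' _ (hF j hj)⟩) (by rw [E.L_top]; trivial)⟩⟩⟩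
      have hm := Finset.mem_filter.1 (F'.min'_mem hne)
      refine ⟨F'.min' hne, hm.1, hm.2, fun hlo => ?_⟩
      let F'' := F.filter fun u => u < F'.min' hne
      rcases F''.eq_empty_or_nonempty with h0 | h0
      · have : ltS w r d (F'.min' hne) = ∅ := Set.eq_empty_of_forall_notMem fun j hj =>
          Finset.notMem_empty (uw w j) (h0 ▸ Finset.mem_filter.2 ⟨hF j hj.1, hj.2⟩)
        rw [this, E.L_empty, inf_bot_eq, bot_sup_eq] at hlo
        exact hx' hlo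
      · have hm' := Finset.mem_filter.1 (F''.max'_mem h0)
        refine absurd (F'.min'_le (F''.max' h0) (Finset.mem_filter.2 ⟨hm'.1, ?_⟩)) hm'.2.not_ge
        exact sup_le_sup_right (inf_le_inf_left _ (E.L_mono (Γ := ltS w r d (F'.min' hne))
          (Γ' := leS w r d (F''.max' h0)) fun j hj =>
          ⟨hj.1, F''.le_max' _ (Finset.mem_filter.2 ⟨hF j hj.1, hj.2⟩)⟩)) _ hlo)
  rw [ind, h1, tprodE_finset _ fun _ => one_le_eidx _ _, Finset.prod_image (g := uw w)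
    fun i hi j hj h => hw.prim i hi j hj (toLex.injective h)]
  refine Finset.prod_congr rfl fun i hi => ?_
  have hi' : i ∈ Set.Icc d (d + r) := ⟨(Finset.mem_Ico.1 hi).1, (Finset.mem_Ico.1 hi).2.le⟩
  rw [eidx_zass hCA (hlohi _)]
  refine (eidx_eq_of_corr (E.Gam i) (E.gam_iff φ hi') (E.gam_iff ψ hi')
    (fun v _ => E.gam_left i v) fun x hx => E.gam_right hi ?_).symm
  exact sup_le inf_le_right (hlohi _) hx

end BD

end RB

end Pool.Agent.Lib.MP_c13fce_lc
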