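import Pool.Agent.Lib.MP_c13fce_lc.Sys

/-! String modules: universal property, graph maps, order of positions. -/

namespace Pool.Agent.Lib.MP_c13fce_lc
open scoped BigOperators
set_option linter.unusedSectionVars false
set_option linter.unusedVariables false

section St
variable {Λ : Type} [Ring Λ] {a b : Λ} {J J' : Set ℤ} {w w' : ℤ → Bool}

theorem smul_stE (r : Λ) (j : ℤ) :
    r • stE a b J w j = Submodule.Quotient.mk (Finsupp.single j r) := by
  rw [stE, ← Submodule.Quotient.mk_smul, Finsupp.smul_single, smul_eq_mul, mul_one]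

theorem stE_not_mem {j : ℤ} (hj : j ∉ J) : stE a b J w j = 0 :=
  (Submodule.Quotient.mk_eq_zero _).2 (Submodule.subset_span (Or.inl (Or.inl ⟨j, hj, rfl⟩)))

theorem traj_stE : Traj a b J w (stE a b J w) := by
  refine ⟨fun j hj => stE_not_mem hj, fun j hj => ?_, fun j hj => ?_⟩
  · have : (Finsupp.single j a - if w (j - 1) = true then Finsupp.single (j - 1) 1 else 0) ∈
        stRel a b J w := Submodule.subset_span (Or.inl (Or.inr ⟨j, hj, rfl⟩))
    rw [smul_stE, (Submodule.Quotient.eq _).2 this]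
    split_ifs <;> rfl
  · have : (Finsupp.single j b - if w j = true then 0 else Finsupp.single (j + 1) 1) ∈
        stRel a b J w := Submodule.subset_span (Or.inr ⟨j, hj, rfl⟩)
    rw [smul_stE, (Submodule.Quotient.eq _).2 this]
    split_ifs <;> rfl

theorem exists_stLift {N : Type} [AddCommGroup N] [Module Λ N] {x : ℤ → N}
    (hx : Traj a b J w x) : ∃ f : St a b J w →ₗ[Λ] N, ∀ j, f (stE a b J w j) = x j := by
  refine ⟨(stRel a b J w).liftQ (Finsupp.linearCombination Λ x) (Submodule.span_le.2 ?_),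
    fun j => by simp [stE]⟩
  rintro _ ((⟨j, hj, rfl⟩ | ⟨j, hj, rfl⟩) | ⟨j, hj, rfl⟩)
  · simp [hx.1 j hj]
  · simp only [SetLike.mem_coe, LinearMap.mem_ker, map_sub, Finsupp.linearCombination_single,
      hx.2.1 j hj]
    split_ifs <;> simp
  · simp only [SetLike.mem_coe, LinearMap.mem_ker, map_sub, Finsupp.linearCombination_single,
      hx.2.2 j hj]
    split_ifs <;> simp

theorem st_hom_ext {N : Type} [AddCommGroup N] [Module Λ N] {f g : St a b J w →ₗ[Λ] N}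
    (h : ∀ j ∈ J, f (stE a b J w j) = g (stE a b J w j)) : f = g := by
  refine Submodule.linearMap_qext _ (Finsupp.lhom_ext' fun j => LinearMap.ext_ring ?_)
  change f (stE a b J w j) = g (stE a b J w j)
  by_cases hj : j ∈ J
  · exact h j hj
  · rw [stE_not_mem hj, map_zero, map_zero]

theorem stE_mem_stL {Γ : Set ℤ} {j : ℤ} (hj : j ∈ Γ) : stE a b J w j ∈ stL a b J w Γ :=
  Submodule.subset_span ⟨j, hj, rfl⟩

theorem stL_le {Γ : Set ℤ} {P : Submodule Λ (St a b J w)}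
    (h : ∀ j ∈ Γ, j ∈ J → stE a b J w j ∈ P) : stL a b J w Γ ≤ P := by
  refine Submodule.span_le.2 ?_
  rintro _ ⟨j, hj, rfl⟩
  by_cases hJ : j ∈ J
  · exact h j hj hJ
  · rw [stE_not_mem hJ]; exact zero_mem _

theorem stL_top : stL a b J w J = ⊤ := by
  have : (stL a b J w J).mkQ = 0 := st_hom_ext fun j hj =>
    (Submodule.Quotient.mk_eq_zero _).2 (stE_mem_stL hj)
  rw [← Submodule.ker_mkQ (stL a b J w J), this, LinearMap.ker_zero]

theorem stL_empty : stL a b J w ∅ = ⊥ := eq_bot_iff.2 (stL_le fun _ h => h.elim)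

theorem stL_mono {Γ Γ' : Set ℤ} (h : Γ ∩ J ⊆ Γ') : stL a b J w Γ ≤ stL a b J w Γ' :=
  stL_le fun j hj hJ => stE_mem_stL (h ⟨hj, hJ⟩)

theorem stL_union (Γ Γ' : Set ℤ) :
    stL a b J w (Γ ∪ Γ') = stL a b J w Γ ⊔ stL a b J w Γ' := by
  rw [stL, Set.image_union, Submodule.span_union]; rfl

theorem mem_stL_insert {Γ : Set ℤ} {j : ℤ} {z : St a b J w} :
    z ∈ stL a b J w (insert j Γ) ↔ ∃ r : Λ, ∃ z' ∈ stL a b J w Γ, z = r • stE a b J w j + z' := by
  rw [stL, Set.image_insert_eq, Submodule.mem_span_insert]; rfl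

theorem mem_stL_finite {Γ : Set ℤ} {z : St a b J w} (hz : z ∈ stL a b J w Γ) :
    ∃ F : Finset ℤ, (F : Set ℤ) ⊆ Γ ∩ J ∧ z ∈ stL a b J w F := by
  classical
  have hz' := stL_mono (Γ' := Γ ∩ J) subset_rfl hz
  refine Submodule.span_induction (p := fun z _ => ∃ F : Finset ℤ, (F : Set ℤ) ⊆ Γ ∩ J ∧
    z ∈ stL a b J w F) ?_ ⟨∅, by simp, zero_mem _⟩ ?_ ?_ hz'
  · rintro _ ⟨j, hj, rfl⟩
    exact ⟨{j}, by simpa using hj, stE_mem_stL (by simp)⟩
  · rintro x y - - ⟨F, hF, hx⟩ ⟨G, hG, hy⟩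
    refine ⟨F ∪ G, by rw [Finset.coe_union]; exact Set.union_subset hF hG,
      add_mem (stL_mono ?_ hx) (stL_mono ?_ hy)⟩
    · intro i hi; simp [Finset.mem_coe.1 hi.1]
    · intro i hi; simp [Finset.mem_coe.1 hi.1]
  · rintro r x - ⟨F, hF, hx⟩
    exact ⟨F, hF, Submodule.smul_mem _ r hx⟩

theorem mem_stL_finset {F : Finset ℤ} {z : St a b J w} :
    z ∈ stL a b J w F ↔ ∃ c : ℤ → Λ, z = ∑ j ∈ F, c j • stE a b J w j := by
  rw [stL, Submodule.mem_span_image_finset_iff_exists_fun']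
  exact ⟨fun ⟨c, h⟩ => ⟨c, h.symm⟩, fun ⟨c, h⟩ => ⟨c, h.symm⟩⟩

theorem map_stL_le {N : Type} [AddCommGroup N] [Module Λ N] (f : St a b J w →ₗ[Λ] N)
    {Γ : Set ℤ} {P : Submodule Λ N} (h : ∀ j ∈ Γ, j ∈ J → f (stE a b J w j) ∈ P)
    {z : St a b J w} (hz : z ∈ stL a b J w Γ) : f z ∈ P :=
  stL_le (P := P.comap f) h hz

open Classical in
theorem exists_graph {ρ : Set ℤ} {δ : ℤ} (h : GraphOK J w J' w' ρ δ) :
    ∃ g : St a b J w →ₗ[Λ] St a b J' w', ∀ j,
      g (stE a b J w j) = if j ∈ ρ then stE a b J' w' (j + δ) else 0 := by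
  refine exists_stLift ⟨fun j hj => if_neg fun h' => hj (h.1 h'), fun j hj => ?_, fun j hj => ?_⟩
  · beta_reduce
    by_cases hρ : j ∈ ρ
    · obtain ⟨h1, h2, -⟩ := h.2.1 j hρ
      rw [if_pos hρ, traj_stE.2.1 _ h1]
      by_cases c : w (j - 1) = true ∧ j - 1 ∈ ρ
      · rw [if_pos (h2.1 c).1, if_pos c.1, if_pos c.2]; congr 1; ring
      · have c' := mt h2.2 c
        have e1 : (if w' (j + δ - 1) = true then stE a b J' w' (j + δ - 1) else 0) = 0 := by
          split_ifs with e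
          · exact stE_not_mem fun e' => c' ⟨e, e'⟩
          · rfl
        rw [e1]
        split_ifs with e e'
        · exact absurd ⟨e, e'⟩ c
        all_goals rfl
    · rw [if_neg hρ, smul_zero]
      split_ifs with e e'
      · exact absurd ⟨e, e'⟩ (h.2.2 j hj hρ).1
      all_goals rfl
  · beta_reduce
    by_cases hρ : j ∈ ρ
    · obtain ⟨h1, -, h2⟩ := h.2.1 j hρ
      rw [if_pos hρ, traj_stE.2.2 _ h1]
      by_cases c : w j = false ∧ j + 1 ∈ ρ
      · rw [if_neg (by simp [(h2.1 c).1]), if_neg (by simp [c.1]), if_pos c.2]; congr 1; ring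
      · have c' := mt h2.2 c
        have e1 : (if w' (j + δ) = true then 0 else stE a b J' w' (j + δ + 1)) = 0 := by
          split_ifs with e
          · rfl
          · exact stE_not_mem fun e' => c' ⟨by simpa using e, e'⟩
        rw [e1]
        split_ifs with e e'
        · rfl
        · exact absurd ⟨by simpa using e, e'⟩ c
        · rfl
    · rw [if_neg hρ, smul_zero]
      split_ifs with e e'
      · rfl
      · exact absurd ⟨by simpa using e, e'⟩ (h.2.2 j hj hρ).2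
      · rfl

/-- If `p : St J → St J'` (`J' ⊆ J`) fixes the generators, its kernel is generated by `J \ J'`. -/
theorem ker_proj (hJ : J' ⊆ J) (p : St a b J w →ₗ[Λ] St a b J' w)
    (hp : ∀ j, p (stE a b J w j) = stE a b J' w j) :
    LinearMap.ker p = stL a b J w (J \ J') := by
  refine le_antisymm (fun z hz => ?_) (stL_le fun j hj _ => by
    rw [LinearMap.mem_ker, hp, stE_not_mem hj.2])
  obtain ⟨g, hg⟩ := exists_stLift (a := a) (b := b) (J := J') (w := w)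
    (x := fun j => (stL a b J w (J \ J')).mkQ (stE a b J w j)) ⟨fun j hj => by
      beta_reduce
      by_cases h : j ∈ J
      · exact (Submodule.Quotient.mk_eq_zero _).2 (stE_mem_stL ⟨h, hj⟩)
      · rw [stE_not_mem h, map_zero], fun j hj => by
      rw [← map_smul, traj_stE.2.1 j (hJ hj)]; split_ifs <;> simp, fun j hj => by
      rw [← map_smul, traj_stE.2.2 j (hJ hj)]; split_ifs <;> simp⟩
  have : g ∘ₗ p = (stL a b J w (J \ J')).mkQ := st_hom_ext fun j _ => by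
    rw [LinearMap.comp_apply, hp, hg]
  have h2 := LinearMap.congr_fun this z
  rw [LinearMap.comp_apply, LinearMap.mem_ker.1 hz, map_zero] at h2
  exact (Submodule.Quotient.mk_eq_zero _).1 h2.symm

/-- Inclusion of a down-closed part. -/
theorem exists_incl (hJ : J' ⊆ J) (hD : Dn J w J') : ∃ i : St a b J' w →ₗ[Λ] St a b J w,
    ∀ j ∈ J', i (stE a b J' w j) = stE a b J w j := by
  obtain ⟨g, hg⟩ := exists_graph (a := a) (b := b) (J := J') (w := w) (J' := J) (w' := w)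
    (ρ := J') (δ := 0) ⟨subset_rfl, fun j hj => by
      simp only [add_zero]
      exact ⟨hJ hj, ⟨fun h => ⟨h.1, hJ h.2⟩, fun h => ⟨h.1, (hD j hj (hJ hj)).1 h.1 h.2⟩⟩,
        ⟨fun h => ⟨h.1, hJ h.2⟩, fun h => ⟨h.1, (hD j hj (hJ hj)).2 h.1 h.2⟩⟩⟩,
      fun j hj h => absurd hj h⟩
  exact ⟨g, fun j hj => by rw [hg, if_pos hj, add_zero]⟩

/-- Projection onto an up-closed part. -/
theorem exists_proj (hJ : J' ⊆ J) (hD : Dn J w (J \ J')) : ∃ p : St a b J w →ₗ[Λ] St a b J' w,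
    ∀ j, p (stE a b J w j) = stE a b J' w j := by
  obtain ⟨g, hg⟩ := exists_graph (a := a) (b := b) (J := J) (w := w) (J' := J') (w' := w)
    (ρ := J') (δ := 0) ⟨hJ, fun j hj => by simpa using hj, fun j hj h =>
      ⟨fun c => ((hD j ⟨hj, h⟩ hj).1 c.1 (hJ c.2)).2 c.2,
        fun c => ((hD j ⟨hj, h⟩ hj).2 c.1 (hJ c.2)).2 c.2⟩⟩
  refine ⟨g, fun j => ?_⟩
  rw [hg]
  split_ifs with h
  · rw [add_zero]
  · rw [stE_not_mem h]

theorem Deep.dn_Iic {n : ℤ} (hn : Deep J w n) : Dn J w (J ∩ Set.Iic n) := by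
  intro j hj _
  have h2 : j ≤ n := hj.2
  refine ⟨fun _ h => ⟨h, by simp; omega⟩, fun h h' => ⟨h', ?_⟩⟩
  rcases h2.lt_or_eq with e | rfl
  · exact e
  · rcases hn.2.2 with c | c
    · rw [c] at h; cases h
    · exact absurd h' c

theorem Deep.dn_Ici {n : ℤ} (hn : Deep J w n) : Dn J w (J ∩ Set.Ici n) := by
  intro j hj _
  have h2 : n ≤ j := hj.2
  refine ⟨fun h h' => ⟨h', ?_⟩, fun _ h => ⟨h, by simp; omega⟩⟩
  rcases h2.lt_or_eq with e | rfl
  · simp; omega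
  · rcases hn.2.1 with c | c
    · rw [c] at h; cases h
    · exact absurd h' c

theorem Deep.a_smul {n : ℤ} (hn : Deep J w n) : a • stE a b J w n = 0 := by
  rw [traj_stE.2.1 n hn.1]
  rcases hn.2.1 with c | c
  · simp [c]
  · rw [stE_not_mem c, ite_self]

theorem Deep.b_smul {n : ℤ} (hn : Deep J w n) : b • stE a b J w n = 0 := by
  rw [traj_stE.2.2 n hn.1]
  rcases hn.2.2 with c | c
  · simp [c]
  · rw [stE_not_mem c, ite_self]

theorem Deep.mono {n : ℤ} (hn : Deep J w n) (hJ : J' ⊆ J) (h : n ∈ J') : Deep J' w n :=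
  ⟨h, hn.2.1.imp_right fun c c' => c (hJ c'), hn.2.2.imp_right fun c c' => c (hJ c')⟩

/-- Splitting at a deep. -/
theorem split_deep {n : ℤ} (hn : Deep J w n) :
    ∃ (i₁ : St a b (J ∩ Set.Iic n) w →ₗ[Λ] St a b J w)
      (i₂ : St a b (J ∩ Set.Ici n) w →ₗ[Λ] St a b J w),
      (∀ j ≤ n, i₁ (stE a b _ w j) = stE a b J w j) ∧
      (∀ j ≥ n, i₂ (stE a b _ w j) = stE a b J w j) ∧
      ∀ z₁ z₂, i₁ z₁ + i₂ z₂ = 0 →
        ∃ c : Λ, z₁ = c • stE a b _ w n ∧ z₂ = -(c • stE a b _ w n) := by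
  obtain ⟨i₁, h₁⟩ := exists_incl (a := a) (b := b) Set.inter_subset_left hn.dn_Iic
  obtain ⟨i₂, h₂⟩ := exists_incl (a := a) (b := b) Set.inter_subset_left hn.dn_Ici
  have h₁' : ∀ j ≤ n, i₁ (stE a b _ w j) = stE a b J w j := fun j hj => by
    by_cases h : j ∈ J
    · exact h₁ j ⟨h, hj⟩
    · rw [stE_not_mem h, stE_not_mem fun c => h c.1, map_zero]
  have h₂' : ∀ j ≥ n, i₂ (stE a b _ w j) = stE a b J w j := fun j hj => by
    by_cases h : j ∈ J
    · exact h₂ j ⟨h, hj⟩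
    · rw [stE_not_mem h, stE_not_mem fun c => h c.1, map_zero]
  refine ⟨i₁, i₂, h₁', h₂', fun z₁ z₂ hz => ?_⟩
  let K : Submodule Λ (St a b (J ∩ Set.Iic n) w × St a b (J ∩ Set.Ici n) w) :=
    Submodule.span Λ {(stE a b _ w n, -stE a b _ w n)}
  let f₁ := K.mkQ ∘ₗ LinearMap.inl Λ _ _
  let f₂ := K.mkQ ∘ₗ LinearMap.inr Λ _ _
  have hK : f₁ (stE a b _ w n) = f₂ (stE a b _ w n) :=
    (Submodule.Quotient.eq _).2 (Submodule.subset_span (by simp))
  obtain ⟨g, hg⟩ := exists_stLift (a := a) (b := b) (J := J) (w := w)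
    (x := fun j => if j ≤ n then f₁ (stE a b _ w j) else f₂ (stE a b _ w j)) ⟨fun j hj => by
      beta_reduce
      rw [stE_not_mem fun c => hj c.1, stE_not_mem fun c => hj c.1]; simp, fun j hj => by
      beta_reduce
      by_cases h : j ≤ n
      · rw [if_pos h, if_pos (by omega : j - 1 ≤ n), ← map_smul,
          (traj_stE (J := J ∩ Set.Iic n)).2.1 j ⟨hj, h⟩]
        split_ifs <;> simp
      · rw [if_neg h, ← map_smul, (traj_stE (J := J ∩ Set.Ici n)).2.1 j ⟨hj, by simp; omega⟩]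
        split_ifs with c c'
        · rw [show j - 1 = n by omega, hK]
        all_goals simp, fun j hj => by
      beta_reduce
      by_cases h : j < n
      · rw [if_pos h.le, if_pos (by omega : j + 1 ≤ n), ← map_smul,
          (traj_stE (J := J ∩ Set.Iic n)).2.2 j ⟨hj, h.le⟩]
        split_ifs <;> simp
      · have e : (if j ≤ n then f₁ (stE a b _ w j) else f₂ (stE a b _ w j)) =
            f₂ (stE a b _ w j) := by
          split_ifs with c
          · rw [show j = n by omega, hK]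
          · rfl
        rw [e, if_neg (by omega : ¬ j + 1 ≤ n), ← map_smul,
          (traj_stE (J := J ∩ Set.Ici n)).2.2 j ⟨hj, by simp; omega⟩]
        split_ifs <;> simp⟩
  have e₁ : g ∘ₗ i₁ = f₁ := st_hom_ext fun j hj => by
    rw [LinearMap.comp_apply, h₁ j hj, hg, if_pos (show j ≤ n from hj.2)]
  have e₂ : g ∘ₗ i₂ = f₂ := st_hom_ext fun j hj => by
    rw [LinearMap.comp_apply, h₂ j hj, hg]
    split_ifs with c
    · rw [show j = n from le_antisymm c hj.2, hK]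
    · rfl
  have : f₁ z₁ + f₂ z₂ = 0 := by
    rw [← e₁, ← e₂, LinearMap.comp_apply, LinearMap.comp_apply, ← map_add, hz, map_zero]
  have h3 : (z₁, z₂) ∈ K := by
    refine (Submodule.Quotient.mk_eq_zero _).1 ?_
    rw [← this]
    simp only [f₁, f₂, LinearMap.comp_apply, Submodule.mkQ_apply, ← Submodule.Quotient.mk_add]
    simp
  obtain ⟨c, hc⟩ := Submodule.mem_span_singleton.1 h3
  refine ⟨c, (congrArg Prod.fst hc).symm, ?_⟩
  rw [← smul_neg]
  exact (congrArg Prod.snd hc).symm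

/-- Relations hold in finite windows. -/
theorem rel_window {f : ℤ →₀ Λ} (hf : f ∈ stRel a b J w) : ∃ F : Finset ℤ, (F : Set ℤ) ⊆ J ∧
    ∀ σ : Set ℤ, (F : Set ℤ) ⊆ σ → σ ⊆ J → f ∈ stRel a b σ w := by
  classical
  refine Submodule.span_induction (p := fun f _ => ∃ F : Finset ℤ, (F : Set ℤ) ⊆ J ∧
    ∀ σ : Set ℤ, (F : Set ℤ) ⊆ σ → σ ⊆ J → f ∈ stRel a b σ w) ?_
    ⟨∅, by simp, fun _ _ _ => zero_mem _⟩ ?_ ?_ hf
  · rintro _ ((⟨j, hj, rfl⟩ | ⟨j, hj, rfl⟩) | ⟨j, hj, rfl⟩)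
    · exact ⟨∅, by simp, fun σ _ h =>
        Submodule.subset_span (Or.inl (Or.inl ⟨j, fun c => hj (h c), rfl⟩))⟩
    · exact ⟨{j}, by simpa using hj, fun σ h _ =>
        Submodule.subset_span (Or.inl (Or.inr ⟨j, h (by simp), rfl⟩))⟩
    · exact ⟨{j}, by simpa using hj, fun σ h _ =>
        Submodule.subset_span (Or.inr ⟨j, h (by simp), rfl⟩)⟩
  · rintro x y - - ⟨F, hF, hx⟩ ⟨G, hG, hy⟩
    refine ⟨F ∪ G, by simp [hF, hG], fun σ h h' => add_mem (hx σ ?_ h') (hy σ ?_ h')⟩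
    · exact fun i hi => h (by simp [Finset.mem_coe.1 hi])
    · exact fun i hi => h (by simp [Finset.mem_coe.1 hi])
  · rintro r x - ⟨F, hF, hx⟩
    exact ⟨F, hF, fun σ h h' => Submodule.smul_mem _ r (hx σ h h')⟩

end St

/-! ### The order of positions -/

section Order
variable {J : Set ℤ} {w : ℤ → Bool}

theorem rwd_add (j : ℤ) (i m : ℕ) : rwd J w (j + i) m = rwd J w j (i + m) := by
  unfold rwd
  rw [show j + i + m = j + ((i + m : ℕ) : ℤ) by push_cast; ring]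

theorem lwd_sub (j : ℤ) (i m : ℕ) : lwd J w (j - i) m = lwd J w j (i + m) := by
  unfold lwd
  rw [show j - i - m = j - ((i + m : ℕ) : ℤ) by push_cast; ring]

theorem rwd_letter {J' : Set ℤ} {w' : ℤ → Bool} {j j' : ℤ} {k : ℕ}
    (h : rwd J' w' j' k = rwd J w j k) (hj : j + k + 1 ∈ J) :
    j' + k + 1 ∈ J' ∧ w' (j' + k) = w (j + k) := by
  cases hw : w (j + k)
  · exact rwd_eq_two.1 (h.trans (rwd_eq_two.2 ⟨hj, hw⟩))
  · exact rwd_eq_zero.1 (h.trans (rwd_eq_zero.2 ⟨hj, hw⟩))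

theorem lwd_letter {J' : Set ℤ} {w' : ℤ → Bool} {j j' : ℤ} {k : ℕ}
    (h : lwd J' w' j' k = lwd J w j k) (hj : j - k - 1 ∈ J) :
    j' - k - 1 ∈ J' ∧ w' (j' - k - 1) = w (j - k - 1) := by
  cases hw : w (j - k - 1)
  · exact lwd_eq_zero.1 (h.trans (lwd_eq_zero.2 ⟨hj, hw⟩))
  · exact lwd_eq_two.1 (h.trans (lwd_eq_two.2 ⟨hj, hw⟩))

theorem fin3_ne_two {x y : Fin 3} (h : x < y) : x ≠ 2 := by revert x y; decide
theorem fin3_ne_zero {x y : Fin 3} (h : x < y) : y ≠ 0 := by revert x y; decide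

theorem pnt_lt_iff {J' : Set ℤ} {w' : ℤ → Bool} {i j : ℤ} : pnt J' w' i < pnt J w j ↔
    toLex (rwd J' w' i) < toLex (rwd J w j) ∨
      rwd J' w' i = rwd J w j ∧ toLex (lwd J' w' i) < toLex (lwd J w j) :=
  Prod.Lex.toLex_lt_toLex

theorem pnt_eq_iff {J' : Set ℤ} {w' : ℤ → Bool} {i j : ℤ} : pnt J' w' i = pnt J w j ↔
    rwd J' w' i = rwd J w j ∧ lwd J' w' i = lwd J w j := by
  simp [pnt]

/-- Transplant to the right: first difference of the right words at `k`. -/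
theorem graphOK_right (hJ : J.OrdConnected) {n₁ n₃ : ℤ} {k : ℕ} {σ σ' : Set ℤ}
    (h₁ : Deep J w n₁) (h₃ : Deep J w n₃) (hk : ∀ i < k, rwd J w n₃ i = rwd J w n₁ i)
    (hlt : rwd J w n₃ k < rwd J w n₁ k) (hσ : Set.Icc n₁ (n₁ + k) ⊆ σ) (hσJ : σ ⊆ J ∩ Set.Ici n₁)
    (hσ' : Set.Icc n₃ (n₃ + k) ⊆ σ') (hσJ' : σ' ⊆ J) :
    GraphOK σ w σ' w (Set.Icc n₁ (n₁ + k)) (n₃ - n₁) ∧ ∀ j ∈ Set.Icc n₁ (n₁ + k),
      toLex (rwd J w (j + (n₃ - n₁))) < toLex (rwd J w j) := by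
  have hw : ∀ j, n₁ ≤ j → j < n₁ + k → w (j + (n₃ - n₁)) = w j := by
    intro j h h'
    obtain ⟨i, rfl⟩ := Int.le.dest h
    have := (rwd_letter (hk i (by omega)) (hσJ (hσ ⟨by omega, by omega⟩)).1).2
    rwa [show n₁ + i + (n₃ - n₁) = n₃ + i by ring]
  refine ⟨⟨hσ, fun j hj => ⟨hσ' ⟨by have := hj.1; omega, by have := hj.2; omega⟩, ?_, ?_⟩,
    fun j hj hρ => ?_⟩, fun j hj => ?_⟩
  · obtain ⟨h, h'⟩ := hj
    rcases h.lt_or_eq with e | rfl
    · have := hw (j - 1) (by omega) (by omega)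
      rw [show j + (n₃ - n₁) - 1 = j - 1 + (n₃ - n₁) by ring, this]
      exact ⟨fun c => ⟨c.1, hσ' ⟨by omega, by omega⟩⟩, fun c => ⟨c.1, by omega, by omega⟩⟩
    · rw [add_sub_cancel]
      refine ⟨fun c => absurd c.2.1 (by omega), fun c => ?_⟩
      rcases h₃.2.1 with e | e
      · rw [e] at c; cases c.1
      · exact absurd (hσJ' c.2) e
  · obtain ⟨h, h'⟩ := hj
    rcases h'.lt_or_eq with e | rfl
    · rw [hw j h e]
      exact ⟨fun c => ⟨c.1, hσ' ⟨by omega, by omega⟩⟩, fun c => ⟨c.1, by omega, by omega⟩⟩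
    · rw [show n₁ + k + (n₃ - n₁) = n₃ + k by ring]
      exact ⟨fun c => absurd c.2.2 (by omega), fun c =>
        absurd (rwd_eq_two.2 ⟨hσJ' c.2, c.1⟩) (fin3_ne_two hlt)⟩
  · have h1 : n₁ ≤ j := (hσJ hj).2
    have h2 : n₁ + k < j := by
      by_contra c
      exact hρ ⟨h1, by omega⟩
    refine ⟨fun c => ?_, fun c => absurd c.2.2 (by omega)⟩
    have e : j = n₁ + k + 1 := by have := c.2.2; omega
    subst e
    rw [add_sub_cancel_right] at c
    exact fin3_ne_zero hlt (rwd_eq_zero.2 ⟨(hσJ hj).1, c.1⟩)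
  · obtain ⟨h, h'⟩ := hj
    obtain ⟨i, rfl⟩ := Int.le.dest h
    rw [show n₁ + i + (n₃ - n₁) = n₃ + i by ring]
    refine Wd.lt_iff.2 ⟨k - i, fun m hm => ?_, ?_⟩
    · rw [rwd_add, rwd_add]; exact hk _ (by omega)
    · rw [rwd_add, rwd_add, show i + (k - i) = k by omega]; exact hlt

theorem rwd_eq_of_left {n₁ n₃ : ℤ} {k : ℕ} (hk : ∀ i < k, lwd J w n₃ i = lwd J w n₁ i)
    (h1 : Set.Icc (n₁ - k) n₁ ⊆ J) (h3 : Set.Icc (n₃ - k) n₃ ⊆ J)
    (hr : rwd J w n₃ = rwd J w n₁) (i : ℕ) (hi : i ≤ k) : rwd J w (n₃ - i) = rwd J w (n₁ - i) := by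
  induction i with
  | zero => simpa using hr
  | succ i ih =>
    refine Wd.ext_tl ?_ ?_
    · have e := (lwd_letter (hk i hi) (h1 ⟨by omega, by omega⟩)).2
      have m1 : n₁ - ((i + 1 : ℕ) : ℤ) + 1 ∈ J := h1 ⟨by push_cast; omega, by push_cast; omega⟩
      have m3 : n₃ - ((i + 1 : ℕ) : ℤ) + 1 ∈ J := h3 ⟨by push_cast; omega, by push_cast; omega⟩
      rw [show n₃ - i - 1 = n₃ - ((i + 1 : ℕ) : ℤ) by push_cast; ring,
        show n₁ - i - 1 = n₁ - ((i + 1 : ℕ) : ℤ) by push_cast; ring] at e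
      cases c : w (n₁ - ((i + 1 : ℕ) : ℤ))
      · rw [rwd0_eq_two.2 ⟨m1, c⟩, rwd0_eq_two.2 ⟨m3, e.trans c⟩]
      · rw [rwd0_eq_zero.2 ⟨m1, c⟩, rwd0_eq_zero.2 ⟨m3, e.trans c⟩]
    · rw [rwd_tl, rwd_tl, show n₃ - ((i + 1 : ℕ) : ℤ) + 1 = n₃ - i by push_cast; ring,
        show n₁ - ((i + 1 : ℕ) : ℤ) + 1 = n₁ - i by push_cast; ring]
      exact ih (by omega)

/-- Transplant to the left. -/
theorem graphOK_left (hJ : J.OrdConnected) {n₁ n₃ : ℤ} {k : ℕ} {σ σ' : Set ℤ}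
    (h₁ : Deep J w n₁) (h₃ : Deep J w n₃) (hk : ∀ i < k, lwd J w n₃ i = lwd J w n₁ i)
    (hlt : lwd J w n₃ k < lwd J w n₁ k) (hσ : Set.Icc (n₁ - k) n₁ ⊆ σ) (hσJ : σ ⊆ J ∩ Set.Iic n₁)
    (hσ' : Set.Icc (n₃ - k) n₃ ⊆ σ') (hσJ' : σ' ⊆ J) (hr : rwd J w n₃ = rwd J w n₁) :
    GraphOK σ w σ' w (Set.Icc (n₁ - k) n₁) (n₃ - n₁) ∧ ∀ j ∈ Set.Icc (n₁ - k) n₁,
      pnt J w (j + (n₃ - n₁)) < pnt J w j := by
  have hw : ∀ j, n₁ - k ≤ j → j < n₁ → w (j + (n₃ - n₁)) = w j := by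
    intro j h h'
    obtain ⟨i, rfl⟩ : ∃ i : ℕ, j = n₁ - i - 1 := ⟨(n₁ - j - 1).toNat, by omega⟩
    have := (lwd_letter (hk i (by omega)) (hσJ (hσ ⟨by omega, by omega⟩)).1).2
    rwa [show n₁ - i - 1 + (n₃ - n₁) = n₃ - i - 1 by ring]
  refine ⟨⟨hσ, fun j hj => ⟨hσ' ⟨by have := hj.1; omega, by have := hj.2; omega⟩, ?_, ?_⟩,
    fun j hj hρ => ?_⟩, fun j hj => ?_⟩
  · obtain ⟨h, h'⟩ := hj
    rcases h.lt_or_eq with e | rfl
    · have := hw (j - 1) (by omega) (by omega)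
      rw [show j + (n₃ - n₁) - 1 = j - 1 + (n₃ - n₁) by ring, this]
      exact ⟨fun c => ⟨c.1, hσ' ⟨by omega, by omega⟩⟩, fun c => ⟨c.1, by omega, by omega⟩⟩
    · rw [show n₁ - k + (n₃ - n₁) = n₃ - k by ring]
      exact ⟨fun c => absurd c.2.1 (by omega), fun c =>
        absurd (lwd_eq_two.2 ⟨hσJ' c.2, c.1⟩) (fin3_ne_two hlt)⟩
  · obtain ⟨h, h'⟩ := hj
    rcases h'.lt_or_eq with e | rfl
    · rw [hw j h e]
      exact ⟨fun c => ⟨c.1, hσ' ⟨by omega, by omega⟩⟩, fun c => ⟨c.1, by omega, by omega⟩⟩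
    · rw [add_sub_cancel]
      refine ⟨fun c => absurd c.2.2 (by omega), fun c => ?_⟩
      rcases h₃.2.2 with e | e
      · rw [e] at c; cases c.1
      · exact absurd (hσJ' c.2) e
  · have h1 : j ≤ n₁ := (hσJ hj).2
    have h2 : j < n₁ - k := by
      by_contra c
      exact hρ ⟨by omega, h1⟩
    refine ⟨fun c => absurd c.2.1 (by omega), fun c => ?_⟩
    have e : j = n₁ - k - 1 := by have := c.2.1; omega
    subst e
    exact fin3_ne_zero hlt (lwd_eq_zero.2 ⟨(hσJ hj).1, c.1⟩)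
  · obtain ⟨h, h'⟩ := hj
    obtain ⟨i, rfl⟩ : ∃ i : ℕ, j = n₁ - i := ⟨(n₁ - j).toNat, by omega⟩
    rw [show n₁ - i + (n₃ - n₁) = n₃ - i by ring]
    refine pnt_lt_iff.2 (Or.inr ⟨rwd_eq_of_left hk (fun x hx => (hσJ (hσ hx)).1)
      (hσ'.trans hσJ') hr i (by omega), Wd.lt_iff.2 ⟨k - i, fun m hm => ?_, ?_⟩⟩)
    · rw [lwd_sub, lwd_sub]; exact hk _ (by omega)
    · rw [lwd_sub, lwd_sub, show i + (k - i) = k by omega]; exact hlt

theorem per_of_pnt_eq (hJ : J.OrdConnected) {i j : ℤ} (hi : i ∈ J) (hj : j ∈ J) (hij : i < j)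
    (h : pnt J w i = pnt J w j) : J = Set.univ ∧ ∀ m, w (m + (j - i)) = w m := by
  obtain ⟨hr, hl⟩ := pnt_eq_iff.1 h
  have up : ∀ k : ℕ, i + k ∈ J := by
    intro k
    induction k using Nat.strong_induction_on with
    | _ k ih =>
    by_cases c : i + k ≤ j
    · exact hJ.out hi hj ⟨by omega, c⟩
    · obtain ⟨m, hm⟩ : ∃ m : ℕ, i + k = j + m + 1 := ⟨(i + k - j - 1).toNat, by omega⟩
      rw [hm]
      refine (rwd_letter (congrFun hr.symm m) ?_).1
      have := ih (m + 1) (by omega)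
      rwa [Nat.cast_succ, ← add_assoc] at this
  have dn : ∀ k : ℕ, j - k ∈ J := by
    intro k
    induction k using Nat.strong_induction_on with
    | _ k ih =>
    by_cases c : i ≤ j - k
    · exact hJ.out hi hj ⟨c, by omega⟩
    · obtain ⟨m, hm⟩ : ∃ m : ℕ, j - k = i - m - 1 := ⟨(i - 1 - j + k).toNat, by omega⟩
      rw [hm]
      refine (lwd_letter (congrFun hl m) ?_).1
      have := ih (m + 1) (by omega)
      rwa [Nat.cast_succ, ← sub_sub] at this
  have hU : J = Set.univ := Set.eq_univ_of_forall fun m => by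
    by_cases c : i ≤ m
    · have := up (m - i).toNat
      rwa [show i + ((m - i).toNat : ℤ) = m by omega] at this
    · have := dn (j - m).toNat
      rwa [show j - ((j - m).toNat : ℤ) = m by omega] at this
  refine ⟨hU, fun m => ?_⟩
  by_cases c : i ≤ m
  · obtain ⟨k, rfl⟩ := Int.le.dest c
    have := (rwd_letter (congrFun hr.symm k) (by rw [hU]; trivial)).2
    rwa [show i + k + (j - i) = j + k by ring]
  · obtain ⟨k, rfl⟩ : ∃ k : ℕ, m = i - k - 1 := ⟨(i - m - 1).toNat, by omega⟩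
    have := (lwd_letter (congrFun hl.symm k) (by rw [hU]; trivial)).2
    rwa [show i - k - 1 + (j - i) = j - k - 1 by ring]

theorem pnt_injOn (hJ : J.OrdConnected) (hnp : ¬ Per J w) : Set.InjOn (pnt J w) J := by
  have key : ∀ i ∈ J, ∀ j ∈ J, i < j → pnt J w i ≠ pnt J w j := fun i hi j hj hij h => by
    obtain ⟨h1, h2⟩ := per_of_pnt_eq hJ hi hj hij h
    refine hnp ⟨h1, (j - i).toNat, by omega, fun m => ?_⟩
    rw [show (((j - i).toNat : ℕ) : ℤ) = j - i by omega, h2]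
  intro i hi j hj h
  rcases lt_trichotomy i j with c | c | c
  · exact absurd h (key i hi j hj c)
  · exact c
  · exact absurd h.symm (key j hj i hi c)

theorem Wd.le_tl {u : Wd} (h : u 0 = 0) : toLex u ≤ toLex u.tl := by
  classical
  by_cases c : ∃ k, u (k + 1) ≠ 0
  · have z : ∀ i ≤ Nat.find c, u i = 0 := by
      intro i hi
      cases i with
      | zero => exact h
      | succ i => exact not_not.1 (Nat.find_min c hi)
    refine le_of_lt (Wd.lt_iff.2 ⟨Nat.find c, fun i hi => ?_, ?_⟩)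
    · rw [z i hi.le]; exact (z (i + 1) hi).symm
    · rw [z _ le_rfl]; exact Fin.pos_iff_ne_zero.2 (Nat.find_spec c)
  · refine le_of_eq (congrArg toLex (funext fun k => ?_))
    have z : ∀ k, u (k + 1) = 0 := fun k => not_not.1 fun e => c ⟨k, e⟩
    cases k with
    | zero => exact h.trans (z 0).symm
    | succ k => exact (z k).trans (z (k + 1)).symm

theorem Wd.tl_le {u : Wd} (h : u 0 = 2) : toLex u.tl ≤ toLex u := by
  rcases (Wd.le_tl (Wd.flip_eq_zero.2 h)).lt_or_eq with c | c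
  · have := Wd.flip_lt c
    rw [Wd.flip_tl, Wd.flip_flip, Wd.flip_flip] at this
    exact this.le
  · have := congrArg Wd.flip (toLex.injective c)
    rw [Wd.flip_tl, Wd.flip_flip, Wd.flip_flip] at this
    exact (congrArg toLex this).ge

/-- Going down along an edge does not increase the words. -/
theorem rwd_down (hJ : J.OrdConnected) {j : ℤ} (hj : j ∈ J) (hj' : j + 1 ∈ J) :
    (w j = true → toLex (rwd J w j) ≤ toLex (rwd J w (j + 1)) ∧
      toLex (lwd J w j) ≤ toLex (lwd J w (j + 1))) ∧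
    (w j = false → toLex (rwd J w (j + 1)) ≤ toLex (rwd J w j) ∧
      toLex (lwd J w (j + 1)) ≤ toLex (lwd J w j)) := by
  have e : lwd J w j = (lwd J w (j + 1)).tl := by rw [lwd_tl, add_sub_cancel_right]
  rw [e, ← rwd_tl]
  exact ⟨fun h => ⟨Wd.le_tl (rwd0_eq_zero.2 ⟨hj', h⟩),
      Wd.tl_le (lwd0_eq_two.2 (by simpa using ⟨hj, h⟩))⟩,
    fun h => ⟨Wd.tl_le (rwd0_eq_two.2 ⟨hj', h⟩),
      Wd.le_tl (lwd0_eq_zero.2 (by simpa using ⟨hj, h⟩))⟩⟩

theorem pnt_down (hJ : J.OrdConnected) {j : ℤ} (hj : j ∈ J) (hj' : j + 1 ∈ J) :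
    (w j = true → pnt J w j ≤ pnt J w (j + 1)) ∧ (w j = false → pnt J w (j + 1) ≤ pnt J w j) :=
  ⟨fun h => Prod.Lex.toLex_mono ((rwd_down hJ hj hj').1 h),
    fun h => Prod.Lex.toLex_mono ((rwd_down hJ hj hj').2 h)⟩

/-- Lower sets for the order of positions are closed under the action. -/
theorem dn_of_lower (hJ : J.OrdConnected) {Γ : Set ℤ}
    (h : ∀ i ∈ J, ∀ j ∈ Γ, j ∈ J → pnt J w i ≤ pnt J w j → i ∈ Γ) : Dn J w Γ := by
  intro j hΓ hj
  refine ⟨fun c hj' => h _ hj' j hΓ hj ?_, fun c hj' => h _ hj' j hΓ hj ((pnt_down hJ hj hj').2 c)⟩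
  have := (pnt_down (w := w) hJ hj' (by simpa using hj)).1 c
  rwa [sub_add_cancel] at this

theorem dn_low (hJ : J.OrdConnected) (j : ℤ) : Dn J w (low J w j) :=
  dn_of_lower hJ fun i hi _ hj _ h => ⟨hi, h.trans_lt hj.2⟩

theorem Dn.mono {J' Γ : Set ℤ} (h : Dn J w Γ) (hJ : J' ⊆ J) : Dn J' w Γ :=
  fun j hj hj' => ⟨fun c c' => (h j hj (hJ hj')).1 c (hJ c'),
    fun c c' => (h j hj (hJ hj')).2 c (hJ c')⟩

theorem Dn.inter {Γ Γ' : Set ℤ} (h : Dn J w Γ) (h' : Dn J w Γ') : Dn J w (Γ ∩ Γ') :=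
  fun j hj hJ => ⟨fun c c' => ⟨(h j hj.1 hJ).1 c c', (h' j hj.2 hJ).1 c c'⟩,
    fun c c' => ⟨(h j hj.1 hJ).2 c c', (h' j hj.2 hJ).2 c c'⟩⟩

theorem dn_self : Dn J w J := fun _ _ _ => ⟨fun _ h => h, fun _ h => h⟩

theorem ht_succ (w : ℤ → Bool) (j : ℤ) :
    ht w (j + 1) = ht w j + if w j = true then 1 else 0 := by
  unfold ht
  rcases le_or_gt 0 j with h | h
  · rw [← Finset.insert_Ico_right_eq_Ico_add_one h, Finset.sum_insert (by simp),
      Finset.Ico_eq_empty_of_le (by omega : (0 : ℤ) ≤ j + 1), Finset.Ico_eq_empty_of_le h]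
    ring
  · rw [← Finset.insert_Ico_add_one_left_eq_Ico h, Finset.sum_insert (by simp),
      Finset.Ico_eq_empty_of_le (by omega : j + 1 ≤ 0), Finset.Ico_eq_empty_of_le h.le]
    ring

/-- A rank function which drops by one along each edge. -/
noncomputable def rk (w : ℤ → Bool) (j : ℤ) : ℤ := 2 * ht w j - j

theorem rk_A {j : ℤ} (h : w j = true) : rk w (j + 1) = rk w j + 1 := by
  rw [rk, rk, ht_succ, if_pos h]; ring

theorem rk_B {j : ℤ} (h : w j = false) : rk w (j + 1) = rk w j - 1 := by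
  rw [rk, rk, ht_succ, if_neg (by simp [h])]; ring

end Order

end Pool.Agent.Lib.MP_c13fce_lc
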