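import Pool.Agent.Lib.MP_c13fce_lc.Dual

/-! Words and systems of submodules. -/

namespace Pool.Agent.Lib.MP_c13fce_lc
open scoped BigOperators
set_option linter.unusedSectionVars false
set_option linter.unusedVariables false

/-! ### Words -/

theorem fin3_cases (a : Fin 3) : a = 0 ∨ a = 1 ∨ a = 2 := by
  revert a; decide

@[simp] theorem Wd.flip_flip (u : Wd) : u.flip.flip = u := by
  funext k; simp [Wd.flip]

theorem Wd.flip_tl (u : Wd) : u.flip.tl = u.tl.flip := rfl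

theorem Wd.flip_eq_zero {u : Wd} {k : ℕ} : u.flip k = 0 ↔ u k = 2 := by
  unfold Wd.flip; generalize u k = a; revert a; decide

theorem Wd.flip_eq_one {u : Wd} {k : ℕ} : u.flip k = 1 ↔ u k = 1 := by
  unfold Wd.flip; generalize u k = a; revert a; decide

theorem Wd.flip_eq_two {u : Wd} {k : ℕ} : u.flip k = 2 ↔ u k = 0 := by
  unfold Wd.flip; generalize u k = a; revert a; decide

theorem Wd.Nrm.tl {u : Wd} (h : u.Nrm) : u.tl.Nrm := fun k hk => h (k + 1) hk

theorem Wd.Nrm.flip {u : Wd} (h : u.Nrm) : u.flip.Nrm := fun k hk =>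
  Wd.flip_eq_one.2 (h k (Wd.flip_eq_one.1 hk))

theorem Wd.Nrm.one_of_le {u : Wd} (h : u.Nrm) {k l : ℕ} (hk : u k = 1) (hl : k ≤ l) : u l = 1 := by
  induction l, hl using Nat.le_induction with
  | base => exact hk
  | succ l _ ih => exact h l ih

theorem Wd.lt_iff {u u' : Wd} :
    toLex u < toLex u' ↔ ∃ k, (∀ i < k, u i = u' i) ∧ u k < u' k := Iff.rfl

theorem Wd.ext_tl {u u' : Wd} (h0 : u 0 = u' 0) (h : u.tl = u'.tl) : u = u' := by
  funext k
  cases k with
  | zero => exact h0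
  | succ k => exact congrFun h k

theorem Wd.lt_of_tl {u u' : Wd} (h0 : u 0 = u' 0) (h : toLex u.tl < toLex u'.tl) :
    toLex u < toLex u' := by
  obtain ⟨k, hk, hlt⟩ := Wd.lt_iff.1 h
  refine Wd.lt_iff.2 ⟨k + 1, fun i hi => ?_, hlt⟩
  cases i with
  | zero => exact h0
  | succ i => exact hk i (by omega)

theorem Wd.tl_lt {u u' : Wd} (h0 : u 0 = u' 0) (h : toLex u < toLex u') :
    toLex u.tl < toLex u'.tl := by
  obtain ⟨k, hk, hlt⟩ := Wd.lt_iff.1 h
  cases k with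
  | zero => exact absurd h0 hlt.ne
  | succ k => exact Wd.lt_iff.2 ⟨k, fun i hi => hk (i + 1) (by omega), hlt⟩

theorem Wd.lt_of_zero {u u' : Wd} (h0 : u 0 < u' 0) : toLex u < toLex u' :=
  Wd.lt_iff.2 ⟨0, fun i hi => absurd hi (Nat.not_lt_zero i), h0⟩

theorem Wd.flip_lt {u u' : Wd} (h : toLex u < toLex u') : toLex u'.flip < toLex u.flip := by
  obtain ⟨k, hk, hlt⟩ := Wd.lt_iff.1 h
  exact Wd.lt_iff.2 ⟨k, fun i hi => by simp [Wd.flip, hk i hi], Fin.rev_lt_rev.2 hlt⟩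

section Words
variable {J : Set ℤ} {w : ℤ → Bool} {j : ℤ}

theorem rwd_not (J : Set ℤ) (w : ℤ → Bool) (j : ℤ) :
    rwd J (fun i => !w i) j = (rwd J w j).flip := by
  funext k
  unfold rwd Wd.flip
  by_cases h : j + k + 1 ∈ J <;> cases hw : w (j + k) <;> simp [h, hw]

theorem lwd_not (J : Set ℤ) (w : ℤ → Bool) (j : ℤ) :
    lwd J (fun i => !w i) j = (lwd J w j).flip := by
  funext k
  unfold lwd Wd.flip
  by_cases h : j - k - 1 ∈ J <;> cases hw : w (j - k - 1) <;> simp [h, hw]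

theorem rwd_tl (J : Set ℤ) (w : ℤ → Bool) (j : ℤ) : (rwd J w j).tl = rwd J w (j + 1) := by
  funext k
  unfold Wd.tl rwd
  rw [show j + ((k + 1 : ℕ) : ℤ) = j + 1 + k by push_cast; ring]

theorem lwd_tl (J : Set ℤ) (w : ℤ → Bool) (j : ℤ) : (lwd J w j).tl = lwd J w (j - 1) := by
  funext k
  unfold Wd.tl lwd
  rw [show j - ((k + 1 : ℕ) : ℤ) = j - 1 - k by push_cast; ring]

theorem rwd_eq_zero {k : ℕ} : rwd J w j k = 0 ↔ j + k + 1 ∈ J ∧ w (j + k) = true := by
  unfold rwd; split_ifs <;> simp_all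

theorem rwd_eq_one {k : ℕ} : rwd J w j k = 1 ↔ j + k + 1 ∉ J := by
  unfold rwd; split_ifs <;> simp_all

theorem rwd_eq_two {k : ℕ} : rwd J w j k = 2 ↔ j + k + 1 ∈ J ∧ w (j + k) = false := by
  unfold rwd; split_ifs <;> simp_all

theorem lwd_eq_zero {k : ℕ} : lwd J w j k = 0 ↔ j - k - 1 ∈ J ∧ w (j - k - 1) = false := by
  unfold lwd; split_ifs <;> simp_all

theorem lwd_eq_one {k : ℕ} : lwd J w j k = 1 ↔ j - k - 1 ∉ J := by
  unfold lwd; split_ifs <;> simp_all

theorem lwd_eq_two {k : ℕ} : lwd J w j k = 2 ↔ j - k - 1 ∈ J ∧ w (j - k - 1) = true := by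
  unfold lwd; split_ifs <;> simp_all

theorem rwd0_eq_zero : rwd J w j 0 = 0 ↔ j + 1 ∈ J ∧ w j = true := by
  simpa using rwd_eq_zero (J := J) (w := w) (j := j) (k := 0)

theorem rwd0_eq_one : rwd J w j 0 = 1 ↔ j + 1 ∉ J := by
  simpa using rwd_eq_one (J := J) (w := w) (j := j) (k := 0)

theorem rwd0_eq_two : rwd J w j 0 = 2 ↔ j + 1 ∈ J ∧ w j = false := by
  simpa using rwd_eq_two (J := J) (w := w) (j := j) (k := 0)

theorem lwd0_eq_zero : lwd J w j 0 = 0 ↔ j - 1 ∈ J ∧ w (j - 1) = false := by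
  simpa using lwd_eq_zero (J := J) (w := w) (j := j) (k := 0)

theorem lwd0_eq_one : lwd J w j 0 = 1 ↔ j - 1 ∉ J := by
  simpa using lwd_eq_one (J := J) (w := w) (j := j) (k := 0)

theorem lwd0_eq_two : lwd J w j 0 = 2 ↔ j - 1 ∈ J ∧ w (j - 1) = true := by
  simpa using lwd_eq_two (J := J) (w := w) (j := j) (k := 0)

theorem rwd_nrm {J : Set ℤ} (hJ : J.OrdConnected) (w : ℤ → Bool) {j : ℤ} (hj : j ∈ J) :
    (rwd J w j).Nrm := by
  intro k hk
  rw [rwd_eq_one] at hk ⊢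
  intro h
  exact hk (hJ.out hj h ⟨by omega, by push_cast; omega⟩)

theorem lwd_nrm {J : Set ℤ} (hJ : J.OrdConnected) (w : ℤ → Bool) {j : ℤ} (hj : j ∈ J) :
    (lwd J w j).Nrm := by
  intro k hk
  rw [lwd_eq_one] at hk ⊢
  intro h
  exact hk (hJ.out h hj ⟨by push_cast; omega, by omega⟩)

end Words

/-- Paths through an interval of integers. -/
theorem exists_path {X : Type} {J : Set ℤ} (hJ : J.OrdConnected) (P : ℤ → X → Prop)
    (E : ℤ → X → X → Prop)
    (fw : ∀ i x, i ∈ J → i + 1 ∈ J → P i x → ∃ y, P (i + 1) y ∧ E i x y)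
    (bw : ∀ i y, i ∈ J → i + 1 ∈ J → P (i + 1) y → ∃ x, P i x ∧ E i x y)
    {j : ℤ} (hj : j ∈ J) {x0 : X} (h0 : P j x0) :
    ∃ x : ℤ → X, x j = x0 ∧ (∀ i ∈ J, P i (x i)) ∧
      ∀ i, i ∈ J → i + 1 ∈ J → E i (x i) (x (i + 1)) := by
  classical
  have : Nonempty X := ⟨x0⟩
  choose! F hF using fw
  choose! G hG using bw
  let R : ℕ → X := fun n => Nat.rec x0 (fun n y => F (j + n) y) n
  let L : ℕ → X := fun n => Nat.rec x0 (fun n y => G (j - n - 1) y) n
  have hR : ∀ n : ℕ, j + n ∈ J → P (j + n) (R n) := by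
    intro n
    induction n with
    | zero => intro _; simpa [R] using h0
    | succ n ih =>
      intro h
      have h1 : j + n ∈ J := hJ.out hj h ⟨by omega, by push_cast; omega⟩
      have h2 : j + (n + 1 : ℕ) = j + n + 1 := by push_cast; ring
      rw [h2] at h ⊢
      exact (hF _ _ h1 h (ih h1)).1
  have hL : ∀ n : ℕ, j - n ∈ J → P (j - n) (L n) := by
    intro n
    induction n with
    | zero => intro _; simpa [L] using h0
    | succ n ih =>
      intro h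
      have h1 : j - n ∈ J := hJ.out h hj ⟨by push_cast; omega, by omega⟩
      have h2 : j - (n + 1 : ℕ) = j - n - 1 := by push_cast; ring
      rw [h2] at h ⊢
      have h3 : j - n - 1 + 1 = j - n := by ring
      exact (hG (j - n - 1) (L n) h (by rwa [h3]) (by rw [h3]; exact ih h1)).1
  let x : ℤ → X := fun i => if j ≤ i then R (i - j).toNat else L (j - i).toNat
  have hxR : ∀ n : ℕ, x (j + n) = R n := fun n => by simp [x]
  have hxL : ∀ n : ℕ, x (j - n) = L n := fun n => by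
    cases n with
    | zero => simp [x, R, L]
    | succ n =>
      have : ¬ j ≤ j - (n + 1 : ℕ) := by push_cast; omega
      simp only [x, if_neg this]
      rw [sub_sub_cancel, Int.toNat_natCast]
  refine ⟨x, by simp [x, R], fun i hi => ?_, fun i hi hi' => ?_⟩
  · rcases le_total j i with h | h
    · obtain ⟨n, rfl⟩ := Int.le.dest h
      rw [hxR]; exact hR n hi
    · obtain ⟨n, rfl⟩ : ∃ n : ℕ, i = j - n := ⟨(j - i).toNat, by omega⟩
      rw [hxL]; exact hL n hi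
  · rcases le_or_gt j i with h | h
    · obtain ⟨n, rfl⟩ := Int.le.dest h
      have h2 : j + n + 1 = j + (n + 1 : ℕ) := by push_cast; ring
      have h3 := (hF _ _ hi hi' (hR n hi)).2
      rw [hxR, h2, hxR]
      exact h3
    · obtain ⟨n, rfl⟩ : ∃ n : ℕ, i = j - n - 1 := ⟨(j - i - 1).toNat, by omega⟩
      have h2 : j - n - 1 = j - (n + 1 : ℕ) := by push_cast; ring
      have h3 : j - n - 1 + 1 = j - n := by ring
      have h4 := (hG (j - n - 1) (L n) hi hi' (by rw [h3]; exact hL n (by rwa [← h3]))).2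
      rw [h3, hxL]
      have h5 : x (j - n - 1) = L (n + 1) := by rw [h2, hxL]
      rw [h5]
      exact h4

/-- A property invariant along edges is constant on an interval. -/
theorem iff_of_edges {J : Set ℤ} (hJ : J.OrdConnected) (P : ℤ → Prop)
    (h : ∀ i, i ∈ J → i + 1 ∈ J → (P i ↔ P (i + 1))) {i j : ℤ} (hi : i ∈ J) (hj : j ∈ J) :
    P i ↔ P j := by
  wlog hij : i ≤ j generalizing i j
  · exact (this hj hi (by omega)).symm
  induction j, hij using Int.leInduction with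
  | base => rfl
  | succ n hn ih =>
    have h1 : n ∈ J := hJ.out hi hj ⟨hn, by omega⟩
    exact (ih h1).trans (h n h1 hj)

/-! ### Sides -/

section Side
variable {D : Type} [CommRing D] {A : Type} [AddCommGroup A] [Module D A] {α β : A →ₗ[D] A}
  {E : Submodule D A} {F : Wd → Submodule D A}

theorem Side.zero (h : Side α β E F) {u : Wd} (hu : u 0 = 0) : F u = (F u.tl).map α := by
  rw [h u, if_pos hu]

theorem Side.one (h : Side α β E F) {u : Wd} (hu : u 0 = 1) : F u = E := by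
  rw [h u, hu]; simp

theorem Side.two (h : Side α β E F) {u : Wd} (hu : u 0 = 2) : F u = (F u.tl).comap β := by
  rw [h u, hu]; simp

theorem Side.of_cases (h0 : ∀ u : Wd, u 0 = 0 → F u = (F u.tl).map α)
    (h1 : ∀ u : Wd, u 0 = 1 → F u = E) (h2 : ∀ u : Wd, u 0 = 2 → F u = (F u.tl).comap β) :
    Side α β E F := by
  intro u
  rcases fin3_cases (u 0) with h | h | h
  · rw [if_pos h]; exact h0 u h
  · rw [h1 u h, h]; simp
  · rw [h2 u h, h]; simp

theorem lo_zero {n : ℕ} {u : Wd} (hu : u 0 = 0) : lo α β (n + 1) u = (lo α β n u.tl).map α := by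
  rw [lo, if_pos hu]
theorem lo_one {n : ℕ} {u : Wd} (hu : u 0 = 1) : lo α β (n + 1) u = LinearMap.range α := by
  rw [lo, hu]; simp
theorem lo_two {n : ℕ} {u : Wd} (hu : u 0 = 2) : lo α β (n + 1) u = (lo α β n u.tl).comap β := by
  rw [lo, hu]; simp
theorem up_zero {n : ℕ} {u : Wd} (hu : u 0 = 0) : up α β (n + 1) u = (up α β n u.tl).map α := by
  rw [up, if_pos hu]
theorem up_one {n : ℕ} {u : Wd} (hu : u 0 = 1) : up α β (n + 1) u = LinearMap.ker β := by
  rw [up, hu]; simp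
theorem up_two {n : ℕ} {u : Wd} (hu : u 0 = 2) : up α β (n + 1) u = (up α β n u.tl).comap β := by
  rw [up, hu]; simp

theorem lo_le_succ (n : ℕ) (u : Wd) : lo α β n u ≤ lo α β (n + 1) u := by
  induction n generalizing u with
  | zero => exact bot_le
  | succ n ih =>
    rcases fin3_cases (u 0) with h | h | h
    · rw [lo_zero h, lo_zero h]; exact Submodule.map_mono (ih _)
    · rw [lo_one h, lo_one h]
    · rw [lo_two h, lo_two h]; exact Submodule.comap_mono (ih _)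

theorem lo_mono' (u : Wd) : Monotone fun n => lo α β n u :=
  monotone_nat_of_le_succ fun n => lo_le_succ n u

theorem lo_mono (hαβ : ∀ x, β (α x) = 0) (u : Wd) : Monotone fun n => lo α β n u := lo_mono' u

theorem up_succ_le (n : ℕ) (u : Wd) : up α β (n + 1) u ≤ up α β n u := by
  induction n generalizing u with
  | zero => exact le_top
  | succ n ih =>
    rcases fin3_cases (u 0) with h | h | h
    · rw [up_zero h, up_zero h]; exact Submodule.map_mono (ih _)
    · rw [up_one h, up_one h]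
    · rw [up_two h, up_two h]; exact Submodule.comap_mono (ih _)

theorem up_anti (u : Wd) : Antitone fun n => up α β n u :=
  antitone_nat_of_succ_le fun n => up_succ_le n u

theorem mem_mn {u : Wd} {x : A} : x ∈ mn α β u ↔ ∃ n, x ∈ lo α β n u :=
  Submodule.mem_iSup_of_directed _ (lo_mono' u).directed_le

theorem side_mn' : Side α β (LinearMap.range α) (mn α β) := by
  have key : ∀ u x, x ∈ mn α β u ↔ ∃ n, x ∈ lo α β (n + 1) u := fun u x =>
    mem_mn.trans ⟨fun ⟨n, h⟩ => ⟨n, lo_le_succ n u h⟩, fun ⟨n, h⟩ => ⟨n + 1, h⟩⟩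
  refine Side.of_cases (fun u hu => ?_) (fun u hu => ?_) fun u hu => ?_
  · ext x
    simp only [key u, lo_zero hu, Submodule.mem_map, mem_mn]
    exact ⟨fun ⟨n, y, h, e⟩ => ⟨y, ⟨n, h⟩, e⟩, fun ⟨y, ⟨n, h⟩, e⟩ => ⟨n, y, h, e⟩⟩
  · ext x
    simp only [key u, lo_one hu, exists_const]
  · ext x
    simp only [key u, lo_two hu, Submodule.mem_comap, mem_mn]

theorem side_mn (hαβ : ∀ x, β (α x) = 0) : Side α β (LinearMap.range α) (mn α β) := side_mn'

theorem Side.lo_le (h : Side α β E F) (hE : LinearMap.range α ≤ E) (n : ℕ) (u : Wd) :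
    lo α β n u ≤ F u := by
  induction n generalizing u with
  | zero => exact bot_le
  | succ n ih =>
    rcases fin3_cases (u 0) with hu | hu | hu
    · rw [lo_zero hu, h.zero hu]; exact Submodule.map_mono (ih _)
    · rw [lo_one hu, h.one hu]; exact hE
    · rw [lo_two hu, h.two hu]; exact Submodule.comap_mono (ih _)

theorem Side.mn_le (h : Side α β E F) (hE : LinearMap.range α ≤ E) (u : Wd) :
    mn α β u ≤ F u := iSup_le fun n => h.lo_le hE n u

theorem Side.le_up (h : Side α β E F) (hE : E ≤ LinearMap.ker β) (n : ℕ) (u : Wd) :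
    F u ≤ up α β n u := by
  induction n generalizing u with
  | zero => exact le_top
  | succ n ih =>
    rcases fin3_cases (u 0) with hu | hu | hu
    · rw [up_zero hu, h.zero hu]; exact Submodule.map_mono (ih _)
    · rw [up_one hu, h.one hu]; exact hE
    · rw [up_two hu, h.two hu]; exact Submodule.comap_mono (ih _)

theorem Side.le_of_lt {F' : Wd → Submodule D A} (h : Side α β (LinearMap.ker β) F)
    (h' : Side α β (LinearMap.range α) F') (hαβ : ∀ x, β (α x) = 0) {u u' : Wd} (hu : u.Nrm)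
    (hu' : u'.Nrm) (hlt : toLex u < toLex u') : F u ≤ F' u' := by
  obtain ⟨k, hk, hlt'⟩ := Wd.lt_iff.1 hlt
  clear hlt
  rename' hlt' => hlt
  induction k generalizing u u' with
  | zero =>
    rcases fin3_cases (u 0) with a | a | a <;> rcases fin3_cases (u' 0) with b | b | b <;>
      rw [a, b] at hlt <;> try exact absurd hlt (by decide)
    · rw [h.zero a, h'.one b]; exact LinearMap.map_le_range
    · rw [h.zero a, h'.two b]
      rintro _ ⟨y, -, rfl⟩
      rw [Submodule.mem_comap, hαβ]; exact zero_mem _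
    · rw [h.one a, h'.two b]
      intro y hy
      rw [Submodule.mem_comap, LinearMap.mem_ker.1 hy]; exact zero_mem _
  | succ k ih =>
    have h0 := hk 0 (Nat.succ_pos k)
    have := ih hu.tl hu'.tl (fun i hi => hk (i + 1) (by omega)) hlt
    rcases fin3_cases (u 0) with a | a | a
    · rw [h.zero a, h'.zero (h0 ▸ a)]; exact Submodule.map_mono this
    · rw [hu.one_of_le a (Nat.zero_le _), hu'.one_of_le (h0 ▸ a) (Nat.zero_le _)] at hlt
      exact absurd hlt (lt_irrefl _)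
    · rw [h.two a, h'.two (h0 ▸ a)]; exact Submodule.comap_mono this

theorem Sys.Rp_le_Rm (Y : Sys α β) (hαβ : ∀ x, β (α x) = 0) {u u' : Wd} (hu : u.Nrm)
    (hu' : u'.Nrm) (h : toLex u < toLex u') : Y.Rp u ≤ Y.Rm u' :=
  Y.hRp.le_of_lt Y.hRm hαβ hu hu' h

theorem Sys.Lp_le_Lm (Y : Sys α β) (hβα : ∀ x, α (β x) = 0) {u u' : Wd} (hu : u.Nrm)
    (hu' : u'.Nrm) (h : toLex u < toLex u') : Y.Lp u ≤ Y.Lm u' :=
  Y.hLp.le_of_lt Y.hLm hβα hu hu' h

section Edge
variable (Y : Sys α β) {J : Set ℤ} {w : ℤ → Bool} {i : ℤ}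

theorem Side.rA (h : Side α β E F) (hi : i + 1 ∈ J) (hw : w i = true) :
    F (rwd J w i) = (F (rwd J w (i + 1))).map α := by
  rw [h.zero (rwd0_eq_zero.2 ⟨hi, hw⟩), rwd_tl]

theorem Side.rB (h : Side α β E F) (hi : i + 1 ∈ J) (hw : w i = false) :
    F (rwd J w i) = (F (rwd J w (i + 1))).comap β := by
  rw [h.two (rwd0_eq_two.2 ⟨hi, hw⟩), rwd_tl]

theorem Side.lA (h : Side β α E F) (hi : i ∈ J) (hw : w i = true) :
    F (lwd J w (i + 1)) = (F (lwd J w i)).comap α := by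
  rw [h.two (lwd0_eq_two.2 (by simpa using ⟨hi, hw⟩)), lwd_tl, add_sub_cancel_right]

theorem Side.lB (h : Side β α E F) (hi : i ∈ J) (hw : w i = false) :
    F (lwd J w (i + 1)) = (F (lwd J w i)).map β := by
  rw [h.zero (lwd0_eq_zero.2 (by simpa using ⟨hi, hw⟩)), lwd_tl, add_sub_cancel_right]

/-- The relation along the edge `i`. -/
def Edge (α β : A →ₗ[D] A) (w : ℤ → Bool) (i : ℤ) (x y : A) : Prop :=
  (w i = true → α y = x) ∧ (w i = false → β x = y)

theorem ATraj.edge {x : ℤ → A} (hx : ATraj α β J w x) (hi : i ∈ J) (hi' : i + 1 ∈ J) :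
    Edge α β w i (x i) (x (i + 1)) := by
  refine ⟨fun h => ?_, fun h => ?_⟩
  · have := hx.2.1 _ hi'
    rwa [add_sub_cancel_right, if_pos h] at this
  · have := hx.2.2 _ hi
    rwa [if_neg (by simp [h])] at this

theorem Sys.edge_fw {x : A} (hi : i ∈ J) (hi' : i + 1 ∈ J) (hx : x ∈ Y.Qa J w i) :
    ∃ y, y ∈ Y.Qa J w (i + 1) ∧ Edge α β w i x y := by
  obtain ⟨h1, h2⟩ := hx
  cases hw : w i
  · refine ⟨β x, ⟨?_, ?_⟩, by simp [Edge, hw]⟩
    · rw [Y.hRp.rB hi' hw] at h1; exact h1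
    · rw [Y.hLp.lB hi hw]; exact ⟨x, h2, rfl⟩
  · rw [Y.hRp.rA hi' hw] at h1
    obtain ⟨y, hy, rfl⟩ := h1
    exact ⟨y, ⟨hy, by rw [Y.hLp.lA hi hw]; exact h2⟩, by simp [Edge, hw]⟩

theorem Sys.edge_bw {y : A} (hi : i ∈ J) (hi' : i + 1 ∈ J) (hy : y ∈ Y.Qa J w (i + 1)) :
    ∃ x, x ∈ Y.Qa J w i ∧ Edge α β w i x y := by
  obtain ⟨h1, h2⟩ := hy
  cases hw : w i
  · rw [Y.hLp.lB hi hw] at h2
    obtain ⟨x, hx, rfl⟩ := h2
    exact ⟨x, ⟨by rw [Y.hRp.rB hi' hw]; exact h1, hx⟩, by simp [Edge, hw]⟩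
  · refine ⟨α y, ⟨?_, ?_⟩, by simp [Edge, hw]⟩
    · rw [Y.hRp.rA hi' hw]; exact ⟨y, h1, rfl⟩
    · rw [Y.hLp.lA hi hw] at h2; exact h2

/-- Homogeneous elements joined by edges form a trajectory. -/
theorem Sys.mem_trajG (hαβ : ∀ x, β (α x) = 0) (hβα : ∀ x, α (β x) = 0) {x : ℤ → A}
    (h0 : ∀ j, j ∉ J → x j = 0) (hQ : ∀ j ∈ J, x j ∈ Y.Qa J w j)
    (hE : ∀ i, i ∈ J → i + 1 ∈ J → Edge α β w i (x i) (x (i + 1))) : x ∈ Y.trajG J w := by
  refine ⟨⟨h0, fun j hj => ?_, fun j hj => ?_⟩, hQ⟩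
  · by_cases h : j - 1 ∈ J
    · have := hE (j - 1) h (by simpa using hj)
      rw [sub_add_cancel] at this
      cases hw : w (j - 1)
      · simp [← this.2 hw, hβα]
      · simp [this.1 hw]
    · have h2 := (hQ j hj).2
      rw [Y.hLp.one (lwd0_eq_one.2 h)] at h2
      rw [h0 _ h, ite_self]; exact h2
  · by_cases h : j + 1 ∈ J
    · have := hE j hj h
      cases hw : w j
      · simp [this.2 hw]
      · simp [← this.1 hw, hαβ]
    · have h2 := (hQ j hj).1
      rw [Y.hRp.one (rwd0_eq_one.2 h)] at h2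
      rw [h0 _ h, ite_self]; exact h2

theorem Sys.exists_traj (Y : Sys α β) (hαβ : ∀ x, β (α x) = 0) (hβα : ∀ x, α (β x) = 0)
    {J : Set ℤ} (hJ : J.OrdConnected) (w : ℤ → Bool) {j : ℤ} (hj : j ∈ J) {x0 : A}
    (hx : x0 ∈ Y.Qa J w j) : ∃ x ∈ Y.trajG J w, x j = x0 := by
  classical
  obtain ⟨x, h0, hQ, hE⟩ := exists_path hJ (fun i x => x ∈ Y.Qa J w i) (Edge α β w)
    (fun i x hi hi' h => Y.edge_fw hi hi' h) (fun i y hi hi' h => Y.edge_bw hi hi' h) hj hx
  refine ⟨fun i => if i ∈ J then x i else 0, Y.mem_trajG hαβ hβα (fun i hi => if_neg hi)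
    (fun i hi => by rw [if_pos hi]; exact hQ i hi) (fun i hi hi' => ?_), by simp [hj, h0]⟩
  rw [if_pos hi, if_pos hi']
  exact hE i hi hi'

theorem Sys.edge_low {x y : A} (hi : i ∈ J) (hi' : i + 1 ∈ J) (hx : x ∈ Y.Qa J w i)
    (hy : y ∈ Y.Qa J w (i + 1)) (hE : Edge α β w i x y) :
    x ∈ Y.Ga J w i ↔ y ∈ Y.Ga J w (i + 1) := by
  unfold Sys.Ga Sys.Gm
  cases hw : w i
  · obtain rfl := hE.2 hw
    rw [Y.hRm.rB hi' hw, Y.hRp.rB hi' hw, Y.hLm.lB hi hw]
    constructor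
    · intro h
      obtain ⟨r, hr, s, hs, rfl⟩ := Submodule.mem_sup.1 h
      rw [map_add]
      exact Submodule.add_mem_sup hr ⟨hs.1, s, hs.2, rfl⟩
    · intro h
      obtain ⟨r, hr, _, ⟨hs, l, hl, rfl⟩, e⟩ := Submodule.mem_sup.1 h
      refine Submodule.mem_sup.2 ⟨x - l, ?_, l, ⟨hs, hl⟩, by abel⟩
      rw [Submodule.mem_comap, map_sub, ← e, add_sub_cancel_right]; exact hr
  · obtain rfl := hE.1 hw
    rw [Y.hRm.rA hi' hw, Y.hRp.rA hi' hw, Y.hLm.lA hi hw]
    constructor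
    · intro h
      obtain ⟨_, ⟨r, hr, rfl⟩, s, hs, e⟩ := Submodule.mem_sup.1 h
      refine Submodule.mem_sup.2 ⟨r, hr, y - r, ⟨sub_mem hy.1 (Y.Rle _ hr), ?_⟩, by abel⟩
      change α (y - r) ∈ Y.Lm _
      rw [map_sub, ← e, add_sub_cancel_left]; exact hs.2
    · intro h
      obtain ⟨r, hr, s, hs, rfl⟩ := Submodule.mem_sup.1 h
      rw [map_add]
      exact Submodule.add_mem_sup ⟨r, hr, rfl⟩ ⟨⟨s, hs.1, rfl⟩, hs.2⟩

theorem Sys.traj_low (Y : Sys α β) {J : Set ℤ} (hJ : J.OrdConnected) (w : ℤ → Bool)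
    {x : ℤ → A} (hx : x ∈ Y.trajG J w) {i j : ℤ} (hi : i ∈ J) (hj : j ∈ J) :
    x i ∈ Y.Ga J w i ↔ x j ∈ Y.Ga J w j :=
  iff_of_edges hJ (fun i => x i ∈ Y.Ga J w i) (fun i h h' =>
    Y.edge_low h h' (hx.2 i h) (hx.2 _ h') (hx.1.edge h h')) hi hj

end Edge

/-- Stability of the lower approximations under a family of endomorphisms. -/
theorem lo_stable {ι : Type} (e : ι → A →ₗ[D] A)
    (ha : ∀ r, ∃ r', ∀ x, e r (α x) = α (e r' x)) (hb : ∀ r, ∃ r', ∀ x, β (e r x) = e r' (β x))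
    (n : ℕ) (u : Wd) (r : ι) {x : A} (hx : x ∈ lo α β n u) : e r x ∈ lo α β n u := by
  induction n generalizing u r x with
  | zero => rw [(Submodule.mem_bot D).1 hx, map_zero]; exact zero_mem _
  | succ n ih =>
    obtain ⟨r1, h1⟩ := ha r
    obtain ⟨r2, h2⟩ := hb r
    rcases fin3_cases (u 0) with hu | hu | hu
    · rw [lo_zero hu] at hx ⊢
      obtain ⟨y, hy, rfl⟩ := hx
      exact ⟨_, ih _ r1 hy, (h1 y).symm⟩
    · rw [lo_one hu] at hx ⊢
      obtain ⟨y, rfl⟩ := hx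
      exact ⟨_, (h1 y).symm⟩
    · rw [lo_two hu] at hx ⊢
      rw [Submodule.mem_comap, h2]
      exact ih _ r2 hx

theorem mn_stable {ι : Type} (e : ι → A →ₗ[D] A)
    (ha : ∀ r, ∃ r', ∀ x, e r (α x) = α (e r' x)) (hb : ∀ r, ∃ r', ∀ x, β (e r x) = e r' (β x))
    (u : Wd) (r : ι) {x : A} (hx : x ∈ mn α β u) : e r x ∈ mn α β u := by
  obtain ⟨n, hn⟩ := mem_mn.1 hx
  exact mem_mn.2 ⟨n, lo_stable e ha hb n u r hn⟩

end Side

section DualSys
variable {D : Type} [CommRing D] [IsDomain D] [IsPrincipalIdealRing D] {A : Type}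
  [AddCommGroup A] [Module D A] {α β : A →ₗ[D] A}

theorem ann_lo (n : ℕ) (u : Wd) : ann (lo α β n u) = up (du β) (du α) n u.flip := by
  induction n generalizing u with
  | zero => exact ann_bot
  | succ n ih =>
    rcases fin3_cases (u 0) with hu | hu | hu
    · rw [lo_zero hu, up_two (Wd.flip_eq_two.2 hu), ann_map, ih, Wd.flip_tl]
    · rw [lo_one hu, up_one (Wd.flip_eq_one.2 hu), ann_range]
    · rw [lo_two hu, up_zero (Wd.flip_eq_zero.2 hu), ann_comap, ih, Wd.flip_tl]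

theorem ann_up (n : ℕ) (u : Wd) : ann (up α β n u) = lo (du β) (du α) n u.flip := by
  induction n generalizing u with
  | zero => exact ann_top
  | succ n ih =>
    rcases fin3_cases (u 0) with hu | hu | hu
    · rw [up_zero hu, lo_two (Wd.flip_eq_two.2 hu), ann_map, ih, Wd.flip_tl]
    · rw [up_one hu, lo_one (Wd.flip_eq_one.2 hu), ann_ker]
    · rw [up_two hu, lo_zero (Wd.flip_eq_zero.2 hu), ann_comap, ih, Wd.flip_tl]

theorem Side.ann {E : Submodule D A} {F : Wd → Submodule D A} (h : Side α β E F) :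
    Side (du β) (du α) (ann E) fun u => ann (F u.flip) := by
  refine Side.of_cases (fun u hu => ?_) (fun u hu => ?_) fun u hu => ?_
  · rw [h.two (Wd.flip_eq_two.2 hu), ann_comap, Wd.flip_tl]
  · rw [h.one (Wd.flip_eq_one.2 hu)]
  · rw [h.zero (Wd.flip_eq_zero.2 hu), ann_map, Wd.flip_tl]

/-- The dual system. -/
def Sys.dual (Y : Sys α β) : Sys (du β) (du α) where
  Rm u := ann (Y.Rp u.flip)
  Rp u := ann (Y.Rm u.flip)
  Lm u := ann (Y.Lp u.flip)
  Lp u := ann (Y.Lm u.flip)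
  hRm := ann_ker β ▸ Y.hRp.ann
  hRp := ann_range α ▸ Y.hRm.ann
  hLm := ann_ker α ▸ Y.hLp.ann
  hLp := ann_range β ▸ Y.hLm.ann
  Rle _ := ann_anti (Y.Rle _)
  Lle _ := ann_anti (Y.Lle _)

/-- The dual system lives on the dual module, for the word with A and B exchanged. -/
theorem Sys.exists_dual (Y : Sys α β) : ∃ Y' : Sys (du β) (du α),
    (∀ u, Y'.Rm u = ann (Y.Rp u.flip)) ∧ (∀ u, Y'.Rp u = ann (Y.Rm u.flip)) ∧
    (∀ u, Y'.Lm u = ann (Y.Lp u.flip)) ∧ ∀ u, Y'.Lp u = ann (Y.Lm u.flip) :=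
  ⟨Y.dual, fun _ => rfl, fun _ => rfl, fun _ => rfl, fun _ => rfl⟩

theorem ann_mn (u : Wd) : ann (mn α β u) = ⨅ n, up (du β) (du α) n u.flip := by
  simp only [mn, ann_iSup, ann_lo]

theorem mn_du_le (hαβ : ∀ x, β (α x) = 0) (u : Wd) :
    mn (du β) (du α) u.flip ≤ ann (mn α β u) := by
  refine iSup_le fun n => ?_
  rw [← ann_up]
  refine ann_anti (side_mn'.le_up ?_ n u)
  rintro _ ⟨y, rfl⟩
  exact hαβ y

end DualSys

section DDsys
variable {D Λ S : Type} [CommRing D] [IsDomain D] [Ring Λ] [Algebra D Λ] [Ring S] [Algebra D S]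
  (Δ : SD D Λ S)

theorem SD.ba : Δ.b * Δ.a = 0 := by rw [Δ.cb, Δ.ab]

variable (M : Type) [AddCommGroup M] [Module Λ M] [Module D M] [IsScalarTower D Λ M]

theorem SD.act_ba (x : M) : act D M Δ.b (act D M Δ.a x) = 0 := by
  simp [smul_smul, Δ.ba]

theorem SD.act_ab (x : M) : act D M Δ.a (act D M Δ.b x) = 0 := by
  simp [smul_smul, Δ.ab]

theorem SD.mnR_stable (u : Wd) (r : Λ) {x : M} (hx : x ∈ mn (act D M Δ.a) (act D M Δ.b) u) :
    r • x ∈ mn (act D M Δ.a) (act D M Δ.b) u :=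
  mn_stable (act D M) (fun r => (Δ.na' r).elim fun r' h => ⟨r', fun x => by
    simp [smul_smul, h.1]⟩) (fun r => ⟨r, fun x => by simp [smul_smul, Δ.cb]⟩) u r hx

theorem SD.mnL_stable (u : Wd) (r : Λ) {x : M} (hx : x ∈ mn (act D M Δ.b) (act D M Δ.a) u) :
    r • x ∈ mn (act D M Δ.b) (act D M Δ.a) u :=
  mn_stable (act D M) (fun r => ⟨r, fun x => by simp [smul_smul, Δ.cb]⟩)
    (fun r => (Δ.na r).elim fun r' h => ⟨r', fun x => by simp [smul_smul, h.1]⟩) u r hx

theorem SD.mnR_du_stable (u : Wd) (r : Λ) {χ : Du D M}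
    (hx : χ ∈ mn (du (act D M Δ.b)) (du (act D M Δ.a)) u) :
    du (act D M r) χ ∈ mn (du (act D M Δ.b)) (du (act D M Δ.a)) u :=
  mn_stable (fun r => du (act D M r))
    (fun r => ⟨r, fun χ => LinearMap.ext fun x => by simp [smul_smul, Δ.cb]⟩)
    (fun r => (Δ.na' r).elim fun r' h => ⟨r', fun χ => LinearMap.ext fun x => by
      simp [smul_smul, h.1]⟩) u r hx

theorem SD.mnL_du_stable (u : Wd) (r : Λ) {χ : Du D M}
    (hx : χ ∈ mn (du (act D M Δ.a)) (du (act D M Δ.b)) u) :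
    du (act D M r) χ ∈ mn (du (act D M Δ.a)) (du (act D M Δ.b)) u :=
  mn_stable (fun r => du (act D M r))
    (fun r => (Δ.na r).elim fun r' h => ⟨r', fun χ => LinearMap.ext fun x => by
      simp [smul_smul, h.1]⟩)
    (fun r => ⟨r, fun χ => LinearMap.ext fun x => by simp [smul_smul, Δ.cb]⟩) u r hx

variable [IsPrincipalIdealRing D]

theorem exists_ddSys : ∃ Y, IsDDSys Δ M Y := by
  have hRp : Side (act D (DD D M) Δ.a) (act D (DD D M) Δ.b) (LinearMap.ker (act D (DD D M) Δ.b))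
      fun u => ann (mn (du (act D M Δ.b)) (du (act D M Δ.a)) u.flip) := by
    have := (side_mn' (α := du (act D M Δ.b)) (β := du (act D M Δ.a))).ann
    rwa [ann_range] at this
  have hLp : Side (act D (DD D M) Δ.b) (act D (DD D M) Δ.a) (LinearMap.ker (act D (DD D M) Δ.a))
      fun u => ann (mn (du (act D M Δ.a)) (du (act D M Δ.b)) u.flip) := by
    have := (side_mn' (α := du (act D M Δ.a)) (β := du (act D M Δ.b))).ann
    rwa [ann_range] at this
  have hRm : Side (act D (DD D M) Δ.a) (act D (DD D M) Δ.b)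
      (LinearMap.range (act D (DD D M) Δ.a))
      fun u => ann (ann (mn (act D M Δ.a) (act D M Δ.b) u)) := by
    have := (side_mn' (α := act D M Δ.a) (β := act D M Δ.b)).ann.ann
    simp only [Wd.flip_flip] at this
    rwa [ann_range, ann_ker] at this
  refine ⟨⟨_, _, _, _, hRm, hRp, side_mn', hLp, fun u => ann_anti (mn_du_le (Δ.act_ba M) u),
    hLp.mn_le ?_⟩, fun _ => rfl, fun _ => rfl, fun _ => rfl, fun _ => rfl, fun u r x => ?_⟩
  · rintro _ ⟨y, rfl⟩
    exact Δ.act_ab _ y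
  · refine ⟨fun h χ hχ => h _ fun y hy => hχ _ (Δ.mnR_stable M u r hy),
      fun h χ hχ => h _ (Δ.mnR_du_stable M _ r hχ), Δ.mnL_stable _ u r,
      fun h χ hχ => h _ (Δ.mnL_du_stable M _ r hχ)⟩

end DDsys

end Pool.Agent.Lib.MP_c13fce_lc
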