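import Mathlib.Computability.TuringMachine.ToPartrec
import Mathlib.Computability.Halting
import Mathlib.Tactic

namespace Pool.Agent.Lib.MP_c13fce_lc.Und

open Turing Turing.TM2 Function

section Machine

variable {K Γ Λ σ : Type} [DecidableEq K]

/-- letters of the semigroup presentation -/
inductive Lt (K Γ Λ σ : Type) : Type
  | st : Stmt (fun _ : K => Γ) Λ σ → σ → Lt K Γ Λ σ
  | sy : K → Option Γ → Lt K Γ Λ σ
  | hh : Lt K Γ Λ σ

open Lt

variable (M : Λ → Stmt (fun _ : K => Γ) Λ σ)

def rel1 : Stmt (fun _ : K => Γ) Λ σ → σ → Option Γ → List (Lt K Γ Λ σ) × List (Lt K Γ Λ σ)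
  | q@(.push k f q'), v, _ => ([st q v], [st q' v, sy k (some (f v))])
  | q@(.peek k f q'), v, o => ([st q v, sy k o], [st q' (f v o), sy k o])
  | q@(.pop k f q'), v, none => ([st q v, sy k none], [st q' (f v none), sy k none])
  | q@(.pop k f q'), v, some x => ([st q v, sy k (some x)], [st q' (f v (some x))])
  | q@(.load f q'), v, _ => ([st q v], [st q' (f v)])
  | q@(.branch f q₁ q₂), v, _ => ([st q v], [st (cond (f v) q₁ q₂) v])
  | q@(.goto f), v, _ => ([st q v], [st (M (f v)) v])
  | q@(.halt), v, _ => ([st q v], [hh])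

def rel2 (a b : K × Option Γ) : List (Lt K Γ Λ σ) × List (Lt K Γ Λ σ) :=
  if a.1 = b.1 then ([hh, sy a.1 a.2], [hh]) else ([sy a.1 a.2, sy b.1 b.2], [sy b.1 b.2, sy a.1 a.2])

def Rels (S : Finset Λ) : Set (List (Lt K Γ Λ σ) × List (Lt K Γ Λ σ)) :=
  {p | (∃ q v o, some q ∈ stmts M S ∧ p = rel1 M q v o) ∨ ∃ a b, p = rel2 a b}

theorem rels_finite [Finite K] [Finite Γ] [Finite σ] (S : Finset Λ) : (Rels M S).Finite := by
  have h1 : {q | some q ∈ stmts M S}.Finite :=
    (stmts M S).finite_toSet.preimage (Option.some_injective _).injOn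
  refine (((h1.prod (Set.finite_univ (α := σ × Option Γ))).image
    fun x => rel1 M x.1 x.2.1 x.2.2).union
    (Set.finite_range fun x : (K × Option Γ) × (K × Option Γ) => rel2 x.1 x.2)).subset ?_
  rintro p (⟨q, v, o, h, rfl⟩ | ⟨a, b, rfl⟩)
  · exact Or.inl ⟨(q, v, o), ⟨h, trivial⟩, rfl⟩
  · exact Or.inr ⟨(a, b), rfl⟩

theorem rels_ne (S : Finset Λ) : ∀ p ∈ Rels M S, p.1 ≠ [] ∧ p.2 ≠ [] := by
  rintro p (⟨q, v, o, -, rfl⟩ | ⟨a, b, rfl⟩)
  · cases q <;> cases o <;> simp [rel1]
  · unfold rel2; split_ifs <;> simp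

section fw

variable {W : Type} [Monoid W] (ρ : Lt K Γ Λ σ → W)

def stk (k : K) (L : List Γ) : W := (L.map fun x => ρ (sy k (some x))).prod * ρ (sy k none)

def rest (ks : List K) (T : K → List Γ) : W := (ks.map fun k => stk ρ k (T k)).prod

omit [DecidableEq K] in
theorem stk_comm (hc : ∀ k k' o o', k ≠ k' → Commute (ρ (sy k o)) (ρ (sy k' o')))
    {k k' : K} (h : k ≠ k') (L L' : List Γ) : Commute (stk ρ k L) (stk ρ k' L') := by
  have h1 : ∀ o, Commute (ρ (sy k o)) (stk ρ k' L') := fun o =>
    (Commute.list_prod_right _ _ (by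
      intro x hx
      obtain ⟨y, -, rfl⟩ := List.mem_map.1 hx
      exact hc _ _ _ _ h)).mul_right (hc _ _ _ _ h)
  refine (Commute.list_prod_left _ _ ?_).mul_left (h1 _)
  intro x hx
  obtain ⟨y, -, rfl⟩ := List.mem_map.1 hx
  exact h1 _

theorem rest_eq (hc : ∀ k k' o o', k ≠ k' → Commute (ρ (sy k o)) (ρ (sy k' o')))
    {ks : List K} (hn : ks.Nodup) {k : K} (hk : k ∈ ks) (T : K → List Γ) :
    rest ρ ks T = stk ρ k (T k) * rest ρ (ks.erase k) T := by
  have := (List.perm_cons_erase hk).map fun k => stk ρ k (T k)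
  rw [rest, this.prod_eq', List.map_cons, List.prod_cons, rest]
  rw [List.pairwise_map]
  exact hn.imp fun h => stk_comm ρ hc h _ _

theorem rest_update {ks : List K} (hn : ks.Nodup) (k : K) (T : K → List Γ) (L : List Γ) :
    rest ρ (ks.erase k) (update T k L) = rest ρ (ks.erase k) T := by
  unfold rest
  congr 1
  refine List.map_congr_left fun a ha => ?_
  rw [update_of_ne ((hn.mem_erase_iff.1 ha).1)]

def conf (ks : List K) : Cfg (fun _ : K => Γ) Λ σ → W
  | ⟨none, _, _⟩ => ρ hh
  | ⟨some l, v, T⟩ => ρ (st (M l) v) * rest ρ ks T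

theorem fw_aux {S : Finset Λ}
    (hR : ∀ p ∈ Rels M S, (p.1.map ρ).prod = (p.2.map ρ).prod)
    {ks : List K} (hn : ks.Nodup) (hk : ∀ k, k ∈ ks) :
    ∀ q, some q ∈ stmts M S → ∀ v T,
      ρ (st q v) * rest ρ ks T = conf M ρ ks (stepAux q v T) := by
  have hc : ∀ k k' o o', k ≠ k' → Commute (ρ (sy k o)) (ρ (sy k' o')) := by
    intro k k' o o' h
    simpa [rel2, h, Commute, SemiconjBy] using hR _ (Or.inr ⟨(k, o), (k', o'), rfl⟩)
  have hh1 : ∀ k o, ρ hh * ρ (sy k o) = ρ hh := by
    intro k o
    simpa [rel2] using hR _ (Or.inr ⟨(k, o), (k, o), rfl⟩)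
  have hh2 : ∀ (l : List K) T, ρ hh * rest ρ l T = ρ hh := by
    intro l T
    induction l with
    | nil => simp [rest]
    | cons k l ih =>
      have : ∀ L, ρ hh * stk ρ k L = ρ hh := by
        intro L
        induction L with
        | nil => simp [stk, hh1]
        | cons x L ih => simpa [stk, ← mul_assoc, hh1] using ih
      simpa [rest, ← mul_assoc, this] using ih
  intro q
  induction q with
  | push k f q ih =>
    intro hq v T
    have := hR _ (Or.inl ⟨_, v, none, hq, rfl⟩)
    simp only [rel1, List.map_cons, List.map_nil, List.prod_cons, List.prod_nil, mul_one] at this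
    rw [this, stepAux, ← ih (stmts_trans (by simp [stmts₁, stmts₁_self]) hq),
      rest_eq ρ hc hn (hk k) T, rest_eq ρ hc hn (hk k) (update _ _ _), rest_update ρ hn]
    simp [stk, mul_assoc]
  | peek k f q ih =>
    intro hq v T
    have := hR _ (Or.inl ⟨_, v, (T k).head?, hq, rfl⟩)
    simp only [rel1, List.map_cons, List.map_nil, List.prod_cons, List.prod_nil, mul_one] at this
    rw [stepAux, ← ih (stmts_trans (by simp [stmts₁, stmts₁_self]) hq),
      rest_eq ρ hc hn (hk k) T]
    cases e : T k <;> simp only [e, List.head?_nil, List.head?_cons] at this <;>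
      simp [stk, ← mul_assoc, this]
  | pop k f q ih =>
    intro hq v T
    have := hR _ (Or.inl ⟨_, v, (T k).head?, hq, rfl⟩)
    rw [stepAux, ← ih (stmts_trans (by simp [stmts₁, stmts₁_self]) hq),
      rest_eq ρ hc hn (hk k) T, rest_eq ρ hc hn (hk k) (update _ _ _), rest_update ρ hn]
    cases e : T k <;>
      simp only [e, List.head?_nil, List.head?_cons, rel1, List.map_cons, List.map_nil,
        List.prod_cons, List.prod_nil, mul_one] at this <;>
      simp [stk, ← mul_assoc, this]
  | load f q ih =>
    intro hq v T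
    have := hR _ (Or.inl ⟨_, v, none, hq, rfl⟩)
    simp only [rel1, List.map_cons, List.map_nil, List.prod_cons, List.prod_nil, mul_one] at this
    rw [this, stepAux, ← ih (stmts_trans (by simp [stmts₁, stmts₁_self]) hq)]
  | branch f q₁ q₂ ih₁ ih₂ =>
    intro hq v T
    have := hR _ (Or.inl ⟨_, v, none, hq, rfl⟩)
    simp only [rel1, List.map_cons, List.map_nil, List.prod_cons, List.prod_nil, mul_one] at this
    rw [this, stepAux]
    cases f v
    · exact ih₂ (stmts_trans (by simp [stmts₁, stmts₁_self]) hq) v T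
    · exact ih₁ (stmts_trans (by simp [stmts₁, stmts₁_self]) hq) v T
  | goto f =>
    intro hq v T
    have := hR _ (Or.inl ⟨_, v, none, hq, rfl⟩)
    simp only [rel1, List.map_cons, List.map_nil, List.prod_cons, List.prod_nil, mul_one] at this
    rw [this]; rfl
  | halt =>
    intro hq v T
    have := hR _ (Or.inl ⟨_, v, none, hq, rfl⟩)
    simp only [rel1, List.map_cons, List.map_nil, List.prod_cons, List.prod_nil, mul_one] at this
    rw [this, hh2]; rfl

theorem fw [Inhabited Λ] {S : Finset Λ} (hS : Supports M S)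
    (hR : ∀ p ∈ Rels M S, (p.1.map ρ).prod = (p.2.map ρ).prod)
    {ks : List K} (hn : ks.Nodup) (hk : ∀ k, k ∈ ks) (c : Cfg (fun _ : K => Γ) Λ σ)
    (hc : (StateTransition.eval (step M) c).Dom) (hl : c.l ∈ Finset.insertNone S) :
    conf M ρ ks c = ρ hh := by
  revert hl
  refine StateTransition.evalInduction (C := fun c => c.l ∈ Finset.insertNone S → conf M ρ ks c = ρ hh)
    (Part.get_mem hc) ?_
  rintro ⟨_ | l, v, T⟩ - ih hl
  · rfl
  · rw [← ih _ rfl (step_supports M hS rfl hl)]
    refine fw_aux M ρ hR hn hk _ ?_ v T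
    simp only [stmts, Finset.some_mem_insertNone, Finset.mem_biUnion]
    exact ⟨l, Finset.some_mem_insertNone.1 hl, stmts₁_self⟩

end fw

def act : Lt K Γ Λ σ → Function.End ((K → List Γ) ⊕ Prop)
  | _, .inr b => .inr b
  | st q v, .inl T => .inr (StateTransition.eval (step M) (stepAux q v T)).Dom
  | sy k (some x), .inl T => .inl (update T k (x :: T k))
  | sy k none, .inl T => .inl (update T k [])
  | hh, .inl _ => .inr True

theorem act_inr (a : Lt K Γ Λ σ) (b : Prop) : act M a (.inr b) = .inr b := by
  cases a <;> rfl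

theorem act_rels (S : Finset Λ) :
    ∀ p ∈ Rels M S, (p.1.map (act M)).prod = (p.2.map (act M)).prod := by
  have hm : ∀ (f g : Function.End ((K → List Γ) ⊕ Prop)) x, (f * g) x = f (g x) :=
    fun _ _ _ => rfl
  have h1 : ∀ x, (1 : Function.End ((K → List Γ) ⊕ Prop)) x = x := fun _ => rfl
  rintro p (⟨q, v, o, -, rfl⟩ | ⟨⟨k, o⟩, ⟨k', o'⟩, rfl⟩)
  · funext x
    rcases x with T | b
    · cases q with
      | goto f =>
        simp only [rel1, List.map_cons, List.map_nil, List.prod_cons, List.prod_nil, mul_one, act,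
          stepAux]
        rw [StateTransition.reaches_eval (f := step M) (b := stepAux (M (f v)) v T)
          (Relation.ReflTransGen.single rfl)]
      | halt =>
        simp only [rel1, List.map_cons, List.map_nil, List.prod_cons, List.prod_nil, mul_one, act,
          stepAux]
        congr 1
        refine eq_true (Part.dom_iff_mem.2 ⟨_, StateTransition.mem_eval.2
          ⟨Relation.ReflTransGen.refl, rfl⟩⟩)
      | branch f q₁ q₂ => cases e : f v <;> simp [rel1, act, e, hm, h1]
      | _ => cases o <;> simp [rel1, hm, h1, act]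
    · cases q <;> cases o <;> simp [rel1, hm, h1, act_inr]
  · funext x
    unfold rel2
    split_ifs with h
    · rcases x with T | b <;> cases o <;> simp [hm, h1, act]
    · simp only at h
      rcases x with T | b
      · cases o <;> cases o' <;> simp [hm, act, update_comm h, h, Ne.symm h]
      · simp [hm, act_inr]

theorem end_mul {X : Type} (f g : Function.End X) (x : X) : (f * g) x = f (g x) := rfl

theorem act_push (k : K) : ∀ L : List Γ,
    ((L.map fun x => act M (sy k (some x))).prod) (.inl fun _ => []) =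
      .inl (update (fun _ => []) k L) := by
  intro L
  induction L with
  | nil => simp; rfl
  | cons x L ih =>
    rw [List.map_cons, List.prod_cons]
    rw [end_mul, ih]; simp [act]

theorem act_bot : ∀ ks : List K,
    ((ks.map fun k => act M (sy k none)).prod) (.inl fun _ => []) = .inl fun _ => [] := by
  intro ks
  induction ks with
  | nil => rfl
  | cons k ks ih =>
    rw [List.map_cons, List.prod_cons]
    rw [end_mul, ih]; simp [act]

end Machine

open ToPartrec PartrecToTM2 in
theorem exists_code_unary : ∃ (c : Code) (P : ℕ → Prop), ¬ ComputablePred P ∧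
    ∀ w, (c.eval (List.replicate w 1)).Dom ↔ P w := by
  let f : List.Vector ℕ 1 →. ℕ := fun v =>
    Nat.Partrec.Code.eval (Denumerable.ofNat Nat.Partrec.Code (v.head - 1)) 0
  have hf : Nat.Partrec' f := Nat.Partrec'.part_iff.2 (Nat.Partrec.Code.eval_part.comp
    ((Computable.ofNat _).comp
      (Primrec.nat_sub.comp Primrec.vector_head (Primrec.const 1)).to_comp) (Computable.const 0))
  obtain ⟨c, hc⟩ := Code.exists_code hf
  let b : Code := Code.cons Code.tail (Code.cons Code.succ (Code.tail.comp Code.tail))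
  have hb : ∀ w a, [a + w + 1] ∈ (Code.fix b).eval (a :: List.replicate w 1) := by
    intro w
    induction w with
    | zero =>
      intro a
      rw [Code.fix_eval, PFun.mem_fix_iff]
      left; simp [b]
    | succ w ih =>
      intro a
      rw [Code.fix_eval, PFun.mem_fix_iff]
      right
      refine ⟨(a + 1) :: List.replicate w 1, by simp [b, List.replicate_succ], ?_⟩
      have := ih (a + 1)
      rw [Code.fix_eval] at this
      simpa [Nat.add_assoc, Nat.add_comm 1 w] using this
  refine ⟨c.comp ((Code.fix b).comp Code.zero'), fun w =>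
    (Nat.Partrec.Code.eval (Denumerable.ofNat Nat.Partrec.Code w) 0).Dom, fun h => ?_, fun w => ?_⟩
  · refine ComputablePred.halting_problem 0 ?_
    obtain ⟨d, h⟩ := h
    exact ⟨fun c => by simpa using d (Encodable.encode c),
      (h.comp Computable.encode).of_eq fun c => by simp⟩
  · have h1 := Part.eq_some_iff.2 (hb w 0)
    have h2 := hc ⟨[0 + w + 1], rfl⟩
    simp only [Code.comp_eval, Code.zero'_eval, pure_bind, h1]
    change (Part.some _ >>= _).Dom ↔ _
    rw [Part.bind_eq_bind, Part.bind_some, h2]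
    simp [f, List.Vector.head]

def Good (n : ℕ) (u : List ℕ) : Prop := u ≠ [] ∧ ∀ i ∈ u, i < n

theorem post : ∃ (n : ℕ) (R : List (List ℕ × List ℕ)) (U : ℕ → List ℕ) (V : List ℕ)
    (P : ℕ → Prop), ¬ ComputablePred P ∧ Primrec U ∧ (∀ p ∈ R, Good n p.1 ∧ Good n p.2) ∧
    (∀ w, Good n (U w)) ∧ Good n V ∧
    (∀ w, P w → ∀ (W : Type) [Monoid W] (ρ : ℕ → W),
      (∀ p ∈ R, (p.1.map ρ).prod = (p.2.map ρ).prod) → ((U w).map ρ).prod = (V.map ρ).prod) ∧
    ∃ (X : Type) (f : ℕ → Function.End X), (∀ p ∈ R, (p.1.map f).prod = (p.2.map f).prod) ∧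
      ∀ w, ¬ P w → ((U w).map f).prod ≠ (V.map f).prod := by
  classical
  open ToPartrec PartrecToTM2 Lt in
  obtain ⟨c, P, hP, hc⟩ := exists_code_unary
  let _ : Inhabited Λ' := ⟨trNormal c .halt⟩
  have hS : Supports tr (codeSupp c .halt) := tr_supports c .halt
  let ks : List K' := [.main, .rev, .aux, .stack]
  have hk : ∀ k, k ∈ ks := fun k => by cases k <;> simp [ks]
  have hn : ks.Nodup := by simp [ks]
  have _ : Finite K' := Finite.of_surjective (fun i : Fin ks.length => ks.get i)
    fun k => List.get_of_mem (hk k)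
  let A := Lt K' Γ' Λ' (Option Γ')
  let R : List (List A × List A) := (rels_finite tr (codeSupp c .halt)).toFinset.toList
  have hRm : ∀ p, p ∈ R ↔ p ∈ Rels tr (codeSupp c .halt) := fun p => by simp [R]
  let a0 : A := st (tr (trNormal c .halt)) none
  let blk : List A := [sy .main (some .bit1), sy .main (some .cons)]
  let suf : List A := ks.map fun k => sy k none
  let l : List A := a0 :: hh :: blk ++ suf ++ R.flatMap fun p => p.1 ++ p.2
  let U : ℕ → List A := fun w => a0 :: (fun u => blk ++ u)^[w] suf
  have hU : ∀ w, U w = a0 :: ((trList (List.replicate w 1)).map fun x => sy .main (some x)) ++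
      suf := by
    intro w
    simp only [U, List.cons_append, List.cons.injEq, true_and]
    induction w with
    | zero => rfl
    | succ w ih => rw [Function.iterate_succ_apply', ih]; rfl
  have hUl : ∀ w, ∀ a ∈ U w, a ∈ l := by
    intro w a ha
    rcases List.mem_cons.1 ha with rfl | ha
    · simp [l]
    · induction w with
      | zero => simp only [Function.iterate_zero, id] at ha; simp [l, ha]
      | succ w ih =>
        rw [Function.iterate_succ_apply', List.mem_append] at ha
        rcases ha with ha | ha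
        · simp [l, ha]
        · exact ih (by simp [U, ha]) ha
  have hR1 : ∀ p ∈ R, ∀ a ∈ p.1, a ∈ l := fun p hp a ha => by
    simp only [l, List.cons_append, List.mem_cons, List.mem_append, List.mem_flatMap]
    exact Or.inr (Or.inr (Or.inr ⟨p, hp, Or.inl ha⟩))
  have hR2 : ∀ p ∈ R, ∀ a ∈ p.2, a ∈ l := fun p hp a ha => by
    simp only [l, List.cons_append, List.mem_cons, List.mem_append, List.mem_flatMap]
    exact Or.inr (Or.inr (Or.inr ⟨p, hp, Or.inr ha⟩))
  have hG : ∀ u : List A, u ≠ [] → (∀ a ∈ u, a ∈ l) → Good l.length (u.map l.idxOf) := by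
    intro u h1 h2
    refine ⟨by simpa using h1, fun i hi => ?_⟩
    obtain ⟨a, ha, rfl⟩ := List.mem_map.1 hi
    exact List.idxOf_lt_length_iff.2 (h2 a ha)
  have hinit : ∀ w, (init c (List.replicate w 1)).stk =
      update (fun _ => []) K'.main (trList (List.replicate w 1)) := by
    intro w; funext k; cases k <;> rfl
  have hdom : ∀ w, (StateTransition.eval (step tr) (init c (List.replicate w 1))).Dom ↔ P w := by
    intro w; rw [tr_eval, ← hc]; rfl
  refine ⟨l.length, R.map fun p => (p.1.map l.idxOf, p.2.map l.idxOf),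
    fun w => (U w).map l.idxOf, [l.idxOf hh], P, hP, ?_, ?_, fun w => hG _ (by simp [U]) (hUl w),
    hG [hh] (by simp) (by simp [l]), ?_, ?_⟩
  · refine (Primrec.list_cons.comp (Primrec.const (l.idxOf a0))
      (Primrec.nat_iterate (h := fun _ u => blk.map l.idxOf ++ u) Primrec.id
        (Primrec.const (suf.map l.idxOf))
        (Primrec.list_append.comp (Primrec.const _) Primrec.snd).to₂)).of_eq fun w => ?_
    simp only [U, List.map_cons, List.cons.injEq, true_and, id]
    induction w with
    | zero => rfl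
    | succ w ih => rw [Function.iterate_succ_apply', Function.iterate_succ_apply', ih,
        List.map_append]
  · intro p hp
    obtain ⟨q, hq, rfl⟩ := List.mem_map.1 hp
    have := rels_ne tr _ q ((hRm q).1 hq)
    exact ⟨hG _ this.1 (hR1 q hq), hG _ this.2 (hR2 q hq)⟩
  · intro w hw W _ ρ hρ
    have h := fw tr (fun a => ρ (l.idxOf a)) hS (fun p hp => by
      simpa [List.map_map, Function.comp_def] using hρ _ (List.mem_map.2 ⟨p, (hRm p).2 hp, rfl⟩)) hn hk
      (init c (List.replicate w 1)) ((hdom w).2 hw) (Finset.some_mem_insertNone.2 hS.1)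
    beta_reduce
    rw [hU]
    simpa [conf, PartrecToTM2.init, a0, rest, stk, ks, suf, K'.elim, List.map_map, Function.comp_def,
      mul_assoc] using h
  · have e : ∀ u : List A, (∀ a ∈ u, a ∈ l) →
        (u.map l.idxOf).map (fun i => act tr (l.getD i hh)) = u.map (act tr) := by
      intro u hu
      rw [List.map_map]
      refine List.map_congr_left fun a ha => ?_
      simp [List.getElem?_idxOf (hu a ha)]
    refine ⟨_, fun i => act tr (l.getD i hh), fun p hp => ?_, fun w hw h => hw ?_⟩
    · obtain ⟨q, hq, rfl⟩ := List.mem_map.1 hp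
      rw [e _ (hR1 q hq), e _ (hR2 q hq)]
      exact act_rels tr _ q ((hRm q).1 hq)
    · have h' := e [hh] (by simp [l])
      rw [List.map_singleton] at h'
      rw [e _ (hUl w), h', hU] at h
      have h2 := congrFun h (.inl fun _ => [])
      rw [List.cons_append, List.map_cons, List.prod_cons, List.map_append, List.prod_append,
        List.map_map, List.map_map] at h2
      rw [end_mul, end_mul, Function.comp_def, Function.comp_def, act_bot, act_push, ← hinit] at h2
      refine (hdom w).1 ?_
      have h3 := StateTransition.reaches_eval (f := step tr) (a := init c (List.replicate w 1))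
        (Relation.ReflTransGen.single rfl)
      exact h3 ▸ of_eq_true (Sum.inr.inj h2)

end Pool.Agent.Lib.MP_c13fce_lc.Und
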